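import Pool.Agent.Lib.MP_9eae41_pr.D0

set_option autoImplicit false

open Complex MeasureTheory Set Filter Topology
open scoped ComplexConjugate ENNReal

namespace CZ

/-! Row A1 (250 lines): closure properties of IsDP. Everything elementary; chi is completely
multiplicative on positive integers (Nat.factorization_mul, Finsupp.prod_add_index'). -/

theorem chi_one (X : ℕ → ℂ) : chi X 1 = 1 := by
  simp [chi]

theorem chi_mul (X : ℕ → ℂ) {m n : ℕ} (hm : m ≠ 0) (hn : n ≠ 0) : chi X (m * n) = chi X m * chi X n := by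
  unfold chi
  rw [Nat.factorization_mul hm hn]
  exact Finsupp.prod_add_index' (fun p => pow_zero _) (fun p a b => pow_add _ _ _)

theorem chi_prime (X : ℕ → ℂ) {p : ℕ} (hp : p.Prime) : chi X p = X p := by
  unfold chi
  rw [hp.factorization]
  have h := Finsupp.prod_single_index (a := p) (b := 1) (h := fun (p k : ℕ) => X p ^ k) (pow_zero _)
  rw [h, pow_one]

/-- chi depends only on the values at the prime factors -/
theorem chi_congr {X Y : ℕ → ℂ} {n : ℕ} (h : ∀ p ∈ n.primeFactors, X p = Y p) : chi X n = chi Y n := by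
  unfold chi
  apply Finsupp.prod_congr
  intro p hp
  rw [Nat.support_factorization] at hp
  rw [h p hp]

theorem chi_norm {X : ℕ → ℂ} (hX : ∀ p, ‖X p‖ = 1) (n : ℕ) : ‖chi X n‖ = 1 := by
  unfold chi
  rw [Finsupp.prod, norm_prod]
  apply Finset.prod_eq_one
  intro p _
  rw [norm_pow, hX, one_pow]

theorem dp_const (S : Finset ℕ) (c : ℂ) : IsDP S 1 ‖c‖ (fun _ => c) := by
  classical
  refine ⟨fun h => if h = 1 then c else 0, ?_, ?_, ?_⟩
  · intro h hh
    by_cases h1 : h = 1
    · subst h1; simp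
    · simp [h1] at hh
  · simp [Finset.sum_range_succ]
  · intro X
    simp [chi_one]

theorem dp_prime {S : Finset ℕ} {p : ℕ} (hp : p.Prime) (hpS : p ∈ S) : IsDP S p 1 (fun X => X p) := by
  classical
  refine ⟨fun h => if h = p then 1 else 0, ?_, ?_, ?_⟩
  · intro h hh
    by_cases h1 : h = p
    · subst h1
      refine ⟨hp.one_le, le_refl _, ?_⟩
      rw [hp.primeFactors]
      simpa using hpS
    · simp [h1] at hh
  · rw [Finset.sum_eq_single p]
    · simp
    · intro b _ hb; simp [hb]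
    · intro hb; simp at hb
  · intro X
    rw [Finset.sum_eq_single p]
    · simp [chi_prime X hp]
    · intro b _ hb; simp [hb]
    · intro hb; simp at hb

theorem dp_mono {S S' : Finset ℕ} {H H' : ℕ} {L L' : ℝ} {F : (ℕ → ℂ) → ℂ} (h : IsDP S H L F) (hS : S ⊆ S')
    (hH : H ≤ H') (hL : L ≤ L') : IsDP S' H' L' F := by
  obtain ⟨a, ha, hn, hF⟩ := h
  have hz : ∀ h, H < h → a h = 0 := by
    intro h hh
    by_contra hne
    have := (ha h hne).2.1
    omega
  have hsub : Finset.range (H + 1) ⊆ Finset.range (H' + 1) := by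
    intro x hx
    simp only [Finset.mem_range] at hx ⊢
    omega
  refine ⟨a, ?_, ?_, ?_⟩
  · intro h hh
    obtain ⟨h1, h2, h3⟩ := ha h hh
    exact ⟨h1, h2.trans hH, h3.trans hS⟩
  · rw [← Finset.sum_subset hsub]
    · exact hn.trans hL
    · intro x _ hx
      rw [hz x (by simpa using hx), norm_zero]
  · intro X
    rw [hF X]
    apply Finset.sum_subset hsub
    intro x _ hx
    rw [hz x (by simpa using hx), zero_mul]

theorem dp_nonneg {S : Finset ℕ} {H : ℕ} {L : ℝ} {F : (ℕ → ℂ) → ℂ} (h : IsDP S H L F) : 0 ≤ L := by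
  obtain ⟨a, _, hn, _⟩ := h
  exact (Finset.sum_nonneg fun _ _ => norm_nonneg _).trans hn

theorem dp_add {S : Finset ℕ} {H : ℕ} {L₁ L₂ : ℝ} {F G : (ℕ → ℂ) → ℂ} (hF : IsDP S H L₁ F) (hG : IsDP S H L₂ G) :
    IsDP S H (L₁ + L₂) (fun X => F X + G X) := by
  obtain ⟨a, ha, han, hF⟩ := hF
  obtain ⟨b, hb, hbn, hG⟩ := hG
  refine ⟨fun h => a h + b h, ?_, ?_, ?_⟩
  · intro h hh
    by_cases h0 : a h = 0
    · by_cases h1 : b h = 0
      · simp [h0, h1] at hh
      · exact hb h h1
    · exact ha h h0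
  · calc _ ≤ ∑ h ∈ Finset.range (H + 1), (‖a h‖ + ‖b h‖) :=
          Finset.sum_le_sum fun h _ => norm_add_le _ _
      _ ≤ _ := by rw [Finset.sum_add_distrib]; exact add_le_add han hbn
  · intro X
    show F X + G X = _
    rw [hF X, hG X, ← Finset.sum_add_distrib]
    exact Finset.sum_congr rfl fun h _ => by ring

theorem dp_mul {S : Finset ℕ} {H₁ H₂ : ℕ} {L₁ L₂ : ℝ} {F G : (ℕ → ℂ) → ℂ} (hF : IsDP S H₁ L₁ F)
    (hG : IsDP S H₂ L₂ G) : IsDP S (H₁ * H₂) (L₁ * L₂) (fun X => F X * G X) := by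
  classical
  obtain ⟨a, ha, han, hF⟩ := hF
  obtain ⟨b, hb, hbn, hG⟩ := hG
  set c : ℕ → ℂ := fun n => ∑ h ∈ Finset.range (H₁ + 1), ∑ k ∈ Finset.range (H₂ + 1),
    if h * k = n then a h * b k else 0 with hc
  refine ⟨c, ?_, ?_, ?_⟩
  · intro n hn
    obtain ⟨h, _, hh⟩ := Finset.exists_ne_zero_of_sum_ne_zero hn
    obtain ⟨k, _, hk⟩ := Finset.exists_ne_zero_of_sum_ne_zero hh
    have hnk : h * k = n := by
      by_contra hne
      rw [if_neg hne] at hk
      exact hk rfl
    rw [if_pos hnk] at hk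
    obtain ⟨h1, h2, h3⟩ := ha h (left_ne_zero_of_mul hk)
    obtain ⟨k1, k2, k3⟩ := hb k (right_ne_zero_of_mul hk)
    rw [← hnk]
    refine ⟨Nat.mul_pos h1 k1, Nat.mul_le_mul h2 k2, ?_⟩
    rw [Nat.primeFactors_mul (by omega) (by omega)]
    exact Finset.union_subset h3 k3
  · calc ∑ n ∈ Finset.range (H₁ * H₂ + 1), ‖c n‖
        ≤ ∑ n ∈ Finset.range (H₁ * H₂ + 1), ∑ h ∈ Finset.range (H₁ + 1), ∑ k ∈ Finset.range (H₂ + 1),
          if h * k = n then ‖a h‖ * ‖b k‖ else 0 := by
          apply Finset.sum_le_sum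
          intro n _
          refine (norm_sum_le _ _).trans (Finset.sum_le_sum fun h _ => ?_)
          refine (norm_sum_le _ _).trans (Finset.sum_le_sum fun k _ => ?_)
          split_ifs
          · rw [norm_mul]
          · rw [norm_zero]
      _ = ∑ h ∈ Finset.range (H₁ + 1), ∑ k ∈ Finset.range (H₂ + 1), ∑ n ∈ Finset.range (H₁ * H₂ + 1),
          (if h * k = n then ‖a h‖ * ‖b k‖ else 0) := by
          rw [Finset.sum_comm]
          exact Finset.sum_congr rfl fun h _ => Finset.sum_comm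
      _ ≤ ∑ h ∈ Finset.range (H₁ + 1), ∑ k ∈ Finset.range (H₂ + 1), ‖a h‖ * ‖b k‖ := by
          refine Finset.sum_le_sum fun h _ => Finset.sum_le_sum fun k _ => ?_
          rw [Finset.sum_ite_eq]
          split_ifs
          · exact le_refl _
          · positivity
      _ = (∑ h ∈ Finset.range (H₁ + 1), ‖a h‖) * ∑ k ∈ Finset.range (H₂ + 1), ‖b k‖ := by
          rw [Finset.sum_mul_sum]
      _ ≤ L₁ * L₂ := mul_le_mul han hbn (Finset.sum_nonneg fun _ _ => norm_nonneg _)
          ((Finset.sum_nonneg fun _ _ => norm_nonneg _).trans han)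
  · intro X
    show F X * G X = _
    rw [hF X, hG X, Finset.sum_mul_sum]
    have e1 : ∑ n ∈ Finset.range (H₁ * H₂ + 1), c n * chi X n
        = ∑ h ∈ Finset.range (H₁ + 1), ∑ k ∈ Finset.range (H₂ + 1), ∑ n ∈ Finset.range (H₁ * H₂ + 1),
          (if h * k = n then a h * b k * chi X n else 0) := by
      rw [hc]
      simp only [Finset.sum_mul, ite_mul, zero_mul]
      rw [Finset.sum_comm]
      exact Finset.sum_congr rfl fun h _ => Finset.sum_comm
    rw [e1]
    refine Finset.sum_congr rfl fun h hh => Finset.sum_congr rfl fun k hk => ?_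
    rw [Finset.sum_ite_eq]
    have hmem : h * k ∈ Finset.range (H₁ * H₂ + 1) := by
      simp only [Finset.mem_range] at hh hk ⊢
      have := Nat.mul_le_mul (Nat.lt_succ_iff.mp hh) (Nat.lt_succ_iff.mp hk)
      omega
    rw [if_pos hmem]
    by_cases h0 : a h = 0
    · simp [h0]
    by_cases k0 : b k = 0
    · simp [k0]
    have h1 := (ha h h0).1
    have k1 := (hb k k0).1
    rw [chi_mul X (by omega) (by omega)]
    ring

theorem dp_smul {S : Finset ℕ} {H : ℕ} {L : ℝ} {F : (ℕ → ℂ) → ℂ} (c : ℂ) (hF : IsDP S H L F) :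
    IsDP S H (‖c‖ * L) (fun X => c * F X) := by
  have h := dp_mul (dp_const S c) hF
  rwa [one_mul] at h

theorem dp_pow {S : Finset ℕ} {H : ℕ} {L : ℝ} {F : (ℕ → ℂ) → ℂ} (hF : IsDP S H L F) (k : ℕ) :
    IsDP S (H ^ k) (L ^ k) (fun X => F X ^ k) := by
  induction k with
  | zero =>
    have h := dp_const S 1
    rw [norm_one] at h
    simpa using h
  | succ k ih =>
    have h := dp_mul ih hF
    simpa only [pow_succ] using h

theorem dp_sum {ι : Type} (s : Finset ι) {S : Finset ℕ} {H : ℕ} (L : ι → ℝ) (F : ι → (ℕ → ℂ) → ℂ)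
    (h : ∀ i ∈ s, IsDP S H (L i) (F i)) : IsDP S H (∑ i ∈ s, L i) (fun X => ∑ i ∈ s, F i X) := by
  classical
  induction s using Finset.induction_on with
  | empty =>
    refine ⟨fun _ => 0, ?_, ?_, ?_⟩
    · intro h hh; exact absurd rfl hh
    · simp
    · intro X; simp
  | insert i s his ih =>
    have h1 := h i (Finset.mem_insert_self _ _)
    have h2 := ih fun j hj => h j (Finset.mem_insert_of_mem hj)
    have h3 := dp_add h1 h2
    simpa only [Finset.sum_insert his] using h3

theorem dp_prod {ι : Type} [DecidableEq ι] (s : Finset ι) (S : ι → Finset ℕ) (H : ι → ℕ) (L : ι → ℝ)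
    (F : ι → (ℕ → ℂ) → ℂ) (h : ∀ i ∈ s, IsDP (S i) (H i) (L i) (F i)) :
    IsDP (s.biUnion S) (∏ i ∈ s, H i) (∏ i ∈ s, L i) (fun X => ∏ i ∈ s, F i X) := by
  induction s using Finset.induction_on with
  | empty =>
    have h := dp_const ((∅ : Finset ι).biUnion S) 1
    rw [norm_one] at h
    simpa using h
  | insert i s his ih =>
    have h1 := h i (Finset.mem_insert_self _ _)
    have h2 := ih fun j hj => h j (Finset.mem_insert_of_mem hj)
    have hS1 : S i ⊆ (insert i s).biUnion S := by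
      rw [Finset.biUnion_insert]; exact Finset.subset_union_left
    have hS2 : s.biUnion S ⊆ (insert i s).biUnion S := by
      rw [Finset.biUnion_insert]; exact Finset.subset_union_right
    have h3 := dp_mul (dp_mono h1 hS1 (le_refl _) (le_refl _)) (dp_mono h2 hS2 (le_refl _) (le_refl _))
    simpa only [Finset.prod_insert his] using h3

/-- a Dirichlet polynomial is continuous in the phases, depends only on the phases in S, and is bounded by L -/
theorem dp_cont {S : Finset ℕ} {H : ℕ} {L : ℝ} {F : (ℕ → ℂ) → ℂ} (hF : IsDP S H L F) : Continuous F := by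
  obtain ⟨a, _, _, hF⟩ := hF
  have e : F = fun X => ∑ h ∈ Finset.range (H + 1), a h * chi X h := funext hF
  rw [e]
  refine continuous_finsetSum _ fun h _ => continuous_const.mul ?_
  unfold chi
  simp only [Finsupp.prod]
  exact continuous_finsetProd _ fun p _ => (continuous_apply p).pow _

theorem dp_dep {S : Finset ℕ} {H : ℕ} {L : ℝ} {F : (ℕ → ℂ) → ℂ} (hF : IsDP S H L F) {X Y : ℕ → ℂ}
    (h : ∀ p ∈ S, X p = Y p) : F X = F Y := by
  obtain ⟨a, ha, _, hF⟩ := hF
  rw [hF X, hF Y]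
  refine Finset.sum_congr rfl fun k _ => ?_
  by_cases h0 : a k = 0
  · simp [h0]
  · rw [chi_congr fun p hp => h p ((ha k h0).2.2 hp)]

theorem dp_bound {S : Finset ℕ} {H : ℕ} {L : ℝ} {F : (ℕ → ℂ) → ℂ} (hF : IsDP S H L F) {X : ℕ → ℂ}
    (hX : ∀ p, ‖X p‖ = 1) : ‖F X‖ ≤ L := by
  obtain ⟨a, _, hn, hF⟩ := hF
  rw [hF X]
  refine (norm_sum_le _ _).trans (le_trans (le_of_eq ?_) hn)
  refine Finset.sum_congr rfl fun h _ => ?_
  rw [norm_mul, chi_norm hX, mul_one]

end CZ
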