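import Pool.Agent.Lib.MP_9eae41_pr.A1

set_option autoImplicit false

open Complex MeasureTheory Set Filter Topology
open scoped ComplexConjugate ENNReal

namespace CZ

/-! Row A2 (150 lines): the phases Xt and Xp; block polynomials are Dirichlet polynomials. -/

theorem a2_prime {y n p : ℕ} (h : p ∈ blk y n) : p.Prime := by
  cases n with
  | zero => exact (Finset.mem_filter.1 h).2
  | succ n => exact (Finset.mem_filter.1 h).2

theorem a2_le {y n p : ℕ} (h : p ∈ blk y n) : p ≤ y ^ (2 ^ n) := by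
  cases n with
  | zero =>
    have := Finset.mem_range.1 (Finset.mem_filter.1 h).1
    rw [pow_zero, pow_one]
    omega
  | succ n => exact (Finset.mem_Ioc.1 (Finset.mem_filter.1 h).1).2

theorem a2_chi (t : ℝ) (n : ℕ) : chi (Xp t) n = exp (-(t * Real.log n : ℝ) * I) := by
  unfold chi Xp
  rw [Real.log_nat_eq_sum_factorization]
  unfold Finsupp.prod Finsupp.sum
  have h : (-((t * ∑ a ∈ n.factorization.support, (n.factorization a : ℝ) * Real.log a : ℝ) : ℂ) * I) =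
      ∑ a ∈ n.factorization.support, ((n.factorization a : ℕ) : ℂ) * (-((t * Real.log a : ℝ) : ℂ) * I) := by
    push_cast
    rw [Finset.mul_sum, ← Finset.sum_neg_distrib, Finset.sum_mul]
    apply Finset.sum_congr rfl
    intro a _
    ring
  rw [h, exp_sum]
  apply Finset.prod_congr rfl
  intro a _
  rw [exp_nat_mul]

theorem norm_ee (x : ℝ) : ‖ee x‖ = 1 := by
  unfold ee
  have h : (2 * (Real.pi : ℂ) * (x : ℂ) * I) = ((2 * Real.pi * x : ℝ) : ℂ) * I := by push_cast; ring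
  rw [h, norm_exp_ofReal_mul_I]

theorem norm_Xt (θ : Om) (p : ℕ) : ‖Xt θ p‖ = 1 := by
  exact norm_ee _

theorem norm_Xp (t : ℝ) (p : ℕ) : ‖Xp t p‖ = 1 := by
  unfold Xp
  rw [← ofReal_neg, norm_exp_ofReal_mul_I]

theorem Xp_add (s u : ℝ) (p : ℕ) : Xp (s + u) p = Xp s p * Xp u p := by
  unfold Xp
  rw [← exp_add]
  congr 1
  push_cast
  ring

theorem Xp_cont : Continuous (fun t : ℝ => Xp t) := by
  refine continuous_pi fun p => ?_
  unfold Xp
  fun_prop

theorem Xt_cont : Continuous (fun θ : Om => Xt θ) := by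
  refine continuous_pi fun p => ?_
  unfold Xt ee
  fun_prop

/-- chi at height t is n to the power -it -/
theorem chi_Xp (t : ℝ) {n : ℕ} (hn : n ≠ 0) : chi (Xp t) n = (n : ℂ) ^ (-(t * I)) := by
  rw [a2_chi, cpow_def_of_ne_zero (by exact_mod_cast hn), ← natCast_log]
  congr 1
  push_cast
  ring

theorem chi_Xp_conj (t : ℝ) {n : ℕ} (hn : n ≠ 0) : conj (chi (Xp t) n) = (n : ℂ) ^ (t * I) := by
  rw [a2_chi, cpow_def_of_ne_zero (by exact_mod_cast hn), ← natCast_log, ← exp_conj]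
  congr 1
  simp only [map_mul, map_neg, conj_ofReal, conj_I]
  push_cast
  ring

/-- the prime polynomial at s+u is a prime polynomial at s -/
theorem Ps_shift (S : Finset ℕ) (c : ℕ → ℂ) (s u : ℝ) : Ps S c (Xp (s + u)) = Ps S (fun p => c p * Xp u p) (Xp s) := by
  unfold Ps
  apply Finset.sum_congr rfl
  intro p _
  rw [Xp_add]
  ring

theorem Ps_lin (S : Finset ℕ) (a b : ℂ) (c d : ℕ → ℂ) (X : ℕ → ℂ) :
    Ps S (fun p => a * c p + b * d p) X = a * Ps S c X + b * Ps S d X := by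
  unfold Ps
  rw [Finset.mul_sum, Finset.mul_sum, ← Finset.sum_add_distrib]
  apply Finset.sum_congr rfl
  intro p _
  ring

theorem dp_Ps {y n : ℕ} (hy : 2 ≤ y) {C0 : ℝ} (hC : 0 ≤ C0) (c : ℕ → ℂ) (hc : ∀ p, ‖c p‖ ≤ C0) :
    IsDP (blk y n) (y ^ (2 ^ n)) (C0 * (y : ℝ) ^ (2 ^ n)) (Ps (blk y n) c) := by
  classical
  have hsub : blk y n ⊆ Finset.range (y ^ (2 ^ n) + 1) := by
    intro p hp
    exact Finset.mem_range.2 (Nat.lt_succ_of_le (a2_le hp))
  refine ⟨fun h => if h ∈ blk y n then c h * ((Real.sqrt h : ℝ) : ℂ)⁻¹ else 0, ?_, ?_, ?_⟩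
  · intro h hh
    by_cases hm : h ∈ blk y n
    · have hp := a2_prime hm
      refine ⟨hp.one_le, a2_le hm, ?_⟩
      rw [hp.primeFactors]
      exact Finset.singleton_subset_iff.2 hm
    · simp [hm] at hh
  · have e : ∑ h ∈ Finset.range (y ^ (2 ^ n) + 1), ‖(if h ∈ blk y n then c h * ((Real.sqrt h : ℝ) : ℂ)⁻¹ else 0 : ℂ)‖ =
        ∑ h ∈ blk y n, ‖c h * ((Real.sqrt h : ℝ) : ℂ)⁻¹‖ := by
      rw [← Finset.sum_subset hsub]
      · apply Finset.sum_congr rfl
        intro h hh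
        rw [if_pos hh]
      · intro h _ hh
        rw [if_neg hh, norm_zero]
    rw [e]
    have hterm : ∀ h ∈ blk y n, ‖c h * ((Real.sqrt h : ℝ) : ℂ)⁻¹‖ ≤ C0 := by
      intro h hh
      have hp := a2_prime hh
      have h1 : (1 : ℝ) ≤ Real.sqrt h := by
        rw [Real.one_le_sqrt]
        exact_mod_cast hp.one_le
      rw [norm_mul, norm_inv, norm_real, Real.norm_of_nonneg (by positivity)]
      calc ‖c h‖ * (Real.sqrt h)⁻¹ ≤ C0 * 1 :=
            mul_le_mul (hc h) (inv_le_one_of_one_le₀ h1) (by positivity) hC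
        _ = C0 := mul_one _
    refine le_trans (Finset.sum_le_card_nsmul _ _ C0 hterm) ?_
    rw [nsmul_eq_mul, mul_comm]
    apply mul_le_mul_of_nonneg_left _ hC
    have hcard : (blk y n).card ≤ (Finset.Ioc 0 (y ^ (2 ^ n))).card := by
      apply Finset.card_le_card
      intro p hp
      exact Finset.mem_Ioc.2 ⟨(a2_prime hp).pos, a2_le hp⟩
    rw [Nat.card_Ioc, Nat.sub_zero] at hcard
    exact_mod_cast hcard
  · intro X
    unfold Ps
    rw [← Finset.sum_subset hsub]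
    · apply Finset.sum_congr rfl
      intro p hp
      beta_reduce
      rw [if_pos hp, chi_prime X (a2_prime hp)]
      ring
    · intro h _ hh
      beta_reduce
      rw [if_neg hh, zero_mul]

/-- l1 norm: sum over k at most K of x^k/k! is at most (1+x)^K -/
theorem dp_Nn (T : ℝ) {y n : ℕ} (hy : 2 ≤ y) {C0 : ℝ} (hC : 0 ≤ C0) (c : ℕ → ℂ) (hc : ∀ p, ‖c p‖ ≤ C0) :
    IsDP (blk y n) ((y ^ (2 ^ n)) ^ (KT T y n)) (((1 + C0) * (y : ℝ) ^ (2 ^ n)) ^ (KT T y n)) (Nn T y n c) := by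
  set K := KT T y n with hK
  have hP := dp_Ps (n := n) hy hC c hc
  have hY1 : 1 ≤ y ^ (2 ^ n) := Nat.one_le_pow _ _ (by omega)
  have hYr : (1 : ℝ) ≤ (y : ℝ) ^ (2 ^ n) := by exact_mod_cast hY1
  have h1 : ∀ k ∈ Finset.range (K + 1), IsDP (blk y n) ((y ^ (2 ^ n)) ^ K)
      ((C0 * (y : ℝ) ^ (2 ^ n)) ^ k / (k.factorial : ℝ)) (fun X => Ps (blk y n) c X ^ k / (k.factorial : ℂ)) := by
    intro k hk
    have hk' : k ≤ K := by have := Finset.mem_range.1 hk; omega
    have h2 := dp_smul ((k.factorial : ℂ)⁻¹) (dp_pow hP k)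
    have h3 : (fun X => (k.factorial : ℂ)⁻¹ * Ps (blk y n) c X ^ k) =
        (fun X => Ps (blk y n) c X ^ k / (k.factorial : ℂ)) := by
      funext X; rw [div_eq_mul_inv, mul_comm]
    rw [h3] at h2
    refine dp_mono h2 (Finset.Subset.refl _) (Nat.pow_le_pow_right hY1 hk') ?_
    rw [norm_inv, norm_natCast, div_eq_mul_inv, mul_comm]
  have h4 := dp_sum (Finset.range (K + 1)) _ _ h1
  have h5 : Nn T y n c = fun X => ∑ k ∈ Finset.range (K + 1), Ps (blk y n) c X ^ k / (k.factorial : ℂ) := by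
    funext X; rfl
  rw [h5]
  refine dp_mono h4 (Finset.Subset.refl _) le_rfl ?_
  have hx : 0 ≤ C0 * (y : ℝ) ^ (2 ^ n) := by positivity
  calc ∑ k ∈ Finset.range (K + 1), (C0 * (y : ℝ) ^ (2 ^ n)) ^ k / (k.factorial : ℝ)
      ≤ ∑ k ∈ Finset.range (K + 1), (C0 * (y : ℝ) ^ (2 ^ n)) ^ k * 1 ^ (K - k) * (K.choose k : ℝ) := by
        apply Finset.sum_le_sum
        intro k hk
        have hk' : k ≤ K := by have := Finset.mem_range.1 hk; omega
        rw [one_pow, mul_one, div_eq_mul_inv]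
        apply mul_le_mul_of_nonneg_left _ (by positivity)
        have f1 : ((k.factorial : ℝ))⁻¹ ≤ 1 := by
          apply inv_le_one_of_one_le₀
          exact_mod_cast Nat.one_le_iff_ne_zero.2 (Nat.factorial_ne_zero k)
        have f2 : (1 : ℝ) ≤ (K.choose k : ℝ) := by
          exact_mod_cast Nat.choose_pos hk'
        linarith
    _ = (C0 * (y : ℝ) ^ (2 ^ n) + 1) ^ K := (add_pow _ _ _).symm
    _ ≤ ((1 + C0) * (y : ℝ) ^ (2 ^ n)) ^ K := by
        apply pow_le_pow_left₀ (by positivity)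
        linarith

theorem dp_W (T : ℝ) {y n : ℕ} (hy : 2 ≤ y) {C0 A : ℝ} (hC : 0 ≤ C0) (hA : 0 ≤ A) (r : ℕ) (hK : 1 ≤ KT T y n)
    (c : ℕ → ℂ) (hc : ∀ p, ‖c p‖ ≤ C0) :
    IsDP (blk y n) ((y ^ (2 ^ n)) ^ (r * KT T y n)) ((A * C0 * (y : ℝ) ^ (2 ^ n)) ^ (r * KT T y n))
      (fun X => (((A / KT T y n : ℝ) : ℂ) * Ps (blk y n) c X) ^ (r * KT T y n)) := by
  set K := KT T y n with hKdef
  have hP := dp_Ps (n := n) hy hC c hc
  have h1 := dp_pow (dp_smul ((A / K : ℝ) : ℂ) hP) (r * K)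
  refine dp_mono h1 (Finset.Subset.refl _) le_rfl ?_
  have hK' : (1 : ℝ) ≤ K := by exact_mod_cast hK
  apply pow_le_pow_left₀ (by positivity)
  rw [norm_real, Real.norm_of_nonneg (by positivity), mul_assoc A]
  apply mul_le_mul_of_nonneg_right _ (by positivity)
  exact div_le_self hA hK'

theorem blk_disj {y m n : ℕ} (hy : 2 ≤ y) (h : m ≠ n) : Disjoint (blk y m) (blk y n) := by
  rw [Finset.disjoint_left]
  have key : ∀ a b p : ℕ, a < b → p ∈ blk y a → p ∈ blk y b → False := by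
    intro a b p hab ha hb
    obtain ⟨b', rfl⟩ : ∃ b', b = b' + 1 := ⟨b - 1, by omega⟩
    have h1 := a2_le ha
    have h2 : y ^ (2 ^ b') < p := (Finset.mem_Ioc.1 (Finset.mem_filter.1 hb).1).1
    have h3 : y ^ (2 ^ a) ≤ y ^ (2 ^ b') :=
      Nat.pow_le_pow_right (by omega) (Nat.pow_le_pow_right (by norm_num) (by omega))
    omega
  intro p hm hn
  rcases lt_or_gt_of_ne h with h' | h'
  · exact key m n p h' hm hn
  · exact key n m p h' hn hm

theorem blk_prime {y n p : ℕ} (h : p ∈ blk y n) : p.Prime := by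
  exact a2_prime h

theorem blk_le {y n p : ℕ} (h : p ∈ blk y n) : p ≤ y ^ (2 ^ n) := by
  exact a2_le h

theorem blk_lt {y n p : ℕ} (h : p ∈ blk y (n + 1)) : y < p := by
  have h2 : y ^ (2 ^ n) < p := (Finset.mem_Ioc.1 (Finset.mem_filter.1 h).1).1
  exact lt_of_le_of_lt (Nat.le_self_pow (by positivity) y) h2

end CZ
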