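import Pool.Agent.Lib.MP_9eae41_pr.A1

set_option autoImplicit false

open Complex MeasureTheory Set Filter Topology
open scoped ComplexConjugate ENNReal

namespace CZ

/-! Row A4 (200 lines): admissibility. Put a_n = 2^n log y / log T, so a_n <= d 2^(n-M) for n <= M, K_n = ceil(a_n^(-3/4)),
K_n a_n <= 2 a_n^(1/4), and sum over n <= M of a_n^(1/4) is at most d^(1/4) / (1 - 2^(-1/4)). -/

theorem a4_geo (s : ℝ) (hs : 0 < s) : ∃ C : ℝ, 0 < C ∧ ∀ (x : ℝ) (M : ℕ), 0 ≤ x →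
    ∑ n ∈ Finset.Icc 1 M, (2 ^ n * x) ^ s ≤ C * (2 ^ M * x) ^ s := by
  have h2 : (1 : ℝ) < 2 ^ s := Real.one_lt_rpow (by norm_num) hs
  have h3 : (0 : ℝ) < 2 ^ s - 1 := by linarith
  refine ⟨2 ^ s / (2 ^ s - 1), div_pos (by positivity) h3, fun x M hx => ?_⟩
  induction M with
  | zero =>
    simp only [Finset.Icc_eq_empty_of_lt (by norm_num : (0 : ℕ) < 1), Finset.sum_empty]
    positivity
  | succ M ih =>
    rw [Finset.sum_Icc_succ_top (by omega)]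
    have e : (2 ^ (M + 1) * x) ^ s = 2 ^ s * (2 ^ M * x) ^ s := by
      rw [pow_succ, mul_comm ((2 : ℝ) ^ M) 2, mul_assoc, Real.mul_rpow (by norm_num) (by positivity)]
    rw [e]
    calc _ ≤ 2 ^ s / (2 ^ s - 1) * (2 ^ M * x) ^ s + 2 ^ s * (2 ^ M * x) ^ s :=
          add_le_add ih le_rfl
      _ = 2 ^ s / (2 ^ s - 1) * (2 ^ s * (2 ^ M * x) ^ s) := by
          field_simp
          ring

theorem a4_delta (D ε s : ℝ) (hD : 0 < D) (hε : 0 < ε) (hs : 0 < s) :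
    ∃ δ : ℝ, 0 < δ ∧ δ ≤ 1 ∧ D * δ ^ s ≤ ε := by
  refine ⟨min 1 ((ε / D) ^ (1 / s)), lt_min one_pos (Real.rpow_pos_of_pos (div_pos hε hD) _),
    min_le_left _ _, ?_⟩
  have h1 : (min 1 ((ε / D) ^ (1 / s))) ^ s ≤ ε / D := by
    calc (min 1 ((ε / D) ^ (1 / s))) ^ s ≤ ((ε / D) ^ (1 / s)) ^ s :=
          Real.rpow_le_rpow (le_min zero_le_one (Real.rpow_nonneg (div_pos hε hD).le _))
            (min_le_right _ _) hs.le
      _ = ε / D := by
          rw [← Real.rpow_mul (div_pos hε hD).le, one_div_mul_cancel hs.ne', Real.rpow_one]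
  calc D * (min 1 ((ε / D) ^ (1 / s))) ^ s ≤ D * (ε / D) := mul_le_mul_of_nonneg_left h1 hD.le
    _ = ε := by field_simp

theorem a4_a {T : ℝ} {y M n : ℕ} {δ : ℝ} (hy : 2 ≤ y) (hT : 1 < T)
    (h : 2 ^ M * Real.log y ≤ δ * Real.log T) (hn : n ≤ M) :
    0 < 2 ^ n * (Real.log y / Real.log T) ∧ 2 ^ n * (Real.log y / Real.log T) ≤ δ ∧
    (KT T y n : ℝ) ≤ (2 ^ n * (Real.log y / Real.log T)) ^ (-(3/4) : ℝ) + 1 ∧
    (2 ^ n * (Real.log y / Real.log T)) ^ (-(3/4) : ℝ) ≤ (KT T y n : ℝ) := by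
  have hL : 0 < Real.log T := Real.log_pos hT
  have hy1 : (1 : ℝ) < (y : ℝ) := by exact_mod_cast (by omega : 1 < y)
  have hl : 0 < Real.log y := Real.log_pos hy1
  have ha : 0 < 2 ^ n * (Real.log y / Real.log T) := by positivity
  have e : Real.log T / (2 ^ n * Real.log y) = (2 ^ n * (Real.log y / Real.log T))⁻¹ := by
    rw [mul_inv, inv_div]
    field_simp
  have e2 : (Real.log T / (2 ^ n * Real.log y)) ^ (3/4 : ℝ) =
      (2 ^ n * (Real.log y / Real.log T)) ^ (-(3/4) : ℝ) := by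
    rw [e, Real.inv_rpow ha.le, Real.rpow_neg ha.le]
  refine ⟨ha, ?_, ?_, ?_⟩
  · rw [← mul_div_assoc, div_le_iff₀ hL]
    refine le_trans ?_ h
    exact mul_le_mul_of_nonneg_right (pow_le_pow_right₀ (by norm_num) hn) hl.le
  · unfold KT
    rw [e2]
    exact (Nat.ceil_lt_add_one (Real.rpow_nonneg ha.le _)).le
  · unfold KT
    rw [e2]
    exact Nat.le_ceil _

/-- total length of the blocks 1..M -/
theorem adm_len (R : ℕ) (η : ℝ) (hη : 0 < η) : ∃ δ : ℝ, 0 < δ ∧ δ ≤ 1 ∧ ∀ (T : ℝ) (y M : ℕ), 2 ≤ y → 1 < T →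
    2 ^ M * Real.log y ≤ δ * Real.log T →
    ∏ n ∈ Finset.Icc 1 M, ((y : ℝ) ^ (2 ^ n)) ^ (R * KT T y n) ≤ T ^ η := by
  obtain ⟨C, hC, hgeo⟩ := a4_geo (1/4) (by norm_num)
  obtain ⟨δ, hδ, hδ1, hδC⟩ := a4_delta (2 * R * C + 1) η (1/4) (by positivity) hη (by norm_num)
  refine ⟨δ, hδ, hδ1, fun T y M hy hT h => ?_⟩
  have hL : 0 < Real.log T := Real.log_pos hT
  have hy1 : (1 : ℝ) < (y : ℝ) := by exact_mod_cast (by omega : 1 < y)
  have hl : 0 < Real.log y := Real.log_pos hy1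
  have e1 : ∏ n ∈ Finset.Icc 1 M, ((y : ℝ) ^ (2 ^ n)) ^ (R * KT T y n) =
      Real.exp (∑ n ∈ Finset.Icc 1 M, Real.log T * (R * (2 ^ n * (Real.log y / Real.log T) * KT T y n))) := by
    rw [Real.exp_sum]
    refine Finset.prod_congr rfl fun n _ => ?_
    rw [← pow_mul]
    have : Real.log T * (R * (2 ^ n * (Real.log y / Real.log T) * KT T y n)) =
        ((2 ^ n * (R * KT T y n) : ℕ) : ℝ) * Real.log y := by
      push_cast
      field_simp
    rw [this, Real.exp_nat_mul, Real.exp_log (by linarith)]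
  rw [e1, Real.rpow_def_of_pos (by linarith : 0 < T)]
  refine Real.exp_le_exp.mpr ?_
  rw [← Finset.mul_sum, ← Finset.mul_sum]
  refine mul_le_mul_of_nonneg_left ?_ hL.le
  have h1 : ∑ n ∈ Finset.Icc 1 M, 2 ^ n * (Real.log y / Real.log T) * KT T y n ≤
      ∑ n ∈ Finset.Icc 1 M, 2 * (2 ^ n * (Real.log y / Real.log T)) ^ (1/4 : ℝ) := by
    refine Finset.sum_le_sum fun n hn => ?_
    obtain ⟨h1, h2, h3, -⟩ := a4_a hy hT h (Finset.mem_Icc.mp hn).2
    set a := 2 ^ n * (Real.log y / Real.log T) with ha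
    have h4 : a * a ^ (-(3/4) : ℝ) = a ^ (1/4 : ℝ) := by
      nth_rewrite 1 [← Real.rpow_one a]
      rw [← Real.rpow_add h1]
      norm_num
    have h5 : a ≤ a ^ (1/4 : ℝ) := by
      nth_rewrite 1 [← Real.rpow_one a]
      exact Real.rpow_le_rpow_of_exponent_ge h1 (h2.trans hδ1) (by norm_num)
    calc a * KT T y n ≤ a * (a ^ (-(3/4) : ℝ) + 1) := mul_le_mul_of_nonneg_left h3 h1.le
      _ = a ^ (1/4 : ℝ) + a := by rw [mul_add, h4, mul_one]
      _ ≤ 2 * a ^ (1/4 : ℝ) := by linarith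
  have h2 := hgeo (Real.log y / Real.log T) M (by positivity)
  have h3 : (2 ^ M * (Real.log y / Real.log T)) ^ (1/4 : ℝ) ≤ δ ^ (1/4 : ℝ) := by
    obtain ⟨h1, h2, -, -⟩ := a4_a hy hT h le_rfl
    exact Real.rpow_le_rpow h1.le h2 (by norm_num)
  have h4 : 0 ≤ δ ^ (1/4 : ℝ) := Real.rpow_nonneg hδ.le _
  rw [← Finset.mul_sum] at h1
  calc (R : ℝ) * ∑ n ∈ Finset.Icc 1 M, 2 ^ n * (Real.log y / Real.log T) * KT T y n
      ≤ R * (2 * (C * δ ^ (1/4 : ℝ))) := by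
        refine mul_le_mul_of_nonneg_left (h1.trans ?_) (Nat.cast_nonneg _)
        refine mul_le_mul_of_nonneg_left (h2.trans ?_) (by norm_num)
        exact mul_le_mul_of_nonneg_left h3 hC.le
    _ ≤ (2 * R * C + 1) * δ ^ (1/4 : ℝ) := by nlinarith
    _ ≤ η := hδC

/-- the truncation parameters are large -/
theorem adm_K (N : ℕ) : ∃ δ : ℝ, 0 < δ ∧ δ ≤ 1 ∧ ∀ (T : ℝ) (y M : ℕ), 2 ≤ y → 1 < T →
    2 ^ M * Real.log y ≤ δ * Real.log T → ∀ n ∈ Finset.Icc 1 M, N ≤ KT T y n := by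
  obtain ⟨δ, hδ, hδ1, hδC⟩ := a4_delta (N + 1) 1 (3/4) (by positivity) one_pos (by norm_num)
  refine ⟨δ, hδ, hδ1, fun T y M hy hT h n hn => ?_⟩
  obtain ⟨h1, h2, -, h4⟩ := a4_a hy hT h (Finset.mem_Icc.mp hn).2
  set a := 2 ^ n * (Real.log y / Real.log T) with ha
  have h5 : ((N : ℝ) + 1) * a ^ (3/4 : ℝ) ≤ 1 :=
    le_trans (mul_le_mul_of_nonneg_left (Real.rpow_le_rpow h1.le h2 (by norm_num)) (by positivity)) hδC
  have h6 : 0 < a ^ (3/4 : ℝ) := Real.rpow_pos_of_pos h1 _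
  have h7 : (N : ℝ) + 1 ≤ a ^ (-(3/4) : ℝ) := by
    rw [Real.rpow_neg h1.le, ← one_div, le_div_iff₀ h6]
    exact h5
  have h8 : (N : ℝ) ≤ KT T y n := by linarith
  exact_mod_cast h8

/-- the sum of exp(-K_n/2) is at most e0 -/
theorem adm_sum (e0 : ℝ) (he : 0 < e0) : ∃ δ : ℝ, 0 < δ ∧ δ ≤ 1 ∧ ∀ (T : ℝ) (y M : ℕ), 2 ≤ y → 1 < T →
    2 ^ M * Real.log y ≤ δ * Real.log T → ∑ n ∈ Finset.Icc 1 M, Real.exp (-(KT T y n : ℝ) / 2) ≤ e0 := by
  obtain ⟨C, hC, hgeo⟩ := a4_geo (3/4) (by norm_num)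
  obtain ⟨δ, hδ, hδ1, hδC⟩ := a4_delta (2 * C) e0 (3/4) (by positivity) he (by norm_num)
  refine ⟨δ, hδ, hδ1, fun T y M hy hT h => ?_⟩
  have hL : 0 < Real.log T := Real.log_pos hT
  have hy1 : (1 : ℝ) < (y : ℝ) := by exact_mod_cast (by omega : 1 < y)
  have hl : 0 < Real.log y := Real.log_pos hy1
  have h1 : ∑ n ∈ Finset.Icc 1 M, Real.exp (-(KT T y n : ℝ) / 2) ≤
      ∑ n ∈ Finset.Icc 1 M, 2 * (2 ^ n * (Real.log y / Real.log T)) ^ (3/4 : ℝ) := by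
    refine Finset.sum_le_sum fun n hn => ?_
    obtain ⟨h1, h2, -, h4⟩ := a4_a hy hT h (Finset.mem_Icc.mp hn).2
    set a := 2 ^ n * (Real.log y / Real.log T) with ha
    have hw : 0 < a ^ (-(3/4) : ℝ) := Real.rpow_pos_of_pos h1 _
    have h5 : a ^ (3/4 : ℝ) = (a ^ (-(3/4) : ℝ))⁻¹ := by
      rw [Real.rpow_neg h1.le, inv_inv]
    rw [h5]
    set w := a ^ (-(3/4) : ℝ)
    have h6 : w / 2 ≤ Real.exp (w / 2) := by
      have := Real.add_one_le_exp (w / 2)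
      linarith
    calc Real.exp (-(KT T y n : ℝ) / 2) ≤ Real.exp (-(w / 2)) := Real.exp_le_exp.mpr (by linarith)
      _ = (Real.exp (w / 2))⁻¹ := Real.exp_neg _
      _ ≤ (w / 2)⁻¹ := inv_anti₀ (by positivity) h6
      _ = 2 * w⁻¹ := by rw [inv_div]; ring
  have h2 := hgeo (Real.log y / Real.log T) M (by positivity)
  have h3 : (2 ^ M * (Real.log y / Real.log T)) ^ (3/4 : ℝ) ≤ δ ^ (3/4 : ℝ) := by
    obtain ⟨h1, h2, -, -⟩ := a4_a hy hT h le_rfl
    exact Real.rpow_le_rpow h1.le h2 (by norm_num)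
  rw [← Finset.mul_sum] at h1
  calc _ ≤ 2 * (C * δ ^ (3/4 : ℝ)) := by
        refine h1.trans (mul_le_mul_of_nonneg_left (h2.trans ?_) (by norm_num))
        exact mul_le_mul_of_nonneg_left h3 hC.le
    _ = 2 * C * δ ^ (3/4 : ℝ) := by ring
    _ ≤ e0 := hδC

/-- every truncation parameter is at most (log T)^(3/4) + 1 when y is at least 3 -/
theorem adm_Kle (T : ℝ) (y n : ℕ) (hy : 3 ≤ y) (hT : 1 < T) : (KT T y n : ℝ) ≤ Real.log T ^ (3/4 : ℝ) + 1 := by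
  have hL : 0 < Real.log T := Real.log_pos hT
  have hy3 : (3 : ℝ) ≤ (y : ℝ) := by exact_mod_cast hy
  have hl : 1 ≤ Real.log y := by
    rw [Real.le_log_iff_exp_le (by linarith)]
    have := Real.exp_one_lt_d9
    linarith
  have h2 : (1 : ℝ) ≤ 2 ^ n := one_le_pow₀ (by norm_num)
  have h3 : Real.log T / (2 ^ n * Real.log y) ≤ Real.log T :=
    div_le_self hL.le (one_le_mul_of_one_le_of_one_le h2 hl)
  have h0 : 0 ≤ Real.log T / (2 ^ n * Real.log y) := by positivity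
  unfold KT
  have h4 := (Nat.ceil_lt_add_one (Real.rpow_nonneg h0 (3/4 : ℝ))).le
  have h5 := Real.rpow_le_rpow h0 h3 (by norm_num : (0 : ℝ) ≤ 3/4)
  linarith

theorem a4_exp (q c : ℝ) (hc : 0 < c) : ∃ C : ℝ, 0 < C ∧ ∀ w : ℝ, 0 ≤ w →
    w ^ q * Real.exp (-c * w) ≤ C ∨ w < 1 := by
  obtain ⟨m, hm⟩ := exists_nat_ge q
  refine ⟨m.factorial / c ^ m + 1, by positivity, fun w hw => ?_⟩
  by_cases hw1 : w < 1
  · exact Or.inr hw1
  · left
    push Not at hw1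
    have h1 : w ^ q ≤ w ^ m := by
      rw [← Real.rpow_natCast]
      exact Real.rpow_le_rpow_of_exponent_le hw1 hm
    have h2 := Real.pow_div_factorial_le_exp (c * w) (by positivity) m
    have h3 : Real.exp (-c * w) = (Real.exp (c * w))⁻¹ := by rw [← Real.exp_neg]; ring_nf
    have h4 : w ^ m * Real.exp (-c * w) ≤ m.factorial / c ^ m := by
      rw [h3, ← div_eq_mul_inv, div_le_iff₀ (Real.exp_pos _)]
      have h5 : (m.factorial : ℝ) / c ^ m * ((c * w) ^ m / m.factorial) = w ^ m := by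
        rw [mul_pow]
        field_simp
      calc w ^ m = (m.factorial : ℝ) / c ^ m * ((c * w) ^ m / m.factorial) := h5.symm
        _ ≤ (m.factorial : ℝ) / c ^ m * Real.exp (c * w) :=
            mul_le_mul_of_nonneg_left h2 (by positivity)
    have h5 : w ^ q * Real.exp (-c * w) ≤ w ^ m * Real.exp (-c * w) :=
      mul_le_mul_of_nonneg_right h1 (Real.exp_pos _).le
    linarith

/-- summation over the first bad block: with a_v = 2^v log y / log T,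
sum over v <= M of a_v^(-g) exp(-c K_v) is at most C -/
theorem adm_bad (g c : ℝ) (hg : 0 ≤ g) (hc : 0 < c) : ∃ C : ℝ, 0 < C ∧ ∀ (T : ℝ) (y M : ℕ), 2 ≤ y → 1 < T →
    2 ^ M * Real.log y ≤ Real.log T →
    ∑ v ∈ Finset.Icc 1 M, (2 ^ v * Real.log y / Real.log T) ^ (-g) * Real.exp (-c * KT T y v) ≤ C := by
  obtain ⟨C, hC, hgeo⟩ := a4_geo 1 one_pos
  obtain ⟨D, hD, hexp⟩ := a4_exp (4 / 3 * (g + 1)) c hc
  refine ⟨(D + 1) * C, by positivity, fun T y M hy hT h => ?_⟩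
  have hL : 0 < Real.log T := Real.log_pos hT
  have hy1 : (1 : ℝ) < (y : ℝ) := by exact_mod_cast (by omega : 1 < y)
  have hl : 0 < Real.log y := Real.log_pos hy1
  have h' : 2 ^ M * Real.log y ≤ 1 * Real.log T := by rw [one_mul]; exact h
  have h1 : ∑ v ∈ Finset.Icc 1 M, (2 ^ v * Real.log y / Real.log T) ^ (-g) * Real.exp (-c * KT T y v) ≤
      ∑ v ∈ Finset.Icc 1 M, (D + 1) * (2 ^ v * (Real.log y / Real.log T)) ^ (1 : ℝ) := by
    refine Finset.sum_le_sum fun v hv => ?_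
    obtain ⟨h1, h2, -, h4⟩ := a4_a hy hT h' (Finset.mem_Icc.mp hv).2
    rw [mul_div_assoc]
    set a := 2 ^ v * (Real.log y / Real.log T) with ha
    have hw : 0 < a ^ (-(3/4) : ℝ) := Real.rpow_pos_of_pos h1 _
    have hw1 : 1 ≤ a ^ (-(3/4) : ℝ) := by
      rw [Real.rpow_neg h1.le]
      exact (one_le_inv₀ (Real.rpow_pos_of_pos h1 _)).mpr (Real.rpow_le_one h1.le h2 (by norm_num))
    have h5 : (a ^ (-(3/4) : ℝ)) ^ (4 / 3 * (g + 1)) = a ^ (-(g + 1)) := by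
      rw [← Real.rpow_mul h1.le]
      congr 1
      ring
    rcases hexp _ hw.le with h6 | h6
    · rw [h5] at h6
      have h7 : Real.exp (-c * KT T y v) ≤ Real.exp (-c * a ^ (-(3/4) : ℝ)) := by
        refine Real.exp_le_exp.mpr ?_
        have := mul_le_mul_of_nonneg_left h4 hc.le
        linarith
      have h8 : a ^ (-g) = a * a ^ (-(g + 1)) := by
        nth_rewrite 2 [← Real.rpow_one a]
        rw [← Real.rpow_add h1]
        congr 1
        ring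
      have hag : 0 ≤ a ^ (-g) := Real.rpow_nonneg h1.le _
      calc a ^ (-g) * Real.exp (-c * KT T y v) ≤ a ^ (-g) * Real.exp (-c * a ^ (-(3/4) : ℝ)) :=
            mul_le_mul_of_nonneg_left h7 hag
        _ = a * (a ^ (-(g + 1)) * Real.exp (-c * a ^ (-(3/4) : ℝ))) := by rw [h8]; ring
        _ ≤ a * D := mul_le_mul_of_nonneg_left h6 h1.le
        _ ≤ (D + 1) * a ^ (1 : ℝ) := by rw [Real.rpow_one]; nlinarith
    · linarith
  refine h1.trans ?_
  rw [← Finset.mul_sum]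
  refine mul_le_mul_of_nonneg_left ?_ (by positivity)
  refine (hgeo (Real.log y / Real.log T) M (by positivity)).trans ?_
  obtain ⟨h1, h2, -, -⟩ := a4_a hy hT h' (le_refl M)
  rw [Real.rpow_one]
  nlinarith

end CZ
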