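import Pool.Agent.Lib.MP_9eae41_pr.D0

set_option autoImplicit false

open Complex MeasureTheory Set Filter Topology
open scoped ComplexConjugate ENNReal

namespace CZ

/-! Row B1 (200 lines): the measure mu T. -/

theorem b1_meas (T : ℝ) : Measurable (fun t : ℝ => ENNReal.ofReal (T⁻¹ * Real.exp (-t / T))) := by
  fun_prop

theorem b1_intOn {T : ℝ} (hT : 0 < T) : IntegrableOn (fun t : ℝ => T⁻¹ * Real.exp (-t / T)) (Ioi 0) := by
  have h := integrableOn_exp_mul_Ioi (a := -T⁻¹) (by simpa using hT) 0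
  have h2 : IntegrableOn (fun t : ℝ => T⁻¹ * Real.exp (-T⁻¹ * t)) (Ioi 0) := h.const_mul T⁻¹
  refine h2.congr_fun (fun t _ => ?_) measurableSet_Ioi
  simp only
  congr 2
  field_simp

theorem b1_int {T : ℝ} (hT : 0 < T) : ∫ t in Ioi (0:ℝ), T⁻¹ * Real.exp (-t / T) = 1 := by
  have h := integral_exp_mul_Ioi (a := -T⁻¹) (by simpa using hT) 0
  have h2 : ∫ t in Ioi (0:ℝ), T⁻¹ * Real.exp (-t / T) = T⁻¹ * ∫ t in Ioi (0:ℝ), Real.exp (-T⁻¹ * t) := by
    rw [← integral_const_mul]
    refine setIntegral_congr_fun measurableSet_Ioi (fun t _ => ?_)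
    congr 2
    field_simp
  rw [h2, h]
  simp
  field_simp

theorem mu_prob {T : ℝ} (hT : 0 < T) : IsProbabilityMeasure (mu T) := by
  constructor
  unfold mu
  rw [withDensity_apply _ MeasurableSet.univ, Measure.restrict_univ,
    ← ofReal_integral_eq_lintegral_ofReal (b1_intOn hT), b1_int hT, ENNReal.ofReal_one]
  exact Eventually.of_forall (fun t => by positivity)

theorem lintegral_mu {T : ℝ} (hT : 0 < T) {f : ℝ → ℝ≥0∞} (hf : Measurable f) :
    ∫⁻ t, f t ∂mu T = ∫⁻ t in Ioi 0, ENNReal.ofReal (T⁻¹ * Real.exp (-t / T)) * f t := by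
  unfold mu
  rw [lintegral_withDensity_eq_lintegral_mul _ (b1_meas T) hf]
  rfl

theorem integral_mu {T : ℝ} (hT : 0 < T) (f : ℝ → ℂ) :
    ∫ t, f t ∂mu T = (T : ℂ)⁻¹ * ∫ t in Ioi (0:ℝ), f t * (Real.exp (-t / T) : ℂ) := by
  unfold mu
  rw [integral_withDensity_eq_integral_toReal_smul (b1_meas T) (Eventually.of_forall (fun t => ENNReal.ofReal_lt_top)),
    ← integral_const_mul]
  refine integral_congr_ae (Eventually.of_forall (fun t => ?_))
  simp only
  rw [ENNReal.toReal_ofReal (by positivity), Complex.real_smul]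
  push_cast
  ring

theorem b1_poly (k : ℕ) {T : ℝ} (hT : 0 < T) :
    Integrable (fun t : ℝ => ((1 + t) ^ k * (T⁻¹ * Real.exp (-t / T)))) (volume.restrict (Ioi 0)) := by
  have h : ∀ j : ℕ, IntegrableOn (fun t : ℝ => t ^ j * (T⁻¹ * Real.exp (-t / T))) (Ioi 0) := by
    intro j
    have h1 := integrableOn_rpow_mul_exp_neg_mul_rpow (p := 1) (s := (j : ℝ)) (b := T⁻¹)
      (by have : (0:ℝ) ≤ j := Nat.cast_nonneg j
          linarith) one_pos (by positivity)
    have h2 : IntegrableOn (fun t : ℝ => T⁻¹ * (t ^ (j : ℝ) * Real.exp (-T⁻¹ * t ^ (1:ℝ)))) (Ioi 0) :=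
      h1.const_mul T⁻¹
    refine h2.congr_fun (fun t _ => ?_) measurableSet_Ioi
    simp only [Real.rpow_natCast, Real.rpow_one]
    have : -T⁻¹ * t = -t / T := by field_simp
    rw [this]
    ring
  have e : (fun t : ℝ => ((1 + t) ^ k * (T⁻¹ * Real.exp (-t / T)))) =
      fun t => ∑ j ∈ Finset.range (k + 1), (k.choose j : ℝ) * (t ^ j * (T⁻¹ * Real.exp (-t / T))) := by
    funext t
    rw [add_comm, add_pow, Finset.sum_mul]
    refine Finset.sum_congr rfl (fun j _ => ?_)
    simp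
    ring
  rw [e]
  exact integrable_finsetSum _ (fun j _ => (h j).const_mul _)

/-- polynomially bounded continuous functions are integrable -/
theorem mu_integrable {T : ℝ} (hT : 0 < T) {f : ℝ → ℂ} (hf : Continuous f) {A : ℝ} {k : ℕ}
    (hb : ∀ t, 0 ≤ t → ‖f t‖ ≤ A * (1 + t) ^ k) : Integrable f (mu T) := by
  unfold mu
  rw [integrable_withDensity_iff_integrable_smul' (b1_meas T)
    (Eventually.of_forall (fun t => ENNReal.ofReal_lt_top))]
  refine Integrable.mono' ((b1_poly k hT).const_mul A) ?_ ?_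
  · refine Measurable.aestronglyMeasurable ?_
    exact ((b1_meas T).ennreal_toReal).smul hf.measurable
  · rw [ae_restrict_iff' measurableSet_Ioi]
    refine Eventually.of_forall (fun t ht => ?_)
    rw [ENNReal.toReal_ofReal (by positivity), norm_smul, Real.norm_of_nonneg (by positivity)]
    have := hb t (le_of_lt ht)
    calc T⁻¹ * Real.exp (-t / T) * ‖f t‖ ≤ T⁻¹ * Real.exp (-t / T) * (A * (1 + t) ^ k) := by gcongr
      _ = _ := by ring

/-- the measure of (-oo, 0] vanishes -/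
theorem mu_pos {T : ℝ} : ∀ᵐ t ∂mu T, 0 < t := by
  unfold mu
  refine (withDensity_absolutelyContinuous _ _).ae_le ?_
  exact ae_restrict_mem measurableSet_Ioi

theorem mu_shift {T x : ℝ} (hT : 1 ≤ T) (h0 : 0 ≤ x) (h1 : x ≤ 1) {g : ℝ → ℝ≥0∞} (hg : Measurable g) :
    ∫⁻ t, g (t + x) ∂mu T ≤ 3 * ∫⁻ t, g t ∂mu T := by
  have hT0 : 0 < T := by linarith
  have hg2 : Measurable (fun t : ℝ => g (t + x)) := hg.comp (measurable_add_const x)
  rw [lintegral_mu hT0 hg2, lintegral_mu hT0 hg,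
    ← lintegral_indicator measurableSet_Ioi, ← lintegral_indicator measurableSet_Ioi,
    ← lintegral_const_mul _ (Measurable.indicator (by fun_prop) measurableSet_Ioi),
    ← lintegral_sub_right_eq_self _ x]
  refine lintegral_mono (fun s => ?_)
  by_cases hs : s - x ∈ Ioi (0:ℝ)
  · have hs' : s ∈ Ioi (0:ℝ) := by
      simp only [mem_Ioi] at hs ⊢
      linarith
    rw [indicator_of_mem hs, indicator_of_mem hs']
    simp only [Function.comp, sub_add_cancel]
    rw [← mul_assoc]
    gcongr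
    rw [show (3 : ℝ≥0∞) = ENNReal.ofReal 3 by simp, ← ENNReal.ofReal_mul (by norm_num)]
    refine ENNReal.ofReal_le_ofReal ?_
    have e1 : -(s - x) / T = x / T + -s / T := by ring
    rw [e1, Real.exp_add]
    have h2 : Real.exp (x / T) ≤ 3 := by
      have h3 : x / T ≤ 1 := by
        rw [div_le_one hT0]
        linarith
      calc Real.exp (x / T) ≤ Real.exp 1 := Real.exp_le_exp.2 h3
        _ ≤ 3 := by
          have := Real.exp_one_lt_d9
          linarith
    have h4 : 0 ≤ T⁻¹ * Real.exp (-s / T) := by positivity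
    nlinarith
  · rw [indicator_of_notMem hs]
    exact zero_le

theorem mu_sharp {T : ℝ} (hT : 0 < T) {g : ℝ → ℝ≥0∞} (hg : Measurable g) :
    ∫⁻ t in Icc 0 T, g t ≤ ENNReal.ofReal (3 * T) * ∫⁻ t, g t ∂mu T := by
  rw [lintegral_mu hT hg, ← lintegral_const_mul _ (by fun_prop), setLIntegral_congr Ioc_ae_eq_Icc.symm]
  refine le_trans ?_ (lintegral_mono_set (s := Ioc 0 T) (t := Ioi 0) (fun t ht => ht.1))
  refine setLIntegral_mono (by fun_prop) (fun t ht => ?_)
  rw [← mul_assoc, ← ENNReal.ofReal_mul (by positivity)]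
  have h : 1 ≤ 3 * T * (T⁻¹ * Real.exp (-t / T)) := by
    have e : 3 * T * (T⁻¹ * Real.exp (-t / T)) = 3 * Real.exp (-t / T) := by field_simp
    rw [e]
    have h3 : -1 ≤ -t / T := by
      rw [neg_div, neg_le_neg_iff, div_le_one hT]
      exact ht.2
    have h4 := Real.exp_le_exp.2 h3
    have h5 : Real.exp (-1) * Real.exp 1 = 1 := by rw [← Real.exp_add]; simp
    have := Real.exp_one_lt_d9
    have h6 : 0 < Real.exp (-1) := Real.exp_pos _
    nlinarith
  calc g t = 1 * g t := (one_mul _).symm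
    _ ≤ _ := by
      gcongr
      rw [← ENNReal.ofReal_one]
      exact ENNReal.ofReal_le_ofReal h

/-- from two exponential means to a lower bound for the sharp mean -/
theorem mu_lower {T δ : ℝ} (hT : 0 < T) (hδ : 0 < δ) {g : ℝ → ℝ≥0∞} (hg : Measurable g) :
    ENNReal.ofReal δ * ∫⁻ t, g t ∂mu (δ * T) ≤ ENNReal.ofReal T⁻¹ * (∫⁻ t in Icc 0 T, g t) +
      ENNReal.ofReal (2 * δ * Real.exp (-(1 / (2 * δ)))) * ∫⁻ t, g t ∂mu (2 * δ * T) := by
  have h1 : 0 < δ * T := by positivity
  have h2 : 0 < 2 * δ * T := by positivity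
  rw [lintegral_mu h1 hg, lintegral_mu h2 hg, ← lintegral_const_mul _ (by fun_prop),
    ← lintegral_const_mul _ (by fun_prop), ← lintegral_const_mul _ (by fun_prop),
    setLIntegral_congr (Ioc_ae_eq_Icc (a := (0:ℝ)) (b := T)).symm,
    ← Ioc_union_Ioi_eq_Ioi hT.le, lintegral_union measurableSet_Ioi (by
      rw [Set.disjoint_left]
      intro a ha hb
      exact absurd ha.2 (not_le.2 hb))]
  refine add_le_add ?_ ?_
  · refine setLIntegral_mono (by fun_prop) (fun t ht => ?_)
    rw [← mul_assoc, ← ENNReal.ofReal_mul (by positivity)]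
    gcongr
    have e : δ * ((δ * T)⁻¹ * Real.exp (-t / (δ * T))) = T⁻¹ * Real.exp (-t / (δ * T)) := by
      field_simp
    rw [e]
    have h3 : Real.exp (-t / (δ * T)) ≤ 1 := by
      rw [Real.exp_le_one_iff, neg_div]
      have : 0 ≤ t / (δ * T) := div_nonneg ht.1.le h1.le
      linarith
    have h4 : 0 < T⁻¹ := by positivity
    nlinarith
  · refine le_trans ?_ (lintegral_mono_set (s := Ioi T) (t := Ioc 0 T ∪ Ioi T) subset_union_right)
    refine setLIntegral_mono (by fun_prop) (fun t ht => ?_)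
    rw [← mul_assoc, ← mul_assoc, ← ENNReal.ofReal_mul (by positivity), ← ENNReal.ofReal_mul (by positivity)]
    refine mul_le_mul_left ?_ _
    refine ENNReal.ofReal_le_ofReal ?_
    have e : δ * ((δ * T)⁻¹ * Real.exp (-t / (δ * T))) = T⁻¹ * Real.exp (-t / (δ * T)) := by
      field_simp
    have e2 : 2 * δ * Real.exp (-(1 / (2 * δ))) * ((2 * δ * T)⁻¹ * Real.exp (-t / (2 * δ * T))) =
        T⁻¹ * Real.exp (-(1 / (2 * δ)) + -t / (2 * δ * T)) := by
      rw [Real.exp_add]
      field_simp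
    rw [e, e2]
    have h3 : -t / (δ * T) ≤ -(1 / (2 * δ)) + -t / (2 * δ * T) := by
      have h5 : -(1 / (2 * δ)) + -t / (2 * δ * T) - -t / (δ * T) = (t - T) / (2 * δ * T) := by
        field_simp
        ring
      have h6 : 0 ≤ (t - T) / (2 * δ * T) := div_nonneg (by linarith [mem_Ioi.1 ht]) h2.le
      linarith
    have h4 := Real.exp_le_exp.2 h3
    gcongr

end CZ
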