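import Pool.Agent.Lib.MP_9eae41_pr.A2

set_option autoImplicit false

open Complex MeasureTheory Set Filter Topology
open scoped ComplexConjugate ENNReal

namespace CZ

/-! Row C1: the torus. -/

theorem Ug_prob : IsProbabilityMeasure Ug := by
  constructor
  simp [Ug]

theorem PT_prob : IsProbabilityMeasure PT := by
  have := Ug_prob
  unfold PT
  infer_instance

theorem c1_ee_cont : Continuous ee := by
  unfold ee
  fun_prop

theorem c1_ee_add (x y : ℝ) : ee (x + y) = ee x * ee y := by
  unfold ee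
  rw [← Complex.exp_add]
  congr 1
  push_cast
  ring

theorem c1_ee_fourier (x : ℝ) : ee x = fourier 1 (x : UnitAddCircle) := by
  rw [fourier_coe_apply]
  unfold ee
  congr 1
  push_cast
  ring

/-- one variable: integral of ee(x)^m for integer m -/
theorem int_ee (m : ℤ) : ∫ x, ee x ^ m ∂Ug = if m = 0 then 1 else 0 := by
  unfold Ug
  rw [integral_Icc_eq_integral_Ioc, ← intervalIntegral.integral_of_le zero_le_one]
  split_ifs with h
  · subst h
    simp
  · have h1 : ∀ x : ℝ, ee x ^ m = Complex.exp ((2 * Real.pi * m * I) * x) := by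
      intro x
      unfold ee
      rw [← Complex.exp_int_mul]
      congr 1
      ring
    simp only [h1]
    have hc : (2 * Real.pi * m * I : ℂ) ≠ 0 := by
      have : (m : ℂ) ≠ 0 := by exact_mod_cast h
      have hp : (Real.pi : ℂ) ≠ 0 := by exact_mod_cast Real.pi_ne_zero
      simp [this, hp]
    rw [integral_exp_mul_complex hc]
    have h2 : Complex.exp (2 * Real.pi * m * I * ((1 : ℝ) : ℂ)) = 1 := by
      have := Complex.exp_int_mul_two_pi_mul_I m
      rw [← this]
      congr 1
      push_cast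
      ring
    rw [h2]
    simp

theorem c1_map_eval (p : ℕ) : PT.map (fun θ : Om => θ p) = Ug := by
  have := Ug_prob
  unfold PT
  exact Measure.infinitePi_map_eval (μ := fun _ : ℕ => Ug) p

theorem c1_indep : ProbabilityTheory.iIndepFun (fun (p : ℕ) (θ : Om) => θ p) PT := by
  have := Ug_prob
  unfold PT
  exact ProbabilityTheory.iIndepFun_infinitePi (P := fun _ : ℕ => Ug) (X := fun _ x => x) (fun _ => measurable_id)

/-- product of two functions depending on disjoint finite sets of coordinates -/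
theorem c1_two {K : Type} [RCLike K] (S T : Finset ℕ) (hST : Disjoint S T) (F G : Om → K)
    (hF : Measurable F) (hG : Measurable G) (dF : ∀ θ θ' : Om, (∀ p ∈ S, θ p = θ' p) → F θ = F θ')
    (dG : ∀ θ θ' : Om, (∀ p ∈ T, θ p = θ' p) → G θ = G θ') :
    ∫ θ, F θ * G θ ∂PT = (∫ θ, F θ ∂PT) * ∫ θ, G θ ∂PT := by
  classical
  have hi := c1_indep.indepFun_finset S T hST (fun p => measurable_pi_apply p)
  let eS : (S → ℝ) → Om := fun y p => if h : p ∈ S then y ⟨p, h⟩ else 0
  let eT : (T → ℝ) → Om := fun y p => if h : p ∈ T then y ⟨p, h⟩ else 0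
  have meS : Measurable eS := by
    rw [measurable_pi_iff]
    intro p
    by_cases h : p ∈ S
    · simp only [eS, h, dif_pos]
      exact measurable_pi_apply _
    · simp only [eS, h, dif_neg, not_false_eq_true]
      exact measurable_const
  have meT : Measurable eT := by
    rw [measurable_pi_iff]
    intro p
    by_cases h : p ∈ T
    · simp only [eT, h, dif_pos]
      exact measurable_pi_apply _
    · simp only [eT, h, dif_neg, not_false_eq_true]
      exact measurable_const
  have h2 : ProbabilityTheory.IndepFun ((F ∘ eS) ∘ (fun (θ : Om) (i : S) => θ i))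
      ((G ∘ eT) ∘ (fun (θ : Om) (i : T) => θ i)) PT := hi.comp (hF.comp meS) (hG.comp meT)
  have hFe : ((F ∘ eS) ∘ (fun (θ : Om) (i : S) => θ i)) = F := by
    funext θ
    apply dF
    intro p hp
    simp [eS, hp]
  have hGe : ((G ∘ eT) ∘ (fun (θ : Om) (i : T) => θ i)) = G := by
    funext θ
    apply dG
    intro p hp
    simp [eT, hp]
  rw [hFe, hGe] at h2
  exact h2.integral_fun_mul_eq_mul_integral hF.aestronglyMeasurable hG.aestronglyMeasurable

theorem c1_many {K : Type} [RCLike K] (I : Finset ℕ) (s : ℕ → Finset ℕ)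
    (hs : ∀ i ∈ I, ∀ j ∈ I, i ≠ j → Disjoint (s i) (s j)) (F : ℕ → Om → K) (hF : ∀ i ∈ I, Measurable (F i))
    (dF : ∀ i ∈ I, ∀ θ θ' : Om, (∀ p ∈ s i, θ p = θ' p) → F i θ = F i θ') :
    ∫ θ, ∏ i ∈ I, F i θ ∂PT = ∏ i ∈ I, ∫ θ, F i θ ∂PT := by
  classical
  have := PT_prob
  induction I using Finset.induction_on with
  | empty => simp
  | insert a J ha ih =>
    rw [Finset.prod_insert ha, ← ih (fun i hi j hj => hs i (Finset.mem_insert_of_mem hi) j (Finset.mem_insert_of_mem hj))
      (fun i hi => hF i (Finset.mem_insert_of_mem hi)) (fun i hi => dF i (Finset.mem_insert_of_mem hi))]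
    simp_rw [Finset.prod_insert ha]
    refine c1_two (s a) (J.biUnion s) ?_ (F a) (fun θ => ∏ i ∈ J, F i θ) (hF a (Finset.mem_insert_self _ _)) ?_
      (dF a (Finset.mem_insert_self _ _)) ?_
    · rw [Finset.disjoint_biUnion_right]
      intro i hi
      exact hs a (Finset.mem_insert_self _ _) i (Finset.mem_insert_of_mem hi) (fun h => ha (h ▸ hi))
    · exact Finset.measurable_fun_prod J (fun i hi => hF i (Finset.mem_insert_of_mem hi))
    · intro θ θ' h
      apply Finset.prod_congr rfl
      intro i hi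
      exact dF i (Finset.mem_insert_of_mem hi) θ θ' (fun p hp => h p (Finset.mem_biUnion.2 ⟨i, hi, hp⟩))

theorem torus_blocks (I : Finset ℕ) (s : ℕ → Finset ℕ) (hs : ∀ i ∈ I, ∀ j ∈ I, i ≠ j → Disjoint (s i) (s j))
    (f : ℕ → (ℕ → ℂ) → ℂ) (hf : ∀ i ∈ I, Measurable (fun θ : Om => f i (Xt θ)))
    (hd : ∀ i ∈ I, ∀ X Y : ℕ → ℂ, (∀ p ∈ s i, X p = Y p) → f i X = f i Y) :
    ∫ θ, ∏ i ∈ I, f i (Xt θ) ∂PT = ∏ i ∈ I, ∫ θ, f i (Xt θ) ∂PT := by
  refine c1_many I s hs (fun i θ => f i (Xt θ)) hf ?_
  intro i hi θ θ' h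
  apply hd i hi
  intro p hp
  simp [Xt, h p hp]

theorem torus_blocks_real (I : Finset ℕ) (s : ℕ → Finset ℕ) (hs : ∀ i ∈ I, ∀ j ∈ I, i ≠ j → Disjoint (s i) (s j))
    (f : ℕ → (ℕ → ℂ) → ℝ) (hf : ∀ i ∈ I, Measurable (fun θ : Om => f i (Xt θ)))
    (hd : ∀ i ∈ I, ∀ X Y : ℕ → ℂ, (∀ p ∈ s i, X p = Y p) → f i X = f i Y) :
    ∫ θ, ∏ i ∈ I, f i (Xt θ) ∂PT = ∏ i ∈ I, ∫ θ, f i (Xt θ) ∂PT := by
  refine c1_many I s hs (fun i θ => f i (Xt θ)) hf ?_
  intro i hi θ θ' h
  apply hd i hi
  intro p hp
  simp [Xt, h p hp]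

theorem c1_comp_cont {K : Type} [RCLike K] (g : ℂ → K) (hg : ContinuousOn g (Metric.sphere 0 1)) :
    Continuous (fun x : ℝ => g (ee x)) := by
  have h1 : ∀ x : ℝ, ee x ∈ Metric.sphere (0 : ℂ) 1 := fun x => by simp [norm_ee]
  exact hg.comp_continuous c1_ee_cont h1

theorem c1_prod {K : Type} [RCLike K] (s : Finset ℕ) (g : ℕ → ℂ → K) (hg : ∀ p ∈ s, ContinuousOn (g p) (Metric.sphere 0 1)) :
    ∫ θ, ∏ p ∈ s, g p (Xt θ p) ∂PT = ∏ p ∈ s, ∫ x, g p (ee x) ∂Ug := by
  have h := c1_many s (fun p => {p}) (fun i _ j _ hij => by simpa using hij)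
    (fun p θ => g p (Xt θ p)) (fun p hp => (c1_comp_cont (g p) (hg p hp)).measurable.comp (measurable_pi_apply p))
    (fun p _ θ θ' h => by simp [Xt, h p (Finset.mem_singleton_self p)])
  rw [h]
  apply Finset.prod_congr rfl
  intro p hp
  rw [← c1_map_eval p, integral_map (measurable_pi_apply p).aemeasurable
    (c1_comp_cont (g p) (hg p hp)).aestronglyMeasurable]
  rfl

/-- product of functions of single coordinates -/
theorem torus_prod (s : Finset ℕ) (g : ℕ → ℂ → ℂ) (hg : ∀ p ∈ s, ContinuousOn (g p) (Metric.sphere 0 1)) :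
    ∫ θ, ∏ p ∈ s, g p (Xt θ p) ∂PT = ∏ p ∈ s, ∫ x, g p (ee x) ∂Ug := c1_prod s g hg

theorem torus_prod_real (s : Finset ℕ) (g : ℕ → ℂ → ℝ) (hg : ∀ p ∈ s, ContinuousOn (g p) (Metric.sphere 0 1)) :
    ∫ θ, ∏ p ∈ s, g p (Xt θ p) ∂PT = ∏ p ∈ s, ∫ x, g p (ee x) ∂Ug := c1_prod s g hg

/-- orthogonality of the characters -/
theorem torus_orth {h k : ℕ} (hh : h ≠ 0) (hk : k ≠ 0) :
    ∫ θ, chi (Xt θ) h * conj (chi (Xt θ) k) ∂PT = if h = k then 1 else 0 := by
  classical
  set s : Finset ℕ := h.primeFactors ∪ k.primeFactors with hs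
  have h1 : ∀ (n : ℕ) (X : ℕ → ℂ), n.primeFactors ⊆ s → chi X n = ∏ p ∈ s, X p ^ (n.factorization p) := by
    intro n X hn
    unfold chi
    exact Finsupp.prod_of_support_subset _ (by simpa using hn) _ (by simp)
  have h2 : ∀ θ : Om, chi (Xt θ) h * conj (chi (Xt θ) k) =
      ∏ p ∈ s, (Xt θ p) ^ ((h.factorization p : ℤ) - (k.factorization p : ℤ)) := by
    intro θ
    rw [h1 h _ Finset.subset_union_left, h1 k _ Finset.subset_union_right, map_prod, ← Finset.prod_mul_distrib]
    apply Finset.prod_congr rfl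
    intro p _
    have hn : ‖Xt θ p‖ = 1 := norm_Xt θ p
    have h0 : Xt θ p ≠ 0 := by
      intro h
      rw [h] at hn
      simp at hn
    have hc : conj (Xt θ p) = (Xt θ p)⁻¹ := by
      rw [Complex.inv_def, Complex.normSq_eq_norm_sq, hn]
      simp
    rw [map_pow, hc, zpow_sub₀ h0, zpow_natCast, zpow_natCast, inv_pow, div_eq_mul_inv]
  simp_rw [h2]
  rw [torus_prod s (fun p z => z ^ ((h.factorization p : ℤ) - (k.factorization p : ℤ)))]
  · simp_rw [int_ee]
    split_ifs with he
    · subst he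
      simp
    · have : ∃ p, h.factorization p ≠ k.factorization p := by
        by_contra hcon
        push Not at hcon
        exact he (Nat.eq_of_factorization_eq hh hk hcon)
      obtain ⟨p, hp⟩ := this
      have hps : p ∈ s := by
        by_contra hcon
        rw [hs, Finset.mem_union, not_or] at hcon
        have e1 : h.factorization p = 0 := by
          rw [← Finsupp.notMem_support_iff]
          simpa using hcon.1
        have e2 : k.factorization p = 0 := by
          rw [← Finsupp.notMem_support_iff]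
          simpa using hcon.2
        exact hp (by rw [e1, e2])
      apply Finset.prod_eq_zero hps
      rw [if_neg]
      omega
  · intro p _ z hz
    have hz0 : z ≠ 0 := by
      intro h
      rw [h] at hz
      simp at hz
    exact (continuousAt_zpow₀ z _ (Or.inl hz0)).continuousWithinAt

theorem c1_rot_one (a : ℝ) : (Ug.map ee).map (fun z => z * ee a) = Ug.map ee := by
  have hm : Measurable (fun x : ℝ => (x : UnitAddCircle)) := AddCircle.measurable_mk'
  have hE : Measurable (fun y : UnitAddCircle => (fourier 1 y : ℂ)) := (ContinuousMap.continuous _).measurable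
  have h0 : Ug = volume.restrict (Ioc (0:ℝ) (0 + 1)) := by
    unfold Ug
    rw [zero_add]
    exact (Measure.restrict_congr_set Ioc_ae_eq_Icc).symm
  have h1 : Ug.map ee = (volume : Measure UnitAddCircle).map (fun y => (fourier 1 y : ℂ)) := by
    rw [← (UnitAddCircle.measurePreserving_mk 0).map_eq, ← h0, Measure.map_map hE hm]
    congr 1
    funext x
    exact c1_ee_fourier x
  rw [h1, Measure.map_map (by fun_prop) hE]
  have h2 : ((fun z : ℂ => z * ee a) ∘ fun y : UnitAddCircle => (fourier 1 y : ℂ)) =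
      (fun y : UnitAddCircle => (fourier 1 y : ℂ)) ∘ (fun y => y + (a : UnitAddCircle)) := by
    funext y
    simp only [Function.comp]
    rw [c1_ee_fourier, fourier_apply, fourier_apply, fourier_apply, zsmul_add, AddCircle.toCircle_add]
    simp
  rw [h2, ← Measure.map_map hE (by fun_prop), (measurePreserving_add_right volume (a : UnitAddCircle)).map_eq]

theorem c1_law : PT.map Xt = Measure.infinitePi (fun _ : ℕ => Ug.map ee) := by
  have := Ug_prob
  unfold PT
  exact Measure.infinitePi_map_pi (μ := fun _ : ℕ => Ug) (f := fun _ x => ee x) (fun _ => c1_ee_cont.measurable)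

/-- rotation invariance: the law of the phases is invariant under fixed rotations -/
theorem torus_rot (a : ℕ → ℝ) (f : (ℕ → ℂ) → ℝ) (hf : Measurable (fun θ : Om => f (Xt θ))) (hfX : Measurable f) :
    ∫ θ, f (fun p => Xt θ p * ee (a p)) ∂PT = ∫ θ, f (Xt θ) ∂PT := by
  have := Ug_prob
  have hX : Measurable Xt := Xt_cont.measurable
  have hr : Measurable (fun (X : ℕ → ℂ) (p : ℕ) => X p * ee (a p)) := by
    rw [measurable_pi_iff]
    intro p
    exact (measurable_pi_apply p).mul_const _
  have hpe : IsProbabilityMeasure (Ug.map ee) := Measure.isProbabilityMeasure_map c1_ee_cont.measurable.aemeasurable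
  have e1 : (PT.map Xt).map (fun (X : ℕ → ℂ) (p : ℕ) => X p * ee (a p)) = PT.map Xt := by
    rw [c1_law, Measure.infinitePi_map_pi (μ := fun _ : ℕ => Ug.map ee) (f := fun p z => z * ee (a p))
      (fun p => by fun_prop)]
    congr 1
    funext p
    exact c1_rot_one (a p)
  have e2 : ∫ θ, f (Xt θ) ∂PT = ∫ X, f X ∂(PT.map Xt) :=
    (integral_map hX.aemeasurable hfX.aestronglyMeasurable).symm
  have e3 : ∫ θ, f (fun p => Xt θ p * ee (a p)) ∂PT = ∫ X, f (fun p => X p * ee (a p)) ∂(PT.map Xt) :=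
    (integral_map hX.aemeasurable (hfX.comp hr).aestronglyMeasurable).symm
  have e4 : ∫ X, f (fun p => X p * ee (a p)) ∂(PT.map Xt) =
      ∫ X, f X ∂((PT.map Xt).map (fun (X : ℕ → ℂ) (p : ℕ) => X p * ee (a p))) :=
    (integral_map hr.aemeasurable hfX.aestronglyMeasurable).symm
  rw [e3, e4, e1, e2]

end CZ
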