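import Mathlib

set_option autoImplicit false

open Complex MeasureTheory Set Filter Topology
open scoped ComplexConjugate

namespace CZ

/-- absolute value of zeta on the critical line -/
noncomputable def Z (t : ℝ) : ℝ := ‖riemannZeta (1/2 + t * I)‖

/-- the unit vector with angle 2 pi x -/
noncomputable def ee (x : ℝ) : ℂ := exp (2 * Real.pi * x * I)

/-- uniform law on [0,1] -/
noncomputable def Ug : Measure ℝ := volume.restrict (Icc 0 1)

/-- infinite torus, angles indexed by the naturals (only primes are used) -/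
abbrev Om : Type := ℕ → ℝ

/-- product law: independent uniform angles -/
noncomputable def PT : Measure Om := Measure.infinitePi (fun _ : ℕ => Ug)

/-- phases of a point of the torus -/
noncomputable def Xt (θ : Om) (p : ℕ) : ℂ := ee (θ p)

/-- phases at height t: p to the power -it -/
noncomputable def Xp (t : ℝ) (p : ℕ) : ℂ := exp (-(t * Real.log p : ℝ) * I)

/-- completely multiplicative extension of X: n = prod p^k goes to prod X p ^ k -/
noncomputable def chi (X : ℕ → ℂ) (n : ℕ) : ℂ := n.factorization.prod (fun p k => X p ^ k)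

/-- F is a Dirichlet polynomial (in the phases) with prime support S, length H, l1 norm at most L -/
def IsDP (S : Finset ℕ) (H : ℕ) (L : ℝ) (F : (ℕ → ℂ) → ℂ) : Prop :=
  ∃ a : ℕ → ℂ, (∀ h, a h ≠ 0 → 1 ≤ h ∧ h ≤ H ∧ h.primeFactors ⊆ S) ∧
    (∑ h ∈ Finset.range (H + 1), ‖a h‖ ≤ L) ∧
    ∀ X : ℕ → ℂ, F X = ∑ h ∈ Finset.range (H + 1), a h * chi X h

/-- probability measure on (0,oo) with density exp(-t/T)/T -/
noncomputable def mu (T : ℝ) : Measure ℝ :=
  (volume.restrict (Ioi 0)).withDensity (fun t => ENNReal.ofReal (T⁻¹ * Real.exp (-t / T)))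

/-- dyadic blocks of primes: block 0 is the primes at most y, block n+1 the primes in (y^(2^n), y^(2^(n+1))] -/
def blk (y : ℕ) : ℕ → Finset ℕ
  | 0 => (Finset.range (y + 1)).filter Nat.Prime
  | n + 1 => (Finset.Ioc (y ^ (2 ^ n)) (y ^ (2 ^ (n + 1)))).filter Nat.Prime

/-- truncation parameter of block n -/
noncomputable def KT (T : ℝ) (y n : ℕ) : ℕ := ⌈(Real.log T / (2 ^ n * Real.log y)) ^ (3/4 : ℝ)⌉₊

/-- prime polynomial over s with coefficients c -/
noncomputable def Ps (s : Finset ℕ) (c : ℕ → ℂ) (X : ℕ → ℂ) : ℂ :=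
  ∑ p ∈ s, c p * X p * ((Real.sqrt p : ℝ) : ℂ)⁻¹

/-- truncated exponential -/
noncomputable def Ek (K : ℕ) (w : ℂ) : ℂ := ∑ k ∈ Finset.range (K + 1), w ^ k / (k.factorial : ℂ)

/-- truncated exponential of the prime polynomial of block n -/
noncomputable def Nn (T : ℝ) (y n : ℕ) (c : ℕ → ℂ) (X : ℕ → ℂ) : ℂ := Ek (KT T y n) (Ps (blk y n) c X)

/-- local factor of the second moment: sum over integers m of p^(-|m|(1/2+z)) X^m -/
noncomputable def Dz (z : ℂ) (p : ℕ) (x : ℂ) : ℂ :=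
  (1 - (p : ℂ) ^ (-1 - 2 * z)) / ((1 - x * (p : ℂ) ^ (-1/2 - z)) * (1 - conj x * (p : ℂ) ^ (-1/2 - z)))

/-- product of the local factors over s, absolute value, to the power a (a = 0 or 1) -/
noncomputable def DD (a : ℕ) (z : ℂ) (s : Finset ℕ) (X : ℕ → ℂ) : ℝ := (∏ p ∈ s, ‖Dz z p (X p)‖) ^ a

/-- exponent sum of block s -/
noncomputable def Sb (a : ℕ) (c : ℕ → ℂ) (s : Finset ℕ) : ℝ := ∑ p ∈ s, (‖(a : ℂ) + c p‖ ^ 2 - a) / p

/-- exponent sum of the blocks 1..M -/
noncomputable def Sg (a : ℕ) (c : ℕ → ℂ) (y M : ℕ) : ℝ := ∑ n ∈ Finset.Icc 1 M, Sb a c (blk y n)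

/-- finite Euler product over s -/
noncomputable def Eu (s : Finset ℕ) (X : ℕ → ℂ) : ℂ := ∏ p ∈ s, (1 - X p * ((Real.sqrt p : ℝ) : ℂ)⁻¹)⁻¹

/-- the height s is good for the blocks 1..M -/
def Good (T : ℝ) (y M : ℕ) (s : ℝ) : Prop :=
  ∀ n ∈ Finset.Icc 1 M, ‖Ps (blk y n) (fun _ => 1) (Xp s)‖ ≤ KT T y n / 100

end CZ

namespace CZ

/-- error sum of the block s -/
noncomputable def Er (z : ℂ) (s : Finset ℕ) : ℝ :=
  ∑ p ∈ s, (‖z‖ * Real.log p / p + (p : ℝ) ^ (-(3/2) : ℝ))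

/-- standing hypotheses on a block: primes at least 100, sum of 1/p at most 1, and |z| log p at most 1/2 -/
def Bk (z : ℂ) (s : Finset ℕ) : Prop :=
  (∀ p ∈ s, p.Prime ∧ 100 ≤ p ∧ ‖z‖ * Real.log p ≤ 1/2) ∧ ∑ p ∈ s, (1 : ℝ) / p ≤ 1

end CZ
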