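import Pool.Agent.Lib.MP_9eae41_pr.B1
import Pool.Agent.Lib.MP_9eae41_pr.C1

set_option autoImplicit false

open Complex MeasureTheory Set Filter Topology
open scoped ComplexConjugate ENNReal

namespace CZ

/-! Row D1 (200 lines): mean square of a Dirichlet polynomial under mu T. For h, k at most H, h distinct from k:
the mean of (h/k)^(-it) is 1/(1 + i T log(h/k)), of absolute value at most 1/(T |log(h/k)|), at most (H+1)/T. -/

theorem d1_log {H h k : ℕ} (hh : 1 ≤ h) (hkH : k ≤ H) (hlt : h < k) :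
    (1:ℝ) / (H + 1) ≤ Real.log k - Real.log h := by
  have h0 : (0:ℝ) < h := by exact_mod_cast hh
  have hk0 : (0:ℝ) < k := by exact_mod_cast (lt_of_le_of_lt (Nat.zero_le _) hlt)
  have h1 : (h:ℝ) + 1 ≤ k := by exact_mod_cast hlt
  have h2 : (k:ℝ) ≤ H := by exact_mod_cast hkH
  rw [← Real.log_div hk0.ne' h0.ne']
  have h3 := Real.one_sub_inv_le_log_of_pos (div_pos hk0 h0)
  refine le_trans ?_ h3
  rw [inv_div]
  have h4 : (1:ℝ) - h / k = (k - h) / k := by field_simp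
  rw [h4, div_le_div_iff₀ (by positivity) hk0]
  nlinarith

theorem d1_abslog {H h k : ℕ} (hh : 1 ≤ h) (hk : 1 ≤ k) (hhH : h ≤ H) (hkH : k ≤ H) (hne : h ≠ k) :
    (1:ℝ) / (H + 1) ≤ |Real.log k - Real.log h| := by
  rcases lt_or_gt_of_ne hne with h1 | h1
  · exact le_trans (d1_log hh hkH h1) (le_abs_self _)
  · rw [abs_sub_comm]
    exact le_trans (d1_log hk hhH h1) (le_abs_self _)

theorem d1_char (t : ℝ) {h k : ℕ} (hh : 1 ≤ h) (hk : 1 ≤ k) :
    chi (Xp t) h * conj (chi (Xp t) k) = exp (((Real.log k - Real.log h : ℝ) : ℂ) * I * t) := by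
  have h0 : (h : ℂ) ≠ 0 := by exact_mod_cast (by omega : h ≠ 0)
  have k0 : (k : ℂ) ≠ 0 := by exact_mod_cast (by omega : k ≠ 0)
  rw [chi_Xp t (by omega), chi_Xp_conj t (by omega), Complex.cpow_def_of_ne_zero h0, Complex.cpow_def_of_ne_zero k0,
    ← Complex.exp_add, ← Complex.natCast_log, ← Complex.natCast_log]
  congr 1
  push_cast
  ring

theorem mean_char {T : ℝ} (hT : 0 < T) {H h k : ℕ} (hh : 1 ≤ h) (hk : 1 ≤ k) (hhH : h ≤ H) (hkH : k ≤ H) (hne : h ≠ k) :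
    ‖∫ t, chi (Xp t) h * conj (chi (Xp t) k) ∂mu T‖ ≤ (H + 1) / T := by
  set l : ℝ := Real.log k - Real.log h with hl
  have hla : (1:ℝ) / (H + 1) ≤ |l| := d1_abslog hh hk hhH hkH hne
  have hl0 : 0 < |l| := lt_of_lt_of_le (by positivity) hla
  have hT' : (T:ℂ) ≠ 0 := by exact_mod_cast hT.ne'
  rw [integral_mu hT]
  have e1 : ∀ t : ℝ, chi (Xp t) h * conj (chi (Xp t) k) * (Real.exp (-t / T) : ℂ) =
      exp (((-(1/T) : ℝ) + (l : ℂ) * I) * t) := by
    intro t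
    rw [d1_char t hh hk, ← hl, Complex.ofReal_exp, ← Complex.exp_add]
    congr 1
    push_cast
    field_simp
    ring
  simp_rw [e1]
  have hre : (((-(1/T) : ℝ) : ℂ) + (l : ℂ) * I).re < 0 := by
    simp [hT]
  rw [integral_exp_mul_complex_Ioi hre 0]
  rw [ofReal_zero, mul_zero, exp_zero, norm_mul, norm_div, norm_neg, norm_one, norm_inv]
  have h5 : |l| ≤ ‖((-(1/T) : ℝ) : ℂ) + (l : ℂ) * I‖ := by
    have := Complex.abs_im_le_norm (((-(1/T) : ℝ) : ℂ) + (l : ℂ) * I)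
    simpa using this
  have h6 : ‖(T:ℂ)‖ = T := by rw [Complex.norm_real, Real.norm_of_nonneg hT.le]
  rw [h6]
  have h7 : (1:ℝ) / ‖((-(1/T) : ℝ) : ℂ) + (l : ℂ) * I‖ ≤ H + 1 := by
    rw [div_le_iff₀ (lt_of_lt_of_le hl0 h5)]
    have h8 : (1:ℝ) ≤ (H + 1) * |l| := by
      rw [div_le_iff₀ (by positivity)] at hla
      linarith [hla, mul_comm (|l|) ((H:ℝ) + 1)]
    calc (1:ℝ) ≤ (H + 1) * |l| := h8
      _ ≤ (H + 1) * ‖((-(1/T) : ℝ) : ℂ) + (l : ℂ) * I‖ := by gcongr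
  calc T⁻¹ * (1 / ‖((-(1/T) : ℝ) : ℂ) + (l : ℂ) * I‖) ≤ T⁻¹ * (H + 1) := by gcongr
    _ = (H + 1) / T := by ring

theorem d1_chi_cont (n : ℕ) : Continuous (fun X : ℕ → ℂ => chi X n) := by
  unfold chi Finsupp.prod
  exact continuous_finsetProd _ (fun p _ => (continuous_apply p).pow _)

theorem d1_int {α : Type} [MeasurableSpace α] (μ : Measure α) [IsProbabilityMeasure μ] (X : α → ℕ → ℂ)
    (hX : Measurable X) (h1 : ∀ t p, ‖X t p‖ = 1) (h k : ℕ) :
    Integrable (fun t => chi (X t) h * conj (chi (X t) k)) μ := by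
  have hm : Measurable (fun t => chi (X t) h * conj (chi (X t) k)) :=
    ((d1_chi_cont h).measurable.comp hX).mul (continuous_conj.measurable.comp ((d1_chi_cont k).measurable.comp hX))
  refine Integrable.mono' (integrable_const (1:ℝ)) hm.aestronglyMeasurable (Eventually.of_forall (fun t => ?_))
  rw [norm_mul, RCLike.norm_conj, chi_norm (h1 t), chi_norm (h1 t), one_mul]

theorem d1_expand {α : Type} [MeasurableSpace α] (μ : Measure α) [IsProbabilityMeasure μ] (X : α → ℕ → ℂ)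
    (hX : Measurable X) (h1 : ∀ t p, ‖X t p‖ = 1) (s : Finset ℕ) (a : ℕ → ℂ) :
    ((∫ t, ‖∑ h ∈ s, a h * chi (X t) h‖ ^ 2 ∂μ : ℝ) : ℂ) =
      ∑ h ∈ s, ∑ k ∈ s, a h * conj (a k) * ∫ t, chi (X t) h * conj (chi (X t) k) ∂μ := by
  rw [← integral_complex_ofReal]
  have e : ∀ t, ((‖∑ h ∈ s, a h * chi (X t) h‖ ^ 2 : ℝ) : ℂ) =
      ∑ h ∈ s, ∑ k ∈ s, a h * conj (a k) * (chi (X t) h * conj (chi (X t) k)) := by
    intro t
    rw [Complex.ofReal_pow, ← Complex.mul_conj', map_sum, Finset.sum_mul_sum]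
    refine Finset.sum_congr rfl (fun h _ => Finset.sum_congr rfl (fun k _ => ?_))
    rw [map_mul]
    ring
  simp_rw [e]
  rw [integral_finsetSum _ (fun h _ => integrable_finsetSum _ (fun k _ => (d1_int μ X hX h1 h k).const_mul _))]
  refine Finset.sum_congr rfl (fun h _ => ?_)
  rw [integral_finsetSum _ (fun k _ => (d1_int μ X hX h1 h k).const_mul _)]
  refine Finset.sum_congr rfl (fun k _ => ?_)
  rw [integral_const_mul]

theorem d1_diag {T : ℝ} (hT : 0 < T) {h : ℕ} : ∫ t, chi (Xp t) h * conj (chi (Xp t) h) ∂mu T = 1 := by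
  have := mu_prob hT
  have e : ∀ t : ℝ, chi (Xp t) h * conj (chi (Xp t) h) = 1 := by
    intro t
    rw [Complex.mul_conj', chi_norm (norm_Xp t)]
    simp
  simp_rw [e]
  simp

theorem mean_dp {T : ℝ} (hT : 1 ≤ T) {S : Finset ℕ} {H : ℕ} {L : ℝ} {F : (ℕ → ℂ) → ℂ} (hF : IsDP S H L F) :
    ∫⁻ t, ENNReal.ofReal (‖F (Xp t)‖ ^ 2) ∂mu T ≤
      ENNReal.ofReal ((∫ θ, ‖F (Xt θ)‖ ^ 2 ∂PT) + L ^ 2 * (H + 1) / T) := by
  have hT0 : 0 < T := by linarith
  have := mu_prob hT0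
  have := PT_prob
  have hL0 := dp_nonneg hF
  have hFc := dp_cont hF
  have hFb : ∀ t, ‖F (Xp t)‖ ≤ L := fun t => dp_bound hF (norm_Xp t)
  have hint : Integrable (fun t : ℝ => ‖F (Xp t)‖ ^ 2) (mu T) := by
    have hc : Continuous (fun t : ℝ => ‖F (Xp t)‖ ^ 2) := ((hFc.comp Xp_cont).norm).pow 2
    refine Integrable.mono' (integrable_const (L ^ 2)) hc.aestronglyMeasurable (Eventually.of_forall (fun t => ?_))
    rw [Real.norm_of_nonneg (by positivity)]
    have := hFb t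
    gcongr
  rw [← ofReal_integral_eq_lintegral_ofReal hint (Eventually.of_forall (fun t => by positivity))]
  refine ENNReal.ofReal_le_ofReal ?_
  obtain ⟨a, ha1, ha2, ha3⟩ := hF
  set s := Finset.range (H + 1) with hs
  have A1 := d1_expand (mu T) Xp Xp_cont.measurable norm_Xp s a
  have A2 := d1_expand PT Xt Xt_cont.measurable norm_Xt s a
  simp_rw [ha3]
  -- the difference
  have key : ‖((∫ t, ‖∑ h ∈ s, a h * chi (Xp t) h‖ ^ 2 ∂mu T : ℝ) : ℂ) -
      ((∫ θ, ‖∑ h ∈ s, a h * chi (Xt θ) h‖ ^ 2 ∂PT : ℝ) : ℂ)‖ ≤ L ^ 2 * (H + 1) / T := by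
    rw [A1, A2, ← Finset.sum_sub_distrib]
    simp_rw [← Finset.sum_sub_distrib]
    have b : ∀ h ∈ s, ∀ k ∈ s, ‖a h * conj (a k) * (∫ t, chi (Xp t) h * conj (chi (Xp t) k) ∂mu T) -
        a h * conj (a k) * (∫ θ, chi (Xt θ) h * conj (chi (Xt θ) k) ∂PT)‖ ≤ ‖a h‖ * ‖a k‖ * ((H + 1) / T) := by
      intro h hhs k hks
      by_cases h0 : a h = 0
      · simp [h0]
      by_cases k0 : a k = 0
      · simp [k0]
      obtain ⟨h1, h2, -⟩ := ha1 h h0
      obtain ⟨k1, k2, -⟩ := ha1 k k0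
      rw [← mul_sub, norm_mul, norm_mul, RCLike.norm_conj]
      refine mul_le_mul_of_nonneg_left ?_ (by positivity)
      rw [torus_orth (by omega) (by omega)]
      by_cases hk : h = k
      · subst hk
        rw [d1_diag hT0]
        simp
        positivity
      · rw [if_neg hk, sub_zero]
        exact mean_char hT0 h1 k1 h2 k2 hk
    calc _ ≤ ∑ h ∈ s, ∑ k ∈ s, ‖a h‖ * ‖a k‖ * ((H + 1) / T) := by
            refine (norm_sum_le _ _).trans (Finset.sum_le_sum (fun h hh => ?_))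
            exact (norm_sum_le _ _).trans (Finset.sum_le_sum (fun k hk => b h hh k hk))
      _ = (∑ h ∈ s, ‖a h‖) * (∑ k ∈ s, ‖a k‖) * ((H + 1) / T) := by
            rw [Finset.sum_mul_sum, Finset.sum_mul]
            refine Finset.sum_congr rfl (fun h _ => ?_)
            rw [Finset.sum_mul]
      _ ≤ L * L * ((H + 1) / T) := by
            have h0 : 0 ≤ ∑ h ∈ s, ‖a h‖ := Finset.sum_nonneg (fun _ _ => norm_nonneg _)
            gcongr
      _ = L ^ 2 * (H + 1) / T := by ring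
  rw [← Complex.ofReal_sub, Complex.norm_real] at key
  have := (abs_le.1 key).2
  linarith

end CZ
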