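import Pool.Agent.Lib.MP_9eae41_pr.C1

set_option autoImplicit false

open Complex MeasureTheory Set Filter Topology
open scoped ComplexConjugate ENNReal

namespace CZ

/-! Row E1 (250 lines): the torus form of the main term of the twisted second moment. -/

theorem e1_w_norm {z : ℂ} (hz : ‖z‖ ≤ 1/4) {p : ℕ} (hp : p.Prime) : ‖(p : ℂ) ^ (-1/2 - z)‖ < 1 := by
  have hp0 : 0 < p := hp.pos
  rw [Complex.norm_natCast_cpow_of_pos hp0]
  have h1 : (-1/2 - z : ℂ).re ≤ -1/4 := by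
    have h2 := (abs_le.1 ((Complex.abs_re_le_norm z).trans hz)).1
    have h3 : (-1/2 - z : ℂ).re = -1/2 - z.re := by
      rw [sub_re]
      norm_num
    rw [h3]
    linarith
  have hp1 : (1 : ℝ) < p := by exact_mod_cast hp.one_lt
  exact Real.rpow_lt_one_of_one_lt_of_neg hp1 (by linarith)

theorem e1_w_sq (z : ℂ) {p : ℕ} (hp : p.Prime) :
    (p : ℂ) ^ (-1 - 2 * z) = (p : ℂ) ^ (-1/2 - z) * (p : ℂ) ^ (-1/2 - z) := by
  have hp0 : (p : ℂ) ≠ 0 := by exact_mod_cast hp.ne_zero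
  rw [← Complex.cpow_add _ _ hp0]
  congr 1
  ring

theorem e1_den {w x : ℂ} (hw : ‖w‖ < 1) (hx : ‖x‖ = 1) : 1 - x * w ≠ 0 := by
  intro h
  have h1 : x * w = 1 := by linear_combination -h
  have h2 : ‖x * w‖ = 1 := by rw [h1, norm_one]
  rw [norm_mul, hx, one_mul] at h2
  linarith

/-- continuity and the geometric series of the local factor, |z| <= 1/4, p prime -/
theorem Dz_cont {z : ℂ} (hz : ‖z‖ ≤ 1/4) {p : ℕ} (hp : p.Prime) : ContinuousOn (Dz z p) (Metric.sphere 0 1) := by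
  have hw := e1_w_norm hz hp
  unfold Dz
  refine ContinuousOn.div continuousOn_const ?_ ?_
  · exact ((continuous_const.sub (continuous_id.mul continuous_const)).mul
      (continuous_const.sub (continuous_conj.mul continuous_const))).continuousOn
  · intro x hx
    have hx1 : ‖x‖ = 1 := mem_sphere_zero_iff_norm.1 hx
    refine mul_ne_zero (e1_den hw hx1) (e1_den hw ?_)
    rw [RCLike.norm_conj, hx1]

theorem e1_Dz_bound {z : ℂ} (hz : ‖z‖ ≤ 1/4) {p : ℕ} (hp : p.Prime) :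
    ∃ C : ℝ, ∀ x : ℂ, ‖x‖ = 1 → ‖Dz z p x‖ ≤ C := by
  obtain ⟨C, hC⟩ := (isCompact_sphere (0 : ℂ) 1).exists_bound_of_continuousOn (Dz_cont hz hp)
  exact ⟨C, fun x hx => hC x (mem_sphere_zero_iff_norm.2 hx)⟩

theorem e1_conj_ee (x : ℝ) : conj (ee x) = (ee x)⁻¹ := by
  have h1 : ee x * conj (ee x) = 1 := by
    rw [mul_conj, normSq_eq_norm_sq, norm_ee]
    norm_num
  exact eq_inv_of_mul_eq_one_right h1

theorem e1_ee_ne (x : ℝ) : ee x ≠ 0 := by
  intro h
  have := norm_ee x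
  rw [h, norm_zero] at this
  exact zero_ne_one this

theorem e1_series {z : ℂ} (hz : ‖z‖ ≤ 1/4) {p : ℕ} (hp : p.Prime) (x : ℝ) :
    HasSum (fun m : ℕ => (ee x * (p : ℂ) ^ (-1/2 - z)) ^ m +
      (conj (ee x) * (p : ℂ) ^ (-1/2 - z)) ^ (m + 1)) (Dz z p (ee x)) := by
  have hw := e1_w_norm hz hp
  set w := (p : ℂ) ^ (-1/2 - z) with hwdef
  have n1 : ‖ee x * w‖ < 1 := by rw [norm_mul, norm_ee, one_mul]; exact hw
  have n2 : ‖conj (ee x) * w‖ < 1 := by rw [norm_mul, RCLike.norm_conj, norm_ee, one_mul]; exact hw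
  have d1 : 1 - ee x * w ≠ 0 := e1_den hw (norm_ee x)
  have d2 : 1 - conj (ee x) * w ≠ 0 := e1_den hw (by rw [RCLike.norm_conj, norm_ee])
  have s1 := hasSum_geometric_of_norm_lt_one n1
  have s2 := (hasSum_geometric_of_norm_lt_one n2).mul_left (conj (ee x) * w)
  have s3 := s1.add s2
  have h1 : ee x * conj (ee x) = 1 := by
    rw [mul_conj, normSq_eq_norm_sq, norm_ee]
    norm_num
  have h2 : (1 - ee x * w)⁻¹ + conj (ee x) * w * (1 - conj (ee x) * w)⁻¹ = Dz z p (ee x) := by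
    unfold Dz
    rw [e1_w_sq z hp, ← hwdef, eq_div_iff (mul_ne_zero d1 d2)]
    have i1 := inv_mul_cancel₀ d1
    have i2 := inv_mul_cancel₀ d2
    linear_combination (1 - conj (ee x) * w) * i1 + conj (ee x) * w * (1 - ee x * w) * i2 - w ^ 2 * h1
  rw [h2] at s3
  refine s3.congr_fun ?_
  intro m
  rw [pow_succ' (conj (ee x) * w) m]

theorem e1_cont_ee : Continuous ee := by
  unfold ee
  fun_prop

/-- Fourier coefficients of the local factor -/
theorem Dz_coef {z : ℂ} (hz : ‖z‖ ≤ 1/4) {p : ℕ} (hp : p.Prime) (a b : ℕ) :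
    ∫ x, ee x ^ a * conj (ee x ^ b) * Dz z p (ee x) ∂Ug = (p : ℂ) ^ ((-1/2 - z) * ((max a b - min a b : ℕ) : ℂ)) := by
  have hprob := Ug_prob
  have hw := e1_w_norm hz hp
  rw [Complex.cpow_mul_nat]
  set w := (p : ℂ) ^ (-1/2 - z) with hwdef
  -- the terms
  have hterm : ∀ (m : ℕ) (x : ℝ), ee x ^ a * conj (ee x ^ b) * ((ee x * w) ^ m + (conj (ee x) * w) ^ (m + 1)) =
      w ^ m * ee x ^ ((a : ℤ) - b + m) + w ^ (m + 1) * ee x ^ ((a : ℤ) - b - (m + 1 : ℕ)) := by
    intro m x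
    have h0 := e1_ee_ne x
    rw [map_pow, e1_conj_ee, mul_pow, mul_pow, zpow_add₀ h0, zpow_sub₀ h0, zpow_sub₀ h0, zpow_sub₀ h0,
      zpow_natCast, zpow_natCast, zpow_natCast, zpow_natCast, inv_pow, inv_pow, div_eq_mul_inv, div_eq_mul_inv]
    ring
  have hcont : ∀ n : ℤ, Continuous fun x : ℝ => ee x ^ n := fun n =>
    e1_cont_ee.zpow₀ n fun x => Or.inl (e1_ee_ne x)
  have hFint : ∀ m : ℕ, Integrable (fun x : ℝ => w ^ m * ee x ^ ((a : ℤ) - b + m) +
      w ^ (m + 1) * ee x ^ ((a : ℤ) - b - (m + 1 : ℕ))) Ug := by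
    intro m
    refine Integrable.of_bound (C := 2) ?_ ?_
    · exact ((continuous_const.mul (hcont _)).add (continuous_const.mul (hcont _))).aestronglyMeasurable
    · refine Eventually.of_forall fun x => ?_
      refine (norm_add_le _ _).trans ?_
      rw [norm_mul, norm_mul, norm_zpow, norm_zpow, norm_ee, one_zpow, one_zpow, mul_one, mul_one, norm_pow,
        norm_pow]
      have h1 : ‖w‖ ^ m ≤ 1 := pow_le_one₀ (norm_nonneg _) hw.le
      have h2 : ‖w‖ ^ (m + 1) ≤ 1 := pow_le_one₀ (norm_nonneg _) hw.le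
      linarith
  have hFsum : Summable fun m : ℕ => ∫ x : ℝ, ‖w ^ m * ee x ^ ((a : ℤ) - b + m) +
      w ^ (m + 1) * ee x ^ ((a : ℤ) - b - (m + 1 : ℕ))‖ ∂Ug := by
    have hs : Summable fun m : ℕ => 2 * ‖w‖ ^ m := (summable_geometric_of_lt_one (norm_nonneg _) hw).mul_left 2
    refine Summable.of_nonneg_of_le (fun m => integral_nonneg fun x => norm_nonneg _) (fun m => ?_) hs
    have h1 : ∀ x : ℝ, ‖w ^ m * ee x ^ ((a : ℤ) - b + m) +
        w ^ (m + 1) * ee x ^ ((a : ℤ) - b - (m + 1 : ℕ))‖ ≤ 2 * ‖w‖ ^ m := by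
      intro x
      refine (norm_add_le _ _).trans ?_
      rw [norm_mul, norm_mul, norm_zpow, norm_zpow, norm_ee, one_zpow, one_zpow, mul_one, mul_one, norm_pow,
        norm_pow]
      have h2 : ‖w‖ ^ (m + 1) ≤ ‖w‖ ^ m := pow_le_pow_of_le_one (norm_nonneg _) hw.le (Nat.le_succ m)
      linarith
    calc ∫ x : ℝ, ‖w ^ m * ee x ^ ((a : ℤ) - b + m) +
        w ^ (m + 1) * ee x ^ ((a : ℤ) - b - (m + 1 : ℕ))‖ ∂Ug ≤ ∫ _ : ℝ, 2 * ‖w‖ ^ m ∂Ug :=
          integral_mono (hFint m).norm (integrable_const _) h1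
      _ = 2 * ‖w‖ ^ m := by rw [integral_const, probReal_univ, one_smul]
  have key := hasSum_integral_of_summable_integral_norm hFint hFsum
  have hval : ∀ m : ℕ, ∫ x : ℝ, (w ^ m * ee x ^ ((a : ℤ) - b + m) +
      w ^ (m + 1) * ee x ^ ((a : ℤ) - b - (m + 1 : ℕ))) ∂Ug =
      (if (a : ℤ) - b + m = 0 then w ^ m else 0) + if (a : ℤ) - b - (m + 1 : ℕ) = 0 then w ^ (m + 1) else 0 := by
    intro m
    have i1 : Integrable (fun x : ℝ => w ^ m * ee x ^ ((a : ℤ) - b + m)) Ug := by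
      refine Integrable.of_bound (C := ‖w ^ m‖) ((continuous_const.mul (hcont _)).aestronglyMeasurable) ?_
      refine Eventually.of_forall fun x => ?_
      rw [norm_mul, norm_zpow, norm_ee, one_zpow, mul_one]
    have i2 : Integrable (fun x : ℝ => w ^ (m + 1) * ee x ^ ((a : ℤ) - b - (m + 1 : ℕ))) Ug := by
      refine Integrable.of_bound (C := ‖w ^ (m + 1)‖) ((continuous_const.mul (hcont _)).aestronglyMeasurable) ?_
      refine Eventually.of_forall fun x => ?_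
      rw [norm_mul, norm_zpow, norm_ee, one_zpow, mul_one]
    rw [integral_add i1 i2, integral_const_mul, integral_const_mul, int_ee, int_ee, mul_ite, mul_one, mul_zero,
      mul_ite, mul_one, mul_zero]
  have hint : ∫ x, ee x ^ a * conj (ee x ^ b) * Dz z p (ee x) ∂Ug = ∫ x : ℝ, ∑' m : ℕ,
      (w ^ m * ee x ^ ((a : ℤ) - b + m) + w ^ (m + 1) * ee x ^ ((a : ℤ) - b - (m + 1 : ℕ))) ∂Ug := by
    refine integral_congr_ae (Eventually.of_forall fun x => ?_)
    change ee x ^ a * conj (ee x ^ b) * Dz z p (ee x) = ∑' m : ℕ,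
      (w ^ m * ee x ^ ((a : ℤ) - b + m) + w ^ (m + 1) * ee x ^ ((a : ℤ) - b - (m + 1 : ℕ)))
    rw [← ((e1_series hz hp x).mul_left (ee x ^ a * conj (ee x ^ b))).tsum_eq]
    exact tsum_congr fun m => hterm m x
  rw [hint, ← key.tsum_eq, tsum_congr hval]
  rcases le_or_gt a b with hab | hab
  · rw [tsum_eq_single (b - a)]
    · rw [if_pos (by omega), if_neg (by omega), add_zero, max_eq_right hab, min_eq_left hab]
    · intro m hm
      rw [if_neg (by omega), if_neg (by omega), add_zero]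
  · rw [tsum_eq_single (a - b - 1)]
    · rw [if_neg (by omega), if_pos (by omega), zero_add, max_eq_left hab.le, min_eq_right hab.le]
      congr 1
      omega
    · intro m hm
      rw [if_neg (by omega), if_neg (by omega), add_zero]

theorem e1_chi {S : Finset ℕ} {h : ℕ} (hhS : h.primeFactors ⊆ S) (X : ℕ → ℂ) :
    chi X h = ∏ p ∈ S, X p ^ h.factorization p := by
  unfold chi
  rw [Finsupp.prod]
  refine Finset.prod_subset hhS fun p _ hp => ?_
  rw [Finsupp.notMem_support_iff.1 hp, pow_zero]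

theorem e1_cpow_prod (s : ℂ) (T : Finset ℕ) (e : ℕ → ℕ) :
    ((∏ p ∈ T, p ^ e p : ℕ) : ℂ) ^ s = ∏ p ∈ T, ((p : ℂ) ^ s) ^ e p := by
  classical
  induction T using Finset.induction_on with
  | empty =>
    rw [Finset.prod_empty, Finset.prod_empty, Nat.cast_one, Complex.one_cpow]
  | insert p T hp ih =>
    rw [Finset.prod_insert hp, Finset.prod_insert hp, Nat.cast_mul, Complex.natCast_mul_natCast_cpow, ih]
    congr 1
    induction e p with
    | zero => rw [pow_zero, pow_zero, Nat.cast_one, Complex.one_cpow]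
    | succ n ihn => rw [pow_succ, pow_succ, Nat.cast_mul, Complex.natCast_mul_natCast_cpow, ihn]

theorem e1_cpow (s : ℂ) {S : Finset ℕ} {h : ℕ} (hh : h ≠ 0) (hhS : h.primeFactors ⊆ S) :
    (h : ℂ) ^ s = ∏ p ∈ S, ((p : ℂ) ^ s) ^ h.factorization p := by
  have h1 : (h : ℕ) = ∏ p ∈ S, p ^ h.factorization p := by
    conv_lhs => rw [← Nat.prod_factorization_pow_eq_self hh]
    rw [Finsupp.prod]
    refine Finset.prod_subset hhS fun p _ hp => ?_
    rw [Finsupp.notMem_support_iff.1 hp, pow_zero]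
  conv_lhs => rw [h1]
  exact e1_cpow_prod s S _

/-- for h, k with all prime factors in S -/
theorem torus_main {z : ℂ} (hz : ‖z‖ ≤ 1/4) {S : Finset ℕ} (hS : ∀ p ∈ S, p.Prime) {h k : ℕ} (hh : 1 ≤ h) (hk : 1 ≤ k)
    (hhS : h.primeFactors ⊆ S) (hkS : k.primeFactors ⊆ S) :
    ∫ θ, chi (Xt θ) h * conj (chi (Xt θ) k) * ∏ p ∈ S, Dz z p (Xt θ p) ∂PT =
      ((h / Nat.gcd h k : ℕ) : ℂ) ^ (-1/2 - z) * ((k / Nat.gcd h k : ℕ) : ℂ) ^ (-1/2 - z) := by
  have hh0 : h ≠ 0 := by omega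
  have hk0 : k ≠ 0 := by omega
  have hg : 0 < Nat.gcd h k := Nat.gcd_pos_of_pos_left _ (by omega)
  have dh : h / Nat.gcd h k ≠ 0 :=
    (Nat.div_pos (Nat.le_of_dvd (by omega) (Nat.gcd_dvd_left h k)) hg).ne'
  have dk : k / Nat.gcd h k ≠ 0 :=
    (Nat.div_pos (Nat.le_of_dvd (by omega) (Nat.gcd_dvd_right h k)) hg).ne'
  have ph : (h / Nat.gcd h k).primeFactors ⊆ S :=
    (Nat.primeFactors_mono (Nat.div_dvd_of_dvd (Nat.gcd_dvd_left h k)) hh0).trans hhS
  have pk : (k / Nat.gcd h k).primeFactors ⊆ S :=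
    (Nat.primeFactors_mono (Nat.div_dvd_of_dvd (Nat.gcd_dvd_right h k)) hk0).trans hkS
  obtain ⟨g, hg⟩ : ∃ g : ℕ → ℂ → ℂ, g =
      fun (p : ℕ) (x : ℂ) => x ^ h.factorization p * conj (x ^ k.factorization p) * Dz z p x := ⟨_, rfl⟩
  have h1 : ∀ θ : Om, chi (Xt θ) h * conj (chi (Xt θ) k) * ∏ p ∈ S, Dz z p (Xt θ p) =
      ∏ p ∈ S, g p (Xt θ p) := by
    intro θ
    rw [hg, e1_chi hhS, e1_chi hkS, map_prod, ← Finset.prod_mul_distrib, ← Finset.prod_mul_distrib]
  have h3 := torus_prod S g (fun p hp => by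
    rw [hg]
    refine ContinuousOn.mul ?_ (Dz_cont hz (hS p hp))
    exact ((continuous_pow _).mul (continuous_conj.comp (continuous_pow _))).continuousOn)
  rw [integral_congr_ae (Eventually.of_forall h1), h3,
    e1_cpow _ dh ph, e1_cpow _ dk pk, ← Finset.prod_mul_distrib]
  refine Finset.prod_congr rfl fun p hp => ?_
  have h2 := Dz_coef hz (hS p hp) (h.factorization p) (k.factorization p)
  rw [hg]
  change ∫ x, ee x ^ h.factorization p * conj (ee x ^ k.factorization p) * Dz z p (ee x) ∂Ug = _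
  rw [h2, Complex.cpow_mul_nat, ← pow_add]
  congr 1
  rw [Nat.factorization_div (Nat.gcd_dvd_left h k), Nat.factorization_div (Nat.gcd_dvd_right h k),
    Nat.factorization_gcd hh0 hk0]
  simp only [Finsupp.coe_tsub, Pi.sub_apply, Finsupp.inf_apply]
  rcases le_total (h.factorization p) (k.factorization p) with hle | hle
  · rw [max_eq_right hle, min_eq_left hle]
    omega
  · rw [max_eq_left hle, min_eq_right hle]
    omega

theorem e1_Xt_meas (p : ℕ) : Measurable fun θ : Om => Xt θ p := by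
  unfold Xt
  exact e1_cont_ee.measurable.comp (measurable_pi_apply p)

theorem e1_Dz_meas (z : ℂ) (p : ℕ) : Measurable (Dz z p) := by
  unfold Dz
  have h1 : Measurable fun x : ℂ => conj x := continuous_conj.measurable
  exact measurable_const.div ((measurable_const.sub (measurable_id.mul_const _)).mul
    (measurable_const.sub (h1.mul_const _)))

theorem e1_chi_meas (h : ℕ) : Measurable fun θ : Om => chi (Xt θ) h := by
  unfold chi
  simp only [Finsupp.prod]
  exact Finset.measurable_fun_prod _ fun p _ => (e1_Xt_meas p).pow_const _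

/-- summed form: the quadratic form of a Dirichlet polynomial is at most the torus integral -/
theorem torus_form {z : ℂ} (hz : ‖z‖ ≤ 1/4) {S : Finset ℕ} (hS : ∀ p ∈ S, p.Prime) {H : ℕ} {a : ℕ → ℂ}
    (ha : ∀ h, a h ≠ 0 → 1 ≤ h ∧ h ≤ H ∧ h.primeFactors ⊆ S) :
    ‖∑ h ∈ Finset.range (H + 1), ∑ k ∈ Finset.range (H + 1), a h * conj (a k) *
      (((h / Nat.gcd h k : ℕ) : ℂ) ^ (-1/2 - z) * ((k / Nat.gcd h k : ℕ) : ℂ) ^ (-1/2 - z))‖ ≤
      ∫ θ, ‖∑ h ∈ Finset.range (H + 1), a h * chi (Xt θ) h‖ ^ 2 * DD 1 z S (Xt θ) ∂PT := by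
  have hprob := PT_prob
  -- bound for the product of the local factors
  obtain ⟨C, hC0, hC⟩ : ∃ C : ℝ, 0 ≤ C ∧ ∀ θ : Om, ‖∏ p ∈ S, Dz z p (Xt θ p)‖ ≤ C := by
    have hb : ∀ p : ℕ, ∃ C : ℝ, 0 ≤ C ∧ (p ∈ S → ∀ x : ℂ, ‖x‖ = 1 → ‖Dz z p x‖ ≤ C) := by
      intro p
      by_cases hp : p ∈ S
      · obtain ⟨C, hC⟩ := e1_Dz_bound hz (hS p hp)
        exact ⟨C, (norm_nonneg _).trans (hC 1 norm_one), fun _ => hC⟩
      · exact ⟨0, le_rfl, fun h => absurd h hp⟩
    choose B hB0 hB using hb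
    refine ⟨∏ p ∈ S, B p, Finset.prod_nonneg fun p _ => hB0 p, fun θ => ?_⟩
    rw [norm_prod]
    exact Finset.prod_le_prod (fun p _ => norm_nonneg _) fun p hp => hB p hp _ (norm_Xt θ p)
  have hPm : Measurable fun θ : Om => ∏ p ∈ S, Dz z p (Xt θ p) :=
    Finset.measurable_fun_prod _ fun p _ => (e1_Dz_meas z p).comp (e1_Xt_meas p)
  have hint : ∀ h k : ℕ, Integrable (fun θ : Om => a h * conj (a k) * (chi (Xt θ) h * conj (chi (Xt θ) k) *
      ∏ p ∈ S, Dz z p (Xt θ p))) PT := by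
    intro h k
    refine Integrable.const_mul ?_ _
    refine Integrable.of_bound (C := C) ?_ (Eventually.of_forall fun θ => ?_)
    · exact (((e1_chi_meas h).mul (continuous_conj.measurable.comp (e1_chi_meas k))).mul hPm).aestronglyMeasurable
    · rw [norm_mul, norm_mul, RCLike.norm_conj, chi_norm (norm_Xt θ), chi_norm (norm_Xt θ), one_mul, one_mul]
      exact hC θ
  have hsum : ∑ h ∈ Finset.range (H + 1), ∑ k ∈ Finset.range (H + 1), a h * conj (a k) *
      (((h / Nat.gcd h k : ℕ) : ℂ) ^ (-1/2 - z) * ((k / Nat.gcd h k : ℕ) : ℂ) ^ (-1/2 - z)) =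
      ∫ θ, (∑ h ∈ Finset.range (H + 1), a h * chi (Xt θ) h) *
        conj (∑ h ∈ Finset.range (H + 1), a h * chi (Xt θ) h) * ∏ p ∈ S, Dz z p (Xt θ p) ∂PT := by
    have h1 : ∀ θ : Om, (∑ h ∈ Finset.range (H + 1), a h * chi (Xt θ) h) *
        conj (∑ h ∈ Finset.range (H + 1), a h * chi (Xt θ) h) * ∏ p ∈ S, Dz z p (Xt θ p) =
        ∑ h ∈ Finset.range (H + 1), ∑ k ∈ Finset.range (H + 1), a h * conj (a k) *
          (chi (Xt θ) h * conj (chi (Xt θ) k) * ∏ p ∈ S, Dz z p (Xt θ p)) := by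
      intro θ
      rw [map_sum, Finset.sum_mul_sum, Finset.sum_mul]
      refine Finset.sum_congr rfl fun h _ => ?_
      rw [Finset.sum_mul]
      refine Finset.sum_congr rfl fun k _ => ?_
      rw [map_mul]
      ring
    rw [integral_congr_ae (Eventually.of_forall h1), integral_finsetSum _ fun h _ =>
      integrable_finsetSum _ fun k _ => hint h k]
    refine Finset.sum_congr rfl fun h _ => ?_
    rw [integral_finsetSum _ fun k _ => hint h k]
    refine Finset.sum_congr rfl fun k _ => ?_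
    rw [integral_const_mul]
    by_cases h0 : a h = 0
    · rw [h0, zero_mul, zero_mul, zero_mul]
    by_cases k0 : a k = 0
    · rw [k0, map_zero, mul_zero, zero_mul, zero_mul]
    rw [torus_main hz hS (ha h h0).1 (ha k k0).1 (ha h h0).2.2 (ha k k0).2.2]
  rw [hsum]
  refine (norm_integral_le_integral_norm _).trans (le_of_eq ?_)
  refine integral_congr_ae (Eventually.of_forall fun θ => ?_)
  change ‖(∑ h ∈ Finset.range (H + 1), a h * chi (Xt θ) h) *
        conj (∑ h ∈ Finset.range (H + 1), a h * chi (Xt θ) h) * ∏ p ∈ S, Dz z p (Xt θ p)‖ =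
    ‖∑ h ∈ Finset.range (H + 1), a h * chi (Xt θ) h‖ ^ 2 * DD 1 z S (Xt θ)
  unfold DD
  rw [norm_mul, norm_mul, RCLike.norm_conj, norm_prod, pow_one, sq]

end CZ
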