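import Pool.Agent.Lib.MP_9eae41_pr.D1
import Pool.Agent.Lib.MP_9eae41_pr.E1
import Pool.Agent.Lib.MP_0f5a55_nt.V.V17

set_option autoImplicit false

open Complex MeasureTheory Set Filter Topology
open scoped ComplexConjugate ENNReal

namespace CZ

/-! Row E2 (300 lines): circle mean and Fubini. For fixed t the function z -> zeta(1/2+z+it) zeta(1/2+z-it) is
holomorphic on |z| < 1/2, so its value at 0, which is |zeta(1/2+it)|^2, is the mean over the circle |z| = r
(circleAverage / circleIntegral mean value), r = 1/log T. Integrate against |F|^2 and mu T (Fubini), bound the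
mean by the supremum. Growth: zeta(1/2+z+it) is at most C (1+|t|)^2, |z| <= 1/10. -/

private theorem e2_ne_one {z : ℂ} {t : ℝ} (hz : ‖z‖ ≤ 1/10) : (1/2 + z + t * I : ℂ) ≠ 1 := by
  intro h
  have h2 := congrArg Complex.re h
  have h3 : |z.re| ≤ 1/10 := (Complex.abs_re_le_norm z).trans hz
  have h4 := abs_le.mp h3
  simp at h2
  linarith [h4.1, h4.2]

theorem zeta_growth : ∃ C : ℝ, 0 < C ∧ ∀ (z : ℂ) (t : ℝ), ‖z‖ ≤ 1/10 → ‖riemannZeta (1/2 + z + t * I)‖ ≤ C * (1 + |t|) ^ 2 := by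
  obtain ⟨C, hC, hb⟩ := LZ.zeta_pol
  refine ⟨2 * C, by positivity, ?_⟩
  intro z t hz
  have hre : |z.re| ≤ 1/10 := (Complex.abs_re_le_norm z).trans hz
  have him : |z.im| ≤ 1/10 := (Complex.abs_im_le_norm z).trans hz
  have hre' := abs_le.mp hre
  have e1 : (1/2 + z + t * I : ℂ).re = 1/2 + z.re := by simp
  have e2 : (1/2 + z + t * I : ℂ).im = z.im + t := by simp
  have h1 : 5/16 ≤ (1/2 + z + t * I : ℂ).re := by rw [e1]; linarith [hre'.1]
  have h2 : 1/4 ≤ ‖(1/2 + z + t * I : ℂ) - 1‖ := by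
    have h3 : |((1/2 + z + t * I : ℂ) - 1).re| ≤ ‖(1/2 + z + t * I : ℂ) - 1‖ := Complex.abs_re_le_norm _
    have h4 : ((1/2 + z + t * I : ℂ) - 1).re = z.re - 1/2 := by
      rw [Complex.sub_re, e1, Complex.one_re]; ring
    rw [h4] at h3
    have h5 : 1/4 ≤ |z.re - 1/2| := by
      rw [abs_of_nonpos (by linarith [hre'.2])]
      linarith [hre'.2]
    linarith
  have h6 := hb _ h1 h2
  rw [e2] at h6
  have h7 : |z.im + t| ≤ 1/10 + |t| := (abs_add_le _ _).trans (by linarith)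
  have h8 : (0:ℝ) ≤ |t| := abs_nonneg t
  calc ‖riemannZeta (1/2 + z + t * I)‖ ≤ C * (1 + |z.im + t|) := h6
    _ ≤ C * (2 * (1 + |t|) ^ 2) := by
        apply mul_le_mul_of_nonneg_left _ hC.le
        nlinarith
    _ = 2 * C * (1 + |t|) ^ 2 := by ring

theorem Z_cont : Continuous Z := by
  unfold Z
  apply Continuous.norm
  rw [continuous_iff_continuousAt]
  intro t
  have hne : (1/2 + t * I : ℂ) ≠ 1 := by
    intro h
    have h2 := congrArg Complex.re h
    simp at h2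
  have h1 : ContinuousAt riemannZeta (1/2 + t * I : ℂ) := (differentiableAt_riemannZeta hne).continuousAt
  have h2 : ContinuousAt (fun t : ℝ => (1/2 + t * I : ℂ)) t := by
    apply Continuous.continuousAt
    fun_prop
  exact ContinuousAt.comp (f := fun t : ℝ => (1/2 + t * I : ℂ)) h1 h2

theorem Z_growth : ∃ C : ℝ, 0 < C ∧ ∀ t : ℝ, Z t ≤ C * (1 + |t|) ^ 2 := by
  obtain ⟨C, hC, hb⟩ := zeta_growth
  refine ⟨C, hC, fun t => ?_⟩
  have h := hb 0 t (by simp)
  rw [add_zero] at h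
  exact h

/-- the product, z on the disk, in both variables -/
private theorem e2_cont_g {r : ℝ} (hr : 0 < r) (hr1 : r ≤ 1/10) :
    Continuous (fun p : ℝ × ℝ => riemannZeta (1/2 + circleMap 0 r p.2 + p.1 * I) *
      riemannZeta (1/2 + circleMap 0 r p.2 - p.1 * I)) := by
  have hn : ∀ θ : ℝ, ‖circleMap 0 r θ‖ ≤ 1/10 := by
    intro θ
    rw [norm_circleMap_zero, abs_of_pos hr]
    exact hr1
  have hcm : Continuous (fun p : ℝ × ℝ => circleMap 0 r p.2) := (continuous_circleMap 0 r).comp continuous_snd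
  have hI : Continuous (fun p : ℝ × ℝ => (p.1 : ℂ) * I) := by fun_prop
  apply Continuous.mul
  · rw [continuous_iff_continuousAt]
    intro p
    have hne := e2_ne_one (z := circleMap 0 r p.2) (t := p.1) (hn p.2)
    have h1 : ContinuousAt riemannZeta (1/2 + circleMap 0 r p.2 + p.1 * I : ℂ) :=
      (differentiableAt_riemannZeta hne).continuousAt
    have h2 : ContinuousAt (fun p : ℝ × ℝ => (1/2 + circleMap 0 r p.2 + p.1 * I : ℂ)) p :=
      ((continuous_const.add hcm).add hI).continuousAt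
    exact ContinuousAt.comp (f := fun p : ℝ × ℝ => (1/2 + circleMap 0 r p.2 + p.1 * I : ℂ)) h1 h2
  · rw [continuous_iff_continuousAt]
    intro p
    have hne : (1/2 + circleMap 0 r p.2 - p.1 * I : ℂ) ≠ 1 := by
      have h := e2_ne_one (z := circleMap 0 r p.2) (t := -p.1) (hn p.2)
      have h3 : (1/2 + circleMap 0 r p.2 + ((-p.1 : ℝ) : ℂ) * I : ℂ) = 1/2 + circleMap 0 r p.2 - p.1 * I := by
        push_cast
        ring
      rw [h3] at h
      exact h
    have h1 : ContinuousAt riemannZeta (1/2 + circleMap 0 r p.2 - p.1 * I : ℂ) :=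
      (differentiableAt_riemannZeta hne).continuousAt
    have h2 : ContinuousAt (fun p : ℝ × ℝ => (1/2 + circleMap 0 r p.2 - p.1 * I : ℂ)) p :=
      ((continuous_const.add hcm).sub hI).continuousAt
    exact ContinuousAt.comp (f := fun p : ℝ × ℝ => (1/2 + circleMap 0 r p.2 - p.1 * I : ℂ)) h1 h2

/-- mean value over the circle -/
private theorem e2_mean {r : ℝ} (hr : 0 < r) (hr1 : r ≤ 1/10) (t : ℝ) :
    ((Z t ^ 2 : ℝ) : ℂ) = ((2 * Real.pi)⁻¹ : ℝ) • ∫ θ in (0:ℝ)..2 * Real.pi,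
      riemannZeta (1/2 + circleMap 0 r θ + t * I) * riemannZeta (1/2 + circleMap 0 r θ - t * I) := by
  have hdiff : ∀ z : ℂ, ‖z‖ ≤ 1/10 → DifferentiableAt ℂ (fun z : ℂ => riemannZeta (1/2 + z + t * I) *
      riemannZeta (1/2 + z - t * I)) z := by
    intro z hz
    have hne1 : (1/2 + z + t * I : ℂ) ≠ 1 := e2_ne_one hz
    have hne2 : (1/2 + z - t * I : ℂ) ≠ 1 := by
      have h := e2_ne_one (z := z) (t := -t) hz
      have h3 : (1/2 + z + ((-t : ℝ) : ℂ) * I : ℂ) = 1/2 + z - t * I := by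
        push_cast
        ring
      rw [h3] at h
      exact h
    have h1 : DifferentiableAt ℂ (fun z : ℂ => riemannZeta (1/2 + z + t * I)) z := by
      have h3 : DifferentiableAt ℂ (fun z : ℂ => (1/2 + z + t * I : ℂ)) z := by fun_prop
      exact DifferentiableAt.comp (f := fun z : ℂ => (1/2 + z + t * I : ℂ)) z
        (differentiableAt_riemannZeta hne1) h3
    have h2 : DifferentiableAt ℂ (fun z : ℂ => riemannZeta (1/2 + z - t * I)) z := by
      have h3 : DifferentiableAt ℂ (fun z : ℂ => (1/2 + z - t * I : ℂ)) z := by fun_prop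
      exact DifferentiableAt.comp (f := fun z : ℂ => (1/2 + z - t * I : ℂ)) z
        (differentiableAt_riemannZeta hne2) h3
    exact h1.mul h2
  have hmv : Real.circleAverage (fun z : ℂ => riemannZeta (1/2 + z + t * I) *
      riemannZeta (1/2 + z - t * I)) 0 r = (fun z : ℂ => riemannZeta (1/2 + z + t * I) *
      riemannZeta (1/2 + z - t * I)) 0 := by
    apply circleAverage_of_differentiable_on_off_countable countable_empty
    · intro z hz
      rw [abs_of_pos hr, mem_closedBall_zero_iff] at hz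
      exact (hdiff z (hz.trans hr1)).continuousAt.continuousWithinAt
    · intro z hz
      have hz1 := hz.1
      rw [abs_of_pos hr, mem_ball_zero_iff] at hz1
      exact hdiff z (hz1.le.trans hr1)
  have hval : ((Z t ^ 2 : ℝ) : ℂ) = (fun z : ℂ => riemannZeta (1/2 + z + t * I) *
      riemannZeta (1/2 + z - t * I)) 0 := by
    have hc : (1/2 + 0 - t * I : ℂ) = conj (1/2 + t * I : ℂ) := by
      apply Complex.ext <;> simp
    show ((Z t ^ 2 : ℝ) : ℂ) = riemannZeta (1/2 + 0 + t * I) * riemannZeta (1/2 + 0 - t * I)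
    rw [hc, riemannZeta_conj, add_zero, Complex.mul_conj, Complex.normSq_eq_norm_sq]
    rfl
  rw [hval, ← hmv]
  rfl

private theorem e2_re {μ : Measure ℝ} {g : ℝ → ℝ} (h : Integrable (fun t => ((g t : ℝ) : ℂ)) μ) : Integrable g μ := by
  have h2 := h.re
  simpa only [RCLike.re_eq_complex_re, Complex.ofReal_re] using h2

/-- circle bound: if for all z on the circle the twisted mean is at most B then the second moment is at most B -/
theorem circle_bound {T r : ℝ} (hT : 1 ≤ T) (hr : 0 < r) (hr1 : r ≤ 1/10) {S : Finset ℕ} {H : ℕ} {L : ℝ}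
    {F : (ℕ → ℂ) → ℂ} (hF : IsDP S H L F) {B : ℝ}
    (hB : ∀ z : ℂ, ‖z‖ = r → ‖∫ t, riemannZeta (1/2 + z + t * I) * riemannZeta (1/2 + z - t * I) *
      (F (Xp t) * conj (F (Xp t))) ∂mu T‖ ≤ B) :
    ∫⁻ t, ENNReal.ofReal (Z t ^ 2 * ‖F (Xp t)‖ ^ 2) ∂mu T ≤ ENNReal.ofReal B := by
  have hT0 : 0 < T := by linarith
  have : IsProbabilityMeasure (mu T) := mu_prob hT0
  obtain ⟨C, hC, hgr⟩ := zeta_growth
  obtain ⟨CZ, hCZ, hZg⟩ := Z_growth
  have hL : 0 ≤ L := dp_nonneg hF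
  have hFc : Continuous (fun t : ℝ => F (Xp t)) := (dp_cont hF).comp Xp_cont
  have hFb : ∀ t : ℝ, ‖F (Xp t)‖ ≤ L := fun t => dp_bound hF (norm_Xp t)
  have hn : ∀ θ : ℝ, ‖circleMap 0 r θ‖ = r := by
    intro θ
    rw [norm_circleMap_zero, abs_of_pos hr]
  -- the integrand
  set f : ℝ → ℝ → ℂ := fun t θ => riemannZeta (1/2 + circleMap 0 r θ + t * I) *
    riemannZeta (1/2 + circleMap 0 r θ - t * I) * (F (Xp t) * conj (F (Xp t))) with hf
  have hfcont : Continuous (Function.uncurry f) := by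
    have h1 := e2_cont_g hr hr1
    have h2 : Continuous (fun p : ℝ × ℝ => F (Xp p.1) * conj (F (Xp p.1))) := by
      have h3 : Continuous (fun p : ℝ × ℝ => F (Xp p.1)) := hFc.comp continuous_fst
      exact h3.mul (Complex.continuous_conj.comp h3)
    exact h1.mul h2
  have hfb : ∀ t θ : ℝ, ‖f t θ‖ ≤ C ^ 2 * L ^ 2 * (1 + |t|) ^ 4 := by
    intro t θ
    have h1 := hgr (circleMap 0 r θ) t ((hn θ).le.trans hr1)
    have h2 := hgr (circleMap 0 r θ) (-t) ((hn θ).le.trans hr1)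
    have h3 : (1/2 + circleMap 0 r θ + ((-t : ℝ) : ℂ) * I : ℂ) = 1/2 + circleMap 0 r θ - t * I := by
      push_cast
      ring
    rw [h3, abs_neg] at h2
    have h4 := hFb t
    rw [hf]
    simp only [norm_mul, RCLike.norm_conj]
    calc ‖riemannZeta (1/2 + circleMap 0 r θ + t * I)‖ * ‖riemannZeta (1/2 + circleMap 0 r θ - t * I)‖ *
          (‖F (Xp t)‖ * ‖F (Xp t)‖)
        ≤ (C * (1 + |t|) ^ 2) * (C * (1 + |t|) ^ 2) * (L * L) := by gcongr
      _ = C ^ 2 * L ^ 2 * (1 + |t|) ^ 4 := by ring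
  have hpoly : Integrable (fun t : ℝ => C ^ 2 * L ^ 2 * (1 + |t|) ^ 4) (mu T) := by
    have h1 : Integrable (fun t : ℝ => ((C ^ 2 * L ^ 2 * (1 + |t|) ^ 4 : ℝ) : ℂ)) (mu T) := by
      refine mu_integrable hT0 (A := C ^ 2 * L ^ 2) (k := 4) ?_ ?_
      · fun_prop
      · intro t ht
        rw [Complex.norm_real, Real.norm_eq_abs, abs_of_nonneg (by positivity), abs_of_nonneg ht]
    exact e2_re h1
  set ν : Measure ℝ := volume.restrict (Ioc 0 (2 * Real.pi)) with hν
  have : IsFiniteMeasure ν := by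
    rw [hν]
    infer_instance
  have hfint : Integrable (Function.uncurry f) ((mu T).prod ν) := by
    have h1 : Integrable (fun p : ℝ × ℝ => C ^ 2 * L ^ 2 * (1 + |p.1|) ^ 4) ((mu T).prod ν) :=
      hpoly.comp_fst ν
    apply h1.mono' hfcont.aestronglyMeasurable
    exact Eventually.of_forall (fun p => hfb p.1 p.2)
  -- the real integrand
  have hZi : Integrable (fun t : ℝ => Z t ^ 2 * ‖F (Xp t)‖ ^ 2) (mu T) := by
    have h1 : Integrable (fun t : ℝ => ((Z t ^ 2 * ‖F (Xp t)‖ ^ 2 : ℝ) : ℂ)) (mu T) := by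
      refine mu_integrable hT0 (A := CZ ^ 2 * L ^ 2) (k := 4) ?_ ?_
      · have h3 := Z_cont
        have h4 := hFc.norm
        exact Complex.continuous_ofReal.comp ((h3.pow 2).mul (h4.pow 2))
      · intro t ht
        have h5 : 0 ≤ Z t := norm_nonneg _
        have h6 := hZg t
        rw [abs_of_nonneg ht] at h6
        have h7 := hFb t
        rw [Complex.norm_real, Real.norm_eq_abs, abs_of_nonneg (by positivity)]
        calc Z t ^ 2 * ‖F (Xp t)‖ ^ 2 ≤ (CZ * (1 + t) ^ 2) ^ 2 * L ^ 2 := by gcongr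
          _ = CZ ^ 2 * L ^ 2 * (1 + t) ^ 4 := by ring
    exact e2_re h1
  have hpt : ∀ t : ℝ, ((Z t ^ 2 * ‖F (Xp t)‖ ^ 2 : ℝ) : ℂ) = ((2 * Real.pi)⁻¹ : ℝ) • ∫ θ, f t θ ∂ν := by
    intro t
    have h1 := e2_mean hr hr1 t
    have h2 : F (Xp t) * conj (F (Xp t)) = ((‖F (Xp t)‖ ^ 2 : ℝ) : ℂ) := by
      rw [Complex.mul_conj, Complex.normSq_eq_norm_sq]
    have h3 : ∫ θ, f t θ ∂ν = (∫ θ in (0:ℝ)..2 * Real.pi,
      riemannZeta (1/2 + circleMap 0 r θ + t * I) * riemannZeta (1/2 + circleMap 0 r θ - t * I)) *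
        (F (Xp t) * conj (F (Xp t))) := by
      rw [intervalIntegral.integral_of_le (by positivity), ← integral_mul_const]
    rw [h3, ← smul_mul_assoc, ← h1, h2]
    push_cast
    rfl
  have hswap : ∫ t, ∫ θ, f t θ ∂ν ∂mu T = ∫ θ, ∫ t, f t θ ∂mu T ∂ν := integral_integral_swap hfint
  have hmain : ((∫ t, Z t ^ 2 * ‖F (Xp t)‖ ^ 2 ∂mu T : ℝ) : ℂ) =
      ((2 * Real.pi)⁻¹ : ℝ) • ∫ θ, ∫ t, f t θ ∂mu T ∂ν := by
    rw [← hswap, ← integral_smul, ← integral_complex_ofReal]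
    apply integral_congr_ae
    exact Eventually.of_forall (fun t => hpt t)
  have hνr : ν.real univ = 2 * Real.pi := by
    rw [hν, measureReal_restrict_apply_univ, Real.volume_real_Ioc_of_le (by positivity), sub_zero]
  have hbd : ‖∫ θ, ∫ t, f t θ ∂mu T ∂ν‖ ≤ B * ν.real univ := by
    apply norm_integral_le_of_norm_le_const
    exact Eventually.of_forall (fun θ => hB (circleMap 0 r θ) (hn θ))
  have hpi : 0 < 2 * Real.pi := by positivity
  have hle : ∫ t, Z t ^ 2 * ‖F (Xp t)‖ ^ 2 ∂mu T ≤ B := by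
    have h1 : ∫ t, Z t ^ 2 * ‖F (Xp t)‖ ^ 2 ∂mu T ≤ ‖((∫ t, Z t ^ 2 * ‖F (Xp t)‖ ^ 2 ∂mu T : ℝ) : ℂ)‖ := by
      rw [Complex.norm_real]
      exact le_abs_self _
    rw [hmain, norm_smul, Real.norm_of_nonneg (by positivity)] at h1
    rw [hνr] at hbd
    calc ∫ t, Z t ^ 2 * ‖F (Xp t)‖ ^ 2 ∂mu T ≤ (2 * Real.pi)⁻¹ * ‖∫ θ, ∫ t, f t θ ∂mu T ∂ν‖ := h1
      _ ≤ (2 * Real.pi)⁻¹ * (B * (2 * Real.pi)) := by gcongr
      _ = B := by field_simp
  rw [← ofReal_integral_eq_lintegral_ofReal hZi (Eventually.of_forall (fun t => by positivity))]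
  exact ENNReal.ofReal_le_ofReal hle

end CZ
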