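import Pool.Agent.Lib.MP_9eae41_pr.E2
import Pool.Agent.Lib.MP_0f5a55_nt.S.A8
import Pool.Agent.Lib.MP_0f5a55_nt.S.B9

set_option autoImplicit false

open Complex MeasureTheory Set Filter Topology
open scoped ComplexConjugate ENNReal

namespace CZ

/-! Row E3 (250 lines): second moment of zeta times a Dirichlet polynomial, in torus form.
Expand |F|^2, apply LS.tsm2 (U = 1, alpha = beta = z, |z| = 1/log T, h k <= H^2 <= T), with
LZ.EE T f = integral against mu T; main term mainT T z z h k; |zeta(1+2z)| <= C log T,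
|(2 pi/T)^(2z)| <= C, |Ac(2z)| <= C log T (LS.Ac_lim in S/B9); the two parts are torus_form at z and -z. -/

private theorem E3_pole : ∃ δ : ℝ, 0 < δ ∧ ∀ w : ℂ, w ≠ 0 → ‖w‖ < δ →
    ‖riemannZeta (1 + w)‖ ≤ 2 / ‖w‖ ∧ ‖LZ.Ac w‖ ≤ 2 / ‖w‖ := by
  obtain ⟨d1, hd1, h1⟩ := Metric.tendsto_nhdsWithin_nhds.1 riemannZeta_residue_one 1 one_pos
  obtain ⟨d2, hd2, h2⟩ := Metric.tendsto_nhdsWithin_nhds.1 LS.Ac_lim 1 one_pos
  refine ⟨min d1 d2, lt_min hd1 hd2, fun w hw hwd => ⟨?_, ?_⟩⟩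
  · have h3 := h1 (x := 1 + w) (by simpa using hw) (by rw [dist_eq_norm, add_sub_cancel_left]; exact hwd.trans_le (min_le_left _ _))
    rw [dist_eq_norm, add_sub_cancel_left] at h3
    have h4 : ‖w * riemannZeta (1 + w)‖ ≤ 2 := by
      have := norm_add_le (w * riemannZeta (1 + w) - 1) 1
      rw [sub_add_cancel, norm_one] at this
      linarith
    rw [norm_mul] at h4
    rw [le_div_iff₀ (norm_pos_iff.2 hw), mul_comm]
    exact h4
  · have h3 := h2 (x := w) (by simpa using hw) (by rw [dist_zero_right]; exact hwd.trans_le (min_le_right _ _))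
    rw [dist_eq_norm] at h3
    have h4 : ‖w * LZ.Ac w‖ ≤ 2 := by
      have := norm_add_le (w * LZ.Ac w - -1) (-1)
      rw [sub_add_cancel, norm_neg, norm_one] at this
      linarith
    rw [norm_mul] at h4
    rw [le_div_iff₀ (norm_pos_iff.2 hw), mul_comm]
    exact h4

/-- the integrand for a pair -/
private noncomputable def E3_G (z : ℂ) (h k : ℕ) (t : ℝ) : ℂ :=
  riemannZeta (1/2 + z + t * I) * riemannZeta (1/2 + z - t * I) * ((h : ℂ) ^ (-(t * I)) * (k : ℂ) ^ (t * I))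

private theorem E3_zeta_cont {z : ℂ} (hz : ‖z‖ ≤ 1/10) (s : ℝ) :
    Continuous (fun t : ℝ => riemannZeta (1/2 + z + (s * t : ℝ) * I)) := by
  rw [continuous_iff_continuousAt]
  intro t
  have h1 : (1/2 + z + (s * t : ℝ) * I : ℂ) ≠ 1 := by
    intro h
    have h2 := congrArg Complex.re h
    have h3 := (abs_le.1 ((Complex.abs_re_le_norm z).trans hz)).2
    simp only [add_re, mul_re, ofReal_re, I_re, mul_zero, ofReal_im, I_im, mul_one, sub_self, add_zero,
      one_re] at h2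
    norm_num at h2
    linarith
  have h2 : ContinuousAt (fun t : ℝ => (1/2 + z + (s * t : ℝ) * I : ℂ)) t := by fun_prop
  exact ContinuousAt.comp (g := riemannZeta) (differentiableAt_riemannZeta h1).continuousAt h2

private theorem E3_G_int {T : ℝ} (hT : 0 < T) {z : ℂ} (hz : ‖z‖ ≤ 1/10) {h k : ℕ} (hh : 1 ≤ h) (hk : 1 ≤ k) :
    Integrable (E3_G z h k) (mu T) := by
  obtain ⟨C, hC, hg⟩ := zeta_growth
  have hh0 : (h : ℂ) ≠ 0 := Nat.cast_ne_zero.2 (by omega)
  have hk0 : (k : ℂ) ≠ 0 := Nat.cast_ne_zero.2 (by omega)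
  have c1 := E3_zeta_cont hz 1
  have c2 := E3_zeta_cont hz (-1)
  have hcont : Continuous (E3_G z h k) := by
    unfold E3_G
    refine Continuous.mul (Continuous.mul ?_ ?_) (Continuous.mul ?_ ?_)
    · refine c1.congr fun t => ?_
      rw [one_mul]
    · refine c2.congr fun t => ?_
      congr 1
      push_cast
      ring
    · exact Continuous.const_cpow (by fun_prop) (Or.inl hh0)
    · exact Continuous.const_cpow (by fun_prop) (Or.inl hk0)
  refine mu_integrable hT hcont (A := C * C) (k := 4) fun t ht => ?_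
  unfold E3_G
  have n1 : ‖(h : ℂ) ^ (-(t * I))‖ = 1 := by
    rw [Complex.norm_natCast_cpow_of_pos (by omega)]
    simp
  have n2 : ‖(k : ℂ) ^ (t * I)‖ = 1 := by
    rw [Complex.norm_natCast_cpow_of_pos (by omega)]
    simp
  have g1 := hg z t hz
  have g2 := hg z (-t) hz
  rw [abs_of_nonneg ht] at g1
  rw [abs_neg, abs_of_nonneg ht] at g2
  have e2 : (1/2 + z + ((-t : ℝ) : ℂ) * I) = 1/2 + z - t * I := by
    push_cast
    ring
  rw [e2] at g2
  rw [norm_mul, norm_mul, norm_mul, n1, n2, mul_one, mul_one]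
  calc _ ≤ (C * (1 + t) ^ 2) * (C * (1 + t) ^ 2) := mul_le_mul g1 g2 (norm_nonneg _) (by positivity)
    _ = C * C * (1 + t) ^ 4 := by ring

private theorem E3_mean {T : ℝ} (hT : 0 < T) (z : ℂ) (h k : ℕ) :
    ∫ t, E3_G z h k t ∂mu T = LZ.EE T (fun t => riemannZeta (1/2 + z + t * I) * riemannZeta (1/2 + z - t * I) *
        ((h : ℂ) ^ (-(t * I)) * (k : ℂ) ^ (t * I))) := by
  rw [integral_mu hT]
  rfl

private theorem E3_expand {T : ℝ} (hT : 0 < T) {z : ℂ} (hz : ‖z‖ ≤ 1/10) {S : Finset ℕ} {H : ℕ} {a : ℕ → ℂ}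
    (ha : ∀ h, a h ≠ 0 → 1 ≤ h ∧ h ≤ H ∧ h.primeFactors ⊆ S) {F : (ℕ → ℂ) → ℂ}
    (hF : ∀ X : ℕ → ℂ, F X = ∑ h ∈ Finset.range (H + 1), a h * chi X h) :
    ∫ t, riemannZeta (1/2 + z + t * I) * riemannZeta (1/2 + z - t * I) * (F (Xp t) * conj (F (Xp t))) ∂mu T =
      ∑ h ∈ Finset.range (H + 1), ∑ k ∈ Finset.range (H + 1), a h * conj (a k) * ∫ t, E3_G z h k t ∂mu T := by
  have h1 : ∀ t : ℝ, riemannZeta (1/2 + z + t * I) * riemannZeta (1/2 + z - t * I) *
      (F (Xp t) * conj (F (Xp t))) =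
      ∑ h ∈ Finset.range (H + 1), ∑ k ∈ Finset.range (H + 1), a h * conj (a k) * E3_G z h k t := by
    intro t
    rw [hF, map_sum, Finset.sum_mul_sum, Finset.mul_sum]
    refine Finset.sum_congr rfl fun h _ => ?_
    rw [Finset.mul_sum]
    refine Finset.sum_congr rfl fun k _ => ?_
    by_cases hah : a h = 0
    · rw [hah]; simp
    by_cases hak : a k = 0
    · rw [hak]; simp
    have hh := (ha h hah).1
    have hk := (ha k hak).1
    rw [map_mul, chi_Xp t (n := h) (by omega), chi_Xp_conj t (n := k) (by omega)]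
    unfold E3_G
    ring
  have h2 : ∀ h k : ℕ, Integrable (fun t => a h * conj (a k) * E3_G z h k t) (mu T) := by
    intro h k
    by_cases hah : a h = 0
    · rw [hah]; simp
    by_cases hak : a k = 0
    · rw [hak]; simp
    exact (E3_G_int hT hz (ha h hah).1 (ha k hak).1).const_mul _
  rw [integral_congr_ae (Eventually.of_forall h1), integral_finsetSum _ (fun h _ => integrable_finsetSum _
    fun k _ => h2 h k)]
  refine Finset.sum_congr rfl fun h _ => ?_
  rw [integral_finsetSum _ (fun k _ => h2 h k)]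
  refine Finset.sum_congr rfl fun k _ => ?_
  exact integral_const_mul _ _

private theorem E3_sum_sq {H : ℕ} (a : ℕ → ℂ) (E : ℝ) :
    ∑ h ∈ Finset.range (H + 1), ∑ k ∈ Finset.range (H + 1), ‖a h‖ * ‖a k‖ * E =
      (∑ h ∈ Finset.range (H + 1), ‖a h‖) ^ 2 * E := by
  rw [sq, Finset.sum_mul_sum, Finset.sum_mul]
  refine Finset.sum_congr rfl fun h _ => ?_
  rw [Finset.sum_mul]

theorem sec_mom : ∃ C T0 : ℝ, 0 < C ∧ 3 ≤ T0 ∧ ∀ T : ℝ, T0 ≤ T → ∀ (S : Finset ℕ) (H : ℕ) (L : ℝ) (F : (ℕ → ℂ) → ℂ),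
    (∀ p ∈ S, p.Prime) → IsDP S H L F → 1 ≤ H → (H : ℝ) ^ 2 ≤ T → ∀ B : ℝ,
    (∀ z : ℂ, ‖z‖ = 1 / Real.log T → ∫ θ, ‖F (Xt θ)‖ ^ 2 * DD 1 z S (Xt θ) ∂PT ≤ B) →
    ∫⁻ t, ENNReal.ofReal (Z t ^ 2 * ‖F (Xp t)‖ ^ 2) ∂mu T ≤
      ENNReal.ofReal (C * Real.log T * (B + L ^ 2 * (H : ℝ) ^ (5/4 : ℝ) * T ^ (-(3/4) : ℝ))) := by
  obtain ⟨C1, T1, hC1, hT1, htsm⟩ := LS.tsm2 1 zero_le_one
  obtain ⟨δ, hδ, hpole⟩ := E3_pole
  refine ⟨1 + Real.exp 2 + 2 * C1, max T1 (Real.exp (200 + 2 / δ)), by positivity, ?_, ?_⟩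
  · refine le_trans ?_ (le_max_right _ _)
    have h1 : (200 + 2 / δ) + 1 ≤ Real.exp (200 + 2 / δ) := Real.add_one_le_exp _
    have h2 : 0 < 2 / δ := by positivity
    linarith
  intro T hT S H L F hS hF hH hHT B hB
  have hTT1 : T1 ≤ T := (le_max_left _ _).trans hT
  have hTe : Real.exp (200 + 2 / δ) ≤ T := (le_max_right _ _).trans hT
  have hT0 : 0 < T := (Real.exp_pos _).trans_le hTe
  have hlog : 200 + 2 / δ ≤ Real.log T := (Real.le_log_iff_exp_le hT0).2 hTe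
  have hδ2 : 0 < 2 / δ := by positivity
  have hlog200 : 200 ≤ Real.log T := by linarith
  have hlog0 : 0 < Real.log T := by linarith
  have hT1' : 1 ≤ T := by
    have h1 := Real.add_one_le_exp (200 + 2 / δ)
    linarith
  set r : ℝ := 1 / Real.log T with hr
  have hr0 : 0 < r := by positivity
  have hr200 : r ≤ 1 / 200 := one_div_le_one_div_of_le (by norm_num) hlog200
  have hFF := hF
  obtain ⟨a, ha, haL, haF⟩ := hF
  set R : ℝ := L ^ 2 * (H : ℝ) ^ (5/4 : ℝ) * T ^ (-(3/4) : ℝ) with hR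
  have hR0 : 0 ≤ R := by positivity
  have hL0 : 0 ≤ L := (Finset.sum_nonneg fun h _ => norm_nonneg (a h)).trans haL
  refine circle_bound hT1' hr0 (by linarith) hFF fun z hz => ?_
  have hz10 : ‖z‖ ≤ 1/10 := by rw [hz]; linarith
  have hz4 : ‖z‖ ≤ 1/4 := by rw [hz]; linarith
  have hz0 : z ≠ 0 := by
    intro h
    rw [h, norm_zero] at hz
    exact hr0.ne hz
  have hzz : z + z ≠ 0 := by
    rw [← two_mul]
    exact mul_ne_zero two_ne_zero hz0
  have hzzn : ‖z + z‖ = 2 / Real.log T := by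
    rw [← two_mul, norm_mul, hz, hr]
    norm_num
    ring
  have hzzδ : ‖z + z‖ < δ := by
    rw [hzzn, div_lt_iff₀ hlog0]
    have h1 : δ * (2 / δ) = 2 := by field_simp
    have h2 := mul_le_mul_of_nonneg_left hlog hδ.le
    rw [mul_add, h1] at h2
    linarith
  have hre : |z.re| ≤ 1/200 := (Complex.abs_re_le_norm z).trans (by rw [hz]; exact hr200)
  have him : |z.im| ≤ 1 := (Complex.abs_im_le_norm z).trans (by rw [hz]; linarith)
  obtain ⟨p1, p2⟩ := hpole (z + z) hzz hzzδ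
  have p0 : 2 / ‖z + z‖ = Real.log T := by
    rw [hzzn]
    field_simp
  rw [p0] at p1 p2
  -- the factor (2 pi / T)^(2z)
  have p3 : ‖((2 * Real.pi / T : ℝ) : ℂ) ^ (z + z)‖ ≤ Real.exp 2 := by
    have h1 : 0 < 2 * Real.pi / T := by positivity
    rw [Complex.norm_cpow_eq_rpow_re_of_pos h1, Real.rpow_def_of_pos h1]
    refine Real.exp_le_exp.2 ((le_abs_self _).trans ?_)
    rw [abs_mul]
    have h2 : |Real.log (2 * Real.pi / T)| ≤ Real.log T := by
      rw [Real.log_div (by positivity) hT0.ne', abs_le]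
      have h3 : 0 ≤ Real.log (2 * Real.pi) := Real.log_nonneg (by linarith [Real.pi_gt_three])
      have h4 : Real.log (2 * Real.pi) ≤ 2 * Real.pi - 1 := Real.log_le_sub_one_of_pos (by positivity)
      have h5 := Real.pi_le_four
      constructor <;> linarith
    have h3 : |(z + z).re| ≤ 2 / Real.log T := (Complex.abs_re_le_norm _).trans hzzn.le
    calc |Real.log (2 * Real.pi / T)| * |(z + z).re| ≤ Real.log T * (2 / Real.log T) :=
          mul_le_mul h2 h3 (abs_nonneg _) hlog0.le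
      _ = 2 := by field_simp
  -- torus forms
  have t1 := torus_form hz4 hS ha
  have t2 := torus_form (z := -z) (by rw [norm_neg]; exact hz4) hS ha
  have b1 : ∫ θ, ‖∑ h ∈ Finset.range (H + 1), a h * chi (Xt θ) h‖ ^ 2 * DD 1 z S (Xt θ) ∂PT ≤ B := by
    have := hB z hz
    simp only [haF] at this
    exact this
  have b2 : ∫ θ, ‖∑ h ∈ Finset.range (H + 1), a h * chi (Xt θ) h‖ ^ 2 * DD 1 (-z) S (Xt θ) ∂PT ≤ B := by
    have := hB (-z) (by rw [norm_neg]; exact hz)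
    simp only [haF] at this
    exact this
  have s1 := t1.trans b1
  have s2 := t2.trans b2
  have hB0 : 0 ≤ B := (norm_nonneg _).trans s1
  rw [E3_expand hT0 hz10 ha haF]
  -- error of a pair
  set E : ℝ := 2 * C1 * Real.log T * ((H : ℝ) ^ (5/4 : ℝ) * T ^ (-(3/4) : ℝ)) with hE
  have hE0 : 0 ≤ E := by positivity
  have herr : ∀ h ∈ Finset.range (H + 1), ∀ k ∈ Finset.range (H + 1),
      ‖a h * conj (a k) * ((∫ t, E3_G z h k t ∂mu T) - LZ.mainT T z z h k)‖ ≤ ‖a h‖ * ‖a k‖ * E := by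
    intro h hh k hk
    by_cases hah : a h = 0
    · rw [hah]; simp
    by_cases hak : a k = 0
    · rw [hak]; simp
    obtain ⟨h1, h2, -⟩ := ha h hah
    obtain ⟨k1, k2, -⟩ := ha k hak
    have h1' : (1 : ℝ) ≤ h := by exact_mod_cast h1
    have k1' : (1 : ℝ) ≤ k := by exact_mod_cast k1
    have h2' : (h : ℝ) ≤ H := by exact_mod_cast h2
    have k2' : (k : ℝ) ≤ H := by exact_mod_cast k2
    have hH0 : (0 : ℝ) ≤ H := Nat.cast_nonneg H
    have hhk : (h : ℝ) * k ≤ (H : ℝ) ^ 2 := by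
      rw [sq]
      exact mul_le_mul h2' k2' (by linarith) hH0
    have h3 := htsm T hTT1 h k h1 k1 (hhk.trans hHT) z z hre hre him him hzz
    rw [← E3_mean hT0] at h3
    rw [norm_mul, norm_mul, RCLike.norm_conj]
    refine mul_le_mul_of_nonneg_left (h3.trans ?_) (by positivity)
    have e1 : 1 + 1 / ‖z + z‖ ≤ 2 * Real.log T := by
      have : 1 / ‖z + z‖ = Real.log T / 2 := by
        rw [← p0]
        field_simp
      rw [this]
      linarith
    have e2 : ((h : ℝ) * k) ^ (5/8 : ℝ) ≤ (H : ℝ) ^ (5/4 : ℝ) := by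
      refine (Real.rpow_le_rpow (by positivity) hhk (by norm_num)).trans (le_of_eq ?_)
      rw [← Real.rpow_natCast, ← Real.rpow_mul hH0]
      norm_num
    have e3 : 0 ≤ T ^ (-(3/4) : ℝ) := by positivity
    calc C1 * (1 + 1 / ‖z + z‖) * ((h : ℝ) * k) ^ (5/8 : ℝ) * T ^ (-(3/4) : ℝ)
        ≤ C1 * (2 * Real.log T) * (H : ℝ) ^ (5/4 : ℝ) * T ^ (-(3/4) : ℝ) := by gcongr
      _ = E := by rw [hE]; ring
  -- main term
  have hmain : ‖∑ h ∈ Finset.range (H + 1), ∑ k ∈ Finset.range (H + 1), a h * conj (a k) *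
      LZ.mainT T z z h k‖ ≤ (1 + Real.exp 2) * Real.log T * B := by
    have h1 : ∑ h ∈ Finset.range (H + 1), ∑ k ∈ Finset.range (H + 1), a h * conj (a k) * LZ.mainT T z z h k =
        riemannZeta (1 + (z + z)) * (∑ h ∈ Finset.range (H + 1), ∑ k ∈ Finset.range (H + 1), a h * conj (a k) *
          (((h / Nat.gcd h k : ℕ) : ℂ) ^ (-1/2 - z) * ((k / Nat.gcd h k : ℕ) : ℂ) ^ (-1/2 - z))) +
        ((2 * Real.pi / T : ℝ) : ℂ) ^ (z + z) * LZ.Ac (z + z) *
          (∑ h ∈ Finset.range (H + 1), ∑ k ∈ Finset.range (H + 1), a h * conj (a k) *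
          (((h / Nat.gcd h k : ℕ) : ℂ) ^ (-1/2 - -z) * ((k / Nat.gcd h k : ℕ) : ℂ) ^ (-1/2 - -z))) := by
      rw [Finset.mul_sum, Finset.mul_sum, ← Finset.sum_add_distrib]
      refine Finset.sum_congr rfl fun h _ => ?_
      rw [Finset.mul_sum, Finset.mul_sum, ← Finset.sum_add_distrib]
      refine Finset.sum_congr rfl fun k _ => ?_
      unfold LZ.mainT
      rw [sub_neg_eq_add]
      ring
    rw [h1]
    refine (norm_add_le _ _).trans ?_
    rw [norm_mul, norm_mul, norm_mul]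
    have q1 : ‖riemannZeta (1 + (z + z))‖ * ‖∑ h ∈ Finset.range (H + 1), ∑ k ∈ Finset.range (H + 1), a h * conj (a k) *
          (((h / Nat.gcd h k : ℕ) : ℂ) ^ (-1/2 - z) * ((k / Nat.gcd h k : ℕ) : ℂ) ^ (-1/2 - z))‖ ≤
          Real.log T * B := mul_le_mul p1 s1 (norm_nonneg _) hlog0.le
    have q2 : ‖((2 * Real.pi / T : ℝ) : ℂ) ^ (z + z)‖ * ‖LZ.Ac (z + z)‖ ≤ Real.exp 2 * Real.log T :=
      mul_le_mul p3 p2 (norm_nonneg _) (Real.exp_nonneg _)
    have q3 := mul_le_mul q2 s2 (norm_nonneg _) (mul_nonneg (Real.exp_nonneg 2) hlog0.le)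
    calc _ ≤ Real.log T * B + Real.exp 2 * Real.log T * B := add_le_add q1 q3
      _ = (1 + Real.exp 2) * Real.log T * B := by ring
  have hsplit : ∑ h ∈ Finset.range (H + 1), ∑ k ∈ Finset.range (H + 1), a h * conj (a k) * ∫ t, E3_G z h k t ∂mu T =
      (∑ h ∈ Finset.range (H + 1), ∑ k ∈ Finset.range (H + 1), a h * conj (a k) * LZ.mainT T z z h k) +
      ∑ h ∈ Finset.range (H + 1), ∑ k ∈ Finset.range (H + 1), a h * conj (a k) *
        ((∫ t, E3_G z h k t ∂mu T) - LZ.mainT T z z h k) := by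
    rw [← Finset.sum_add_distrib]
    refine Finset.sum_congr rfl fun h _ => ?_
    rw [← Finset.sum_add_distrib]
    refine Finset.sum_congr rfl fun k _ => ?_
    ring
  rw [hsplit]
  refine (norm_add_le _ _).trans ?_
  have herr2 : ‖∑ h ∈ Finset.range (H + 1), ∑ k ∈ Finset.range (H + 1), a h * conj (a k) *
        ((∫ t, E3_G z h k t ∂mu T) - LZ.mainT T z z h k)‖ ≤ 2 * C1 * Real.log T * R := by
    have h1 : ‖∑ h ∈ Finset.range (H + 1), ∑ k ∈ Finset.range (H + 1), a h * conj (a k) *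
        ((∫ t, E3_G z h k t ∂mu T) - LZ.mainT T z z h k)‖ ≤
        ∑ h ∈ Finset.range (H + 1), ∑ k ∈ Finset.range (H + 1), ‖a h‖ * ‖a k‖ * E :=
      norm_sum_le_of_le _ fun h hh => norm_sum_le_of_le _ fun k hk => herr h hh k hk
    rw [E3_sum_sq] at h1
    have h2 : (∑ h ∈ Finset.range (H + 1), ‖a h‖) ^ 2 ≤ L ^ 2 :=
      pow_le_pow_left₀ (Finset.sum_nonneg fun h _ => norm_nonneg (a h)) haL 2
    calc _ ≤ (∑ h ∈ Finset.range (H + 1), ‖a h‖) ^ 2 * E := h1
      _ ≤ L ^ 2 * E := mul_le_mul_of_nonneg_right h2 hE0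
      _ = 2 * C1 * Real.log T * R := by rw [hE, hR]; ring
  have f1 : 0 ≤ (1 + Real.exp 2) * Real.log T * R := by positivity
  have f2 : 0 ≤ 2 * C1 * Real.log T * B := by positivity
  calc _ ≤ (1 + Real.exp 2) * Real.log T * B + 2 * C1 * Real.log T * R := add_le_add hmain herr2
    _ ≤ (1 + Real.exp 2) * Real.log T * B + 2 * C1 * Real.log T * R +
        ((1 + Real.exp 2) * Real.log T * R + 2 * C1 * Real.log T * B) := le_add_of_nonneg_right (add_nonneg f1 f2)
    _ = (1 + Real.exp 2 + 2 * C1) * Real.log T * (B + R) := by ring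

end CZ
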