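import Pool.Agent.Lib.MP_9eae41_pr.D1
import Pool.Agent.Lib.MP_0f5a55_nt.V.V59

set_option autoImplicit false

open Complex MeasureTheory Set Filter Topology
open scoped ComplexConjugate ENNReal

namespace CZ

/-! Row F1 (350 lines): twisted first moment with both twists. Adapt LP.first_mom
(Lib/MP_0f5a55_nt/V/V59.lean; the private lemmas A23_*) from h^(-it) to h^(-it) k^(it): shift the contour from
Re s = 1/2 to Re s = 2 (above height Y), where (k/h)^(s-1/2) has size (k/h)^(3/2); the n-th term has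
exponent -1/T - i log((n+1)h/k); it is the main term when (n+1) h = k, and otherwise
1/|log((n+1)h/k)| is at most 2k+2. -/

private noncomputable def f1_F (T : ℝ) (h k : ℕ) (s : ℂ) : ℂ :=
  riemannZeta s * ((h : ℂ) ^ (-(s - 1/2)) * (k : ℂ) ^ (s - 1/2)) * exp (I * (s - 1/2) / T)

private theorem f1_line (T : ℝ) (h k : ℕ) (t : ℝ) :
    f1_F T h k (((1/2 : ℝ) : ℂ) + t * I) = riemannZeta (1/2 + t * I) *
      ((h : ℂ) ^ (-(t * I)) * (k : ℂ) ^ (t * I)) * (Real.exp (-t / T) : ℂ) := by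
  unfold f1_F
  have e1 : (((1/2 : ℝ) : ℂ) + t * I) = 1/2 + t * I := by push_cast; ring
  have e2 : (1/2 + t * I : ℂ) - 1/2 = t * I := by ring
  have e3 : I * (t * I : ℂ) / T = ((-t / T : ℝ) : ℂ) := by
    push_cast
    have : I * ((t : ℂ) * I) = (I * I) * t := by ring
    rw [this, I_mul_I]
    ring
  rw [e1, e2, e3, ofReal_exp]

private theorem f1_norm {T : ℝ} {h k : ℕ} (hh : 1 ≤ h) (hk : 1 ≤ k) {s : ℂ} (hs : 1/2 ≤ s.re) (hs2 : s.re ≤ 2) :
    ‖f1_F T h k s‖ ≤ ‖riemannZeta s‖ * (k : ℝ) ^ 2 * Real.exp (-(1 / T * s.im)) := by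
  unfold f1_F
  rw [norm_mul, norm_mul, norm_mul]
  have e : (1 / 2 : ℂ).re = 1/2 := by norm_num
  have hk1 : (1 : ℝ) ≤ k := by exact_mod_cast hk
  have h1 : ‖(h : ℂ) ^ (-(s - 1/2))‖ ≤ 1 := by
    rw [norm_natCast_cpow_of_pos (by omega)]
    refine Real.rpow_le_one_of_one_le_of_nonpos (by exact_mod_cast hh) ?_
    rw [neg_re, sub_re, e]
    linarith
  have h3 : ‖(k : ℂ) ^ (s - 1/2)‖ ≤ (k : ℝ) ^ 2 := by
    rw [norm_natCast_cpow_of_pos (by omega), sub_re, e, ← Real.rpow_natCast (k : ℝ) 2]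
    refine Real.rpow_le_rpow_of_exponent_le hk1 ?_
    push_cast
    linarith
  have h2 : ‖exp (I * (s - 1/2) / T)‖ = Real.exp (-(1 / T * s.im)) := by
    rw [norm_exp]
    congr 1
    rw [div_ofReal_re, I_mul_re, sub_im]
    have e : (1 / 2 : ℂ).im = 0 := by norm_num
    rw [e]
    ring
  rw [h2]
  refine mul_le_mul_of_nonneg_right ?_ (Real.exp_pos _).le
  refine mul_le_mul_of_nonneg_left ?_ (norm_nonneg _)
  calc ‖(h : ℂ) ^ (-(s - 1/2))‖ * ‖(k : ℂ) ^ (s - 1/2)‖ ≤ 1 * (k : ℝ) ^ 2 :=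
        mul_le_mul h1 h3 (norm_nonneg _) zero_le_one
    _ = _ := one_mul _

private theorem f1_norm_half {T : ℝ} {h k : ℕ} (hh : 1 ≤ h) (hk : 1 ≤ k) (t : ℝ) :
    ‖f1_F T h k (((1/2 : ℝ) : ℂ) + t * I)‖ = ‖riemannZeta (((1/2 : ℝ) : ℂ) + t * I)‖ * Real.exp (-(1 / T * t)) := by
  rw [f1_line, norm_mul, norm_mul, norm_mul]
  have h1 : ‖(h : ℂ) ^ (-(t * I))‖ = 1 := by
    rw [norm_natCast_cpow_of_pos (by omega)]
    simp
  have h3 : ‖(k : ℂ) ^ (t * I)‖ = 1 := by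
    rw [norm_natCast_cpow_of_pos (by omega)]
    simp
  rw [h1, h3, mul_one, mul_one, norm_real, Real.norm_eq_abs, abs_of_pos (Real.exp_pos _)]
  have e1 : (((1/2 : ℝ) : ℂ) + t * I) = 1/2 + t * I := by push_cast; ring
  rw [e1]
  congr 2
  ring

private theorem f1_diff (T : ℝ) {h k : ℕ} (hh : 1 ≤ h) (hk : 1 ≤ k) {s : ℂ} (hs : s ≠ 1) :
    DifferentiableAt ℂ (f1_F T h k) s := by
  unfold f1_F
  have h0 : (h : ℂ) ≠ 0 := by exact_mod_cast (by omega : h ≠ 0)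
  have k0 : (k : ℂ) ≠ 0 := by exact_mod_cast (by omega : k ≠ 0)
  have h1 : DifferentiableAt ℂ (fun s : ℂ => riemannZeta s) s := differentiableAt_riemannZeta hs
  have h2 : DifferentiableAt ℂ (fun s : ℂ => (h : ℂ) ^ (-(s - 1/2))) s :=
    DifferentiableAt.const_cpow (by fun_prop) (Or.inl h0)
  have h4 : DifferentiableAt ℂ (fun s : ℂ => (k : ℂ) ^ (s - 1/2)) s :=
    DifferentiableAt.const_cpow (by fun_prop) (Or.inl k0)
  have h3 : DifferentiableAt ℂ (fun s : ℂ => exp (I * (s - 1/2) / T)) s := by fun_prop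
  exact (h1.mul (h2.mul h4)).mul h3

private theorem f1_sum (a : ℝ) (ha : 1 < a) : Summable (fun n : ℕ => ((n : ℝ) + 1) ^ (-a)) := by
  have h := (Real.summable_nat_rpow (p := -a)).mpr (by linarith)
  have h2 := (summable_nat_add_iff 1).mpr h
  simpa using h2

/-- the n-th term on the line Re s = 2 -/
private noncomputable def f1_c (T : ℝ) (h k : ℕ) (n : ℕ) : ℂ :=
  ((n : ℂ) + 1) ^ (-2 : ℂ) * ((h : ℂ) ^ (-(3/2) : ℂ) * (k : ℂ) ^ (3/2 : ℂ)) * exp (3 / 2 * I / T)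

private noncomputable def f1_b (T : ℝ) (h k : ℕ) (n : ℕ) : ℂ :=
  -(((1 / T : ℝ) : ℂ)) - (Real.log (((n : ℝ) + 1) * h) - Real.log k : ℝ) * I

private theorem f1_term {T : ℝ} {h k : ℕ} (hh : 1 ≤ h) (hk : 1 ≤ k) (n : ℕ) (y : ℝ) :
    ((n : ℂ) + 1) ^ (-(2 + y * I)) * ((h : ℂ) ^ (-((2 : ℂ) + y * I - 1/2)) * (k : ℂ) ^ ((2 : ℂ) + y * I - 1/2)) *
      exp (I * (2 + y * I - 1/2) / T) = f1_c T h k n * exp (f1_b T h k n * y) := by
  have hn0 : ((n : ℂ) + 1) ≠ 0 := by exact_mod_cast (Nat.succ_ne_zero n)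
  have hh0 : (h : ℂ) ≠ 0 := by exact_mod_cast (by omega : h ≠ 0)
  have hk0 : (k : ℂ) ≠ 0 := by exact_mod_cast (by omega : k ≠ 0)
  have l1 : log ((n : ℂ) + 1) = (Real.log ((n : ℝ) + 1) : ℝ) := by
    rw [ofReal_log (by positivity)]
    push_cast
    rfl
  have l2 : log (h : ℂ) = (Real.log (h : ℝ) : ℝ) := by
    rw [ofReal_log (by positivity)]
    push_cast
    rfl
  have l4 : log (k : ℂ) = (Real.log (k : ℝ) : ℝ) := by
    rw [ofReal_log (by positivity)]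
    push_cast
    rfl
  have l3 : Real.log (((n : ℝ) + 1) * h) = Real.log ((n : ℝ) + 1) + Real.log h :=
    Real.log_mul (by positivity) (by exact_mod_cast (by omega : h ≠ 0))
  unfold f1_c f1_b
  rw [cpow_def_of_ne_zero hn0, cpow_def_of_ne_zero hn0, cpow_def_of_ne_zero hh0, cpow_def_of_ne_zero hh0,
    cpow_def_of_ne_zero hk0, cpow_def_of_ne_zero hk0, l1, l2, l3, l4, ← exp_add, ← exp_add, ← exp_add, ← exp_add,
    ← exp_add, ← exp_add, ← exp_add]
  congr 1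
  push_cast
  have hI : I * (y * I : ℂ) = -y := by
    have : I * (y * I : ℂ) = (I * I) * y := by ring
    rw [this, I_mul_I]; ring
  have h3 : I * (2 + (y : ℂ) * I - 1/2) / T = 3 / 2 * I / T - 1 / T * y := by
    have : I * (2 + (y : ℂ) * I - 1/2) = 3 / 2 * I + I * (y * I) := by ring
    rw [this, hI]
    ring
  rw [h3]
  ring

private theorem f1_cnorm {T : ℝ} {h k : ℕ} (hh : 1 ≤ h) (hk : 1 ≤ k) (n : ℕ) :
    ‖f1_c T h k n‖ ≤ (k : ℝ) ^ 2 * ((n : ℝ) + 1) ^ (-2 : ℝ) := by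
  unfold f1_c
  rw [norm_mul, norm_mul, norm_mul]
  have hk1 : (1 : ℝ) ≤ k := by exact_mod_cast hk
  have h1 : ‖((n : ℂ) + 1) ^ (-2 : ℂ)‖ = ((n : ℝ) + 1) ^ (-2 : ℝ) := by
    have e : ((n : ℂ) + 1) = (((n : ℝ) + 1 : ℝ) : ℂ) := by push_cast; ring
    rw [e, norm_cpow_eq_rpow_re_of_pos (by positivity)]
    congr 1
  have h2 : ‖(h : ℂ) ^ (-(3/2) : ℂ)‖ ≤ 1 := by
    rw [norm_natCast_cpow_of_pos (by omega)]
    refine Real.rpow_le_one_of_one_le_of_nonpos (by exact_mod_cast hh) ?_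
    norm_num
  have h4 : ‖(k : ℂ) ^ (3/2 : ℂ)‖ ≤ (k : ℝ) ^ 2 := by
    rw [norm_natCast_cpow_of_pos (by omega), ← Real.rpow_natCast (k : ℝ) 2]
    refine Real.rpow_le_rpow_of_exponent_le hk1 ?_
    norm_num
  have h3 : ‖exp (3 / 2 * I / T)‖ = 1 := by
    have e : (3 / 2 * I / T : ℂ) = ((3 / 2 / T : ℝ) : ℂ) * I := by push_cast; ring
    rw [e, norm_exp_ofReal_mul_I]
  rw [h3, mul_one, h1, mul_comm]
  refine mul_le_mul_of_nonneg_right ?_ (by positivity)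
  calc ‖(h : ℂ) ^ (-(3/2) : ℂ)‖ * ‖(k : ℂ) ^ (3/2 : ℂ)‖ ≤ 1 * (k : ℝ) ^ 2 :=
        mul_le_mul h2 h4 (norm_nonneg _) zero_le_one
    _ = _ := one_mul _

/-- distinct positive integers: the logarithms differ by at least 1/(k+1) -/
private theorem f1_log {m k : ℕ} (hm : 1 ≤ m) (hk : 1 ≤ k) (hne : m ≠ k) :
    1 / ((k : ℝ) + 1) ≤ |Real.log m - Real.log k| := by
  have hm0 : (0 : ℝ) < m := by exact_mod_cast hm
  have hk0 : (0 : ℝ) < k := by exact_mod_cast hk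
  rcases lt_or_gt_of_ne hne with h | h
  · -- m < k
    have h1 : (m : ℝ) + 1 ≤ k := by exact_mod_cast h
    have h2 : Real.log m - Real.log k ≤ -(1 / ((k : ℝ) + 1)) := by
      rw [← Real.log_div hm0.ne' hk0.ne']
      have h3 := Real.log_le_sub_one_of_pos (div_pos hm0 hk0)
      refine h3.trans ?_
      have h4 : (m : ℝ) / k ≤ 1 - 1 / k := by
        rw [div_le_iff₀ hk0, sub_mul, one_mul, div_mul_cancel₀ _ hk0.ne']
        linarith
      have h5 : 1 / ((k : ℝ) + 1) ≤ 1 / k := by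
        apply one_div_le_one_div_of_le hk0
        linarith
      linarith
    rw [abs_of_nonpos (by
      have : 0 < 1 / ((k : ℝ) + 1) := by positivity
      linarith)]
    linarith
  · have h1 : (k : ℝ) + 1 ≤ m := by exact_mod_cast h
    have h2 : Real.log k - Real.log m ≤ -(1 / ((k : ℝ) + 1)) := by
      rw [← Real.log_div hk0.ne' hm0.ne']
      have h3 := Real.log_le_sub_one_of_pos (div_pos hk0 hm0)
      refine h3.trans ?_
      have h4 : (k : ℝ) / m ≤ k / (k + 1) := by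
        gcongr
      have h5 : (k : ℝ) / (k + 1) = 1 - 1 / (k + 1) := by
        field_simp
        ring
      linarith
    rw [abs_of_nonneg (by
      have : 0 < 1 / ((k : ℝ) + 1) := by positivity
      linarith)]
    linarith

private theorem f1_tail : ∃ C : ℝ, 0 < C ∧ ∀ T : ℝ, 6 ≤ T → ∀ h k : ℕ, 1 ≤ h → 1 ≤ k →
    ‖(T : ℂ)⁻¹ * (∫ y in Ioi (2 : ℝ), f1_F T h k (((2 : ℝ) : ℂ) + y * I)) -
      (if h ∣ k then (((k / h : ℕ) : ℂ)) ^ (-(1/2) : ℂ) else 0)‖ ≤ C * (k : ℝ) ^ 4 / T := by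
  set S : ℝ := ∑' n : ℕ, ((n : ℝ) + 1) ^ (-2 : ℝ) with hS
  have hSs : Summable (fun n : ℕ => ((n : ℝ) + 1) ^ (-2 : ℝ)) := f1_sum 2 (by norm_num)
  have hS0 : 0 ≤ S := tsum_nonneg (fun n => by positivity)
  refine ⟨7 + 2 * S, by positivity, ?_⟩
  intro T hT h k hh hk
  have hT0 : 0 < T := by linarith
  have hk1 : (1 : ℝ) ≤ k := by exact_mod_cast hk
  have hh1 : (1 : ℝ) ≤ h := by exact_mod_cast hh
  set c := f1_c T h k with hc
  set b := f1_b T h k with hb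
  have hbre : ∀ n, (b n).re = -(1 / T) := by
    intro n
    rw [hb]
    unfold f1_b
    rw [sub_re, neg_re, ofReal_re, re_ofReal_mul, I_re, mul_zero, sub_zero]
  have hbim : ∀ n, (b n).im = -(Real.log (((n : ℝ) + 1) * h) - Real.log k) := by
    intro n
    rw [hb]
    unfold f1_b
    rw [sub_im, neg_im, ofReal_im, im_ofReal_mul, I_im]
    ring
  have hbneg : ∀ n, (b n).re < 0 := by
    intro n
    rw [hbre]
    have : 0 < 1 / T := by positivity
    linarith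
  have hb0 : ∀ n, b n ≠ 0 := by
    intro n h0
    have := hbneg n
    rw [h0] at this
    simp at this
  -- expand
  have hexp : ∀ y : ℝ, f1_F T h k (((2 : ℝ) : ℂ) + y * I) = ∑' n : ℕ, c n * exp (b n * y) := by
    intro y
    unfold f1_F
    have e0 : ((2 : ℝ) : ℂ) = 2 := by norm_num
    have hre : 1 < ((2 : ℂ) + y * I).re := by simp
    have hL : riemannZeta ((2 : ℂ) + y * I) = ∑' n : ℕ, ((n : ℂ) + 1) ^ (-((2 : ℂ) + y * I)) := by
      rw [zeta_eq_tsum_one_div_nat_add_one_cpow hre]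
      refine tsum_congr (fun n => ?_)
      rw [cpow_neg, one_div]
    rw [e0, hL, mul_assoc, ← tsum_mul_right]
    refine tsum_congr (fun n => ?_)
    have h9 := f1_term (T := T) hh hk n y
    rw [hc, hb, ← h9]
    ring
  set J : ℝ := ∫ y in Ioi (2 : ℝ), Real.exp (-(1 / T) * y) with hJ
  have hint : ∀ n : ℕ, Integrable (fun y : ℝ => c n * exp (b n * y)) (volume.restrict (Ioi (2 : ℝ))) := fun n =>
    (integrableOn_exp_mul_complex_Ioi (hbneg n) 2).const_mul _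
  have hnorm : ∀ n : ℕ, ∫ y in Ioi (2 : ℝ), ‖c n * exp (b n * y)‖ = ‖c n‖ * J := by
    intro n
    rw [hJ, ← integral_const_mul]
    refine integral_congr_ae (Eventually.of_forall (fun y => ?_))
    simp only
    rw [norm_mul, norm_exp, re_mul_ofReal, hbre]
  have hcs : Summable (fun n : ℕ => ‖c n‖) :=
    Summable.of_nonneg_of_le (fun n => norm_nonneg _) (fun n => f1_cnorm hh hk n) (hSs.mul_left _)
  have hsum : Summable (fun n : ℕ => ∫ y in Ioi (2 : ℝ), ‖c n * exp (b n * y)‖) := by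
    simp_rw [hnorm]
    exact hcs.mul_right _
  have key := hasSum_integral_of_summable_integral_norm hint hsum
  have hval : ∀ n : ℕ, ∫ y in Ioi (2 : ℝ), c n * exp (b n * y) = c n * (-exp (b n * 2) / b n) := by
    intro n
    rw [integral_const_mul, integral_exp_mul_complex_Ioi (hbneg n)]
    norm_num
  simp_rw [hval] at key
  have hI : (∫ y in Ioi (2 : ℝ), f1_F T h k (((2 : ℝ) : ℂ) + y * I)) =
      ∫ y in Ioi (2 : ℝ), ∑' n : ℕ, c n * exp (b n * y) :=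
    integral_congr_ae (Eventually.of_forall hexp)
  rw [hI]
  have key2 := key.mul_left ((T : ℂ)⁻¹)
  set a : ℂ := if h ∣ k then (((k / h : ℕ) : ℂ)) ^ (-(1/2) : ℂ) else 0 with ha
  have hδ : HasSum (fun n : ℕ => if n = k / h - 1 then a else 0) a := hasSum_ite_eq _ a
  have key3 := key2.sub hδ
  rw [← key3.tsum_eq]
  -- the two kinds of terms
  have hen : ∀ n, ‖exp (b n * 2)‖ ≤ 1 := by
    intro n
    have e2 : (2 : ℂ) = ((2 : ℝ) : ℂ) := by norm_num
    rw [norm_exp, e2, re_mul_ofReal]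
    exact Real.exp_le_one_iff.mpr (mul_nonpos_of_nonpos_of_nonneg (hbneg n).le (by norm_num))
  have hmain : ∀ n : ℕ, (n + 1) * h = k →
      ‖(T : ℂ)⁻¹ * (c n * (-exp (b n * 2) / b n)) - a‖ ≤ 7 / T := by
    intro n hn
    have hdiv : h ∣ k := ⟨n + 1, by rw [← hn]; ring⟩
    have hkh : k / h = n + 1 := by
      rw [← hn]
      exact Nat.mul_div_cancel _ hh
    have ea : a = ((n : ℂ) + 1) ^ (-(1/2) : ℂ) := by
      rw [ha, if_pos hdiv, hkh]
      push_cast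
      rfl
    have hn0 : ((n : ℂ) + 1) ≠ 0 := by exact_mod_cast (Nat.succ_ne_zero n)
    have hh0 : (h : ℂ) ≠ 0 := by exact_mod_cast (by omega : h ≠ 0)
    have hkc : (k : ℂ) = ((((n : ℝ) + 1 : ℝ)) : ℂ) * (((h : ℝ)) : ℂ) := by
      rw [← hn]
      push_cast
      ring
    have ec : c n = ((n : ℂ) + 1) ^ (-(1/2) : ℂ) * exp (3 / 2 * I / T) := by
      rw [hc]
      unfold f1_c
      congr 1
      rw [hkc, mul_cpow_ofReal_nonneg (by positivity) (by positivity)]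
      push_cast
      have h1 : (h : ℂ) ^ (-(3/2) : ℂ) * (h : ℂ) ^ (3/2 : ℂ) = 1 := by
        rw [← cpow_add _ _ hh0]
        norm_num
      have h2 : ((n : ℂ) + 1) ^ (-2 : ℂ) * ((n : ℂ) + 1) ^ (3/2 : ℂ) = ((n : ℂ) + 1) ^ (-(1/2) : ℂ) := by
        rw [← cpow_add _ _ hn0]
        norm_num
      calc ((n : ℂ) + 1) ^ (-2 : ℂ) * ((h : ℂ) ^ (-(3/2) : ℂ) * (((n : ℂ) + 1) ^ (3/2 : ℂ) * (h : ℂ) ^ (3/2 : ℂ))) =
          (((n : ℂ) + 1) ^ (-2 : ℂ) * ((n : ℂ) + 1) ^ (3/2 : ℂ)) * ((h : ℂ) ^ (-(3/2) : ℂ) * (h : ℂ) ^ (3/2 : ℂ)) := by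
            ring
        _ = _ := by rw [h1, h2, mul_one]
    have hlk : Real.log (((n : ℝ) + 1) * h) = Real.log k := by
      rw [← hn]
      push_cast
      rfl
    have eb : b n = -((1 / T : ℝ) : ℂ) := by
      rw [hb]
      unfold f1_b
      rw [hlk]
      simp
    have hT1 : (T : ℂ) ≠ 0 := ofReal_ne_zero.mpr hT0.ne'
    have e1 : (T : ℂ)⁻¹ * (c n * (-exp (b n * 2) / b n)) =
        ((n : ℂ) + 1) ^ (-(1/2) : ℂ) * exp ((3 / 2 * I - 2) / T) := by
      rw [ec, eb]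
      have : (3 / 2 * I - 2 : ℂ) / T = 3 / 2 * I / T + -((1 / T : ℝ) : ℂ) * 2 := by
        push_cast; ring
      rw [this, exp_add]
      push_cast
      field_simp
    rw [e1, ea]
    have e2 : ((n : ℂ) + 1) ^ (-(1/2) : ℂ) * exp ((3 / 2 * I - 2) / T) - ((n : ℂ) + 1) ^ (-(1/2) : ℂ) =
        ((n : ℂ) + 1) ^ (-(1/2) : ℂ) * (exp ((3 / 2 * I - 2) / T) - 1) := by ring
    rw [e2, norm_mul]
    have hz : ‖(3 / 2 * I - 2 : ℂ) / T‖ ≤ (7 / 2) / T := by
      rw [norm_div, norm_real, Real.norm_eq_abs, abs_of_pos hT0]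
      refine div_le_div_of_nonneg_right ?_ hT0.le
      refine (norm_sub_le _ _).trans ?_
      have : ‖(3 / 2 * I : ℂ)‖ = 3 / 2 := by
        rw [norm_mul, norm_I, mul_one]
        norm_num
      rw [this]
      norm_num
    have hz1 : ‖(3 / 2 * I - 2 : ℂ) / T‖ ≤ 1 := by
      refine hz.trans ?_
      rw [div_le_one hT0]
      linarith
    have hp : ‖((n : ℂ) + 1) ^ (-(1/2) : ℂ)‖ ≤ 1 := by
      have e : ((n : ℂ) + 1) = (((n : ℝ) + 1 : ℝ) : ℂ) := by push_cast; ring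
      rw [e, norm_cpow_eq_rpow_re_of_pos (by positivity)]
      refine Real.rpow_le_one_of_one_le_of_nonpos ?_ (by norm_num)
      have : (0 : ℝ) ≤ n := Nat.cast_nonneg n
      linarith
    have hq := norm_exp_sub_one_le hz1
    calc ‖((n : ℂ) + 1) ^ (-(1/2) : ℂ)‖ * ‖exp ((3 / 2 * I - 2) / T) - 1‖ ≤
        1 * (2 * ((7 / 2) / T)) := by
          refine mul_le_mul hp (hq.trans (by linarith)) (norm_nonneg _) zero_le_one
      _ = 7 / T := by ring
  have hoff : ∀ n : ℕ, (n + 1) * h ≠ k →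
      ‖(T : ℂ)⁻¹ * (c n * (-exp (b n * 2) / b n))‖ ≤ 2 * (k : ℝ) ^ 3 / T * ((n : ℝ) + 1) ^ (-2 : ℝ) := by
    intro n hn
    rw [norm_mul, norm_mul, norm_div, norm_neg, norm_inv, norm_real, Real.norm_eq_abs, abs_of_pos hT0]
    have hlog : 1 / ((k : ℝ) + 1) ≤ ‖b n‖ := by
      have h1 := f1_log (m := (n + 1) * h) (k := k) (Nat.mul_pos (Nat.succ_pos n) hh) hk hn
      push_cast at h1
      calc 1 / ((k : ℝ) + 1) ≤ |Real.log (((n : ℝ) + 1) * h) - Real.log k| := h1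
        _ = |(b n).im| := by rw [hbim, abs_neg]
        _ ≤ _ := abs_im_le_norm _
    have h4 : ‖exp (b n * 2)‖ / ‖b n‖ ≤ 2 * k := by
      have h5 : ‖exp (b n * 2)‖ / ‖b n‖ ≤ 1 / (1 / ((k : ℝ) + 1)) :=
        div_le_div₀ zero_le_one (hen n) (by positivity) hlog
      rw [one_div_one_div] at h5
      linarith
    have h5 : ‖c n‖ ≤ (k : ℝ) ^ 2 * ((n : ℝ) + 1) ^ (-2 : ℝ) := f1_cnorm hh hk n
    calc T⁻¹ * (‖c n‖ * (‖exp (b n * 2)‖ / ‖b n‖)) ≤
        T⁻¹ * (((k : ℝ) ^ 2 * ((n : ℝ) + 1) ^ (-2 : ℝ)) * (2 * k)) := by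
          refine mul_le_mul_of_nonneg_left ?_ (by positivity)
          exact mul_le_mul h5 h4 (by positivity) (by positivity)
      _ = _ := by ring
  have hterm : ∀ n : ℕ, ‖(T : ℂ)⁻¹ * (c n * (-exp (b n * 2) / b n)) - (if n = k / h - 1 then a else 0)‖ ≤
      2 * (k : ℝ) ^ 3 / T * ((n : ℝ) + 1) ^ (-2 : ℝ) + (if n = k / h - 1 then 7 / T else 0) := by
    intro n
    have hpos : 0 ≤ 2 * (k : ℝ) ^ 3 / T * ((n : ℝ) + 1) ^ (-2 : ℝ) := by positivity
    by_cases hn : (n + 1) * h = k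
    · have hkh : k / h = n + 1 := by
        rw [← hn]
        exact Nat.mul_div_cancel _ hh
      have he : n = k / h - 1 := by omega
      rw [if_pos he, if_pos he]
      have := hmain n hn
      linarith
    · have h0 : (if n = k / h - 1 then a else 0) = (0 : ℂ) := by
        by_cases h1 : n = k / h - 1
        · rw [if_pos h1, ha]
          by_cases h2 : h ∣ k
          · exfalso
            apply hn
            have h3 : 1 ≤ k / h := Nat.div_pos (Nat.le_of_dvd hk h2) hh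
            have h4 : n + 1 = k / h := by omega
            rw [h4]
            exact Nat.div_mul_cancel h2
          · rw [if_neg h2]
        · rw [if_neg h1]
      rw [h0, sub_zero]
      have h7 : (0 : ℝ) ≤ (if n = k / h - 1 then 7 / T else 0) := by
        split_ifs
        · positivity
        · exact le_refl _
      have := hoff n hn
      linarith
  have hsr : Summable (fun n : ℕ => 2 * (k : ℝ) ^ 3 / T * ((n : ℝ) + 1) ^ (-2 : ℝ)) := hSs.mul_left _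
  have hδ7 : HasSum (fun n : ℕ => if n = k / h - 1 then 7 / T else 0) (7 / T) := hasSum_ite_eq _ _
  calc _ ≤ ∑' n : ℕ, (2 * (k : ℝ) ^ 3 / T * ((n : ℝ) + 1) ^ (-2 : ℝ) + (if n = k / h - 1 then 7 / T else 0)) := by
        refine tsum_of_norm_bounded (hsr.add hδ7.summable).hasSum hterm
    _ = 2 * (k : ℝ) ^ 3 / T * S + 7 / T := by
        rw [hsr.tsum_add hδ7.summable, tsum_mul_left, hδ7.tsum_eq, hS]
    _ ≤ (7 + 2 * S) * (k : ℝ) ^ 4 / T := by
      have h3 : (k : ℝ) ^ 3 ≤ (k : ℝ) ^ 4 := pow_le_pow_right₀ hk1 (by norm_num)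
      have h4 : (1 : ℝ) ≤ (k : ℝ) ^ 4 := one_le_pow₀ hk1
      have e : 2 * (k : ℝ) ^ 3 / T * S + 7 / T = (2 * S * (k : ℝ) ^ 3 + 7) / T := by ring
      rw [e]
      refine div_le_div_of_nonneg_right ?_ hT0.le
      have h5 : 2 * S * (k : ℝ) ^ 3 ≤ 2 * S * (k : ℝ) ^ 4 := mul_le_mul_of_nonneg_left h3 (by positivity)
      nlinarith

theorem first_tw : ∃ C T0 : ℝ, 0 < C ∧ 2 ≤ T0 ∧ ∀ T : ℝ, T0 ≤ T → ∀ h k : ℕ, 1 ≤ h → 1 ≤ k →
    ‖(∫ t, riemannZeta (1/2 + t * I) * ((h : ℂ) ^ (-(t * I)) * (k : ℂ) ^ (t * I)) ∂mu T) -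
      (if h ∣ k then (((k / h : ℕ) : ℂ)) ^ (-(1/2) : ℂ) else 0)‖ ≤ C * (k : ℝ) ^ 4 / T := by
  obtain ⟨Cz, hCz, hz0⟩ := LP.per_pol (N := 1) (fun _ => 1)
  have hz : ∀ s : ℂ, 1/2 ≤ s.re → 1/4 ≤ ‖s - 1‖ → ‖riemannZeta s‖ ≤ Cz * (1 + |s.im|) := by
    intro s hs hs1
    have hne : s ≠ 1 := by
      intro h0
      rw [h0, sub_self, norm_zero] at hs1
      linarith
    have h1 := hz0 s (by linarith) hs1
    rw [(LP.per_basic (N := 1)).2.2 s hne] at h1
    exact h1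
  obtain ⟨Ct, hCt, htail⟩ := f1_tail
  refine ⟨Cz * 3 * 2 + 3 / 2 * (Cz * 3) + Ct, 6, by positivity, by norm_num, ?_⟩
  intro T hT h k hh hk
  have hT0 : 0 < T := by linarith
  have hk1 : (1 : ℝ) ≤ k := by exact_mod_cast hk
  -- the line Re = 1/2
  set f : ℝ → ℂ := fun t => f1_F T h k (((1/2 : ℝ) : ℂ) + t * I) with hf
  have hne1 : ∀ t : ℝ, 1/4 ≤ ‖(((1/2 : ℝ) : ℂ) + t * I) - 1‖ := by
    intro t
    have e : ((((1/2 : ℝ) : ℂ) + t * I) - 1).re = - 1/2 := by simp; norm_num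
    have := abs_re_le_norm ((((1/2 : ℝ) : ℂ) + t * I) - 1)
    rw [e] at this
    refine le_trans ?_ this
    rw [abs_of_neg (by norm_num)]
    norm_num
  have hneY : ∀ s : ℂ, 2 ≤ s.im → 1/4 ≤ ‖s - 1‖ := by
    intro s hs
    have := abs_im_le_norm (s - 1)
    refine le_trans ?_ this
    have e : (s - 1).im = s.im := by simp
    rw [e, abs_of_pos (by linarith)]
    linarith
  have hfb : ∀ t : ℝ, 0 ≤ t → ‖f t‖ ≤ Cz * (1 + t) * Real.exp (-(1 / T * t)) := by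
    intro t ht
    rw [hf]
    simp only
    rw [f1_norm_half hh hk]
    refine mul_le_mul_of_nonneg_right ?_ (Real.exp_pos _).le
    have h1 := hz (((1/2 : ℝ) : ℂ) + t * I) (by simp) (hne1 t)
    have e : ((((1/2 : ℝ) : ℂ) + t * I)).im = t := by simp
    rw [e, abs_of_nonneg ht] at h1
    exact h1
  have hfc : Continuous f := by
    rw [continuous_iff_continuousAt]
    intro t
    have hne : (((1/2 : ℝ) : ℂ) + t * I) ≠ 1 := by
      intro h0
      have := hne1 t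
      rw [h0, sub_self, norm_zero] at this
      linarith
    have h1 := (f1_diff T hh hk hne).continuousAt
    have h2 : ContinuousAt (fun t : ℝ => ((1/2 : ℝ) : ℂ) + (t : ℂ) * I) t := by fun_prop
    exact ContinuousAt.comp (f := fun t : ℝ => ((1/2 : ℝ) : ℂ) + (t : ℂ) * I) h1 h2
  have hfi : IntegrableOn f (Ioi 0) := by
    have hg : IntegrableOn (fun t : ℝ => Cz * (1 + 2 * T) * Real.exp (-(1 / (2 * T)) * t)) (Ioi 0) := by
      have h9 := (exp_neg_integrableOn_Ioi (b := 1 / (2 * T)) 0 (by positivity)).const_mul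
        (Cz * (1 + 2 * T))
      exact h9
    refine Integrable.mono' hg hfc.aestronglyMeasurable ?_
    refine (ae_restrict_mem measurableSet_Ioi).mono (fun t ht => ?_)
    have ht0 : 0 ≤ t := le_of_lt ht
    refine (hfb t ht0).trans ?_
    have e1 : Real.exp (-(1 / T * t)) = Real.exp (-(1 / (2 * T)) * t) * Real.exp (-(1 / (2 * T)) * t) := by
      rw [← Real.exp_add]
      congr 1
      field_simp
      ring
    have e2 : (1 + t) * Real.exp (-(1 / (2 * T)) * t) ≤ 1 + 2 * T := by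
      have h3 : 1 / (2 * T) * t ≤ Real.exp (1 / (2 * T) * t) := by
        have := Real.add_one_le_exp (1 / (2 * T) * t)
        linarith
      have h4 : Real.exp (-(1 / (2 * T)) * t) * Real.exp (1 / (2 * T) * t) = 1 := by
        rw [← Real.exp_add]
        simp
      have h5 : Real.exp (-(1 / (2 * T)) * t) ≤ 1 := by
        rw [Real.exp_le_one_iff]
        have : 0 ≤ 1 / (2 * T) * t := by positivity
        linarith
      have h6 : t = 2 * T * (1 / (2 * T) * t) := by field_simp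
      have h7 : t * Real.exp (-(1 / (2 * T)) * t) ≤ 2 * T := by
        calc t * Real.exp (-(1 / (2 * T)) * t) = 2 * T * (1 / (2 * T) * t) * Real.exp (-(1 / (2 * T)) * t) := by
              rw [← h6]
          _ ≤ 2 * T * Real.exp (1 / (2 * T) * t) * Real.exp (-(1 / (2 * T)) * t) := by gcongr
          _ = 2 * T * (Real.exp (-(1 / (2 * T)) * t) * Real.exp (1 / (2 * T) * t)) := by ring
          _ = 2 * T := by rw [h4, mul_one]
      linarith
    rw [e1]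
    calc Cz * (1 + t) * (Real.exp (-(1 / (2 * T)) * t) * Real.exp (-(1 / (2 * T)) * t)) =
        Cz * ((1 + t) * Real.exp (-(1 / (2 * T)) * t)) * Real.exp (-(1 / (2 * T)) * t) := by ring
      _ ≤ Cz * (1 + 2 * T) * Real.exp (-(1 / (2 * T)) * t) := by gcongr
  have hEE : (∫ t, riemannZeta (1/2 + t * I) * ((h : ℂ) ^ (-(t * I)) * (k : ℂ) ^ (t * I)) ∂mu T) =
      (T : ℂ)⁻¹ * ∫ t in Ioi (0:ℝ), f t := by
    rw [integral_mu hT0]
    congr 1
    refine integral_congr_ae (Eventually.of_forall (fun t => ?_))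
    exact (f1_line T h k t).symm
  have hsplit : ∫ t in Ioi (0:ℝ), f t = (∫ t in Ioc 0 2, f t) + ∫ t in Ioi 2, f t := by
    rw [← Ioc_union_Ioi_eq_Ioi (by norm_num : (0 : ℝ) ≤ 2)]
    exact setIntegral_union (Ioc_disjoint_Ioi le_rfl) measurableSet_Ioi
      (hfi.mono_set Ioc_subset_Ioi_self) (hfi.mono_set (Ioi_subset_Ioi (by norm_num)))
  have hlow : ‖∫ t in Ioc (0 : ℝ) 2, f t‖ ≤ Cz * 3 * 2 := by
    have h1 : ∀ t ∈ Ioc (0 : ℝ) 2, ‖f t‖ ≤ Cz * 3 := by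
      intro t ht
      refine (hfb t ht.1.le).trans ?_
      have h2 : Real.exp (-(1 / T * t)) ≤ 1 := by
        rw [Real.exp_le_one_iff]
        have : 0 ≤ 1 / T * t := mul_nonneg (by positivity) ht.1.le
        linarith
      calc Cz * (1 + t) * Real.exp (-(1 / T * t)) ≤ Cz * (1 + t) * 1 :=
            mul_le_mul_of_nonneg_left h2 (mul_nonneg hCz.le (by linarith [ht.1]))
        _ ≤ Cz * 3 := by
            rw [mul_one]
            exact mul_le_mul_of_nonneg_left (by linarith [ht.2]) hCz.le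
    refine (norm_setIntegral_le_of_norm_le_const (by simp) h1).trans ?_
    rw [Real.volume_real_Ioc_of_le (by norm_num), sub_zero]
  -- bounds in the strip
  have hb : ∀ s : ℂ, 1/2 ≤ s.re → s.re ≤ 2 → 1/4 ≤ ‖s - 1‖ → ‖f1_F T h k s‖ ≤
      Cz * (k : ℝ) ^ 2 * (1 + |s.im|) * Real.exp (-(1 / T * s.im)) := by
    intro s hs hs2 hs1
    refine (f1_norm hh hk hs hs2).trans ?_
    refine mul_le_mul_of_nonneg_right ?_ (Real.exp_pos _).le
    calc ‖riemannZeta s‖ * (k : ℝ) ^ 2 ≤ Cz * (1 + |s.im|) * (k : ℝ) ^ 2 :=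
          mul_le_mul_of_nonneg_right (hz s hs hs1) (by positivity)
      _ = _ := by ring
  have hD : ∀ x ∈ Icc (1/2 : ℝ) 2, ‖f1_F T h k (x + (2 : ℝ) * I)‖ ≤ Cz * (k : ℝ) ^ 2 * 3 := by
    intro x hx
    have e1 : ((x : ℂ) + (2 : ℝ) * I).im = 2 := by simp
    have e2 : ((x : ℂ) + (2 : ℝ) * I).re = x := by simp
    have h1 := hb (x + (2 : ℝ) * I) (by rw [e2]; exact hx.1) (by rw [e2]; exact hx.2) (hneY _ (by rw [e1]))
    rw [e1, abs_of_nonneg (by norm_num : (0 : ℝ) ≤ 2)] at h1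
    refine h1.trans ?_
    have h2 : Real.exp (-(1 / T * 2)) ≤ 1 := by
      rw [Real.exp_le_one_iff]
      have : 0 ≤ 1 / T * 2 := by positivity
      linarith
    calc Cz * (k : ℝ) ^ 2 * (1 + 2) * Real.exp (-(1 / T * 2)) ≤ Cz * (k : ℝ) ^ 2 * (1 + 2) * 1 :=
          mul_le_mul_of_nonneg_left h2 (by positivity)
      _ = _ := by ring
  have hshift := LZ.half_shift (a := 1/2) (b := 2) (Y := 2) (by norm_num) (F := f1_F T h k)
    (fun s _ _ hs => f1_diff T hh hk (fun h0 => by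
      have := hneY s hs
      rw [h0, sub_self, norm_zero] at this
      linarith)) (C := Cz * (k : ℝ) ^ 2) (ε := 1 / T) (by positivity)
    (fun s hs1 hs2 hs3 => by
      refine (hb s hs1 hs2 (hneY s hs3)).trans ?_
      refine mul_le_mul_of_nonneg_right ?_ (Real.exp_pos _).le
      refine mul_le_mul_of_nonneg_left ?_ (by positivity)
      exact le_self_pow₀ (by linarith [abs_nonneg s.im]) (by norm_num)) hD
  have ht := htail T hT h k hh hk
  rw [hEE, hsplit]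
  set a : ℂ := if h ∣ k then (((k / h : ℕ) : ℂ)) ^ (-(1/2) : ℂ) else 0 with ha
  have hrew : (T : ℂ)⁻¹ * ((∫ t in Ioc (0 : ℝ) 2, f t) + ∫ t in Ioi (2 : ℝ), f t) - a =
      (T : ℂ)⁻¹ * (∫ t in Ioc (0 : ℝ) 2, f t) +
      (T : ℂ)⁻¹ * ((∫ t in Ioi (2 : ℝ), f t) - ∫ y in Ioi (2 : ℝ), f1_F T h k (((2 : ℝ) : ℂ) + y * I)) +
      ((T : ℂ)⁻¹ * (∫ y in Ioi (2 : ℝ), f1_F T h k (((2 : ℝ) : ℂ) + y * I)) - a) := by
    ring
  rw [hrew]
  have hTn : ‖(T : ℂ)⁻¹‖ = 1 / T := by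
    rw [norm_inv, norm_real, Real.norm_eq_abs, abs_of_pos hT0, one_div]
  have n1 : ‖(T : ℂ)⁻¹ * (∫ t in Ioc (0 : ℝ) 2, f t)‖ ≤ Cz * 3 * 2 * (k : ℝ) ^ 4 / T := by
    rw [norm_mul, hTn]
    have h4 : (1 : ℝ) ≤ (k : ℝ) ^ 4 := one_le_pow₀ hk1
    calc 1 / T * ‖∫ t in Ioc (0 : ℝ) 2, f t‖ ≤ 1 / T * (Cz * 3 * 2 * 1) := by
          rw [mul_one]; gcongr
      _ ≤ 1 / T * (Cz * 3 * 2 * (k : ℝ) ^ 4) := by gcongr
      _ = _ := by ring
  have n2 : ‖(T : ℂ)⁻¹ * ((∫ t in Ioi (2 : ℝ), f t) - ∫ y in Ioi (2 : ℝ), f1_F T h k (((2 : ℝ) : ℂ) + y * I))‖ ≤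
      3 / 2 * (Cz * 3) * (k : ℝ) ^ 4 / T := by
    rw [norm_mul, hTn]
    have h4 : (k : ℝ) ^ 2 ≤ (k : ℝ) ^ 4 := pow_le_pow_right₀ hk1 (by norm_num)
    calc _ ≤ 1 / T * ((2 - 1/2) * (Cz * (k : ℝ) ^ 2 * 3)) := by gcongr
      _ ≤ 1 / T * ((2 - 1/2) * (Cz * (k : ℝ) ^ 4 * 3)) := by gcongr
      _ = _ := by ring
  calc _ ≤ Cz * 3 * 2 * (k : ℝ) ^ 4 / T + 3 / 2 * (Cz * 3) * (k : ℝ) ^ 4 / T + Ct * (k : ℝ) ^ 4 / T :=
        (norm_add_le _ _).trans (add_le_add ((norm_add_le _ _).trans (add_le_add n1 n2)) ht)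
    _ = _ := by ring

end CZ
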