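import Pool.Agent.Lib.MP_9eae41_pr.F1
import Pool.Agent.Lib.MP_9eae41_pr.E1

set_option autoImplicit false

open Complex MeasureTheory Set Filter Topology
open scoped ComplexConjugate ENNReal

namespace CZ

/-! Row F2 (200 lines): torus form of the first moment. The integral of Eu S (Xt) chi(h) conj chi(k) over the torus
is (k/h)^(-1/2) if h divides k, else 0, for h, k with prime factors in S (one variable geometric series). -/

private theorem f2_ee_cont : Continuous ee := by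
  unfold ee
  fun_prop

private theorem f2_ee_zpow (x : ℝ) (m a b : ℕ) :
    ee x ^ m * (ee x ^ a * conj (ee x ^ b)) = ee x ^ ((m : ℤ) + a - b) := by
  have h0 : ee x ≠ 0 := by
    intro h
    have := norm_ee x
    rw [h, norm_zero] at this
    norm_num at this
  have h1 : conj (ee x) = (ee x)⁻¹ := by
    rw [Complex.inv_def, Complex.normSq_eq_norm_sq, norm_ee]
    simp
  rw [map_pow, h1, zpow_sub₀ h0, zpow_add₀ h0, zpow_natCast, zpow_natCast, zpow_natCast, inv_pow,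
    div_eq_mul_inv, mul_assoc]

private noncomputable def f2_F (c : ℂ) (a b m : ℕ) (x : ℝ) : ℂ := (ee x * c) ^ m * (ee x ^ a * conj (ee x ^ b))

private theorem f2_F_norm (c : ℂ) (a b m : ℕ) (x : ℝ) : ‖f2_F c a b m x‖ = ‖c‖ ^ m := by
  unfold f2_F
  rw [norm_mul, norm_mul, norm_pow, norm_mul, norm_ee, RCLike.norm_conj, norm_pow, norm_pow, norm_ee]
  simp

private theorem f2_F_int (c : ℂ) (a b m : ℕ) : ∫ x, f2_F c a b m x ∂Ug = if m + a = b then c ^ m else 0 := by
  have e1 : ∀ x, f2_F c a b m x = c ^ m * ee x ^ ((m : ℤ) + a - b) := by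
    intro x
    unfold f2_F
    rw [← f2_ee_zpow, mul_pow]
    ring
  rw [integral_congr_ae (Eventually.of_forall e1), integral_const_mul, int_ee]
  by_cases h : m + a = b
  · rw [if_pos h, if_pos (by omega), mul_one]
  · rw [if_neg h, if_neg (by omega), mul_zero]

private theorem f2_F_integrable (c : ℂ) (a b m : ℕ) : Integrable (f2_F c a b m) Ug := by
  have := Ug_prob
  refine Integrable.of_bound (Continuous.aestronglyMeasurable ?_) (‖c‖ ^ m)
    (Eventually.of_forall fun x => (f2_F_norm c a b m x).le)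
  unfold f2_F
  exact ((f2_ee_cont.mul continuous_const).pow m).mul
      ((f2_ee_cont.pow a).mul (continuous_conj.comp (f2_ee_cont.pow b)))

/-- one variable -/
private theorem f2_one {c : ℂ} (hc : ‖c‖ < 1) (a b : ℕ) :
    ∫ x, (1 - ee x * c)⁻¹ * (ee x ^ a * conj (ee x ^ b)) ∂Ug = if a ≤ b then c ^ (b - a) else 0 := by
  have := Ug_prob
  have hsum : ∀ x : ℝ, ∑' m : ℕ, f2_F c a b m x = (1 - ee x * c)⁻¹ * (ee x ^ a * conj (ee x ^ b)) := by
    intro x
    have h : ‖ee x * c‖ < 1 := by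
      rw [norm_mul, norm_ee, one_mul]
      exact hc
    exact ((hasSum_geometric_of_norm_lt_one h).mul_right _).tsum_eq
  have hS : Summable fun m : ℕ => ∫ x, ‖f2_F c a b m x‖ ∂Ug := by
    have e : (fun m : ℕ => ∫ x, ‖f2_F c a b m x‖ ∂Ug) = fun m : ℕ => ‖c‖ ^ m := by
      funext m
      rw [integral_congr_ae (Eventually.of_forall (f2_F_norm c a b m))]
      simp
    rw [e]
    exact summable_geometric_of_lt_one (norm_nonneg _) hc
  have key := hasSum_integral_of_summable_integral_norm (f2_F_integrable c a b) hS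
  rw [integral_congr_ae (Eventually.of_forall hsum)] at key
  refine key.unique ?_
  have e2 : (fun m : ℕ => ∫ x, f2_F c a b m x ∂Ug) = fun m : ℕ => if m + a = b then c ^ m else 0 := by
    funext m
    exact f2_F_int c a b m
  rw [e2]
  by_cases h : a ≤ b
  · rw [if_pos h]
    have e3 : (fun m : ℕ => if m + a = b then c ^ m else 0) = fun m : ℕ => if m = b - a then c ^ (b - a) else 0 := by
      funext m
      by_cases hm : m = b - a
      · rw [if_pos hm, if_pos (by omega), hm]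
      · rw [if_neg hm, if_neg (by omega)]
    rw [e3]
    exact hasSum_ite_eq _ _
  · rw [if_neg h]
    have e3 : (fun m : ℕ => if m + a = b then c ^ m else 0) = fun _ : ℕ => (0 : ℂ) := by
      funext m
      rw [if_neg (by omega)]
    rw [e3]
    exact hasSum_zero

/-- the completely multiplicative function `n ^ (-1/2)` -/
private noncomputable def f2_rs : ℕ →* ℂ where
  toFun n := ((Real.sqrt n : ℝ) : ℂ)⁻¹
  map_one' := by simp
  map_mul' m n := by
    rw [Nat.cast_mul, Real.sqrt_mul (Nat.cast_nonneg m), Complex.ofReal_mul, mul_inv]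

private theorem f2_rs_cpow {n : ℕ} : f2_rs n = (n : ℂ) ^ (-(1/2) : ℂ) := by
  show ((Real.sqrt n : ℝ) : ℂ)⁻¹ = _
  rw [Real.sqrt_eq_rpow, Complex.ofReal_cpow (Nat.cast_nonneg n), ← Complex.cpow_neg]
  push_cast
  rfl

private theorem f2_rs_prod {S : Finset ℕ} {n : ℕ} (hn : n ≠ 0) (hS : n.primeFactors ⊆ S) :
    ∏ p ∈ S, f2_rs p ^ n.factorization p = f2_rs n := by
  have h1 : f2_rs n = n.factorization.prod fun p k => f2_rs p ^ k := by
    conv_lhs => rw [← Nat.prod_factorization_pow_eq_self hn]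
    rw [map_finsuppProd]
    refine Finsupp.prod_congr fun p _ => ?_
    rw [map_pow]
  have h2 : n.factorization.support ⊆ S := by rwa [Nat.support_factorization]
  rw [h1, Finsupp.prod_of_support_subset _ h2 _ (fun _ _ => pow_zero _)]

private theorem f2_chi {S : Finset ℕ} {n : ℕ} (hS : n.primeFactors ⊆ S) (X : ℕ → ℂ) :
    chi X n = ∏ p ∈ S, X p ^ n.factorization p := by
  unfold chi
  have h2 : n.factorization.support ⊆ S := by rwa [Nat.support_factorization]
  rw [Finsupp.prod_of_support_subset _ h2 _ (fun _ _ => pow_zero _)]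

private theorem f2_rs_lt {p : ℕ} (hp : p.Prime) : ‖((Real.sqrt p : ℝ) : ℂ)⁻¹‖ < 1 := by
  rw [norm_inv, Complex.norm_real, Real.norm_eq_abs, abs_of_nonneg (Real.sqrt_nonneg _)]
  apply inv_lt_one_of_one_lt₀
  rw [Real.lt_sqrt (by norm_num), one_pow]
  exact_mod_cast hp.one_lt

private theorem f2_ne {c z : ℂ} (hc : ‖c‖ < 1) (hz : ‖z‖ = 1) : 1 - z * c ≠ 0 := by
  intro h
  have h1 : z * c = 1 := (sub_eq_zero.mp h).symm
  have h2 : ‖z * c‖ = 1 := by rw [h1, norm_one]
  rw [norm_mul, hz, one_mul] at h2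
  linarith

theorem torus_first {S : Finset ℕ} (hS : ∀ p ∈ S, p.Prime) {h k : ℕ} (hh : 1 ≤ h) (hk : 1 ≤ k)
    (hhS : h.primeFactors ⊆ S) (hkS : k.primeFactors ⊆ S) :
    ∫ θ, Eu S (Xt θ) * (chi (Xt θ) h * conj (chi (Xt θ) k)) ∂PT =
      if h ∣ k then (((k / h : ℕ) : ℂ)) ^ (-(1/2) : ℂ) else 0 := by
  have hh0 : h ≠ 0 := by omega
  have hk0 : k ≠ 0 := by omega
  let g : ℕ → ℂ → ℂ := fun p x => (1 - x * ((Real.sqrt p : ℝ) : ℂ)⁻¹)⁻¹ *
    (x ^ h.factorization p * conj (x ^ k.factorization p))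
  have e1 : ∀ θ, Eu S (Xt θ) * (chi (Xt θ) h * conj (chi (Xt θ) k)) = ∏ p ∈ S, g p (Xt θ p) := by
    intro θ
    rw [f2_chi hhS, f2_chi hkS, map_prod, ← Finset.prod_mul_distrib]
    unfold Eu
    rw [← Finset.prod_mul_distrib]
  have hg : ∀ p ∈ S, ContinuousOn (g p) (Metric.sphere 0 1) := by
    intro p hp
    refine ContinuousOn.mul (ContinuousOn.inv₀ (by fun_prop) fun z hz => ?_) ?_
    · exact f2_ne (f2_rs_lt (hS p hp)) (by simpa using hz)
    · exact ((continuous_id.pow _).mul (continuous_conj.comp (continuous_id.pow _))).continuousOn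
  rw [integral_congr_ae (Eventually.of_forall e1), torus_prod S g hg]
  have e2 : ∀ p ∈ S, ∫ x, g p (ee x) ∂Ug = if h.factorization p ≤ k.factorization p then
      f2_rs p ^ (k.factorization p - h.factorization p) else 0 := by
    intro p hp
    exact f2_one (f2_rs_lt (hS p hp)) _ _
  rw [Finset.prod_congr rfl e2]
  by_cases hd : h ∣ k
  · rw [if_pos hd, ← f2_rs_cpow]
    have hle := (Nat.factorization_le_iff_dvd hh0 hk0).mpr hd
    have hkh : k / h ≠ 0 := (Nat.div_pos (Nat.le_of_dvd (by omega) hd) (by omega)).ne'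
    rw [← f2_rs_prod hkh ((Nat.primeFactors_mono (Nat.div_dvd_of_dvd hd) hk0).trans hkS)]
    refine Finset.prod_congr rfl fun p _ => ?_
    rw [if_pos (hle p), Nat.factorization_div hd, Finsupp.tsub_apply]
  · rw [if_neg hd]
    have h3 : ¬ h.factorization ≤ k.factorization := fun h4 => hd ((Nat.factorization_le_iff_dvd hh0 hk0).mp h4)
    rw [Finsupp.le_def] at h3
    push Not at h3
    obtain ⟨p, hp⟩ := h3
    have hpS : p ∈ S := by
      apply hhS
      rw [← Nat.support_factorization, Finsupp.mem_support_iff]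
      omega
    exact Finset.prod_eq_zero hpS (if_neg (by omega))

private theorem f2_chi_contX (n : ℕ) : Continuous fun X : ℕ → ℂ => chi X n := by
  unfold chi Finsupp.prod
  exact continuous_finsetProd _ fun p _ => (continuous_apply p).pow _

private theorem f2_chi_bd {X : ℕ → ℂ} (hX : ∀ p, ‖X p‖ = 1) (h k : ℕ) :
    ‖chi X h * conj (chi X k)‖ = 1 := by
  rw [norm_mul, RCLike.norm_conj, chi_norm hX, chi_norm hX, one_mul]

private theorem f2_Eu_cont {S : Finset ℕ} (hS : ∀ p ∈ S, p.Prime) : Continuous fun θ : Om => Eu S (Xt θ) := by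
  unfold Eu
  refine continuous_finsetProd _ fun p hp => Continuous.inv₀ ?_ fun θ => f2_ne (f2_rs_lt (hS p hp)) (norm_Xt θ p)
  exact continuous_const.sub (((continuous_apply p).comp Xt_cont).mul continuous_const)

private theorem f2_Eu_bd {S : Finset ℕ} (hS : ∀ p ∈ S, p.Prime) (θ : Om) :
    ‖Eu S (Xt θ)‖ ≤ ∏ p ∈ S, (1 - ‖((Real.sqrt p : ℝ) : ℂ)⁻¹‖)⁻¹ := by
  unfold Eu
  rw [norm_prod]
  refine Finset.prod_le_prod (fun _ _ => norm_nonneg _) fun p hp => ?_
  have h1 := f2_rs_lt (hS p hp)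
  rw [norm_inv]
  refine inv_anti₀ (by linarith) ?_
  have h2 := norm_sub_norm_le (1 : ℂ) (Xt θ p * ((Real.sqrt p : ℝ) : ℂ)⁻¹)
  rwa [norm_one, norm_mul, norm_Xt, one_mul] at h2

private theorem f2_int_torus {S : Finset ℕ} (hS : ∀ p ∈ S, p.Prime) (h k : ℕ) :
    Integrable (fun θ => Eu S (Xt θ) * (chi (Xt θ) h * conj (chi (Xt θ) k))) PT := by
  have := PT_prob
  refine Integrable.of_bound (Continuous.aestronglyMeasurable ?_) (∏ p ∈ S, (1 - ‖((Real.sqrt p : ℝ) : ℂ)⁻¹‖)⁻¹)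
    (Eventually.of_forall fun θ => ?_)
  · exact (f2_Eu_cont hS).mul (((f2_chi_contX h).comp Xt_cont).mul
      (continuous_conj.comp ((f2_chi_contX k).comp Xt_cont)))
  · rw [norm_mul, f2_chi_bd (norm_Xt θ), mul_one]
    exact f2_Eu_bd hS θ

/-- a double sum -/
private theorem f2_sum {Ωm : Type} [MeasurableSpace Ωm] (μ : Measure Ωm) (Ze : Ωm → ℂ) (Ch : ℕ → Ωm → ℂ) (a b : ℕ → ℂ) (A B : ℕ)
    (hi : ∀ h k, Integrable (fun t => Ze t * (Ch h t * conj (Ch k t))) μ) :
    ∫ t, Ze t * ((∑ h ∈ Finset.range A, a h * Ch h t) * conj (∑ k ∈ Finset.range B, b k * Ch k t)) ∂μ =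
      ∑ h ∈ Finset.range A, ∑ k ∈ Finset.range B, a h * conj (b k) * ∫ t, Ze t * (Ch h t * conj (Ch k t)) ∂μ := by
  have e1 : ∀ t, Ze t * ((∑ h ∈ Finset.range A, a h * Ch h t) * conj (∑ k ∈ Finset.range B, b k * Ch k t)) =
      ∑ h ∈ Finset.range A, ∑ k ∈ Finset.range B, a h * conj (b k) * (Ze t * (Ch h t * conj (Ch k t))) := by
    intro t
    rw [map_sum, Finset.sum_mul_sum, Finset.mul_sum]
    refine Finset.sum_congr rfl fun h _ => ?_
    rw [Finset.mul_sum]
    refine Finset.sum_congr rfl fun k _ => ?_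
    rw [map_mul]
    ring
  rw [integral_congr_ae (Eventually.of_forall e1), integral_finsetSum _ fun h _ =>
    integrable_finsetSum _ fun k _ => (hi h k).const_mul _]
  refine Finset.sum_congr rfl fun h _ => ?_
  rw [integral_finsetSum _ fun k _ => (hi h k).const_mul _]
  refine Finset.sum_congr rfl fun k _ => ?_
  rw [integral_const_mul]

theorem first_dp : ∃ C T0 : ℝ, 0 < C ∧ 2 ≤ T0 ∧ ∀ T : ℝ, T0 ≤ T → ∀ (S : Finset ℕ) (H₁ H₂ : ℕ) (L₁ L₂ : ℝ)
    (F G : (ℕ → ℂ) → ℂ), (∀ p ∈ S, p.Prime) → IsDP S H₁ L₁ F → IsDP S H₂ L₂ G →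
    ‖(∫ t, riemannZeta (1/2 + t * I) * (F (Xp t) * conj (G (Xp t))) ∂mu T) -
      ∫ θ, Eu S (Xt θ) * (F (Xt θ) * conj (G (Xt θ))) ∂PT‖ ≤ C * (L₁ * L₂ * (H₂ : ℝ) ^ 4) / T := by
  obtain ⟨C, T0, hC, hT0, H⟩ := first_tw
  refine ⟨C, max T0 (C + 1), hC, hT0.trans (le_max_left _ _), ?_⟩
  intro T hT S H₁ H₂ L₁ L₂ F G hS ⟨a, ha, haL, hF⟩ ⟨b, hb, hbL, hG⟩
  have hT1 : T0 ≤ T := (le_max_left _ _).trans hT
  have hT2 : C + 1 ≤ T := (le_max_right _ _).trans hT
  have hTpos : 0 < T := by linarith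
  have hmu := mu_prob hTpos
  -- zeta is integrable, otherwise the first moment vanishes
  have hz : Integrable (fun t : ℝ => riemannZeta (1/2 + t * I)) (mu T) := by
    by_contra hcon
    have h1 := H T hT1 1 1 le_rfl le_rfl
    have h2 : (fun t : ℝ => riemannZeta (1/2 + t * I) * (((1 : ℕ) : ℂ) ^ (-(t * I)) * ((1 : ℕ) : ℂ) ^ (t * I))) =
        fun t : ℝ => riemannZeta (1/2 + t * I) := by
      funext t
      simp
    rw [h2, integral_undef hcon] at h1
    simp only [dvd_refl, if_true, Nat.div_one, Nat.cast_one, one_cpow, zero_sub, norm_neg, norm_one,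
      one_pow, mul_one] at h1
    rw [le_div_iff₀ hTpos] at h1
    linarith
  have hi : ∀ h k : ℕ, Integrable (fun t : ℝ => riemannZeta (1/2 + t * I) *
      (chi (Xp t) h * conj (chi (Xp t) k))) (mu T) := by
    intro h k
    refine hz.mul_bdd (c := 1) (Continuous.aestronglyMeasurable ?_) (Eventually.of_forall fun t => ?_)
    · exact ((f2_chi_contX h).comp Xp_cont).mul (continuous_conj.comp ((f2_chi_contX k).comp Xp_cont))
    · exact (f2_chi_bd (norm_Xp t) h k).le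
  have e1 : ∫ t, riemannZeta (1/2 + t * I) * (F (Xp t) * conj (G (Xp t))) ∂mu T =
      ∑ h ∈ Finset.range (H₁ + 1), ∑ k ∈ Finset.range (H₂ + 1), a h * conj (b k) *
        ∫ t, riemannZeta (1/2 + t * I) * (chi (Xp t) h * conj (chi (Xp t) k)) ∂mu T := by
    simp only [hF, hG]
    exact f2_sum (mu T) (fun t => riemannZeta (1/2 + t * I)) (fun h t => chi (Xp t) h) a b _ _ hi
  have e2 : ∫ θ, Eu S (Xt θ) * (F (Xt θ) * conj (G (Xt θ))) ∂PT =
      ∑ h ∈ Finset.range (H₁ + 1), ∑ k ∈ Finset.range (H₂ + 1), a h * conj (b k) *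
        ∫ θ, Eu S (Xt θ) * (chi (Xt θ) h * conj (chi (Xt θ) k)) ∂PT := by
    simp only [hF, hG]
    exact f2_sum PT (fun θ => Eu S (Xt θ)) (fun h θ => chi (Xt θ) h) a b _ _ (f2_int_torus hS)
  rw [e1, e2, ← Finset.sum_sub_distrib]
  have hterm : ∀ h ∈ Finset.range (H₁ + 1), ∀ k ∈ Finset.range (H₂ + 1),
      ‖a h * conj (b k) * (∫ t, riemannZeta (1/2 + t * I) * (chi (Xp t) h * conj (chi (Xp t) k)) ∂mu T) -
        a h * conj (b k) * ∫ θ, Eu S (Xt θ) * (chi (Xt θ) h * conj (chi (Xt θ) k)) ∂PT‖ ≤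
      ‖a h‖ * ‖b k‖ * (C * (H₂ : ℝ) ^ 4 / T) := by
    intro h _ k _
    rw [← mul_sub, norm_mul, norm_mul, RCLike.norm_conj]
    by_cases h1 : a h = 0
    · simp [h1]
    by_cases h2 : b k = 0
    · simp [h2]
    obtain ⟨ha1, ha2, ha3⟩ := ha h h1
    obtain ⟨hb1, hb2, hb3⟩ := hb k h2
    refine mul_le_mul_of_nonneg_left ?_ (by positivity)
    rw [torus_first hS ha1 hb1 ha3 hb3]
    have h3 := H T hT1 h k ha1 hb1
    have h4 : (fun t : ℝ => riemannZeta (1/2 + t * I) * (chi (Xp t) h * conj (chi (Xp t) k))) =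
        fun t : ℝ => riemannZeta (1/2 + t * I) * ((h : ℂ) ^ (-(t * I)) * (k : ℂ) ^ (t * I)) := by
      funext t
      rw [chi_Xp t (by omega), chi_Xp_conj t (by omega)]
    rw [h4]
    refine h3.trans ?_
    have h5 : (k : ℝ) ≤ H₂ := by exact_mod_cast hb2
    gcongr
  refine (norm_sum_le _ _).trans ?_
  have hrow : ∀ h ∈ Finset.range (H₁ + 1),
      ‖(∑ k ∈ Finset.range (H₂ + 1), a h * conj (b k) *
        ∫ t, riemannZeta (1/2 + t * I) * (chi (Xp t) h * conj (chi (Xp t) k)) ∂mu T) -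
      ∑ k ∈ Finset.range (H₂ + 1), a h * conj (b k) *
        ∫ θ, Eu S (Xt θ) * (chi (Xt θ) h * conj (chi (Xt θ) k)) ∂PT‖ ≤
      ‖a h‖ * ∑ k ∈ Finset.range (H₂ + 1), ‖b k‖ * (C * (H₂ : ℝ) ^ 4 / T) := by
    intro h hh
    rw [← Finset.sum_sub_distrib, Finset.mul_sum]
    refine (norm_sum_le _ _).trans (Finset.sum_le_sum fun k hk => ?_)
    rw [← mul_assoc]
    exact hterm h hh k hk
  refine (Finset.sum_le_sum hrow).trans ?_
  rw [← Finset.sum_mul, ← Finset.sum_mul]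
  have hA0 : 0 ≤ ∑ h ∈ Finset.range (H₁ + 1), ‖a h‖ := Finset.sum_nonneg fun _ _ => norm_nonneg _
  have hB0 : 0 ≤ ∑ h ∈ Finset.range (H₂ + 1), ‖b h‖ := Finset.sum_nonneg fun _ _ => norm_nonneg _
  have hL1 : 0 ≤ L₁ := hA0.trans haL
  calc (∑ h ∈ Finset.range (H₁ + 1), ‖a h‖) * ((∑ k ∈ Finset.range (H₂ + 1), ‖b k‖) * (C * (H₂ : ℝ) ^ 4 / T))
      ≤ L₁ * (L₂ * (C * (H₂ : ℝ) ^ 4 / T)) := by gcongr
    _ = C * (L₁ * L₂ * (H₂ : ℝ) ^ 4) / T := by ring

end CZ
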