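import Pool.Agent.Lib.MP_9eae41_pr.E1

set_option autoImplicit false

open Complex MeasureTheory Set Filter Topology
open scoped ComplexConjugate ENNReal

namespace CZ

/-! Row G1 (250 lines): one variable integral. s = p^(-1/2) <= 1/10, w = p^(-z), |w-1| <= 2 |z| log p.
|1/(1-u)| <= exp(Re u + Re u^2/2 + |u|^3) for |u| <= 1/2; so
|Dz| <= exp(2 s Re x Re w + s^2 Re(w^2)(Re x^2 - 1) + C s^3); then with b = c + a Re w (a = 0 or 1)
exp X <= 1 + X + X^2/2 + |X|^3 exp |X| for X = 2 s Re(b x) + s^2 Re(w^2) Re(x^2), whose mean is 0 and whose mean square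
is 2 s^2 |b|^2 + O(s^3). -/

private theorem g1_norm_ee (x : ℝ) : ‖ee x‖ = 1 := by
  unfold ee
  rw [show (2 * (Real.pi : ℂ) * x * I) = ((2 * Real.pi * x : ℝ) : ℂ) * I by push_cast; ring]
  exact Complex.norm_exp_ofReal_mul_I _

private theorem g1_cont_ee : Continuous ee := by
  unfold ee
  fun_prop

private theorem g1_integrable {E : Type*} [NormedAddCommGroup E] {f : ℝ → E} (hf : Continuous f) :
    Integrable f Ug := by
  unfold Ug
  exact hf.integrableOn_Icc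

private theorem g1_int_re (b : ℂ) (k : ℕ) (hk : k ≠ 0) : ∫ x, (b * ee x ^ k).re ∂Ug = 0 := by
  have h1 : ∫ x, (b * ee x ^ k) ∂Ug = 0 := by
    rw [integral_const_mul]
    have := int_ee (k : ℤ)
    rw [if_neg (by exact_mod_cast hk)] at this
    simp only [zpow_natCast] at this
    rw [this, mul_zero]
  have hc : Continuous (fun x => b * ee x ^ k) := continuous_const.mul (g1_cont_ee.pow k)
  have h2 : ∫ x, (b * ee x ^ k).re ∂Ug = (∫ x, (b * ee x ^ k) ∂Ug).re :=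
    integral_re (𝕜 := ℂ) (g1_integrable hc)
  rw [h2, h1, zero_re]

private theorem g1_int_const (c : ℝ) : ∫ _x : ℝ, c ∂Ug = c := by
  haveI := Ug_prob
  simp

private theorem g1_logTaylor (z : ℂ) : logTaylor 3 z = z - z ^ 2 / 2 := by
  simp [logTaylor, Finset.sum_range_succ]
  ring

private theorem g1_inv {u : ℂ} (hu : ‖u‖ ≤ 1 / 2) :
    ‖(1 - u)⁻¹‖ ≤ Real.exp (u.re + (u ^ 2).re / 2 + ‖u‖ ^ 3) := by
  have h0 : (0 : ℝ) ≤ ‖u‖ := norm_nonneg u
  have h1 : ‖log (1 + -u) - logTaylor 3 (-u)‖ ≤ ‖-u‖ ^ 3 * (1 - ‖-u‖)⁻¹ / 3 := by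
    have := norm_log_sub_logTaylor_le 2 (z := -u) (by rw [norm_neg]; linarith)
    norm_num at this ⊢
    exact this
  rw [g1_logTaylor, norm_neg] at h1
  have h2 : (1 - ‖u‖)⁻¹ ≤ 2 := by
    rw [inv_le_comm₀ (by linarith) (by norm_num)]
    linarith
  have h3 : ‖u‖ ^ 3 * (1 - ‖u‖)⁻¹ / 3 ≤ ‖u‖ ^ 3 := by
    have : ‖u‖ ^ 3 * (1 - ‖u‖)⁻¹ ≤ ‖u‖ ^ 3 * 2 := mul_le_mul_of_nonneg_left h2 (by positivity)
    have h4 : (0 : ℝ) ≤ ‖u‖ ^ 3 := by positivity
    linarith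
  have hne : (1 - u) ≠ 0 := by
    intro h
    have : u = 1 := by linear_combination -h
    rw [this] at hu
    norm_num at hu
  have h5 : ‖1 - u‖ = Real.exp (log (1 - u)).re := by
    rw [← Complex.norm_exp, Complex.exp_log hne]
  rw [norm_inv, h5, ← Real.exp_neg]
  apply Real.exp_le_exp.mpr
  have h6 : |(log (1 + -u) - (-u - (-u) ^ 2 / 2)).re| ≤ ‖u‖ ^ 3 :=
    (Complex.abs_re_le_norm _).trans (h1.trans h3)
  rw [← sub_eq_add_neg] at h6
  have h7 := (abs_le.mp h6).1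
  have h8 : (-u - (-u) ^ 2 / 2 : ℂ).re = -u.re - (u ^ 2).re / 2 := by
    rw [show (-u - (-u) ^ 2 / 2 : ℂ) = -u - ((1 / 2 : ℝ) : ℂ) * u ^ 2 by push_cast; ring]
    rw [sub_re, neg_re, re_ofReal_mul]
    ring
  rw [sub_re, h8] at h7
  linarith

private theorem g1_one_sub (t : ℂ) : ‖1 - t‖ ≤ Real.exp (-t.re + ‖t‖ ^ 2 / 2) := by
  have h1 : ‖1 - t‖ ^ 2 = 1 - 2 * t.re + ‖t‖ ^ 2 := by
    rw [← Complex.normSq_eq_norm_sq, ← Complex.normSq_eq_norm_sq, Complex.normSq_apply,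
      Complex.normSq_apply]
    simp only [sub_re, sub_im, one_re, one_im]
    ring
  have h2 : ‖1 - t‖ ^ 2 ≤ (Real.exp (-t.re + ‖t‖ ^ 2 / 2)) ^ 2 := by
    rw [h1, ← Real.exp_nat_mul]
    have := Real.add_one_le_exp (((2 : ℕ) : ℝ) * (-t.re + ‖t‖ ^ 2 / 2))
    push_cast at this ⊢
    linarith
  exact (pow_le_pow_iff_left₀ (norm_nonneg _) (Real.exp_pos _).le two_ne_zero).mp h2

private theorem g1_cpow {p : ℕ} (hp : 1 ≤ p) (z : ℂ) :
    (p : ℂ) ^ (-1 / 2 - z) = (((Real.sqrt p)⁻¹ : ℝ) : ℂ) * exp (-(z * Real.log p)) := by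
  have hp0 : (p : ℂ) ≠ 0 := by exact_mod_cast (by omega : p ≠ 0)
  have hpp : (0 : ℝ) < p := by exact_mod_cast hp
  rw [cpow_def_of_ne_zero hp0, ← natCast_log,
    show ((Real.log p : ℝ) : ℂ) * (-1 / 2 - z) = ((-(Real.log p / 2) : ℝ) : ℂ) + -(z * Real.log p) by
      push_cast; ring, exp_add]
  congr 1
  rw [← ofReal_exp]
  congr 1
  rw [Real.exp_neg, Real.exp_half, Real.exp_log hpp]

private theorem g1_cpow2 {p : ℕ} (hp : 1 ≤ p) (z : ℂ) :
    (p : ℂ) ^ (-1 - 2 * z) = ((((Real.sqrt p)⁻¹ : ℝ) : ℂ) * exp (-(z * Real.log p))) ^ 2 := by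
  rw [← g1_cpow hp, ← cpow_nat_mul]
  congr 1
  push_cast
  ring

/-- pointwise bound of the local factor -/
private theorem g1_Dz {p : ℕ} (hp : 100 ≤ p) {z : ℂ} (hz : ‖z‖ * Real.log p ≤ 1 / 2) {x : ℂ} (hx : ‖x‖ = 1)
    {s : ℝ} (hs : s = (Real.sqrt p)⁻¹) {w : ℂ} (hw : w = exp (-(z * Real.log p)))
    (hs0 : 0 < s) (hs1 : s ≤ 1 / 10) (hw2 : ‖w‖ ≤ 2) :
    ‖Dz z p x‖ ≤ Real.exp (2 * s * w.re * x.re + s ^ 2 * (w ^ 2).re * ((x ^ 2).re - 1) + 17 * s ^ 3) := by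
  have hp1 : 1 ≤ p := by omega
  have e1 : Dz z p x = (1 - (s * w) ^ 2) * ((1 - s * w * x)⁻¹ * (1 - s * w * conj x)⁻¹) := by
    unfold Dz
    rw [g1_cpow hp1, g1_cpow2 hp1, ← hs, ← hw, div_eq_mul_inv, mul_inv,
      mul_comm x ((s : ℂ) * w), mul_comm (conj x) ((s : ℂ) * w)]
  have hsw : ‖(s : ℂ) * w‖ ≤ 2 * s := by
    rw [norm_mul, Complex.norm_real, Real.norm_of_nonneg hs0.le]
    nlinarith
  have hu : ‖(s : ℂ) * w * x‖ ≤ 2 * s := by rw [norm_mul, hx, mul_one]; exact hsw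
  have hv : ‖(s : ℂ) * w * conj x‖ ≤ 2 * s := by
    rw [norm_mul, RCLike.norm_conj, hx, mul_one]; exact hsw
  have h1 := g1_inv (u := (s : ℂ) * w * x) (by linarith)
  have h2 := g1_inv (u := (s : ℂ) * w * conj x) (by linarith)
  have h3 := g1_one_sub (((s : ℂ) * w) ^ 2)
  rw [e1, norm_mul, norm_mul]
  refine (mul_le_mul h3 (mul_le_mul h1 h2 (norm_nonneg _) (Real.exp_pos _).le) (by positivity)
    (Real.exp_pos _).le).trans ?_
  rw [← Real.exp_add, ← Real.exp_add]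
  apply Real.exp_le_exp.mpr
  have c1 : ‖(s : ℂ) * w * x‖ ^ 3 ≤ (2 * s) ^ 3 := pow_le_pow_left₀ (norm_nonneg _) hu 3
  have c2 : ‖(s : ℂ) * w * conj x‖ ^ 3 ≤ (2 * s) ^ 3 := pow_le_pow_left₀ (norm_nonneg _) hv 3
  have c3 : ‖((s : ℂ) * w) ^ 2‖ ^ 2 ≤ (2 * s) ^ 4 := by
    rw [norm_pow, ← pow_mul]
    exact pow_le_pow_left₀ (norm_nonneg _) hsw 4
  have c4 : (2 * s) ^ 4 / 2 ≤ s ^ 3 := by
    have : s ^ 3 * s ≤ s ^ 3 * (1 / 10) := mul_le_mul_of_nonneg_left hs1 (by positivity)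
    nlinarith [pow_pos hs0 3]
  have r1 : ((s : ℂ) * w * x).re + ((s : ℂ) * w * conj x).re = 2 * s * w.re * x.re := by
    simp only [mul_re, ofReal_re, ofReal_im, mul_im, conj_re, conj_im]
    ring
  have r2 : ((((s : ℂ) * w * x) ^ 2).re + (((s : ℂ) * w * conj x) ^ 2).re) / 2 =
      s ^ 2 * (w ^ 2).re * (x ^ 2).re := by
    simp only [pow_two, mul_re, ofReal_re, ofReal_im, mul_im, conj_re, conj_im]
    ring
  have r3 : (((s : ℂ) * w) ^ 2).re = s ^ 2 * (w ^ 2).re := by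
    simp only [pow_two, mul_re, ofReal_re, ofReal_im, mul_im]
    ring
  rw [r3]
  nlinarith

/-- the exponential to second order -/
private theorem g1_exp_le (X : ℝ) : Real.exp X ≤ 1 + X + X ^ 2 / 2 + |X| ^ 3 * Real.exp |X| := by
  have h := norm_exp_sub_sum_le_norm_mul_exp (X : ℂ) 3
  have h2 : (exp (X : ℂ) - ∑ m ∈ Finset.range 3, (X : ℂ) ^ m / (m.factorial : ℂ)) =
      ((Real.exp X - (1 + X + X ^ 2 / 2) : ℝ) : ℂ) := by
    simp [Finset.sum_range_succ]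
  rw [h2, Complex.norm_real, Complex.norm_real, Real.norm_eq_abs, Real.norm_eq_abs] at h
  have := (abs_le.mp h).2
  linarith

/-- pointwise bound of the integrand -/
private theorem g1_point (C0 : ℝ) (hC0 : 0 ≤ C0) {p : ℕ} (hp : 100 ≤ p) {a : ℕ} (ha : a ≤ 1) {c z : ℂ}
    (hc : ‖c‖ ≤ C0) (hz : ‖z‖ * Real.log p ≤ 1 / 2) {x : ℂ} (hx : ‖x‖ = 1)
    {s : ℝ} (hs : s = (Real.sqrt p)⁻¹) {w : ℂ} (hw : w = exp (-(z * Real.log p)))
    (hs0 : 0 < s) (hs1 : s ≤ 1 / 10) (hw2 : ‖w‖ ≤ 2) {b : ℂ} (hb : b = c + ((a * w.re : ℝ) : ℂ)) :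
    Real.exp (2 * (c * x).re / Real.sqrt p) * ‖Dz z p x‖ ^ a ≤
      Real.exp (a * (17 * s ^ 3 - s ^ 2 * (w ^ 2).re)) *
        ((1 + (8 * (C0 + 2) + 1 + (2 * (C0 + 3)) ^ 3 * Real.exp (2 * (C0 + 3))) * s ^ 3 + s ^ 2 * ‖b‖ ^ 2) +
          ((2 * s * b) * x ^ 1).re + ((((a * s ^ 2 * (w ^ 2).re : ℝ) : ℂ) + s ^ 2 * b ^ 2) * x ^ 2).re) := by
  have ha0 : (0 : ℝ) ≤ a := Nat.cast_nonneg a
  have ha1 : (a : ℝ) ≤ 1 := by exact_mod_cast ha
  have h1 := g1_Dz hp hz hx hs hw hs0 hs1 hw2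
  have h2 : ‖Dz z p x‖ ^ a ≤ Real.exp (a * (2 * s * w.re * x.re + s ^ 2 * (w ^ 2).re * ((x ^ 2).re - 1)
      + 17 * s ^ 3)) := by
    rw [Real.exp_nat_mul]
    exact pow_le_pow_left₀ (norm_nonneg _) h1 a
  refine (mul_le_mul_of_nonneg_left h2 (Real.exp_pos _).le).trans ?_
  set Y : ℝ := a * s ^ 2 * (w ^ 2).re * (x ^ 2).re with hY
  set V : ℝ := (b * x).re with hV
  have e1 : 2 * (c * x).re / Real.sqrt p + a * (2 * s * w.re * x.re + s ^ 2 * (w ^ 2).re * ((x ^ 2).re - 1)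
      + 17 * s ^ 3) = a * (17 * s ^ 3 - s ^ 2 * (w ^ 2).re) + (2 * s * V + Y) := by
    have : V = (c * x).re + a * w.re * x.re := by
      rw [hV, hb, add_mul, add_re, re_ofReal_mul]
    rw [this, hY, div_eq_mul_inv, ← hs]
    ring
  rw [← Real.exp_add, e1, Real.exp_add]
  apply mul_le_mul_of_nonneg_left _ (Real.exp_pos _).le
  have hwre : |w.re| ≤ 2 := (Complex.abs_re_le_norm _).trans hw2
  have hw2re : |(w ^ 2).re| ≤ 4 := by
    refine (Complex.abs_re_le_norm _).trans ?_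
    rw [norm_pow]
    nlinarith [norm_nonneg w]
  have hx2re : |(x ^ 2).re| ≤ 1 := by
    refine (Complex.abs_re_le_norm _).trans ?_
    rw [norm_pow, hx]
    norm_num
  have hbn : ‖b‖ ≤ C0 + 2 := by
    rw [hb]
    refine (norm_add_le _ _).trans ?_
    have : ‖((a * w.re : ℝ) : ℂ)‖ ≤ 2 := by
      rw [Complex.norm_real, Real.norm_eq_abs, abs_mul, abs_of_nonneg ha0]
      nlinarith [abs_nonneg w.re]
    linarith
  have hVn : |V| ≤ C0 + 2 := by
    rw [hV]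
    refine (Complex.abs_re_le_norm _).trans ?_
    rw [norm_mul, hx, mul_one]
    exact hbn
  have hYn : |Y| ≤ 4 * s ^ 2 := by
    rw [hY, abs_mul, abs_mul, abs_mul, abs_of_nonneg ha0, abs_of_nonneg (by positivity : (0:ℝ) ≤ s ^ 2)]
    have t1 : (a : ℝ) * s ^ 2 ≤ s ^ 2 := by nlinarith [sq_nonneg s]
    have t2 : (a : ℝ) * s ^ 2 * |(w ^ 2).re| ≤ s ^ 2 * 4 :=
      mul_le_mul t1 hw2re (abs_nonneg _) (sq_nonneg s)
    calc (a : ℝ) * s ^ 2 * |(w ^ 2).re| * |(x ^ 2).re| ≤ s ^ 2 * 4 * 1 :=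
          mul_le_mul t2 hx2re (abs_nonneg _) (by positivity)
      _ = 4 * s ^ 2 := by ring
  have hs2 : s ^ 2 ≤ s / 10 := by nlinarith
  have hX : |2 * s * V + Y| ≤ 2 * (C0 + 3) * s := by
    refine (abs_add_le _ _).trans ?_
    rw [abs_mul, abs_of_nonneg (by positivity : (0:ℝ) ≤ 2 * s)]
    have := mul_le_mul_of_nonneg_left hVn (by positivity : (0:ℝ) ≤ 2 * s)
    nlinarith
  have hX1 : |2 * s * V + Y| ≤ 2 * (C0 + 3) := by
    refine hX.trans ?_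
    nlinarith
  have hE := g1_exp_le (2 * s * V + Y)
  have hE3 : |2 * s * V + Y| ^ 3 * Real.exp |2 * s * V + Y| ≤
      (2 * (C0 + 3)) ^ 3 * Real.exp (2 * (C0 + 3)) * s ^ 3 := by
    have t1 : |2 * s * V + Y| ^ 3 ≤ (2 * (C0 + 3) * s) ^ 3 := pow_le_pow_left₀ (abs_nonneg _) hX 3
    have t2 : Real.exp |2 * s * V + Y| ≤ Real.exp (2 * (C0 + 3)) := Real.exp_le_exp.mpr hX1
    calc _ ≤ (2 * (C0 + 3) * s) ^ 3 * Real.exp (2 * (C0 + 3)) :=
          mul_le_mul t1 t2 (Real.exp_pos _).le (by positivity)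
      _ = _ := by ring
  have hsq : (2 * s * V + Y) ^ 2 / 2 ≤ 2 * s ^ 2 * V ^ 2 + (8 * (C0 + 2) + 1) * s ^ 3 := by
    have t1 : V * Y ≤ (C0 + 2) * (4 * s ^ 2) := by
      calc V * Y ≤ |V * Y| := le_abs_self _
        _ = |V| * |Y| := abs_mul _ _
        _ ≤ _ := mul_le_mul hVn hYn (abs_nonneg _) (by linarith)
    have t2 : Y ^ 2 ≤ (4 * s ^ 2) ^ 2 := by
      rw [← sq_abs Y]
      exact pow_le_pow_left₀ (abs_nonneg _) hYn 2
    have t3 : s ^ 4 ≤ s ^ 3 / 10 := by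
      have := mul_le_mul_of_nonneg_left hs1 (by positivity : (0:ℝ) ≤ s ^ 3)
      nlinarith
    have t4 := mul_le_mul_of_nonneg_left t1 (by positivity : (0:ℝ) ≤ 2 * s)
    have t5 : 0 < s ^ 3 := by positivity
    nlinarith
  have hV2 : 2 * s ^ 2 * V ^ 2 = s ^ 2 * ‖b‖ ^ 2 + (s ^ 2 * b ^ 2 * x ^ 2).re := by
    have t1 : V ^ 2 = (‖b * x‖ ^ 2 + ((b * x) ^ 2).re) / 2 := by
      rw [hV, ← Complex.normSq_eq_norm_sq, Complex.normSq_apply]
      simp only [pow_two (b * x), mul_re (b * x) (b * x)]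
      ring
    have t2 : (s ^ 2 * b ^ 2 * x ^ 2 : ℂ) = ((s ^ 2 : ℝ) : ℂ) * (b * x) ^ 2 := by push_cast; ring
    rw [t1, t2, re_ofReal_mul, norm_mul, hx, mul_one]
    ring
  have hr1 : ((2 * s * b) * x ^ 1 : ℂ).re = 2 * s * V := by
    rw [show ((2 * s * b) * x ^ 1 : ℂ) = ((2 * s : ℝ) : ℂ) * (b * x) by push_cast; ring, re_ofReal_mul]
  have hr2 : ((((a * s ^ 2 * (w ^ 2).re : ℝ) : ℂ) + s ^ 2 * b ^ 2) * x ^ 2).re =
      Y + (s ^ 2 * b ^ 2 * x ^ 2).re := by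
    rw [add_mul, add_re, re_ofReal_mul]
  rw [hr1, hr2]
  linarith

theorem onevar (C0 : ℝ) (hC0 : 0 ≤ C0) : ∃ C : ℝ, 0 < C ∧ ∀ (p : ℕ), 100 ≤ p → ∀ (a : ℕ), a ≤ 1 → ∀ c z : ℂ, ‖c‖ ≤ C0 →
    ‖z‖ * Real.log p ≤ 1/2 →
    ∫ x, Real.exp (2 * (c * ee x).re / Real.sqrt p) * ‖Dz z p (ee x)‖ ^ a ∂Ug ≤
      Real.exp ((‖(a : ℂ) + c‖ ^ 2 - a) / p + C * (‖z‖ * Real.log p / p + (p : ℝ) ^ (-(3/2) : ℝ))) := by
  set C₁ : ℝ := 8 * (C0 + 2) + 1 + (2 * (C0 + 3)) ^ 3 * Real.exp (2 * (C0 + 3)) with hC₁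
  have hC₁0 : 0 < C₁ := by positivity
  refine ⟨4 * C0 + 12 + (C₁ + 17), by positivity, ?_⟩
  intro p hp a ha c z hc hz
  have hp1 : 1 ≤ p := by omega
  have hpR : (100 : ℝ) ≤ p := by exact_mod_cast hp
  have hpp : (0 : ℝ) < p := by linarith
  have ha0 : (0 : ℝ) ≤ a := Nat.cast_nonneg a
  have ha1 : (a : ℝ) ≤ 1 := by exact_mod_cast ha
  obtain ⟨s, hs⟩ : ∃ s : ℝ, s = (Real.sqrt p)⁻¹ := ⟨_, rfl⟩
  obtain ⟨w, hw⟩ : ∃ w : ℂ, w = exp (-(z * Real.log p)) := ⟨_, rfl⟩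
  have hsq : 10 ≤ Real.sqrt p := by
    apply Real.le_sqrt_of_sq_le
    norm_num
    exact hp
  have hs0 : 0 < s := by rw [hs]; positivity
  have hs1 : s ≤ 1 / 10 := by
    rw [hs, inv_le_comm₀ (by linarith) (by norm_num)]
    norm_num
    exact hsq
  have hs2 : s ^ 2 = 1 / p := by
    rw [hs, inv_pow, Real.sq_sqrt hpp.le, one_div]
  have hs3 : s ^ 3 = (p : ℝ) ^ (-(3/2) : ℝ) := by
    rw [hs, Real.sqrt_eq_rpow, ← Real.rpow_neg hpp.le, ← Real.rpow_natCast, ← Real.rpow_mul hpp.le]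
    norm_num
  have hlog : 0 ≤ Real.log p := Real.log_nonneg (by linarith)
  obtain ⟨L, hL⟩ : ∃ L : ℝ, L = ‖z‖ * Real.log p := ⟨_, rfl⟩
  have hL0 : 0 ≤ L := by rw [hL]; positivity
  have hL1 : L ≤ 1 / 2 := by rw [hL]; exact hz
  have hzn : ‖-(z * (Real.log p : ℂ))‖ = L := by
    rw [norm_neg, norm_mul, Complex.norm_real, Real.norm_of_nonneg hlog, hL]
  have hw1 : ‖w - 1‖ ≤ 2 * L := by
    have := Complex.norm_exp_sub_one_le (x := -(z * (Real.log p : ℂ))) (by rw [hzn]; linarith)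
    rw [hzn, ← hw] at this
    exact this
  have hw2 : ‖w‖ ≤ 2 := by
    have h1 : w = (w - 1) + 1 := by ring
    rw [h1]
    refine (norm_add_le _ _).trans ?_
    rw [norm_one]
    linarith
  have hww : ‖w ^ 2 - 1‖ ≤ 6 * L := by
    rw [show w ^ 2 - 1 = (w - 1) * (w + 1) by ring, norm_mul]
    have : ‖w + 1‖ ≤ 3 := (norm_add_le _ _).trans (by rw [norm_one]; linarith)
    calc ‖w - 1‖ * ‖w + 1‖ ≤ (2 * L) * 3 :=
          mul_le_mul hw1 this (norm_nonneg _) (by linarith)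
      _ = 6 * L := by ring
  obtain ⟨b, hb⟩ : ∃ b : ℂ, b = c + ((a * w.re : ℝ) : ℂ) := ⟨_, rfl⟩
  have hpt : ∀ x : ℝ, Real.exp (2 * (c * ee x).re / Real.sqrt p) * ‖Dz z p (ee x)‖ ^ a ≤
      Real.exp (a * (17 * s ^ 3 - s ^ 2 * (w ^ 2).re)) *
        ((1 + C₁ * s ^ 3 + s ^ 2 * ‖b‖ ^ 2) +
          ((2 * s * b) * ee x ^ 1).re + ((((a * s ^ 2 * (w ^ 2).re : ℝ) : ℂ) + s ^ 2 * b ^ 2) * ee x ^ 2).re) :=
    fun x => g1_point C0 hC0 hp ha hc hz (g1_norm_ee x) hs hw hs0 hs1 hw2 hb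
  have hcont1 : Continuous (fun x : ℝ => ((2 * s * b) * ee x ^ 1).re) :=
    Complex.continuous_re.comp (continuous_const.mul (g1_cont_ee.pow 1))
  have hcont2 : Continuous (fun x : ℝ => ((((a * s ^ 2 * (w ^ 2).re : ℝ) : ℂ) + s ^ 2 * b ^ 2) * ee x ^ 2).re) :=
    Complex.continuous_re.comp (continuous_const.mul (g1_cont_ee.pow 2))
  have hint : ∫ x, Real.exp (2 * (c * ee x).re / Real.sqrt p) * ‖Dz z p (ee x)‖ ^ a ∂Ug ≤
      Real.exp (a * (17 * s ^ 3 - s ^ 2 * (w ^ 2).re)) * (1 + C₁ * s ^ 3 + s ^ 2 * ‖b‖ ^ 2) := by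
    refine (integral_mono_of_nonneg (Filter.Eventually.of_forall fun x => by positivity)
      (g1_integrable (by fun_prop)) (Filter.Eventually.of_forall hpt)).trans (le_of_eq ?_)
    rw [integral_const_mul]
    congr 1
    rw [integral_add (g1_integrable (by fun_prop)) (g1_integrable hcont2),
      integral_add (g1_integrable (by fun_prop)) (g1_integrable hcont1), g1_int_re _ 1 one_ne_zero,
      g1_int_re _ 2 two_ne_zero, g1_int_const]
    ring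
  refine hint.trans ?_
  have h5 : 1 + C₁ * s ^ 3 + s ^ 2 * ‖b‖ ^ 2 ≤ Real.exp (C₁ * s ^ 3 + s ^ 2 * ‖b‖ ^ 2) := by
    have := Real.add_one_le_exp (C₁ * s ^ 3 + s ^ 2 * ‖b‖ ^ 2)
    linarith
  refine (mul_le_mul_of_nonneg_left h5 (Real.exp_pos _).le).trans ?_
  rw [← Real.exp_add]
  apply Real.exp_le_exp.mpr
  have hac : ‖(a : ℂ) + c‖ ≤ C0 + 1 := by
    refine (norm_add_le _ _).trans ?_
    rw [Complex.norm_natCast]
    linarith
  have hwre : |w.re - 1| ≤ 2 * L := by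
    have := Complex.abs_re_le_norm (w - 1)
    rw [sub_re, one_re] at this
    exact this.trans hw1
  have hbn : ‖b‖ ≤ ‖(a : ℂ) + c‖ + 2 * L := by
    have h1 : b = ((a : ℂ) + c) + ((a * (w.re - 1) : ℝ) : ℂ) := by
      rw [hb]; push_cast; ring
    rw [h1]
    refine (norm_add_le _ _).trans ?_
    have : ‖((a * (w.re - 1) : ℝ) : ℂ)‖ ≤ 2 * L := by
      rw [Complex.norm_real, Real.norm_eq_abs, abs_mul, abs_of_nonneg ha0]
      nlinarith [abs_nonneg (w.re - 1)]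
    linarith
  have hb2 : ‖b‖ ^ 2 ≤ ‖(a : ℂ) + c‖ ^ 2 + L * (4 * C0 + 6) := by
    have h1 : ‖b‖ ^ 2 ≤ (‖(a : ℂ) + c‖ + 2 * L) ^ 2 := pow_le_pow_left₀ (norm_nonneg _) hbn 2
    have h2 : ‖(a : ℂ) + c‖ * L ≤ (C0 + 1) * L := mul_le_mul_of_nonneg_right hac hL0
    nlinarith
  have hw2re : 1 - 6 * L ≤ (w ^ 2).re := by
    have := Complex.abs_re_le_norm (w ^ 2 - 1)
    rw [sub_re, one_re] at this
    have := (abs_le.mp (this.trans hww)).1
    linarith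
  have h6 : s ^ 2 * ‖b‖ ^ 2 ≤ s ^ 2 * (‖(a : ℂ) + c‖ ^ 2 + L * (4 * C0 + 6)) :=
    mul_le_mul_of_nonneg_left hb2 (sq_nonneg s)
  have h7 : (a : ℝ) * (17 * s ^ 3 - s ^ 2 * (w ^ 2).re) ≤ 17 * s ^ 3 - a * s ^ 2 + 6 * L * s ^ 2 := by
    have t1 : (a : ℝ) * (17 * s ^ 3) ≤ 17 * s ^ 3 := by nlinarith [pow_pos hs0 3]
    have t2 : (a : ℝ) * s ^ 2 * (1 - 6 * L) ≤ a * s ^ 2 * (w ^ 2).re :=
      mul_le_mul_of_nonneg_left hw2re (by positivity)
    have t3 : (a : ℝ) * (s ^ 2 * L) ≤ s ^ 2 * L := by nlinarith [mul_nonneg (sq_nonneg s) hL0]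
    nlinarith
  have h8 : (‖(a : ℂ) + c‖ ^ 2 - a) / p + (4 * C0 + 12 + (C₁ + 17)) * (‖z‖ * Real.log p / p + (p : ℝ) ^ (-(3/2) : ℝ)) =
      s ^ 2 * (‖(a : ℂ) + c‖ ^ 2 - a) + (4 * C0 + 12 + (C₁ + 17)) * (s ^ 2 * L + s ^ 3) := by
    rw [← hs3, hs2, ← hL]
    ring
  rw [h8]
  have t1 : 0 ≤ s ^ 2 * L := by positivity
  have t2 : 0 < s ^ 3 := by positivity
  have t3 : 0 ≤ (C₁ + 17) * (s ^ 2 * L) := by positivity
  have t4 : 0 ≤ (4 * C0 + 12) * s ^ 3 := by positivity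
  nlinarith

/-- Parseval for two absolutely convergent power series -/
private theorem g1_parseval (A B : ℕ → ℝ) (hA : Summable fun m => |A m|) (hB : Summable fun m => |B m|) :
    HasSum (fun m => ((A m * B m : ℝ) : ℂ))
      (∫ x, (∑' m, (A m : ℂ) * ee x ^ m) * conj (∑' m, (B m : ℂ) * ee x ^ m) ∂Ug) := by
  haveI := Ug_prob
  have hpw : ∀ x : ℝ, (∑' m, (A m : ℂ) * ee x ^ m) * conj (∑' m, (B m : ℂ) * ee x ^ m) =
      ∑' i : ℕ × ℕ, ((A i.1 : ℂ) * ee x ^ i.1) * ((B i.2 : ℂ) * conj (ee x ^ i.2)) := by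
    intro x
    have s1 : Summable fun m => ‖(A m : ℂ) * ee x ^ m‖ := by
      refine hA.congr fun m => ?_
      rw [norm_mul, norm_pow, g1_norm_ee, one_pow, mul_one, Complex.norm_real, Real.norm_eq_abs]
    have s2 : Summable fun m => ‖(B m : ℂ) * conj (ee x ^ m)‖ := by
      refine hB.congr fun m => ?_
      rw [norm_mul, RCLike.norm_conj, norm_pow, g1_norm_ee, one_pow, mul_one, Complex.norm_real,
        Real.norm_eq_abs]
    rw [← tsum_mul_tsum_of_summable_norm s1 s2, Complex.conj_tsum]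
    congr 1
    apply tsum_congr
    intro m
    rw [map_mul, Complex.conj_ofReal]
  have hcont : ∀ i : ℕ × ℕ, Continuous (fun x => ((A i.1 : ℂ) * ee x ^ i.1) * ((B i.2 : ℂ) * conj (ee x ^ i.2))) := by
    intro i
    exact (continuous_const.mul (g1_cont_ee.pow _)).mul
      (continuous_const.mul (Complex.continuous_conj.comp (g1_cont_ee.pow _)))
  have hnorm : ∀ (i : ℕ × ℕ) (x : ℝ), ‖((A i.1 : ℂ) * ee x ^ i.1) * ((B i.2 : ℂ) * conj (ee x ^ i.2))‖ =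
      |A i.1| * |B i.2| := by
    intro i x
    rw [norm_mul, norm_mul, norm_mul, RCLike.norm_conj, norm_pow, norm_pow, g1_norm_ee, one_pow, mul_one, one_pow,
      mul_one, Complex.norm_real, Real.norm_eq_abs, Complex.norm_real, Real.norm_eq_abs]
  have hsum : Summable fun i : ℕ × ℕ => |A i.1| * |B i.2| := by
    apply hA.mul_of_nonneg hB
    · intro m; exact abs_nonneg _
    · intro m; exact abs_nonneg _
  have key := hasSum_integral_of_summable_integral_norm (μ := Ug)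
    (F := fun (i : ℕ × ℕ) (x : ℝ) => ((A i.1 : ℂ) * ee x ^ i.1) * ((B i.2 : ℂ) * conj (ee x ^ i.2)))
    (fun i => g1_integrable (hcont i)) (by
      refine hsum.congr fun i => ?_
      simp only [hnorm]
      rw [g1_int_const])
  have hval : ∀ i : ℕ × ℕ, ∫ x, ((A i.1 : ℂ) * ee x ^ i.1) * ((B i.2 : ℂ) * conj (ee x ^ i.2)) ∂Ug =
      if i.1 = i.2 then ((A i.1 * B i.2 : ℝ) : ℂ) else 0 := by
    intro i
    have h1 : ∀ x : ℝ, ((A i.1 : ℂ) * ee x ^ i.1) * ((B i.2 : ℂ) * conj (ee x ^ i.2)) =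
        ((A i.1 * B i.2 : ℝ) : ℂ) * ee x ^ ((i.1 : ℤ) - (i.2 : ℤ)) := by
      intro x
      have hne : ee x ≠ 0 := by
        intro h
        have := g1_norm_ee x
        rw [h, norm_zero] at this
        exact zero_ne_one this
      have hcj : conj (ee x ^ i.2) = (ee x ^ i.2)⁻¹ := by
        rw [Complex.inv_def, Complex.normSq_eq_norm_sq, norm_pow, g1_norm_ee]
        simp
      rw [hcj, zpow_sub₀ hne, zpow_natCast, zpow_natCast]
      push_cast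
      ring
    simp only [h1]
    rw [integral_const_mul, int_ee]
    by_cases h : i.1 = i.2
    · rw [if_pos h, if_pos (by omega), mul_one]
    · rw [if_neg h, if_neg (by omega), mul_zero]
  simp only [hval] at key
  simp only [hpw]
  have hinj : Function.Injective (fun m : ℕ => (m, m)) := fun a b h => (Prod.mk.inj h).1
  have := (hinj.hasSum_iff (f := fun i : ℕ × ℕ => if i.1 = i.2 then ((A i.1 * B i.2 : ℝ) : ℂ) else 0) (by
    intro i hi
    apply if_neg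
    intro h
    exact hi ⟨i.1, by ext <;> simp [h]⟩)).mpr key
  simpa [Function.comp_def] using this

/-- partial sums of the alternating exponential series -/
private noncomputable def g1c (y : ℝ) (m : ℕ) : ℝ := ∑ k ∈ Finset.range (m + 1), (-y) ^ k / (k.factorial : ℝ)

private theorem g1c_nonneg {y : ℝ} (h0 : 0 ≤ y) (h1 : y ≤ 1) (m : ℕ) : 0 ≤ g1c y m := by
  have hs : ∀ m, g1c y (m + 1) = g1c y m + (-y) ^ (m + 1) / ((m + 1).factorial : ℝ) := fun m =>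
    Finset.sum_range_succ _ _
  have hodd : ∀ k, 0 ≤ g1c y (2 * k + 1) := by
    intro k
    induction k with
    | zero =>
      simp [g1c, Finset.sum_range_succ]
      linarith
    | succ k ih =>
      have e : 2 * (k + 1) + 1 = (2 * k + 1 + 1) + 1 := by ring
      rw [e, hs, hs]
      have h2 : (-y) ^ (2 * k + 1 + 1) = y ^ (2 * k + 2) := by
        rw [show 2 * k + 1 + 1 = 2 * k + 2 by ring]
        exact Even.neg_pow ⟨k + 1, by ring⟩ y
      have h3 : (-y) ^ (2 * k + 1 + 1 + 1) = -(y ^ (2 * k + 3)) := by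
        rw [show 2 * k + 1 + 1 + 1 = 2 * k + 3 by ring]
        exact Odd.neg_pow ⟨k + 1, by ring⟩ y
      rw [h2, h3]
      have h4 : y ^ (2 * k + 3) / ((2 * k + 1 + 1 + 1).factorial : ℝ) ≤
          y ^ (2 * k + 2) / ((2 * k + 1 + 1).factorial : ℝ) := by
        apply div_le_div₀ (by positivity) _ (by positivity)
        · exact_mod_cast Nat.factorial_le (by omega)
        · exact pow_le_pow_of_le_one h0 h1 (by omega)
      have h5 : -(y ^ (2 * k + 3)) / ((2 * k + 1 + 1 + 1).factorial : ℝ) =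
          -(y ^ (2 * k + 3) / ((2 * k + 1 + 1 + 1).factorial : ℝ)) := neg_div _ _
      rw [h5]
      linarith
  rcases Nat.even_or_odd m with ⟨k, hk⟩ | ⟨k, hk⟩
  · rcases k with _ | k
    · rw [hk]
      simp [g1c]
    · have e : m = (2 * k + 1) + 1 := by omega
      rw [e, hs]
      have h2 : (-y) ^ (2 * k + 1 + 1) = y ^ (2 * k + 2) := by
        rw [show 2 * k + 1 + 1 = 2 * k + 2 by ring]
        exact Even.neg_pow ⟨k + 1, by ring⟩ y
      rw [h2]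
      have := hodd k
      positivity
  · rw [hk]
    exact hodd k

private theorem g1c_abs {y : ℝ} (h0 : 0 ≤ y) (m : ℕ) : |g1c y m| ≤ Real.exp y := by
  refine (Finset.abs_sum_le_sum_abs _ _).trans ?_
  refine le_trans (le_of_eq ?_) (Real.sum_le_exp_of_nonneg h0 (m + 1))
  apply Finset.sum_congr rfl
  intro k _
  rw [abs_div, abs_pow, abs_neg, abs_of_nonneg h0, abs_of_nonneg (by positivity : (0:ℝ) ≤ (k.factorial : ℝ))]

/-- one variable lower bound used for the first moment: value of the integral of E exp((k-1)x) conj exp(k x) -/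
theorem onevar_first (κ : ℝ) (h0 : 0 < κ) (h1 : κ < 1) (p : ℕ) (hp : 2 ≤ p) :
    ∃ e : ℝ, 1 + κ ^ 2 / p ≤ e ∧
      ∫ x, (1 - ee x * ((Real.sqrt p : ℝ) : ℂ)⁻¹)⁻¹ * exp (((κ - 1 : ℝ) : ℂ) * ee x * ((Real.sqrt p : ℝ) : ℂ)⁻¹) *
        conj (exp ((κ : ℂ) * ee x * ((Real.sqrt p : ℝ) : ℂ)⁻¹)) ∂Ug = (e : ℂ) := by
  have hpR : (2 : ℝ) ≤ p := by exact_mod_cast hp
  have hpp : (0 : ℝ) < p := by linarith
  obtain ⟨s, hs⟩ : ∃ s : ℝ, s = (Real.sqrt p)⁻¹ := ⟨_, rfl⟩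
  have hsqp : 0 < Real.sqrt p := Real.sqrt_pos.mpr hpp
  have hs0 : 0 < s := by rw [hs]; positivity
  have hs2 : s ^ 2 = 1 / p := by rw [hs, inv_pow, Real.sq_sqrt hpp.le, one_div]
  have hs1 : s < 1 := by
    have : s ^ 2 < 1 := by
      rw [hs2, div_lt_one hpp]
      linarith
    nlinarith
  have hsc : ((Real.sqrt p : ℝ) : ℂ)⁻¹ = (s : ℂ) := by rw [hs]; push_cast; rfl
  rw [hsc]
  set A : ℕ → ℝ := fun m => g1c (1 - κ) m * s ^ m with hAdef
  set B : ℕ → ℝ := fun m => (κ * s) ^ m / (m.factorial : ℝ) with hBdef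
  have hA : Summable fun m => |A m| := by
    refine Summable.of_nonneg_of_le (fun m => abs_nonneg _) (fun m => ?_)
      ((summable_geometric_of_lt_one hs0.le hs1).mul_left (Real.exp (1 - κ)))
    rw [hAdef]
    simp only
    rw [abs_mul, abs_of_nonneg (by positivity : (0:ℝ) ≤ s ^ m)]
    exact mul_le_mul_of_nonneg_right (g1c_abs (by linarith) m) (by positivity)
  have hB0 : ∀ m, 0 ≤ B m := fun m => by rw [hBdef]; positivity
  have hB : Summable fun m => |B m| := by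
    refine (Real.summable_pow_div_factorial (κ * s)).congr fun m => ?_
    exact (abs_of_nonneg (hB0 m)).symm
  have hF : ∀ x : ℝ, (1 - ee x * (s : ℂ))⁻¹ * exp (((κ - 1 : ℝ) : ℂ) * ee x * (s : ℂ)) =
      ∑' m, (A m : ℂ) * ee x ^ m := by
    intro x
    obtain ⟨u, hu⟩ : ∃ u : ℂ, u = ee x * (s : ℂ) := ⟨_, rfl⟩
    have hun : ‖u‖ < 1 := by
      rw [hu, norm_mul, g1_norm_ee, one_mul, Complex.norm_real, Real.norm_of_nonneg hs0.le]
      exact hs1
    have e1 : ((κ - 1 : ℝ) : ℂ) * ee x * (s : ℂ) = ((κ - 1 : ℝ) : ℂ) * u := by rw [hu]; ring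
    rw [e1, ← hu, mul_comm, ← (hasSum_geometric_of_norm_lt_one hun).tsum_eq]
    have h2 : exp (((κ - 1 : ℝ) : ℂ) * u) = ∑' n : ℕ, (((κ - 1 : ℝ) : ℂ) * u) ^ n / (n.factorial : ℂ) := by
      have := NormedSpace.expSeries_div_hasSum_exp (((κ - 1 : ℝ) : ℂ) * u)
      rw [← Complex.exp_eq_exp_ℂ] at this
      exact this.tsum_eq.symm
    rw [h2, tsum_mul_tsum_eq_tsum_sum_range_of_summable_norm
      (NormedSpace.norm_expSeries_div_summable _) (summable_norm_geometric_of_norm_lt_one hun)]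
    apply tsum_congr
    intro m
    have h3 : (A m : ℂ) * ee x ^ m = ((g1c (1 - κ) m : ℝ) : ℂ) * u ^ m := by
      rw [hu, mul_pow, hAdef]
      push_cast
      ring
    rw [h3, g1c]
    push_cast
    rw [Finset.sum_mul]
    apply Finset.sum_congr rfl
    intro k hk
    have hk' : k ≤ m := by
      have := Finset.mem_range.mp hk
      omega
    have h4 : u ^ m = u ^ k * u ^ (m - k) := by rw [← pow_add, Nat.add_sub_cancel' hk']
    rw [h4, mul_pow, show (-(1 - (κ : ℂ))) = (κ : ℂ) - 1 by ring]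
    ring
  have hG : ∀ x : ℝ, exp ((κ : ℂ) * ee x * (s : ℂ)) = ∑' m, (B m : ℂ) * ee x ^ m := by
    intro x
    have := NormedSpace.expSeries_div_hasSum_exp ((κ : ℂ) * ee x * (s : ℂ))
    rw [← Complex.exp_eq_exp_ℂ] at this
    rw [← this.tsum_eq]
    apply tsum_congr
    intro m
    rw [hBdef]
    push_cast
    ring
  have key := g1_parseval A B hA hB
  have key2 : HasSum (fun m => A m * B m) (∑' m, A m * B m) := by
    apply Summable.hasSum
    refine Summable.of_norm_bounded (g := fun m => |A m| * Real.exp (κ * s)) (hA.mul_right _) (fun m => ?_)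
    rw [norm_mul, Real.norm_eq_abs]
    apply mul_le_mul_of_nonneg_left _ (abs_nonneg _)
    rw [Real.norm_of_nonneg (hB0 m)]
    exact (Real.pow_div_factorial_le_exp (κ * s) (by positivity) m)
  refine ⟨∑' m, A m * B m, ?_, ?_⟩
  · have hnn : ∀ m, m ∉ Finset.range 2 → 0 ≤ A m * B m := by
      intro m _
      apply mul_nonneg _ (hB0 m)
      exact mul_nonneg (g1c_nonneg (by linarith) (by linarith) m) (by positivity)
    have := sum_le_hasSum (Finset.range 2) hnn key2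
    have e : ∑ m ∈ Finset.range 2, A m * B m = 1 + κ ^ 2 * s ^ 2 := by
      simp [Finset.sum_range_succ, hAdef, hBdef, g1c]
      ring
    rw [e, hs2] at this
    rw [div_eq_mul_one_div]
    exact this
  · simp only [hF, hG]
    have h5 := Complex.hasSum_ofReal.mpr key2
    exact key.unique h5

end CZ
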