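import Pool.Agent.Lib.MP_9eae41_pr.G1

set_option autoImplicit false

open Complex MeasureTheory Set Filter Topology
open scoped ComplexConjugate ENNReal

namespace CZ

/-! Row H1 (200 lines): exponentials over one block (torus_prod_real and onevar). -/

theorem Er_nonneg (z : ℂ) (s : Finset ℕ) : 0 ≤ Er z s := by
  unfold Er
  refine Finset.sum_nonneg fun p _ => ?_
  have h1 : 0 ≤ Real.log p := Real.log_natCast_nonneg p
  have h2 : (0 : ℝ) ≤ p := Nat.cast_nonneg p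
  have h3 : 0 ≤ (p : ℝ) ^ (-(3/2) : ℝ) := Real.rpow_nonneg h2 _
  positivity

theorem Er_le {z : ℂ} {s : Finset ℕ} (h : Bk z s) : Er z s ≤ 2 := by
  unfold Er
  have h1 : ∀ p ∈ s, (‖z‖ * Real.log p / p + (p : ℝ) ^ (-(3/2) : ℝ)) ≤ 2 * ((1 : ℝ) / p) := by
    intro p hp
    obtain ⟨_, h100, hz⟩ := h.1 p hp
    have hp1 : (1 : ℝ) ≤ p := by exact_mod_cast (by omega : 1 ≤ p)
    have hp0 : (0 : ℝ) < p := by linarith
    have e1 : ‖z‖ * Real.log p / p ≤ (1/2) / p := by gcongr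
    have e2 : (p : ℝ) ^ (-(3/2) : ℝ) ≤ (p : ℝ) ^ (-1 : ℝ) :=
      Real.rpow_le_rpow_of_exponent_le hp1 (by norm_num)
    rw [Real.rpow_neg_one] at e2
    have e3 : (1/2 : ℝ) / p = 1/2 * (1 / p) := by ring
    have e4 : (p : ℝ)⁻¹ = 1 / p := by rw [one_div]
    rw [e3] at e1
    rw [e4] at e2
    have e5 : (0 : ℝ) ≤ 1 / p := by positivity
    linarith
  calc ∑ p ∈ s, (‖z‖ * Real.log p / p + (p : ℝ) ^ (-(3/2) : ℝ)) ≤ ∑ p ∈ s, 2 * ((1 : ℝ) / p) :=
        Finset.sum_le_sum h1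
    _ = 2 * ∑ p ∈ s, (1 : ℝ) / p := by rw [Finset.mul_sum]
    _ ≤ 2 * 1 := by gcongr; exact h.2
    _ = 2 := by norm_num

private theorem h1_norm_z {z : ℂ} {s : Finset ℕ} (h : Bk z s) {p : ℕ} (hp : p ∈ s) : ‖z‖ ≤ 1/4 := by
  obtain ⟨_, h100, hz⟩ := h.1 p hp
  have h2 : (2 : ℝ) ≤ Real.log p := by
    rw [Real.le_log_iff_exp_le (by exact_mod_cast (by omega : 0 < p))]
    have h3 : Real.exp 2 ≤ 9 := by
      have h4 : Real.exp 1 ≤ 3 := by
        have := Real.exp_one_lt_d9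
        linarith
      calc Real.exp 2 = Real.exp 1 * Real.exp 1 := by rw [← Real.exp_add]; norm_num
        _ ≤ 3 * 3 := by gcongr
        _ = 9 := by norm_num
    have h5 : (100 : ℝ) ≤ p := by exact_mod_cast h100
    linarith
  nlinarith [norm_nonneg z]

/-- the one variable factor -/
private noncomputable def h1_g (z : ℂ) (a : ℕ) (c : ℕ → ℂ) (p : ℕ) (x : ℂ) : ℝ :=
  Real.exp (2 * (c p * x).re / Real.sqrt p) * ‖Dz z p x‖ ^ a

private theorem h1_g_nonneg (z : ℂ) (a : ℕ) (c : ℕ → ℂ) (p : ℕ) (x : ℂ) : 0 ≤ h1_g z a c p x := by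
  unfold h1_g
  positivity

private theorem h1_g_cont {z : ℂ} {s : Finset ℕ} (h : Bk z s) (a : ℕ) (c : ℕ → ℂ) {p : ℕ} (hp : p ∈ s) :
    ContinuousOn (h1_g z a c p) (Metric.sphere 0 1) := by
  unfold h1_g
  refine ContinuousOn.mul ?_ ?_
  · exact (by fun_prop : Continuous fun x : ℂ =>
      Real.exp (2 * (c p * x).re / Real.sqrt p)).continuousOn
  · exact ((Dz_cont (h1_norm_z h hp) (h.1 p hp).1).norm).pow a

private theorem h1_exp_re (s : Finset ℕ) (c : ℕ → ℂ) (X : ℕ → ℂ) :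
    Real.exp (2 * (Ps s c X).re) = ∏ p ∈ s, Real.exp (2 * (c p * X p).re / Real.sqrt p) := by
  rw [← Real.exp_sum]
  congr 1
  unfold Ps
  rw [Complex.re_sum, Finset.mul_sum]
  refine Finset.sum_congr rfl fun p _ => ?_
  have : ((((Real.sqrt p : ℝ) : ℂ))⁻¹) = (((Real.sqrt p)⁻¹ : ℝ) : ℂ) := by push_cast; rfl
  rw [this, Complex.re_mul_ofReal]
  ring

private theorem h1_integrand (z : ℂ) (s : Finset ℕ) (a : ℕ) (c : ℕ → ℂ) (X : ℕ → ℂ) :
    Real.exp (2 * (Ps s c X).re) * DD a z s X = ∏ p ∈ s, h1_g z a c p (X p) := by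
  unfold DD h1_g
  rw [h1_exp_re, Finset.prod_mul_distrib, Finset.prod_pow]

private theorem h1_comp_cont {f : ℂ → ℝ} (hf : ContinuousOn f (Metric.sphere 0 1)) (p : ℕ) :
    Continuous (fun θ : Om => f (Xt θ p)) := by
  refine hf.comp_continuous ((continuous_apply p).comp Xt_cont) fun θ => ?_
  rw [mem_sphere_zero_iff_norm]
  exact norm_Xt θ p

private theorem h1_prod_integrable (s : Finset ℕ) (g : ℕ → ℂ → ℝ)
    (hg : ∀ p ∈ s, ContinuousOn (g p) (Metric.sphere 0 1)) :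
    Integrable (fun θ : Om => ∏ p ∈ s, g p (Xt θ p)) PT := by
  have := PT_prob
  have hb : ∀ p ∈ s, ∃ C : ℝ, ∀ x ∈ Metric.sphere (0 : ℂ) 1, ‖g p x‖ ≤ C := by
    intro p hp
    exact (isCompact_sphere (0 : ℂ) 1).exists_bound_of_continuousOn (hg p hp)
  choose! C hC using hb
  have hcont : Continuous (fun θ : Om => ∏ p ∈ s, g p (Xt θ p)) :=
    continuous_finsetProd s fun p hp => h1_comp_cont (hg p hp) p
  refine Integrable.of_bound hcont.measurable.aestronglyMeasurable (∏ p ∈ s, C p) ?_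
  refine Filter.Eventually.of_forall fun θ => ?_
  rw [norm_prod]
  refine Finset.prod_le_prod (fun p _ => norm_nonneg _) fun p hp => ?_
  refine hC p hp _ ?_
  rw [mem_sphere_zero_iff_norm]
  exact norm_Xt θ p

theorem blk_exp (C0 : ℝ) (hC0 : 0 ≤ C0) : ∃ C : ℝ, 0 < C ∧ ∀ (z : ℂ) (s : Finset ℕ), Bk z s → ∀ (a : ℕ), a ≤ 1 →
    ∀ c : ℕ → ℂ, (∀ p, ‖c p‖ ≤ C0) →
    ∫ θ, Real.exp (2 * (Ps s c (Xt θ)).re) * DD a z s (Xt θ) ∂PT ≤ Real.exp (Sb a c s + C * Er z s) := by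
  obtain ⟨C, hC, hone⟩ := onevar C0 hC0
  refine ⟨C, hC, fun z s h a ha c hc => ?_⟩
  have h1 : ∫ θ, Real.exp (2 * (Ps s c (Xt θ)).re) * DD a z s (Xt θ) ∂PT =
      ∏ p ∈ s, ∫ x, h1_g z a c p (ee x) ∂Ug := by
    rw [← torus_prod_real s (h1_g z a c) fun p hp => h1_g_cont h a c hp]
    exact integral_congr_ae (Filter.Eventually.of_forall fun θ => h1_integrand z s a c (Xt θ))
  rw [h1]
  have h2 : Real.exp (Sb a c s + C * Er z s) = ∏ p ∈ s, Real.exp ((‖(a : ℂ) + c p‖ ^ 2 - a) / p +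
      C * (‖z‖ * Real.log p / p + (p : ℝ) ^ (-(3/2) : ℝ))) := by
    rw [← Real.exp_sum]
    congr 1
    unfold Sb Er
    rw [Finset.mul_sum, ← Finset.sum_add_distrib]
  rw [h2]
  refine Finset.prod_le_prod (fun p _ => integral_nonneg fun x => h1_g_nonneg z a c p _) fun p hp => ?_
  obtain ⟨_, h100, hz⟩ := h.1 p hp
  exact hone p h100 a ha (c p) z (hc p) hz

private theorem h1_exp_norm (w : ℂ) : Real.exp ‖w‖ ≤
    Real.exp (Real.sqrt 2 * w.re) + Real.exp (Real.sqrt 2 * (-w.re)) +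
    Real.exp (Real.sqrt 2 * w.im) + Real.exp (Real.sqrt 2 * (-w.im)) := by
  have hle : ‖w‖ ≤ Real.sqrt 2 * max |w.re| |w.im| := Complex.norm_le_sqrt_two_mul_max w
  have h1 : Real.exp ‖w‖ ≤ Real.exp (Real.sqrt 2 * max |w.re| |w.im|) := Real.exp_le_exp.2 hle
  have p1 := Real.exp_pos (Real.sqrt 2 * w.re)
  have p2 := Real.exp_pos (Real.sqrt 2 * (-w.re))
  have p3 := Real.exp_pos (Real.sqrt 2 * w.im)
  have p4 := Real.exp_pos (Real.sqrt 2 * (-w.im))
  rcases max_choice |w.re| |w.im| with hm | hm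
  · rw [hm] at h1
    rcases abs_choice w.re with ha | ha
    · rw [ha] at h1; linarith
    · rw [ha] at h1; linarith
  · rw [hm] at h1
    rcases abs_choice w.im with ha | ha
    · rw [ha] at h1; linarith
    · rw [ha] at h1; linarith

private theorem h1_Ps_smul (s : Finset ℕ) (u : ℂ) (c : ℕ → ℂ) (X : ℕ → ℂ) :
    Ps s (fun p => u * c p) X = u * Ps s c X := by
  unfold Ps
  rw [Finset.mul_sum]
  exact Finset.sum_congr rfl fun p _ => by ring

private theorem h1_dir (w u : ℂ) : 2 * ((((Real.sqrt 2)⁻¹ : ℝ) : ℂ) * u * w).re = Real.sqrt 2 * (u * w).re := by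
  have h2 : Real.sqrt 2 * Real.sqrt 2 = 2 := Real.mul_self_sqrt (by norm_num)
  have h3 : Real.sqrt 2 ≠ 0 := by positivity
  rw [mul_assoc, Complex.re_ofReal_mul]
  have h4 : 2 * (Real.sqrt 2)⁻¹ = Real.sqrt 2 := by
    field_simp
    linarith
  rw [← mul_assoc, h4]

/-- crude bound for exponential moments: exp(x) <= sum over the four directions u of exp(sqrt 2 Re(u P)) -/
theorem blk_crude (C0 : ℝ) (hC0 : 0 ≤ C0) : ∃ C : ℝ, 0 < C ∧ ∀ (z : ℂ) (s : Finset ℕ), Bk z s → ∀ (a : ℕ), a ≤ 1 →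
    ∀ c : ℕ → ℂ, (∀ p, ‖c p‖ ≤ C0) →
    ∫ θ, Real.exp ‖Ps s c (Xt θ)‖ * DD a z s (Xt θ) ∂PT ≤ C := by
  obtain ⟨C, hC, hexp⟩ := blk_exp C0 hC0
  refine ⟨4 * Real.exp ((1 + C0) ^ 2 + C * 2), by positivity, fun z s h a ha c hc => ?_⟩
  -- the four directions
  set r2 : ℂ := (((Real.sqrt 2)⁻¹ : ℝ) : ℂ) with hr2
  have hr2n : ‖r2‖ ≤ 1 := by
    rw [hr2, Complex.norm_real, Real.norm_eq_abs, abs_of_nonneg (by positivity)]
    apply inv_le_one_of_one_le₀
    rw [Real.one_le_sqrt]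
    norm_num
  set F : ℂ → Om → ℝ := fun u θ =>
    Real.exp (2 * (Ps s (fun p => r2 * u * c p) (Xt θ)).re) * DD a z s (Xt θ) with hF
  have hFint : ∀ u : ℂ, Integrable (F u) PT := by
    intro u
    have := h1_prod_integrable s (h1_g z a (fun p => r2 * u * c p)) fun p hp => h1_g_cont h a _ hp
    refine this.congr (Filter.Eventually.of_forall fun θ => ?_)
    exact (h1_integrand z s a _ (Xt θ)).symm
  have hFle : ∀ u : ℂ, ‖u‖ ≤ 1 → ∫ θ, F u θ ∂PT ≤ Real.exp ((1 + C0) ^ 2 + C * 2) := by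
    intro u hu
    have hcu : ∀ p, ‖r2 * u * c p‖ ≤ C0 := by
      intro p
      rw [norm_mul, norm_mul]
      calc ‖r2‖ * ‖u‖ * ‖c p‖ ≤ 1 * 1 * C0 := by
            gcongr
            exact hc p
        _ = C0 := by ring
    refine (hexp z s h a ha _ hcu).trans ?_
    apply Real.exp_le_exp.2
    have hE := Er_le h
    have hS : Sb a (fun p => r2 * u * c p) s ≤ (1 + C0) ^ 2 := by
      unfold Sb
      calc ∑ p ∈ s, (‖(a : ℂ) + r2 * u * c p‖ ^ 2 - a) / p ≤ ∑ p ∈ s, (1 + C0) ^ 2 * ((1 : ℝ) / p) := by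
            refine Finset.sum_le_sum fun p hp => ?_
            have hp0 : (0 : ℝ) < p := by exact_mod_cast (h.1 p hp).1.pos
            rw [mul_one_div]
            have h3 : ‖(a : ℂ) + r2 * u * c p‖ ≤ 1 + C0 := by
              refine (norm_add_le _ _).trans (add_le_add ?_ (hcu p))
              rw [Complex.norm_natCast]
              exact_mod_cast ha
            have h4 : (0 : ℝ) ≤ a := Nat.cast_nonneg a
            have h5 : ‖(a : ℂ) + r2 * u * c p‖ ^ 2 ≤ (1 + C0) ^ 2 := by gcongr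
            gcongr
            linarith
        _ = (1 + C0) ^ 2 * ∑ p ∈ s, (1 : ℝ) / p := by rw [Finset.mul_sum]
        _ ≤ (1 + C0) ^ 2 * 1 := by gcongr; exact h.2
        _ = (1 + C0) ^ 2 := by ring
    nlinarith
  have hpt : ∀ θ : Om, Real.exp ‖Ps s c (Xt θ)‖ * DD a z s (Xt θ) ≤
      F 1 θ + F (-1) θ + F (-I) θ + F I θ := by
    intro θ
    have hD : 0 ≤ DD a z s (Xt θ) := by
      unfold DD
      exact pow_nonneg (Finset.prod_nonneg fun p _ => norm_nonneg _) a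
    have hdir : ∀ u : ℂ, F u θ = Real.exp (Real.sqrt 2 * (u * Ps s c (Xt θ)).re) * DD a z s (Xt θ) := by
      intro u
      rw [hF]
      simp only
      rw [h1_Ps_smul, ← h1_dir]
    rw [hdir, hdir, hdir, hdir, ← add_mul, ← add_mul, ← add_mul]
    refine mul_le_mul_of_nonneg_right ?_ hD
    have := h1_exp_norm (Ps s c (Xt θ))
    have e1 : (1 * Ps s c (Xt θ)).re = (Ps s c (Xt θ)).re := by rw [one_mul]
    have e2 : (-1 * Ps s c (Xt θ)).re = -(Ps s c (Xt θ)).re := by rw [neg_one_mul, Complex.neg_re]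
    have e3 : (-I * Ps s c (Xt θ)).re = (Ps s c (Xt θ)).im := by
      rw [neg_mul, Complex.neg_re, Complex.I_mul_re, neg_neg]
    have e4 : (I * Ps s c (Xt θ)).re = -(Ps s c (Xt θ)).im := by rw [Complex.I_mul_re]
    rw [e1, e2, e3, e4]
    exact this
  have hint : Integrable (fun θ => F 1 θ + F (-1) θ + F (-I) θ + F I θ) PT :=
    (((hFint 1).add (hFint (-1))).add (hFint (-I))).add (hFint I)
  calc ∫ θ, Real.exp ‖Ps s c (Xt θ)‖ * DD a z s (Xt θ) ∂PT
      ≤ ∫ θ, (F 1 θ + F (-1) θ + F (-I) θ + F I θ) ∂PT := by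
        refine integral_mono_of_nonneg (Filter.Eventually.of_forall fun θ => ?_) hint
          (Filter.Eventually.of_forall hpt)
        refine mul_nonneg (Real.exp_pos _).le ?_
        unfold DD
        exact pow_nonneg (Finset.prod_nonneg fun p _ => norm_nonneg _) a
    _ = ∫ θ, F 1 θ ∂PT + ∫ θ, F (-1) θ ∂PT + ∫ θ, F (-I) θ ∂PT + ∫ θ, F I θ ∂PT := by
        have i1 : Integrable (fun θ => F 1 θ + F (-1) θ) PT := (hFint 1).add (hFint (-1))
        have i2 : Integrable (fun θ => F 1 θ + F (-1) θ + F (-I) θ) PT := i1.add (hFint (-I))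
        rw [integral_add i2 (hFint I), integral_add i1 (hFint (-I)), integral_add (hFint 1) (hFint (-1))]
    _ ≤ 4 * Real.exp ((1 + C0) ^ 2 + C * 2) := by
        have g1 := hFle 1 (by simp)
        have g2 := hFle (-1) (by simp)
        have g3 := hFle (-I) (by simp)
        have g4 := hFle I (by simp)
        linarith

theorem Sb_lower {z : ℂ} {s : Finset ℕ} (h : Bk z s) {a : ℕ} (ha : a ≤ 1) (c : ℕ → ℂ) : -1 ≤ Sb a c s := by
  unfold Sb
  have h1 : ∑ p ∈ s, (-1 : ℝ) * ((1 : ℝ) / p) ≤ ∑ p ∈ s, (‖(a : ℂ) + c p‖ ^ 2 - a) / p := by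
    refine Finset.sum_le_sum fun p hp => ?_
    have hp0 : (0 : ℝ) < p := by exact_mod_cast (h.1 p hp).1.pos
    rw [mul_one_div]
    have h2 : (a : ℝ) ≤ 1 := by exact_mod_cast ha
    have h3 : 0 ≤ ‖(a : ℂ) + c p‖ ^ 2 := by positivity
    gcongr
    linarith
  rw [← Finset.mul_sum] at h1
  have := h.2
  linarith

/-- continuity of the basic torus functions (for integrability) -/
theorem Ps_Xt_cont (s : Finset ℕ) (c : ℕ → ℂ) : Continuous (fun θ : Om => Ps s c (Xt θ)) := by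
  unfold Ps
  refine continuous_finsetSum s fun p _ => ?_
  exact (continuous_const.mul ((continuous_apply p).comp Xt_cont)).mul continuous_const

theorem DD_Xt_cont {z : ℂ} (hz : ‖z‖ ≤ 1/4) {s : Finset ℕ} (hs : ∀ p ∈ s, p.Prime) (a : ℕ) :
    Continuous (fun θ : Om => DD a z s (Xt θ)) := by
  unfold DD
  refine (continuous_finsetProd s fun p hp => ?_).pow a
  exact h1_comp_cont (Dz_cont hz (hs p hp)).norm p

theorem DD_nonneg (a : ℕ) (z : ℂ) (s : Finset ℕ) (X : ℕ → ℂ) : 0 ≤ DD a z s X := by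
  unfold DD
  exact pow_nonneg (Finset.prod_nonneg fun p _ => norm_nonneg _) a

end CZ
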