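import Pool.Agent.Lib.MP_9eae41_pr.D0

set_option autoImplicit false

open Complex MeasureTheory Set Filter Topology
open scoped ComplexConjugate ENNReal

namespace CZ

/-! Row J1 (150 lines): truncated exponentials. Sum over k > K of x^k/k! <= exp(-K) exp(e x) <= exp(-K) exp(3x). -/

theorem Ek_sub (K : ℕ) (w : ℂ) : ‖Ek K w - exp w‖ ≤ Real.exp (-K) * Real.exp (3 * ‖w‖) := by
  have hf : HasSum (fun k : ℕ => w ^ k / (k.factorial : ℂ)) (exp w) := by
    rw [Complex.exp_eq_exp_ℂ]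
    exact NormedSpace.expSeries_div_hasSum_exp w
  have hg : HasSum (fun k : ℕ => (3 * ‖w‖) ^ k / (k.factorial : ℝ)) (Real.exp (3 * ‖w‖)) := by
    rw [Real.exp_eq_exp_ℝ]
    exact NormedSpace.expSeries_div_hasSum_exp (3 * ‖w‖)
  have hf' := (hasSum_nat_add_iff' (K + 1)).2 hf
  have hg' := ((hasSum_nat_add_iff' (K + 1)).2 hg).mul_left (Real.exp (-K))
  have hn : ‖exp w - ∑ i ∈ Finset.range (K + 1), w ^ i / (i.factorial : ℂ)‖ ≤
      Real.exp (-K) * (Real.exp (3 * ‖w‖) -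
        ∑ i ∈ Finset.range (K + 1), (3 * ‖w‖) ^ i / (i.factorial : ℝ)) := by
    refine hf'.norm_le_of_bounded hg' fun k => ?_
    rw [norm_div, norm_pow, Complex.norm_natCast, mul_pow, ← mul_div_assoc]
    refine div_le_div_of_nonneg_right ?_ (by positivity)
    have h3 : (1 : ℝ) ≤ Real.exp (-K) * 3 ^ (k + (K + 1)) := by
      have h4 : Real.exp (K : ℝ) ≤ 3 ^ (k + (K + 1)) := by
        have h5 : Real.exp (K : ℝ) = Real.exp 1 ^ K := by
          rw [← Real.exp_nat_mul, mul_one]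
        rw [h5]
        calc Real.exp 1 ^ K ≤ 3 ^ K := by
              refine pow_le_pow_left₀ (Real.exp_pos _).le ?_ _
              have := Real.exp_one_lt_d9
              linarith
          _ ≤ 3 ^ (k + (K + 1)) := pow_le_pow_right₀ (by norm_num) (by omega)
      calc (1 : ℝ) = Real.exp (-K) * Real.exp K := by rw [← Real.exp_add]; simp
        _ ≤ _ := mul_le_mul_of_nonneg_left h4 (Real.exp_pos _).le
    calc ‖w‖ ^ (k + (K + 1)) = 1 * ‖w‖ ^ (k + (K + 1)) := (one_mul _).symm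
      _ ≤ (Real.exp (-K) * 3 ^ (k + (K + 1))) * ‖w‖ ^ (k + (K + 1)) :=
        mul_le_mul_of_nonneg_right h3 (by positivity)
      _ = _ := by ring
  rw [Ek, norm_sub_rev]
  refine hn.trans (mul_le_mul_of_nonneg_left ?_ (Real.exp_pos _).le)
  have : 0 ≤ ∑ i ∈ Finset.range (K + 1), (3 * ‖w‖) ^ i / (i.factorial : ℝ) :=
    Finset.sum_nonneg fun i _ => by positivity
  linarith

theorem Ek_norm_le (K : ℕ) (w : ℂ) : ‖Ek K w‖ ≤ Real.exp ‖w‖ := by
  refine (norm_sum_le _ _).trans ?_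
  refine le_trans (le_of_eq ?_) (Real.sum_le_exp_of_nonneg (norm_nonneg w) (K + 1))
  refine Finset.sum_congr rfl fun k _ => ?_
  rw [norm_div, norm_pow, Complex.norm_natCast]

private theorem j1_log {δ : ℂ} (hδ : ‖δ‖ ≤ 1 / 2) :
    1 + δ ≠ 0 ∧ |Real.log ‖1 + δ‖| ≤ 2 * ‖δ‖ := by
  have h1 : 1 - ‖δ‖ ≤ ‖1 + δ‖ := by
    have := norm_sub_norm_le (1 : ℂ) (-δ)
    rw [norm_neg, norm_one, sub_neg_eq_add] at this
    exact this
  have h2 : ‖1 + δ‖ ≤ 1 + ‖δ‖ := by
    have := norm_add_le (1 : ℂ) δ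
    rwa [norm_one] at this
  have hpos : 0 < ‖1 + δ‖ := by linarith
  have hd := norm_nonneg δ
  refine ⟨norm_pos_iff.1 hpos, ?_⟩
  rw [abs_le]
  constructor
  · have h3 := Real.one_sub_inv_le_log_of_pos hpos
    have h4 : ‖1 + δ‖⁻¹ ≤ (1 - ‖δ‖)⁻¹ := inv_anti₀ (by linarith) h1
    have h5 : (1 - ‖δ‖)⁻¹ ≤ 1 + 2 * ‖δ‖ := by
      rw [inv_le_iff_one_le_mul₀ (by linarith)]
      nlinarith
    linarith
  · have h3 := Real.log_le_sub_one_of_pos hpos
    linarith

/-- on the good set the truncated exponential is the exponential up to a factor exp(+-2 exp(-K/2)) -/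
theorem Ek_log {K : ℕ} {w : ℂ} (hK : 2 ≤ K) (hw : ‖w‖ ≤ (K : ℝ) / 20) :
    Ek K w ≠ 0 ∧ |Real.log ‖Ek K w‖ - w.re| ≤ 2 * Real.exp (-(K : ℝ) / 2) := by
  have hK' : (2 : ℝ) ≤ K := by exact_mod_cast hK
  set δ : ℂ := (Ek K w - exp w) * exp (-w) with hδ
  have hEk : Ek K w = exp w * (1 + δ) := by
    rw [hδ, Complex.exp_neg]
    field_simp [Complex.exp_ne_zero]
    ring
  have hδn : ‖δ‖ ≤ Real.exp (-(4 / 5) * K) := by
    rw [hδ, norm_mul]
    have h1 := Ek_sub K w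
    have h2 : ‖exp (-w)‖ ≤ Real.exp ‖w‖ := by
      rw [Complex.norm_exp]
      refine Real.exp_le_exp.2 ?_
      have := Complex.abs_re_le_norm (-w)
      rw [norm_neg] at this
      exact (le_abs_self _).trans this
    calc ‖Ek K w - exp w‖ * ‖exp (-w)‖ ≤ (Real.exp (-K) * Real.exp (3 * ‖w‖)) * Real.exp ‖w‖ :=
          mul_le_mul h1 h2 (norm_nonneg _) (by positivity)
      _ = Real.exp (-K + 3 * ‖w‖ + ‖w‖) := by rw [Real.exp_add, Real.exp_add]
      _ ≤ _ := Real.exp_le_exp.2 (by linarith)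
  have hsm : Real.exp (-(4 / 5) * K) ≤ 1 / 2 := by
    have h1 : Real.exp (-(4 / 5) * K) ≤ Real.exp (-1) := Real.exp_le_exp.2 (by linarith)
    have h2 : Real.exp (-1) ≤ 1 / 2 := by
      have := Real.exp_neg_one_lt_d9
      linarith
    linarith
  obtain ⟨h1, h2⟩ := j1_log (hδn.trans hsm)
  have hne : Ek K w ≠ 0 := by
    rw [hEk]
    exact mul_ne_zero (Complex.exp_ne_zero _) h1
  refine ⟨hne, ?_⟩
  have hlog : Real.log ‖Ek K w‖ - w.re = Real.log ‖1 + δ‖ := by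
    rw [hEk, norm_mul, Real.log_mul (norm_ne_zero_iff.2 (Complex.exp_ne_zero _)) (norm_ne_zero_iff.2 h1),
      Complex.norm_exp, Real.log_exp]
    ring
  rw [hlog]
  refine h2.trans (mul_le_mul_of_nonneg_left (hδn.trans (Real.exp_le_exp.2 ?_)) (by norm_num))
  linarith

/-- off the good set -/
theorem Ek_bad {K : ℕ} {w c : ℂ} (hK : 1 ≤ K) (hc : ‖c‖ ≤ 1) (hw : (K : ℝ) / 100 ≤ ‖w‖) :
    ‖Ek K (c * w)‖ ≤ (102 * ‖w‖ / K) ^ K := by
  have hK0 : (0 : ℝ) < K := by exact_mod_cast hK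
  set x := ‖w‖ with hx
  have hx0 : 0 ≤ x := norm_nonneg w
  have hcw : ‖c * w‖ ≤ x := by
    rw [norm_mul]
    calc ‖c‖ * ‖w‖ ≤ 1 * ‖w‖ := mul_le_mul_of_nonneg_right hc (norm_nonneg _)
      _ = x := one_mul _
  have h1 : ‖Ek K (c * w)‖ ≤ ∑ k ∈ Finset.range (K + 1), x ^ k / (k.factorial : ℝ) := by
    refine (norm_sum_le _ _).trans (Finset.sum_le_sum fun k _ => ?_)
    rw [norm_div, norm_pow, Complex.norm_natCast]
    exact div_le_div_of_nonneg_right (pow_le_pow_left₀ (norm_nonneg _) hcw k) (by positivity)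
  have hr : 1 ≤ 100 * x / K := by
    rw [le_div_iff₀ hK0]
    linarith
  have h2 : ∑ k ∈ Finset.range (K + 1), x ^ k / (k.factorial : ℝ) ≤
      (100 * x / K) ^ K * ∑ k ∈ Finset.range (K + 1), ((K : ℝ) / 100) ^ k / (k.factorial : ℝ) := by
    rw [Finset.mul_sum]
    refine Finset.sum_le_sum fun k hk => ?_
    have hkK : k ≤ K := by
      have := Finset.mem_range.1 hk
      omega
    have e1 : x ^ k = (100 * x / K) ^ k * ((K : ℝ) / 100) ^ k := by
      rw [← mul_pow]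
      congr 1
      field_simp
    rw [e1, mul_div_assoc]
    exact mul_le_mul_of_nonneg_right (pow_le_pow_right₀ hr hkK) (by positivity)
  have h3 : ∑ k ∈ Finset.range (K + 1), ((K : ℝ) / 100) ^ k / (k.factorial : ℝ) ≤ (51 / 50) ^ K := by
    refine (Real.sum_le_exp_of_nonneg (by positivity) (K + 1)).trans ?_
    have h4 : Real.exp ((K : ℝ) / 100) = Real.exp (1 / 100) ^ K := by
      rw [← Real.exp_nat_mul]
      congr 1
      ring
    rw [h4]
    refine pow_le_pow_left₀ (Real.exp_pos _).le ?_ _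
    have h5 := Real.exp_bound_div_one_sub_of_interval (x := 1 / 100) (by norm_num) (by norm_num)
    refine h5.trans ?_
    norm_num
  calc ‖Ek K (c * w)‖ ≤ (100 * x / K) ^ K * (51 / 50) ^ K :=
        h1.trans (h2.trans (mul_le_mul_of_nonneg_left h3 (by positivity)))
    _ = (102 * x / K) ^ K := by
        rw [← mul_pow]
        congr 1
        ring

end CZ
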