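import Pool.Agent.Lib.MP_9eae41_pr.H1
import Pool.Agent.Lib.MP_9eae41_pr.J1

set_option autoImplicit false

open Complex MeasureTheory Set Filter Topology
open scoped ComplexConjugate ENNReal

namespace CZ

/-! Row K1 (200 lines): block bounds for truncated exponentials and for powers.
|Ek|^2 <= exp(2 Re P) + 3 exp(-K) exp(6|P|). For powers: |P|^n <= n! lam^(-n) exp(lam |P|), n! <= n^n, lam = 2 r A e. -/

theorem k1_ee_fract (x : ℝ) : ee (Int.fract x) = ee x := by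
  unfold ee
  rw [Complex.exp_eq_exp_iff_exists_int]
  refine ⟨-⌊x⌋, ?_⟩
  have h : ((Int.fract x : ℝ) : ℂ) = (x : ℂ) - (⌊x⌋ : ℂ) := by
    rw [← Int.self_sub_floor]
    push_cast
    ring
  rw [h]
  push_cast
  ring

theorem k1_bdd (f : (ℕ → ℂ) → ℝ) (hf : Continuous (fun θ : Om => f (Xt θ))) :
    ∃ B : ℝ, ∀ θ : Om, ‖f (Xt θ)‖ ≤ B := by
  have hc : IsCompact (Set.pi Set.univ (fun _ : ℕ => Set.Icc (0 : ℝ) 1)) :=
    isCompact_univ_pi fun _ => isCompact_Icc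
  obtain ⟨B, hB⟩ := hc.exists_bound_of_continuousOn hf.continuousOn
  refine ⟨B, fun θ => ?_⟩
  have h1 : Xt θ = Xt (fun p => Int.fract (θ p)) := by
    funext p
    exact (k1_ee_fract (θ p)).symm
  rw [h1]
  refine hB _ ?_
  intro p _
  exact ⟨Int.fract_nonneg _, (Int.fract_lt_one _).le⟩

theorem k1_int (f : (ℕ → ℂ) → ℝ) (hf : Continuous (fun θ : Om => f (Xt θ))) :
    Integrable (fun θ : Om => f (Xt θ)) PT := by
  have := PT_prob
  obtain ⟨B, hB⟩ := k1_bdd f hf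
  exact Integrable.of_bound hf.aestronglyMeasurable B (Eventually.of_forall hB)

theorem k1_cont {z : ℂ} {s : Finset ℕ} (h : Bk z s) (a : ℕ) :
    Continuous (fun θ : Om => DD a z s (Xt θ)) := by
  rcases s.eq_empty_or_nonempty with rfl | ⟨p, hp⟩
  · have : (fun θ : Om => DD a z ∅ (Xt θ)) = fun _ => 1 := by
      funext θ
      simp [DD]
    rw [this]
    exact continuous_const
  · refine DD_Xt_cont ?_ (fun q hq => (h.1 q hq).1) a
    obtain ⟨-, h2, h3⟩ := h.1 p hp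
    have h4 : (2 : ℝ) ≤ Real.log p := by
      rw [Real.le_log_iff_exp_le (by positivity)]
      have h5 : Real.exp 2 ≤ 100 := by
        have e1 : Real.exp 2 = Real.exp 1 * Real.exp 1 := by
          rw [← Real.exp_add]
          norm_num
        have e2 := Real.exp_one_lt_d9
        have e3 := Real.exp_pos 1
        rw [e1]
        nlinarith only [e2, e3]
      have h6 : (100 : ℝ) ≤ p := by exact_mod_cast h2
      linarith only [h5, h6]
    nlinarith only [h3, h4, norm_nonneg z]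

theorem k1_smul (s : Finset ℕ) (c : ℕ → ℂ) (l : ℝ) (hl : 0 ≤ l) (X : ℕ → ℂ) :
    ‖Ps s (fun p => (l : ℂ) * c p) X‖ = l * ‖Ps s c X‖ := by
  have h : Ps s (fun p => (l : ℂ) * c p) X = (l : ℂ) * Ps s c X := by
    unfold Ps
    rw [Finset.mul_sum]
    refine Finset.sum_congr rfl fun p _ => ?_
    ring
  rw [h, norm_mul, Complex.norm_real, Real.norm_of_nonneg hl]

/-- exponential moments with a parameter -/
theorem k1_crude (C0 l : ℝ) (hC0 : 0 ≤ C0) (hl : 0 ≤ l) : ∃ C : ℝ, 0 < C ∧ ∀ (z : ℂ) (s : Finset ℕ),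
    Bk z s → ∀ (a : ℕ), a ≤ 1 → ∀ c : ℕ → ℂ, (∀ p, ‖c p‖ ≤ C0) →
    ∫ θ, Real.exp (l * ‖Ps s c (Xt θ)‖) * DD a z s (Xt θ) ∂PT ≤ C := by
  obtain ⟨C, hC, h⟩ := blk_crude (l * C0) (by positivity)
  refine ⟨C, hC, fun z s hB a ha c hc => ?_⟩
  have h1 := h z s hB a ha (fun p => (l : ℂ) * c p) (fun p => by
    rw [norm_mul, Complex.norm_real, Real.norm_of_nonneg hl]
    exact mul_le_mul_of_nonneg_left (hc p) hl)
  simp_rw [k1_smul s c l hl] at h1
  exact h1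

theorem k1_sq (K : ℕ) (w : ℂ) : ‖Ek K w‖ ^ 2 ≤
    Real.exp (2 * w.re) + 3 * Real.exp (-K) * Real.exp (6 * ‖w‖) := by
  have h1 := Ek_sub K w
  have h2 : ‖Ek K w‖ ≤ Real.exp w.re + Real.exp (-K) * Real.exp (3 * ‖w‖) := by
    have h3 : Ek K w = exp w + (Ek K w - exp w) := by ring
    calc ‖Ek K w‖ = ‖exp w + (Ek K w - exp w)‖ := by rw [← h3]
      _ ≤ ‖exp w‖ + ‖Ek K w - exp w‖ := norm_add_le _ _
      _ ≤ _ := by
        rw [Complex.norm_exp]
        linarith only [h1]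
  have hK : Real.exp (-(K : ℝ)) ≤ 1 := by
    rw [Real.exp_le_one_iff]
    have : (0 : ℝ) ≤ K := Nat.cast_nonneg K
    linarith only [this]
  have hK0 := Real.exp_pos (-(K : ℝ))
  have hw : w.re ≤ ‖w‖ := Complex.re_le_norm w
  have hw0 := norm_nonneg w
  have e1 : Real.exp w.re ^ 2 = Real.exp (2 * w.re) := by
    rw [← Real.exp_nat_mul]
    norm_num
  have e2 : Real.exp (3 * ‖w‖) ^ 2 = Real.exp (6 * ‖w‖) := by
    rw [← Real.exp_nat_mul]
    congr 1
    push_cast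
    ring
  have e3 : Real.exp w.re * Real.exp (3 * ‖w‖) ≤ Real.exp (6 * ‖w‖) := by
    rw [← Real.exp_add]
    apply Real.exp_le_exp.mpr
    linarith only [hw, hw0]
  have e4 : Real.exp (-(K : ℝ)) ^ 2 ≤ Real.exp (-(K : ℝ)) := by
    nlinarith only [hK, hK0]
  calc ‖Ek K w‖ ^ 2 ≤ (Real.exp w.re + Real.exp (-K) * Real.exp (3 * ‖w‖)) ^ 2 :=
        pow_le_pow_left₀ (norm_nonneg _) h2 2
    _ = Real.exp w.re ^ 2 + 2 * Real.exp (-K) * (Real.exp w.re * Real.exp (3 * ‖w‖)) +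
        Real.exp (-(K : ℝ)) ^ 2 * Real.exp (3 * ‖w‖) ^ 2 := by ring
    _ ≤ Real.exp (2 * w.re) + 2 * Real.exp (-K) * Real.exp (6 * ‖w‖) +
        Real.exp (-(K : ℝ)) * Real.exp (6 * ‖w‖) := by
      rw [e1, e2]
      gcongr
    _ = _ := by ring

theorem blk_N (C0 : ℝ) (hC0 : 0 ≤ C0) : ∃ C : ℝ, 0 < C ∧ ∀ (z : ℂ) (s : Finset ℕ), Bk z s → ∀ (a : ℕ), a ≤ 1 →
    ∀ (c : ℕ → ℂ) (K : ℕ), (∀ p, ‖c p‖ ≤ C0) →
    ∫ θ, ‖Ek K (Ps s c (Xt θ))‖ ^ 2 * DD a z s (Xt θ) ∂PT ≤ Real.exp (Sb a c s + C * (Er z s + Real.exp (-K))) := by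
  obtain ⟨C1, hC1, h1⟩ := blk_exp C0 hC0
  obtain ⟨C2, hC2, h2⟩ := k1_crude C0 6 hC0 (by norm_num)
  refine ⟨C1 + 3 * C2 * Real.exp 1, by positivity, fun z s hB a ha c K hc => ?_⟩
  have cP := Ps_Xt_cont s c
  have cD := k1_cont hB a
  have i1 : Integrable (fun θ : Om => Real.exp (2 * (Ps s c (Xt θ)).re) * DD a z s (Xt θ)) PT :=
    k1_int (fun X => Real.exp (2 * (Ps s c X).re) * DD a z s X) (by fun_prop)
  have i2 : Integrable (fun θ : Om => Real.exp (6 * ‖Ps s c (Xt θ)‖) * DD a z s (Xt θ)) PT :=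
    k1_int (fun X => Real.exp (6 * ‖Ps s c X‖) * DD a z s X) (by fun_prop)
  have hS := Sb_lower hB ha c
  have hE := Er_nonneg z s
  have hK0 := Real.exp_pos (-(K : ℝ))
  have step : ∫ θ, ‖Ek K (Ps s c (Xt θ))‖ ^ 2 * DD a z s (Xt θ) ∂PT ≤
      ∫ θ, (Real.exp (2 * (Ps s c (Xt θ)).re) * DD a z s (Xt θ) +
        3 * Real.exp (-K) * (Real.exp (6 * ‖Ps s c (Xt θ)‖) * DD a z s (Xt θ))) ∂PT := by
    refine integral_mono_of_nonneg (Eventually.of_forall fun θ => ?_) (i1.add (i2.const_mul _))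
      (Eventually.of_forall fun θ => ?_)
    · exact mul_nonneg (sq_nonneg _) (DD_nonneg a z s _)
    · have := mul_le_mul_of_nonneg_right (k1_sq K (Ps s c (Xt θ))) (DD_nonneg a z s (Xt θ))
      simp only
      linarith only [this]
  rw [integral_add i1 (i2.const_mul _), integral_const_mul] at step
  have b1 := h1 z s hB a ha c hc
  have b2 := h2 z s hB a ha c hc
  have b3 : 1 ≤ Real.exp 1 * Real.exp (Sb a c s + C1 * Er z s) := by
    rw [← Real.exp_add]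
    apply Real.one_le_exp
    have : 0 ≤ C1 * Er z s := by positivity
    linarith only [this, hS]
  calc ∫ θ, ‖Ek K (Ps s c (Xt θ))‖ ^ 2 * DD a z s (Xt θ) ∂PT
      ≤ Real.exp (Sb a c s + C1 * Er z s) + 3 * Real.exp (-K) * C2 := by
        refine step.trans (add_le_add b1 ?_)
        exact mul_le_mul_of_nonneg_left b2 (by positivity)
    _ ≤ Real.exp (Sb a c s + C1 * Er z s) + 3 * Real.exp (-K) * C2 *
        (Real.exp 1 * Real.exp (Sb a c s + C1 * Er z s)) := by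
        have g0 := le_mul_of_one_le_right
          (by positivity : 0 ≤ 3 * Real.exp (-(K : ℝ)) * C2) b3
        linarith only [g0]
    _ = Real.exp (Sb a c s + C1 * Er z s) * (3 * C2 * Real.exp 1 * Real.exp (-K) + 1) := by ring
    _ ≤ Real.exp (Sb a c s + C1 * Er z s) * Real.exp (3 * C2 * Real.exp 1 * Real.exp (-K)) := by
        gcongr
        exact Real.add_one_le_exp _
    _ ≤ Real.exp (Sb a c s + (C1 + 3 * C2 * Real.exp 1) * (Er z s + Real.exp (-K))) := by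
        rw [← Real.exp_add]
        apply Real.exp_le_exp.mpr
        have g1 : 0 ≤ C1 * Real.exp (-(K : ℝ)) := by positivity
        have g2 : 0 ≤ 3 * C2 * Real.exp 1 * Er z s := by positivity
        linarith only [g1, g2]

theorem k1_pow {x l : ℝ} (hx : 0 ≤ x) (hl : 0 < l) (n : ℕ) :
    x ^ n ≤ (n / l) ^ n * Real.exp (l * x) := by
  have h1 : (l * x) ^ n / n.factorial ≤ Real.exp (l * x) :=
    Real.pow_div_factorial_le_exp (l * x) (by positivity) n
  have h2 : ((n.factorial : ℕ) : ℝ) ≤ (n : ℝ) ^ n := by exact_mod_cast Nat.factorial_le_pow n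
  have h3 : (0 : ℝ) < n.factorial := by exact_mod_cast n.factorial_pos
  have h4 : (l * x) ^ n ≤ n ^ n * Real.exp (l * x) := by
    rw [div_le_iff₀ h3] at h1
    calc (l * x) ^ n ≤ Real.exp (l * x) * n.factorial := h1
      _ ≤ Real.exp (l * x) * (n : ℝ) ^ n := by gcongr
      _ = _ := by ring
  have h5 : x ^ n = (l * x) ^ n / l ^ n := by
    rw [mul_pow]
    field_simp
  rw [h5, div_pow, div_mul_eq_mul_div]
  gcongr

theorem blk_W (C0 A : ℝ) (hC0 : 0 ≤ C0) (hA : 0 < A) (r : ℕ) (hr : 1 ≤ r) : ∃ C : ℝ, 1 ≤ C ∧ ∀ (z : ℂ) (s : Finset ℕ),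
    Bk z s → ∀ (a : ℕ), a ≤ 1 → ∀ (c : ℕ → ℂ) (K : ℕ), 1 ≤ K → (∀ p, ‖c p‖ ≤ C0) →
    ∫ θ, ‖(((A / K : ℝ) : ℂ) * Ps s c (Xt θ)) ^ (r * K)‖ ^ 2 * DD a z s (Xt θ) ∂PT ≤ C * Real.exp (-2 * r * K) := by
  have hr0 : (0 : ℝ) < r := by exact_mod_cast hr
  set l : ℝ := 2 * r * A * Real.exp 1 with hl
  have hl0 : 0 < l := by positivity
  obtain ⟨C2, hC2, h2⟩ := k1_crude C0 l hC0 hl0.le
  refine ⟨max C2 1, le_max_right _ _, fun z s hB a ha c K hK hc => ?_⟩
  have hK0 : (0 : ℝ) < K := by exact_mod_cast hK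
  have cP := Ps_Xt_cont s c
  have cD := k1_cont hB a
  have i2 : Integrable (fun θ : Om => Real.exp (l * ‖Ps s c (Xt θ)‖) * DD a z s (Xt θ)) PT :=
    k1_int (fun X => Real.exp (l * ‖Ps s c X‖) * DD a z s X) (by fun_prop)
  have hpt : ∀ w : ℂ, ‖(((A / K : ℝ) : ℂ) * w) ^ (r * K)‖ ^ 2 ≤
      Real.exp (-2 * r * K) * Real.exp (l * ‖w‖) := by
    intro w
    rw [norm_pow, norm_mul, Complex.norm_real, Real.norm_of_nonneg (by positivity), ← pow_mul,
      mul_pow]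
    have h3 := k1_pow (norm_nonneg w) hl0 (r * K * 2)
    have h4 : (A / K) ^ (r * K * 2) * (((r * K * 2 : ℕ) : ℝ) / l) ^ (r * K * 2) =
        Real.exp (-2 * r * K) := by
      rw [← mul_pow]
      have h5 : A / K * (((r * K * 2 : ℕ) : ℝ) / l) = Real.exp (-1) := by
        rw [hl, Real.exp_neg]
        push_cast
        field_simp
      rw [h5, ← Real.exp_nat_mul]
      congr 1
      push_cast
      ring
    calc (A / K) ^ (r * K * 2) * ‖w‖ ^ (r * K * 2)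
        ≤ (A / K) ^ (r * K * 2) * ((((r * K * 2 : ℕ) : ℝ) / l) ^ (r * K * 2) * Real.exp (l * ‖w‖)) := by
          gcongr
      _ = (A / K) ^ (r * K * 2) * (((r * K * 2 : ℕ) : ℝ) / l) ^ (r * K * 2) * Real.exp (l * ‖w‖) := by
          ring
      _ = _ := by rw [h4]
  have step : ∫ θ, ‖(((A / K : ℝ) : ℂ) * Ps s c (Xt θ)) ^ (r * K)‖ ^ 2 * DD a z s (Xt θ) ∂PT ≤
      ∫ θ, Real.exp (-2 * r * K) * (Real.exp (l * ‖Ps s c (Xt θ)‖) * DD a z s (Xt θ)) ∂PT := by
    refine integral_mono_of_nonneg (Eventually.of_forall fun θ => ?_) (i2.const_mul _)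
      (Eventually.of_forall fun θ => ?_)
    · exact mul_nonneg (sq_nonneg _) (DD_nonneg a z s _)
    · have := mul_le_mul_of_nonneg_right (hpt (Ps s c (Xt θ))) (DD_nonneg a z s (Xt θ))
      simp only
      linarith only [this]
  rw [integral_const_mul] at step
  refine step.trans ?_
  rw [mul_comm]
  refine mul_le_mul_of_nonneg_right ?_ (Real.exp_pos _).le
  exact (h2 z s hB a ha c hc).trans (le_max_left _ _)

end CZ
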