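import Pool.Agent.Lib.MP_9eae41_pr.K1

set_option autoImplicit false

open Complex MeasureTheory Set Filter Topology
open scoped ComplexConjugate ENNReal

namespace CZ

/-! Row K2 (200 lines): block first moment. With E = Eu s: the integral of E Ek((k-1)P) conj Ek(k P) over the torus is
product of the onevar_first values up to C exp(-K); |E| <= exp(Re P + C) over a block (primes at least 100,
sum 1/p <= 1). So its absolute value is at least exp(sum k^2/p - sum 1/p^2 - C exp(-K)) when C exp(-K) <= 1/2. -/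

theorem k2_inv (u : ℂ) (hu : ‖u‖ ≤ 1 / 10) : ‖(1 - u)⁻¹‖ ≤ Real.exp (u.re + 2 * ‖u‖ ^ 2) := by
  have h0 : 0 < ‖1 - u‖ := by
    have := norm_sub_norm_le (1 : ℂ) u
    rw [norm_one] at this
    linarith
  have hr : |u.re| ≤ ‖u‖ := Complex.abs_re_le_norm u
  have hr2 : u.re ^ 2 ≤ ‖u‖ ^ 2 := by
    rw [← sq_abs u.re]
    exact pow_le_pow_left₀ (abs_nonneg _) hr 2
  have hsq : ‖1 - u‖ ^ 2 = 1 - 2 * u.re + ‖u‖ ^ 2 := by
    rw [← Complex.normSq_eq_norm_sq, ← Complex.normSq_eq_norm_sq, Complex.normSq_apply, Complex.normSq_apply]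
    simp only [sub_re, one_re, sub_im, one_im]
    ring
  have hm0 : 0 ≤ ‖u‖ ^ 2 := by positivity
  have hab := abs_le.1 (hr.trans hu)
  have key : 1 ≤ ‖1 - u‖ ^ 2 * Real.exp (u.re + 2 * ‖u‖ ^ 2) ^ 2 := by
    have e1 : Real.exp (u.re + 2 * ‖u‖ ^ 2) ^ 2 = Real.exp (2 * u.re + 4 * ‖u‖ ^ 2) := by
      rw [← Real.exp_nat_mul]
      congr 1
      push_cast
      ring
    rw [e1, hsq]
    have e2 := Real.add_one_le_exp (2 * u.re + 4 * ‖u‖ ^ 2)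
    have e3 : 0 ≤ 1 - 2 * u.re + ‖u‖ ^ 2 := by linarith
    have e4 := mul_le_mul_of_nonneg_left e2 e3
    refine le_trans ?_ e4
    have e5 : 0 ≤ ‖u‖ ^ 2 * (1 - 6 * u.re) := mul_nonneg hm0 (by linarith)
    nlinarith [sq_nonneg (‖u‖ ^ 2)]
  have hE := Real.exp_pos (u.re + 2 * ‖u‖ ^ 2)
  rw [norm_inv, inv_le_comm₀ h0 hE]
  have k1 : 1 ≤ ‖1 - u‖ * Real.exp (u.re + 2 * ‖u‖ ^ 2) := by
    rw [← mul_pow] at key
    by_contra hcon
    push Not at hcon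
    have : (‖1 - u‖ * Real.exp (u.re + 2 * ‖u‖ ^ 2)) ^ 2 < 1 :=
      pow_lt_one₀ (by positivity) hcon (by norm_num)
    linarith
  rw [inv_le_iff_one_le_mul₀ hE]
  exact k1

theorem k2_s {p : ℕ} (hp : 100 ≤ p) : ‖((Real.sqrt p : ℝ) : ℂ)⁻¹‖ ≤ 1 / 10 ∧ ‖((Real.sqrt p : ℝ) : ℂ)⁻¹‖ ^ 2 = 1 / p := by
  have hp' : (100 : ℝ) ≤ p := by exact_mod_cast hp
  have h1 : (10 : ℝ) ≤ Real.sqrt p := by
    rw [show (10 : ℝ) = Real.sqrt 100 by
      rw [show (100 : ℝ) = 10 ^ 2 by norm_num, Real.sqrt_sq (by norm_num)]]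
    exact Real.sqrt_le_sqrt hp'
  rw [norm_inv, Complex.norm_real, Real.norm_eq_abs, abs_of_nonneg (Real.sqrt_nonneg _)]
  refine ⟨?_, ?_⟩
  · rw [one_div]
    exact inv_anti₀ (by norm_num) h1
  · rw [inv_pow, Real.sq_sqrt (by linarith), one_div]

theorem Eu_le {s : Finset ℕ} (h : Bk 0 s) {X : ℕ → ℂ} (hX : ∀ p, ‖X p‖ = 1) :
    ‖Eu s X‖ ≤ Real.exp (2 + ‖Ps s (fun _ => 1) X‖) := by
  unfold Eu
  rw [norm_prod]
  have h1 : ∀ p ∈ s, ‖(1 - X p * ((Real.sqrt p : ℝ) : ℂ)⁻¹)⁻¹‖ ≤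
      Real.exp ((X p * ((Real.sqrt p : ℝ) : ℂ)⁻¹).re + 2 * ((1 : ℝ) / p)) := by
    intro p hp
    obtain ⟨e1, e2⟩ := k2_s (h.1 p hp).2.1
    have e3 : ‖X p * ((Real.sqrt p : ℝ) : ℂ)⁻¹‖ = ‖((Real.sqrt p : ℝ) : ℂ)⁻¹‖ := by rw [norm_mul, hX, one_mul]
    have e4 := k2_inv (X p * ((Real.sqrt p : ℝ) : ℂ)⁻¹) (by rw [e3]; exact e1)
    rw [e3, e2] at e4
    exact e4
  refine (Finset.prod_le_prod (fun p _ => norm_nonneg _) h1).trans ?_
  rw [← Real.exp_sum]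
  refine Real.exp_le_exp.2 ?_
  rw [Finset.sum_add_distrib, ← Finset.mul_sum, ← Complex.re_sum]
  have h2 : ∑ p ∈ s, X p * ((Real.sqrt p : ℝ) : ℂ)⁻¹ = Ps s (fun _ => 1) X := by
    unfold Ps
    refine Finset.sum_congr rfl fun p _ => ?_
    rw [one_mul]
  rw [h2]
  have h3 := Complex.re_le_norm (Ps s (fun _ => 1) X)
  have h4 := h.2
  linarith

theorem k2_Ps (s : Finset ℕ) (c : ℂ) (X : ℕ → ℂ) : Ps s (fun _ => c) X = c * Ps s (fun _ => 1) X := by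
  unfold Ps
  rw [Finset.mul_sum]
  refine Finset.sum_congr rfl fun p _ => ?_
  ring

theorem k2_diff (K : ℕ) (a b P : ℂ) (ha : ‖a‖ ≤ ‖P‖) (hb : ‖b‖ ≤ ‖P‖) :
    ‖Ek K a * conj (Ek K b) - exp a * conj (exp b)‖ ≤ 2 * Real.exp (-K) * Real.exp (4 * ‖P‖) := by
  have h1 : Ek K a * conj (Ek K b) - exp a * conj (exp b) =
      (Ek K a - exp a) * conj (Ek K b) + exp a * conj (Ek K b - exp b) := by
    rw [map_sub]
    ring
  rw [h1]
  refine (norm_add_le _ _).trans ?_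
  rw [norm_mul, norm_mul, RCLike.norm_conj, RCLike.norm_conj]
  have e1 : ‖Ek K a - exp a‖ ≤ Real.exp (-K) * Real.exp (3 * ‖P‖) :=
    (Ek_sub K a).trans (mul_le_mul_of_nonneg_left (Real.exp_le_exp.2 (by linarith)) (Real.exp_pos _).le)
  have e2 : ‖Ek K b - exp b‖ ≤ Real.exp (-K) * Real.exp (3 * ‖P‖) :=
    (Ek_sub K b).trans (mul_le_mul_of_nonneg_left (Real.exp_le_exp.2 (by linarith)) (Real.exp_pos _).le)
  have e3 : ‖Ek K b‖ ≤ Real.exp ‖P‖ := (Ek_norm_le K b).trans (Real.exp_le_exp.2 hb)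
  have e4 : ‖exp a‖ ≤ Real.exp ‖P‖ := by
    rw [Complex.norm_exp]
    exact Real.exp_le_exp.2 ((Complex.re_le_norm a).trans ha)
  have e5 : Real.exp (4 * ‖P‖) = Real.exp (3 * ‖P‖) * Real.exp ‖P‖ := by
    rw [← Real.exp_add]
    ring_nf
  have m1 : ‖Ek K a - exp a‖ * ‖Ek K b‖ ≤ (Real.exp (-K) * Real.exp (3 * ‖P‖)) * Real.exp ‖P‖ :=
    mul_le_mul e1 e3 (norm_nonneg _) (by positivity)
  have m2 : ‖exp a‖ * ‖Ek K b - exp b‖ ≤ Real.exp ‖P‖ * (Real.exp (-K) * Real.exp (3 * ‖P‖)) :=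
    mul_le_mul e4 e2 (norm_nonneg _) (by positivity)
  rw [e5]
  linarith

theorem k2_ne {p : ℕ} (hp : 100 ≤ p) {x : ℂ} (hx : ‖x‖ = 1) : 1 - x * ((Real.sqrt p : ℝ) : ℂ)⁻¹ ≠ 0 := by
  intro h0
  have h1 : x * ((Real.sqrt p : ℝ) : ℂ)⁻¹ = 1 := (sub_eq_zero.1 h0).symm
  have h2 : ‖x * ((Real.sqrt p : ℝ) : ℂ)⁻¹‖ ≤ 1 / 10 := by
    rw [norm_mul, hx, one_mul]
    exact (k2_s hp).1
  rw [h1, norm_one] at h2
  norm_num at h2

theorem k2_Eu_cont {s : Finset ℕ} (h : Bk 0 s) : Continuous (fun θ : Om => Eu s (Xt θ)) := by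
  unfold Eu
  refine continuous_finsetProd _ fun p hp => ?_
  refine Continuous.inv₀ ?_ fun θ => k2_ne (h.1 p hp).2.1 (norm_Xt θ p)
  exact continuous_const.sub (((continuous_apply p).comp Xt_cont).mul continuous_const)

theorem k2_Ek_cont (K : ℕ) : Continuous (Ek K) := by
  unfold Ek
  exact continuous_finsetSum _ fun k _ => (continuous_pow k).div_const _

theorem k2_int {f : Om → ℂ} (hf : Continuous f) {B : ℝ} (hB : ∀ θ, ‖f θ‖ ≤ B) : Integrable f PT := by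
  have := PT_prob
  exact Integrable.of_bound hf.aestronglyMeasurable B (Eventually.of_forall hB)

theorem k2_bound {s : Finset ℕ} (h : Bk 0 s) : ∃ B : ℝ, ∀ θ : Om, ‖Ps s (fun _ => 1) (Xt θ)‖ ≤ B := by
  refine ⟨∑ p ∈ s, (1 : ℝ), fun θ => ?_⟩
  unfold Ps
  refine (norm_sum_le _ _).trans (Finset.sum_le_sum fun p hp => ?_)
  rw [norm_mul, norm_mul, norm_one, norm_Xt, one_mul, one_mul]
  exact (k2_s (h.1 p hp).2.1).1.trans (by norm_num)

theorem k2_main (κ : ℝ) (h0 : 0 < κ) (h1 : κ < 1) {s : Finset ℕ} (h : Bk 0 s) :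
    ∃ e : ℝ, Real.exp (κ ^ 2 * (∑ p ∈ s, (1:ℝ) / p) - Er 0 s) ≤ e ∧
    ∫ θ, Eu s (Xt θ) * (exp (Ps s (fun _ => ((κ - 1 : ℝ) : ℂ)) (Xt θ)) *
      conj (exp (Ps s (fun _ => (κ : ℂ)) (Xt θ)))) ∂PT = (e : ℂ) := by
  have hp2 : ∀ p ∈ s, 2 ≤ p := fun p hp => le_trans (by norm_num) (h.1 p hp).2.1
  have hex : ∀ p : ℕ, ∃ e : ℝ, 2 ≤ p → (1 + κ ^ 2 / p ≤ e ∧
      ∫ x, (1 - ee x * ((Real.sqrt p : ℝ) : ℂ)⁻¹)⁻¹ * exp (((κ - 1 : ℝ) : ℂ) * ee x * ((Real.sqrt p : ℝ) : ℂ)⁻¹) *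
        conj (exp ((κ : ℂ) * ee x * ((Real.sqrt p : ℝ) : ℂ)⁻¹)) ∂Ug = (e : ℂ)) := by
    intro p
    by_cases hp : 2 ≤ p
    · obtain ⟨e, he⟩ := onevar_first κ h0 h1 p hp
      exact ⟨e, fun _ => he⟩
    · exact ⟨0, fun h => absurd h hp⟩
  choose e he using hex
  refine ⟨∏ p ∈ s, e p, ?_, ?_⟩
  · have hEr : Er 0 s = ∑ p ∈ s, (p : ℝ) ^ (-(3/2) : ℝ) := by
      unfold Er
      refine Finset.sum_congr rfl fun p _ => ?_
      rw [norm_zero, zero_mul, zero_div, zero_add]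
    rw [hEr, Finset.mul_sum, ← Finset.sum_sub_distrib, Real.exp_sum]
    refine Finset.prod_le_prod (fun p _ => (Real.exp_pos _).le) fun p hp => ?_
    refine le_trans ?_ (he p (hp2 p hp)).1
    have hp1 : (1 : ℝ) ≤ p := by
      have := hp2 p hp
      exact_mod_cast (le_trans (by norm_num) this : 1 ≤ p)
    have hp0 : (0 : ℝ) < p := by linarith
    have hx0 : 0 ≤ κ ^ 2 / p := by positivity
    have hx1 : κ ^ 2 / p ≤ 1 / p := by
      gcongr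
      nlinarith
    have hx2 : (κ ^ 2 / p) ^ 2 ≤ (p : ℝ) ^ (-(3/2) : ℝ) := by
      have e1 : (κ ^ 2 / p) ^ 2 ≤ (1 / (p : ℝ)) ^ 2 := pow_le_pow_left₀ hx0 hx1 2
      refine e1.trans ?_
      have e2 : (1 / (p : ℝ)) ^ 2 = (p : ℝ) ^ (-2 : ℝ) := by
        rw [Real.rpow_neg hp0.le, one_div, inv_pow]
        norm_num
      rw [e2]
      exact Real.rpow_le_rpow_of_exponent_le hp1 (by norm_num)
    have hy : κ ^ 2 * (1 / (p : ℝ)) = κ ^ 2 / p := by ring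
    rw [hy]
    have hlog : κ ^ 2 / p - (κ ^ 2 / p) ^ 2 ≤ Real.log (1 + κ ^ 2 / p) := by
      have hq : 0 < 1 + κ ^ 2 / (p : ℝ) := by linarith
      have e3 := Real.one_sub_inv_le_log_of_pos hq
      refine le_trans ?_ e3
      have e4 : 1 - (1 + κ ^ 2 / (p : ℝ))⁻¹ = (κ ^ 2 / p) / (1 + κ ^ 2 / p) := by
        field_simp
        ring
      rw [e4, le_div_iff₀ hq]
      nlinarith [pow_nonneg hx0 3]
    calc Real.exp (κ ^ 2 / p - (p : ℝ) ^ (-(3/2) : ℝ)) ≤ Real.exp (Real.log (1 + κ ^ 2 / p)) :=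
          Real.exp_le_exp.2 (by linarith)
      _ = 1 + κ ^ 2 / p := Real.exp_log (by linarith)
  · have hprod := torus_prod s (fun p x => (1 - x * ((Real.sqrt p : ℝ) : ℂ)⁻¹)⁻¹ *
      exp (((κ - 1 : ℝ) : ℂ) * x * ((Real.sqrt p : ℝ) : ℂ)⁻¹) *
        conj (exp ((κ : ℂ) * x * ((Real.sqrt p : ℝ) : ℂ)⁻¹))) (fun p hp => by
      refine ContinuousOn.mul (ContinuousOn.mul ?_ ?_) ?_
      · refine ContinuousOn.inv₀ (by fun_prop) fun x hx => ?_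
        exact k2_ne (h.1 p hp).2.1 (mem_sphere_zero_iff_norm.1 hx)
      · fun_prop
      · exact (Complex.continuous_conj.comp (by fun_prop)).continuousOn)
    have hL : ∀ θ : Om, Eu s (Xt θ) * (exp (Ps s (fun _ => ((κ - 1 : ℝ) : ℂ)) (Xt θ)) *
        conj (exp (Ps s (fun _ => (κ : ℂ)) (Xt θ)))) =
        ∏ p ∈ s, ((1 - Xt θ p * ((Real.sqrt p : ℝ) : ℂ)⁻¹)⁻¹ *
          exp (((κ - 1 : ℝ) : ℂ) * Xt θ p * ((Real.sqrt p : ℝ) : ℂ)⁻¹) *
          conj (exp ((κ : ℂ) * Xt θ p * ((Real.sqrt p : ℝ) : ℂ)⁻¹))) := by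
      intro θ
      rw [Finset.prod_mul_distrib, Finset.prod_mul_distrib, ← map_prod, ← Complex.exp_sum,
        ← Complex.exp_sum, mul_assoc]
      rfl
    simp_rw [hL]
    rw [hprod, Complex.ofReal_prod]
    exact Finset.prod_congr rfl fun p hp => (he p (hp2 p hp)).2

theorem blk_first (κ : ℝ) (h0 : 0 < κ) (h1 : κ < 1) : ∃ (C : ℝ) (K0 : ℕ), 0 < C ∧ ∀ (s : Finset ℕ), Bk 0 s → ∀ K : ℕ,
    K0 ≤ K →
    Real.exp (κ ^ 2 * (∑ p ∈ s, (1:ℝ) / p) - C * (Er 0 s + Real.exp (-K))) ≤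
    ‖∫ θ, Eu s (Xt θ) * (Ek K (Ps s (fun _ => ((κ - 1 : ℝ) : ℂ)) (Xt θ)) *
      conj (Ek K (Ps s (fun _ => (κ : ℂ)) (Xt θ)))) ∂PT‖ := by
  obtain ⟨C5, hC5, H5⟩ := blk_crude 5 (by norm_num)
  set C' : ℝ := 2 * Real.exp 2 * C5 with hC'
  have hC'0 : 0 < C' := by positivity
  obtain ⟨K0, hK0⟩ : ∃ K0 : ℕ, C' * Real.exp 2 * Real.exp (-(K0 : ℝ)) ≤ 1 / 2 := by
    have ht : Tendsto (fun n : ℕ => C' * Real.exp 2 * Real.exp (-(n : ℝ))) atTop (𝓝 (C' * Real.exp 2 * 0)) :=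
      ((Real.tendsto_exp_neg_atTop_nhds_zero).comp tendsto_natCast_atTop_atTop).const_mul _
    rw [mul_zero] at ht
    exact ((ht.eventually (gt_mem_nhds (by norm_num : (0 : ℝ) < 1 / 2))).exists).imp fun _ h => le_of_lt h
  refine ⟨1 + 2 * (C' * Real.exp 2), K0, by positivity, fun s hs K hK => ?_⟩
  obtain ⟨e, he, hInt⟩ := k2_main κ h0 h1 hs
  obtain ⟨B, hB⟩ := k2_bound hs
  have hEr0 := Er_nonneg 0 s
  have hEr2 := Er_le hs
  have hsum0 : 0 ≤ ∑ p ∈ s, (1:ℝ) / p := Finset.sum_nonneg fun p _ => by positivity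
  have hepos : Real.exp (-2) ≤ e := by
    refine le_trans (Real.exp_le_exp.2 ?_) he
    have : 0 ≤ κ ^ 2 * ∑ p ∈ s, (1:ℝ) / p := by positivity
    linarith
  have hc1 : ∀ X : ℕ → ℂ, ‖Ps s (fun _ => ((κ - 1 : ℝ) : ℂ)) X‖ ≤ ‖Ps s (fun _ => 1) X‖ := by
    intro X
    rw [k2_Ps, norm_mul, Complex.norm_real, Real.norm_eq_abs]
    have : |κ - 1| ≤ 1 := by rw [abs_le]; constructor <;> linarith
    calc |κ - 1| * ‖Ps s (fun _ => 1) X‖ ≤ 1 * ‖Ps s (fun _ => 1) X‖ := by gcongr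
      _ = _ := one_mul _
  have hc2 : ∀ X : ℕ → ℂ, ‖Ps s (fun _ => (κ : ℂ)) X‖ ≤ ‖Ps s (fun _ => 1) X‖ := by
    intro X
    rw [k2_Ps, norm_mul, Complex.norm_real, Real.norm_eq_abs]
    have : |κ| ≤ 1 := by rw [abs_le]; constructor <;> linarith
    calc |κ| * ‖Ps s (fun _ => 1) X‖ ≤ 1 * ‖Ps s (fun _ => 1) X‖ := by gcongr
      _ = _ := one_mul _
  have hEuB : ∀ θ : Om, ‖Eu s (Xt θ)‖ ≤ Real.exp (2 + B) := fun θ =>
    (Eu_le hs (norm_Xt θ)).trans (Real.exp_le_exp.2 (by linarith [hB θ]))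
  have hcE := k2_Eu_cont hs
  have hcP : ∀ c : ℂ, Continuous (fun θ : Om => Ps s (fun _ => c) (Xt θ)) := fun c => Ps_Xt_cont s _
  have i1 : Integrable (fun θ => Eu s (Xt θ) * (Ek K (Ps s (fun _ => ((κ - 1 : ℝ) : ℂ)) (Xt θ)) *
      conj (Ek K (Ps s (fun _ => (κ : ℂ)) (Xt θ))))) PT := by
    refine k2_int (B := Real.exp (2 + B) * (Real.exp B * Real.exp B)) ?_ fun θ => ?_
    · exact hcE.mul (((k2_Ek_cont K).comp (hcP _)).mul
        (Complex.continuous_conj.comp ((k2_Ek_cont K).comp (hcP _))))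
    · rw [norm_mul, norm_mul, RCLike.norm_conj]
      refine mul_le_mul (hEuB θ) (mul_le_mul ?_ ?_ (norm_nonneg _) (Real.exp_pos _).le) (by positivity)
        (Real.exp_pos _).le
      · exact (Ek_norm_le K _).trans (Real.exp_le_exp.2 ((hc1 _).trans (hB θ)))
      · exact (Ek_norm_le K _).trans (Real.exp_le_exp.2 ((hc2 _).trans (hB θ)))
  have i2 : Integrable (fun θ => Eu s (Xt θ) * (exp (Ps s (fun _ => ((κ - 1 : ℝ) : ℂ)) (Xt θ)) *
      conj (exp (Ps s (fun _ => (κ : ℂ)) (Xt θ))))) PT := by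
    refine k2_int (B := Real.exp (2 + B) * (Real.exp B * Real.exp B)) ?_ fun θ => ?_
    · exact hcE.mul ((Complex.continuous_exp.comp (hcP _)).mul
        (Complex.continuous_conj.comp (Complex.continuous_exp.comp (hcP _))))
    · rw [norm_mul, norm_mul, RCLike.norm_conj, Complex.norm_exp, Complex.norm_exp]
      refine mul_le_mul (hEuB θ) (mul_le_mul ?_ ?_ (Real.exp_pos _).le (Real.exp_pos _).le) (by positivity)
        (Real.exp_pos _).le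
      · exact Real.exp_le_exp.2 ((Complex.re_le_norm _).trans ((hc1 _).trans (hB θ)))
      · exact Real.exp_le_exp.2 ((Complex.re_le_norm _).trans ((hc2 _).trans (hB θ)))
  have hdiff : ‖(∫ θ, Eu s (Xt θ) * (Ek K (Ps s (fun _ => ((κ - 1 : ℝ) : ℂ)) (Xt θ)) *
      conj (Ek K (Ps s (fun _ => (κ : ℂ)) (Xt θ)))) ∂PT) - (e : ℂ)‖ ≤ C' * Real.exp (-K) := by
    rw [← hInt, ← integral_sub i1 i2]
    have hpt : ∀ θ : Om, ‖Eu s (Xt θ) * (Ek K (Ps s (fun _ => ((κ - 1 : ℝ) : ℂ)) (Xt θ)) *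
        conj (Ek K (Ps s (fun _ => (κ : ℂ)) (Xt θ)))) - Eu s (Xt θ) *
        (exp (Ps s (fun _ => ((κ - 1 : ℝ) : ℂ)) (Xt θ)) * conj (exp (Ps s (fun _ => (κ : ℂ)) (Xt θ))))‖ ≤
        2 * Real.exp 2 * Real.exp (-K) * (Real.exp ‖Ps s (fun _ => (5 : ℂ)) (Xt θ)‖ * DD 0 0 s (Xt θ)) := by
      intro θ
      rw [← mul_sub, norm_mul]
      have e1 := k2_diff K _ _ _ (hc1 (Xt θ)) (hc2 (Xt θ))
      have e2 := Eu_le hs (norm_Xt θ)
      have e3 : DD 0 0 s (Xt θ) = 1 := by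
        unfold DD
        rw [pow_zero]
      have e4 : ‖Ps s (fun _ => (5 : ℂ)) (Xt θ)‖ = 5 * ‖Ps s (fun _ => 1) (Xt θ)‖ := by
        rw [k2_Ps, norm_mul]
        norm_num
      rw [e3, e4, mul_one]
      refine (mul_le_mul e2 e1 (norm_nonneg _) (Real.exp_pos _).le).trans (le_of_eq ?_)
      rw [Real.exp_add, show (5 : ℝ) * ‖Ps s (fun _ => 1) (Xt θ)‖ =
        ‖Ps s (fun _ => 1) (Xt θ)‖ + 4 * ‖Ps s (fun _ => 1) (Xt θ)‖ by ring, Real.exp_add]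
      ring
    have iB : Integrable (fun θ => 2 * Real.exp 2 * Real.exp (-K) *
        (Real.exp ‖Ps s (fun _ => (5 : ℂ)) (Xt θ)‖ * DD 0 0 s (Xt θ))) PT := by
      have := PT_prob
      have e3 : ∀ θ : Om, DD 0 0 s (Xt θ) = 1 := by
        intro θ
        unfold DD
        rw [pow_zero]
      simp_rw [e3, mul_one]
      refine Integrable.const_mul ?_ _
      refine Integrable.of_bound (Real.continuous_exp.comp (hcP 5).norm).aestronglyMeasurable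
        (Real.exp (5 * B)) (Eventually.of_forall fun θ => ?_)
      rw [Real.norm_eq_abs, abs_of_pos (Real.exp_pos _)]
      refine Real.exp_le_exp.2 ?_
      rw [k2_Ps, norm_mul]
      have := hB θ
      norm_num
      exact this
    refine (norm_integral_le_of_norm_le iB (Eventually.of_forall hpt)).trans ?_
    rw [integral_const_mul]
    have hcr := H5 0 s hs 0 (by norm_num) (fun _ => 5) (fun p => by norm_num)
    calc 2 * Real.exp 2 * Real.exp (-K) * _ ≤ 2 * Real.exp 2 * Real.exp (-K) * C5 := by gcongr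
      _ = C' * Real.exp (-K) := by rw [hC']; ring
  set J := ∫ θ, Eu s (Xt θ) * (Ek K (Ps s (fun _ => ((κ - 1 : ℝ) : ℂ)) (Xt θ)) *
      conj (Ek K (Ps s (fun _ => (κ : ℂ)) (Xt θ)))) ∂PT with hJ
  have hJ1 : e - C' * Real.exp (-K) ≤ ‖J‖ := by
    have e1 : ‖(e : ℂ)‖ ≤ ‖J‖ + ‖J - (e : ℂ)‖ := by
      have := norm_sub_norm_le (e : ℂ) J
      rw [norm_sub_rev] at this
      linarith
    have e2 : e ≤ ‖(e : ℂ)‖ := by
      rw [Complex.norm_real]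
      exact le_abs_self e
    linarith
  refine le_trans ?_ hJ1
  have hKK : C' * Real.exp 2 * Real.exp (-(K : ℝ)) ≤ 1 / 2 := by
    refine le_trans ?_ hK0
    have : (K0 : ℝ) ≤ K := by exact_mod_cast hK
    gcongr
  set y : ℝ := C' * Real.exp 2 * Real.exp (-(K : ℝ)) with hy
  have hy0 : 0 ≤ y := by positivity
  have hfac : e * (1 - y) ≤ e - C' * Real.exp (-K) := by
    have e1 : C' * Real.exp (-(K : ℝ)) ≤ e * y := by
      have e2 : Real.exp (-2) * y = C' * Real.exp (-(K : ℝ)) := by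
        rw [hy]
        have : Real.exp (-2) * Real.exp 2 = 1 := by rw [← Real.exp_add]; norm_num
        linear_combination (C' * Real.exp (-(K : ℝ))) * this
      rw [← e2]
      gcongr
    linarith
  refine le_trans ?_ hfac
  have hexp : Real.exp (-(2 * y)) ≤ 1 - y := by
    rw [Real.exp_neg]
    have e1 := Real.add_one_le_exp (2 * y)
    have e2 : 0 < 1 - y := by linarith
    rw [inv_le_comm₀ (Real.exp_pos _) e2, inv_le_iff_one_le_mul₀ e2]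
    calc 1 ≤ (2 * y + 1) * (1 - y) := by nlinarith
      _ ≤ Real.exp (2 * y) * (1 - y) := by gcongr
  calc Real.exp (κ ^ 2 * (∑ p ∈ s, (1:ℝ) / p) - (1 + 2 * (C' * Real.exp 2)) * (Er 0 s + Real.exp (-K)))
      ≤ Real.exp ((κ ^ 2 * (∑ p ∈ s, (1:ℝ) / p) - Er 0 s) + (-(2 * y))) := by
        refine Real.exp_le_exp.2 ?_
        have e1 : 0 ≤ C' * Real.exp 2 * Er 0 s := by positivity
        have e2 : 0 ≤ Real.exp (-(K : ℝ)) := (Real.exp_pos _).le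
        rw [hy]
        nlinarith
    _ = Real.exp (κ ^ 2 * (∑ p ∈ s, (1:ℝ) / p) - Er 0 s) * Real.exp (-(2 * y)) := Real.exp_add _ _
    _ ≤ e * (1 - y) := mul_le_mul he hexp (Real.exp_pos _).le ((Real.exp_pos _).le.trans he)

/-- the third factor of the lower bound, pointwise: valid for all X -/
theorem blk_third_pt (κ : ℝ) (h0 : 0 < κ) (h1 : κ < 1) (r : ℕ) (hr : 1 + 1 / κ ≤ r) {K : ℕ} (hK : 2 ≤ K) (w : ℂ) :
    ‖Ek K (((κ - 1 : ℝ) : ℂ) * w)‖ ^ 2 * ‖Ek K ((κ : ℂ) * w)‖ ^ (2 / κ) ≤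
      Real.exp (12 / κ * Real.exp (-(K : ℝ) / 2)) * ‖Ek K ((κ : ℂ) * w)‖ ^ 2 +
        ‖(((102 / K : ℝ) : ℂ) * w) ^ (r * K)‖ ^ 2 := by
  have hc1 : ‖((κ - 1 : ℝ) : ℂ)‖ ≤ 1 := by
    rw [Complex.norm_real, Real.norm_eq_abs, abs_le]
    constructor <;> linarith
  have hc2 : ‖(κ : ℂ)‖ ≤ 1 := by
    rw [Complex.norm_real, Real.norm_eq_abs, abs_le]
    constructor <;> linarith
  have hK0 : (0 : ℝ) < K := by
    have : 0 < K := by omega
    exact_mod_cast this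
  rcases le_or_gt ‖w‖ ((K : ℝ) / 100) with hw | hw
  · have hw1 : ‖((κ - 1 : ℝ) : ℂ) * w‖ ≤ (K : ℝ) / 20 := by
      rw [norm_mul]
      calc ‖((κ - 1 : ℝ) : ℂ)‖ * ‖w‖ ≤ 1 * ((K : ℝ) / 100) := by gcongr
        _ ≤ _ := by linarith
    have hw2 : ‖(κ : ℂ) * w‖ ≤ (K : ℝ) / 20 := by
      rw [norm_mul]
      calc ‖(κ : ℂ)‖ * ‖w‖ ≤ 1 * ((K : ℝ) / 100) := by gcongr
        _ ≤ _ := by linarith
    obtain ⟨n1, l1⟩ := Ek_log hK hw1
    obtain ⟨n2, l2⟩ := Ek_log hK hw2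
    have p1 : 0 < ‖Ek K (((κ - 1 : ℝ) : ℂ) * w)‖ := norm_pos_iff.2 n1
    have p2 : 0 < ‖Ek K ((κ : ℂ) * w)‖ := norm_pos_iff.2 n2
    rw [Complex.re_ofReal_mul] at l1 l2
    rw [abs_le] at l1 l2
    set E := Real.exp (-(K : ℝ) / 2) with hE
    have hE0 : 0 < E := Real.exp_pos _
    have q1 : ‖Ek K (((κ - 1 : ℝ) : ℂ) * w)‖ ^ 2 * ‖Ek K ((κ : ℂ) * w)‖ ^ (2 / κ) =
        Real.exp (2 * Real.log ‖Ek K (((κ - 1 : ℝ) : ℂ) * w)‖ +
          (2 / κ) * Real.log ‖Ek K ((κ : ℂ) * w)‖) := by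
      rw [Real.exp_add, Real.rpow_def_of_pos p2, mul_comm (Real.log ‖Ek K ((κ : ℂ) * w)‖)]
      congr 1
      rw [show (2 : ℝ) * Real.log ‖Ek K (((κ - 1 : ℝ) : ℂ) * w)‖ =
        ((2 : ℕ) : ℝ) * Real.log ‖Ek K (((κ - 1 : ℝ) : ℂ) * w)‖ by norm_num, Real.exp_nat_mul,
        Real.exp_log p1]
    have q2 : ‖Ek K ((κ : ℂ) * w)‖ ^ 2 = Real.exp (2 * Real.log ‖Ek K ((κ : ℂ) * w)‖) := by
      rw [show (2 : ℝ) * Real.log ‖Ek K ((κ : ℂ) * w)‖ =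
        ((2 : ℕ) : ℝ) * Real.log ‖Ek K ((κ : ℂ) * w)‖ by norm_num, Real.exp_nat_mul, Real.exp_log p2]
    refine le_trans ?_ (le_add_of_nonneg_right (by positivity))
    rw [q1, q2, ← Real.exp_add]
    refine Real.exp_le_exp.2 ?_
    have t1 : 2 / κ * Real.log ‖Ek K ((κ : ℂ) * w)‖ ≤ 2 / κ * (κ * w.re + 2 * E) :=
      mul_le_mul_of_nonneg_left (by linarith) (by positivity)
    have t2 : 2 / κ * (κ * w.re + 2 * E) = 2 * w.re + 4 / κ * E := by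
      field_simp
      ring
    have t3 : 8 * E ≤ 8 / κ * E := by
      have : 8 ≤ 8 / κ := by
        rw [le_div_iff₀ h0]
        linarith
      gcongr
    have t4 : 12 / κ * E = 4 / κ * E + 8 / κ * E := by ring
    rw [t4]
    linarith [l1.2, l2.1, l2.2]
  · have b1 := Ek_bad (K := K) (w := w) (by omega) hc1 hw.le
    have b2 := Ek_bad (K := K) (w := w) (by omega) hc2 hw.le
    set Rq : ℝ := 102 * ‖w‖ / K with hQ
    have hQ1 : 1 ≤ Rq := by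
      rw [hQ, le_div_iff₀ hK0]
      linarith
    have hQ0 : 0 < Rq := by linarith
    have e3 : ‖(((102 / K : ℝ) : ℂ) * w) ^ (r * K)‖ ^ 2 = Rq ^ ((2 * (r * K) : ℕ) : ℝ) := by
      have e4 : 102 / (K : ℝ) * ‖w‖ = Rq := by
        rw [hQ]
        ring
      rw [norm_pow, norm_mul, Complex.norm_real, Real.norm_eq_abs, abs_of_nonneg (by positivity), e4,
        ← pow_mul, Real.rpow_natCast, mul_comm 2]
    refine le_trans ?_ (le_add_of_nonneg_left (by positivity))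
    rw [e3]
    calc ‖Ek K (((κ - 1 : ℝ) : ℂ) * w)‖ ^ 2 * ‖Ek K ((κ : ℂ) * w)‖ ^ (2 / κ)
        ≤ (Rq ^ K) ^ 2 * (Rq ^ K) ^ (2 / κ) := by
          gcongr
      _ = Rq ^ ((K : ℝ) * 2 + K * (2 / κ)) := by
          rw [Real.rpow_add hQ0, Real.rpow_mul hQ0.le, Real.rpow_mul hQ0.le, Real.rpow_natCast]
          norm_num
      _ ≤ Rq ^ ((2 * (r * K) : ℕ) : ℝ) := by
          refine Real.rpow_le_rpow_of_exponent_le hQ1 ?_
          push_cast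
          have : (K : ℝ) * 2 + K * (2 / κ) = 2 * K * (1 + 1 / κ) := by ring
          rw [this]
          nlinarith

end CZ
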