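import Pool.Agent.Lib.MP_9eae41_pr.D0
import Pool.Agent.Lib.MP_d9bc60_nt.AQ.QMert

set_option autoImplicit false

open Complex MeasureTheory Set Filter Topology
open scoped ComplexConjugate ENNReal

namespace CZ

/-! Row M1 (200 lines): Mertens on the dyadic blocks, from AP.mertens and AP.h08_one in
Lib/MP_d9bc60_nt/AQ/QMert.lean. -/

/-- Mertens' second theorem on (c, e] -/
theorem m1_pair : ∃ C : ℝ, 0 < C ∧ ∀ c e : ℕ, 2 ≤ c → c ≤ e →
    |∑ p ∈ (Finset.Ioc c e).filter Nat.Prime, (1 : ℝ) / p - (Real.log (Real.log e) - Real.log (Real.log c))| ≤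
      C / Real.log c := by
  obtain ⟨C, hC, hR⟩ := Pool.Agent.Lib.MP_d9bc60_nt.AP.h08_one
  refine ⟨3 * C + 1, by linarith, fun c e hc hce => ?_⟩
  have hst := Pool.Agent.Lib.MP_d9bc60_nt.AP.h08_step C hR c hc e hce
  have hcR : (2 : ℝ) ≤ c := by exact_mod_cast hc
  have heR : (c : ℝ) ≤ e := by exact_mod_cast hce
  have hlc : 0 < Real.log c := Real.log_pos (by linarith)
  have hlce : Real.log c ≤ Real.log e := Real.log_le_log (by linarith) heR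
  have hle : 0 < Real.log e := lt_of_lt_of_le hlc hlce
  have hie : 1 / Real.log e ≤ 1 / Real.log c := one_div_le_one_div_of_le hlc hlce
  have hie0 : 0 < 1 / Real.log e := by positivity
  have hRc : |(∑ p ∈ (Finset.Icc 1 c).filter Nat.Prime, Real.log p / (p : ℝ) - Real.log c) / Real.log c| ≤
      C * (1 / Real.log c) := by
    rw [abs_div, abs_of_pos hlc, mul_one_div]
    exact div_le_div_of_nonneg_right (hR c (by omega)) hlc.le
  have hRe : |(∑ p ∈ (Finset.Icc 1 e).filter Nat.Prime, Real.log p / (p : ℝ) - Real.log e) / Real.log e| ≤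
      C * (1 / Real.log c) := by
    rw [abs_div, abs_of_pos hle]
    refine (div_le_div_of_nonneg_right (hR e (by omega)) hle.le).trans ?_
    rw [← mul_one_div]
    exact mul_le_mul_of_nonneg_left hie hC.le
  have h5 : (C + 1) * (1 / Real.log c - 1 / Real.log e) ≤ (C + 1) * (1 / Real.log c) :=
    mul_le_mul_of_nonneg_left (by linarith) (by linarith)
  have h8 : (3 * C + 1) / Real.log c = 3 * (C * (1 / Real.log c)) + 1 / Real.log c := by ring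
  have h7 : (C + 1) * (1 / Real.log c) = C * (1 / Real.log c) + 1 / Real.log c := by ring
  rw [h8]
  rw [h7] at h5
  rw [abs_le] at hst hRc hRe ⊢
  constructor
  · linarith only [hst.1, hRc.1, hRe.1, hRc.2, hRe.2, hie, hie0, h5]
  · linarith only [hst.2, hRc.1, hRe.1, hRc.2, hRe.2, hie, hie0, h5]

theorem m1_union (y : ℕ) (hy : 1 ≤ y) (f : ℕ → ℝ) (M : ℕ) :
    ∑ n ∈ Finset.Icc 1 M, ∑ p ∈ blk y n, f p = ∑ p ∈ (Finset.Ioc y (y ^ (2 ^ M))).filter Nat.Prime, f p := by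
  induction M with
  | zero => simp
  | succ M ih =>
    rw [Finset.sum_Icc_succ_top (by omega), ih]
    have h1 : y ≤ y ^ (2 ^ M) := by
      calc y = y ^ 1 := (pow_one y).symm
        _ ≤ y ^ (2 ^ M) := Nat.pow_le_pow_right hy Nat.one_le_two_pow
    have h2 : y ^ (2 ^ M) ≤ y ^ (2 ^ (M + 1)) :=
      Nat.pow_le_pow_right hy (Nat.pow_le_pow_right (by norm_num) (by omega))
    have h3 : Finset.Ioc y (y ^ (2 ^ (M + 1))) =
        Finset.Ioc y (y ^ (2 ^ M)) ∪ Finset.Ioc (y ^ (2 ^ M)) (y ^ (2 ^ (M + 1))) :=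
      (Finset.Ioc_union_Ioc_eq_Ioc h1 h2).symm
    rw [h3, Finset.filter_union, Finset.sum_union]
    · rfl
    · rw [Finset.disjoint_left]
      intro p hp hq
      rw [Finset.mem_filter, Finset.mem_Ioc] at hp hq
      omega

theorem m1_loglog (y : ℕ) (hy : 2 ≤ y) (m : ℕ) :
    Real.log (Real.log ((y ^ (2 ^ m) : ℕ) : ℝ)) = m * Real.log 2 + Real.log (Real.log y) := by
  have hyR : (2 : ℝ) ≤ y := by exact_mod_cast hy
  have hly : 0 < Real.log y := Real.log_pos (by linarith)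
  rw [Nat.cast_pow, Real.log_pow, Real.log_mul (by positivity) hly.ne']
  rw [Nat.cast_pow, Real.log_pow]
  norm_num

theorem m1_logy (C : ℝ) : ∃ y0 : ℕ, 100 ≤ y0 ∧ ∀ y : ℕ, y0 ≤ y → C ≤ Real.log y := by
  refine ⟨max 100 ⌈Real.exp C⌉₊, le_max_left _ _, fun y hy => ?_⟩
  have h1 : ⌈Real.exp C⌉₊ ≤ y := (le_max_right _ _).trans hy
  have h2 : Real.exp C ≤ y := (Nat.le_ceil _).trans (by exact_mod_cast h1)
  have h3 : 0 < (y : ℝ) := lt_of_lt_of_le (Real.exp_pos C) h2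
  rwa [Real.le_log_iff_exp_le h3]

theorem mert_blk : ∃ y0 : ℕ, 100 ≤ y0 ∧ ∀ y : ℕ, y0 ≤ y → (∀ n : ℕ, 1 ≤ n → ∑ p ∈ blk y n, (1 : ℝ) / p ≤ 1) ∧
    ∀ M : ℕ, |∑ n ∈ Finset.Icc 1 M, ∑ p ∈ blk y n, (1 : ℝ) / p - M * Real.log 2| ≤ 1 := by
  obtain ⟨C, hC, h⟩ := m1_pair
  obtain ⟨y0, h100, hy0⟩ := m1_logy (4 * C + 1)
  refine ⟨y0, h100, fun y hy => ?_⟩
  have hly := hy0 y hy
  have hy2 : 2 ≤ y := by omega
  have hyR : (2 : ℝ) ≤ y := by exact_mod_cast hy2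
  have hlp : 0 < Real.log y := by linarith
  have hq : C / Real.log y ≤ 1 / 4 := by
    rw [div_le_iff₀ hlp]; linarith
  constructor
  · intro n hn
    obtain ⟨m, rfl⟩ : ∃ m, n = m + 1 := ⟨n - 1, by omega⟩
    have h1 : y ≤ y ^ (2 ^ m) := by
      calc y = y ^ 1 := (pow_one y).symm
        _ ≤ y ^ (2 ^ m) := Nat.pow_le_pow_right (by omega) Nat.one_le_two_pow
    have h2 : y ^ (2 ^ m) ≤ y ^ (2 ^ (m + 1)) :=
      Nat.pow_le_pow_right (by omega) (Nat.pow_le_pow_right (by norm_num) (by omega))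
    have h3 := h (y ^ (2 ^ m)) (y ^ (2 ^ (m + 1))) (by omega) h2
    rw [m1_loglog y hy2, m1_loglog y hy2] at h3
    have h4 : Real.log y ≤ Real.log ((y ^ (2 ^ m) : ℕ) : ℝ) :=
      Real.log_le_log (by linarith) (by exact_mod_cast h1)
    have h5 : C / Real.log ((y ^ (2 ^ m) : ℕ) : ℝ) ≤ 1 / 4 :=
      (div_le_div_of_nonneg_left hC.le hlp h4).trans hq
    have h6 := (abs_le.1 h3).2
    have h7 := Real.log_two_lt_d9
    have h8 : ((m + 1 : ℕ) : ℝ) = m + 1 := by push_cast; ring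
    rw [h8] at h6
    show ∑ p ∈ (Finset.Ioc (y ^ (2 ^ m)) (y ^ (2 ^ (m + 1)))).filter Nat.Prime, (1 : ℝ) / p ≤ 1
    nlinarith only [h6, h5, h7]
  · intro M
    rw [m1_union y (by omega) (fun p => (1 : ℝ) / p) M]
    have h1 : y ≤ y ^ (2 ^ M) := by
      calc y = y ^ 1 := (pow_one y).symm
        _ ≤ y ^ (2 ^ M) := Nat.pow_le_pow_right (by omega) Nat.one_le_two_pow
    have h3 := h y (y ^ (2 ^ M)) hy2 h1
    rw [m1_loglog y hy2] at h3
    have h4 : (M : ℝ) * Real.log 2 + Real.log (Real.log y) - Real.log (Real.log y) = M * Real.log 2 := by ring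
    rw [h4] at h3
    linarith only [h3, hq]

/-- the blocks satisfy the standing hypotheses -/
theorem blk_ok : ∃ y0 : ℕ, 100 ≤ y0 ∧ ∀ y : ℕ, y0 ≤ y → ∀ (T : ℝ) (M : ℕ) (z : ℂ), 3 ≤ T →
    2 ^ M * Real.log y ≤ 1/2 * Real.log T → ‖z‖ ≤ 1 / Real.log T → ∀ n ∈ Finset.Icc 1 M, Bk z (blk y n) := by
  obtain ⟨y0, h100, h⟩ := mert_blk
  refine ⟨y0, h100, fun y hy T M z hT hM hz n hn => ?_⟩
  obtain ⟨hn1, hnM⟩ := Finset.mem_Icc.1 hn
  refine ⟨fun p hp => ?_, (h y hy).1 n hn1⟩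
  obtain ⟨m, rfl⟩ : ∃ m, n = m + 1 := ⟨n - 1, by omega⟩
  have hp' : p ∈ (Finset.Ioc (y ^ (2 ^ m)) (y ^ (2 ^ (m + 1)))).filter Nat.Prime := hp
  rw [Finset.mem_filter, Finset.mem_Ioc] at hp'
  obtain ⟨⟨hp1, hp2⟩, hpp⟩ := hp'
  have h1 : y ≤ y ^ (2 ^ m) := by
    calc y = y ^ 1 := (pow_one y).symm
      _ ≤ y ^ (2 ^ m) := Nat.pow_le_pow_right (by omega) Nat.one_le_two_pow
  refine ⟨hpp, by omega, ?_⟩
  have hyR : (100 : ℝ) ≤ y := by exact_mod_cast h100.trans hy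
  have hly : 0 < Real.log y := Real.log_pos (by linarith)
  have hlT : 0 < Real.log T := Real.log_pos (by linarith)
  have hp0 : (0 : ℝ) < p := by exact_mod_cast hpp.pos
  have hlp : Real.log p ≤ 2 ^ M * Real.log y := by
    have h2 : p ≤ y ^ (2 ^ M) := hp2.trans (Nat.pow_le_pow_right (by omega)
      (Nat.pow_le_pow_right (by norm_num) hnM))
    calc Real.log p ≤ Real.log ((y ^ (2 ^ M) : ℕ) : ℝ) := Real.log_le_log hp0 (by exact_mod_cast h2)
      _ = 2 ^ M * Real.log y := by rw [Nat.cast_pow, Real.log_pow]; push_cast; ring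
  have hlp0 : 0 ≤ Real.log p := Real.log_nonneg (by exact_mod_cast hpp.one_lt.le)
  calc ‖z‖ * Real.log p ≤ (1 / Real.log T) * (1/2 * Real.log T) := by
        apply mul_le_mul hz (hlp.trans hM) hlp0 (by positivity)
    _ = 1/2 := by field_simp

theorem Er_sum : ∃ C : ℝ, 0 < C ∧ ∀ (y : ℕ) (T : ℝ) (M : ℕ) (z : ℂ), 2 ≤ y → 3 ≤ T →
    2 ^ M * Real.log y ≤ Real.log T → ‖z‖ ≤ 1 / Real.log T → ∑ n ∈ Finset.Icc 1 M, Er z (blk y n) ≤ C := by
  obtain ⟨C, hC, hR⟩ := Pool.Agent.Lib.MP_d9bc60_nt.AP.h08_one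
  have hsum : Summable (fun n : ℕ => (n : ℝ) ^ (-(3/2) : ℝ)) := by
    rw [Real.summable_nat_rpow]; norm_num
  have hts : 0 ≤ ∑' n : ℕ, (n : ℝ) ^ (-(3/2) : ℝ) :=
    tsum_nonneg fun n => Real.rpow_nonneg (Nat.cast_nonneg n) _
  refine ⟨1 + C + ∑' n : ℕ, (n : ℝ) ^ (-(3/2) : ℝ), by linarith, fun y T M z hy hT hM hz => ?_⟩
  have hyR : (2 : ℝ) ≤ y := by exact_mod_cast hy
  have hly : 0 < Real.log y := Real.log_pos (by linarith)
  have hlT1 : 1 ≤ Real.log T := by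
    rw [Real.le_log_iff_exp_le (by linarith)]
    linarith [Real.exp_one_lt_d9]
  have hlT : 0 < Real.log T := by linarith
  have e1 : ∑ n ∈ Finset.Icc 1 M, Er z (blk y n) =
      ∑ p ∈ (Finset.Ioc y (y ^ (2 ^ M))).filter Nat.Prime,
        (‖z‖ * Real.log p / p + (p : ℝ) ^ (-(3/2) : ℝ)) :=
    m1_union y (by omega) (fun p => ‖z‖ * Real.log p / p + (p : ℝ) ^ (-(3/2) : ℝ)) M
  rw [e1, Finset.sum_add_distrib]
  have h2 : ∑ p ∈ (Finset.Ioc y (y ^ (2 ^ M))).filter Nat.Prime, (p : ℝ) ^ (-(3/2) : ℝ) ≤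
      ∑' n : ℕ, (n : ℝ) ^ (-(3/2) : ℝ) :=
    hsum.sum_le_tsum _ (fun n _ => Real.rpow_nonneg (Nat.cast_nonneg n) _)
  have h3 : ∑ p ∈ (Finset.Ioc y (y ^ (2 ^ M))).filter Nat.Prime, ‖z‖ * Real.log p / (p : ℝ) ≤ 1 + C := by
    have hsub : (Finset.Ioc y (y ^ (2 ^ M))).filter Nat.Prime ⊆
        (Finset.Icc 1 (y ^ (2 ^ M))).filter Nat.Prime := by
      intro p hp
      rw [Finset.mem_filter, Finset.mem_Ioc] at hp
      rw [Finset.mem_filter, Finset.mem_Icc]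
      exact ⟨⟨by omega, hp.1.2⟩, hp.2⟩
    have h4 : ∑ p ∈ (Finset.Ioc y (y ^ (2 ^ M))).filter Nat.Prime, Real.log p / (p : ℝ) ≤
        ∑ p ∈ (Finset.Icc 1 (y ^ (2 ^ M))).filter Nat.Prime, Real.log p / (p : ℝ) :=
      Finset.sum_le_sum_of_subset_of_nonneg hsub fun p _ _ =>
        div_nonneg (Real.log_natCast_nonneg p) (Nat.cast_nonneg p)
    have h5 := (abs_le.1 (hR (y ^ (2 ^ M)) (Nat.one_le_pow _ _ (by omega)))).2
    have h6 : Real.log ((y ^ (2 ^ M) : ℕ) : ℝ) = 2 ^ M * Real.log y := by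
      rw [Nat.cast_pow, Real.log_pow]; push_cast; ring
    rw [h6] at h5
    have h7 : ∑ p ∈ (Finset.Ioc y (y ^ (2 ^ M))).filter Nat.Prime, Real.log p / (p : ℝ) ≤
        Real.log T + C := by linarith
    have h8 : 0 ≤ ∑ p ∈ (Finset.Ioc y (y ^ (2 ^ M))).filter Nat.Prime, Real.log p / (p : ℝ) :=
      Finset.sum_nonneg fun p _ => div_nonneg (Real.log_natCast_nonneg p) (Nat.cast_nonneg p)
    calc ∑ p ∈ (Finset.Ioc y (y ^ (2 ^ M))).filter Nat.Prime, ‖z‖ * Real.log p / (p : ℝ)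
        = ‖z‖ * ∑ p ∈ (Finset.Ioc y (y ^ (2 ^ M))).filter Nat.Prime, Real.log p / (p : ℝ) := by
          rw [Finset.mul_sum]
          exact Finset.sum_congr rfl fun p _ => by ring
      _ ≤ (1 / Real.log T) * (Real.log T + C) :=
          mul_le_mul hz h7 h8 (by positivity)
      _ = 1 + C / Real.log T := by field_simp
      _ ≤ 1 + C := by
          have : C / Real.log T ≤ C := div_le_self hC.le hlT1
          linarith
  linarith

/-- exponent sums of constant coefficients -/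
theorem Sg_const : ∃ y0 : ℕ, 100 ≤ y0 ∧ ∀ y : ℕ, y0 ≤ y → ∀ (a : ℕ) (c : ℝ) (M : ℕ), a ≤ 1 →
    |Sg a (fun _ => (c : ℂ)) y M - (((a : ℝ) + c) ^ 2 - a) * M * Real.log 2| ≤ |((a : ℝ) + c) ^ 2 - a| := by
  obtain ⟨y0, h100, h⟩ := mert_blk
  refine ⟨y0, h100, fun y hy a c M _ => ?_⟩
  have h1 := (h y hy).2 M
  have h2 : ‖(a : ℂ) + (c : ℂ)‖ ^ 2 = ((a : ℝ) + c) ^ 2 := by
    have : (a : ℂ) + (c : ℂ) = (((a : ℝ) + c : ℝ) : ℂ) := by push_cast; ring
    rw [this, Complex.norm_real, Real.norm_eq_abs, sq_abs]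
  have h3 : Sg a (fun _ => (c : ℂ)) y M = (((a : ℝ) + c) ^ 2 - a) *
      ∑ n ∈ Finset.Icc 1 M, ∑ p ∈ blk y n, (1 : ℝ) / p := by
    unfold Sg Sb
    rw [Finset.mul_sum]
    refine Finset.sum_congr rfl fun n _ => ?_
    rw [Finset.mul_sum]
    refine Finset.sum_congr rfl fun p _ => ?_
    rw [h2]; ring
  rw [h3]
  have h4 : (((a : ℝ) + c) ^ 2 - a) * ∑ n ∈ Finset.Icc 1 M, ∑ p ∈ blk y n, (1 : ℝ) / p -
      (((a : ℝ) + c) ^ 2 - a) * M * Real.log 2 = (((a : ℝ) + c) ^ 2 - a) *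
      (∑ n ∈ Finset.Icc 1 M, ∑ p ∈ blk y n, (1 : ℝ) / p - M * Real.log 2) := by ring
  rw [h4, abs_mul]
  exact mul_le_of_le_one_right (abs_nonneg _) h1

end CZ
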