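import Pool.Agent.Lib.MP_9eae41_pr.D0
import Pool.Agent.Lib.MP_9dc83d_nt.Mertens

set_option autoImplicit false

open Complex MeasureTheory Set Filter Topology
open scoped ComplexConjugate ENNReal

namespace CZ

/-! Row M3 (300 lines): the oscillating prime sum. For 0 < sig, |u| <= 1, |log|zeta(1+sig+iu)| - log 1/|sig+iu|| <= C and
log|zeta(1+sig+iu)| = sum cos(u log p) p^(-1-sig) + O(1). With sig = 1/log x: the sum over p <= x of
cos(u log p)/p is log min(log x, 1/|u|) + O(1) (tails by Mertens 1). Subtract x = y^(2^n) and x = y^(2^M). -/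

/-- the summand -/
noncomputable def m3_g (σ u : ℝ) (n : ℕ) : ℝ :=
  if n.Prime then (n : ℝ) ^ (-(1 + σ)) * Real.cos (u * Real.log n) else 0

theorem m3_g_abs (σ u : ℝ) (n : ℕ) : |m3_g σ u n| ≤ m3_g σ 0 n := by
  unfold m3_g
  split_ifs with h
  · rw [abs_mul, abs_of_nonneg (by positivity), zero_mul, Real.cos_zero, mul_one]
    exact mul_le_of_le_one_right (by positivity) (Real.abs_cos_le_one _)
  · simp

theorem m3_g0_le (σ : ℝ) (n : ℕ) : m3_g σ 0 n ≤ (n : ℝ) ^ (-(1 + σ)) := by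
  unfold m3_g
  split_ifs with h
  · rw [zero_mul, Real.cos_zero, mul_one]
  · positivity

theorem m3_g0_nonneg (σ : ℝ) (n : ℕ) : 0 ≤ m3_g σ 0 n :=
  le_trans (abs_nonneg _) (m3_g_abs σ 0 n)

theorem m3_g_summable {σ : ℝ} (hσ : 0 < σ) (u : ℝ) : Summable (m3_g σ u) := by
  refine Summable.of_norm_bounded (g := fun n : ℕ => (n : ℝ) ^ (-(1 + σ)))
    (Real.summable_nat_rpow.mpr (by linarith)) fun n => ?_
  rw [Real.norm_eq_abs]
  exact le_trans (m3_g_abs σ u n) (m3_g0_le σ n)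

/-- the constant sum of 1/n^2 -/
noncomputable def m3_Q : ℝ := ∑' n : ℕ, 1 / (n : ℝ) ^ 2

theorem m3_zeta {σ : ℝ} (hσ : 0 < σ) (u : ℝ) :
    |Real.log ‖riemannZeta (1 + σ + u * I)‖ - ∑' n, m3_g σ u n| ≤ m3_Q := by
  set s : ℂ := 1 + σ + u * I with hs
  have hre : s.re = 1 + σ := by simp [hs]
  have him : s.im = u := by simp [hs]
  have h1 : 1 < s.re := by rw [hre]; linarith
  have hz : ∀ p : Nat.Primes, ‖((p : ℕ) : ℂ) ^ (-s)‖ = (p : ℝ) ^ (-(1 + σ)) := by
    intro p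
    rw [Complex.norm_natCast_cpow_of_pos p.prop.pos, neg_re, hre]
  have hzre : ∀ p : Nat.Primes, (((p : ℕ) : ℂ) ^ (-s)).re = m3_g σ u p := by
    intro p
    have hp0 : ((p : ℕ) : ℂ) ≠ 0 := by exact_mod_cast p.prop.ne_zero
    have hpp : (0 : ℝ) < (p : ℕ) := by exact_mod_cast p.prop.pos
    rw [Complex.cpow_def_of_ne_zero hp0, Complex.exp_re, ← Complex.natCast_log]
    unfold m3_g
    rw [if_pos p.prop, Real.rpow_def_of_pos hpp]
    simp only [mul_re, mul_im, neg_re, neg_im, ofReal_re, ofReal_im, zero_mul, sub_zero, add_zero,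
      hre, him]
    congr 1
    rw [← Real.cos_neg]
    congr 1
    ring
  have hhalf : ∀ p : Nat.Primes, (p : ℝ) ^ (-(1 + σ)) ≤ 1 / (p : ℝ) := by
    intro p
    have hp1 : (1 : ℝ) ≤ (p : ℕ) := by exact_mod_cast p.prop.one_lt.le
    rw [one_div, ← Real.rpow_neg_one]
    exact Real.rpow_le_rpow_of_exponent_le hp1 (by linarith)
  have hlt : ∀ p : Nat.Primes, ‖((p : ℕ) : ℂ) ^ (-s)‖ ≤ 1 / 2 := by
    intro p
    rw [hz]
    refine le_trans (hhalf p) ?_
    have hp2 : (2 : ℝ) ≤ (p : ℕ) := by exact_mod_cast p.prop.two_le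
    exact one_div_le_one_div_of_le (by norm_num) hp2
  have hterm : ∀ p : Nat.Primes, |(-Complex.log (1 - ((p : ℕ) : ℂ) ^ (-s))).re - m3_g σ u p| ≤
      1 / ((p : ℕ) : ℝ) ^ 2 := by
    intro p
    have hn := hlt p
    have h := Complex.norm_log_one_add_sub_self_le (z := -((p : ℕ) : ℂ) ^ (-s))
      (by rw [norm_neg]; linarith)
    rw [norm_neg] at h
    have e : (-Complex.log (1 - ((p : ℕ) : ℂ) ^ (-s))).re - m3_g σ u p =
        -(Complex.log (1 + -((p : ℕ) : ℂ) ^ (-s)) - -((p : ℕ) : ℂ) ^ (-s)).re := by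
      rw [← hzre]
      simp only [sub_re, neg_re, ← sub_eq_add_neg]
      ring
    rw [e, abs_neg]
    refine le_trans (Complex.abs_re_le_norm _) (le_trans h ?_)
    have h2 : (1 - ‖((p : ℕ) : ℂ) ^ (-s)‖)⁻¹ ≤ 2 := by
      rw [inv_le_comm₀ (by linarith) (by norm_num)]
      linarith
    have h3 : ‖((p : ℕ) : ℂ) ^ (-s)‖ ≤ 1 / (p : ℝ) := by rw [hz]; exact hhalf p
    calc ‖((p : ℕ) : ℂ) ^ (-s)‖ ^ 2 * (1 - ‖((p : ℕ) : ℂ) ^ (-s)‖)⁻¹ / 2
        ≤ ‖((p : ℕ) : ℂ) ^ (-s)‖ ^ 2 * 2 / 2 := by gcongr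
      _ = ‖((p : ℕ) : ℂ) ^ (-s)‖ ^ 2 := by ring
      _ ≤ (1 / (p : ℝ)) ^ 2 := by gcongr
      _ = _ := by rw [one_div_pow]
  have hQs : Summable (fun n : ℕ => 1 / (n : ℝ) ^ 2) := Real.summable_one_div_nat_pow.mpr (by norm_num)
  have hQp : Summable (fun p : Nat.Primes => 1 / ((p : ℕ) : ℝ) ^ 2) :=
    hQs.comp_injective Subtype.coe_injective
  have hgp : Summable (fun p : Nat.Primes => m3_g σ u p) :=
    (m3_g_summable hσ u).comp_injective Subtype.coe_injective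
  have hdiff : Summable (fun p : Nat.Primes => (-Complex.log (1 - ((p : ℕ) : ℂ) ^ (-s))).re -
      m3_g σ u p) := Summable.of_norm_bounded hQp hterm
  have hlog : Summable (fun p : Nat.Primes => -Complex.log (1 - ((p : ℕ) : ℂ) ^ (-s))) := by
    have hb : Summable (fun p : Nat.Primes => ((p : ℕ) : ℝ) ^ (-(1 + σ))) :=
      (Real.summable_nat_rpow.mpr (by linarith : -(1 + σ) < -1)).comp_injective
        Subtype.coe_injective
    refine Summable.of_norm_bounded (hb.mul_left 2) fun p => ?_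
    have hn := hlt p
    have h := Complex.norm_log_one_add_sub_self_le (z := -((p : ℕ) : ℂ) ^ (-s))
      (by rw [norm_neg]; linarith)
    rw [norm_neg] at h
    have h2 : (1 - ‖((p : ℕ) : ℂ) ^ (-s)‖)⁻¹ ≤ 2 := by
      rw [inv_le_comm₀ (by linarith) (by norm_num)]
      linarith
    have e : -Complex.log (1 - ((p : ℕ) : ℂ) ^ (-s)) =
        -(Complex.log (1 + -((p : ℕ) : ℂ) ^ (-s)) - -((p : ℕ) : ℂ) ^ (-s)) +
          ((p : ℕ) : ℂ) ^ (-s) := by
      simp only [← sub_eq_add_neg]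
      ring
    rw [e]
    refine le_trans (norm_add_le _ _) ?_
    rw [norm_neg, ← hz]
    have h0 := norm_nonneg (((p : ℕ) : ℂ) ^ (-s))
    have h4 : ‖((p : ℕ) : ℂ) ^ (-s)‖ ^ 2 * (1 - ‖((p : ℕ) : ℂ) ^ (-s)‖)⁻¹ / 2 ≤
        ‖((p : ℕ) : ℂ) ^ (-s)‖ := by
      calc ‖((p : ℕ) : ℂ) ^ (-s)‖ ^ 2 * (1 - ‖((p : ℕ) : ℂ) ^ (-s)‖)⁻¹ / 2
          ≤ ‖((p : ℕ) : ℂ) ^ (-s)‖ ^ 2 * 2 / 2 := by gcongr
        _ = ‖((p : ℕ) : ℂ) ^ (-s)‖ * ‖((p : ℕ) : ℂ) ^ (-s)‖ := by ring
        _ ≤ ‖((p : ℕ) : ℂ) ^ (-s)‖ * 1 := by gcongr; linarith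
        _ = _ := mul_one _
    linarith
  have hE := riemannZeta_eulerProduct_exp_log h1
  have hlz : Real.log ‖riemannZeta s‖ =
      ∑' p : Nat.Primes, (-Complex.log (1 - ((p : ℕ) : ℂ) ^ (-s))).re := by
    rw [← hE, Complex.norm_exp, Real.log_exp, Complex.re_tsum hlog]
  have hgs : ∑' n, m3_g σ u n = ∑' p : Nat.Primes, m3_g σ u p := by
    have h := tsum_subtype {p : ℕ | p.Prime} (m3_g σ u)
    have e : {p : ℕ | p.Prime}.indicator (m3_g σ u) = m3_g σ u := by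
      funext n
      by_cases hn : n.Prime
      · rw [indicator_of_mem (by exact hn)]
      · rw [indicator_of_notMem (by exact hn)]
        unfold m3_g
        rw [if_neg hn]
    rw [e] at h
    exact h.symm
  have hre_s : Summable (fun p : Nat.Primes => (-Complex.log (1 - ((p : ℕ) : ℂ) ^ (-s))).re) := by
    have := hdiff.add hgp
    simpa using this
  rw [hlz, hgs, ← hre_s.tsum_sub hgp]
  have hb := norm_tsum_le_tsum_norm hdiff.norm
  rw [Real.norm_eq_abs] at hb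
  refine le_trans hb ?_
  refine le_trans (Summable.tsum_le_tsum (fun p => hterm p) hdiff.norm hQp) ?_
  unfold m3_Q
  exact tsum_comp_le_tsum_of_inj hQs (fun _ => by positivity) Subtype.coe_injective

/-- near 1 the function (s-1) zeta(s) is bounded and bounded away from zero -/
theorem m3_near : ∃ C : ℝ, 0 < C ∧ ∀ σ u : ℝ, 0 < σ → σ ≤ 1 → |u| ≤ 1 →
    |Real.log ‖riemannZeta (1 + σ + u * I)‖ + Real.log ‖(σ : ℂ) + u * I‖| ≤ C := by
  set G : ℂ → ℂ := Function.update (fun s => (s - 1) * riemannZeta s) 1 1 with hG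
  set K : Set ℂ := Icc (1 : ℝ) 2 ×ℂ Icc (-1 : ℝ) 1 with hK
  have hKc : IsCompact K := isCompact_Icc.reProdIm isCompact_Icc
  have hcont : Continuous G := by
    rw [continuous_iff_continuousAt]
    intro s
    by_cases hs : s = 1
    · rw [hs, hG, continuousAt_update_same]
      exact riemannZeta_residue_one
    · rw [hG]
      refine (continuousAt_update_of_ne hs).mpr ?_
      exact (continuousAt_id.sub continuousAt_const).mul
        (differentiableAt_riemannZeta hs).continuousAt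
  have hne : ∀ s ∈ K, G s ≠ 0 := by
    intro s hs
    by_cases h1 : s = 1
    · rw [h1, hG, Function.update_self]
      exact one_ne_zero
    · rw [hG, Function.update_of_ne h1]
      refine mul_ne_zero (sub_ne_zero.mpr h1) (riemannZeta_ne_zero_of_one_le_re ?_)
      rw [hK, Complex.mem_reProdIm] at hs
      exact hs.1.1
  have hlc : ContinuousOn (fun s => Real.log ‖G s‖) K := by
    refine ContinuousOn.log hcont.norm.continuousOn fun s hs => ?_
    exact norm_ne_zero_iff.mpr (hne s hs)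
  obtain ⟨C, hC⟩ := hKc.exists_bound_of_continuousOn hlc
  refine ⟨|C| + 1, by positivity, fun σ u h0 h1 hu => ?_⟩
  have hmem : (1 + σ + u * I : ℂ) ∈ K := by
    rw [hK, Complex.mem_reProdIm]
    have hre : (1 + σ + u * I : ℂ).re = 1 + σ := by simp
    have him : (1 + σ + u * I : ℂ).im = u := by simp
    rw [hre, him]
    exact ⟨⟨by linarith, by linarith⟩, abs_le.mp hu⟩
  have hne1 : (1 + σ + u * I : ℂ) ≠ 1 := by
    intro h
    have := congrArg Complex.re h
    simp at this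
    linarith
  have hb := hC _ hmem
  have hval : G (1 + σ + u * I) = (σ + u * I) * riemannZeta (1 + σ + u * I) := by
    rw [hG, Function.update_of_ne hne1]
    congr 1
    ring
  have hz : riemannZeta (1 + σ + u * I) ≠ 0 := by
    refine riemannZeta_ne_zero_of_one_le_re ?_
    simp
    linarith
  have hs0 : (σ : ℂ) + u * I ≠ 0 := by
    intro h
    have := congrArg Complex.re h
    simp at this
    linarith
  simp only [hval, norm_mul, Real.norm_eq_abs] at hb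
  rw [Real.log_mul (norm_ne_zero_iff.mpr hs0) (norm_ne_zero_iff.mpr hz)] at hb
  rw [add_comm]
  have := le_abs_self C
  linarith

/-- the sum over the primes up to N as a sum over a range -/
theorem m3_range (F : ℕ → ℝ) (N : ℕ) : ∑ n ∈ Finset.range (N + 1), (if n.Prime then F n else 0) =
    ∑ p ∈ (Finset.Icc 1 N).filter Nat.Prime, F p := by
  rw [← Finset.sum_filter]
  refine Finset.sum_congr ?_ fun _ _ => rfl
  ext p
  simp only [Finset.mem_filter, Finset.mem_range, Finset.mem_Icc]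
  constructor
  · rintro ⟨h1, h2⟩
    exact ⟨⟨h2.one_lt.le, by omega⟩, h2⟩
  · rintro ⟨⟨h1, h3⟩, h2⟩
    exact ⟨by omega, h2⟩

theorem m3_sq (N : ℕ) : ∑ p ∈ (Finset.Icc 1 N).filter Nat.Prime, ((p : ℝ)⁻¹) ^ 2 ≤ m3_Q := by
  have hQs : Summable (fun n : ℕ => 1 / (n : ℝ) ^ 2) := Real.summable_one_div_nat_pow.mpr (by norm_num)
  have h := hQs.sum_le_tsum ((Finset.Icc 1 N).filter Nat.Prime) (fun _ _ => by positivity)
  refine le_trans (le_of_eq ?_) h
  refine Finset.sum_congr rfl fun p _ => ?_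
  rw [inv_pow, one_div]

/-- lower bound in Mertens 2 -/
theorem m3_low {N : ℕ} (hN : 3 ≤ N) : Real.log (Real.log N) - 2 * m3_Q ≤
    ∑ p ∈ (Finset.Icc 1 N).filter Nat.Prime, (p : ℝ)⁻¹ := by
  have h := Pool.Concat.Mert.prod_upper N
  set P := ∏ p ∈ (Finset.Icc 1 N).filter Nat.Prime, (1 - (p : ℝ)⁻¹) with hP
  have hx : ∀ p ∈ (Finset.Icc 1 N).filter Nat.Prime, 0 < (p : ℝ)⁻¹ ∧ (p : ℝ)⁻¹ ≤ 1 / 2 := by
    intro p hp
    rw [Finset.mem_filter] at hp
    have hp2 : (2 : ℝ) ≤ p := by exact_mod_cast hp.2.two_le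
    refine ⟨by positivity, ?_⟩
    rw [inv_le_comm₀ (by linarith) (by norm_num)]
    linarith
  have hP0 : 0 < P := by
    rw [hP]
    refine Finset.prod_pos fun p hp => ?_
    have := hx p hp
    linarith
  have hN3 : (3 : ℝ) ≤ N := by exact_mod_cast hN
  have hl1 : 1 < Real.log N := by
    rw [Real.lt_log_iff_exp_lt (by linarith)]
    have := Real.exp_one_lt_d9
    linarith
  have hlN : Real.log N ≤ Real.log ((N : ℝ) + 1) := Real.log_le_log (by linarith) (by linarith)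
  have h1 : Real.log N * P ≤ 1 := by
    refine le_trans ?_ h
    rw [mul_comm]
    exact mul_le_mul_of_nonneg_left hlN hP0.le
  have h2 : Real.log (Real.log N) + Real.log P ≤ 0 := by
    rw [← Real.log_mul (by linarith) hP0.ne']
    exact Real.log_nonpos (by positivity) h1
  have h3 : -(∑ p ∈ (Finset.Icc 1 N).filter Nat.Prime, ((p : ℝ)⁻¹ + 2 * ((p : ℝ)⁻¹) ^ 2)) ≤
      Real.log P := by
    rw [hP, Real.log_prod (fun p hp => by have := hx p hp; linarith), ← Finset.sum_neg_distrib]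
    refine Finset.sum_le_sum fun p hp => ?_
    obtain ⟨a, b⟩ := hx p hp
    set x := (p : ℝ)⁻¹ with hxd
    have hpos : 0 < 1 - x := by linarith
    have h4 := Real.one_sub_inv_le_log_of_pos hpos
    refine le_trans ?_ h4
    have h5 : (1 - x)⁻¹ ≤ 1 + x + 2 * x ^ 2 := by
      rw [inv_le_iff_one_le_mul₀ hpos]
      nlinarith [sq_nonneg x, mul_nonneg (sq_nonneg x) (by linarith : (0 : ℝ) ≤ 1 - 2 * x)]
    linarith
  rw [Finset.sum_add_distrib, ← Finset.mul_sum] at h3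
  have h6 := m3_sq N
  linarith

/-- comparison of the prime sum up to N with log zeta at 1 + 1/log N + iu -/
theorem m3_A : ∃ C : ℝ, 0 < C ∧ ∀ (N : ℕ) (u : ℝ), 3 ≤ N → |u| ≤ 1 →
    |∑ p ∈ (Finset.Icc 1 N).filter Nat.Prime, Real.cos (u * Real.log p) / p -
      Real.log ‖riemannZeta (1 + ((1 / Real.log N : ℝ) : ℂ) + u * I)‖| ≤ C := by
  obtain ⟨C1, hC1, hS⟩ := Pool.Concat.Mert.m2_S
  obtain ⟨C2, hC2, hnear⟩ := m3_near
  have hQ0 : 0 ≤ m3_Q := tsum_nonneg fun n => by positivity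
  refine ⟨(1 + C1) + m3_Q + (C2 + m3_Q + 2 * m3_Q + (1 + C1)), by positivity, fun N u hN hu => ?_⟩
  have hN3 : (3 : ℝ) ≤ N := by exact_mod_cast hN
  have hl1 : 1 < Real.log N := by
    rw [Real.lt_log_iff_exp_lt (by linarith)]
    have := Real.exp_one_lt_d9
    linarith
  set σ : ℝ := 1 / Real.log N with hσ
  have hσ0 : 0 < σ := by positivity
  have hσ1 : σ ≤ 1 := by
    rw [hσ, div_le_one (by linarith)]
    exact hl1.le
  -- the finite part
  have hfin : ∀ v : ℝ, |∑ p ∈ (Finset.Icc 1 N).filter Nat.Prime, Real.cos (v * Real.log p) / p -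
      ∑ n ∈ Finset.range (N + 1), m3_g σ v n| ≤ 1 + C1 := by
    intro v
    have e : ∑ n ∈ Finset.range (N + 1), m3_g σ v n =
        ∑ p ∈ (Finset.Icc 1 N).filter Nat.Prime,
          (p : ℝ) ^ (-(1 + σ)) * Real.cos (v * Real.log p) := by
      rw [← m3_range]
      rfl
    rw [e, ← Finset.sum_sub_distrib]
    refine le_trans (Finset.abs_sum_le_sum_abs _ _) ?_
    have hb : ∀ p ∈ (Finset.Icc 1 N).filter Nat.Prime, |Real.cos (v * Real.log p) / p -
        (p : ℝ) ^ (-(1 + σ)) * Real.cos (v * Real.log p)| ≤ σ * (Real.log p / p) := by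
      intro p hp
      rw [Finset.mem_filter] at hp
      have hp0 : (0 : ℝ) < p := by exact_mod_cast hp.2.pos
      have hp1 : (1 : ℝ) ≤ p := by exact_mod_cast hp.2.one_lt.le
      have hlp : 0 ≤ Real.log p := Real.log_nonneg hp1
      have e1 : (p : ℝ) ^ (-(1 + σ)) = (p : ℝ)⁻¹ * (p : ℝ) ^ (-σ) := by
        rw [← Real.rpow_neg_one, ← Real.rpow_add hp0]
        congr 1
        ring
      have e2 : Real.cos (v * Real.log p) / p - (p : ℝ) ^ (-(1 + σ)) * Real.cos (v * Real.log p) =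
          (1 - (p : ℝ) ^ (-σ)) * (p : ℝ)⁻¹ * Real.cos (v * Real.log p) := by
        rw [e1]; ring
      have h1 : (p : ℝ) ^ (-σ) ≤ 1 := Real.rpow_le_one_of_one_le_of_nonpos hp1 (by linarith)
      have h2 : 1 - (p : ℝ) ^ (-σ) ≤ σ * Real.log p := by
        rw [Real.rpow_def_of_pos hp0]
        have := Real.add_one_le_exp (Real.log p * -σ)
        linarith
      rw [e2, abs_mul]
      have h3 : 0 ≤ (1 - (p : ℝ) ^ (-σ)) * (p : ℝ)⁻¹ := mul_nonneg (by linarith) (by positivity)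
      rw [abs_of_nonneg h3]
      calc (1 - (p : ℝ) ^ (-σ)) * (p : ℝ)⁻¹ * |Real.cos (v * Real.log p)|
          ≤ (1 - (p : ℝ) ^ (-σ)) * (p : ℝ)⁻¹ := mul_le_of_le_one_right h3 (Real.abs_cos_le_one _)
        _ ≤ (σ * Real.log p) * (p : ℝ)⁻¹ := mul_le_mul_of_nonneg_right h2 (by positivity)
        _ = _ := by rw [div_eq_mul_inv]; ring
    refine le_trans (Finset.sum_le_sum hb) ?_
    rw [← Finset.mul_sum]
    have h4 := hS N (by omega)
    have h5 := mul_le_mul_of_nonneg_left h4 hσ0.le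
    have h6 : σ * (Real.log N + C1) ≤ 1 + C1 := by
      have : σ * Real.log N = 1 := by rw [hσ]; field_simp
      rw [mul_add, this]
      have := mul_le_of_le_one_left hC1.le hσ1
      linarith
    linarith
  -- the tail
  have hsplit : ∀ v : ℝ, ∑' n, m3_g σ v n = ∑ n ∈ Finset.range (N + 1), m3_g σ v n +
      ∑' n, m3_g σ v (n + (N + 1)) := fun v =>
    ((m3_g_summable hσ0 v).sum_add_tsum_nat_add (N + 1)).symm
  have hts : ∀ v : ℝ, Summable (fun n => m3_g σ v (n + (N + 1))) := fun v =>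
    (summable_nat_add_iff (N + 1)).mpr (m3_g_summable hσ0 v)
  have htail : |∑' n, m3_g σ u (n + (N + 1))| ≤ ∑' n, m3_g σ 0 (n + (N + 1)) := by
    have h := norm_tsum_le_tsum_norm (hts u).norm
    rw [Real.norm_eq_abs] at h
    refine le_trans h ?_
    exact Summable.tsum_le_tsum (fun n => m3_g_abs σ u _) (hts u).norm (hts 0)
  have ht0 : ∑' n, m3_g σ 0 (n + (N + 1)) ≤ C2 + m3_Q + 2 * m3_Q + (1 + C1) := by
    have a1 := abs_le.mp (m3_zeta hσ0 0)
    have a2 := abs_le.mp (hnear σ 0 hσ0 hσ1 (by simp))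
    have a3 := abs_le.mp (hfin 0)
    have a4 := hsplit 0
    have a5 := m3_low hN
    have a6 : Real.log ‖(σ : ℂ) + ((0 : ℝ) : ℂ) * I‖ = -Real.log (Real.log N) := by
      rw [ofReal_zero, zero_mul, add_zero, Complex.norm_real, Real.norm_of_nonneg hσ0.le, hσ,
        one_div, Real.log_inv]
    have a7 : ∑ p ∈ (Finset.Icc 1 N).filter Nat.Prime, Real.cos (0 * Real.log p) / p =
        ∑ p ∈ (Finset.Icc 1 N).filter Nat.Prime, (p : ℝ)⁻¹ := by
      refine Finset.sum_congr rfl fun p _ => ?_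
      rw [zero_mul, Real.cos_zero, one_div]
    rw [a6] at a2
    rw [a7] at a3
    linarith [a1.1, a2.2, a3.2]
  have b1 := abs_le.mp (m3_zeta hσ0 u)
  have b2 := abs_le.mp (hfin u)
  have b3 := abs_le.mp htail
  have b4 := hsplit u
  rw [abs_le]
  constructor
  · linarith [b1.1, b1.2, b2.1, b2.2, b3.1, b3.2]
  · linarith [b1.1, b1.2, b2.1, b2.2, b3.1, b3.2]

/-- the blocks n+1..M are the primes in (y^(2^n), y^(2^M)] -/
theorem m3_blocks (F : ℕ → ℝ) {y n M : ℕ} (hy : 1 ≤ y) (hnM : n ≤ M) :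
    ∑ m ∈ Finset.Icc (n + 1) M, ∑ p ∈ blk y m, F p =
      ∑ p ∈ (Finset.Icc 1 (y ^ (2 ^ M))).filter Nat.Prime, F p -
        ∑ p ∈ (Finset.Icc 1 (y ^ (2 ^ n))).filter Nat.Prime, F p := by
  induction M, hnM using Nat.le_induction with
  | base => simp
  | succ M hM ih =>
    rw [Finset.sum_Icc_succ_top (by omega), ih]
    have hle : y ^ (2 ^ M) ≤ y ^ (2 ^ (M + 1)) :=
      Nat.pow_le_pow_right hy (Nat.pow_le_pow_right (by norm_num) (by omega))
    have e : (Finset.Icc 1 (y ^ (2 ^ (M + 1)))).filter Nat.Prime =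
        (Finset.Icc 1 (y ^ (2 ^ M))).filter Nat.Prime ∪ blk y (M + 1) := by
      ext p
      simp only [blk, Finset.mem_filter, Finset.mem_union, Finset.mem_Icc, Finset.mem_Ioc]
      constructor
      · rintro ⟨⟨h1, h2⟩, h3⟩
        by_cases h : p ≤ y ^ (2 ^ M)
        · exact Or.inl ⟨⟨h1, h⟩, h3⟩
        · exact Or.inr ⟨⟨by omega, h2⟩, h3⟩
      · rintro (⟨⟨h1, h2⟩, h3⟩ | ⟨⟨h1, h2⟩, h3⟩)
        · exact ⟨⟨h1, le_trans h2 hle⟩, h3⟩
        · exact ⟨⟨h3.one_lt.le, h2⟩, h3⟩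
    have hd : Disjoint ((Finset.Icc 1 (y ^ (2 ^ M))).filter Nat.Prime) (blk y (M + 1)) := by
      rw [Finset.disjoint_left]
      intro p hp hq
      simp only [blk, Finset.mem_filter, Finset.mem_Icc, Finset.mem_Ioc] at hp hq
      omega
    rw [e, Finset.sum_union hd]
    ring

theorem cos_sum : ∃ C : ℝ, 0 < C ∧ ∀ (y n M : ℕ) (u : ℝ), 100 ≤ y → n ≤ M → 1 / (2 ^ n * Real.log y) ≤ |u| → |u| ≤ 1 →
    |∑ m ∈ Finset.Icc (n + 1) M, ∑ p ∈ blk y m, Real.cos (u * Real.log p) / p| ≤ C := by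
  obtain ⟨C1, hC1, hA⟩ := m3_A
  obtain ⟨C2, hC2, hB⟩ := m3_near
  refine ⟨2 * C1 + 2 * C2 + 1, by positivity, fun y n M u hy hnM hu1 hu2 => ?_⟩
  rw [m3_blocks (fun p => Real.cos (u * Real.log p) / p) (by omega) hnM]
  have hy1 : (100 : ℝ) ≤ y := by exact_mod_cast hy
  have hly : 1 < Real.log y := by
    rw [Real.lt_log_iff_exp_lt (by linarith)]
    have := Real.exp_one_lt_d9
    linarith
  have hN : ∀ k : ℕ, 3 ≤ y ^ (2 ^ k) := by
    intro k
    have h1 : y ^ 1 ≤ y ^ (2 ^ k) := Nat.pow_le_pow_right (by omega) Nat.one_le_two_pow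
    rw [pow_one] at h1
    omega
  have hlog : ∀ k : ℕ, Real.log ((y ^ (2 ^ k) : ℕ) : ℝ) = 2 ^ k * Real.log y := by
    intro k
    push_cast
    rw [Real.log_pow]
    push_cast
    ring
  have hσ0 : ∀ k : ℕ, 0 < 1 / ((2 : ℝ) ^ k * Real.log y) := fun k => by positivity
  have hσ1 : ∀ k : ℕ, 1 / ((2 : ℝ) ^ k * Real.log y) ≤ 1 := by
    intro k
    rw [div_le_one (by positivity)]
    have : (1 : ℝ) ≤ 2 ^ k := one_le_pow₀ (by norm_num)
    nlinarith
  have hmono : 1 / ((2 : ℝ) ^ M * Real.log y) ≤ 1 / ((2 : ℝ) ^ n * Real.log y) := by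
    refine one_div_le_one_div_of_le (by positivity) ?_
    exact mul_le_mul_of_nonneg_right (pow_le_pow_right₀ (by norm_num) hnM) (by linarith)
  have hu0 : 0 < |u| := lt_of_lt_of_le (hσ0 n) hu1
  -- size of sigma + i u
  have hsz : ∀ σ : ℝ, 0 < σ → σ ≤ |u| → Real.log |u| ≤ Real.log ‖(σ : ℂ) + u * I‖ ∧
      Real.log ‖(σ : ℂ) + u * I‖ ≤ Real.log |u| + 1 := by
    intro σ h0 h1
    have l1 : |u| ≤ ‖(σ : ℂ) + u * I‖ := by
      have := Complex.abs_im_le_norm ((σ : ℂ) + u * I)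
      simpa using this
    have l2 : ‖(σ : ℂ) + u * I‖ ≤ 2 * |u| := by
      refine le_trans (norm_add_le _ _) ?_
      rw [norm_mul, Complex.norm_real, Complex.norm_real, Complex.norm_I, mul_one,
        Real.norm_of_nonneg h0.le, Real.norm_eq_abs]
      linarith
    refine ⟨Real.log_le_log hu0 l1, ?_⟩
    have l3 := Real.log_le_log (lt_of_lt_of_le hu0 l1) l2
    rw [Real.log_mul (by norm_num) hu0.ne'] at l3
    have := Real.log_two_lt_d9
    linarith
  have s1 := hsz _ (hσ0 n) hu1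
  have s2 := hsz _ (hσ0 M) (le_trans hmono hu1)
  have a1 := abs_le.mp (hA (y ^ (2 ^ n)) u (hN n) hu2)
  have a2 := abs_le.mp (hA (y ^ (2 ^ M)) u (hN M) hu2)
  rw [hlog] at a1 a2
  have b1 := abs_le.mp (hB _ u (hσ0 n) (hσ1 n) hu2)
  have b2 := abs_le.mp (hB _ u (hσ0 M) (hσ1 M) hu2)
  rw [abs_le]
  constructor
  · linarith [a1.1, a1.2, a2.1, a2.2, b1.1, b1.2, b2.1, b2.2, s1.1, s1.2, s2.1, s2.2]
  · linarith [a1.1, a1.2, a2.1, a2.2, b1.1, b1.2, b2.1, b2.2, s1.1, s1.2, s2.1, s2.2]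

end CZ
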