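import Pool.Agent.Lib.MP_9eae41_pr.E1
import Pool.Agent.Lib.MP_d9bc60_nt.AQ.QMert

set_option autoImplicit false

open Complex MeasureTheory Set Filter Topology
open scoped ComplexConjugate ENNReal

namespace CZ

/-! Row M4 (300 lines): the small block. One variable: the mean of |1 - ee x / sqrt p|^(-2k) lies between
exp(k^2/p - C p^(-3/2)) and exp(k^2/p + C p^(-3/2)). -/

/-- Mertens for all `y ≥ 2` -/
theorem m4_mert : ∃ C : ℝ, 0 < C ∧ ∀ y : ℕ, 2 ≤ y →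
    |∑ p ∈ blk y 0, (1 : ℝ) / p - Real.log (Real.log y)| ≤ C := by
  obtain ⟨C, hC, hR⟩ := Pool.Agent.Lib.MP_d9bc60_nt.AP.h08_one
  set R2 : ℝ := (∑ p ∈ (Finset.Icc 1 2).filter Nat.Prime, Real.log p / p - Real.log (2 : ℕ)) / Real.log (2 : ℕ) with hR2
  have hl2 : 0 < Real.log 2 := Real.log_pos (by norm_num)
  refine ⟨(C + 1) * (1 / Real.log 2) + C * (1 / Real.log 2) + |Real.log (Real.log 2)| + |R2| + 1, by positivity,
    fun y hy => ?_⟩
  have h1 := Pool.Agent.Lib.MP_d9bc60_nt.AP.h08_step C hR 2 le_rfl y hy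
  have hy2 : (2 : ℝ) ≤ y := by exact_mod_cast hy
  have hly : Real.log 2 ≤ Real.log y := Real.log_le_log (by norm_num) hy2
  have hly0 : 0 < Real.log y := lt_of_lt_of_le hl2 hly
  have hRy := hR y (by omega)
  have hRy' : |(∑ p ∈ (Finset.Icc 1 y).filter Nat.Prime, Real.log p / p - Real.log y) / Real.log y| ≤
      C * (1 / Real.log 2) := by
    rw [abs_div, abs_of_pos hly0, mul_one_div]
    exact div_le_div₀ hC.le hRy hl2 hly
  have hset : blk y 0 = insert 2 ((Finset.Ioc 2 y).filter Nat.Prime) := by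
    ext p
    simp only [blk, Finset.mem_filter, Finset.mem_range, Finset.mem_insert, Finset.mem_Ioc]
    constructor
    · rintro ⟨h1, h2⟩
      have := h2.two_le
      rcases Nat.eq_or_lt_of_le this with h | h
      · exact Or.inl h.symm
      · exact Or.inr ⟨⟨h, by omega⟩, h2⟩
    · rintro (rfl | ⟨⟨h1, h2⟩, h3⟩)
      · exact ⟨by omega, Nat.prime_two⟩
      · exact ⟨by omega, h3⟩
  rw [hset, Finset.sum_insert (by simp)]
  rw [← hR2] at h1
  have hinv : (C + 1) * (1 / Real.log ((2 : ℕ) : ℝ) - 1 / Real.log y) ≤ (C + 1) * (1 / Real.log 2) := by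
    have : 0 < 1 / Real.log y := by positivity
    have h2 : Real.log ((2 : ℕ) : ℝ) = Real.log 2 := by norm_num
    rw [h2]
    exact mul_le_mul_of_nonneg_left (by linarith) (by linarith)
  have h2 : Real.log ((2 : ℕ) : ℝ) = Real.log 2 := by norm_num
  rw [abs_le] at h1 hRy' ⊢
  have h3 := neg_abs_le (Real.log (Real.log 2))
  have h4 := le_abs_self (Real.log (Real.log 2))
  have h5 := neg_abs_le R2
  have h6 := le_abs_self R2
  rw [h2] at h1
  rw [h2] at hinv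
  have h7 : (1 : ℝ) / ((2 : ℕ) : ℝ) = 1 / 2 := by norm_num
  rw [h7]
  constructor <;> linarith [h1.1, h1.2, hRy'.1, hRy'.2]

theorem m4_norm_ee (x : ℝ) : ‖ee x‖ = 1 := by
  have : ee x = exp (((2 * Real.pi * x : ℝ) : ℂ) * I) := by
    unfold ee
    push_cast
    ring_nf
  rw [this, norm_exp_ofReal_mul_I]

theorem m4_cont_ee : Continuous ee := by
  unfold ee
  fun_prop

/-- pointwise expansion -/
theorem m4_expand {κ v : ℝ} (h0 : 0 < κ) (h1 : κ < 1) (hv : |v| ≤ 21 / 100) :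
    |Real.exp (-κ * Real.log (1 - v)) - (1 + κ * v + κ * (κ + 1) / 2 * v ^ 2)| ≤ 5 * |v| ^ 3 := by
  have hv1 : |v| < 1 := by linarith
  have hL := Real.abs_log_sub_add_sum_range_le hv1 2
  simp only [Finset.sum_range_succ, Finset.sum_range_zero] at hL
  norm_num at hL
  set L : ℝ := -Real.log (1 - v) with hLd
  have ha : 0 ≤ |v| := abs_nonneg v
  have hr : |L - v - v ^ 2 / 2| ≤ 2 * |v| ^ 3 := by
    have h2 : |v| ^ 3 / (1 - |v|) ≤ 2 * |v| ^ 3 := by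
      rw [div_le_iff₀ (by linarith)]
      nlinarith [pow_nonneg ha 3]
    have h3 : |L - v - v ^ 2 / 2| = |v + v ^ 2 / 2 + Real.log (1 - v)| := by
      rw [← abs_neg]
      congr 1
      rw [hLd]
      ring
    rw [h3]
    exact hL.trans h2
  set r : ℝ := L - v - v ^ 2 / 2 with hrd
  have hv2 : v ^ 2 = |v| ^ 2 := (sq_abs v).symm
  set a : ℝ := |v| with had
  have hq : |v ^ 2 / 2 + r| ≤ a ^ 2 := by
    refine (abs_add_le _ _).trans ?_
    rw [hv2, abs_of_nonneg (by positivity)]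
    nlinarith [pow_nonneg ha 2]
  have hLa : |L| ≤ 13 / 10 * a := by
    have : L = v + (v ^ 2 / 2 + r) := by rw [hrd]; ring
    rw [this]
    refine (abs_add_le _ _).trans ?_
    nlinarith
  have hx1 : |κ * L| ≤ 1 := by
    rw [abs_mul, abs_of_pos h0]
    nlinarith [abs_nonneg L]
  have hE := Real.exp_bound hx1 (n := 3) (by norm_num)
  simp only [Finset.sum_range_succ, Finset.sum_range_zero] at hE
  norm_num [Nat.factorial] at hE
  have hE' : |Real.exp (κ * L) - (1 + κ * L + (κ * L) ^ 2 / 2)| ≤ a ^ 3 := by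
    refine hE.trans ?_
    have h5 : |κ| * |L| ≤ 13 / 10 * a := by
      rw [abs_of_pos h0]
      nlinarith [abs_nonneg L]
    have h6 : (|κ| * |L|) ^ 3 ≤ (13 / 10 * a) ^ 3 :=
      pow_le_pow_left₀ (by positivity) h5 3
    have h7 : (0:ℝ) ≤ a ^ 3 := by positivity
    nlinarith
  have hexp : Real.exp (-κ * Real.log (1 - v)) = Real.exp (κ * L) := by
    congr 1
    rw [hLd]
    ring
  rw [hexp]
  have hdec : Real.exp (κ * L) - (1 + κ * v + κ * (κ + 1) / 2 * v ^ 2) =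
      (Real.exp (κ * L) - (1 + κ * L + (κ * L) ^ 2 / 2)) + (κ * r +
        κ ^ 2 / 2 * (2 * v * (v ^ 2 / 2 + r) + (v ^ 2 / 2 + r) ^ 2)) := by
    have : L = v + (v ^ 2 / 2 + r) := by rw [hrd]; ring
    rw [this]
    ring
  rw [hdec]
  have hb1 : |κ * r| ≤ 2 * a ^ 3 := by
    rw [abs_mul, abs_of_pos h0]
    nlinarith [abs_nonneg r]
  have hb2 : |2 * v * (v ^ 2 / 2 + r) + (v ^ 2 / 2 + r) ^ 2| ≤ 3 * a ^ 3 := by
    refine (abs_add_le _ _).trans ?_
    rw [abs_mul, abs_mul, abs_pow, ← had]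
    have h8 : |v ^ 2 / 2 + r| ^ 2 ≤ (a ^ 2) ^ 2 := pow_le_pow_left₀ (abs_nonneg _) hq 2
    have h9 : (a ^ 2) ^ 2 ≤ a ^ 3 := by
      have : (a ^ 2) ^ 2 = a * a ^ 3 := by ring
      rw [this]
      nlinarith [pow_nonneg ha 3]
    have h10 : |(2:ℝ)| * a * |v ^ 2 / 2 + r| ≤ 2 * a * a ^ 2 := by
      rw [abs_of_pos (by norm_num : (0:ℝ) < 2)]
      exact mul_le_mul_of_nonneg_left hq (by positivity)
    nlinarith
  have hb3 : |κ ^ 2 / 2 * (2 * v * (v ^ 2 / 2 + r) + (v ^ 2 / 2 + r) ^ 2)| ≤ 3 / 2 * a ^ 3 := by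
    rw [abs_mul, abs_of_pos (by positivity)]
    have h11 : κ ^ 2 ≤ 1 := by nlinarith
    nlinarith [abs_nonneg (2 * v * (v ^ 2 / 2 + r) + (v ^ 2 / 2 + r) ^ 2)]
  calc |(Real.exp (κ * L) - (1 + κ * L + (κ * L) ^ 2 / 2)) + (κ * r +
        κ ^ 2 / 2 * (2 * v * (v ^ 2 / 2 + r) + (v ^ 2 / 2 + r) ^ 2))|
      ≤ |Real.exp (κ * L) - (1 + κ * L + (κ * L) ^ 2 / 2)| + |κ * r +
        κ ^ 2 / 2 * (2 * v * (v ^ 2 / 2 + r) + (v ^ 2 / 2 + r) ^ 2)| := abs_add_le _ _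
    _ ≤ a ^ 3 + (2 * a ^ 3 + 3 / 2 * a ^ 3) := by
        refine add_le_add hE' ((abs_add_le _ _).trans (add_le_add hb1 hb3))
    _ ≤ 5 * a ^ 3 := by nlinarith [pow_nonneg ha 3]

theorem m4_integrable {E : Type} [NormedAddCommGroup E] {f : ℝ → E} (hf : Continuous f) : Integrable f Ug :=
  hf.integrableOn_Icc

theorem m4_int_re : ∫ x, (ee x).re ∂Ug = 0 := by
  have h := int_ee 1
  simp only [zpow_one, one_ne_zero, if_false] at h
  have h2 := Complex.reCLM.integral_comp_comm (m4_integrable m4_cont_ee)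
  simp only [Complex.reCLM_apply] at h2
  rw [h2, h]
  simp

theorem m4_int_re2 : ∫ x, (ee x).re ^ 2 ∂Ug = 1 / 2 := by
  have h := int_ee 2
  have h2' : ∀ x, ee x ^ (2 : ℤ) = ee x ^ 2 := fun x => by norm_cast
  simp only [h2'] at h
  norm_num at h
  have := Ug_prob
  have hc : Continuous fun x => ee x ^ 2 := m4_cont_ee.pow 2
  have h2 := Complex.reCLM.integral_comp_comm (m4_integrable hc)
  simp only [Complex.reCLM_apply] at h2
  have h3 : ∀ x, (ee x).re ^ 2 = 1 / 2 + 1 / 2 * (ee x ^ 2).re := by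
    intro x
    have h4 : (ee x).re ^ 2 + (ee x).im ^ 2 = 1 := by
      have h5 := m4_norm_ee x
      have h6 := Complex.sq_norm (ee x)
      rw [h5, Complex.normSq_apply] at h6
      nlinarith
    rw [sq (ee x), Complex.mul_re]
    nlinarith
  have hcr : Continuous fun x => (ee x ^ 2).re := Complex.continuous_re.comp hc
  simp only [h3]
  rw [integral_add (integrable_const _) ((m4_integrable hcr).const_mul _), integral_const, integral_const_mul, h2, h]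
  simp

theorem m4_lin (A B D : ℝ) : ∫ x, (A + (B * (ee x).re + D * (ee x).re ^ 2)) ∂Ug = A + D / 2 := by
  have := Ug_prob
  have hcc : Continuous fun x => (ee x).re := Complex.continuous_re.comp m4_cont_ee
  have i1 : Integrable (fun x => B * (ee x).re) Ug := (m4_integrable hcc).const_mul _
  have i2 : Integrable (fun x => D * (ee x).re ^ 2) Ug := (m4_integrable (hcc.pow 2)).const_mul _
  have i3 : Integrable (fun x => B * (ee x).re + D * (ee x).re ^ 2) Ug := i1.add i2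
  rw [integral_add (integrable_const A) i3, integral_add i1 i2, integral_const, integral_const_mul,
    integral_const_mul, m4_int_re, m4_int_re2]
  simp
  ring

theorem m4_sq (s : ℝ) (z : ℂ) (hz : ‖z‖ = 1) : ‖1 - z * (s : ℂ)‖ ^ 2 = 1 - (2 * s * z.re - s ^ 2) := by
  have h4 : z.re ^ 2 + z.im ^ 2 = 1 := by
    have h6 := Complex.sq_norm z
    rw [hz, Complex.normSq_apply] at h6
    nlinarith
  rw [Complex.sq_norm, Complex.normSq_apply]
  simp only [Complex.sub_re, Complex.one_re, Complex.mul_re, Complex.ofReal_re, Complex.ofReal_im, Complex.sub_im,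
    Complex.one_im, Complex.mul_im]
  nlinarith

theorem m4_pos (s : ℝ) (hs0 : 0 ≤ s) (_ : s < 1) (z : ℂ) (hz : ‖z‖ = 1) : 1 - s ≤ ‖1 - z * (s : ℂ)‖ := by
  have h1 : ‖z * (s : ℂ)‖ = s := by
    rw [norm_mul, hz, one_mul, Complex.norm_real, Real.norm_eq_abs, abs_of_nonneg hs0]
  have h2 := norm_sub_norm_le (1 : ℂ) (z * (s : ℂ))
  rw [norm_one, h1] at h2
  exact h2

theorem m4_upper (s : ℝ) (hs0 : 0 ≤ s) (z : ℂ) (hz : ‖z‖ = 1) : ‖1 - z * (s : ℂ)‖ ≤ 1 + s := by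
  have h1 : ‖z * (s : ℂ)‖ = s := by
    rw [norm_mul, hz, one_mul, Complex.norm_real, Real.norm_eq_abs, abs_of_nonneg hs0]
  have h2 := norm_sub_le (1 : ℂ) (z * (s : ℂ))
  rw [norm_one, h1] at h2
  exact h2

theorem m4_contf {κ s : ℝ} (hs0 : 0 ≤ s) (hs1 : s < 1) :
    Continuous fun x => ‖(1 - ee x * (s : ℂ))⁻¹‖ ^ (2 * κ) := by
  have hne : ∀ x, 1 - ee x * (s : ℂ) ≠ 0 := by
    intro x h
    have := m4_pos s hs0 hs1 (ee x) (m4_norm_ee x)
    rw [h, norm_zero] at this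
    linarith
  refine Continuous.rpow_const (Continuous.norm (Continuous.inv₀ ?_ hne)) fun x => Or.inl ?_
  · exact continuous_const.sub (m4_cont_ee.mul continuous_const)
  · rw [norm_inv]
    exact inv_ne_zero (norm_ne_zero_iff.mpr (hne x))

theorem m4_one_small {κ s : ℝ} (h0 : 0 < κ) (h1 : κ < 1) (hs0 : 0 ≤ s) (hs1 : s ≤ 1 / 10) :
    |∫ x, ‖(1 - ee x * (s : ℂ))⁻¹‖ ^ (2 * κ) ∂Ug - (1 + κ ^ 2 * s ^ 2)| ≤ 136 * s ^ 3 := by
  have := Ug_prob
  set c : ℝ → ℝ := fun x => (ee x).re with hc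
  have hcc : Continuous c := Complex.continuous_re.comp m4_cont_ee
  set P : ℝ → ℝ := fun x => 1 + κ * (2 * s * c x - s ^ 2) + κ * (κ + 1) / 2 * (2 * s * c x - s ^ 2) ^ 2 with hP
  have hPc : Continuous P := by
    simp only [hP]
    fun_prop
  have hPint : ∫ x, P x ∂Ug = 1 + κ ^ 2 * s ^ 2 + κ * (κ + 1) / 2 * s ^ 4 := by
    have e : ∀ x, P x = (1 - κ * s ^ 2 + κ * (κ + 1) / 2 * s ^ 4) +
        ((2 * κ * s - κ * (κ + 1) / 2 * (4 * s ^ 3)) * c x + κ * (κ + 1) / 2 * (4 * s ^ 2) * (c x) ^ 2) := by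
      intro x
      simp only [hP]
      ring
    simp only [e]
    rw [m4_lin]
    ring
  have hfi := m4_integrable (m4_contf (κ := κ) hs0 (by linarith : s < 1))
  have hPi := m4_integrable hPc
  have hpt : ∀ x, ‖‖(1 - ee x * (s : ℂ))⁻¹‖ ^ (2 * κ) - P x‖ ≤ 135 * s ^ 3 := by
    intro x
    set v : ℝ := 2 * s * c x - s ^ 2 with hv
    have hre : |c x| ≤ 1 := by
      have := Complex.abs_re_le_norm (ee x)
      rwa [m4_norm_ee] at this
    have hva : |v| ≤ 21 / 10 * s := by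
      have h3 : |v| ≤ |2 * s * c x| + |s ^ 2| := abs_sub _ _
      rw [abs_mul, abs_of_nonneg (by positivity : 0 ≤ 2 * s), abs_of_nonneg (by positivity : 0 ≤ s ^ 2)] at h3
      nlinarith [abs_nonneg (c x)]
    have hv1 : |v| ≤ 21 / 100 := by nlinarith
    have hpos := m4_pos s hs0 (by linarith) (ee x) (m4_norm_ee x)
    have hpos' : 0 < ‖1 - ee x * (s : ℂ)‖ := by linarith
    have e1 : ‖(1 - ee x * (s : ℂ))⁻¹‖ ^ (2 * κ) = Real.exp (-κ * Real.log (1 - v)) := by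
      rw [norm_inv, Real.rpow_def_of_pos (inv_pos.mpr hpos'), Real.log_inv, hv, ← m4_sq s (ee x) (m4_norm_ee x),
        Real.log_pow]
      congr 1
      push_cast
      ring
    rw [e1, Real.norm_eq_abs]
    refine (m4_expand h0 h1 hv1).trans ?_
    have h4 : |v| ^ 3 ≤ (21 / 10 * s) ^ 3 := pow_le_pow_left₀ (abs_nonneg _) hva 3
    have h5 : (0:ℝ) ≤ s ^ 3 := by positivity
    nlinarith
  have hd : |∫ x, ‖(1 - ee x * (s : ℂ))⁻¹‖ ^ (2 * κ) ∂Ug - ∫ x, P x ∂Ug| ≤ 135 * s ^ 3 := by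
    rw [← integral_sub hfi hPi]
    have h6 := norm_integral_le_of_norm_le_const (μ := Ug) (Filter.Eventually.of_forall hpt)
    simpa using h6
  rw [hPint] at hd
  have h7 : κ * (κ + 1) / 2 * s ^ 4 ≤ s ^ 3 := by
    have h8 : κ * (κ + 1) / 2 ≤ 1 := by nlinarith
    have h9 : s ^ 4 ≤ s ^ 3 := by
      have : s ^ 4 = s * s ^ 3 := by ring
      rw [this]
      have : (0:ℝ) ≤ s ^ 3 := by positivity
      nlinarith
    have h10 : (0:ℝ) ≤ s ^ 4 := by positivity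
    nlinarith
  have h11 : 0 ≤ κ * (κ + 1) / 2 * s ^ 4 := by positivity
  rw [abs_le] at hd ⊢
  constructor <;> linarith [hd.1, hd.2]

theorem m4_one (κ : ℝ) (h0 : 0 < κ) (h1 : κ < 1) (p : ℕ) (hp : 2 ≤ p) :
    Real.exp (κ ^ 2 / p - 3000 * (p : ℝ) ^ (-(3/2) : ℝ)) ≤
      ∫ x, ‖(1 - ee x * ((Real.sqrt p : ℝ) : ℂ)⁻¹)⁻¹‖ ^ (2 * κ) ∂Ug ∧
    ∫ x, ‖(1 - ee x * ((Real.sqrt p : ℝ) : ℂ)⁻¹)⁻¹‖ ^ (2 * κ) ∂Ug ≤
      Real.exp (κ ^ 2 / p + 3000 * (p : ℝ) ^ (-(3/2) : ℝ)) := by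
  have := Ug_prob
  have hp2 : (2 : ℝ) ≤ p := by exact_mod_cast hp
  have hp0 : (0 : ℝ) < p := by linarith
  set s : ℝ := (Real.sqrt p)⁻¹ with hs
  have hsc : ((Real.sqrt p : ℝ) : ℂ)⁻¹ = (s : ℂ) := by rw [hs]; push_cast; rfl
  rw [hsc]
  have hsq : 0 < Real.sqrt p := Real.sqrt_pos.mpr hp0
  have hs0 : 0 < s := inv_pos.mpr hsq
  have hs2 : s ^ 2 = 1 / p := by
    rw [hs, inv_pow, Real.sq_sqrt hp0.le, one_div]
  have hs3 : s ^ 3 = (p : ℝ) ^ (-(3/2) : ℝ) := by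
    rw [hs, Real.sqrt_eq_rpow, ← Real.rpow_neg hp0.le, ← Real.rpow_natCast, ← Real.rpow_mul hp0.le]
    norm_num
  rw [← hs3]
  have hk2 : κ ^ 2 ≤ 1 := by nlinarith
  have hk2' : κ ^ 2 / p = κ ^ 2 * s ^ 2 := by rw [hs2]; ring
  rw [hk2']
  rcases le_or_gt s (1 / 10) with h | h
  · have hm := abs_le.mp (m4_one_small h0 h1 hs0.le h)
    have hs3p : 0 < s ^ 3 := by positivity
    constructor
    · set x : ℝ := κ ^ 2 * s ^ 2 - 136 * s ^ 3 with hx
      have hs32 : s ^ 3 ≤ s ^ 2 / 10 := by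
        have : s ^ 3 = s * s ^ 2 := by ring
        rw [this]
        nlinarith [sq_nonneg s]
      have hxa : |x| ≤ 146 / 10 * s ^ 2 := by
        rw [abs_le]
        constructor <;> nlinarith [sq_nonneg s, mul_nonneg (sq_nonneg κ) (sq_nonneg s)]
      have hs21 : s ^ 2 ≤ 1 / 100 := by nlinarith
      have hx2 : -(1 / 2) ≤ x := by
        have := (abs_le.mp hxa).1
        nlinarith
      have hxx : x ^ 2 ≤ 22 * s ^ 3 := by
        have h3 : x ^ 2 = |x| ^ 2 := (sq_abs x).symm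
        rw [h3]
        have h4 : |x| ^ 2 ≤ (146 / 10 * s ^ 2) ^ 2 := pow_le_pow_left₀ (abs_nonneg _) hxa 2
        have h5 : (s ^ 2) ^ 2 ≤ s ^ 3 / 10 := by
          have : (s ^ 2) ^ 2 = s * s ^ 3 := by ring
          rw [this]
          nlinarith
        nlinarith
      have hlog : x - 2 * x ^ 2 ≤ Real.log (1 + x) := by
        have hx1 : 0 < 1 + x := by linarith
        refine le_trans ?_ (Real.one_sub_inv_le_log_of_pos hx1)
        have : 1 - (1 + x)⁻¹ = x / (1 + x) := by field_simp; ring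
        rw [this, le_div_iff₀ hx1]
        nlinarith [sq_nonneg x]
      have hx1 : 0 < 1 + x := by linarith
      calc Real.exp (κ ^ 2 * s ^ 2 - 3000 * s ^ 3) ≤ Real.exp (Real.log (1 + x)) := by
            apply Real.exp_le_exp.mpr
            refine le_trans ?_ hlog
            rw [hx] at hxx ⊢
            nlinarith
        _ = 1 + x := Real.exp_log hx1
        _ ≤ _ := by
            rw [hx]
            linarith [hm.1]
    · refine le_trans ?_ (Real.add_one_le_exp _)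
      nlinarith [hm.2]
  · have hs1 : s ≤ 3 / 4 := by
      have h3 : s ^ 2 ≤ 1 / 2 := by
        rw [hs2]
        exact one_div_le_one_div_of_le (by norm_num) hp2
      nlinarith
    have hs3l : 1 / 1000 ≤ s ^ 3 := by
      have : (1 / 10 : ℝ) ^ 3 ≤ s ^ 3 := pow_le_pow_left₀ (by norm_num) h.le 3
      linarith
    have hfi := m4_integrable (m4_contf (κ := κ) hs0.le (by linarith : s < 1))
    have hks : 0 ≤ κ ^ 2 * s ^ 2 := by positivity
    have hks1 : κ ^ 2 * s ^ 2 ≤ 1 := by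
      have h3 : s ^ 2 ≤ 1 / 2 := by
        rw [hs2]
        exact one_div_le_one_div_of_le (by norm_num) hp2
      nlinarith [sq_nonneg s]
    have e1 := Real.exp_one_gt_d9
    have e2 := Real.exp_one_lt_d9
    constructor
    · have hl : ∀ x, (1 / 4 : ℝ) ≤ ‖(1 - ee x * (s : ℂ))⁻¹‖ ^ (2 * κ) := by
        intro x
        have h3 := m4_upper s hs0.le (ee x) (m4_norm_ee x)
        have h4 := m4_pos s hs0.le (by linarith) (ee x) (m4_norm_ee x)
        have h5 : (1 / 2 : ℝ) ≤ ‖(1 - ee x * (s : ℂ))⁻¹‖ := by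
          rw [norm_inv, one_div]
          exact inv_anti₀ (by linarith) (by linarith)
        calc (1 / 4 : ℝ) = (1 / 2) ^ (2 : ℝ) := by norm_num
          _ ≤ (1 / 2) ^ (2 * κ) := Real.rpow_le_rpow_of_exponent_ge (by norm_num) (by norm_num) (by linarith)
          _ ≤ _ := Real.rpow_le_rpow (by norm_num) h5 (by linarith)
      have h6 : ∫ x, (1 / 4 : ℝ) ∂Ug ≤ ∫ x, ‖(1 - ee x * (s : ℂ))⁻¹‖ ^ (2 * κ) ∂Ug :=
        integral_mono (integrable_const _) hfi hl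
      rw [integral_const] at h6
      simp only [probReal_univ, one_smul] at h6
      refine le_trans ?_ h6
      have h7 : Real.exp (κ ^ 2 * s ^ 2 - 3000 * s ^ 3) ≤ Real.exp (-2) := Real.exp_le_exp.mpr (by linarith)
      refine h7.trans ?_
      rw [Real.exp_neg, show (2:ℝ) = 1 + 1 by norm_num, Real.exp_add]
      rw [show (1 / 4 : ℝ) = 4⁻¹ by norm_num]
      exact inv_anti₀ (by norm_num) (by nlinarith)
    · have hu : ∀ x, ‖(1 - ee x * (s : ℂ))⁻¹‖ ^ (2 * κ) ≤ (16 : ℝ) := by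
        intro x
        have h4 := m4_pos s hs0.le (by linarith) (ee x) (m4_norm_ee x)
        have h5 : ‖(1 - ee x * (s : ℂ))⁻¹‖ ≤ 4 := by
          rw [norm_inv, show (4 : ℝ) = (1 / 4)⁻¹ by norm_num]
          exact inv_anti₀ (by norm_num) (by linarith)
        calc ‖(1 - ee x * (s : ℂ))⁻¹‖ ^ (2 * κ) ≤ (4:ℝ) ^ (2 * κ) :=
              Real.rpow_le_rpow (norm_nonneg _) h5 (by linarith)
          _ ≤ (4:ℝ) ^ (2 : ℝ) := Real.rpow_le_rpow_of_exponent_le (by norm_num) (by linarith)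
          _ = 16 := by norm_num
      have h6 : ∫ x, ‖(1 - ee x * (s : ℂ))⁻¹‖ ^ (2 * κ) ∂Ug ≤ ∫ x, (16 : ℝ) ∂Ug :=
        integral_mono hfi (integrable_const _) hu
      rw [integral_const] at h6
      simp only [probReal_univ, one_smul] at h6
      refine h6.trans ?_
      have h7 : Real.exp 3 ≤ Real.exp (κ ^ 2 * s ^ 2 + 3000 * s ^ 3) := Real.exp_le_exp.mpr (by linarith)
      refine le_trans ?_ h7
      rw [show (3:ℝ) = 1 + 1 + 1 by norm_num, Real.exp_add, Real.exp_add]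
      nlinarith

theorem m4_prime {y p : ℕ} (hp : p ∈ blk y 0) : p.Prime := by
  simp only [blk, Finset.mem_filter] at hp
  exact hp.2

theorem Eu_moment (κ : ℝ) (h0 : 0 < κ) (h1 : κ < 1) : ∃ c C : ℝ, 0 < c ∧ 0 < C ∧ ∀ y : ℕ, 2 ≤ y →
    c * Real.log y ^ (κ ^ 2) ≤ ∫ θ, ‖Eu (blk y 0) (Xt θ)‖ ^ (2 * κ) ∂PT ∧
      ∫ θ, ‖Eu (blk y 0) (Xt θ)‖ ^ (2 * κ) ∂PT ≤ C * Real.log y ^ (κ ^ 2) := by
  obtain ⟨C0, hC0, hM⟩ := m4_mert
  have hsum : Summable fun n : ℕ => (n : ℝ) ^ (-(3/2) : ℝ) := Real.summable_nat_rpow.mpr (by norm_num)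
  set Z3 : ℝ := ∑' n : ℕ, (n : ℝ) ^ (-(3/2) : ℝ) with hZ3
  refine ⟨Real.exp (-(κ ^ 2 * C0) - 3000 * Z3), Real.exp (κ ^ 2 * C0 + 3000 * Z3), Real.exp_pos _, Real.exp_pos _,
    fun y hy => ?_⟩
  have hy2 : (2 : ℝ) ≤ y := by exact_mod_cast hy
  have hly : 0 < Real.log y := Real.log_pos (by linarith)
  have hprod : ∫ θ, ‖Eu (blk y 0) (Xt θ)‖ ^ (2 * κ) ∂PT =
      ∏ p ∈ blk y 0, ∫ x, ‖(1 - ee x * ((Real.sqrt p : ℝ) : ℂ)⁻¹)⁻¹‖ ^ (2 * κ) ∂Ug := by
    rw [← torus_prod_real (blk y 0) (fun p x => ‖(1 - x * ((Real.sqrt p : ℝ) : ℂ)⁻¹)⁻¹‖ ^ (2 * κ))]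
    · congr 1
      funext θ
      rw [Eu, norm_prod, Real.finsetProd_rpow _ _ (fun p _ => norm_nonneg _)]
    · intro p hp
      have hp2 := (m4_prime hp).two_le
      have hne : ∀ x ∈ Metric.sphere (0 : ℂ) 1, 1 - x * ((Real.sqrt p : ℝ) : ℂ)⁻¹ ≠ 0 := by
        intro x hx h
        have hx1 : ‖x‖ = 1 := by simpa using hx
        have hsq : 1 < Real.sqrt p := by
          rw [Real.lt_sqrt (by norm_num)]
          have : (2 : ℝ) ≤ p := by exact_mod_cast hp2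
          linarith
        have h3 := m4_pos (Real.sqrt p)⁻¹ (by positivity) (inv_lt_one_of_one_lt₀ hsq) x hx1
        rw [Complex.ofReal_inv, h, norm_zero] at h3
        have h4 := inv_lt_one_of_one_lt₀ hsq
        linarith
      refine ContinuousOn.rpow_const (ContinuousOn.norm (ContinuousOn.inv₀ ?_ hne)) fun x hx => Or.inl ?_
      · exact continuousOn_const.sub (continuousOn_id.mul continuousOn_const)
      · rw [norm_inv]
        exact inv_ne_zero (norm_ne_zero_iff.mpr (hne x hx))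
  have h3 : ∑ p ∈ blk y 0, (p : ℝ) ^ (-(3/2) : ℝ) ≤ Z3 :=
    hsum.sum_le_tsum _ (fun n _ => by positivity)
  have h3' : 0 ≤ ∑ p ∈ blk y 0, (p : ℝ) ^ (-(3/2) : ℝ) := Finset.sum_nonneg fun n _ => by positivity
  have hMy := abs_le.mp (hM y hy)
  have hk : 0 ≤ κ ^ 2 := by positivity
  have hpw : Real.log y ^ (κ ^ 2) = Real.exp (κ ^ 2 * Real.log (Real.log y)) := by
    rw [Real.rpow_def_of_pos hly, mul_comm]
  have hs1 : ∑ p ∈ blk y 0, κ ^ 2 / (p : ℝ) = κ ^ 2 * ∑ p ∈ blk y 0, (1 : ℝ) / p := by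
    rw [Finset.mul_sum]
    exact Finset.sum_congr rfl fun p _ => by ring
  rw [hprod, hpw, ← Real.exp_add, ← Real.exp_add]
  constructor
  · calc Real.exp (-(κ ^ 2 * C0) - 3000 * Z3 + κ ^ 2 * Real.log (Real.log y))
        ≤ Real.exp (∑ p ∈ blk y 0, (κ ^ 2 / p - 3000 * (p : ℝ) ^ (-(3/2) : ℝ))) := by
          apply Real.exp_le_exp.mpr
          rw [Finset.sum_sub_distrib, hs1, ← Finset.mul_sum]
          nlinarith [mul_le_mul_of_nonneg_left hMy.1 hk]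
      _ = ∏ p ∈ blk y 0, Real.exp (κ ^ 2 / p - 3000 * (p : ℝ) ^ (-(3/2) : ℝ)) := Real.exp_sum _ _
      _ ≤ _ := Finset.prod_le_prod (fun p _ => (Real.exp_pos _).le)
          fun p hp => (m4_one κ h0 h1 p (m4_prime hp).two_le).1
  · calc ∏ p ∈ blk y 0, ∫ x, ‖(1 - ee x * ((Real.sqrt p : ℝ) : ℂ)⁻¹)⁻¹‖ ^ (2 * κ) ∂Ug
        ≤ ∏ p ∈ blk y 0, Real.exp (κ ^ 2 / p + 3000 * (p : ℝ) ^ (-(3/2) : ℝ)) :=
          Finset.prod_le_prod (fun p _ => integral_nonneg fun x => Real.rpow_nonneg (norm_nonneg _) _)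
            fun p hp => (m4_one κ h0 h1 p (m4_prime hp).two_le).2
      _ = Real.exp (∑ p ∈ blk y 0, (κ ^ 2 / p + 3000 * (p : ℝ) ^ (-(3/2) : ℝ))) := (Real.exp_sum _ _).symm
      _ ≤ _ := by
          apply Real.exp_le_exp.mpr
          rw [Finset.sum_add_distrib, hs1, ← Finset.mul_sum]
          nlinarith [mul_le_mul_of_nonneg_left hMy.2 hk]

theorem prod_small : ∃ C : ℝ, 0 < C ∧ ∀ y : ℕ, 2 ≤ y → ∏ p ∈ blk y 0, (1 - 1 / (p : ℝ)) ≤ C / Real.log y := by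
  obtain ⟨C0, hC0, hM⟩ := m4_mert
  refine ⟨Real.exp C0, Real.exp_pos _, fun y hy => ?_⟩
  have hy2 : (2 : ℝ) ≤ y := by exact_mod_cast hy
  have hly : 0 < Real.log y := Real.log_pos (by linarith)
  have hMy := abs_le.mp (hM y hy)
  calc ∏ p ∈ blk y 0, (1 - 1 / (p : ℝ)) ≤ ∏ p ∈ blk y 0, Real.exp (-(1 / (p : ℝ))) := by
        refine Finset.prod_le_prod (fun p hp => ?_) fun p hp => ?_
        · have : (2 : ℝ) ≤ p := by exact_mod_cast (m4_prime hp).two_le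
          rw [sub_nonneg, div_le_one (by linarith)]
          linarith
        · have := Real.add_one_le_exp (-(1 / (p : ℝ)))
          linarith
    _ = Real.exp (-∑ p ∈ blk y 0, (1 : ℝ) / p) := by
        rw [← Real.exp_sum, Finset.sum_neg_distrib]
    _ ≤ Real.exp (C0 - Real.log (Real.log y)) := Real.exp_le_exp.mpr (by linarith [hMy.1])
    _ = _ := by rw [Real.exp_sub, Real.exp_log hly]

theorem m4_cpow (p : ℕ) (hp : 2 ≤ p) : (p : ℂ) ^ (-1/2 - (0:ℂ)) = ((Real.sqrt p : ℝ) : ℂ)⁻¹ := by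
  have hp0 : (0 : ℝ) ≤ p := Nat.cast_nonneg _
  have h1 : (-1/2 - (0:ℂ)) = ((-(1/2) : ℝ) : ℂ) := by push_cast; ring
  rw [h1, ← Complex.ofReal_natCast, ← Complex.ofReal_cpow hp0, Real.rpow_neg hp0, ← Real.sqrt_eq_rpow,
    Complex.ofReal_inv]

/-- the local factors at z = 0 on the small block -/
theorem DD_zero (y : ℕ) {X : ℕ → ℂ} (hX : ∀ p, ‖X p‖ = 1) :
    DD 1 0 (blk y 0) X = (∏ p ∈ blk y 0, (1 - 1 / (p : ℝ))) * ‖Eu (blk y 0) X‖ ^ 2 := by
  rw [DD, pow_one, Eu, norm_prod, ← Finset.prod_pow, ← Finset.prod_mul_distrib]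
  refine Finset.prod_congr rfl fun p hp => ?_
  have hp2 := (m4_prime hp).two_le
  have hp2' : (2 : ℝ) ≤ p := by exact_mod_cast hp2
  have h1 : (p : ℂ) ^ (-1 - 2 * (0:ℂ)) = ((1 / (p : ℝ) : ℝ) : ℂ) := by
    rw [mul_zero, sub_zero, Complex.cpow_neg_one]
    push_cast
    rw [one_div]
  have h2 : (1 : ℂ) - conj (X p) * ((Real.sqrt p : ℝ) : ℂ)⁻¹ = conj (1 - X p * ((Real.sqrt p : ℝ) : ℂ)⁻¹) := by
    simp
  have h3 : ‖(1 : ℂ) - ((1 / (p : ℝ) : ℝ) : ℂ)‖ = 1 - 1 / (p : ℝ) := by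
    rw [← Complex.ofReal_one, ← Complex.ofReal_sub, Complex.norm_real, Real.norm_eq_abs, abs_of_nonneg]
    rw [sub_nonneg, div_le_one (by linarith)]
    linarith
  rw [Dz, m4_cpow p hp2, h1, h2, norm_div, norm_mul, h3, Complex.norm_conj, norm_inv, inv_pow, div_eq_mul_inv, sq]

theorem m4_contDD (y : ℕ) (X : ℕ → ℂ) (hX : ∀ p, ‖X p‖ = 1) :
    Tendsto (fun q : ℂ × (ℕ → ℂ) => DD 1 q.1 (blk y 0) q.2) (𝓝 (0, X)) (𝓝 (DD 1 0 (blk y 0) X)) := by
  simp only [DD, pow_one]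
  refine tendsto_finsetProd _ fun p hp => ?_
  refine ContinuousAt.norm ?_
  have hp2 := (m4_prime hp).two_le
  have hp2' : (2 : ℝ) ≤ p := by exact_mod_cast hp2
  have hpc : (p : ℂ) ≠ 0 := by
    have : p ≠ 0 := by omega
    exact_mod_cast this
  have hX1 : ‖X p‖ = 1 := hX p
  have hsq : 1 < Real.sqrt p := by
    rw [Real.lt_sqrt (by norm_num)]
    linarith
  have hne : ∀ w : ℂ, ‖w‖ = 1 → 1 - w * ((Real.sqrt p : ℝ) : ℂ)⁻¹ ≠ 0 := by
    intro w hw h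
    have h3 := m4_pos (Real.sqrt p)⁻¹ (by positivity) (inv_lt_one_of_one_lt₀ hsq) w hw
    rw [Complex.ofReal_inv, h, norm_zero] at h3
    have h4 := inv_lt_one_of_one_lt₀ hsq
    linarith
  have c1 : ContinuousAt (fun q : ℂ × (ℕ → ℂ) => (p : ℂ) ^ (-1/2 - q.1)) (0, X) := by
    refine ContinuousAt.const_cpow ?_ (Or.inl hpc)
    fun_prop
  have c2 : ContinuousAt (fun q : ℂ × (ℕ → ℂ) => (p : ℂ) ^ (-1 - 2 * q.1)) (0, X) := by
    refine ContinuousAt.const_cpow ?_ (Or.inl hpc)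
    fun_prop
  have c3 : ContinuousAt (fun q : ℂ × (ℕ → ℂ) => q.2 p) (0, X) := by fun_prop
  have c4 : ContinuousAt (fun q : ℂ × (ℕ → ℂ) => conj (q.2 p)) (0, X) :=
    Complex.continuous_conj.continuousAt.comp c3
  unfold Dz
  refine ContinuousAt.div (continuousAt_const.sub c2)
    ((continuousAt_const.sub (c3.mul c1)).mul (continuousAt_const.sub (c4.mul c1))) ?_
  show (1 - X p * (p : ℂ) ^ (-1/2 - (0:ℂ))) * (1 - conj (X p) * (p : ℂ) ^ (-1/2 - (0:ℂ))) ≠ 0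
  rw [m4_cpow p hp2]
  refine mul_ne_zero (hne _ hX1) (hne _ ?_)
  rw [Complex.norm_conj, hX1]

theorem m4_evlt (F : ℂ → (ℕ → ℂ) → ℝ) (K : Set (ℕ → ℂ)) (hK : IsCompact K) (ε : ℝ) (hε : 0 < ε)
    (hF : ∀ X ∈ K, Tendsto (fun q : ℂ × (ℕ → ℂ) => F q.1 q.2) (𝓝 (0, X)) (𝓝 (F 0 X))) :
    ∀ᶠ z in 𝓝 (0 : ℂ), ∀ X ∈ K, F z X < F 0 X + ε := by
  refine hK.eventually_forall_of_forall_eventually fun X hX => ?_
  have h1 := hF X hX
  have h3 : Tendsto (fun q : ℂ × (ℕ → ℂ) => ((0 : ℂ), q.2)) (𝓝 ((0 : ℂ), X)) (𝓝 ((0 : ℂ), X)) := by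
    have : ContinuousAt (fun q : ℂ × (ℕ → ℂ) => ((0 : ℂ), q.2)) ((0 : ℂ), X) := by fun_prop
    exact this
  have h2 : Tendsto (fun q : ℂ × (ℕ → ℂ) => F 0 q.2 + ε) (𝓝 ((0 : ℂ), X)) (𝓝 (F 0 X + ε)) :=
    (Tendsto.comp h1 h3).add_const ε
  exact Filter.Tendsto.eventually_lt h1 h2 (by linarith)

/-- continuity in z at 0, uniform in X -/
theorem DD_lim (y : ℕ) (ε : ℝ) (hε : 0 < ε) : ∃ r : ℝ, 0 < r ∧ r ≤ 1/4 ∧ ∀ z : ℂ, ‖z‖ ≤ r → ∀ X : ℕ → ℂ,
    (∀ p, ‖X p‖ = 1) → DD 1 z (blk y 0) X ≤ DD 1 0 (blk y 0) X + ε := by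
  set K : Set (ℕ → ℂ) := Set.pi Set.univ fun _ => Metric.sphere (0 : ℂ) 1 with hK
  have hKc : IsCompact K := isCompact_univ_pi fun _ => isCompact_sphere _ _
  have hev := m4_evlt (fun z X => DD 1 z (blk y 0) X) K hKc ε hε
    (fun X hX => m4_contDD y X fun p => by
      have := hX p (Set.mem_univ p)
      simpa using this)
  obtain ⟨r, hr, hr2⟩ := Metric.eventually_nhds_iff.mp hev
  refine ⟨min (r / 2) (1 / 4), by positivity, min_le_right _ _, fun z hz X hX => ?_⟩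
  have hz' : dist z 0 < r := by
    rw [dist_zero_right]
    have := hz.trans (min_le_left _ _)
    linarith
  exact (hr2 hz' X (fun p _ => by simpa using hX p)).le

end CZ
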