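import Pool.Agent.Lib.MP_9eae41_pr.E3
import Pool.Agent.Lib.MP_9eae41_pr.M4

set_option autoImplicit false

open Complex MeasureTheory Set Filter Topology
open scoped ComplexConjugate ENNReal

namespace CZ

/-! Row N1 (250 lines): generic product bound. S = union of the blocks 0..M, F = A0 * product of f_n (dp_prod, dp_mul,
dp_mono); torus integral by torus_blocks_real and DD over a disjoint union; a = 0 from mean_dp, a = 1 from sec_mom.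
DD_lim for the small block (z has norm 1/log T). -/

private theorem n1_meas_Xt : Measurable (fun θ : Om => Xt θ) := by
  refine measurable_pi_lambda _ fun p => ?_
  unfold Xt ee
  have h1 : Measurable (fun θ : Om => θ p) := measurable_pi_apply p
  have h2 : Continuous (fun x : ℝ => Complex.exp (2 * Real.pi * x * I)) := by fun_prop
  exact h2.measurable.comp h1

private theorem n1_meas_Dz (z : ℂ) (p : ℕ) : Measurable (Dz z p) := by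
  unfold Dz
  have h1 : Measurable (fun x : ℂ => conj x) := Complex.continuous_conj.measurable
  fun_prop

private theorem n1_norm_Xt (θ : Om) (p : ℕ) : ‖Xt θ p‖ = 1 := by
  unfold Xt ee
  rw [Complex.norm_exp]
  simp

private theorem n1_meas_DD (a : ℕ) (z : ℂ) (s : Finset ℕ) :
    Measurable (fun θ : Om => DD a z s (Xt θ)) := by
  unfold DD
  refine Measurable.pow_const ?_ a
  refine Finset.measurable_prod s fun p _ => ?_
  have h1 : Measurable (fun θ : Om => Xt θ p) := (measurable_pi_apply p).comp n1_meas_Xt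
  exact ((n1_meas_Dz z p).comp h1).norm

private theorem n1_DD_nonneg (a : ℕ) (z : ℂ) (s : Finset ℕ) (X : ℕ → ℂ) : 0 ≤ DD a z s X := by
  unfold DD
  exact pow_nonneg (Finset.prod_nonneg fun p _ => norm_nonneg _) a

private theorem n1_DD_bound {a : ℕ} {z : ℂ} (hz : ‖z‖ ≤ 1/4) {s : Finset ℕ} (hs : ∀ p ∈ s, p.Prime) :
    ∃ B : ℝ, 0 ≤ B ∧ ∀ X : ℕ → ℂ, (∀ p, ‖X p‖ = 1) → DD a z s X ≤ B := by
  have h : ∀ p : ℕ, ∃ B : ℝ, 0 ≤ B ∧ (p ∈ s → ∀ x : ℂ, ‖x‖ = 1 → ‖Dz z p x‖ ≤ B) := by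
    intro p
    by_cases hp : p ∈ s
    · obtain ⟨B, hB⟩ := (isCompact_sphere (0 : ℂ) 1).exists_bound_of_continuousOn (Dz_cont hz (hs p hp))
      refine ⟨max B 0, le_max_right _ _, fun _ x hx => (hB x (by simpa using hx)).trans (le_max_left _ _)⟩
    · exact ⟨0, le_refl _, fun h => absurd h hp⟩
  choose B hB0 hB using h
  refine ⟨(∏ p ∈ s, B p) ^ a, pow_nonneg (Finset.prod_nonneg fun p _ => hB0 p) a, fun X hX => ?_⟩
  unfold DD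
  refine pow_le_pow_left₀ (Finset.prod_nonneg fun p _ => norm_nonneg _) ?_ a
  exact Finset.prod_le_prod (fun p _ => norm_nonneg _) fun p hp => hB p hp _ (hX p)

private theorem n1_meas_F {S : Finset ℕ} {H : ℕ} {L : ℝ} {F : (ℕ → ℂ) → ℂ} (hF : IsDP S H L F) :
    Measurable (fun θ : Om => ‖F (Xt θ)‖ ^ 2) :=
  ((dp_cont hF).measurable.comp n1_meas_Xt).norm.pow_const 2

private theorem n1_int {a : ℕ} {z : ℂ} (hz : ‖z‖ ≤ 1/4) {s S : Finset ℕ} (hs : ∀ p ∈ s, p.Prime)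
    {H : ℕ} {L : ℝ} {F : (ℕ → ℂ) → ℂ} (hF : IsDP S H L F) :
    Integrable (fun θ : Om => ‖F (Xt θ)‖ ^ 2 * DD a z s (Xt θ)) PT := by
  have := PT_prob
  obtain ⟨B, hB0, hB⟩ := n1_DD_bound (a := a) hz hs
  refine Integrable.of_bound ((n1_meas_F hF).mul (n1_meas_DD a z s)).aestronglyMeasurable (L ^ 2 * B)
    (Eventually.of_forall fun θ => ?_)
  rw [Real.norm_of_nonneg (mul_nonneg (sq_nonneg _) (n1_DD_nonneg _ _ _ _))]
  exact mul_le_mul (pow_le_pow_left₀ (norm_nonneg _) (dp_bound hF (n1_norm_Xt θ)) 2)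
    (hB _ (n1_norm_Xt θ)) (n1_DD_nonneg _ _ _ _) (sq_nonneg _)

private theorem n1_split (a : ℕ) (z : ℂ) {y : ℕ} (hy : 2 ≤ y) (M : ℕ) {A0 : (ℕ → ℂ) → ℂ}
    {H0 : ℕ} {L0 : ℝ} (hA : IsDP (blk y 0) H0 L0 A0) {f : ℕ → (ℕ → ℂ) → ℂ} {H : ℕ → ℕ} {L : ℕ → ℝ}
    (hf : ∀ n ∈ Finset.Icc 1 M, IsDP (blk y n) (H n) (L n) (f n)) :
    ∫ θ, ‖A0 (Xt θ) * ∏ n ∈ Finset.Icc 1 M, f n (Xt θ)‖ ^ 2 *
      DD a z ((insert 0 (Finset.Icc 1 M)).biUnion (blk y)) (Xt θ) ∂PT =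
    (∫ θ, ‖A0 (Xt θ)‖ ^ 2 * DD a z (blk y 0) (Xt θ) ∂PT) *
      ∏ n ∈ Finset.Icc 1 M, ∫ θ, ‖f n (Xt θ)‖ ^ 2 * DD a z (blk y n) (Xt θ) ∂PT := by
  have h0 : (0 : ℕ) ∉ Finset.Icc 1 M := by simp
  set g : ℕ → (ℕ → ℂ) → ℂ := fun n => if n = 0 then A0 else f n with hg
  have hgdp : ∀ i ∈ insert 0 (Finset.Icc 1 M), ∃ H' L', IsDP (blk y i) H' L' (g i) := by
    intro i hi
    by_cases h : i = 0
    · subst h
      exact ⟨H0, L0, by simpa [hg] using hA⟩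
    · have : i ∈ Finset.Icc 1 M := by
        rcases Finset.mem_insert.1 hi with h' | h'
        · exact absurd h' h
        · exact h'
      exact ⟨H i, L i, by simpa [hg, h] using hf i this⟩
  have hb := torus_blocks_real (insert 0 (Finset.Icc 1 M)) (blk y)
    (fun i _ j _ hij => blk_disj hy hij) (fun i X => ‖g i X‖ ^ 2 * DD a z (blk y i) X)
    (fun i hi => by
      obtain ⟨H', L', h⟩ := hgdp i hi
      exact (n1_meas_F h).mul (n1_meas_DD a z _))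
    (fun i hi X Y hXY => by
      obtain ⟨H', L', h⟩ := hgdp i hi
      have e1 : g i X = g i Y := dp_dep h hXY
      have e2 : DD a z (blk y i) X = DD a z (blk y i) Y := by
        unfold DD
        congr 1
        exact Finset.prod_congr rfl fun p hp => by rw [hXY p hp]
      simp only [e1, e2])
  rw [Finset.prod_insert h0] at hb
  have e3 : ∀ n ∈ Finset.Icc 1 M, g n = f n := by
    intro n hn
    have : n ≠ 0 := by
      have := (Finset.mem_Icc.1 hn).1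
      omega
    simp [hg, this]
  have e4 : g 0 = A0 := by simp [hg]
  rw [e4] at hb
  have e5 : ∏ n ∈ Finset.Icc 1 M, ∫ θ, ‖g n (Xt θ)‖ ^ 2 * DD a z (blk y n) (Xt θ) ∂PT =
      ∏ n ∈ Finset.Icc 1 M, ∫ θ, ‖f n (Xt θ)‖ ^ 2 * DD a z (blk y n) (Xt θ) ∂PT :=
    Finset.prod_congr rfl fun n hn => by rw [e3 n hn]
  rw [e5] at hb
  rw [← hb]
  refine integral_congr_ae (Eventually.of_forall fun θ => ?_)
  simp only
  rw [Finset.prod_insert h0, e4]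
  have e6 : ∏ n ∈ Finset.Icc 1 M, ‖g n (Xt θ)‖ ^ 2 * DD a z (blk y n) (Xt θ) =
      (∏ n ∈ Finset.Icc 1 M, ‖f n (Xt θ)‖ ^ 2) * ∏ n ∈ Finset.Icc 1 M, DD a z (blk y n) (Xt θ) := by
    rw [← Finset.prod_mul_distrib]
    exact Finset.prod_congr rfl fun n hn => by rw [e3 n hn]
  rw [e6]
  have e7 : DD a z ((insert 0 (Finset.Icc 1 M)).biUnion (blk y)) (Xt θ) =
      DD a z (blk y 0) (Xt θ) * ∏ n ∈ Finset.Icc 1 M, DD a z (blk y n) (Xt θ) := by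
    unfold DD
    rw [Finset.prod_biUnion (fun i _ j _ hij => blk_disj hy hij), Finset.prod_insert h0, mul_pow,
      Finset.prod_pow]
  rw [e7, norm_mul, norm_prod, mul_pow, Finset.prod_pow]
  ring

private theorem n1_dp {y : ℕ} (M : ℕ) {A0 : (ℕ → ℂ) → ℂ}
    {H0 : ℕ} {L0 : ℝ} (hA : IsDP (blk y 0) H0 L0 A0) {f : ℕ → (ℕ → ℂ) → ℂ} {H : ℕ → ℕ} {L : ℕ → ℝ}
    (hf : ∀ n ∈ Finset.Icc 1 M, IsDP (blk y n) (H n) (L n) (f n)) :
    IsDP ((insert 0 (Finset.Icc 1 M)).biUnion (blk y)) (max H0 1 * ∏ n ∈ Finset.Icc 1 M, H n)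
      (L0 * ∏ n ∈ Finset.Icc 1 M, L n) (fun X => A0 X * ∏ n ∈ Finset.Icc 1 M, f n X) := by
  have h1 : IsDP ((insert 0 (Finset.Icc 1 M)).biUnion (blk y)) (max H0 1) L0 A0 :=
    dp_mono hA (Finset.subset_biUnion_of_mem (blk y) (Finset.mem_insert_self 0 _)) (le_max_left _ _)
      (le_refl _)
  have h2 := dp_prod (Finset.Icc 1 M) (blk y) H L f hf
  have h3 := dp_mono h2 (S' := (insert 0 (Finset.Icc 1 M)).biUnion (blk y))
    (Finset.biUnion_subset_biUnion_of_subset_left _ (Finset.subset_insert _ _)) (le_refl _) (le_refl _)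
  exact dp_mul h1 h3

/-- the torus integral of the product -/
private theorem n1_bound (a : ℕ) {z : ℂ} (hz : ‖z‖ ≤ 1/4) {y : ℕ} (hy : 2 ≤ y) (M : ℕ)
    {A0 : (ℕ → ℂ) → ℂ} {H0 : ℕ} {L0 : ℝ} (hA : IsDP (blk y 0) H0 L0 A0) {f : ℕ → (ℕ → ℂ) → ℂ}
    {H : ℕ → ℕ} {L β : ℕ → ℝ} (hf : ∀ n ∈ Finset.Icc 1 M, IsDP (blk y n) (H n) (L n) (f n))
    (hβ : ∀ n ∈ Finset.Icc 1 M, ∫ θ, ‖f n (Xt θ)‖ ^ 2 * DD a z (blk y n) (Xt θ) ∂PT ≤ β n)
    {ε δ : ℝ} (hε : 0 < ε) (hδ : L0 ^ 2 * δ ≤ ε) (hδ0 : 0 ≤ δ)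
    (hlim : ∀ X : ℕ → ℂ, (∀ p, ‖X p‖ = 1) → DD a z (blk y 0) X ≤ DD a 0 (blk y 0) X + δ) :
    ∫ θ, ‖A0 (Xt θ) * ∏ n ∈ Finset.Icc 1 M, f n (Xt θ)‖ ^ 2 *
      DD a z ((insert 0 (Finset.Icc 1 M)).biUnion (blk y)) (Xt θ) ∂PT ≤
    ((∫ θ, ‖A0 (Xt θ)‖ ^ 2 * DD a 0 (blk y 0) (Xt θ) ∂PT) + ε) * ∏ n ∈ Finset.Icc 1 M, β n := by
  have := PT_prob
  rw [n1_split a z hy M hA hf]
  have h1 : ∫ θ, ‖A0 (Xt θ)‖ ^ 2 * DD a z (blk y 0) (Xt θ) ∂PT ≤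
      (∫ θ, ‖A0 (Xt θ)‖ ^ 2 * DD a 0 (blk y 0) (Xt θ) ∂PT) + ε := by
    have hi := n1_int (a := a) hz (fun p hp => blk_prime hp) hA (s := blk y 0)
    have hi0 := n1_int (a := a) (z := 0) (by simp) (fun p hp => blk_prime hp) hA (s := blk y 0)
    have h2 : ∫ θ, ‖A0 (Xt θ)‖ ^ 2 * DD a z (blk y 0) (Xt θ) ∂PT ≤
        ∫ θ, (‖A0 (Xt θ)‖ ^ 2 * DD a 0 (blk y 0) (Xt θ) + L0 ^ 2 * δ) ∂PT := by
      refine integral_mono hi (hi0.add (integrable_const _)) fun θ => ?_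
      simp only
      have h3 := hlim _ (n1_norm_Xt θ)
      have h4 : ‖A0 (Xt θ)‖ ^ 2 ≤ L0 ^ 2 :=
        pow_le_pow_left₀ (norm_nonneg _) (dp_bound hA (n1_norm_Xt θ)) 2
      calc ‖A0 (Xt θ)‖ ^ 2 * DD a z (blk y 0) (Xt θ)
          ≤ ‖A0 (Xt θ)‖ ^ 2 * (DD a 0 (blk y 0) (Xt θ) + δ) :=
            mul_le_mul_of_nonneg_left h3 (sq_nonneg _)
        _ = ‖A0 (Xt θ)‖ ^ 2 * DD a 0 (blk y 0) (Xt θ) + ‖A0 (Xt θ)‖ ^ 2 * δ := by ring
        _ ≤ _ := by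
            have := mul_le_mul_of_nonneg_right h4 hδ0
            linarith
    rw [integral_add hi0 (integrable_const _), integral_const] at h2
    simp only [probReal_univ, smul_eq_mul, one_mul] at h2
    linarith
  refine mul_le_mul h1 (Finset.prod_le_prod (fun n _ => integral_nonneg fun θ =>
    mul_nonneg (sq_nonneg _) (n1_DD_nonneg _ _ _ _)) hβ)
    (Finset.prod_nonneg fun n _ => integral_nonneg fun θ =>
      mul_nonneg (sq_nonneg _) (n1_DD_nonneg _ _ _ _)) ?_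
  have : 0 ≤ ∫ θ, ‖A0 (Xt θ)‖ ^ 2 * DD a 0 (blk y 0) (Xt θ) ∂PT :=
    integral_nonneg fun θ => mul_nonneg (sq_nonneg _) (n1_DD_nonneg _ _ _ _)
  linarith

private theorem n1_event (K c : ℝ) (hc : 0 < c) : ∃ T0 : ℝ, 1 ≤ T0 ∧ ∀ T : ℝ, T0 ≤ T → K ≤ T ^ c := by
  have h := (tendsto_rpow_atTop hc).eventually_ge_atTop K
  obtain ⟨T0, hT0⟩ := eventually_atTop.1 h
  exact ⟨max T0 1, le_max_right _ _, fun T hT => hT0 T ((le_max_left _ _).trans hT)⟩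

theorem gp (a : ℕ) (ha : a ≤ 1) : ∃ C : ℝ, 0 < C ∧ ∀ (y : ℕ), 2 ≤ y → ∀ (A0 : (ℕ → ℂ) → ℂ) (H0 : ℕ) (L0 : ℝ),
    IsDP (blk y 0) H0 L0 A0 → ∀ ε : ℝ, 0 < ε → ∃ T0 : ℝ, 3 ≤ T0 ∧ ∀ T : ℝ, T0 ≤ T → ∀ (M : ℕ)
    (f : ℕ → (ℕ → ℂ) → ℂ) (H : ℕ → ℕ) (L β : ℕ → ℝ),
    (∀ n ∈ Finset.Icc 1 M, IsDP (blk y n) (H n) (L n) (f n) ∧ 1 ≤ H n ∧ 0 ≤ β n) →
    (∀ n ∈ Finset.Icc 1 M, ∀ z : ℂ, ‖z‖ = 1 / Real.log T →
      ∫ θ, ‖f n (Xt θ)‖ ^ 2 * DD a z (blk y n) (Xt θ) ∂PT ≤ β n) →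
    (∏ n ∈ Finset.Icc 1 M, (H n : ℝ)) ≤ T ^ (1/50 : ℝ) → (∏ n ∈ Finset.Icc 1 M, L n) ≤ T ^ (1/50 : ℝ) →
    ∫⁻ t, ENNReal.ofReal (Z t ^ (2 * a) * (‖A0 (Xp t)‖ ^ 2 * ∏ n ∈ Finset.Icc 1 M, ‖f n (Xp t)‖ ^ 2)) ∂mu T ≤
      ENNReal.ofReal (C * Real.log T ^ a *
        (((∫ θ, ‖A0 (Xt θ)‖ ^ 2 * DD a 0 (blk y 0) (Xt θ) ∂PT) + ε) * (∏ n ∈ Finset.Icc 1 M, β n) + T ^ (-(1/2) : ℝ))) := by
  obtain ⟨C1, T1, hC1, hT1, hsec⟩ := sec_mom
  refine ⟨max C1 1, lt_of_lt_of_le one_pos (le_max_right _ _), fun y hy A0 H0 L0 hA ε hε => ?_⟩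
  have hL0 : 0 ≤ L0 := dp_nonneg hA
  set δ : ℝ := ε / (L0 ^ 2 + 1) with hδ
  have hδ0 : 0 < δ := by positivity
  have hδε : L0 ^ 2 * δ ≤ ε := by
    rw [hδ, mul_div_assoc', div_le_iff₀ (by positivity)]
    nlinarith [sq_nonneg L0]
  obtain ⟨r, hr0, hr4, hr⟩ := DD_lim y δ hδ0
  set H1 : ℝ := ((max H0 1 : ℕ) : ℝ) with hH1
  have hH1' : 1 ≤ H1 := by
    rw [hH1]
    exact_mod_cast le_max_right H0 1
  obtain ⟨T2, hT2, h2⟩ := n1_event (H1 ^ 2) (1 / 2) (by norm_num)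
  obtain ⟨T3, hT3, h3⟩ := n1_event (L0 ^ 2 * (2 * H1 ^ 2)) (1 / 10) (by norm_num)
  refine ⟨max (max T1 T2) (max T3 (max 3 (Real.exp (1 / r)))), ?_, fun T hT M f H L β hf hβ hH hL => ?_⟩
  · exact (le_max_left (3 : ℝ) _).trans ((le_max_right _ _).trans (le_max_right _ _))
  have hTT1 : T1 ≤ T := ((le_max_left _ _).trans (le_max_left _ _)).trans hT
  have hTT2 : T2 ≤ T := ((le_max_right _ _).trans (le_max_left _ _)).trans hT
  have hTT3 : T3 ≤ T := ((le_max_left _ _).trans (le_max_right _ _)).trans hT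
  have hT3' : 3 ≤ T := (((le_max_left _ _).trans (le_max_right _ _)).trans (le_max_right _ _)).trans hT
  have hTr : Real.exp (1 / r) ≤ T :=
    (((le_max_right _ _).trans (le_max_right _ _)).trans (le_max_right _ _)).trans hT
  have hT0 : 0 < T := by linarith
  have hT1' : 1 ≤ T := by linarith
  have hlog : 1 / r ≤ Real.log T := by
    rw [Real.le_log_iff_exp_le hT0]
    exact hTr
  have hlog0 : 0 < Real.log T := lt_of_lt_of_le (by positivity) hlog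
  have hzr : 1 / Real.log T ≤ r := by
    rw [div_le_iff₀ hlog0]
    rw [div_le_iff₀ hr0] at hlog
    linarith
  have hf' : ∀ n ∈ Finset.Icc 1 M, IsDP (blk y n) (H n) (L n) (f n) := fun n hn => (hf n hn).1
  have hdp := n1_dp M hA hf'
  set S := (insert 0 (Finset.Icc 1 M)).biUnion (blk y) with hS
  set F : (ℕ → ℂ) → ℂ := fun X => A0 X * ∏ n ∈ Finset.Icc 1 M, f n X with hF
  set Ht : ℕ := max H0 1 * ∏ n ∈ Finset.Icc 1 M, H n with hHt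
  set Lt : ℝ := L0 * ∏ n ∈ Finset.Icc 1 M, L n with hLt
  have hLt0 : 0 ≤ Lt := dp_nonneg hdp
  have hHt1 : 1 ≤ Ht := by
    rw [hHt]
    refine Nat.one_le_iff_ne_zero.2 (mul_ne_zero ?_ ?_)
    · have := le_max_right H0 1
      omega
    · exact Finset.prod_ne_zero_iff.2 fun n hn => by
        have := (hf n hn).2.1
        omega
  have hHtr : (Ht : ℝ) ≤ H1 * T ^ (1/50 : ℝ) := by
    rw [hHt]
    push_cast
    rw [hH1]
    push_cast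
    exact mul_le_mul_of_nonneg_left hH (by positivity)
  have hLtr : Lt ≤ L0 * T ^ (1/50 : ℝ) := mul_le_mul_of_nonneg_left hL hL0
  have hSprime : ∀ p ∈ S, p.Prime := by
    intro p hp
    obtain ⟨i, _, hi⟩ := Finset.mem_biUnion.1 hp
    exact blk_prime hi
  have hLt2 : Lt ^ 2 ≤ L0 ^ 2 * T ^ (1/25 : ℝ) := by
    calc Lt ^ 2 ≤ (L0 * T ^ (1/50 : ℝ)) ^ 2 := pow_le_pow_left₀ hLt0 hLtr 2
      _ = L0 ^ 2 * T ^ (1/25 : ℝ) := by
        rw [mul_pow, ← Real.rpow_natCast (T ^ (1/50 : ℝ)) 2, ← Real.rpow_mul hT0.le]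
        norm_num
  have hint : ∀ t, Z t ^ (2 * a) * (‖A0 (Xp t)‖ ^ 2 * ∏ n ∈ Finset.Icc 1 M, ‖f n (Xp t)‖ ^ 2) =
      Z t ^ (2 * a) * ‖F (Xp t)‖ ^ 2 := by
    intro t
    rw [hF]
    simp only
    rw [norm_mul, norm_prod, mul_pow, Finset.prod_pow]
  simp only [hint]
  set I0 := ∫ θ, ‖A0 (Xt θ)‖ ^ 2 * DD a 0 (blk y 0) (Xt θ) ∂PT with hI0
  have hI0n : 0 ≤ I0 := integral_nonneg fun θ => mul_nonneg (sq_nonneg _) (n1_DD_nonneg _ _ _ _)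
  set Pβ := ∏ n ∈ Finset.Icc 1 M, β n with hPβ
  have hPβ0 : 0 ≤ Pβ := Finset.prod_nonneg fun n hn => (hf n hn).2.2
  have hbd : ∀ z : ℂ, ‖z‖ = 1 / Real.log T → ∫ θ, ‖F (Xt θ)‖ ^ 2 * DD a z S (Xt θ) ∂PT ≤ (I0 + ε) * Pβ := by
    intro z hz
    have hz4 : ‖z‖ ≤ 1/4 := by rw [hz]; exact hzr.trans hr4
    refine n1_bound a hz4 hy M hA hf' (fun n hn => hβ n hn z hz) hε hδε hδ0.le fun X hX => ?_
    rcases Nat.le_one_iff_eq_zero_or_eq_one.1 ha with rfl | rfl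
    · simp only [DD, pow_zero]
      linarith
    · exact hr z (by rw [hz]; exact hzr) X hX
  have hL2H : L0 ^ 2 * (2 * H1 ^ 2) ≤ T ^ (1/10 : ℝ) := h3 T hTT3
  rcases Nat.le_one_iff_eq_zero_or_eq_one.1 ha with rfl | rfl
  · -- no zeta factor
    simp only [mul_zero, pow_zero, one_mul, mul_one]
    refine (mean_dp hT1' hdp).trans (ENNReal.ofReal_le_ofReal ?_)
    have hb := hbd ((1 / Real.log T : ℝ) : ℂ) (by
      rw [Complex.norm_real, Real.norm_of_nonneg (by positivity)])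
    simp only [DD, pow_zero, mul_one] at hb
    have hrest : Lt ^ 2 * ((Ht : ℝ) + 1) / T ≤ T ^ (-(1/2) : ℝ) := by
      rw [div_le_iff₀ hT0]
      have e1 : T ^ (-(1/2) : ℝ) * T = T ^ (1/2 : ℝ) := by
        nth_rw 2 [← Real.rpow_one T]
        rw [← Real.rpow_add hT0]
        norm_num
      rw [e1]
      have hT50 : (1 : ℝ) ≤ T ^ (1/50 : ℝ) := Real.one_le_rpow hT1' (by norm_num)
      have e2 : (Ht : ℝ) + 1 ≤ 2 * H1 ^ 2 * T ^ (1/50 : ℝ) := by nlinarith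
      calc Lt ^ 2 * ((Ht : ℝ) + 1) ≤ (L0 ^ 2 * T ^ (1/25 : ℝ)) * (2 * H1 ^ 2 * T ^ (1/50 : ℝ)) :=
            mul_le_mul hLt2 e2 (by positivity) (by positivity)
        _ = (L0 ^ 2 * (2 * H1 ^ 2)) * (T ^ (1/25 : ℝ) * T ^ (1/50 : ℝ)) := by ring
        _ ≤ T ^ (1/10 : ℝ) * (T ^ (1/25 : ℝ) * T ^ (1/50 : ℝ)) :=
            mul_le_mul_of_nonneg_right hL2H (by positivity)
        _ = T ^ (4/25 : ℝ) := by
            rw [← Real.rpow_add hT0, ← Real.rpow_add hT0]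
            norm_num
        _ ≤ T ^ (1/2 : ℝ) := Real.rpow_le_rpow_of_exponent_le hT1' (by norm_num)
    have h1C : (1 : ℝ) ≤ max C1 1 := le_max_right _ _
    have hpos : 0 ≤ (I0 + ε) * Pβ + T ^ (-(1/2) : ℝ) := by positivity
    calc (∫ θ, ‖F (Xt θ)‖ ^ 2 ∂PT) + Lt ^ 2 * ((Ht : ℝ) + 1) / T
        ≤ (I0 + ε) * Pβ + T ^ (-(1/2) : ℝ) := add_le_add hb hrest
      _ ≤ max C1 1 * ((I0 + ε) * Pβ + T ^ (-(1/2) : ℝ)) := by nlinarith
  · -- second moment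
    simp only [mul_one, pow_one]
    have hH2 : (Ht : ℝ) ^ 2 ≤ T := by
      have e1 : H1 ^ 2 ≤ T ^ (1/2 : ℝ) := h2 T hTT2
      calc (Ht : ℝ) ^ 2 ≤ (H1 * T ^ (1/50 : ℝ)) ^ 2 := pow_le_pow_left₀ (by positivity) hHtr 2
        _ = H1 ^ 2 * T ^ (1/25 : ℝ) := by
          rw [mul_pow, ← Real.rpow_natCast (T ^ (1/50 : ℝ)) 2, ← Real.rpow_mul hT0.le]
          norm_num
        _ ≤ T ^ (1/2 : ℝ) * T ^ (1/25 : ℝ) := mul_le_mul_of_nonneg_right e1 (by positivity)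
        _ = T ^ (27/50 : ℝ) := by rw [← Real.rpow_add hT0]; norm_num
        _ ≤ T ^ (1 : ℝ) := Real.rpow_le_rpow_of_exponent_le hT1' (by norm_num)
        _ = T := Real.rpow_one T
    have hm := hsec T hTT1 S Ht Lt F hSprime hdp hHt1 hH2 ((I0 + ε) * Pβ) hbd
    refine hm.trans (ENNReal.ofReal_le_ofReal ?_)
    have hrest : Lt ^ 2 * (Ht : ℝ) ^ (5/4 : ℝ) * T ^ (-(3/4) : ℝ) ≤ T ^ (-(1/2) : ℝ) := by
      have e1 : (Ht : ℝ) ^ (5/4 : ℝ) ≤ H1 ^ 2 * T ^ (1/25 : ℝ) := by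
        have hHt1' : (1 : ℝ) ≤ (Ht : ℝ) := by exact_mod_cast hHt1
        calc (Ht : ℝ) ^ (5/4 : ℝ) ≤ (Ht : ℝ) ^ (2 : ℝ) :=
              Real.rpow_le_rpow_of_exponent_le hHt1' (by norm_num)
          _ = (Ht : ℝ) ^ 2 := by
              rw [← Real.rpow_natCast]
              norm_num
          _ ≤ (H1 * T ^ (1/50 : ℝ)) ^ 2 := pow_le_pow_left₀ (by positivity) hHtr 2
          _ = H1 ^ 2 * T ^ (1/25 : ℝ) := by
            rw [mul_pow, ← Real.rpow_natCast (T ^ (1/50 : ℝ)) 2, ← Real.rpow_mul hT0.le]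
            norm_num
      calc Lt ^ 2 * (Ht : ℝ) ^ (5/4 : ℝ) * T ^ (-(3/4) : ℝ)
          ≤ (L0 ^ 2 * T ^ (1/25 : ℝ)) * (H1 ^ 2 * T ^ (1/25 : ℝ)) * T ^ (-(3/4) : ℝ) := by
            refine mul_le_mul_of_nonneg_right (mul_le_mul hLt2 e1 (by positivity) (by positivity))
              (by positivity)
        _ = (L0 ^ 2 * H1 ^ 2) * (T ^ (1/25 : ℝ) * T ^ (1/25 : ℝ) * T ^ (-(3/4) : ℝ)) := by ring
        _ ≤ T ^ (1/10 : ℝ) * (T ^ (1/25 : ℝ) * T ^ (1/25 : ℝ) * T ^ (-(3/4) : ℝ)) := by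
            refine mul_le_mul_of_nonneg_right (le_trans ?_ hL2H) (by positivity)
            have : 0 ≤ L0 ^ 2 * H1 ^ 2 := by positivity
            nlinarith
        _ = T ^ (-(57/100) : ℝ) := by
            rw [← Real.rpow_add hT0, ← Real.rpow_add hT0, ← Real.rpow_add hT0]
            norm_num
        _ ≤ T ^ (-(1/2) : ℝ) := Real.rpow_le_rpow_of_exponent_le hT1' (by norm_num)
    have hCC : C1 ≤ max C1 1 := le_max_left _ _
    calc C1 * Real.log T * ((I0 + ε) * Pβ + Lt ^ 2 * (Ht : ℝ) ^ (5/4 : ℝ) * T ^ (-(3/4) : ℝ))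
        ≤ C1 * Real.log T * ((I0 + ε) * Pβ + T ^ (-(1/2) : ℝ)) := by
          refine mul_le_mul_of_nonneg_left (by linarith) (by positivity)
      _ ≤ max C1 1 * Real.log T * ((I0 + ε) * Pβ + T ^ (-(1/2) : ℝ)) := by
          refine mul_le_mul_of_nonneg_right (mul_le_mul_of_nonneg_right hCC hlog0.le) (by positivity)

end CZ
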