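import Pool.Agent.Lib.MP_9eae41_pr.N1
import Pool.Agent.Lib.MP_9eae41_pr.K2
import Pool.Agent.Lib.MP_9eae41_pr.A4
import Pool.Agent.Lib.MP_9eae41_pr.M1

set_option autoImplicit false

open Complex MeasureTheory Set Filter Topology
open scoped ComplexConjugate ENNReal

namespace CZ

/-! Row O1 (250 lines): the L-bounds, from gp with beta_n from blk_N and blk_W (r = 1, A = 100). -/

theorem o1_T (ε : ℝ) (hε : 0 < ε) : ∃ T1 : ℝ, 3 ≤ T1 ∧ ∀ T : ℝ, T1 ≤ T →
    T ^ (-(1/2) : ℝ) * (Real.log T * Real.exp 1 * Real.exp (Real.log T ^ (3/4 : ℝ) + 1)) ≤ ε := by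
  refine ⟨max 3 (Real.exp (max 4096 (4 * Real.log (8 * Real.exp 2 / ε)))), le_max_left _ _, ?_⟩
  intro T hT
  have hT3 : 3 ≤ T := (le_max_left _ _).trans hT
  have hTpos : 0 < T := by linarith
  have hx : max 4096 (4 * Real.log (8 * Real.exp 2 / ε)) ≤ Real.log T := by
    rw [Real.le_log_iff_exp_le hTpos]
    exact (le_max_right _ _).trans hT
  set x := Real.log T with hxd
  have hx1 : 4096 ≤ x := (le_max_left _ _).trans hx
  have hx2 : 4 * Real.log (8 * Real.exp 2 / ε) ≤ x := (le_max_right _ _).trans hx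
  have hx0 : 0 < x := by linarith
  have h8 : (8 : ℝ) ≤ x ^ (1/4 : ℝ) := by
    have e1 : ((8 : ℝ) ^ (4 : ℕ)) ^ (((4 : ℕ) : ℝ)⁻¹) = 8 := Real.pow_rpow_inv_natCast (by norm_num) (by norm_num)
    have e2 : ((8 : ℝ) ^ (4 : ℕ)) ^ (((4 : ℕ) : ℝ)⁻¹) ≤ x ^ (((4 : ℕ) : ℝ)⁻¹) :=
      Real.rpow_le_rpow (by positivity) (by norm_num; linarith) (by positivity)
    rw [e1] at e2
    have e3 : (((4 : ℕ) : ℝ)⁻¹) = (1/4 : ℝ) := by norm_num
    rwa [e3] at e2
  have h1 : x ^ (3/4 : ℝ) ≤ x / 8 := by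
    have e1 : x ^ (3/4 : ℝ) * x ^ (1/4 : ℝ) = x := by
      rw [← Real.rpow_add hx0]
      norm_num
    have e2 : x ^ (3/4 : ℝ) * 8 ≤ x ^ (3/4 : ℝ) * x ^ (1/4 : ℝ) :=
      mul_le_mul_of_nonneg_left h8 (Real.rpow_nonneg hx0.le _)
    linarith
  have h2 : x ≤ 8 * Real.exp (x / 8) := by
    have := Real.add_one_le_exp (x / 8)
    linarith
  have h3 : T ^ (-(1/2) : ℝ) = Real.exp (-(x / 2)) := by
    rw [Real.rpow_def_of_pos hTpos]
    congr 1
    ring
  have h4 : Real.exp (-(x / 4)) ≤ ε / (8 * Real.exp 2) := by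
    have e1 : Real.exp (-(x / 4)) ≤ Real.exp (-Real.log (8 * Real.exp 2 / ε)) := Real.exp_le_exp.2 (by linarith)
    have e2 : Real.exp (-Real.log (8 * Real.exp 2 / ε)) = ε / (8 * Real.exp 2) := by
      rw [Real.exp_neg, Real.exp_log (by positivity), inv_div]
    rwa [e2] at e1
  calc T ^ (-(1/2) : ℝ) * (x * Real.exp 1 * Real.exp (x ^ (3/4 : ℝ) + 1))
      ≤ Real.exp (-(x / 2)) * (8 * Real.exp (x / 8) * Real.exp 1 * Real.exp (x / 8 + 1)) := by
        rw [h3]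
        gcongr
    _ = 8 * Real.exp 2 * Real.exp (-(x / 4)) := by
        have e : Real.exp (-(x / 2)) * (8 * Real.exp (x / 8) * Real.exp 1 * Real.exp (x / 8 + 1)) =
          8 * (Real.exp (-(x / 2)) * Real.exp (x / 8) * Real.exp 1 * Real.exp (x / 8 + 1)) := by ring
        rw [e, ← Real.exp_add, ← Real.exp_add, ← Real.exp_add, mul_assoc 8, ← Real.exp_add]
        congr 2
        ring
    _ ≤ 8 * Real.exp 2 * (ε / (8 * Real.exp 2)) := mul_le_mul_of_nonneg_left h4 (by positivity)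
    _ = ε := by field_simp


theorem o1_Er (z w : ℂ) (h : ‖z‖ = ‖w‖) (s : Finset ℕ) : Er z s = Er w s := by
  unfold Er
  rw [h]

theorem o1_DD_nonneg (a : ℕ) (z : ℂ) (s : Finset ℕ) (X : ℕ → ℂ) : 0 ≤ DD a z s X :=
  pow_nonneg (Finset.prod_nonneg fun _ _ => norm_nonneg _) _

/-- lower bound of the exponent sums -/
theorem o1_Sg {y : ℕ} (hy : 100 ≤ y)
    (hm : ∀ M : ℕ, |∑ n ∈ Finset.Icc 1 M, ∑ p ∈ blk y n, (1 : ℝ) / p - M * Real.log 2| ≤ 1)
    {a : ℕ} (ha : a ≤ 1) (c : ℕ → ℂ) {T δ : ℝ} (hδ : δ ≤ 1) (hT : 3 ≤ T) (M : ℕ)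
    (hM : 2 ^ M * Real.log y ≤ δ * Real.log T) :
    (Real.exp 1 * Real.log T)⁻¹ ≤ Real.exp (Sg a c y M) := by
  have hlT : 0 < Real.log T := Real.log_pos (by linarith)
  have hy' : (100 : ℝ) ≤ y := by exact_mod_cast hy
  have hly : 1 ≤ Real.log y := by
    rw [Real.le_log_iff_exp_le (by linarith)]
    have := Real.exp_one_lt_d9
    linarith
  have h2M : (2 : ℝ) ^ M ≤ Real.log T := by
    have h1 : (2 : ℝ) ^ M * 1 ≤ 2 ^ M * Real.log y := mul_le_mul_of_nonneg_left hly (by positivity)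
    have h2 : δ * Real.log T ≤ 1 * Real.log T := mul_le_mul_of_nonneg_right hδ hlT.le
    linarith
  have h1 : -(M * Real.log 2 + 1) ≤ Sg a c y M := by
    have h2 : -∑ n ∈ Finset.Icc 1 M, ∑ p ∈ blk y n, (1 : ℝ) / p ≤ Sg a c y M := by
      unfold Sg Sb
      rw [← Finset.sum_neg_distrib]
      refine Finset.sum_le_sum fun n _ => ?_
      rw [← Finset.sum_neg_distrib]
      refine Finset.sum_le_sum fun p _ => ?_
      have ha' : (a : ℝ) ≤ 1 := by exact_mod_cast ha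
      have h3 : -(1 : ℝ) ≤ ‖(a : ℂ) + c p‖ ^ 2 - a := by
        have := sq_nonneg ‖(a : ℂ) + c p‖
        linarith
      rw [← neg_div]
      exact div_le_div_of_nonneg_right h3 (Nat.cast_nonneg p)
    have h3 := (abs_le.1 (hm M)).2
    linarith
  have h4 : Real.exp (-(M * Real.log 2 + 1)) = (Real.exp 1 * 2 ^ M)⁻¹ := by
    rw [Real.exp_neg, Real.exp_add, Real.exp_nat_mul, Real.exp_log (by norm_num)]
    rw [mul_comm]
  calc (Real.exp 1 * Real.log T)⁻¹ ≤ (Real.exp 1 * 2 ^ M)⁻¹ := by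
        refine inv_anti₀ (by positivity) ?_
        exact mul_le_mul_of_nonneg_left h2M (Real.exp_pos _).le
    _ = Real.exp (-(M * Real.log 2 + 1)) := h4.symm
    _ ≤ Real.exp (Sg a c y M) := Real.exp_le_exp.2 h1

/-- the product of the block bounds -/
theorem o1_prod {C1 CE : ℝ} (hC1 : 0 < C1) (a : ℕ) (c : ℕ → ℂ) (T : ℝ) (y M : ℕ) (z : ℂ)
    (hE : ∑ n ∈ Finset.Icc 1 M, Er z (blk y n) ≤ CE)
    (hK : ∑ n ∈ Finset.Icc 1 M, Real.exp (-(KT T y n : ℝ) / 2) ≤ 1) :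
    ∏ n ∈ Finset.Icc 1 M, Real.exp (Sb a c (blk y n) + C1 * (Er z (blk y n) + Real.exp (-(KT T y n : ℝ)))) ≤
      Real.exp (Sg a c y M) * Real.exp (C1 * (CE + 1)) := by
  rw [← Real.exp_sum, ← Real.exp_add]
  apply Real.exp_le_exp.2
  rw [Finset.sum_add_distrib, ← Finset.mul_sum, Finset.sum_add_distrib]
  have h1 : ∑ n ∈ Finset.Icc 1 M, Real.exp (-(KT T y n : ℝ)) ≤ ∑ n ∈ Finset.Icc 1 M, Real.exp (-(KT T y n : ℝ) / 2) := by
    refine Finset.sum_le_sum fun n _ => Real.exp_le_exp.2 ?_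
    have : (0 : ℝ) ≤ KT T y n := Nat.cast_nonneg _
    linarith
  unfold Sg
  have h2 : C1 * (∑ n ∈ Finset.Icc 1 M, Er z (blk y n) + ∑ n ∈ Finset.Icc 1 M, Real.exp (-(KT T y n : ℝ))) ≤ C1 * (CE + 1) :=
    mul_le_mul_of_nonneg_left (by linarith) hC1.le
  linarith

/-- powers: ((1+C0) Y)^K <= Y^(2K) -/
theorem o1_len {b Y : ℝ} (hb : 0 ≤ b) (hbY : b ≤ Y) (K : ℕ) : (b * Y) ^ K ≤ Y ^ (2 * K) := by
  rw [pow_mul]
  refine pow_le_pow_left₀ (mul_nonneg hb (hb.trans hbY)) ?_ K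
  rw [sq]
  exact mul_le_mul_of_nonneg_right hbY (hb.trans hbY)

theorem LL (a : ℕ) (ha : a ≤ 1) (C0 : ℝ) (hC0 : 1 ≤ C0) : ∃ (C : ℝ) (y0 : ℕ) (δ : ℝ), 0 < C ∧ 100 ≤ y0 ∧ 0 < δ ∧ δ ≤ 1/2 ∧
    ∀ (y : ℕ), y0 ≤ y → ∀ (A0 : (ℕ → ℂ) → ℂ) (H0 : ℕ) (L0 : ℝ), IsDP (blk y 0) H0 L0 A0 → ∀ ε : ℝ, 0 < ε →
    ∃ T0 : ℝ, 3 ≤ T0 ∧ ∀ T : ℝ, T0 ≤ T → ∀ (M : ℕ), 2 ^ M * Real.log y ≤ δ * Real.log T →
    ∀ c : ℕ → ℂ, (∀ p, ‖c p‖ ≤ C0) →
    (∫⁻ t, ENNReal.ofReal (Z t ^ (2 * a) * (‖A0 (Xp t)‖ ^ 2 * ∏ n ∈ Finset.Icc 1 M, ‖Nn T y n c (Xp t)‖ ^ 2)) ∂mu T ≤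
      ENNReal.ofReal (C * Real.log T ^ a *
        ((∫ θ, ‖A0 (Xt θ)‖ ^ 2 * DD a 0 (blk y 0) (Xt θ) ∂PT) + ε) * Real.exp (Sg a c y M))) ∧
    (∀ c' : ℕ → ℂ, (∀ p, ‖c' p‖ ≤ 1) → 1 ≤ M →
      ∫⁻ t, ENNReal.ofReal (Z t ^ (2 * a) * (‖A0 (Xp t)‖ ^ 2 * ((∏ n ∈ Finset.Icc 1 (M - 1), ‖Nn T y n c (Xp t)‖ ^ 2) *
        ‖(((100 / KT T y M : ℝ) : ℂ) * Ps (blk y M) c' (Xp t)) ^ (KT T y M)‖ ^ 2))) ∂mu T ≤
      ENNReal.ofReal (C * Real.log T ^ a *
        ((∫ θ, ‖A0 (Xt θ)‖ ^ 2 * DD a 0 (blk y 0) (Xt θ) ∂PT) + ε) * Real.exp (Sg a c y (M - 1)) *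
          Real.exp (-(KT T y M : ℝ)))) := by
  obtain ⟨Cg, hCg, hgp⟩ := gp a ha
  obtain ⟨C1, hC1, hN⟩ := blk_N C0 (by linarith)
  obtain ⟨CW, hCW, hW⟩ := blk_W 1 100 zero_le_one (by norm_num) 1 le_rfl
  obtain ⟨y1, hy1, hmert⟩ := mert_blk
  obtain ⟨y2, hy2, hok⟩ := blk_ok
  obtain ⟨CE, hCE, hEr⟩ := Er_sum
  obtain ⟨δ1, hδ1, hδ1', hlen⟩ := adm_len 2 (1/50) (by norm_num)
  obtain ⟨δ2, hδ2, hδ2', hadK⟩ := adm_K 1
  obtain ⟨δ3, hδ3, hδ3', hads⟩ := adm_sum 1 one_pos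
  obtain ⟨y3, hy3⟩ := exists_nat_ge (1 + C0)
  set G : ℝ := Real.exp (C1 * (CE + 1)) with hG
  have hG1 : 1 ≤ G := Real.one_le_exp (by positivity)
  set δ : ℝ := min (1/2) (min δ1 (min δ2 δ3)) with hδ
  have hd0 : 0 < δ := by
    rw [hδ]
    exact lt_min (by norm_num) (lt_min hδ1 (lt_min hδ2 hδ3))
  have hd12 : δ ≤ 1/2 := min_le_left _ _
  have hdd1 : δ ≤ δ1 := (min_le_right _ _).trans (min_le_left _ _)
  have hdd2 : δ ≤ δ2 := (min_le_right _ _).trans ((min_le_right _ _).trans (min_le_left _ _))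
  have hdd3 : δ ≤ δ3 := (min_le_right _ _).trans ((min_le_right _ _).trans (min_le_right _ _))
  refine ⟨Cg * G * CW, max (max y1 y2) (max y3 100), δ, by positivity, (le_max_right _ _).trans (le_max_right _ _),
    hd0, hd12, ?_⟩
  intro y hy A0 H0 L0 hA0 ε hε
  have hyy1 : y1 ≤ y := (le_max_left _ _).trans ((le_max_left _ _).trans hy)
  have hyy2 : y2 ≤ y := (le_max_right _ _).trans ((le_max_left _ _).trans hy)
  have hyy3 : y3 ≤ y := (le_max_left _ _).trans ((le_max_right _ _).trans hy)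
  have hy100 : 100 ≤ y := (le_max_right _ _).trans ((le_max_right _ _).trans hy)
  have hy2' : 2 ≤ y := by omega
  obtain ⟨T1, hT1, hgpT⟩ := hgp y hy2' A0 H0 L0 hA0 (ε / 2) (by positivity)
  obtain ⟨T2, hT2, hsmall⟩ := o1_T (ε / 2) (by positivity)
  refine ⟨max T1 T2, hT1.trans (le_max_left _ _), ?_⟩
  intro T hT M hM c hc
  have hTT1 : T1 ≤ T := (le_max_left _ _).trans hT
  have hTT2 : T2 ≤ T := (le_max_right _ _).trans hT
  have hT3 : 3 ≤ T := hT1.trans hTT1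
  have hT0 : 0 < T := by linarith
  have hlT : 0 < Real.log T := Real.log_pos (by linarith)
  have hy100r : (100 : ℝ) ≤ y := by exact_mod_cast hy100
  have hly : 0 < Real.log y := Real.log_pos (by linarith)
  set I0 : ℝ := ∫ θ, ‖A0 (Xt θ)‖ ^ 2 * DD a 0 (blk y 0) (Xt θ) ∂PT with hI0
  have hI0n : 0 ≤ I0 := integral_nonneg fun θ => mul_nonneg (sq_nonneg _) (o1_DD_nonneg _ _ _ _)
  set zT : ℂ := ((1 / Real.log T : ℝ) : ℂ) with hzT
  have hzn : ‖zT‖ = 1 / Real.log T := by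
    rw [hzT, Complex.norm_real, Real.norm_of_nonneg (by positivity)]
  -- the block conditions
  have hMd : ∀ d : ℝ, δ ≤ d → 2 ^ M * Real.log y ≤ d * Real.log T := fun d hd =>
    hM.trans (mul_le_mul_of_nonneg_right hd hlT.le)
  have hM' : 2 ^ (M - 1) * Real.log y ≤ δ * Real.log T := by
    refine le_trans ?_ hM
    refine mul_le_mul_of_nonneg_right ?_ hly.le
    exact pow_le_pow_right₀ (by norm_num) (Nat.sub_le _ _)
  have hMd' : ∀ d : ℝ, δ ≤ d → 2 ^ (M - 1) * Real.log y ≤ d * Real.log T := fun d hd =>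
    hM'.trans (mul_le_mul_of_nonneg_right hd hlT.le)
  have hKge : ∀ n ∈ Finset.Icc 1 M, 1 ≤ KT T y n := hadK T y M hy2' (by linarith) (hMd _ hdd2)
  set β : ℕ → ℝ := fun n => Real.exp (Sb a c (blk y n) + C1 * (Er zT (blk y n) + Real.exp (-(KT T y n : ℝ)))) with hβ
  have hβint : ∀ n ∈ Finset.Icc 1 M, ∀ z : ℂ, ‖z‖ = 1 / Real.log T →
      ∫ θ, ‖Nn T y n c (Xt θ)‖ ^ 2 * DD a z (blk y n) (Xt θ) ∂PT ≤ β n := by
    intro n hn z hz
    have h1 := hN z (blk y n) (hok y hyy2 T M z hT3 (hMd _ hd12) hz.le n hn) a ha c (KT T y n) hc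
    rw [o1_Er z zT (hz.trans hzn.symm)] at h1
    exact h1
  have hH1 : ∀ n : ℕ, 1 ≤ (y ^ (2 ^ n)) ^ (KT T y n) := fun n => Nat.one_le_iff_ne_zero.2 (by positivity)
  have hYge : ∀ n : ℕ, (y : ℝ) ≤ (y : ℝ) ^ (2 ^ n) := fun n => by
    have : (y : ℝ) ^ 1 ≤ (y : ℝ) ^ (2 ^ n) := pow_le_pow_right₀ (by linarith) Nat.one_le_two_pow
    rwa [pow_one] at this
  have hC0y : 1 + C0 ≤ y := hy3.trans (by exact_mod_cast hyy3)
  have hlen2 : ∏ n ∈ Finset.Icc 1 M, ((y : ℝ) ^ (2 ^ n)) ^ (2 * KT T y n) ≤ T ^ (1/50 : ℝ) :=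
    hlen T y M hy2' (by linarith) (hMd _ hdd1)
  -- small error term
  have herr : ∀ M' : ℕ, 2 ^ M' * Real.log y ≤ δ * Real.log T → ∀ K : ℝ, K ≤ Real.log T ^ (3/4 : ℝ) + 1 →
      T ^ (-(1/2) : ℝ) ≤ ε / 2 * Real.exp (Sg a c y M') * Real.exp (-K) := by
    intro M' hM'' K hK
    have h1 := hsmall T hTT2
    have h2 := o1_Sg hy100 (hmert y hyy1).2 ha c (by linarith) hT3 M' hM''
    have h3 : Real.exp (-(Real.log T ^ (3/4 : ℝ) + 1)) ≤ Real.exp (-K) := Real.exp_le_exp.2 (by linarith)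
    have h4 : T ^ (-(1/2) : ℝ) ≤ ε / 2 * (Real.exp 1 * Real.log T)⁻¹ * Real.exp (-(Real.log T ^ (3/4 : ℝ) + 1)) := by
      rw [Real.exp_neg, mul_assoc, ← mul_inv, ← div_eq_mul_inv, le_div_iff₀ (by positivity)]
      calc T ^ (-(1/2) : ℝ) * (Real.exp 1 * Real.log T * Real.exp (Real.log T ^ (3/4 : ℝ) + 1))
          = T ^ (-(1/2) : ℝ) * (Real.log T * Real.exp 1 * Real.exp (Real.log T ^ (3/4 : ℝ) + 1)) := by ring
        _ ≤ ε / 2 := h1
    refine h4.trans ?_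
    gcongr
  refine ⟨?_, ?_⟩
  · -- first bound
    have key := hgpT T hTT1 M (fun n => Nn T y n c) (fun n => (y ^ (2 ^ n)) ^ (KT T y n))
      (fun n => ((1 + C0) * (y : ℝ) ^ (2 ^ n)) ^ (KT T y n)) β
      (fun n _ => ⟨dp_Nn T hy2' (by linarith) c hc, hH1 n, (Real.exp_pos _).le⟩) hβint
      (by
        refine le_trans ?_ hlen2
        refine Finset.prod_le_prod (fun n _ => Nat.cast_nonneg _) fun n _ => ?_
        push_cast
        refine pow_le_pow_right₀ ?_ (by omega)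
        linarith [hYge n])
      (by
        refine le_trans ?_ hlen2
        refine Finset.prod_le_prod (fun n _ => by positivity) fun n _ => ?_
        exact o1_len (by linarith) (hC0y.trans (hYge n)) _)
    refine key.trans (ENNReal.ofReal_le_ofReal ?_)
    have hP := o1_prod hC1 a c T y M zT (hEr y T M zT hy2' hT3 (by linarith [hMd _ hd12]) hzn.le)
      (hads T y M hy2' (by linarith) (hMd _ hdd3))
    have hE := herr M hM 0 (by have := Real.rpow_nonneg hlT.le (3/4 : ℝ); linarith)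
    rw [neg_zero, Real.exp_zero, mul_one] at hE
    set E := Real.exp (Sg a c y M) with hEd
    have hE0 : 0 < E := Real.exp_pos _
    have hfin : (I0 + ε / 2) * (∏ n ∈ Finset.Icc 1 M, β n) + T ^ (-(1/2) : ℝ) ≤ G * (I0 + ε) * E := by
      have s1 : (I0 + ε / 2) * (∏ n ∈ Finset.Icc 1 M, β n) ≤ (I0 + ε / 2) * (E * G) :=
        mul_le_mul_of_nonneg_left hP (by positivity)
      have s2 : ε / 2 * E ≤ ε / 2 * E * G := le_mul_of_one_le_right (by positivity) hG1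
      calc _ ≤ (I0 + ε / 2) * (E * G) + ε / 2 * E * G := by linarith
        _ = G * (I0 + ε) * E := by ring
    have hCW0 : 0 < CW := by linarith
    calc Cg * Real.log T ^ a * ((I0 + ε / 2) * (∏ n ∈ Finset.Icc 1 M, β n) + T ^ (-(1/2) : ℝ))
        ≤ Cg * Real.log T ^ a * (G * (I0 + ε) * E) := mul_le_mul_of_nonneg_left hfin (by positivity)
      _ = (Cg * G * Real.log T ^ a * (I0 + ε) * E) * 1 := by ring
      _ ≤ (Cg * G * Real.log T ^ a * (I0 + ε) * E) * CW := mul_le_mul_of_nonneg_left hCW (by positivity)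
      _ = Cg * G * CW * Real.log T ^ a * (I0 + ε) * E := by ring
  · -- second bound
    intro c' hc' hM1
    obtain ⟨m, rfl⟩ : ∃ m, M = m + 1 := ⟨M - 1, by omega⟩
    simp only [Nat.add_sub_cancel] at hM' hMd' ⊢
    have hmem : m + 1 ∈ Finset.Icc 1 (m + 1) := Finset.mem_Icc.2 ⟨by omega, le_rfl⟩
    set K := KT T y (m + 1) with hK
    have hK1 : 1 ≤ K := hKge _ hmem
    set W : (ℕ → ℂ) → ℂ := fun X => (((100 / K : ℝ) : ℂ) * Ps (blk y (m + 1)) c' X) ^ K with hWd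
    have hWdp : IsDP (blk y (m + 1)) ((y ^ (2 ^ (m + 1))) ^ (1 * K)) ((100 * 1 * (y : ℝ) ^ (2 ^ (m + 1))) ^ (1 * K)) W := by
      have := dp_W T (n := m + 1) hy2' zero_le_one (by norm_num : (0 : ℝ) ≤ 100) 1 hK1 c' hc'
      simp only [one_mul] at this ⊢
      exact this
    have hWint : ∀ z : ℂ, ‖z‖ = 1 / Real.log T →
        ∫ θ, ‖W (Xt θ)‖ ^ 2 * DD a z (blk y (m + 1)) (Xt θ) ∂PT ≤ CW * Real.exp (-2 * K) := by
      intro z hz
      have := hW z (blk y (m + 1)) (hok y hyy2 T (m + 1) z hT3 (hMd _ hd12) hz.le _ hmem) a ha c' K hK1 hc'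
      simp only [one_mul, Nat.cast_one, mul_one] at this
      exact this
    have key := hgpT T hTT1 (m + 1) (fun n => if n = m + 1 then W else Nn T y n c)
      (fun n => if n = m + 1 then (y ^ (2 ^ (m + 1))) ^ (1 * K) else (y ^ (2 ^ n)) ^ (KT T y n))
      (fun n => if n = m + 1 then (100 * 1 * (y : ℝ) ^ (2 ^ (m + 1))) ^ (1 * K) else
        ((1 + C0) * (y : ℝ) ^ (2 ^ n)) ^ (KT T y n))
      (fun n => if n = m + 1 then CW * Real.exp (-2 * K) else β n)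
      (fun n hn => by
        by_cases h : n = m + 1
        · subst h
          simp only [if_true]
          refine ⟨hWdp, Nat.one_le_iff_ne_zero.2 (by positivity), by positivity⟩
        · simp only [if_neg h]
          exact ⟨dp_Nn T hy2' (by linarith) c hc, hH1 n, (Real.exp_pos _).le⟩)
      (fun n hn z hz => by
        by_cases h : n = m + 1
        · subst h
          simp only [if_true]
          exact hWint z hz
        · simp only [if_neg h]
          exact hβint n hn z hz)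
      (by
        refine le_trans ?_ hlen2
        refine Finset.prod_le_prod (fun n _ => Nat.cast_nonneg _) fun n _ => ?_
        by_cases h : n = m + 1
        · subst h
          simp only [if_true, one_mul]
          push_cast
          refine pow_le_pow_right₀ ?_ (by omega)
          linarith [hYge (m + 1)]
        · simp only [if_neg h]
          push_cast
          refine pow_le_pow_right₀ ?_ (by omega)
          linarith [hYge n])
      (by
        refine le_trans ?_ hlen2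
        refine Finset.prod_le_prod (fun n _ => ?_) fun n _ => ?_
        · by_cases h : n = m + 1
          · simp only [if_pos h]; positivity
          · simp only [if_neg h]; positivity
        · by_cases h : n = m + 1
          · subst h
            simp only [if_true, one_mul, mul_one]
            exact o1_len (by norm_num) (hy100r.trans (hYge (m + 1))) _
          · simp only [if_neg h]
            exact o1_len (by linarith) (hC0y.trans (hYge n)) _)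
    have hprod : ∀ (g h : ℕ → ℝ) (w : ℝ), (∀ n, n ≠ m + 1 → g n = h n) → g (m + 1) = w →
        ∏ n ∈ Finset.Icc 1 (m + 1), g n = (∏ n ∈ Finset.Icc 1 m, h n) * w := by
      intro g h w h1 h2
      rw [Finset.prod_Icc_succ_top (by omega), h2]
      congr 1
      refine Finset.prod_congr rfl fun n hn => h1 n ?_
      have := (Finset.mem_Icc.1 hn).2
      omega
    have hL : ∀ t : ℝ, ∏ n ∈ Finset.Icc 1 (m + 1), ‖(if n = m + 1 then W else Nn T y n c) (Xp t)‖ ^ 2 =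
        (∏ n ∈ Finset.Icc 1 m, ‖Nn T y n c (Xp t)‖ ^ 2) * ‖W (Xp t)‖ ^ 2 := by
      intro t
      refine hprod _ _ _ (fun n hn => by rw [if_neg hn]) (by rw [if_pos rfl])
    have hR : ∏ n ∈ Finset.Icc 1 (m + 1), (if n = m + 1 then CW * Real.exp (-2 * K) else β n) =
        (∏ n ∈ Finset.Icc 1 m, β n) * (CW * Real.exp (-2 * K)) :=
      hprod _ _ _ (fun n hn => by rw [if_neg hn]) (by rw [if_pos rfl])
    rw [hR] at key
    simp only [hL] at key
    refine key.trans (ENNReal.ofReal_le_ofReal ?_)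
    have hP := o1_prod hC1 a c T y m zT (hEr y T m zT hy2' hT3 (by linarith [hMd' _ hd12]) hzn.le)
      (hads T y m hy2' (by linarith) (hMd' _ hdd3))
    have hE := herr m hM' K (adm_Kle T y (m + 1) (by omega) (by linarith))
    set E := Real.exp (Sg a c y m) with hEd
    have hE0 : 0 < E := Real.exp_pos _
    set e1 := Real.exp (-(K : ℝ)) with he1
    have he10 : 0 < e1 := Real.exp_pos _
    have he2 : Real.exp (-2 * K) ≤ e1 := by
      rw [he1]
      apply Real.exp_le_exp.2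
      have : (0 : ℝ) ≤ K := Nat.cast_nonneg _
      linarith
    have hCW0 : 0 < CW := by linarith
    have hfin : (I0 + ε / 2) * ((∏ n ∈ Finset.Icc 1 m, β n) * (CW * Real.exp (-2 * K))) + T ^ (-(1/2) : ℝ) ≤
        G * CW * (I0 + ε) * E * e1 := by
      have s1 : (∏ n ∈ Finset.Icc 1 m, β n) * (CW * Real.exp (-2 * K)) ≤ (E * G) * (CW * e1) := by
        gcongr
      have s2 : (I0 + ε / 2) * ((∏ n ∈ Finset.Icc 1 m, β n) * (CW * Real.exp (-2 * K))) ≤
          (I0 + ε / 2) * ((E * G) * (CW * e1)) := mul_le_mul_of_nonneg_left s1 (by positivity)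
      have s3 : ε / 2 * E * e1 ≤ ε / 2 * E * e1 * (G * CW) :=
        le_mul_of_one_le_right (by positivity) (by nlinarith)
      calc _ ≤ (I0 + ε / 2) * ((E * G) * (CW * e1)) + ε / 2 * E * e1 * (G * CW) := by linarith
        _ = G * CW * (I0 + ε) * E * e1 := by ring
    calc Cg * Real.log T ^ a * ((I0 + ε / 2) * ((∏ n ∈ Finset.Icc 1 m, β n) * (CW * Real.exp (-2 * K))) +
          T ^ (-(1/2) : ℝ)) ≤ Cg * Real.log T ^ a * (G * CW * (I0 + ε) * E * e1) :=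
          mul_le_mul_of_nonneg_left hfin (by positivity)
      _ = Cg * G * CW * Real.log T ^ a * (I0 + ε) * E * e1 := by ring

end CZ
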