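import Pool.Agent.Lib.MP_9eae41_pr.O1

set_option autoImplicit false

open Complex MeasureTheory Set Filter Topology
open scoped ComplexConjugate ENNReal

namespace CZ

/-! Row O2 (200 lines): the third factor of the lower bound: expand the product over blocks into 2^M terms
(Finset.prod_add), each bounded by gp with a = 0 (f_n = exp(6/k exp(-K_n/2)) N_n or the power); resum. -/

theorem o2_prod_add {R : Type} [CommSemiring R] (s : Finset ℕ) (f g : ℕ → R) :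
    ∏ n ∈ s, (f n + g n) = ∑ t ∈ s.powerset, ∏ n ∈ s, (if n ∈ t then f n else g n) := by
  rw [Finset.prod_add]
  refine Finset.sum_congr rfl fun t ht => ?_
  rw [Finset.mem_powerset] at ht
  rw [Finset.prod_ite]
  have h1 : s.filter (fun n => n ∈ t) = t := by
    ext n
    rw [Finset.mem_filter]
    exact ⟨fun h => h.2, fun h => ⟨ht h, h⟩⟩
  have h2 : s.filter (fun n => n ∉ t) = s \ t := by
    ext n
    rw [Finset.mem_filter, Finset.mem_sdiff]
  rw [h1, h2]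

theorem o2_logT (ε : ℝ) (hε : 0 < ε) : ∃ T2 : ℝ, ∀ T : ℝ, T2 ≤ T →
    Real.log T * T ^ (-(1/2) : ℝ) ≤ ε := by
  have h1 := (isLittleO_log_rpow_atTop (r := 1/2) (by norm_num)).bound hε
  obtain ⟨T2, hT2⟩ := Filter.eventually_atTop.mp (h1.and (Filter.eventually_gt_atTop 1))
  refine ⟨T2, fun T hT => ?_⟩
  obtain ⟨h2, h3⟩ := hT2 T hT
  have h4 : 0 < T := by linarith
  have h5 : 0 < T ^ (1/2 : ℝ) := Real.rpow_pos_of_pos h4 _
  rw [Real.norm_of_nonneg (Real.log_nonneg h3.le), Real.norm_of_nonneg h5.le] at h2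
  rw [Real.rpow_neg h4.le]
  calc Real.log T * (T ^ (1/2 : ℝ))⁻¹ ≤ (ε * T ^ (1/2 : ℝ)) * (T ^ (1/2 : ℝ))⁻¹ :=
        mul_le_mul_of_nonneg_right h2 (inv_nonneg.mpr h5.le)
    _ = ε := by field_simp

theorem o2_exp_add (u v : ℝ) (hu : 0 ≤ u) (hv : 0 ≤ v) : Real.exp u + v ≤ Real.exp (u + v) := by
  rw [Real.exp_add]
  have h1 : 1 ≤ Real.exp u := Real.one_le_exp hu
  have h2 : v + 1 ≤ Real.exp v := Real.add_one_le_exp v
  nlinarith

/-- the factor of block `n` for the subset `t` -/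
noncomputable def o2F (κ T : ℝ) (r y : ℕ) (t : Finset ℕ) (n : ℕ) (X : ℕ → ℂ) : ℂ :=
  if n ∈ t then ((Real.exp (6 / κ * Real.exp (-(KT T y n : ℝ) / 2)) : ℝ) : ℂ) *
    Nn T y n (fun _ => (κ : ℂ)) X
  else (((102 / KT T y n : ℝ) : ℂ) * Ps (blk y n) (fun _ => 1) X) ^ (r * KT T y n)

theorem o2F_sq (κ T : ℝ) (r y : ℕ) (t : Finset ℕ) (n : ℕ) (X : ℕ → ℂ) :
    ‖o2F κ T r y t n X‖ ^ 2 = if n ∈ t then Real.exp (12 / κ * Real.exp (-(KT T y n : ℝ) / 2)) *
      ‖Nn T y n (fun _ => (κ : ℂ)) X‖ ^ 2 else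
      ‖(((102 / KT T y n : ℝ) : ℂ) * Ps (blk y n) (fun _ => 1) X) ^ (r * KT T y n)‖ ^ 2 := by
  unfold o2F
  by_cases h : n ∈ t
  · rw [if_pos h, if_pos h, norm_mul, mul_pow, Complex.norm_real,
      Real.norm_of_nonneg (Real.exp_pos _).le, ← Real.exp_nat_mul]
    congr 2
    push_cast
    ring
  · rw [if_neg h, if_neg h]

/-- the pointwise expansion -/
theorem o2_expand (κ T : ℝ) (r y M : ℕ) (X : ℕ → ℂ) (a : ℝ) :
    a * ∏ n ∈ Finset.Icc 1 M,
      (Real.exp (12 / κ * Real.exp (-(KT T y n : ℝ) / 2)) * ‖Nn T y n (fun _ => (κ : ℂ)) X‖ ^ 2 +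
        ‖(((102 / KT T y n : ℝ) : ℂ) * Ps (blk y n) (fun _ => 1) X) ^ (r * KT T y n)‖ ^ 2) =
    ∑ t ∈ (Finset.Icc 1 M).powerset, a * ∏ n ∈ Finset.Icc 1 M, ‖o2F κ T r y t n X‖ ^ 2 := by
  rw [o2_prod_add, Finset.mul_sum]
  refine Finset.sum_congr rfl fun t _ => ?_
  congr 1
  exact Finset.prod_congr rfl fun n _ => (o2F_sq κ T r y t n X).symm

theorem o2_DD0 (z : ℂ) (s : Finset ℕ) (X : ℕ → ℂ) : DD 0 z s X = 1 := by
  unfold DD
  rw [pow_zero]

/-- `o2F` is a Dirichlet polynomial -/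
theorem o2_dp (κ T : ℝ) (h0 : 0 < κ) (h1 : κ < 1) (r y : ℕ) (hr : 1 ≤ r) (hy : 102 ≤ y)
    (hyκ : Real.exp (6 / κ) ≤ y) (t : Finset ℕ) (n : ℕ) (hn : 1 ≤ n) (hK : 1 ≤ KT T y n) :
    IsDP (blk y n) ((y ^ 2 ^ n) ^ (3 * r * KT T y n)) (((y : ℝ) ^ 2 ^ n) ^ (3 * r * KT T y n))
      (o2F κ T r y t n) := by
  have hy1 : (1 : ℝ) ≤ y := by
    have : (102 : ℝ) ≤ y := by exact_mod_cast hy
    linarith
  have hy102 : (102 : ℝ) ≤ y := by exact_mod_cast hy
  have hyn : (y : ℝ) ≤ (y : ℝ) ^ 2 ^ n := by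
    calc (y : ℝ) = (y : ℝ) ^ 1 := (pow_one _).symm
      _ ≤ (y : ℝ) ^ 2 ^ n := pow_le_pow_right₀ hy1 Nat.one_le_two_pow
  have hY1 : (1 : ℝ) ≤ (y : ℝ) ^ 2 ^ n := le_trans hy1 hyn
  have hY1' : 1 ≤ y ^ 2 ^ n := Nat.one_le_pow _ _ (by omega)
  have hr3 : 1 * KT T y n ≤ 3 * r * KT T y n := Nat.mul_le_mul_right _ (by omega)
  by_cases h : n ∈ t
  · have h2 : o2F κ T r y t n = fun X =>
        ((Real.exp (6 / κ * Real.exp (-(KT T y n : ℝ) / 2)) : ℝ) : ℂ) *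
          Nn T y n (fun _ => (κ : ℂ)) X := by
      funext X
      unfold o2F
      rw [if_pos h]
    rw [h2]
    refine dp_mono (dp_smul _ (dp_Nn T (by omega) zero_le_one _ ?_)) (Finset.Subset.refl _) ?_ ?_
    · intro p
      rw [Complex.norm_real, Real.norm_of_nonneg h0.le]
      exact h1.le
    · exact Nat.pow_le_pow_right hY1' (by simpa using hr3)
    · rw [Complex.norm_real, Real.norm_of_nonneg (Real.exp_pos _).le]
      have h3 : Real.exp (6 / κ * Real.exp (-(KT T y n : ℝ) / 2)) ≤ (y : ℝ) ^ 2 ^ n := by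
        refine le_trans ?_ (le_trans hyκ hyn)
        rw [Real.exp_le_exp]
        have h4 : Real.exp (-(KT T y n : ℝ) / 2) ≤ 1 := by
          rw [Real.exp_le_one_iff]
          have : (0 : ℝ) ≤ KT T y n := Nat.cast_nonneg _
          linarith
        have h5 : 0 < 6 / κ := by positivity
        nlinarith
      have h4 : (1 + 1) * (y : ℝ) ^ 2 ^ n ≤ ((y : ℝ) ^ 2 ^ n) ^ 2 := by nlinarith
      calc Real.exp (6 / κ * Real.exp (-(KT T y n : ℝ) / 2)) *
            ((1 + 1) * (y : ℝ) ^ 2 ^ n) ^ KT T y n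
          ≤ ((y : ℝ) ^ 2 ^ n) ^ KT T y n * (((y : ℝ) ^ 2 ^ n) ^ 2) ^ KT T y n := by
            refine mul_le_mul (le_trans h3 ?_) (pow_le_pow_left₀ (by positivity) h4 _)
              (by positivity) (by positivity)
            calc (y : ℝ) ^ 2 ^ n = ((y : ℝ) ^ 2 ^ n) ^ 1 := (pow_one _).symm
              _ ≤ ((y : ℝ) ^ 2 ^ n) ^ KT T y n := pow_le_pow_right₀ hY1 hK
        _ = ((y : ℝ) ^ 2 ^ n) ^ (3 * KT T y n) := by
            generalize (y : ℝ) ^ 2 ^ n = Y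
            rw [← pow_mul, ← pow_add]
            congr 1
            ring
        _ ≤ ((y : ℝ) ^ 2 ^ n) ^ (3 * r * KT T y n) :=
            pow_le_pow_right₀ hY1 (Nat.mul_le_mul_right _ (by omega))
  · have h2 : o2F κ T r y t n = fun X =>
        (((102 / KT T y n : ℝ) : ℂ) * Ps (blk y n) (fun _ => 1) X) ^ (r * KT T y n) := by
      funext X
      unfold o2F
      rw [if_neg h]
    rw [h2]
    refine dp_mono (dp_W T (by omega) zero_le_one (by norm_num) r hK _ ?_)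
      (Finset.Subset.refl _) ?_ ?_
    · intro p
      rw [norm_one]
    · exact Nat.pow_le_pow_right hY1' (Nat.mul_le_mul_right _ (by omega))
    · have h4 : 102 * 1 * (y : ℝ) ^ 2 ^ n ≤ ((y : ℝ) ^ 2 ^ n) ^ 2 := by nlinarith
      calc (102 * 1 * (y : ℝ) ^ 2 ^ n) ^ (r * KT T y n)
          ≤ (((y : ℝ) ^ 2 ^ n) ^ 2) ^ (r * KT T y n) := pow_le_pow_left₀ (by positivity) h4 _
        _ = ((y : ℝ) ^ 2 ^ n) ^ (2 * (r * KT T y n)) := by rw [← pow_mul]
        _ ≤ ((y : ℝ) ^ 2 ^ n) ^ (3 * r * KT T y n) := by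
            refine pow_le_pow_right₀ hY1 ?_
            rw [← mul_assoc]
            exact Nat.mul_le_mul_right _ (by omega)

theorem LL3 (κ : ℝ) (h0 : 0 < κ) (h1 : κ < 1) (r : ℕ) (hr : 1 ≤ r) : ∃ (C : ℝ) (y0 : ℕ) (δ : ℝ), 0 < C ∧ 100 ≤ y0 ∧ 0 < δ ∧
    δ ≤ 1/2 ∧ ∀ (y : ℕ), y0 ≤ y → ∀ (A0 : (ℕ → ℂ) → ℂ) (H0 : ℕ) (L0 : ℝ), IsDP (blk y 0) H0 L0 A0 → ∀ ε : ℝ, 0 < ε →
    ∃ T0 : ℝ, 3 ≤ T0 ∧ ∀ T : ℝ, T0 ≤ T → ∀ (M : ℕ), 2 ^ M * Real.log y ≤ δ * Real.log T →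
    ∫⁻ t, ENNReal.ofReal (‖A0 (Xp t)‖ ^ 2 * ∏ n ∈ Finset.Icc 1 M,
      (Real.exp (12 / κ * Real.exp (-(KT T y n : ℝ) / 2)) * ‖Nn T y n (fun _ => (κ : ℂ)) (Xp t)‖ ^ 2 +
        ‖(((102 / KT T y n : ℝ) : ℂ) * Ps (blk y n) (fun _ => 1) (Xp t)) ^ (r * KT T y n)‖ ^ 2)) ∂mu T ≤
      ENNReal.ofReal (C * ((∫ θ, ‖A0 (Xt θ)‖ ^ 2 ∂PT) + ε) * Real.exp (Sg 0 (fun _ => (κ : ℂ)) y M)) := by
  obtain ⟨Cg, hCg, hgp⟩ := gp 0 (by norm_num)
  obtain ⟨CN, hCN, hN⟩ := blk_N 1 (by norm_num)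
  obtain ⟨CW, hCW, hW⟩ := blk_W 1 102 (by norm_num) (by norm_num) r hr
  obtain ⟨y1, hy1, hblk⟩ := blk_ok
  obtain ⟨CE, hCE, hEr⟩ := Er_sum
  obtain ⟨δ1, hδ1, _, hlen⟩ := adm_len (3 * r) (1/50) (by norm_num)
  obtain ⟨δ2, hδ2, _, hK⟩ := adm_K 1
  obtain ⟨δ3, hδ3, _, hsum⟩ := adm_sum 1 one_pos
  have hκC : ‖(κ : ℂ)‖ ≤ 1 := by
    rw [Complex.norm_real, Real.norm_of_nonneg h0.le]
    exact h1.le
  set C4 : ℝ := Real.exp (12 / κ + CN + CW + CN * CE) with hC4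
  have hC4pos : 0 < C4 := Real.exp_pos _
  refine ⟨Cg * (C4 + 1), max (max y1 ⌈Real.exp (6 / κ)⌉₊) 102, min (min δ1 δ2) (min δ3 (1/2)),
    by positivity, by omega, ?_, ?_, ?_⟩
  · exact lt_min (lt_min hδ1 hδ2) (lt_min hδ3 (by norm_num))
  · exact le_trans (min_le_right _ _) (min_le_right _ _)
  intro y hy A0 H0 L0 hA0 ε hε
  have hy1' : y1 ≤ y := le_trans (le_trans (le_max_left _ _) (le_max_left _ _)) hy
  have hyκ' : ⌈Real.exp (6 / κ)⌉₊ ≤ y := le_trans (le_trans (le_max_right _ _) (le_max_left _ _)) hy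
  have hy102 : 102 ≤ y := le_trans (le_max_right _ _) hy
  have hyκ : Real.exp (6 / κ) ≤ y := le_trans (Nat.le_ceil _) (by exact_mod_cast hyκ')
  have hy102' : (102 : ℝ) ≤ y := by exact_mod_cast hy102
  obtain ⟨T1, hT1, hgp1⟩ := hgp y (by omega) A0 H0 L0 hA0 ε hε
  obtain ⟨T2, hT2⟩ := o2_logT ε hε
  refine ⟨max T1 T2, le_trans hT1 (le_max_left _ _), fun T hT M hM => ?_⟩
  have hTT1 : T1 ≤ T := le_trans (le_max_left _ _) hT
  have hTT2 : T2 ≤ T := le_trans (le_max_right _ _) hT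
  have hT3 : 3 ≤ T := le_trans hT1 hTT1
  have hT0 : 0 < T := by linarith
  have hlogT : 0 < Real.log T := Real.log_pos (by linarith)
  have hlogy : 1 ≤ Real.log y := by
    rw [Real.le_log_iff_exp_le (by linarith)]
    have := Real.exp_one_lt_d9
    linarith
  have hd1 : 2 ^ M * Real.log y ≤ δ1 * Real.log T :=
    hM.trans (mul_le_mul_of_nonneg_right (le_trans (min_le_left _ _) (min_le_left _ _)) hlogT.le)
  have hd2 : 2 ^ M * Real.log y ≤ δ2 * Real.log T :=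
    hM.trans (mul_le_mul_of_nonneg_right (le_trans (min_le_left _ _) (min_le_right _ _)) hlogT.le)
  have hd3 : 2 ^ M * Real.log y ≤ δ3 * Real.log T :=
    hM.trans (mul_le_mul_of_nonneg_right (le_trans (min_le_right _ _) (min_le_left _ _)) hlogT.le)
  have hd4 : 2 ^ M * Real.log y ≤ 1/2 * Real.log T :=
    hM.trans (mul_le_mul_of_nonneg_right (le_trans (min_le_right _ _) (min_le_right _ _)) hlogT.le)
  have hd5 : 2 ^ M * Real.log y ≤ Real.log T := by linarith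
  have h2M : (2 : ℝ) ^ M ≤ Real.log T := by
    have h2 : (0 : ℝ) < 2 ^ M := by positivity
    nlinarith
  have hKn : ∀ n ∈ Finset.Icc 1 M, 1 ≤ KT T y n := hK T y M (by omega) (by linarith) hd2
  have hBk : ∀ n ∈ Finset.Icc 1 M, Bk 0 (blk y n) := by
    refine hblk y hy1' T M 0 hT3 hd4 ?_
    rw [norm_zero]
    positivity
  have hE : ∑ n ∈ Finset.Icc 1 M, Er 0 (blk y n) ≤ CE := by
    refine hEr y T M 0 (by omega) hT3 hd5 ?_
    rw [norm_zero]
    positivity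
  have hS : ∑ n ∈ Finset.Icc 1 M, Real.exp (-(KT T y n : ℝ) / 2) ≤ 1 :=
    hsum T y M (by omega) (by linarith) hd3
  -- the bounds of the blocks
  set xn : ℕ → ℝ := fun n => Real.exp (12 / κ * Real.exp (-(KT T y n : ℝ) / 2)) *
    Real.exp (Sb 0 (fun _ => (κ : ℂ)) (blk y n) + CN * (Er 0 (blk y n) + Real.exp (-(KT T y n : ℝ))))
    with hxn
  set yn : ℕ → ℝ := fun n => CW * Real.exp (-2 * r * KT T y n) with hyn
  have hx0 : ∀ n, 0 ≤ xn n := fun n => by positivity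
  have hy0 : ∀ n, 0 ≤ yn n := fun n => by
    have : 0 ≤ CW := by linarith
    positivity
  have hterm : ∀ t ∈ (Finset.Icc 1 M).powerset,
      ∫⁻ u, ENNReal.ofReal (‖A0 (Xp u)‖ ^ 2 *
        ∏ n ∈ Finset.Icc 1 M, ‖o2F κ T r y t n (Xp u)‖ ^ 2) ∂mu T ≤
      ENNReal.ofReal (Cg * (((∫ θ, ‖A0 (Xt θ)‖ ^ 2 ∂PT) + ε) *
        (∏ n ∈ Finset.Icc 1 M, (if n ∈ t then xn n else yn n)) + T ^ (-(1/2) : ℝ))) := by
    intro t _
    have h2 := hgp1 T hTT1 M (o2F κ T r y t)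
      (fun n => (y ^ 2 ^ n) ^ (3 * r * KT T y n)) (fun n => ((y : ℝ) ^ 2 ^ n) ^ (3 * r * KT T y n))
      (fun n => if n ∈ t then xn n else yn n) ?_ ?_ ?_ ?_
    · simpa only [Nat.mul_zero, pow_zero, one_mul, mul_one, o2_DD0] using h2
    · intro n hn
      refine ⟨o2_dp κ T h0 h1 r y hr hy102 hyκ t n (Finset.mem_Icc.mp hn).1 (hKn n hn),
        Nat.one_le_pow _ _ (Nat.one_le_pow _ _ (by omega)), ?_⟩
      split_ifs
      · exact hx0 n
      · exact hy0 n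
    · intro n hn z _
      simp only [o2F_sq, o2_DD0, mul_one]
      by_cases h : n ∈ t
      · simp only [if_pos h]
        rw [integral_const_mul]
        refine mul_le_mul_of_nonneg_left ?_ (Real.exp_pos _).le
        have h3 := hN 0 (blk y n) (hBk n hn) 0 (by norm_num) (fun _ => (κ : ℂ)) (KT T y n)
          (fun _ => hκC)
        simp only [o2_DD0, mul_one] at h3
        exact h3
      · simp only [if_neg h]
        have h3 := hW 0 (blk y n) (hBk n hn) 0 (by norm_num) (fun _ => (1 : ℂ)) (KT T y n)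
          (hKn n hn) (fun _ => by rw [norm_one])
        simpa only [o2_DD0, mul_one] using h3
    · have h3 := hlen T y M (by omega) (by linarith) hd1
      refine le_trans (le_of_eq ?_) h3
      refine Finset.prod_congr rfl fun n _ => ?_
      push_cast
      rfl
    · exact hlen T y M (by omega) (by linarith) hd1
  -- measurability
  have hmeas : ∀ t ∈ (Finset.Icc 1 M).powerset, Measurable fun u : ℝ =>
      ENNReal.ofReal (‖A0 (Xp u)‖ ^ 2 * ∏ n ∈ Finset.Icc 1 M, ‖o2F κ T r y t n (Xp u)‖ ^ 2) := by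
    intro t _
    refine ENNReal.measurable_ofReal.comp (Continuous.measurable ?_)
    refine ((((dp_cont hA0).comp Xp_cont).norm).pow 2).mul
      (continuous_finsetProd _ fun n hn => ?_)
    exact (((dp_cont (o2_dp κ T h0 h1 r y hr hy102 hyκ t n (Finset.mem_Icc.mp hn).1
      (hKn n hn))).comp Xp_cont).norm).pow 2
  set J : ℝ := ∫ θ, ‖A0 (Xt θ)‖ ^ 2 ∂PT with hJ
  have hJ0 : 0 ≤ J := integral_nonneg fun θ => by positivity
  -- summation
  have hfin : ∏ n ∈ Finset.Icc 1 M, (xn n + yn n) ≤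
      Real.exp (Sg 0 (fun _ => (κ : ℂ)) y M) * C4 := by
    have h2 : ∀ n ∈ Finset.Icc 1 M, xn n + yn n ≤ Real.exp (Sb 0 (fun _ => (κ : ℂ)) (blk y n) +
        ((12 / κ + CN + CW) * Real.exp (-(KT T y n : ℝ) / 2) + CN * Er 0 (blk y n))) := by
      intro n hn
      have hKr : (1 : ℝ) ≤ KT T y n := by exact_mod_cast hKn n hn
      have hrr : (1 : ℝ) ≤ r := by exact_mod_cast hr
      have he1 : Real.exp (-(KT T y n : ℝ)) ≤ Real.exp (-(KT T y n : ℝ) / 2) :=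
        Real.exp_le_exp.mpr (by linarith)
      have he2 : Real.exp (-2 * r * KT T y n) ≤ Real.exp (-(KT T y n : ℝ) / 2) :=
        Real.exp_le_exp.mpr (by nlinarith)
      have hEn : 0 ≤ Er 0 (blk y n) := by
        unfold Er
        refine Finset.sum_nonneg fun p _ => ?_
        rw [norm_zero, zero_mul, zero_div, zero_add]
        positivity
      have hSn : 0 ≤ Sb 0 (fun _ => (κ : ℂ)) (blk y n) := by
        unfold Sb
        refine Finset.sum_nonneg fun p _ => ?_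
        push_cast
        rw [sub_zero]
        positivity
      have he0 : 0 < Real.exp (-(KT T y n : ℝ) / 2) := Real.exp_pos _
      have hk6 : 0 < 12 / κ := by positivity
      have h3 : xn n ≤ Real.exp (Sb 0 (fun _ => (κ : ℂ)) (blk y n) +
          ((12 / κ + CN) * Real.exp (-(KT T y n : ℝ) / 2) + CN * Er 0 (blk y n))) := by
        rw [hxn]
        simp only
        rw [← Real.exp_add, Real.exp_le_exp]
        nlinarith
      have h4 : yn n ≤ CW * Real.exp (-(KT T y n : ℝ) / 2) := by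
        rw [hyn]
        simp only
        exact mul_le_mul_of_nonneg_left he2 (by linarith)
      refine le_trans (add_le_add h3 h4) (le_trans (o2_exp_add _ _ ?_ ?_) (le_of_eq ?_))
      · have : 0 ≤ (12 / κ + CN) * Real.exp (-(KT T y n : ℝ) / 2) := by positivity
        have : 0 ≤ CN * Er 0 (blk y n) := by positivity
        linarith
      · have : 0 ≤ CW := by linarith
        positivity
      · congr 1
        ring
    refine le_trans (Finset.prod_le_prod (fun n _ => add_nonneg (hx0 n) (hy0 n)) h2) ?_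
    rw [← Real.exp_sum, hC4, ← Real.exp_add, Real.exp_le_exp, Finset.sum_add_distrib,
      Finset.sum_add_distrib, ← Finset.mul_sum, ← Finset.mul_sum]
    have h3 : (12 / κ + CN + CW) * ∑ n ∈ Finset.Icc 1 M, Real.exp (-(KT T y n : ℝ) / 2) ≤
        (12 / κ + CN + CW) * 1 := by
      refine mul_le_mul_of_nonneg_left hS ?_
      have : 0 < 12 / κ := by positivity
      linarith
    have h4 : CN * ∑ n ∈ Finset.Icc 1 M, Er 0 (blk y n) ≤ CN * CE :=
      mul_le_mul_of_nonneg_left hE hCN.le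
    unfold Sg
    linarith
  have hSg : 1 ≤ Real.exp (Sg 0 (fun _ => (κ : ℂ)) y M) := by
    refine Real.one_le_exp ?_
    unfold Sg
    refine Finset.sum_nonneg fun n _ => ?_
    unfold Sb
    refine Finset.sum_nonneg fun p _ => ?_
    push_cast
    rw [sub_zero]
    positivity
  have hrem : (2 : ℝ) ^ M * T ^ (-(1/2) : ℝ) ≤ ε :=
    le_trans (mul_le_mul_of_nonneg_right h2M (Real.rpow_nonneg hT0.le _)) (hT2 T hTT2)
  calc ∫⁻ t, ENNReal.ofReal (‖A0 (Xp t)‖ ^ 2 * ∏ n ∈ Finset.Icc 1 M,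
      (Real.exp (12 / κ * Real.exp (-(KT T y n : ℝ) / 2)) * ‖Nn T y n (fun _ => (κ : ℂ)) (Xp t)‖ ^ 2 +
        ‖(((102 / KT T y n : ℝ) : ℂ) * Ps (blk y n) (fun _ => 1) (Xp t)) ^ (r * KT T y n)‖ ^ 2)) ∂mu T
      = ∫⁻ u, ∑ t ∈ (Finset.Icc 1 M).powerset, ENNReal.ofReal (‖A0 (Xp u)‖ ^ 2 *
          ∏ n ∈ Finset.Icc 1 M, ‖o2F κ T r y t n (Xp u)‖ ^ 2) ∂mu T := by
        refine lintegral_congr fun u => ?_
        rw [o2_expand, ENNReal.ofReal_sum_of_nonneg]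
        intro t _
        have : 0 ≤ ∏ n ∈ Finset.Icc 1 M, ‖o2F κ T r y t n (Xp u)‖ ^ 2 :=
          Finset.prod_nonneg fun n _ => by positivity
        positivity
    _ = ∑ t ∈ (Finset.Icc 1 M).powerset, ∫⁻ u, ENNReal.ofReal (‖A0 (Xp u)‖ ^ 2 *
          ∏ n ∈ Finset.Icc 1 M, ‖o2F κ T r y t n (Xp u)‖ ^ 2) ∂mu T :=
        lintegral_finsetSum _ hmeas
    _ ≤ ∑ t ∈ (Finset.Icc 1 M).powerset, ENNReal.ofReal (Cg * ((J + ε) *
        (∏ n ∈ Finset.Icc 1 M, (if n ∈ t then xn n else yn n)) + T ^ (-(1/2) : ℝ))) :=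
        Finset.sum_le_sum hterm
    _ = ENNReal.ofReal (∑ t ∈ (Finset.Icc 1 M).powerset, Cg * ((J + ε) *
        (∏ n ∈ Finset.Icc 1 M, (if n ∈ t then xn n else yn n)) + T ^ (-(1/2) : ℝ))) := by
        rw [ENNReal.ofReal_sum_of_nonneg]
        intro t _
        have h3 : 0 ≤ ∏ n ∈ Finset.Icc 1 M, (if n ∈ t then xn n else yn n) :=
          Finset.prod_nonneg fun n _ => by
            split_ifs
            · exact hx0 n
            · exact hy0 n
        have h4 : 0 ≤ T ^ (-(1/2) : ℝ) := Real.rpow_nonneg hT0.le _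
        positivity
    _ ≤ ENNReal.ofReal (Cg * (C4 + 1) * (J + ε) * Real.exp (Sg 0 (fun _ => (κ : ℂ)) y M)) := by
        refine ENNReal.ofReal_le_ofReal ?_
        rw [← Finset.mul_sum, Finset.sum_add_distrib, ← Finset.mul_sum, ← o2_prod_add,
          Finset.sum_const, Finset.card_powerset, Nat.card_Icc, nsmul_eq_mul]
        have hM1 : M + 1 - 1 = M := by omega
        rw [hM1]
        push_cast
        have h3 : (J + ε) * ∏ n ∈ Finset.Icc 1 M, (xn n + yn n) ≤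
            (J + ε) * (Real.exp (Sg 0 (fun _ => (κ : ℂ)) y M) * C4) :=
          mul_le_mul_of_nonneg_left hfin (by positivity)
        have h4 : ε ≤ (J + ε) * Real.exp (Sg 0 (fun _ => (κ : ℂ)) y M) := by nlinarith
        calc Cg * ((J + ε) * ∏ n ∈ Finset.Icc 1 M, (xn n + yn n) + 2 ^ M * T ^ (-(1/2) : ℝ))
            ≤ Cg * ((J + ε) * (Real.exp (Sg 0 (fun _ => (κ : ℂ)) y M) * C4) +
              (J + ε) * Real.exp (Sg 0 (fun _ => (κ : ℂ)) y M)) :=
              mul_le_mul_of_nonneg_left (by linarith) hCg.le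
          _ = Cg * (C4 + 1) * (J + ε) * Real.exp (Sg 0 (fun _ => (κ : ℂ)) y M) := by ring

end CZ
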