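import Mathlib

set_option autoImplicit false

open Complex MeasureTheory Set Filter Topology
open scoped ComplexConjugate ENNReal

namespace CZ

/-! Row P1 (150 lines): Hoelder inequalities for lintegral. -/

variable {α : Type} [MeasurableSpace α] {ν : Measure α}

theorem holder2 {f g : α → ℝ≥0∞} (hf : AEMeasurable f ν) (hg : AEMeasurable g ν) {a b : ℝ} (ha : 0 < a) (hb : 0 < b)
    (hab : a + b = 1) : ∫⁻ x, f x ^ a * g x ^ b ∂ν ≤ (∫⁻ x, f x ∂ν) ^ a * (∫⁻ x, g x ∂ν) ^ b :=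
  ENNReal.lintegral_mul_norm_pow_le hf hg ha.le hb.le hab

theorem holder3 {f g h : α → ℝ≥0∞} (hf : AEMeasurable f ν) (hg : AEMeasurable g ν) (hh : AEMeasurable h ν)
    {a b c : ℝ} (ha : 0 < a) (hb : 0 < b) (hc : 0 ≤ c) (habc : a + b + c = 1) :
    ∫⁻ x, f x ^ a * g x ^ b * h x ^ c ∂ν ≤ (∫⁻ x, f x ∂ν) ^ a * (∫⁻ x, g x ∂ν) ^ b * (∫⁻ x, h x ∂ν) ^ c := by
  have := ENNReal.lintegral_prod_norm_pow_le (μ := ν) (Finset.univ : Finset (Fin 3)) (f := ![f, g, h])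
    (by
      intro i _
      fin_cases i
      · exact hf
      · exact hg
      · exact hh)
    (p := ![a, b, c]) (by simp [Fin.sum_univ_three, habc])
    (by
      intro i _
      fin_cases i
      · exact ha.le
      · exact hb.le
      · exact hc)
  simpa [Fin.prod_univ_three] using this

/-- interpolation between the exponents 1 and q' -/
theorem interp {f : α → ℝ≥0∞} (hf : AEMeasurable f ν) {a b q q' : ℝ} (ha : 0 < a) (hb : 0 < b) (hab : a + b = 1)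
    (hq' : 0 < q') (hq : a + b * q' = q) :
    ∫⁻ x, f x ^ q ∂ν ≤ (∫⁻ x, f x ∂ν) ^ a * (∫⁻ x, f x ^ q' ∂ν) ^ b := by
  refine le_trans (le_of_eq ?_) (holder2 hf (hf.pow_const q') ha hb hab)
  refine lintegral_congr fun x => ?_
  rw [← ENNReal.rpow_mul, ← ENNReal.rpow_add_of_nonneg _ _ ha.le (by positivity), ← hq]
  congr 1
  ring

theorem sum_rpow_le {ι : Type} (s : Finset ι) (f : ι → ℝ≥0∞) {a : ℝ} (ha : 0 < a) (ha1 : a ≤ 1) :
    (∑ i ∈ s, f i) ^ a ≤ ∑ i ∈ s, f i ^ a := by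
  classical
  induction s using Finset.induction with
  | empty => simp [ha]
  | insert i s hi ih =>
    rw [Finset.sum_insert hi, Finset.sum_insert hi]
    exact (ENNReal.rpow_add_le_add_rpow _ _ ha.le ha1).trans (by gcongr)

/-- convexity with weights: w_i positive reals of sum at most W -/
theorem sum_rpow_weight {ι : Type} (s : Finset ι) (f : ι → ℝ≥0∞) (w : ι → ℝ) (hw : ∀ i ∈ s, 0 < w i) {W q : ℝ}
    (hW : ∑ i ∈ s, w i ≤ W) (hq : 1 ≤ q) :
    (∑ i ∈ s, f i) ^ q ≤ ENNReal.ofReal (W ^ (q - 1)) * ∑ i ∈ s, ENNReal.ofReal (w i ^ (1 - q)) * f i ^ q := by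
  have hq0 : 0 < q := by linarith
  have hW0 : 0 ≤ W := (Finset.sum_nonneg fun i hi => (hw i hi).le).trans hW
  have h1 := ENNReal.inner_le_weight_mul_Lp_of_nonneg s hq (fun i => ENNReal.ofReal (w i))
    (fun i => f i / ENNReal.ofReal (w i))
  have hne : ∀ i ∈ s, ENNReal.ofReal (w i) ≠ 0 := fun i hi => by
    simpa using hw i hi
  have e1 : ∑ i ∈ s, ENNReal.ofReal (w i) * (f i / ENNReal.ofReal (w i)) = ∑ i ∈ s, f i :=
    Finset.sum_congr rfl fun i hi => ENNReal.mul_div_cancel (hne i hi) ENNReal.ofReal_ne_top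
  have e2 : ∑ i ∈ s, ENNReal.ofReal (w i) * (f i / ENNReal.ofReal (w i)) ^ q =
      ∑ i ∈ s, ENNReal.ofReal (w i ^ (1 - q)) * f i ^ q := by
    refine Finset.sum_congr rfl fun i hi => ?_
    rw [ENNReal.div_rpow_of_nonneg _ _ hq0.le, ← ENNReal.ofReal_rpow_of_pos (hw i hi),
      ENNReal.rpow_sub _ _ (hne i hi) ENNReal.ofReal_ne_top, ENNReal.rpow_one, div_eq_mul_inv, div_eq_mul_inv]
    ring
  have e3 : ∑ i ∈ s, ENNReal.ofReal (w i) ≤ ENNReal.ofReal W := by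
    rw [← ENNReal.ofReal_sum_of_nonneg fun i hi => (hw i hi).le]
    exact ENNReal.ofReal_le_ofReal hW
  rw [e1, e2] at h1
  calc (∑ i ∈ s, f i) ^ q
      ≤ ((∑ i ∈ s, ENNReal.ofReal (w i)) ^ (1 - q⁻¹) *
        (∑ i ∈ s, ENNReal.ofReal (w i ^ (1 - q)) * f i ^ q) ^ q⁻¹) ^ q :=
        ENNReal.rpow_le_rpow h1 hq0.le
    _ = (∑ i ∈ s, ENNReal.ofReal (w i)) ^ (q - 1) * ∑ i ∈ s, ENNReal.ofReal (w i ^ (1 - q)) * f i ^ q := by
        rw [ENNReal.mul_rpow_of_nonneg _ _ hq0.le, ← ENNReal.rpow_mul, ← ENNReal.rpow_mul,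
          inv_mul_cancel₀ hq0.ne', ENNReal.rpow_one]
        congr 2
        field_simp
    _ ≤ ENNReal.ofReal (W ^ (q - 1)) * ∑ i ∈ s, ENNReal.ofReal (w i ^ (1 - q)) * f i ^ q := by
        gcongr
        rw [← ENNReal.ofReal_rpow_of_nonneg hW0 (by linarith)]
        exact ENNReal.rpow_le_rpow e3 (by linarith)

end CZ
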