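import Pool.Agent.Lib.MP_9eae41_pr.U1
import Pool.Agent.Lib.MP_9eae41_pr.M3

set_option autoImplicit false

open Complex MeasureTheory Set Filter Topology
open scoped ComplexConjugate ENNReal

namespace CZ

/-! Row Q1 (250 lines): the two families of means needed for the q-th moment (LL with A0 = 1, Mertens, cos_sum).
Coefficients change at p = y^(2^n); for p in block m one has p <= y^(2^n) iff m <= n. -/

/-- coefficients of the one-point tilt -/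
noncomputable def c1 (κ q : ℝ) (a y n : ℕ) (p : ℕ) : ℂ := if p ≤ y ^ (2 ^ n) then ((κ * q - a : ℝ) : ℂ) else ((κ - a : ℝ) : ℂ)

/-- coefficients of the two-point tilt -/
noncomputable def c2 (κ q : ℝ) (a y n : ℕ) (u : ℝ) (p : ℕ) : ℂ :=
  if p ≤ y ^ (2 ^ n) then ((κ * (q - 1) - a : ℝ) : ℂ) + (κ : ℂ) * Xp u p else ((κ - a : ℝ) : ℂ) + (κ : ℂ) * Xp u p

/-- the weight: zeta to the power 2a times the squares of the truncated exponentials -/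
noncomputable def Wt (a : ℕ) (T : ℝ) (y M : ℕ) (c : ℕ → ℂ) (s : ℝ) : ℝ :=
  Z s ^ (2 * a) * ∏ n ∈ Finset.Icc 1 M, ‖Nn T y n c (Xp s)‖ ^ 2

/-- LL with A0 = 1, for both values of a -/
theorem Q1_LL (C0 : ℝ) (hC0 : 1 ≤ C0) : ∃ (y0 : ℕ) (δ : ℝ), 100 ≤ y0 ∧ 0 < δ ∧ δ ≤ 1/2 ∧
    ∀ y : ℕ, y0 ≤ y → ∃ C T0 : ℝ, 0 < C ∧ 3 ≤ T0 ∧ ∀ T : ℝ, T0 ≤ T →
    ∀ M : ℕ, 2 ^ M * Real.log y ≤ δ * Real.log T → ∀ a : ℕ, a ≤ 1 → ∀ c : ℕ → ℂ, (∀ p, ‖c p‖ ≤ C0) →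
    ∫⁻ s, ENNReal.ofReal (Wt a T y M c s) ∂mu T ≤
      ENNReal.ofReal (C * Real.log T ^ a * Real.exp (Sg a c y M)) := by
  have key : ∀ a : ℕ, a ≤ 1 → ∃ (y0 : ℕ) (δ : ℝ), 100 ≤ y0 ∧ 0 < δ ∧ δ ≤ 1/2 ∧
      ∀ y : ℕ, y0 ≤ y → ∃ C T0 : ℝ, 0 < C ∧ 3 ≤ T0 ∧ ∀ T : ℝ, T0 ≤ T →
      ∀ M : ℕ, 2 ^ M * Real.log y ≤ δ * Real.log T → ∀ c : ℕ → ℂ, (∀ p, ‖c p‖ ≤ C0) →
      ∫⁻ s, ENNReal.ofReal (Wt a T y M c s) ∂mu T ≤
        ENNReal.ofReal (C * Real.log T ^ a * Real.exp (Sg a c y M)) := by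
    intro a ha
    obtain ⟨C, y0, δ, hC, hy0, hδ, hδ', H⟩ := LL a ha C0 hC0
    refine ⟨y0, δ, hy0, hδ, hδ', fun y hy => ?_⟩
    obtain ⟨T0, hT0, H'⟩ := H y hy (fun _ => 1) 1 ‖(1 : ℂ)‖ (dp_const (blk y 0) 1) 1 zero_lt_one
    set B : ℝ := ∫ θ, ‖(1 : ℂ)‖ ^ 2 * DD a 0 (blk y 0) (Xt θ) ∂PT with hB
    refine ⟨C * (|B| + 1), T0, by positivity, hT0, fun T hT M hM c hc => ?_⟩
    have h := (H' T hT M hM c hc).1
    have e : ∀ s, Wt a T y M c s = Z s ^ (2 * a) * (‖(1 : ℂ)‖ ^ 2 *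
        ∏ n ∈ Finset.Icc 1 M, ‖Nn T y n c (Xp s)‖ ^ 2) := by
      intro s
      unfold Wt
      rw [norm_one, one_pow, one_mul]
    simp_rw [e]
    refine h.trans (ENNReal.ofReal_le_ofReal ?_)
    have hlog : 0 ≤ Real.log T := Real.log_nonneg (by linarith)
    have h1 : C * Real.log T ^ a * (B + 1) ≤ C * (|B| + 1) * Real.log T ^ a := by
      have := le_abs_self B
      have h2 : 0 ≤ C * Real.log T ^ a := by positivity
      nlinarith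
    exact mul_le_mul_of_nonneg_right h1 (Real.exp_nonneg _)
  obtain ⟨y0, δ0, hy0, hδ0, hδ0', H0⟩ := key 0 (by norm_num)
  obtain ⟨y1, δ1, hy1, hδ1, hδ1', H1⟩ := key 1 le_rfl
  refine ⟨max y0 y1, min δ0 δ1, le_trans hy0 (le_max_left _ _), lt_min hδ0 hδ1,
    (min_le_left _ _).trans hδ0', fun y hy => ?_⟩
  obtain ⟨C0', T0, hC0', hT0, H0'⟩ := H0 y (le_trans (le_max_left _ _) hy)
  obtain ⟨C1', T1, hC1', hT1, H1'⟩ := H1 y (le_trans (le_max_right _ _) hy)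
  refine ⟨max C0' C1', max T0 T1, lt_max_of_lt_left hC0', hT0.trans (le_max_left _ _),
    fun T hT M hM a ha c hc => ?_⟩
  have hlog : 0 ≤ Real.log T := Real.log_nonneg (by
    have := (le_max_left T0 T1).trans hT
    linarith)
  have hMin : ∀ δ, min δ0 δ1 ≤ δ → 2 ^ M * Real.log y ≤ δ * Real.log T := fun δ h =>
    hM.trans (mul_le_mul_of_nonneg_right h hlog)
  have mono : ∀ C' : ℝ, C' ≤ max C0' C1' → C' * Real.log T ^ a * Real.exp (Sg a c y M) ≤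
      max C0' C1' * Real.log T ^ a * Real.exp (Sg a c y M) := by
    intro C' h
    exact mul_le_mul_of_nonneg_right (mul_le_mul_of_nonneg_right h (by positivity)) (Real.exp_nonneg _)
  rcases Nat.le_one_iff_eq_zero_or_eq_one.1 ha with rfl | rfl
  · exact (H0' T ((le_max_left _ _).trans hT) M (hMin _ (min_le_left _ _)) c hc).trans
      (ENNReal.ofReal_le_ofReal (mono _ (le_max_left _ _)))
  · exact (H1' T ((le_max_right _ _).trans hT) M (hMin _ (min_le_right _ _)) c hc).trans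
      (ENNReal.ofReal_le_ofReal (mono _ (le_max_right _ _)))

theorem Q1_mem {y m p : ℕ} (hm : 1 ≤ m) (hp : p ∈ blk y m) :
    p ≤ y ^ (2 ^ m) ∧ y ^ (2 ^ (m - 1)) < p ∧ p.Prime := by
  cases m with
  | zero => omega
  | succ k =>
    simp only [blk, Finset.mem_filter, Finset.mem_Ioc] at hp
    exact ⟨hp.1.2, by simpa using hp.1.1, hp.2⟩

theorem Q1_mem_le {y m n p : ℕ} (hy : 1 ≤ y) (hm : 1 ≤ m) (hmn : m ≤ n) (hp : p ∈ blk y m) :
    p ≤ y ^ (2 ^ n) :=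
  (Q1_mem hm hp).1.trans (Nat.pow_le_pow_right hy (Nat.pow_le_pow_right (by norm_num) hmn))

theorem Q1_mem_gt {y m n p : ℕ} (hy : 1 ≤ y) (hmn : n < m) (hp : p ∈ blk y m) :
    ¬ p ≤ y ^ (2 ^ n) := by
  have h := (Q1_mem (by omega) hp).2.1
  have h2 : y ^ (2 ^ n) ≤ y ^ (2 ^ (m - 1)) :=
    Nat.pow_le_pow_right hy (Nat.pow_le_pow_right (by norm_num) (by omega))
  omega

theorem Q1_split (f : ℕ → ℝ) {n M : ℕ} (h : n ≤ M) : ∑ m ∈ Finset.Icc 1 M, f m =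
    ∑ m ∈ Finset.Icc 1 n, f m + ∑ m ∈ Finset.Icc (n + 1) M, f m := by
  rw [← Finset.sum_union]
  · apply Finset.sum_congr _ (fun _ _ => rfl)
    ext m
    simp only [Finset.mem_Icc, Finset.mem_union]
    omega
  · rw [Finset.disjoint_left]
    intro m h1 h2
    simp only [Finset.mem_Icc] at h1 h2
    omega

/-- the exponent sum of the split coefficients, upper bound -/
theorem Q1_sum {y : ℕ} (hy : ∀ M : ℕ, |∑ n ∈ Finset.Icc 1 M, ∑ p ∈ blk y n, (1 : ℝ) / p - M * Real.log 2| ≤ 1)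
    {n M : ℕ} (h : n ≤ M) (a : ℕ) (c : ℕ → ℂ) (A B E : ℝ)
    (hA : ∀ m ∈ Finset.Icc 1 n, Sb a c (blk y m) ≤ A * ∑ p ∈ blk y m, (1 : ℝ) / p)
    (hB : ∑ m ∈ Finset.Icc (n + 1) M, Sb a c (blk y m) ≤
      B * ∑ m ∈ Finset.Icc (n + 1) M, ∑ p ∈ blk y m, (1 : ℝ) / p + E) :
    Sg a c y M ≤ (n * A + (M - n) * B) * Real.log 2 + (|A| + 2 * |B| + E) := by
  unfold Sg
  rw [Q1_split _ h]
  have h1 := Finset.sum_le_sum hA
  rw [← Finset.mul_sum] at h1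
  have h2 := hy n
  have h3 := hy M
  rw [Q1_split _ h] at h3
  set S1 := ∑ m ∈ Finset.Icc 1 n, ∑ p ∈ blk y m, (1 : ℝ) / p
  set S2 := ∑ m ∈ Finset.Icc (n + 1) M, ∑ p ∈ blk y m, (1 : ℝ) / p
  have h4 : A * S1 ≤ A * (n * Real.log 2) + |A| := by
    have h5 : A * (S1 - n * Real.log 2) ≤ |A| * 1 := by
      refine (le_abs_self _).trans ?_
      rw [abs_mul]
      exact mul_le_mul_of_nonneg_left h2 (abs_nonneg _)
    linarith
  have h6 : |S2 - (M - n) * Real.log 2| ≤ 2 := by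
    rw [abs_le] at h2 h3 ⊢
    constructor <;> linarith
  have h7 : B * S2 ≤ B * ((M - n) * Real.log 2) + 2 * |B| := by
    have h5 : B * (S2 - (M - n) * Real.log 2) ≤ |B| * 2 := by
      refine (le_abs_self _).trans ?_
      rw [abs_mul]
      exact mul_le_mul_of_nonneg_left h6 (abs_nonneg _)
    linarith
  linarith

theorem Q1_exp {C L X K D : ℝ} (hC : 0 ≤ C) (hL : 0 ≤ L) (h : X ≤ K * Real.log 2 + D) :
    C * L * Real.exp X ≤ C * Real.exp D * L * (2 : ℝ) ^ K := by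
  have h1 : Real.exp X ≤ Real.exp D * (2 : ℝ) ^ K := by
    rw [Real.rpow_def_of_pos (by norm_num), ← Real.exp_add]
    apply Real.exp_le_exp.2
    linarith
  have h2 : C * L * Real.exp X ≤ C * L * (Real.exp D * (2 : ℝ) ^ K) :=
    mul_le_mul_of_nonneg_left h1 (mul_nonneg hC hL)
  linarith

theorem Q1_a {a : ℕ} (ha : a ≤ 1) {x : ℝ} (h0 : 0 ≤ x) (h1 : x ≤ 1) : |x - a| ≤ 1 := by
  rcases Nat.le_one_iff_eq_zero_or_eq_one.1 ha with rfl | rfl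
  · rw [abs_le]
    push_cast
    constructor <;> linarith
  · rw [abs_le]
    push_cast
    constructor <;> linarith

theorem Q1_X (u : ℝ) (p : ℕ) : ‖Xp u p‖ = 1 ∧ (Xp u p).re = Real.cos (u * Real.log p) := by
  unfold Xp
  rw [← Complex.ofReal_neg]
  constructor
  · exact Complex.norm_exp_ofReal_mul_I _
  · rw [Complex.exp_ofReal_mul_I_re, Real.cos_neg]

theorem Q1_sq (κ r u : ℝ) (p : ℕ) : ‖((κ * r : ℝ) : ℂ) + (κ : ℂ) * Xp u p‖ ^ 2 =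
    κ ^ 2 * (r ^ 2 + 1) + 2 * κ ^ 2 * r * Real.cos (u * Real.log p) := by
  obtain ⟨h1, h2⟩ := Q1_X u p
  have h3 : (Xp u p).re ^ 2 + (Xp u p).im ^ 2 = 1 := by
    have := Complex.sq_norm (Xp u p)
    rw [h1, Complex.normSq_apply] at this
    nlinarith
  rw [Complex.sq_norm, Complex.normSq_apply]
  simp only [Complex.add_re, Complex.add_im, Complex.mul_re, Complex.mul_im, Complex.ofReal_re,
    Complex.ofReal_im, zero_mul, sub_zero, zero_add, add_zero]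
  rw [← h2]
  nlinarith

/-- the exponent sum of c1 -/
theorem Sg_c1 (κ q : ℝ) (h0 : 0 < κ) (h1 : κ < 1) (hq1 : 1 < q) (hκq : κ * q < 1) :
    ∃ (y0 : ℕ) (C : ℝ), 100 ≤ y0 ∧ 0 < C ∧ ∀ y : ℕ, y0 ≤ y → ∀ a n M : ℕ, a ≤ 1 → n ≤ M →
    Sg a (c1 κ q a y n) y M ≤ Real.log 2 * (n * ((κ * q) ^ 2 - a) + (M - n) * (κ ^ 2 - a)) + C := by
  obtain ⟨y1, hy1, H1⟩ := mert_blk
  refine ⟨y1, 3, hy1, by norm_num, fun y hy a n M ha hn => ?_⟩
  have hy' : 1 ≤ y := by omega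
  have hm := (H1 y hy).2
  have hκq0 : 0 < κ * q := by
    have : 0 < q := by linarith
    positivity
  have b3 : |(κ * q) ^ 2 - a| ≤ 1 := Q1_a ha (by positivity) (pow_le_one₀ hκq0.le hκq.le)
  have b4 : |κ ^ 2 - a| ≤ 1 := Q1_a ha (by positivity) (pow_le_one₀ h0.le h1.le)
  have hS := Q1_sum hm hn a (c1 κ q a y n) ((κ * q) ^ 2 - a) (κ ^ 2 - a) 0 ?_ ?_
  · refine hS.trans ?_
    linarith
  · intro m hm'
    obtain ⟨hm1, hm2⟩ := Finset.mem_Icc.1 hm'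
    unfold Sb
    rw [Finset.mul_sum]
    apply le_of_eq
    apply Finset.sum_congr rfl
    intro p hp
    have : (a : ℂ) + c1 κ q a y n p = ((κ * q : ℝ) : ℂ) := by
      unfold c1
      rw [if_pos (Q1_mem_le hy' hm1 hm2 hp)]
      push_cast
      ring
    rw [this, Complex.norm_real, Real.norm_eq_abs, sq_abs]
    ring
  · rw [add_zero, Finset.mul_sum]
    apply le_of_eq
    apply Finset.sum_congr rfl
    intro m hm'
    obtain ⟨hm1, hm2⟩ := Finset.mem_Icc.1 hm'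
    unfold Sb
    rw [Finset.mul_sum]
    apply Finset.sum_congr rfl
    intro p hp
    have : (a : ℂ) + c1 κ q a y n p = ((κ : ℝ) : ℂ) := by
      unfold c1
      rw [if_neg (Q1_mem_gt hy' (by omega) hp)]
      push_cast
      ring
    rw [this, Complex.norm_real, Real.norm_eq_abs, sq_abs]
    ring

/-- the exponent sum of c2 -/
theorem Sg_c2 (κ q : ℝ) (h0 : 0 < κ) (h1 : κ < 1) (hq1 : 1 < q) (hκq : κ * q < 1) :
    ∃ (y0 : ℕ) (C : ℝ), 100 ≤ y0 ∧ 0 < C ∧ ∀ y : ℕ, y0 ≤ y → ∀ a n M : ℕ, a ≤ 1 → n ≤ M →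
    ∀ u : ℝ, |u| ≤ 1 → (n = M ∨ 1 / (2 ^ n * Real.log y) ≤ |u|) →
    Sg a (c2 κ q a y n u) y M ≤
      Real.log 2 * (n * ((κ * q) ^ 2 - a) + (M - n) * (2 * κ ^ 2 - a)) + C := by
  obtain ⟨y1, hy1, H1⟩ := mert_blk
  obtain ⟨Cc, hCc, Hc⟩ := cos_sum
  refine ⟨y1, 5 + 2 * Cc, hy1, by positivity, fun y hy a n M ha hn u hu hu2 => ?_⟩
  have hy100 : 100 ≤ y := hy1.trans hy
  have hy' : 1 ≤ y := by omega
  have hm := (H1 y hy).2
  have hq0 : 0 < q := by linarith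
  have hκq0 : 0 < κ * q := by positivity
  have b3 : |(κ * q) ^ 2 - a| ≤ 1 := Q1_a ha (by positivity) (pow_le_one₀ hκq0.le hκq.le)
  have hκ2 : κ ^ 2 ≤ 1 := pow_le_one₀ h0.le h1.le
  have hκ20 : 0 ≤ κ ^ 2 := by positivity
  have b4 : |2 * κ ^ 2 - a| ≤ 2 := by
    have h5 := Q1_a ha hκ20 hκ2
    rw [abs_le] at h5 ⊢
    constructor <;> linarith
  have hcos : 2 * κ ^ 2 * ∑ m ∈ Finset.Icc (n + 1) M, ∑ p ∈ blk y m,
      Real.cos (u * Real.log p) / p ≤ 2 * Cc := by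
    rcases hu2 with rfl | hu2
    · rw [Finset.Icc_eq_empty (by omega), Finset.sum_empty, mul_zero]
      positivity
    · have h5 := (le_abs_self _).trans (Hc y n M u hy100 hn hu2 hu)
      calc _ ≤ 2 * κ ^ 2 * Cc := mul_le_mul_of_nonneg_left h5 (by positivity)
        _ ≤ 2 * Cc := by nlinarith
  have hS := Q1_sum hm hn a (c2 κ q a y n u) ((κ * q) ^ 2 - a) (2 * κ ^ 2 - a) (2 * Cc) ?_ ?_
  · refine hS.trans ?_
    linarith
  · intro m hm'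
    obtain ⟨hm1, hm2⟩ := Finset.mem_Icc.1 hm'
    unfold Sb
    rw [Finset.mul_sum]
    apply Finset.sum_le_sum
    intro p hp
    have : (a : ℂ) + c2 κ q a y n u p = ((κ * (q - 1) : ℝ) : ℂ) + (κ : ℂ) * Xp u p := by
      unfold c2
      rw [if_pos (Q1_mem_le hy' hm1 hm2 hp)]
      push_cast
      ring
    rw [this, Q1_sq, mul_one_div]
    apply div_le_div_of_nonneg_right _ (Nat.cast_nonneg p)
    have h5 := Real.cos_le_one (u * Real.log p)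
    have h6 : 0 ≤ 2 * κ ^ 2 * (q - 1) := by
      have : 0 ≤ q - 1 := by linarith
      positivity
    nlinarith
  · have e1 : ∀ m ∈ Finset.Icc (n + 1) M, Sb a (c2 κ q a y n u) (blk y m) =
        (2 * κ ^ 2 - a) * ∑ p ∈ blk y m, (1 : ℝ) / p +
          2 * κ ^ 2 * ∑ p ∈ blk y m, Real.cos (u * Real.log p) / p := by
      intro m hm'
      obtain ⟨hm1, hm2⟩ := Finset.mem_Icc.1 hm'
      unfold Sb
      rw [Finset.mul_sum, Finset.mul_sum, ← Finset.sum_add_distrib]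
      apply Finset.sum_congr rfl
      intro p hp
      have : (a : ℂ) + c2 κ q a y n u p = ((κ * 1 : ℝ) : ℂ) + (κ : ℂ) * Xp u p := by
        unfold c2
        rw [if_neg (Q1_mem_gt hy' (by omega) hp)]
        push_cast
        ring
      rw [this, Q1_sq]
      ring
    rw [Finset.sum_congr rfl e1, Finset.sum_add_distrib, ← Finset.mul_sum, ← Finset.mul_sum]
    linarith

theorem c1_bound (κ q : ℝ) (h0 : 0 < κ) (h1 : κ < 1) (hq1 : 1 < q) (hq2 : q < 2) (hκq : κ * q < 1) :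
    ∃ (y0 : ℕ) (δ : ℝ), 100 ≤ y0 ∧ 0 < δ ∧ δ ≤ 1/2 ∧ ∀ y : ℕ, y0 ≤ y → ∃ C T0 : ℝ, 0 < C ∧ 3 ≤ T0 ∧ ∀ T : ℝ, T0 ≤ T →
    ∀ M : ℕ, 2 ^ M * Real.log y ≤ δ * Real.log T → ∀ a n : ℕ, a ≤ 1 → n ≤ M →
    ∫⁻ s, ENNReal.ofReal (Wt a T y M (c1 κ q a y n) s) ∂mu T ≤
      ENNReal.ofReal (C * Real.log T ^ a * (2 : ℝ) ^ (n * ((κ * q) ^ 2 - a) + (M - n) * (κ ^ 2 - a))) := by
  obtain ⟨y0, δ, hy0, hδ, hδ', H⟩ := Q1_LL 1 le_rfl
  obtain ⟨y1, C1, hy1, hC1, H1⟩ := Sg_c1 κ q h0 h1 hq1 hκq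
  refine ⟨max y0 y1, δ, hy0.trans (le_max_left _ _), hδ, hδ', fun y hy => ?_⟩
  obtain ⟨C, T0, hC, hT0, H'⟩ := H y ((le_max_left _ _).trans hy)
  refine ⟨C * Real.exp C1, T0, by positivity, hT0, fun T hT M hM a n ha hn => ?_⟩
  have hκq0 : 0 < κ * q := by positivity
  have b1 : |κ * q - a| ≤ 1 := Q1_a ha hκq0.le hκq.le
  have b2 : |κ - a| ≤ 1 := Q1_a ha h0.le h1.le
  have hc : ∀ p, ‖c1 κ q a y n p‖ ≤ 1 := by
    intro p
    unfold c1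
    split_ifs
    · rw [Complex.norm_real]
      exact b1
    · rw [Complex.norm_real]
      exact b2
  refine (H' T hT M hM a ha _ hc).trans (ENNReal.ofReal_le_ofReal ?_)
  have hlog : 0 ≤ Real.log T := Real.log_nonneg (by linarith)
  apply Q1_exp hC.le (by positivity)
  have hS := H1 y ((le_max_right _ _).trans hy) a n M ha hn
  linarith

theorem c2_bound (κ q : ℝ) (h0 : 0 < κ) (h1 : κ < 1) (hq1 : 1 < q) (hq2 : q < 2) (hκq : κ * q < 1) :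
    ∃ (y0 : ℕ) (δ : ℝ), 100 ≤ y0 ∧ 0 < δ ∧ δ ≤ 1/2 ∧ ∀ y : ℕ, y0 ≤ y → ∃ C T0 : ℝ, 0 < C ∧ 3 ≤ T0 ∧ ∀ T : ℝ, T0 ≤ T →
    ∀ M : ℕ, 2 ^ M * Real.log y ≤ δ * Real.log T → ∀ a n : ℕ, a ≤ 1 → n ≤ M → ∀ u : ℝ, |u| ≤ 1 →
    (n = M ∨ 1 / (2 ^ n * Real.log y) ≤ |u|) →
    ∫⁻ s, ENNReal.ofReal (Wt a T y M (c2 κ q a y n u) s) ∂mu T ≤
      ENNReal.ofReal (C * Real.log T ^ a * (2 : ℝ) ^ (n * ((κ * q) ^ 2 - a) + (M - n) * (2 * κ ^ 2 - a))) := by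
  obtain ⟨y0, δ, hy0, hδ, hδ', H⟩ := Q1_LL 2 (by norm_num)
  obtain ⟨y1, C1, hy1, hC1, H1⟩ := Sg_c2 κ q h0 h1 hq1 hκq
  refine ⟨max y0 y1, δ, hy0.trans (le_max_left _ _), hδ, hδ', fun y hy => ?_⟩
  obtain ⟨C, T0, hC, hT0, H'⟩ := H y ((le_max_left _ _).trans hy)
  refine ⟨C * Real.exp C1, T0, by positivity, hT0, fun T hT M hM a n ha hn u hu hu2 => ?_⟩
  have hκq0 : 0 < κ * q := by positivity
  have b1 : |κ * (q - 1) - a| ≤ 1 := Q1_a ha (by nlinarith) (by nlinarith)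
  have b2 : |κ - a| ≤ 1 := Q1_a ha h0.le h1.le
  have hX : ∀ p, ‖(κ : ℂ) * Xp u p‖ ≤ 1 := by
    intro p
    rw [norm_mul, (Q1_X u p).1, Complex.norm_real, Real.norm_of_nonneg h0.le, mul_one]
    exact h1.le
  have hc : ∀ p, ‖c2 κ q a y n u p‖ ≤ 2 := by
    intro p
    unfold c2
    split_ifs
    · refine (norm_add_le _ _).trans ?_
      have := hX p
      rw [Complex.norm_real, Real.norm_eq_abs]
      linarith
    · refine (norm_add_le _ _).trans ?_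
      have := hX p
      rw [Complex.norm_real, Real.norm_eq_abs]
      linarith
  refine (H' T hT M hM a ha _ hc).trans (ENNReal.ofReal_le_ofReal ?_)
  have hlog : 0 ≤ Real.log T := Real.log_nonneg (by linarith)
  apply Q1_exp hC.le (by positivity)
  have hS := H1 y ((le_max_right _ _).trans hy) a n M ha hn u hu hu2
  linarith

end CZ
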