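import Pool.Agent.Lib.MP_9eae41_pr.Q1

set_option autoImplicit false

open Complex MeasureTheory Set Filter Topology
open scoped ComplexConjugate ENNReal

namespace CZ

/-! Row Q2 (200 lines): pointwise inequalities on the good set (good_gen and adm_sum, product over the blocks). -/

private theorem q2_Xp_mul (s u : ℝ) (p : ℕ) : Xp s p * Xp u p = Xp (s + u) p := by
  unfold Xp
  rw [← Complex.exp_add]
  congr 1
  push_cast
  ring

private theorem q2_Nn (T : ℝ) (y m : ℕ) (c : ℕ → ℂ) (α α' : ℝ) (s u : ℝ)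
    (hc : ∀ p ∈ blk y m, c p = (α : ℂ) + (α' : ℂ) * Xp u p) :
    Nn T y m c (Xp s) = Ek (KT T y m) ((α : ℂ) * Ps (blk y m) (fun _ => 1) (Xp s) +
      (α' : ℂ) * Ps (blk y m) (fun _ => 1) (Xp (s + u))) := by
  unfold Nn
  congr 1
  unfold Ps
  rw [Finset.mul_sum, Finset.mul_sum, ← Finset.sum_add_distrib]
  apply Finset.sum_congr rfl
  intro p hp
  rw [hc p hp, ← q2_Xp_mul]
  ring

private theorem q2_one {κ : ℝ} (h0 : 0 < κ) (h1 : κ < 1) {K : ℕ} (hK : 2 ≤ K) {w : ℂ}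
    (hw : ‖w‖ ≤ (K : ℝ) / 100) :
    1 ≤ Real.exp (4 * Real.exp (-(K : ℝ) / 2)) *
      ((‖Ek K (((κ - 1 : ℝ) : ℂ) * w)‖ ^ 2) ^ κ * (‖Ek K (((κ : ℝ) : ℂ) * w)‖ ^ 2) ^ (1 - κ)) := by
  have := good_gen (ι := Fin 2) Finset.univ ![κ - 1, κ] ![0, 0] ![2 * κ, 2 * (1 - κ)]
    (by simp [Fin.sum_univ_two]; ring) (by simp [Fin.sum_univ_two]) (by
      intro i _
      fin_cases i
      · simp only [Fin.zero_eta, Matrix.cons_val_zero, abs_zero, add_zero]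
        rw [abs_le]; constructor <;> linarith
      · simp only [Fin.mk_one, Matrix.cons_val_one, abs_zero, add_zero]
        simp
        rw [abs_le]; constructor <;> linarith) hK hw hw
  simp only [Fin.sum_univ_two, Fin.prod_univ_two, Matrix.cons_val_zero, Matrix.cons_val_one,
    Complex.ofReal_zero, zero_mul, add_zero] at this
  have hs : 2 * (|2 * κ| + |2 * (1 - κ)|) = 4 := by
    rw [abs_of_pos (by linarith), abs_of_pos (by linarith)]; ring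
  rw [hs] at this
  rw [← Real.rpow_natCast, ← Real.rpow_natCast, ← Real.rpow_mul (norm_nonneg _),
    ← Real.rpow_mul (norm_nonneg _)]
  push_cast
  push_cast at this
  exact this

private theorem q2_two {κ q x α3 α4 : ℝ} (h0 : 0 < κ) (h1 : κ < 1) (hq1 : 1 < q) (hq2 : q < 2)
    (hx : (2 - q) * α3 + (q - 1) * α4 = x) (hx1 : |x| ≤ 2) (h3 : |α3| ≤ 2) (h4 : |α4| ≤ 2)
    {K : ℕ} (hK : 2 ≤ K) {w w' : ℂ}
    (hw : ‖w‖ ≤ (K : ℝ) / 100) (hw' : ‖w'‖ ≤ (K : ℝ) / 100) :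
    ‖Ek K ((x : ℂ) * w + ((0 : ℝ) : ℂ) * w')‖ ^ 2 *
      (‖Ek K (((0 : ℝ) : ℂ) * w + (κ : ℂ) * w')‖ ^ 2) ^ (q - 1) ≤
    Real.exp (12 * Real.exp (-(K : ℝ) / 2)) *
      ((‖Ek K ((α3 : ℂ) * w + ((0 : ℝ) : ℂ) * w')‖ ^ 2) ^ (2 - q) *
        (‖Ek K ((α4 : ℂ) * w + (κ : ℂ) * w')‖ ^ 2) ^ (q - 1)) := by
  have := good_gen (ι := Fin 4) Finset.univ ![x, 0, α3, α4] ![0, κ, 0, κ]
    ![-2, -(2 * (q - 1)), 2 * (2 - q), 2 * (q - 1)]
    (by simp [Fin.sum_univ_four]; linarith) (by simp [Fin.sum_univ_four]) (by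
      intro i _
      fin_cases i
      · simp
        linarith
      · simp
        rw [abs_of_pos h0]; linarith
      · simp
        linarith
      · simp
        rw [abs_of_pos h0]; linarith) hK hw hw'
  simp only [Fin.sum_univ_four, Fin.prod_univ_four, Matrix.cons_val_zero, Matrix.cons_val_one,
    Matrix.cons_val] at this
  set E1 := ‖Ek K ((x : ℂ) * w + ((0 : ℝ) : ℂ) * w')‖ with hE1
  set E2 := ‖Ek K (((0 : ℝ) : ℂ) * w + (κ : ℂ) * w')‖ with hE2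
  set E3 := ‖Ek K ((α3 : ℂ) * w + ((0 : ℝ) : ℂ) * w')‖ with hE3
  set E4 := ‖Ek K ((α4 : ℂ) * w + (κ : ℂ) * w')‖ with hE4
  have hE1n : 0 ≤ E1 := norm_nonneg _
  have hE2n : 0 ≤ E2 := norm_nonneg _
  have hE3n : 0 ≤ E3 := norm_nonneg _
  have hE4n : 0 ≤ E4 := norm_nonneg _
  have h2 : ∀ (E : ℝ) (r : ℝ), 0 ≤ E → (E ^ 2) ^ r = E ^ (2 * r) := by
    intro E r hE
    rw [← Real.rpow_natCast, ← Real.rpow_mul hE]
    norm_num
  rw [h2 E2 _ hE2n, h2 E3 _ hE3n, h2 E4 _ hE4n]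
  have hs : 2 * (|(-2 : ℝ)| + |-(2 * (q - 1))| + |2 * (2 - q)| + |2 * (q - 1)|) ≤ 12 := by
    rw [abs_neg, abs_neg, abs_of_pos (by norm_num : (0:ℝ) < 2), abs_of_pos (by linarith : 0 < 2 * (q - 1)),
      abs_of_pos (by linarith : 0 < 2 * (2 - q))]
    linarith
  have hexp : Real.exp (2 * (|(-2 : ℝ)| + |-(2 * (q - 1))| + |2 * (2 - q)| + |2 * (q - 1)|) *
      Real.exp (-(K : ℝ) / 2)) ≤ Real.exp (12 * Real.exp (-(K : ℝ) / 2)) := by
    apply Real.exp_le_exp.2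
    exact mul_le_mul_of_nonneg_right hs (Real.exp_pos _).le
  have hR : 0 ≤ E3 ^ (2 * (2 - q)) * E4 ^ (2 * (q - 1)) :=
    mul_nonneg (Real.rpow_nonneg hE3n _) (Real.rpow_nonneg hE4n _)
  rw [Real.rpow_neg hE1n, Real.rpow_neg hE2n, Real.rpow_two] at this
  set A1 := E1 ^ 2 with hA1
  set A2 := E2 ^ (2 * (q - 1)) with hA2
  set A3 := E3 ^ (2 * (2 - q)) with hA3
  set A4 := E4 ^ (2 * (q - 1)) with hA4
  have hA1n : 0 ≤ A1 := by positivity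
  have hA2n : 0 ≤ A2 := Real.rpow_nonneg hE2n _
  have hA3n : 0 ≤ A3 := Real.rpow_nonneg hE3n _
  have hA4n : 0 ≤ A4 := Real.rpow_nonneg hE4n _
  by_cases hz : A1 * A2 = 0
  · rw [hz]
    exact mul_nonneg (Real.exp_pos _).le hR
  · have hz1 : A1 ≠ 0 := left_ne_zero_of_mul hz
    have hz2 : A2 ≠ 0 := right_ne_zero_of_mul hz
    calc A1 * A2 = A1 * A2 * 1 := (mul_one _).symm
      _ ≤ A1 * A2 * (Real.exp (2 * (|(-2 : ℝ)| + |-(2 * (q - 1))| + |2 * (2 - q)| + |2 * (q - 1)|) *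
            Real.exp (-(K : ℝ) / 2)) * (A1⁻¹ * A2⁻¹ * A3 * A4)) :=
          mul_le_mul_of_nonneg_left this (mul_nonneg hA1n hA2n)
      _ = Real.exp (2 * (|(-2 : ℝ)| + |-(2 * (q - 1))| + |2 * (2 - q)| + |2 * (q - 1)|) *
            Real.exp (-(K : ℝ) / 2)) * (A3 * A4) := by
          field_simp
      _ ≤ _ := mul_le_mul_of_nonneg_right hexp hR

private theorem q2_delta : ∃ δ : ℝ, 0 < δ ∧ δ ≤ 1/2 ∧ ∀ (T : ℝ) (y M : ℕ), 100 ≤ y → 3 ≤ T →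
    2 ^ M * Real.log y ≤ δ * Real.log T → (∀ n ∈ Finset.Icc 1 M, 2 ≤ KT T y n) ∧
      ∑ n ∈ Finset.Icc 1 M, Real.exp (-(KT T y n : ℝ) / 2) ≤ 1 := by
  obtain ⟨δ1, h1, h1', hd1⟩ := adm_K 2
  obtain ⟨δ2, h2, h2', hd2⟩ := adm_sum 1 one_pos
  refine ⟨min (min δ1 δ2) (1/2), by positivity, min_le_right _ _, ?_⟩
  intro T y M hy hT h
  have hlog : 0 ≤ Real.log T := Real.log_nonneg (by linarith)
  have hm1 : min (min δ1 δ2) (1/2) ≤ δ1 := le_trans (min_le_left _ _) (min_le_left _ _)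
  have hm2 : min (min δ1 δ2) (1/2) ≤ δ2 := le_trans (min_le_left _ _) (min_le_right _ _)
  exact ⟨hd1 T y M (by omega) (by linarith) (h.trans (mul_le_mul_of_nonneg_right hm1 hlog)),
    hd2 T y M (by omega) (by linarith) (h.trans (mul_le_mul_of_nonneg_right hm2 hlog))⟩

private theorem q2_blk {y m n p : ℕ} (hy : 1 ≤ y) (hm : 1 ≤ m) (hp : p ∈ blk y m) :
    p ≤ y ^ (2 ^ n) ↔ m ≤ n := by
  obtain ⟨m, rfl⟩ : ∃ m', m = m' + 1 := ⟨m - 1, by omega⟩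
  simp only [blk, Finset.mem_filter, Finset.mem_Ioc] at hp
  constructor
  · intro h
    by_contra hmn
    have h1 : n ≤ m := by omega
    have h2 : y ^ (2 ^ n) ≤ y ^ (2 ^ m) :=
      Nat.pow_le_pow_right hy (Nat.pow_le_pow_right (by norm_num) h1)
    omega
  · intro h
    have h2 : y ^ (2 ^ (m + 1)) ≤ y ^ (2 ^ n) :=
      Nat.pow_le_pow_right hy (Nat.pow_le_pow_right (by norm_num) h)
    omega

/-- one point: Z^(2k) is at most C b^k a^(1-k) -/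
theorem pt_one (κ : ℝ) (h0 : 0 < κ) (h1 : κ < 1) : ∃ (C : ℝ) (δ : ℝ), 1 ≤ C ∧ 0 < δ ∧ δ ≤ 1/2 ∧ ∀ (T : ℝ) (y M : ℕ), 100 ≤ y → 3 ≤ T →
    2 ^ M * Real.log y ≤ δ * Real.log T → ∀ s : ℝ, Good T y M s →
    Z s ^ (2 * κ) ≤ C * (Wt 1 T y M (fun _ => ((κ - 1 : ℝ) : ℂ)) s ^ κ * Wt 0 T y M (fun _ => (κ : ℂ)) s ^ (1 - κ)) := by
  obtain ⟨δ, hδ, hδ2, hd⟩ := q2_delta
  refine ⟨Real.exp 4, δ, Real.one_le_exp (by norm_num), hδ, hδ2, ?_⟩
  intro T y M hy hT hM s hs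
  obtain ⟨hK, hsum⟩ := hd T y M hy hT hM
  have hZ : 0 ≤ Z s := norm_nonneg _
  have hN : ∀ (x : ℝ) (n : ℕ), Nn T y n (fun _ => (x : ℂ)) (Xp s) =
      Ek (KT T y n) ((x : ℂ) * Ps (blk y n) (fun _ => 1) (Xp s)) := by
    intro x n
    rw [q2_Nn T y n (fun _ => (x : ℂ)) x 0 s 0 (by intro p _; simp)]
    simp
  unfold Wt
  simp only [hN]
  have hp1 : 0 ≤ ∏ n ∈ Finset.Icc 1 M, ‖Ek (KT T y n) (((κ - 1 : ℝ) : ℂ) * Ps (blk y n) (fun _ => 1) (Xp s))‖ ^ 2 :=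
    Finset.prod_nonneg (fun n _ => by positivity)
  have hp2 : 0 ≤ ∏ n ∈ Finset.Icc 1 M, ‖Ek (KT T y n) (((κ : ℝ) : ℂ) * Ps (blk y n) (fun _ => 1) (Xp s))‖ ^ 2 :=
    Finset.prod_nonneg (fun n _ => by positivity)
  rw [Nat.mul_one, Nat.mul_zero, pow_zero, one_mul, Real.mul_rpow (by positivity) hp1]
  have hZ2 : (Z s ^ 2) ^ κ = Z s ^ (2 * κ) := by
    rw [← Real.rpow_natCast, ← Real.rpow_mul hZ]; norm_num
  rw [hZ2, ← Real.finsetProd_rpow _ _ (fun n _ => by positivity),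
    ← Real.finsetProd_rpow _ _ (fun n _ => by positivity)]
  rw [mul_assoc (Z s ^ (2 * κ)), ← Finset.prod_mul_distrib]
  have hmain : 1 ≤ Real.exp 4 * ∏ n ∈ Finset.Icc 1 M,
      ((‖Ek (KT T y n) (((κ - 1 : ℝ) : ℂ) * Ps (blk y n) (fun _ => 1) (Xp s))‖ ^ 2) ^ κ *
        (‖Ek (KT T y n) (((κ : ℝ) : ℂ) * Ps (blk y n) (fun _ => 1) (Xp s))‖ ^ 2) ^ (1 - κ)) := by
    have h2 : (1 : ℝ) ≤ ∏ n ∈ Finset.Icc 1 M, (Real.exp (4 * Real.exp (-(KT T y n : ℝ) / 2)) *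
      ((‖Ek (KT T y n) (((κ - 1 : ℝ) : ℂ) * Ps (blk y n) (fun _ => 1) (Xp s))‖ ^ 2) ^ κ *
        (‖Ek (KT T y n) (((κ : ℝ) : ℂ) * Ps (blk y n) (fun _ => 1) (Xp s))‖ ^ 2) ^ (1 - κ))) := by
      apply Finset.one_le_prod
      intro n hn
      exact q2_one h0 h1 (hK n hn) (hs n hn)
    rw [Finset.prod_mul_distrib, ← Real.exp_sum, ← Finset.mul_sum] at h2
    refine h2.trans (mul_le_mul_of_nonneg_right ?_ ?_)
    · apply Real.exp_le_exp.2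
      linarith
    · exact Finset.prod_nonneg (fun n _ => by positivity)
  calc Z s ^ (2 * κ) = Z s ^ (2 * κ) * 1 := (mul_one _).symm
    _ ≤ Z s ^ (2 * κ) * _ := mul_le_mul_of_nonneg_left hmain (Real.rpow_nonneg hZ _)
    _ = _ := by ring

/-- two points, Hoelder exponents 2 - q and q - 1 -/
theorem pt_two (κ q : ℝ) (h0 : 0 < κ) (h1 : κ < 1) (hq1 : 1 < q) (hq2 : q < 2) (hκq : κ * q < 1) :
    ∃ (C : ℝ) (δ : ℝ), 1 ≤ C ∧ 0 < δ ∧ δ ≤ 1/2 ∧ ∀ (T : ℝ) (y M : ℕ), 100 ≤ y → 3 ≤ T → 2 ^ M * Real.log y ≤ δ * Real.log T →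
    ∀ a n : ℕ, a ≤ 1 → n ≤ M → ∀ s u : ℝ, Good T y M s → Good T y M (s + u) →
    Wt a T y M (fun _ => ((κ - a : ℝ) : ℂ)) s * Wt 0 T y M (fun _ => (κ : ℂ)) (s + u) ^ (q - 1) ≤
      C * (Wt a T y M (c1 κ q a y n) s ^ (2 - q) * Wt a T y M (c2 κ q a y n u) s ^ (q - 1)) := by
  obtain ⟨δ, hδ, hδ2, hd⟩ := q2_delta
  refine ⟨Real.exp 12, δ, Real.one_le_exp (by norm_num), hδ, hδ2, ?_⟩
  intro T y M hy hT hM a n ha hn s u hs hsu
  obtain ⟨hK, hsum⟩ := hd T y M hy hT hM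
  have hZ : 0 ≤ Z s := norm_nonneg _
  have haR : (a : ℝ) ≤ 1 := by exact_mod_cast ha
  have haR0 : (0 : ℝ) ≤ a := Nat.cast_nonneg a
  have hblk : ∀ m ∈ Finset.Icc 1 M,
      ‖Nn T y m (fun _ => ((κ - a : ℝ) : ℂ)) (Xp s)‖ ^ 2 *
        (‖Nn T y m (fun _ => (κ : ℂ)) (Xp (s + u))‖ ^ 2) ^ (q - 1) ≤
      Real.exp (12 * Real.exp (-(KT T y m : ℝ) / 2)) *
        ((‖Nn T y m (c1 κ q a y n) (Xp s)‖ ^ 2) ^ (2 - q) *
          (‖Nn T y m (c2 κ q a y n u) (Xp s)‖ ^ 2) ^ (q - 1)) := by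
    intro m hm
    have hm1 : 1 ≤ m := (Finset.mem_Icc.1 hm).1
    rw [q2_Nn T y m (fun _ => ((κ - a : ℝ) : ℂ)) (κ - a) 0 s u (by intro p _; simp)]
    have hk : Nn T y m (fun _ => (κ : ℂ)) (Xp (s + u)) = Ek (KT T y m)
        (((0 : ℝ) : ℂ) * Ps (blk y m) (fun _ => 1) (Xp s) +
          (κ : ℂ) * Ps (blk y m) (fun _ => 1) (Xp (s + u))) := by
      rw [q2_Nn T y m (fun _ => (κ : ℂ)) κ 0 (s + u) 0 (by intro p _; simp)]
      simp
    rw [hk]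
    by_cases hmn : m ≤ n
    · rw [q2_Nn T y m (c1 κ q a y n) (κ * q - a) 0 s u (by
        intro p hp
        unfold c1
        rw [if_pos ((q2_blk (by omega) hm1 hp).2 hmn)]
        simp)]
      rw [q2_Nn T y m (c2 κ q a y n u) (κ * (q - 1) - a) κ s u (by
        intro p hp
        unfold c2
        rw [if_pos ((q2_blk (by omega) hm1 hp).2 hmn)])]
      have hkq : 0 < κ * q := by positivity
      have hkq1 : κ * (q - 1) < 1 := by nlinarith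
      have hkq2 : 0 < κ * (q - 1) := mul_pos h0 (by linarith)
      apply q2_two h0 h1 hq1 hq2 (by ring) _ _ _ (hK m hm) (hs m hm) (hsu m hm)
      · rw [abs_le]; constructor <;> linarith
      · rw [abs_le]; constructor <;> linarith
      · rw [abs_le]; constructor <;> linarith
    · rw [q2_Nn T y m (c1 κ q a y n) (κ - a) 0 s u (by
        intro p hp
        unfold c1
        rw [if_neg (fun h => hmn ((q2_blk (by omega) hm1 hp).1 h))]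
        simp)]
      rw [q2_Nn T y m (c2 κ q a y n u) (κ - a) κ s u (by
        intro p hp
        unfold c2
        rw [if_neg (fun h => hmn ((q2_blk (by omega) hm1 hp).1 h))])]
      apply q2_two h0 h1 hq1 hq2 (by ring) _ _ _ (hK m hm) (hs m hm) (hsu m hm)
      · rw [abs_le]; constructor <;> linarith
      · rw [abs_le]; constructor <;> linarith
      · rw [abs_le]; constructor <;> linarith
  have hprod := Finset.prod_le_prod (fun m _ => mul_nonneg (by positivity)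
    (Real.rpow_nonneg (by positivity) _)) hblk
  rw [Finset.prod_mul_distrib, Finset.prod_mul_distrib, Finset.prod_mul_distrib, ← Real.exp_sum,
    ← Finset.mul_sum] at hprod
  unfold Wt
  have hp1 : 0 ≤ ∏ m ∈ Finset.Icc 1 M, ‖Nn T y m (c1 κ q a y n) (Xp s)‖ ^ 2 :=
    Finset.prod_nonneg (fun n _ => by positivity)
  have hp2 : 0 ≤ ∏ m ∈ Finset.Icc 1 M, ‖Nn T y m (c2 κ q a y n u) (Xp s)‖ ^ 2 :=
    Finset.prod_nonneg (fun n _ => by positivity)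
  have hA : 0 ≤ Z s ^ (2 * a) := by positivity
  rw [Nat.mul_zero, pow_zero, one_mul, Real.mul_rpow hA hp1, Real.mul_rpow hA hp2,
    ← Real.finsetProd_rpow _ _ (fun n _ => by positivity),
    ← Real.finsetProd_rpow _ _ (fun n _ => by positivity),
    ← Real.finsetProd_rpow _ _ (fun n _ => by positivity)]
  have hAA : Z s ^ (2 * a) = (Z s ^ (2 * a)) ^ (2 - q) * (Z s ^ (2 * a)) ^ (q - 1) := by
    rw [← Real.rpow_add_of_nonneg hA (by linarith) (by linarith)]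
    have : (2 - q) + (q - 1) = 1 := by ring
    rw [this, Real.rpow_one]
  have hR : 0 ≤ (∏ m ∈ Finset.Icc 1 M, (‖Nn T y m (c1 κ q a y n) (Xp s)‖ ^ 2) ^ (2 - q)) *
      ∏ m ∈ Finset.Icc 1 M, (‖Nn T y m (c2 κ q a y n u) (Xp s)‖ ^ 2) ^ (q - 1) :=
    mul_nonneg (Finset.prod_nonneg (fun n _ => Real.rpow_nonneg (by positivity) _))
      (Finset.prod_nonneg (fun n _ => Real.rpow_nonneg (by positivity) _))
  have hexp : Real.exp (12 * ∑ m ∈ Finset.Icc 1 M, Real.exp (-(KT T y m : ℝ) / 2)) ≤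
      Real.exp 12 := Real.exp_le_exp.2 (by linarith)
  have hfin := hprod.trans (mul_le_mul_of_nonneg_right hexp hR)
  rw [mul_assoc]
  refine (mul_le_mul_of_nonneg_left hfin hA).trans (le_of_eq ?_)
  nth_rewrite 1 [hAA]
  ring

end CZ
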