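import Pool.Agent.Lib.MP_9eae41_pr.Q2

set_option autoImplicit false

open Complex MeasureTheory Set Filter Topology
open scoped ComplexConjugate ENNReal

namespace CZ

/-! Row Q3 (300 lines): the mixed moment. X or Y: for a = 0, 1 and c = Wt a (k - a) restricted to the good set,
E_t int_x c(t+x) (int_x' (Wt 0 k)(t+x') dx')^(q-1) dx. Annuli D_n in the variable u = x' - x in [-1,1] (n = 0..M),
|D_n| <= 4 2^(-n); subadditivity of the power q-1; pt_two; mu_shift; Hoelder (2-q, q-1); c1_bound, c2_bound; the exponent of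
2^n is (q-1)(k^2 q - 1) < 0. -/

/-- the integral over [0,1] of the restricted weight -/
noncomputable def YY (κ T : ℝ) (y M : ℕ) (t : ℝ) : ℝ≥0∞ :=
  ∫⁻ x in Icc (0:ℝ) 1, {s | Good T y M s}.indicator (fun s => ENNReal.ofReal (Wt 0 T y M (fun _ => (κ : ℂ)) s)) (t + x)

noncomputable def XY (κ T : ℝ) (y M : ℕ) (t : ℝ) : ℝ≥0∞ :=
  ∫⁻ x in Icc (0:ℝ) 1, {s | Good T y M s}.indicator (fun s => ENNReal.ofReal (Wt 1 T y M (fun _ => ((κ - 1 : ℝ) : ℂ)) s)) (t + x)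

/-! ### continuity and measurability -/

theorem q3_Z_cont : Continuous Z := by
  unfold Z
  refine Continuous.norm ?_
  rw [continuous_iff_continuousAt]
  intro t
  have h1 : (1 / 2 + (t : ℂ) * I) ≠ 1 := by
    intro h
    have := congrArg Complex.re h
    simp at this
  have h2 : ContinuousAt riemannZeta (1 / 2 + (t : ℂ) * I) :=
    (differentiableAt_riemannZeta h1).continuousAt
  exact ContinuousAt.comp (f := fun t : ℝ => 1 / 2 + (t : ℂ) * I) h2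
    (by fun_prop : Continuous fun t : ℝ => 1 / 2 + (t : ℂ) * I).continuousAt

theorem q3_Xp_cont (p : ℕ) : Continuous (fun t : ℝ => Xp t p) := by
  unfold Xp
  fun_prop

theorem q3_Ps_cont {α : Type} [TopologicalSpace α] (s : Finset ℕ) {c : α → ℕ → ℂ} {X : α → ℕ → ℂ}
    (hc : ∀ p, Continuous fun z => c z p) (hX : ∀ p, Continuous fun z => X z p) :
    Continuous fun z => Ps s (c z) (X z) := by
  unfold Ps
  refine continuous_finsetSum _ fun p _ => ?_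
  exact ((hc p).mul (hX p)).mul continuous_const

theorem q3_Ek_cont (K : ℕ) : Continuous (Ek K) := by
  unfold Ek
  refine continuous_finsetSum _ fun k _ => ?_
  exact (continuous_pow k).div_const _

theorem q3_Wt_cont {α : Type} [TopologicalSpace α] (a : ℕ) (T : ℝ) (y M : ℕ) {c : α → ℕ → ℂ}
    {σ : α → ℝ} (hc : ∀ p, Continuous fun z => c z p) (hσ : Continuous σ) :
    Continuous fun z => Wt a T y M (c z) (σ z) := by
  unfold Wt
  refine ((q3_Z_cont.comp hσ).pow _).mul ?_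
  refine continuous_finsetProd _ fun n _ => ?_
  refine Continuous.pow (Continuous.norm ?_) 2
  unfold Nn
  exact (q3_Ek_cont _).comp (q3_Ps_cont _ hc fun p => (q3_Xp_cont p).comp hσ)

theorem q3_c2_cont (κ q : ℝ) (a y n : ℕ) (p : ℕ) : Continuous fun u : ℝ => c2 κ q a y n u p := by
  unfold c2
  split_ifs
  · exact continuous_const.add (continuous_const.mul (q3_Xp_cont p))
  · exact continuous_const.add (continuous_const.mul (q3_Xp_cont p))

theorem q3_Good_meas (T : ℝ) (y M : ℕ) : MeasurableSet {s | Good T y M s} := by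
  have h : {s | Good T y M s} = ⋂ n ∈ Finset.Icc 1 M,
      {s | ‖Ps (blk y n) (fun _ => 1) (Xp s)‖ ≤ KT T y n / 100} := by
    ext s
    simp only [Good, mem_ofPred_eq, mem_iInter]
  rw [h]
  refine Finset.measurableSet_biInter _ fun n _ => ?_
  refine measurableSet_le ?_ measurable_const
  exact (q3_Ps_cont (blk y n) (c := fun _ _ => 1) (X := fun s => Xp s) (fun _ => continuous_const)
    q3_Xp_cont).norm.measurable

theorem q3_Wt_nonneg (a : ℕ) (T : ℝ) (y M : ℕ) (c : ℕ → ℂ) (s : ℝ) : 0 ≤ Wt a T y M c s := by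
  unfold Wt Z
  refine mul_nonneg (by positivity) (Finset.prod_nonneg fun n _ => by positivity)

/-! ### subadditivity -/

theorem q3_rpow_sum {ι : Type} (S : Finset ι) (f : ι → ℝ≥0∞) {p : ℝ} (h0 : 0 < p) (h1 : p ≤ 1) :
    (∑ i ∈ S, f i) ^ p ≤ ∑ i ∈ S, f i ^ p := by
  classical
  induction S using Finset.induction_on with
  | empty => simp [h0]
  | insert i S hi ih =>
    rw [Finset.sum_insert hi, Finset.sum_insert hi]
    exact (ENNReal.rpow_add_le_add_rpow _ _ h0.le h1).trans (by gcongr)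

theorem q3_lint_biUnion {ι : Type} (S : Finset ι) (D : ι → Set ℝ) (f : ℝ → ℝ≥0∞) :
    ∫⁻ u in ⋃ i ∈ S, D i, f u ≤ ∑ i ∈ S, ∫⁻ u in D i, f u := by
  classical
  induction S using Finset.induction_on with
  | empty => simp
  | insert i S hi ih =>
    rw [Finset.set_biUnion_insert, Finset.sum_insert hi]
    exact (lintegral_union_le _ _ _).trans (by gcongr)

/-! ### the annuli -/

/-- the annuli -/
def q3D (y M n : ℕ) : Set ℝ :=
  {u | |u| ≤ 1 ∧ |u| ≤ 2 / 2 ^ n ∧ (n = M ∨ 1 / (2 ^ n * Real.log y) ≤ |u|)}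

theorem q3D_meas (y M n : ℕ) : MeasurableSet (q3D y M n) := by
  unfold q3D
  have h1 : MeasurableSet {u : ℝ | |u| ≤ 1} := measurableSet_le (by fun_prop) (by fun_prop)
  have h2 : MeasurableSet {u : ℝ | |u| ≤ 2 / 2 ^ n} := measurableSet_le (by fun_prop) (by fun_prop)
  have h3 : MeasurableSet {u : ℝ | 1 / (2 ^ n * Real.log y) ≤ |u|} :=
    measurableSet_le (by fun_prop) (by fun_prop)
  have h4 : MeasurableSet {u : ℝ | n = M ∨ 1 / (2 ^ n * Real.log y) ≤ |u|} := by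
    by_cases h : n = M
    · simp [h]
    · simpa [h] using h3
  exact h1.inter (h2.inter h4)

theorem q3D_vol (y M n : ℕ) : volume (q3D y M n) ≤ ENNReal.ofReal (4 / 2 ^ n) := by
  have h1 : q3D y M n ⊆ Icc (-(2 / 2 ^ n)) (2 / 2 ^ n) := fun u hu => abs_le.1 hu.2.1
  refine (measure_mono h1).trans ?_
  rw [Real.volume_Icc]
  refine le_of_eq ?_
  congr 1
  ring

theorem q3D_cover {y : ℕ} (M : ℕ) (hy : 1 ≤ Real.log y) :
    Icc (-1 : ℝ) 1 ⊆ ⋃ n ∈ Finset.range (M + 1), q3D y M n := by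
  intro u hu
  have hu1 : |u| ≤ 1 := abs_le.2 hu
  rw [mem_iUnion₂]
  have hlog : 0 < Real.log y := by linarith
  by_cases h : ∃ n, n < M ∧ 1 / (2 ^ n * Real.log y) ≤ |u|
  · classical
    set n := Nat.find h with hn
    obtain ⟨h1, h2⟩ := Nat.find_spec h
    refine ⟨n, Finset.mem_range.2 (by omega), hu1, ?_, Or.inr h2⟩
    rcases Nat.eq_zero_or_pos n with h0 | h0
    · rw [h0]
      norm_num
      linarith
    · have h3 := Nat.find_min h (m := n - 1) (by omega)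
      rw [not_and, not_le] at h3
      have h4 := h3 (by omega)
      have h5 : (2 : ℝ) ^ n = 2 * 2 ^ (n - 1) := by
        rw [← pow_succ']
        congr 1
        omega
      refine h4.le.trans ?_
      rw [h5]
      have h6 : (2 : ℝ) / (2 * 2 ^ (n - 1)) = 1 / (2 ^ (n - 1)) := by field_simp
      rw [h6]
      refine one_div_le_one_div_of_le (by positivity) ?_
      nlinarith [pow_pos (two_pos : (0 : ℝ) < 2) (n - 1)]
  · push Not at h
    refine ⟨M, Finset.mem_range.2 (by omega), hu1, ?_, Or.inl rfl⟩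
    rcases Nat.eq_zero_or_pos M with h0 | h0
    · rw [h0]
      norm_num
      linarith
    · have h4 := h (M - 1) (by omega)
      have h5 : (2 : ℝ) ^ M = 2 * 2 ^ (M - 1) := by
        rw [← pow_succ']
        congr 1
        omega
      refine h4.le.trans ?_
      rw [h5]
      have h6 : (2 : ℝ) / (2 * 2 ^ (M - 1)) = 1 / (2 ^ (M - 1)) := by field_simp
      rw [h6]
      refine one_div_le_one_div_of_le (by positivity) ?_
      nlinarith [pow_pos (two_pos : (0 : ℝ) < 2) (M - 1)]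

/-! ### the pointwise bound -/

/-- the restricted weight -/
noncomputable def q3g (κ T : ℝ) (y M a : ℕ) : ℝ → ℝ≥0∞ :=
  {s | Good T y M s}.indicator (fun s => ENNReal.ofReal (Wt a T y M (fun _ => ((κ - a : ℝ) : ℂ)) s))

theorem q3g_meas (κ T : ℝ) (y M a : ℕ) : Measurable (q3g κ T y M a) := by
  unfold q3g
  refine Measurable.indicator ?_ (q3_Good_meas T y M)
  exact (q3_Wt_cont a T y M (c := fun _ _ => ((κ - a : ℝ) : ℂ)) (σ := fun s => s)
    (fun _ => continuous_const) continuous_id).measurable.ennreal_ofReal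

theorem q3_YY_eq (κ T : ℝ) (y M : ℕ) (t : ℝ) :
    YY κ T y M t = ∫⁻ x in Icc (0:ℝ) 1, q3g κ T y M 0 (t + x) := by
  unfold YY q3g
  simp only [Nat.cast_zero, sub_zero]

theorem q3_XY_eq (κ T : ℝ) (y M : ℕ) (t : ℝ) :
    XY κ T y M t = ∫⁻ x in Icc (0:ℝ) 1, q3g κ T y M 1 (t + x) := by
  unfold XY q3g
  simp only [Nat.cast_one]

/-- integral of the weight over the differences -/
noncomputable def q3Y (κ T : ℝ) (y M : ℕ) (s : ℝ) : ℝ≥0∞ :=
  ∫⁻ u in Icc (-1:ℝ) 1, q3g κ T y M 0 (s + u)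

theorem q3Y_meas (κ T : ℝ) (y M : ℕ) : Measurable (q3Y κ T y M) := by
  unfold q3Y
  have h : Measurable (fun z : ℝ × ℝ => q3g κ T y M 0 (z.1 + z.2)) :=
    (q3g_meas κ T y M 0).comp (by fun_prop)
  exact h.lintegral_prod_right'

theorem q3_YY_le (κ T : ℝ) (y M : ℕ) (t : ℝ) {x : ℝ} (h0 : 0 ≤ x) (h1 : x ≤ 1) :
    YY κ T y M t ≤ q3Y κ T y M (t + x) := by
  rw [q3_YY_eq]
  unfold q3Y
  rw [← lintegral_indicator measurableSet_Icc, ← lintegral_indicator measurableSet_Icc,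
    ← lintegral_add_left_eq_self _ x]
  refine lintegral_mono fun u => ?_
  by_cases hu : x + u ∈ Icc (0:ℝ) 1
  · have hu' : u ∈ Icc (-1:ℝ) 1 := ⟨by linarith [hu.1], by linarith [hu.2]⟩
    rw [indicator_of_mem hu, indicator_of_mem hu', add_assoc]
  · rw [indicator_of_notMem hu]
    exact zero_le

/-- two points: the bound for one annulus -/
theorem q3_annulus {κ q T C : ℝ} {y M a n : ℕ} (hq1 : 1 < q) (hq2 : q < 2) (hC : 0 ≤ C)
    (hpt : ∀ s u : ℝ, Good T y M s → Good T y M (s + u) →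
      Wt a T y M (fun _ => ((κ - a : ℝ) : ℂ)) s * Wt 0 T y M (fun _ => (κ : ℂ)) (s + u) ^ (q - 1) ≤
      C * (Wt a T y M (c1 κ q a y n) s ^ (2 - q) * Wt a T y M (c2 κ q a y n u) s ^ (q - 1)))
    (s : ℝ) :
    q3g κ T y M a s * (∫⁻ u in q3D y M n, q3g κ T y M 0 (s + u)) ^ (q - 1) ≤
      ENNReal.ofReal C * (ENNReal.ofReal (Wt a T y M (c1 κ q a y n) s) ^ (2 - q) *
        (∫⁻ u in q3D y M n, ENNReal.ofReal (Wt a T y M (c2 κ q a y n u) s)) ^ (q - 1)) := by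
  have hθ : 0 < q - 1 := by linarith
  by_cases hs : Good T y M s
  swap
  · have : q3g κ T y M a s = 0 := indicator_of_notMem (show s ∉ {s | Good T y M s} from hs) _
    rw [this, zero_mul]
    exact zero_le
  have hg : q3g κ T y M a s = ENNReal.ofReal (Wt a T y M (fun _ => ((κ - a : ℝ) : ℂ)) s) :=
    indicator_of_mem (show s ∈ {s | Good T y M s} from hs) _
  rw [hg]
  set A : ℝ≥0∞ := ENNReal.ofReal (Wt a T y M (fun _ => ((κ - a : ℝ) : ℂ)) s) with hA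
  set B : ℝ≥0∞ := ENNReal.ofReal C * ENNReal.ofReal (Wt a T y M (c1 κ q a y n) s) ^ (2 - q)
    with hB
  have hu : ∀ u, A ^ (q - 1)⁻¹ * q3g κ T y M 0 (s + u) ≤
      B ^ (q - 1)⁻¹ * ENNReal.ofReal (Wt a T y M (c2 κ q a y n u) s) := by
    intro u
    by_cases hsu : Good T y M (s + u)
    swap
    · have : q3g κ T y M 0 (s + u) = 0 :=
        indicator_of_notMem (show s + u ∉ {s | Good T y M s} from hsu) _
      rw [this, mul_zero]
      exact zero_le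
    have hg0 : q3g κ T y M 0 (s + u) = ENNReal.ofReal (Wt 0 T y M (fun _ => (κ : ℂ)) (s + u)) := by
      have := indicator_of_mem (show s + u ∈ {s | Good T y M s} from hsu)
        (fun s => ENNReal.ofReal (Wt 0 T y M (fun _ => ((κ - (0 : ℕ) : ℝ) : ℂ)) s))
      unfold q3g
      rw [this]
      simp only [Nat.cast_zero, sub_zero]
    rw [hg0]
    have h1 := ENNReal.ofReal_le_ofReal (hpt s u hs hsu)
    have n1 := q3_Wt_nonneg a T y M (fun _ => ((κ - a : ℝ) : ℂ)) s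
    have n2 := q3_Wt_nonneg 0 T y M (fun _ => (κ : ℂ)) (s + u)
    have n3 := q3_Wt_nonneg a T y M (c1 κ q a y n) s
    have n4 := q3_Wt_nonneg a T y M (c2 κ q a y n u) s
    rw [ENNReal.ofReal_mul n1, ENNReal.ofReal_mul hC, ENNReal.ofReal_mul (by positivity),
      ← ENNReal.ofReal_rpow_of_nonneg n2 hθ.le, ← ENNReal.ofReal_rpow_of_nonneg n3 (by linarith),
      ← ENNReal.ofReal_rpow_of_nonneg n4 hθ.le, ← mul_assoc] at h1
    have h2 := ENNReal.rpow_le_rpow h1 (inv_nonneg.2 hθ.le)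
    rw [ENNReal.mul_rpow_of_nonneg _ _ (inv_nonneg.2 hθ.le),
      ENNReal.mul_rpow_of_nonneg _ _ (inv_nonneg.2 hθ.le), ← ENNReal.rpow_mul, ← ENNReal.rpow_mul,
      mul_inv_cancel₀ hθ.ne', ENNReal.rpow_one, ENNReal.rpow_one] at h2
    exact h2
  have hm0 : Measurable fun u => q3g κ T y M 0 (s + u) :=
    (q3g_meas κ T y M 0).comp (by fun_prop)
  have hm2 : Measurable fun u => ENNReal.ofReal (Wt a T y M (c2 κ q a y n u) s) :=
    (q3_Wt_cont a T y M (c := fun u => c2 κ q a y n u) (σ := fun _ => s)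
      (fun p => q3_c2_cont κ q a y n p) continuous_const).measurable.ennreal_ofReal
  have h3 : A ^ (q - 1)⁻¹ * ∫⁻ u in q3D y M n, q3g κ T y M 0 (s + u) ≤
      B ^ (q - 1)⁻¹ * ∫⁻ u in q3D y M n, ENNReal.ofReal (Wt a T y M (c2 κ q a y n u) s) := by
    rw [← lintegral_const_mul _ hm0, ← lintegral_const_mul _ hm2]
    exact lintegral_mono hu
  have h4 := ENNReal.rpow_le_rpow h3 hθ.le
  rw [ENNReal.mul_rpow_of_nonneg _ _ hθ.le, ENNReal.mul_rpow_of_nonneg _ _ hθ.le,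
    ← ENNReal.rpow_mul, ← ENNReal.rpow_mul, inv_mul_cancel₀ hθ.ne', ENNReal.rpow_one,
    ENNReal.rpow_one] at h4
  refine h4.trans (le_of_eq ?_)
  rw [hB, mul_assoc]

theorem q3_pointwise {κ q T C : ℝ} {y M a : ℕ} (hq1 : 1 < q) (hq2 : q < 2) (hC : 0 ≤ C)
    (hy : 1 ≤ Real.log y)
    (hpt : ∀ n ≤ M, ∀ s u : ℝ, Good T y M s → Good T y M (s + u) →
      Wt a T y M (fun _ => ((κ - a : ℝ) : ℂ)) s * Wt 0 T y M (fun _ => (κ : ℂ)) (s + u) ^ (q - 1) ≤
      C * (Wt a T y M (c1 κ q a y n) s ^ (2 - q) * Wt a T y M (c2 κ q a y n u) s ^ (q - 1)))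
    (s : ℝ) :
    q3g κ T y M a s * q3Y κ T y M s ^ (q - 1) ≤ ∑ n ∈ Finset.range (M + 1),
      ENNReal.ofReal C * (ENNReal.ofReal (Wt a T y M (c1 κ q a y n) s) ^ (2 - q) *
        (∫⁻ u in q3D y M n, ENNReal.ofReal (Wt a T y M (c2 κ q a y n u) s)) ^ (q - 1)) := by
  have h1 : q3Y κ T y M s ≤ ∑ n ∈ Finset.range (M + 1),
      ∫⁻ u in q3D y M n, q3g κ T y M 0 (s + u) := by
    unfold q3Y
    refine (lintegral_mono_set (q3D_cover M hy)).trans ?_
    exact q3_lint_biUnion _ _ _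
  have h2 : q3Y κ T y M s ^ (q - 1) ≤ ∑ n ∈ Finset.range (M + 1),
      (∫⁻ u in q3D y M n, q3g κ T y M 0 (s + u)) ^ (q - 1) :=
    (ENNReal.rpow_le_rpow h1 (by linarith)).trans (q3_rpow_sum _ _ (by linarith) (by linarith))
  refine (mul_le_mul_right h2 _).trans ?_
  rw [Finset.mul_sum]
  refine Finset.sum_le_sum fun n hn => ?_
  exact q3_annulus hq1 hq2 hC (hpt n (by rw [Finset.mem_range] at hn; omega)) s

/-! ### the main bound -/

theorem q3_first {κ q T : ℝ} {y M a : ℕ} (hT : 1 ≤ T) (hq1 : 1 < q) :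
    ∫⁻ t, (∫⁻ x in Icc (0:ℝ) 1, q3g κ T y M a (t + x)) * YY κ T y M t ^ (q - 1) ∂mu T ≤
      3 * ∫⁻ s, q3g κ T y M a s * q3Y κ T y M s ^ (q - 1) ∂mu T := by
  have : IsProbabilityMeasure (mu T) := mu_prob (by linarith)
  set H : ℝ → ℝ≥0∞ := fun s => q3g κ T y M a s * q3Y κ T y M s ^ (q - 1) with hH
  have hHm : Measurable H := (q3g_meas κ T y M a).mul ((q3Y_meas κ T y M).pow_const _)
  have hgm : ∀ t, Measurable fun x => q3g κ T y M a (t + x) := fun t =>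
    (q3g_meas κ T y M a).comp (by fun_prop)
  have h1 : ∀ t, (∫⁻ x in Icc (0:ℝ) 1, q3g κ T y M a (t + x)) * YY κ T y M t ^ (q - 1) ≤
      ∫⁻ x in Icc (0:ℝ) 1, H (t + x) := by
    intro t
    rw [← lintegral_mul_const _ (hgm t)]
    refine setLIntegral_mono' measurableSet_Icc fun x hx => ?_
    exact mul_le_mul_right (ENNReal.rpow_le_rpow (q3_YY_le κ T y M t hx.1 hx.2) (by linarith)) _
  have hHm2 : Measurable (fun z : ℝ × ℝ => H (z.1 + z.2)) := hHm.comp (by fun_prop)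
  calc ∫⁻ t, (∫⁻ x in Icc (0:ℝ) 1, q3g κ T y M a (t + x)) * YY κ T y M t ^ (q - 1) ∂mu T
      ≤ ∫⁻ t, (∫⁻ x in Icc (0:ℝ) 1, H (t + x)) ∂mu T := lintegral_mono h1
    _ = ∫⁻ x in Icc (0:ℝ) 1, ∫⁻ t, H (t + x) ∂mu T :=
      lintegral_lintegral_swap (μ := mu T) (ν := volume.restrict (Icc (0:ℝ) 1))
        (f := fun t x => H (t + x)) hHm2.aemeasurable
    _ ≤ ∫⁻ x in Icc (0:ℝ) 1, 3 * ∫⁻ t, H t ∂mu T :=
      setLIntegral_mono' measurableSet_Icc fun x hx => mu_shift hT hx.1 hx.2 hHm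
    _ = 3 * ∫⁻ t, H t ∂mu T := by
      rw [setLIntegral_const, Real.volume_Icc]
      simp

theorem q3_term {κ q T C B1 B2 : ℝ} {y M a n : ℕ} (hT : 0 < T) (hq1 : 1 < q) (hq2 : q < 2)
    (hC : 0 ≤ C) (hB1 : 0 ≤ B1) (hB2 : 0 ≤ B2)
    (h1 : ∫⁻ s, ENNReal.ofReal (Wt a T y M (c1 κ q a y n) s) ∂mu T ≤ ENNReal.ofReal B1)
    (h2 : ∀ u ∈ q3D y M n, ∫⁻ s, ENNReal.ofReal (Wt a T y M (c2 κ q a y n u) s) ∂mu T ≤
      ENNReal.ofReal B2) :
    ∫⁻ s, ENNReal.ofReal C * (ENNReal.ofReal (Wt a T y M (c1 κ q a y n) s) ^ (2 - q) *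
        (∫⁻ u in q3D y M n, ENNReal.ofReal (Wt a T y M (c2 κ q a y n u) s)) ^ (q - 1)) ∂mu T ≤
      ENNReal.ofReal (C * (B1 ^ (2 - q) * (B2 * (4 / 2 ^ n)) ^ (q - 1))) := by
  have : IsProbabilityMeasure (mu T) := mu_prob hT
  have m1 : Measurable fun s => ENNReal.ofReal (Wt a T y M (c1 κ q a y n) s) :=
    (q3_Wt_cont a T y M (c := fun _ => c1 κ q a y n) (σ := fun s => s)
      (fun _ => continuous_const) continuous_id).measurable.ennreal_ofReal
  have m2 : Measurable fun z : ℝ × ℝ => ENNReal.ofReal (Wt a T y M (c2 κ q a y n z.2) z.1) :=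
    (q3_Wt_cont a T y M (c := fun z : ℝ × ℝ => c2 κ q a y n z.2) (σ := fun z => z.1)
      (fun p => (q3_c2_cont κ q a y n p).comp continuous_snd)
      continuous_fst).measurable.ennreal_ofReal
  have m3 : Measurable fun s => ∫⁻ u in q3D y M n,
      ENNReal.ofReal (Wt a T y M (c2 κ q a y n u) s) := m2.lintegral_prod_right'
  have m4 : Measurable fun s => ENNReal.ofReal (Wt a T y M (c1 κ q a y n) s) ^ (2 - q) *
      (∫⁻ u in q3D y M n, ENNReal.ofReal (Wt a T y M (c2 κ q a y n u) s)) ^ (q - 1) :=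
    (m1.pow_const _).mul (m3.pow_const _)
  rw [lintegral_const_mul _ m4, ENNReal.ofReal_mul hC]
  refine mul_le_mul_right ?_ _
  refine (ENNReal.lintegral_mul_norm_pow_le m1.aemeasurable m3.aemeasurable (by linarith)
    (by linarith) (by ring)).trans ?_
  have h3 : ∫⁻ s, (∫⁻ u in q3D y M n, ENNReal.ofReal (Wt a T y M (c2 κ q a y n u) s)) ∂mu T ≤
      ENNReal.ofReal (B2 * (4 / 2 ^ n)) := by
    rw [lintegral_lintegral_swap (μ := mu T) (ν := volume.restrict (q3D y M n))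
      (f := fun s u => ENNReal.ofReal (Wt a T y M (c2 κ q a y n u) s)) m2.aemeasurable]
    calc ∫⁻ u in q3D y M n, ∫⁻ s, ENNReal.ofReal (Wt a T y M (c2 κ q a y n u) s) ∂mu T
        ≤ ∫⁻ u in q3D y M n, ENNReal.ofReal B2 := setLIntegral_mono' (q3D_meas y M n) h2
      _ = ENNReal.ofReal B2 * volume (q3D y M n) := setLIntegral_const _ _
      _ ≤ ENNReal.ofReal B2 * ENNReal.ofReal (4 / 2 ^ n) := mul_le_mul_right (q3D_vol y M n) _
      _ = ENNReal.ofReal (B2 * (4 / 2 ^ n)) := (ENNReal.ofReal_mul hB2).symm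
  have h4 : (0 : ℝ) ≤ B2 * (4 / 2 ^ n) := by positivity
  rw [ENNReal.ofReal_mul (by positivity), ← ENNReal.ofReal_rpow_of_nonneg hB1 (by linarith),
    ← ENNReal.ofReal_rpow_of_nonneg h4 (by linarith)]
  exact mul_le_mul' (ENNReal.rpow_le_rpow h1 (by linarith)) (ENNReal.rpow_le_rpow h3 (by linarith))

/-- the exponents -/
theorem q3_exponents {κ q L C1 C2 : ℝ} (hL : 0 < L) (hC1 : 0 < C1) (hC2 : 0 < C2) (a n M : ℕ) :
    (C1 * L ^ a * (2 : ℝ) ^ (n * ((κ * q) ^ 2 - a) + (M - n) * (κ ^ 2 - a))) ^ (2 - q) *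
      ((C2 * L ^ a * (2 : ℝ) ^ (n * ((κ * q) ^ 2 - a) + (M - n) * (2 * κ ^ 2 - a))) *
        (4 / 2 ^ n)) ^ (q - 1) =
      C1 ^ (2 - q) * C2 ^ (q - 1) * 4 ^ (q - 1) * L ^ a * (2 : ℝ) ^ (M * (κ ^ 2 * q - a)) *
        ((2 : ℝ) ^ ((q - 1) * (κ ^ 2 * q - 1))) ^ n := by
  have e1 : (4 : ℝ) / 2 ^ n = 4 * 2 ^ (-(n : ℝ)) := by
    rw [Real.rpow_neg two_pos.le, Real.rpow_natCast]
    rfl
  have e2 : L ^ a = L ^ (a : ℝ) := (Real.rpow_natCast L a).symm
  rw [e1, e2]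
  have p2 : ∀ x : ℝ, (0 : ℝ) < 2 ^ x := fun x => Real.rpow_pos_of_pos two_pos x
  have pL : (0 : ℝ) < L ^ (a : ℝ) := Real.rpow_pos_of_pos hL _
  rw [Real.mul_rpow (by positivity) (p2 _).le, Real.mul_rpow hC1.le pL.le,
    Real.mul_rpow (by positivity) (by positivity), Real.mul_rpow (by positivity) (p2 _).le,
    Real.mul_rpow hC2.le pL.le, Real.mul_rpow (by norm_num) (p2 _).le, ← Real.rpow_mul hL.le,
    ← Real.rpow_mul hL.le, ← Real.rpow_mul two_pos.le, ← Real.rpow_mul two_pos.le,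
    ← Real.rpow_mul two_pos.le, ← Real.rpow_natCast _ n, ← Real.rpow_mul two_pos.le]
  have e3 : L ^ ((a : ℝ) * (2 - q)) * L ^ ((a : ℝ) * (q - 1)) = L ^ (a : ℝ) := by
    rw [← Real.rpow_add hL]
    congr 1
    ring
  have e4 : (2 : ℝ) ^ ((n * ((κ * q) ^ 2 - a) + (M - n) * (κ ^ 2 - a)) * (2 - q)) *
      2 ^ ((n * ((κ * q) ^ 2 - a) + (M - n) * (2 * κ ^ 2 - a)) * (q - 1)) *
      2 ^ (-(n : ℝ) * (q - 1)) =
      2 ^ (M * (κ ^ 2 * q - a)) * 2 ^ ((q - 1) * (κ ^ 2 * q - 1) * n) := by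
    rw [← Real.rpow_add two_pos, ← Real.rpow_add two_pos, ← Real.rpow_add two_pos]
    congr 1
    ring
  calc C1 ^ (2 - q) * L ^ ((a : ℝ) * (2 - q)) *
        2 ^ ((n * ((κ * q) ^ 2 - a) + (M - n) * (κ ^ 2 - a)) * (2 - q)) *
        (C2 ^ (q - 1) * L ^ ((a : ℝ) * (q - 1)) *
          2 ^ ((n * ((κ * q) ^ 2 - a) + (M - n) * (2 * κ ^ 2 - a)) * (q - 1)) *
          (4 ^ (q - 1) * 2 ^ (-(n : ℝ) * (q - 1))))
      = C1 ^ (2 - q) * C2 ^ (q - 1) * 4 ^ (q - 1) *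
          (L ^ ((a : ℝ) * (2 - q)) * L ^ ((a : ℝ) * (q - 1))) *
          (2 ^ ((n * ((κ * q) ^ 2 - a) + (M - n) * (κ ^ 2 - a)) * (2 - q)) *
            2 ^ ((n * ((κ * q) ^ 2 - a) + (M - n) * (2 * κ ^ 2 - a)) * (q - 1)) *
            2 ^ (-(n : ℝ) * (q - 1))) := by ring
    _ = _ := by
      rw [e3, e4]
      ring

theorem q3_main (κ q : ℝ) (h0 : 0 < κ) (h1 : κ < 1) (hq1 : 1 < q) (hq2 : q < 2)
    (hκq : κ * q < 1) :
    ∃ (y0 : ℕ) (δ : ℝ), 100 ≤ y0 ∧ 0 < δ ∧ δ ≤ 1/2 ∧ ∀ y : ℕ, y0 ≤ y → ∃ C T0 : ℝ, 0 < C ∧ 3 ≤ T0 ∧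
    ∀ T : ℝ, T0 ≤ T → ∀ M : ℕ, 2 ^ M * Real.log y ≤ δ * Real.log T → ∀ a : ℕ, a ≤ 1 →
    ∫⁻ t, (∫⁻ x in Icc (0:ℝ) 1, q3g κ T y M a (t + x)) * YY κ T y M t ^ (q - 1) ∂mu T ≤
      ENNReal.ofReal (C * Real.log T ^ a * (2 : ℝ) ^ (M * (κ ^ 2 * q - a))) := by
  obtain ⟨y1, δ1, hy1, hδ1, hδ1', H1⟩ := c1_bound κ q h0 h1 hq1 hq2 hκq
  obtain ⟨y2, δ2, hy2, hδ2, hδ2', H2⟩ := c2_bound κ q h0 h1 hq1 hq2 hκq
  obtain ⟨C3, δ3, hC3, hδ3, hδ3', H3⟩ := pt_two κ q h0 h1 hq1 hq2 hκq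
  refine ⟨max y1 y2, min δ1 (min δ2 δ3), le_trans hy1 (le_max_left _ _),
    lt_min hδ1 (lt_min hδ2 hδ3), (min_le_left _ _).trans hδ1', ?_⟩
  intro y hy
  obtain ⟨C1, T1, hC1, hT1, G1⟩ := H1 y ((le_max_left _ _).trans hy)
  obtain ⟨C2, T2, hC2, hT2, G2⟩ := H2 y ((le_max_right _ _).trans hy)
  have hy100 : 100 ≤ y := hy1.trans ((le_max_left _ _).trans hy)
  set ρ : ℝ := (2 : ℝ) ^ ((q - 1) * (κ ^ 2 * q - 1)) with hρ
  have hρ0 : 0 < ρ := Real.rpow_pos_of_pos two_pos _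
  have hκ2 : κ ^ 2 * q < 1 := by nlinarith
  have hρ1 : ρ < 1 := Real.rpow_lt_one_of_one_lt_of_neg one_lt_two (by nlinarith)
  set C' : ℝ := C1 ^ (2 - q) * C2 ^ (q - 1) * 4 ^ (q - 1) with hC'
  have hC'0 : 0 < C' := by positivity
  refine ⟨3 * (C3 * (C' * (1 - ρ)⁻¹)), max T1 T2, ?_, hT1.trans (le_max_left _ _), ?_⟩
  · have : 0 < 1 - ρ := by linarith
    positivity
  intro T hT M hM a ha
  have hT1' : T1 ≤ T := (le_max_left _ _).trans hT
  have hT2' : T2 ≤ T := (le_max_right _ _).trans hT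
  have hT3 : 3 ≤ T := hT1.trans hT1'
  have hlogT : 0 < Real.log T := Real.log_pos (by linarith)
  have hδT : ∀ δ', min δ1 (min δ2 δ3) ≤ δ' → 2 ^ M * Real.log y ≤ δ' * Real.log T :=
    fun δ' h => hM.trans (mul_le_mul_of_nonneg_right h hlogT.le)
  have hlogy : 1 ≤ Real.log y := by
    have h2 : (100 : ℝ) ≤ y := by exact_mod_cast hy100
    rw [Real.le_log_iff_exp_le (by linarith)]
    have := Real.exp_one_lt_d9
    linarith
  refine (q3_first (by linarith) hq1).trans ?_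
  have hpw := q3_pointwise (κ := κ) (q := q) (T := T) (C := C3) (y := y) (M := M) (a := a) hq1 hq2
    (by linarith) hlogy (fun n hn s u hs hsu => H3 T y M hy100 hT3
      (hδT δ3 ((min_le_right _ _).trans (min_le_right _ _))) a n ha hn s u hs hsu)
  have hb : ∀ n ∈ Finset.range (M + 1), ∫⁻ s, ENNReal.ofReal C3 *
      (ENNReal.ofReal (Wt a T y M (c1 κ q a y n) s) ^ (2 - q) *
        (∫⁻ u in q3D y M n, ENNReal.ofReal (Wt a T y M (c2 κ q a y n u) s)) ^ (q - 1)) ∂mu T ≤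
      ENNReal.ofReal (C3 * (C' * Real.log T ^ a * (2 : ℝ) ^ (M * (κ ^ 2 * q - a)) * ρ ^ n)) := by
    intro n hn
    have hn' : n ≤ M := by
      rw [Finset.mem_range] at hn
      omega
    refine (q3_term (by linarith) hq1 hq2 (by linarith) (by positivity) (by positivity)
      (G1 T hT1' M (hδT δ1 (min_le_left _ _)) a n ha hn')
      (fun u hu => G2 T hT2' M (hδT δ2 ((min_le_right _ _).trans (min_le_left _ _))) a n ha hn' u
        hu.1 hu.2.2)).trans (le_of_eq ?_)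
    rw [q3_exponents hlogT hC1 hC2 a n M]
  have hmeas : ∀ n ∈ Finset.range (M + 1), Measurable fun s => ENNReal.ofReal C3 *
      (ENNReal.ofReal (Wt a T y M (c1 κ q a y n) s) ^ (2 - q) *
        (∫⁻ u in q3D y M n, ENNReal.ofReal (Wt a T y M (c2 κ q a y n u) s)) ^ (q - 1)) := by
    intro n _
    have m1 : Measurable fun s => ENNReal.ofReal (Wt a T y M (c1 κ q a y n) s) :=
      (q3_Wt_cont a T y M (c := fun _ => c1 κ q a y n) (σ := fun s => s)
        (fun _ => continuous_const) continuous_id).measurable.ennreal_ofReal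
    have m2 : Measurable fun z : ℝ × ℝ => ENNReal.ofReal (Wt a T y M (c2 κ q a y n z.2) z.1) :=
      (q3_Wt_cont a T y M (c := fun z : ℝ × ℝ => c2 κ q a y n z.2) (σ := fun z => z.1)
        (fun p => (q3_c2_cont κ q a y n p).comp continuous_snd)
        continuous_fst).measurable.ennreal_ofReal
    have m3 : Measurable fun s => ∫⁻ u in q3D y M n,
      ENNReal.ofReal (Wt a T y M (c2 κ q a y n u) s) := m2.lintegral_prod_right'
    exact ((m1.pow_const _).mul (m3.pow_const _)).const_mul _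
  set B : ℝ := Real.log T ^ a * (2 : ℝ) ^ (M * (κ ^ 2 * q - a)) with hB
  have hB0 : 0 ≤ B := by positivity
  have hint : ∫⁻ s, q3g κ T y M a s * q3Y κ T y M s ^ (q - 1) ∂mu T ≤
      ENNReal.ofReal (C3 * (C' * (1 - ρ)⁻¹) * B) := by
    calc ∫⁻ s, q3g κ T y M a s * q3Y κ T y M s ^ (q - 1) ∂mu T
        ≤ ∫⁻ s, ∑ n ∈ Finset.range (M + 1), ENNReal.ofReal C3 *
          (ENNReal.ofReal (Wt a T y M (c1 κ q a y n) s) ^ (2 - q) *
          (∫⁻ u in q3D y M n, ENNReal.ofReal (Wt a T y M (c2 κ q a y n u) s)) ^ (q - 1)) ∂mu T :=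
          lintegral_mono hpw
      _ = ∑ n ∈ Finset.range (M + 1), ∫⁻ s, ENNReal.ofReal C3 *
          (ENNReal.ofReal (Wt a T y M (c1 κ q a y n) s) ^ (2 - q) *
          (∫⁻ u in q3D y M n, ENNReal.ofReal (Wt a T y M (c2 κ q a y n u) s)) ^ (q - 1)) ∂mu T :=
          lintegral_finsetSum _ hmeas
      _ ≤ ∑ n ∈ Finset.range (M + 1), ENNReal.ofReal (C3 * C' * B * ρ ^ n) := by
          refine Finset.sum_le_sum fun n hn => (hb n hn).trans (le_of_eq ?_)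
          congr 1
          rw [hB]
          ring
      _ = ENNReal.ofReal (∑ n ∈ Finset.range (M + 1), C3 * C' * B * ρ ^ n) :=
          (ENNReal.ofReal_sum_of_nonneg fun n _ => by positivity).symm
      _ ≤ ENNReal.ofReal (C3 * (C' * (1 - ρ)⁻¹) * B) := by
          refine ENNReal.ofReal_le_ofReal ?_
          rw [← Finset.mul_sum]
          have hg : ∑ n ∈ Finset.range (M + 1), ρ ^ n ≤ (1 - ρ)⁻¹ := by
            have := Summable.sum_le_tsum (Finset.range (M + 1)) (fun n _ => (pow_pos hρ0 n).le)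
              (summable_geometric_of_lt_one hρ0.le hρ1)
            rwa [tsum_geometric_of_lt_one hρ0.le hρ1] at this
          have h6 : 0 ≤ C3 * C' * B := by positivity
          calc C3 * C' * B * ∑ n ∈ Finset.range (M + 1), ρ ^ n ≤ C3 * C' * B * (1 - ρ)⁻¹ :=
              mul_le_mul_of_nonneg_left hg h6
            _ = _ := by ring
  calc 3 * ∫⁻ s, q3g κ T y M a s * q3Y κ T y M s ^ (q - 1) ∂mu T
      ≤ 3 * ENNReal.ofReal (C3 * (C' * (1 - ρ)⁻¹) * B) := mul_le_mul_right hint _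
    _ = ENNReal.ofReal (3 * (C3 * (C' * (1 - ρ)⁻¹)) * Real.log T ^ a *
        (2 : ℝ) ^ (M * (κ ^ 2 * q - a))) := by
      have e3 : (3 : ℝ≥0∞) = ENNReal.ofReal 3 := by norm_num
      rw [e3, ← ENNReal.ofReal_mul (by norm_num)]
      congr 1
      rw [hB]
      ring

theorem mixed (κ q : ℝ) (h0 : 0 < κ) (h1 : κ < 1) (hq1 : 1 < q) (hq2 : q < 2) (hκq : κ * q < 1) :
    ∃ (y0 : ℕ) (δ : ℝ), 100 ≤ y0 ∧ 0 < δ ∧ δ ≤ 1/2 ∧ ∀ y : ℕ, y0 ≤ y → ∃ C T0 : ℝ, 0 < C ∧ 3 ≤ T0 ∧ ∀ T : ℝ, T0 ≤ T →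
    ∀ M : ℕ, 2 ^ M * Real.log y ≤ δ * Real.log T →
    (∫⁻ t, YY κ T y M t * YY κ T y M t ^ (q - 1) ∂mu T ≤ ENNReal.ofReal (C * (2 : ℝ) ^ (M * (κ ^ 2 * q)))) ∧
    (∫⁻ t, XY κ T y M t * YY κ T y M t ^ (q - 1) ∂mu T ≤ ENNReal.ofReal (C * Real.log T * (2 : ℝ) ^ (M * (κ ^ 2 * q - 1)))) := by
  obtain ⟨y0, δ, hy0, hδ, hδ', H⟩ := q3_main κ q h0 h1 hq1 hq2 hκq
  refine ⟨y0, δ, hy0, hδ, hδ', fun y hy => ?_⟩
  obtain ⟨C, T0, hC, hT0, G⟩ := H y hy
  refine ⟨C, T0, hC, hT0, fun T hT M hM => ⟨?_, ?_⟩⟩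
  · have h2 := G T hT M hM 0 (by norm_num)
    simp only [pow_zero, mul_one, Nat.cast_zero, sub_zero] at h2
    simp only [← q3_YY_eq] at h2
    exact h2
  · have h2 := G T hT M hM 1 le_rfl
    simp only [pow_one, Nat.cast_one] at h2
    simp only [← q3_XY_eq] at h2
    exact h2

end CZ
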