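import Pool.Agent.Lib.MP_9eae41_pr.Q3

set_option autoImplicit false

open Complex MeasureTheory Set Filter Topology
open scoped ComplexConjugate ENNReal

namespace CZ

/-! Row Q4 (200 lines): q-th moment on the good set, and the bad set in L1. -/

private lemma q4_Ps_cont (s : Finset ℕ) (c : ℕ → ℂ) : Continuous (fun t : ℝ => Ps s c (Xp t)) := by
  unfold Ps
  refine continuous_finsetSum _ (fun p _ => ?_)
  exact (continuous_const.mul ((continuous_apply p).comp Xp_cont)).mul continuous_const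

private lemma q4_Nn_cont (T : ℝ) (y n : ℕ) (c : ℕ → ℂ) : Continuous (fun t : ℝ => Nn T y n c (Xp t)) := by
  unfold Nn Ek
  refine continuous_finsetSum _ (fun k _ => ?_)
  exact ((q4_Ps_cont _ c).pow k).div_const _

private lemma q4_Wt_cont (a : ℕ) (T : ℝ) (y M : ℕ) (c : ℕ → ℂ) : Continuous (fun s => Wt a T y M c s) := by
  unfold Wt
  refine (Z_cont.pow _).mul (continuous_finsetProd _ (fun n _ => ?_))
  exact ((q4_Nn_cont T y n c).norm).pow 2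

private lemma q4_Z_nonneg (s : ℝ) : 0 ≤ Z s := norm_nonneg _

private lemma q4_Wt_nonneg (a : ℕ) (T : ℝ) (y M : ℕ) (c : ℕ → ℂ) (s : ℝ) : 0 ≤ Wt a T y M c s := by
  unfold Wt
  exact mul_nonneg (pow_nonneg (q4_Z_nonneg s) _) (Finset.prod_nonneg (fun n _ => by positivity))

private lemma q4_Good_meas (T : ℝ) (y M : ℕ) : MeasurableSet {s | Good T y M s} := by
  have : {s | Good T y M s} = ⋂ n ∈ Finset.Icc 1 M,
      {s | ‖Ps (blk y n) (fun _ => 1) (Xp s)‖ ≤ KT T y n / 100} := by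
    ext s
    simp only [Good, Set.mem_ofPred_eq, Set.mem_iInter]
  rw [this]
  exact Finset.measurableSet_biInter _
    (fun n _ => (isClosed_le (q4_Ps_cont _ _).norm continuous_const).measurableSet)

private lemma q4_ind_meas (T : ℝ) (y M : ℕ) (g : ℝ → ℝ) (hg : Continuous g) :
    Measurable (fun s => {s | Good T y M s}.indicator (fun s => ENNReal.ofReal (g s)) s) :=
  (hg.measurable.ennreal_ofReal).indicator (q4_Good_meas T y M)

private lemma q4_int_meas (G : ℝ → ℝ≥0∞) (hG : Measurable G) :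
    Measurable (fun t : ℝ => ∫⁻ x in Icc (0:ℝ) 1, G (t + x)) := by
  have h : Measurable (fun p : ℝ × ℝ => G (p.1 + p.2)) := hG.comp (measurable_fst.add measurable_snd)
  exact h.lintegral_prod_right'

private lemma q4_pow (A B C : ℝ≥0∞) (κ q : ℝ) (h0 : 0 < κ) (h1 : κ < 1) (hq1 : 1 < q) (hκq : κ * q < 1) :
    (C * (A ^ κ * B ^ (1 - κ))) ^ q =
      C ^ q * ((A * B ^ (q - 1)) ^ (κ * q) * (B * B ^ (q - 1)) ^ (1 - κ * q)) := by
  have hq0 : 0 ≤ q := by linarith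
  have e0 : 0 ≤ κ * q := by positivity
  have e1 : 0 ≤ 1 - κ * q := by linarith
  have e2 : 0 ≤ q - 1 := by linarith
  rw [ENNReal.mul_rpow_of_nonneg _ _ hq0, ENNReal.mul_rpow_of_nonneg _ _ hq0,
    ENNReal.mul_rpow_of_nonneg _ _ e0, ENNReal.mul_rpow_of_nonneg _ _ e1,
    ← ENNReal.rpow_mul, ← ENNReal.rpow_mul, ← ENNReal.rpow_mul, ← ENNReal.rpow_mul]
  have e3 : B ^ ((1 - κ) * q) = B ^ ((q - 1) * (κ * q)) * (B ^ (1 - κ * q) * B ^ ((q - 1) * (1 - κ * q))) := by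
    rw [← ENNReal.rpow_add_of_nonneg _ _ e1 (by positivity), ← ENNReal.rpow_add_of_nonneg _ _ (by positivity) (by positivity)]
    congr 1
    ring
  rw [e3]
  ring

private lemma q4_num (C L α β a : ℝ) (hC : 0 < C) (hL : 0 < L) :
    (C * L * (2:ℝ) ^ α) ^ a * (C * (2:ℝ) ^ β) ^ (1 - a) = C * (L ^ a * (2:ℝ) ^ (α * a + β * (1 - a))) := by
  have h2 : (0:ℝ) < 2 := by norm_num
  rw [Real.mul_rpow (by positivity) (by positivity), Real.mul_rpow hC.le hL.le,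
    Real.mul_rpow hC.le (by positivity), ← Real.rpow_mul h2.le, ← Real.rpow_mul h2.le, Real.rpow_add h2]
  have : C ^ a * C ^ (1 - a) = C := by
    rw [← Real.rpow_add hC]
    simp
  calc C ^ a * L ^ a * (2:ℝ) ^ (α * a) * (C ^ (1 - a) * (2:ℝ) ^ (β * (1 - a))) =
      (C ^ a * C ^ (1 - a)) * (L ^ a * ((2:ℝ) ^ (α * a) * (2:ℝ) ^ (β * (1 - a)))) := by ring
    _ = _ := by rw [this]

theorem q_good (κ q : ℝ) (h0 : 0 < κ) (h1 : κ < 1) (hq1 : 1 < q) (hq2 : q < 2) (hκq : κ * q < 1) :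
    ∃ (y0 : ℕ) (δ : ℝ), 100 ≤ y0 ∧ 0 < δ ∧ δ ≤ 1/2 ∧ ∀ y : ℕ, y0 ≤ y → ∃ C T0 : ℝ, 0 < C ∧ 3 ≤ T0 ∧ ∀ T : ℝ, T0 ≤ T →
    ∀ M : ℕ, 2 ^ M * Real.log y ≤ δ * Real.log T →
    ∫⁻ t, (∫⁻ x in Icc (0:ℝ) 1, {s | Good T y M s}.indicator (fun s => ENNReal.ofReal (Z s ^ (2 * κ))) (t + x)) ^ q ∂mu T ≤
      ENNReal.ofReal (C * Real.log T ^ (κ * q) * (2 : ℝ) ^ (M * ((κ ^ 2 - κ) * q))) := by
  obtain ⟨C1, δ1, hC1, hδ1, hδ1', hpt⟩ := pt_one κ h0 h1
  obtain ⟨y0, δ2, hy0, hδ2, hδ2', hmix⟩ := mixed κ q h0 h1 hq1 hq2 hκq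
  refine ⟨y0, min δ1 δ2, hy0, lt_min hδ1 hδ2, (min_le_left _ _).trans hδ1', ?_⟩
  intro y hy
  obtain ⟨C2, T0, hC2, hT0, hm⟩ := hmix y hy
  have hq0 : 0 < q := by linarith
  refine ⟨C1 ^ q * C2, T0, by positivity, hT0, ?_⟩
  intro T hT M hM
  have hT3 : 3 ≤ T := hT0.trans hT
  have hlogT : 0 < Real.log T := Real.log_pos (by linarith)
  have hM1 : 2 ^ M * Real.log y ≤ δ1 * Real.log T :=
    hM.trans (mul_le_mul_of_nonneg_right (min_le_left _ _) hlogT.le)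
  have hM2 : 2 ^ M * Real.log y ≤ δ2 * Real.log T :=
    hM.trans (mul_le_mul_of_nonneg_right (min_le_right _ _) hlogT.le)
  obtain ⟨hYY, hXY⟩ := hm T hT M hM2
  have hy100 : 100 ≤ y := hy0.trans hy
  -- pointwise
  have hp : ∀ s : ℝ, {s | Good T y M s}.indicator (fun s => ENNReal.ofReal (Z s ^ (2 * κ))) s ≤
      ENNReal.ofReal C1 *
      ({s | Good T y M s}.indicator (fun s => ENNReal.ofReal (Wt 1 T y M (fun _ => ((κ - 1 : ℝ) : ℂ)) s)) s ^ κ *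
       {s | Good T y M s}.indicator (fun s => ENNReal.ofReal (Wt 0 T y M (fun _ => (κ : ℂ)) s)) s ^ (1 - κ)) := by
    intro s
    by_cases hs : s ∈ {s | Good T y M s}
    · rw [Set.indicator_of_mem hs, Set.indicator_of_mem hs, Set.indicator_of_mem hs,
        ENNReal.ofReal_rpow_of_nonneg (q4_Wt_nonneg _ _ _ _ _ _) h0.le,
        ENNReal.ofReal_rpow_of_nonneg (q4_Wt_nonneg _ _ _ _ _ _) (by linarith),
        ← ENNReal.ofReal_mul (Real.rpow_nonneg (q4_Wt_nonneg _ _ _ _ _ _) _), ← ENNReal.ofReal_mul (by linarith)]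
      exact ENNReal.ofReal_le_ofReal (hpt T y M hy100 hT3 hM1 s hs)
    · rw [Set.indicator_of_notMem hs]
      exact bot_le
  have hX1 := q4_ind_meas T y M (fun s => Wt 1 T y M (fun _ => ((κ - 1 : ℝ) : ℂ)) s) (q4_Wt_cont _ _ _ _ _)
  have hY1 := q4_ind_meas T y M (fun s => Wt 0 T y M (fun _ => (κ : ℂ)) s) (q4_Wt_cont _ _ _ _ _)
  have hin : ∀ t : ℝ, ∫⁻ x in Icc (0:ℝ) 1, {s | Good T y M s}.indicator (fun s => ENNReal.ofReal (Z s ^ (2 * κ))) (t + x) ≤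
      ENNReal.ofReal C1 * (XY κ T y M t ^ κ * YY κ T y M t ^ (1 - κ)) := by
    intro t
    calc _ ≤ ∫⁻ x in Icc (0:ℝ) 1, ENNReal.ofReal C1 *
      ({s | Good T y M s}.indicator (fun s => ENNReal.ofReal (Wt 1 T y M (fun _ => ((κ - 1 : ℝ) : ℂ)) s)) (t + x) ^ κ *
       {s | Good T y M s}.indicator (fun s => ENNReal.ofReal (Wt 0 T y M (fun _ => (κ : ℂ)) s)) (t + x) ^ (1 - κ)) :=
          lintegral_mono (fun x => hp (t + x))
      _ = ENNReal.ofReal C1 * ∫⁻ x in Icc (0:ℝ) 1,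
      ({s | Good T y M s}.indicator (fun s => ENNReal.ofReal (Wt 1 T y M (fun _ => ((κ - 1 : ℝ) : ℂ)) s)) (t + x) ^ κ *
       {s | Good T y M s}.indicator (fun s => ENNReal.ofReal (Wt 0 T y M (fun _ => (κ : ℂ)) s)) (t + x) ^ (1 - κ)) :=
          lintegral_const_mul' _ _ ENNReal.ofReal_ne_top
      _ ≤ ENNReal.ofReal C1 * (XY κ T y M t ^ κ * YY κ T y M t ^ (1 - κ)) := by
          gcongr
          exact holder2 ((hX1.comp (measurable_const.add measurable_id)).aemeasurable)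
            ((hY1.comp (measurable_const.add measurable_id)).aemeasurable) h0 (by linarith) (by ring)
  have hXm : Measurable (fun t => XY κ T y M t) := q4_int_meas _ hX1
  have hYm : Measurable (fun t => YY κ T y M t) := q4_int_meas _ hY1
  have hκq0 : 0 < κ * q := by positivity
  calc _ ≤ ∫⁻ t, (ENNReal.ofReal C1 * (XY κ T y M t ^ κ * YY κ T y M t ^ (1 - κ))) ^ q ∂mu T :=
        lintegral_mono (fun t => ENNReal.rpow_le_rpow (hin t) hq0.le)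
    _ = ∫⁻ t, ENNReal.ofReal C1 ^ q * ((XY κ T y M t * YY κ T y M t ^ (q - 1)) ^ (κ * q) *
          (YY κ T y M t * YY κ T y M t ^ (q - 1)) ^ (1 - κ * q)) ∂mu T := by
        refine lintegral_congr (fun t => ?_)
        exact q4_pow _ _ _ κ q h0 h1 hq1 hκq
    _ = ENNReal.ofReal C1 ^ q * ∫⁻ t, (XY κ T y M t * YY κ T y M t ^ (q - 1)) ^ (κ * q) *
          (YY κ T y M t * YY κ T y M t ^ (q - 1)) ^ (1 - κ * q) ∂mu T := by
        refine lintegral_const_mul' _ _ ?_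
        exact (ENNReal.rpow_lt_top_of_nonneg hq0.le ENNReal.ofReal_ne_top).ne
    _ ≤ ENNReal.ofReal C1 ^ q * ((∫⁻ t, XY κ T y M t * YY κ T y M t ^ (q - 1) ∂mu T) ^ (κ * q) *
          (∫⁻ t, YY κ T y M t * YY κ T y M t ^ (q - 1) ∂mu T) ^ (1 - κ * q)) := by
        gcongr
        exact holder2 ((hXm.mul (hYm.pow_const _)).aemeasurable) ((hYm.mul (hYm.pow_const _)).aemeasurable)
          hκq0 (by linarith) (by ring)
    _ ≤ ENNReal.ofReal C1 ^ q * (ENNReal.ofReal (C2 * Real.log T * (2 : ℝ) ^ (M * (κ ^ 2 * q - 1))) ^ (κ * q) *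
          ENNReal.ofReal (C2 * (2 : ℝ) ^ (M * (κ ^ 2 * q))) ^ (1 - κ * q)) := by
        have e1 : 0 ≤ 1 - κ * q := by linarith
        gcongr
    _ = ENNReal.ofReal (C1 ^ q * C2 * Real.log T ^ (κ * q) * (2 : ℝ) ^ (M * ((κ ^ 2 - κ) * q))) := by
        rw [ENNReal.ofReal_rpow_of_nonneg (by linarith) hq0.le,
          ENNReal.ofReal_rpow_of_nonneg (by positivity) hκq0.le,
          ENNReal.ofReal_rpow_of_nonneg (by positivity) (by linarith),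
          ← ENNReal.ofReal_mul (by positivity), ← ENNReal.ofReal_mul (by positivity),
          q4_num C2 (Real.log T) _ _ (κ * q) hC2 hlogT]
        congr 1
        have : (M:ℝ) * (κ ^ 2 * q - 1) * (κ * q) + (M:ℝ) * (κ ^ 2 * q) * (1 - κ * q) = M * ((κ ^ 2 - κ) * q) := by ring
        rw [this]
        ring

/-- first bad block v -/
def Bad (T : ℝ) (y v : ℕ) (s : ℝ) : Prop :=
  Good T y (v - 1) s ∧ (KT T y v : ℝ) / 100 < ‖Ps (blk y v) (fun _ => 1) (Xp s)‖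

private lemma q4_Bad_meas (T : ℝ) (y v : ℕ) : MeasurableSet {s | Bad T y v s} := by
  have : {s | Bad T y v s} = {s | Good T y (v - 1) s} ∩
      {s | (KT T y v : ℝ) / 100 < ‖Ps (blk y v) (fun _ => 1) (Xp s)‖} := by
    ext s
    simp only [Bad, Set.mem_ofPred_eq, Set.mem_inter_iff]
  rw [this]
  exact (q4_Good_meas T y (v - 1)).inter (isOpen_lt continuous_const (q4_Ps_cont _ _).norm).measurableSet

private lemma q4_KT_pos {T : ℝ} {y v : ℕ} (hT : 0 < Real.log T) (hy : 0 < Real.log y) : 1 ≤ KT T y v := by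
  unfold KT
  rw [Nat.one_le_ceil_iff]
  positivity

/-- the weight of the first bad block -/
private noncomputable def q4_W (T : ℝ) (y v : ℕ) (s : ℝ) : ℝ :=
  ‖(((100 / KT T y v : ℝ) : ℂ) * Ps (blk y v) (fun _ => 1) (Xp s)) ^ (KT T y v)‖ ^ 2

private lemma q4_W_cont (T : ℝ) (y v : ℕ) : Continuous (fun s => q4_W T y v s) := by
  unfold q4_W
  exact ((((continuous_const.mul (q4_Ps_cont _ _)).pow _).norm).pow 2)

private lemma q4_W_nonneg (T : ℝ) (y v : ℕ) (s : ℝ) : 0 ≤ q4_W T y v s := by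
  unfold q4_W; positivity

private lemma q4_W_one {T : ℝ} {y v : ℕ} (hK : 1 ≤ KT T y v) {s : ℝ}
    (hs : (KT T y v : ℝ) / 100 < ‖Ps (blk y v) (fun _ => 1) (Xp s)‖) : 1 ≤ q4_W T y v s := by
  unfold q4_W
  rw [norm_pow, norm_mul, Complex.norm_real, Real.norm_of_nonneg (by positivity)]
  apply one_le_pow₀
  apply one_le_pow₀
  have hK0 : (0:ℝ) < KT T y v := by exact_mod_cast hK
  rw [div_lt_iff₀ (by norm_num)] at hs
  rw [div_mul_eq_mul_div, le_div_iff₀ hK0]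
  linarith

private lemma q4_final (C1 C2 C3 D1 D0 L κ w K : ℝ) (hC1 : 0 ≤ C1) (hC2 : 0 < C2) (hC3 : 0 < C3) (hD1 : 0 < D1)
    (hD0 : 0 < D0) (hL : 0 < L) (h0 : 0 < κ) (h1 : κ < 1) :
    C1 * ((C2 * L * D1 * Real.exp ((κ ^ 2 - 1) * w * Real.log 2 + 1) * Real.exp (-K)) ^ κ *
      (C3 * D0 * Real.exp (κ ^ 2 * w * Real.log 2 + 1) * Real.exp (-K)) ^ (1 - κ)) =
    (C1 * (C2 * D1) ^ κ * (C3 * D0) ^ (1 - κ) * Real.exp 1 * (2:ℝ) ^ (κ - κ ^ 2)) * L ^ κ *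
      (2:ℝ) ^ ((w + 1) * (κ ^ 2 - κ)) * Real.exp (-K) := by
  have e1 : C2 * L * D1 * Real.exp ((κ ^ 2 - 1) * w * Real.log 2 + 1) * Real.exp (-K) =
      (C2 * D1) * L * Real.exp ((κ ^ 2 - 1) * w * Real.log 2 + 1 - K) := by
    rw [show (κ ^ 2 - 1) * w * Real.log 2 + 1 - K = ((κ ^ 2 - 1) * w * Real.log 2 + 1) + (-K) by ring,
      Real.exp_add _ (-K)]
    ring
  have e2 : C3 * D0 * Real.exp (κ ^ 2 * w * Real.log 2 + 1) * Real.exp (-K) =
      (C3 * D0) * Real.exp (κ ^ 2 * w * Real.log 2 + 1 - K) := by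
    rw [show κ ^ 2 * w * Real.log 2 + 1 - K = (κ ^ 2 * w * Real.log 2 + 1) + (-K) by ring,
      Real.exp_add _ (-K)]
    ring
  rw [e1, e2, Real.mul_rpow (by positivity) (Real.exp_nonneg _), Real.mul_rpow (by positivity) hL.le,
    Real.mul_rpow (by positivity) (Real.exp_nonneg _), ← Real.exp_mul, ← Real.exp_mul]
  have e3 : (2:ℝ) ^ (κ - κ ^ 2) = Real.exp (Real.log 2 * (κ - κ ^ 2)) := Real.rpow_def_of_pos (by norm_num) _
  have e4 : (2:ℝ) ^ ((w + 1) * (κ ^ 2 - κ)) = Real.exp (Real.log 2 * ((w + 1) * (κ ^ 2 - κ))) :=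
    Real.rpow_def_of_pos (by norm_num) _
  have e5 : Real.exp (((κ ^ 2 - 1) * w * Real.log 2 + 1 - K) * κ) *
      Real.exp ((κ ^ 2 * w * Real.log 2 + 1 - K) * (1 - κ)) =
      Real.exp 1 * Real.exp (Real.log 2 * (κ - κ ^ 2)) * Real.exp (Real.log 2 * ((w + 1) * (κ ^ 2 - κ))) *
        Real.exp (-K) := by
    rw [← Real.exp_add, ← Real.exp_add, ← Real.exp_add, ← Real.exp_add]
    congr 1
    ring
  rw [e3, e4]
  calc C1 * ((C2 * D1) ^ κ * L ^ κ * Real.exp (((κ ^ 2 - 1) * w * Real.log 2 + 1 - K) * κ) *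
        ((C3 * D0) ^ (1 - κ) * Real.exp ((κ ^ 2 * w * Real.log 2 + 1 - K) * (1 - κ)))) =
      C1 * (C2 * D1) ^ κ * (C3 * D0) ^ (1 - κ) * L ^ κ *
        (Real.exp (((κ ^ 2 - 1) * w * Real.log 2 + 1 - K) * κ) *
          Real.exp ((κ ^ 2 * w * Real.log 2 + 1 - K) * (1 - κ))) := by ring
    _ = _ := by rw [e5]; ring

theorem bad_l1 (κ : ℝ) (h0 : 0 < κ) (h1 : κ < 1) :
    ∃ (y0 : ℕ) (δ : ℝ), 100 ≤ y0 ∧ 0 < δ ∧ δ ≤ 1/2 ∧ ∀ y : ℕ, y0 ≤ y → ∃ C T0 : ℝ, 0 < C ∧ 3 ≤ T0 ∧ ∀ T : ℝ, T0 ≤ T →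
    ∀ v : ℕ, 1 ≤ v → 2 ^ v * Real.log y ≤ δ * Real.log T →
    ∫⁻ s, {s | Bad T y v s}.indicator (fun s => ENNReal.ofReal (Z s ^ (2 * κ))) s ∂mu T ≤
      ENNReal.ofReal (C * Real.log T ^ κ * (2 : ℝ) ^ (v * (κ ^ 2 - κ)) * Real.exp (-(KT T y v : ℝ))) := by
  obtain ⟨C1, δ1, hC1, hδ1, hδ1', hpt⟩ := pt_one κ h0 h1
  obtain ⟨C2, y2, δ2, hC2, hy2, hδ2, hδ2', hL1⟩ := LL 1 le_rfl 1 le_rfl
  obtain ⟨C3, y3, δ3, hC3, hy3, hδ3, hδ3', hL0⟩ := LL 0 (by norm_num) 1 le_rfl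
  obtain ⟨y4, hy4, hSg⟩ := Sg_const
  refine ⟨max y2 (max y3 y4), min δ1 (min δ2 δ3), hy2.trans (le_max_left _ _),
    lt_min hδ1 (lt_min hδ2 hδ3), (min_le_left _ _).trans hδ1', ?_⟩
  intro y hy
  have hyy2 : y2 ≤ y := (le_max_left _ _).trans hy
  have hyy3 : y3 ≤ y := (le_max_left _ _).trans ((le_max_right _ _).trans hy)
  have hyy4 : y4 ≤ y := (le_max_right _ _).trans ((le_max_right _ _).trans hy)
  have hy100 : 100 ≤ y := hy2.trans hyy2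
  have hlogy : 0 < Real.log y := Real.log_pos (by exact_mod_cast (by omega : 1 < y))
  obtain ⟨T1, hT1, hL1'⟩ := hL1 y hyy2 (fun _ => 1) 1 ‖(1:ℂ)‖ (dp_const _ 1) 1 one_pos
  obtain ⟨T2, hT2, hL0'⟩ := hL0 y hyy3 (fun _ => 1) 1 ‖(1:ℂ)‖ (dp_const _ 1) 1 one_pos
  obtain ⟨D1, hD1⟩ : ∃ D1 : ℝ, D1 = (∫ θ, ‖(1:ℂ)‖ ^ 2 * DD 1 0 (blk y 0) (Xt θ) ∂PT) + 1 := ⟨_, rfl⟩
  obtain ⟨D0, hD0⟩ : ∃ D0 : ℝ, D0 = (∫ θ, ‖(1:ℂ)‖ ^ 2 * DD 0 0 (blk y 0) (Xt θ) ∂PT) + 1 := ⟨_, rfl⟩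
  have hDD : ∀ (a : ℕ) (X : ℕ → ℂ), 0 ≤ ‖(1:ℂ)‖ ^ 2 * DD a 0 (blk y 0) X := by
    intro a X
    unfold DD
    exact mul_nonneg (by positivity) (pow_nonneg (Finset.prod_nonneg (fun _ _ => norm_nonneg _)) _)
  have hD1p : 0 < D1 := by
    have : 0 ≤ ∫ θ, ‖(1:ℂ)‖ ^ 2 * DD 1 0 (blk y 0) (Xt θ) ∂PT := integral_nonneg (fun θ => hDD 1 _)
    linarith
  have hD0p : 0 < D0 := by
    have : 0 ≤ ∫ θ, ‖(1:ℂ)‖ ^ 2 * DD 0 0 (blk y 0) (Xt θ) ∂PT := integral_nonneg (fun θ => hDD 0 _)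
    linarith
  refine ⟨C1 * (C2 * D1) ^ κ * (C3 * D0) ^ (1 - κ) * Real.exp 1 * (2:ℝ) ^ (κ - κ ^ 2), max T1 T2, ?_,
    hT1.trans (le_max_left _ _), ?_⟩
  · have : 0 < C1 := by linarith
    positivity
  intro T hT v hv hvT
  have hTT1 : T1 ≤ T := (le_max_left _ _).trans hT
  have hTT2 : T2 ≤ T := (le_max_right _ _).trans hT
  have hT3 : 3 ≤ T := hT1.trans hTT1
  have hlogT : 0 < Real.log T := Real.log_pos (by linarith)
  have hv1 : 2 ^ v * Real.log y ≤ δ1 * Real.log T :=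
    hvT.trans (mul_le_mul_of_nonneg_right (min_le_left _ _) hlogT.le)
  have hv2 : 2 ^ v * Real.log y ≤ δ2 * Real.log T :=
    hvT.trans (mul_le_mul_of_nonneg_right ((min_le_right _ _).trans (min_le_left _ _)) hlogT.le)
  have hv3 : 2 ^ v * Real.log y ≤ δ3 * Real.log T :=
    hvT.trans (mul_le_mul_of_nonneg_right ((min_le_right _ _).trans (min_le_right _ _)) hlogT.le)
  have hv1' : 2 ^ (v - 1) * Real.log y ≤ δ1 * Real.log T := by
    refine le_trans ?_ hv1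
    apply mul_le_mul_of_nonneg_right _ hlogy.le
    exact pow_le_pow_right₀ (by norm_num) (by omega)
  have hK : 1 ≤ KT T y v := q4_KT_pos hlogT hlogy
  -- the two means
  have m1 := (hL1' T hTT1 v hv2 (fun _ => ((κ - 1 : ℝ) : ℂ)) (by
    intro p
    rw [Complex.norm_real, Real.norm_eq_abs, abs_le]
    constructor <;> linarith)).2 (fun _ => 1) (by intro p; simp) hv
  have m0 := (hL0' T hTT2 v hv3 (fun _ => (κ : ℂ)) (by
    intro p
    rw [Complex.norm_real, Real.norm_eq_abs, abs_le]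
    constructor <;> linarith)).2 (fun _ => 1) (by intro p; simp) hv
  rw [← hD1] at m1
  rw [← hD0] at m0
  have s1 := hSg y hyy4 1 (κ - 1) (v - 1) le_rfl
  have s0 := hSg y hyy4 0 κ (v - 1) (by norm_num)
  have hcv : (((v - 1 : ℕ) : ℕ) : ℝ) = (v : ℝ) - 1 := by
    rw [Nat.cast_sub hv]; simp
  have hκ2 : κ ^ 2 ≤ 1 := by nlinarith
  have s1' : Sg 1 (fun _ => ((κ - 1 : ℝ) : ℂ)) y (v - 1) ≤ (κ ^ 2 - 1) * ((v:ℝ) - 1) * Real.log 2 + 1 := by
    have e1 : (((1:ℕ):ℝ) + (κ - 1)) ^ 2 - ((1:ℕ):ℝ) = κ ^ 2 - 1 := by push_cast; ring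
    rw [e1, hcv] at s1
    have h2 : |κ ^ 2 - 1| ≤ 1 := by
      rw [abs_le]; constructor <;> nlinarith [sq_nonneg κ]
    have := (abs_le.1 s1).2
    linarith
  have s0' : Sg 0 (fun _ => (κ : ℂ)) y (v - 1) ≤ κ ^ 2 * ((v:ℝ) - 1) * Real.log 2 + 1 := by
    have e1 : (((0:ℕ):ℝ) + κ) ^ 2 - ((0:ℕ):ℝ) = κ ^ 2 := by push_cast; ring
    rw [e1, hcv] at s0
    have h2 : |κ ^ 2| ≤ 1 := by
      rw [abs_of_nonneg (sq_nonneg κ)]; exact hκ2
    have := (abs_le.1 s0).2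
    linarith
  -- pointwise bound
  have hp : ∀ s : ℝ, {s | Bad T y v s}.indicator (fun s => ENNReal.ofReal (Z s ^ (2 * κ))) s ≤
      ENNReal.ofReal C1 *
      (ENNReal.ofReal (Wt 1 T y (v - 1) (fun _ => ((κ - 1 : ℝ) : ℂ)) s * q4_W T y v s) ^ κ *
       ENNReal.ofReal (Wt 0 T y (v - 1) (fun _ => (κ : ℂ)) s * q4_W T y v s) ^ (1 - κ)) := by
    intro s
    by_cases hs : s ∈ {s | Bad T y v s}
    · rw [Set.indicator_of_mem hs]
      have hgood : Good T y (v - 1) s := hs.1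
      have hW1 : 1 ≤ q4_W T y v s := q4_W_one hK hs.2
      have hA := q4_Wt_nonneg 1 T y (v - 1) (fun _ => ((κ - 1 : ℝ) : ℂ)) s
      have hB := q4_Wt_nonneg 0 T y (v - 1) (fun _ => (κ : ℂ)) s
      have hW0 := q4_W_nonneg T y v s
      rw [ENNReal.ofReal_rpow_of_nonneg (mul_nonneg hA hW0) h0.le,
        ENNReal.ofReal_rpow_of_nonneg (mul_nonneg hB hW0) (by linarith),
        ← ENNReal.ofReal_mul (Real.rpow_nonneg (mul_nonneg hA hW0) _), ← ENNReal.ofReal_mul (by linarith)]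
      apply ENNReal.ofReal_le_ofReal
      refine (hpt T y (v - 1) hy100 hT3 hv1' s hgood).trans ?_
      rw [Real.mul_rpow hA hW0, Real.mul_rpow hB hW0]
      have hWW : q4_W T y v s ^ κ * q4_W T y v s ^ (1 - κ) = q4_W T y v s := by
        rw [← Real.rpow_add (by linarith)]
        simp
      have hAB : 0 ≤ Wt 1 T y (v - 1) (fun _ => ((κ - 1 : ℝ) : ℂ)) s ^ κ *
          Wt 0 T y (v - 1) (fun _ => (κ : ℂ)) s ^ (1 - κ) := by positivity
      calc C1 * (Wt 1 T y (v - 1) (fun _ => ((κ - 1 : ℝ) : ℂ)) s ^ κ *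
            Wt 0 T y (v - 1) (fun _ => (κ : ℂ)) s ^ (1 - κ)) ≤
          C1 * ((Wt 1 T y (v - 1) (fun _ => ((κ - 1 : ℝ) : ℂ)) s ^ κ *
            Wt 0 T y (v - 1) (fun _ => (κ : ℂ)) s ^ (1 - κ)) * q4_W T y v s) := by
            apply mul_le_mul_of_nonneg_left _ (by linarith)
            exact le_mul_of_one_le_right hAB hW1
        _ = C1 * ((Wt 1 T y (v - 1) (fun _ => ((κ - 1 : ℝ) : ℂ)) s ^ κ *
            Wt 0 T y (v - 1) (fun _ => (κ : ℂ)) s ^ (1 - κ)) *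
              (q4_W T y v s ^ κ * q4_W T y v s ^ (1 - κ))) := by rw [hWW]
        _ = _ := by ring
    · rw [Set.indicator_of_notMem hs]
      exact bot_le
  have hm1 : Measurable (fun s => ENNReal.ofReal (Wt 1 T y (v - 1) (fun _ => ((κ - 1 : ℝ) : ℂ)) s * q4_W T y v s)) :=
    ((q4_Wt_cont _ _ _ _ _).mul (q4_W_cont _ _ _)).measurable.ennreal_ofReal
  have hm0 : Measurable (fun s => ENNReal.ofReal (Wt 0 T y (v - 1) (fun _ => (κ : ℂ)) s * q4_W T y v s)) :=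
    ((q4_Wt_cont _ _ _ _ _).mul (q4_W_cont _ _ _)).measurable.ennreal_ofReal
  have b1 : ∫⁻ s, ENNReal.ofReal (Wt 1 T y (v - 1) (fun _ => ((κ - 1 : ℝ) : ℂ)) s * q4_W T y v s) ∂mu T ≤
      ENNReal.ofReal (C2 * Real.log T * D1 * Real.exp ((κ ^ 2 - 1) * ((v:ℝ) - 1) * Real.log 2 + 1) *
        Real.exp (-(KT T y v : ℝ))) := by
    refine le_trans (le_of_eq ?_) (m1.trans ?_)
    · refine lintegral_congr (fun s => ?_)
      congr 1
      unfold Wt q4_W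
      simp only [norm_one, one_pow, one_mul]
      ring
    · apply ENNReal.ofReal_le_ofReal
      rw [pow_one]
      gcongr
  have b0 : ∫⁻ s, ENNReal.ofReal (Wt 0 T y (v - 1) (fun _ => (κ : ℂ)) s * q4_W T y v s) ∂mu T ≤
      ENNReal.ofReal (C3 * D0 * Real.exp (κ ^ 2 * ((v:ℝ) - 1) * Real.log 2 + 1) *
        Real.exp (-(KT T y v : ℝ))) := by
    refine le_trans (le_of_eq ?_) (m0.trans ?_)
    · refine lintegral_congr (fun s => ?_)
      congr 1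
      unfold Wt q4_W
      simp only [norm_one, one_pow, one_mul]
      ring
    · apply ENNReal.ofReal_le_ofReal
      rw [pow_zero, mul_one]
      gcongr
  calc _ ≤ ∫⁻ s, ENNReal.ofReal C1 *
      (ENNReal.ofReal (Wt 1 T y (v - 1) (fun _ => ((κ - 1 : ℝ) : ℂ)) s * q4_W T y v s) ^ κ *
       ENNReal.ofReal (Wt 0 T y (v - 1) (fun _ => (κ : ℂ)) s * q4_W T y v s) ^ (1 - κ)) ∂mu T :=
        lintegral_mono hp
    _ = ENNReal.ofReal C1 * ∫⁻ s,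
      (ENNReal.ofReal (Wt 1 T y (v - 1) (fun _ => ((κ - 1 : ℝ) : ℂ)) s * q4_W T y v s) ^ κ *
       ENNReal.ofReal (Wt 0 T y (v - 1) (fun _ => (κ : ℂ)) s * q4_W T y v s) ^ (1 - κ)) ∂mu T :=
        lintegral_const_mul' _ _ ENNReal.ofReal_ne_top
    _ ≤ ENNReal.ofReal C1 * ((∫⁻ s, ENNReal.ofReal (Wt 1 T y (v - 1) (fun _ => ((κ - 1 : ℝ) : ℂ)) s * q4_W T y v s) ∂mu T) ^ κ *
       (∫⁻ s, ENNReal.ofReal (Wt 0 T y (v - 1) (fun _ => (κ : ℂ)) s * q4_W T y v s) ∂mu T) ^ (1 - κ)) := by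
        gcongr
        exact holder2 hm1.aemeasurable hm0.aemeasurable h0 (by linarith) (by ring)
    _ ≤ ENNReal.ofReal C1 * (ENNReal.ofReal (C2 * Real.log T * D1 * Real.exp ((κ ^ 2 - 1) * ((v:ℝ) - 1) * Real.log 2 + 1) *
        Real.exp (-(KT T y v : ℝ))) ^ κ *
       ENNReal.ofReal (C3 * D0 * Real.exp (κ ^ 2 * ((v:ℝ) - 1) * Real.log 2 + 1) *
        Real.exp (-(KT T y v : ℝ))) ^ (1 - κ)) := by
        have e1 : 0 ≤ 1 - κ := by linarith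
        gcongr
    _ = _ := by
        rw [ENNReal.ofReal_rpow_of_nonneg (by positivity) h0.le,
          ENNReal.ofReal_rpow_of_nonneg (by positivity) (by linarith),
          ← ENNReal.ofReal_mul (by positivity), ← ENNReal.ofReal_mul (by linarith),
          q4_final C1 C2 C3 D1 D0 (Real.log T) κ ((v:ℝ) - 1) (KT T y v) (by linarith) hC2 hC3 hD1p hD0p hlogT h0 h1]
        congr 4
        ring

end CZ
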