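import Pool.Agent.Lib.MP_9eae41_pr.Q4

set_option autoImplicit false

open Complex MeasureTheory Set Filter Topology
open scoped ComplexConjugate ENNReal

namespace CZ

/-! Row Q5 (250 lines): the q-th moment. [0,1] is split by the first bad block v <= J or the good set; for v use interp
between bad_l1 and q_good with q' (q < q' < min(2, 1/k)), then sum_rpow_weight with weights (2^v/2^J)^eps and adm_bad. -/

private lemma q5_Z_cont : Continuous Z := by
  unfold Z
  refine Continuous.norm ?_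
  rw [continuous_iff_continuousAt]
  intro t
  have hne : (1 / 2 + t * I : ℂ) ≠ 1 := by
    intro h
    have := congrArg Complex.re h
    simp at this
  exact ContinuousAt.comp (f := fun t : ℝ => (1 / 2 + t * I : ℂ)) (g := riemannZeta)
    (differentiableAt_riemannZeta hne).continuousAt (by fun_prop)

private lemma q5_Ps_cont (s : Finset ℕ) (c : ℕ → ℂ) : Continuous (fun t : ℝ => Ps s c (Xp t)) := by
  unfold Ps
  refine continuous_finset_sum _ fun p _ => ?_
  refine (continuous_const.mul ?_).mul continuous_const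
  exact (continuous_apply p).comp Xp_cont

private lemma q5_good_meas (T : ℝ) (y M : ℕ) : MeasurableSet {s : ℝ | Good T y M s} := by
  have : {s : ℝ | Good T y M s} = ⋂ n ∈ Finset.Icc 1 M,
      {s : ℝ | ‖Ps (blk y n) (fun _ => 1) (Xp s)‖ ≤ KT T y n / 100} := by
    ext s
    simp only [Good, mem_setOf_eq, mem_iInter]
  rw [this]
  refine Finset.measurableSet_biInter _ fun n _ => ?_
  exact (isClosed_le (q5_Ps_cont _ _).norm continuous_const).measurableSet

private lemma q5_bad_meas (T : ℝ) (y v : ℕ) : MeasurableSet {s : ℝ | Bad T y v s} := by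
  have : {s : ℝ | Bad T y v s} = {s | Good T y (v - 1) s} ∩
      {s : ℝ | (KT T y v : ℝ) / 100 < ‖Ps (blk y v) (fun _ => 1) (Xp s)‖} := rfl
  rw [this]
  exact (q5_good_meas T y (v - 1)).inter
    (isOpen_lt continuous_const (q5_Ps_cont _ _).norm).measurableSet

private lemma q5_zp_meas (κ : ℝ) : Measurable (fun s : ℝ => ENNReal.ofReal (Z s ^ (2 * κ))) := by
  exact (q5_Z_cont.measurable.pow_const _).ennreal_ofReal

/-- integral over [0,1] of a translate: measurable in t -/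
private lemma q5_int_meas {g : ℝ → ℝ≥0∞} (hg : Measurable g) :
    Measurable (fun t : ℝ => ∫⁻ x in Icc (0:ℝ) 1, g (t + x)) := by
  have h : Measurable (fun p : ℝ × ℝ => g (p.1 + p.2)) := hg.comp (measurable_fst.add measurable_snd)
  exact h.lintegral_prod_right'

private lemma q5_l1 {T : ℝ} (hT : 1 ≤ T) {g : ℝ → ℝ≥0∞} (hg : Measurable g) :
    ∫⁻ t, (∫⁻ x in Icc (0:ℝ) 1, g (t + x)) ∂mu T ≤ 3 * ∫⁻ t, g t ∂mu T := by
  have h : Measurable (fun p : ℝ × ℝ => g (p.1 + p.2)) := hg.comp (measurable_fst.add measurable_snd)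
  have : SFinite (mu T) := by unfold mu; infer_instance
  rw [lintegral_lintegral_swap h.aemeasurable]
  calc ∫⁻ x in Icc (0:ℝ) 1, ∫⁻ t, g (t + x) ∂mu T
      ≤ ∫⁻ x in Icc (0:ℝ) 1, (3 * ∫⁻ t, g t ∂mu T) := by
        refine setLIntegral_mono' measurableSet_Icc fun x hx => ?_
        exact mu_shift hT hx.1 hx.2 hg
    _ = 3 * ∫⁻ t, g t ∂mu T := by
        rw [setLIntegral_const]
        simp

theorem qmom (κ q : ℝ) (h0 : 0 < κ) (h1 : κ < 1) (hq1 : 1 < q) (hq2 : q < 2) (hκq : κ * q < 1) :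
    ∃ C T0 : ℝ, 0 < C ∧ 3 ≤ T0 ∧ ∀ T : ℝ, T0 ≤ T →
    ∫⁻ t, (∫⁻ x in Icc (0:ℝ) 1, ENNReal.ofReal (Z (t + x) ^ (2 * κ))) ^ q ∂mu T ≤
      ENNReal.ofReal (C * Real.log T ^ (κ ^ 2 * q)) := by
  -- the larger exponent
  obtain ⟨q', hqq', hq'2, hκq'⟩ : ∃ q' : ℝ, q < q' ∧ q' < 2 ∧ κ * q' < 1 := by
    have h : q < min 2 (1 / κ) := by
      refine lt_min hq2 ?_
      rw [lt_div_iff₀ h0]
      linarith
    obtain ⟨r, hr1, hr2⟩ := exists_between h
    refine ⟨r, hr1, hr2.trans_le (min_le_left _ _), ?_⟩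
    have := hr2.trans_le (min_le_right _ _)
    rw [lt_div_iff₀ h0] at this
    linarith
  have hq'1 : 1 < q' := hq1.trans hqq'
  set b : ℝ := (q - 1) / (q' - 1) with hb
  set a : ℝ := (q' - q) / (q' - 1) with ha
  have hd : 0 < q' - 1 := by linarith
  have hb0 : 0 < b := div_pos (by linarith) hd
  have ha0 : 0 < a := div_pos (by linarith) hd
  have hab : a + b = 1 := by
    rw [ha, hb]
    field_simp
    ring
  have habq : a + b * q' = q := by
    rw [ha, hb]
    field_simp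
    ring
  obtain ⟨ya, δa, hya, hδa0, hδa, Ha⟩ := q_good κ q h0 h1 hq1 hq2 hκq
  obtain ⟨yb, δb, hyb, hδb0, hδb, Hb⟩ := q_good κ q' h0 h1 hq'1 hq'2 hκq'
  obtain ⟨yc, δc, hyc, hδc0, hδc, Hc⟩ := bad_l1 κ h0 h1
  set y : ℕ := max ya (max yb yc) with hy
  set δ : ℝ := min δa (min δb δc) with hδ
  have hδ0 : 0 < δ := lt_min hδa0 (lt_min hδb0 hδc0)
  have hδ1 : δ ≤ δa := min_le_left _ _
  have hδ2 : δ ≤ δb := (min_le_right _ _).trans (min_le_left _ _)
  have hδ3 : δ ≤ δc := (min_le_right _ _).trans (min_le_right _ _)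
  have hδh : δ ≤ 1 / 2 := hδ1.trans hδa
  have hy1 : ya ≤ y := le_max_left _ _
  have hy2 : yb ≤ y := (le_max_left _ _).trans (le_max_right _ _)
  have hy3 : yc ≤ y := (le_max_right _ _).trans (le_max_right _ _)
  have hy100 : 100 ≤ y := hya.trans hy1
  obtain ⟨Ca, Ta, hCa, hTa, Ha'⟩ := Ha y hy1
  obtain ⟨Cb, Tb, hCb, hTb, Hb'⟩ := Hb y hy2
  obtain ⟨Cc, Tc, hCc, hTc, Hc'⟩ := Hc y hy3
  obtain ⟨Td, hTd, Hd⟩ := exists_J δ hδ0 y (by omega)
  set g : ℝ := (κ - κ ^ 2) * q with hg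
  have hκ2 : 0 < κ - κ ^ 2 := by nlinarith
  have hg0 : 0 < g := mul_pos hκ2 (by linarith)
  obtain ⟨Ce, hCe, He⟩ := adm_bad (g + (q - 1)) a (by linarith) ha0
  have hly : 0 < Real.log y := Real.log_pos (by exact_mod_cast (by omega : 1 < y))
  -- constants
  set W : ℝ := 3 with hW
  set A1 : ℝ := Ca * (δ / (2 * Real.log y)) ^ (-g) with hA1
  set A2 : ℝ := (3 * Cc) ^ a * (Cb * (2 : ℝ) ^ ((κ - κ ^ 2) * q')) ^ b * Real.log y ^ g with hA2
  have hA10 : 0 < A1 := by positivity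
  have hA20 : 0 < A2 := by positivity
  refine ⟨W ^ (q - 1) * (A1 + A2 * Ce), max (max Ta Tb) (max Tc Td), by positivity,
    hTa.trans ((le_max_left _ _).trans (le_max_left _ _)), ?_⟩
  intro T hT
  have hTa' : Ta ≤ T := ((le_max_left _ _).trans (le_max_left _ _)).trans hT
  have hTb' : Tb ≤ T := ((le_max_right _ _).trans (le_max_left _ _)).trans hT
  have hTc' : Tc ≤ T := ((le_max_left _ _).trans (le_max_right _ _)).trans hT
  have hTd' : Td ≤ T := ((le_max_right _ _).trans (le_max_right _ _)).trans hT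
  have hT3 : 3 ≤ T := hTa.trans hTa'
  obtain ⟨J, hJ1, hJ2, hJ3⟩ := Hd T hTd'
  set L : ℝ := Real.log T with hL
  have hL0 : 0 < L := Real.log_pos (by linarith)
  have hLT : L = Real.log T := rfl
  have hJL : (2 : ℝ) ^ J * Real.log y ≤ 1 / 2 * L := hJ2.trans (by gcongr)
  -- numbers a_v
  set av : ℕ → ℝ := fun v => 2 ^ v * Real.log y / L with hav
  have hav0 : ∀ v, 0 < av v := fun v => by simp only [hav]; positivity
  -- the pieces
  set gz : ℝ → ℝ≥0∞ := fun s => ENNReal.ofReal (Z s ^ (2 * κ)) with hgz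
  have hgzm : Measurable gz := q5_zp_meas κ
  set h : ℕ → ℝ → ℝ≥0∞ := fun v => if v = 0 then {s | Good T y J s}.indicator gz
    else {s | Bad T y v s}.indicator gz with hh
  have hhm : ∀ v, Measurable (h v) := by
    intro v
    simp only [hh]
    split_ifs
    · exact hgzm.indicator (q5_good_meas T y J)
    · exact hgzm.indicator (q5_bad_meas T y v)
  set f : ℕ → ℝ → ℝ≥0∞ := fun v t => ∫⁻ x in Icc (0:ℝ) 1, h v (t + x) with hf
  have hfm : ∀ v, Measurable (f v) := fun v => q5_int_meas (hhm v)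
  have hcover : ∀ s, gz s ≤ ∑ v ∈ Finset.range (J + 1), h v s := by
    intro s
    rcases first_bad T y J s with hgd | ⟨v, hv, hb1, hb2⟩
    · calc gz s = h 0 s := by
            simp only [hh, if_true]
            rw [indicator_of_mem]
            exact hgd
        _ ≤ _ := Finset.single_le_sum (f := fun v => h v s) (fun _ _ => bot_le) (by simp)
    · have hv' := Finset.mem_Icc.1 hv
      calc gz s = h v s := by
            simp only [hh]
            rw [if_neg (by omega), indicator_of_mem]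
            exact ⟨hb1, hb2⟩
        _ ≤ _ := Finset.single_le_sum (f := fun v => h v s) (fun _ _ => bot_le)
            (Finset.mem_range.2 (by omega))
  have hsumf : ∀ t, ∫⁻ x in Icc (0:ℝ) 1, gz (t + x) ≤ ∑ v ∈ Finset.range (J + 1), f v t := by
    intro t
    calc ∫⁻ x in Icc (0:ℝ) 1, gz (t + x) ≤ ∫⁻ x in Icc (0:ℝ) 1, ∑ v ∈ Finset.range (J + 1), h v (t + x) :=
          lintegral_mono fun x => hcover (t + x)
      _ = ∑ v ∈ Finset.range (J + 1), f v t := by
          rw [lintegral_finsetSum]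
          intro v _
          exact (hhm v).comp (measurable_const.add measurable_id)
  -- weights
  set w : ℕ → ℝ := fun v => if v = 0 then 1 else 2 ^ v / 2 ^ J with hw
  have hw0 : ∀ v ∈ Finset.range (J + 1), 0 < w v := by
    intro v _
    simp only [hw]
    split_ifs <;> positivity
  have hwW : ∑ v ∈ Finset.range (J + 1), w v ≤ W := by
    rw [Finset.sum_range_succ']
    have e1 : ∀ v ∈ Finset.range J, w (v + 1) = 2 * (2 ^ v / 2 ^ J) := by
      intro v _
      simp only [hw]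
      rw [if_neg (by omega), pow_succ]
      ring
    rw [Finset.sum_congr rfl e1, ← Finset.mul_sum, ← Finset.sum_div, geom_sum_eq (by norm_num)]
    simp only [hw, if_true]
    have e2 : (0 : ℝ) < 2 ^ J := by positivity
    have e3 : ((2 : ℝ) ^ J - 1) / (2 - 1) / 2 ^ J ≤ 1 := by
      rw [div_le_iff₀ e2]
      linarith
    rw [hW]
    linarith
  -- integrals of the pieces
  set P : ℝ := L ^ (κ ^ 2 * q) with hP
  have hP0 : 0 < P := by positivity
  have hPL : L ^ (κ * q) * L ^ (-g) = P := by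
    rw [hP, ← Real.rpow_add hL0]
    congr 1
    rw [hg]
    ring
  have hgood : ∫⁻ t, f 0 t ^ q ∂mu T ≤ ENNReal.ofReal (A1 * P) := by
    have e1 := Ha' T hTa' J (hJ2.trans (by gcongr))
    have e2 : ∫⁻ t, f 0 t ^ q ∂mu T = ∫⁻ t, (∫⁻ x in Icc (0:ℝ) 1,
        {s | Good T y J s}.indicator (fun s => ENNReal.ofReal (Z s ^ (2 * κ))) (t + x)) ^ q ∂mu T := by
      simp only [hf, hh, if_true, hgz]
    rw [e2]
    refine e1.trans (ENNReal.ofReal_le_ofReal ?_)
    have e3 : (2 : ℝ) ^ ((J : ℝ) * ((κ ^ 2 - κ) * q)) = ((2 : ℝ) ^ J) ^ (-g) := by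
      rw [← Real.rpow_natCast 2 J, ← Real.rpow_mul (by norm_num)]
      congr 1
      rw [hg]
      ring
    have e4 : ((2 : ℝ) ^ J) ^ (-g) ≤ (δ / (2 * Real.log y) * L) ^ (-g) := by
      apply Real.rpow_le_rpow_of_nonpos (by positivity) _ (by linarith)
      rw [div_mul_eq_mul_div, div_le_iff₀ (by positivity)]
      have := hJ3
      rw [pow_succ] at this
      linarith
    rw [e3]
    calc Ca * Real.log T ^ (κ * q) * ((2 : ℝ) ^ J) ^ (-g)
        ≤ Ca * L ^ (κ * q) * (δ / (2 * Real.log y) * L) ^ (-g) := by gcongr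
      _ = A1 * (L ^ (κ * q) * L ^ (-g)) := by
          rw [Real.mul_rpow (by positivity) hL0.le, hA1]
          ring
      _ = A1 * P := by rw [hPL]
  have hbad : ∀ v ∈ Finset.Icc 1 J, ENNReal.ofReal (w v ^ (1 - q)) * ∫⁻ t, f v t ^ q ∂mu T ≤
      ENNReal.ofReal (A2 * P * ((2 ^ v * Real.log y / L) ^ (-(g + (q - 1))) * Real.exp (-a * KT T y v))) := by
    intro v hv
    have hv' := Finset.mem_Icc.1 hv
    have hpow : (2 : ℝ) ^ v ≤ 2 ^ J := pow_le_pow_right₀ (by norm_num) hv'.2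
    have hvL : (2 : ℝ) ^ v * Real.log y ≤ δ * L := (by gcongr : (2 : ℝ) ^ v * Real.log y ≤ 2 ^ J * Real.log y).trans hJ2
    have hint := interp (ν := mu T) (hfm v).aemeasurable ha0 hb0 hab (by linarith : 0 < q') habq
    -- L1 part
    have i1 : ∫⁻ t, f v t ∂mu T ≤ ENNReal.ofReal (3 * (Cc * L ^ κ * (2 : ℝ) ^ ((v : ℝ) * (κ ^ 2 - κ)) *
        Real.exp (-(KT T y v : ℝ)))) := by
      have e1 := q5_l1 (by linarith : (1 : ℝ) ≤ T) (hhm v)
      have e2 := Hc' T hTc' v hv'.1 (hvL.trans (by gcongr))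
      have e3 : ∫⁻ t, h v t ∂mu T = ∫⁻ s, {s | Bad T y v s}.indicator
          (fun s => ENNReal.ofReal (Z s ^ (2 * κ))) s ∂mu T := by
        simp only [hh, if_neg (by omega : v ≠ 0), hgz]
      rw [ENNReal.ofReal_mul (by norm_num)]
      refine e1.trans ?_
      rw [e3]
      refine mul_le_mul' ?_ e2
      simp
    -- q' part
    have i2 : ∫⁻ t, f v t ^ q' ∂mu T ≤ ENNReal.ofReal (Cb * (2 : ℝ) ^ ((κ - κ ^ 2) * q') * L ^ (κ * q') *
        (2 : ℝ) ^ ((v : ℝ) * ((κ ^ 2 - κ) * q'))) := by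
      have hpow1 : (2 : ℝ) ^ (v - 1) ≤ 2 ^ v := pow_le_pow_right₀ (by norm_num) (by omega)
      have e1 := Hb' T hTb' (v - 1) ((by gcongr : (2 : ℝ) ^ (v - 1) * Real.log y ≤ 2 ^ v * Real.log y).trans
        (hvL.trans (by gcongr)))
      have e2 : ∀ t, f v t ^ q' ≤ (∫⁻ x in Icc (0:ℝ) 1, {s | Good T y (v - 1) s}.indicator
          (fun s => ENNReal.ofReal (Z s ^ (2 * κ))) (t + x)) ^ q' := by
        intro t
        refine ENNReal.rpow_le_rpow ?_ (by linarith)
        simp only [hf, hh, if_neg (by omega : v ≠ 0), hgz]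
        refine lintegral_mono fun x => ?_
        exact indicator_le_indicator_of_subset (fun s hs => hs.1) (fun _ => bot_le) _
      refine (lintegral_mono e2).trans (e1.trans (ENNReal.ofReal_le_ofReal (le_of_eq ?_)))
      have e3 : ((v - 1 : ℕ) : ℝ) = (v : ℝ) - 1 := by
        rw [Nat.cast_sub hv'.1]
        simp
      rw [e3]
      have e4 : ((v : ℝ) - 1) * ((κ ^ 2 - κ) * q') = (κ - κ ^ 2) * q' + (v : ℝ) * ((κ ^ 2 - κ) * q') := by ring
      rw [e4, Real.rpow_add (by norm_num)]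
      ring
    have i3 : ∫⁻ t, f v t ^ q ∂mu T ≤ ENNReal.ofReal (A2 * P * ((av v) ^ (-g) * Real.exp (-a * KT T y v))) := by
      refine hint.trans ?_
      refine (mul_le_mul' (ENNReal.rpow_le_rpow i1 ha0.le) (ENNReal.rpow_le_rpow i2 hb0.le)).trans ?_
      rw [ENNReal.ofReal_rpow_of_nonneg (by positivity) ha0.le, ENNReal.ofReal_rpow_of_nonneg (by positivity) hb0.le,
        ← ENNReal.ofReal_mul (by positivity)]
      refine ENNReal.ofReal_le_ofReal (le_of_eq ?_)
      have r1 : (3 * (Cc * L ^ κ * (2 : ℝ) ^ ((v : ℝ) * (κ ^ 2 - κ)) * Real.exp (-(KT T y v : ℝ)))) ^ a =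
          (3 * Cc) ^ a * L ^ (κ * a) * ((2 : ℝ) ^ ((v : ℝ) * (κ ^ 2 - κ) * a) * Real.exp (-a * KT T y v)) := by
        have key : ∀ c1 c2 c3 c4 : ℝ, 0 ≤ c1 → 0 ≤ c2 → 0 ≤ c3 → 0 ≤ c4 →
            (c1 * c2 * (c3 * c4)) ^ a = c1 ^ a * c2 ^ a * (c3 ^ a * c4 ^ a) := by
          intro c1 c2 c3 c4 g1 g2 g3 g4
          rw [Real.mul_rpow (by positivity) (by positivity), Real.mul_rpow g1 g2, Real.mul_rpow g3 g4]
        rw [show 3 * (Cc * L ^ κ * (2 : ℝ) ^ ((v : ℝ) * (κ ^ 2 - κ)) * Real.exp (-(KT T y v : ℝ))) =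
          (3 * Cc) * L ^ κ * ((2 : ℝ) ^ ((v : ℝ) * (κ ^ 2 - κ)) * Real.exp (-(KT T y v : ℝ))) by ring,
          key _ _ _ _ (by positivity) (by positivity) (by positivity) (by positivity),
          ← Real.rpow_mul hL0.le, ← Real.rpow_mul (by norm_num : (0:ℝ) ≤ 2), ← Real.exp_mul]
        congr 3
        ring
      have r2 : (Cb * (2 : ℝ) ^ ((κ - κ ^ 2) * q') * L ^ (κ * q') * (2 : ℝ) ^ ((v : ℝ) * ((κ ^ 2 - κ) * q'))) ^ b =
          (Cb * (2 : ℝ) ^ ((κ - κ ^ 2) * q')) ^ b * L ^ (κ * q' * b) * (2 : ℝ) ^ ((v : ℝ) * ((κ ^ 2 - κ) * q') * b) := by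
        have key : ∀ c1 c2 c3 : ℝ, 0 ≤ c1 → 0 ≤ c2 → 0 ≤ c3 →
            (c1 * c2 * c3) ^ b = c1 ^ b * c2 ^ b * c3 ^ b := by
          intro c1 c2 c3 g1 g2 g3
          rw [Real.mul_rpow (by positivity) (by positivity), Real.mul_rpow g1 g2]
        rw [key _ _ _ (by positivity) (by positivity) (by positivity),
          ← Real.rpow_mul hL0.le, ← Real.rpow_mul (by norm_num : (0:ℝ) ≤ 2) ((v : ℝ) * ((κ ^ 2 - κ) * q'))]
      rw [r1, r2]
      have r3 : L ^ (κ * a) * L ^ (κ * q' * b) = L ^ (κ * q) := by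
        rw [← Real.rpow_add hL0]
        congr 1
        rw [← habq]
        ring
      have r4 : (2 : ℝ) ^ ((v : ℝ) * (κ ^ 2 - κ) * a) * (2 : ℝ) ^ ((v : ℝ) * ((κ ^ 2 - κ) * q') * b) =
          ((2 : ℝ) ^ v) ^ (-g) := by
        rw [← Real.rpow_add (by norm_num), ← Real.rpow_natCast 2 v, ← Real.rpow_mul (by norm_num)]
        congr 1
        rw [hg, ← habq]
        ring
      have r5 : ((2 : ℝ) ^ v) ^ (-g) = av v ^ (-g) * L ^ (-g) * Real.log y ^ g := by
        have e : (2 : ℝ) ^ v = av v * L * (Real.log y)⁻¹ := by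
          simp only [hav]
          field_simp
        rw [e, Real.mul_rpow (by positivity) (by positivity), Real.mul_rpow (hav0 v).le hL0.le,
          Real.inv_rpow hly.le, Real.rpow_neg hly.le, inv_inv]
      calc (3 * Cc) ^ a * L ^ (κ * a) * ((2 : ℝ) ^ ((v : ℝ) * (κ ^ 2 - κ) * a) * Real.exp (-a * KT T y v)) *
            ((Cb * (2 : ℝ) ^ ((κ - κ ^ 2) * q')) ^ b * L ^ (κ * q' * b) * (2 : ℝ) ^ ((v : ℝ) * ((κ ^ 2 - κ) * q') * b))
          = (3 * Cc) ^ a * (Cb * (2 : ℝ) ^ ((κ - κ ^ 2) * q')) ^ b * (L ^ (κ * a) * L ^ (κ * q' * b)) *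
            ((2 : ℝ) ^ ((v : ℝ) * (κ ^ 2 - κ) * a) * (2 : ℝ) ^ ((v : ℝ) * ((κ ^ 2 - κ) * q') * b)) *
            Real.exp (-a * KT T y v) := by ring
        _ = (3 * Cc) ^ a * (Cb * (2 : ℝ) ^ ((κ - κ ^ 2) * q')) ^ b * Real.log y ^ g * (L ^ (κ * q) * L ^ (-g)) *
            (av v ^ (-g) * Real.exp (-a * KT T y v)) := by rw [r3, r4, r5]; ring
        _ = _ := by rw [hPL, hA2]
    have i4 : w v ^ (1 - q) ≤ av v ^ (-(q - 1)) := by
      have e1 : (1 : ℝ) - q = -(q - 1) := by ring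
      rw [e1]
      apply Real.rpow_le_rpow_of_nonpos (hav0 v) _ (by linarith)
      simp only [hw, if_neg (by omega : v ≠ 0), hav]
      rw [div_le_div_iff₀ hL0 (by positivity)]
      have : (2 : ℝ) ^ J * Real.log y ≤ L := by linarith
      calc (2 : ℝ) ^ v * Real.log y * 2 ^ J = 2 ^ v * (2 ^ J * Real.log y) := by ring
        _ ≤ 2 ^ v * L := by gcongr
    calc ENNReal.ofReal (w v ^ (1 - q)) * ∫⁻ t, f v t ^ q ∂mu T
        ≤ ENNReal.ofReal (av v ^ (-(q - 1))) *
          ENNReal.ofReal (A2 * P * ((av v) ^ (-g) * Real.exp (-a * KT T y v))) :=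
          mul_le_mul' (ENNReal.ofReal_le_ofReal i4) i3
      _ = ENNReal.ofReal (av v ^ (-(q - 1)) * (A2 * P * ((av v) ^ (-g) * Real.exp (-a * KT T y v)))) := by
          rw [← ENNReal.ofReal_mul (Real.rpow_nonneg (hav0 v).le _)]
      _ = _ := by
          congr 1
          have e5 : (-(g + (q - 1))) = -(q - 1) + -g := by ring
          rw [e5, Real.rpow_add (hav0 v)]
          ring
  -- assembly
  have hbase : ∫⁻ t, (∫⁻ x in Icc (0:ℝ) 1, gz (t + x)) ^ q ∂mu T ≤
      ENNReal.ofReal (W ^ (q - 1)) * ∑ v ∈ Finset.range (J + 1),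
        ENNReal.ofReal (w v ^ (1 - q)) * ∫⁻ t, f v t ^ q ∂mu T := by
    calc ∫⁻ t, (∫⁻ x in Icc (0:ℝ) 1, gz (t + x)) ^ q ∂mu T
        ≤ ∫⁻ t, ENNReal.ofReal (W ^ (q - 1)) * ∑ v ∈ Finset.range (J + 1),
            ENNReal.ofReal (w v ^ (1 - q)) * f v t ^ q ∂mu T := by
          refine lintegral_mono fun t => ?_
          refine (ENNReal.rpow_le_rpow (hsumf t) (by linarith)).trans ?_
          exact sum_rpow_weight _ _ w hw0 hwW hq1.le
      _ = _ := by
          rw [lintegral_const_mul _ (Finset.measurable_sum _ fun v _ => ((hfm v).pow_const q).const_mul _)]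
          rw [lintegral_finsetSum _ fun v _ => ((hfm v).pow_const q).const_mul _]
          congr 1
          refine Finset.sum_congr rfl fun v _ => ?_
          rw [lintegral_const_mul _ ((hfm v).pow_const q)]
  have hHe := He T y J (by omega) (by linarith) (by linarith : (2 : ℝ) ^ J * Real.log y ≤ Real.log T)
  have hsum2 : ∑ v ∈ Finset.range (J + 1), ENNReal.ofReal (w v ^ (1 - q)) * ∫⁻ t, f v t ^ q ∂mu T ≤
      ENNReal.ofReal (A1 * P + A2 * P * Ce) := by
    have e1 : Finset.range (J + 1) = insert 0 (Finset.Icc 1 J) := by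
      ext v
      simp only [Finset.mem_range, Finset.mem_insert, Finset.mem_Icc]
      omega
    rw [e1, Finset.sum_insert (by simp), ENNReal.ofReal_add (by positivity) (by positivity)]
    refine add_le_add ?_ ?_
    · simp only [hw, if_true, Real.one_rpow, ENNReal.ofReal_one, one_mul]
      exact hgood
    · refine (Finset.sum_le_sum hbad).trans ?_
      rw [← ENNReal.ofReal_sum_of_nonneg (fun v _ => by positivity)]
      refine ENNReal.ofReal_le_ofReal ?_
      rw [← Finset.mul_sum]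
      exact mul_le_mul_of_nonneg_left hHe (by positivity)
  refine hbase.trans ((mul_le_mul' le_rfl hsum2).trans ?_)
  rw [← ENNReal.ofReal_mul (by positivity)]
  refine ENNReal.ofReal_le_ofReal (le_of_eq ?_)
  rw [hP]
  ring

end CZ
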