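import Pool.Agent.Lib.MP_9eae41_pr.A2

set_option autoImplicit false

open Complex MeasureTheory Set Filter Topology
open scoped ComplexConjugate ENNReal

namespace CZ

/-! Row R1 (250 lines): Stone-Weierstrass on the finite torus (primes in s). The polynomials in X p and conj X p
(p in s) are dense in the continuous functions on the product of circles
(ContinuousMap.starSubalgebra_topologicalClosure_eq_top_of_separatesPoints); multiply by a high power of the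
product of all X p to remove the conjugates. -/

/-- extension of a point of the finite torus -/
noncomputable def r1_ext (s : Finset ℕ) (q : s → Circle) (p : ℕ) : ℂ :=
  if h : p ∈ s then ((q ⟨p, h⟩ : Circle) : ℂ) else 1

theorem r1_ext_mem (s : Finset ℕ) (q : s → Circle) {p : ℕ} (h : p ∈ s) :
    r1_ext s q p = ((q ⟨p, h⟩ : Circle) : ℂ) := dif_pos h

theorem r1_ext_norm (s : Finset ℕ) (q : s → Circle) (p : ℕ) : ‖r1_ext s q p‖ = 1 := by
  unfold r1_ext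
  split_ifs with h
  · exact Circle.norm_coe _
  · exact norm_one

theorem r1_ext_cont (s : Finset ℕ) : Continuous (r1_ext s) := by
  refine continuous_pi fun p => ?_
  unfold r1_ext
  by_cases h : p ∈ s
  · simp only [h, dif_pos]
    exact continuous_subtype_val.comp (continuous_apply _)
  · simp only [h, dif_neg, not_false_eq_true]
    exact continuous_const

/-- the restriction of a point of the infinite torus -/
noncomputable def r1_res (s : Finset ℕ) (X : ℕ → ℂ) (hX : ∀ p, ‖X p‖ = 1) : s → Circle :=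
  fun p => ⟨X p, mem_sphere_zero_iff_norm.2 (hX p)⟩

theorem r1_res_ext (s : Finset ℕ) (X : ℕ → ℂ) (hX : ∀ p, ‖X p‖ = 1) {p : ℕ} (h : p ∈ s) :
    X p = r1_ext s (r1_res s X hX) p := by
  rw [r1_ext_mem s _ h]
  rfl

def r1_P (s : Finset ℕ) (f : C(s → Circle, ℂ)) : Prop :=
  ∃ N0 : ℕ, ∀ N : ℕ, N0 ≤ N → ∃ (H : ℕ) (L : ℝ) (F : (ℕ → ℂ) → ℂ), 1 ≤ H ∧ IsDP s H L F ∧
    ∀ q, F (r1_ext s q) = (∏ p ∈ s, r1_ext s q p) ^ N * f q

theorem r1_prod {s : Finset ℕ} (hs : ∀ p ∈ s, p.Prime) :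
    IsDP s (∏ p ∈ s, p) 1 (fun X => ∏ p ∈ s, X p) := by
  have h := dp_prod s (fun _ => s) (fun p => p) (fun _ => (1 : ℝ)) (fun p X => X p)
    (fun p hp => dp_prime (hs p hp) hp)
  refine dp_mono h ?_ le_rfl (by simp)
  intro p hp
  rw [Finset.mem_biUnion] at hp
  obtain ⟨_, _, h⟩ := hp
  exact h

theorem r1_prod_sub {s t : Finset ℕ} (hs : ∀ p ∈ s, p.Prime) (ht : t ⊆ s) :
    IsDP s (∏ p ∈ t, p) 1 (fun X => ∏ p ∈ t, X p) :=
  dp_mono (r1_prod fun p hp => hs p (ht hp)) ht le_rfl le_rfl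

theorem r1_one_le {s : Finset ℕ} (hs : ∀ p ∈ s, p.Prime) : 1 ≤ ∏ p ∈ s, p :=
  Finset.one_le_prod' fun p hp => (hs p hp).one_le

theorem r1_P_add {s : Finset ℕ} {f g : C(s → Circle, ℂ)} (hf : r1_P s f) (hg : r1_P s g) : r1_P s (f + g) := by
  obtain ⟨N1, h1⟩ := hf
  obtain ⟨N2, h2⟩ := hg
  refine ⟨max N1 N2, fun N hN => ?_⟩
  obtain ⟨H1, L1, F1, a1, b1, c1⟩ := h1 N ((le_max_left _ _).trans hN)
  obtain ⟨H2, L2, F2, a2, b2, c2⟩ := h2 N ((le_max_right _ _).trans hN)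
  refine ⟨max H1 H2, L1 + L2, fun X => F1 X + F2 X, a1.trans (le_max_left _ _),
    dp_add (dp_mono b1 (Finset.Subset.refl _) (le_max_left _ _) le_rfl)
      (dp_mono b2 (Finset.Subset.refl _) (le_max_right _ _) le_rfl), fun q => ?_⟩
  show F1 (r1_ext s q) + F2 (r1_ext s q) = _
  rw [c1, c2, ContinuousMap.add_apply]
  ring

theorem r1_P_mul {s : Finset ℕ} {f g : C(s → Circle, ℂ)} (hf : r1_P s f) (hg : r1_P s g) : r1_P s (f * g) := by
  obtain ⟨N1, h1⟩ := hf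
  obtain ⟨N2, h2⟩ := hg
  refine ⟨N1 + N2, fun N hN => ?_⟩
  obtain ⟨H1, L1, F1, a1, b1, c1⟩ := h1 N1 le_rfl
  obtain ⟨H2, L2, F2, a2, b2, c2⟩ := h2 (N - N1) (by omega)
  refine ⟨H1 * H2, L1 * L2, fun X => F1 X * F2 X, Nat.mul_pos a1 a2, dp_mul b1 b2, fun q => ?_⟩
  show F1 (r1_ext s q) * F2 (r1_ext s q) = _
  rw [c1, c2, ContinuousMap.mul_apply]
  have : (∏ p ∈ s, r1_ext s q p) ^ N =
      (∏ p ∈ s, r1_ext s q p) ^ N1 * (∏ p ∈ s, r1_ext s q p) ^ (N - N1) := by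
    rw [← pow_add]
    congr 1
    omega
  rw [this]
  ring

theorem r1_P_const {s : Finset ℕ} (hs : ∀ p ∈ s, p.Prime) (c : ℂ) :
    r1_P s (algebraMap ℂ C(s → Circle, ℂ) c) := by
  refine ⟨0, fun N _ => ⟨(∏ p ∈ s, p) ^ N, ‖c‖ * 1 ^ N, fun X => c * (∏ p ∈ s, X p) ^ N,
    Nat.one_le_pow _ _ (r1_one_le hs), dp_smul c (dp_pow (r1_prod hs) N), fun q => ?_⟩⟩
  show c * _ = _ * c
  ring

/-- coordinate function -/
noncomputable def r1_e (s : Finset ℕ) (p : s) : C(s → Circle, ℂ) :=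
  ⟨fun q => ((q p : Circle) : ℂ), continuous_subtype_val.comp (continuous_apply _)⟩

theorem r1_P_e {s : Finset ℕ} (hs : ∀ p ∈ s, p.Prime) (p : s) : r1_P s (r1_e s p) := by
  refine ⟨0, fun N _ => ⟨(∏ p ∈ s, p) ^ N * p, 1 ^ N * 1, fun X => (∏ p ∈ s, X p) ^ N * X p,
    Nat.mul_pos (Nat.one_le_pow _ _ (r1_one_le hs)) (hs p p.2).pos,
    dp_mul (dp_pow (r1_prod hs) N) (dp_prime (hs p p.2) p.2), fun q => ?_⟩⟩
  show _ * r1_ext s q p = _ * ((q p : Circle) : ℂ)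
  rw [r1_ext_mem s q p.2]

theorem r1_P_star {s : Finset ℕ} (hs : ∀ p ∈ s, p.Prime) (p : s) : r1_P s (star (r1_e s p)) := by
  refine ⟨1, fun N hN => ⟨(∏ p ∈ s, p) ^ (N - 1) * ∏ r ∈ s.erase p, r, 1 ^ (N - 1) * 1,
    fun X => (∏ p ∈ s, X p) ^ (N - 1) * ∏ r ∈ s.erase p, X r,
    Nat.mul_pos (Nat.one_le_pow _ _ (r1_one_le hs))
      (r1_one_le fun r hr => hs r (Finset.mem_of_mem_erase hr)),
    dp_mul (dp_pow (r1_prod hs) (N - 1)) (r1_prod_sub hs (Finset.erase_subset _ _)), fun q => ?_⟩⟩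
  show (∏ r ∈ s, r1_ext s q r) ^ (N - 1) * ∏ r ∈ s.erase (p : ℕ), r1_ext s q r =
    (∏ r ∈ s, r1_ext s q r) ^ N * conj ((q p : Circle) : ℂ)
  have h1 : (∏ r ∈ s, r1_ext s q r) = r1_ext s q p * ∏ r ∈ s.erase p, r1_ext s q r :=
    (Finset.mul_prod_erase s (fun r => r1_ext s q r) p.2).symm
  have h2 : (∏ r ∈ s, r1_ext s q r) ^ N =
      (∏ r ∈ s, r1_ext s q r) ^ (N - 1) * ∏ r ∈ s, r1_ext s q r := by
    rw [← pow_succ]
    congr 1
    omega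
  have h3 : r1_ext s q p * conj ((q p : Circle) : ℂ) = 1 := by
    rw [r1_ext_mem s q p.2, Complex.mul_conj, Complex.normSq_eq_norm_sq]
    simp
  rw [h2, mul_assoc]
  congr 1
  rw [h1]
  linear_combination (-(∏ r ∈ s.erase (p : ℕ), r1_ext s q r)) * h3

/-- the algebra of the coordinates -/
noncomputable def r1_A (s : Finset ℕ) : StarSubalgebra ℂ C(s → Circle, ℂ) :=
  StarAlgebra.adjoin ℂ (Set.range (r1_e s))

theorem r1_A_P {s : Finset ℕ} (hs : ∀ p ∈ s, p.Prime) {f : C(s → Circle, ℂ)} (hf : f ∈ r1_A s) : r1_P s f := by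
  have h : f ∈ Algebra.adjoin ℂ (Set.range (r1_e s) ∪ star (Set.range (r1_e s))) := by
    rw [← StarAlgebra.adjoin_toSubalgebra]
    exact hf
  refine Algebra.adjoin_induction (p := fun f _ => r1_P s f) ?_ ?_ ?_ ?_ h
  · rintro f (⟨p, rfl⟩ | hf)
    · exact r1_P_e hs p
    · obtain ⟨p, hp⟩ := hf
      have : f = star (r1_e s p) := by rw [hp, star_star]
      rw [this]
      exact r1_P_star hs p
  · exact fun c => r1_P_const hs c
  · exact fun f g _ _ hf hg => r1_P_add hf hg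
  · exact fun f g _ _ hf hg => r1_P_mul hf hg

theorem r1_A_sep (s : Finset ℕ) : (r1_A s).toSubalgebra.SeparatesPoints := by
  intro q r hqr
  obtain ⟨p, hp⟩ := Function.ne_iff.1 hqr
  refine ⟨r1_e s p, ⟨r1_e s p, StarAlgebra.subset_adjoin ℂ _ ⟨p, rfl⟩, rfl⟩, ?_⟩
  intro h
  exact hp (Circle.ext h)

theorem sw (s : Finset ℕ) (hs : ∀ p ∈ s, p.Prime) (g : (ℕ → ℂ) → ℂ) (hg : ContinuousOn g {X | ∀ p, ‖X p‖ = 1})
    (hd : ∀ X Y : ℕ → ℂ, (∀ p ∈ s, X p = Y p) → g X = g Y) (ε : ℝ) (hε : 0 < ε) :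
    ∃ N0 : ℕ, ∀ N : ℕ, N0 ≤ N → ∃ (H : ℕ) (L : ℝ) (F : (ℕ → ℂ) → ℂ), 1 ≤ H ∧ IsDP s H L F ∧
      ∀ X : ℕ → ℂ, (∀ p, ‖X p‖ = 1) → ‖F X - (∏ p ∈ s, X p) ^ N * g X‖ ≤ ε := by
  let G : C(s → Circle, ℂ) := ⟨fun q => g (r1_ext s q),
    hg.comp_continuous (r1_ext_cont s) fun q p => r1_ext_norm s q p⟩
  have htop := ContinuousMap.starSubalgebra_topologicalClosure_eq_top_of_separatesPoints (r1_A s) (r1_A_sep s)
  have hG : G ∈ (r1_A s).topologicalClosure := by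
    rw [htop]
    exact trivial
  have hG' : G ∈ closure ((r1_A s : StarSubalgebra ℂ C(s → Circle, ℂ)) : Set C(s → Circle, ℂ)) := hG
  obtain ⟨f, hf, hfG⟩ := Metric.mem_closure_iff.1 hG' ε hε
  obtain ⟨N0, hN0⟩ := r1_A_P hs hf
  refine ⟨N0, fun N hN => ?_⟩
  obtain ⟨H, L, F, h1, h2, h3⟩ := hN0 N hN
  refine ⟨H, L, F, h1, h2, fun X hX => ?_⟩
  have e1 : F X = F (r1_ext s (r1_res s X hX)) := dp_dep h2 fun p hp => r1_res_ext s X hX hp
  have e2 : g X = G (r1_res s X hX) := hd _ _ fun p hp => r1_res_ext s X hX hp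
  have e3 : ∏ p ∈ s, X p = ∏ p ∈ s, r1_ext s (r1_res s X hX) p :=
    Finset.prod_congr rfl fun p hp => r1_res_ext s X hX hp
  have e4 : ‖∏ p ∈ s, r1_ext s (r1_res s X hX) p‖ = 1 := by
    rw [norm_prod]
    exact Finset.prod_eq_one fun p _ => r1_ext_norm s _ p
  rw [e1, e2, e3, h3, ← mul_sub, norm_mul, norm_pow, e4, one_pow, one_mul]
  have h5 : ‖(f - G) (r1_res s X hX)‖ ≤ ‖f - G‖ := ContinuousMap.norm_coe_le_norm _ _
  rw [ContinuousMap.sub_apply] at h5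
  refine h5.trans ?_
  rw [dist_comm, dist_eq_norm] at hfG
  exact hfG.le

theorem r1_compact : IsCompact {X : ℕ → ℂ | ∀ p, ‖X p‖ = 1} := by
  have h : {X : ℕ → ℂ | ∀ p, ‖X p‖ = 1} = Set.pi Set.univ fun _ : ℕ => Metric.sphere (0 : ℂ) 1 := by
    ext X
    simp [Set.mem_pi]
  rw [h]
  exact isCompact_univ_pi fun _ => isCompact_sphere 0 1

/-- upper approximation of a nonnegative continuous function by the square of a Dirichlet polynomial -/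
theorem sw_upper (s : Finset ℕ) (hs : ∀ p ∈ s, p.Prime) (g : (ℕ → ℂ) → ℝ) (hg : ContinuousOn g {X | ∀ p, ‖X p‖ = 1})
    (hd : ∀ X Y : ℕ → ℂ, (∀ p ∈ s, X p = Y p) → g X = g Y) (h0 : ∀ X, (∀ p, ‖X p‖ = 1) → 0 ≤ g X) (ε : ℝ) (hε : 0 < ε) :
    ∃ (H : ℕ) (L : ℝ) (F : (ℕ → ℂ) → ℂ), 1 ≤ H ∧ IsDP s H L F ∧
      ∀ X : ℕ → ℂ, (∀ p, ‖X p‖ = 1) → g X ≤ ‖F X‖ ^ 2 ∧ ‖F X‖ ^ 2 ≤ g X + ε := by
  obtain ⟨B, hB⟩ := (r1_compact.image_of_continuousOn hg).bddAbove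
  have hB' : ∀ X : ℕ → ℂ, (∀ p, ‖X p‖ = 1) → g X ≤ B := fun X hX => hB ⟨X, hX, rfl⟩
  set M : ℝ := Real.sqrt (B + ε / 2) with hM
  have hM0 : 0 ≤ M := Real.sqrt_nonneg _
  set δ : ℝ := min 1 (ε / (8 * (M + 1))) with hδ
  have hδ0 : 0 < δ := lt_min one_pos (by positivity)
  have hδ1 : δ ≤ 1 := min_le_left _ _
  have hδ2 : δ * (8 * (M + 1)) ≤ ε := by
    have : δ ≤ ε / (8 * (M + 1)) := min_le_right _ _
    rwa [le_div_iff₀ (by positivity)] at this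
  obtain ⟨N0, hN⟩ := sw s hs (fun X => ((Real.sqrt (g X + ε / 2) : ℝ) : ℂ))
    (continuous_ofReal.comp_continuousOn (Real.continuous_sqrt.comp_continuousOn (hg.add continuousOn_const)))
    (fun X Y h => by simp only [hd X Y h]) δ hδ0
  obtain ⟨H, L, F, h1, h2, h3⟩ := hN N0 le_rfl
  refine ⟨H, L, F, h1, h2, fun X hX => ?_⟩
  have h4 := h3 X hX
  have hg0 := h0 X hX
  set h : ℝ := Real.sqrt (g X + ε / 2) with hh
  have hh0 : 0 ≤ h := Real.sqrt_nonneg _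
  have hh2 : h ^ 2 = g X + ε / 2 := Real.sq_sqrt (by linarith)
  have hhM : h ≤ M := Real.sqrt_le_sqrt (by linarith [hB' X hX])
  have h5 : ‖(∏ p ∈ s, X p) ^ N0 * (h : ℂ)‖ = h := by
    rw [norm_mul, norm_pow, norm_prod, Finset.prod_eq_one fun p _ => hX p, one_pow, one_mul, Complex.norm_real,
      Real.norm_eq_abs, abs_of_nonneg hh0]
  have h6 : |‖F X‖ - h| ≤ δ := by
    have := abs_norm_sub_norm_le (F X) ((∏ p ∈ s, X p) ^ N0 * (h : ℂ))
    rw [h5] at this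
    exact this.trans h4
  rw [abs_le] at h6
  obtain ⟨h7, h8⟩ := h6
  have hF0 : 0 ≤ ‖F X‖ := norm_nonneg _
  have hδh : δ ≤ h := by
    by_contra hlt
    push Not at hlt
    have : ε ≤ 2 * (h * h) := by nlinarith
    nlinarith
  have h9 : h * δ ≤ M * δ := mul_le_mul_of_nonneg_right hhM hδ0.le
  constructor
  · have : (h - δ) ^ 2 ≤ ‖F X‖ ^ 2 := pow_le_pow_left₀ (by linarith) (by linarith) 2
    nlinarith
  · have : ‖F X‖ ^ 2 ≤ (h + δ) ^ 2 := pow_le_pow_left₀ hF0 (by linarith) 2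
    nlinarith

end CZ
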