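import Pool.Agent.Lib.MP_9eae41_pr.M4
import Pool.Agent.Lib.MP_9eae41_pr.M3
import Pool.Agent.Lib.MP_9eae41_pr.M1
import Pool.Agent.Lib.MP_9eae41_pr.P1

set_option autoImplicit false

open Complex MeasureTheory Set Filter Topology
open scoped ComplexConjugate ENNReal

namespace CZ

/-- primes up to y^(2^n) -/
def pq (y n : ℕ) : Finset ℕ := (Finset.range (y ^ (2 ^ n) + 1)).filter Nat.Prime

private theorem rm_pq_succ (y n : ℕ) (hy : 2 ≤ y) : pq y (n + 1) = pq y n ∪ blk y (n + 1) := by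
  have h1 : y ^ 2 ^ n ≤ y ^ 2 ^ (n + 1) := Nat.pow_le_pow_right (by omega) (Nat.pow_le_pow_right (by omega) (by omega))
  ext p
  simp only [pq, blk, Finset.mem_filter, Finset.mem_range, Finset.mem_union, Finset.mem_Ioc]
  constructor
  · rintro ⟨h2, h3⟩
    rcases Nat.lt_or_ge p (y ^ 2 ^ n + 1) with h | h
    · exact Or.inl ⟨h, h3⟩
    · exact Or.inr ⟨⟨by omega, by omega⟩, h3⟩
  · rintro (⟨h2, h3⟩ | ⟨⟨h2, h4⟩, h3⟩)
    · exact ⟨by omega, h3⟩
    · exact ⟨by omega, h3⟩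

private theorem rm_pq_disj (y n : ℕ) : Disjoint (pq y n) (blk y (n + 1)) := by
  rw [Finset.disjoint_left]
  intro p h1 h2
  simp only [pq, blk, Finset.mem_filter, Finset.mem_range, Finset.mem_Ioc] at h1 h2
  omega

private theorem rm_pq_zero (y : ℕ) : pq y 0 = blk y 0 := by
  simp [pq, blk]

theorem pq_union (y n : ℕ) (hy : 2 ≤ y) : pq y n = (Finset.range (n + 1)).biUnion (blk y) := by
  induction n with
  | zero => simp [rm_pq_zero]
  | succ n ih => rw [rm_pq_succ y n hy, ih, Finset.range_add_one (n := n + 1), Finset.biUnion_insert, Finset.union_comm]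

private theorem rm_sum_split {y : ℕ} (hy : 2 ≤ y) (f : ℕ → ℝ) {k n : ℕ} (hkn : k ≤ n) :
    ∑ p ∈ pq y n, f p = ∑ p ∈ pq y k, f p + ∑ m ∈ Finset.Icc (k + 1) n, ∑ p ∈ blk y m, f p := by
  induction n, hkn using Nat.le_induction with
  | base => simp
  | succ n hn ih =>
    rw [rm_pq_succ y n hy, Finset.sum_union (rm_pq_disj y n), ih, Finset.sum_Icc_succ_top (by omega)]
    ring

private theorem rm_pq_mono {y : ℕ} (hy : 2 ≤ y) {k n : ℕ} (hkn : k ≤ n) : pq y k ⊆ pq y n := by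
  intro p
  have h1 : y ^ 2 ^ k ≤ y ^ 2 ^ n := Nat.pow_le_pow_right (by omega) (Nat.pow_le_pow_right (by omega) hkn)
  simp only [pq, Finset.mem_filter, Finset.mem_range]
  rintro ⟨h2, h3⟩
  exact ⟨by omega, h3⟩

private theorem rm_blk_not {y : ℕ} (hy : 2 ≤ y) {k m p : ℕ} (hkm : k + 1 ≤ m) (hp : p ∈ blk y m) : p ∉ pq y k := by
  obtain ⟨j, rfl⟩ : ∃ j, m = j + 1 := ⟨m - 1, by omega⟩
  intro h
  have h1 := rm_pq_mono hy (show k ≤ j by omega) h
  exact (Finset.disjoint_left.1 (rm_pq_disj y j)) h1 hp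

private theorem rm_blk_prime {y m p : ℕ} (hp : p ∈ blk y m) : p.Prime := by
  cases m with
  | zero => exact (Finset.mem_filter.1 hp).2
  | succ m => exact (Finset.mem_filter.1 hp).2

private theorem rm_pq_prime {y n p : ℕ} (hp : p ∈ pq y n) : p.Prime := (Finset.mem_filter.1 hp).2

private theorem rm_norm_ee (x : ℝ) : ‖ee x‖ = 1 := by
  unfold ee
  rw [show 2 * (Real.pi : ℂ) * x * I = ((2 * Real.pi * x : ℝ) : ℂ) * I by push_cast; ring]
  exact norm_exp_ofReal_mul_I _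

private theorem rm_cont_ee : Continuous ee := by
  unfold ee
  fun_prop

/-- logarithm of one factor -/
private theorem rm_log {w : ℂ} (hw : ‖w‖ ≤ 3 / 4) :
    |(-Real.log ‖1 - w‖) - (w + w ^ 2 / 2).re| ≤ 2 * ‖w‖ ^ 3 := by
  have h1 : ‖-w‖ < 1 := by rw [norm_neg]; linarith
  have h2 := norm_log_sub_logTaylor_le 2 h1
  have h3 : logTaylor (2 + 1) (-w) = -(w + w ^ 2 / 2) := by
    simp only [logTaylor, Finset.sum_range_succ, Finset.sum_range_zero]
    norm_num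
    ring
  rw [h3, norm_neg, ← sub_eq_add_neg] at h2
  have h4 : |(log (1 - w) - -(w + w ^ 2 / 2)).re| ≤ ‖w‖ ^ (2 + 1) * (1 - ‖w‖)⁻¹ / ((2 : ℕ) + 1) :=
    (abs_re_le_norm _).trans h2
  have h5 : (log (1 - w) - -(w + w ^ 2 / 2)).re = -((-Real.log ‖1 - w‖) - (w + w ^ 2 / 2).re) := by
    rw [sub_re, neg_re, log_re]
    ring
  rw [h5, abs_neg] at h4
  refine h4.trans ?_
  have h6 : (1 - ‖w‖)⁻¹ ≤ 4 := by
    rw [inv_le_comm₀ (by linarith) (by norm_num)]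
    linarith
  have h7 : 0 ≤ ‖w‖ ^ 3 := by positivity
  have h8 : ‖w‖ ^ 3 * (1 - ‖w‖)⁻¹ ≤ ‖w‖ ^ 3 * 4 := mul_le_mul_of_nonneg_left h6 h7
  norm_num
  linarith

/-- pointwise bound -/
private theorem rm_point {C0 : ℝ} (hC0 : 0 ≤ C0) {s : ℝ} (hs : 0 < s) (hs1 : s ≤ 3 / 4) {α β : ℝ} (ha : 0 ≤ α) (ha1 : α ≤ C0)
    (hb : 0 ≤ β) (hb1 : β ≤ C0) {z e : ℂ} (hz : ‖z‖ = 1) (he : ‖e‖ = 1) :
    ‖(1 - z * s)⁻¹‖ ^ (2 * α) * ‖(1 - z * e * s)⁻¹‖ ^ (2 * β) ≤
      1 + ‖(α : ℂ) + β * e‖ ^ 2 * s ^ 2 + (8 * C0 + 56 * C0 ^ 2 + 1000 * C0 ^ 3 * Real.exp (8 * C0)) * s ^ 3 +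
        ((2 * ((α : ℂ) + β * e) * s) * z).re + ((((α : ℂ) + β * e ^ 2) + ((α : ℂ) + β * e) ^ 2) * s ^ 2 * z ^ 2).re := by
  set c : ℂ := (α : ℂ) + β * e with hc
  set c' : ℂ := (α : ℂ) + β * e ^ 2 with hc'
  have nw1 : ‖z * (s : ℂ)‖ = s := by rw [norm_mul, hz, one_mul, Complex.norm_real, Real.norm_eq_abs, abs_of_pos hs]
  have nw2 : ‖z * e * (s : ℂ)‖ = s := by
    rw [norm_mul, norm_mul, hz, he, one_mul, one_mul, Complex.norm_real, Real.norm_eq_abs, abs_of_pos hs]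
  have l1 := rm_log (w := z * s) (by rw [nw1]; exact hs1)
  have l2 := rm_log (w := z * e * s) (by rw [nw2]; exact hs1)
  rw [nw1] at l1
  rw [nw2] at l2
  have p1 : 0 < ‖1 - z * (s : ℂ)‖ := by
    have := norm_sub_norm_le (1 : ℂ) (z * s)
    rw [nw1, norm_one] at this
    linarith
  have p2 : 0 < ‖1 - z * e * (s : ℂ)‖ := by
    have := norm_sub_norm_le (1 : ℂ) (z * e * s)
    rw [nw2, norm_one] at this
    linarith
  set E1 : ℝ := (-Real.log ‖1 - z * (s : ℂ)‖) - (z * s + (z * s) ^ 2 / 2).re with hE1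
  set E2 : ℝ := (-Real.log ‖1 - z * e * (s : ℂ)‖) - (z * e * s + (z * e * s) ^ 2 / 2).re with hE2
  have hf : ‖(1 - z * s)⁻¹‖ ^ (2 * α) * ‖(1 - z * e * s)⁻¹‖ ^ (2 * β) =
      Real.exp ((2 * (c * (z * s))).re + ((c' * (z * s) ^ 2).re + (2 * α * E1 + 2 * β * E2))) := by
    rw [norm_inv, norm_inv, Real.rpow_def_of_pos (inv_pos.2 p1), Real.rpow_def_of_pos (inv_pos.2 p2), Real.log_inv,
      Real.log_inv, ← Real.exp_add]
    congr 1
    have e1 : (2 * (c * (z * s))).re + (c' * (z * s) ^ 2).re = 2 * α * (z * s + (z * s) ^ 2 / 2).re +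
        2 * β * (z * e * s + (z * e * s) ^ 2 / 2).re := by
      have : 2 * (c * (z * s)) + c' * (z * s) ^ 2 = ((2 * α : ℝ) : ℂ) * (z * s + (z * s) ^ 2 / 2) +
          ((2 * β : ℝ) : ℂ) * (z * e * s + (z * e * s) ^ 2 / 2) := by
        rw [hc, hc']
        push_cast
        ring
      rw [← add_re, this, add_re, re_ofReal_mul, re_ofReal_mul]
    rw [hE1, hE2]
    linarith
  have nc : ‖c‖ ≤ 2 * C0 := by
    rw [hc]
    refine (norm_add_le _ _).trans ?_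
    rw [norm_mul, he, Complex.norm_real, Complex.norm_real, Real.norm_eq_abs, Real.norm_eq_abs, abs_of_nonneg ha,
      abs_of_nonneg hb]
    linarith
  have nc' : ‖c'‖ ≤ 2 * C0 := by
    rw [hc']
    refine (norm_add_le _ _).trans ?_
    rw [norm_mul, norm_pow, he, Complex.norm_real, Complex.norm_real, Real.norm_eq_abs, Real.norm_eq_abs, abs_of_nonneg ha,
      abs_of_nonneg hb]
    linarith
  set A : ℝ := (2 * (c * (z * s))).re with hA
  set B0 : ℝ := (c' * (z * s) ^ 2).re with hB0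
  set E : ℝ := 2 * α * E1 + 2 * β * E2 with hE
  have bA : |A| ≤ 4 * C0 * s := by
    refine (abs_re_le_norm _).trans ?_
    rw [norm_mul, norm_mul, nw1]
    have : ‖(2 : ℂ)‖ = 2 := by simp
    rw [this]
    nlinarith [norm_nonneg c]
  have bB0 : |B0| ≤ 2 * C0 * s ^ 2 := by
    refine (abs_re_le_norm _).trans ?_
    rw [norm_mul, norm_pow, nw1]
    exact mul_le_mul_of_nonneg_right nc' (by positivity)
  have bE : |E| ≤ 8 * C0 * s ^ 3 := by
    have h1 : |2 * α * E1| ≤ 2 * C0 * (2 * s ^ 3) := by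
      rw [abs_mul, abs_of_nonneg (by linarith : (0 : ℝ) ≤ 2 * α)]
      exact mul_le_mul (by linarith) l1 (abs_nonneg _) (by linarith)
    have h2 : |2 * β * E2| ≤ 2 * C0 * (2 * s ^ 3) := by
      rw [abs_mul, abs_of_nonneg (by linarith : (0 : ℝ) ≤ 2 * β)]
      exact mul_le_mul (by linarith) l2 (abs_nonneg _) (by linarith)
    refine (abs_add_le _ _).trans ?_
    linarith
  have s2 : s ^ 2 ≤ 3 / 4 * s := by nlinarith
  have s3 : s ^ 3 ≤ 3 / 4 * s ^ 2 := by nlinarith [sq_nonneg s]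
  have s30 : 0 ≤ s ^ 3 := by positivity
  have bB : |B0 + E| ≤ 8 * C0 * s ^ 2 := by
    refine (abs_add_le _ _).trans ?_
    nlinarith
  set f : ℝ := A + (B0 + E) with hfd
  have bf : |f| ≤ 10 * C0 * s := by
    refine (abs_add_le _ _).trans ?_
    nlinarith
  have bf' : |f| ≤ 8 * C0 := by
    refine bf.trans ?_
    nlinarith
  have hexp : Real.exp f ≤ 1 + f + f ^ 2 / 2 + |f| ^ 3 * Real.exp |f| := by
    have h1 := norm_exp_sub_sum_le_norm_mul_exp (f : ℂ) 3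
    have h2 : (exp (f : ℂ) - ∑ m ∈ Finset.range 3, (f : ℂ) ^ m / (m.factorial : ℂ)) =
        ((Real.exp f - (1 + f + f ^ 2 / 2) : ℝ) : ℂ) := by
      simp only [Finset.sum_range_succ, Finset.sum_range_zero, Nat.factorial]
      push_cast
      ring
    rw [h2, Complex.norm_real, Complex.norm_real, Real.norm_eq_abs, Real.norm_eq_abs] at h1
    have := (le_abs_self _).trans h1
    linarith
  have b3 : |f| ^ 3 * Real.exp |f| ≤ 1000 * C0 ^ 3 * Real.exp (8 * C0) * s ^ 3 := by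
    have h1 : |f| ^ 3 ≤ (10 * C0 * s) ^ 3 := pow_le_pow_left₀ (abs_nonneg _) bf 3
    have h2 : Real.exp |f| ≤ Real.exp (8 * C0) := Real.exp_le_exp.2 bf'
    calc |f| ^ 3 * Real.exp |f| ≤ (10 * C0 * s) ^ 3 * Real.exp (8 * C0) :=
          mul_le_mul h1 h2 (Real.exp_pos _).le (by positivity)
      _ = _ := by ring
  have b2 : f ^ 2 ≤ A ^ 2 + 112 * C0 ^ 2 * s ^ 3 := by
    have h1 : |A| * |B0 + E| ≤ 4 * C0 * s * (8 * C0 * s ^ 2) := mul_le_mul bA bB (abs_nonneg _) (by positivity)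
    have h2 : |B0 + E| ^ 2 ≤ (8 * C0 * s ^ 2) ^ 2 := pow_le_pow_left₀ (abs_nonneg _) bB 2
    have h3 : A * (B0 + E) ≤ |A| * |B0 + E| := by
      rw [← abs_mul]
      exact le_abs_self _
    have h4 : (8 * C0 * s ^ 2) ^ 2 ≤ 48 * C0 ^ 2 * s ^ 3 := by
      have : (8 * C0 * s ^ 2) ^ 2 = 64 * C0 ^ 2 * s ^ 3 * s := by ring
      rw [this]
      have h5 : 0 ≤ C0 ^ 2 * s ^ 3 := by positivity
      nlinarith
    rw [sq_abs] at h2
    have h6 : f ^ 2 = A ^ 2 + 2 * (A * (B0 + E)) + (B0 + E) ^ 2 := by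
      rw [hfd]
      ring
    rw [h6]
    nlinarith
  have hA2 : A ^ 2 = 2 * (‖c‖ ^ 2 * s ^ 2) + 2 * (c ^ 2 * (z * s) ^ 2).re := by
    have h1 : ∀ w : ℂ, w.re ^ 2 = (‖w‖ ^ 2 + (w ^ 2).re) / 2 := by
      intro w
      rw [← normSq_eq_norm_sq, normSq_apply, pow_two w, mul_re]
      ring
    have h2 : A = 2 * (c * (z * s)).re := by
      rw [hA]
      simp
    rw [h2, mul_pow, h1, norm_mul, nw1]
    have : (c * (z * (s : ℂ))) ^ 2 = c ^ 2 * (z * s) ^ 2 := by ring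
    rw [this]
    ring
  have r1 : ((2 * c * s) * z).re = A := by
    rw [hA]
    congr 1
    ring
  have r2 : ((c' + c ^ 2) * s ^ 2 * z ^ 2).re = B0 + (c ^ 2 * (z * s) ^ 2).re := by
    rw [hB0, ← add_re]
    congr 1
    ring
  rw [hf, r1, r2]
  have hEl := (le_abs_self E).trans bE
  have : Real.exp f ≤ 1 + f + (A ^ 2 + 112 * C0 ^ 2 * s ^ 3) / 2 + 1000 * C0 ^ 3 * Real.exp (8 * C0) * s ^ 3 := by
    linarith
  rw [hA2] at this
  refine this.trans ?_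
  rw [hfd]
  linarith

private theorem rm_s {p : ℕ} (hp : 2 ≤ p) : 0 < (Real.sqrt p)⁻¹ ∧ (Real.sqrt p)⁻¹ ≤ 3 / 4 ∧ (Real.sqrt p)⁻¹ ^ 2 = 1 / p ∧
    (Real.sqrt p)⁻¹ ^ 3 = (p : ℝ) ^ (-(3/2) : ℝ) := by
  have hp' : (2 : ℝ) ≤ p := by exact_mod_cast hp
  have h0 : 0 < Real.sqrt p := Real.sqrt_pos.2 (by linarith)
  have h1 : 4 / 3 ≤ Real.sqrt p := by
    rw [Real.le_sqrt' (by norm_num)]
    norm_num
    linarith
  refine ⟨inv_pos.2 h0, ?_, ?_, ?_⟩
  · rw [inv_le_comm₀ h0 (by norm_num)]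
    linarith
  · rw [inv_pow, Real.sq_sqrt (show (0 : ℝ) ≤ p by linarith), one_div]
  · have hp0 : (0 : ℝ) ≤ p := by linarith
    rw [inv_pow, Real.sqrt_eq_rpow, ← Real.rpow_natCast, ← Real.rpow_mul hp0, ← Real.rpow_neg hp0]
    norm_num

private theorem rm_ofReal_inv (x : ℝ) : ((x : ℝ) : ℂ)⁻¹ = ((x⁻¹ : ℝ) : ℂ) := by
  push_cast
  rfl

private theorem rm_int_re (a b : ℂ) (r : ℝ) : ∫ x, (r + (a * ee x).re + (b * ee x ^ 2).re) ∂Ug = r := by
  have := Ug_prob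
  have hi : ∀ φ : ℝ → ℂ, Continuous φ → Integrable φ Ug := fun φ hφ => hφ.integrableOn_Icc
  have h1 : ∫ x, (a * ee x + b * ee x ^ 2) ∂Ug = 0 := by
    have e1 := int_ee 1
    have e2 := int_ee 2
    have e2' : ∫ x, ee x ^ 2 ∂Ug = 0 := by
      have : ∀ x, ee x ^ (2 : ℤ) = ee x ^ 2 := fun x => zpow_ofNat _ 2
      simp_rw [this] at e2
      rw [e2]
      norm_num
    have e1' : ∫ x, ee x ∂Ug = 0 := by
      simp_rw [zpow_one] at e1
      rw [e1]
      norm_num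
    have i1 : Integrable (fun x => a * ee x) Ug := hi _ (continuous_const.mul rm_cont_ee)
    have i2 : Integrable (fun x => b * ee x ^ 2) Ug := hi _ (continuous_const.mul (rm_cont_ee.pow 2))
    rw [integral_add i1 i2, integral_const_mul, integral_const_mul, e1', e2']
    ring
  have h2 : ∫ x, (a * ee x + b * ee x ^ 2).re ∂Ug = 0 := by
    have := Complex.reCLM.integral_comp_comm (hi _ ((continuous_const.mul rm_cont_ee).add (continuous_const.mul (rm_cont_ee.pow 2))) :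
      Integrable (fun x => a * ee x + b * ee x ^ 2) Ug)
    simp only [Complex.reCLM_apply] at this
    rw [this, h1, zero_re]
  have h3 : ∀ x, r + (a * ee x).re + (b * ee x ^ 2).re = r + (a * ee x + b * ee x ^ 2).re := by
    intro x
    rw [add_re]
    ring
  simp_rw [h3]
  rw [integral_add (integrable_const r) ?_, h2, integral_const]
  · simp
  · have : Continuous fun x => (a * ee x + b * ee x ^ 2).re :=
      Complex.continuous_re.comp ((continuous_const.mul rm_cont_ee).add (continuous_const.mul (rm_cont_ee.pow 2)))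
    exact this.integrableOn_Icc

private noncomputable def rmC (C0 : ℝ) : ℝ := 8 * C0 + 56 * C0 ^ 2 + 1000 * C0 ^ 3 * Real.exp (8 * C0)

private theorem rm_onevar {C0 : ℝ} (hC0 : 0 ≤ C0) {p : ℕ} (hp : 2 ≤ p) {α β : ℝ} (ha : 0 ≤ α) (ha1 : α ≤ C0) (hb : 0 ≤ β)
    (hb1 : β ≤ C0) {e : ℂ} (he : ‖e‖ = 1) :
    ∫ x, ‖(1 - ee x * ((Real.sqrt p : ℝ) : ℂ)⁻¹)⁻¹‖ ^ (2 * α) * ‖(1 - ee x * e * ((Real.sqrt p : ℝ) : ℂ)⁻¹)⁻¹‖ ^ (2 * β) ∂Ug ≤
      Real.exp (‖(α : ℂ) + β * e‖ ^ 2 / p + rmC C0 * (p : ℝ) ^ (-(3/2) : ℝ)) := by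
  obtain ⟨s0, s1, s2, s3⟩ := rm_s hp
  rw [rm_ofReal_inv]
  set s : ℝ := (Real.sqrt p)⁻¹ with hs
  refine (integral_mono_of_nonneg (g := fun x => (1 + ‖(α : ℂ) + β * e‖ ^ 2 * s ^ 2 + rmC C0 * s ^ 3) +
    ((2 * ((α : ℂ) + β * e) * s) * ee x).re + ((((α : ℂ) + β * e ^ 2) + ((α : ℂ) + β * e) ^ 2) * s ^ 2 * ee x ^ 2).re)
    (Eventually.of_forall fun x => by positivity) ?_ (Eventually.of_forall fun x => ?_)).trans ?_
  · have : Continuous fun x => (1 + ‖(α : ℂ) + β * e‖ ^ 2 * s ^ 2 + rmC C0 * s ^ 3) +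
      ((2 * ((α : ℂ) + β * e) * s) * ee x).re + ((((α : ℂ) + β * e ^ 2) + ((α : ℂ) + β * e) ^ 2) * s ^ 2 * ee x ^ 2).re :=
      (continuous_const.add (Complex.continuous_re.comp (continuous_const.mul rm_cont_ee))).add
        (Complex.continuous_re.comp (continuous_const.mul (rm_cont_ee.pow 2)))
    exact this.integrableOn_Icc
  · exact rm_point hC0 s0 s1 ha ha1 hb hb1 (rm_norm_ee x) he
  · rw [rm_int_re, s2, s3]
    refine le_trans (le_of_eq ?_) (Real.add_one_le_exp _)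
    ring

/-- one variable: al, be in [0,C0], e unimodular -/
theorem onevar_eu (C0 : ℝ) (hC0 : 0 ≤ C0) : ∃ C : ℝ, 0 < C ∧ ∀ (p : ℕ), p.Prime → ∀ α β : ℝ, 0 ≤ α → α ≤ C0 → 0 ≤ β → β ≤ C0 →
    ∀ e : ℂ, ‖e‖ = 1 →
    ∫ x, ‖(1 - ee x * ((Real.sqrt p : ℝ) : ℂ)⁻¹)⁻¹‖ ^ (2 * α) * ‖(1 - ee x * e * ((Real.sqrt p : ℝ) : ℂ)⁻¹)⁻¹‖ ^ (2 * β) ∂Ug ≤
      Real.exp (‖(α : ℂ) + β * e‖ ^ 2 / p + C * (p : ℝ) ^ (-(3/2) : ℝ)) := by
  refine ⟨rmC C0 + 1, ?_, ?_⟩
  · unfold rmC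
    positivity
  · intro p hp α β ha ha1 hb hb1 e he
    refine (rm_onevar hC0 hp.two_le ha ha1 hb hb1 he).trans (Real.exp_le_exp.2 ?_)
    have : 0 ≤ (p : ℝ) ^ (-(3/2) : ℝ) := by positivity
    nlinarith

/-- normalised mass density of the random model at level n -/
noncomputable def dn (κ : ℝ) (y n : ℕ) (θ : Om) (x : ℝ) : ℝ :=
  ‖Eu (pq y n) (fun p => Xt θ p * Xp x p)‖ ^ (2 * κ) / ∫ θ', ‖Eu (pq y n) (Xt θ')‖ ^ (2 * κ) ∂PT

private noncomputable def nm (z : ℂ) (p : ℕ) : ℝ := ‖(1 - z * ((Real.sqrt p : ℝ) : ℂ)⁻¹)⁻¹‖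

private theorem nm_bd {p : ℕ} (hp : 2 ≤ p) {z : ℂ} (hz : ‖z‖ = 1) : 0 < nm z p ∧ nm z p ≤ 4 := by
  obtain ⟨s0, s1, -, -⟩ := rm_s hp
  unfold nm
  rw [rm_ofReal_inv, norm_inv]
  have nw1 : ‖z * (((Real.sqrt p)⁻¹ : ℝ) : ℂ)‖ = (Real.sqrt p)⁻¹ := by
    rw [norm_mul, hz, one_mul, Complex.norm_real, Real.norm_eq_abs, abs_of_pos s0]
  have p1 : 1 / 4 ≤ ‖1 - z * (((Real.sqrt p)⁻¹ : ℝ) : ℂ)‖ := by
    have := norm_sub_norm_le (1 : ℂ) (z * (((Real.sqrt p)⁻¹ : ℝ) : ℂ))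
    rw [nw1, norm_one] at this
    linarith
  refine ⟨inv_pos.2 (by linarith), ?_⟩
  rw [inv_le_comm₀ (by linarith) (by norm_num)]
  linarith

private noncomputable def wp (s : Finset ℕ) (a : ℕ → ℝ) (X : ℕ → ℂ) : ℝ := ∏ p ∈ s, nm (X p) p ^ (2 * a p)

private theorem wp_pos {s : Finset ℕ} (hs : ∀ p ∈ s, p.Prime) (a : ℕ → ℝ) {X : ℕ → ℂ} (hX : ∀ p, ‖X p‖ = 1) :
    0 < wp s a X :=
  Finset.prod_pos fun p hp => Real.rpow_pos_of_pos (nm_bd (hs p hp).two_le (hX p)).1 _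

private theorem wp_le {s : Finset ℕ} (hs : ∀ p ∈ s, p.Prime) {a : ℕ → ℝ} {C0 : ℝ} (ha : ∀ p, 0 ≤ a p ∧ a p ≤ C0)
    {X : ℕ → ℂ} (hX : ∀ p, ‖X p‖ = 1) : wp s a X ≤ (4 ^ (2 * C0)) ^ s.card := by
  unfold wp
  rw [← Finset.prod_const]
  refine Finset.prod_le_prod (fun p hp => ?_) (fun p hp => ?_)
  · exact (Real.rpow_pos_of_pos (nm_bd (hs p hp).two_le (hX p)).1 _).le
  · obtain ⟨h1, h2⟩ := nm_bd (hs p hp).two_le (hX p)
    calc nm (X p) p ^ (2 * a p) ≤ 4 ^ (2 * a p) := Real.rpow_le_rpow h1.le h2 (by linarith [(ha p).1])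
      _ ≤ 4 ^ (2 * C0) := Real.rpow_le_rpow_of_exponent_le (by norm_num) (by linarith [(ha p).2])

private theorem wp_meas (s : Finset ℕ) (a : ℕ → ℝ) : Measurable (wp s a) := by
  unfold wp nm
  refine Finset.measurable_prod _ (fun p _ => ?_)
  refine Measurable.pow_const ?_ _
  exact ((measurable_const.sub ((measurable_pi_apply p).mul_const _)).inv).norm

private theorem wp_mul {s : Finset ℕ} (hs : ∀ p ∈ s, p.Prime) (a b : ℕ → ℝ) {X : ℕ → ℂ} (hX : ∀ p, ‖X p‖ = 1) :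
    wp s a X * wp s b X = wp s (fun p => a p + b p) X := by
  unfold wp
  rw [← Finset.prod_mul_distrib]
  refine Finset.prod_congr rfl (fun p hp => ?_)
  rw [← Real.rpow_add (nm_bd (hs p hp).two_le (hX p)).1]
  congr 1
  ring

private theorem wp_rpow {s : Finset ℕ} (hs : ∀ p ∈ s, p.Prime) (a : ℕ → ℝ) (r : ℝ) {X : ℕ → ℂ} (hX : ∀ p, ‖X p‖ = 1) :
    wp s a X ^ r = wp s (fun p => a p * r) X := by
  unfold wp
  rw [← Real.finsetProd_rpow _ _ (fun p hp => (Real.rpow_pos_of_pos (nm_bd (hs p hp).two_le (hX p)).1 _).le)]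
  refine Finset.prod_congr rfl (fun p hp => ?_)
  rw [← Real.rpow_mul (nm_bd (hs p hp).two_le (hX p)).1.le]
  congr 1
  ring

private theorem wp_congr {s : Finset ℕ} {a b : ℕ → ℝ} (h : ∀ p ∈ s, a p = b p) (X : ℕ → ℂ) : wp s a X = wp s b X := by
  unfold wp
  refine Finset.prod_congr rfl (fun p hp => ?_)
  rw [h p hp]

private theorem Eu_wp (s : Finset ℕ) (κ : ℝ) (X : ℕ → ℂ) : ‖Eu s X‖ ^ (2 * κ) = wp s (fun _ => κ) X := by
  unfold Eu wp nm
  rw [norm_prod, ← Real.finsetProd_rpow _ _ (fun p _ => norm_nonneg _)]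

private theorem rm_unit (θ : Om) (t : ℕ → ℝ) (p : ℕ) : ‖Xt θ p * ee (t p)‖ = 1 := by
  rw [norm_mul, rm_norm_ee, mul_one]
  exact rm_norm_ee _

private theorem rm_unit' (θ : Om) (t : ℕ → ℝ) {e : ℕ → ℂ} (he : ∀ p, ‖e p‖ = 1) (p : ℕ) : ‖Xt θ p * ee (t p) * e p‖ = 1 := by
  rw [norm_mul, rm_unit, he, mul_one]

private theorem rm_Xt_meas : Measurable (fun θ : Om => Xt θ) := by
  refine measurable_pi_lambda _ (fun p => ?_)
  exact rm_cont_ee.measurable.comp (measurable_pi_apply p)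

private theorem nm_cont {p : ℕ} (hp : 2 ≤ p) {v : ℂ} (hv : ‖v‖ = 1) (a : ℝ) :
    ContinuousOn (fun z : ℂ => nm (z * v) p ^ (2 * a)) (Metric.sphere 0 1) := by
  have hz : ∀ z ∈ Metric.sphere (0 : ℂ) 1, ‖z * v‖ = 1 := by
    intro z hz
    rw [norm_mul, hv, mul_one]
    simpa using hz
  refine ContinuousOn.rpow_const ?_ (fun z hz' => Or.inl (nm_bd hp (hz z hz')).1.ne')
  unfold nm
  refine (ContinuousOn.inv₀ ?_ ?_).norm
  · fun_prop
  · intro z hz' h0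
    have := (nm_bd hp (hz z hz')).1
    unfold nm at this
    rw [h0, inv_zero, norm_zero] at this
    exact lt_irrefl _ this

/-- the basic estimate -/
private theorem rm_E {C0 : ℝ} (hC0 : 0 ≤ C0) {s : Finset ℕ} (hs : ∀ p ∈ s, p.Prime) {a b : ℕ → ℝ}
    (ha : ∀ p, 0 ≤ a p ∧ a p ≤ C0) (hb : ∀ p, 0 ≤ b p ∧ b p ≤ C0) {e : ℕ → ℂ} (he : ∀ p, ‖e p‖ = 1) (t : ℕ → ℝ) :
    ∫⁻ θ, ENNReal.ofReal (wp s a (fun p => Xt θ p * ee (t p)) * wp s b (fun p => Xt θ p * ee (t p) * e p)) ∂PT ≤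
      ENNReal.ofReal (Real.exp (∑ p ∈ s, (‖(a p : ℂ) + b p * e p‖ ^ 2 / p + rmC C0 * (p : ℝ) ^ (-(3/2) : ℝ)))) := by
  have := PT_prob
  set f : (ℕ → ℂ) → ℝ := fun X => wp s a X * wp s b (fun p => X p * e p) with hf
  have hfm : Measurable f := by
    refine (wp_meas s a).mul ((wp_meas s b).comp ?_)
    exact measurable_pi_lambda _ (fun p => (measurable_pi_apply p).mul_const _)
  have hfX : Measurable (fun θ : Om => f (Xt θ)) := hfm.comp rm_Xt_meas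
  have hm : Measurable (fun θ : Om => f (fun p => Xt θ p * ee (t p))) := by
    refine hfm.comp (measurable_pi_lambda _ (fun p => ?_))
    exact (rm_cont_ee.measurable.comp (measurable_pi_apply p)).mul_const _
  have hpos : ∀ θ, 0 ≤ f (fun p => Xt θ p * ee (t p)) := fun θ =>
    mul_nonneg (wp_pos hs a (rm_unit θ t)).le (wp_pos hs b (rm_unit' θ t he)).le
  have hint : Integrable (fun θ : Om => f (fun p => Xt θ p * ee (t p))) PT := by
    refine Integrable.mono' (integrable_const ((4 ^ (2 * C0)) ^ s.card * (4 ^ (2 * C0)) ^ s.card)) hm.aestronglyMeasurable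
      (Eventually.of_forall fun θ => ?_)
    rw [Real.norm_eq_abs, abs_of_nonneg (hpos θ)]
    exact mul_le_mul (wp_le hs ha (rm_unit θ t)) (wp_le hs hb (rm_unit' θ t he)) (wp_pos hs b (rm_unit' θ t he)).le (by positivity)
  rw [← ofReal_integral_eq_lintegral_ofReal hint (Eventually.of_forall hpos)]
  refine ENNReal.ofReal_le_ofReal ?_
  rw [torus_rot t f hfX hfm]
  have h1 : ∫ θ, f (Xt θ) ∂PT = ∫ θ, ∏ p ∈ s, (nm (Xt θ p) p ^ (2 * a p) * nm (Xt θ p * e p) p ^ (2 * b p)) ∂PT := by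
    refine integral_congr_ae (Eventually.of_forall fun θ => ?_)
    simp only [hf, wp]
    rw [← Finset.prod_mul_distrib]
  rw [h1, torus_prod_real s (fun p z => nm z p ^ (2 * a p) * nm (z * e p) p ^ (2 * b p))]
  · rw [Real.exp_sum]
    refine Finset.prod_le_prod (fun p hp => integral_nonneg fun x => ?_) (fun p hp => ?_)
    · unfold nm
      positivity
    · exact rm_onevar hC0 (hs p hp).two_le (ha p).1 (ha p).2 (hb p).1 (hb p).2 (he p)
  · intro p hp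
    refine ContinuousOn.mul ?_ (nm_cont (hs p hp).two_le (he p) _)
    have := nm_cont (hs p hp).two_le (v := 1) norm_one (a p)
    simpa using this

private theorem rm_p32 (s : Finset ℕ) : ∑ p ∈ s, (p : ℝ) ^ (-(3/2) : ℝ) ≤ ∑' n : ℕ, (n : ℝ) ^ (-(3/2) : ℝ) :=
  (Real.summable_nat_rpow.2 (by norm_num)).sum_le_tsum s (fun n _ => by positivity)

private theorem rm_expo {y : ℕ} (hy : 2 ≤ y)
    (hM : ∀ M : ℕ, |∑ n ∈ Finset.Icc 1 M, ∑ p ∈ blk y n, (1 : ℝ) / p - M * Real.log 2| ≤ 1) {k n : ℕ} (hkn : k ≤ n)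
    {f : ℕ → ℝ} {A B D C : ℝ} (hA0 : 0 ≤ A) (hC : 0 ≤ C) (hB0 : 0 ≤ B) (hA : ∀ p ∈ pq y k, f p ≤ A * (1 / p))
    (hB : ∑ m ∈ Finset.Icc (k + 1) n, ∑ p ∈ blk y m, f p ≤ B * (∑ m ∈ Finset.Icc (k + 1) n, ∑ p ∈ blk y m, (1 : ℝ) / p) + D) :
    ∑ p ∈ pq y n, (f p + C * (p : ℝ) ^ (-(3/2) : ℝ)) ≤ A * ((∑ p ∈ pq y 0, (1 : ℝ) / p) + k * Real.log 2 + 1) +
      B * ((n - k) * Real.log 2 + 2) + D + C * ∑' n : ℕ, (n : ℝ) ^ (-(3/2) : ℝ) := by
  rw [Finset.sum_add_distrib, ← Finset.mul_sum, rm_sum_split hy f hkn]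
  have e1 : ∑ p ∈ pq y k, f p ≤ A * ∑ p ∈ pq y k, (1 : ℝ) / p := by
    rw [Finset.mul_sum]
    exact Finset.sum_le_sum hA
  have e2 := rm_sum_split hy (fun p : ℕ => (1 : ℝ) / p) (Nat.zero_le k)
  have e3 := rm_sum_split hy (fun p : ℕ => (1 : ℝ) / p) (Nat.zero_le n)
  have e4 := rm_sum_split hy (fun p : ℕ => (1 : ℝ) / p) hkn
  rw [zero_add] at e2 e3
  have m1 := abs_le.1 (hM k)
  have m2 := abs_le.1 (hM n)
  have e5 : ∑ p ∈ pq y k, (1 : ℝ) / p ≤ (∑ p ∈ pq y 0, (1 : ℝ) / p) + k * Real.log 2 + 1 := by linarith [m1.2]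
  have e6 : ∑ m ∈ Finset.Icc (k + 1) n, ∑ p ∈ blk y m, (1 : ℝ) / p ≤ (n - k) * Real.log 2 + 2 := by
    linarith [m1.1, m2.2]
  have e7 := mul_le_mul_of_nonneg_left e5 hA0
  have e8 := mul_le_mul_of_nonneg_left e6 hB0
  have e9 := mul_le_mul_of_nonneg_left (rm_p32 (pq y n)) hC
  linarith

private noncomputable def GG (κ : ℝ) (y n : ℕ) : ℝ := ∫ θ', ‖Eu (pq y n) (Xt θ')‖ ^ (2 * κ) ∂PT

private theorem rm_G {κ : ℝ} (h0 : 0 < κ) (h1 : κ < 1) : ∃ c : ℝ, 0 < c ∧ ∀ y : ℕ, 100 ≤ y → ∀ n : ℕ,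
    c * Real.exp (κ ^ 2 * (n * Real.log 2)) ≤ GG κ y n := by
  obtain ⟨c, C, hc, hC, h⟩ := Eu_moment κ h0 h1
  refine ⟨c, hc, fun y hy n => ?_⟩
  have hY : 2 ≤ y ^ 2 ^ n := by
    calc 2 ≤ y := by omega
      _ = y ^ 1 := (pow_one y).symm
      _ ≤ y ^ 2 ^ n := Nat.pow_le_pow_right (by omega) Nat.one_le_two_pow
  have hb : blk (y ^ 2 ^ n) 0 = pq y n := rfl
  have := (h (y ^ 2 ^ n) hY).1
  rw [hb] at this
  refine le_trans (mul_le_mul_of_nonneg_left ?_ hc.le) this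
  have hy' : (100 : ℝ) ≤ y := by exact_mod_cast hy
  have hl : 1 ≤ Real.log y := by
    rw [Real.le_log_iff_exp_le (by linarith)]
    have := Real.exp_one_lt_d9
    linarith
  have e1 : Real.exp (κ ^ 2 * (n * Real.log 2)) = ((2 : ℝ) ^ n) ^ (κ ^ 2) := by
    rw [Real.rpow_def_of_pos (by positivity), Real.log_pow]
    congr 1
    ring
  rw [e1]
  refine Real.rpow_le_rpow (by positivity) ?_ (by positivity)
  push_cast
  rw [Real.log_pow]
  push_cast
  have : (0 : ℝ) < 2 ^ n := by positivity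
  nlinarith

private noncomputable def Xx (θ : Om) (x : ℝ) : ℕ → ℂ := fun p => Xt θ p * Xp x p

private theorem Xp_ee (x : ℝ) (p : ℕ) : Xp x p = ee (-(x * Real.log p) / (2 * Real.pi)) := by
  unfold Xp ee
  congr 1
  have : (Real.pi : ℂ) ≠ 0 := by exact_mod_cast Real.pi_ne_zero
  push_cast
  field_simp

private theorem Xp_norm (x : ℝ) (p : ℕ) : ‖Xp x p‖ = 1 := by
  rw [Xp_ee]
  exact rm_norm_ee _

private theorem rmXp_add (x u : ℝ) (p : ℕ) : Xp (x + u) p = Xp x p * Xp u p := by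
  unfold Xp
  rw [← Complex.exp_add]
  congr 1
  push_cast
  ring

private theorem Xp_re (u : ℝ) (p : ℕ) : (Xp u p).re = Real.cos (u * Real.log p) := by
  unfold Xp
  rw [← ofReal_neg, exp_ofReal_mul_I_re, Real.cos_neg]

private theorem Xx_norm (θ : Om) (x : ℝ) (p : ℕ) : ‖Xx θ x p‖ = 1 := by
  unfold Xx
  rw [norm_mul, Xp_norm, mul_one]
  exact rm_norm_ee _

private theorem Xx_meas : Measurable (fun z : Om × ℝ => Xx z.1 z.2) := by
  refine measurable_pi_lambda _ (fun p => ?_)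
  unfold Xx
  refine Measurable.mul ?_ ?_
  · exact rm_cont_ee.measurable.comp ((measurable_pi_apply p).comp measurable_fst)
  · have : Continuous (fun x : ℝ => Xp x p) := by
      unfold Xp
      fun_prop
    exact this.measurable.comp measurable_snd

private theorem dn_eq (κ : ℝ) (y n : ℕ) (θ : Om) (x : ℝ) :
    dn κ y n θ x = wp (pq y n) (fun _ => κ) (Xx θ x) / GG κ y n := by
  unfold dn GG
  rw [Eu_wp]
  rfl

private theorem dn_meas (κ : ℝ) (y n : ℕ) : Measurable (fun z : Om × ℝ => dn κ y n z.1 z.2) := by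
  simp_rw [dn_eq]
  exact ((wp_meas _ _).comp Xx_meas).div_const _

private noncomputable def a1 (κ q : ℝ) (y k : ℕ) (p : ℕ) : ℝ := if p ∈ pq y k then κ * q else κ

private noncomputable def a2 (κ q : ℝ) (y k : ℕ) (p : ℕ) : ℝ := if p ∈ pq y k then κ * (q - 1) else κ

private theorem a1_bd {κ q : ℝ} (h0 : 0 < κ) (h1 : κ < 1) (hq : 1 < q) (hq2 : q < 2) (y k p : ℕ) :
    0 ≤ a1 κ q y k p ∧ a1 κ q y k p ≤ 2 := by
  unfold a1
  split_ifs
  · exact ⟨by positivity, by nlinarith⟩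
  · exact ⟨h0.le, by linarith⟩

private theorem a2_bd {κ q : ℝ} (h0 : 0 < κ) (h1 : κ < 1) (hq : 1 < q) (hq2 : q < 2) (y k p : ℕ) :
    0 ≤ a2 κ q y k p ∧ a2 κ q y k p ≤ 2 := by
  unfold a2
  split_ifs
  · exact ⟨mul_nonneg h0.le (by linarith), by nlinarith⟩
  · exact ⟨h0.le, by linarith⟩

private theorem wp_zero (s : Finset ℕ) (X : ℕ → ℂ) : wp s (fun _ => 0) X = 1 := by
  unfold wp
  refine Finset.prod_eq_one (fun p _ => ?_)
  rw [mul_zero, Real.rpow_zero]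

private theorem rm_B1 {κ q : ℝ} (h0 : 0 < κ) (h1 : κ < 1) (hq : 1 < q) (hq2 : q < 2) {y : ℕ} (hy : 100 ≤ y)
    (hM : ∀ M : ℕ, |∑ n ∈ Finset.Icc 1 M, ∑ p ∈ blk y n, (1 : ℝ) / p - M * Real.log 2| ≤ 1) :
    ∃ K : ℝ, 0 < K ∧ ∀ n k : ℕ, k ≤ n → ∀ x : ℝ,
      ∫⁻ θ, ENNReal.ofReal (wp (pq y n) (a1 κ q y k) (Xx θ x) / GG κ y n) ∂PT ≤
        ENNReal.ofReal (K * Real.exp (k * Real.log 2 * (κ ^ 2 * (q ^ 2 - 1)))) := by
  obtain ⟨c, hc, hG⟩ := rm_G h0 h1
  set S0 : ℝ := ∑ p ∈ pq y 0, (1 : ℝ) / p with hS0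
  set Z0 : ℝ := ∑' n : ℕ, (n : ℝ) ^ (-(3/2) : ℝ) with hZ0
  refine ⟨Real.exp ((κ * q) ^ 2 * (S0 + 1) + κ ^ 2 * 2 + rmC 2 * Z0) / c, by positivity, fun n k hkn x => ?_⟩
  have hGn := hG y hy n
  have hGpos : 0 < GG κ y n := lt_of_lt_of_le (by positivity) hGn
  have hE := rm_E (C0 := 2) (by norm_num) (s := pq y n) (fun p hp => rm_pq_prime hp) (a := a1 κ q y k) (b := fun _ => 0)
    (a1_bd h0 h1 hq hq2 y k) (fun p => ⟨le_rfl, by norm_num⟩) (e := fun _ => 1) (fun _ => norm_one)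
    (fun p => -(x * Real.log p) / (2 * Real.pi))
  simp only [wp_zero, mul_one, ofReal_zero, add_zero] at hE
  have hX : ∀ θ : Om, (fun p => Xt θ p * ee (-(x * Real.log p) / (2 * Real.pi))) = Xx θ x := by
    intro θ
    funext p
    unfold Xx
    rw [Xp_ee]
  simp_rw [hX] at hE
  have hdiv : ∀ θ : Om, ENNReal.ofReal (wp (pq y n) (a1 κ q y k) (Xx θ x) / GG κ y n) =
      ENNReal.ofReal (wp (pq y n) (a1 κ q y k) (Xx θ x)) * ENNReal.ofReal (GG κ y n)⁻¹ := by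
    intro θ
    rw [div_eq_mul_inv, ENNReal.ofReal_mul (wp_pos (fun p hp => rm_pq_prime hp) _ (Xx_norm θ x)).le]
  simp_rw [hdiv]
  rw [lintegral_mul_const' _ _ ENNReal.ofReal_ne_top]
  refine (mul_le_mul_left hE _).trans ?_
  rw [← ENNReal.ofReal_mul (Real.exp_pos _).le]
  refine ENNReal.ofReal_le_ofReal ?_
  have hx := rm_expo (y := y) (by omega) hM hkn (f := fun p => ‖(a1 κ q y k p : ℂ)‖ ^ 2 / p) (A := (κ * q) ^ 2) (B := κ ^ 2)
    (D := 0) (C := rmC 2) (by positivity) (by unfold rmC; positivity) (by positivity) (fun p hp => ?_) ?_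
  · rw [← hS0, ← hZ0] at hx
    calc Real.exp (∑ p ∈ pq y n, (‖(a1 κ q y k p : ℂ)‖ ^ 2 / p + rmC 2 * (p : ℝ) ^ (-(3/2) : ℝ))) * (GG κ y n)⁻¹
        ≤ Real.exp ((κ * q) ^ 2 * (S0 + k * Real.log 2 + 1) + κ ^ 2 * ((n - k) * Real.log 2 + 2) + 0 + rmC 2 * Z0) *
          (c * Real.exp (κ ^ 2 * (n * Real.log 2)))⁻¹ :=
          mul_le_mul (Real.exp_le_exp.2 hx) (inv_anti₀ (by positivity) hGn) (by positivity) (Real.exp_pos _).le
      _ = Real.exp ((κ * q) ^ 2 * (S0 + 1) + κ ^ 2 * 2 + rmC 2 * Z0) / c *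
          Real.exp (k * Real.log 2 * (κ ^ 2 * (q ^ 2 - 1))) := by
          rw [mul_inv, ← Real.exp_neg, div_mul_eq_mul_div, ← Real.exp_add, div_eq_mul_inv, mul_comm c⁻¹, ← mul_assoc,
            ← Real.exp_add]
          congr 2
          ring
  · simp only [a1, if_pos hp]
    rw [Complex.norm_real, Real.norm_eq_abs, sq_abs]
    rw [mul_one_div]
  · rw [add_zero, Finset.mul_sum]
    refine Finset.sum_le_sum (fun m hm => ?_)
    rw [Finset.mul_sum]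
    refine Finset.sum_le_sum (fun p hp => ?_)
    have hnot := rm_blk_not (y := y) (by omega) (Finset.mem_Icc.1 hm).1 hp
    simp only [a1, if_neg hnot]
    rw [Complex.norm_real, Real.norm_eq_abs, sq_abs, mul_one_div]

private theorem rm_B2 {κ q : ℝ} (h0 : 0 < κ) (h1 : κ < 1) (hq : 1 < q) (hq2 : q < 2) {y : ℕ} (hy : 100 ≤ y)
    (hM : ∀ M : ℕ, |∑ n ∈ Finset.Icc 1 M, ∑ p ∈ blk y n, (1 : ℝ) / p - M * Real.log 2| ≤ 1) :
    ∃ K : ℝ, 0 < K ∧ ∀ n k : ℕ, k ≤ n → ∀ x u : ℝ, |u| ≤ 1 → (k < n → 1 / (2 ^ k * Real.log y) ≤ |u|) →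
      ∫⁻ θ, ENNReal.ofReal (wp (pq y n) (a2 κ q y k) (Xx θ x) / GG κ y n * dn κ y n θ (x + u)) ∂PT ≤
        ENNReal.ofReal (K * Real.exp (k * Real.log 2 * (κ ^ 2 * (q ^ 2 - 2)))) := by
  obtain ⟨c, hc, hG⟩ := rm_G h0 h1
  obtain ⟨C3, hC3, hcos⟩ := cos_sum
  set S0 : ℝ := ∑ p ∈ pq y 0, (1 : ℝ) / p with hS0
  set Z0 : ℝ := ∑' n : ℕ, (n : ℝ) ^ (-(3/2) : ℝ) with hZ0
  refine ⟨Real.exp ((κ * q) ^ 2 * (S0 + 1) + 2 * κ ^ 2 * 2 + 2 * κ ^ 2 * C3 + rmC 2 * Z0) / c ^ 2, by positivity,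
    fun n k hkn x u hu hu2 => ?_⟩
  have hGn := hG y hy n
  have hGpos : 0 < GG κ y n := lt_of_lt_of_le (by positivity) hGn
  have hE := rm_E (C0 := 2) (by norm_num) (s := pq y n) (fun p hp => rm_pq_prime hp) (a := a2 κ q y k) (b := fun _ => κ)
    (a2_bd h0 h1 hq hq2 y k) (fun p => ⟨h0.le, by linarith⟩) (e := fun p => Xp u p) (fun p => Xp_norm u p)
    (fun p => -(x * Real.log p) / (2 * Real.pi))
  have hX : ∀ θ : Om, (fun p => Xt θ p * ee (-(x * Real.log p) / (2 * Real.pi))) = Xx θ x := by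
    intro θ
    funext p
    unfold Xx
    rw [Xp_ee]
  have hX2 : ∀ θ : Om, (fun p => Xt θ p * ee (-(x * Real.log p) / (2 * Real.pi)) * Xp u p) = Xx θ (x + u) := by
    intro θ
    funext p
    unfold Xx
    rw [rmXp_add, ← Xp_ee, mul_assoc]
  simp_rw [hX, hX2] at hE
  have hdiv : ∀ θ : Om, ENNReal.ofReal (wp (pq y n) (a2 κ q y k) (Xx θ x) / GG κ y n * dn κ y n θ (x + u)) =
      ENNReal.ofReal (wp (pq y n) (a2 κ q y k) (Xx θ x) * wp (pq y n) (fun _ => κ) (Xx θ (x + u))) *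
        ENNReal.ofReal (GG κ y n ^ 2)⁻¹ := by
    intro θ
    rw [dn_eq, ← ENNReal.ofReal_mul (mul_nonneg (wp_pos (fun p hp => rm_pq_prime hp) _ (Xx_norm θ x)).le
      (wp_pos (fun p hp => rm_pq_prime hp) _ (Xx_norm θ (x + u))).le)]
    congr 1
    field_simp
  simp_rw [hdiv]
  rw [lintegral_mul_const' _ _ ENNReal.ofReal_ne_top]
  refine (mul_le_mul_left hE _).trans ?_
  rw [← ENNReal.ofReal_mul (Real.exp_pos _).le]
  refine ENNReal.ofReal_le_ofReal ?_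
  have hx := rm_expo (y := y) (by omega) hM hkn (f := fun p => ‖(a2 κ q y k p : ℂ) + κ * Xp u p‖ ^ 2 / p) (A := (κ * q) ^ 2)
    (B := 2 * κ ^ 2) (D := 2 * κ ^ 2 * C3) (C := rmC 2) (by positivity) (by unfold rmC; positivity) (by positivity)
    (fun p hp => ?_) ?_
  · rw [← hS0, ← hZ0] at hx
    calc Real.exp (∑ p ∈ pq y n, (‖(a2 κ q y k p : ℂ) + κ * Xp u p‖ ^ 2 / p + rmC 2 * (p : ℝ) ^ (-(3/2) : ℝ))) *
          (GG κ y n ^ 2)⁻¹
        ≤ Real.exp ((κ * q) ^ 2 * (S0 + k * Real.log 2 + 1) + 2 * κ ^ 2 * ((n - k) * Real.log 2 + 2) + 2 * κ ^ 2 * C3 +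
          rmC 2 * Z0) * ((c * Real.exp (κ ^ 2 * (n * Real.log 2))) ^ 2)⁻¹ :=
          mul_le_mul (Real.exp_le_exp.2 hx) (inv_anti₀ (by positivity) (pow_le_pow_left₀ (by positivity) hGn 2))
            (by positivity) (Real.exp_pos _).le
      _ = Real.exp ((κ * q) ^ 2 * (S0 + 1) + 2 * κ ^ 2 * 2 + 2 * κ ^ 2 * C3 + rmC 2 * Z0) / c ^ 2 *
          Real.exp (k * Real.log 2 * (κ ^ 2 * (q ^ 2 - 2))) := by
          have e0 : (c * Real.exp (κ ^ 2 * (n * Real.log 2))) ^ 2 = c ^ 2 * Real.exp (2 * (κ ^ 2 * (n * Real.log 2))) := by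
            rw [mul_pow c, ← Real.exp_nat_mul]
            push_cast
            rfl
          rw [e0, mul_inv, ← Real.exp_neg, div_mul_eq_mul_div, ← Real.exp_add, div_eq_mul_inv,
            mul_comm (c ^ 2)⁻¹, ← mul_assoc, ← Real.exp_add]
          congr 2
          ring
  · simp only [a2, if_pos hp]
    rw [div_eq_mul_one_div]
    refine mul_le_mul_of_nonneg_right ?_ (by positivity)
    refine pow_le_pow_left₀ (norm_nonneg _) ?_ 2
    refine (norm_add_le _ _).trans ?_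
    rw [norm_mul, Xp_norm, Complex.norm_real, Complex.norm_real, Real.norm_eq_abs, Real.norm_eq_abs, abs_of_pos h0,
      abs_of_nonneg (mul_nonneg h0.le (by linarith))]
    linarith
  · have hsum : ∑ m ∈ Finset.Icc (k + 1) n, ∑ p ∈ blk y m, ‖(a2 κ q y k p : ℂ) + κ * Xp u p‖ ^ 2 / p =
        2 * κ ^ 2 * (∑ m ∈ Finset.Icc (k + 1) n, ∑ p ∈ blk y m, (1 : ℝ) / p) +
        2 * κ ^ 2 * (∑ m ∈ Finset.Icc (k + 1) n, ∑ p ∈ blk y m, Real.cos (u * Real.log p) / p) := by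
      rw [Finset.mul_sum, Finset.mul_sum, ← Finset.sum_add_distrib]
      refine Finset.sum_congr rfl (fun m hm => ?_)
      rw [Finset.mul_sum, Finset.mul_sum, ← Finset.sum_add_distrib]
      refine Finset.sum_congr rfl (fun p hp => ?_)
      have hnot := rm_blk_not (y := y) (by omega) (Finset.mem_Icc.1 hm).1 hp
      simp only [a2, if_neg hnot]
      have e1 : ‖(κ : ℂ) + κ * Xp u p‖ ^ 2 = κ ^ 2 * (2 + 2 * Real.cos (u * Real.log p)) := by
        have e2 : ‖1 + Xp u p‖ ^ 2 = 2 + 2 * (Xp u p).re := by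
          have e3 : (Xp u p).re ^ 2 + (Xp u p).im ^ 2 = 1 := by
            have := Xp_norm u p
            rw [← sq_eq_sq₀ (norm_nonneg _) zero_le_one, ← normSq_eq_norm_sq, normSq_apply] at this
            nlinarith
          rw [← normSq_eq_norm_sq, normSq_apply]
          simp only [add_re, one_re, add_im, one_im, zero_add]
          nlinarith
        rw [show (κ : ℂ) + κ * Xp u p = κ * (1 + Xp u p) by ring, norm_mul, mul_pow, Complex.norm_real, Real.norm_eq_abs,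
          sq_abs, e2, Xp_re]
      rw [e1]
      ring
    rw [hsum]
    have hD : ∑ m ∈ Finset.Icc (k + 1) n, ∑ p ∈ blk y m, Real.cos (u * Real.log p) / p ≤ C3 := by
      rcases Nat.lt_or_ge k n with hlt | hge
      · exact (le_abs_self _).trans (hcos y k n u hy hkn (hu2 hlt) hu)
      · have : k = n := le_antisymm hkn hge
        subst this
        simp [hC3.le]
    have := mul_le_mul_of_nonneg_left hD (by positivity : 0 ≤ 2 * κ ^ 2)
    linarith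

private theorem rm_ident {κ q : ℝ} {y n k : ℕ} (θ : Om) (x : ℝ) (hG : 0 < GG κ y n) :
    (wp (pq y n) (a1 κ q y k) (Xx θ x) / GG κ y n) ^ (2 - q) * (wp (pq y n) (a2 κ q y k) (Xx θ x) / GG κ y n) ^ (q - 1) =
      dn κ y n θ x := by
  have hs : ∀ p ∈ pq y n, p.Prime := fun p hp => rm_pq_prime hp
  have w1 := wp_pos hs (a1 κ q y k) (Xx_norm θ x)
  have w2 := wp_pos hs (a2 κ q y k) (Xx_norm θ x)
  rw [Real.div_rpow w1.le hG.le, Real.div_rpow w2.le hG.le, wp_rpow hs _ _ (Xx_norm θ x), wp_rpow hs _ _ (Xx_norm θ x),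
    div_mul_div_comm, wp_mul hs _ _ (Xx_norm θ x), ← Real.rpow_add hG, dn_eq]
  have e1 : (2 - q + (q - 1)) = 1 := by ring
  rw [e1, Real.rpow_one]
  congr 1
  refine wp_congr (fun p hp => ?_) _
  unfold a1 a2
  split_ifs
  · ring
  · ring

attribute [local irreducible] wp Xx GG dn

private theorem Xx_meas1 (x : ℝ) : Measurable (fun θ : Om => Xx θ x) := by
  have h : Measurable (fun θ : Om => (θ, x)) := measurable_id.prodMk measurable_const
  exact Xx_meas.comp h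

private theorem wpX_meas (s : Finset ℕ) (a : ℕ → ℝ) (x G : ℝ) : Measurable (fun θ : Om => wp s a (Xx θ x) / G) := by
  have h : Measurable (fun θ : Om => wp s a (Xx θ x)) := (wp_meas s a).comp (Xx_meas1 x)
  exact h.div_const G

private theorem dn_meas2 (κ : ℝ) (y n : ℕ) (x : ℝ) : Measurable (fun z : Om × ℝ => dn κ y n z.1 (x + z.2)) := by
  have h : Measurable (fun z : Om × ℝ => (z.1, x + z.2)) := measurable_fst.prodMk (measurable_snd.const_add x)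
  exact (dn_meas κ y n).comp h

private theorem dn_meas3 (κ : ℝ) (y n : ℕ) : Measurable (fun w : (Om × ℝ) × ℝ => dn κ y n w.1.1 (w.1.2 + w.2)) := by
  have h : Measurable (fun w : (Om × ℝ) × ℝ => (w.1.1, w.1.2 + w.2)) :=
    (measurable_fst.comp measurable_fst).prodMk ((measurable_snd.comp measurable_fst).add measurable_snd)
  exact (dn_meas κ y n).comp h

private theorem dn_meas4 (κ : ℝ) (y n : ℕ) (θ : Om) : Measurable (fun v : ℝ => dn κ y n θ v) := by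
  have h : Measurable (fun v : ℝ => (θ, v)) := measurable_const.prodMk measurable_id
  exact (dn_meas κ y n).comp h

/-- one annulus -/
private theorem rm_ann {κ q : ℝ} (hq : 1 < q) (hq2 : q < 2) {y n k : ℕ} (x : ℝ) (hG : 0 < GG κ y n) {A : Set ℝ}
    (hA : MeasurableSet A) {B1 B2 m : ℝ} (hB1 : 0 ≤ B1) (hB2 : 0 ≤ B2) (hm : 0 ≤ m) (hvol : volume A ≤ ENNReal.ofReal m)
    (h1 : ∫⁻ θ, ENNReal.ofReal (wp (pq y n) (a1 κ q y k) (Xx θ x) / GG κ y n) ∂PT ≤ ENNReal.ofReal B1)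
    (h2 : ∀ u ∈ A, ∫⁻ θ, ENNReal.ofReal (wp (pq y n) (a2 κ q y k) (Xx θ x) / GG κ y n * dn κ y n θ (x + u)) ∂PT ≤
      ENNReal.ofReal B2) :
    ∫⁻ θ, ENNReal.ofReal (dn κ y n θ x) * (∫⁻ u in A, ENNReal.ofReal (dn κ y n θ (x + u))) ^ (q - 1) ∂PT ≤
      ENNReal.ofReal (B1 ^ (2 - q) * (B2 * m) ^ (q - 1)) := by
  have := PT_prob
  have hs : ∀ p ∈ pq y n, p.Prime := fun p hp => rm_pq_prime hp
  have hc1 : Measurable (fun θ : Om => ENNReal.ofReal (wp (pq y n) (a1 κ q y k) (Xx θ x) / GG κ y n)) :=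
    (wpX_meas _ _ x _).ennreal_ofReal
  have hc2' : Measurable (fun z : Om × ℝ => ENNReal.ofReal (wp (pq y n) (a2 κ q y k) (Xx z.1 x) / GG κ y n *
      dn κ y n z.1 (x + z.2))) := by
    have e1 : Measurable (fun z : Om × ℝ => wp (pq y n) (a2 κ q y k) (Xx z.1 x) / GG κ y n) :=
      (wpX_meas (pq y n) (a2 κ q y k) x (GG κ y n)).comp measurable_fst
    exact (e1.mul (dn_meas2 κ y n x)).ennreal_ofReal
  have hc2 : Measurable (fun θ : Om => ∫⁻ u in A, ENNReal.ofReal (wp (pq y n) (a2 κ q y k) (Xx θ x) / GG κ y n *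
      dn κ y n θ (x + u))) := hc2'.lintegral_prod_right'
  have hpt : ∀ θ : Om, ENNReal.ofReal (dn κ y n θ x) * (∫⁻ u in A, ENNReal.ofReal (dn κ y n θ (x + u))) ^ (q - 1) =
      (ENNReal.ofReal (wp (pq y n) (a1 κ q y k) (Xx θ x) / GG κ y n)) ^ (2 - q) *
      (∫⁻ u in A, ENNReal.ofReal (wp (pq y n) (a2 κ q y k) (Xx θ x) / GG κ y n * dn κ y n θ (x + u))) ^ (q - 1) := by
    intro θ
    have w1 := div_pos (wp_pos hs (a1 κ q y k) (Xx_norm θ x)) hG
    have w2 := div_pos (wp_pos hs (a2 κ q y k) (Xx_norm θ x)) hG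
    have e1 : ∀ u, ENNReal.ofReal (wp (pq y n) (a2 κ q y k) (Xx θ x) / GG κ y n * dn κ y n θ (x + u)) =
        ENNReal.ofReal (wp (pq y n) (a2 κ q y k) (Xx θ x) / GG κ y n) * ENNReal.ofReal (dn κ y n θ (x + u)) :=
      fun u => ENNReal.ofReal_mul w2.le
    simp_rw [e1]
    rw [lintegral_const_mul' _ _ ENNReal.ofReal_ne_top, ENNReal.mul_rpow_of_nonneg _ _ (by linarith), ← mul_assoc,
      ENNReal.ofReal_rpow_of_pos w1, ENNReal.ofReal_rpow_of_pos w2, ← ENNReal.ofReal_mul (Real.rpow_nonneg w1.le _),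
      rm_ident θ x hG]
  simp_rw [hpt]
  refine (holder2 hc1.aemeasurable hc2.aemeasurable (by linarith) (by linarith) (by ring)).trans ?_
  have hswap : ∫⁻ θ, (∫⁻ u in A, ENNReal.ofReal (wp (pq y n) (a2 κ q y k) (Xx θ x) / GG κ y n * dn κ y n θ (x + u))) ∂PT ≤
      ENNReal.ofReal (B2 * m) := by
    rw [lintegral_lintegral_swap hc2'.aemeasurable]
    refine (setLIntegral_mono' hA h2).trans ?_
    rw [setLIntegral_const, ENNReal.ofReal_mul hB2]
    exact mul_le_mul_right hvol _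
  rw [ENNReal.ofReal_mul (Real.rpow_nonneg hB1 _), ← ENNReal.ofReal_rpow_of_nonneg hB1 (by linarith),
    ← ENNReal.ofReal_rpow_of_nonneg (mul_nonneg hB2 hm) (by linarith)]
  exact mul_le_mul' (ENNReal.rpow_le_rpow h1 (by linarith)) (ENNReal.rpow_le_rpow hswap (by linarith))

private def Ak (y n k : ℕ) : Set ℝ :=
  {u | |u| ≤ 1 ∧ |u| ≤ 2 * (1 / 2) ^ k ∧ (k < n → 1 / (2 ^ k * Real.log y) ≤ |u|)}

private theorem Ak_meas (y n k : ℕ) : MeasurableSet (Ak y n k) := by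
  unfold Ak
  refine (measurableSet_le measurable_norm measurable_const).inter
    ((measurableSet_le measurable_norm measurable_const).inter ?_)
  by_cases h : k < n
  · simp only [h, forall_true_left]
    exact measurableSet_le measurable_const measurable_norm
  · simp only [h, IsEmpty.forall_iff]
    exact MeasurableSet.univ

private theorem Ak_vol (y n k : ℕ) : volume (Ak y n k) ≤ ENNReal.ofReal (4 * (1 / 2) ^ k) := by
  have : Ak y n k ⊆ Icc (-(2 * (1 / 2) ^ k)) (2 * (1 / 2) ^ k) := fun u hu => abs_le.1 hu.2.1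
  refine (measure_mono this).trans ?_
  rw [Real.volume_Icc]
  refine ENNReal.ofReal_le_ofReal (le_of_eq ?_)
  ring

private theorem Ak_cover {y : ℕ} (hy : 100 ≤ y) (n : ℕ) {u : ℝ} (hu : |u| ≤ 1) : ∃ k ∈ Finset.range (n + 1), u ∈ Ak y n k := by
  have hy' : (100 : ℝ) ≤ y := by exact_mod_cast hy
  have hl : 1 ≤ Real.log y := by
    rw [Real.le_log_iff_exp_le (by linarith)]
    have := Real.exp_one_lt_d9
    linarith
  by_cases h : ∃ k, k < n ∧ 1 / (2 ^ k * Real.log y) ≤ |u|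
  · classical
    set k := Nat.find h with hk
    obtain ⟨h1, h2⟩ := Nat.find_spec h
    refine ⟨k, Finset.mem_range.2 (by omega), hu, ?_, fun _ => h2⟩
    rcases Nat.eq_zero_or_pos k with h0 | h0
    · rw [h0]
      linarith
    · obtain ⟨j, hj⟩ : ∃ j, k = j + 1 := ⟨k - 1, by omega⟩
      have h3 := Nat.find_min h (m := j) (by omega)
      push Not at h3
      have h4 := h3 (by omega)
      rw [hj, pow_succ]
      have h5 : 1 / (2 ^ j * Real.log y) ≤ (1 / 2 : ℝ) ^ j := by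
        rw [one_div_pow, one_div_le_one_div (by positivity) (by positivity)]
        nlinarith [pow_pos (zero_lt_two' ℝ) j]
      linarith
  · push Not at h
    refine ⟨n, Finset.mem_range.2 (by omega), hu, ?_, fun h => absurd h (lt_irrefl _)⟩
    rcases Nat.eq_zero_or_pos n with h0 | h0
    · rw [h0]
      linarith
    · obtain ⟨j, hj⟩ : ∃ j, n = j + 1 := ⟨n - 1, by omega⟩
      have h4 := h j (by omega)
      rw [hj, pow_succ]
      have h5 : 1 / (2 ^ j * Real.log y) ≤ (1 / 2 : ℝ) ^ j := by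
        rw [one_div_pow, one_div_le_one_div (by positivity) (by positivity)]
        nlinarith [pow_pos (zero_lt_two' ℝ) j]
      linarith

/-- the mass is at most the sum over the annuli -/
private theorem rm_cover {κ : ℝ} {y : ℕ} (hy : 100 ≤ y) (n : ℕ) (θ : Om) {x : ℝ} (hx : x ∈ Icc (0 : ℝ) 1) :
    ∫⁻ v in Icc (0:ℝ) 1, ENNReal.ofReal (dn κ y n θ v) ≤
      ∑ k ∈ Finset.range (n + 1), ∫⁻ u in Ak y n k, ENNReal.ofReal (dn κ y n θ (x + u)) := by
  have hm : Measurable (fun v : ℝ => ENNReal.ofReal (dn κ y n θ v)) := (dn_meas4 κ y n θ).ennreal_ofReal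
  rw [← lintegral_indicator measurableSet_Icc, ← lintegral_add_left_eq_self _ x]
  have h1 : ∀ k ∈ Finset.range (n + 1), ∫⁻ u in Ak y n k, ENNReal.ofReal (dn κ y n θ (x + u)) =
      ∫⁻ u, (Ak y n k).indicator (fun u => ENNReal.ofReal (dn κ y n θ (x + u))) u := fun k _ =>
    (lintegral_indicator (Ak_meas y n k) _).symm
  rw [Finset.sum_congr rfl h1, ← lintegral_finsetSum]
  · refine lintegral_mono (fun u => ?_)
    simp only
    by_cases hu : x + u ∈ Icc (0 : ℝ) 1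
    · rw [indicator_of_mem hu]
      have hu1 : |u| ≤ 1 := abs_le.2 ⟨by linarith [hu.1, hx.2], by linarith [hu.2, hx.1]⟩
      obtain ⟨k, hk, hku⟩ := Ak_cover hy n hu1
      have : ENNReal.ofReal (dn κ y n θ (x + u)) =
        (Ak y n k).indicator (fun u => ENNReal.ofReal (dn κ y n θ (x + u))) u := by rw [indicator_of_mem hku]
      rw [this]
      exact Finset.single_le_sum (f := fun k => (Ak y n k).indicator (fun u => ENNReal.ofReal (dn κ y n θ (x + u))) u)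
        (fun _ _ => bot_le) hk
    · rw [indicator_of_notMem hu]
      exact bot_le
  · intro k _
    have h2 : Measurable (fun u : ℝ => x + u) := measurable_id.const_add x
    exact (hm.comp h2).indicator (Ak_meas y n k)

theorem rm_moment (κ : ℝ) (h0 : 0 < κ) (h1 : κ < 1) : ∃ q : ℝ, 1 < q ∧ ∃ y0 : ℕ, 100 ≤ y0 ∧ ∀ y : ℕ, y0 ≤ y → ∃ C : ℝ, 0 < C ∧ ∀ n : ℕ,
    ∫⁻ θ, (∫⁻ x in Icc (0:ℝ) 1, ENNReal.ofReal (dn κ y n θ x)) ^ q ∂PT ≤ ENNReal.ofReal C := by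
  have := PT_prob
  have hk2 : κ ^ 2 < 1 := by nlinarith
  obtain ⟨q, hq, hqm⟩ := exists_between (show (1 : ℝ) < min 2 (κ ^ 2)⁻¹ from lt_min (by norm_num) ((one_lt_inv₀ (by positivity)).2 hk2))
  have hq2 : q < 2 := lt_of_lt_of_le hqm (min_le_left _ _)
  have hqk : κ ^ 2 * q < 1 := by
    have : q < (κ ^ 2)⁻¹ := lt_of_lt_of_le hqm (min_le_right _ _)
    rwa [← mul_comm, ← lt_div_iff₀ (by positivity), one_div]
  obtain ⟨y0, hy0, hmert⟩ := mert_blk
  obtain ⟨c, hc, hGl⟩ := rm_G h0 h1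
  refine ⟨q, hq, y0, hy0, fun y hy => ?_⟩
  have hy100 : 100 ≤ y := by omega
  obtain ⟨K1, hK1, hB1⟩ := rm_B1 h0 h1 hq hq2 hy100 (hmert y hy).2
  obtain ⟨K2, hK2, hB2⟩ := rm_B2 h0 h1 hq hq2 hy100 (hmert y hy).2
  set η : ℝ := (q - 1) * (1 - κ ^ 2 * q) with hη
  have hηp : 0 < η := mul_pos (by linarith) (by linarith)
  set ρ : ℝ := Real.exp (-(Real.log 2 * η)) with hρ
  have hl2 : 0 < Real.log 2 := Real.log_pos (by norm_num)
  have hρ1 : ρ < 1 := by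
    rw [hρ, ← Real.exp_zero, Real.exp_lt_exp]
    nlinarith [mul_pos hl2 hηp]
  have hρ0 : 0 < ρ := Real.exp_pos _
  set K3 : ℝ := K1 ^ (2 - q) * (K2 * 4) ^ (q - 1) with hK3
  have hK3p : 0 < K3 := by positivity
  have h1ρ : 0 < 1 - ρ := by linarith
  refine ⟨K3 * (1 - ρ)⁻¹, by positivity, fun n => ?_⟩
  have hG : 0 < GG κ y n := lt_of_lt_of_le (by positivity) (hGl y hy100 n)
  -- one annulus
  have hann : ∀ k ∈ Finset.range (n + 1), ∀ x : ℝ,
      ∫⁻ θ, ENNReal.ofReal (dn κ y n θ x) * (∫⁻ u in Ak y n k, ENNReal.ofReal (dn κ y n θ (x + u))) ^ (q - 1) ∂PT ≤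
        ENNReal.ofReal (K3 * ρ ^ k) := by
    intro k hk x
    have hkn : k ≤ n := by
      have := Finset.mem_range.1 hk
      omega
    refine (rm_ann hq hq2 x hG (Ak_meas y n k) (by positivity) (by positivity) (by positivity) (Ak_vol y n k)
      (hB1 n k hkn x) (fun u hu => hB2 n k hkn x u hu.1 hu.2.2)).trans ?_
    refine ENNReal.ofReal_le_ofReal (le_of_eq ?_)
    have e1 : (1 / 2 : ℝ) ^ k = Real.exp (-(k * Real.log 2)) := by
      rw [one_div_pow, one_div, Real.exp_neg, ← Real.log_pow, Real.exp_log (by positivity)]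
    have e2 : K2 * Real.exp (k * Real.log 2 * (κ ^ 2 * (q ^ 2 - 2))) * (4 * (1 / 2) ^ k) =
        (K2 * 4) * Real.exp (k * Real.log 2 * (κ ^ 2 * (q ^ 2 - 2)) + -(k * Real.log 2)) := by
      rw [e1, Real.exp_add]
      ring
    rw [e2, Real.mul_rpow hK1.le (Real.exp_pos _).le, Real.mul_rpow (by positivity) (Real.exp_pos _).le, ← Real.exp_mul,
      ← Real.exp_mul, hρ, ← Real.exp_nat_mul, hK3]
    have e3 : Real.exp (k * -(Real.log 2 * η)) = Real.exp (k * Real.log 2 * (κ ^ 2 * (q ^ 2 - 1)) * (2 - q)) *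
        Real.exp ((k * Real.log 2 * (κ ^ 2 * (q ^ 2 - 2)) + -(k * Real.log 2)) * (q - 1)) := by
      rw [← Real.exp_add]
      congr 1
      rw [hη]
      ring
    rw [e3]
    ring
  -- measurability
  have mD : Measurable (fun z : Om × ℝ => ENNReal.ofReal (dn κ y n z.1 z.2)) := (dn_meas κ y n).ennreal_ofReal
  have mI : ∀ k, Measurable (fun z : Om × ℝ => ∫⁻ u in Ak y n k, ENNReal.ofReal (dn κ y n z.1 (z.2 + u))) := by
    intro k
    have : Measurable (fun w : (Om × ℝ) × ℝ => ENNReal.ofReal (dn κ y n w.1.1 (w.1.2 + w.2))) :=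
      (dn_meas3 κ y n).ennreal_ofReal
    exact this.lintegral_prod_right'
  have mT : ∀ k, Measurable (fun z : Om × ℝ => ENNReal.ofReal (dn κ y n z.1 z.2) *
      (∫⁻ u in Ak y n k, ENNReal.ofReal (dn κ y n z.1 (z.2 + u))) ^ (q - 1)) := fun k => mD.mul ((mI k).pow_const _)
  have mL : Measurable (fun x : Om => ∫⁻ v in Icc (0:ℝ) 1, ENNReal.ofReal (dn κ y n x v)) := mD.lintegral_prod_right'
  have hpt : ∀ θ : Om, (∫⁻ x in Icc (0:ℝ) 1, ENNReal.ofReal (dn κ y n θ x)) ^ q ≤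
      ∫⁻ x in Icc (0:ℝ) 1, ∑ k ∈ Finset.range (n + 1), ENNReal.ofReal (dn κ y n θ x) *
        (∫⁻ u in Ak y n k, ENNReal.ofReal (dn κ y n θ (x + u))) ^ (q - 1) := by
    intro θ
    have hsp : (∫⁻ x in Icc (0:ℝ) 1, ENNReal.ofReal (dn κ y n θ x)) ^ q =
        ∫⁻ x in Icc (0:ℝ) 1, ENNReal.ofReal (dn κ y n θ x) * (∫⁻ v in Icc (0:ℝ) 1, ENNReal.ofReal (dn κ y n θ v)) ^ (q - 1) := by
      have hmθ : Measurable (fun v : ℝ => ENNReal.ofReal (dn κ y n θ v)) := (dn_meas4 κ y n θ).ennreal_ofReal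
      rw [lintegral_mul_const _ hmθ]
      conv_lhs => rw [show q = 1 + (q - 1) by ring]
      rw [ENNReal.rpow_add_of_nonneg _ _ zero_le_one (by linarith), ENNReal.rpow_one]
    rw [hsp]
    refine setLIntegral_mono' measurableSet_Icc (fun x hx => ?_)
    rw [← Finset.mul_sum]
    refine mul_le_mul_right ?_ _
    exact (ENNReal.rpow_le_rpow (rm_cover hy100 n θ hx) (by linarith)).trans
      (sum_rpow_le _ _ (by linarith) (by linarith))
  refine (lintegral_mono hpt).trans ?_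
  rw [lintegral_lintegral_swap]
  · have hin : ∀ x ∈ Icc (0:ℝ) 1, ∫⁻ θ, ∑ k ∈ Finset.range (n + 1), ENNReal.ofReal (dn κ y n θ x) *
        (∫⁻ u in Ak y n k, ENNReal.ofReal (dn κ y n θ (x + u))) ^ (q - 1) ∂PT ≤ ENNReal.ofReal (K3 * (1 - ρ)⁻¹) := by
      intro x _
      rw [lintegral_finsetSum]
      · refine (Finset.sum_le_sum (fun k hk => hann k hk x)).trans ?_
        rw [← ENNReal.ofReal_sum_of_nonneg (fun k _ => by positivity), ← Finset.mul_sum]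
        refine ENNReal.ofReal_le_ofReal (mul_le_mul_of_nonneg_left ?_ hK3p.le)
        rw [← tsum_geometric_of_lt_one hρ0.le hρ1]
        exact (summable_geometric_of_lt_one hρ0.le hρ1).sum_le_tsum _ (fun k _ => by positivity)
      · intro k _
        have h2 : Measurable (fun θ : Om => (θ, x)) := measurable_id.prodMk measurable_const
        exact (mT k).comp h2
    refine (setLIntegral_mono' measurableSet_Icc hin).trans ?_
    rw [setLIntegral_const, Real.volume_Icc]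
    simp
  · refine Measurable.aemeasurable ?_
    exact Finset.measurable_sum _ (fun k _ => mT k)

end CZ
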