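import Pool.Agent.Lib.MP_9eae41_pr.V2

set_option autoImplicit false

open Complex MeasureTheory Set Filter Topology
open scoped ComplexConjugate ENNReal

namespace CZ

/-! Row X1 (250 lines): sharp means at x in [0,1]: from upper, lower, mu_sharp, mu_lower, torus_rot, Eu_moment. -/

/-- the predicted ratio -/
noncomputable def RR (κ : ℝ) (y : ℕ) (h : (ℕ → ℂ) → ℝ) (x : ℝ) : ℝ :=
  (∫ θ, ‖Eu (blk y 0) (fun p => Xt θ p * Xp x p)‖ ^ (2 * κ) * h (Xt θ) ∂PT) /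
    ∫ θ, ‖Eu (blk y 0) (fun p => Xt θ p * Xp x p)‖ ^ (2 * κ) ∂PT

private theorem x1_Zcont : Continuous Z := by
  rw [continuous_iff_continuousAt]
  intro t
  have hne : (1 / 2 + t * I : ℂ) ≠ 1 := by
    intro h
    have := congrArg Complex.re h
    simp at this
  have h1 : ContinuousAt riemannZeta (1 / 2 + t * I) := (differentiableAt_riemannZeta hne).continuousAt
  have h2 : ContinuousAt (fun t : ℝ => (1 / 2 + t * I : ℂ)) t := by fun_prop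
  exact (ContinuousAt.comp (f := fun t : ℝ => (1 / 2 + t * I : ℂ)) h1 h2).norm

private theorem x1_Z0 (t : ℝ) : 0 ≤ Z t := norm_nonneg _

/-- the twist moved to x -/
private noncomputable def x1_h (h : (ℕ → ℂ) → ℝ) (x : ℝ) (X : ℕ → ℂ) : ℝ := h (fun p => X p * conj (Xp x p))

private theorem x1_hc {h : (ℕ → ℂ) → ℝ} (hc : Continuous h) (x : ℝ) : Continuous (x1_h h x) := by
  unfold x1_h
  refine hc.comp (continuous_pi fun p => ?_)
  exact (continuous_apply p).mul continuous_const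

private theorem x1_conj (x : ℝ) (p : ℕ) : Xp x p * conj (Xp x p) = 1 := by
  rw [Complex.mul_conj, Complex.normSq_eq_norm_sq, norm_Xp]
  norm_num

private theorem x1_hX (h : (ℕ → ℂ) → ℝ) (x : ℝ) (X : ℕ → ℂ) : x1_h h x (fun p => X p * Xp x p) = h X := by
  unfold x1_h
  congr 1
  ext p
  rw [mul_assoc, x1_conj, mul_one]

private theorem x1_ht (h : (ℕ → ℂ) → ℝ) (x t : ℝ) : x1_h h x (Xp (t + x)) = h (Xp t) := by
  rw [← x1_hX h x (Xp t)]
  congr 1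
  ext p
  exact Xp_add t x p

/-- the integrand at s -/
private noncomputable def x1_G (κ : ℝ) (h : (ℕ → ℂ) → ℝ) (x s : ℝ) : ℝ := Z s ^ (2 * κ) * x1_h h x (Xp s)

private theorem x1_Gc {κ : ℝ} (h0 : 0 < κ) {h : (ℕ → ℂ) → ℝ} (hc : Continuous h) (x : ℝ) :
    Continuous (x1_G κ h x) := by
  unfold x1_G
  exact (x1_Zcont.rpow_const fun _ => Or.inr (by positivity)).mul ((x1_hc hc x).comp Xp_cont)

private theorem x1_G0 (κ : ℝ) {h : (ℕ → ℂ) → ℝ} (hp : ∀ X, 0 ≤ h X) (x s : ℝ) : 0 ≤ x1_G κ h x s :=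
  mul_nonneg (Real.rpow_nonneg (x1_Z0 s) _) (hp _)

private theorem x1_Gm {κ : ℝ} (h0 : 0 < κ) {h : (ℕ → ℂ) → ℝ} (hc : Continuous h) (x : ℝ) :
    Measurable (fun s => ENNReal.ofReal (x1_G κ h x s)) :=
  ENNReal.measurable_ofReal.comp (x1_Gc h0 hc x).measurable

private theorem x1_Gt (κ : ℝ) (h : (ℕ → ℂ) → ℝ) (x t : ℝ) :
    x1_G κ h x (t + x) = Z (t + x) ^ (2 * κ) * h (Xp t) := by
  unfold x1_G
  rw [x1_ht]

private theorem x1_Eum (s : Finset ℕ) : Measurable (fun X : ℕ → ℂ => Eu s X) := by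
  unfold Eu
  refine Finset.measurable_prod s fun p _ => ?_
  exact (measurable_const.sub ((measurable_pi_apply p).mul_const _)).inv

private theorem x1_ee (x : ℝ) (p : ℕ) : ee (-(x * Real.log p) / (2 * Real.pi)) = Xp x p := by
  unfold ee Xp
  congr 1
  have hpi : (Real.pi : ℂ) ≠ 0 := by exact_mod_cast Real.pi_ne_zero
  push_cast
  field_simp

private theorem x1_rot {κ : ℝ} {h : (ℕ → ℂ) → ℝ} (hc : Continuous h) (y : ℕ) (x : ℝ) :
    ∫ θ, ‖Eu (blk y 0) (Xt θ)‖ ^ (2 * κ) * x1_h h x (Xt θ) ∂PT =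
      ∫ θ, ‖Eu (blk y 0) (fun p => Xt θ p * Xp x p)‖ ^ (2 * κ) * h (Xt θ) ∂PT := by
  have hm : Measurable (fun X : ℕ → ℂ => ‖Eu (blk y 0) X‖ ^ (2 * κ) * x1_h h x X) :=
    ((x1_Eum (blk y 0)).norm.pow_const _).mul (x1_hc hc x).measurable
  have := torus_rot (fun p => -(x * Real.log p) / (2 * Real.pi))
    (fun X => ‖Eu (blk y 0) X‖ ^ (2 * κ) * x1_h h x X) (hm.comp Xt_cont.measurable) hm
  rw [← this]
  refine integral_congr_ae (Eventually.of_forall fun θ => ?_)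
  simp only [x1_ee]
  rw [x1_hX]

private theorem x1_rot1 {κ : ℝ} (y : ℕ) (x : ℝ) :
    ∫ θ, ‖Eu (blk y 0) (Xt θ)‖ ^ (2 * κ) ∂PT =
      ∫ θ, ‖Eu (blk y 0) (fun p => Xt θ p * Xp x p)‖ ^ (2 * κ) ∂PT := by
  have := x1_rot (κ := κ) (h := fun _ => (1 : ℝ)) continuous_const y x
  simpa [x1_h] using this

private theorem x1_N0 {κ : ℝ} {h : (ℕ → ℂ) → ℝ} (hp : ∀ X, 0 ≤ h X) (y : ℕ) (x : ℝ) :
    0 ≤ ∫ θ, ‖Eu (blk y 0) (Xt θ)‖ ^ (2 * κ) * x1_h h x (Xt θ) ∂PT :=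
  integral_nonneg fun _ => mul_nonneg (Real.rpow_nonneg (norm_nonneg _) _) (hp _)

/-- comparison of the normalisations -/
private theorem x1_RR {κ : ℝ} {c C : ℝ} (hc0 : 0 < c) {y : ℕ} (hy : 2 ≤ y)
    (hE : c * Real.log y ^ (κ ^ 2) ≤ ∫ θ, ‖Eu (blk y 0) (Xt θ)‖ ^ (2 * κ) ∂PT ∧
      ∫ θ, ‖Eu (blk y 0) (Xt θ)‖ ^ (2 * κ) ∂PT ≤ C * Real.log y ^ (κ ^ 2))
    {h : (ℕ → ℂ) → ℝ} (hc : Continuous h) (hp : ∀ X, 0 ≤ h X) (x : ℝ) :
    c * RR κ y h x ≤ Real.log y ^ (-κ ^ 2) * ∫ θ, ‖Eu (blk y 0) (Xt θ)‖ ^ (2 * κ) * x1_h h x (Xt θ) ∂PT ∧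
    Real.log y ^ (-κ ^ 2) * ∫ θ, ‖Eu (blk y 0) (Xt θ)‖ ^ (2 * κ) * x1_h h x (Xt θ) ∂PT ≤ C * RR κ y h x := by
  have hlog : 0 < Real.log y := Real.log_pos (by exact_mod_cast (by omega : 1 < y))
  have hL : 0 < Real.log y ^ (κ ^ 2) := Real.rpow_pos_of_pos hlog _
  have hLi : Real.log y ^ (-κ ^ 2) = (Real.log y ^ (κ ^ 2))⁻¹ := Real.rpow_neg hlog.le _
  have hN := x1_N0 (κ := κ) hp y x
  obtain ⟨h1, h2⟩ := hE
  unfold RR
  rw [← x1_rot hc, ← x1_rot1, hLi]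
  set N := ∫ θ, ‖Eu (blk y 0) (Xt θ)‖ ^ (2 * κ) * x1_h h x (Xt θ) ∂PT
  set Dn := ∫ θ, ‖Eu (blk y 0) (Xt θ)‖ ^ (2 * κ) ∂PT
  set L := Real.log y ^ (κ ^ 2)
  have hD : 0 < Dn := lt_of_lt_of_le (by positivity) h1
  constructor
  · rw [← div_eq_inv_mul, mul_div_assoc', div_le_div_iff₀ hD hL]
    nlinarith
  · rw [← div_eq_inv_mul, mul_div_assoc', div_le_div_iff₀ hL hD]
    nlinarith

/-- the sharp mean at x, from above -/
private theorem x1_up {κ : ℝ} (h0 : 0 < κ) {h : (ℕ → ℂ) → ℝ} (hc : Continuous h) {x : ℝ} (hx : x ∈ Icc (0:ℝ) 1) {T : ℝ}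
    (hT : 1 ≤ T) :
    ENNReal.ofReal T⁻¹ * ∫⁻ t in Icc 0 T, ENNReal.ofReal (x1_G κ h x (t + x)) ≤
      9 * ∫⁻ t, ENNReal.ofReal (x1_G κ h x t) ∂mu T := by
  have hT0 : 0 < T := by linarith
  have hm := x1_Gm h0 hc x
  have hm' : Measurable (fun t => ENNReal.ofReal (x1_G κ h x (t + x))) := hm.comp (measurable_id.add_const x)
  have h1 := mu_sharp hT0 hm'
  have h2 := mu_shift hT hx.1 hx.2 hm
  calc ENNReal.ofReal T⁻¹ * ∫⁻ t in Icc 0 T, ENNReal.ofReal (x1_G κ h x (t + x))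
      ≤ ENNReal.ofReal T⁻¹ * (ENNReal.ofReal (3 * T) * (3 * ∫⁻ t, ENNReal.ofReal (x1_G κ h x t) ∂mu T)) := by
        gcongr
        exact h1.trans (by gcongr)
    _ = ENNReal.ofReal T⁻¹ * ENNReal.ofReal (3 * T) * 3 * ∫⁻ t, ENNReal.ofReal (x1_G κ h x t) ∂mu T := by ring
    _ = 9 * ∫⁻ t, ENNReal.ofReal (x1_G κ h x t) ∂mu T := by
        congr 1
        rw [← ENNReal.ofReal_mul (by positivity)]
        have : T⁻¹ * (3 * T) = 3 := by field_simp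
        rw [this]
        have h3 : ENNReal.ofReal 3 = 3 := by norm_num
        rw [h3]
        norm_num

theorem up_x (κ : ℝ) (h0 : 0 < κ) (h1 : κ < 1) : ∃ (C : ℝ) (y0 : ℕ), 0 < C ∧ 100 ≤ y0 ∧ ∀ y : ℕ, y0 ≤ y →
    ∀ h : (ℕ → ℂ) → ℝ, Continuous h → (∀ X, 0 ≤ h X) → (∀ X Y : ℕ → ℂ, (∀ p ∈ blk y 0, X p = Y p) → h X = h Y) →
    ∀ x ∈ Icc (0:ℝ) 1, ∀ ε : ℝ, 0 < ε → ∃ T0 : ℝ, 3 ≤ T0 ∧ ∀ T : ℝ, T0 ≤ T →
    ENNReal.ofReal T⁻¹ * ∫⁻ t in Icc 0 T, ENNReal.ofReal (Z (t + x) ^ (2 * κ) * h (Xp t)) ≤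
      ENNReal.ofReal (Real.log T ^ (κ ^ 2) * (C * RR κ y h x + ε)) := by
  obtain ⟨C, y0, hC, hy0, hU⟩ := upper κ h0 h1
  obtain ⟨cE, CE, hcE, hCE, hE⟩ := Eu_moment κ h0 h1
  refine ⟨9 * C * CE, y0, by positivity, hy0, fun y hy h hc hp hd x hx ε hε => ?_⟩
  obtain ⟨T0, hT0, hT⟩ := hU y hy (x1_h h x) (x1_hc hc x) (fun X => hp _)
    (fun X Y hXY => hd _ _ fun p hp' => by rw [hXY p hp']) (ε / 9) (by positivity)
  refine ⟨T0, hT0, fun T hTT => ?_⟩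
  have hT3 : 3 ≤ T := hT0.trans hTT
  have e1 : ∫⁻ t in Icc 0 T, ENNReal.ofReal (Z (t + x) ^ (2 * κ) * h (Xp t)) =
      ∫⁻ t in Icc 0 T, ENNReal.ofReal (x1_G κ h x (t + x)) :=
    lintegral_congr fun t => by rw [x1_Gt]
  rw [e1]
  refine (x1_up h0 hc hx (by linarith)).trans ?_
  have h9 : (9 : ℝ≥0∞) = ENNReal.ofReal 9 := by norm_num
  have h2 := hT T hTT
  calc 9 * ∫⁻ t, ENNReal.ofReal (x1_G κ h x t) ∂mu T
      ≤ 9 * ENNReal.ofReal (Real.log T ^ (κ ^ 2) *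
      (C * Real.log y ^ (-κ ^ 2) * (∫ θ, ‖Eu (blk y 0) (Xt θ)‖ ^ (2 * κ) * x1_h h x (Xt θ) ∂PT) + ε / 9)) := by
        gcongr
        exact h2
    _ = ENNReal.ofReal (9 * (Real.log T ^ (κ ^ 2) *
      (C * Real.log y ^ (-κ ^ 2) * (∫ θ, ‖Eu (blk y 0) (Xt θ)‖ ^ (2 * κ) * x1_h h x (Xt θ) ∂PT) + ε / 9))) := by
        rw [h9, ← ENNReal.ofReal_mul (by norm_num)]
    _ ≤ _ := by
        refine ENNReal.ofReal_le_ofReal ?_
        have hR := (x1_RR hcE (by omega) (hE y (by omega)) hc hp x).2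
        have hlT : 0 ≤ Real.log T ^ (κ ^ 2) := Real.rpow_nonneg (Real.log_nonneg (by linarith)) _
        calc 9 * (Real.log T ^ (κ ^ 2) *
      (C * Real.log y ^ (-κ ^ 2) * (∫ θ, ‖Eu (blk y 0) (Xt θ)‖ ^ (2 * κ) * x1_h h x (Xt θ) ∂PT) + ε / 9))
            = Real.log T ^ (κ ^ 2) * (9 * C * (Real.log y ^ (-κ ^ 2) *
              (∫ θ, ‖Eu (blk y 0) (Xt θ)‖ ^ (2 * κ) * x1_h h x (Xt θ) ∂PT)) + ε) := by ring
          _ ≤ Real.log T ^ (κ ^ 2) * (9 * C * (CE * RR κ y h x) + ε) := by gcongr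
          _ = _ := by ring

/-- translation: the sharp mean of G over [0,T] is at most the shifted one plus the integral over [0,1] -/
private theorem x1_shift {κ : ℝ} (h0 : 0 < κ) {h : (ℕ → ℂ) → ℝ} (hc : Continuous h) {x : ℝ} (hx : x ∈ Icc (0:ℝ) 1)
    {T : ℝ} : ∫⁻ s in Icc 0 T, ENNReal.ofReal (x1_G κ h x s) ≤
      (∫⁻ t in Icc 0 T, ENNReal.ofReal (x1_G κ h x (t + x))) +
        ∫⁻ s in Icc 0 1, ENNReal.ofReal (x1_G κ h x s) := by
  have hm := x1_Gm (κ := κ) h0 hc x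
  have e1 : ∫⁻ t in Icc 0 T, ENNReal.ofReal (x1_G κ h x (t + x)) =
      ∫⁻ s in Icc x (T + x), ENNReal.ofReal (x1_G κ h x s) := by
    rw [← lintegral_indicator measurableSet_Icc, ← lintegral_indicator measurableSet_Icc,
      ← lintegral_add_right_eq_self (fun s => (Icc x (T + x)).indicator
        (fun s => ENNReal.ofReal (x1_G κ h x s)) s) x]
    refine lintegral_congr fun t => ?_
    by_cases ht : t ∈ Icc 0 T
    · rw [indicator_of_mem ht, indicator_of_mem (by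
        constructor <;> [linarith [ht.1]; linarith [ht.2]])]
    · rw [indicator_of_notMem ht, indicator_of_notMem (fun h' => ht ⟨by linarith [h'.1], by linarith [h'.2]⟩)]
  rw [e1]
  refine le_trans (lintegral_mono_set (s := Icc 0 T) (t := Icc x (T + x) ∪ Icc 0 1) ?_) (lintegral_union_le _ _ _)
  intro s hs
  by_cases h1 : s ≤ 1
  · exact Or.inr ⟨hs.1, h1⟩
  · have h1 := not_le.mp h1
    exact Or.inl ⟨by linarith [hx.2], by linarith [hs.2, hx.1]⟩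

private theorem x1_fin {κ : ℝ} (h0 : 0 < κ) {h : (ℕ → ℂ) → ℝ} (hc : Continuous h) (x : ℝ) :
    ∫⁻ s in Icc 0 1, ENNReal.ofReal (x1_G κ h x s) < ⊤ :=
  ((x1_Gc h0 hc x).continuousOn.integrableOn_Icc (a := 0) (b := 1)).lintegral_lt_top

theorem low_x (κ : ℝ) (h0 : 0 < κ) (h1 : κ < 1) : ∃ (c : ℝ) (y0 : ℕ), 0 < c ∧ 100 ≤ y0 ∧ ∀ y : ℕ, y0 ≤ y →
    ∀ h : (ℕ → ℂ) → ℝ, Continuous h → (∀ X, 0 ≤ h X) → (∀ X Y : ℕ → ℂ, (∀ p ∈ blk y 0, X p = Y p) → h X = h Y) →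
    ∀ x ∈ Icc (0:ℝ) 1, ∀ ε : ℝ, 0 < ε → ∃ T0 : ℝ, 3 ≤ T0 ∧ ∀ T : ℝ, T0 ≤ T →
    ENNReal.ofReal (Real.log T ^ (κ ^ 2) * (c * RR κ y h x - ε)) ≤
      ENNReal.ofReal T⁻¹ * ∫⁻ t in Icc 0 T, ENNReal.ofReal (Z (t + x) ^ (2 * κ) * h (Xp t)) := by
  obtain ⟨C, y1, hC, hy1, hU⟩ := upper κ h0 h1
  obtain ⟨c, y2, hc0, hy2, hL⟩ := lower κ h0 h1
  obtain ⟨cE, CE, hcE, hCE, hE⟩ := Eu_moment κ h0 h1
  -- the small parameter
  obtain ⟨δ, hδ0, hδ1, hδ⟩ : ∃ δ : ℝ, 0 < δ ∧ δ ≤ 1 / 4 ∧ 2 * Real.exp (-(1 / (2 * δ))) * C ≤ c / 4 := by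
    refine ⟨min (1 / 4) (c / (16 * C)), lt_min (by norm_num) (by positivity), min_le_left _ _, ?_⟩
    set d := min (1 / 4) (c / (16 * C)) with hd
    have hd0 : 0 < d := lt_min (by norm_num) (by positivity)
    have hd1 : d ≤ c / (16 * C) := min_le_right _ _
    have h5 : Real.exp (-(1 / (2 * d))) ≤ 2 * d := by
      rw [Real.exp_neg]
      have h6 : 1 / (2 * d) ≤ Real.exp (1 / (2 * d)) := by
        have := Real.add_one_le_exp (1 / (2 * d))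
        linarith
      have h7 : 0 < 1 / (2 * d) := by positivity
      calc (Real.exp (1 / (2 * d)))⁻¹ ≤ (1 / (2 * d))⁻¹ := inv_anti₀ h7 h6
        _ = 2 * d := by rw [one_div, inv_inv]
    calc 2 * Real.exp (-(1 / (2 * d))) * C ≤ 2 * (2 * d) * C := by gcongr
      _ ≤ 2 * (2 * (c / (16 * C))) * C := by gcongr
      _ = c / 4 := by field_simp; norm_num
  refine ⟨δ * (c / 4) * cE, max y1 y2, by positivity, hy1.trans (le_max_left _ _), fun y hy h hc hp hd x hx ε hε => ?_⟩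
  have hyy1 : y1 ≤ y := (le_max_left _ _).trans hy
  have hyy2 : y2 ≤ y := (le_max_right _ _).trans hy
  obtain ⟨TU, hTU3, hTU⟩ := hU y hyy1 (x1_h h x) (x1_hc hc x) (fun X => hp _)
    (fun X Y hXY => hd _ _ fun p hp' => by rw [hXY p hp']) (ε / 4) (by positivity)
  obtain ⟨TL, hTL3, hTL⟩ := hL y hyy2 (x1_h h x) (x1_hc hc x) (fun X => hp _)
    (fun X Y hXY => hd _ _ fun p hp' => by rw [hXY p hp']) (ε / 4) (by positivity)
  set K : ℝ := (∫⁻ s in Icc 0 1, ENNReal.ofReal (x1_G κ h x s)).toReal with hK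
  have hK0 : 0 ≤ K := ENNReal.toReal_nonneg
  have hKe : ENNReal.ofReal K = ∫⁻ s in Icc 0 1, ENNReal.ofReal (x1_G κ h x s) :=
    ENNReal.ofReal_toReal (x1_fin h0 hc x).ne
  set N := ∫ θ, ‖Eu (blk y 0) (Xt θ)‖ ^ (2 * κ) * x1_h h x (Xt θ) ∂PT with hN
  have hN0 : 0 ≤ N := x1_N0 hp y x
  have hy1' : (1:ℝ) < y := by exact_mod_cast (by omega : 1 < y)
  set Ly := Real.log y ^ (-κ ^ 2) with hLy
  have hLy0 : 0 ≤ Ly := Real.rpow_nonneg (Real.log_nonneg hy1'.le) _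
  have hR := (x1_RR hcE (by omega) (hE y (by omega)) hc hp x).1
  rw [← hN, ← hLy] at hR
  refine ⟨3 + TU / δ + TL / δ + (1 / δ) ^ 2 + 4 * K / ε, by
    have : 0 ≤ TU / δ := by positivity
    have : 0 ≤ TL / δ := by positivity
    have : 0 ≤ 4 * K / ε := by positivity
    have : 0 ≤ (1 / δ) ^ 2 := by positivity
    linarith, fun T hT => ?_⟩
  have e1 : 0 ≤ TU / δ := by positivity
  have e2 : 0 ≤ TL / δ := by positivity
  have e3 : 0 ≤ (1 / δ) ^ 2 := by positivity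
  have e4 : 0 ≤ 4 * K / ε := by positivity
  have hT3 : 3 ≤ T := by linarith
  have hT0 : 0 < T := by linarith
  have hTUT : TU ≤ 2 * δ * T := by
    have : TU / δ ≤ T := by linarith
    rw [div_le_iff₀ hδ0] at this
    nlinarith
  have hTLT : TL ≤ δ * T := by
    have : TL / δ ≤ T := by linarith
    rw [div_le_iff₀ hδ0] at this
    linarith
  have hTδ : (1 / δ) ^ 2 ≤ T := by linarith
  have hTK : K / T ≤ ε / 4 := by
    have : 4 * K / ε ≤ T := by linarith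
    rw [div_le_iff₀ hε] at this
    rw [div_le_iff₀ hT0]
    linarith
  set l := Real.log T ^ (κ ^ 2) with hl
  have hlT1 : 1 ≤ Real.log T := by
    rw [Real.le_log_iff_exp_le hT0]
    linarith [Real.exp_one_lt_d9]
  have hl1 : 1 ≤ l := Real.one_le_rpow hlT1 (by positivity)
  have hlU : Real.log (2 * δ * T) ^ (κ ^ 2) ≤ l := by
    refine Real.rpow_le_rpow (Real.log_nonneg (by linarith)) (Real.log_le_log (by positivity) ?_) (by positivity)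
    nlinarith
  have hδT : 0 < δ * T := by positivity
  have hlL : l / 2 ≤ Real.log (δ * T) ^ (κ ^ 2) := by
    have h5 : Real.log T / 2 ≤ Real.log (δ * T) := by
      rw [Real.log_mul hδ0.ne' hT0.ne']
      have h6 : Real.log ((1 / δ) ^ 2) ≤ Real.log T := Real.log_le_log (by positivity) hTδ
      rw [Real.log_pow, one_div, Real.log_inv] at h6
      push_cast at h6
      linarith
    calc l / 2 = l * (1 / 2) ^ (1 : ℝ) := by rw [Real.rpow_one]; ring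
      _ ≤ l * (1 / 2) ^ (κ ^ 2) := by
          refine mul_le_mul_of_nonneg_left ?_ (by linarith)
          refine Real.rpow_le_rpow_of_exponent_ge (by norm_num) (by norm_num) ?_
          nlinarith
      _ = (Real.log T / 2) ^ (κ ^ 2) := by
          rw [hl, ← Real.mul_rpow (by linarith) (by norm_num)]
          congr 1
          ring
      _ ≤ _ := Real.rpow_le_rpow (by linarith) h5 (by positivity)
  have hlL' : Real.log (δ * T) ^ (κ ^ 2) ≤ l := by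
    refine Real.rpow_le_rpow ?_ (Real.log_le_log (by positivity) ?_) (by positivity)
    · exact Real.log_nonneg (by linarith)
    · nlinarith
  -- the two exponential means
  have hm := x1_Gm (κ := κ) h0 hc x
  have h3 := mu_lower hT0 hδ0 hm
  have hlow := hTL (δ * T) hTLT
  have hupp := hTU (2 * δ * T) hTUT
  have hsh := x1_shift (κ := κ) h0 hc hx (T := T)
  have eG : ∫⁻ t in Icc 0 T, ENNReal.ofReal (Z (t + x) ^ (2 * κ) * h (Xp t)) =
      ∫⁻ t in Icc 0 T, ENNReal.ofReal (x1_G κ h x (t + x)) :=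
    lintegral_congr fun t => by rw [x1_Gt]
  rw [eG]
  set J := ∫⁻ t in Icc 0 T, ENNReal.ofReal (x1_G κ h x (t + x)) with hJ
  set w := 2 * δ * Real.exp (-(1 / (2 * δ))) with hw
  have hw0 : 0 ≤ w := by positivity
  have hwC : w * C ≤ δ * (c / 4) := by
    calc w * C = δ * (2 * Real.exp (-(1 / (2 * δ))) * C) := by rw [hw]; ring
      _ ≤ δ * (c / 4) := mul_le_mul_of_nonneg_left hδ hδ0.le
  have hw1 : w ≤ 1 := by
    have : Real.exp (-(1 / (2 * δ))) ≤ 1 := Real.exp_le_one_iff.mpr (by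
      have : 0 < 1 / (2 * δ) := by positivity
      linarith)
    calc w ≤ 2 * δ * 1 := mul_le_mul_of_nonneg_left this (by positivity)
      _ ≤ 1 := by linarith
  have h4 : ENNReal.ofReal (δ * (Real.log (δ * T) ^ (κ ^ 2) * (c * Ly * N - ε / 4))) ≤
      ENNReal.ofReal T⁻¹ * J + ENNReal.ofReal (T⁻¹ * K) +
        ENNReal.ofReal (w * (Real.log (2 * δ * T) ^ (κ ^ 2) * (C * Ly * N + ε / 4))) := by
    rw [ENNReal.ofReal_mul hδ0.le, ENNReal.ofReal_mul (p := T⁻¹) (by positivity), ENNReal.ofReal_mul hw0]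
    calc ENNReal.ofReal δ * ENNReal.ofReal (Real.log (δ * T) ^ (κ ^ 2) * (c * Ly * N - ε / 4))
        ≤ ENNReal.ofReal δ * ∫⁻ t, ENNReal.ofReal (x1_G κ h x t) ∂mu (δ * T) := by gcongr; exact hlow
      _ ≤ _ := h3
      _ ≤ ENNReal.ofReal T⁻¹ * (J + ENNReal.ofReal K) + ENNReal.ofReal w *
          ENNReal.ofReal (Real.log (2 * δ * T) ^ (κ ^ 2) * (C * Ly * N + ε / 4)) := by
          rw [hKe]
          gcongr
          exact hupp
      _ = _ := by rw [mul_add]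
  set A := δ * (Real.log (δ * T) ^ (κ ^ 2) * (c * Ly * N - ε / 4)) with hA
  set B := w * (Real.log (2 * δ * T) ^ (κ ^ 2) * (C * Ly * N + ε / 4)) with hB
  have hB0 : 0 ≤ B := by
    have : 0 ≤ Real.log (2 * δ * T) := Real.log_nonneg (by linarith)
    positivity
  have hTK0 : 0 ≤ T⁻¹ * K := by positivity
  have h5 : ENNReal.ofReal (A - (T⁻¹ * K + B)) ≤ ENNReal.ofReal T⁻¹ * J := by
    rw [ENNReal.ofReal_sub _ (by positivity), ENNReal.ofReal_add hTK0 hB0]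
    rw [tsub_le_iff_right]
    calc ENNReal.ofReal A ≤ _ := h4
      _ = _ := by ring
  refine le_trans (ENNReal.ofReal_le_ofReal ?_) h5
  -- real arithmetic
  have hcLN : 0 ≤ c * Ly * N := by positivity
  have hCLN : 0 ≤ C * Ly * N := by positivity
  have hA1 : δ * (l / 2 * (c * Ly * N) - l * (ε / 4)) ≤ A := by
    rw [hA]
    refine mul_le_mul_of_nonneg_left ?_ hδ0.le
    rw [mul_sub]
    have a1 : l / 2 * (c * Ly * N) ≤ Real.log (δ * T) ^ (κ ^ 2) * (c * Ly * N) :=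
      mul_le_mul_of_nonneg_right hlL hcLN
    have a2 : Real.log (δ * T) ^ (κ ^ 2) * (ε / 4) ≤ l * (ε / 4) :=
      mul_le_mul_of_nonneg_right hlL' (by positivity)
    linarith
  have hB1 : B ≤ w * (l * (C * Ly * N + ε / 4)) := by
    rw [hB]
    refine mul_le_mul_of_nonneg_left ?_ hw0
    exact mul_le_mul_of_nonneg_right hlU (by positivity)
  have hK1 : T⁻¹ * K ≤ l * (ε / 4) := by
    calc T⁻¹ * K = K / T := by rw [div_eq_inv_mul]
      _ ≤ ε / 4 := hTK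
      _ ≤ l * (ε / 4) := le_mul_of_one_le_left (by positivity) hl1
  have h6 : w * (l * (C * Ly * N + ε / 4)) ≤ l * (δ * (c / 4) * (Ly * N)) + l * (ε / 4) := by
    have b1 : w * C * (Ly * N) ≤ δ * (c / 4) * (Ly * N) := mul_le_mul_of_nonneg_right hwC (by positivity)
    have b2 : w * (ε / 4) ≤ 1 * (ε / 4) := mul_le_mul_of_nonneg_right hw1 (by positivity)
    calc w * (l * (C * Ly * N + ε / 4)) = l * (w * C * (Ly * N)) + l * (w * (ε / 4)) := by ring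
      _ ≤ l * (δ * (c / 4) * (Ly * N)) + l * (1 * (ε / 4)) := by gcongr
      _ = _ := by ring
  have h7 : l * (δ * (c / 4) * (cE * RR κ y h x)) ≤ l * (δ * (c / 4) * (Ly * N)) := by gcongr
  have h8 : δ * (l * (ε / 4)) ≤ 1 * (l * (ε / 4)) := mul_le_mul_of_nonneg_right (by linarith) (by positivity)
  calc l * (δ * (c / 4) * cE * RR κ y h x - ε)
      = l * (δ * (c / 4) * (cE * RR κ y h x)) - l * ε := by ring
    _ ≤ l * (δ * (c / 4) * (Ly * N)) - l * ε := by linarith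
    _ ≤ A - (T⁻¹ * K + B) := by
        have : δ * (l / 2 * (c * Ly * N) - l * (ε / 4)) = 2 * (l * (δ * (c / 4) * (Ly * N))) - δ * (l * (ε / 4)) := by
          ring
        linarith

theorem dom_x (κ : ℝ) (h0 : 0 < κ) (h1 : κ < 1) : ∃ C T0 : ℝ, 0 < C ∧ 3 ≤ T0 ∧ ∀ T : ℝ, T0 ≤ T → ∀ x ∈ Icc (0:ℝ) 1,
    ENNReal.ofReal T⁻¹ * ∫⁻ t in Icc 0 T, ENNReal.ofReal (Z (t + x) ^ (2 * κ)) ≤
      ENNReal.ofReal (C * Real.log T ^ (κ ^ 2)) := by
  obtain ⟨C, y0, hC, hy0, hU⟩ := upper κ h0 h1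
  obtain ⟨T0, hT0, hT⟩ := hU y0 le_rfl (fun _ => (1 : ℝ)) continuous_const (fun _ => by norm_num)
    (fun _ _ _ => rfl) 1 one_pos
  set N := ∫ θ, ‖Eu (blk y0 0) (Xt θ)‖ ^ (2 * κ) * (1 : ℝ) ∂PT with hN
  have hN0 : 0 ≤ N := integral_nonneg fun _ => mul_nonneg (Real.rpow_nonneg (norm_nonneg _) _) (by norm_num)
  have hy1 : (1:ℝ) < y0 := by exact_mod_cast (by omega : 1 < y0)
  have hLy0 : 0 ≤ Real.log y0 ^ (-κ ^ 2) := Real.rpow_nonneg (Real.log_nonneg hy1.le) _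
  refine ⟨9 * (C * Real.log y0 ^ (-κ ^ 2) * N + 1), T0, by positivity, hT0, fun T hTT x hx => ?_⟩
  have hT3 : 3 ≤ T := hT0.trans hTT
  have e1 : ∫⁻ t in Icc 0 T, ENNReal.ofReal (Z (t + x) ^ (2 * κ)) =
      ∫⁻ t in Icc 0 T, ENNReal.ofReal (x1_G κ (fun _ => (1 : ℝ)) x (t + x)) :=
    lintegral_congr fun t => by rw [x1_Gt, mul_one]
  have e2 : ∀ t, x1_G κ (fun _ => (1 : ℝ)) x t = Z t ^ (2 * κ) * 1 := fun t => rfl
  rw [e1]
  refine (x1_up h0 continuous_const hx (by linarith)).trans ?_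
  have h9 : (9 : ℝ≥0∞) = ENNReal.ofReal 9 := by norm_num
  have h2 := hT T hTT
  simp only [e2]
  calc 9 * ∫⁻ t, ENNReal.ofReal (Z t ^ (2 * κ) * 1) ∂mu T
      ≤ 9 * ENNReal.ofReal (Real.log T ^ (κ ^ 2) * (C * Real.log y0 ^ (-κ ^ 2) * N + 1)) := by
        gcongr
    _ = ENNReal.ofReal (9 * (Real.log T ^ (κ ^ 2) * (C * Real.log y0 ^ (-κ ^ 2) * N + 1))) := by
        rw [h9, ← ENNReal.ofReal_mul (by norm_num)]
    _ = _ := by
        congr 1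
        ring

end CZ
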