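import Pool.Agent.Lib.MP_9eae41_pr.RM1
import Pool.Agent.Lib.MP_9eae41_pr.X1

set_option autoImplicit false

open Complex MeasureTheory Set Filter Topology
open scoped ComplexConjugate ENNReal

namespace CZ

/-! Row RM2 (250 lines): uniform integrability of the random model and the value of the limit. If the integrals of f against
dn converge almost surely to Lam then E[Lam h] = int f RR. For n >= 0: E[int f dn h(Xt)] = int f x RR (by independence of the
primes > y: torus_blocks_real), and the q-th moments are bounded (rm_moment), so Vitali / tendsto in L1. -/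

/-- the compact torus inside the phases -/
def rm2_K : Set (ℕ → ℂ) := {X | ∀ p, ‖X p‖ = 1}

theorem rm2_compact : IsCompact rm2_K := by
  have h : rm2_K = Set.pi univ (fun _ : ℕ => Metric.sphere (0:ℂ) 1) := by
    ext X
    simp [rm2_K, Set.mem_pi]
  rw [h]
  exact isCompact_univ_pi (fun _ => isCompact_sphere 0 1)

theorem rm2_bdd (G : (ℕ → ℂ) → ℝ) (hG : ContinuousOn G rm2_K) :
    ∃ C : ℝ, 0 ≤ C ∧ ∀ X : ℕ → ℂ, (∀ p, ‖X p‖ = 1) → |G X| ≤ C := by
  obtain ⟨C, hC⟩ := rm2_compact.exists_bound_of_continuousOn hG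
  exact ⟨max C 0, le_max_right _ _, fun X hX => (hC X hX).trans (le_max_left _ _)⟩

theorem rm2_ne {p : ℕ} (hp : p.Prime) {z : ℂ} (hz : ‖z‖ = 1) : (1 - z * ((Real.sqrt p : ℝ) : ℂ)⁻¹) ≠ 0 := by
  intro h
  have h2 : z * ((Real.sqrt p : ℝ) : ℂ)⁻¹ = 1 := (sub_eq_zero.mp h).symm
  have h3 : ‖z * ((Real.sqrt p : ℝ) : ℂ)⁻¹‖ = 1 := by rw [h2]; simp
  rw [norm_mul, hz, one_mul, norm_inv, Complex.norm_real, Real.norm_eq_abs, abs_of_nonneg (Real.sqrt_nonneg _)] at h3
  have h4 : Real.sqrt p = 1 := by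
    have := inv_eq_one.mp h3
    exact this
  have h5 : (p : ℝ) = 1 := by
    have := Real.sq_sqrt (show (0:ℝ) ≤ p by positivity)
    rw [h4] at this
    linarith
  have : p = 1 := by exact_mod_cast h5
  exact hp.one_lt.ne' this

theorem rm2_Eu_cont (S : Finset ℕ) (hS : ∀ p ∈ S, p.Prime) : ContinuousOn (fun X => Eu S X) rm2_K := by
  unfold Eu
  apply continuousOn_finsetProd
  intro p hp
  apply ContinuousOn.inv₀
  · fun_prop
  · intro X hX
    exact rm2_ne (hS p hp) (hX p)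

theorem rm2_Eu_ne (S : Finset ℕ) (hS : ∀ p ∈ S, p.Prime) {X : ℕ → ℂ} (hX : ∀ p, ‖X p‖ = 1) : Eu S X ≠ 0 := by
  unfold Eu
  rw [Finset.prod_ne_zero_iff]
  intro p hp
  exact inv_ne_zero (rm2_ne (hS p hp) (hX p))

theorem rm2_Ew_cont (S : Finset ℕ) (hS : ∀ p ∈ S, p.Prime) (κ : ℝ) (h0 : 0 < κ) :
    ContinuousOn (fun X => ‖Eu S X‖ ^ (2 * κ)) rm2_K := by
  apply ContinuousOn.rpow_const (rm2_Eu_cont S hS).norm
  intro X hX
  right
  positivity

theorem rm2_Eu_meas (S : Finset ℕ) : Measurable (fun X : ℕ → ℂ => Eu S X) := by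
  unfold Eu
  apply Finset.measurable_prod
  intro p hp
  apply Measurable.inv
  fun_prop

theorem rm2_Ew_meas (S : Finset ℕ) (κ : ℝ) : Measurable (fun X : ℕ → ℂ => ‖Eu S X‖ ^ (2 * κ)) :=
  (rm2_Eu_meas S).norm.pow_const _

theorem rm2_rot_mem (θ : Om) (x : ℝ) (p : ℕ) : ‖Xt θ p * Xp x p‖ = 1 := by
  rw [norm_mul, norm_Xt, norm_Xp, one_mul]

theorem rm2_rot_cont : Continuous (fun q : Om × ℝ => (fun p => Xt q.1 p * Xp q.2 p : ℕ → ℂ)) := by
  apply continuous_pi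
  intro p
  have h1 : Continuous (fun q : Om × ℝ => Xt q.1 p) :=
    ((continuous_apply p).comp Xt_cont).comp continuous_fst
  have h2 : Continuous (fun q : Om × ℝ => Xp q.2 p) :=
    ((continuous_apply p).comp Xp_cont).comp continuous_snd
  exact h1.mul h2

theorem rm2_num_cont (S : Finset ℕ) (hS : ∀ p ∈ S, p.Prime) (κ : ℝ) (h0 : 0 < κ) :
    Continuous (fun q : Om × ℝ => ‖Eu S (fun p => Xt q.1 p * Xp q.2 p)‖ ^ (2 * κ)) :=
  (rm2_Ew_cont S hS κ h0).comp_continuous rm2_rot_cont (fun q p => rm2_rot_mem q.1 q.2 p)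

theorem rm2_Xp (x : ℝ) (p : ℕ) : Xp x p = ee (-(x * Real.log p) / (2 * Real.pi)) := by
  unfold Xp ee
  congr 1
  have : (Real.pi : ℂ) ≠ 0 := by exact_mod_cast Real.pi_ne_zero
  push_cast
  field_simp

theorem rm2_rot (S : Finset ℕ) (hS : ∀ p ∈ S, p.Prime) (κ : ℝ) (h0 : 0 < κ) (x : ℝ) :
    ∫ θ, ‖Eu S (fun p => Xt θ p * Xp x p)‖ ^ (2 * κ) ∂PT = ∫ θ, ‖Eu S (Xt θ)‖ ^ (2 * κ) ∂PT := by
  have h := torus_rot (fun p => -(x * Real.log p) / (2 * Real.pi)) (fun X => ‖Eu S X‖ ^ (2 * κ))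
    ((rm2_Ew_cont S hS κ h0).comp_continuous Xt_cont (fun θ p => norm_Xt θ p)).measurable (rm2_Ew_meas S κ)
  simp only [← rm2_Xp] at h
  exact h

/-- integrability of continuous functions of the phases -/
theorem rm2_int {G : (ℕ → ℂ) → ℝ} (hG : ContinuousOn G rm2_K) {φ : Om → (ℕ → ℂ)} (hφ : Continuous φ)
    (hφK : ∀ θ p, ‖φ θ p‖ = 1) : Integrable (fun θ => G (φ θ)) PT := by
  have := PT_prob
  obtain ⟨C, hC0, hC⟩ := rm2_bdd G hG
  have hc : Continuous (fun θ => G (φ θ)) := hG.comp_continuous hφ hφK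
  refine Integrable.mono' (integrable_const C) hc.measurable.aestronglyMeasurable ?_
  exact ae_of_all _ (fun θ => by
    rw [Real.norm_eq_abs]
    exact hC _ (hφK θ))

theorem rm2_rotx_cont (x : ℝ) : Continuous (fun θ : Om => (fun p => Xt θ p * Xp x p : ℕ → ℂ)) :=
  rm2_rot_cont.comp (by fun_prop : Continuous (fun θ : Om => (θ, x)))

theorem rm2_pos (S : Finset ℕ) (hS : ∀ p ∈ S, p.Prime) (κ : ℝ) (h0 : 0 < κ) :
    0 < ∫ θ, ‖Eu S (Xt θ)‖ ^ (2 * κ) ∂PT := by
  have := PT_prob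
  have hint : Integrable (fun θ => ‖Eu S (Xt θ)‖ ^ (2 * κ)) PT :=
    rm2_int (rm2_Ew_cont S hS κ h0) Xt_cont norm_Xt
  rw [integral_pos_iff_support_of_nonneg (fun θ => by positivity) hint]
  have : Function.support (fun θ => ‖Eu S (Xt θ)‖ ^ (2 * κ)) = univ := by
    ext θ
    simp only [Function.mem_support, mem_univ, iff_true]
    have : 0 < ‖Eu S (Xt θ)‖ := norm_pos_iff.mpr (rm2_Eu_ne S hS (norm_Xt θ))
    positivity
  rw [this]
  simp

theorem rm2_split (y n : ℕ) (hy : 2 ≤ y) (κ : ℝ) (X : ℕ → ℂ) :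
    ‖Eu (pq y n) X‖ ^ (2 * κ) = ∏ i ∈ Finset.range (n + 1), ‖Eu (blk y i) X‖ ^ (2 * κ) := by
  rw [Real.finsetProd_rpow _ _ (fun i _ => norm_nonneg _)]
  congr 1
  rw [← norm_prod]
  congr 1
  unfold Eu
  rw [pq_union y n hy, Finset.prod_biUnion]
  intro i _ j _ hij
  exact blk_disj hy hij

theorem rm2_mean (κ : ℝ) (h0 : 0 < κ) (y : ℕ) (hy : 2 ≤ y) (h : (ℕ → ℂ) → ℝ) (hh : ContinuousOn h rm2_K)
    (hd : ∀ X Y : ℕ → ℂ, (∀ p ∈ blk y 0, X p = Y p) → h X = h Y) (n : ℕ) (x : ℝ) :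
    ∫ θ, dn κ y n θ x * h (Xt θ) ∂PT = RR κ y h x := by
  have hbp : ∀ i, ∀ p ∈ blk y i, p.Prime := fun i p hp => blk_prime hp
  -- denominators
  have hD : ∫ θ, ‖Eu (pq y n) (Xt θ)‖ ^ (2 * κ) ∂PT =
      ∏ i ∈ Finset.range (n + 1), ∫ θ, ‖Eu (blk y i) (Xt θ)‖ ^ (2 * κ) ∂PT := by
    have := torus_blocks_real (Finset.range (n + 1)) (blk y) (fun i _ j _ hij => blk_disj hy hij)
      (fun i X => ‖Eu (blk y i) X‖ ^ (2 * κ))
      (fun i _ => ((rm2_Ew_cont _ (hbp i) κ h0).comp_continuous Xt_cont (fun θ p => norm_Xt θ p)).measurable)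
      (fun i _ X Y hXY => by
        simp only [Eu]
        congr 2
        exact Finset.prod_congr rfl (fun p hp => by rw [hXY p hp]))
    rw [← this]
    congr 1
    ext θ
    exact rm2_split y n hy κ _
  -- numerators
  let f : ℕ → (ℕ → ℂ) → ℝ := fun i X => ‖Eu (blk y i) (fun p => X p * Xp x p)‖ ^ (2 * κ) * (if i = 0 then h X else 1)
  have hfm : ∀ i ∈ Finset.range (n + 1), Measurable (fun θ : Om => f i (Xt θ)) := by
    intro i _
    have h1 : Measurable (fun θ : Om => ‖Eu (blk y i) (fun p => Xt θ p * Xp x p)‖ ^ (2 * κ)) :=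
      ((rm2_Ew_cont _ (hbp i) κ h0).comp_continuous (rm2_rotx_cont x) (fun θ p => rm2_rot_mem θ x p)).measurable
    by_cases hi : i = 0
    · simp only [f, hi, if_true]
      rw [hi] at h1
      exact h1.mul (hh.comp_continuous Xt_cont (fun θ p => norm_Xt θ p)).measurable
    · simp only [f, hi, if_false, mul_one]
      exact h1
  have hN : ∫ θ, ‖Eu (pq y n) (fun p => Xt θ p * Xp x p)‖ ^ (2 * κ) * h (Xt θ) ∂PT =
      ∏ i ∈ Finset.range (n + 1), ∫ θ, f i (Xt θ) ∂PT := by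
    have := torus_blocks_real (Finset.range (n + 1)) (blk y) (fun i _ j _ hij => blk_disj hy hij) f hfm
      (fun i _ X Y hXY => by
        have e1 : Eu (blk y i) (fun p => X p * Xp x p) = Eu (blk y i) (fun p => Y p * Xp x p) := by
          simp only [Eu]
          exact Finset.prod_congr rfl (fun p hp => by rw [hXY p hp])
        by_cases hi : i = 0
        · subst hi
          simp only [f, if_true]
          rw [e1, hd X Y hXY]
        · simp only [f, hi, if_false, mul_one]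
          rw [e1])
    rw [← this]
    congr 1
    ext θ
    rw [rm2_split y n hy κ _]
    simp only [f]
    rw [Finset.prod_mul_distrib]
    congr 1
    rw [Finset.prod_ite_eq' (Finset.range (n + 1)) 0 (fun _ => h (Xt θ))]
    simp
  have hf : ∀ i : ℕ, ∫ θ, f (i + 1) (Xt θ) ∂PT = ∫ θ, ‖Eu (blk y (i + 1)) (Xt θ)‖ ^ (2 * κ) ∂PT := by
    intro i
    rw [← rm2_rot _ (hbp (i + 1)) κ h0 x]
    simp [f]
  have hdn : ∀ θ : Om, dn κ y n θ x * h (Xt θ) = (‖Eu (pq y n) (fun p => Xt θ p * Xp x p)‖ ^ (2 * κ) * h (Xt θ)) /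
      ∫ θ', ‖Eu (pq y n) (Xt θ')‖ ^ (2 * κ) ∂PT := by
    intro θ
    unfold dn
    ring
  simp_rw [hdn]
  rw [integral_div, hN, hD, Finset.prod_range_succ', Finset.prod_range_succ']
  simp_rw [hf]
  have hpos : 0 < ∏ i ∈ Finset.range n, ∫ θ, ‖Eu (blk y (i + 1)) (Xt θ)‖ ^ (2 * κ) ∂PT :=
    Finset.prod_pos (fun i _ => rm2_pos _ (hbp _) κ h0)
  rw [mul_div_mul_left _ _ hpos.ne']
  unfold RR
  rw [rm2_rot _ (hbp 0) κ h0 x]
  simp [f]

theorem rm2_pt {q : ℝ} (hq : 1 < q) (G K : ℝ≥0∞) (hK0 : K ≠ 0) (hKt : K ≠ ⊤) : G ≤ min G K + G ^ q * K ^ (1 - q) := by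
  rcases le_total G K with h | h
  · rw [min_eq_left h]
    exact le_self_add
  · refine le_trans ?_ le_add_self
    have h1 : K ^ (q - 1) ≤ G ^ (q - 1) := ENNReal.rpow_le_rpow h (by linarith)
    have h2 : K ^ (q - 1) * K ^ (1 - q) = 1 := by
      rw [← ENNReal.rpow_add _ _ hK0 hKt]
      simp
    have h3 : G ^ q = G * G ^ (q - 1) := by
      by_cases hG : G = ⊤
      · rw [hG, ENNReal.top_rpow_of_pos (by linarith), ENNReal.top_rpow_of_pos (by linarith)]
        simp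
      · have hG0 : G ≠ 0 := fun h0 => hK0 (le_antisymm (h0 ▸ h) (zero_le))
        have := ENNReal.rpow_add 1 (q - 1) hG0 hG
        rw [ENNReal.rpow_one] at this
        rw [← this]
        congr 1
        ring
    calc G = G * (K ^ (q - 1) * K ^ (1 - q)) := by rw [h2, mul_one]
      _ ≤ G * (G ^ (q - 1) * K ^ (1 - q)) := by gcongr
      _ = G ^ q * K ^ (1 - q) := by rw [h3]; ring

/-- mass is kept in the limit when the q-th moments are bounded -/
theorem rm2_trunc {Ω : Type} [MeasurableSpace Ω] {ν : Measure Ω} [IsProbabilityMeasure ν] (G : ℕ → Ω → ℝ≥0∞) (L : Ω → ℝ≥0∞)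
    (hm : ∀ n, Measurable (G n)) (hlim : ∀ᵐ ω ∂ν, Tendsto (fun n => G n ω) atTop (𝓝 (L ω))) (m : ℝ≥0∞)
    (hmean : ∀ n, ∫⁻ ω, G n ω ∂ν = m) {q : ℝ} (hq : 1 < q) (C : ℝ≥0∞) (hC : C ≠ ⊤)
    (hqm : ∀ n, ∫⁻ ω, G n ω ^ q ∂ν ≤ C) : ∫⁻ ω, L ω ∂ν = m := by
  apply le_antisymm
  · have h1 : ∫⁻ ω, L ω ∂ν = ∫⁻ ω, liminf (fun n => G n ω) atTop ∂ν := by
      apply lintegral_congr_ae
      filter_upwards [hlim] with ω hω
      exact hω.liminf_eq.symm
    rw [h1]
    refine (lintegral_liminf_le hm).trans ?_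
    simp [hmean]
  · have key : ∀ K : ℕ, 1 ≤ K → m ≤ ∫⁻ ω, L ω ∂ν + C * ENNReal.ofReal ((K : ℝ) ^ (1 - q)) := by
      intro K hK
      have hK0 : (K : ℝ≥0∞) ≠ 0 := by
        have : K ≠ 0 := by omega
        exact_mod_cast this
      have hKt : (K : ℝ≥0∞) ≠ ⊤ := ENNReal.natCast_ne_top K
      have hKr : (K : ℝ≥0∞) ^ (1 - q) = ENNReal.ofReal ((K : ℝ) ^ (1 - q)) := by
        rw [← ENNReal.ofReal_rpow_of_pos (by exact_mod_cast hK), ENNReal.ofReal_natCast]
      have h1 : Tendsto (fun n => ∫⁻ ω, min (G n ω) K ∂ν) atTop (𝓝 (∫⁻ ω, min (L ω) K ∂ν)) := by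
        apply tendsto_lintegral_of_dominated_convergence (fun _ => (K : ℝ≥0∞))
        · intro n
          exact (hm n).min measurable_const
        · intro n
          exact ae_of_all _ (fun ω => min_le_right _ _)
        · simp [hKt]
        · filter_upwards [hlim] with ω hω
          exact hω.min tendsto_const_nhds
      have h2 : ∀ n, m ≤ ∫⁻ ω, min (G n ω) K ∂ν + C * ENNReal.ofReal ((K : ℝ) ^ (1 - q)) := by
        intro n
        rw [← hmean n, ← hKr]
        calc ∫⁻ ω, G n ω ∂ν ≤ ∫⁻ ω, (min (G n ω) K + G n ω ^ q * (K : ℝ≥0∞) ^ (1 - q)) ∂ν :=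
              lintegral_mono (fun ω => rm2_pt hq _ _ hK0 hKt)
          _ = ∫⁻ ω, min (G n ω) K ∂ν + (∫⁻ ω, G n ω ^ q ∂ν) * (K : ℝ≥0∞) ^ (1 - q) := by
              rw [lintegral_add_left ((hm n).min measurable_const), lintegral_mul_const _ ((hm n).pow_const q)]
          _ ≤ _ := by gcongr; exact hqm n
      have h3 : m ≤ ∫⁻ ω, min (L ω) K ∂ν + C * ENNReal.ofReal ((K : ℝ) ^ (1 - q)) :=
        ge_of_tendsto (h1.add tendsto_const_nhds) (Eventually.of_forall h2)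
      refine h3.trans ?_
      gcongr
      exact min_le_left _ _
    have hz : Tendsto (fun K : ℕ => ∫⁻ ω, L ω ∂ν + C * ENNReal.ofReal ((K : ℝ) ^ (1 - q))) atTop
        (𝓝 (∫⁻ ω, L ω ∂ν + C * ENNReal.ofReal 0)) := by
      apply Tendsto.add tendsto_const_nhds
      apply ENNReal.Tendsto.const_mul _ (Or.inr hC)
      apply ENNReal.tendsto_ofReal
      have h5 := (tendsto_rpow_neg_atTop (show 0 < q - 1 by linarith)).comp (tendsto_natCast_atTop_atTop (R := ℝ))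
      refine h5.congr (fun K => ?_)
      simp only [Function.comp]
      congr 1
      ring
    rw [ENNReal.ofReal_zero, mul_zero, add_zero] at hz
    exact ge_of_tendsto hz (by
      filter_upwards [eventually_ge_atTop 1] with K hK
      exact key K hK)

/-- joint continuity of the density -/
theorem rm2_dn_cont (κ : ℝ) (h0 : 0 < κ) (y n : ℕ) : Continuous (fun z : Om × ℝ => dn κ y n z.1 z.2) := by
  unfold dn
  apply Continuous.div_const
  apply rm2_num_cont _ _ κ h0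
  intro p hp
  unfold pq at hp
  exact (Finset.mem_filter.mp hp).2

theorem rm2_dn_cont1 (κ : ℝ) (h0 : 0 < κ) (y n : ℕ) (x : ℝ) : Continuous (fun θ : Om => dn κ y n θ x) := by
  have h := (rm2_dn_cont κ h0 y n).comp (Continuous.prodMk (continuous_id (X := Om)) (continuous_const (y := x)))
  exact h

theorem rm2_dn_cont2 (κ : ℝ) (h0 : 0 < κ) (y n : ℕ) (θ : Om) : Continuous (fun x : ℝ => dn κ y n θ x) := by
  have h := (rm2_dn_cont κ h0 y n).comp (Continuous.prodMk (continuous_const (y := θ)) (continuous_id (X := ℝ)))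
  exact h

theorem rm2_dn_nonneg (κ : ℝ) (y n : ℕ) (θ : Om) (x : ℝ) : 0 ≤ dn κ y n θ x := by
  unfold dn
  apply div_nonneg (by positivity)
  exact integral_nonneg (fun θ => by positivity)

theorem rm_limit (κ : ℝ) (h0 : 0 < κ) (h1 : κ < 1) : ∃ y0 : ℕ, 100 ≤ y0 ∧ ∀ y : ℕ, y0 ≤ y →
    ∀ h : (ℕ → ℂ) → ℝ, ContinuousOn h {X | ∀ p, ‖X p‖ = 1} → (∀ X, (∀ p, ‖X p‖ = 1) → 0 ≤ h X) → (∀ X Y : ℕ → ℂ, (∀ p ∈ blk y 0, X p = Y p) → h X = h Y) →
    ∀ f : ℝ → ℝ, Continuous f → (∀ x, 0 ≤ f x) → ∀ Lam : Om → ℝ,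
    (∀ᵐ θ ∂PT, Tendsto (fun n : ℕ => ∫ x in Icc (0:ℝ) 1, f x * dn κ y n θ x) atTop (𝓝 (Lam θ))) →
    Integrable (fun θ => Lam θ * h (Xt θ)) PT ∧
      ∫ θ, Lam θ * h (Xt θ) ∂PT = ∫ x in Icc (0:ℝ) 1, f x * RR κ y h x := by
  obtain ⟨q, hq, y0, hy0, hmom⟩ := rm_moment κ h0 h1
  refine ⟨y0, hy0, ?_⟩
  intro y hy h hh hh0 hd f hf hf0 Lam hLam
  obtain ⟨C, hC, hC2⟩ := hmom y hy
  have hy2 : 2 ≤ y := by omega
  have := PT_prob
  -- bounds of f and h
  have hhX : Continuous (fun θ : Om => h (Xt θ)) := hh.comp_continuous Xt_cont (fun θ p => norm_Xt θ p)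
  obtain ⟨Mh, hMh0, hMh⟩ := rm2_bdd h hh
  obtain ⟨Mf, hMf⟩ := isCompact_Icc.exists_bound_of_continuousOn (hf.continuousOn (s := Icc (0:ℝ) 1))
  have hMf0 : 0 ≤ Mf := (norm_nonneg _).trans (hMf 0 (by simp))
  -- the approximations
  let A : ℕ → Om → ℝ := fun n θ => ∫ x in Icc (0:ℝ) 1, f x * dn κ y n θ x
  have hjc : ∀ n, Continuous (fun z : Om × ℝ => f z.2 * dn κ y n z.1 z.2) := fun n =>
    (hf.comp continuous_snd).mul (rm2_dn_cont κ h0 y n)
  have hAm : ∀ n, Measurable (A n) := by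
    intro n
    exact ((hjc n).stronglyMeasurable.integral_prod_right' (ν := volume.restrict (Icc (0:ℝ) 1))).measurable
  have hA0 : ∀ n θ, 0 ≤ A n θ := fun n θ => integral_nonneg (fun x => mul_nonneg (hf0 x) (rm2_dn_nonneg κ y n θ x))
  have hAl : ∀ n θ, ENNReal.ofReal (A n θ) = ∫⁻ x in Icc (0:ℝ) 1, ENNReal.ofReal (f x * dn κ y n θ x) := by
    intro n θ
    apply ofReal_integral_eq_lintegral_ofReal
    · have hc : Continuous (fun x : ℝ => f x * dn κ y n θ x) := hf.mul (rm2_dn_cont2 κ h0 y n θ)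
      exact hc.continuousOn.integrableOn_compact isCompact_Icc
    · exact ae_of_all _ (fun x => mul_nonneg (hf0 x) (rm2_dn_nonneg κ y n θ x))
  let G : ℕ → Om → ℝ≥0∞ := fun n θ => ENNReal.ofReal (A n θ * h (Xt θ))
  have hXm : Measurable (fun θ : Om => h (Xt θ)) := hhX.measurable
  have hGm : ∀ n, Measurable (G n) := fun n => ((hAm n).mul hXm).ennreal_ofReal
  -- RR
  have hRR0 : ∀ x, 0 ≤ RR κ y h x := by
    intro x
    unfold RR
    exact div_nonneg (integral_nonneg (fun θ => mul_nonneg (by positivity) (hh0 _ (norm_Xt _)))) (integral_nonneg (fun θ => by positivity))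
  have hbp : ∀ p ∈ blk y 0, p.Prime := fun p hp => blk_prime hp
  have hRRm : Measurable (fun x => RR κ y h x) := by
    unfold RR
    have c1 : Continuous (fun z : Om × ℝ => ‖Eu (blk y 0) (fun p => Xt z.1 p * Xp z.2 p)‖ ^ (2 * κ)) := rm2_num_cont _ hbp κ h0
    have c2 : Continuous (fun z : Om × ℝ => ‖Eu (blk y 0) (fun p => Xt z.1 p * Xp z.2 p)‖ ^ (2 * κ) * h (Xt z.1)) :=
      c1.mul (hhX.comp continuous_fst)
    have m1 := (c2.stronglyMeasurable.integral_prod_left' (μ := PT)).measurable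
    have m2 := (c1.stronglyMeasurable.integral_prod_left' (μ := PT)).measurable
    exact m1.div m2
  have hmeanR : ∀ n x, ∫⁻ θ, ENNReal.ofReal (dn κ y n θ x * h (Xt θ)) ∂PT = ENNReal.ofReal (RR κ y h x) := by
    intro n x
    rw [← rm2_mean κ h0 y hy2 h hh hd n x]
    symm
    apply ofReal_integral_eq_lintegral_ofReal
    · have hcc : Continuous (fun θ : Om => dn κ y n θ x) := rm2_dn_cont1 κ h0 y n x
      have hpp : ∀ p ∈ pq y n, p.Prime := fun p hp => (Finset.mem_filter.mp hp).2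
      obtain ⟨B, hB0, hB⟩ := rm2_bdd _ (rm2_Ew_cont (pq y n) hpp κ h0)
      refine Integrable.mono' (integrable_const (B / (∫ θ', ‖Eu (pq y n) (Xt θ')‖ ^ (2 * κ) ∂PT) * Mh))
        (hcc.mul hhX).measurable.aestronglyMeasurable ?_
      refine ae_of_all _ (fun θ => ?_)
      rw [Real.norm_eq_abs, abs_mul]
      have e1 : |dn κ y n θ x| ≤ B / (∫ θ', ‖Eu (pq y n) (Xt θ')‖ ^ (2 * κ) ∂PT) := by
        unfold dn
        rw [abs_div, abs_of_pos (rm2_pos _ hpp κ h0)]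
        have := hB _ (fun p => rm2_rot_mem θ x p)
        have hp0 := rm2_pos _ hpp κ h0
        gcongr
      have e2 := hMh _ (fun p => norm_Xt θ p)
      have e3 := abs_nonneg (dn κ y n θ x)
      exact mul_le_mul e1 e2 (abs_nonneg _) (e3.trans e1)
    · exact ae_of_all _ (fun θ => mul_nonneg (rm2_dn_nonneg κ y n θ x) (hh0 _ (norm_Xt _)))
  have hmeanG : ∀ n, ∫⁻ θ, G n θ ∂PT = ∫⁻ x in Icc (0:ℝ) 1, ENNReal.ofReal (f x * RR κ y h x) := by
    intro n
    have e1 : ∀ θ, G n θ = ∫⁻ x in Icc (0:ℝ) 1, ENNReal.ofReal (f x * (dn κ y n θ x * h (Xt θ))) := by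
      intro θ
      simp only [G]
      rw [ENNReal.ofReal_mul (hA0 n θ), hAl n θ, ← lintegral_mul_const _ (by
        have hc : Continuous (fun x : ℝ => f x * dn κ y n θ x) := hf.mul (rm2_dn_cont2 κ h0 y n θ)
        exact hc.measurable.ennreal_ofReal)]
      congr 1
      ext x
      rw [← ENNReal.ofReal_mul (mul_nonneg (hf0 x) (rm2_dn_nonneg κ y n θ x)), mul_assoc]
    simp_rw [e1]
    rw [lintegral_lintegral_swap]
    · congr 1
      ext x
      have : ∀ θ, ENNReal.ofReal (f x * (dn κ y n θ x * h (Xt θ))) = ENNReal.ofReal (f x) * ENNReal.ofReal (dn κ y n θ x * h (Xt θ)) :=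
        fun θ => ENNReal.ofReal_mul (hf0 x)
      simp_rw [this]
      rw [lintegral_const_mul' _ _ ENNReal.ofReal_ne_top, hmeanR n x, ENNReal.ofReal_mul (hf0 x)]
    · apply Measurable.aemeasurable
      apply Measurable.ennreal_ofReal
      have : Continuous (fun z : Om × ℝ => f z.2 * (dn κ y n z.1 z.2 * h (Xt z.1))) :=
        (hf.comp continuous_snd).mul ((rm2_dn_cont κ h0 y n).mul (hhX.comp continuous_fst))
      exact this.measurable
  have hqm : ∀ n, ∫⁻ θ, G n θ ^ q ∂PT ≤ ENNReal.ofReal (Mf * Mh) ^ q * ENNReal.ofReal C := by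
    intro n
    calc ∫⁻ θ, G n θ ^ q ∂PT ≤ ∫⁻ θ, ENNReal.ofReal (Mf * Mh) ^ q * (∫⁻ x in Icc (0:ℝ) 1, ENNReal.ofReal (dn κ y n θ x)) ^ q ∂PT := by
          apply lintegral_mono
          intro θ
          show G n θ ^ q ≤ ENNReal.ofReal (Mf * Mh) ^ q * (∫⁻ x in Icc (0:ℝ) 1, ENNReal.ofReal (dn κ y n θ x)) ^ q
          rw [← ENNReal.mul_rpow_of_nonneg _ _ (by linarith)]
          apply ENNReal.rpow_le_rpow _ (by linarith)
          simp only [G]
          rw [ENNReal.ofReal_mul (hA0 n θ), hAl n θ, ENNReal.ofReal_mul hMf0, mul_comm (ENNReal.ofReal Mf), mul_assoc,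
            mul_comm (ENNReal.ofReal Mh)]
          have e2 := (le_abs_self _).trans (hMh _ (fun p => norm_Xt θ p))
          refine mul_le_mul' ?_ (ENNReal.ofReal_le_ofReal e2)
          rw [← lintegral_const_mul' _ _ ENNReal.ofReal_ne_top]
          apply setLIntegral_mono' measurableSet_Icc
          intro x hx
          rw [← ENNReal.ofReal_mul hMf0]
          apply ENNReal.ofReal_le_ofReal
          have e3 := (le_abs_self _).trans (hMf x hx)
          exact mul_le_mul_of_nonneg_right e3 (rm2_dn_nonneg κ y n θ x)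
      _ = ENNReal.ofReal (Mf * Mh) ^ q * ∫⁻ θ, (∫⁻ x in Icc (0:ℝ) 1, ENNReal.ofReal (dn κ y n θ x)) ^ q ∂PT := by
          rw [lintegral_const_mul']
          exact ENNReal.rpow_ne_top_of_nonneg (by linarith) ENNReal.ofReal_ne_top
      _ ≤ _ := by
          gcongr
          exact hC2 n
  have hlimG : ∀ᵐ θ ∂PT, Tendsto (fun n => G n θ) atTop (𝓝 (ENNReal.ofReal (Lam θ * h (Xt θ)))) := by
    filter_upwards [hLam] with θ hθ
    exact ENNReal.tendsto_ofReal (hθ.mul_const _)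
  have hmain := rm2_trunc G _ hGm hlimG _ hmeanG hq _
    (ENNReal.mul_ne_top (ENNReal.rpow_ne_top_of_nonneg (by linarith) ENNReal.ofReal_ne_top) ENNReal.ofReal_ne_top) hqm
  have hLam0 : ∀ᵐ θ ∂PT, 0 ≤ Lam θ * h (Xt θ) := by
    filter_upwards [hLam] with θ hθ
    exact mul_nonneg (ge_of_tendsto' hθ (fun n => hA0 n θ)) (hh0 _ (norm_Xt _))
  have hLm : AEStronglyMeasurable Lam PT :=
    aestronglyMeasurable_of_tendsto_ae atTop (fun n => (hAm n).aestronglyMeasurable) hLam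
  have hLhm : AEStronglyMeasurable (fun θ => Lam θ * h (Xt θ)) PT := hLm.mul hXm.aestronglyMeasurable
  -- integrability of the right side
  have hfRR : IntegrableOn (fun x => f x * RR κ y h x) (Icc (0:ℝ) 1) := by
    obtain ⟨B, hB0, hB⟩ := rm2_bdd _ (rm2_Ew_cont (blk y 0) hbp κ h0)
    have hden := rm2_pos (blk y 0) hbp κ h0
    refine Integrable.mono' (integrable_const (Mf * (B * Mh / ∫ θ, ‖Eu (blk y 0) (Xt θ)‖ ^ (2 * κ) ∂PT)))
      (hf.measurable.mul hRRm).aestronglyMeasurable ?_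
    rw [ae_restrict_iff' measurableSet_Icc]
    refine ae_of_all _ (fun x hx => ?_)
    rw [Real.norm_eq_abs, abs_mul]
    refine mul_le_mul (hMf x hx) ?_ (abs_nonneg _) hMf0
    rw [abs_of_nonneg (hRR0 x)]
    unfold RR
    rw [rm2_rot _ hbp κ h0 x]
    gcongr
    calc ∫ θ, ‖Eu (blk y 0) (fun p => Xt θ p * Xp x p)‖ ^ (2 * κ) * h (Xt θ) ∂PT ≤ ∫ θ : Om, B * Mh ∂PT := by
          apply integral_mono_of_nonneg
          · exact ae_of_all _ (fun θ => mul_nonneg (by positivity) (hh0 _ (norm_Xt _)))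
          · exact integrable_const _
          · exact ae_of_all _ (fun θ => mul_le_mul ((le_abs_self _).trans (hB _ (fun p => rm2_rot_mem θ x p)))
              ((le_abs_self _).trans (hMh _ (fun p => norm_Xt θ p))) (hh0 _ (norm_Xt _)) hB0)
      _ = B * Mh := by simp
  have hrhs : ∫⁻ x in Icc (0:ℝ) 1, ENNReal.ofReal (f x * RR κ y h x) = ENNReal.ofReal (∫ x in Icc (0:ℝ) 1, f x * RR κ y h x) := by
    rw [ofReal_integral_eq_lintegral_ofReal hfRR (ae_of_all _ (fun x => mul_nonneg (hf0 x) (hRR0 x)))]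
  rw [hrhs] at hmain
  have hint : Integrable (fun θ => Lam θ * h (Xt θ)) PT := by
    refine ⟨hLhm, ?_⟩
    rw [hasFiniteIntegral_iff_ofReal hLam0, hmain]
    exact ENNReal.ofReal_lt_top
  refine ⟨hint, ?_⟩
  have h9 := ofReal_integral_eq_lintegral_ofReal hint hLam0
  rw [hmain] at h9
  have h10 : 0 ≤ ∫ x in Icc (0:ℝ) 1, f x * RR κ y h x := integral_nonneg (fun x => mul_nonneg (hf0 x) (hRR0 x))
  have h11 : 0 ≤ ∫ θ, Lam θ * h (Xt θ) ∂PT := integral_nonneg_of_ae hLam0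
  exact (ENNReal.ofReal_eq_ofReal_iff h11 h10).mp h9

end CZ
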