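import Pool.Agent.Lib.MP_9eae41_pr.U1
import Pool.Agent.Lib.MP_9eae41_pr.M3

set_option autoImplicit false

open Complex MeasureTheory Set Filter Topology
open scoped ComplexConjugate ENNReal

namespace CZ

/-! Row T1 (350 lines): the two-point function for k <= 1/2. First bad block of s or s+u; on it the weight
W = |100 Ps(s)/K|^(2K) + |100 Ps(s+u)/K|^(2K) >= 1; Hoelder with exponents k, k, 1-2k:
Z(s)^2 |N[(k-1) + k p^(-iu)](s)|^2 W, Z(s+u)^2 |N[k + (k-1) p^(-iu)](s)|^2 W, |N[k + k p^(-iu)](s)|^2 W; the second one is a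
function of s+u (Ps_shift, mu_shift). Exponent sums k^2 |1 + p^(-iu)|^2 / p. -/

private theorem t1_Z_cont : Continuous Z := by
  unfold Z
  refine Continuous.norm ?_
  refine continuous_iff_continuousAt.2 (fun t => ?_)
  have h : (1/2 + t * I : ℂ) ≠ 1 := by
    intro h
    have := congrArg Complex.re h
    norm_num at this
  exact ContinuousAt.comp (f := fun t : ℝ => (1/2 + t * I : ℂ)) (g := riemannZeta)
    (differentiableAt_riemannZeta h).continuousAt (by fun_prop)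

private theorem t1_Z_nonneg (t : ℝ) : 0 ≤ Z t := norm_nonneg _

private theorem t1_Xp_cont (p : ℕ) : Continuous (fun t : ℝ => Xp t p) := (continuous_apply p).comp Xp_cont

private theorem t1_Ps_cont (s : Finset ℕ) (c : ℕ → ℂ) : Continuous (fun t : ℝ => Ps s c (Xp t)) := by
  unfold Ps
  exact continuous_finsetSum _ (fun p _ => (continuous_const.mul (t1_Xp_cont p)).mul continuous_const)

private theorem t1_Nn_cont (T : ℝ) (y n : ℕ) (c : ℕ → ℂ) : Continuous (fun t : ℝ => Nn T y n c (Xp t)) := by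
  unfold Nn Ek
  exact continuous_finsetSum _ (fun k _ => ((t1_Ps_cont _ _).pow k).div_const _)

private noncomputable def t1A (T : ℝ) (y M : ℕ) (c : ℕ → ℂ) (t : ℝ) : ℝ :=
  ∏ n ∈ Finset.Icc 1 M, ‖Nn T y n c (Xp t)‖ ^ 2

private noncomputable def t1W (T : ℝ) (y v : ℕ) (c : ℕ → ℂ) (t : ℝ) : ℝ :=
  ‖(((100 / KT T y v : ℝ) : ℂ) * Ps (blk y v) c (Xp t)) ^ (KT T y v)‖ ^ 2

private theorem t1A_cont (T : ℝ) (y M : ℕ) (c : ℕ → ℂ) : Continuous (t1A T y M c) := by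
  unfold t1A
  exact continuous_finsetProd _ (fun n _ => (t1_Nn_cont T y n c).norm.pow 2)

private theorem t1W_cont (T : ℝ) (y v : ℕ) (c : ℕ → ℂ) : Continuous (t1W T y v c) := by
  unfold t1W
  exact ((continuous_const.mul (t1_Ps_cont _ _)).pow _).norm.pow 2

private theorem t1A_nonneg (T : ℝ) (y M : ℕ) (c : ℕ → ℂ) (t : ℝ) : 0 ≤ t1A T y M c t :=
  Finset.prod_nonneg (fun _ _ => by positivity)

private theorem t1W_nonneg (T : ℝ) (y v : ℕ) (c : ℕ → ℂ) (t : ℝ) : 0 ≤ t1W T y v c t := by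
  unfold t1W; positivity

private theorem t1_LL : ∃ (y : ℕ) (C δ T0 : ℝ), 100 ≤ y ∧ 0 < C ∧ 0 < δ ∧ δ ≤ 1/2 ∧ 3 ≤ T0 ∧
   (∀ M : ℕ, |∑ n ∈ Finset.Icc 1 M, ∑ p ∈ blk y n, (1 : ℝ) / p - M * Real.log 2| ≤ 1) ∧
   (∀ (T : ℝ) (M : ℕ), T0 ≤ T → 2 ^ M * Real.log y ≤ δ * Real.log T → (∀ n ∈ Finset.Icc 1 M, 2 ≤ KT T y n) ∧
       ∑ n ∈ Finset.Icc 1 M, Real.exp (-(KT T y n : ℝ) / 2) ≤ 1) ∧
   (∀ (T : ℝ) (M : ℕ), T0 ≤ T → 2 ^ M * Real.log y ≤ δ * Real.log T → ∀ a : ℕ, a ≤ 1 → ∀ c : ℕ → ℂ, (∀ p, ‖c p‖ ≤ 1) →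
      (∫⁻ t, ENNReal.ofReal (Z t ^ (2 * a) * t1A T y M c t) ∂mu T ≤
        ENNReal.ofReal (C * Real.log T ^ a * Real.exp (Sg a c y M))) ∧
      (∀ c' : ℕ → ℂ, (∀ p, ‖c' p‖ ≤ 1) → 1 ≤ M →
        ∫⁻ t, ENNReal.ofReal (Z t ^ (2 * a) * (t1A T y (M - 1) c t * t1W T y M c' t)) ∂mu T ≤
        ENNReal.ofReal (C * Real.log T ^ a * Real.exp (Sg a c y (M - 1)) * Real.exp (-(KT T y M : ℝ))))) := by
  obtain ⟨C1, y1, δ1, hC1, hy1, hδ1, hδ1', L1⟩ := LL 0 (by norm_num) 1 le_rfl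
  obtain ⟨C2, y2, δ2, hC2, hy2, hδ2, hδ2', L2⟩ := LL 1 le_rfl 1 le_rfl
  obtain ⟨y3, hy3, hm⟩ := mert_blk
  obtain ⟨δ4, hδ4, _, hK⟩ := adm_K 2
  obtain ⟨δ5, hδ5, _, hS⟩ := adm_sum 1 one_pos
  set y := max y1 (max y2 y3) with hy
  have e1 : y1 ≤ y := le_max_left _ _
  have e2 : y2 ≤ y := (le_max_left _ _).trans (le_max_right _ _)
  have e3 : y3 ≤ y := (le_max_right _ _).trans (le_max_right _ _)
  have hdp : IsDP (blk y 0) 1 ‖(1 : ℂ)‖ (fun _ => (1 : ℂ)) := dp_const _ 1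
  obtain ⟨T1, hT1, M1⟩ := L1 y e1 (fun _ => (1 : ℂ)) 1 ‖(1 : ℂ)‖ hdp 1 one_pos
  obtain ⟨T2, hT2, M2⟩ := L2 y e2 (fun _ => (1 : ℂ)) 1 ‖(1 : ℂ)‖ hdp 1 one_pos
  set I0 : ℝ := (∫ θ, ‖(1 : ℂ)‖ ^ 2 * DD 0 0 (blk y 0) (Xt θ) ∂PT) + 1 with hI0
  set I1 : ℝ := (∫ θ, ‖(1 : ℂ)‖ ^ 2 * DD 1 0 (blk y 0) (Xt θ) ∂PT) + 1 with hI1
  set C : ℝ := |C1 * I0| + |C2 * I1| + 1 with hC
  have c1 : C1 * I0 ≤ C := by
    rw [hC]; linarith [le_abs_self (C1 * I0), abs_nonneg (C2 * I1)]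
  have c2 : C2 * I1 ≤ C := by
    rw [hC]; linarith [le_abs_self (C2 * I1), abs_nonneg (C1 * I0)]
  refine ⟨y, C, min (min δ1 δ2) (min δ4 δ5), max T1 T2, hy1.trans e1, by positivity,
    lt_min (lt_min hδ1 hδ2) (lt_min hδ4 hδ5), (min_le_left _ _).trans ((min_le_left _ _).trans hδ1'),
    hT1.trans (le_max_left _ _), (hm y e3).2, ?_, ?_⟩
  · intro T M hT hM
    have hT3 : 3 ≤ T := hT1.trans ((le_max_left _ _).trans hT)
    have hlT : 0 ≤ Real.log T := Real.log_nonneg (by linarith)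
    have hy2' : 2 ≤ y := by omega
    refine ⟨?_, ?_⟩
    · exact hK T y M hy2' (by linarith) (hM.trans (mul_le_mul_of_nonneg_right
        ((min_le_right _ _).trans (min_le_left _ _)) hlT))
    · exact hS T y M hy2' (by linarith) (hM.trans (mul_le_mul_of_nonneg_right
        ((min_le_right _ _).trans (min_le_right _ _)) hlT))
  · intro T M hT hM a ha c hc
    have hT3 : 3 ≤ T := hT1.trans ((le_max_left _ _).trans hT)
    have hlT : 0 ≤ Real.log T := Real.log_nonneg (by linarith)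
    have ha' : a = 0 ∨ a = 1 := by omega
    rcases ha' with rfl | rfl
    · obtain ⟨g1, g2⟩ := M1 T ((le_max_left _ _).trans hT) M (hM.trans (mul_le_mul_of_nonneg_right
        ((min_le_left _ _).trans (min_le_left _ _)) hlT)) c hc
      constructor
      · have : ∀ t, Z t ^ (2 * 0) * t1A T y M c t = Z t ^ (2 * 0) * (‖(1 : ℂ)‖ ^ 2 * ∏ n ∈ Finset.Icc 1 M, ‖Nn T y n c (Xp t)‖ ^ 2) := by
          intro t; simp [t1A]
        simp only [this]
        refine g1.trans (ENNReal.ofReal_le_ofReal ?_)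
        have h5 : 0 ≤ Real.log T ^ 0 * Real.exp (Sg 0 c y M) := by positivity
        calc C1 * Real.log T ^ 0 * I0 * Real.exp (Sg 0 c y M) = (C1 * I0) * (Real.log T ^ 0 * Real.exp (Sg 0 c y M)) := by ring
          _ ≤ C * (Real.log T ^ 0 * Real.exp (Sg 0 c y M)) := mul_le_mul_of_nonneg_right c1 h5
          _ = _ := by ring
      · intro c' hc' hM1
        have : ∀ t, Z t ^ (2 * 0) * (t1A T y (M - 1) c t * t1W T y M c' t) = Z t ^ (2 * 0) * (‖(1 : ℂ)‖ ^ 2 * ((∏ n ∈ Finset.Icc 1 (M - 1), ‖Nn T y n c (Xp t)‖ ^ 2) *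
            ‖(((100 / KT T y M : ℝ) : ℂ) * Ps (blk y M) c' (Xp t)) ^ (KT T y M)‖ ^ 2)) := by
          intro t; simp [t1A, t1W]
        simp only [this]
        refine (g2 c' hc' hM1).trans (ENNReal.ofReal_le_ofReal ?_)
        have h5 : 0 ≤ Real.log T ^ 0 * Real.exp (Sg 0 c y (M - 1)) * Real.exp (-(KT T y M : ℝ)) := by positivity
        calc C1 * Real.log T ^ 0 * I0 * Real.exp (Sg 0 c y (M - 1)) * Real.exp (-(KT T y M : ℝ)) =
            (C1 * I0) * (Real.log T ^ 0 * Real.exp (Sg 0 c y (M - 1)) * Real.exp (-(KT T y M : ℝ))) := by ring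
          _ ≤ C * (Real.log T ^ 0 * Real.exp (Sg 0 c y (M - 1)) * Real.exp (-(KT T y M : ℝ))) := mul_le_mul_of_nonneg_right c1 h5
          _ = _ := by ring
    · obtain ⟨g1, g2⟩ := M2 T ((le_max_right _ _).trans hT) M (hM.trans (mul_le_mul_of_nonneg_right
        ((min_le_left _ _).trans (min_le_right _ _)) hlT)) c hc
      constructor
      · have : ∀ t, Z t ^ (2 * 1) * t1A T y M c t = Z t ^ (2 * 1) * (‖(1 : ℂ)‖ ^ 2 * ∏ n ∈ Finset.Icc 1 M, ‖Nn T y n c (Xp t)‖ ^ 2) := by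
          intro t; simp [t1A]
        simp only [this]
        refine g1.trans (ENNReal.ofReal_le_ofReal ?_)
        have h5 : 0 ≤ Real.log T ^ 1 * Real.exp (Sg 1 c y M) := by positivity
        calc C2 * Real.log T ^ 1 * I1 * Real.exp (Sg 1 c y M) = (C2 * I1) * (Real.log T ^ 1 * Real.exp (Sg 1 c y M)) := by ring
          _ ≤ C * (Real.log T ^ 1 * Real.exp (Sg 1 c y M)) := mul_le_mul_of_nonneg_right c2 h5
          _ = _ := by ring
      · intro c' hc' hM1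
        have : ∀ t, Z t ^ (2 * 1) * (t1A T y (M - 1) c t * t1W T y M c' t) = Z t ^ (2 * 1) * (‖(1 : ℂ)‖ ^ 2 * ((∏ n ∈ Finset.Icc 1 (M - 1), ‖Nn T y n c (Xp t)‖ ^ 2) *
            ‖(((100 / KT T y M : ℝ) : ℂ) * Ps (blk y M) c' (Xp t)) ^ (KT T y M)‖ ^ 2)) := by
          intro t; simp [t1A, t1W]
        simp only [this]
        refine (g2 c' hc' hM1).trans (ENNReal.ofReal_le_ofReal ?_)
        have h5 : 0 ≤ Real.log T ^ 1 * Real.exp (Sg 1 c y (M - 1)) * Real.exp (-(KT T y M : ℝ)) := by positivity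
        calc C2 * Real.log T ^ 1 * I1 * Real.exp (Sg 1 c y (M - 1)) * Real.exp (-(KT T y M : ℝ)) =
            (C2 * I1) * (Real.log T ^ 1 * Real.exp (Sg 1 c y (M - 1)) * Real.exp (-(KT T y M : ℝ))) := by ring
          _ ≤ C * (Real.log T ^ 1 * Real.exp (Sg 1 c y (M - 1)) * Real.exp (-(KT T y M : ℝ))) := mul_le_mul_of_nonneg_right c2 h5
          _ = _ := by ring

/-! exponent sums -/

private theorem t1_normsq (u : ℝ) (p : ℕ) : ‖1 + Xp u p‖ ^ 2 = 2 + 2 * Real.cos (u * Real.log p) := by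
  have h : Xp u p = ((Real.cos (u * Real.log p) : ℝ) : ℂ) - ((Real.sin (u * Real.log p) : ℝ) : ℂ) * I := by
    unfold Xp
    rw [show (-((u * Real.log p : ℝ) : ℂ) * I) = (((-(u * Real.log p) : ℝ)) : ℂ) * I by push_cast; ring,
      Complex.exp_mul_I, ← Complex.ofReal_cos, ← Complex.ofReal_sin, Real.cos_neg, Real.sin_neg]
    push_cast; ring
  rw [h, Complex.sq_norm, Complex.normSq_apply]
  simp only [add_re, sub_re, one_re, ofReal_re, mul_re, I_re, mul_zero, ofReal_im, I_im, mul_one, sub_self, sub_zero, add_im,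
    one_im, sub_im, mul_im, add_zero, zero_sub, zero_add]
  nlinarith [Real.sin_sq_add_cos_sq (u * Real.log p)]

private noncomputable def t1E (κ u : ℝ) (y M : ℕ) : ℝ :=
  ∑ n ∈ Finset.Icc 1 M, ∑ p ∈ blk y n, κ ^ 2 * ‖1 + Xp u p‖ ^ 2 / p

private noncomputable def t1L (y M : ℕ) : ℝ := ∑ n ∈ Finset.Icc 1 M, ∑ p ∈ blk y n, (1 : ℝ) / p

private theorem t1_Sg1 {κ u : ℝ} {c : ℕ → ℂ} (hc : ∀ p, ‖1 + c p‖ = κ * ‖1 + Xp u p‖) (y M : ℕ) :
    Sg 1 c y M = t1E κ u y M - t1L y M := by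
  unfold Sg Sb t1E t1L
  rw [← Finset.sum_sub_distrib]
  refine Finset.sum_congr rfl (fun n _ => ?_)
  rw [← Finset.sum_sub_distrib]
  refine Finset.sum_congr rfl (fun p _ => ?_)
  rw [show ((1 : ℕ) : ℂ) + c p = 1 + c p by push_cast; rfl, hc]
  push_cast; ring

private theorem t1_Sg0 {κ u : ℝ} {c : ℕ → ℂ} (hc : ∀ p, ‖c p‖ = κ * ‖1 + Xp u p‖) (y M : ℕ) :
    Sg 0 c y M = t1E κ u y M := by
  unfold Sg Sb t1E
  refine Finset.sum_congr rfl (fun n _ => ?_)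
  refine Finset.sum_congr rfl (fun p _ => ?_)
  rw [show ((0 : ℕ) : ℂ) + c p = c p by push_cast; ring, hc]
  push_cast; ring

private theorem t1_Eeq (κ u : ℝ) (y M : ℕ) : t1E κ u y M = 2 * κ ^ 2 * t1L y M +
    2 * κ ^ 2 * ∑ n ∈ Finset.Icc 1 M, ∑ p ∈ blk y n, Real.cos (u * Real.log p) / p := by
  unfold t1E t1L
  rw [Finset.mul_sum, Finset.mul_sum, ← Finset.sum_add_distrib]
  refine Finset.sum_congr rfl (fun n _ => ?_)
  rw [Finset.mul_sum, Finset.mul_sum, ← Finset.sum_add_distrib]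
  refine Finset.sum_congr rfl (fun p _ => ?_)
  rw [t1_normsq]; ring

private theorem t1_cos {y : ℕ} (hy : 100 ≤ y) (hm : ∀ M : ℕ, |t1L y M - M * Real.log 2| ≤ 1) :
    ∃ C : ℝ, 0 < C ∧ ∀ u : ℝ, 0 < u → u ≤ 1 → ∃ n0 : ℕ, (2 : ℝ) ^ n0 ≤ 1 / u ∧ ∀ M : ℕ,
      ∑ n ∈ Finset.Icc 1 M, ∑ p ∈ blk y n, Real.cos (u * Real.log p) / p ≤ (min M n0 : ℕ) * Real.log 2 + C := by
  obtain ⟨C, hC, hcs⟩ := cos_sum
  refine ⟨C + 1, by linarith, ?_⟩
  intro u hu hu1
  have hly : 2 ≤ Real.log y := by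
    have h1 : Real.log (Real.exp 2) ≤ Real.log y := by
      apply Real.log_le_log (Real.exp_pos _)
      have h2 : Real.exp 2 ≤ 100 := by
        have := Real.exp_one_lt_d9
        have h3 : Real.exp 2 = Real.exp 1 * Real.exp 1 := by rw [← Real.exp_add]; norm_num
        rw [h3]
        nlinarith [Real.exp_pos 1]
      have h4 : (100 : ℝ) ≤ y := by exact_mod_cast hy
      linarith
    rwa [Real.log_exp] at h1
  have hle : ∀ M : ℕ, ∑ n ∈ Finset.Icc 1 M, ∑ p ∈ blk y n, Real.cos (u * Real.log p) / p ≤ M * Real.log 2 + 1 := by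
    intro M
    have h1 : ∑ n ∈ Finset.Icc 1 M, ∑ p ∈ blk y n, Real.cos (u * Real.log p) / p ≤ t1L y M := by
      unfold t1L
      refine Finset.sum_le_sum (fun n _ => Finset.sum_le_sum (fun p _ => ?_))
      exact div_le_div_of_nonneg_right (Real.cos_le_one _) (by positivity)
    have h2 := (abs_le.1 (hm M)).2
    linarith
  have hex : ∃ n : ℕ, 1 / (2 ^ n * Real.log y) ≤ u := by
    obtain ⟨n, hn⟩ := pow_unbounded_of_one_lt (1 / u) (by norm_num : (1 : ℝ) < 2)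
    refine ⟨n, ?_⟩
    rw [div_le_iff₀ (by positivity)]
    rw [div_lt_iff₀ hu] at hn
    nlinarith [mul_nonneg hu.le (pow_pos (by norm_num : (0 : ℝ) < 2) n).le]
  classical
  set n0 := Nat.find hex with hn0
  have hn0' : 1 / (2 ^ n0 * Real.log y) ≤ u := Nat.find_spec hex
  refine ⟨n0, ?_, ?_⟩
  · rcases Nat.eq_zero_or_pos n0 with h0 | h0
    · rw [h0, pow_zero, le_div_iff₀ hu]; linarith
    · have h1 : ¬ (1 / (2 ^ (n0 - 1) * Real.log y) ≤ u) := Nat.find_min hex (by omega)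
      rw [not_le, lt_div_iff₀ (by positivity)] at h1
      rw [le_div_iff₀ hu]
      have h2 : (2 : ℝ) ^ n0 = 2 * 2 ^ (n0 - 1) := by
        rw [← pow_succ']; congr 1; omega
      rw [h2]
      have h3 : 0 < (2 : ℝ) ^ (n0 - 1) * u := by positivity
      nlinarith
  · intro M
    rcases le_or_gt M n0 with h | h
    · rw [min_eq_left h]
      linarith [hle M]
    · rw [min_eq_right h.le]
      have h1 : Finset.Icc 1 M = Finset.Icc 1 n0 ∪ Finset.Icc (n0 + 1) M := by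
        ext a; simp only [Finset.mem_Icc, Finset.mem_union]; omega
      have h2 : Disjoint (Finset.Icc 1 n0) (Finset.Icc (n0 + 1) M) := by
        rw [Finset.disjoint_left]; intro a; simp only [Finset.mem_Icc]; omega
      rw [h1, Finset.sum_union h2]
      have h3 := hcs y n0 M u hy h.le (by rwa [abs_of_pos hu]) (by rwa [abs_of_pos hu])
      have h4 := (abs_le.1 h3).2
      linarith [hle n0]

private theorem t1_Eb {y : ℕ} (hy : 100 ≤ y) (hm : ∀ M : ℕ, |t1L y M - M * Real.log 2| ≤ 1) (κ : ℝ) :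
    ∃ C : ℝ, 0 < C ∧ ∀ u : ℝ, 0 < u → u ≤ 1 → ∀ (M : ℕ) (L : ℝ), (2 : ℝ) ^ M ≤ L →
      Real.exp (t1E κ u y M) ≤ C * (L ^ (2 * κ ^ 2) * min L (1 / u) ^ (2 * κ ^ 2)) := by
  obtain ⟨C, hC, h⟩ := t1_cos hy hm
  refine ⟨Real.exp (2 * κ ^ 2 * (1 + C)), Real.exp_pos _, ?_⟩
  intro u hu hu1 M L hL
  obtain ⟨n0, hn0, hc⟩ := h u hu hu1
  have h2M : (0 : ℝ) < 2 ^ M := by positivity
  have hL0 : 0 < L := lt_of_lt_of_le h2M hL
  have hκ : 0 ≤ 2 * κ ^ 2 := by positivity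
  have h1 : t1E κ u y M ≤ Real.log (2 ^ M) * (2 * κ ^ 2) + Real.log (2 ^ (min M n0)) * (2 * κ ^ 2) + 2 * κ ^ 2 * (1 + C) := by
    rw [t1_Eeq, Real.log_pow, Real.log_pow]
    have g1 := mul_le_mul_of_nonneg_left (hc M) hκ
    have g2 := mul_le_mul_of_nonneg_left (abs_le.1 (hm M)).2 hκ
    nlinarith
  have h3 : (2 : ℝ) ^ (min M n0) ≤ min L (1 / u) := by
    refine le_min ?_ ?_
    · exact (pow_le_pow_right₀ (by norm_num) (min_le_left _ _)).trans hL
    · exact (pow_le_pow_right₀ (by norm_num) (min_le_right _ _)).trans hn0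
  calc Real.exp (t1E κ u y M) ≤ Real.exp (Real.log (2 ^ M) * (2 * κ ^ 2) + Real.log (2 ^ (min M n0)) * (2 * κ ^ 2) +
        2 * κ ^ 2 * (1 + C)) := Real.exp_le_exp.2 h1
    _ = Real.exp (2 * κ ^ 2 * (1 + C)) * (((2 : ℝ) ^ M) ^ (2 * κ ^ 2) * ((2 : ℝ) ^ (min M n0)) ^ (2 * κ ^ 2)) := by
        rw [Real.exp_add, Real.exp_add, ← Real.rpow_def_of_pos h2M, ← Real.rpow_def_of_pos (by positivity)]
        ring
    _ ≤ _ := by
        refine mul_le_mul_of_nonneg_left ?_ (Real.exp_pos _).le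
        exact mul_le_mul (Real.rpow_le_rpow h2M.le hL hκ) (Real.rpow_le_rpow (by positivity) h3 hκ) (by positivity)
          (by positivity)

/-! pointwise algebra -/

private theorem t1_block {κ : ℝ} (h0 : 0 < κ) (h1 : κ ≤ 1/2) {K : ℕ} (hK : 2 ≤ K) {w w' : ℂ} (hw : ‖w‖ ≤ (K : ℝ) / 100)
    (hw' : ‖w'‖ ≤ (K : ℝ) / 100) :
    1 ≤ Real.exp (4 * Real.exp (-(K : ℝ) / 2)) * ((‖Ek K (((κ - 1 : ℝ) : ℂ) * w + (κ : ℂ) * w')‖ ^ 2) ^ κ *
      (‖Ek K ((κ : ℂ) * w + ((κ - 1 : ℝ) : ℂ) * w')‖ ^ 2) ^ κ *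
      (‖Ek K ((κ : ℂ) * w + (κ : ℂ) * w')‖ ^ 2) ^ (1 - 2 * κ)) := by
  have h := good_gen (Finset.univ : Finset (Fin 3)) ![κ - 1, κ, κ] ![κ, κ - 1, κ] ![2 * κ, 2 * κ, 2 * (1 - 2 * κ)]
    (by simp [Fin.sum_univ_three]; ring) (by simp [Fin.sum_univ_three]; ring) (by
      intro i _
      fin_cases i
      · simp only [Fin.zero_eta, Matrix.cons_val_zero]
        rw [abs_of_nonpos (by linarith), abs_of_pos h0]; linarith
      · simp only [Fin.mk_one, Matrix.cons_val_one, Matrix.cons_val_zero]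
        rw [abs_of_nonpos (by linarith : κ - 1 ≤ 0), abs_of_pos h0]; linarith
      · simp only [Fin.reduceFinMk, Matrix.cons_val]
        rw [abs_of_pos h0]; linarith) hK hw hw'
  rw [Fin.sum_univ_three, Fin.prod_univ_three] at h
  simp only [Matrix.cons_val_zero, Matrix.cons_val_one, Matrix.cons_val] at h
  rw [abs_of_pos (by linarith : 0 < 2 * κ), abs_of_nonneg (by linarith : 0 ≤ 2 * (1 - 2 * κ))] at h
  have e1 : 2 * (2 * κ + 2 * κ + 2 * (1 - 2 * κ)) * Real.exp (-(K : ℝ) / 2) = 4 * Real.exp (-(K : ℝ) / 2) := by ring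
  rw [e1] at h
  have e2 : ∀ (x : ℝ) (b : ℝ), 0 ≤ x → x ^ (2 * b) = (x ^ 2) ^ b := by
    intro x b hx
    rw [Real.rpow_mul hx, Real.rpow_two]
  rw [e2 _ _ (norm_nonneg _), e2 _ _ (norm_nonneg _), e2 _ _ (norm_nonneg _)] at h
  exact h

private noncomputable def t1c1 (κ u : ℝ) (p : ℕ) : ℂ := ((κ - 1 : ℝ) : ℂ) * 1 + (κ : ℂ) * Xp u p
private noncomputable def t1c2 (κ u : ℝ) (p : ℕ) : ℂ := (κ : ℂ) * 1 + ((κ - 1 : ℝ) : ℂ) * Xp u p
private noncomputable def t1c3 (κ u : ℝ) (p : ℕ) : ℂ := (κ : ℂ) * 1 + (κ : ℂ) * Xp u p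
private noncomputable def t1d (κ u : ℝ) (p : ℕ) : ℂ := (κ : ℂ) * conj (Xp u p) + ((κ - 1 : ℝ) : ℂ)

private theorem t1_conj_mul (u : ℝ) (p : ℕ) : conj (Xp u p) * Xp u p = 1 := by
  rw [mul_comm, Complex.mul_conj, Complex.normSq_eq_norm_sq, norm_Xp]; simp

private theorem t1c1_le {κ : ℝ} (h0 : 0 < κ) (h1 : κ ≤ 1/2) (u : ℝ) (p : ℕ) : ‖t1c1 κ u p‖ ≤ 1 := by
  unfold t1c1
  refine (norm_add_le _ _).trans ?_
  rw [norm_mul, norm_mul, norm_Xp, norm_one, Complex.norm_real, Complex.norm_real, Real.norm_eq_abs, Real.norm_eq_abs,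
    abs_of_nonpos (by linarith : κ - 1 ≤ 0), abs_of_pos h0]
  linarith

private theorem t1c3_le {κ : ℝ} (h0 : 0 < κ) (h1 : κ ≤ 1/2) (u : ℝ) (p : ℕ) : ‖t1c3 κ u p‖ ≤ 1 := by
  unfold t1c3
  refine (norm_add_le _ _).trans ?_
  rw [norm_mul, norm_mul, norm_Xp, norm_one, Complex.norm_real, Real.norm_eq_abs, abs_of_pos h0]
  linarith

private theorem t1d_le {κ : ℝ} (h0 : 0 < κ) (h1 : κ ≤ 1/2) (u : ℝ) (p : ℕ) : ‖t1d κ u p‖ ≤ 1 := by
  unfold t1d
  refine (norm_add_le _ _).trans ?_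
  rw [norm_mul, RCLike.norm_conj, norm_Xp, Complex.norm_real, Complex.norm_real, Real.norm_eq_abs, Real.norm_eq_abs,
    abs_of_nonpos (by linarith : κ - 1 ≤ 0), abs_of_pos h0]
  linarith

private theorem t1c1_n {κ : ℝ} (h0 : 0 < κ) (u : ℝ) (p : ℕ) : ‖1 + t1c1 κ u p‖ = κ * ‖1 + Xp u p‖ := by
  have : 1 + t1c1 κ u p = (κ : ℂ) * (1 + Xp u p) := by unfold t1c1; push_cast; ring
  rw [this, norm_mul, Complex.norm_real, Real.norm_eq_abs, abs_of_pos h0]

private theorem t1c3_n {κ : ℝ} (h0 : 0 < κ) (u : ℝ) (p : ℕ) : ‖t1c3 κ u p‖ = κ * ‖1 + Xp u p‖ := by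
  have : t1c3 κ u p = (κ : ℂ) * (1 + Xp u p) := by unfold t1c3; ring
  rw [this, norm_mul, Complex.norm_real, Real.norm_eq_abs, abs_of_pos h0]

private theorem t1d_n {κ : ℝ} (h0 : 0 < κ) (u : ℝ) (p : ℕ) : ‖1 + t1d κ u p‖ = κ * ‖1 + Xp u p‖ := by
  have : 1 + t1d κ u p = (κ : ℂ) * conj (1 + Xp u p) := by
    unfold t1d
    rw [map_add, map_one]
    push_cast; ring
  rw [this, norm_mul, Complex.norm_real, RCLike.norm_conj, Real.norm_eq_abs, abs_of_pos h0]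

private theorem t1_shiftd (κ u : ℝ) (S : Finset ℕ) (s : ℝ) : Ps S (t1d κ u) (Xp (s + u)) = Ps S (t1c2 κ u) (Xp s) := by
  rw [Ps_shift]
  congr 1
  funext p
  unfold t1d t1c2
  rw [add_mul, mul_assoc, t1_conj_mul]

private theorem t1_shift1 (u : ℝ) (S : Finset ℕ) (s : ℝ) : Ps S (fun _ => 1) (Xp (s + u)) = Ps S (Xp u) (Xp s) := by
  rw [Ps_shift]
  congr 1
  funext p
  rw [one_mul]

private theorem t1_shiftc (u : ℝ) (S : Finset ℕ) (s : ℝ) :
    Ps S (fun p => conj (Xp u p)) (Xp (s + u)) = Ps S (fun _ => 1) (Xp s) := by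
  rw [Ps_shift]
  congr 1
  funext p
  rw [t1_conj_mul]

private theorem t1A_shift (κ u T : ℝ) (y M : ℕ) (s : ℝ) : t1A T y M (t1d κ u) (s + u) = t1A T y M (t1c2 κ u) s := by
  unfold t1A Nn
  refine Finset.prod_congr rfl (fun n _ => ?_)
  rw [t1_shiftd]

private theorem t1W_shift1 (u T : ℝ) (y v : ℕ) (s : ℝ) : t1W T y v (fun _ => 1) (s + u) = t1W T y v (Xp u) s := by
  unfold t1W
  rw [t1_shift1]

private theorem t1W_shiftc (u T : ℝ) (y v : ℕ) (s : ℝ) :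
    t1W T y v (fun p => conj (Xp u p)) (s + u) = t1W T y v (fun _ => 1) s := by
  unfold t1W
  rw [t1_shiftc]

private theorem t1_goodprod {κ : ℝ} (h0 : 0 < κ) (h1 : κ ≤ 1/2) {u T : ℝ} {y M : ℕ} {s : ℝ} (hg : Good T y M s)
    (hg' : Good T y M (s + u)) (hK : ∀ n ∈ Finset.Icc 1 M, 2 ≤ KT T y n)
    (hS : ∑ n ∈ Finset.Icc 1 M, Real.exp (-(KT T y n : ℝ) / 2) ≤ 1) :
    1 ≤ Real.exp 4 * (t1A T y M (t1c1 κ u) s ^ κ * t1A T y M (t1c2 κ u) s ^ κ * t1A T y M (t1c3 κ u) s ^ (1 - 2 * κ)) := by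
  have h : ∀ n ∈ Finset.Icc 1 M, 1 ≤ Real.exp (4 * Real.exp (-(KT T y n : ℝ) / 2)) *
      ((‖Nn T y n (t1c1 κ u) (Xp s)‖ ^ 2) ^ κ * (‖Nn T y n (t1c2 κ u) (Xp s)‖ ^ 2) ^ κ *
        (‖Nn T y n (t1c3 κ u) (Xp s)‖ ^ 2) ^ (1 - 2 * κ)) := by
    intro n hn
    have g1 := hg n hn
    have g2 := hg' n hn
    rw [t1_shift1] at g2
    have g3 := t1_block h0 h1 (hK n hn) g1 g2
    have e1 : Nn T y n (t1c1 κ u) (Xp s) = Ek (KT T y n) (((κ - 1 : ℝ) : ℂ) * Ps (blk y n) (fun _ => 1) (Xp s) +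
        (κ : ℂ) * Ps (blk y n) (Xp u) (Xp s)) := by
      unfold Nn t1c1
      rw [← Ps_lin]
    have e2 : Nn T y n (t1c2 κ u) (Xp s) = Ek (KT T y n) ((κ : ℂ) * Ps (blk y n) (fun _ => 1) (Xp s) +
        ((κ - 1 : ℝ) : ℂ) * Ps (blk y n) (Xp u) (Xp s)) := by
      unfold Nn t1c2
      rw [← Ps_lin]
    have e3 : Nn T y n (t1c3 κ u) (Xp s) = Ek (KT T y n) ((κ : ℂ) * Ps (blk y n) (fun _ => 1) (Xp s) +
        (κ : ℂ) * Ps (blk y n) (Xp u) (Xp s)) := by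
      unfold Nn t1c3
      rw [← Ps_lin]
    rw [e1, e2, e3]
    exact g3
  have h2 : 1 ≤ ∏ n ∈ Finset.Icc 1 M, (Real.exp (4 * Real.exp (-(KT T y n : ℝ) / 2)) *
      ((‖Nn T y n (t1c1 κ u) (Xp s)‖ ^ 2) ^ κ * (‖Nn T y n (t1c2 κ u) (Xp s)‖ ^ 2) ^ κ *
        (‖Nn T y n (t1c3 κ u) (Xp s)‖ ^ 2) ^ (1 - 2 * κ))) := by
    calc (1 : ℝ) = ∏ n ∈ Finset.Icc 1 M, (1 : ℝ) := by simp
      _ ≤ _ := Finset.prod_le_prod (fun _ _ => zero_le_one) h
  rw [Finset.prod_mul_distrib, Finset.prod_mul_distrib, Finset.prod_mul_distrib, ← Real.exp_sum, ← Finset.mul_sum,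
    Real.finsetProd_rpow _ _ (fun _ _ => by positivity), Real.finsetProd_rpow _ _ (fun _ _ => by positivity),
    Real.finsetProd_rpow _ _ (fun _ _ => by positivity)] at h2
  refine h2.trans ?_
  refine mul_le_mul_of_nonneg_right (Real.exp_le_exp.2 (by linarith)) ?_
  positivity

private theorem t1_W1 {T : ℝ} {y v : ℕ} {c : ℕ → ℂ} {s : ℝ} (hK : 1 ≤ KT T y v)
    (h : (KT T y v : ℝ) / 100 < ‖Ps (blk y v) c (Xp s)‖) : 1 ≤ t1W T y v c s := by
  unfold t1W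
  have hK' : (0 : ℝ) < KT T y v := by exact_mod_cast hK
  rw [norm_pow, norm_mul, Complex.norm_real, Real.norm_eq_abs, abs_of_pos (by positivity)]
  have h2 : 1 ≤ 100 / (KT T y v : ℝ) * ‖Ps (blk y v) c (Xp s)‖ := by
    rw [div_mul_eq_mul_div, le_div_iff₀ hK']
    rw [div_lt_iff₀ (by norm_num)] at h
    linarith
  exact one_le_pow₀ (one_le_pow₀ h2)

private noncomputable def t1G (κ u T : ℝ) (y M : ℕ) (w : ℝ → ℝ) (s : ℝ) : ℝ :=
  (Z s ^ 2 * (t1A T y M (t1c1 κ u) s * w s)) ^ κ * (Z (s + u) ^ 2 * (t1A T y M (t1c2 κ u) s * w s)) ^ κ *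
    (t1A T y M (t1c3 κ u) s * w s) ^ (1 - 2 * κ)

private theorem t1_point {κ : ℝ} (h0 : 0 < κ) (h1 : κ ≤ 1/2) {u T : ℝ} {y M : ℕ} {s : ℝ} (hg : Good T y M s)
    (hg' : Good T y M (s + u)) (hK : ∀ n ∈ Finset.Icc 1 M, 2 ≤ KT T y n)
    (hS : ∑ n ∈ Finset.Icc 1 M, Real.exp (-(KT T y n : ℝ) / 2) ≤ 1) (w : ℝ → ℝ) (hw : 1 ≤ w s) :
    Z s ^ (2 * κ) * Z (s + u) ^ (2 * κ) ≤ Real.exp 4 * t1G κ u T y M w s := by
  have h := t1_goodprod h0 h1 hg hg' hK hS
  have z1 := t1_Z_nonneg s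
  have z2 := t1_Z_nonneg (s + u)
  have a1 := t1A_nonneg T y M (t1c1 κ u) s
  have a2 := t1A_nonneg T y M (t1c2 κ u) s
  have a3 := t1A_nonneg T y M (t1c3 κ u) s
  have w0 : 0 < w s := by linarith
  unfold t1G
  rw [Real.mul_rpow (by positivity) (by positivity), Real.mul_rpow a1 w0.le, Real.mul_rpow (by positivity) (by positivity),
    Real.mul_rpow a2 w0.le, Real.mul_rpow a3 w0.le]
  have e2 : ∀ (x : ℝ) (b : ℝ), 0 ≤ x → (x ^ 2) ^ b = x ^ (2 * b) := by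
    intro x b hx
    rw [Real.rpow_mul hx, Real.rpow_two]
  rw [e2 _ _ z1, e2 _ _ z2]
  have ew : w s ^ κ * w s ^ κ * w s ^ (1 - 2 * κ) = w s := by
    rw [← Real.rpow_add w0, ← Real.rpow_add w0]
    rw [show κ + κ + (1 - 2 * κ) = 1 by ring, Real.rpow_one]
  have e3 : Real.exp 4 * (Z s ^ (2 * κ) * (t1A T y M (t1c1 κ u) s ^ κ * w s ^ κ) *
      (Z (s + u) ^ (2 * κ) * (t1A T y M (t1c2 κ u) s ^ κ * w s ^ κ)) *
      (t1A T y M (t1c3 κ u) s ^ (1 - 2 * κ) * w s ^ (1 - 2 * κ))) =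
      (Z s ^ (2 * κ) * Z (s + u) ^ (2 * κ)) * ((Real.exp 4 * (t1A T y M (t1c1 κ u) s ^ κ * t1A T y M (t1c2 κ u) s ^ κ *
        t1A T y M (t1c3 κ u) s ^ (1 - 2 * κ))) * (w s ^ κ * w s ^ κ * w s ^ (1 - 2 * κ))) := by ring
  rw [e3, ew]
  have h5 : 0 ≤ Z s ^ (2 * κ) * Z (s + u) ^ (2 * κ) := by positivity
  have h6 : 1 ≤ (Real.exp 4 * (t1A T y M (t1c1 κ u) s ^ κ * t1A T y M (t1c2 κ u) s ^ κ *
        t1A T y M (t1c3 κ u) s ^ (1 - 2 * κ))) * w s := one_le_mul_of_one_le_of_one_le h hw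
  nlinarith [mul_le_mul_of_nonneg_left h6 h5]

private theorem t1_int {κ : ℝ} (h0 : 0 < κ) (h1 : κ ≤ 1/2) {u T : ℝ} {y M : ℕ} {w : ℝ → ℝ} (hw : Continuous w)
    (hw0 : ∀ s, 0 ≤ w s) {b q : ℝ} (hb : 0 < b) (hq : 0 < q)
    (i1 : ∫⁻ s, ENNReal.ofReal (Z s ^ 2 * (t1A T y M (t1c1 κ u) s * w s)) ∂mu T ≤ ENNReal.ofReal (b * q))
    (i2 : ∫⁻ s, ENNReal.ofReal (Z (s + u) ^ 2 * (t1A T y M (t1c2 κ u) s * w s)) ∂mu T ≤ ENNReal.ofReal (b * q))
    (i3 : ∫⁻ s, ENNReal.ofReal (t1A T y M (t1c3 κ u) s * w s) ∂mu T ≤ ENNReal.ofReal b) :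
    ∫⁻ s, ENNReal.ofReal (t1G κ u T y M w s) ∂mu T ≤ ENNReal.ofReal (b * q ^ (2 * κ)) := by
  have c1 : Continuous (fun s => Z s ^ 2 * (t1A T y M (t1c1 κ u) s * w s)) :=
    (t1_Z_cont.pow 2).mul ((t1A_cont T y M _).mul hw)
  have c2 : Continuous (fun s => Z (s + u) ^ 2 * (t1A T y M (t1c2 κ u) s * w s)) :=
    ((t1_Z_cont.comp (continuous_id.add continuous_const)).pow 2).mul ((t1A_cont T y M _).mul hw)
  have c3 : Continuous (fun s => t1A T y M (t1c3 κ u) s * w s) := (t1A_cont T y M _).mul hw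
  have p1 : ∀ s, 0 ≤ Z s ^ 2 * (t1A T y M (t1c1 κ u) s * w s) := fun s =>
    mul_nonneg (sq_nonneg _) (mul_nonneg (t1A_nonneg _ _ _ _ _) (hw0 s))
  have p2 : ∀ s, 0 ≤ Z (s + u) ^ 2 * (t1A T y M (t1c2 κ u) s * w s) := fun s =>
    mul_nonneg (sq_nonneg _) (mul_nonneg (t1A_nonneg _ _ _ _ _) (hw0 s))
  have p3 : ∀ s, 0 ≤ t1A T y M (t1c3 κ u) s * w s := fun s => mul_nonneg (t1A_nonneg _ _ _ _ _) (hw0 s)
  have hH := holder3 (ν := mu T) (f := fun s => ENNReal.ofReal (Z s ^ 2 * (t1A T y M (t1c1 κ u) s * w s)))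
    (g := fun s => ENNReal.ofReal (Z (s + u) ^ 2 * (t1A T y M (t1c2 κ u) s * w s)))
    (h := fun s => ENNReal.ofReal (t1A T y M (t1c3 κ u) s * w s))
    c1.measurable.ennreal_ofReal.aemeasurable c2.measurable.ennreal_ofReal.aemeasurable
    c3.measurable.ennreal_ofReal.aemeasurable h0 h0 (by linarith : 0 ≤ 1 - 2 * κ) (by ring)
  have e1 : ∀ s, ENNReal.ofReal (t1G κ u T y M w s) = ENNReal.ofReal (Z s ^ 2 * (t1A T y M (t1c1 κ u) s * w s)) ^ κ *
      ENNReal.ofReal (Z (s + u) ^ 2 * (t1A T y M (t1c2 κ u) s * w s)) ^ κ *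
      ENNReal.ofReal (t1A T y M (t1c3 κ u) s * w s) ^ (1 - 2 * κ) := by
    intro s
    unfold t1G
    rw [ENNReal.ofReal_mul (by have := p1 s; have := p2 s; positivity), ENNReal.ofReal_mul (by have := p1 s; positivity),
      ENNReal.ofReal_rpow_of_nonneg (p1 s) h0.le, ENNReal.ofReal_rpow_of_nonneg (p2 s) h0.le,
      ENNReal.ofReal_rpow_of_nonneg (p3 s) (by linarith)]
  simp only [e1]
  refine hH.trans ?_
  calc _ ≤ ENNReal.ofReal (b * q) ^ κ * ENNReal.ofReal (b * q) ^ κ * ENNReal.ofReal b ^ (1 - 2 * κ) := by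
        refine mul_le_mul' (mul_le_mul' ?_ ?_) ?_
        · exact ENNReal.rpow_le_rpow i1 h0.le
        · exact ENNReal.rpow_le_rpow i2 h0.le
        · exact ENNReal.rpow_le_rpow i3 (by linarith)
    _ = ENNReal.ofReal (b * q ^ (2 * κ)) := by
        rw [ENNReal.ofReal_rpow_of_nonneg (by positivity) h0.le, ENNReal.ofReal_rpow_of_nonneg hb.le (by linarith),
          ← ENNReal.ofReal_mul (by positivity), ← ENNReal.ofReal_mul (by positivity)]
        congr 1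
        rw [Real.mul_rpow hb.le hq.le]
        have : b ^ κ * q ^ κ * (b ^ κ * q ^ κ) * b ^ (1 - 2 * κ) = (b ^ κ * b ^ κ * b ^ (1 - 2 * κ)) * (q ^ κ * q ^ κ) := by ring
        rw [this, ← Real.rpow_add hb, ← Real.rpow_add hb, ← Real.rpow_add hq,
          show κ + κ + (1 - 2 * κ) = 1 by ring, Real.rpow_one, show κ + κ = 2 * κ by ring]


private theorem t1G_meas (κ u T : ℝ) (y M : ℕ) {w : ℝ → ℝ} (hw : Continuous w) : Measurable (t1G κ u T y M w) := by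
  unfold t1G
  have c1 : Continuous (fun s => Z s ^ 2 * (t1A T y M (t1c1 κ u) s * w s)) :=
    (t1_Z_cont.pow 2).mul ((t1A_cont T y M _).mul hw)
  have c2 : Continuous (fun s => Z (s + u) ^ 2 * (t1A T y M (t1c2 κ u) s * w s)) :=
    ((t1_Z_cont.comp (continuous_id.add continuous_const)).pow 2).mul ((t1A_cont T y M _).mul hw)
  have c3 : Continuous (fun s => t1A T y M (t1c3 κ u) s * w s) := (t1A_cont T y M _).mul hw
  exact ((c1.measurable.pow_const κ).mul (c2.measurable.pow_const κ)).mul (c3.measurable.pow_const _)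

private theorem t1_two {T : ℝ} {y v a : ℕ} {c c' c'' : ℕ → ℂ} {X : ℝ} (hX : 0 ≤ X)
    (h1 : ∫⁻ t, ENNReal.ofReal (Z t ^ (2 * a) * (t1A T y (v - 1) c t * t1W T y v c' t)) ∂mu T ≤ ENNReal.ofReal X)
    (h2 : ∫⁻ t, ENNReal.ofReal (Z t ^ (2 * a) * (t1A T y (v - 1) c t * t1W T y v c'' t)) ∂mu T ≤ ENNReal.ofReal X) :
    ∫⁻ t, ENNReal.ofReal (Z t ^ (2 * a) * (t1A T y (v - 1) c t * (t1W T y v c' t + t1W T y v c'' t))) ∂mu T ≤
      ENNReal.ofReal (2 * X) := by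
  have e : ∀ t, ENNReal.ofReal (Z t ^ (2 * a) * (t1A T y (v - 1) c t * (t1W T y v c' t + t1W T y v c'' t))) =
      ENNReal.ofReal (Z t ^ (2 * a) * (t1A T y (v - 1) c t * t1W T y v c' t)) +
        ENNReal.ofReal (Z t ^ (2 * a) * (t1A T y (v - 1) c t * t1W T y v c'' t)) := by
    intro t
    have z := t1_Z_nonneg t
    have a1 := t1A_nonneg T y (v - 1) c t
    have w1 := t1W_nonneg T y v c' t
    have w2 := t1W_nonneg T y v c'' t
    rw [← ENNReal.ofReal_add (by positivity) (by positivity)]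
    congr 1; ring
  simp only [e]
  have m1 : Measurable (fun t => ENNReal.ofReal (Z t ^ (2 * a) * (t1A T y (v - 1) c t * t1W T y v c' t))) :=
    ((t1_Z_cont.pow _).mul ((t1A_cont T y _ _).mul (t1W_cont T y v _))).measurable.ennreal_ofReal
  rw [lintegral_add_left m1]
  refine (add_le_add h1 h2).trans ?_
  rw [← ENNReal.ofReal_add hX hX]
  exact ENNReal.ofReal_le_ofReal (by linarith)

private theorem t1_good_mono {T : ℝ} {y M M' : ℕ} {s : ℝ} (h : Good T y M s) (hM : M' ≤ M) : Good T y M' s := by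
  intro n hn
  rw [Finset.mem_Icc] at hn
  exact h n (Finset.mem_Icc.2 ⟨hn.1, hn.2.trans hM⟩)

private theorem t1_q {y M : ℕ} (hm : ∀ M : ℕ, |t1L y M - M * Real.log 2| ≤ 1) {L : ℝ} (hL : 0 ≤ L) :
    L * Real.exp (-(t1L y M)) ≤ Real.exp 1 * (L / 2 ^ M) := by
  have h1 := (abs_le.1 (hm M)).1
  have h2 : Real.exp (-(t1L y M)) ≤ Real.exp (1 - M * Real.log 2) := Real.exp_le_exp.2 (by linarith)
  have h3 : Real.exp (1 - M * Real.log 2) = Real.exp 1 / 2 ^ M := by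
    rw [Real.exp_sub, mul_comm, Real.exp_mul, Real.exp_log (by norm_num), Real.rpow_natCast]
  rw [h3] at h2
  calc L * Real.exp (-(t1L y M)) ≤ L * (Real.exp 1 / 2 ^ M) := mul_le_mul_of_nonneg_left h2 hL
    _ = _ := by ring

theorem two_point (κ : ℝ) (h0 : 0 < κ) (h1 : κ ≤ 1/2) : ∃ C T0 : ℝ, 0 < C ∧ 3 ≤ T0 ∧ ∀ T : ℝ, T0 ≤ T → ∀ u : ℝ, 0 < u → u ≤ 1 →
    ∫⁻ s, ENNReal.ofReal (Z s ^ (2 * κ) * Z (s + u) ^ (2 * κ)) ∂mu T ≤
      ENNReal.ofReal (C * Real.log T ^ (2 * κ ^ 2) * min (Real.log T) (1 / u) ^ (2 * κ ^ 2)) := by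
  obtain ⟨y, C, δ, T1, hy, hC, hδ, hδ', hT1, hm, hKS, hLL⟩ := t1_LL
  have hm' : ∀ M : ℕ, |t1L y M - M * Real.log 2| ≤ 1 := hm
  obtain ⟨C2, hC2, hE⟩ := t1_Eb hy hm' κ
  obtain ⟨T2, hT2, hJ⟩ := exists_J δ hδ y (by omega)
  obtain ⟨C3, hC3, hbad⟩ := adm_bad (2 * κ) 1 (by linarith) one_pos
  have hly : 1 ≤ Real.log y := by
    rw [Real.le_log_iff_exp_le (by positivity)]
    have := Real.exp_one_lt_d9
    have h4 : (100 : ℝ) ≤ y := by exact_mod_cast hy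
    linarith
  have hly0 : 0 < Real.log y := by linarith
  have hD1 : 0 < 3 * C * C2 * (2 * Real.exp 1 * Real.log y / δ) ^ (2 * κ) := by positivity
  have hD2 : 0 < 6 * C * C2 * (2 * Real.exp 1 * Real.log y) ^ (2 * κ) * C3 := by positivity
  set D1 := 3 * C * C2 * (2 * Real.exp 1 * Real.log y / δ) ^ (2 * κ) with hD1d
  set D2 := 6 * C * C2 * (2 * Real.exp 1 * Real.log y) ^ (2 * κ) * C3 with hD2d
  refine ⟨Real.exp 4 * (D1 + D2), max T1 T2, by positivity, hT1.trans (le_max_left _ _), ?_⟩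
  intro T hT u hu hu1
  have hTT1 : T1 ≤ T := (le_max_left _ _).trans hT
  have hTT2 : T2 ≤ T := (le_max_right _ _).trans hT
  have hT3 : 3 ≤ T := hT1.trans hTT1
  obtain ⟨J, hJ1, hJ2, hJ3⟩ := hJ T hTT2
  set L := Real.log T with hLd
  have hL0 : 0 < L := Real.log_pos (by linarith)
  have hminpos : 0 < min L (1 / u) := lt_min hL0 (by positivity)
  have hMJ : ∀ M : ℕ, M ≤ J → 2 ^ M * Real.log y ≤ δ * L := by
    intro M hM
    refine le_trans ?_ hJ2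
    exact mul_le_mul_of_nonneg_right (pow_le_pow_right₀ (by norm_num) hM) hly0.le
  have h2L : ∀ M : ℕ, M ≤ J → (2 : ℝ) ^ M ≤ L := by
    intro M hM
    have g1 := hMJ M hM
    have g2 : (2 : ℝ) ^ M ≤ 2 ^ M * Real.log y := by
      have : (0 : ℝ) < 2 ^ M := by positivity
      nlinarith
    nlinarith
  set Bd : ℝ := L ^ (2 * κ ^ 2) * min L (1 / u) ^ (2 * κ ^ 2) with hBd
  have hBd0 : 0 < Bd := by positivity
  have hEJ : ∀ M : ℕ, M ≤ J → Real.exp (t1E κ u y M) ≤ C2 * Bd := fun M hM => hE u hu hu1 M L (h2L M hM)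
  have hXu : ∀ p, ‖Xp u p‖ ≤ 1 := fun p => (norm_Xp u p).le
  have hXc : ∀ p, ‖conj (Xp u p)‖ ≤ 1 := fun p => by rw [RCLike.norm_conj]; exact hXu p
  have h11 : ∀ p : ℕ, ‖(fun _ : ℕ => (1 : ℂ)) p‖ ≤ 1 := fun p => by simp
  -- the good part
  have hgoodint : ∫⁻ s, ENNReal.ofReal (t1G κ u T y J (fun _ => 1) s) ∂mu T ≤ ENNReal.ofReal (D1 * Bd) := by
    have hb : 0 < 3 * C * Real.exp (t1E κ u y J) := by positivity
    have hq : 0 < L * Real.exp (-(t1L y J)) := by positivity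
    have key := t1_int (T := T) (y := y) (M := J) (u := u) (w := fun _ => 1) h0 h1 continuous_const (fun _ => zero_le_one) hb hq ?_ ?_ ?_
    · refine key.trans (ENNReal.ofReal_le_ofReal ?_)
      have q1 : L * Real.exp (-(t1L y J)) ≤ 2 * Real.exp 1 * Real.log y / δ := by
        refine (t1_q hm' hL0.le).trans ?_
        have : L / 2 ^ J ≤ 2 * Real.log y / δ := by
          rw [div_le_div_iff₀ (by positivity) hδ]
          have : δ * L < 2 ^ (J + 1) * Real.log y := hJ3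
          rw [pow_succ] at this
          nlinarith
        calc Real.exp 1 * (L / 2 ^ J) ≤ Real.exp 1 * (2 * Real.log y / δ) :=
              mul_le_mul_of_nonneg_left this (Real.exp_pos _).le
          _ = _ := by ring
      calc 3 * C * Real.exp (t1E κ u y J) * (L * Real.exp (-(t1L y J))) ^ (2 * κ)
          ≤ 3 * C * (C2 * Bd) * (2 * Real.exp 1 * Real.log y / δ) ^ (2 * κ) := by
            refine mul_le_mul (mul_le_mul_of_nonneg_left (hEJ J le_rfl) (by positivity))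
              (Real.rpow_le_rpow hq.le q1 (by linarith)) (by positivity) (by positivity)
        _ = D1 * Bd := by rw [hD1d]; ring
    · have g := ((hLL T J hTT1 (hMJ J le_rfl) 1 le_rfl (t1c1 κ u) (t1c1_le h0 h1 u))).1
      rw [t1_Sg1 (t1c1_n h0 u)] at g
      simp only [mul_one]
      refine g.trans (ENNReal.ofReal_le_ofReal ?_)
      rw [Real.exp_sub, pow_one, Real.exp_neg]
      have : 0 < C * L * (Real.exp (t1E κ u y J) / Real.exp (t1L y J)) := by positivity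
      calc C * L * (Real.exp (t1E κ u y J) / Real.exp (t1L y J)) ≤ 3 * (C * L * (Real.exp (t1E κ u y J) / Real.exp (t1L y J))) := by linarith
        _ = _ := by ring
    · have g := ((hLL T J hTT1 (hMJ J le_rfl) 1 le_rfl (t1d κ u) (t1d_le h0 h1 u))).1
      rw [t1_Sg1 (t1d_n h0 u)] at g
      simp only [mul_one] at g ⊢
      have hs := mu_shift (T := T) (x := u) (by linarith) hu.le hu1
        (g := fun t => ENNReal.ofReal (Z t ^ 2 * t1A T y J (t1d κ u) t))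
        ((t1_Z_cont.pow 2).mul (t1A_cont T y J _)).measurable.ennreal_ofReal
      simp only [t1A_shift] at hs
      refine hs.trans ((mul_le_mul_right g 3).trans ?_)
      rw [show (3 : ℝ≥0∞) = ENNReal.ofReal 3 by simp, ← ENNReal.ofReal_mul (by norm_num)]
      refine ENNReal.ofReal_le_ofReal (le_of_eq ?_)
      rw [Real.exp_sub, pow_one, Real.exp_neg]
      ring
    · have g := ((hLL T J hTT1 (hMJ J le_rfl) 0 (by norm_num) (t1c3 κ u) (t1c3_le h0 h1 u))).1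
      rw [t1_Sg0 (t1c3_n h0 u)] at g
      simp only [mul_zero, pow_zero, one_mul, mul_one] at g ⊢
      refine g.trans (ENNReal.ofReal_le_ofReal ?_)
      have : 0 < C * Real.exp (t1E κ u y J) := by positivity
      linarith
  -- the bad parts
  set w : ℕ → ℝ → ℝ := fun v s => t1W T y v (fun _ => 1) s + t1W T y v (Xp u) s with hwd
  have hwc : ∀ v, Continuous (w v) := fun v => (t1W_cont T y v _).add (t1W_cont T y v _)
  have hw0 : ∀ v s, 0 ≤ w v s := fun v s => add_nonneg (t1W_nonneg _ _ _ _ _) (t1W_nonneg _ _ _ _ _)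
  have hbadint : ∀ v ∈ Finset.Icc 1 J, ∫⁻ s, ENNReal.ofReal (t1G κ u T y (v - 1) (w v) s) ∂mu T ≤
      ENNReal.ofReal (6 * C * C2 * (2 * Real.exp 1 * Real.log y) ^ (2 * κ) * Bd *
        ((2 ^ v * Real.log y / L) ^ (-(2 * κ)) * Real.exp (-1 * (KT T y v : ℝ)))) := by
    intro v hv
    obtain ⟨hv1, hvJ⟩ := Finset.mem_Icc.1 hv
    have hb : 0 < 6 * C * Real.exp (t1E κ u y (v - 1)) * Real.exp (-(KT T y v : ℝ)) := by positivity
    have hq : 0 < L * Real.exp (-(t1L y (v - 1))) := by positivity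
    have key := t1_int (T := T) (y := y) (M := v - 1) (u := u) (w := w v) h0 h1 (hwc v) (hw0 v) hb hq ?_ ?_ ?_
    · refine key.trans (ENNReal.ofReal_le_ofReal ?_)
      have h2v : (2 : ℝ) ^ v = 2 * 2 ^ (v - 1) := by
        rw [← pow_succ']; congr 1; omega
      have q1 : L * Real.exp (-(t1L y (v - 1))) ≤ 2 * Real.exp 1 * Real.log y * (2 ^ v * Real.log y / L)⁻¹ := by
        refine (t1_q hm' hL0.le).trans (le_of_eq ?_)
        rw [h2v]
        have : (0 : ℝ) < 2 ^ (v - 1) := by positivity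
        field_simp
      have q2 : (L * Real.exp (-(t1L y (v - 1)))) ^ (2 * κ) ≤
          (2 * Real.exp 1 * Real.log y) ^ (2 * κ) * (2 ^ v * Real.log y / L) ^ (-(2 * κ)) := by
        refine (Real.rpow_le_rpow hq.le q1 (by linarith)).trans (le_of_eq ?_)
        rw [Real.mul_rpow (by positivity) (by positivity), Real.inv_rpow (by positivity), Real.rpow_neg (by positivity)]
      calc 6 * C * Real.exp (t1E κ u y (v - 1)) * Real.exp (-(KT T y v : ℝ)) * (L * Real.exp (-(t1L y (v - 1)))) ^ (2 * κ)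
          ≤ 6 * C * (C2 * Bd) * Real.exp (-(KT T y v : ℝ)) * ((2 * Real.exp 1 * Real.log y) ^ (2 * κ) *
            (2 ^ v * Real.log y / L) ^ (-(2 * κ))) := by
            refine mul_le_mul (mul_le_mul_of_nonneg_right (mul_le_mul_of_nonneg_left (hEJ (v - 1) (by omega)) (by positivity))
              (Real.exp_pos _).le) q2 (by positivity) (by positivity)
        _ = _ := by
            rw [neg_one_mul]; ring
    · have g := hLL T v hTT1 (hMJ v hvJ) 1 le_rfl (t1c1 κ u) (t1c1_le h0 h1 u)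
      have g1 := g.2 (fun _ => 1) h11 hv1
      have g2 := g.2 (Xp u) hXu hv1
      rw [t1_Sg1 (t1c1_n h0 u)] at g1 g2
      have g3 := t1_two (by positivity) g1 g2
      refine g3.trans (ENNReal.ofReal_le_ofReal ?_)
      rw [Real.exp_sub, pow_one, Real.exp_neg (t1L y (v - 1))]
      have : 0 < C * L * (Real.exp (t1E κ u y (v - 1)) / Real.exp (t1L y (v - 1))) * Real.exp (-(KT T y v : ℝ)) := by positivity
      calc 2 * (C * L * (Real.exp (t1E κ u y (v - 1)) / Real.exp (t1L y (v - 1))) * Real.exp (-(KT T y v : ℝ))) ≤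
          6 * (C * L * (Real.exp (t1E κ u y (v - 1)) / Real.exp (t1L y (v - 1))) * Real.exp (-(KT T y v : ℝ))) := by linarith
        _ = _ := by ring
    · have g := hLL T v hTT1 (hMJ v hvJ) 1 le_rfl (t1d κ u) (t1d_le h0 h1 u)
      have g1 := g.2 (fun p => conj (Xp u p)) hXc hv1
      have g2 := g.2 (fun _ => 1) h11 hv1
      rw [t1_Sg1 (t1d_n h0 u)] at g1 g2
      have g3 := t1_two (by positivity) g1 g2
      have hs := mu_shift (T := T) (x := u) (by linarith) hu.le hu1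
        (g := fun t => ENNReal.ofReal (Z t ^ (2 * 1) * (t1A T y (v - 1) (t1d κ u) t *
          (t1W T y v (fun p => conj (Xp u p)) t + t1W T y v (fun _ => 1) t))))
        ((t1_Z_cont.pow _).mul ((t1A_cont T y _ _).mul ((t1W_cont T y v _).add (t1W_cont T y v _)))).measurable.ennreal_ofReal
      simp only [t1A_shift, t1W_shift1, t1W_shiftc] at hs
      refine hs.trans ((mul_le_mul_right g3 3).trans ?_)
      rw [show (3 : ℝ≥0∞) = ENNReal.ofReal 3 by simp, ← ENNReal.ofReal_mul (by norm_num)]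
      refine ENNReal.ofReal_le_ofReal (le_of_eq ?_)
      rw [Real.exp_sub, pow_one, Real.exp_neg (t1L y (v - 1))]
      ring
    · have g := hLL T v hTT1 (hMJ v hvJ) 0 (by norm_num) (t1c3 κ u) (t1c3_le h0 h1 u)
      have g1 := g.2 (fun _ => 1) h11 hv1
      have g2 := g.2 (Xp u) hXu hv1
      rw [t1_Sg0 (t1c3_n h0 u)] at g1 g2
      have g3 := t1_two (by positivity) g1 g2
      simp only [mul_zero, pow_zero, one_mul, mul_one] at g3
      refine g3.trans (ENNReal.ofReal_le_ofReal ?_)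
      have : 0 < C * Real.exp (t1E κ u y (v - 1)) * Real.exp (-(KT T y v : ℝ)) := by positivity
      linarith
  -- pointwise
  have hKJ := hKS T J hTT1 (hMJ J le_rfl)
  have hpt : ∀ s, ENNReal.ofReal (Z s ^ (2 * κ) * Z (s + u) ^ (2 * κ)) ≤ ENNReal.ofReal (Real.exp 4) *
      (ENNReal.ofReal (t1G κ u T y J (fun _ => 1) s) +
        ∑ v ∈ Finset.Icc 1 J, ENNReal.ofReal (t1G κ u T y (v - 1) (w v) s)) := by
    intro s
    have hbadcase : ∀ v ∈ Finset.Icc 1 J, Good T y (v - 1) s → Good T y (v - 1) (s + u) → 1 ≤ w v s →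
        ENNReal.ofReal (Z s ^ (2 * κ) * Z (s + u) ^ (2 * κ)) ≤ ENNReal.ofReal (Real.exp 4) *
      (ENNReal.ofReal (t1G κ u T y J (fun _ => 1) s) +
        ∑ v ∈ Finset.Icc 1 J, ENNReal.ofReal (t1G κ u T y (v - 1) (w v) s)) := by
      intro v hv hg1 hg2 hw1
      obtain ⟨hv1, hvJ⟩ := Finset.mem_Icc.1 hv
      have hKv := hKS T (v - 1) hTT1 (hMJ (v - 1) (by omega))
      have g := t1_point h0 h1 hg1 hg2 hKv.1 hKv.2 (w v) hw1
      refine (ENNReal.ofReal_le_ofReal g).trans ?_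
      rw [ENNReal.ofReal_mul (Real.exp_pos _).le]
      refine mul_le_mul_right ?_ _
      refine le_trans ?_ le_add_self
      exact Finset.single_le_sum (f := fun v => ENNReal.ofReal (t1G κ u T y (v - 1) (w v) s)) (fun _ _ => zero_le) hv
    have hw1a : ∀ v ∈ Finset.Icc 1 J, (KT T y v : ℝ) / 100 < ‖Ps (blk y v) (fun _ => 1) (Xp s)‖ → 1 ≤ w v s := by
      intro v hv hb
      have := t1_W1 (T := T) (by linarith [hKJ.1 v hv] : 1 ≤ KT T y v) hb
      have h2 := t1W_nonneg T y v (Xp u) s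
      simp only [hwd]
      linarith
    have hw1b : ∀ v ∈ Finset.Icc 1 J, (KT T y v : ℝ) / 100 < ‖Ps (blk y v) (fun _ => 1) (Xp (s + u))‖ → 1 ≤ w v s := by
      intro v hv hb
      rw [t1_shift1] at hb
      have := t1_W1 (T := T) (by linarith [hKJ.1 v hv] : 1 ≤ KT T y v) hb
      have h2 := t1W_nonneg T y v (fun _ => 1) s
      simp only [hwd]
      linarith
    rcases first_bad T y J s with hg | ⟨v, hv, hgv, hbv⟩
    · rcases first_bad T y J (s + u) with hg' | ⟨v', hv', hgv', hbv'⟩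
      · have g := t1_point h0 h1 hg hg' hKJ.1 hKJ.2 (fun _ => 1) le_rfl
        refine (ENNReal.ofReal_le_ofReal g).trans ?_
        rw [ENNReal.ofReal_mul (Real.exp_pos _).le]
        exact mul_le_mul_right le_self_add _
      · refine hbadcase v' hv' (t1_good_mono hg ?_) hgv' (hw1b v' hv' hbv')
        have := (Finset.mem_Icc.1 hv').2
        omega
    · rcases first_bad T y J (s + u) with hg' | ⟨v', hv', hgv', hbv'⟩
      · refine hbadcase v hv hgv (t1_good_mono hg' ?_) (hw1a v hv hbv)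
        have := (Finset.mem_Icc.1 hv).2
        omega
      · rcases le_total v v' with h | h
        · exact hbadcase v hv hgv (t1_good_mono hgv' (by omega)) (hw1a v hv hbv)
        · exact hbadcase v' hv' (t1_good_mono hgv (by omega)) hgv' (hw1b v' hv' hbv')
  -- conclusion
  calc ∫⁻ s, ENNReal.ofReal (Z s ^ (2 * κ) * Z (s + u) ^ (2 * κ)) ∂mu T
      ≤ ∫⁻ s, ENNReal.ofReal (Real.exp 4) * (ENNReal.ofReal (t1G κ u T y J (fun _ => 1) s) +
        ∑ v ∈ Finset.Icc 1 J, ENNReal.ofReal (t1G κ u T y (v - 1) (w v) s)) ∂mu T := lintegral_mono hpt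
    _ = ENNReal.ofReal (Real.exp 4) * (∫⁻ s, ENNReal.ofReal (t1G κ u T y J (fun _ => 1) s) ∂mu T +
        ∑ v ∈ Finset.Icc 1 J, ∫⁻ s, ENNReal.ofReal (t1G κ u T y (v - 1) (w v) s) ∂mu T) := by
        rw [lintegral_const_mul, lintegral_add_left, lintegral_finsetSum]
        · exact fun v _ => (t1G_meas κ u T y (v - 1) (hwc v)).ennreal_ofReal
        · exact (t1G_meas κ u T y J continuous_const).ennreal_ofReal
        · exact (t1G_meas κ u T y J continuous_const).ennreal_ofReal.add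
            (Finset.measurable_sum _ (fun v _ => (t1G_meas κ u T y (v - 1) (hwc v)).ennreal_ofReal))
    _ ≤ ENNReal.ofReal (Real.exp 4) * (ENNReal.ofReal (D1 * Bd) + ∑ v ∈ Finset.Icc 1 J,
        ENNReal.ofReal (6 * C * C2 * (2 * Real.exp 1 * Real.log y) ^ (2 * κ) * Bd *
        ((2 ^ v * Real.log y / L) ^ (-(2 * κ)) * Real.exp (-1 * (KT T y v : ℝ))))) :=
        mul_le_mul_right (add_le_add hgoodint (Finset.sum_le_sum hbadint)) _
    _ = ENNReal.ofReal (Real.exp 4 * (D1 * Bd + ∑ v ∈ Finset.Icc 1 J,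
        (6 * C * C2 * (2 * Real.exp 1 * Real.log y) ^ (2 * κ) * Bd *
        ((2 ^ v * Real.log y / L) ^ (-(2 * κ)) * Real.exp (-1 * (KT T y v : ℝ)))))) := by
        rw [← ENNReal.ofReal_sum_of_nonneg (fun v _ => by positivity), ← ENNReal.ofReal_add (by positivity)
          (Finset.sum_nonneg (fun v _ => by positivity)), ← ENNReal.ofReal_mul (Real.exp_pos _).le]
    _ ≤ _ := by
        refine ENNReal.ofReal_le_ofReal ?_
        rw [← Finset.mul_sum]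
        have hb3 := hbad T y J (by omega) (by linarith) (hJ2.trans (by nlinarith))
        have e1 : Real.exp 4 * (D1 + D2) * L ^ (2 * κ ^ 2) * min L (1 / u) ^ (2 * κ ^ 2) = Real.exp 4 * (D1 * Bd + D2 * Bd) := by
          rw [hBd]; ring
        rw [e1]
        refine mul_le_mul_of_nonneg_left ?_ (Real.exp_pos _).le
        refine add_le_add le_rfl ?_
        calc 6 * C * C2 * (2 * Real.exp 1 * Real.log y) ^ (2 * κ) * Bd * ∑ v ∈ Finset.Icc 1 J,
              ((2 ^ v * Real.log y / L) ^ (-(2 * κ)) * Real.exp (-1 * (KT T y v : ℝ)))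
            ≤ 6 * C * C2 * (2 * Real.exp 1 * Real.log y) ^ (2 * κ) * Bd * C3 :=
              mul_le_mul_of_nonneg_left hb3 (by positivity)
          _ = D2 * Bd := by rw [hD2d]; ring

end CZ
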