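import Pool.Agent.Lib.MP_9eae41_pr.U1
import Pool.Agent.Lib.MP_9eae41_pr.Q2

set_option autoImplicit false

open Complex MeasureTheory Set Filter Topology
open scoped ComplexConjugate ENNReal

namespace CZ

/-! Row TW1 (250 lines): LL for a compact continuous family of nonnegative functions of the small block, and the three weights
i = 0 (no zeta), i = 1 (zeta^2), i = 2 (zeta^2 and the bad block M). Uniform continuity on the compact set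
[-1,1]^2 x torus; finite net; sw_upper for each point of the net; LL with A0 = the approximant. -/

def ai (i : ℕ) : ℕ := min i 1

def Mi (i M : ℕ) : ℕ := if i = 2 then M - 1 else M

noncomputable def Wi (i : ℕ) (T : ℝ) (y M : ℕ) (c : ℕ → ℂ) (s : ℝ) : ℝ :=
  Wt (ai i) T y (Mi i M) c s *
    (if i = 2 then ‖(((100 / KT T y M : ℝ) : ℂ) * Ps (blk y M) (fun _ => 1) (Xp s)) ^ (KT T y M)‖ ^ 2 else 1)

noncomputable def gi (i : ℕ) (T : ℝ) (y M : ℕ) : ℝ := if i = 2 then Real.exp (-(KT T y M : ℝ)) else 1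

private def tw1_Tor : Set (ℕ → ℂ) := {X | ∀ p, ‖X p‖ = 1}

private theorem tw1_compact : IsCompact tw1_Tor := by
  have h : tw1_Tor = Set.pi Set.univ (fun _ : ℕ => Metric.sphere (0 : ℂ) 1) := by
    ext X
    simp [tw1_Tor, Set.mem_pi]
  rw [h]
  exact isCompact_univ_pi fun _ => isCompact_sphere 0 1

private theorem tw1_mem (θ : Om) : Xt θ ∈ tw1_Tor := fun p => norm_Xt θ p

private theorem tw1_net (G : ℝ → ℝ → (ℕ → ℂ) → ℝ)
    (hG : ContinuousOn (fun v : ℝ × ℝ × (ℕ → ℂ) => G v.1 v.2.1 v.2.2) {v | ∀ p, ‖v.2.2 p‖ = 1}) (η : ℝ) (hη : 0 < η) :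
    ∃ t : Finset (ℝ × ℝ), ∀ x ∈ Icc (-1:ℝ) 1, ∀ x' ∈ Icc (-1:ℝ) 1, ∃ v ∈ t,
      ∀ X : ℕ → ℂ, (∀ p, ‖X p‖ = 1) → |G x x' X - G v.1 v.2 X| ≤ η := by
  classical
  haveI hc1 : CompactSpace (↥(Icc (-1:ℝ) 1 ×ˢ Icc (-1:ℝ) 1)) :=
    isCompact_iff_compactSpace.mp (isCompact_Icc.prod isCompact_Icc)
  haveI hc2 : CompactSpace (↥tw1_Tor) := isCompact_iff_compactSpace.mp tw1_compact
  let f : C((↥(Icc (-1:ℝ) 1 ×ˢ Icc (-1:ℝ) 1)) × (↥tw1_Tor), ℝ) :=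
    ⟨fun z => G z.1.1.1 z.1.1.2 z.2.1, by
      have hcont : Continuous (fun z : (↥(Icc (-1:ℝ) 1 ×ˢ Icc (-1:ℝ) 1)) × (↥tw1_Tor) =>
          ((z.1.1.1, z.1.1.2, z.2.1) : ℝ × ℝ × (ℕ → ℂ))) := by fun_prop
      exact hG.comp_continuous hcont (fun z => z.2.2)⟩
  let F := f.curry
  obtain ⟨t, -, ht⟩ := (isCompact_univ : IsCompact (Set.univ : Set (↥(Icc (-1:ℝ) 1 ×ˢ Icc (-1:ℝ) 1)))).elim_nhds_subcover
    (fun x0 => F ⁻¹' Metric.ball (F x0) η)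
    (fun x0 _ => F.continuous.continuousAt.preimage_mem_nhds (Metric.ball_mem_nhds _ hη))
  refine ⟨t.image (fun v => v.1), ?_⟩
  intro x hx x' hx'
  have hm : (⟨(x, x'), ⟨hx, hx'⟩⟩ : ↥(Icc (-1:ℝ) 1 ×ˢ Icc (-1:ℝ) 1)) ∈
      ⋃ x0 ∈ t, F ⁻¹' Metric.ball (F x0) η := ht (Set.mem_univ _)
  rw [Set.mem_iUnion₂] at hm
  obtain ⟨v, hv, hm⟩ := hm
  refine ⟨v.1, Finset.mem_image_of_mem _ hv, ?_⟩
  intro X hX
  have h1 := ContinuousMap.dist_apply_le_dist (f := F ⟨(x, x'), ⟨hx, hx'⟩⟩) (g := F v) (⟨X, hX⟩ : ↥tw1_Tor)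
  have h2 : dist (F ⟨(x, x'), ⟨hx, hx'⟩⟩) (F v) < η := hm
  have h3 := h1.trans h2.le
  rw [Real.dist_eq] at h3
  exact h3

private theorem tw1_DD_bound (a y : ℕ) : ∃ B : ℝ, 0 ≤ B ∧ ∀ X : ℕ → ℂ, (∀ p, ‖X p‖ = 1) →
    DD a 0 (blk y 0) X ≤ B := by
  have h1 : ∀ p : ℕ, ∃ B : ℝ, 0 ≤ B ∧ (p.Prime → ∀ x : ℂ, ‖x‖ = 1 → ‖Dz 0 p x‖ ≤ B) := by
    intro p
    by_cases hp : p.Prime
    · have hz : ‖(0 : ℂ)‖ ≤ 1/4 := by rw [norm_zero]; norm_num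
      obtain ⟨B, hB⟩ := (isCompact_sphere (0 : ℂ) 1).exists_bound_of_continuousOn (Dz_cont hz hp)
      refine ⟨max B 0, le_max_right _ _, fun _ x hx => (hB x ?_).trans (le_max_left _ _)⟩
      simpa using hx
    · exact ⟨0, le_refl _, fun h => absurd h hp⟩
  choose B hB0 hB using h1
  refine ⟨(∏ p ∈ blk y 0, B p) ^ a, pow_nonneg (Finset.prod_nonneg fun p _ => hB0 p) _, ?_⟩
  intro X hX
  unfold DD
  apply pow_le_pow_left₀ (Finset.prod_nonneg fun p _ => norm_nonneg _)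
  exact Finset.prod_le_prod (fun p _ => norm_nonneg _) fun p hp => hB p (blk_prime hp) _ (hX p)

private theorem tw1_DD_cont (a y : ℕ) : Continuous (fun θ : Om => DD a 0 (blk y 0) (Xt θ)) :=
  DD_Xt_cont (by rw [norm_zero]; norm_num) (fun _ hp => blk_prime hp) a

private theorem tw1_int (g : (ℕ → ℂ) → ℝ) (hg : ContinuousOn g tw1_Tor) (a y : ℕ) :
    Integrable (fun θ => g (Xt θ) * DD a 0 (blk y 0) (Xt θ)) PT := by
  haveI := PT_prob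
  obtain ⟨B, hB0, hB⟩ := tw1_DD_bound a y
  obtain ⟨C, hC⟩ := tw1_compact.exists_bound_of_continuousOn hg
  have hc : Continuous (fun θ : Om => g (Xt θ) * DD a 0 (blk y 0) (Xt θ)) :=
    (hg.comp_continuous Xt_cont tw1_mem).mul (tw1_DD_cont a y)
  refine Integrable.of_bound hc.aestronglyMeasurable (C * B) (Filter.Eventually.of_forall fun θ => ?_)
  rw [norm_mul]
  have h1 := hC _ (tw1_mem θ)
  have h2 : ‖DD a 0 (blk y 0) (Xt θ)‖ ≤ B := by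
    rw [Real.norm_eq_abs, abs_of_nonneg (DD_nonneg _ _ _ _)]
    exact hB _ (tw1_mem θ)
  exact mul_le_mul h1 h2 (norm_nonneg _) ((norm_nonneg _).trans h1)

/-- one approximant -/
private theorem tw1_approx (y : ℕ) (G : ℝ → ℝ → (ℕ → ℂ) → ℝ)
    (hG : ContinuousOn (fun v : ℝ × ℝ × (ℕ → ℂ) => G v.1 v.2.1 v.2.2) {v | ∀ p, ‖v.2.2 p‖ = 1})
    (hG0 : ∀ (x x' : ℝ) (X : ℕ → ℂ), (∀ p, ‖X p‖ = 1) → 0 ≤ G x x' X)
    (hGd : ∀ (x x' : ℝ) (X Y : ℕ → ℂ), (∀ p ∈ blk y 0, X p = Y p) → G x x' X = G x x' Y)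
    (ε : ℝ) (hε : 0 < ε) :
    ∃ (t : Finset (ℝ × ℝ)) (F : ℝ × ℝ → (ℕ → ℂ) → ℂ), (∀ v, ∃ (H : ℕ) (L : ℝ), IsDP (blk y 0) H L (F v)) ∧
      ∀ x ∈ Icc (-1:ℝ) 1, ∀ x' ∈ Icc (-1:ℝ) 1, ∃ v ∈ t,
        (∀ X : ℕ → ℂ, (∀ p, ‖X p‖ = 1) → G x x' X ≤ ‖F v X‖ ^ 2) ∧
        ∀ a ≤ 1, ∫ θ, ‖F v (Xt θ)‖ ^ 2 * DD a 0 (blk y 0) (Xt θ) ∂PT ≤
          (∫ θ, G x x' (Xt θ) * DD a 0 (blk y 0) (Xt θ) ∂PT) + ε := by
  haveI := PT_prob
  set D : ℕ → ℝ := fun a => ∫ θ, DD a 0 (blk y 0) (Xt θ) ∂PT with hD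
  have hD0 : ∀ a, 0 ≤ D a := fun a => integral_nonneg fun θ => DD_nonneg _ _ _ _
  set η : ℝ := ε / (3 * (D 0 + D 1 + 1)) with hη
  have hden : 0 < D 0 + D 1 + 1 := by have := hD0 0; have := hD0 1; linarith
  have hη0 : 0 < η := by positivity
  obtain ⟨t, ht⟩ := tw1_net G hG η hη0
  have hGc : ∀ x x' : ℝ, ContinuousOn (G x x') tw1_Tor := by
    intro x x'
    have hcont : ContinuousOn (fun X : ℕ → ℂ => ((x, x', X) : ℝ × ℝ × (ℕ → ℂ))) tw1_Tor := by fun_prop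
    exact hG.comp hcont (fun X hX => hX)
  have hex : ∀ v : ℝ × ℝ, ∃ F : (ℕ → ℂ) → ℂ, (∃ (H : ℕ) (L : ℝ), IsDP (blk y 0) H L F) ∧
      ∀ X : ℕ → ℂ, (∀ p, ‖X p‖ = 1) → G v.1 v.2 X + η ≤ ‖F X‖ ^ 2 ∧ ‖F X‖ ^ 2 ≤ G v.1 v.2 X + η + η := by
    intro v
    obtain ⟨H, L, F, -, hF, hF2⟩ := sw_upper (blk y 0) (fun _ hp => blk_prime hp) (fun X => G v.1 v.2 X + η)
      ((hGc v.1 v.2).add continuousOn_const) (fun X Y hXY => by rw [hGd v.1 v.2 X Y hXY])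
      (fun X hX => add_nonneg (hG0 _ _ X hX) hη0.le) η hη0
    exact ⟨F, ⟨H, L, hF⟩, hF2⟩
  choose F hFdp hF using hex
  refine ⟨t, F, hFdp, ?_⟩
  intro x hx x' hx'
  obtain ⟨v, hv, hvX⟩ := ht x hx x' hx'
  refine ⟨v, hv, ?_, ?_⟩
  · intro X hX
    have h1 := (abs_le.mp (hvX X hX)).2
    have h2 := (hF v X hX).1
    linarith
  · intro a ha
    obtain ⟨H, L, hdp⟩ := hFdp v
    have hi1 : Integrable (fun θ => ‖F v (Xt θ)‖ ^ 2 * DD a 0 (blk y 0) (Xt θ)) PT :=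
      tw1_int (fun X => ‖F v X‖ ^ 2) (((dp_cont hdp).norm.pow 2).continuousOn) a y
    have hi2 : Integrable (fun θ => G x x' (Xt θ) * DD a 0 (blk y 0) (Xt θ)) PT := tw1_int (G x x') (hGc x x') a y
    have hi3 : Integrable (fun θ => DD a 0 (blk y 0) (Xt θ)) PT := by
      have := tw1_int (fun _ => (1 : ℝ)) continuousOn_const a y
      simpa using this
    have hle : ∫ θ, ‖F v (Xt θ)‖ ^ 2 * DD a 0 (blk y 0) (Xt θ) ∂PT ≤
        ∫ θ, (G x x' (Xt θ) * DD a 0 (blk y 0) (Xt θ) + 3 * η * DD a 0 (blk y 0) (Xt θ)) ∂PT := by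
      apply integral_mono hi1 (hi2.add (hi3.const_mul _))
      intro θ
      have h1 := (abs_le.mp (hvX (Xt θ) (tw1_mem θ))).1
      have h2 := (hF v (Xt θ) (tw1_mem θ)).2
      have h3 : ‖F v (Xt θ)‖ ^ 2 ≤ G x x' (Xt θ) + 3 * η := by linarith
      show ‖F v (Xt θ)‖ ^ 2 * DD a 0 (blk y 0) (Xt θ) ≤
        G x x' (Xt θ) * DD a 0 (blk y 0) (Xt θ) + 3 * η * DD a 0 (blk y 0) (Xt θ)
      rw [← add_mul]
      exact mul_le_mul_of_nonneg_right h3 (DD_nonneg _ _ _ _)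
    rw [integral_add hi2 (hi3.const_mul _), integral_const_mul] at hle
    refine hle.trans (add_le_add_right ?_ _)
    have hDa : D a ≤ D 0 + D 1 + 1 := by
      have := hD0 0; have := hD0 1
      interval_cases a <;> linarith
    calc 3 * η * D a ≤ 3 * η * (D 0 + D 1 + 1) := mul_le_mul_of_nonneg_left hDa (by positivity)
      _ = ε := by rw [hη]; field_simp

theorem LLc (C0 : ℝ) (hC0 : 1 ≤ C0) : ∃ (C : ℝ) (y0 : ℕ) (δ : ℝ), 0 < C ∧ 100 ≤ y0 ∧ 0 < δ ∧ δ ≤ 1/2 ∧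
    ∀ (y : ℕ), y0 ≤ y → ∀ G : ℝ → ℝ → (ℕ → ℂ) → ℝ,
    ContinuousOn (fun v : ℝ × ℝ × (ℕ → ℂ) => G v.1 v.2.1 v.2.2) {v | ∀ p, ‖v.2.2 p‖ = 1} →
    (∀ (x x' : ℝ) (X : ℕ → ℂ), (∀ p, ‖X p‖ = 1) → 0 ≤ G x x' X) →
    (∀ (x x' : ℝ) (X Y : ℕ → ℂ), (∀ p ∈ blk y 0, X p = Y p) → G x x' X = G x x' Y) →
    ∀ ε : ℝ, 0 < ε → ∃ T0 : ℝ, 3 ≤ T0 ∧ ∀ T : ℝ, T0 ≤ T → ∀ M i : ℕ, i ≤ 2 → (i = 2 → 1 ≤ M) →
    2 ^ M * Real.log y ≤ δ * Real.log T → ∀ c : ℕ → ℂ, (∀ p, ‖c p‖ ≤ C0) →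
    ∀ x ∈ Icc (-1:ℝ) 1, ∀ x' ∈ Icc (-1:ℝ) 1,
    ∫⁻ s, ENNReal.ofReal (G x x' (Xp s) * Wi i T y M c s) ∂mu T ≤
      ENNReal.ofReal (C * Real.log T ^ (ai i) * ((∫ θ, G x x' (Xt θ) * DD (ai i) 0 (blk y 0) (Xt θ) ∂PT) + ε) *
        Real.exp (Sg (ai i) c y (Mi i M)) * gi i T y M) := by
  classical
  obtain ⟨Ca, ya, δa, hCa, hya, hδa, hδa', hA⟩ := LL 0 (by norm_num) C0 hC0
  obtain ⟨Cb, yb, δb, hCb, hyb, hδb, hδb', hB⟩ := LL 1 le_rfl C0 hC0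
  refine ⟨Ca + Cb, max ya yb, min δa δb, by positivity, le_max_of_le_left hya, lt_min hδa hδb,
    (min_le_left _ _).trans hδa', ?_⟩
  intro y hy G hG hG0 hGd ε hε
  have hya' : ya ≤ y := (le_max_left _ _).trans hy
  have hyb' : yb ≤ y := (le_max_right _ _).trans hy
  obtain ⟨t, F, hFdp, hF⟩ := tw1_approx y G hG hG0 hGd (ε / 2) (by positivity)
  choose H L hdp using hFdp
  have hA' := fun v => hA y hya' (F v) (H v) (L v) (hdp v) (ε / 2) (by positivity)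
  have hB' := fun v => hB y hyb' (F v) (H v) (L v) (hdp v) (ε / 2) (by positivity)
  choose Ta hTa3 hTa using hA'
  choose Tb hTb3 hTb using hB'
  refine ⟨3 + ∑ v ∈ t, (Ta v + Tb v), ?_, ?_⟩
  · have : 0 ≤ ∑ v ∈ t, (Ta v + Tb v) := Finset.sum_nonneg fun v _ => by
      have := hTa3 v; have := hTb3 v; linarith
    linarith
  intro T hT M i hi hi2 hM c hc x hx x' hx'
  obtain ⟨v, hv, hv1, hv2⟩ := hF x hx x' hx'
  have hsum : Ta v + Tb v ≤ ∑ v ∈ t, (Ta v + Tb v) :=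
    Finset.single_le_sum (f := fun v => Ta v + Tb v) (fun v _ => by
      have := hTa3 v; have := hTb3 v
      show 0 ≤ Ta v + Tb v
      linarith) hv
  have hTa1 : Ta v ≤ T := by have := hTb3 v; linarith
  have hTb1 : Tb v ≤ T := by have := hTa3 v; linarith
  have hT1 : 1 < T := by have := hTa3 v; linarith
  have hlog : 0 < Real.log T := Real.log_pos hT1
  have hMa : 2 ^ M * Real.log y ≤ δa * Real.log T := hM.trans
    (mul_le_mul_of_nonneg_right (min_le_left _ _) hlog.le)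
  have hMb : 2 ^ M * Real.log y ≤ δb * Real.log T := hM.trans
    (mul_le_mul_of_nonneg_right (min_le_right _ _) hlog.le)
  have hA2 := hTa v T hTa1 M hMa c hc
  have hB2 := hTb v T hTb1 M hMb c hc
  have hWi0 : ∀ s, 0 ≤ Wi i T y M c s := by
    intro s
    unfold Wi Wt
    have hZ : 0 ≤ Z s := norm_nonneg _
    refine mul_nonneg (mul_nonneg (pow_nonneg hZ _) (Finset.prod_nonneg fun _ _ => by positivity)) ?_
    split_ifs <;> positivity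
  have hgi0 : 0 ≤ gi i T y M := by
    unfold gi
    split_ifs
    · exact (Real.exp_pos _).le
    · exact zero_le_one
  -- first step: replace G by the approximant
  have hstep1 : ∫⁻ s, ENNReal.ofReal (G x x' (Xp s) * Wi i T y M c s) ∂mu T ≤
      ∫⁻ s, ENNReal.ofReal (‖F v (Xp s)‖ ^ 2 * Wi i T y M c s) ∂mu T := by
    apply lintegral_mono
    intro s
    apply ENNReal.ofReal_le_ofReal
    exact mul_le_mul_of_nonneg_right (hv1 _ (norm_Xp s)) (hWi0 s)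
  refine hstep1.trans ?_
  -- second step: LL
  have hstep2 : ∃ C' : ℝ, 0 ≤ C' ∧ C' ≤ Ca + Cb ∧
      ∫⁻ s, ENNReal.ofReal (‖F v (Xp s)‖ ^ 2 * Wi i T y M c s) ∂mu T ≤
      ENNReal.ofReal (C' * Real.log T ^ (ai i) *
        ((∫ θ, ‖F v (Xt θ)‖ ^ 2 * DD (ai i) 0 (blk y 0) (Xt θ) ∂PT) + ε / 2) *
        Real.exp (Sg (ai i) c y (Mi i M)) * gi i T y M) := by
    interval_cases i
    · refine ⟨Ca, hCa.le, by linarith, ?_⟩
      have h := hA2.1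
      simp only [ai, Mi, gi, Wi, Wt] at h ⊢
      norm_num at h ⊢
      refine le_trans (le_of_eq ?_) h
      exact lintegral_congr fun s => by ring_nf
    · refine ⟨Cb, hCb.le, by linarith, ?_⟩
      have h := hB2.1
      have e : ai 1 = 1 := rfl
      have e2 : Mi 1 M = M := rfl
      have e3 : gi 1 T y M = 1 := rfl
      have e4 : ∀ s, Wi 1 T y M c s = Wt 1 T y M c s * 1 := fun s => rfl
      rw [e, e2, e3, mul_one]
      refine le_trans (le_of_eq ?_) h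
      refine lintegral_congr fun s => ?_
      rw [e4]
      congr 1
      unfold Wt
      ring
    · refine ⟨Cb, hCb.le, by linarith, ?_⟩
      have h := hB2.2 (fun _ => 1) (fun _ => by rw [norm_one]) (hi2 rfl)
      have e : ai 2 = 1 := rfl
      have e2 : Mi 2 M = M - 1 := rfl
      have e3 : gi 2 T y M = Real.exp (-(KT T y M : ℝ)) := rfl
      have e4 : ∀ s, Wi 2 T y M c s = Wt 1 T y (M - 1) c s *
        ‖(((100 / KT T y M : ℝ) : ℂ) * Ps (blk y M) (fun _ => 1) (Xp s)) ^ (KT T y M)‖ ^ 2 := fun s => rfl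
      rw [e, e2, e3]
      refine le_trans (le_of_eq ?_) h
      refine lintegral_congr fun s => ?_
      rw [e4]
      congr 1
      unfold Wt
      ring
  obtain ⟨C', hC'0, hC'le, hstep2⟩ := hstep2
  refine hstep2.trans (ENNReal.ofReal_le_ofReal ?_)
  have hai : ai i ≤ 1 := min_le_right _ _
  have h1 := hv2 (ai i) hai
  have h2 : (∫ θ, ‖F v (Xt θ)‖ ^ 2 * DD (ai i) 0 (blk y 0) (Xt θ) ∂PT) + ε / 2 ≤
      (∫ θ, G x x' (Xt θ) * DD (ai i) 0 (blk y 0) (Xt θ) ∂PT) + ε := by linarith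
  have h3 : 0 ≤ (∫ θ, ‖F v (Xt θ)‖ ^ 2 * DD (ai i) 0 (blk y 0) (Xt θ) ∂PT) + ε / 2 := by
    have : 0 ≤ ∫ θ, ‖F v (Xt θ)‖ ^ 2 * DD (ai i) 0 (blk y 0) (Xt θ) ∂PT :=
      integral_nonneg fun θ => mul_nonneg (by positivity) (DD_nonneg _ _ _ _)
    linarith
  apply mul_le_mul_of_nonneg_right _ hgi0
  apply mul_le_mul_of_nonneg_right _ (Real.exp_pos _).le
  apply mul_le_mul _ h2 h3 (by positivity)
  exact mul_le_mul_of_nonneg_right hC'le (by positivity)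

end CZ
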