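import Pool.Agent.Lib.MP_9eae41_pr.TW1
import Pool.Agent.Lib.MP_9eae41_pr.M4

set_option autoImplicit false

open Complex MeasureTheory Set Filter Topology
open scoped ComplexConjugate ENNReal

namespace CZ

/-! Row TW2 (350 lines): the far part of the twisted mixed moment. Notation: s = t + x. With Phi = int f phx (a continuous
positive function of the small phases): on Good x Good, pt_two with n = 0 (raised to 1/(q-1) inside the x' integral) gives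
c(s) (int f a)^(q-1) h <= C [S c1 Phi^(q-1) h]^(2-q) [S Phi^(q-2) h int f(x') phx c2 dx']^(q-1), S = sm (k - a); Hoelder in
(t,x) with weight f; mu_shift; LLc (families G x x' X = sm (k-a) y X * (Phi y f (X * Xp(-x)))^(q-1) * h(X * Xp(-x)) and the
one with phx at x'-x and Phi^(q-2)); DD_zero, prod_small; rotation (torus_rot) to identify the torus integrals with
int f phx Phi^(q-1) h, whose x-integral is int Phi^q h. -/

/-- power of the small Euler product -/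
noncomputable def sm (κ : ℝ) (y : ℕ) (X : ℕ → ℂ) : ℝ := ‖Eu (blk y 0) X‖ ^ (2 * κ)

/-- the small density at x -/
noncomputable def phx (κ : ℝ) (y : ℕ) (x : ℝ) (X : ℕ → ℂ) : ℝ := sm κ y (fun p => X p * Xp x p)

/-- mass of f against the small density -/
noncomputable def Phi (κ : ℝ) (y : ℕ) (f : ℝ → ℝ) (X : ℕ → ℂ) : ℝ := ∫ x in Icc (0:ℝ) 1, f x * phx κ y x X

/-- the weights with the small block included -/
noncomputable def Cw (κ : ℝ) (i : ℕ) (T : ℝ) (y M : ℕ) (s : ℝ) : ℝ :=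
  sm (κ - ai i) y (Xp s) * Wi i T y M (fun _ => ((κ - ai i : ℝ) : ℂ)) s

/-- the weight at height s, restricted to the good set -/
noncomputable def Cg (κ : ℝ) (i : ℕ) (T : ℝ) (y M : ℕ) (s : ℝ) : ℝ≥0∞ :=
  {s | Good T y (Mi i M) s}.indicator (fun s => ENNReal.ofReal (Cw κ i T y M s)) s

private lemma tw2_pne (y : ℕ) {X : ℕ → ℂ} (hX : ∀ p, ‖X p‖ = 1) {p : ℕ} (hp : p ∈ blk y 0) :
    (1 : ℂ) - X p * ((Real.sqrt p : ℝ) : ℂ)⁻¹ ≠ 0 := by
  have hp2 : 2 ≤ p := (blk_prime hp).two_le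
  intro h
  have h1 : X p * ((Real.sqrt p : ℝ) : ℂ)⁻¹ = 1 := by linear_combination -h
  have h2 := congrArg norm h1
  rw [norm_mul, hX, norm_inv, Complex.norm_real, norm_one, one_mul, Real.norm_eq_abs,
    abs_of_nonneg (Real.sqrt_nonneg _), inv_eq_one, Real.sqrt_eq_one] at h2
  have h3 : p = 1 := by exact_mod_cast h2
  omega

private lemma tw2_Eu_pos (y : ℕ) {X : ℕ → ℂ} (hX : ∀ p, ‖X p‖ = 1) : 0 < ‖Eu (blk y 0) X‖ := by
  unfold Eu
  rw [norm_pos_iff, Finset.prod_ne_zero_iff]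
  intro p hp
  exact inv_ne_zero (tw2_pne y hX hp)

theorem sm_facts (κ : ℝ) (y : ℕ) : ContinuousOn (sm κ y) {X | ∀ p, ‖X p‖ = 1} ∧ (∀ X : ℕ → ℂ, (∀ p, ‖X p‖ = 1) → 0 < sm κ y X) ∧
    (∀ X Y : ℕ → ℂ, (∀ p ∈ blk y 0, X p = Y p) → sm κ y X = sm κ y Y) := by
  refine ⟨?_, ?_, ?_⟩
  · unfold sm
    refine ContinuousOn.rpow_const ?_ (fun X hX => Or.inl (tw2_Eu_pos y hX).ne')
    refine ContinuousOn.norm ?_
    unfold Eu
    refine continuousOn_finsetProd _ fun p hp => ?_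
    refine ContinuousOn.inv₀ ?_ (fun X hX => tw2_pne y hX hp)
    exact (continuous_const.sub ((continuous_apply p).mul continuous_const)).continuousOn
  · intro X hX
    exact Real.rpow_pos_of_pos (tw2_Eu_pos y hX) _
  · intro X Y h
    unfold sm
    rw [show Eu (blk y 0) X = Eu (blk y 0) Y from Finset.prod_congr rfl fun p hp => by rw [h p hp]]

/-- the torus of phases -/
private def tw2_U : Set (ℕ → ℂ) := {X | ∀ p, ‖X p‖ = 1}

private lemma tw2_U_compact : IsCompact tw2_U := by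
  have h : tw2_U = Set.pi univ (fun _ : ℕ => Metric.sphere (0:ℂ) 1) := by
    ext X
    simp [tw2_U, Set.mem_pi]
  rw [h]
  exact isCompact_univ_pi fun _ => isCompact_sphere 0 1

private lemma tw2_Xt_mem (θ : Om) : Xt θ ∈ tw2_U := fun p => norm_Xt θ p
private lemma tw2_Xp_mem (t : ℝ) : Xp t ∈ tw2_U := fun p => norm_Xp t p
private lemma tw2_mul_mem {X Y : ℕ → ℂ} (hX : X ∈ tw2_U) (hY : Y ∈ tw2_U) : (fun p => X p * Y p) ∈ tw2_U := by
  intro p
  rw [norm_mul, hX p, hY p, one_mul]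

private lemma tw2_Xp_mul (s u : ℝ) : (fun p => Xp s p * Xp u p) = Xp (s + u) := by
  funext p
  rw [Xp_add]

private lemma tw2_Xp_zero (p : ℕ) : Xp 0 p = 1 := by simp [Xp]

private lemma tw2_Xp_neg (x : ℝ) (p : ℕ) : Xp (-x) p * Xp x p = 1 := by
  rw [← Xp_add, neg_add_cancel, tw2_Xp_zero]

private lemma tw2_phx_pos (κ : ℝ) (y : ℕ) (x : ℝ) {X : ℕ → ℂ} (hX : X ∈ tw2_U) : 0 < phx κ y x X :=
  (sm_facts κ y).2.1 _ (tw2_mul_mem hX (tw2_Xp_mem x))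

private lemma tw2_phx_cont (κ : ℝ) (y : ℕ) :
    ContinuousOn (fun v : ℝ × (ℕ → ℂ) => phx κ y v.1 v.2) {v | v.2 ∈ tw2_U} := by
  unfold phx
  refine (sm_facts κ y).1.comp (f := fun v : ℝ × (ℕ → ℂ) => (fun p => v.2 p * Xp v.1 p)) ?_ ?_
  · refine Continuous.continuousOn ?_
    refine continuous_pi fun p => ?_
    exact ((continuous_apply p).comp continuous_snd).mul ((continuous_apply p).comp (Xp_cont.comp continuous_fst))
  · intro v hv
    exact tw2_mul_mem hv (tw2_Xp_mem v.1)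

private lemma tw2_phx_dep (κ : ℝ) (y : ℕ) (x : ℝ) {X Y : ℕ → ℂ} (h : ∀ p ∈ blk y 0, X p = Y p) :
    phx κ y x X = phx κ y x Y :=
  (sm_facts κ y).2.2 _ _ fun p hp => by rw [h p hp]

private lemma tw2_Phi_dep (κ : ℝ) (y : ℕ) (f : ℝ → ℝ) {X Y : ℕ → ℂ} (h : ∀ p ∈ blk y 0, X p = Y p) :
    Phi κ y f X = Phi κ y f Y := by
  unfold Phi
  simp only [tw2_phx_dep κ y _ h]

private lemma tw2_Phi_cont (κ : ℝ) (y : ℕ) {f : ℝ → ℝ} (hf : Continuous f) : ContinuousOn (Phi κ y f) tw2_U := by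
  have : CompactSpace tw2_U := isCompact_iff_compactSpace.mp tw2_U_compact
  rw [continuousOn_iff_continuous_domRestrict]
  have h1 : Continuous (Function.uncurry (fun (X : tw2_U) (x : ℝ) => f x * phx κ y x (X : ℕ → ℂ))) := by
    refine (hf.comp continuous_snd).mul ?_
    refine (tw2_phx_cont κ y).comp_continuous (f := fun v : tw2_U × ℝ => (v.2, (v.1 : ℕ → ℂ))) ?_ ?_
    · exact continuous_snd.prodMk (continuous_subtype_val.comp continuous_fst)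
    · intro v
      exact v.1.2
  exact continuous_parametric_integral_of_continuous (μ := volume) h1 isCompact_Icc

private lemma tw2_fphx_cont (κ : ℝ) (y : ℕ) {f : ℝ → ℝ} (hf : Continuous f) {X : ℕ → ℂ} (hX : X ∈ tw2_U) :
    Continuous (fun x => f x * phx κ y x X) := by
  refine hf.mul ?_
  exact (tw2_phx_cont κ y).comp_continuous (f := fun x : ℝ => (x, X)) (continuous_id.prodMk continuous_const)
    (fun x => hX)

private lemma tw2_Phi_pos (κ : ℝ) (y : ℕ) {f : ℝ → ℝ} (hf : Continuous f) (hf0 : ∀ x, 0 < f x) {X : ℕ → ℂ}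
    (hX : X ∈ tw2_U) : 0 < Phi κ y f X := by
  unfold Phi
  rw [integral_Icc_eq_integral_Ioc, ← intervalIntegral.integral_of_le zero_le_one]
  exact intervalIntegral.intervalIntegral_pos_of_pos
    ((tw2_fphx_cont κ y hf hX).intervalIntegrable 0 1) (fun x => mul_pos (hf0 x) (tw2_phx_pos κ y x hX)) zero_lt_one

private lemma tw2_Ps_cont {α : Type} [TopologicalSpace α] (S : Finset ℕ) {c : α → ℕ → ℂ} (hc : ∀ p, Continuous fun v => c v p)
    {s : α → ℝ} (hs : Continuous s) : Continuous fun v => Ps S (c v) (Xp (s v)) := by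
  unfold Ps
  refine continuous_finsetSum _ fun p _ => ?_
  exact ((hc p).mul ((continuous_apply p).comp (Xp_cont.comp hs))).mul continuous_const

private lemma tw2_Ek_cont (K : ℕ) : Continuous (Ek K) := by
  unfold Ek
  exact continuous_finsetSum _ fun k _ => (continuous_id.pow k).div_const _

private lemma tw2_Wt_cont {α : Type} [TopologicalSpace α] (a : ℕ) (T : ℝ) (y M : ℕ) {c : α → ℕ → ℂ}
    (hc : ∀ p, Continuous fun v => c v p) {s : α → ℝ} (hs : Continuous s) : Continuous fun v => Wt a T y M (c v) (s v) := by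
  unfold Wt
  refine ((Z_cont.comp hs).pow _).mul (continuous_finsetProd _ fun n _ => ?_)
  unfold Nn
  exact (((tw2_Ek_cont _).comp (tw2_Ps_cont _ hc hs)).norm).pow 2

private lemma tw2_Wt_nonneg (a : ℕ) (T : ℝ) (y M : ℕ) (c : ℕ → ℂ) (s : ℝ) : 0 ≤ Wt a T y M c s := by
  unfold Wt
  exact mul_nonneg (pow_nonneg (norm_nonneg _) _) (Finset.prod_nonneg fun _ _ => by positivity)

/-- the extra factor of the weight -/
private noncomputable def tw2_E (i : ℕ) (T : ℝ) (y M : ℕ) (s : ℝ) : ℝ :=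
  (if i = 2 then ‖(((100 / KT T y M : ℝ) : ℂ) * Ps (blk y M) (fun _ => 1) (Xp s)) ^ (KT T y M)‖ ^ 2 else 1)

private lemma tw2_Wi_eq (i : ℕ) (T : ℝ) (y M : ℕ) (c : ℕ → ℂ) (s : ℝ) :
    Wi i T y M c s = Wt (ai i) T y (Mi i M) c s * tw2_E i T y M s := rfl

private lemma tw2_E_nonneg (i : ℕ) (T : ℝ) (y M : ℕ) (s : ℝ) : 0 ≤ tw2_E i T y M s := by
  unfold tw2_E
  split_ifs
  · positivity
  · exact zero_le_one

private lemma tw2_E_cont (i : ℕ) (T : ℝ) (y M : ℕ) : Continuous (tw2_E i T y M) := by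
  unfold tw2_E
  split_ifs
  · refine (Continuous.norm ?_).pow 2
    exact (continuous_const.mul (tw2_Ps_cont _ (fun _ => continuous_const) continuous_id)).pow _
  · exact continuous_const

private lemma tw2_Wi_cont {α : Type} [TopologicalSpace α] (i : ℕ) (T : ℝ) (y M : ℕ) {c : α → ℕ → ℂ}
    (hc : ∀ p, Continuous fun v => c v p) {s : α → ℝ} (hs : Continuous s) : Continuous fun v => Wi i T y M (c v) (s v) := by
  simp only [tw2_Wi_eq]
  exact (tw2_Wt_cont _ T y _ hc hs).mul ((tw2_E_cont i T y M).comp hs)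

private lemma tw2_Wi_nonneg (i : ℕ) (T : ℝ) (y M : ℕ) (c : ℕ → ℂ) (s : ℝ) : 0 ≤ Wi i T y M c s := by
  rw [tw2_Wi_eq]
  exact mul_nonneg (tw2_Wt_nonneg _ _ _ _ _ _) (tw2_E_nonneg _ _ _ _ _)

private lemma tw2_c2_cont (κ q : ℝ) (a y n : ℕ) {α : Type} [TopologicalSpace α] {u : α → ℝ} (hu : Continuous u) (p : ℕ) :
    Continuous fun v => c2 κ q a y n (u v) p := by
  unfold c2
  split_ifs
  · exact continuous_const.add (continuous_const.mul ((continuous_apply p).comp (Xp_cont.comp hu)))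
  · exact continuous_const.add (continuous_const.mul ((continuous_apply p).comp (Xp_cont.comp hu)))

/-- pulling a constant through the power of an integral -/
private lemma tw2_pull {α : Type} [MeasurableSpace α] {ν : Measure α} {r : ℝ} (hr : 0 < r) {c D : ℝ≥0∞} (hD : D ≠ ⊤)
    {A B : α → ℝ≥0∞} (h : ∀ᵐ x ∂ν, c * A x ^ r ≤ D * B x ^ r) : c * (∫⁻ x, A x ∂ν) ^ r ≤ D * (∫⁻ x, B x ∂ν) ^ r := by
  have e1 : ∀ (d : ℝ≥0∞) (z : ℝ≥0∞), d * z ^ r = (d ^ (1 / r) * z) ^ r := by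
    intro d z
    rw [ENNReal.mul_rpow_of_nonneg _ _ hr.le, ← ENNReal.rpow_mul, one_div, inv_mul_cancel₀ hr.ne', ENNReal.rpow_one]
  rw [e1, e1]
  refine ENNReal.rpow_le_rpow ?_ hr.le
  calc c ^ (1 / r) * ∫⁻ x, A x ∂ν ≤ ∫⁻ x, c ^ (1 / r) * A x ∂ν := lintegral_const_mul_le _ _
    _ ≤ ∫⁻ x, D ^ (1 / r) * B x ∂ν := by
        refine lintegral_mono_ae ?_
        filter_upwards [h] with x hx
        rw [e1, e1] at hx
        exact (ENNReal.rpow_le_rpow_iff hr).mp hx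
    _ = D ^ (1 / r) * ∫⁻ x, B x ∂ν := lintegral_const_mul' _ _ (ENNReal.rpow_ne_top_of_nonneg (by positivity) hD)

private lemma tw2_int_cont {g : (ℕ → ℂ) → ℝ} (hg : ContinuousOn g tw2_U) : Continuous fun θ : Om => g (Xt θ) :=
  hg.comp_continuous Xt_cont tw2_Xt_mem

private lemma tw2_intg {g : (ℕ → ℂ) → ℝ} (hg : ContinuousOn g tw2_U) : Integrable (fun θ : Om => g (Xt θ)) PT := by
  have := PT_prob
  obtain ⟨C, hC⟩ := tw2_U_compact.exists_bound_of_continuousOn hg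
  exact Integrable.of_bound (tw2_int_cont hg).aestronglyMeasurable C (Eventually.of_forall fun θ => hC _ (tw2_Xt_mem θ))

private lemma tw2_lint {g : (ℕ → ℂ) → ℝ} (hg : ContinuousOn g tw2_U) (h0 : ∀ X ∈ tw2_U, 0 ≤ g X) :
    ENNReal.ofReal (∫ θ, g (Xt θ) ∂PT) = ∫⁻ θ, ENNReal.ofReal (g (Xt θ)) ∂PT :=
  ofReal_integral_eq_lintegral_ofReal (tw2_intg hg) (Eventually.of_forall fun θ => h0 _ (tw2_Xt_mem θ))

/-- rotation by the phases at height x -/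
private lemma tw2_rot {g : (ℕ → ℂ) → ℝ} (hg : ContinuousOn g tw2_U) (x : ℝ) :
    ∫ θ, g (fun p => Xt θ p * Xp x p) ∂PT = ∫ θ, g (Xt θ) ∂PT := by
  classical
  have hUm : MeasurableSet tw2_U := tw2_U_compact.isClosed.measurableSet
  have hm : Measurable (tw2_U.piecewise g 0) := hg.measurable_piecewise continuousOn_const hUm
  have h1 := torus_rot (fun p => -(x * Real.log p) / (2 * Real.pi)) (tw2_U.piecewise g 0)
    (hm.comp Xt_cont.measurable) hm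
  have hee : ∀ p : ℕ, ee (-(x * Real.log p) / (2 * Real.pi)) = Xp x p := by
    intro p
    unfold ee Xp
    congr 1
    have hpi : (Real.pi : ℂ) ≠ 0 := by exact_mod_cast Real.pi_ne_zero
    push_cast
    field_simp
  have h2 : ∀ θ : Om, tw2_U.piecewise g 0 (fun p => Xt θ p * ee (-(x * Real.log p) / (2 * Real.pi))) =
      g (fun p => Xt θ p * Xp x p) := by
    intro θ
    have hfe : (fun p => Xt θ p * ee (-(x * Real.log p) / (2 * Real.pi))) = (fun p => Xt θ p * Xp x p) := by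
      funext p
      rw [hee]
    rw [hfe]
    exact Set.piecewise_eq_of_mem _ _ _ (tw2_mul_mem (tw2_Xt_mem θ) (tw2_Xp_mem x))
  have h3 : ∀ θ : Om, tw2_U.piecewise g 0 (Xt θ) = g (Xt θ) := fun θ => Set.piecewise_eq_of_mem _ _ _ (tw2_Xt_mem θ)
  calc ∫ θ, g (fun p => Xt θ p * Xp x p) ∂PT =
        ∫ θ, tw2_U.piecewise g 0 (fun p => Xt θ p * ee (-(x * Real.log p) / (2 * Real.pi))) ∂PT := by
          congr 1 with θ
          exact (h2 θ).symm
    _ = ∫ θ, tw2_U.piecewise g 0 (Xt θ) ∂PT := h1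
    _ = ∫ θ, g (Xt θ) ∂PT := by
          congr 1 with θ
          exact h3 θ

/-- the small factor: G times the local factors, integrated over the torus -/
private lemma tw2_small {κ Cp : ℝ} {y : ℕ}
    (hps : ∏ p ∈ blk y 0, (1 - 1 / (p : ℝ)) ≤ Cp / Real.log y) {a : ℕ} (ha : a ≤ 1)
    {g : (ℕ → ℂ) → ℝ} (hg : ContinuousOn g tw2_U) (hg0 : ∀ X ∈ tw2_U, 0 ≤ g X) (x : ℝ) :
    ∫ θ, sm (κ - a) y (Xt θ) * g (fun p => Xt θ p * Xp (-x) p) * DD a 0 (blk y 0) (Xt θ) ∂PT ≤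
      (Cp / Real.log y) ^ a * ∫ θ, phx κ y x (Xt θ) * g (Xt θ) ∂PT := by
  have hk : ContinuousOn (fun X => phx κ y x X * g X) tw2_U := by
    refine ContinuousOn.mul ?_ hg
    exact (tw2_phx_cont κ y).comp (f := fun X : ℕ → ℂ => (x, X)) (by fun_prop) (fun X hX => hX)
  have hmul : ContinuousOn (fun X : ℕ → ℂ => g (fun p => X p * Xp (-x) p)) tw2_U := by
    refine hg.comp (f := fun X : ℕ → ℂ => (fun p => X p * Xp (-x) p)) ?_ (fun X hX => tw2_mul_mem hX (tw2_Xp_mem _))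
    exact (continuous_pi fun p => (continuous_apply p).mul continuous_const).continuousOn
  have hr := tw2_rot hk (-x)
  have e1 : ∀ θ : Om, phx κ y x (fun p => Xt θ p * Xp (-x) p) = sm κ y (Xt θ) := by
    intro θ
    unfold phx
    congr 1
    funext p
    rw [mul_assoc, tw2_Xp_neg, mul_one]
  simp only [e1] at hr
  rw [← hr, ← integral_const_mul]
  have hsm : ∀ k : ℝ, ContinuousOn (sm k y) tw2_U := fun k => (sm_facts k y).1
  refine integral_mono_of_nonneg (Eventually.of_forall fun θ => ?_) ?_ (Eventually.of_forall fun θ => ?_)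
  · refine mul_nonneg (mul_nonneg ((sm_facts _ y).2.1 _ (tw2_Xt_mem θ)).le (hg0 _ (tw2_mul_mem (tw2_Xt_mem θ) (tw2_Xp_mem _)))) ?_
    unfold DD
    exact pow_nonneg (Finset.prod_nonneg fun _ _ => norm_nonneg _) _
  · exact (tw2_intg ((hsm κ).mul hmul)).const_mul _
  · simp only
    have hG := hg0 _ (tw2_mul_mem (tw2_Xt_mem θ) (tw2_Xp_mem (-x)))
    have hE := tw2_Eu_pos y (tw2_Xt_mem θ)
    interval_cases a
    · simp only [DD, pow_zero, mul_one, Nat.cast_zero, sub_zero, one_mul]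
      exact le_refl _
    · have h1 : DD 1 0 (blk y 0) (Xt θ) ≤ Cp / Real.log y * ‖Eu (blk y 0) (Xt θ)‖ ^ 2 := by
        rw [DD_zero y (norm_Xt θ)]
        exact mul_le_mul_of_nonneg_right hps (by positivity)
      have h2 : sm (κ - (1:ℕ)) y (Xt θ) * ‖Eu (blk y 0) (Xt θ)‖ ^ 2 = sm κ y (Xt θ) := by
        unfold sm
        rw [← Real.rpow_natCast, ← Real.rpow_add hE]
        congr 1
        push_cast
        ring
      have h3 : 0 ≤ sm (κ - (1:ℕ)) y (Xt θ) := ((sm_facts _ y).2.1 _ (tw2_Xt_mem θ)).le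
      calc sm (κ - (1:ℕ)) y (Xt θ) * g (fun p => Xt θ p * Xp (-x) p) * DD 1 0 (blk y 0) (Xt θ)
          ≤ sm (κ - (1:ℕ)) y (Xt θ) * g (fun p => Xt θ p * Xp (-x) p) * (Cp / Real.log y * ‖Eu (blk y 0) (Xt θ)‖ ^ 2) :=
            mul_le_mul_of_nonneg_left h1 (mul_nonneg h3 hG)
        _ = (Cp / Real.log y) ^ 1 * ((sm (κ - (1:ℕ)) y (Xt θ) * ‖Eu (blk y 0) (Xt θ)‖ ^ 2) * g (fun p => Xt θ p * Xp (-x) p)) := by
            ring
        _ = _ := by rw [h2]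

/-- one family: the mean over t of the weighted function -/
private lemma tw2_gen (κ : ℝ) {C : ℝ} {y : ℕ} {Cp : ℝ} (hC : 0 < C) (hCp : 0 < Cp) (hy : 2 ≤ y)
    (hps : ∏ p ∈ blk y 0, (1 - 1 / (p : ℝ)) ≤ Cp / Real.log y) {a : ℕ} (ha : a ≤ 1)
    {g : ℝ → ℝ → (ℕ → ℂ) → ℝ} (hg : ContinuousOn (fun v : ℝ × ℝ × (ℕ → ℂ) => g v.1 v.2.1 v.2.2) {v | ∀ p, ‖v.2.2 p‖ = 1})
    (hg0 : ∀ (x x' : ℝ) (X : ℕ → ℂ), (∀ p, ‖X p‖ = 1) → 0 ≤ g x x' X) {ε T : ℝ} (hε : 0 < ε) (hT : 3 ≤ T)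
    {i M : ℕ} (hi : ai i = a) {c : ℕ → ℂ} {x x' : ℝ} (hx : x ∈ Icc (0:ℝ) 1)
    (hLL : ∫⁻ s, ENNReal.ofReal (sm (κ - a) y (Xp s) * g x x' (fun p => Xp s p * Xp (-x) p) * Wi i T y M c s) ∂mu T ≤
      ENNReal.ofReal (C * Real.log T ^ (ai i) * ((∫ θ, sm (κ - a) y (Xt θ) * g x x' (fun p => Xt θ p * Xp (-x) p) *
        DD (ai i) 0 (blk y 0) (Xt θ) ∂PT) + ε) * Real.exp (Sg (ai i) c y (Mi i M)) * gi i T y M)) :
    ∫⁻ t, ENNReal.ofReal (sm (κ - a) y (Xp (t + x)) * g x x' (Xp t) * Wi i T y M c (t + x)) ∂mu T ≤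
      ENNReal.ofReal (3 * C * Real.log T ^ a * Real.exp (Sg a c y (Mi i M)) * gi i T y M) *
        (ENNReal.ofReal ((Cp / Real.log y) ^ a) * (∫⁻ θ, ENNReal.ofReal (phx κ y x (Xt θ) * g x x' (Xt θ)) ∂PT) +
          ENNReal.ofReal ε) := by
  have hgx : ContinuousOn (g x x') tw2_U :=
    hg.comp (f := fun X : ℕ → ℂ => (x, x', X)) (by fun_prop) (fun X hX => hX)
  have hmul : ContinuousOn (fun X : ℕ → ℂ => g x x' (fun p => X p * Xp (-x) p)) tw2_U := by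
    refine hgx.comp (f := fun X : ℕ → ℂ => (fun p => X p * Xp (-x) p)) ?_ (fun X hX => tw2_mul_mem hX (tw2_Xp_mem _))
    exact (continuous_pi fun p => (continuous_apply p).mul continuous_const).continuousOn
  have hXp : Continuous (fun s : ℝ => Xp s) := Xp_cont
  have hcont : Continuous fun s => sm (κ - a) y (Xp s) * g x x' (fun p => Xp s p * Xp (-x) p) * Wi i T y M c s := by
    refine Continuous.mul (Continuous.mul ?_ ?_) ?_
    · exact (sm_facts (κ - a) y).1.comp_continuous hXp tw2_Xp_mem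
    · exact hmul.comp_continuous hXp tw2_Xp_mem
    · exact tw2_Wi_cont (α := ℝ) i T y M (c := fun _ => c) (s := fun s => s) (fun _ => continuous_const) continuous_id'
  have hsh := mu_shift (T := T) (x := x) (by linarith) hx.1 hx.2 hcont.measurable.ennreal_ofReal
  have e1 : ∀ t : ℝ, (fun p => Xp (t + x) p * Xp (-x) p) = Xp t := by
    intro t
    rw [tw2_Xp_mul]
    congr 1
    ring
  simp only [e1] at hsh
  refine hsh.trans ?_
  refine (mul_le_mul_right hLL 3).trans ?_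
  have hs := tw2_small (κ := κ) hps ha hgx (fun X hX => hg0 x x' X hX) x
  have hgi : 0 ≤ gi i T y M := by
    unfold gi
    split_ifs
    · positivity
    · exact zero_le_one
  have hlT : 0 ≤ Real.log T := Real.log_nonneg (by linarith)
  have hly : 0 < Real.log y := Real.log_pos (by exact_mod_cast (by omega : 1 < y))
  have hk : ContinuousOn (fun X => phx κ y x X * g x x' X) tw2_U := by
    refine ContinuousOn.mul ?_ hgx
    exact (tw2_phx_cont κ y).comp (f := fun X : ℕ → ℂ => (x, X)) (by fun_prop) (fun X hX => hX)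
  have hk0 : ∀ X ∈ tw2_U, 0 ≤ phx κ y x X * g x x' X := fun X hX => mul_nonneg (tw2_phx_pos κ y x hX).le (hg0 x x' X hX)
  have hI0 : 0 ≤ ∫ θ, phx κ y x (Xt θ) * g x x' (Xt θ) ∂PT := integral_nonneg fun θ => hk0 _ (tw2_Xt_mem θ)
  rw [← tw2_lint hk hk0]
  rw [hi]
  rw [show (3 : ℝ≥0∞) = ENNReal.ofReal 3 by norm_num, ← ENNReal.ofReal_mul (by norm_num), ← ENNReal.ofReal_mul (by positivity),
    ← ENNReal.ofReal_add (by positivity) hε.le, ← ENNReal.ofReal_mul (by positivity)]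
  refine ENNReal.ofReal_le_ofReal ?_
  calc 3 * (C * Real.log T ^ a * ((∫ θ, sm (κ - a) y (Xt θ) * g x x' (fun p => Xt θ p * Xp (-x) p) *
        DD a 0 (blk y 0) (Xt θ) ∂PT) + ε) * Real.exp (Sg a c y (Mi i M)) * gi i T y M)
      = 3 * C * Real.log T ^ a * Real.exp (Sg a c y (Mi i M)) * gi i T y M *
        ((∫ θ, sm (κ - a) y (Xt θ) * g x x' (fun p => Xt θ p * Xp (-x) p) * DD a 0 (blk y 0) (Xt θ) ∂PT) + ε) := by ring
    _ ≤ _ := by
      refine mul_le_mul_of_nonneg_left ?_ (by positivity)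
      linarith

private lemma tw2_Sg1 {κ : ℝ} (h0 : 0 < κ) (h1 : κ < 1) (q : ℝ) {y : ℕ}
    (hS : ∀ (a : ℕ) (c : ℝ) (M : ℕ), a ≤ 1 →
      |Sg a (fun _ => (c : ℂ)) y M - (((a : ℝ) + c) ^ 2 - a) * M * Real.log 2| ≤ |((a : ℝ) + c) ^ 2 - a|)
    {a : ℕ} (ha : a ≤ 1) (N : ℕ) :
    Sg a (c1 κ q a y 0) y N ≤ N * (κ ^ 2 - a) * Real.log 2 + 1 := by
  have e : Sg a (c1 κ q a y 0) y N = Sg a (fun _ => ((κ - a : ℝ) : ℂ)) y N := by
    unfold Sg
    refine Finset.sum_congr rfl fun n hn => ?_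
    unfold Sb
    refine Finset.sum_congr rfl fun p hp => ?_
    obtain ⟨m, rfl⟩ : ∃ m, n = m + 1 := ⟨n - 1, by have := (Finset.mem_Icc.mp hn).1; omega⟩
    have hlt := blk_lt hp
    have hc : c1 κ q a y 0 p = ((κ - a : ℝ) : ℂ) := by
      unfold c1
      rw [if_neg]
      simp only [pow_zero, pow_one]
      omega
    rw [hc]
  have h2 := hS a (κ - a) N ha
  rw [← e] at h2
  have h3 : ((a : ℝ) + (κ - a)) = κ := by ring
  rw [h3] at h2
  have h4 : |κ ^ 2 - (a : ℝ)| ≤ 1 := by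
    rw [abs_le]
    interval_cases a
    · constructor <;> push_cast <;> nlinarith
    · constructor <;> push_cast <;> nlinarith
  have h5 := (abs_le.mp h2).2
  have h6 : (κ ^ 2 - (a:ℝ)) * N * Real.log 2 = N * (κ ^ 2 - a) * Real.log 2 := by ring
  linarith

private lemma tw2_cos (κ : ℝ) (u : ℝ) (p : ℕ) : ‖(κ : ℂ) * (1 + Xp u p)‖ ^ 2 = 2 * κ ^ 2 + 2 * κ ^ 2 * Real.cos (u * Real.log p) := by
  rw [norm_mul, mul_pow, Complex.norm_real, Real.norm_eq_abs, sq_abs]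
  have h1 : Xp u p = Complex.ofReal (Real.cos (u * Real.log p)) - Complex.ofReal (Real.sin (u * Real.log p)) * I := by
    unfold Xp
    rw [Complex.exp_mul_I, Complex.cos_neg, Complex.sin_neg, ← Complex.ofReal_cos, ← Complex.ofReal_sin]
    ring
  have h2 : ‖(1 + Xp u p : ℂ)‖ ^ 2 = 2 + 2 * Real.cos (u * Real.log p) := by
    rw [h1, ← Complex.normSq_eq_norm_sq, Complex.normSq_apply]
    simp only [Complex.add_re, Complex.one_re, Complex.sub_re, Complex.ofReal_re, Complex.mul_re, Complex.I_re, mul_zero,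
      Complex.ofReal_im, Complex.I_im, mul_one, sub_self, sub_zero, Complex.add_im, Complex.one_im, Complex.sub_im,
      Complex.mul_im, zero_sub, add_zero, zero_add]
    nlinarith [Real.sin_sq_add_cos_sq (u * Real.log p)]
  rw [h2]
  ring

private lemma tw2_Sg2 {κ : ℝ} (h0 : 0 < κ) (h1 : κ < 1) (q : ℝ) {y : ℕ} (hy : 100 ≤ y) {Cc : ℝ} (hCc : 0 < Cc)
    (hM : ∀ M : ℕ, |∑ n ∈ Finset.Icc 1 M, ∑ p ∈ blk y n, (1 : ℝ) / p - M * Real.log 2| ≤ 1)
    (hcos : ∀ (y n M : ℕ) (u : ℝ), 100 ≤ y → n ≤ M → 1 / (2 ^ n * Real.log y) ≤ |u| → |u| ≤ 1 →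
      |∑ m ∈ Finset.Icc (n + 1) M, ∑ p ∈ blk y m, Real.cos (u * Real.log p) / p| ≤ Cc)
    {a : ℕ} (ha : a ≤ 1) (N : ℕ) {u : ℝ} (hu : 1 / Real.log y ≤ |u|) (hu1 : |u| ≤ 1) :
    Sg a (c2 κ q a y 0 u) y N ≤ N * (2 * κ ^ 2 - a) * Real.log 2 + (2 + 2 * Cc) := by
  have e : Sg a (c2 κ q a y 0 u) y N = (2 * κ ^ 2 - a) * (∑ n ∈ Finset.Icc 1 N, ∑ p ∈ blk y n, (1 : ℝ) / p) +
      2 * κ ^ 2 * (∑ n ∈ Finset.Icc 1 N, ∑ p ∈ blk y n, Real.cos (u * Real.log p) / p) := by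
    unfold Sg
    rw [Finset.mul_sum, Finset.mul_sum, ← Finset.sum_add_distrib]
    refine Finset.sum_congr rfl fun n hn => ?_
    unfold Sb
    rw [Finset.mul_sum, Finset.mul_sum, ← Finset.sum_add_distrib]
    refine Finset.sum_congr rfl fun p hp => ?_
    obtain ⟨m, rfl⟩ : ∃ m, n = m + 1 := ⟨n - 1, by have := (Finset.mem_Icc.mp hn).1; omega⟩
    have hlt := blk_lt hp
    have hc : (a : ℂ) + c2 κ q a y 0 u p = (κ : ℂ) * (1 + Xp u p) := by
      unfold c2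
      rw [if_neg]
      · push_cast
        ring
      · simp only [pow_zero, pow_one]
        omega
    rw [hc, tw2_cos]
    ring
  have h2 := abs_le.mp (hM N)
  have h3 := hcos y 0 N u hy (Nat.zero_le _) (by simpa using hu) hu1
  rw [zero_add] at h3
  have h3 := (abs_le.mp h3).2
  rw [e]
  set A := ∑ n ∈ Finset.Icc 1 N, ∑ p ∈ blk y n, (1 : ℝ) / p with hA
  set B := ∑ n ∈ Finset.Icc 1 N, ∑ p ∈ blk y n, Real.cos (u * Real.log p) / p with hB
  have h4 : |2 * κ ^ 2 - (a : ℝ)| ≤ 2 := by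
    rw [abs_le]
    interval_cases a
    · constructor <;> push_cast <;> nlinarith
    · constructor <;> push_cast <;> nlinarith
  have h5 : (2 * κ ^ 2 - (a : ℝ)) * (A - N * Real.log 2) ≤ 2 := by
    calc (2 * κ ^ 2 - (a : ℝ)) * (A - N * Real.log 2) ≤ |(2 * κ ^ 2 - (a : ℝ)) * (A - N * Real.log 2)| := le_abs_self _
      _ = |2 * κ ^ 2 - (a : ℝ)| * |A - N * Real.log 2| := abs_mul _ _
      _ ≤ 2 * 1 := mul_le_mul h4 (hM N) (abs_nonneg _) (by norm_num)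
      _ = 2 := by norm_num
  have h6 : 2 * κ ^ 2 * B ≤ 2 * Cc := by
    have h7 : 2 * κ ^ 2 ≤ 2 := by nlinarith
    calc 2 * κ ^ 2 * B ≤ 2 * κ ^ 2 * Cc := mul_le_mul_of_nonneg_left h3 (by positivity)
      _ ≤ 2 * Cc := mul_le_mul_of_nonneg_right h7 hCc.le
  nlinarith

/-- the real inequality behind the pointwise bound -/
private lemma tw2_real {q S W E hh F s W0 f W1 W2 Cq : ℝ} (hS : 0 < S) (hE : 0 ≤ E)
    (hh0 : 0 ≤ hh) (hF : 0 < F) (hs : 0 < s) (hW0 : 0 ≤ W0) (hf : 0 < f) (hW1 : 0 ≤ W1) (hW2 : 0 ≤ W2)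
    (hpt : W * W0 ^ (q - 1) ≤ Cq * (W1 ^ (2 - q) * W2 ^ (q - 1))) :
    S * (W * E) * hh * (s * W0 * f) ^ (q - 1) ≤
      Cq * (S * (F ^ (q - 1) * hh) * (W1 * E)) ^ (2 - q) * (S * (s * (F ^ (q - 2) * hh)) * (W2 * E) * f) ^ (q - 1) := by
  have key : ∀ z : ℝ, 0 ≤ z → z ^ (2 - q) * z ^ (q - 1) = z := by
    intro z hz
    rw [← Real.rpow_add' hz (by ring_nf; norm_num)]
    rw [show 2 - q + (q - 1) = 1 by ring, Real.rpow_one]
  have hF1 : (F ^ (q - 1)) ^ (2 - q) * (F ^ (q - 2)) ^ (q - 1) = 1 := by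
    rw [← Real.rpow_mul hF.le, ← Real.rpow_mul hF.le, ← Real.rpow_add hF, show (q - 1) * (2 - q) + (q - 2) * (q - 1) = 0 by ring,
      Real.rpow_zero]
  have hFq : 0 < F ^ (q - 1) := Real.rpow_pos_of_pos hF _
  have hFq2 : 0 < F ^ (q - 2) := Real.rpow_pos_of_pos hF _
  rw [Real.mul_rpow (by positivity) hf.le, Real.mul_rpow hs.le hW0, Real.mul_rpow (by positivity) (by positivity),
    Real.mul_rpow hS.le (by positivity), Real.mul_rpow hFq.le hh0, Real.mul_rpow hW1 hE,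
    Real.mul_rpow (by positivity) hf.le, Real.mul_rpow (by positivity) (by positivity), Real.mul_rpow hS.le (by positivity),
    Real.mul_rpow hs.le (by positivity), Real.mul_rpow hFq2.le hh0, Real.mul_rpow hW2 hE]
  have e1 : Cq * (S ^ (2 - q) * ((F ^ (q - 1)) ^ (2 - q) * hh ^ (2 - q)) * (W1 ^ (2 - q) * E ^ (2 - q))) *
      (S ^ (q - 1) * (s ^ (q - 1) * ((F ^ (q - 2)) ^ (q - 1) * hh ^ (q - 1))) * (W2 ^ (q - 1) * E ^ (q - 1)) * f ^ (q - 1)) =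
      (S ^ (2 - q) * S ^ (q - 1)) * (E ^ (2 - q) * E ^ (q - 1)) * (hh ^ (2 - q) * hh ^ (q - 1)) *
        ((F ^ (q - 1)) ^ (2 - q) * (F ^ (q - 2)) ^ (q - 1)) * (s ^ (q - 1) * f ^ (q - 1)) *
        (Cq * (W1 ^ (2 - q) * W2 ^ (q - 1))) := by ring
  rw [e1, hF1, key S hS.le, key E hE, key hh hh0, mul_one]
  calc S * (W * E) * hh * (s ^ (q - 1) * W0 ^ (q - 1) * f ^ (q - 1)) =
      S * E * hh * (s ^ (q - 1) * f ^ (q - 1)) * (W * W0 ^ (q - 1)) := by ring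
    _ ≤ _ := mul_le_mul_of_nonneg_left hpt (by positivity)

/-- the first function -/
private noncomputable def tw2_A (κ q : ℝ) (y : ℕ) (f : ℝ → ℝ) (h : (ℕ → ℂ) → ℝ) (_x _x' : ℝ) (X : ℕ → ℂ) : ℝ :=
  Phi κ y f X ^ (q - 1) * h X

/-- the second function -/
private noncomputable def tw2_B (κ q : ℝ) (y : ℕ) (f : ℝ → ℝ) (h : (ℕ → ℂ) → ℝ) (_x x' : ℝ) (X : ℕ → ℂ) : ℝ :=
  phx κ y x' X * (Phi κ y f X ^ (q - 2) * h X)

private lemma tw2_pt {κ q : ℝ} {y : ℕ} {f : ℝ → ℝ} (hf : Continuous f) (hf0 : ∀ x, 0 < f x) {h : (ℕ → ℂ) → ℝ}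
    (hh0 : ∀ X, (∀ p, ‖X p‖ = 1) → 0 ≤ h X) (hq1 : 1 < q) (hq2 : q < 2) {Cq T : ℝ} (hCq : 1 ≤ Cq) {i M : ℕ}
    (hpt : ∀ s u : ℝ, Good T y (Mi i M) s → Good T y (Mi i M) (s + u) →
      Wt (ai i) T y (Mi i M) (fun _ => ((κ - ai i : ℝ) : ℂ)) s * Wt 0 T y (Mi i M) (fun _ => (κ : ℂ)) (s + u) ^ (q - 1) ≤
      Cq * (Wt (ai i) T y (Mi i M) (c1 κ q (ai i) y 0) s ^ (2 - q) * Wt (ai i) T y (Mi i M) (c2 κ q (ai i) y 0 u) s ^ (q - 1)))
    (t x : ℝ) (S : Set ℝ) :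
    Cg κ i T y M (t + x) * (∫⁻ x' in S, Cg κ 0 T y (Mi i M) (t + x') * ENNReal.ofReal (f x')) ^ (q - 1) *
      ENNReal.ofReal (h (Xp t)) ≤
    ENNReal.ofReal Cq * ENNReal.ofReal (sm (κ - ai i) y (Xp (t + x)) * tw2_A κ q y f h x 0 (Xp t) *
      Wi i T y M (c1 κ q (ai i) y 0) (t + x)) ^ (2 - q) *
      (∫⁻ x' in S, ENNReal.ofReal (sm (κ - ai i) y (Xp (t + x)) * tw2_B κ q y f h x x' (Xp t) *
        Wi i T y M (c2 κ q (ai i) y 0 (x' - x)) (t + x)) * ENNReal.ofReal (f x')) ^ (q - 1) := by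
  have hr : 0 < q - 1 := by linarith
  by_cases hG : Good T y (Mi i M) (t + x)
  swap
  · have : Cg κ i T y M (t + x) = 0 := by
      unfold Cg
      rw [Set.indicator_of_notMem]
      exact hG
    rw [this, zero_mul, zero_mul]
    exact zero_le
  have hS1 : 0 < sm (κ - ai i) y (Xp (t + x)) := (sm_facts _ y).2.1 _ (tw2_Xp_mem _)
  have hh : 0 ≤ h (Xp t) := hh0 _ (norm_Xp t)
  have hF : 0 < Phi κ y f (Xp t) := tw2_Phi_pos κ y hf hf0 (tw2_Xp_mem t)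
  have hCi : Cg κ i T y M (t + x) = ENNReal.ofReal (Cw κ i T y M (t + x)) := by
    unfold Cg
    rw [Set.indicator_of_mem]
    exact hG
  rw [hCi, mul_right_comm]
  refine tw2_pull hr ?_ (Eventually.of_forall fun x' => ?_)
  · refine ENNReal.mul_ne_top ENNReal.ofReal_ne_top (ENNReal.rpow_ne_top_of_nonneg (by linarith) ENNReal.ofReal_ne_top)
  by_cases hG' : Good T y (Mi i M) (t + x')
  swap
  · have h0 : Cg κ 0 T y (Mi i M) (t + x') = 0 := by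
      unfold Cg
      rw [Set.indicator_of_notMem]
      exact hG'
    rw [h0, zero_mul, ENNReal.zero_rpow_of_pos hr, mul_zero]
    exact zero_le
  have hC0 : Cg κ 0 T y (Mi i M) (t + x') = ENNReal.ofReal (Cw κ 0 T y (Mi i M) (t + x')) := by
    unfold Cg
    rw [Set.indicator_of_mem]
    exact hG'
  have hp := hpt (t + x) (x' - x) hG (by rwa [show t + x + (x' - x) = t + x' by ring])
  rw [show t + x + (x' - x) = t + x' by ring] at hp
  have hs : 0 < phx κ y x' (Xp t) := tw2_phx_pos κ y x' (tw2_Xp_mem t)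
  have hs' : sm κ y (Xp (t + x')) = phx κ y x' (Xp t) := by
    unfold phx
    rw [tw2_Xp_mul]
  have hCw0 : Cw κ 0 T y (Mi i M) (t + x') = phx κ y x' (Xp t) * Wt 0 T y (Mi i M) (fun _ => (κ : ℂ)) (t + x') := by
    unfold Cw
    rw [← hs']
    have e0 : ai 0 = 0 := rfl
    have e1 : Mi 0 (Mi i M) = Mi i M := rfl
    rw [e0, Nat.cast_zero, sub_zero, tw2_Wi_eq, e0, e1]
    have e2 : tw2_E 0 T y (Mi i M) (t + x') = 1 := rfl
    rw [e2, mul_one]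
  have hreal := tw2_real (q := q) hS1 (tw2_E_nonneg i T y M (t + x)) hh hF hs
    (tw2_Wt_nonneg 0 T y (Mi i M) (fun _ => (κ : ℂ)) (t + x')) (hf0 x')
    (tw2_Wt_nonneg (ai i) T y (Mi i M) (c1 κ q (ai i) y 0) (t + x))
    (tw2_Wt_nonneg (ai i) T y (Mi i M) (c2 κ q (ai i) y 0 (x' - x)) (t + x)) hp
  rw [hC0, hCw0]
  unfold Cw tw2_A tw2_B
  rw [tw2_Wi_eq, tw2_Wi_eq, tw2_Wi_eq]
  have hWt := tw2_Wt_nonneg (ai i) T y (Mi i M) (fun _ => ((κ - ai i : ℝ) : ℂ)) (t + x)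
  have hW0 := tw2_Wt_nonneg 0 T y (Mi i M) (fun _ => (κ : ℂ)) (t + x')
  have hW1 := tw2_Wt_nonneg (ai i) T y (Mi i M) (c1 κ q (ai i) y 0) (t + x)
  have hW2 := tw2_Wt_nonneg (ai i) T y (Mi i M) (c2 κ q (ai i) y 0 (x' - x)) (t + x)
  have hE := tw2_E_nonneg i T y M (t + x)
  have hFq : 0 < Phi κ y f (Xp t) ^ (q - 1) := Real.rpow_pos_of_pos hF _
  have hFq2 : 0 < Phi κ y f (Xp t) ^ (q - 2) := Real.rpow_pos_of_pos hF _
  have hfx := hf0 x'
  rw [← ENNReal.ofReal_mul (by positivity), ← ENNReal.ofReal_mul (by positivity), ← ENNReal.ofReal_mul (by positivity),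
    ENNReal.ofReal_rpow_of_nonneg (by positivity) hr.le, ENNReal.ofReal_rpow_of_nonneg (by positivity) (by linarith),
    ENNReal.ofReal_rpow_of_nonneg (by positivity) hr.le, ← ENNReal.ofReal_mul (by positivity),
    ← ENNReal.ofReal_mul (by positivity), ← ENNReal.ofReal_mul (by positivity)]
  exact ENNReal.ofReal_le_ofReal hreal

private lemma tw2_L1 (κ : ℝ) (y : ℕ) {f : ℝ → ℝ} (hf : Continuous f) (hf0 : ∀ x, 0 < f x) {k : Om → ℝ≥0∞} (hk : Measurable k) :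
    ∫⁻ x in Icc (0:ℝ) 1, ENNReal.ofReal (f x) * ∫⁻ θ, ENNReal.ofReal (phx κ y x (Xt θ)) * k θ ∂PT =
      ∫⁻ θ, ENNReal.ofReal (Phi κ y f (Xt θ)) * k θ ∂PT := by
  have := PT_prob
  have hj : Continuous (fun v : ℝ × Om => f v.1 * phx κ y v.1 (Xt v.2)) := by
    refine (hf.comp continuous_fst).mul ?_
    refine (tw2_phx_cont κ y).comp_continuous (f := fun v : ℝ × Om => (v.1, Xt v.2)) ?_ (fun v => tw2_Xt_mem v.2)
    exact continuous_fst.prodMk (Xt_cont.comp continuous_snd)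
  calc ∫⁻ x in Icc (0:ℝ) 1, ENNReal.ofReal (f x) * ∫⁻ θ, ENNReal.ofReal (phx κ y x (Xt θ)) * k θ ∂PT
      = ∫⁻ x in Icc (0:ℝ) 1, ∫⁻ θ, ENNReal.ofReal (f x * phx κ y x (Xt θ)) * k θ ∂PT := by
        refine lintegral_congr fun x => ?_
        rw [← lintegral_const_mul' _ _ ENNReal.ofReal_ne_top]
        refine lintegral_congr fun θ => ?_
        rw [← mul_assoc, ← ENNReal.ofReal_mul (hf0 x).le]
    _ = ∫⁻ θ, (∫⁻ x in Icc (0:ℝ) 1, ENNReal.ofReal (f x * phx κ y x (Xt θ)) * k θ) ∂PT := by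
        refine lintegral_lintegral_swap ?_
        exact (hj.measurable.ennreal_ofReal.mul (hk.comp measurable_snd)).aemeasurable
    _ = ∫⁻ θ, ENNReal.ofReal (Phi κ y f (Xt θ)) * k θ ∂PT := by
        refine lintegral_congr fun θ => ?_
        have hc : Continuous (fun x => f x * phx κ y x (Xt θ)) := tw2_fphx_cont κ y hf (tw2_Xt_mem θ)
        rw [lintegral_mul_const _ hc.measurable.ennreal_ofReal]
        congr 1
        unfold Phi
        rw [ofReal_integral_eq_lintegral_ofReal]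
        · exact (hc.continuousOn).integrableOn_compact isCompact_Icc
        · exact Eventually.of_forall fun x => mul_nonneg (hf0 x).le (tw2_phx_pos κ y x (tw2_Xt_mem θ)).le

private lemma tw2_J1 {κ q : ℝ} {y : ℕ} {f : ℝ → ℝ} (hf : Continuous f) (hf0 : ∀ x, 0 < f x) {h : (ℕ → ℂ) → ℝ}
    (hh : ContinuousOn h tw2_U) :
    ∫⁻ x in Icc (0:ℝ) 1, ENNReal.ofReal (f x) * ∫⁻ θ, ENNReal.ofReal (phx κ y x (Xt θ) * tw2_A κ q y f h x 0 (Xt θ)) ∂PT =
      ∫⁻ θ, ENNReal.ofReal (Phi κ y f (Xt θ) ^ q * h (Xt θ)) ∂PT := by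
  have hP : Continuous fun θ : Om => Phi κ y f (Xt θ) := tw2_int_cont (tw2_Phi_cont κ y hf)
  have hH : Continuous fun θ : Om => h (Xt θ) := tw2_int_cont hh
  have hPp : ∀ θ : Om, 0 < Phi κ y f (Xt θ) := fun θ => tw2_Phi_pos κ y hf hf0 (tw2_Xt_mem θ)
  have hk : Continuous fun θ : Om => Phi κ y f (Xt θ) ^ (q - 1) * h (Xt θ) :=
    (hP.rpow_const fun θ => Or.inl (hPp θ).ne').mul hH
  have h1 := tw2_L1 κ y hf hf0 (k := fun θ => ENNReal.ofReal (Phi κ y f (Xt θ) ^ (q - 1) * h (Xt θ))) hk.measurable.ennreal_ofReal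
  have h2 : ∀ x : ℝ, ∀ θ : Om, ENNReal.ofReal (phx κ y x (Xt θ) * tw2_A κ q y f h x 0 (Xt θ)) =
      ENNReal.ofReal (phx κ y x (Xt θ)) * ENNReal.ofReal (Phi κ y f (Xt θ) ^ (q - 1) * h (Xt θ)) := by
    intro x θ
    rw [ENNReal.ofReal_mul (tw2_phx_pos κ y x (tw2_Xt_mem θ)).le]
    rfl
  simp only [h2]
  rw [h1]
  refine lintegral_congr fun θ => ?_
  rw [← ENNReal.ofReal_mul (hPp θ).le]
  congr 1
  rw [← mul_assoc]
  congr 1
  nth_rewrite 1 [← Real.rpow_one (Phi κ y f (Xt θ))]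
  rw [← Real.rpow_add (hPp θ)]
  congr 1
  ring

private lemma tw2_J2 {κ q : ℝ} {y : ℕ} {f : ℝ → ℝ} (hf : Continuous f) (hf0 : ∀ x, 0 < f x) {h : (ℕ → ℂ) → ℝ}
    (hh : ContinuousOn h tw2_U) :
    ∫⁻ x in Icc (0:ℝ) 1, ENNReal.ofReal (f x) * ∫⁻ x' in Icc (0:ℝ) 1, ENNReal.ofReal (f x') *
      ∫⁻ θ, ENNReal.ofReal (phx κ y x (Xt θ) * tw2_B κ q y f h x x' (Xt θ)) ∂PT =
      ∫⁻ θ, ENNReal.ofReal (Phi κ y f (Xt θ) ^ q * h (Xt θ)) ∂PT := by
  have hP : Continuous fun θ : Om => Phi κ y f (Xt θ) := tw2_int_cont (tw2_Phi_cont κ y hf)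
  have hH : Continuous fun θ : Om => h (Xt θ) := tw2_int_cont hh
  have hPp : ∀ θ : Om, 0 < Phi κ y f (Xt θ) := fun θ => tw2_Phi_pos κ y hf hf0 (tw2_Xt_mem θ)
  have hk : Continuous fun θ : Om => Phi κ y f (Xt θ) ^ (q - 2) * h (Xt θ) :=
    (hP.rpow_const fun θ => Or.inl (hPp θ).ne').mul hH
  have hphx : ∀ x : ℝ, Continuous fun θ : Om => phx κ y x (Xt θ) := fun x =>
    tw2_int_cont ((tw2_phx_cont κ y).comp (f := fun X : ℕ → ℂ => (x, X)) (by fun_prop) (fun X hX => hX))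
  have h2 : ∀ x x' : ℝ, ∀ θ : Om, ENNReal.ofReal (phx κ y x (Xt θ) * tw2_B κ q y f h x x' (Xt θ)) =
      ENNReal.ofReal (phx κ y x' (Xt θ)) * (ENNReal.ofReal (phx κ y x (Xt θ)) *
        ENNReal.ofReal (Phi κ y f (Xt θ) ^ (q - 2) * h (Xt θ))) := by
    intro x x' θ
    unfold tw2_B
    rw [← ENNReal.ofReal_mul (tw2_phx_pos κ y x (tw2_Xt_mem θ)).le, ← ENNReal.ofReal_mul (tw2_phx_pos κ y x' (tw2_Xt_mem θ)).le]
    congr 1
    ring
  have h3 : ∀ x : ℝ, ∫⁻ x' in Icc (0:ℝ) 1, ENNReal.ofReal (f x') *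
      ∫⁻ θ, ENNReal.ofReal (phx κ y x (Xt θ) * tw2_B κ q y f h x x' (Xt θ)) ∂PT =
      ∫⁻ θ, ENNReal.ofReal (phx κ y x (Xt θ)) * (ENNReal.ofReal (Phi κ y f (Xt θ)) *
        ENNReal.ofReal (Phi κ y f (Xt θ) ^ (q - 2) * h (Xt θ))) ∂PT := by
    intro x
    simp only [h2]
    rw [tw2_L1 κ y hf hf0 (k := fun θ => ENNReal.ofReal (phx κ y x (Xt θ)) *
      ENNReal.ofReal (Phi κ y f (Xt θ) ^ (q - 2) * h (Xt θ))) ((hphx x).measurable.ennreal_ofReal.mul hk.measurable.ennreal_ofReal)]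
    refine lintegral_congr fun θ => ?_
    ring
  simp only [h3]
  rw [tw2_L1 κ y hf hf0 (k := fun θ => ENNReal.ofReal (Phi κ y f (Xt θ)) *
    ENNReal.ofReal (Phi κ y f (Xt θ) ^ (q - 2) * h (Xt θ))) (hP.measurable.ennreal_ofReal.mul hk.measurable.ennreal_ofReal)]
  refine lintegral_congr fun θ => ?_
  rw [← ENNReal.ofReal_mul (hPp θ).le, ← ENNReal.ofReal_mul (hPp θ).le]
  congr 1
  rw [← mul_assoc, ← mul_assoc]
  congr 1
  have e1 : Phi κ y f (Xt θ) * Phi κ y f (Xt θ) = Phi κ y f (Xt θ) ^ (2 : ℝ) := by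
    rw [Real.rpow_two]
    ring
  rw [e1, ← Real.rpow_add (hPp θ)]
  congr 1
  ring

/-- Hoelder on the product of the time and the interval, and Tonelli -/
private lemma tw2_hold {T q L : ℝ} (hT : 0 < T) (hq1 : 1 < q) (hq2 : q < 2) {u : ℝ → ℝ → ℝ} {v : ℝ → ℝ → ℝ → ℝ}
    (hu : Continuous fun w : ℝ × ℝ => u w.1 w.2) (hv : Continuous fun w : ℝ × ℝ × ℝ => v w.1 w.2.1 w.2.2)
    {f : ℝ → ℝ} (hf : Continuous f) {A1 A2 B e J : ℝ≥0∞} (hA1 : A1 ≠ ⊤) (hA2 : A2 ≠ ⊤) (hB : B ≠ ⊤) (he : e ≠ ⊤)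
    {K1 : ℝ → ℝ≥0∞} {K2 : ℝ → ℝ → ℝ≥0∞}
    (h1 : ∀ x ∈ Icc (0:ℝ) 1, ∫⁻ t, ENNReal.ofReal (u t x) ∂mu T ≤ A1 * (B * K1 x + e))
    (h2 : ∀ x ∈ Icc (0:ℝ) 1, ∀ x' ∈ Icc (0:ℝ) 1, L ≤ |x' - x| → ∫⁻ t, ENNReal.ofReal (v t x x') ∂mu T ≤ A2 * (B * K2 x x' + e))
    (k1 : ∫⁻ x in Icc (0:ℝ) 1, ENNReal.ofReal (f x) * K1 x = J)
    (k2 : ∫⁻ x in Icc (0:ℝ) 1, ENNReal.ofReal (f x) * ∫⁻ x' in Icc (0:ℝ) 1, ENNReal.ofReal (f x') * K2 x x' = J)
    {F : ℝ≥0∞} (hF : ∫⁻ x in Icc (0:ℝ) 1, ENNReal.ofReal (f x) = F) (hFt : F ≠ ⊤) :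
    ∫⁻ t, (∫⁻ x in Icc (0:ℝ) 1, (ENNReal.ofReal (f x) * ENNReal.ofReal (u t x)) ^ (2 - q) *
      (ENNReal.ofReal (f x) * ∫⁻ x' in Icc (0:ℝ) 1 ∩ {x' | L ≤ |x' - x|}, ENNReal.ofReal (v t x x') * ENNReal.ofReal (f x')) ^ (q - 1)) ∂mu T ≤
      (A1 * (B * J + e * F)) ^ (2 - q) * (A2 * (B * J + e * F * F)) ^ (q - 1) := by
  have hmu := mu_prob hT
  set ν : Measure ℝ := volume.restrict (Icc (0:ℝ) 1) with hν
  have hfm : Measurable fun x => ENNReal.ofReal (f x) := hf.measurable.ennreal_ofReal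
  have hSm : ∀ x : ℝ, MeasurableSet {x' : ℝ | L ≤ |x' - x|} := fun x =>
    (isClosed_le continuous_const (by fun_prop)).measurableSet
  have hV' : Measurable (fun w : ℝ × ℝ => ∫⁻ x' in Icc (0:ℝ) 1 ∩ {x' | L ≤ |x' - w.2|},
      ENNReal.ofReal (v w.1 w.2 x') * ENNReal.ofReal (f x')) := by
    have hset : MeasurableSet {z : (ℝ × ℝ) × ℝ | L ≤ |z.2 - z.1.2|} :=
      (isClosed_le continuous_const (by fun_prop)).measurableSet
    have hvc : Continuous fun z : (ℝ × ℝ) × ℝ => v z.1.1 z.1.2 z.2 :=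
      hv.comp (f := fun z : (ℝ × ℝ) × ℝ => (z.1.1, z.1.2, z.2)) (by fun_prop)
    have hm : Measurable ({z : (ℝ × ℝ) × ℝ | L ≤ |z.2 - z.1.2|}.indicator
        (fun z => ENNReal.ofReal (v z.1.1 z.1.2 z.2) * ENNReal.ofReal (f z.2))) :=
      Measurable.indicator (hvc.measurable.ennreal_ofReal.mul (hfm.comp measurable_snd)) hset
    have hmm := hm.lintegral_prod_right' (ν := ν)
    have he : (fun w : ℝ × ℝ => ∫⁻ x' in Icc (0:ℝ) 1 ∩ {x' | L ≤ |x' - w.2|},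
        ENNReal.ofReal (v w.1 w.2 x') * ENNReal.ofReal (f x')) = fun w => ∫⁻ x', ({z : (ℝ × ℝ) × ℝ | L ≤ |z.2 - z.1.2|}.indicator
        (fun z => ENNReal.ofReal (v z.1.1 z.1.2 z.2) * ENNReal.ofReal (f z.2))) (w, x') ∂ν := by
      funext w
      rw [inter_comm, ← setLIntegral_indicator (hSm w.2)]
      rfl
    rw [he]
    exact hmm
  have hF1 : Measurable (fun z : ℝ × ℝ => ENNReal.ofReal (f z.2) * ENNReal.ofReal (u z.1 z.2)) :=
    (hfm.comp measurable_snd).mul hu.measurable.ennreal_ofReal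
  have hF2 : Measurable (fun z : ℝ × ℝ => ENNReal.ofReal (f z.2) * ∫⁻ x' in Icc (0:ℝ) 1 ∩ {x' | L ≤ |x' - z.2|},
      ENNReal.ofReal (v z.1 z.2 x') * ENNReal.ofReal (f x')) := (hfm.comp measurable_snd).mul hV'
  have s1 : ∫⁻ t, (∫⁻ x, (ENNReal.ofReal (f x) * ENNReal.ofReal (u t x)) ^ (2 - q) *
      (ENNReal.ofReal (f x) * ∫⁻ x' in Icc (0:ℝ) 1 ∩ {x' | L ≤ |x' - x|}, ENNReal.ofReal (v t x x') * ENNReal.ofReal (f x')) ^ (q - 1) ∂ν) ∂mu T =
      ∫⁻ z : ℝ × ℝ, (ENNReal.ofReal (f z.2) * ENNReal.ofReal (u z.1 z.2)) ^ (2 - q) *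
      (ENNReal.ofReal (f z.2) * ∫⁻ x' in Icc (0:ℝ) 1 ∩ {x' | L ≤ |x' - z.2|}, ENNReal.ofReal (v z.1 z.2 x') * ENNReal.ofReal (f x')) ^ (q - 1) ∂((mu T).prod ν) := by
    rw [lintegral_prod]
    exact ((hF1.pow_const _).mul (hF2.pow_const _)).aemeasurable
  rw [s1]
  refine (holder2 hF1.aemeasurable hF2.aemeasurable (by linarith) (by linarith) (by ring)).trans ?_
  have t1 : ∫⁻ z : ℝ × ℝ, ENNReal.ofReal (f z.2) * ENNReal.ofReal (u z.1 z.2) ∂((mu T).prod ν) ≤ A1 * (B * J + e * F) := by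
    rw [lintegral_prod_symm _ hF1.aemeasurable]
    calc ∫⁻ x, (∫⁻ t, ENNReal.ofReal (f x) * ENNReal.ofReal (u t x) ∂mu T) ∂ν
        ≤ ∫⁻ x, A1 * (B * (ENNReal.ofReal (f x) * K1 x) + e * ENNReal.ofReal (f x)) ∂ν := by
          refine setLIntegral_mono' measurableSet_Icc fun x hx => ?_
          rw [lintegral_const_mul' _ _ ENNReal.ofReal_ne_top]
          refine (mul_le_mul_right (h1 x hx) _).trans (le_of_eq ?_)
          ring
      _ = A1 * (B * J + e * F) := by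
          rw [lintegral_const_mul' _ _ hA1, lintegral_add_right _ (hfm.const_mul e), lintegral_const_mul' _ _ hB,
            lintegral_const_mul' _ _ he, k1, hF]
  have t2 : ∫⁻ z : ℝ × ℝ, ENNReal.ofReal (f z.2) * (∫⁻ x' in Icc (0:ℝ) 1 ∩ {x' | L ≤ |x' - z.2|},
      ENNReal.ofReal (v z.1 z.2 x') * ENNReal.ofReal (f x')) ∂((mu T).prod ν) ≤ A2 * (B * J + e * F * F) := by
    rw [lintegral_prod_symm _ hF2.aemeasurable]
    calc ∫⁻ x, (∫⁻ t, ENNReal.ofReal (f x) * (∫⁻ x' in Icc (0:ℝ) 1 ∩ {x' | L ≤ |x' - x|},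
          ENNReal.ofReal (v t x x') * ENNReal.ofReal (f x')) ∂mu T) ∂ν
        ≤ ∫⁻ x, A2 * (B * (ENNReal.ofReal (f x) * ∫⁻ x' in Icc (0:ℝ) 1, ENNReal.ofReal (f x') * K2 x x') +
            e * F * ENNReal.ofReal (f x)) ∂ν := by
          refine setLIntegral_mono' measurableSet_Icc fun x hx => ?_
          rw [lintegral_const_mul' _ _ ENNReal.ofReal_ne_top]
          have hvx : Continuous fun w : ℝ × ℝ => v w.1 x w.2 := hv.comp (f := fun w : ℝ × ℝ => (w.1, x, w.2)) (by fun_prop)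
          have hsw : ∫⁻ t, (∫⁻ x' in Icc (0:ℝ) 1 ∩ {x' | L ≤ |x' - x|}, ENNReal.ofReal (v t x x') * ENNReal.ofReal (f x')) ∂mu T =
              ∫⁻ x' in Icc (0:ℝ) 1 ∩ {x' | L ≤ |x' - x|}, (∫⁻ t, ENNReal.ofReal (v t x x') * ENNReal.ofReal (f x') ∂mu T) := by
            refine lintegral_lintegral_swap ?_
            exact (hvx.measurable.ennreal_ofReal.mul (hfm.comp measurable_snd)).aemeasurable
          have hbd : ∫⁻ x' in Icc (0:ℝ) 1 ∩ {x' | L ≤ |x' - x|}, (∫⁻ t, ENNReal.ofReal (v t x x') * ENNReal.ofReal (f x') ∂mu T) ≤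
              A2 * (B * (∫⁻ x' in Icc (0:ℝ) 1, ENNReal.ofReal (f x') * K2 x x') + e * F) := by
            calc ∫⁻ x' in Icc (0:ℝ) 1 ∩ {x' | L ≤ |x' - x|}, (∫⁻ t, ENNReal.ofReal (v t x x') * ENNReal.ofReal (f x') ∂mu T)
                ≤ ∫⁻ x' in Icc (0:ℝ) 1 ∩ {x' | L ≤ |x' - x|}, A2 * (B * (ENNReal.ofReal (f x') * K2 x x') + e * ENNReal.ofReal (f x')) := by
                  refine setLIntegral_mono' (measurableSet_Icc.inter (hSm x)) fun x' hx' => ?_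
                  rw [lintegral_mul_const' _ _ ENNReal.ofReal_ne_top]
                  refine (mul_le_mul_left (h2 x hx x' hx'.1 hx'.2) _).trans (le_of_eq ?_)
                  ring
              _ ≤ ∫⁻ x' in Icc (0:ℝ) 1, A2 * (B * (ENNReal.ofReal (f x') * K2 x x') + e * ENNReal.ofReal (f x')) :=
                  lintegral_mono_set inter_subset_left
              _ = A2 * (B * (∫⁻ x' in Icc (0:ℝ) 1, ENNReal.ofReal (f x') * K2 x x') + e * F) := by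
                  rw [lintegral_const_mul' _ _ hA2, lintegral_add_right _ (hfm.const_mul e), lintegral_const_mul' _ _ hB,
                    lintegral_const_mul' _ _ he, hF]
          rw [hsw]
          refine (mul_le_mul_right hbd _).trans (le_of_eq ?_)
          ring
      _ = A2 * (B * J + e * F * F) := by
          rw [lintegral_const_mul' _ _ hA2, lintegral_add_right _ (hfm.const_mul (e * F)), lintegral_const_mul' _ _ hB,
            lintegral_const_mul' _ _ (ENNReal.mul_ne_top he hFt), k2, hF]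
  exact mul_le_mul' (ENNReal.rpow_le_rpow t1 (by linarith)) (ENNReal.rpow_le_rpow t2 (by linarith))

private lemma tw2_A_cont {κ q : ℝ} {y : ℕ} {f : ℝ → ℝ} (hf : Continuous f) (hf0 : ∀ x, 0 < f x) {h : (ℕ → ℂ) → ℝ}
    (hh : ContinuousOn h tw2_U) :
    ContinuousOn (fun v : ℝ × ℝ × (ℕ → ℂ) => tw2_A κ q y f h v.1 v.2.1 v.2.2) {v | ∀ p, ‖v.2.2 p‖ = 1} := by
  unfold tw2_A
  refine ContinuousOn.mul (ContinuousOn.rpow_const ?_ fun v hv => Or.inl (tw2_Phi_pos κ y hf hf0 hv).ne') ?_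
  · exact (tw2_Phi_cont κ y hf).comp (f := fun v : ℝ × ℝ × (ℕ → ℂ) => v.2.2) (by fun_prop) (fun v hv => hv)
  · exact hh.comp (f := fun v : ℝ × ℝ × (ℕ → ℂ) => v.2.2) (by fun_prop) (fun v hv => hv)

private lemma tw2_B_cont {κ q : ℝ} {y : ℕ} {f : ℝ → ℝ} (hf : Continuous f) (hf0 : ∀ x, 0 < f x) {h : (ℕ → ℂ) → ℝ}
    (hh : ContinuousOn h tw2_U) :
    ContinuousOn (fun v : ℝ × ℝ × (ℕ → ℂ) => tw2_B κ q y f h v.1 v.2.1 v.2.2) {v | ∀ p, ‖v.2.2 p‖ = 1} := by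
  unfold tw2_B
  refine ContinuousOn.mul ?_ (ContinuousOn.mul (ContinuousOn.rpow_const ?_ fun v hv => Or.inl (tw2_Phi_pos κ y hf hf0 hv).ne') ?_)
  · exact (tw2_phx_cont κ y).comp (f := fun v : ℝ × ℝ × (ℕ → ℂ) => (v.2.1, v.2.2)) (by fun_prop) (fun v hv => hv)
  · exact (tw2_Phi_cont κ y hf).comp (f := fun v : ℝ × ℝ × (ℕ → ℂ) => v.2.2) (by fun_prop) (fun v hv => hv)
  · exact hh.comp (f := fun v : ℝ × ℝ × (ℕ → ℂ) => v.2.2) (by fun_prop) (fun v hv => hv)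

/-- application of LLc to one family -/
private lemma tw2_app {κ Cl δl Cp : ℝ} {y : ℕ} (hCl : 0 < Cl) (hCp : 0 < Cp) (hy : 2 ≤ y)
    (hps : ∏ p ∈ blk y 0, (1 - 1 / (p : ℝ)) ≤ Cp / Real.log y)
    (hLL : ∀ G : ℝ → ℝ → (ℕ → ℂ) → ℝ,
    ContinuousOn (fun v : ℝ × ℝ × (ℕ → ℂ) => G v.1 v.2.1 v.2.2) {v | ∀ p, ‖v.2.2 p‖ = 1} →
    (∀ (x x' : ℝ) (X : ℕ → ℂ), (∀ p, ‖X p‖ = 1) → 0 ≤ G x x' X) →
    (∀ (x x' : ℝ) (X Y : ℕ → ℂ), (∀ p ∈ blk y 0, X p = Y p) → G x x' X = G x x' Y) →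
    ∀ ε : ℝ, 0 < ε → ∃ T0 : ℝ, 3 ≤ T0 ∧ ∀ T : ℝ, T0 ≤ T → ∀ M i : ℕ, i ≤ 2 → (i = 2 → 1 ≤ M) →
    2 ^ M * Real.log y ≤ δl * Real.log T → ∀ c : ℕ → ℂ, (∀ p, ‖c p‖ ≤ 5) →
    ∀ x ∈ Icc (-1:ℝ) 1, ∀ x' ∈ Icc (-1:ℝ) 1,
    ∫⁻ s, ENNReal.ofReal (G x x' (Xp s) * Wi i T y M c s) ∂mu T ≤
      ENNReal.ofReal (Cl * Real.log T ^ (ai i) * ((∫ θ, G x x' (Xt θ) * DD (ai i) 0 (blk y 0) (Xt θ) ∂PT) + ε) *
        Real.exp (Sg (ai i) c y (Mi i M)) * gi i T y M))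
    {g : ℝ → ℝ → (ℕ → ℂ) → ℝ} (hg : ContinuousOn (fun v : ℝ × ℝ × (ℕ → ℂ) => g v.1 v.2.1 v.2.2) {v | ∀ p, ‖v.2.2 p‖ = 1})
    (hg0 : ∀ (x x' : ℝ) (X : ℕ → ℂ), (∀ p, ‖X p‖ = 1) → 0 ≤ g x x' X)
    (hgd : ∀ (x x' : ℝ) (X Y : ℕ → ℂ), (∀ p ∈ blk y 0, X p = Y p) → g x x' X = g x x' Y) {ε : ℝ} (hε : 0 < ε)
    {a : ℕ} (ha : a ≤ 1) :
    ∃ T0 : ℝ, 3 ≤ T0 ∧ ∀ T : ℝ, T0 ≤ T → ∀ M i : ℕ, i ≤ 2 → (i = 2 → 1 ≤ M) →
    2 ^ M * Real.log y ≤ δl * Real.log T → ai i = a → ∀ c : ℕ → ℂ, (∀ p, ‖c p‖ ≤ 5) →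
    ∀ x ∈ Icc (0:ℝ) 1, ∀ x' ∈ Icc (0:ℝ) 1,
    ∫⁻ t, ENNReal.ofReal (sm (κ - a) y (Xp (t + x)) * g x x' (Xp t) * Wi i T y M c (t + x)) ∂mu T ≤
      ENNReal.ofReal (3 * Cl * Real.log T ^ a * Real.exp (Sg a c y (Mi i M)) * gi i T y M) *
        (ENNReal.ofReal ((Cp / Real.log y) ^ a) * (∫⁻ θ, ENNReal.ofReal (phx κ y x (Xt θ) * g x x' (Xt θ)) ∂PT) +
          ENNReal.ofReal ε) := by
  obtain ⟨T0, hT0, hT⟩ := hLL (fun x x' X => sm (κ - a) y X * g x x' (fun p => X p * Xp (-x) p)) (by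
      refine ContinuousOn.mul ?_ ?_
      · exact (sm_facts (κ - a) y).1.comp (f := fun v : ℝ × ℝ × (ℕ → ℂ) => v.2.2) (by fun_prop) (fun v hv => hv)
      · refine hg.comp (f := fun v : ℝ × ℝ × (ℕ → ℂ) => (v.1, v.2.1, (fun p => v.2.2 p * Xp (-v.1) p))) ?_ ?_
        · refine Continuous.continuousOn ?_
          refine continuous_fst.prodMk ((continuous_fst.comp continuous_snd).prodMk (continuous_pi fun p => ?_))
          refine Continuous.mul (by fun_prop) ?_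
          exact (continuous_apply p).comp (Xp_cont.comp continuous_fst.neg)
        · intro v hv
          exact tw2_mul_mem hv (tw2_Xp_mem _))
    (fun x x' X hX => mul_nonneg ((sm_facts _ y).2.1 X hX).le (hg0 _ _ _ (tw2_mul_mem hX (tw2_Xp_mem _))))
    (fun x x' X Y hXY => by
      have e1 : sm (κ - a) y X = sm (κ - a) y Y := (sm_facts (κ - a) y).2.2 X Y hXY
      have e2 : g x x' (fun p => X p * Xp (-x) p) = g x x' (fun p => Y p * Xp (-x) p) :=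
        hgd _ _ _ _ fun p hp => by rw [hXY p hp]
      simp only [e1, e2]) ε hε
  refine ⟨T0, hT0, fun T hTT M i hi hi2 hM hai c hc x hx x' hx' => ?_⟩
  refine tw2_gen κ hCl hCp hy hps ha hg hg0 hε (hT0.trans hTT) hai hx ?_
  exact hT T hTT M i hi hi2 hM c hc x ⟨by linarith [hx.1], hx.2⟩ x' ⟨by linarith [hx'.1], hx'.2⟩

private lemma tw2_c1_le {κ q : ℝ} (h0 : 0 < κ) (h1 : κ < 1) (hq1 : 1 < q) (hκq : κ * q < 1) {a : ℕ} (ha : a ≤ 1) (y n p : ℕ) :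
    ‖c1 κ q a y n p‖ ≤ 5 := by
  unfold c1
  have h2 : 0 < κ * q := by positivity
  split_ifs
  · rw [Complex.norm_real, Real.norm_eq_abs, abs_le]
    interval_cases a
    · constructor <;> push_cast <;> linarith
    · constructor <;> push_cast <;> linarith
  · rw [Complex.norm_real, Real.norm_eq_abs, abs_le]
    interval_cases a
    · constructor <;> push_cast <;> linarith
    · constructor <;> push_cast <;> linarith

private lemma tw2_c2_le {κ q : ℝ} (h0 : 0 < κ) (h1 : κ < 1) (hq1 : 1 < q) (hκq : κ * q < 1) {a : ℕ} (ha : a ≤ 1) (y n p : ℕ)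
    (u : ℝ) : ‖c2 κ q a y n u p‖ ≤ 5 := by
  have h2 : 0 < κ * q := by positivity
  have h3 : ‖(κ : ℂ) * Xp u p‖ ≤ 1 := by
    rw [norm_mul, norm_Xp, mul_one, Complex.norm_real, Real.norm_eq_abs, abs_of_pos h0]
    exact h1.le
  have h4 : ‖((κ * (q - 1) - a : ℝ) : ℂ)‖ ≤ 2 := by
    rw [Complex.norm_real, Real.norm_eq_abs, abs_le]
    interval_cases a
    · constructor <;> push_cast <;> nlinarith
    · constructor <;> push_cast <;> nlinarith
  have h5 : ‖((κ - a : ℝ) : ℂ)‖ ≤ 2 := by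
    rw [Complex.norm_real, Real.norm_eq_abs, abs_le]
    interval_cases a
    · constructor <;> push_cast <;> linarith
    · constructor <;> push_cast <;> linarith
  unfold c2
  split_ifs
  · exact (norm_add_le _ _).trans (by linarith)
  · exact (norm_add_le _ _).trans (by linarith)

/-- the final real inequality for the constants -/
private lemma tw2_const {κ q w Cc : ℝ} (hq1 : 1 < q) (hq2 : q < 2) (hw : 0 ≤ w) (hCc : 0 < Cc) (N a : ℕ) :
    (w * Real.exp (N * (κ ^ 2 - a) * Real.log 2 + 1)) ^ (2 - q) *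
      (w * Real.exp (N * (2 * κ ^ 2 - a) * Real.log 2 + (2 + 2 * Cc))) ^ (q - 1) ≤
      w * (Real.exp (3 + 2 * Cc) * (2 : ℝ) ^ ((N : ℝ) * (κ ^ 2 * q - a))) := by
  have key : w ^ (2 - q) * w ^ (q - 1) = w := by
    rw [← Real.rpow_add' hw (by ring_nf; norm_num)]
    rw [show 2 - q + (q - 1) = 1 by ring, Real.rpow_one]
  rw [Real.mul_rpow hw (Real.exp_pos _).le, Real.mul_rpow hw (Real.exp_pos _).le, ← Real.exp_mul, ← Real.exp_mul]
  have e1 : w ^ (2 - q) * Real.exp ((N * (κ ^ 2 - a) * Real.log 2 + 1) * (2 - q)) *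
      (w ^ (q - 1) * Real.exp ((N * (2 * κ ^ 2 - a) * Real.log 2 + (2 + 2 * Cc)) * (q - 1))) =
      (w ^ (2 - q) * w ^ (q - 1)) * (Real.exp ((N * (κ ^ 2 - a) * Real.log 2 + 1) * (2 - q)) *
        Real.exp ((N * (2 * κ ^ 2 - a) * Real.log 2 + (2 + 2 * Cc)) * (q - 1))) := by ring
  rw [e1, key, ← Real.exp_add]
  refine mul_le_mul_of_nonneg_left ?_ hw
  rw [Real.rpow_def_of_pos (by norm_num : (0:ℝ) < 2), ← Real.exp_add]
  refine Real.exp_le_exp.mpr ?_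
  nlinarith

theorem far (κ q : ℝ) (h0 : 0 < κ) (h1 : κ < 1) (hq1 : 1 < q) (hq2 : q < 2) (hκq : κ * q < 1) :
    ∃ (C : ℝ) (y0 : ℕ) (δ : ℝ), 0 < C ∧ 100 ≤ y0 ∧ 0 < δ ∧ δ ≤ 1/2 ∧ ∀ y : ℕ, y0 ≤ y →
    ∀ h : (ℕ → ℂ) → ℝ, ContinuousOn h {X | ∀ p, ‖X p‖ = 1} → (∀ X, (∀ p, ‖X p‖ = 1) → 0 ≤ h X) →
    (∀ X Y : ℕ → ℂ, (∀ p ∈ blk y 0, X p = Y p) → h X = h Y) → ∀ f : ℝ → ℝ, Continuous f → (∀ x, 0 < f x) →
    ∀ ε : ℝ, 0 < ε → ∃ T0 : ℝ, 3 ≤ T0 ∧ ∀ T : ℝ, T0 ≤ T → ∀ M i : ℕ, i ≤ 2 → (i = 2 → 1 ≤ M) →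
    2 ^ M * Real.log y ≤ δ * Real.log T →
    ∫⁻ t, (∫⁻ x in Icc (0:ℝ) 1, Cg κ i T y M (t + x) * ENNReal.ofReal (f x) *
      (∫⁻ x' in Icc (0:ℝ) 1 ∩ {x' | 1 / Real.log y ≤ |x' - x|}, Cg κ 0 T y (Mi i M) (t + x') * ENNReal.ofReal (f x')) ^ (q - 1)) *
        ENNReal.ofReal (h (Xp t)) ∂mu T ≤
    ENNReal.ofReal (C * (Real.log T / Real.log y) ^ (ai i) * (2 : ℝ) ^ ((Mi i M : ℝ) * (κ ^ 2 * q - ai i)) * gi i T y M *
      ((∫ θ, Phi κ y f (Xt θ) ^ q * h (Xt θ) ∂PT) + ε)) := by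
  obtain ⟨Cq, δq, hCq, hδq, hδq2, hpt⟩ := pt_two κ q h0 h1 hq1 hq2 hκq
  obtain ⟨Cl, y1, δl, hCl, hy1, hδl, hδl2, hLL⟩ := LLc 5 (by norm_num)
  obtain ⟨y2, hy2, hS⟩ := Sg_const
  obtain ⟨y3, hy3, hM⟩ := mert_blk
  obtain ⟨Cc, hCc, hcos⟩ := cos_sum
  obtain ⟨Cp, hCp, hps⟩ := prod_small
  refine ⟨3 * Cq * Cl * Real.exp (3 + 2 * Cc) * (1 + Cp), max y1 (max y2 y3), min δq δl, by positivity,
    hy1.trans (le_max_left _ _), lt_min hδq hδl, (min_le_left _ _).trans hδq2, ?_⟩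
  intro y hy h hh hh0 hhd f hf hf0 ε hε
  have hy1' : y1 ≤ y := (le_max_left _ _).trans hy
  have hy2' : y2 ≤ y := ((le_max_left _ _).trans (le_max_right _ _)).trans hy
  have hy3' : y3 ≤ y := ((le_max_right _ _).trans (le_max_right _ _)).trans hy
  have hy100 : 100 ≤ y := hy1.trans hy1'
  have hly : 0 < Real.log y := Real.log_pos (by exact_mod_cast (by omega : 1 < y))
  have hpsy := hps y (by omega)
  set Fr : ℝ := ∫ x in Icc (0:ℝ) 1, f x with hFr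
  have hFr0 : 0 ≤ Fr := setIntegral_nonneg measurableSet_Icc fun x _ => (hf0 x).le
  have hF : ∫⁻ x in Icc (0:ℝ) 1, ENNReal.ofReal (f x) = ENNReal.ofReal Fr := by
    rw [hFr, ofReal_integral_eq_lintegral_ofReal]
    · exact hf.continuousOn.integrableOn_compact isCompact_Icc
    · exact Eventually.of_forall fun x => (hf0 x).le
  set b : ℝ := min 1 (Cp / Real.log y) with hb
  have hb0 : 0 < b := lt_min one_pos (by positivity)
  have hε' : 0 < ε * b / (1 + Fr) ^ 2 := by positivity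
  set ε' : ℝ := ε * b / (1 + Fr) ^ 2 with hε'def
  have hUmem : ∀ {X : ℕ → ℂ}, X ∈ tw2_U → ∀ p, ‖X p‖ = 1 := fun hX => hX
  -- the four applications
  have hA : ∀ a : ℕ, a ≤ 1 → _ := fun a ha =>
    tw2_app (κ := κ) (ε := ε') (a := a) hCl hCp (by omega : 2 ≤ y) hpsy (hLL y hy1') (g := tw2_A κ q y f h)
      (tw2_A_cont hf hf0 hh)
      (fun x x' X hX => mul_nonneg (Real.rpow_nonneg (tw2_Phi_pos κ y hf hf0 hX).le _) (hh0 X hX))
      (fun x x' X Y hXY => by unfold tw2_A; rw [tw2_Phi_dep κ y f hXY, hhd X Y hXY]) hε' ha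
  have hB : ∀ a : ℕ, a ≤ 1 → _ := fun a ha =>
    tw2_app (κ := κ) (ε := ε') (a := a) hCl hCp (by omega : 2 ≤ y) hpsy (hLL y hy1') (g := tw2_B κ q y f h)
      (tw2_B_cont hf hf0 hh)
      (fun x x' X hX => mul_nonneg (tw2_phx_pos κ y x' hX).le
        (mul_nonneg (Real.rpow_nonneg (tw2_Phi_pos κ y hf hf0 hX).le _) (hh0 X hX)))
      (fun x x' X Y hXY => by unfold tw2_B; rw [tw2_Phi_dep κ y f hXY, hhd X Y hXY, tw2_phx_dep κ y x' hXY]) hε' ha
  obtain ⟨TA0, hTA0, hA0⟩ := hA 0 (by norm_num)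
  obtain ⟨TA1, hTA1, hA1⟩ := hA 1 le_rfl
  obtain ⟨TB0, hTB0, hB0⟩ := hB 0 (by norm_num)
  obtain ⟨TB1, hTB1, hB1⟩ := hB 1 le_rfl
  refine ⟨max (max TA0 TA1) (max TB0 TB1), hTA0.trans ((le_max_left _ _).trans (le_max_left _ _)), ?_⟩
  intro T hT M i hi hi2 hMT
  have hTA0' : TA0 ≤ T := ((le_max_left _ _).trans (le_max_left _ _)).trans hT
  have hTA1' : TA1 ≤ T := ((le_max_right _ _).trans (le_max_left _ _)).trans hT
  have hTB0' : TB0 ≤ T := ((le_max_left _ _).trans (le_max_right _ _)).trans hT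
  have hTB1' : TB1 ≤ T := ((le_max_right _ _).trans (le_max_right _ _)).trans hT
  have hT3 : 3 ≤ T := hTA0.trans hTA0'
  have hlT : 0 < Real.log T := Real.log_pos (by linarith)
  have hMl : 2 ^ M * Real.log y ≤ δl * Real.log T :=
    hMT.trans (mul_le_mul_of_nonneg_right (min_le_right _ _) hlT.le)
  have hMi : Mi i M ≤ M := by
    unfold Mi
    split_ifs <;> omega
  have hMq : 2 ^ (Mi i M) * Real.log y ≤ δq * Real.log T := by
    refine le_trans ?_ (hMT.trans (mul_le_mul_of_nonneg_right (min_le_left _ _) hlT.le))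
    exact mul_le_mul_of_nonneg_right (pow_le_pow_right₀ (by norm_num) hMi) hly.le
  have hai : ai i ≤ 1 := min_le_right _ _
  generalize haa : ai i = a at hai
  set N := Mi i M with hN
  have hgi : 0 ≤ gi i T y M := by
    unfold gi
    split_ifs
    · positivity
    · exact zero_le_one
  have hAa : ∀ c : ℕ → ℂ, (∀ p, ‖c p‖ ≤ 5) → ∀ x ∈ Icc (0:ℝ) 1, ∀ x' ∈ Icc (0:ℝ) 1,
      ∫⁻ t, ENNReal.ofReal (sm (κ - a) y (Xp (t + x)) * tw2_A κ q y f h x x' (Xp t) * Wi i T y M c (t + x)) ∂mu T ≤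
      ENNReal.ofReal (3 * Cl * Real.log T ^ a * Real.exp (Sg a c y N) * gi i T y M) *
        (ENNReal.ofReal ((Cp / Real.log y) ^ a) * (∫⁻ θ, ENNReal.ofReal (phx κ y x (Xt θ) * tw2_A κ q y f h x x' (Xt θ)) ∂PT) +
          ENNReal.ofReal ε') := by
    interval_cases a
    · exact hA0 T hTA0' M i hi hi2 hMl haa
    · exact hA1 T hTA1' M i hi hi2 hMl haa
  have hBa : ∀ c : ℕ → ℂ, (∀ p, ‖c p‖ ≤ 5) → ∀ x ∈ Icc (0:ℝ) 1, ∀ x' ∈ Icc (0:ℝ) 1,
      ∫⁻ t, ENNReal.ofReal (sm (κ - a) y (Xp (t + x)) * tw2_B κ q y f h x x' (Xp t) * Wi i T y M c (t + x)) ∂mu T ≤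
      ENNReal.ofReal (3 * Cl * Real.log T ^ a * Real.exp (Sg a c y N) * gi i T y M) *
        (ENNReal.ofReal ((Cp / Real.log y) ^ a) * (∫⁻ θ, ENNReal.ofReal (phx κ y x (Xt θ) * tw2_B κ q y f h x x' (Xt θ)) ∂PT) +
          ENNReal.ofReal ε') := by
    interval_cases a
    · exact hB0 T hTB0' M i hi hi2 hMl haa
    · exact hB1 T hTB1' M i hi hi2 hMl haa
  have hptT := fun s u => hpt T y N hy100 hT3 hMq a 0 hai (Nat.zero_le _) s u
  -- abbreviations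
  set u : ℝ → ℝ → ℝ := fun t x => sm (κ - a) y (Xp (t + x)) * tw2_A κ q y f h x 0 (Xp t) *
    Wi i T y M (c1 κ q a y 0) (t + x) with hu
  set v : ℝ → ℝ → ℝ → ℝ := fun t x x' => sm (κ - a) y (Xp (t + x)) * tw2_B κ q y f h x x' (Xp t) *
    Wi i T y M (c2 κ q a y 0 (x' - x)) (t + x) with hv
  set J : ℝ≥0∞ := ∫⁻ θ, ENNReal.ofReal (Phi κ y f (Xt θ) ^ q * h (Xt θ)) ∂PT with hJ
  have huc : Continuous fun w : ℝ × ℝ => u w.1 w.2 := by
    simp only [hu]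
    refine Continuous.mul (Continuous.mul ?_ ?_) ?_
    · exact (sm_facts (κ - a) y).1.comp_continuous (f := fun w : ℝ × ℝ => Xp (w.1 + w.2))
        (Xp_cont.comp (continuous_fst.add continuous_snd)) (fun w => tw2_Xp_mem _)
    · exact (tw2_A_cont hf hf0 hh).comp_continuous (f := fun w : ℝ × ℝ => (w.2, (0:ℝ), Xp w.1))
        (continuous_snd.prodMk (continuous_const.prodMk (Xp_cont.comp continuous_fst))) (fun w => tw2_Xp_mem _)
    · exact tw2_Wi_cont (α := ℝ × ℝ) i T y M (c := fun _ => c1 κ q a y 0) (s := fun w => w.1 + w.2)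
        (fun _ => continuous_const) (continuous_fst.add continuous_snd)
  have hvc : Continuous fun w : ℝ × ℝ × ℝ => v w.1 w.2.1 w.2.2 := by
    simp only [hv]
    refine Continuous.mul (Continuous.mul ?_ ?_) ?_
    · exact (sm_facts (κ - a) y).1.comp_continuous (f := fun w : ℝ × ℝ × ℝ => Xp (w.1 + w.2.1))
        (Xp_cont.comp (continuous_fst.add (continuous_fst.comp continuous_snd))) (fun w => tw2_Xp_mem _)
    · exact (tw2_B_cont hf hf0 hh).comp_continuous (f := fun w : ℝ × ℝ × ℝ => (w.2.1, w.2.2, Xp w.1))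
        ((continuous_fst.comp continuous_snd).prodMk ((continuous_snd.comp continuous_snd).prodMk
          (Xp_cont.comp continuous_fst))) (fun w => tw2_Xp_mem _)
    · exact tw2_Wi_cont (α := ℝ × ℝ × ℝ) i T y M (c := fun w => c2 κ q a y 0 (w.2.2 - w.2.1)) (s := fun w => w.1 + w.2.1)
        (fun p => tw2_c2_cont κ q a y 0 (by fun_prop) p) (continuous_fst.add (continuous_fst.comp continuous_snd))
  set w : ℝ := 3 * Cl * Real.log T ^ a * gi i T y M with hw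
  have hw0 : 0 ≤ w := by positivity
  set E1 : ℝ := Real.exp (N * (κ ^ 2 - a) * Real.log 2 + 1) with hE1
  set E2 : ℝ := Real.exp (N * (2 * κ ^ 2 - a) * Real.log 2 + (2 + 2 * Cc)) with hE2
  have b1 : ∀ x ∈ Icc (0:ℝ) 1, ∫⁻ t, ENNReal.ofReal (u t x) ∂mu T ≤ ENNReal.ofReal (w * E1) *
      (ENNReal.ofReal ((Cp / Real.log y) ^ a) * (∫⁻ θ, ENNReal.ofReal (phx κ y x (Xt θ) * tw2_A κ q y f h x 0 (Xt θ)) ∂PT) +
          ENNReal.ofReal ε') := by
    intro x hx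
    refine (hAa (c1 κ q a y 0) (fun p => tw2_c1_le h0 h1 hq1 hκq hai y 0 p) x hx 0 ⟨le_rfl, zero_le_one⟩).trans ?_
    refine mul_le_mul_left (ENNReal.ofReal_le_ofReal ?_) _
    have := Real.exp_le_exp.mpr (tw2_Sg1 h0 h1 q (hS y hy2') hai N)
    calc 3 * Cl * Real.log T ^ a * Real.exp (Sg a (c1 κ q a y 0) y N) * gi i T y M =
        w * Real.exp (Sg a (c1 κ q a y 0) y N) := by rw [hw]; ring
      _ ≤ w * E1 := mul_le_mul_of_nonneg_left this hw0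
  have b2 : ∀ x ∈ Icc (0:ℝ) 1, ∀ x' ∈ Icc (0:ℝ) 1, 1 / Real.log y ≤ |x' - x| →
      ∫⁻ t, ENNReal.ofReal (v t x x') ∂mu T ≤ ENNReal.ofReal (w * E2) *
      (ENNReal.ofReal ((Cp / Real.log y) ^ a) * (∫⁻ θ, ENNReal.ofReal (phx κ y x (Xt θ) * tw2_B κ q y f h x x' (Xt θ)) ∂PT) +
          ENNReal.ofReal ε') := by
    intro x hx x' hx' hfar
    refine (hBa (c2 κ q a y 0 (x' - x)) (fun p => tw2_c2_le h0 h1 hq1 hκq hai y 0 p _) x hx x' hx').trans ?_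
    refine mul_le_mul_left (ENNReal.ofReal_le_ofReal ?_) _
    have hu1 : |x' - x| ≤ 1 := by
      rw [abs_le]
      constructor <;> linarith [hx.1, hx.2, hx'.1, hx'.2]
    have := Real.exp_le_exp.mpr (tw2_Sg2 h0 h1 q hy100 hCc (hM y hy3').2 hcos hai N hfar hu1)
    calc 3 * Cl * Real.log T ^ a * Real.exp (Sg a (c2 κ q a y 0 (x' - x)) y N) * gi i T y M =
        w * Real.exp (Sg a (c2 κ q a y 0 (x' - x)) y N) := by rw [hw]; ring
      _ ≤ w * E2 := mul_le_mul_of_nonneg_left this hw0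
  have hmain := tw2_hold (T := T) (q := q) (L := 1 / Real.log y) (by linarith) hq1 hq2 huc hvc hf
    (A1 := ENNReal.ofReal (w * E1)) (A2 := ENNReal.ofReal (w * E2)) (B := ENNReal.ofReal ((Cp / Real.log y) ^ a))
    (e := ENNReal.ofReal ε') (J := J) ENNReal.ofReal_ne_top ENNReal.ofReal_ne_top ENNReal.ofReal_ne_top ENNReal.ofReal_ne_top
    (K1 := fun x => ∫⁻ θ, ENNReal.ofReal (phx κ y x (Xt θ) * tw2_A κ q y f h x 0 (Xt θ)) ∂PT)
    (K2 := fun x x' => ∫⁻ θ, ENNReal.ofReal (phx κ y x (Xt θ) * tw2_B κ q y f h x x' (Xt θ)) ∂PT)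
    b1 b2 (tw2_J1 hf hf0 hh) (tw2_J2 hf hf0 hh) hF ENNReal.ofReal_ne_top
  -- the left side
  have hleft : ∫⁻ t, (∫⁻ x in Icc (0:ℝ) 1, Cg κ i T y M (t + x) * ENNReal.ofReal (f x) *
      (∫⁻ x' in Icc (0:ℝ) 1 ∩ {x' | 1 / Real.log y ≤ |x' - x|}, Cg κ 0 T y N (t + x') * ENNReal.ofReal (f x')) ^ (q - 1)) *
        ENNReal.ofReal (h (Xp t)) ∂mu T ≤
      ENNReal.ofReal Cq * ∫⁻ t, (∫⁻ x in Icc (0:ℝ) 1, (ENNReal.ofReal (f x) * ENNReal.ofReal (u t x)) ^ (2 - q) *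
      (ENNReal.ofReal (f x) * ∫⁻ x' in Icc (0:ℝ) 1 ∩ {x' | 1 / Real.log y ≤ |x' - x|},
        ENNReal.ofReal (v t x x') * ENNReal.ofReal (f x')) ^ (q - 1)) ∂mu T := by
    rw [← lintegral_const_mul' _ _ ENNReal.ofReal_ne_top]
    refine lintegral_mono fun t => ?_
    simp only
    rw [← lintegral_mul_const' _ _ ENNReal.ofReal_ne_top, ← lintegral_const_mul' _ _ ENNReal.ofReal_ne_top]
    refine lintegral_mono fun x => ?_
    simp only
    have hp := tw2_pt (κ := κ) (q := q) (y := y) hf hf0 hh0 hq1 hq2 hCq (T := T) (i := i) (M := M)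
      (by rw [haa]; exact hptT) t x (Icc (0:ℝ) 1 ∩ {x' | 1 / Real.log y ≤ |x' - x|})
    rw [haa] at hp
    have hff : ENNReal.ofReal (f x) ^ (2 - q) * ENNReal.ofReal (f x) ^ (q - 1) = ENNReal.ofReal (f x) := by
      rw [← ENNReal.rpow_add_of_nonneg _ _ (by linarith) (by linarith), show 2 - q + (q - 1) = 1 by ring, ENNReal.rpow_one]
    calc Cg κ i T y M (t + x) * ENNReal.ofReal (f x) *
        (∫⁻ x' in Icc (0:ℝ) 1 ∩ {x' | 1 / Real.log y ≤ |x' - x|}, Cg κ 0 T y N (t + x') * ENNReal.ofReal (f x')) ^ (q - 1) *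
        ENNReal.ofReal (h (Xp t)) = ENNReal.ofReal (f x) * (Cg κ i T y M (t + x) *
        (∫⁻ x' in Icc (0:ℝ) 1 ∩ {x' | 1 / Real.log y ≤ |x' - x|}, Cg κ 0 T y N (t + x') * ENNReal.ofReal (f x')) ^ (q - 1) *
        ENNReal.ofReal (h (Xp t))) := by ring
      _ ≤ ENNReal.ofReal (f x) * (ENNReal.ofReal Cq * ENNReal.ofReal (u t x) ^ (2 - q) *
        (∫⁻ x' in Icc (0:ℝ) 1 ∩ {x' | 1 / Real.log y ≤ |x' - x|}, ENNReal.ofReal (v t x x') * ENNReal.ofReal (f x')) ^ (q - 1)) :=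
          mul_le_mul_right hp _
      _ = (ENNReal.ofReal (f x) ^ (2 - q) * ENNReal.ofReal (f x) ^ (q - 1)) * (ENNReal.ofReal Cq * ENNReal.ofReal (u t x) ^ (2 - q) *
        (∫⁻ x' in Icc (0:ℝ) 1 ∩ {x' | 1 / Real.log y ≤ |x' - x|}, ENNReal.ofReal (v t x x') * ENNReal.ofReal (f x')) ^ (q - 1)) := by
          rw [hff]
      _ = _ := by
          rw [ENNReal.mul_rpow_of_nonneg _ _ (by linarith : (0:ℝ) ≤ 2 - q), ENNReal.mul_rpow_of_nonneg _ _ (by linarith : (0:ℝ) ≤ q - 1)]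
          ring
  refine hleft.trans ((mul_le_mul_right hmain _).trans ?_)
  -- the errors
  have hbB : b ≤ (Cp / Real.log y) ^ a := by
    interval_cases a
    · rw [pow_zero]
      exact min_le_left _ _
    · rw [pow_one]
      exact min_le_right _ _
  have hB0' : 0 ≤ (Cp / Real.log y) ^ a := by positivity
  have hεF : ε' * Fr ≤ (Cp / Real.log y) ^ a * ε := by
    have h3 : ε' * Fr ≤ ε * b := by
      rw [hε'def, div_mul_eq_mul_div, div_le_iff₀ (by positivity)]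
      refine mul_le_mul_of_nonneg_left ?_ (by positivity)
      nlinarith
    nlinarith
  have hεFF : ε' * Fr * Fr ≤ (Cp / Real.log y) ^ a * ε := by
    have h3 : ε' * Fr * Fr ≤ ε * b := by
      rw [hε'def, mul_assoc, div_mul_eq_mul_div, div_le_iff₀ (by positivity)]
      refine mul_le_mul_of_nonneg_left ?_ (by positivity)
      nlinarith
    nlinarith
  set B : ℝ≥0∞ := ENNReal.ofReal ((Cp / Real.log y) ^ a) with hBdef
  set R : ℝ≥0∞ := B * (J + ENNReal.ofReal ε) with hR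
  have r1 : B * J + ENNReal.ofReal ε' * ENNReal.ofReal Fr ≤ R := by
    rw [hR, mul_add, ← ENNReal.ofReal_mul hε'.le, hBdef, ← ENNReal.ofReal_mul hB0']
    exact add_le_add le_rfl (ENNReal.ofReal_le_ofReal hεF)
  have r2 : B * J + ENNReal.ofReal ε' * ENNReal.ofReal Fr * ENNReal.ofReal Fr ≤ R := by
    rw [hR, mul_add, ← ENNReal.ofReal_mul hε'.le, ← ENNReal.ofReal_mul (by positivity), hBdef, ← ENNReal.ofReal_mul hB0']
    exact add_le_add le_rfl (ENNReal.ofReal_le_ofReal hεFF)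
  have hRR : R ^ (2 - q) * R ^ (q - 1) = R := by
    rw [← ENNReal.rpow_add_of_nonneg _ _ (by linarith) (by linarith), show 2 - q + (q - 1) = 1 by ring, ENNReal.rpow_one]
  have hJr : J = ENNReal.ofReal (∫ θ, Phi κ y f (Xt θ) ^ q * h (Xt θ) ∂PT) := by
    rw [hJ]
    refine (tw2_lint (g := fun X => Phi κ y f X ^ q * h X) ?_ ?_).symm
    · exact ((tw2_Phi_cont κ y hf).rpow_const fun X hX => Or.inl (tw2_Phi_pos κ y hf hf0 hX).ne').mul hh
    · exact fun X hX => mul_nonneg (Real.rpow_nonneg (tw2_Phi_pos κ y hf hf0 hX).le _) (hh0 X hX)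
  have hI0 : 0 ≤ ∫ θ, Phi κ y f (Xt θ) ^ q * h (Xt θ) ∂PT := integral_nonneg fun θ =>
    mul_nonneg (Real.rpow_nonneg (tw2_Phi_pos κ y hf hf0 (tw2_Xt_mem θ)).le _) (hh0 _ (tw2_Xt_mem θ))
  set I0 : ℝ := ∫ θ, Phi κ y f (Xt θ) ^ q * h (Xt θ) ∂PT with hI0def
  calc ENNReal.ofReal Cq * ((ENNReal.ofReal (w * E1) * (B * J + ENNReal.ofReal ε' * ENNReal.ofReal Fr)) ^ (2 - q) *
        (ENNReal.ofReal (w * E2) * (B * J + ENNReal.ofReal ε' * ENNReal.ofReal Fr * ENNReal.ofReal Fr)) ^ (q - 1))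
      ≤ ENNReal.ofReal Cq * ((ENNReal.ofReal (w * E1) * R) ^ (2 - q) * (ENNReal.ofReal (w * E2) * R) ^ (q - 1)) := by
        refine mul_le_mul_right (mul_le_mul' (ENNReal.rpow_le_rpow (mul_le_mul_right r1 _) (by linarith))
          (ENNReal.rpow_le_rpow (mul_le_mul_right r2 _) (by linarith))) _
    _ = ENNReal.ofReal Cq * (ENNReal.ofReal (w * E1) ^ (2 - q) * ENNReal.ofReal (w * E2) ^ (q - 1)) * (R ^ (2 - q) * R ^ (q - 1)) := by
        rw [ENNReal.mul_rpow_of_nonneg _ _ (by linarith : (0:ℝ) ≤ 2 - q), ENNReal.mul_rpow_of_nonneg _ _ (by linarith : (0:ℝ) ≤ q - 1)]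
        ring
    _ = ENNReal.ofReal (Cq * ((w * E1) ^ (2 - q) * (w * E2) ^ (q - 1)) * ((Cp / Real.log y) ^ a * (I0 + ε))) := by
        rw [hRR, hR, hJr, ← ENNReal.ofReal_add hI0 hε.le, hBdef, ← ENNReal.ofReal_mul hB0',
          ENNReal.ofReal_rpow_of_nonneg (by positivity) (by linarith), ENNReal.ofReal_rpow_of_nonneg (by positivity) (by linarith),
          ← ENNReal.ofReal_mul (by positivity), ← ENNReal.ofReal_mul (by positivity), ← ENNReal.ofReal_mul (by positivity)]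
    _ ≤ _ := by
        refine ENNReal.ofReal_le_ofReal ?_
        have hc := tw2_const (κ := κ) hq1 hq2 hw0 hCc N a
        have hCpa : Cp ^ a ≤ 1 + Cp := by
          interval_cases a
          · rw [pow_zero]; linarith
          · rw [pow_one]; linarith
        calc Cq * ((w * E1) ^ (2 - q) * (w * E2) ^ (q - 1)) * ((Cp / Real.log y) ^ a * (I0 + ε))
            ≤ Cq * (w * (Real.exp (3 + 2 * Cc) * (2 : ℝ) ^ ((N : ℝ) * (κ ^ 2 * q - a)))) * ((Cp / Real.log y) ^ a * (I0 + ε)) := by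
              refine mul_le_mul_of_nonneg_right (mul_le_mul_of_nonneg_left hc (by linarith)) (by positivity)
          _ = (3 * Cq * Cl * Real.exp (3 + 2 * Cc) * (Real.log T / Real.log y) ^ a *
              (2 : ℝ) ^ ((N : ℝ) * (κ ^ 2 * q - a)) * gi i T y M * (I0 + ε)) * Cp ^ a := by
              rw [hw, div_pow, div_pow]
              ring
          _ ≤ (3 * Cq * Cl * Real.exp (3 + 2 * Cc) * (Real.log T / Real.log y) ^ a *
              (2 : ℝ) ^ ((N : ℝ) * (κ ^ 2 * q - a)) * gi i T y M * (I0 + ε)) * (1 + Cp) := by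
              refine mul_le_mul_of_nonneg_left hCpa ?_
              positivity
          _ = _ := by ring

end CZ
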