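import Pool.Agent.Lib.MP_9eae41_pr.TW2
import Pool.Agent.Lib.MP_9eae41_pr.Q3

set_option autoImplicit false

open Complex MeasureTheory Set Filter Topology
open scoped ComplexConjugate ENNReal

namespace CZ

/-! Row TW3 (350 lines): the near part. Annuli n = 1..N (N = Mi i M) in u = x' - x: D_n = {|u| <= 2^(1-n)/log y, and n = N or
2^(-n)/log y <= |u|}, |D_n| <= 4 2^(-n)/log y (for N = 0 the only annulus is |u| < 1/log y, n = 0). Bound f <= Bf, h <= Bh;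
pt_two with n; small factors S1 = sm (kq - a), S2 = sm (k(q-1) - a) X * sm k (X * Xp u); LLc, Sg_c1, Sg_c2; the torus
integrals of S1 DD and S2 DD are at most C (log y)^((kq)^2 - a) (DD_zero, prod_small, Eu_moment for kq, Hoelder and rotation);
the sum over n is geometric with ratio 2^((q-1)(k^2 q - 1)). -/

/-! ### the annuli -/

/-- the near annuli -/
def tw3D (y N n : ℕ) : Set ℝ :=
  {u | |u| ≤ 1 ∧ |u| ≤ 2 / (2 ^ n * Real.log y) ∧ (n = N ∨ 1 / (2 ^ n * Real.log y) ≤ |u|)}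

theorem tw3D_meas (y N n : ℕ) : MeasurableSet (tw3D y N n) := by
  unfold tw3D
  have h1 : MeasurableSet {u : ℝ | |u| ≤ 1} := measurableSet_le (by fun_prop) (by fun_prop)
  have h2 : MeasurableSet {u : ℝ | |u| ≤ 2 / (2 ^ n * Real.log y)} := measurableSet_le (by fun_prop) (by fun_prop)
  have h3 : MeasurableSet {u : ℝ | 1 / (2 ^ n * Real.log y) ≤ |u|} :=
    measurableSet_le (by fun_prop) (by fun_prop)
  have h4 : MeasurableSet {u : ℝ | n = N ∨ 1 / (2 ^ n * Real.log y) ≤ |u|} := by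
    by_cases h : n = N
    · simp [h]
    · simpa [h] using h3
  exact h1.inter (h2.inter h4)

theorem tw3D_vol {y : ℕ} (hy : 1 ≤ Real.log y) (N n : ℕ) :
    volume (tw3D y N n) ≤ ENNReal.ofReal ((Real.log y)⁻¹ * (4 / 2 ^ n)) := by
  have h1 : tw3D y N n ⊆ Icc (-(2 / (2 ^ n * Real.log y))) (2 / (2 ^ n * Real.log y)) := fun u hu => abs_le.1 hu.2.1
  refine (measure_mono h1).trans ?_
  rw [Real.volume_Icc]
  refine le_of_eq ?_
  congr 1
  have : Real.log y ≠ 0 := by linarith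
  field_simp
  ring

theorem tw3D_cover {y : ℕ} (N : ℕ) (hy : 1 ≤ Real.log y) :
    {u : ℝ | |u| < 1 / Real.log y} ⊆ ⋃ n ∈ Finset.range (N + 1), tw3D y N n := by
  intro u hu
  have hu' : |u| < 1 / Real.log y := hu
  have hlog : 0 < Real.log y := by linarith
  have hu1 : |u| ≤ 1 := by
    refine hu'.le.trans ?_
    rw [div_le_one hlog]
    exact hy
  rw [mem_iUnion₂]
  by_cases h : ∃ n, n < N ∧ 1 / (2 ^ n * Real.log y) ≤ |u|
  · classical
    set n := Nat.find h with hn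
    obtain ⟨h1, h2⟩ := Nat.find_spec h
    refine ⟨n, Finset.mem_range.2 (by omega), hu1, ?_, Or.inr h2⟩
    rcases Nat.eq_zero_or_pos n with h0 | h0
    · rw [← hn, h0] at h2
      norm_num at h2
      rw [one_div] at hu'
      linarith
    · have h3 := Nat.find_min h (m := n - 1) (by omega)
      rw [not_and, not_le] at h3
      have h4 := h3 (by omega)
      have h5 : (2 : ℝ) ^ n = 2 * 2 ^ (n - 1) := by
        rw [← pow_succ']
        congr 1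
        omega
      refine h4.le.trans (le_of_eq ?_)
      rw [h5]
      field_simp
  · push Not at h
    refine ⟨N, Finset.mem_range.2 (by omega), hu1, ?_, Or.inl rfl⟩
    rcases Nat.eq_zero_or_pos N with h0 | h0
    · rw [h0]
      refine hu'.le.trans ?_
      rw [pow_zero, one_mul]
      gcongr
      norm_num
    · have h4 := h (N - 1) (by omega)
      have h5 : (2 : ℝ) ^ N = 2 * 2 ^ (N - 1) := by
        rw [← pow_succ']
        congr 1
        omega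
      refine h4.le.trans (le_of_eq ?_)
      rw [h5]
      field_simp

/-! ### the small factors -/

/-- the one-point small factor -/
noncomputable def tw3S1 (κ q : ℝ) (a y : ℕ) (X : ℕ → ℂ) : ℝ := sm (κ * q - a) y X

/-- the two-point small factor -/
noncomputable def tw3S2 (κ q : ℝ) (a y : ℕ) (u : ℝ) (X : ℕ → ℂ) : ℝ :=
  sm (κ * (q - 1) - a) y X * sm κ y (fun p => X p * Xp u p)

theorem tw3_mul_norm {X : ℕ → ℂ} (hX : ∀ p, ‖X p‖ = 1) (u : ℝ) (p : ℕ) : ‖X p * Xp u p‖ = 1 := by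
  rw [norm_mul, hX, norm_Xp, one_mul]

theorem tw3_sm_pos (κ : ℝ) (y : ℕ) {X : ℕ → ℂ} (hX : ∀ p, ‖X p‖ = 1) : 0 < sm κ y X :=
  (sm_facts κ y).2.1 X hX

theorem tw3_Eu_pos (y : ℕ) {X : ℕ → ℂ} (hX : ∀ p, ‖X p‖ = 1) : 0 < ‖Eu (blk y 0) X‖ := by
  have h := tw3_sm_pos (1/2) y hX
  unfold sm at h
  norm_num at h
  exact norm_pos_iff.2 h

theorem tw3_S1_nonneg (κ q : ℝ) (a y : ℕ) {X : ℕ → ℂ} (hX : ∀ p, ‖X p‖ = 1) : 0 ≤ tw3S1 κ q a y X :=
  (tw3_sm_pos _ y hX).le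

theorem tw3_S2_nonneg (κ q : ℝ) (a y : ℕ) (u : ℝ) {X : ℕ → ℂ} (hX : ∀ p, ‖X p‖ = 1) : 0 ≤ tw3S2 κ q a y u X :=
  (mul_pos (tw3_sm_pos _ y hX) (tw3_sm_pos _ y (tw3_mul_norm hX u))).le

theorem tw3_rot_cont : Continuous (fun v : ℝ × ℝ × (ℕ → ℂ) => (fun p => v.2.2 p * Xp v.1 p : ℕ → ℂ)) := by
  refine continuous_pi fun p => ?_
  exact ((continuous_apply p).comp (continuous_snd.comp continuous_snd)).mul ((q3_Xp_cont p).comp continuous_fst)

theorem tw3_S1_cont (κ q : ℝ) (a y : ℕ) :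
    ContinuousOn (fun v : ℝ × ℝ × (ℕ → ℂ) => tw3S1 κ q a y v.2.2) {v | ∀ p, ‖v.2.2 p‖ = 1} := by
  unfold tw3S1
  exact (sm_facts _ y).1.comp (continuous_snd.comp continuous_snd).continuousOn (fun v hv => hv)

theorem tw3_S2_cont (κ q : ℝ) (a y : ℕ) :
    ContinuousOn (fun v : ℝ × ℝ × (ℕ → ℂ) => tw3S2 κ q a y v.1 v.2.2) {v | ∀ p, ‖v.2.2 p‖ = 1} := by
  unfold tw3S2
  refine ContinuousOn.mul ?_ ?_
  · exact (sm_facts _ y).1.comp (continuous_snd.comp continuous_snd).continuousOn (fun v hv => hv)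
  · exact (sm_facts _ y).1.comp tw3_rot_cont.continuousOn (fun v hv => tw3_mul_norm hv v.1)

theorem tw3_S1_dep (κ q : ℝ) (a y : ℕ) {X Y : ℕ → ℂ} (h : ∀ p ∈ blk y 0, X p = Y p) :
    tw3S1 κ q a y X = tw3S1 κ q a y Y := (sm_facts _ y).2.2 X Y h

theorem tw3_S2_dep (κ q : ℝ) (a y : ℕ) (u : ℝ) {X Y : ℕ → ℂ} (h : ∀ p ∈ blk y 0, X p = Y p) :
    tw3S2 κ q a y u X = tw3S2 κ q a y u Y := by
  unfold tw3S2
  rw [(sm_facts _ y).2.2 X Y h, (sm_facts κ y).2.2 (fun p => X p * Xp u p) (fun p => Y p * Xp u p)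
    (fun p hp => by rw [h p hp])]

/-! ### integrals over the torus -/

theorem tw3_compact : IsCompact {X : ℕ → ℂ | ∀ p, ‖X p‖ = 1} := by
  have h : {X : ℕ → ℂ | ∀ p, ‖X p‖ = 1} = Set.pi univ (fun _ => Metric.sphere (0 : ℂ) 1) := by
    ext X
    simp
  rw [h]
  exact isCompact_univ_pi fun _ => isCompact_sphere 0 1

theorem tw3_integrable {g : (ℕ → ℂ) → ℝ} (hg : ContinuousOn g {X | ∀ p, ‖X p‖ = 1}) :
    Integrable (fun θ : Om => g (Xt θ)) PT := by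
  have : IsProbabilityMeasure PT := PT_prob
  obtain ⟨C, hC⟩ := tw3_compact.exists_bound_of_continuousOn hg
  have hc : Continuous (fun θ : Om => g (Xt θ)) := hg.comp_continuous Xt_cont (fun θ => norm_Xt θ)
  refine Integrable.of_bound hc.aestronglyMeasurable C (ae_of_all _ fun θ => hC _ (norm_Xt θ))

theorem tw3_Eu_meas (r : ℝ) (s : Finset ℕ) : Measurable (fun X : ℕ → ℂ => ‖Eu s X‖ ^ r) := by
  unfold Eu
  refine Measurable.pow_const (Measurable.norm ?_) r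
  refine Finset.measurable_prod _ fun p _ => ?_
  exact (measurable_const.sub ((measurable_pi_apply p).mul_const _)).inv

theorem tw3_Xp_ee (u : ℝ) (p : ℕ) : Xp u p = ee (-(u * Real.log p) / (2 * Real.pi)) := by
  unfold Xp ee
  congr 1
  have : (Real.pi : ℂ) ≠ 0 := Complex.ofReal_ne_zero.2 Real.pi_ne_zero
  push_cast
  field_simp

theorem tw3_rot (r : ℝ) (y : ℕ) (u : ℝ) :
    ∫ θ, ‖Eu (blk y 0) (fun p => Xt θ p * Xp u p)‖ ^ r ∂PT = ∫ θ, ‖Eu (blk y 0) (Xt θ)‖ ^ r ∂PT := by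
  have h := torus_rot (fun p => -(u * Real.log p) / (2 * Real.pi)) (fun X => ‖Eu (blk y 0) X‖ ^ r)
    ((tw3_Eu_meas r (blk y 0)).comp Xt_cont.measurable) (tw3_Eu_meas r (blk y 0))
  rw [← h]
  congr 1
  funext θ
  simp_rw [tw3_Xp_ee]

theorem tw3_prod_nonneg (y : ℕ) : 0 ≤ ∏ p ∈ blk y 0, (1 - 1 / (p : ℝ)) := by
  refine Finset.prod_nonneg fun p hp => ?_
  have h := (blk_prime hp).one_lt
  have h2 : (1 : ℝ) < p := by exact_mod_cast h
  have : 1 / (p : ℝ) ≤ 1 := by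
    rw [div_le_one (by linarith)]
    exact h2.le
  linarith

/-- the local factors combined with a power of the small product -/
theorem tw3_DD {a : ℕ} (ha : a ≤ 1) (y : ℕ) (r : ℝ) {X : ℕ → ℂ} (hX : ∀ p, ‖X p‖ = 1) :
    sm (r - a) y X * DD a 0 (blk y 0) X = (∏ p ∈ blk y 0, (1 - 1 / (p : ℝ))) ^ a * ‖Eu (blk y 0) X‖ ^ (2 * r) := by
  rcases Nat.le_one_iff_eq_zero_or_eq_one.1 ha with rfl | rfl
  · unfold DD sm
    simp
  · rw [DD_zero y hX]
    unfold sm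
    have hE := tw3_Eu_pos y hX
    have h2 : ‖Eu (blk y 0) X‖ ^ (2 * r) = ‖Eu (blk y 0) X‖ ^ (2 * (r - (1 : ℕ))) * ‖Eu (blk y 0) X‖ ^ 2 := by
      rw [← Real.rpow_natCast (‖Eu (blk y 0) X‖) 2, ← Real.rpow_add hE]
      congr 1
      push_cast
      ring
    rw [h2]
    ring

/-- the two torus integrals -/
theorem tw3_torus (κ q : ℝ) (h0 : 0 < κ) (hq1 : 1 < q) (hκq : κ * q < 1) :
    ∃ C : ℝ, 0 < C ∧ ∀ y : ℕ, 2 ≤ y → 1 ≤ Real.log y → ∀ a : ℕ, a ≤ 1 →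
      (∫ θ, tw3S1 κ q a y (Xt θ) * DD a 0 (blk y 0) (Xt θ) ∂PT ≤ C * Real.log y ^ ((κ * q) ^ 2 - a)) ∧
      ∀ u : ℝ, ∫ θ, tw3S2 κ q a y u (Xt θ) * DD a 0 (blk y 0) (Xt θ) ∂PT ≤ C * Real.log y ^ ((κ * q) ^ 2 - a) := by
  have hκq0 : 0 < κ * q := by
    have : 0 < q := by linarith
    positivity
  have hq0 : 0 < q := by linarith
  obtain ⟨_, C1, _, hC1, H1⟩ := Eu_moment (κ * q) hκq0 hκq
  obtain ⟨C2, hC2, H2⟩ := prod_small
  refine ⟨(C2 + 1) * C1, by positivity, fun y hy hlog a ha => ?_⟩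
  have hI := (H1 y hy).2
  set P : ℝ := ∏ p ∈ blk y 0, (1 - 1 / (p : ℝ)) with hP
  have hP0 : 0 ≤ P := tw3_prod_nonneg y
  have hP1 : P ≤ C2 / Real.log y := H2 y hy
  have hlog0 : 0 < Real.log y := by linarith
  have hmain : P ^ a * ∫ θ, ‖Eu (blk y 0) (Xt θ)‖ ^ (2 * (κ * q)) ∂PT ≤ (C2 + 1) * C1 * Real.log y ^ ((κ * q) ^ 2 - a) := by
    have h3 : P ^ a ≤ (C2 + 1) * Real.log y ^ (-(a : ℝ)) := by
      rcases Nat.le_one_iff_eq_zero_or_eq_one.1 ha with rfl | rfl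
      · simp
        linarith
      · rw [pow_one, Nat.cast_one, Real.rpow_neg_one]
        refine hP1.trans ?_
        rw [div_eq_mul_inv]
        have := inv_pos.2 hlog0
        nlinarith
    calc P ^ a * ∫ θ, ‖Eu (blk y 0) (Xt θ)‖ ^ (2 * (κ * q)) ∂PT
        ≤ ((C2 + 1) * Real.log y ^ (-(a : ℝ))) * (C1 * Real.log y ^ ((κ * q) ^ 2)) := by
          refine mul_le_mul h3 hI ?_ (by positivity)
          exact integral_nonneg fun θ => Real.rpow_nonneg (norm_nonneg _) _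
      _ = (C2 + 1) * C1 * (Real.log y ^ ((κ * q) ^ 2) * Real.log y ^ (-(a : ℝ))) := by ring
      _ = _ := by
          rw [← Real.rpow_add hlog0]
          rfl
  constructor
  · refine le_trans (le_of_eq ?_) hmain
    rw [← integral_const_mul]
    congr 1
    funext θ
    unfold tw3S1
    rw [tw3_DD ha y (κ * q) (norm_Xt θ)]
  · intro u
    have hc1 : ContinuousOn (fun X : ℕ → ℂ => ‖Eu (blk y 0) X‖ ^ (2 * (κ * q))) {X | ∀ p, ‖X p‖ = 1} :=
      (sm_facts (κ * q) y).1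
    have hrc : Continuous (fun X : ℕ → ℂ => (fun p => X p * Xp u p : ℕ → ℂ)) :=
      continuous_pi fun p => (continuous_apply p).mul continuous_const
    have hc2 : ContinuousOn (fun X : ℕ → ℂ => ‖Eu (blk y 0) (fun p => X p * Xp u p)‖ ^ (2 * (κ * q))) {X | ∀ p, ‖X p‖ = 1} :=
      hc1.comp hrc.continuousOn (fun X hX => tw3_mul_norm hX u)
    have hw1 : 0 ≤ (q - 1) / q := div_nonneg (by linarith) hq0.le
    have hw2 : 0 ≤ 1 / q := by positivity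
    have hw : (q - 1) / q + 1 / q = 1 := by field_simp; ring
    have hle : ∀ θ : Om, tw3S2 κ q a y u (Xt θ) * DD a 0 (blk y 0) (Xt θ) ≤
        P ^ a * ((q - 1) / q * ‖Eu (blk y 0) (Xt θ)‖ ^ (2 * (κ * q)) +
          1 / q * ‖Eu (blk y 0) (fun p => Xt θ p * Xp u p)‖ ^ (2 * (κ * q))) := by
      intro θ
      have hX := norm_Xt θ
      have hXu := tw3_mul_norm hX u
      have hE := tw3_Eu_pos y hX
      have hEu := tw3_Eu_pos y hXu
      have e1 : tw3S2 κ q a y u (Xt θ) * DD a 0 (blk y 0) (Xt θ) =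
          P ^ a * (‖Eu (blk y 0) (Xt θ)‖ ^ (2 * (κ * (q - 1))) * sm κ y (fun p => Xt θ p * Xp u p)) := by
        have := tw3_DD ha y (κ * (q - 1)) hX
        unfold tw3S2
        calc _ = (sm (κ * (q - 1) - a) y (Xt θ) * DD a 0 (blk y 0) (Xt θ)) * sm κ y (fun p => Xt θ p * Xp u p) := by ring
          _ = _ := by
            rw [this]
            ring
      rw [e1]
      refine mul_le_mul_of_nonneg_left ?_ (pow_nonneg hP0 a)
      have hy1 := Real.geom_mean_le_arith_mean2_weighted hw1 hw2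
        (Real.rpow_nonneg hE.le (2 * (κ * q))) (Real.rpow_nonneg hEu.le (2 * (κ * q))) hw
      refine le_trans (le_of_eq ?_) hy1
      rw [← Real.rpow_mul hE.le, ← Real.rpow_mul hEu.le]
      unfold sm
      congr 2
      · field_simp
      · field_simp
    have hint1 : Integrable (fun θ : Om => tw3S2 κ q a y u (Xt θ) * DD a 0 (blk y 0) (Xt θ)) PT := by
      have hDD : ContinuousOn (DD a 0 (blk y 0)) {X : ℕ → ℂ | ∀ p, ‖X p‖ = 1} := by
        unfold DD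
        refine ContinuousOn.pow ?_ a
        refine continuousOn_finsetProd _ fun p hp => ?_
        refine ContinuousOn.norm ?_
        have hd := Dz_cont (z := 0) (by norm_num) (blk_prime hp)
        exact hd.comp (continuous_apply p).continuousOn (fun X hX => by simpa using hX p)
      have hS : ContinuousOn (tw3S2 κ q a y u) {X : ℕ → ℂ | ∀ p, ‖X p‖ = 1} := by
        unfold tw3S2
        refine ContinuousOn.mul (sm_facts _ y).1 ?_
        exact (sm_facts _ y).1.comp hrc.continuousOn (fun X hX => tw3_mul_norm hX u)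
      exact tw3_integrable (hS.mul hDD)
    have hi1 := tw3_integrable hc1
    have hi2 := tw3_integrable hc2
    have hint2 : Integrable (fun θ : Om => P ^ a * ((q - 1) / q * ‖Eu (blk y 0) (Xt θ)‖ ^ (2 * (κ * q)) +
          1 / q * ‖Eu (blk y 0) (fun p => Xt θ p * Xp u p)‖ ^ (2 * (κ * q)))) PT :=
      ((hi1.const_mul _).add (hi2.const_mul _)).const_mul _
    refine (integral_mono hint1 hint2 hle).trans (le_trans (le_of_eq ?_) hmain)
    rw [integral_const_mul, integral_add (hi1.const_mul _) (hi2.const_mul _), integral_const_mul, integral_const_mul,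
      tw3_rot, ← add_mul, hw, one_mul]

/-! ### the weighted means -/

theorem tw3_ai {i : ℕ} : ai i ≤ 1 := min_le_right _ _

theorem tw3_gi_pos (i : ℕ) (T : ℝ) (y M : ℕ) : 0 < gi i T y M := by
  unfold gi
  split_ifs
  · exact Real.exp_pos _
  · exact one_pos

/-- from the abstract mean to the two-power form -/
theorem tw3_arith {C L I ε X K D gg l w Ct : ℝ} (hC : 0 ≤ C) (hL : 0 ≤ L) (hgg : 0 ≤ gg) (hI : I ≤ Ct * l)
    (hε : ε = l) (hX : X ≤ Real.log 2 * K + D) (hl : 0 ≤ l) (hCt : 0 ≤ Ct) (hw : w = C * (Ct + 1) * Real.exp D * L * l * gg) :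
    C * L * (I + ε) * Real.exp X * gg ≤ w * (2 : ℝ) ^ K := by
  have h1 : Real.exp X ≤ Real.exp D * (2 : ℝ) ^ K := by
    rw [Real.rpow_def_of_pos (by norm_num), ← Real.exp_add]
    apply Real.exp_le_exp.2
    linarith
  have h2 : I + ε ≤ (Ct + 1) * l := by
    rw [hε]
    linarith
  calc C * L * (I + ε) * Real.exp X * gg ≤ C * L * ((Ct + 1) * l) * Real.exp X * gg := by
        have := Real.exp_nonneg X
        gcongr
    _ ≤ C * L * ((Ct + 1) * l) * (Real.exp D * (2 : ℝ) ^ K) * gg := by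
        gcongr
    _ = w * (2 : ℝ) ^ K := by
        rw [hw]
        ring

theorem tw3_means (κ q : ℝ) (h0 : 0 < κ) (h1 : κ < 1) (hq1 : 1 < q) (hκq : κ * q < 1) :
    ∃ (C : ℝ) (y0 : ℕ) (δ : ℝ), 0 < C ∧ 100 ≤ y0 ∧ 0 < δ ∧ δ ≤ 1/2 ∧ ∀ y : ℕ, y0 ≤ y →
    ∃ T0 : ℝ, 3 ≤ T0 ∧ ∀ T : ℝ, T0 ≤ T → ∀ M i : ℕ, i ≤ 2 → (i = 2 → 1 ≤ M) → 2 ^ M * Real.log y ≤ δ * Real.log T →
    ∀ n : ℕ, n ≤ Mi i M →
    (∫⁻ s, ENNReal.ofReal (tw3S1 κ q (ai i) y (Xp s) * Wi i T y M (c1 κ q (ai i) y n) s) ∂mu T ≤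
      ENNReal.ofReal ((C * Real.log T ^ (ai i) * Real.log y ^ ((κ * q) ^ 2 - (ai i : ℝ)) * gi i T y M) *
        (2 : ℝ) ^ ((n : ℝ) * ((κ * q) ^ 2 - (ai i : ℝ)) + ((Mi i M : ℝ) - n) * (κ ^ 2 - (ai i : ℝ))))) ∧
    ∀ u : ℝ, |u| ≤ 1 → (n = Mi i M ∨ 1 / (2 ^ n * Real.log y) ≤ |u|) →
    (∫⁻ s, ENNReal.ofReal (tw3S2 κ q (ai i) y u (Xp s) * Wi i T y M (c2 κ q (ai i) y n u) s) ∂mu T ≤
      ENNReal.ofReal ((C * Real.log T ^ (ai i) * Real.log y ^ ((κ * q) ^ 2 - (ai i : ℝ)) * gi i T y M) *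
        (2 : ℝ) ^ ((n : ℝ) * ((κ * q) ^ 2 - (ai i : ℝ)) + ((Mi i M : ℝ) - n) * (2 * κ ^ 2 - (ai i : ℝ))))) := by
  obtain ⟨CL, y1, δ, hCL, hy1, hδ, hδ', HL⟩ := LLc 2 (by norm_num)
  obtain ⟨y2, D1, hy2, hD1, HS1⟩ := Sg_c1 κ q h0 h1 hq1 hκq
  obtain ⟨y3, D2, hy3, hD2, HS2⟩ := Sg_c2 κ q h0 h1 hq1 hκq
  obtain ⟨Ct, hCt, HT⟩ := tw3_torus κ q h0 hq1 hκq
  have hκq0 : 0 < κ * q := by
    have : 0 < q := by linarith
    positivity
  set D : ℝ := max D1 D2 with hD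
  refine ⟨CL * (Ct + 1) * Real.exp D, max y1 (max y2 y3), δ, by positivity, hy1.trans (le_max_left _ _), hδ, hδ', fun y hy => ?_⟩
  have hyy1 : y1 ≤ y := (le_max_left _ _).trans hy
  have hyy2 : y2 ≤ y := ((le_max_left _ _).trans (le_max_right _ _)).trans hy
  have hyy3 : y3 ≤ y := ((le_max_right _ _).trans (le_max_right _ _)).trans hy
  have hy100 : 100 ≤ y := hy1.trans hyy1
  have hlogy : 1 ≤ Real.log y := by
    have h2 : (100 : ℝ) ≤ y := by exact_mod_cast hy100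
    rw [Real.le_log_iff_exp_le (by linarith)]
    have := Real.exp_one_lt_d9
    linarith
  have hlogy0 : 0 < Real.log y := by linarith
  have hε : ∀ a : ℕ, 0 < Real.log y ^ ((κ * q) ^ 2 - (a : ℝ)) := fun a => Real.rpow_pos_of_pos hlogy0 _
  have G1 := fun a : ℕ => HL y hyy1 (fun _ _ X => tw3S1 κ q a y X) (tw3_S1_cont κ q a y)
    (fun _ _ X hX => tw3_S1_nonneg κ q a y hX) (fun _ _ X Y h => tw3_S1_dep κ q a y h) _ (hε a)
  have G2 := fun a : ℕ => HL y hyy1 (fun u _ X => tw3S2 κ q a y u X) (tw3_S2_cont κ q a y)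
    (fun u _ X hX => tw3_S2_nonneg κ q a y u hX) (fun u _ X Y h => tw3_S2_dep κ q a y u h) _ (hε a)
  choose τ1 hτ1 G1' using G1
  choose τ2 hτ2 G2' using G2
  refine ⟨max (max (τ1 0) (τ1 1)) (max (τ2 0) (τ2 1)), (hτ1 0).trans ((le_max_left _ _).trans (le_max_left _ _)), ?_⟩
  intro T hT M i hi hi2 hM n hn
  have ha : ai i ≤ 1 := tw3_ai
  have hT1 : τ1 (ai i) ≤ T := by
    refine le_trans ?_ hT
    rcases Nat.le_one_iff_eq_zero_or_eq_one.1 ha with h | h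
    · rw [h]
      exact (le_max_left _ _).trans (le_max_left _ _)
    · rw [h]
      exact (le_max_right _ _).trans (le_max_left _ _)
  have hT2 : τ2 (ai i) ≤ T := by
    refine le_trans ?_ hT
    rcases Nat.le_one_iff_eq_zero_or_eq_one.1 ha with h | h
    · rw [h]
      exact (le_max_left _ _).trans (le_max_right _ _)
    · rw [h]
      exact (le_max_right _ _).trans (le_max_right _ _)
  have hT3 : 3 ≤ T := (hτ1 _).trans hT1
  have hlogT : 0 ≤ Real.log T := Real.log_nonneg (by linarith)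
  have z0 : (0 : ℝ) ∈ Icc (-1 : ℝ) 1 := ⟨by norm_num, by norm_num⟩
  have hX : ∀ u p, ‖(κ : ℂ) * Xp u p‖ ≤ 1 := by
    intro u p
    rw [norm_mul, norm_Xp, Complex.norm_real, Real.norm_of_nonneg h0.le, mul_one]
    exact h1.le
  have b1 : |κ * q - ai i| ≤ 1 := Q1_a ha hκq0.le hκq.le
  have b2 : |κ - ai i| ≤ 1 := Q1_a ha h0.le h1.le
  have b3 : |κ * (q - 1) - ai i| ≤ 1 := Q1_a ha (by nlinarith) (by nlinarith)
  constructor
  · have hc : ∀ p, ‖c1 κ q (ai i) y n p‖ ≤ 2 := by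
      intro p
      unfold c1
      split_ifs
      · rw [Complex.norm_real]
        exact b1.trans (by norm_num)
      · rw [Complex.norm_real]
        exact b2.trans (by norm_num)
    refine (G1' (ai i) T hT1 M i hi hi2 hM _ hc 0 z0 0 z0).trans (ENNReal.ofReal_le_ofReal ?_)
    have hS := HS1 y hyy2 (ai i) n (Mi i M) ha hn
    refine tw3_arith (D := D) (Ct := Ct) (l := Real.log y ^ ((κ * q) ^ 2 - (ai i : ℝ))) hCL.le (by positivity)
      (tw3_gi_pos i T y M).le ((HT y (by omega) hlogy (ai i) ha).1) rfl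
      (hS.trans (by linarith [le_max_left D1 D2])) (hε _).le hCt.le ?_
    ring
  · intro u hu hu2
    have hc : ∀ p, ‖c2 κ q (ai i) y n u p‖ ≤ 2 := by
      intro p
      unfold c2
      split_ifs
      · refine (norm_add_le _ _).trans ?_
        have := hX u p
        rw [Complex.norm_real, Real.norm_eq_abs]
        linarith
      · refine (norm_add_le _ _).trans ?_
        have := hX u p
        rw [Complex.norm_real, Real.norm_eq_abs]
        linarith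
    refine (G2' (ai i) T hT2 M i hi hi2 hM _ hc u (abs_le.1 hu) 0 z0).trans (ENNReal.ofReal_le_ofReal ?_)
    have hS := HS2 y hyy3 (ai i) n (Mi i M) ha hn u hu hu2
    refine tw3_arith (D := D) (Ct := Ct) (l := Real.log y ^ ((κ * q) ^ 2 - (ai i : ℝ))) hCL.le (by positivity)
      (tw3_gi_pos i T y M).le ((HT y (by omega) hlogy (ai i) ha).2 u) rfl
      (hS.trans (by linarith [le_max_right D1 D2])) (hε _).le hCt.le ?_
    ring

/-! ### the pointwise bound -/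

/-- the bad factor -/
noncomputable def tw3V (i : ℕ) (T : ℝ) (y M : ℕ) (s : ℝ) : ℝ :=
  if i = 2 then ‖(((100 / KT T y M : ℝ) : ℂ) * Ps (blk y M) (fun _ => 1) (Xp s)) ^ (KT T y M)‖ ^ 2 else 1

theorem tw3V_nonneg (i : ℕ) (T : ℝ) (y M : ℕ) (s : ℝ) : 0 ≤ tw3V i T y M s := by
  unfold tw3V
  split_ifs
  · positivity
  · exact zero_le_one

theorem tw3V_cont (i : ℕ) (T : ℝ) (y M : ℕ) : Continuous (tw3V i T y M) := by
  unfold tw3V
  split_ifs
  · have := q3_Ps_cont (blk y M) (c := fun _ _ => 1) (X := fun s => Xp s) (fun _ => continuous_const) q3_Xp_cont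
    exact ((continuous_const.mul this).pow _).norm.pow 2
  · exact continuous_const

theorem tw3_Wi (i : ℕ) (T : ℝ) (y M : ℕ) (c : ℕ → ℂ) (s : ℝ) :
    Wi i T y M c s = Wt (ai i) T y (Mi i M) c s * tw3V i T y M s := rfl

theorem tw3_Wi_nonneg (i : ℕ) (T : ℝ) (y M : ℕ) (c : ℕ → ℂ) (s : ℝ) : 0 ≤ Wi i T y M c s := by
  rw [tw3_Wi]
  exact mul_nonneg (q3_Wt_nonneg _ _ _ _ _ _) (tw3V_nonneg _ _ _ _ _)

theorem tw3_Wi_cont {α : Type} [TopologicalSpace α] (i : ℕ) (T : ℝ) (y M : ℕ) {c : α → ℕ → ℂ}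
    {σ : α → ℝ} (hc : ∀ p, Continuous fun z => c z p) (hσ : Continuous σ) :
    Continuous fun z => Wi i T y M (c z) (σ z) := by
  simp_rw [tw3_Wi]
  exact (q3_Wt_cont _ T y _ hc hσ).mul ((tw3V_cont i T y M).comp hσ)

theorem tw3_Cw_zero (κ : ℝ) (T : ℝ) (y N : ℕ) (s : ℝ) :
    Cw κ 0 T y N s = sm κ y (Xp s) * Wt 0 T y N (fun _ => (κ : ℂ)) s := by
  unfold Cw Wi ai Mi
  simp

/-- the pointwise inequality for two good points -/
theorem tw3_pt {κ q T C : ℝ} {y M i n : ℕ} (hq1 : 1 < q) (hq2 : q < 2)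
    (hpt : ∀ s u : ℝ, Good T y (Mi i M) s → Good T y (Mi i M) (s + u) →
      Wt (ai i) T y (Mi i M) (fun _ => ((κ - ai i : ℝ) : ℂ)) s * Wt 0 T y (Mi i M) (fun _ => (κ : ℂ)) (s + u) ^ (q - 1) ≤
      C * (Wt (ai i) T y (Mi i M) (c1 κ q (ai i) y n) s ^ (2 - q) * Wt (ai i) T y (Mi i M) (c2 κ q (ai i) y n u) s ^ (q - 1)))
    (s u : ℝ) (hs : Good T y (Mi i M) s) (hsu : Good T y (Mi i M) (s + u)) :
    Cw κ i T y M s * Cw κ 0 T y (Mi i M) (s + u) ^ (q - 1) ≤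
      C * ((tw3S1 κ q (ai i) y (Xp s) * Wi i T y M (c1 κ q (ai i) y n) s) ^ (2 - q) *
        (tw3S2 κ q (ai i) y u (Xp s) * Wi i T y M (c2 κ q (ai i) y n u) s) ^ (q - 1)) := by
  have h := hpt s u hs hsu
  have hX := norm_Xp s
  have hXu : ∀ p, ‖Xp (s + u) p‖ = 1 := norm_Xp (s + u)
  have eX : Xp (s + u) = fun p => Xp s p * Xp u p := funext fun p => Xp_add s u p
  set a := ai i with ha
  set N := Mi i M with hN
  set A := Wt a T y N (fun _ => ((κ - a : ℝ) : ℂ)) s with hA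
  set B := Wt 0 T y N (fun _ => (κ : ℂ)) (s + u) with hB
  set A1 := Wt a T y N (c1 κ q a y n) s with hA1
  set A2 := Wt a T y N (c2 κ q a y n u) s with hA2
  have nA : 0 ≤ A := q3_Wt_nonneg _ _ _ _ _ _
  have nB : 0 ≤ B := q3_Wt_nonneg _ _ _ _ _ _
  have nA1 : 0 ≤ A1 := q3_Wt_nonneg _ _ _ _ _ _
  have nA2 : 0 ≤ A2 := q3_Wt_nonneg _ _ _ _ _ _
  set V := tw3V i T y M s with hV
  have nV : 0 ≤ V := tw3V_nonneg _ _ _ _ _
  have eV : V = V ^ (2 - q) * V ^ (q - 1) := by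
    rw [← Real.rpow_add_of_nonneg nV (by linarith) (by linarith)]
    have : (2 - q) + (q - 1) = 1 := by ring
    rw [this, Real.rpow_one]
  set σ := sm (κ - a) y (Xp s) with hσ
  set σ' := sm κ y (Xp (s + u)) with hσ'
  have nσ : 0 < σ := tw3_sm_pos _ y hX
  have nσ' : 0 < σ' := tw3_sm_pos _ y hXu
  have eσ : σ * σ' ^ (q - 1) = tw3S1 κ q a y (Xp s) ^ (2 - q) * tw3S2 κ q a y u (Xp s) ^ (q - 1) := by
    unfold tw3S1 tw3S2
    rw [← eX, ← hσ', Real.mul_rpow (tw3_sm_pos _ y hX).le nσ'.le, ← mul_assoc]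
    congr 1
    rw [hσ]
    unfold sm
    have hE := tw3_Eu_pos y hX
    rw [← Real.rpow_mul hE.le, ← Real.rpow_mul hE.le, ← Real.rpow_add hE]
    congr 1
    ring
  have nS1 : 0 ≤ tw3S1 κ q a y (Xp s) := tw3_S1_nonneg _ _ _ _ hX
  have nS2 : 0 ≤ tw3S2 κ q a y u (Xp s) := tw3_S2_nonneg _ _ _ _ _ hX
  have e1 : Cw κ i T y M s = σ * (A * V) := rfl
  have e2 : Cw κ 0 T y N (s + u) = σ' * B := tw3_Cw_zero κ T y N (s + u)
  rw [e1, e2, tw3_Wi, tw3_Wi, Real.mul_rpow nσ'.le nB]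
  rw [Real.mul_rpow nS1 (mul_nonneg nA1 nV), Real.mul_rpow nS2 (mul_nonneg nA2 nV), Real.mul_rpow nA1 nV, Real.mul_rpow nA2 nV]
  have hpos : 0 ≤ σ * σ' ^ (q - 1) * V := by positivity
  calc σ * (A * V) * (σ' ^ (q - 1) * B ^ (q - 1)) = (σ * σ' ^ (q - 1) * V) * (A * B ^ (q - 1)) := by ring
    _ ≤ (σ * σ' ^ (q - 1) * V) * (C * (A1 ^ (2 - q) * A2 ^ (q - 1))) := mul_le_mul_of_nonneg_left h hpos
    _ = _ := by
      rw [eσ]
      nth_rewrite 1 [eV]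
      ring

/-- abstract annulus inequality -/
theorem tw3_ann {A B : ℝ≥0∞} {g g2 : ℝ → ℝ≥0∞} (hg : Measurable g) (hg2 : Measurable g2) {θ : ℝ} (hθ : 0 < θ)
    {D : Set ℝ} (hD : MeasurableSet D) (h : ∀ u ∈ D, A * g u ^ θ ≤ B * g2 u ^ θ) :
    A * (∫⁻ u in D, g u) ^ θ ≤ B * (∫⁻ u in D, g2 u) ^ θ := by
  have hu : ∀ u ∈ D, A ^ θ⁻¹ * g u ≤ B ^ θ⁻¹ * g2 u := by
    intro u hu
    have h2 := ENNReal.rpow_le_rpow (h u hu) (inv_nonneg.2 hθ.le)
    rw [ENNReal.mul_rpow_of_nonneg _ _ (inv_nonneg.2 hθ.le),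
      ENNReal.mul_rpow_of_nonneg _ _ (inv_nonneg.2 hθ.le), ← ENNReal.rpow_mul, ← ENNReal.rpow_mul,
      mul_inv_cancel₀ hθ.ne', ENNReal.rpow_one, ENNReal.rpow_one] at h2
    exact h2
  have h3 : A ^ θ⁻¹ * ∫⁻ u in D, g u ≤ B ^ θ⁻¹ * ∫⁻ u in D, g2 u := by
    rw [← lintegral_const_mul _ hg, ← lintegral_const_mul _ hg2]
    exact setLIntegral_mono' hD hu
  have h4 := ENNReal.rpow_le_rpow h3 hθ.le
  rw [ENNReal.mul_rpow_of_nonneg _ _ hθ.le, ENNReal.mul_rpow_of_nonneg _ _ hθ.le,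
    ← ENNReal.rpow_mul, ← ENNReal.rpow_mul, inv_mul_cancel₀ hθ.ne', ENNReal.rpow_one,
    ENNReal.rpow_one] at h4
  exact h4

theorem tw3_Cw_cont (κ : ℝ) (i : ℕ) (T : ℝ) (y M : ℕ) : Continuous (Cw κ i T y M) := by
  unfold Cw
  refine Continuous.mul ?_ ?_
  · exact (sm_facts _ y).1.comp_continuous Xp_cont (fun s => norm_Xp s)
  · exact tw3_Wi_cont i T y M (c := fun _ _ => ((κ - ai i : ℝ) : ℂ)) (σ := fun s => s) (fun _ => continuous_const) continuous_id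

theorem tw3_Cg_meas (κ : ℝ) (i : ℕ) (T : ℝ) (y M : ℕ) : Measurable (Cg κ i T y M) := by
  unfold Cg
  exact Measurable.indicator (tw3_Cw_cont κ i T y M).measurable.ennreal_ofReal (q3_Good_meas T y (Mi i M))

theorem tw3_Cw_nonneg (κ : ℝ) (i : ℕ) (T : ℝ) (y M : ℕ) (s : ℝ) : 0 ≤ Cw κ i T y M s :=
  mul_nonneg (tw3_sm_pos _ y (norm_Xp s)).le (tw3_Wi_nonneg _ _ _ _ _ _)

theorem tw3_sm_Xp (κ : ℝ) (y : ℕ) : Continuous (fun s : ℝ => sm κ y (Xp s)) :=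
  (sm_facts κ y).1.comp_continuous Xp_cont (fun s => norm_Xp s)

theorem tw3_S2_cont2 (κ q : ℝ) (a y : ℕ) :
    Continuous (fun z : ℝ × ℝ => tw3S2 κ q a y z.2 (Xp z.1)) := by
  have e : (fun z : ℝ × ℝ => tw3S2 κ q a y z.2 (Xp z.1)) =
      fun z : ℝ × ℝ => sm (κ * (q - 1) - a) y (Xp z.1) * sm κ y (Xp (z.1 + z.2)) := by
    funext z
    have eX : Xp (z.1 + z.2) = fun p => Xp z.1 p * Xp z.2 p := funext fun p => Xp_add z.1 z.2 p
    unfold tw3S2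
    rw [eX]
  rw [e]
  have h1 : Continuous (fun z : ℝ × ℝ => sm (κ * (q - 1) - a) y (Xp z.1)) :=
    (tw3_sm_Xp (κ * (q - 1) - a) y).comp continuous_fst
  have h2 : Continuous (fun z : ℝ × ℝ => sm κ y (Xp (z.1 + z.2))) :=
    (tw3_sm_Xp κ y).comp (continuous_fst.add continuous_snd)
  exact h1.mul h2

theorem tw3_S2_contu (κ q : ℝ) (a y : ℕ) (s : ℝ) :
    Continuous (fun u : ℝ => tw3S2 κ q a y u (Xp s)) := by
  have e : (fun u : ℝ => tw3S2 κ q a y u (Xp s)) =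
      fun u : ℝ => sm (κ * (q - 1) - a) y (Xp s) * sm κ y (Xp (s + u)) := by
    funext u
    have eX : Xp (s + u) = fun p => Xp s p * Xp u p := funext fun p => Xp_add s u p
    unfold tw3S2
    rw [eX]
  rw [e]
  have h2 : Continuous (fun u : ℝ => sm κ y (Xp (s + u))) :=
    (tw3_sm_Xp κ y).comp (continuous_const.add continuous_id)
  exact continuous_const.mul h2

theorem tw3_S1_cont1 (κ q : ℝ) (a y : ℕ) : Continuous (fun s : ℝ => tw3S1 κ q a y (Xp s)) :=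
  tw3_sm_Xp (κ * q - a) y

/-- the bound on one annulus -/
theorem tw3_annulus {κ q T C : ℝ} {y M i n : ℕ} (hq1 : 1 < q) (hq2 : q < 2) (hC : 0 ≤ C)
    (hpt : ∀ s u : ℝ, Good T y (Mi i M) s → Good T y (Mi i M) (s + u) →
      Wt (ai i) T y (Mi i M) (fun _ => ((κ - ai i : ℝ) : ℂ)) s * Wt 0 T y (Mi i M) (fun _ => (κ : ℂ)) (s + u) ^ (q - 1) ≤
      C * (Wt (ai i) T y (Mi i M) (c1 κ q (ai i) y n) s ^ (2 - q) * Wt (ai i) T y (Mi i M) (c2 κ q (ai i) y n u) s ^ (q - 1)))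
    (s : ℝ) :
    Cg κ i T y M s * (∫⁻ u in tw3D y (Mi i M) n, Cg κ 0 T y (Mi i M) (s + u)) ^ (q - 1) ≤
      ENNReal.ofReal C * (ENNReal.ofReal (tw3S1 κ q (ai i) y (Xp s) * Wi i T y M (c1 κ q (ai i) y n) s) ^ (2 - q) *
        (∫⁻ u in tw3D y (Mi i M) n, ENNReal.ofReal (tw3S2 κ q (ai i) y u (Xp s) * Wi i T y M (c2 κ q (ai i) y n u) s)) ^ (q - 1)) := by
  have hθ : 0 < q - 1 := by linarith
  by_cases hs : Good T y (Mi i M) s
  swap
  · have : Cg κ i T y M s = 0 := indicator_of_notMem (show s ∉ {s | Good T y (Mi i M) s} from hs) _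
    rw [this, zero_mul]
    exact zero_le
  have hg : Cg κ i T y M s = ENNReal.ofReal (Cw κ i T y M s) :=
    indicator_of_mem (show s ∈ {s | Good T y (Mi i M) s} from hs) _
  rw [hg, ← mul_assoc]
  have hm1 : Measurable fun u : ℝ => Cg κ 0 T y (Mi i M) (s + u) :=
    (tw3_Cg_meas κ 0 T y (Mi i M)).comp (measurable_const_add s)
  have hc1 : Continuous fun u : ℝ => tw3S2 κ q (ai i) y u (Xp s) := tw3_S2_contu κ q (ai i) y s
  have hc2 : Continuous fun u : ℝ => Wi i T y M (c2 κ q (ai i) y n u) s :=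
    tw3_Wi_cont i T y M (c := fun u => c2 κ q (ai i) y n u) (σ := fun _ => s)
        (fun p => q3_c2_cont κ q (ai i) y n p) continuous_const
  have hm2 : Measurable fun u : ℝ => ENNReal.ofReal (tw3S2 κ q (ai i) y u (Xp s) * Wi i T y M (c2 κ q (ai i) y n u) s) :=
    (hc1.mul hc2).measurable.ennreal_ofReal
  refine tw3_ann hm1 hm2 hθ (tw3D_meas y (Mi i M) n) ?_
  · intro u _
    by_cases hsu : Good T y (Mi i M) (s + u)
    swap
    · have hM0 : Mi 0 (Mi i M) = Mi i M := by simp [Mi]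
      have : Cg κ 0 T y (Mi i M) (s + u) = 0 := by
        unfold Cg
        rw [hM0]
        exact indicator_of_notMem (show s + u ∉ {s | Good T y (Mi i M) s} from hsu) _
      rw [this, ENNReal.zero_rpow_of_pos hθ, mul_zero]
      exact zero_le
    have hM0 : Mi 0 (Mi i M) = Mi i M := by simp [Mi]
    have hg0 : Cg κ 0 T y (Mi i M) (s + u) = ENNReal.ofReal (Cw κ 0 T y (Mi i M) (s + u)) := by
      unfold Cg
      rw [hM0]
      exact indicator_of_mem (show s + u ∈ {s | Good T y (Mi i M) s} from hsu) _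
    rw [hg0]
    have h1 := ENNReal.ofReal_le_ofReal (tw3_pt hq1 hq2 hpt s u hs hsu)
    have hX := norm_Xp s
    have n1 := tw3_Cw_nonneg κ i T y M s
    have n2 := tw3_Cw_nonneg κ 0 T y (Mi i M) (s + u)
    have n3 : 0 ≤ tw3S1 κ q (ai i) y (Xp s) * Wi i T y M (c1 κ q (ai i) y n) s :=
      mul_nonneg (tw3_S1_nonneg _ _ _ _ hX) (tw3_Wi_nonneg _ _ _ _ _ _)
    have n4 : 0 ≤ tw3S2 κ q (ai i) y u (Xp s) * Wi i T y M (c2 κ q (ai i) y n u) s :=
      mul_nonneg (tw3_S2_nonneg _ _ _ _ _ hX) (tw3_Wi_nonneg _ _ _ _ _ _)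
    rw [ENNReal.ofReal_mul n1, ENNReal.ofReal_mul hC, ENNReal.ofReal_mul (by positivity),
      ← ENNReal.ofReal_rpow_of_nonneg n2 hθ.le, ← ENNReal.ofReal_rpow_of_nonneg n3 (by linarith),
      ← ENNReal.ofReal_rpow_of_nonneg n4 hθ.le, ← mul_assoc] at h1
    exact h1

/-- the integral over the near differences -/
noncomputable def tw3Y (κ T : ℝ) (y N : ℕ) (s : ℝ) : ℝ≥0∞ :=
  ∫⁻ u in {u : ℝ | |u| < 1 / Real.log y}, Cg κ 0 T y N (s + u)

theorem tw3_near_meas (y : ℕ) : MeasurableSet {u : ℝ | |u| < 1 / Real.log y} :=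
  measurableSet_lt (by fun_prop) measurable_const

theorem tw3Y_meas (κ T : ℝ) (y N : ℕ) : Measurable (tw3Y κ T y N) := by
  unfold tw3Y
  have h : Measurable (fun z : ℝ × ℝ => Cg κ 0 T y N (z.1 + z.2)) :=
    (tw3_Cg_meas κ 0 T y N).comp (by fun_prop)
  exact h.lintegral_prod_right'

theorem tw3_pointwise {κ q T C : ℝ} {y M i : ℕ} (hq1 : 1 < q) (hq2 : q < 2) (hC : 0 ≤ C)
    (hy : 1 ≤ Real.log y)
    (hpt : ∀ n ≤ Mi i M, ∀ s u : ℝ, Good T y (Mi i M) s → Good T y (Mi i M) (s + u) →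
      Wt (ai i) T y (Mi i M) (fun _ => ((κ - ai i : ℝ) : ℂ)) s * Wt 0 T y (Mi i M) (fun _ => (κ : ℂ)) (s + u) ^ (q - 1) ≤
      C * (Wt (ai i) T y (Mi i M) (c1 κ q (ai i) y n) s ^ (2 - q) * Wt (ai i) T y (Mi i M) (c2 κ q (ai i) y n u) s ^ (q - 1)))
    (s : ℝ) :
    Cg κ i T y M s * tw3Y κ T y (Mi i M) s ^ (q - 1) ≤ ∑ n ∈ Finset.range (Mi i M + 1),
      ENNReal.ofReal C * (ENNReal.ofReal (tw3S1 κ q (ai i) y (Xp s) * Wi i T y M (c1 κ q (ai i) y n) s) ^ (2 - q) *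
        (∫⁻ u in tw3D y (Mi i M) n, ENNReal.ofReal (tw3S2 κ q (ai i) y u (Xp s) * Wi i T y M (c2 κ q (ai i) y n u) s)) ^ (q - 1)) := by
  have h1 : tw3Y κ T y (Mi i M) s ≤ ∑ n ∈ Finset.range (Mi i M + 1),
      ∫⁻ u in tw3D y (Mi i M) n, Cg κ 0 T y (Mi i M) (s + u) := by
    unfold tw3Y
    refine (lintegral_mono_set (tw3D_cover (Mi i M) hy)).trans ?_
    exact q3_lint_biUnion _ _ _
  have h2 : tw3Y κ T y (Mi i M) s ^ (q - 1) ≤ ∑ n ∈ Finset.range (Mi i M + 1),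
      (∫⁻ u in tw3D y (Mi i M) n, Cg κ 0 T y (Mi i M) (s + u)) ^ (q - 1) :=
    (ENNReal.rpow_le_rpow h1 (by linarith)).trans (q3_rpow_sum _ _ (by linarith) (by linarith))
  refine (mul_le_mul_right h2 _).trans ?_
  rw [Finset.mul_sum]
  refine Finset.sum_le_sum fun n hn => ?_
  exact tw3_annulus hq1 hq2 hC (hpt n (by rw [Finset.mem_range] at hn; omega)) s

/-! ### the main bound -/

theorem tw3_shift (κ T : ℝ) (y N : ℕ) (t x : ℝ) :
    ∫⁻ x' in Icc (0:ℝ) 1 ∩ {x' | |x' - x| < 1 / Real.log y}, Cg κ 0 T y N (t + x') ≤ tw3Y κ T y N (t + x) := by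
  unfold tw3Y
  have hm : MeasurableSet {x' : ℝ | |x' - x| < 1 / Real.log y} := measurableSet_lt (by fun_prop) measurable_const
  rw [← lintegral_indicator (measurableSet_Icc.inter hm), ← lintegral_indicator (tw3_near_meas y),
    ← lintegral_add_left_eq_self _ x]
  refine lintegral_mono fun u => ?_
  by_cases hu : x + u ∈ Icc (0:ℝ) 1 ∩ {x' | |x' - x| < 1 / Real.log y}
  · have hu' : u ∈ {u : ℝ | |u| < 1 / Real.log y} := by
      have := hu.2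
      simpa using this
    rw [indicator_of_mem hu, indicator_of_mem hu', add_assoc]
  · rw [indicator_of_notMem hu]
    exact zero_le

theorem tw3_first {κ q T Bf Bh : ℝ} {y M i : ℕ} (hT : 1 ≤ T) (hq1 : 1 < q) {h : (ℕ → ℂ) → ℝ} {f : ℝ → ℝ}
    (hBf0 : 0 ≤ Bf) (hBf : ∀ x ∈ Icc (0:ℝ) 1, f x ≤ Bf) (hBh0 : 0 ≤ Bh) (hBh : ∀ X, (∀ p, ‖X p‖ = 1) → h X ≤ Bh) :
    ∫⁻ t, (∫⁻ x in Icc (0:ℝ) 1, Cg κ i T y M (t + x) * ENNReal.ofReal (f x) *
      (∫⁻ x' in Icc (0:ℝ) 1 ∩ {x' | |x' - x| < 1 / Real.log y}, Cg κ 0 T y (Mi i M) (t + x') * ENNReal.ofReal (f x')) ^ (q - 1)) *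
        ENNReal.ofReal (h (Xp t)) ∂mu T ≤
      ENNReal.ofReal (3 * (Bf ^ q * Bh)) * ∫⁻ s, Cg κ i T y M s * tw3Y κ T y (Mi i M) s ^ (q - 1) ∂mu T := by
  have : IsProbabilityMeasure (mu T) := mu_prob (by linarith)
  have hθ : 0 < q - 1 := by linarith
  set H : ℝ → ℝ≥0∞ := fun s => Cg κ i T y M s * tw3Y κ T y (Mi i M) s ^ (q - 1) with hH
  have hHm : Measurable H := (tw3_Cg_meas κ i T y M).mul ((tw3Y_meas κ T y (Mi i M)).pow_const _)
  have hHt : ∀ t, Measurable fun x => H (t + x) := fun t => hHm.comp (by fun_prop)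
  have hmn : ∀ x : ℝ, MeasurableSet (Icc (0:ℝ) 1 ∩ {x' | |x' - x| < 1 / Real.log y}) := fun x =>
    measurableSet_Icc.inter (measurableSet_lt (by fun_prop) measurable_const)
  have h1 : ∀ t, (∫⁻ x in Icc (0:ℝ) 1, Cg κ i T y M (t + x) * ENNReal.ofReal (f x) *
      (∫⁻ x' in Icc (0:ℝ) 1 ∩ {x' | |x' - x| < 1 / Real.log y}, Cg κ 0 T y (Mi i M) (t + x') * ENNReal.ofReal (f x')) ^ (q - 1)) *
        ENNReal.ofReal (h (Xp t)) ≤ ENNReal.ofReal (Bf ^ q * Bh) * ∫⁻ x in Icc (0:ℝ) 1, H (t + x) := by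
    intro t
    have e0 : ENNReal.ofReal (Bf ^ q * Bh) = ENNReal.ofReal Bf ^ q * ENNReal.ofReal Bh := by
      rw [ENNReal.ofReal_mul (Real.rpow_nonneg hBf0 _), ← ENNReal.ofReal_rpow_of_nonneg hBf0 (by linarith)]
    have e1 : ENNReal.ofReal Bf ^ q * ENNReal.ofReal Bh * ∫⁻ x in Icc (0:ℝ) 1, H (t + x) =
        (∫⁻ x in Icc (0:ℝ) 1, ENNReal.ofReal Bf ^ q * H (t + x)) * ENNReal.ofReal Bh := by
      rw [lintegral_const_mul _ (hHt t)]
      ring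
    rw [e0, e1]
    refine mul_le_mul' ?_ (ENNReal.ofReal_le_ofReal (hBh _ (norm_Xp t)))
    refine setLIntegral_mono' measurableSet_Icc fun x hx => ?_
    have hcm : Measurable fun x' : ℝ => Cg κ 0 T y (Mi i M) (t + x') :=
      (tw3_Cg_meas κ 0 T y (Mi i M)).comp (measurable_const_add t)
    have i1 : ∫⁻ x' in Icc (0:ℝ) 1 ∩ {x' | |x' - x| < 1 / Real.log y}, Cg κ 0 T y (Mi i M) (t + x') * ENNReal.ofReal (f x') ≤
        tw3Y κ T y (Mi i M) (t + x) * ENNReal.ofReal Bf := by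
      calc _ ≤ ∫⁻ x' in Icc (0:ℝ) 1 ∩ {x' | |x' - x| < 1 / Real.log y}, Cg κ 0 T y (Mi i M) (t + x') * ENNReal.ofReal Bf := by
            refine setLIntegral_mono' (hmn x) fun x' hx' => ?_
            exact mul_le_mul_right (ENNReal.ofReal_le_ofReal (hBf x' hx'.1)) _
        _ = (∫⁻ x' in Icc (0:ℝ) 1 ∩ {x' | |x' - x| < 1 / Real.log y}, Cg κ 0 T y (Mi i M) (t + x')) * ENNReal.ofReal Bf :=
            lintegral_mul_const _ hcm
        _ ≤ _ := mul_le_mul_left (tw3_shift κ T y (Mi i M) t x) _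
    calc Cg κ i T y M (t + x) * ENNReal.ofReal (f x) *
          (∫⁻ x' in Icc (0:ℝ) 1 ∩ {x' | |x' - x| < 1 / Real.log y}, Cg κ 0 T y (Mi i M) (t + x') * ENNReal.ofReal (f x')) ^ (q - 1)
        ≤ Cg κ i T y M (t + x) * ENNReal.ofReal Bf * (tw3Y κ T y (Mi i M) (t + x) * ENNReal.ofReal Bf) ^ (q - 1) := by
          refine mul_le_mul' (mul_le_mul_right (ENNReal.ofReal_le_ofReal (hBf x hx)) _) ?_
          exact ENNReal.rpow_le_rpow i1 hθ.le
      _ = ENNReal.ofReal Bf ^ q * H (t + x) := by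
          rw [ENNReal.mul_rpow_of_nonneg _ _ hθ.le, hH]
          have e2 : ENNReal.ofReal Bf ^ q = ENNReal.ofReal Bf * ENNReal.ofReal Bf ^ (q - 1) := by
            nth_rewrite 2 [← ENNReal.rpow_one (ENNReal.ofReal Bf)]
            rw [← ENNReal.rpow_add_of_nonneg _ _ zero_le_one hθ.le]
            congr 1
            ring
          rw [e2]
          ring
  have hHm2 : Measurable (fun z : ℝ × ℝ => H (z.1 + z.2)) := hHm.comp (by fun_prop)
  have hm3 : Measurable fun t => ∫⁻ x in Icc (0:ℝ) 1, H (t + x) := hHm2.lintegral_prod_right'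
  refine (lintegral_mono h1).trans ?_
  calc ∫⁻ t, ENNReal.ofReal (Bf ^ q * Bh) * (∫⁻ x in Icc (0:ℝ) 1, H (t + x)) ∂mu T
      = ENNReal.ofReal (Bf ^ q * Bh) * ∫⁻ t, (∫⁻ x in Icc (0:ℝ) 1, H (t + x)) ∂mu T := lintegral_const_mul _ hm3
    _ = ENNReal.ofReal (Bf ^ q * Bh) * ∫⁻ x in Icc (0:ℝ) 1, ∫⁻ t, H (t + x) ∂mu T := by
      rw [lintegral_lintegral_swap (μ := mu T) (ν := volume.restrict (Icc (0:ℝ) 1))
        (f := fun t x => H (t + x)) hHm2.aemeasurable]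
    _ ≤ ENNReal.ofReal (Bf ^ q * Bh) * ∫⁻ x in Icc (0:ℝ) 1, 3 * ∫⁻ t, H t ∂mu T :=
      mul_le_mul_right (setLIntegral_mono' measurableSet_Icc fun x hx => mu_shift hT hx.1 hx.2 hHm) _
    _ = ENNReal.ofReal (Bf ^ q * Bh) * (3 * ∫⁻ t, H t ∂mu T) := by
      rw [setLIntegral_const, Real.volume_Icc]
      simp
    _ = ENNReal.ofReal (3 * (Bf ^ q * Bh)) * ∫⁻ t, H t ∂mu T := by
      rw [ENNReal.ofReal_mul (by norm_num : (0:ℝ) ≤ 3), ENNReal.ofReal_ofNat]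
      ring

theorem tw3_term {κ q T C B1 B2 : ℝ} {y M i n : ℕ} (hT : 0 < T) (hq1 : 1 < q) (hq2 : q < 2) (hy : 1 ≤ Real.log y)
    (hC : 0 ≤ C) (hB1 : 0 ≤ B1) (hB2 : 0 ≤ B2)
    (h1 : ∫⁻ s, ENNReal.ofReal (tw3S1 κ q (ai i) y (Xp s) * Wi i T y M (c1 κ q (ai i) y n) s) ∂mu T ≤ ENNReal.ofReal B1)
    (h2 : ∀ u ∈ tw3D y (Mi i M) n,
      ∫⁻ s, ENNReal.ofReal (tw3S2 κ q (ai i) y u (Xp s) * Wi i T y M (c2 κ q (ai i) y n u) s) ∂mu T ≤ ENNReal.ofReal B2) :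
    ∫⁻ s, ENNReal.ofReal C * (ENNReal.ofReal (tw3S1 κ q (ai i) y (Xp s) * Wi i T y M (c1 κ q (ai i) y n) s) ^ (2 - q) *
        (∫⁻ u in tw3D y (Mi i M) n, ENNReal.ofReal (tw3S2 κ q (ai i) y u (Xp s) * Wi i T y M (c2 κ q (ai i) y n u) s)) ^ (q - 1)) ∂mu T ≤
      ENNReal.ofReal (C * (B1 ^ (2 - q) * (B2 * (Real.log y)⁻¹ * (4 / 2 ^ n)) ^ (q - 1))) := by
  have : IsProbabilityMeasure (mu T) := mu_prob hT
  have m1 : Measurable fun s => ENNReal.ofReal (tw3S1 κ q (ai i) y (Xp s) * Wi i T y M (c1 κ q (ai i) y n) s) :=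
    ((tw3_S1_cont1 κ q (ai i) y).mul (tw3_Wi_cont i T y M (c := fun _ => c1 κ q (ai i) y n) (σ := fun s => s)
      (fun _ => continuous_const) continuous_id)).measurable.ennreal_ofReal
  have m2 : Measurable fun z : ℝ × ℝ => ENNReal.ofReal (tw3S2 κ q (ai i) y z.2 (Xp z.1) * Wi i T y M (c2 κ q (ai i) y n z.2) z.1) :=
    ((tw3_S2_cont2 κ q (ai i) y).mul (tw3_Wi_cont i T y M (c := fun z : ℝ × ℝ => c2 κ q (ai i) y n z.2) (σ := fun z => z.1)
      (fun p => (q3_c2_cont κ q (ai i) y n p).comp continuous_snd)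
      continuous_fst)).measurable.ennreal_ofReal
  have m3 : Measurable fun s => ∫⁻ u in tw3D y (Mi i M) n,
      ENNReal.ofReal (tw3S2 κ q (ai i) y u (Xp s) * Wi i T y M (c2 κ q (ai i) y n u) s) := m2.lintegral_prod_right'
  have m4 : Measurable fun s => ENNReal.ofReal (tw3S1 κ q (ai i) y (Xp s) * Wi i T y M (c1 κ q (ai i) y n) s) ^ (2 - q) *
      (∫⁻ u in tw3D y (Mi i M) n, ENNReal.ofReal (tw3S2 κ q (ai i) y u (Xp s) * Wi i T y M (c2 κ q (ai i) y n u) s)) ^ (q - 1) :=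
    (m1.pow_const _).mul (m3.pow_const _)
  rw [lintegral_const_mul _ m4, ENNReal.ofReal_mul hC]
  refine mul_le_mul_right ?_ _
  refine (ENNReal.lintegral_mul_norm_pow_le m1.aemeasurable m3.aemeasurable (by linarith)
    (by linarith) (by ring)).trans ?_
  have h3 : ∫⁻ s, (∫⁻ u in tw3D y (Mi i M) n,
      ENNReal.ofReal (tw3S2 κ q (ai i) y u (Xp s) * Wi i T y M (c2 κ q (ai i) y n u) s)) ∂mu T ≤
      ENNReal.ofReal (B2 * (Real.log y)⁻¹ * (4 / 2 ^ n)) := by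
    rw [lintegral_lintegral_swap (μ := mu T) (ν := volume.restrict (tw3D y (Mi i M) n))
      (f := fun s u => ENNReal.ofReal (tw3S2 κ q (ai i) y u (Xp s) * Wi i T y M (c2 κ q (ai i) y n u) s)) m2.aemeasurable]
    calc ∫⁻ u in tw3D y (Mi i M) n, ∫⁻ s, ENNReal.ofReal (tw3S2 κ q (ai i) y u (Xp s) * Wi i T y M (c2 κ q (ai i) y n u) s) ∂mu T
        ≤ ∫⁻ u in tw3D y (Mi i M) n, ENNReal.ofReal B2 := setLIntegral_mono' (tw3D_meas y (Mi i M) n) h2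
      _ = ENNReal.ofReal B2 * volume (tw3D y (Mi i M) n) := setLIntegral_const _ _
      _ ≤ ENNReal.ofReal B2 * ENNReal.ofReal ((Real.log y)⁻¹ * (4 / 2 ^ n)) := mul_le_mul_right (tw3D_vol hy (Mi i M) n) _
      _ = ENNReal.ofReal (B2 * (Real.log y)⁻¹ * (4 / 2 ^ n)) := by rw [← ENNReal.ofReal_mul hB2, mul_assoc]
  have hl : 0 ≤ (Real.log y)⁻¹ := by
    have : 0 < Real.log y := by linarith
    positivity
  have h4 : (0 : ℝ) ≤ B2 * (Real.log y)⁻¹ * (4 / 2 ^ n) := by positivity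
  rw [ENNReal.ofReal_mul (by positivity), ← ENNReal.ofReal_rpow_of_nonneg hB1 (by linarith),
    ← ENNReal.ofReal_rpow_of_nonneg h4 (by linarith)]
  exact mul_le_mul' (ENNReal.rpow_le_rpow h1 (by linarith)) (ENNReal.rpow_le_rpow h3 (by linarith))

/-- the exponents -/
theorem tw3_exponents {κ q B l : ℝ} (hB : 0 < B) (hl : 0 < l) (a : ℝ) (n N : ℕ) :
    (B * (2 : ℝ) ^ ((n : ℝ) * ((κ * q) ^ 2 - a) + ((N : ℝ) - n) * (κ ^ 2 - a))) ^ (2 - q) *
      ((B * (2 : ℝ) ^ ((n : ℝ) * ((κ * q) ^ 2 - a) + ((N : ℝ) - n) * (2 * κ ^ 2 - a))) * l⁻¹ *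
        (4 / 2 ^ n)) ^ (q - 1) =
      B * l ^ (-(q - 1)) * 4 ^ (q - 1) * (2 : ℝ) ^ ((N : ℝ) * (κ ^ 2 * q - a)) *
        ((2 : ℝ) ^ ((q - 1) * (κ ^ 2 * q - 1))) ^ n := by
  have e1 : (4 : ℝ) / 2 ^ n = 4 * 2 ^ (-(n : ℝ)) := by
    rw [Real.rpow_neg two_pos.le, Real.rpow_natCast]
    rfl
  rw [e1]
  have p2 : ∀ x : ℝ, (0 : ℝ) < 2 ^ x := fun x => Real.rpow_pos_of_pos two_pos x
  have hli : 0 < l⁻¹ := inv_pos.2 hl
  rw [Real.mul_rpow hB.le (p2 _).le, Real.mul_rpow (by positivity) (by positivity), Real.mul_rpow (by positivity) hli.le,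
    Real.mul_rpow hB.le (p2 _).le, Real.mul_rpow (by norm_num) (p2 _).le, ← Real.rpow_mul two_pos.le, ← Real.rpow_mul two_pos.le,
    ← Real.rpow_mul two_pos.le, ← Real.rpow_natCast _ n, ← Real.rpow_mul two_pos.le]
  have e3 : B ^ (2 - q) * B ^ (q - 1) = B := by
    rw [← Real.rpow_add hB]
    have : 2 - q + (q - 1) = 1 := by ring
    rw [this, Real.rpow_one]
  have e5 : l⁻¹ ^ (q - 1) = l ^ (-(q - 1)) := by
    rw [Real.rpow_neg hl.le, Real.inv_rpow hl.le]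
  have e4 : (2 : ℝ) ^ (((n : ℝ) * ((κ * q) ^ 2 - a) + ((N : ℝ) - n) * (κ ^ 2 - a)) * (2 - q)) *
      2 ^ (((n : ℝ) * ((κ * q) ^ 2 - a) + ((N : ℝ) - n) * (2 * κ ^ 2 - a)) * (q - 1)) *
      2 ^ (-(n : ℝ) * (q - 1)) =
      2 ^ ((N : ℝ) * (κ ^ 2 * q - a)) * 2 ^ ((q - 1) * (κ ^ 2 * q - 1) * n) := by
    rw [← Real.rpow_add two_pos, ← Real.rpow_add two_pos, ← Real.rpow_add two_pos]
    congr 1
    ring
  rw [e5]
  calc _ = (B ^ (2 - q) * B ^ (q - 1)) * l ^ (-(q - 1)) * 4 ^ (q - 1) *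
          (2 ^ (((n : ℝ) * ((κ * q) ^ 2 - a) + ((N : ℝ) - n) * (κ ^ 2 - a)) * (2 - q)) *
            2 ^ (((n : ℝ) * ((κ * q) ^ 2 - a) + ((N : ℝ) - n) * (2 * κ ^ 2 - a)) * (q - 1)) *
            2 ^ (-(n : ℝ) * (q - 1))) := by ring
    _ = _ := by
      rw [e3, e4]
      ring

theorem near (κ q : ℝ) (h0 : 0 < κ) (h1 : κ < 1) (hq1 : 1 < q) (hq2 : q < 2) (hκq : κ * q < 1) :
    ∃ (C : ℝ) (y0 : ℕ) (δ : ℝ), 0 < C ∧ 100 ≤ y0 ∧ 0 < δ ∧ δ ≤ 1/2 ∧ ∀ y : ℕ, y0 ≤ y →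
    ∃ T0 : ℝ, 3 ≤ T0 ∧ ∀ T : ℝ, T0 ≤ T → ∀ M i : ℕ, i ≤ 2 → (i = 2 → 1 ≤ M) → 2 ^ M * Real.log y ≤ δ * Real.log T →
    ∀ h : (ℕ → ℂ) → ℝ, ContinuousOn h {X | ∀ p, ‖X p‖ = 1} → (∀ X, (∀ p, ‖X p‖ = 1) → 0 ≤ h X) →
    ∀ f : ℝ → ℝ, Continuous f → (∀ x, 0 < f x) → ∀ Bf Bh : ℝ, (∀ x ∈ Icc (0:ℝ) 1, f x ≤ Bf) → (∀ X, (∀ p, ‖X p‖ = 1) → h X ≤ Bh) →
    ∫⁻ t, (∫⁻ x in Icc (0:ℝ) 1, Cg κ i T y M (t + x) * ENNReal.ofReal (f x) *
      (∫⁻ x' in Icc (0:ℝ) 1 ∩ {x' | |x' - x| < 1 / Real.log y}, Cg κ 0 T y (Mi i M) (t + x') * ENNReal.ofReal (f x')) ^ (q - 1)) *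
        ENNReal.ofReal (h (Xp t)) ∂mu T ≤
    ENNReal.ofReal (C * (Real.log T / Real.log y) ^ (ai i) * (2 : ℝ) ^ ((Mi i M : ℝ) * (κ ^ 2 * q - ai i)) * gi i T y M *
      (Bf ^ q * Bh * Real.log y ^ ((κ * q) ^ 2 - (q - 1)))) := by
  obtain ⟨C1, y1, δ1, hC1, hy1, hδ1, hδ1', H1⟩ := tw3_means κ q h0 h1 hq1 hκq
  obtain ⟨C3, δ3, hC3, hδ3, hδ3', H3⟩ := pt_two κ q h0 h1 hq1 hq2 hκq
  set ρ : ℝ := (2 : ℝ) ^ ((q - 1) * (κ ^ 2 * q - 1)) with hρ
  have hρ0 : 0 < ρ := Real.rpow_pos_of_pos two_pos _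
  have hκ2 : κ ^ 2 * q < 1 := by nlinarith
  have hρ1 : ρ < 1 := Real.rpow_lt_one_of_one_lt_of_neg one_lt_two (by nlinarith)
  have hρ2 : 0 < 1 - ρ := by linarith
  refine ⟨3 * (C3 * (C1 * 4 ^ (q - 1) * (1 - ρ)⁻¹)), y1, min δ1 δ3, by positivity, hy1, lt_min hδ1 hδ3,
    (min_le_left _ _).trans hδ1', fun y hy => ?_⟩
  obtain ⟨T1, hT1, G1⟩ := H1 y hy
  refine ⟨T1, hT1, fun T hT M i hi hi2 hM h hh hh0 f hf hf0 Bf Bh hBf hBh => ?_⟩
  have hy100 : 100 ≤ y := hy1.trans hy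
  have hT3 : 3 ≤ T := hT1.trans hT
  have hlogT : 0 < Real.log T := Real.log_pos (by linarith)
  have hδT : ∀ δ', min δ1 δ3 ≤ δ' → 2 ^ M * Real.log y ≤ δ' * Real.log T :=
    fun δ' h => hM.trans (mul_le_mul_of_nonneg_right h hlogT.le)
  have hlogy : 1 ≤ Real.log y := by
    have h2 : (100 : ℝ) ≤ y := by exact_mod_cast hy100
    rw [Real.le_log_iff_exp_le (by linarith)]
    have := Real.exp_one_lt_d9
    linarith
  have hlogy0 : 0 < Real.log y := by linarith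
  have hBf0 : 0 < Bf := (hf0 0).trans_le (hBf 0 ⟨le_rfl, zero_le_one⟩)
  have hBh0 : 0 ≤ Bh := (hh0 (fun _ => 1) (fun _ => norm_one)).trans (hBh (fun _ => 1) (fun _ => norm_one))
  have hMi : Mi i M ≤ M := by
    unfold Mi
    split_ifs
    · omega
    · exact le_rfl
  have hMi2 : 2 ^ (Mi i M) * Real.log y ≤ δ3 * Real.log T := by
    refine le_trans ?_ (hδT δ3 (min_le_right _ _))
    refine mul_le_mul_of_nonneg_right ?_ hlogy0.le
    exact pow_le_pow_right₀ (by norm_num) hMi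
  set a : ℕ := ai i with ha
  set N : ℕ := Mi i M with hN
  set B : ℝ := C1 * Real.log T ^ a * Real.log y ^ ((κ * q) ^ 2 - (a : ℝ)) * gi i T y M with hB
  have hgi := tw3_gi_pos i T y M
  have hly : 0 < Real.log y ^ ((κ * q) ^ 2 - (a : ℝ)) := Real.rpow_pos_of_pos hlogy0 _
  have hB0 : 0 < B := by positivity
  refine (tw3_first (by linarith) hq1 hBf0.le hBf hBh0 hBh).trans ?_
  have hpw := tw3_pointwise (κ := κ) (q := q) (T := T) (C := C3) (y := y) (M := M) (i := i) hq1 hq2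
    (by linarith) hlogy (fun n hn s u hs hsu => H3 T y (Mi i M) hy100 hT3 hMi2 (ai i) n tw3_ai hn s u hs hsu)
  set E : ℝ := B * Real.log y ^ (-(q - 1)) * 4 ^ (q - 1) * (2 : ℝ) ^ ((N : ℝ) * (κ ^ 2 * q - a)) with hE
  have hE0 : 0 ≤ E := by
    have : 0 < Real.log y ^ (-(q - 1)) := Real.rpow_pos_of_pos hlogy0 _
    positivity
  have hb : ∀ n ∈ Finset.range (N + 1), ∫⁻ s, ENNReal.ofReal C3 *
      (ENNReal.ofReal (tw3S1 κ q (ai i) y (Xp s) * Wi i T y M (c1 κ q (ai i) y n) s) ^ (2 - q) *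
        (∫⁻ u in tw3D y (Mi i M) n,
          ENNReal.ofReal (tw3S2 κ q (ai i) y u (Xp s) * Wi i T y M (c2 κ q (ai i) y n u) s)) ^ (q - 1)) ∂mu T ≤
      ENNReal.ofReal (C3 * E * ρ ^ n) := by
    intro n hn
    have hn' : n ≤ Mi i M := by
      rw [Finset.mem_range] at hn
      omega
    have hg := G1 T hT M i hi hi2 (hδT δ1 (min_le_left _ _)) n hn'
    refine (tw3_term (by linarith) hq1 hq2 hlogy (by linarith) (by positivity) (by positivity)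
      hg.1 (fun u hu => hg.2 u hu.1 hu.2.2)).trans (le_of_eq ?_)
    rw [tw3_exponents hB0 hlogy0 (a : ℝ) n N, hE]
    congr 1
    ring
  have hmeas : ∀ n ∈ Finset.range (N + 1), Measurable fun s => ENNReal.ofReal C3 *
      (ENNReal.ofReal (tw3S1 κ q (ai i) y (Xp s) * Wi i T y M (c1 κ q (ai i) y n) s) ^ (2 - q) *
        (∫⁻ u in tw3D y (Mi i M) n,
          ENNReal.ofReal (tw3S2 κ q (ai i) y u (Xp s) * Wi i T y M (c2 κ q (ai i) y n u) s)) ^ (q - 1)) := by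
    intro n _
    have m1 : Measurable fun s => ENNReal.ofReal (tw3S1 κ q (ai i) y (Xp s) * Wi i T y M (c1 κ q (ai i) y n) s) :=
      ((tw3_S1_cont1 κ q (ai i) y).mul (tw3_Wi_cont i T y M (c := fun _ => c1 κ q (ai i) y n) (σ := fun s => s)
        (fun _ => continuous_const) continuous_id)).measurable.ennreal_ofReal
    have m2 : Measurable fun z : ℝ × ℝ => ENNReal.ofReal (tw3S2 κ q (ai i) y z.2 (Xp z.1) * Wi i T y M (c2 κ q (ai i) y n z.2) z.1) :=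
      ((tw3_S2_cont2 κ q (ai i) y).mul (tw3_Wi_cont i T y M (c := fun z : ℝ × ℝ => c2 κ q (ai i) y n z.2) (σ := fun z => z.1)
        (fun p => (q3_c2_cont κ q (ai i) y n p).comp continuous_snd)
        continuous_fst)).measurable.ennreal_ofReal
    have m3 : Measurable fun s => ∫⁻ u in tw3D y (Mi i M) n,
      ENNReal.ofReal (tw3S2 κ q (ai i) y u (Xp s) * Wi i T y M (c2 κ q (ai i) y n u) s) := m2.lintegral_prod_right'
    exact ((m1.pow_const _).mul (m3.pow_const _)).const_mul _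
  have hint : ∫⁻ s, Cg κ i T y M s * tw3Y κ T y (Mi i M) s ^ (q - 1) ∂mu T ≤
      ENNReal.ofReal (C3 * E * (1 - ρ)⁻¹) := by
    calc ∫⁻ s, Cg κ i T y M s * tw3Y κ T y (Mi i M) s ^ (q - 1) ∂mu T
        ≤ ∫⁻ s, ∑ n ∈ Finset.range (N + 1), ENNReal.ofReal C3 *
          (ENNReal.ofReal (tw3S1 κ q (ai i) y (Xp s) * Wi i T y M (c1 κ q (ai i) y n) s) ^ (2 - q) *
          (∫⁻ u in tw3D y (Mi i M) n,
            ENNReal.ofReal (tw3S2 κ q (ai i) y u (Xp s) * Wi i T y M (c2 κ q (ai i) y n u) s)) ^ (q - 1)) ∂mu T :=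
          lintegral_mono hpw
      _ = ∑ n ∈ Finset.range (N + 1), ∫⁻ s, ENNReal.ofReal C3 *
          (ENNReal.ofReal (tw3S1 κ q (ai i) y (Xp s) * Wi i T y M (c1 κ q (ai i) y n) s) ^ (2 - q) *
          (∫⁻ u in tw3D y (Mi i M) n,
            ENNReal.ofReal (tw3S2 κ q (ai i) y u (Xp s) * Wi i T y M (c2 κ q (ai i) y n u) s)) ^ (q - 1)) ∂mu T :=
          lintegral_finsetSum _ hmeas
      _ ≤ ∑ n ∈ Finset.range (N + 1), ENNReal.ofReal (C3 * E * ρ ^ n) := Finset.sum_le_sum hb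
      _ = ENNReal.ofReal (∑ n ∈ Finset.range (N + 1), C3 * E * ρ ^ n) :=
          (ENNReal.ofReal_sum_of_nonneg fun n _ => by positivity).symm
      _ ≤ ENNReal.ofReal (C3 * E * (1 - ρ)⁻¹) := by
          refine ENNReal.ofReal_le_ofReal ?_
          rw [← Finset.mul_sum]
          have hg : ∑ n ∈ Finset.range (N + 1), ρ ^ n ≤ (1 - ρ)⁻¹ := by
            have := Summable.sum_le_tsum (Finset.range (N + 1)) (fun n _ => (pow_pos hρ0 n).le)
              (summable_geometric_of_lt_one hρ0.le hρ1)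
            rwa [tsum_geometric_of_lt_one hρ0.le hρ1] at this
          exact mul_le_mul_of_nonneg_left hg (by positivity)
  refine (mul_le_mul_right hint _).trans (le_of_eq ?_)
  rw [← ENNReal.ofReal_mul (by positivity)]
  congr 1
  have e1 : Real.log y ^ ((κ * q) ^ 2 - (a : ℝ)) * Real.log y ^ (-(q - 1)) =
      Real.log y ^ ((κ * q) ^ 2 - (q - 1)) * (Real.log y ^ a)⁻¹ := by
    rw [← Real.rpow_natCast (Real.log y) a, ← Real.rpow_neg hlogy0.le, ← Real.rpow_add hlogy0, ← Real.rpow_add hlogy0]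
    congr 1
    ring
  have e2 : (Real.log T / Real.log y) ^ a = Real.log T ^ a * (Real.log y ^ a)⁻¹ := by
    rw [div_pow, div_eq_mul_inv]
  rw [e2, hE, hB]
  calc _ = 3 * (C3 * (C1 * 4 ^ (q - 1) * (1 - ρ)⁻¹)) * Real.log T ^ a * (2 : ℝ) ^ ((N : ℝ) * (κ ^ 2 * q - a)) * gi i T y M *
        (Bf ^ q * Bh) * (Real.log y ^ ((κ * q) ^ 2 - (a : ℝ)) * Real.log y ^ (-(q - 1))) := by ring
    _ = _ := by
      rw [e1]
      ring

end CZ
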