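import Pool.Agent.Lib.MP_9eae41_pr.TW3
import Pool.Agent.Lib.MP_9eae41_pr.Q4
import Pool.Agent.Lib.MP_9eae41_pr.RM1

set_option autoImplicit false

open Complex MeasureTheory Set Filter Topology
open scoped ComplexConjugate ENNReal

namespace CZ

/-! Row TW4 (350 lines): the twisted q-th moment. mixed_tw from far and near (subadditivity of the power q-1). For the first bad
block v (or the good set): f Z^(2k) <= C f (Cw i)^k (Cw 0)^(1-k) (pt_one with Mi blocks; W >= 1 on the bad set, so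
W^k >= 1), Hoelder in x, then E[X^(kq) Y^((1-k)q) h] <= (E X Y^(q-1) h)^(kq) (E Y^q h)^(1-kq); the gain is exp(-K_v k q);
sum_rpow_weight over v with weights (2^(v-J))^e and adm_bad; exists_J. -/

/-- the constant of the twisted moment -/
noncomputable def Rq (κ q : ℝ) (y : ℕ) (f : ℝ → ℝ) (h : (ℕ → ℂ) → ℝ) (Bf Bh : ℝ) : ℝ :=
  (∫ θ, Phi κ y f (Xt θ) ^ q * h (Xt θ) ∂PT) + Bf ^ q * Bh * Real.log y ^ ((κ * q) ^ 2 - (q - 1))

theorem tw4_Ps_cont (S : Finset ℕ) (c : ℕ → ℂ) : Continuous (fun s : ℝ => Ps S c (Xp s)) := by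
  unfold Ps
  refine continuous_finsetSum _ fun p _ => ?_
  exact (continuous_const.mul ((continuous_apply p).comp Xp_cont)).mul continuous_const

theorem tw4_Nn_cont (T : ℝ) (y n : ℕ) (c : ℕ → ℂ) : Continuous (fun s : ℝ => Nn T y n c (Xp s)) := by
  unfold Nn Ek
  refine continuous_finsetSum _ fun k _ => ?_
  exact ((tw4_Ps_cont _ _).pow k).div_const _

theorem tw4_Wt_cont (a : ℕ) (T : ℝ) (y M : ℕ) (c : ℕ → ℂ) : Continuous (fun s : ℝ => Wt a T y M c s) := by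
  unfold Wt
  exact (Z_cont.pow _).mul (continuous_finsetProd _ fun n _ => (tw4_Nn_cont T y n c).norm.pow 2)

theorem tw4_Wi_cont (i : ℕ) (T : ℝ) (y M : ℕ) (c : ℕ → ℂ) : Continuous (fun s : ℝ => Wi i T y M c s) := by
  unfold Wi
  refine (tw4_Wt_cont _ _ _ _ _).mul ?_
  split_ifs
  · exact ((continuous_const.mul (tw4_Ps_cont _ _)).pow _).norm.pow 2
  · exact continuous_const

theorem tw4_sm_cont (κ : ℝ) (y : ℕ) : Continuous (fun s : ℝ => sm κ y (Xp s)) :=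
  (sm_facts κ y).1.comp_continuous Xp_cont fun s p => norm_Xp s p

theorem tw4_Cw_cont (κ : ℝ) (i : ℕ) (T : ℝ) (y M : ℕ) : Continuous (fun s : ℝ => Cw κ i T y M s) := by
  unfold Cw
  exact (tw4_sm_cont _ _).mul (tw4_Wi_cont _ _ _ _ _)

theorem tw4_Wt_nonneg (a : ℕ) (T : ℝ) (y M : ℕ) (c : ℕ → ℂ) (s : ℝ) : 0 ≤ Wt a T y M c s := by
  unfold Wt Z
  positivity

theorem tw4_Cw_nonneg (κ : ℝ) (i : ℕ) (T : ℝ) (y M : ℕ) (s : ℝ) : 0 ≤ Cw κ i T y M s := by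
  unfold Cw Wi
  refine mul_nonneg ((sm_facts _ y).2.1 _ fun p => norm_Xp s p).le (mul_nonneg (tw4_Wt_nonneg _ _ _ _ _ _) ?_)
  split_ifs <;> positivity

theorem tw4_Good_meas (T : ℝ) (y M : ℕ) : MeasurableSet {s | Good T y M s} := by
  have h : {s | Good T y M s} = ⋂ n ∈ Finset.Icc 1 M,
      {s | ‖Ps (blk y n) (fun _ => 1) (Xp s)‖ ≤ KT T y n / 100} := by
    ext s
    rw [Set.mem_iInter₂]
    rfl
  rw [h]
  exact (isClosed_biInter fun n _ => isClosed_le (tw4_Ps_cont _ _).norm continuous_const).measurableSet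

theorem tw4_Cg_meas (κ : ℝ) (i : ℕ) (T : ℝ) (y M : ℕ) : Measurable (Cg κ i T y M) := by
  unfold Cg
  exact (ENNReal.measurable_ofReal.comp (tw4_Cw_cont κ i T y M).measurable).indicator (tw4_Good_meas _ _ _)

theorem tw4_Cg_good (κ : ℝ) (i : ℕ) (T : ℝ) (y M : ℕ) {s : ℝ} (hs : Good T y (Mi i M) s) :
    Cg κ i T y M s = ENNReal.ofReal (Cw κ i T y M s) := by
  unfold Cg
  exact Set.indicator_of_mem hs _

theorem tw4_conv_meas {A g : ℝ → ℝ≥0∞} (hA : Measurable A) (hg : Measurable g) :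
    Measurable (fun t : ℝ => ∫⁻ x in Icc (0:ℝ) 1, A (t + x) * g x) := by
  have h : Measurable (fun z : ℝ × ℝ => A (z.1 + z.2) * g z.2) :=
    (hA.comp (measurable_fst.add measurable_snd)).mul (hg.comp measurable_snd)
  exact h.lintegral_prod_right'

theorem tw4_far_meas {B g : ℝ → ℝ≥0∞} (hB : Measurable B) (hg : Measurable g) {E : Set (ℝ × ℝ)}
    (hE : MeasurableSet E) :
    Measurable (fun z : ℝ × ℝ => ∫⁻ x' in Icc (0:ℝ) 1 ∩ {x' | (z.2, x') ∈ E}, B (z.1 + x') * g x') := by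
  have h1 : ∀ z : ℝ × ℝ, ∫⁻ x' in Icc (0:ℝ) 1 ∩ {x' | (z.2, x') ∈ E}, B (z.1 + x') * g x' =
      ∫⁻ x' in Icc (0:ℝ) 1, {w : (ℝ × ℝ) × ℝ | (w.1.2, w.2) ∈ E}.indicator
        (fun w => B (w.1.1 + w.2) * g w.2) (z, x') := by
    intro z
    have hz : MeasurableSet {x' : ℝ | (z.2, x') ∈ E} := measurable_prodMk_left hE
    rw [Set.inter_comm, ← setLIntegral_indicator hz]
    rfl
  simp_rw [h1]
  have h2 : MeasurableSet {w : (ℝ × ℝ) × ℝ | (w.1.2, w.2) ∈ E} :=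
    ((measurable_snd.comp measurable_fst).prodMk measurable_snd) hE
  have h3 : Measurable (fun w : (ℝ × ℝ) × ℝ => B (w.1.1 + w.2) * g w.2) :=
    (hB.comp ((measurable_fst.comp measurable_fst).add measurable_snd)).mul (hg.comp measurable_snd)
  exact (h3.indicator h2).lintegral_prod_right'

theorem tw4_split (ν : Measure ℝ) {A B g H : ℝ → ℝ≥0∞} (hA : Measurable A) (hB : Measurable B)
    (hg : Measurable g) (hH : Measurable H) {r : ℝ} (hr0 : 0 < r) (hr1 : r ≤ 1) (ρ : ℝ) :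
    ∫⁻ t, (∫⁻ x in Icc (0:ℝ) 1, A (t + x) * g x) * (∫⁻ x in Icc (0:ℝ) 1, B (t + x) * g x) ^ r * H t ∂ν ≤
    (∫⁻ t, (∫⁻ x in Icc (0:ℝ) 1, A (t + x) * g x *
      (∫⁻ x' in Icc (0:ℝ) 1 ∩ {x' | ρ ≤ |x' - x|}, B (t + x') * g x') ^ r) * H t ∂ν) +
    (∫⁻ t, (∫⁻ x in Icc (0:ℝ) 1, A (t + x) * g x *
      (∫⁻ x' in Icc (0:ℝ) 1 ∩ {x' | |x' - x| < ρ}, B (t + x') * g x') ^ r) * H t ∂ν) := by
  have hE1 : MeasurableSet {z : ℝ × ℝ | ρ ≤ |z.2 - z.1|} :=
    (isClosed_le continuous_const (continuous_snd.sub continuous_fst).abs).measurableSet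
  have hE2 : MeasurableSet {z : ℝ × ℝ | |z.2 - z.1| < ρ} :=
    (isOpen_lt (continuous_snd.sub continuous_fst).abs continuous_const).measurableSet
  have m1 : Measurable (fun z : ℝ × ℝ =>
      ∫⁻ x' in Icc (0:ℝ) 1 ∩ {x' | ρ ≤ |x' - z.2|}, B (z.1 + x') * g x') := tw4_far_meas hB hg hE1
  have m2 : Measurable (fun z : ℝ × ℝ =>
      ∫⁻ x' in Icc (0:ℝ) 1 ∩ {x' | |x' - z.2| < ρ}, B (z.1 + x') * g x') := tw4_far_meas hB hg hE2
  have mA : Measurable (fun z : ℝ × ℝ => A (z.1 + z.2) * g z.2) :=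
    (hA.comp (measurable_fst.add measurable_snd)).mul (hg.comp measurable_snd)
  have n1 : Measurable (fun z : ℝ × ℝ => A (z.1 + z.2) * g z.2 *
      (∫⁻ x' in Icc (0:ℝ) 1 ∩ {x' | ρ ≤ |x' - z.2|}, B (z.1 + x') * g x') ^ r) :=
    mA.mul (m1.pow_const r)
  have n2 : Measurable (fun z : ℝ × ℝ => A (z.1 + z.2) * g z.2 *
      (∫⁻ x' in Icc (0:ℝ) 1 ∩ {x' | |x' - z.2| < ρ}, B (z.1 + x') * g x') ^ r) :=
    mA.mul (m2.pow_const r)
  have hV : ∀ t x : ℝ, (∫⁻ x in Icc (0:ℝ) 1, B (t + x) * g x) ^ r ≤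
      (∫⁻ x' in Icc (0:ℝ) 1 ∩ {x' | ρ ≤ |x' - x|}, B (t + x') * g x') ^ r +
      (∫⁻ x' in Icc (0:ℝ) 1 ∩ {x' | |x' - x| < ρ}, B (t + x') * g x') ^ r := by
    intro t x
    refine le_trans (ENNReal.rpow_le_rpow ?_ hr0.le) (ENNReal.rpow_add_le_add_rpow _ _ hr0.le hr1)
    have hu : Icc (0:ℝ) 1 = (Icc (0:ℝ) 1 ∩ {x' | ρ ≤ |x' - x|}) ∪ (Icc (0:ℝ) 1 ∩ {x' | |x' - x| < ρ}) := by
      rw [← Set.inter_union_distrib_left]
      ext z
      simp only [mem_inter_iff, mem_union, mem_ofPred_eq]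
      constructor
      · intro hz
        exact ⟨hz, le_or_gt _ _⟩
      · intro hz
        exact hz.1
    calc ∫⁻ x in Icc (0:ℝ) 1, B (t + x) * g x =
        ∫⁻ x in (Icc (0:ℝ) 1 ∩ {x' | ρ ≤ |x' - x|}) ∪ (Icc (0:ℝ) 1 ∩ {x' | |x' - x| < ρ}),
          B (t + x) * g x := by rw [← hu]
      _ ≤ _ := lintegral_union_le _ _ _
  have hpt : ∀ t : ℝ, (∫⁻ x in Icc (0:ℝ) 1, A (t + x) * g x) * (∫⁻ x in Icc (0:ℝ) 1, B (t + x) * g x) ^ r ≤
      (∫⁻ x in Icc (0:ℝ) 1, A (t + x) * g x *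
        (∫⁻ x' in Icc (0:ℝ) 1 ∩ {x' | ρ ≤ |x' - x|}, B (t + x') * g x') ^ r) +
      (∫⁻ x in Icc (0:ℝ) 1, A (t + x) * g x *
        (∫⁻ x' in Icc (0:ℝ) 1 ∩ {x' | |x' - x| < ρ}, B (t + x') * g x') ^ r) := by
    intro t
    have k1 : Measurable (fun x : ℝ => A (t + x) * g x) := mA.comp measurable_prodMk_left
    have k2 : Measurable (fun x : ℝ => A (t + x) * g x *
        (∫⁻ x' in Icc (0:ℝ) 1 ∩ {x' | ρ ≤ |x' - x|}, B (t + x') * g x') ^ r) :=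
      n1.comp measurable_prodMk_left
    rw [← lintegral_mul_const _ k1, ← lintegral_add_left k2]
    refine lintegral_mono fun x => ?_
    rw [← mul_add]
    exact mul_le_mul_right (hV t x) _
  have p1 : Measurable (fun t : ℝ => (∫⁻ x in Icc (0:ℝ) 1, A (t + x) * g x *
      (∫⁻ x' in Icc (0:ℝ) 1 ∩ {x' | ρ ≤ |x' - x|}, B (t + x') * g x') ^ r) * H t) :=
    (n1.lintegral_prod_right').mul hH
  rw [← lintegral_add_left p1]
  refine lintegral_mono fun t => ?_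
  rw [← add_mul]
  exact mul_le_mul_left (hpt t) _

theorem tw4_holder (ν : Measure ℝ) {U V H : ℝ → ℝ≥0∞} (hU : Measurable U) (hV : Measurable V)
    (hH : Measurable H) {κ q : ℝ} (h0 : 0 < κ) (h1 : κ < 1) (hq1 : 1 < q) (hκq : κ * q < 1) :
    ∫⁻ t, (U t ^ κ * V t ^ (1 - κ)) ^ q * H t ∂ν ≤
      (∫⁻ t, U t * V t ^ (q - 1) * H t ∂ν) ^ (κ * q) * (∫⁻ t, V t * V t ^ (q - 1) * H t ∂ν) ^ (1 - κ * q) := by
  have hq0 : 0 < q := by linarith
  have ha : 0 < κ * q := by positivity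
  have hb : 0 < 1 - κ * q := by linarith
  have hpt : ∀ t, (U t ^ κ * V t ^ (1 - κ)) ^ q * H t =
      (U t * V t ^ (q - 1) * H t) ^ (κ * q) * (V t * V t ^ (q - 1) * H t) ^ (1 - κ * q) := by
    intro t
    have e1 : V t * V t ^ (q - 1) = V t ^ q := by
      nth_rewrite 1 [← ENNReal.rpow_one (V t)]
      rw [← ENNReal.rpow_add_of_nonneg _ _ zero_le_one (by linarith)]
      congr 1
      ring
    rw [e1, ENNReal.mul_rpow_of_nonneg _ _ hq0.le, ← ENNReal.rpow_mul, ← ENNReal.rpow_mul,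
      ENNReal.mul_rpow_of_nonneg _ _ ha.le, ENNReal.mul_rpow_of_nonneg _ _ ha.le,
      ENNReal.mul_rpow_of_nonneg _ _ hb.le, ← ENNReal.rpow_mul, ← ENNReal.rpow_mul]
    have e2 : V t ^ ((1 - κ) * q) = V t ^ ((q - 1) * (κ * q)) * V t ^ (q * (1 - κ * q)) := by
      rw [← ENNReal.rpow_add_of_nonneg _ _ (mul_nonneg (by linarith) ha.le) (mul_nonneg hq0.le hb.le)]
      congr 1
      ring
    have e3 : H t = H t ^ (κ * q) * H t ^ (1 - κ * q) := by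
      rw [← ENNReal.rpow_add_of_nonneg _ _ ha.le hb.le]
      rw [show κ * q + (1 - κ * q) = 1 by ring, ENNReal.rpow_one]
    rw [e2]
    nth_rewrite 1 [e3]
    ring
  simp_rw [hpt]
  exact holder2 ((hU.mul (hV.pow_const _)).mul hH).aemeasurable
    ((hV.mul (hV.pow_const _)).mul hH).aemeasurable ha hb (by ring)


theorem tw4_Mi0 (N : ℕ) : Mi 0 N = N := by
  unfold Mi
  rw [if_neg (by norm_num)]

theorem tw4_B {T : ℝ} {y M i : ℕ} {s : ℝ}
    (hb : i = 2 → (KT T y M : ℝ) / 100 < ‖Ps (blk y M) (fun _ => 1) (Xp s)‖) :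
    1 ≤ (if i = 2 then ‖(((100 / KT T y M : ℝ) : ℂ) * Ps (blk y M) (fun _ => 1) (Xp s)) ^ (KT T y M)‖ ^ 2
      else (1 : ℝ)) := by
  split_ifs with hi
  · have h1 := hb hi
    rw [norm_pow, ← pow_mul]
    rcases Nat.eq_zero_or_pos (KT T y M) with hK | hK
    · rw [hK]
      simp
    · have hK' : (0 : ℝ) < KT T y M := by exact_mod_cast hK
      refine one_le_pow₀ ?_
      rw [norm_mul, Complex.norm_real, Real.norm_eq_abs, abs_of_nonneg (by positivity), div_mul_eq_mul_div,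
        le_div_iff₀ hK']
      linarith
  · exact le_rfl

theorem tw4_pt {κ : ℝ} (h0 : 0 < κ) (h1 : κ < 1) {C δ : ℝ} (hC : 1 ≤ C)
    (HP : ∀ (T : ℝ) (y M : ℕ), 100 ≤ y → 3 ≤ T → 2 ^ M * Real.log y ≤ δ * Real.log T → ∀ s : ℝ, Good T y M s →
      Z s ^ (2 * κ) ≤ C * (Wt 1 T y M (fun _ => ((κ - 1 : ℝ) : ℂ)) s ^ κ * Wt 0 T y M (fun _ => (κ : ℂ)) s ^ (1 - κ)))
    {T : ℝ} {y M i : ℕ} (hy : 100 ≤ y) (hT : 3 ≤ T) (hM : 2 ^ (Mi i M) * Real.log y ≤ δ * Real.log T)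
    (hi : ai i = 1) {s : ℝ} (hg : Good T y (Mi i M) s)
    (hb : i = 2 → (KT T y M : ℝ) / 100 < ‖Ps (blk y M) (fun _ => 1) (Xp s)‖) :
    Z s ^ (2 * κ) ≤ C * (Cw κ i T y M s ^ κ * Cw κ 0 T y (Mi i M) s ^ (1 - κ)) := by
  obtain ⟨E, hEd⟩ : ∃ E : ℝ, E = ‖Eu (blk y 0) (Xp s)‖ := ⟨_, rfl⟩
  have hE : 0 < E := by
    have h2 := (sm_facts (1/2) y).2.1 (Xp s) (fun p => norm_Xp s p)
    unfold sm at h2
    rw [← hEd] at h2
    by_contra hcon
    have h0' : E = 0 := le_antisymm (not_lt.1 hcon) (hEd ▸ norm_nonneg _)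
    rw [h0', Real.zero_rpow (by norm_num)] at h2
    exact lt_irrefl _ h2
  refine (HP T y (Mi i M) hy hT hM s hg).trans (mul_le_mul_of_nonneg_left ?_ (by linarith))
  obtain ⟨W1, hW1⟩ : ∃ W1 : ℝ, W1 = Wt 1 T y (Mi i M) (fun _ => ((κ - 1 : ℝ) : ℂ)) s := ⟨_, rfl⟩
  obtain ⟨W0, hW0⟩ : ∃ W0 : ℝ, W0 = Wt 0 T y (Mi i M) (fun _ => (κ : ℂ)) s := ⟨_, rfl⟩
  have hW1n : 0 ≤ W1 := hW1 ▸ tw4_Wt_nonneg _ _ _ _ _ _
  have hW0n : 0 ≤ W0 := hW0 ▸ tw4_Wt_nonneg _ _ _ _ _ _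
  have c1 : E ^ (2 * (κ - 1)) * W1 ≤ Cw κ i T y M s := by
    unfold Cw sm Wi
    rw [hi, Nat.cast_one, ← hEd, ← hW1]
    refine mul_le_mul_of_nonneg_left ?_ (by positivity)
    exact le_mul_of_one_le_right hW1n (tw4_B hb)
  have c0 : Cw κ 0 T y (Mi i M) s = E ^ (2 * κ) * W0 := by
    unfold Cw sm Wi
    rw [tw4_Mi0, ← hEd, hW0, if_neg (by norm_num), mul_one]
    have : ai 0 = 0 := rfl
    rw [this, Nat.cast_zero, sub_zero]
  rw [← hW1, ← hW0, c0]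
  calc W1 ^ κ * W0 ^ (1 - κ) = (E ^ (2 * (κ - 1)) * W1) ^ κ * (E ^ (2 * κ) * W0) ^ (1 - κ) := by
        rw [Real.mul_rpow (by positivity) hW1n, Real.mul_rpow (by positivity) hW0n, ← Real.rpow_mul hE.le,
          ← Real.rpow_mul hE.le]
        have h3 : E ^ (2 * (κ - 1) * κ) * E ^ (2 * κ * (1 - κ)) = 1 := by
          rw [← Real.rpow_add hE, show 2 * (κ - 1) * κ + 2 * κ * (1 - κ) = 0 by ring, Real.rpow_zero]
        linear_combination (-(W1 ^ κ * W0 ^ (1 - κ))) * h3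
    _ ≤ _ := by
        refine mul_le_mul_of_nonneg_right (Real.rpow_le_rpow (by positivity) c1 h0.le) (by positivity)

theorem tw4_piece {κ : ℝ} (h0 : 0 < κ) (h1 : κ < 1) {C : ℝ} (hC : 0 ≤ C) {T : ℝ} {y M i : ℕ} {f : ℝ → ℝ}
    (hf : Continuous f) {S : Set ℝ}
    (hS : ∀ s ∈ S, Good T y (Mi i M) s ∧
      Z s ^ (2 * κ) ≤ C * (Cw κ i T y M s ^ κ * Cw κ 0 T y (Mi i M) s ^ (1 - κ))) (t : ℝ) :
    ∫⁻ x in Icc (0:ℝ) 1, S.indicator (fun s => ENNReal.ofReal (Z s ^ (2 * κ))) (t + x) * ENNReal.ofReal (f x) ≤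
      ENNReal.ofReal C * ((∫⁻ x in Icc (0:ℝ) 1, Cg κ i T y M (t + x) * ENNReal.ofReal (f x)) ^ κ *
        (∫⁻ x in Icc (0:ℝ) 1, Cg κ 0 T y (Mi i M) (t + x) * ENNReal.ofReal (f x)) ^ (1 - κ)) := by
  have hb : 0 < 1 - κ := by linarith
  have hm : ∀ (j N : ℕ), Measurable (fun x : ℝ => Cg κ j T y N (t + x) * ENNReal.ofReal (f x)) := fun j N =>
    ((tw4_Cg_meas κ j T y N).comp (measurable_const.add measurable_id)).mul
      (ENNReal.measurable_ofReal.comp hf.measurable)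
  have step1 : ∫⁻ x in Icc (0:ℝ) 1, S.indicator (fun s => ENNReal.ofReal (Z s ^ (2 * κ))) (t + x) *
      ENNReal.ofReal (f x) ≤ ∫⁻ x in Icc (0:ℝ) 1, ENNReal.ofReal C *
        ((Cg κ i T y M (t + x) * ENNReal.ofReal (f x)) ^ κ *
        (Cg κ 0 T y (Mi i M) (t + x) * ENNReal.ofReal (f x)) ^ (1 - κ)) := by
    refine lintegral_mono fun x => ?_
    by_cases hx : t + x ∈ S
    · rw [Set.indicator_of_mem hx]
      obtain ⟨g1, g2⟩ := hS _ hx
      rw [tw4_Cg_good κ i T y M g1, tw4_Cg_good κ 0 T y (Mi i M) (by rw [tw4_Mi0]; exact g1)]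
      rw [ENNReal.mul_rpow_of_nonneg _ _ h0.le, ENNReal.mul_rpow_of_nonneg _ _ hb.le,
        ENNReal.ofReal_rpow_of_nonneg (tw4_Cw_nonneg _ _ _ _ _ _) h0.le,
        ENNReal.ofReal_rpow_of_nonneg (tw4_Cw_nonneg _ _ _ _ _ _) hb.le]
      have hF : ENNReal.ofReal (f x) = ENNReal.ofReal (f x) ^ κ * ENNReal.ofReal (f x) ^ (1 - κ) := by
        rw [← ENNReal.rpow_add_of_nonneg _ _ h0.le hb.le, show κ + (1 - κ) = 1 by ring, ENNReal.rpow_one]
      have hcw := tw4_Cw_nonneg κ i T y M (t + x)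
      calc ENNReal.ofReal (Z (t + x) ^ (2 * κ)) * ENNReal.ofReal (f x)
          ≤ ENNReal.ofReal (C * (Cw κ i T y M (t + x) ^ κ * Cw κ 0 T y (Mi i M) (t + x) ^ (1 - κ))) *
            ENNReal.ofReal (f x) := mul_le_mul_left (ENNReal.ofReal_le_ofReal g2) _
        _ = _ := by
          rw [ENNReal.ofReal_mul hC, ENNReal.ofReal_mul (by positivity)]
          nth_rewrite 1 [hF]
          ring
    · rw [Set.indicator_of_notMem hx, zero_mul]
      exact zero_le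
  refine step1.trans ?_
  have hmm : Measurable (fun x : ℝ => (Cg κ i T y M (t + x) * ENNReal.ofReal (f x)) ^ κ *
      (Cg κ 0 T y (Mi i M) (t + x) * ENNReal.ofReal (f x)) ^ (1 - κ)) :=
    ((hm _ _).pow_const _).mul ((hm _ _).pow_const _)
  rw [lintegral_const_mul _ hmm]
  exact mul_le_mul_right (holder2 (hm _ _).aemeasurable (hm _ _).aemeasurable h0 hb (by ring)) _

theorem tw4_alg {c ρ L g : ℝ} (hc : 0 < c) (hρ : 0 < ρ) (hL : 0 < L) (hg : 0 < g) (a b e : ℝ) :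
    (c * L * 2 ^ a * g * ρ) ^ e * (c * 2 ^ b * ρ) ^ (1 - e) =
      c * ρ * L ^ e * g ^ e * 2 ^ (a * e + b * (1 - e)) := by
  have h2 : (0 : ℝ) < 2 := two_pos
  rw [Real.mul_rpow (by positivity) hρ.le, Real.mul_rpow (by positivity) hg.le,
    Real.mul_rpow (by positivity) (by positivity), Real.mul_rpow hc.le hL.le,
    Real.mul_rpow (by positivity) hρ.le, Real.mul_rpow hc.le (by positivity), ← Real.rpow_mul h2.le,
    ← Real.rpow_mul h2.le, Real.rpow_add h2]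
  have e1 : c ^ e * c ^ (1 - e) = c := by
    rw [← Real.rpow_add hc, show e + (1 - e) = 1 by ring, Real.rpow_one]
  have e2 : ρ ^ e * ρ ^ (1 - e) = ρ := by
    rw [← Real.rpow_add hρ, show e + (1 - e) = 1 by ring, Real.rpow_one]
  calc c ^ e * L ^ e * 2 ^ (a * e) * g ^ e * ρ ^ e * (c ^ (1 - e) * 2 ^ (b * (1 - e)) * ρ ^ (1 - e))
      = (c ^ e * c ^ (1 - e)) * (ρ ^ e * ρ ^ (1 - e)) * L ^ e * g ^ e * (2 ^ (a * e) * 2 ^ (b * (1 - e))) := by
        ring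
    _ = _ := by rw [e1, e2]

theorem tw4_moment {κ q : ℝ} (h0 : 0 < κ) (h1 : κ < 1) (hq1 : 1 < q) (hκq : κ * q < 1) (ν : Measure ℝ)
    {U V F H : ℝ → ℝ≥0∞} (hU : Measurable U) (hV : Measurable V) (hH : Measurable H)
    {C : ℝ} (hC : 0 ≤ C) (hF : ∀ t, F t ≤ ENNReal.ofReal C * (U t ^ κ * V t ^ (1 - κ)))
    {c ρ L g : ℝ} (hc : 0 < c) (hρ : 0 < ρ) (hL : 0 < L) (hg : 0 < g) (N : ℝ)
    (HU : ∫⁻ t, U t * V t ^ (q - 1) * H t ∂ν ≤ ENNReal.ofReal (c * L * 2 ^ (N * (κ ^ 2 * q - 1)) * g * ρ))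
    (HV : ∫⁻ t, V t * V t ^ (q - 1) * H t ∂ν ≤ ENNReal.ofReal (c * 2 ^ (N * (κ ^ 2 * q)) * ρ)) :
    ∫⁻ t, F t ^ q * H t ∂ν ≤ ENNReal.ofReal
      (C ^ q * (c * ρ * L ^ (κ * q) * g ^ (κ * q) * 2 ^ (-(N * (κ * q * (1 - κ)))))) := by
  have hq0 : 0 < q := by linarith
  have ha : 0 < κ * q := by positivity
  have hb : 0 < 1 - κ * q := by linarith
  have s1 : ∀ t, F t ^ q * H t ≤ ENNReal.ofReal (C ^ q) * ((U t ^ κ * V t ^ (1 - κ)) ^ q * H t) := by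
    intro t
    rw [← mul_assoc]
    refine mul_le_mul_left ?_ _
    refine (ENNReal.rpow_le_rpow (hF t) hq0.le).trans (le_of_eq ?_)
    rw [ENNReal.mul_rpow_of_nonneg _ _ hq0.le, ENNReal.ofReal_rpow_of_nonneg hC hq0.le]
  refine (lintegral_mono s1).trans ?_
  have hmm : Measurable (fun t : ℝ => (U t ^ κ * V t ^ (1 - κ)) ^ q * H t) :=
    (((hU.pow_const _).mul (hV.pow_const _)).pow_const _).mul hH
  rw [lintegral_const_mul _ hmm, ENNReal.ofReal_mul (by positivity)]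
  refine mul_le_mul_right ?_ _
  refine (tw4_holder ν hU hV hH h0 h1 hq1 hκq).trans ?_
  refine (mul_le_mul' (ENNReal.rpow_le_rpow HU ha.le) (ENNReal.rpow_le_rpow HV hb.le)).trans ?_
  rw [ENNReal.ofReal_rpow_of_nonneg (by positivity) ha.le, ENNReal.ofReal_rpow_of_nonneg (by positivity) hb.le,
    ← ENNReal.ofReal_mul (by positivity)]
  refine ENNReal.ofReal_le_ofReal (le_of_eq ?_)
  rw [tw4_alg hc hρ hL hg]
  congr 2
  ring


/-- the pieces: all blocks good, or the first bad block -/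
def tw4_S (T : ℝ) (y J p : ℕ) : Set ℝ :=
  if p = 0 then {s | Good T y J s} else
    {s | Good T y (p - 1) s} ∩ {s | (KT T y p : ℝ) / 100 < ‖Ps (blk y p) (fun _ => 1) (Xp s)‖}

theorem tw4_S_meas (T : ℝ) (y J p : ℕ) : MeasurableSet (tw4_S T y J p) := by
  unfold tw4_S
  split_ifs
  · exact tw4_Good_meas _ _ _
  · exact (tw4_Good_meas _ _ _).inter (isOpen_lt continuous_const (tw4_Ps_cont _ _).norm).measurableSet

theorem tw4_cover (κ T : ℝ) (y J : ℕ) {f : ℝ → ℝ} (hf : Continuous f) (t : ℝ) :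
    ∫⁻ x in Icc (0:ℝ) 1, ENNReal.ofReal (f x * Z (t + x) ^ (2 * κ)) ≤ ∑ p ∈ Finset.range (J + 1),
      ∫⁻ x in Icc (0:ℝ) 1, (tw4_S T y J p).indicator (fun s => ENNReal.ofReal (Z s ^ (2 * κ))) (t + x) *
        ENNReal.ofReal (f x) := by
  have hZm : Measurable (fun s : ℝ => ENNReal.ofReal (Z s ^ (2 * κ))) :=
    ENNReal.measurable_ofReal.comp (Z_cont.measurable.pow_const _)
  have hm : ∀ p ∈ Finset.range (J + 1), Measurable (fun x : ℝ =>
      (tw4_S T y J p).indicator (fun s => ENNReal.ofReal (Z s ^ (2 * κ))) (t + x) * ENNReal.ofReal (f x)) :=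
    fun p _ => ((hZm.indicator (tw4_S_meas T y J p)).comp (measurable_const.add measurable_id)).mul
      (ENNReal.measurable_ofReal.comp hf.measurable)
  rw [← lintegral_finsetSum _ hm]
  refine lintegral_mono fun x => ?_
  have hZ0 : 0 ≤ Z (t + x) ^ (2 * κ) := Real.rpow_nonneg (norm_nonneg _) _
  have key : ∃ p ∈ Finset.range (J + 1), t + x ∈ tw4_S T y J p := by
    rcases first_bad T y J (t + x) with hg | ⟨v, hv, hg, hb⟩
    · exact ⟨0, Finset.mem_range.2 (by omega), hg⟩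
    · rw [Finset.mem_Icc] at hv
      refine ⟨v, Finset.mem_range.2 (by omega), ?_⟩
      unfold tw4_S
      rw [if_neg (by omega)]
      exact ⟨hg, hb⟩
  obtain ⟨p, hp, hps⟩ := key
  calc ENNReal.ofReal (f x * Z (t + x) ^ (2 * κ)) =
        (tw4_S T y J p).indicator (fun s => ENNReal.ofReal (Z s ^ (2 * κ))) (t + x) * ENNReal.ofReal (f x) := by
        rw [Set.indicator_of_mem hps, mul_comm, ENNReal.ofReal_mul hZ0]
    _ ≤ _ := Finset.single_le_sum (f := fun p => (tw4_S T y J p).indicator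
        (fun s => ENNReal.ofReal (Z s ^ (2 * κ))) (t + x) * ENNReal.ofReal (f x)) (fun _ _ => zero_le) hp

theorem tw4_w_sum {L : ℝ} (hL : 0 < L) (J : ℕ) (hJ : 2 * 2 ^ J ≤ L) :
    ∑ p ∈ Finset.range (J + 1), (if p = 0 then (1 : ℝ) else 2 ^ p / L) ≤ 2 := by
  rw [Finset.sum_range_succ']
  simp only [if_true, Nat.succ_ne_zero, if_false]
  have h1 : ∑ p ∈ Finset.range J, (2 : ℝ) ^ (p + 1) / L = (2 * 2 ^ J - 2) / L := by
    rw [← Finset.sum_div]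
    congr 1
    induction J with
    | zero => simp
    | succ n ih =>
      rw [Finset.sum_range_succ, ih (by
        refine le_trans ?_ hJ
        have : (0:ℝ) < 2 ^ n := by positivity
        rw [pow_succ]
        linarith)]
      ring
  rw [h1]
  have h2 : (2 * 2 ^ J - 2) / L ≤ 1 := by
    rw [div_le_one hL]
    linarith
  linarith

theorem tw4_real0 {κ q δ L : ℝ} (h0 : 0 < κ) (h1 : κ < 1) (hq : 0 < q) (hδ : 0 < δ) (hL : 0 < L) {J : ℕ}
    (hJ : δ * L < 2 ^ (J + 1)) :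
    L ^ (κ * q) * 2 ^ (-((J : ℝ) * (κ * q * (1 - κ)))) ≤ (2 / δ) ^ (κ * q * (1 - κ)) * L ^ (κ ^ 2 * q) := by
  have hk : 0 < 1 - κ := by linarith
  set e := κ * q * (1 - κ) with he
  have he0 : 0 ≤ e := by positivity
  have hx : (2 : ℝ) ^ (-((J : ℝ) * e)) = ((2 ^ J : ℝ)⁻¹) ^ e := by
    rw [← Real.rpow_natCast, ← Real.rpow_neg two_pos.le, ← Real.rpow_mul two_pos.le]
    congr 1
    ring
  have hy : (2 ^ J : ℝ)⁻¹ ≤ 2 / δ * L⁻¹ := by
    have h2 : (0:ℝ) < 2 ^ J := by positivity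
    rw [inv_le_iff_one_le_mul₀ h2]
    have h3 : 2 / δ * L⁻¹ * 2 ^ J = 2 ^ (J + 1) / (δ * L) := by
      rw [pow_succ]
      field_simp
    rw [h3, le_div_iff₀ (by positivity)]
    linarith
  rw [hx]
  have h4 : ((2 ^ J : ℝ)⁻¹) ^ e ≤ (2 / δ) ^ e * (L⁻¹) ^ e := by
    rw [← Real.mul_rpow (by positivity) (by positivity)]
    exact Real.rpow_le_rpow (by positivity) hy he0
  have h5 : L ^ (κ * q) * (L⁻¹) ^ e = L ^ (κ ^ 2 * q) := by
    rw [Real.inv_rpow hL.le, ← Real.rpow_neg hL.le, ← Real.rpow_add hL]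
    congr 1
    rw [he]
    ring
  calc L ^ (κ * q) * ((2 ^ J : ℝ)⁻¹) ^ e ≤ L ^ (κ * q) * ((2 / δ) ^ e * (L⁻¹) ^ e) := by gcongr
    _ = (2 / δ) ^ e * (L ^ (κ * q) * (L⁻¹) ^ e) := by ring
    _ = _ := by rw [h5]

theorem tw4_realv {κ q L : ℝ} (hL : 0 < L) {v : ℕ} (hv : 1 ≤ v) (K : ℝ) :
    (2 ^ v / L) ^ (1 - q) * (L ^ (κ * q) * Real.exp (-K) ^ (κ * q) *
      2 ^ (-(((v - 1 : ℕ) : ℝ) * (κ * q * (1 - κ))))) =
    2 ^ (κ * q * (1 - κ)) * L ^ (κ ^ 2 * q) * ((2 ^ v / L) ^ (-(q - 1 + κ * q * (1 - κ))) *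
      Real.exp (-(κ * q) * K)) := by
  set e := κ * q * (1 - κ) with he
  have ha : (0:ℝ) < 2 ^ v / L := by positivity
  have h1 : Real.exp (-K) ^ (κ * q) = Real.exp (-(κ * q) * K) := by
    rw [← Real.exp_mul]
    congr 1
    ring
  have h2 : (2 : ℝ) ^ (-(((v - 1 : ℕ) : ℝ) * e)) = 2 ^ e * ((2 ^ v / L) ^ (-e) * L ^ (-e)) := by
    rw [← Real.mul_rpow ha.le hL.le, div_mul_cancel₀ _ hL.ne', ← Real.rpow_natCast, ← Real.rpow_mul two_pos.le,
      ← Real.rpow_add two_pos]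
    congr 1
    rw [Nat.cast_sub hv]
    push_cast
    ring
  have h3 : L ^ (κ * q) * L ^ (-e) = L ^ (κ ^ 2 * q) := by
    rw [← Real.rpow_add hL]
    congr 1
    rw [he]
    ring
  have h4 : (2 ^ v / L) ^ (1 - q) * (2 ^ v / L) ^ (-e) = (2 ^ v / L) ^ (-(q - 1 + e)) := by
    rw [← Real.rpow_add ha]
    congr 1
    ring
  rw [h1, h2, ← h3, ← h4]
  ring


theorem tw4_shift (g : ℕ → ℝ) (J : ℕ) : ∑ p ∈ Finset.range J, g (p + 1) = ∑ v ∈ Finset.Icc 1 J, g v := by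
  induction J with
  | zero => simp
  | succ n ih => rw [Finset.sum_range_succ, ih, Finset.sum_Icc_succ_top (by omega)]

theorem tw4_Rq_nonneg {κ q : ℝ} {y : ℕ} {f : ℝ → ℝ} {h : (ℕ → ℂ) → ℝ} {Bf Bh : ℝ}
    (hh0 : ∀ X, (∀ p, ‖X p‖ = 1) → 0 ≤ h X) (hf0 : ∀ x, 0 < f x)
    (hBf : ∀ x ∈ Icc (0:ℝ) 1, f x ≤ Bf) (hBh : ∀ X, (∀ p, ‖X p‖ = 1) → h X ≤ Bh) (hy : 100 ≤ y) :
    0 ≤ Rq κ q y f h Bf Bh := by
  unfold Rq
  have hBf0 : 0 ≤ Bf := (hf0 0).le.trans (hBf 0 ⟨le_rfl, zero_le_one⟩)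
  have hX1 : ∀ p : ℕ, ‖(fun _ : ℕ => (1 : ℂ)) p‖ = 1 := fun p => norm_one
  have hBh0 : 0 ≤ Bh := (hh0 _ hX1).trans (hBh _ hX1)
  have hlog : 0 ≤ Real.log y := Real.log_nonneg (by
    have : 1 ≤ y := by omega
    exact_mod_cast this)
  have h1 : 0 ≤ ∫ θ, Phi κ y f (Xt θ) ^ q * h (Xt θ) ∂PT := by
    refine integral_nonneg fun θ => ?_
    refine mul_nonneg (Real.rpow_nonneg ?_ _) (hh0 _ fun p => norm_Xt θ p)
    unfold Phi
    refine integral_nonneg fun x => mul_nonneg (hf0 x).le ?_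
    unfold phx sm
    positivity
  positivity

theorem qmom_tw (κ q : ℝ) (h0 : 0 < κ) (h1 : κ < 1) (hq1 : 1 < q) (hq2 : q < 2) (hκq : κ * q < 1) :
    ∃ (C : ℝ) (y0 : ℕ), 0 < C ∧ 100 ≤ y0 ∧ ∀ y : ℕ, y0 ≤ y →
    ∀ h : (ℕ → ℂ) → ℝ, ContinuousOn h {X | ∀ p, ‖X p‖ = 1} → (∀ X, (∀ p, ‖X p‖ = 1) → 0 ≤ h X) →
    (∀ X Y : ℕ → ℂ, (∀ p ∈ blk y 0, X p = Y p) → h X = h Y) → ∀ f : ℝ → ℝ, Continuous f → (∀ x, 0 < f x) →
    ∀ Bf Bh : ℝ, (∀ x ∈ Icc (0:ℝ) 1, f x ≤ Bf) → (∀ X, (∀ p, ‖X p‖ = 1) → h X ≤ Bh) →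
    ∀ ε : ℝ, 0 < ε → ∃ T0 : ℝ, 3 ≤ T0 ∧ ∀ T : ℝ, T0 ≤ T →
    ∫⁻ t, (∫⁻ x in Icc (0:ℝ) 1, ENNReal.ofReal (f x * Z (t + x) ^ (2 * κ))) ^ q * ENNReal.ofReal (h (Xp t)) ∂mu T ≤
      ENNReal.ofReal (C * Real.log T ^ (κ ^ 2 * q) * Real.log y ^ (-(κ ^ 2 * q)) * (Rq κ q y f h Bf Bh + ε)) := by
  have hq0 : 0 < q := by linarith
  have hk : 0 < 1 - κ := by linarith
  obtain ⟨C1, δ1, hC1, hδ1, hδ1', HP⟩ := pt_one κ h0 h1
  obtain ⟨C2, y2, δ2, hC2, hy2, hδ2, hδ2', HF⟩ := far κ q h0 h1 hq1 hq2 hκq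
  obtain ⟨C3, y3, δ3, hC3, hy3, hδ3, hδ3', HN⟩ := near κ q h0 h1 hq1 hq2 hκq
  obtain ⟨e, he⟩ : ∃ e : ℝ, e = κ * q * (1 - κ) := ⟨_, rfl⟩
  have he0 : 0 < e := by rw [he]; positivity
  obtain ⟨C4, hC4, HB⟩ := adm_bad (q - 1 + e) (κ * q) (by linarith) (by positivity)
  obtain ⟨δ, hδd⟩ : ∃ δ : ℝ, δ = min δ1 (min δ2 δ3) := ⟨_, rfl⟩
  have hδ0 : 0 < δ := by rw [hδd]; exact lt_min hδ1 (lt_min hδ2 hδ3)
  have hδa : δ ≤ δ1 := by rw [hδd]; exact min_le_left _ _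
  have hδb : δ ≤ δ2 := by rw [hδd]; exact (min_le_right _ _).trans (min_le_left _ _)
  have hδc : δ ≤ δ3 := by rw [hδd]; exact (min_le_right _ _).trans (min_le_right _ _)
  have hδh : δ ≤ 1 / 2 := hδa.trans hδ1'
  obtain ⟨c, hc⟩ : ∃ c : ℝ, c = C2 + C3 := ⟨_, rfl⟩
  have hc0 : 0 < c := by rw [hc]; positivity
  refine ⟨2 ^ (q - 1) * (C1 ^ q * c * ((2 / δ) ^ e + 2 ^ e * C4)), max y2 y3, by positivity,
    hy2.trans (le_max_left _ _), ?_⟩
  intro y hy h hh hh0 hhd f hf hf0 Bf Bh hBf hBh ε hε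
  have hy100 : 100 ≤ y := hy2.trans ((le_max_left _ _).trans hy)
  obtain ⟨T1, hT1, HF'⟩ := HF y ((le_max_left _ _).trans hy) h hh hh0 hhd f hf hf0 ε hε
  obtain ⟨T2, hT2, HN'⟩ := HN y ((le_max_right _ _).trans hy)
  obtain ⟨T3, hT3, HJ⟩ := exists_J δ hδ0 y (by omega)
  refine ⟨max T1 (max T2 T3), hT1.trans (le_max_left _ _), fun T hT => ?_⟩
  have hTa : T1 ≤ T := (le_max_left _ _).trans hT
  have hTb : T2 ≤ T := ((le_max_left _ _).trans (le_max_right _ _)).trans hT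
  have hTc : T3 ≤ T := ((le_max_right _ _).trans (le_max_right _ _)).trans hT
  have hT3' : 3 ≤ T := hT1.trans hTa
  obtain ⟨J, hJ1, hJ2, hJ3⟩ := HJ T hTc
  have hlogy : 0 < Real.log y := Real.log_pos (by
    have : 1 < y := by omega
    exact_mod_cast this)
  have hlogT : 0 < Real.log T := Real.log_pos (by linarith)
  obtain ⟨L, hLd⟩ : ∃ L : ℝ, L = Real.log T / Real.log y := ⟨_, rfl⟩
  have hL : 0 < L := by rw [hLd]; positivity
  have hHm : Measurable (fun t : ℝ => ENNReal.ofReal (h (Xp t))) :=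
    ENNReal.measurable_ofReal.comp (hh.comp_continuous Xp_cont fun s p => norm_Xp s p).measurable
  have hfm : Measurable (fun x : ℝ => ENNReal.ofReal (f x)) := ENNReal.measurable_ofReal.comp hf.measurable
  have hR := tw4_Rq_nonneg (κ := κ) (q := q) hh0 hf0 hBf hBh hy100
  obtain ⟨ρ, hρd⟩ : ∃ ρ : ℝ, ρ = Rq κ q y f h Bf Bh + ε := ⟨_, rfl⟩
  have hρ : 0 < ρ := by rw [hρd]; linarith
  obtain ⟨U, hUd⟩ : ∃ U : ℕ → ℕ → ℝ → ℝ≥0∞, ∀ i M t, U i M t =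
      ∫⁻ x in Icc (0:ℝ) 1, Cg κ i T y M (t + x) * ENNReal.ofReal (f x) := ⟨_, fun _ _ _ => rfl⟩
  have hUm : ∀ i M, Measurable (U i M) := fun i M => by
    have : U i M = fun t => ∫⁻ x in Icc (0:ℝ) 1, Cg κ i T y M (t + x) * ENNReal.ofReal (f x) := funext fun t => hUd i M t
    rw [this]
    exact tw4_conv_meas (tw4_Cg_meas κ i T y M) hfm
  have hmix : ∀ M i : ℕ, i ≤ 2 → (i = 2 → 1 ≤ M) → 2 ^ M * Real.log y ≤ δ * Real.log T →
      ∫⁻ t, U i M t * U 0 (Mi i M) t ^ (q - 1) * ENNReal.ofReal (h (Xp t)) ∂mu T ≤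
        ENNReal.ofReal (c * L ^ (ai i) * 2 ^ ((Mi i M : ℝ) * (κ ^ 2 * q - ai i)) * gi i T y M * ρ) := by
    intro M i hi hiM hM
    have hM2 : 2 ^ M * Real.log y ≤ δ2 * Real.log T := hM.trans (by gcongr)
    have hM3 : 2 ^ M * Real.log y ≤ δ3 * Real.log T := hM.trans (by gcongr)
    have a1 := HF' T hTa M i hi hiM hM2
    have a2 := HN' T hTb M i hi hiM hM3 h hh hh0 f hf hf0 Bf Bh hBf hBh
    have a3 := tw4_split (mu T) (tw4_Cg_meas κ i T y M) (tw4_Cg_meas κ 0 T y (Mi i M)) hfm hHm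
      (r := q - 1) (by linarith) (by linarith) (1 / Real.log y)
    have hgi : 0 < gi i T y M := by
      unfold gi
      split_ifs <;> positivity
    simp_rw [← hUd] at a3
    refine a3.trans ((add_le_add a1 a2).trans ?_)
    have hA0 : 0 ≤ ∫ θ, Phi κ y f (Xt θ) ^ q * h (Xt θ) ∂PT := by
      refine integral_nonneg fun θ => ?_
      refine mul_nonneg (Real.rpow_nonneg ?_ _) (hh0 _ fun p => norm_Xt θ p)
      unfold Phi
      refine integral_nonneg fun x => mul_nonneg (hf0 x).le ?_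
      unfold phx sm
      positivity
    have hBf0 : 0 ≤ Bf := (hf0 0).le.trans (hBf 0 ⟨le_rfl, zero_le_one⟩)
    have hX1 : ∀ p : ℕ, ‖(fun _ : ℕ => (1 : ℂ)) p‖ = 1 := fun p => norm_one
    have hBh0 : 0 ≤ Bh := (hh0 _ hX1).trans (hBh _ hX1)
    rw [← hLd, ← ENNReal.ofReal_add (by positivity) (by positivity)]
    refine ENNReal.ofReal_le_ofReal ?_
    rw [hc, hρd]
    unfold Rq
    set P : ℝ := L ^ (ai i) * 2 ^ ((Mi i M : ℝ) * (κ ^ 2 * q - ai i)) * gi i T y M with hP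
    have hP0 : 0 ≤ P := by positivity
    set A : ℝ := ∫ θ, Phi κ y f (Xt θ) ^ q * h (Xt θ) ∂PT with hA
    set B : ℝ := Bf ^ q * Bh * Real.log y ^ ((κ * q) ^ 2 - (q - 1)) with hB
    have hB0 : 0 ≤ B := by positivity
    have e1 : C2 * L ^ (ai i) * 2 ^ ((Mi i M : ℝ) * (κ ^ 2 * q - ai i)) * gi i T y M * (A + ε) = C2 * P * (A + ε) := by
      rw [hP]; ring
    have e2 : C3 * L ^ (ai i) * 2 ^ ((Mi i M : ℝ) * (κ ^ 2 * q - ai i)) * gi i T y M * B = C3 * P * B := by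
      rw [hP]; ring
    have e3 : (C2 + C3) * L ^ (ai i) * 2 ^ ((Mi i M : ℝ) * (κ ^ 2 * q - ai i)) * gi i T y M * (A + B + ε) =
        (C2 + C3) * P * (A + B + ε) := by
      rw [hP]; ring
    rw [e1, e2, e3]
    have f1 : 0 ≤ C2 * P * B := by positivity
    have f2 : 0 ≤ C3 * P * (A + ε) := by positivity
    linarith
  -- the pieces
  obtain ⟨F, hFd⟩ : ∃ F : ℕ → ℝ → ℝ≥0∞, ∀ p t, F p t = ∫⁻ x in Icc (0:ℝ) 1,
      (tw4_S T y J p).indicator (fun s => ENNReal.ofReal (Z s ^ (2 * κ))) (t + x) * ENNReal.ofReal (f x) :=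
    ⟨_, fun _ _ => rfl⟩
  have hZm : Measurable (fun s : ℝ => ENNReal.ofReal (Z s ^ (2 * κ))) :=
    ENNReal.measurable_ofReal.comp (Z_cont.measurable.pow_const _)
  have hFm : ∀ p, Measurable (F p) := fun p => by
    have : F p = fun t => ∫⁻ x in Icc (0:ℝ) 1,
      (tw4_S T y J p).indicator (fun s => ENNReal.ofReal (Z s ^ (2 * κ))) (t + x) * ENNReal.ofReal (f x) :=
      funext fun t => hFd p t
    rw [this]
    exact tw4_conv_meas (hZm.indicator (tw4_S_meas T y J p)) hfm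
  have hgen : ∀ (p i M : ℕ), i ≤ 2 → ai i = 1 → (i = 2 → 1 ≤ M) → 2 ^ M * Real.log y ≤ δ * Real.log T →
      (∀ s ∈ tw4_S T y J p, Good T y (Mi i M) s ∧
        (i = 2 → (KT T y M : ℝ) / 100 < ‖Ps (blk y M) (fun _ => 1) (Xp s)‖)) →
      ∫⁻ t, F p t ^ q * ENNReal.ofReal (h (Xp t)) ∂mu T ≤ ENNReal.ofReal (C1 ^ q * (c * ρ * L ^ (κ * q) *
        gi i T y M ^ (κ * q) * 2 ^ (-((Mi i M : ℝ) * (κ * q * (1 - κ)))))) := by
    intro p i M hi hai hiM hM hS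
    have hMi : Mi i M ≤ M := by
      unfold Mi
      split_ifs <;> omega
    have hM' : 2 ^ (Mi i M) * Real.log y ≤ δ * Real.log T := by
      refine le_trans ?_ hM
      gcongr
      norm_num
    have hM1 : 2 ^ (Mi i M) * Real.log y ≤ δ1 * Real.log T := hM'.trans (by gcongr)
    have hgi : 0 < gi i T y M := by
      unfold gi
      split_ifs <;> positivity
    have b1 := hmix M i hi hiM hM
    have b2 := hmix (Mi i M) 0 (by norm_num) (by norm_num) hM'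
    rw [hai, pow_one, Nat.cast_one] at b1
    have ha0 : ai 0 = 0 := rfl
    have hg0 : gi 0 T y (Mi i M) = 1 := by
      unfold gi
      rw [if_neg (by norm_num)]
    rw [ha0, pow_zero, Nat.cast_zero, sub_zero, hg0, tw4_Mi0, mul_one, mul_one] at b2
    refine tw4_moment h0 h1 hq1 hκq (mu T) (hUm i M) (hUm 0 (Mi i M)) hHm (by linarith : 0 ≤ C1) ?_ hc0 hρ hL hgi
      (Mi i M : ℝ) b1 b2
    intro t
    rw [hFd, hUd, hUd]
    refine tw4_piece h0 h1 (by linarith) hf ?_ t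
    intro s hs
    obtain ⟨g1, g2⟩ := hS s hs
    exact ⟨g1, tw4_pt h0 h1 hC1 HP hy100 hT3' hM1 hai g1 g2⟩
  have hB0 : ∫⁻ t, F 0 t ^ q * ENNReal.ofReal (h (Xp t)) ∂mu T ≤ ENNReal.ofReal (C1 ^ q * (c * ρ * L ^ (κ * q) *
      2 ^ (-((J : ℝ) * (κ * q * (1 - κ)))))) := by
    have h3 := hgen 0 1 J (by norm_num) rfl (by norm_num) hJ2 (fun s hs => ?_)
    · have hM : Mi 1 J = J := by
        unfold Mi
        rw [if_neg (by norm_num)]
      have hg : gi 1 T y J = 1 := by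
        unfold gi
        rw [if_neg (by norm_num)]
      rw [hM, hg, Real.one_rpow, mul_one] at h3
      exact h3
    · have hM : Mi 1 J = J := by
        unfold Mi
        rw [if_neg (by norm_num)]
      rw [hM]
      unfold tw4_S at hs
      rw [if_pos rfl] at hs
      exact ⟨hs, fun h => absurd h (by norm_num)⟩
  have hBv : ∀ v : ℕ, 1 ≤ v → v ≤ J → ∫⁻ t, F v t ^ q * ENNReal.ofReal (h (Xp t)) ∂mu T ≤
      ENNReal.ofReal (C1 ^ q * (c * ρ * L ^ (κ * q) * Real.exp (-(KT T y v : ℝ)) ^ (κ * q) *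
        2 ^ (-(((v - 1 : ℕ) : ℝ) * (κ * q * (1 - κ)))))) := by
    intro v hv1 hvJ
    have hvM : 2 ^ v * Real.log y ≤ δ * Real.log T := by
      refine le_trans ?_ hJ2
      gcongr
      norm_num
    have hM : Mi 2 v = v - 1 := by
      unfold Mi
      rw [if_pos rfl]
    have hg : gi 2 T y v = Real.exp (-(KT T y v : ℝ)) := by
      unfold gi
      rw [if_pos rfl]
    have h3 := hgen v 2 v le_rfl rfl (fun _ => hv1) hvM (fun s hs => ?_)
    · rw [hM, hg] at h3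
      exact h3
    · rw [hM]
      unfold tw4_S at hs
      rw [if_neg (by omega)] at hs
      exact ⟨hs.1, fun _ => hs.2⟩
  -- weights
  have hJL : 2 * 2 ^ J ≤ L := by
    rw [hLd, le_div_iff₀ hlogy]
    have : δ * Real.log T ≤ 1 / 2 * Real.log T := by gcongr
    nlinarith
  have hwsum := tw4_w_sum hL J hJL
  obtain ⟨w, hw⟩ : ∃ w : ℕ → ℝ, ∀ p, w p = if p = 0 then (1 : ℝ) else 2 ^ p / L := ⟨_, fun _ => rfl⟩
  have hwpos : ∀ p, 0 < w p := by
    intro p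
    rw [hw]
    split_ifs <;> positivity
  have hwsum' : ∑ p ∈ Finset.range (J + 1), w p ≤ 2 := by
    simp_rw [hw]
    exact hwsum
  obtain ⟨B, hBd⟩ : ∃ B : ℕ → ℝ, ∀ p, B p = if p = 0 then C1 ^ q * (c * ρ * L ^ (κ * q) *
      2 ^ (-((J : ℝ) * (κ * q * (1 - κ))))) else C1 ^ q * (c * ρ * L ^ (κ * q) * Real.exp (-(KT T y p : ℝ)) ^ (κ * q) *
        2 ^ (-(((p - 1 : ℕ) : ℝ) * (κ * q * (1 - κ))))) := ⟨_, fun _ => rfl⟩
  have hBnn : ∀ p, 0 ≤ B p := by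
    intro p
    rw [hBd]
    split_ifs <;> positivity
  have hpiece : ∀ p ∈ Finset.range (J + 1), ∫⁻ t, F p t ^ q * ENNReal.ofReal (h (Xp t)) ∂mu T ≤
      ENNReal.ofReal (B p) := by
    intro p hp
    rw [Finset.mem_range] at hp
    rw [hBd]
    split_ifs with hp0
    · rw [hp0]
      exact hB0
    · exact hBv p (by omega) (by omega)
  calc ∫⁻ t, (∫⁻ x in Icc (0:ℝ) 1, ENNReal.ofReal (f x * Z (t + x) ^ (2 * κ))) ^ q * ENNReal.ofReal (h (Xp t)) ∂mu T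
      ≤ ∫⁻ t, ENNReal.ofReal (2 ^ (q - 1)) * ∑ p ∈ Finset.range (J + 1), ENNReal.ofReal (w p ^ (1 - q)) *
          (F p t ^ q * ENNReal.ofReal (h (Xp t))) ∂mu T := by
        refine lintegral_mono fun t => ?_
        have d1 := tw4_cover κ T y J hf t
        simp_rw [← hFd] at d1
        have d2 := sum_rpow_weight (Finset.range (J + 1)) (fun p => F p t) w (fun p _ => hwpos p) hwsum' hq1.le
        have d3 := (ENNReal.rpow_le_rpow d1 hq0.le).trans d2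
        refine (mul_le_mul_left d3 _).trans (le_of_eq ?_)
        rw [mul_assoc, Finset.sum_mul]
        congr 1
        refine Finset.sum_congr rfl fun p _ => ?_
        rw [mul_assoc]
    _ = ENNReal.ofReal (2 ^ (q - 1)) * ∑ p ∈ Finset.range (J + 1), ENNReal.ofReal (w p ^ (1 - q)) *
          ∫⁻ t, F p t ^ q * ENNReal.ofReal (h (Xp t)) ∂mu T := by
        have g1 : ∀ p, Measurable (fun t : ℝ => F p t ^ q * ENNReal.ofReal (h (Xp t))) :=
          fun p => ((hFm p).pow_const q).mul hHm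
        have g2 : ∀ p ∈ Finset.range (J + 1), Measurable (fun t : ℝ => ENNReal.ofReal (w p ^ (1 - q)) *
          (F p t ^ q * ENNReal.ofReal (h (Xp t)))) := fun p _ => (g1 p).const_mul _
        rw [lintegral_const_mul _ (Finset.measurable_sum _ g2), lintegral_finsetSum _ g2]
        congr 1
        exact Finset.sum_congr rfl fun p _ => lintegral_const_mul _ (g1 p)
    _ ≤ ENNReal.ofReal (2 ^ (q - 1)) * ∑ p ∈ Finset.range (J + 1), ENNReal.ofReal (w p ^ (1 - q)) *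
          ENNReal.ofReal (B p) := by
        refine mul_le_mul_right (Finset.sum_le_sum fun p hp => mul_le_mul_right (hpiece p hp) _) _
    _ = ENNReal.ofReal (2 ^ (q - 1) * ∑ p ∈ Finset.range (J + 1), w p ^ (1 - q) * B p) := by
        rw [ENNReal.ofReal_mul (by positivity), ENNReal.ofReal_sum_of_nonneg (fun p _ =>
          mul_nonneg (Real.rpow_nonneg (hwpos p).le _) (hBnn p))]
        congr 1
        refine Finset.sum_congr rfl fun p _ => ?_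
        rw [ENNReal.ofReal_mul (Real.rpow_nonneg (hwpos p).le _)]
    _ ≤ _ := by
        refine ENNReal.ofReal_le_ofReal ?_
        have hLpow : L ^ (κ ^ 2 * q) = Real.log T ^ (κ ^ 2 * q) * Real.log y ^ (-(κ ^ 2 * q)) := by
          rw [hLd, Real.div_rpow hlogT.le hlogy.le, Real.rpow_neg hlogy.le, div_eq_mul_inv]
        have hmain : ∑ p ∈ Finset.range (J + 1), w p ^ (1 - q) * B p ≤
            C1 ^ q * c * ((2 / δ) ^ e + 2 ^ e * C4) * L ^ (κ ^ 2 * q) * ρ := by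
          rw [Finset.sum_range_succ']
          have z0 : w 0 ^ (1 - q) * B 0 ≤ C1 ^ q * c * (2 / δ) ^ e * L ^ (κ ^ 2 * q) * ρ := by
            rw [hw, hBd, if_pos rfl, if_pos rfl, Real.one_rpow, one_mul]
            have k1 := tw4_real0 h0 h1 hq0 hδ0 hL (J := J) (by
              rw [hLd, mul_div_assoc', div_lt_iff₀ hlogy]
              exact hJ3)
            rw [← he] at k1 ⊢
            calc C1 ^ q * (c * ρ * L ^ (κ * q) * 2 ^ (-((J : ℝ) * e)))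
                = C1 ^ q * c * ρ * (L ^ (κ * q) * 2 ^ (-((J : ℝ) * e))) := by ring
              _ ≤ C1 ^ q * c * ρ * ((2 / δ) ^ e * L ^ (κ ^ 2 * q)) := by gcongr
              _ = _ := by ring
          have zv : ∑ p ∈ Finset.range J, w (p + 1) ^ (1 - q) * B (p + 1) ≤
              C1 ^ q * c * (2 ^ e * C4) * L ^ (κ ^ 2 * q) * ρ := by
            have k2 : ∀ p ∈ Finset.range J, w (p + 1) ^ (1 - q) * B (p + 1) =
                C1 ^ q * c * ρ * (2 ^ e * L ^ (κ ^ 2 * q)) * ((2 ^ (p + 1) * Real.log y / Real.log T) ^ (-(q - 1 + e)) *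
                  Real.exp (-(κ * q) * KT T y (p + 1))) := by
              intro p _
              rw [hw, hBd, if_neg (Nat.succ_ne_zero p), if_neg (Nat.succ_ne_zero p)]
              have k3 := tw4_realv (κ := κ) (q := q) hL (v := p + 1) (by omega) (KT T y (p + 1) : ℝ)
              rw [← he] at k3 ⊢
              have k4 : (2 : ℝ) ^ (p + 1) / L = 2 ^ (p + 1) * Real.log y / Real.log T := by
                rw [hLd]
                field_simp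
              rw [k4] at k3 ⊢
              calc (2 ^ (p + 1) * Real.log y / Real.log T) ^ (1 - q) * (C1 ^ q * (c * ρ * L ^ (κ * q) *
                    Real.exp (-(KT T y (p + 1) : ℝ)) ^ (κ * q) * 2 ^ (-(((p + 1 - 1 : ℕ) : ℝ) * e))))
                  = C1 ^ q * c * ρ * ((2 ^ (p + 1) * Real.log y / Real.log T) ^ (1 - q) * (L ^ (κ * q) *
                    Real.exp (-(KT T y (p + 1) : ℝ)) ^ (κ * q) * 2 ^ (-(((p + 1 - 1 : ℕ) : ℝ) * e)))) := by ring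
                _ = _ := by rw [k3]; ring
            rw [Finset.sum_congr rfl k2, ← Finset.mul_sum]
            have k5 : ∑ p ∈ Finset.range J, ((2 ^ (p + 1) * Real.log y / Real.log T) ^ (-(q - 1 + e)) *
                Real.exp (-(κ * q) * KT T y (p + 1))) ≤ C4 := by
              have k6 := HB T y J (by omega) (by linarith) (by
                refine hJ2.trans ?_
                calc δ * Real.log T ≤ 1 * Real.log T := by gcongr; linarith
                  _ = _ := one_mul _)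
              exact (tw4_shift (fun v : ℕ => (2 ^ v * Real.log y / Real.log T) ^
                (-(q - 1 + e)) * Real.exp (-(κ * q) * KT T y v)) J).trans_le k6
            calc C1 ^ q * c * ρ * (2 ^ e * L ^ (κ ^ 2 * q)) * _ ≤ C1 ^ q * c * ρ * (2 ^ e * L ^ (κ ^ 2 * q)) * C4 := by
                  gcongr
              _ = _ := by ring
          calc _ ≤ C1 ^ q * c * (2 ^ e * C4) * L ^ (κ ^ 2 * q) * ρ + C1 ^ q * c * (2 / δ) ^ e * L ^ (κ ^ 2 * q) * ρ :=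
                add_le_add zv z0
            _ = _ := by ring
        calc 2 ^ (q - 1) * ∑ p ∈ Finset.range (J + 1), w p ^ (1 - q) * B p
            ≤ 2 ^ (q - 1) * (C1 ^ q * c * ((2 / δ) ^ e + 2 ^ e * C4) * L ^ (κ ^ 2 * q) * ρ) := by gcongr
          _ = _ := by rw [hLpow, hρd]; ring


/-- the same for the sharp mean, normalised -/
theorem fin_q (κ q : ℝ) (h0 : 0 < κ) (h1 : κ < 1) (hq1 : 1 < q) (hq2 : q < 2) (hκq : κ * q < 1) :
    ∃ (C : ℝ) (y0 : ℕ), 0 < C ∧ 100 ≤ y0 ∧ ∀ y : ℕ, y0 ≤ y →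
    ∀ h : (ℕ → ℂ) → ℝ, ContinuousOn h {X | ∀ p, ‖X p‖ = 1} → (∀ X, (∀ p, ‖X p‖ = 1) → 0 ≤ h X) →
    (∀ X Y : ℕ → ℂ, (∀ p ∈ blk y 0, X p = Y p) → h X = h Y) → ∀ f : ℝ → ℝ, Continuous f → (∀ x, 0 < f x) →
    ∀ Bf Bh : ℝ, (∀ x ∈ Icc (0:ℝ) 1, f x ≤ Bf) → (∀ X, (∀ p, ‖X p‖ = 1) → h X ≤ Bh) →
    ∀ ε : ℝ, 0 < ε → ∃ T0 : ℝ, 3 ≤ T0 ∧ ∀ T : ℝ, T0 ≤ T →
    ENNReal.ofReal T⁻¹ * ∫⁻ t in Icc (0:ℝ) T,
      (∫⁻ x in Icc (0:ℝ) 1, ENNReal.ofReal (f x * Z (t + x) ^ (2 * κ))) ^ q * ENNReal.ofReal (h (Xp t)) ≤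
      ENNReal.ofReal (Real.log T ^ (κ ^ 2 * q) * (C * ((∫ θ, (∫ x in Icc (0:ℝ) 1, f x * dn κ y 0 θ x) ^ q * h (Xt θ) ∂PT) +
        Bf ^ q * Bh * Real.log y ^ ((q - 1) * (κ ^ 2 * q - 1))) + ε)) := by
  have hq0 : 0 < q := by linarith
  obtain ⟨C, y0, hC, hy0, HQ⟩ := qmom_tw κ q h0 h1 hq1 hq2 hκq
  obtain ⟨c', C', hc', hC', HE⟩ := Eu_moment κ h0 h1
  refine ⟨3 * C * (C' ^ q + 1), y0, by positivity, hy0, ?_⟩
  intro y hy h hh hh0 hhd f hf hf0 Bf Bh hBf hBh ε hε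
  have hy100 : 100 ≤ y := hy0.trans hy
  have hlogy : 0 < Real.log y := Real.log_pos (by
    have : 1 < y := by omega
    exact_mod_cast this)
  obtain ⟨ε1, hε1⟩ : ∃ ε1 : ℝ, ε1 = ε * Real.log y ^ (κ ^ 2 * q) / (3 * C) := ⟨_, rfl⟩
  have hε1p : 0 < ε1 := by rw [hε1]; positivity
  obtain ⟨T0, hT0, HT⟩ := HQ y hy h hh hh0 hhd f hf hf0 Bf Bh hBf hBh ε1 hε1p
  refine ⟨T0, hT0, fun T hT => ?_⟩
  have hTpos : 0 < T := by linarith
  have hlogT : 0 < Real.log T := Real.log_pos (by linarith)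
  have hgm : Measurable (fun t : ℝ => (∫⁻ x in Icc (0:ℝ) 1, ENNReal.ofReal (f x * Z (t + x) ^ (2 * κ))) ^ q *
      ENNReal.ofReal (h (Xp t))) := by
    refine Measurable.mul (Measurable.pow_const ?_ q) (ENNReal.measurable_ofReal.comp
      (hh.comp_continuous Xp_cont fun s p => norm_Xp s p).measurable)
    have h2 : Measurable (fun z : ℝ × ℝ => ENNReal.ofReal (f z.2 * Z (z.1 + z.2) ^ (2 * κ))) := by
      refine ENNReal.measurable_ofReal.comp ((hf.measurable.comp measurable_snd).mul ?_)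
      exact (Z_cont.measurable.comp (measurable_fst.add measurable_snd)).pow_const _
    exact h2.lintegral_prod_right'
  have hsharp := mu_sharp hTpos hgm
  have hBf0 : 0 ≤ Bf := (hf0 0).le.trans (hBf 0 ⟨le_rfl, zero_le_one⟩)
  have hX1 : ∀ p : ℕ, ‖(fun _ : ℕ => (1 : ℂ)) p‖ = 1 := fun p => norm_one
  have hBh0 : 0 ≤ Bh := (hh0 _ hX1).trans (hBh _ hX1)
  -- the density
  obtain ⟨E, hE⟩ : ∃ E : ℝ, E = ∫ θ', ‖Eu (blk y 0) (Xt θ')‖ ^ (2 * κ) ∂PT := ⟨_, rfl⟩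
  obtain ⟨HE1, HE2⟩ := HE y (by omega)
  rw [← hE] at HE1 HE2
  have hEpos : 0 < E := lt_of_lt_of_le (by positivity) HE1
  have hpq : pq y 0 = blk y 0 := by
    unfold pq blk
    rw [pow_zero, pow_one]
  have hG : ∀ θ : Om, Phi κ y f (Xt θ) = E * ∫ x in Icc (0:ℝ) 1, f x * dn κ y 0 θ x := by
    intro θ
    unfold Phi
    rw [← integral_const_mul]
    refine integral_congr_ae (Eventually.of_forall fun x => ?_)
    show f x * phx κ y x (Xt θ) = E * (f x * dn κ y 0 θ x)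
    unfold dn phx sm
    rw [hpq, ← hE]
    field_simp
  have hG0 : ∀ θ : Om, 0 ≤ ∫ x in Icc (0:ℝ) 1, f x * dn κ y 0 θ x := by
    intro θ
    refine integral_nonneg fun x => mul_nonneg (hf0 x).le ?_
    unfold dn
    refine div_nonneg (by positivity) (integral_nonneg fun θ' => by positivity)
  have hI : ∫ θ, Phi κ y f (Xt θ) ^ q * h (Xt θ) ∂PT =
      E ^ q * ∫ θ, (∫ x in Icc (0:ℝ) 1, f x * dn κ y 0 θ x) ^ q * h (Xt θ) ∂PT := by
    rw [← integral_const_mul]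
    refine integral_congr_ae (Eventually.of_forall fun θ => ?_)
    show Phi κ y f (Xt θ) ^ q * h (Xt θ) = E ^ q * ((∫ x in Icc (0:ℝ) 1, f x * dn κ y 0 θ x) ^ q * h (Xt θ))
    rw [hG, Real.mul_rpow hEpos.le (hG0 θ)]
    ring
  obtain ⟨I, hId⟩ : ∃ I : ℝ, I = ∫ θ, (∫ x in Icc (0:ℝ) 1, f x * dn κ y 0 θ x) ^ q * h (Xt θ) ∂PT := ⟨_, rfl⟩
  have hI0 : 0 ≤ I := by
    rw [hId]
    exact integral_nonneg fun θ => mul_nonneg (Real.rpow_nonneg (hG0 θ) _) (hh0 _ fun p => norm_Xt θ p)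
  calc ENNReal.ofReal T⁻¹ * ∫⁻ t in Icc (0:ℝ) T,
      (∫⁻ x in Icc (0:ℝ) 1, ENNReal.ofReal (f x * Z (t + x) ^ (2 * κ))) ^ q * ENNReal.ofReal (h (Xp t))
      ≤ ENNReal.ofReal T⁻¹ * (ENNReal.ofReal (3 * T) * ENNReal.ofReal (C * Real.log T ^ (κ ^ 2 * q) *
          Real.log y ^ (-(κ ^ 2 * q)) * (Rq κ q y f h Bf Bh + ε1))) :=
        mul_le_mul_right (hsharp.trans (mul_le_mul_right (HT T hT) _)) _
    _ = ENNReal.ofReal (3 * (C * Real.log T ^ (κ ^ 2 * q) *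
          Real.log y ^ (-(κ ^ 2 * q)) * (Rq κ q y f h Bf Bh + ε1))) := by
        rw [← mul_assoc, ← ENNReal.ofReal_mul (by positivity), ← ENNReal.ofReal_mul (by positivity)]
        congr 1
        field_simp
    _ ≤ _ := by
        refine ENNReal.ofReal_le_ofReal ?_
        rw [← hId]
        unfold Rq
        rw [hI, ← hId]
        have hEq : E ^ q ≤ C' ^ q * Real.log y ^ (κ ^ 2 * q) := by
          calc E ^ q ≤ (C' * Real.log y ^ (κ ^ 2)) ^ q := Real.rpow_le_rpow hEpos.le HE2 hq0.le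
            _ = _ := by rw [Real.mul_rpow hC'.le (by positivity), ← Real.rpow_mul hlogy.le]
        have hyy : Real.log y ^ (-(κ ^ 2 * q)) * Real.log y ^ (κ ^ 2 * q) = 1 := by
          rw [← Real.rpow_add hlogy, neg_add_cancel, Real.rpow_zero]
        have hyz : Real.log y ^ (-(κ ^ 2 * q)) * Real.log y ^ ((κ * q) ^ 2 - (q - 1)) =
            Real.log y ^ ((q - 1) * (κ ^ 2 * q - 1)) := by
          rw [← Real.rpow_add hlogy]
          congr 1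
          ring
        obtain ⟨a, ha⟩ : ∃ a : ℝ, a = Real.log y ^ (-(κ ^ 2 * q)) := ⟨_, rfl⟩
        have ha0 : 0 < a := by rw [ha]; positivity
        rw [← ha] at hyy hyz ⊢
        have g1 : a * (E ^ q * I) ≤ C' ^ q * I := by
          calc a * (E ^ q * I) ≤ a * ((C' ^ q * Real.log y ^ (κ ^ 2 * q)) * I) := by gcongr
            _ = (a * Real.log y ^ (κ ^ 2 * q)) * (C' ^ q * I) := by ring
            _ = C' ^ q * I := by rw [hyy, one_mul]
        have g2 : a * (Bf ^ q * Bh * Real.log y ^ ((κ * q) ^ 2 - (q - 1))) =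
            Bf ^ q * Bh * Real.log y ^ ((q - 1) * (κ ^ 2 * q - 1)) := by
          rw [← hyz]
          ring
        have g3 : 3 * C * (a * ε1) = ε := by
          rw [hε1]
          calc 3 * C * (a * (ε * Real.log y ^ (κ ^ 2 * q) / (3 * C))) =
              (a * Real.log y ^ (κ ^ 2 * q)) * ε * ((3 * C) / (3 * C)) := by ring
            _ = ε := by rw [hyy, div_self (by positivity)]; ring
        obtain ⟨b, hb⟩ : ∃ b : ℝ, b = Bf ^ q * Bh * Real.log y ^ ((q - 1) * (κ ^ 2 * q - 1)) := ⟨_, rfl⟩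
        have hb0 : 0 ≤ b := by rw [hb]; positivity
        rw [← hb] at g2 ⊢
        calc 3 * (C * Real.log T ^ (κ ^ 2 * q) * a *
              (E ^ q * I + Bf ^ q * Bh * Real.log y ^ ((κ * q) ^ 2 - (q - 1)) + ε1))
            = Real.log T ^ (κ ^ 2 * q) * (3 * C * (a * (E ^ q * I) +
              a * (Bf ^ q * Bh * Real.log y ^ ((κ * q) ^ 2 - (q - 1)))) + 3 * C * (a * ε1)) := by ring
          _ ≤ Real.log T ^ (κ ^ 2 * q) * (3 * C * (C' ^ q * I + b) + ε) := by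
            rw [g2, g3]
            gcongr
          _ ≤ Real.log T ^ (κ ^ 2 * q) * (3 * C * (C' ^ q + 1) * (I + b) + ε) := by
            have g4 : 0 ≤ 3 * C * I := by positivity
            have g5 : 0 ≤ 3 * C * C' ^ q * b := by positivity
            have g6 : 3 * C * (C' ^ q + 1) * (I + b) = 3 * C * (C' ^ q * I + b) + 3 * C * I + 3 * C * C' ^ q * b := by
              ring
            refine mul_le_mul_of_nonneg_left ?_ (by positivity)
            rw [g6]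
            linarith

end CZ
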