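import Pool.Agent.Lib.MP_9eae41_pr.O1
import Pool.Agent.Lib.MP_9eae41_pr.P1
import Pool.Agent.Lib.MP_9eae41_pr.R1

set_option autoImplicit false

open Complex MeasureTheory Set Filter Topology
open scoped ComplexConjugate ENNReal

namespace CZ

/-! Row U0 (150 lines): pointwise algebra on the good set. -/

/-- on the good set, a product of powers of truncated exponentials with zero total exponents is bounded below -/
theorem good_gen {ι : Type} (S : Finset ι) (α α' e : ι → ℝ) (h1 : ∑ i ∈ S, e i * α i = 0) (h2 : ∑ i ∈ S, e i * α' i = 0)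
    (hα : ∀ i ∈ S, |α i| + |α' i| ≤ 5) {K : ℕ} (hK : 2 ≤ K) {w w' : ℂ} (hw : ‖w‖ ≤ (K : ℝ) / 100) (hw' : ‖w'‖ ≤ (K : ℝ) / 100) :
    1 ≤ Real.exp (2 * (∑ i ∈ S, |e i|) * Real.exp (-(K : ℝ) / 2)) *
      ∏ i ∈ S, ‖Ek K ((α i : ℂ) * w + (α' i : ℂ) * w')‖ ^ (e i) := by
  have hK0 : (0 : ℝ) < K := by
    have : 0 < K := by omega
    exact_mod_cast this
  set ε : ℝ := Real.exp (-(K : ℝ) / 2) with hε
  have hi : ∀ i ∈ S, Ek K ((α i : ℂ) * w + (α' i : ℂ) * w') ≠ 0 ∧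
      |Real.log ‖Ek K ((α i : ℂ) * w + (α' i : ℂ) * w')‖ - (α i * w.re + α' i * w'.re)| ≤ 2 * ε := by
    intro i hi
    have hn : ‖(α i : ℂ) * w + (α' i : ℂ) * w'‖ ≤ (K : ℝ) / 20 := by
      calc ‖(α i : ℂ) * w + (α' i : ℂ) * w'‖ ≤ ‖(α i : ℂ) * w‖ + ‖(α' i : ℂ) * w'‖ := norm_add_le _ _
        _ = |α i| * ‖w‖ + |α' i| * ‖w'‖ := by
            rw [norm_mul, norm_mul, norm_real, norm_real, Real.norm_eq_abs, Real.norm_eq_abs]
        _ ≤ |α i| * ((K : ℝ) / 100) + |α' i| * ((K : ℝ) / 100) :=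
            add_le_add (mul_le_mul_of_nonneg_left hw (abs_nonneg _)) (mul_le_mul_of_nonneg_left hw' (abs_nonneg _))
        _ = (|α i| + |α' i|) * ((K : ℝ) / 100) := by ring
        _ ≤ 5 * ((K : ℝ) / 100) := mul_le_mul_of_nonneg_right (hα i hi) (by positivity)
        _ = (K : ℝ) / 20 := by ring
    have h := Ek_log hK hn
    refine ⟨h.1, ?_⟩
    have hre : ((α i : ℂ) * w + (α' i : ℂ) * w').re = α i * w.re + α' i * w'.re := by
      rw [add_re, re_ofReal_mul, re_ofReal_mul]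
    rw [← hre]
    exact h.2
  have hprod : ∏ i ∈ S, ‖Ek K ((α i : ℂ) * w + (α' i : ℂ) * w')‖ ^ (e i) =
      Real.exp (∑ i ∈ S, e i * Real.log ‖Ek K ((α i : ℂ) * w + (α' i : ℂ) * w')‖) := by
    rw [Real.exp_sum]
    apply Finset.prod_congr rfl
    intro i hiS
    rw [Real.rpow_def_of_pos (norm_pos_iff.2 (hi i hiS).1), mul_comm]
  rw [hprod, ← Real.exp_add]
  apply Real.one_le_exp
  have hlow : ∑ i ∈ S, (e i * (α i * w.re + α' i * w'.re) - |e i| * (2 * ε)) ≤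
      ∑ i ∈ S, e i * Real.log ‖Ek K ((α i : ℂ) * w + (α' i : ℂ) * w')‖ := by
    apply Finset.sum_le_sum
    intro i hiS
    have h2 := (hi i hiS).2
    have h3 : |e i * (Real.log ‖Ek K ((α i : ℂ) * w + (α' i : ℂ) * w')‖ - (α i * w.re + α' i * w'.re))| ≤
        |e i| * (2 * ε) := by
      rw [abs_mul]
      exact mul_le_mul_of_nonneg_left h2 (abs_nonneg _)
    have h4 := (abs_le.1 h3).1
    linarith
  have hz : ∑ i ∈ S, (e i * (α i * w.re + α' i * w'.re) - |e i| * (2 * ε)) = - (2 * (∑ i ∈ S, |e i|) * ε) := by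
    rw [Finset.sum_sub_distrib]
    have a1 : ∑ i ∈ S, e i * (α i * w.re + α' i * w'.re) =
        (∑ i ∈ S, e i * α i) * w.re + (∑ i ∈ S, e i * α' i) * w'.re := by
      rw [Finset.sum_mul, Finset.sum_mul, ← Finset.sum_add_distrib]
      apply Finset.sum_congr rfl
      intro i _
      ring
    rw [a1, h1, h2, ← Finset.sum_mul]
    ring
  linarith

/-- first bad block: for every height s either all blocks 1..J are good or there is a first bad one -/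
theorem first_bad (T : ℝ) (y J : ℕ) (s : ℝ) : Good T y J s ∨ ∃ v ∈ Finset.Icc 1 J, Good T y (v - 1) s ∧
    (KT T y v : ℝ) / 100 < ‖Ps (blk y v) (fun _ => 1) (Xp s)‖ := by
  classical
  by_cases hg : Good T y J s
  · exact Or.inl hg
  · right
    have hex : ∃ v, v ∈ Finset.Icc 1 J ∧ (KT T y v : ℝ) / 100 < ‖Ps (blk y v) (fun _ => 1) (Xp s)‖ := by
      unfold Good at hg
      push Not at hg
      obtain ⟨v, hv, hv2⟩ := hg
      exact ⟨v, hv, hv2⟩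
    have hspec := Nat.find_spec hex
    have hmin := fun m (hm : m < Nat.find hex) => Nat.find_min hex hm
    set v := Nat.find hex with hv
    refine ⟨v, hspec.1, ?_, hspec.2⟩
    intro n hn
    have hn' := Finset.mem_Icc.1 hn
    have hvJ := Finset.mem_Icc.1 hspec.1
    have h3 := hmin n (by omega)
    by_contra hcon
    push Not at hcon
    exact h3 ⟨Finset.mem_Icc.2 ⟨hn'.1, by omega⟩, hcon⟩

/-- the maximal number of blocks -/
theorem exists_J (δ : ℝ) (hδ : 0 < δ) (y : ℕ) (hy : 2 ≤ y) : ∃ T0 : ℝ, 3 ≤ T0 ∧ ∀ T : ℝ, T0 ≤ T → ∃ J : ℕ, 1 ≤ J ∧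
    2 ^ J * Real.log y ≤ δ * Real.log T ∧ δ * Real.log T < 2 ^ (J + 1) * Real.log y := by
  have hy' : (1 : ℝ) < y := by exact_mod_cast (by omega : 1 < y)
  have hly : 0 < Real.log y := Real.log_pos hy'
  refine ⟨max 3 (Real.exp (2 * Real.log y / δ)), le_max_left _ _, ?_⟩
  intro T hT
  have hT1 : Real.exp (2 * Real.log y / δ) ≤ T := le_trans (le_max_right _ _) hT
  have hlT : 2 * Real.log y / δ ≤ Real.log T := (Real.le_log_iff_exp_le (lt_of_lt_of_le (Real.exp_pos _) hT1)).2 hT1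
  have hlT' : 2 * Real.log y ≤ δ * Real.log T := by
    rw [div_le_iff₀ hδ] at hlT
    linarith
  set x : ℝ := δ * Real.log T / Real.log y with hx
  have hx2 : 2 ≤ x := by
    rw [hx, le_div_iff₀ hly]
    exact hlT'
  have hfl : 2 ≤ ⌊x⌋₊ := Nat.le_floor (by exact_mod_cast hx2)
  have hfl0 : ⌊x⌋₊ ≠ 0 := by omega
  refine ⟨Nat.log 2 ⌊x⌋₊, ?_, ?_, ?_⟩
  · exact Nat.log_pos (by norm_num) hfl
  · have h1 : 2 ^ Nat.log 2 ⌊x⌋₊ ≤ ⌊x⌋₊ := Nat.pow_log_le_self 2 hfl0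
    have h2 : ((2 : ℝ) ^ Nat.log 2 ⌊x⌋₊) ≤ x := by
      calc ((2 : ℝ) ^ Nat.log 2 ⌊x⌋₊) ≤ (⌊x⌋₊ : ℝ) := by exact_mod_cast h1
        _ ≤ x := Nat.floor_le (by linarith)
    calc 2 ^ Nat.log 2 ⌊x⌋₊ * Real.log y ≤ x * Real.log y := mul_le_mul_of_nonneg_right h2 hly.le
      _ = δ * Real.log T := by rw [hx]; field_simp
  · have h1 : ⌊x⌋₊ < 2 ^ (Nat.log 2 ⌊x⌋₊ + 1) := Nat.lt_pow_succ_log_self (by norm_num) _
    have h2 : x < (2 : ℝ) ^ (Nat.log 2 ⌊x⌋₊ + 1) := by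
      have h3 : x < (⌊x⌋₊ : ℝ) + 1 := Nat.lt_floor_add_one x
      have h4 : (⌊x⌋₊ : ℝ) + 1 ≤ (2 : ℝ) ^ (Nat.log 2 ⌊x⌋₊ + 1) := by exact_mod_cast h1
      linarith
    calc δ * Real.log T = x * Real.log y := by rw [hx]; field_simp
      _ < 2 ^ (Nat.log 2 ⌊x⌋₊ + 1) * Real.log y := mul_lt_mul_of_pos_right h2 hly

end CZ
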