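import Pool.Agent.Lib.MP_9eae41_pr.U1
import Pool.Agent.Lib.MP_9eae41_pr.M4

set_option autoImplicit false

open Complex MeasureTheory Set Filter Topology
open scoped ComplexConjugate ENNReal

namespace CZ

/-! Row U2 (350 lines): the upper bound with a twist. For eta small, |a|^2 close to |Eu|^(2(k-1)) (h + eta) and |b|^2 close to
|Eu|^(2k) (h+eta) from above (sw_upper), so h + eta <= |a|^(2k) |b|^(2(1-k)). On the first bad block v (or J+1):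
Z^(2k) h <= C (Z^2 |a|^2 prod_(n<v) |N_n(k-1)|^2 W_v)^k (|b|^2 prod |N_n(k)|^2 W_v)^(1-k), Hoelder, LL, Sg_const,
adm_bad, DD_zero, prod_small. -/

theorem u2_comp : IsCompact ({X | ∀ p, ‖X p‖ = 1} : Set (ℕ → ℂ)) := by
  have h := isCompact_univ_pi (fun _ : ℕ => isCompact_sphere (0:ℂ) 1)
  convert h using 1
  ext X
  simp [Set.mem_pi]

theorem u2_comp_cont {g : (ℕ → ℂ) → ℝ} (hg : ContinuousOn g {X | ∀ p, ‖X p‖ = 1}) :
    Continuous (fun θ : Om => g (Xt θ)) :=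
  hg.comp_continuous Xt_cont (fun θ p => norm_Xt θ p)

theorem u2_intg {g : (ℕ → ℂ) → ℝ} (hg : ContinuousOn g {X | ∀ p, ‖X p‖ = 1}) :
    Integrable (fun θ : Om => g (Xt θ)) PT := by
  obtain ⟨C, hC⟩ := u2_comp.exists_bound_of_continuousOn hg
  have := PT_prob
  exact Integrable.of_bound (u2_comp_cont hg).aestronglyMeasurable C
    (Eventually.of_forall fun θ => hC _ (norm_Xt θ))

theorem u2_ne {X : ℕ → ℂ} (hX : ∀ p, ‖X p‖ = 1) {p : ℕ} (hp : p.Prime) :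
    1 - X p * ((Real.sqrt p : ℝ) : ℂ)⁻¹ ≠ 0 := by
  intro h
  have h2 : X p * ((Real.sqrt p : ℝ) : ℂ)⁻¹ = 1 := by
    linear_combination -h
  have h3 := congrArg norm h2
  rw [norm_mul, hX p, norm_inv, Complex.norm_real, Real.norm_of_nonneg (Real.sqrt_nonneg _), one_mul, norm_one] at h3
  have h4 : Real.sqrt p = 1 := inv_eq_one.mp h3
  rw [Real.sqrt_eq_one] at h4
  have h5 : p = 1 := by exact_mod_cast h4
  exact hp.one_lt.ne' h5

theorem u2_Eu_ne {s : Finset ℕ} (hs : ∀ p ∈ s, p.Prime) {X : ℕ → ℂ} (hX : ∀ p, ‖X p‖ = 1) : 0 < ‖Eu s X‖ := by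
  rw [norm_pos_iff]
  exact Finset.prod_ne_zero_iff.mpr fun p hp => inv_ne_zero (u2_ne hX (hs p hp))

theorem u2_Eu_cont {s : Finset ℕ} (hs : ∀ p ∈ s, p.Prime) :
    ContinuousOn (fun X => ‖Eu s X‖) {X | ∀ p, ‖X p‖ = 1} := by
  apply ContinuousOn.norm
  unfold Eu
  apply continuousOn_finsetProd
  intro p hp
  apply ContinuousOn.inv₀
  · exact (continuous_const.sub ((continuous_apply p).mul continuous_const)).continuousOn
  · intro X hX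
    exact u2_ne hX (hs p hp)

theorem u2_Eu_rpow {s : Finset ℕ} (hs : ∀ p ∈ s, p.Prime) (r : ℝ) :
    ContinuousOn (fun X => ‖Eu s X‖ ^ r) {X | ∀ p, ‖X p‖ = 1} :=
  (u2_Eu_cont hs).rpow_const fun _ hX => Or.inl (u2_Eu_ne hs hX).ne'

theorem u2_Eu_dep {s : Finset ℕ} {X Y : ℕ → ℂ} (h : ∀ p ∈ s, X p = Y p) : Eu s X = Eu s Y := by
  unfold Eu
  exact Finset.prod_congr rfl fun p hp => by rw [h p hp]

/-- pointwise algebra -/
theorem u2_pt {κ : ℝ} (h0 : 0 < κ) (h1 : κ < 1) {z hh η E A B P1 P2 W c : ℝ} (hz : 0 ≤ z) (hh0 : 0 ≤ hh) (hη : 0 < η)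
    (hE : 0 < E) (hA : E ^ (2 * (κ - 1)) * (hh + η) ≤ A) (hB : E ^ (2 * κ) * (hh + η) ≤ B) (hP1 : 0 ≤ P1) (hP2 : 0 ≤ P2)
    (hP : 1 ≤ c * (P1 ^ κ * P2 ^ (1 - κ))) (hW : 1 ≤ W) :
    z ^ (2 * κ) * hh ≤ c * ((z ^ 2 * (A * (P1 * W))) ^ κ * (B * (P2 * W)) ^ (1 - κ)) := by
  have h1' : 0 < 1 - κ := by linarith
  have hs : 0 < hh + η := by linarith
  have hA0 : 0 < E ^ (2 * (κ - 1)) * (hh + η) := mul_pos (Real.rpow_pos_of_pos hE _) hs
  have hB0 : 0 < E ^ (2 * κ) * (hh + η) := mul_pos (Real.rpow_pos_of_pos hE _) hs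
  have hA1 : 0 ≤ A := hA0.le.trans hA
  have hB1 : 0 ≤ B := hB0.le.trans hB
  have hW0 : 0 < W := by linarith
  have h3 : hh + η ≤ A ^ κ * B ^ (1 - κ) := by
    calc hh + η = (E ^ (2 * (κ - 1)) * (hh + η)) ^ κ * (E ^ (2 * κ) * (hh + η)) ^ (1 - κ) := by
          rw [Real.mul_rpow (Real.rpow_nonneg hE.le _) hs.le, Real.mul_rpow (Real.rpow_nonneg hE.le _) hs.le,
            ← Real.rpow_mul hE.le, ← Real.rpow_mul hE.le]
          have e1 : E ^ (2 * (κ - 1) * κ) * E ^ (2 * κ * (1 - κ)) = 1 := by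
            rw [← Real.rpow_add hE]
            have : 2 * (κ - 1) * κ + 2 * κ * (1 - κ) = 0 := by ring
            rw [this, Real.rpow_zero]
          have e2 : (hh + η) ^ κ * (hh + η) ^ (1 - κ) = hh + η := by
            rw [← Real.rpow_add hs]
            have : κ + (1 - κ) = 1 := by ring
            rw [this, Real.rpow_one]
          calc hh + η = 1 * (hh + η) := by ring
            _ = (E ^ (2 * (κ - 1) * κ) * E ^ (2 * κ * (1 - κ))) * ((hh + η) ^ κ * (hh + η) ^ (1 - κ)) := by rw [e1, e2]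
            _ = _ := by ring
      _ ≤ A ^ κ * B ^ (1 - κ) := by
          apply mul_le_mul (Real.rpow_le_rpow hA0.le hA h0.le) (Real.rpow_le_rpow hB0.le hB h1'.le)
            (Real.rpow_nonneg hB0.le _) (Real.rpow_nonneg hA1 _)
  have eW : W ^ κ * W ^ (1 - κ) = W := by
    rw [← Real.rpow_add hW0]
    have : κ + (1 - κ) = 1 := by ring
    rw [this, Real.rpow_one]
  have ez : (z ^ 2) ^ κ = z ^ (2 * κ) := by
    rw [Real.rpow_mul hz, ← Real.rpow_natCast]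
    norm_num
  have hzz : 0 ≤ z ^ (2 * κ) := Real.rpow_nonneg hz _
  have e3 : c * ((z ^ 2 * (A * (P1 * W))) ^ κ * (B * (P2 * W)) ^ (1 - κ)) =
      (c * (P1 ^ κ * P2 ^ (1 - κ))) * (z ^ (2 * κ) * (A ^ κ * B ^ (1 - κ))) * W := by
    rw [Real.mul_rpow (sq_nonneg z) (mul_nonneg hA1 (mul_nonneg hP1 hW0.le)), Real.mul_rpow hA1 (mul_nonneg hP1 hW0.le),
      Real.mul_rpow hP1 hW0.le, Real.mul_rpow hB1 (mul_nonneg hP2 hW0.le), Real.mul_rpow hP2 hW0.le, ez]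
    calc _ = (c * (P1 ^ κ * P2 ^ (1 - κ))) * (z ^ (2 * κ) * (A ^ κ * B ^ (1 - κ))) * (W ^ κ * W ^ (1 - κ)) := by ring
      _ = _ := by rw [eW]
  rw [e3]
  have h4 : z ^ (2 * κ) * hh ≤ z ^ (2 * κ) * (A ^ κ * B ^ (1 - κ)) :=
    mul_le_mul_of_nonneg_left (by linarith) hzz
  have h5 : 0 ≤ z ^ (2 * κ) * hh := mul_nonneg hzz hh0
  calc z ^ (2 * κ) * hh ≤ z ^ (2 * κ) * (A ^ κ * B ^ (1 - κ)) := h4
    _ = 1 * (z ^ (2 * κ) * (A ^ κ * B ^ (1 - κ))) * 1 := by ring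
    _ ≤ (c * (P1 ^ κ * P2 ^ (1 - κ))) * (z ^ (2 * κ) * (A ^ κ * B ^ (1 - κ))) * W := by
        apply mul_le_mul (mul_le_mul_of_nonneg_right hP (h5.trans h4)) hW zero_le_one
        exact mul_nonneg (zero_le_one.trans hP) (h5.trans h4)

theorem u2_Ps (s : Finset ℕ) (c : ℂ) (X : ℕ → ℂ) : Ps s (fun _ => c) X = c * Ps s (fun _ => 1) X := by
  unfold Ps
  rw [Finset.mul_sum]
  exact Finset.sum_congr rfl fun p _ => by ring

theorem u2_good {κ : ℝ} (h0 : 0 < κ) (h1 : κ < 1) {T : ℝ} {y M : ℕ} {t : ℝ} (hg : Good T y M t)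
    (hK : ∀ n ∈ Finset.Icc 1 M, 2 ≤ KT T y n)
    (hs : ∑ n ∈ Finset.Icc 1 M, Real.exp (-(KT T y n : ℝ) / 2) ≤ 1) :
    1 ≤ Real.exp 4 * ((∏ n ∈ Finset.Icc 1 M, ‖Nn T y n (fun _ => ((κ - 1 : ℝ) : ℂ)) (Xp t)‖ ^ 2) ^ κ *
        (∏ n ∈ Finset.Icc 1 M, ‖Nn T y n (fun _ => (κ : ℂ)) (Xp t)‖ ^ 2) ^ (1 - κ)) := by
  have hb : ∀ n ∈ Finset.Icc 1 M, 1 ≤ Real.exp (4 * Real.exp (-(KT T y n : ℝ) / 2)) *
      ((‖Nn T y n (fun _ => ((κ - 1 : ℝ) : ℂ)) (Xp t)‖ ^ 2) ^ κ *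
        (‖Nn T y n (fun _ => (κ : ℂ)) (Xp t)‖ ^ 2) ^ (1 - κ)) := by
    intro n hn
    have h := good_gen (Finset.univ : Finset (Fin 2)) ![κ - 1, κ] (fun _ => 0) ![2 * κ, 2 * (1 - κ)]
      (by simp [Fin.sum_univ_two]; ring) (by simp) (by
        intro i _
        fin_cases i
        · simp only [Fin.zero_eta, Matrix.cons_val_zero, abs_zero, add_zero]
          rw [abs_le]; constructor <;> linarith
        · simp only [Fin.mk_one, Matrix.cons_val_one, Matrix.cons_val_fin_one, abs_zero, add_zero]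
          rw [abs_le]; constructor <;> linarith)
      (hK n hn) (w := Ps (blk y n) (fun _ => 1) (Xp t)) (w' := 0) (hg n hn) (by simp; positivity)
    rw [Fin.sum_univ_two, Fin.prod_univ_two] at h
    simp only [Matrix.cons_val_zero, Matrix.cons_val_one, Matrix.cons_val_fin_one, mul_zero, add_zero] at h
    rw [abs_of_pos (by linarith : 0 < 2 * κ), abs_of_pos (by linarith : 0 < 2 * (1 - κ))] at h
    have e1 : 2 * (2 * κ + 2 * (1 - κ)) * Real.exp (-(KT T y n : ℝ) / 2) = 4 * Real.exp (-(KT T y n : ℝ) / 2) := by ring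
    rw [e1] at h
    unfold Nn
    rw [u2_Ps _ ((κ - 1 : ℝ) : ℂ), u2_Ps _ (κ : ℂ)]
    have e2 : ∀ (x r : ℝ), 0 ≤ x → (x ^ 2) ^ r = x ^ (2 * r) := by
      intro x r hx
      rw [Real.rpow_mul hx, ← Real.rpow_natCast]
      norm_num
    rw [e2 _ _ (norm_nonneg _), e2 _ _ (norm_nonneg _)]
    exact h
  calc (1:ℝ) = ∏ n ∈ Finset.Icc 1 M, (1:ℝ) := by simp
    _ ≤ ∏ n ∈ Finset.Icc 1 M, (Real.exp (4 * Real.exp (-(KT T y n : ℝ) / 2)) *
      ((‖Nn T y n (fun _ => ((κ - 1 : ℝ) : ℂ)) (Xp t)‖ ^ 2) ^ κ *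
        (‖Nn T y n (fun _ => (κ : ℂ)) (Xp t)‖ ^ 2) ^ (1 - κ))) :=
        Finset.prod_le_prod (fun _ _ => zero_le_one) hb
    _ = Real.exp (4 * ∑ n ∈ Finset.Icc 1 M, Real.exp (-(KT T y n : ℝ) / 2)) *
        ((∏ n ∈ Finset.Icc 1 M, ‖Nn T y n (fun _ => ((κ - 1 : ℝ) : ℂ)) (Xp t)‖ ^ 2) ^ κ *
        (∏ n ∈ Finset.Icc 1 M, ‖Nn T y n (fun _ => (κ : ℂ)) (Xp t)‖ ^ 2) ^ (1 - κ)) := by
        rw [Finset.prod_mul_distrib, Finset.prod_mul_distrib, ← Real.exp_sum, ← Finset.mul_sum,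
          Real.finsetProd_rpow _ _ (fun _ _ => sq_nonneg _), Real.finsetProd_rpow _ _ (fun _ _ => sq_nonneg _)]
    _ ≤ _ := by
        apply mul_le_mul_of_nonneg_right
        · exact Real.exp_le_exp.mpr (by linarith)
        · exact mul_nonneg (Real.rpow_nonneg (Finset.prod_nonneg fun _ _ => sq_nonneg _) _)
            (Real.rpow_nonneg (Finset.prod_nonneg fun _ _ => sq_nonneg _) _)

/-- Hoelder with bounds -/
theorem u2_hol {ν : Measure ℝ} {κ : ℝ} (h0 : 0 < κ) (h1 : κ < 1) {F G : ℝ → ℝ} (hF : Continuous F) (hG : Continuous G)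
    {x x' : ℝ} (hx : ∫⁻ t, ENNReal.ofReal (F t) ∂ν ≤ ENNReal.ofReal x)
    (hx' : ∫⁻ t, ENNReal.ofReal (G t) ∂ν ≤ ENNReal.ofReal x') (h0x : 0 ≤ x) (h0x' : 0 ≤ x') {b : ℝ}
    (hb : x ^ κ * x' ^ (1 - κ) ≤ b) :
    ∫⁻ t, ENNReal.ofReal (F t) ^ κ * ENNReal.ofReal (G t) ^ (1 - κ) ∂ν ≤ ENNReal.ofReal b := by
  have h1' : 0 < 1 - κ := by linarith
  have hFm : AEMeasurable (fun t => ENNReal.ofReal (F t)) ν := hF.measurable.ennreal_ofReal.aemeasurable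
  have hGm : AEMeasurable (fun t => ENNReal.ofReal (G t)) ν := hG.measurable.ennreal_ofReal.aemeasurable
  refine (holder2 hFm hGm h0 h1' (by ring)).trans ?_
  calc _ ≤ ENNReal.ofReal x ^ κ * ENNReal.ofReal x' ^ (1 - κ) :=
        mul_le_mul' (ENNReal.rpow_le_rpow hx h0.le) (ENNReal.rpow_le_rpow hx' h1'.le)
    _ = ENNReal.ofReal (x ^ κ * x' ^ (1 - κ)) := by
        rw [ENNReal.ofReal_rpow_of_nonneg h0x h0.le, ENNReal.ofReal_rpow_of_nonneg h0x' h1'.le,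
          ENNReal.ofReal_mul (Real.rpow_nonneg h0x _)]
    _ ≤ _ := ENNReal.ofReal_le_ofReal hb

/-- arithmetic of the bounds -/
theorem u2_arith {κ : ℝ} (h0 : 0 < κ) (h1 : κ < 1) {C1 C2 Cp lT lY R s1 s2 w : ℝ} {v : ℕ} (hv : 1 ≤ v) (hC1 : 0 < C1)
    (hC2 : 0 < C2) (hCp : 0 < Cp) (hT : 0 < lT) (hY : 0 < lY) (hR : 0 < R) (hw : 0 < w)
    (hs1 : s1 ≤ (κ ^ 2 - 1) * ((v - 1 : ℕ) : ℝ) * Real.log 2 + 1) (hs2 : s2 ≤ κ ^ 2 * ((v - 1 : ℕ) : ℝ) * Real.log 2 + 1) :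
    (C1 * lT * (Cp / lY * R) * Real.exp s1 * w) ^ κ * (C2 * R * Real.exp s2 * w) ^ (1 - κ) ≤
      (C1 ^ κ * C2 ^ (1 - κ) * Cp ^ κ * Real.exp 1 * 2) * (lT ^ (κ ^ 2) * lY ^ (-κ ^ 2)) * R *
        ((2 ^ v * lY / lT) ^ (-(κ - κ ^ 2)) * w) := by
  have h1' : 0 < 1 - κ := by linarith
  have hcast : ((v - 1 : ℕ) : ℝ) = v - 1 := by
    rw [Nat.cast_sub hv]; simp
  rw [hcast] at hs1 hs2
  have e1 : (0:ℝ) < C1 * lT * (Cp / lY * R) * Real.exp s1 * w := by positivity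
  have e2 : (0:ℝ) < C2 * R * Real.exp s2 * w := by positivity
  have e3 : (0:ℝ) < (2:ℝ) ^ v * lY / lT := by positivity
  rw [← Real.log_le_log_iff (by positivity) (by positivity)]
  rw [Real.log_mul (by positivity) (by positivity), Real.log_rpow e1, Real.log_rpow e2]
  have l1 : Real.log (C1 * lT * (Cp / lY * R) * Real.exp s1 * w) =
      Real.log C1 + Real.log lT + (Real.log Cp - Real.log lY + Real.log R) + s1 + Real.log w := by
    rw [Real.log_mul (by positivity) (by positivity), Real.log_mul (by positivity) (by positivity),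
      Real.log_mul (by positivity) (by positivity), Real.log_mul (by positivity) (by positivity),
      Real.log_mul (by positivity) (by positivity), Real.log_div (by positivity) (by positivity), Real.log_exp]
  have l2 : Real.log (C2 * R * Real.exp s2 * w) = Real.log C2 + Real.log R + s2 + Real.log w := by
    rw [Real.log_mul (by positivity) (by positivity), Real.log_mul (by positivity) (by positivity),
      Real.log_mul (by positivity) (by positivity), Real.log_exp]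
  have l3 : Real.log ((C1 ^ κ * C2 ^ (1 - κ) * Cp ^ κ * Real.exp 1 * 2) * (lT ^ (κ ^ 2) * lY ^ (-κ ^ 2)) * R *
        ((2 ^ v * lY / lT) ^ (-(κ - κ ^ 2)) * w)) =
      κ * Real.log C1 + (1 - κ) * Real.log C2 + κ * Real.log Cp + 1 + Real.log 2 +
        (κ ^ 2 * Real.log lT + -κ ^ 2 * Real.log lY) + Real.log R +
        (-(κ - κ ^ 2) * (v * Real.log 2 + Real.log lY - Real.log lT) + Real.log w) := by
    rw [Real.log_mul (by positivity) (by positivity), Real.log_mul (by positivity) (by positivity),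
      Real.log_mul (by positivity) (by positivity), Real.log_mul (by positivity) (by positivity),
      Real.log_mul (by positivity) (by positivity), Real.log_mul (by positivity) (by positivity),
      Real.log_mul (by positivity) (by positivity), Real.log_mul (by positivity) (by positivity),
      Real.log_mul (by positivity) (by positivity), Real.log_rpow hC1, Real.log_rpow hC2, Real.log_rpow hCp,
      Real.log_exp, Real.log_rpow hT, Real.log_rpow hY, Real.log_rpow e3, Real.log_div (by positivity) (by positivity),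
      Real.log_mul (by positivity) (by positivity), Real.log_pow]
  rw [l1, l2, l3]
  have m1 := mul_le_mul_of_nonneg_left hs1 h0.le
  have m2 := mul_le_mul_of_nonneg_left hs2 h1'.le
  have m3 : 0 ≤ Real.log 2 * (1 - κ + κ ^ 2) := mul_nonneg (Real.log_nonneg (by norm_num)) (by nlinarith)
  nlinarith [m1, m2, m3]

theorem u2_cont_Z2 {F : ℝ → ℝ} (hF : Continuous F) (k : ℕ) : Continuous (fun t => Z t ^ k * F t) :=
  (Z_cont.pow k).mul hF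

theorem u2_cont_prod (T : ℝ) (y : ℕ) (hy : 2 ≤ y) (M : ℕ) {c : ℕ → ℂ} (hc : ∀ p, ‖c p‖ ≤ 1) :
    Continuous (fun t : ℝ => ∏ n ∈ Finset.Icc 1 M, ‖Nn T y n c (Xp t)‖ ^ 2) :=
  continuous_finsetProd _ fun n _ => ((dp_cont (dp_Nn T (n := n) hy zero_le_one c hc)).comp Xp_cont).norm.pow 2

theorem u2_cont_W (T : ℝ) (y v : ℕ) :
    Continuous (fun t : ℝ => ‖(((100 / KT T y v : ℝ) : ℂ) * Ps (blk y v) (fun _ => 1) (Xp t)) ^ (KT T y v)‖ ^ 2) := by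
  have h : Continuous (fun X : ℕ → ℂ => Ps (blk y v) (fun _ => 1) X) := by
    unfold Ps
    exact continuous_finsetSum _ fun p _ => (continuous_const.mul (continuous_apply p)).mul continuous_const
  exact (((continuous_const.mul (h.comp Xp_cont)).pow _).norm).pow 2

theorem u2_W_ge {K : ℕ} (hK : 2 ≤ K) {w : ℂ} (hw : (K : ℝ) / 100 < ‖w‖) :
    1 ≤ ‖(((100 / K : ℝ) : ℂ) * w) ^ K‖ ^ 2 := by
  have hK0 : (0:ℝ) < K := by
    have : (2:ℝ) ≤ K := by exact_mod_cast hK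
    linarith
  rw [norm_pow, norm_mul, Complex.norm_real, Real.norm_of_nonneg (by positivity)]
  have h1 : 1 ≤ 100 / (K:ℝ) * ‖w‖ := by
    rw [div_mul_eq_mul_div, le_div_iff₀ hK0]
    linarith
  exact one_le_pow₀ (one_le_pow₀ h1)

theorem upper (κ : ℝ) (h0 : 0 < κ) (h1 : κ < 1) : ∃ (C : ℝ) (y0 : ℕ), 0 < C ∧ 100 ≤ y0 ∧ ∀ y : ℕ, y0 ≤ y →
    ∀ h : (ℕ → ℂ) → ℝ, Continuous h → (∀ X, 0 ≤ h X) → (∀ X Y : ℕ → ℂ, (∀ p ∈ blk y 0, X p = Y p) → h X = h Y) →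
    ∀ ε : ℝ, 0 < ε → ∃ T0 : ℝ, 3 ≤ T0 ∧ ∀ T : ℝ, T0 ≤ T →
    ∫⁻ t, ENNReal.ofReal (Z t ^ (2 * κ) * h (Xp t)) ∂mu T ≤ ENNReal.ofReal (Real.log T ^ (κ ^ 2) *
      (C * Real.log y ^ (-κ ^ 2) * (∫ θ, ‖Eu (blk y 0) (Xt θ)‖ ^ (2 * κ) * h (Xt θ) ∂PT) + ε)) := by
  have h1' : 0 < 1 - κ := by linarith
  have hκκ : 0 < κ - κ ^ 2 := by nlinarith
  obtain ⟨C1, y1, δ1, hC1, hy1, hδ1, hδ1', L1⟩ := LL 1 le_rfl 1 le_rfl
  obtain ⟨C2, y2, δ2, hC2, hy2, hδ2, hδ2', L2⟩ := LL 0 (by norm_num) 1 le_rfl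
  obtain ⟨δ3, hδ3, hδ3', AK⟩ := adm_K 2
  obtain ⟨δ4, hδ4, hδ4', AS⟩ := adm_sum 1 one_pos
  obtain ⟨y3, hy3, SG⟩ := Sg_const
  obtain ⟨Cp, hCp, PS⟩ := prod_small
  obtain ⟨C3, hC3, AB⟩ := adm_bad (κ - κ ^ 2) 1 hκκ.le one_pos
  obtain ⟨δ, hδ, hδa, hδb, hδc, hδd⟩ : ∃ δ : ℝ, 0 < δ ∧ δ ≤ δ1 ∧ δ ≤ δ2 ∧ δ ≤ δ3 ∧ δ ≤ δ4 :=
    ⟨min (min δ1 δ2) (min δ3 δ4), lt_min (lt_min hδ1 hδ2) (lt_min hδ3 hδ4), (min_le_left _ _).trans (min_le_left _ _),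
      (min_le_left _ _).trans (min_le_right _ _), (min_le_right _ _).trans (min_le_left _ _),
      (min_le_right _ _).trans (min_le_right _ _)⟩
  obtain ⟨D, hD, hDe⟩ : ∃ D : ℝ, 0 < D ∧ D = C1 ^ κ * C2 ^ (1 - κ) * Cp ^ κ * Real.exp 1 * 2 := ⟨_, by positivity, rfl⟩
  obtain ⟨C, hC, hCe⟩ : ∃ C : ℝ, 0 < C ∧ C = Real.exp 4 * D * (C3 + δ ^ (-(κ - κ ^ 2))) := ⟨_, by positivity, rfl⟩
  refine ⟨C, max (max y1 y2) y3, hC, hy3.trans (le_max_right _ _), ?_⟩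
  intro y hy h hhc hhp hhd ε hε
  have hyy1 : y1 ≤ y := ((le_max_left _ _).trans (le_max_left _ _)).trans hy
  have hyy2 : y2 ≤ y := ((le_max_right _ _).trans (le_max_left _ _)).trans hy
  have hyy3 : y3 ≤ y := (le_max_right _ _).trans hy
  have hy100 : 100 ≤ y := hy3.trans hyy3
  have hy2' : 2 ≤ y := le_trans (by norm_num) hy100
  have hlY : 0 < Real.log y := Real.log_pos (by exact_mod_cast (lt_of_lt_of_le (by norm_num) hy2' : 1 < y))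
  have hpr : ∀ p ∈ blk y 0, p.Prime := fun p hp => blk_prime hp
  have hprob := PT_prob
  -- parameters
  set lY := Real.log y with hlYe
  obtain ⟨ρ, hρ, hρe⟩ : ∃ ρ : ℝ, 0 < ρ ∧ C * lY ^ (-κ ^ 2) * ρ = ε :=
    ⟨ε / (C * lY ^ (-κ ^ 2)), by positivity, by field_simp⟩
  set R0 := ∫ θ, ‖Eu (blk y 0) (Xt θ)‖ ^ (2 * κ) ∂PT with hR0
  set R2 := ∫ θ, ‖Eu (blk y 0) (Xt θ)‖ ^ 2 ∂PT with hR2
  set R := ∫ θ, ‖Eu (blk y 0) (Xt θ)‖ ^ (2 * κ) * h (Xt θ) ∂PT with hR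
  have hR0n : 0 ≤ R0 := integral_nonneg fun θ => Real.rpow_nonneg (norm_nonneg _) _
  have hR2n : 0 ≤ R2 := integral_nonneg fun θ => sq_nonneg _
  have hRn : 0 ≤ R := integral_nonneg fun θ => mul_nonneg (Real.rpow_nonneg (norm_nonneg _) _) (hhp _)
  obtain ⟨η, hη, hηR⟩ : ∃ η : ℝ, 0 < η ∧ η * R0 ≤ ρ / 3 := by
    refine ⟨ρ / (3 * (R0 + 1)), by positivity, ?_⟩
    rw [div_mul_eq_mul_div, div_le_div_iff₀ (by positivity) (by norm_num)]
    nlinarith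
  obtain ⟨ε', hε', hεR, hε3⟩ : ∃ ε' : ℝ, 0 < ε' ∧ ε' * R2 ≤ ρ / 3 ∧ ε' ≤ ρ / 3 := by
    refine ⟨ρ / (3 * (R2 + 1)), by positivity, ?_, ?_⟩
    · rw [div_mul_eq_mul_div, div_le_div_iff₀ (by positivity) (by norm_num)]
      nlinarith
    · rw [div_le_div_iff₀ (by positivity) (by norm_num)]
      nlinarith
  obtain ⟨ε1, hε1, hε1a, hε1b⟩ : ∃ ε1 : ℝ, 0 < ε1 ∧ ε1 ≤ Cp / lY * (ρ / 3) ∧ ε1 ≤ ρ / 3 :=
    ⟨min (Cp / lY * (ρ / 3)) (ρ / 3), lt_min (by positivity) (by positivity), min_le_left _ _, min_le_right _ _⟩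
  -- approximations
  have hEd : ∀ (r : ℝ) (X Y : ℕ → ℂ), (∀ p ∈ blk y 0, X p = Y p) →
      ‖Eu (blk y 0) X‖ ^ r * (h X + η) = ‖Eu (blk y 0) Y‖ ^ r * (h Y + η) := by
    intro r X Y hXY
    rw [u2_Eu_dep hXY, hhd X Y hXY]
  have hEc : ∀ r : ℝ, ContinuousOn (fun X => ‖Eu (blk y 0) X‖ ^ r * (h X + η)) {X | ∀ p, ‖X p‖ = 1} :=
    fun r => (u2_Eu_rpow hpr r).mul (hhc.add continuous_const).continuousOn
  obtain ⟨Ha, La, A, hHa, hA, hAb⟩ := sw_upper (blk y 0) hpr _ (hEc (2 * (κ - 1))) (hEd _)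
    (fun X hX => mul_nonneg (Real.rpow_nonneg (norm_nonneg _) _) (by linarith [hhp X])) ε' hε'
  obtain ⟨Hb, Lb, B, hHb, hB, hBb⟩ := sw_upper (blk y 0) hpr _ (hEc (2 * κ)) (hEd _)
    (fun X hX => mul_nonneg (Real.rpow_nonneg (norm_nonneg _) _) (by linarith [hhp X])) ε' hε'
  -- torus integrals
  have hAc := dp_cont hA
  have hBc := dp_cont hB
  have hE2c : ContinuousOn (fun X => ‖Eu (blk y 0) X‖ ^ 2) {X | ∀ p, ‖X p‖ = 1} := (u2_Eu_cont hpr).pow 2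
  have hIA : (∫ θ, ‖A (Xt θ)‖ ^ 2 * DD 1 0 (blk y 0) (Xt θ) ∂PT) + ε1 ≤ Cp / lY * (R + ρ) := by
    have hpn : 0 ≤ ∏ p ∈ blk y 0, (1 - 1 / (p : ℝ)) := by
      apply Finset.prod_nonneg
      intro p hp
      have h2 : (1:ℝ) ≤ p := by exact_mod_cast (hpr p hp).one_lt.le
      rw [sub_nonneg, div_le_one (by linarith)]
      exact h2
    have e1 : ∀ θ, ‖A (Xt θ)‖ ^ 2 * DD 1 0 (blk y 0) (Xt θ) ≤ (∏ p ∈ blk y 0, (1 - 1 / (p : ℝ))) *
        ((‖Eu (blk y 0) (Xt θ)‖ ^ (2 * κ) * h (Xt θ) + η * ‖Eu (blk y 0) (Xt θ)‖ ^ (2 * κ)) + ε' * ‖Eu (blk y 0) (Xt θ)‖ ^ 2) := by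
      intro θ
      rw [DD_zero y (norm_Xt θ)]
      have hE := u2_Eu_ne hpr (norm_Xt θ)
      have h2 := (hAb (Xt θ) (norm_Xt θ)).2
      have h3 : ‖Eu (blk y 0) (Xt θ)‖ ^ (2 * (κ - 1)) * ‖Eu (blk y 0) (Xt θ)‖ ^ 2 = ‖Eu (blk y 0) (Xt θ)‖ ^ (2 * κ) := by
        rw [← Real.rpow_natCast, ← Real.rpow_add hE]
        congr 1
        push_cast
        ring
      calc ‖A (Xt θ)‖ ^ 2 * ((∏ p ∈ blk y 0, (1 - 1 / (p : ℝ))) * ‖Eu (blk y 0) (Xt θ)‖ ^ 2)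
          = (∏ p ∈ blk y 0, (1 - 1 / (p : ℝ))) * (‖A (Xt θ)‖ ^ 2 * ‖Eu (blk y 0) (Xt θ)‖ ^ 2) := by ring
        _ ≤ (∏ p ∈ blk y 0, (1 - 1 / (p : ℝ))) * ((‖Eu (blk y 0) (Xt θ)‖ ^ (2 * (κ - 1)) * (h (Xt θ) + η) + ε') *
              ‖Eu (blk y 0) (Xt θ)‖ ^ 2) :=
            mul_le_mul_of_nonneg_left (mul_le_mul_of_nonneg_right h2 (sq_nonneg _)) hpn
        _ = (∏ p ∈ blk y 0, (1 - 1 / (p : ℝ))) * ((‖Eu (blk y 0) (Xt θ)‖ ^ (2 * (κ - 1)) * ‖Eu (blk y 0) (Xt θ)‖ ^ 2) *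
              (h (Xt θ) + η) + ε' * ‖Eu (blk y 0) (Xt θ)‖ ^ 2) := by ring
        _ = _ := by rw [h3]; ring
    have i1 : Integrable (fun θ : Om => ‖Eu (blk y 0) (Xt θ)‖ ^ (2 * κ) * h (Xt θ)) PT :=
      u2_intg ((u2_Eu_rpow hpr (2 * κ)).mul hhc.continuousOn)
    have i2 : Integrable (fun θ : Om => ‖Eu (blk y 0) (Xt θ)‖ ^ (2 * κ)) PT := u2_intg (u2_Eu_rpow hpr (2 * κ))
    have i3 : Integrable (fun θ : Om => ‖Eu (blk y 0) (Xt θ)‖ ^ 2) PT := u2_intg hE2c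
    have i4 : Integrable (fun θ : Om => ‖A (Xt θ)‖ ^ 2 * DD 1 0 (blk y 0) (Xt θ)) PT := by
      have : Integrable (fun θ : Om => ‖A (Xt θ)‖ ^ 2 * ((∏ p ∈ blk y 0, (1 - 1 / (p : ℝ))) * ‖Eu (blk y 0) (Xt θ)‖ ^ 2)) PT :=
        u2_intg (g := fun X => ‖A X‖ ^ 2 * ((∏ p ∈ blk y 0, (1 - 1 / (p : ℝ))) * ‖Eu (blk y 0) X‖ ^ 2))
          ((hAc.norm.pow 2).continuousOn.mul (continuousOn_const.mul hE2c))
      refine this.congr (Eventually.of_forall fun θ => ?_)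
      simp only
      rw [DD_zero y (norm_Xt θ)]
    have e2 : ∫ θ, ‖A (Xt θ)‖ ^ 2 * DD 1 0 (blk y 0) (Xt θ) ∂PT ≤ (∏ p ∈ blk y 0, (1 - 1 / (p : ℝ))) *
        ((R + η * R0) + ε' * R2) := by
      refine (integral_mono i4 (((i1.add (i2.const_mul η)).add (i3.const_mul ε')).const_mul _) e1).trans (le_of_eq ?_)
      rw [integral_const_mul]
      congr 1
      rw [integral_add' (i1.add (i2.const_mul η)) (i3.const_mul ε'), integral_add' i1 (i2.const_mul η), integral_const_mul,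
        integral_const_mul]
    have hq : ∏ p ∈ blk y 0, (1 - 1 / (p : ℝ)) ≤ Cp / lY := PS y hy2'
    have e3 : (∏ p ∈ blk y 0, (1 - 1 / (p : ℝ))) * ((R + η * R0) + ε' * R2) ≤ Cp / lY * (R + ρ / 3 + ρ / 3) := by
      apply mul_le_mul hq (by linarith) (by positivity) (by positivity)
    calc _ ≤ Cp / lY * (R + ρ / 3 + ρ / 3) + Cp / lY * (ρ / 3) := by linarith
      _ = Cp / lY * (R + ρ) := by ring
  have hIB : (∫ θ, ‖B (Xt θ)‖ ^ 2 * DD 0 0 (blk y 0) (Xt θ) ∂PT) + ε1 ≤ R + ρ := by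
    have e1 : ∀ θ, ‖B (Xt θ)‖ ^ 2 * DD 0 0 (blk y 0) (Xt θ) ≤
        (‖Eu (blk y 0) (Xt θ)‖ ^ (2 * κ) * h (Xt θ) + η * ‖Eu (blk y 0) (Xt θ)‖ ^ (2 * κ)) + ε' := by
      intro θ
      have h2 := (hBb (Xt θ) (norm_Xt θ)).2
      simp only [DD, pow_zero, mul_one]
      calc _ ≤ _ := h2
        _ = _ := by ring
    have i1 : Integrable (fun θ : Om => ‖Eu (blk y 0) (Xt θ)‖ ^ (2 * κ) * h (Xt θ)) PT :=
      u2_intg ((u2_Eu_rpow hpr (2 * κ)).mul hhc.continuousOn)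
    have i2 : Integrable (fun θ : Om => ‖Eu (blk y 0) (Xt θ)‖ ^ (2 * κ)) PT := u2_intg (u2_Eu_rpow hpr (2 * κ))
    have i4 : Integrable (fun θ : Om => ‖B (Xt θ)‖ ^ 2 * DD 0 0 (blk y 0) (Xt θ)) PT := by
      simp only [DD, pow_zero, mul_one]
      exact u2_intg (g := fun X => ‖B X‖ ^ 2) (hBc.norm.pow 2).continuousOn
    have e2 : ∫ θ, ‖B (Xt θ)‖ ^ 2 * DD 0 0 (blk y 0) (Xt θ) ∂PT ≤ (R + η * R0) + ε' := by
      refine (integral_mono i4 ((i1.add (i2.const_mul η)).add (integrable_const ε')) e1).trans (le_of_eq ?_)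
      rw [integral_add' (i1.add (i2.const_mul η)) (integrable_const ε'), integral_add' i1 (i2.const_mul η), integral_const_mul]
      simp
      rfl
    linarith
  -- thresholds
  obtain ⟨Ta, hTa, L1'⟩ := L1 y hyy1 A Ha La hA ε1 hε1
  obtain ⟨Tb, hTb, L2'⟩ := L2 y hyy2 B Hb Lb hB ε1 hε1
  obtain ⟨Tc, hTc, EJ⟩ := exists_J δ hδ y hy2'
  refine ⟨max (max Ta Tb) Tc, hTc.trans (le_max_right _ _), ?_⟩
  intro T hT
  have hTTa : Ta ≤ T := ((le_max_left _ _).trans (le_max_left _ _)).trans hT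
  have hTTb : Tb ≤ T := ((le_max_right _ _).trans (le_max_left _ _)).trans hT
  have hTTc : Tc ≤ T := (le_max_right _ _).trans hT
  have hT3 : 3 ≤ T := hTc.trans hTTc
  have hT1 : 1 < T := by linarith
  have hlT : 0 < Real.log T := Real.log_pos hT1
  set lT := Real.log T with hlTe
  obtain ⟨J, hJ1, hJ2, hJ3⟩ := EJ T hTTc
  have hvJ : ∀ v : ℕ, v ≤ J → 2 ^ v * lY ≤ δ * lT := by
    intro v hv
    exact (mul_le_mul_of_nonneg_right (pow_le_pow_right₀ (by norm_num) hv) hlY.le).trans hJ2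
  have hlift : ∀ {v : ℕ} {δ' : ℝ}, v ≤ J → δ ≤ δ' → 2 ^ v * lY ≤ δ' * lT := by
    intro v δ' hv hδ'
    exact (hvJ v hv).trans (mul_le_mul_of_nonneg_right hδ' hlT.le)
  -- coefficients
  have hc1 : ∀ p : ℕ, ‖(fun _ : ℕ => ((κ - 1 : ℝ) : ℂ)) p‖ ≤ 1 := by
    intro p
    simp only [Complex.norm_real, Real.norm_eq_abs]
    rw [abs_le]; constructor <;> linarith
  have hc2 : ∀ p : ℕ, ‖(fun _ : ℕ => (κ : ℂ)) p‖ ≤ 1 := by
    intro p
    simp only [Complex.norm_real, Real.norm_eq_abs]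
    rw [abs_le]; constructor <;> linarith
  have hc3 : ∀ p : ℕ, ‖(fun _ : ℕ => (1 : ℂ)) p‖ ≤ 1 := by
    intro p
    simp
  have hS1 : ∀ M : ℕ, Sg 1 (fun _ => ((κ - 1 : ℝ) : ℂ)) y M ≤ (κ ^ 2 - 1) * (M : ℝ) * Real.log 2 + 1 := by
    intro M
    have := SG y hyy3 1 (κ - 1) M le_rfl
    have h2 := (abs_le.mp this).2
    have e1 : (((1:ℕ):ℝ) + (κ - 1)) ^ 2 - ((1:ℕ):ℝ) = κ ^ 2 - 1 := by push_cast; ring
    rw [e1] at h2
    have h3 : |κ ^ 2 - 1| ≤ 1 := by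
      rw [abs_le]; constructor <;> nlinarith
    linarith
  have hS2 : ∀ M : ℕ, Sg 0 (fun _ => (κ : ℂ)) y M ≤ κ ^ 2 * (M : ℝ) * Real.log 2 + 1 := by
    intro M
    have := SG y hyy3 0 κ M (by norm_num)
    have h2 := (abs_le.mp this).2
    have e1 : (((0:ℕ):ℝ) + κ) ^ 2 - ((0:ℕ):ℝ) = κ ^ 2 := by push_cast; ring
    rw [e1] at h2
    have h3 : |κ ^ 2| ≤ 1 := by
      rw [abs_le]; constructor <;> nlinarith
    linarith
  -- the functions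
  set F : ℕ → ℝ → ℝ := fun v t => Z t ^ (2 * 1) * (‖A (Xp t)‖ ^ 2 *
    ((∏ n ∈ Finset.Icc 1 (v - 1), ‖Nn T y n (fun _ => ((κ - 1 : ℝ) : ℂ)) (Xp t)‖ ^ 2) *
      ‖(((100 / KT T y v : ℝ) : ℂ) * Ps (blk y v) (fun _ => 1) (Xp t)) ^ (KT T y v)‖ ^ 2)) with hF
  set G : ℕ → ℝ → ℝ := fun v t => Z t ^ (2 * 0) * (‖B (Xp t)‖ ^ 2 *
    ((∏ n ∈ Finset.Icc 1 (v - 1), ‖Nn T y n (fun _ => (κ : ℂ)) (Xp t)‖ ^ 2) *
      ‖(((100 / KT T y v : ℝ) : ℂ) * Ps (blk y v) (fun _ => 1) (Xp t)) ^ (KT T y v)‖ ^ 2)) with hG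
  set F' : ℝ → ℝ := fun t => Z t ^ (2 * 1) * (‖A (Xp t)‖ ^ 2 *
    (∏ n ∈ Finset.Icc 1 J, ‖Nn T y n (fun _ => ((κ - 1 : ℝ) : ℂ)) (Xp t)‖ ^ 2)) with hF'
  set G' : ℝ → ℝ := fun t => Z t ^ (2 * 0) * (‖B (Xp t)‖ ^ 2 *
    (∏ n ∈ Finset.Icc 1 J, ‖Nn T y n (fun _ => (κ : ℂ)) (Xp t)‖ ^ 2)) with hG'
  have hFc : ∀ v, Continuous (F v) := fun v => u2_cont_Z2 (((hAc.comp Xp_cont).norm.pow 2).mul
    ((u2_cont_prod T y hy2' (v - 1) hc1).mul (u2_cont_W T y v))) _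
  have hGc : ∀ v, Continuous (G v) := fun v => u2_cont_Z2 (((hBc.comp Xp_cont).norm.pow 2).mul
    ((u2_cont_prod T y hy2' (v - 1) hc2).mul (u2_cont_W T y v))) _
  have hF'c : Continuous F' := u2_cont_Z2 (((hAc.comp Xp_cont).norm.pow 2).mul (u2_cont_prod T y hy2' J hc1)) _
  have hG'c : Continuous G' := u2_cont_Z2 (((hBc.comp Xp_cont).norm.pow 2).mul (u2_cont_prod T y hy2' J hc2)) _
  -- pointwise
  have hpt : ∀ t : ℝ, ENNReal.ofReal (Z t ^ (2 * κ) * h (Xp t)) ≤ ENNReal.ofReal (Real.exp 4) *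
      ((∑ v ∈ Finset.Icc 1 J, ENNReal.ofReal (F v t) ^ κ * ENNReal.ofReal (G v t) ^ (1 - κ)) +
        ENNReal.ofReal (F' t) ^ κ * ENNReal.ofReal (G' t) ^ (1 - κ)) := by
    intro t
    have hz : 0 ≤ Z t := norm_nonneg _
    have hE := u2_Eu_ne hpr (norm_Xp t)
    have hAt := (hAb (Xp t) (norm_Xp t)).1
    have hBt := (hBb (Xp t) (norm_Xp t)).1
    have conv : ∀ {f g : ℝ}, 0 ≤ f → 0 ≤ g → Z t ^ (2 * κ) * h (Xp t) ≤ Real.exp 4 * (f ^ κ * g ^ (1 - κ)) →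
        ENNReal.ofReal (Z t ^ (2 * κ) * h (Xp t)) ≤ ENNReal.ofReal (Real.exp 4) *
          (ENNReal.ofReal f ^ κ * ENNReal.ofReal g ^ (1 - κ)) := by
      intro f g hf hg hle
      rw [ENNReal.ofReal_rpow_of_nonneg hf h0.le, ENNReal.ofReal_rpow_of_nonneg hg h1'.le,
        ← ENNReal.ofReal_mul (Real.rpow_nonneg hf _), ← ENNReal.ofReal_mul (Real.exp_pos 4).le]
      exact ENNReal.ofReal_le_ofReal hle
    rcases first_bad T y J t with hgood | ⟨v, hv, hgv, hbv⟩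
    · have hP := u2_good h0 h1 hgood (AK T y J hy2' hT1 (hlift le_rfl hδc)) (AS T y J hy2' hT1 (hlift le_rfl hδd))
      have := u2_pt h0 h1 hz (hhp (Xp t)) hη hE hAt hBt (Finset.prod_nonneg fun _ _ => sq_nonneg _)
        (Finset.prod_nonneg fun _ _ => sq_nonneg _) hP (le_refl 1)
      have h2 : Z t ^ (2 * κ) * h (Xp t) ≤ Real.exp 4 * (F' t ^ κ * G' t ^ (1 - κ)) := by
        simp only [hF', hG', mul_one, mul_zero, pow_zero, one_mul]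
        simp only [mul_one] at this
        exact this
      have hF'n : 0 ≤ F' t := mul_nonneg (pow_nonneg hz _) (mul_nonneg (sq_nonneg _) (Finset.prod_nonneg fun _ _ => sq_nonneg _))
      have hG'n : 0 ≤ G' t := mul_nonneg (pow_nonneg hz _) (mul_nonneg (sq_nonneg _) (Finset.prod_nonneg fun _ _ => sq_nonneg _))
      exact (conv hF'n hG'n h2).trans (mul_le_mul_right (le_add_self) _)
    · have hv1 := (Finset.mem_Icc.mp hv).1
      have hvJ' := (Finset.mem_Icc.mp hv).2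
      have hK2 : 2 ≤ KT T y v := AK T y J hy2' hT1 (hlift le_rfl hδc) v hv
      have hv1J : v - 1 ≤ J := (Nat.sub_le _ _).trans hvJ'
      have hP := u2_good h0 h1 hgv (AK T y (v - 1) hy2' hT1 (hlift hv1J hδc)) (AS T y (v - 1) hy2' hT1 (hlift hv1J hδd))
      have hW := u2_W_ge hK2 hbv
      have := u2_pt h0 h1 hz (hhp (Xp t)) hη hE hAt hBt (Finset.prod_nonneg fun _ _ => sq_nonneg _)
        (Finset.prod_nonneg fun _ _ => sq_nonneg _) hP hW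
      have h2 : Z t ^ (2 * κ) * h (Xp t) ≤ Real.exp 4 * (F v t ^ κ * G v t ^ (1 - κ)) := by
        simp only [hF, hG, mul_one, mul_zero, pow_zero, one_mul]
        exact this
      have hFn : 0 ≤ F v t := mul_nonneg (pow_nonneg hz _) (mul_nonneg (sq_nonneg _)
        (mul_nonneg (Finset.prod_nonneg fun _ _ => sq_nonneg _) (sq_nonneg _)))
      have hGn : 0 ≤ G v t := mul_nonneg (pow_nonneg hz _) (mul_nonneg (sq_nonneg _)
        (mul_nonneg (Finset.prod_nonneg fun _ _ => sq_nonneg _) (sq_nonneg _)))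
      refine (conv hFn hGn h2).trans (mul_le_mul_right ?_ _)
      refine le_trans ?_ (le_self_add)
      exact Finset.single_le_sum (f := fun v => ENNReal.ofReal (F v t) ^ κ * ENNReal.ofReal (G v t) ^ (1 - κ))
        (fun _ _ => bot_le) hv
  -- integrals
  have hRρ : 0 < R + ρ := by linarith
  set LQ := lT ^ (κ ^ 2) * lY ^ (-κ ^ 2) with hLQ
  have hLQp : 0 < LQ := by positivity
  have hIv : ∀ v ∈ Finset.Icc 1 J, ∫⁻ t, ENNReal.ofReal (F v t) ^ κ * ENNReal.ofReal (G v t) ^ (1 - κ) ∂mu T ≤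
      ENNReal.ofReal (D * LQ * (R + ρ) * ((2 ^ v * lY / lT) ^ (-(κ - κ ^ 2)) * Real.exp (-1 * KT T y v))) := by
    intro v hv
    have hv1 := (Finset.mem_Icc.mp hv).1
    have hvJ' := (Finset.mem_Icc.mp hv).2
    have b1 := (L1' T hTTa v (hlift hvJ' hδa) (fun _ => ((κ - 1 : ℝ) : ℂ)) hc1).2 (fun _ => 1) hc3 hv1
    have b2 := (L2' T hTTb v (hlift hvJ' hδb) (fun _ => (κ : ℂ)) hc2).2 (fun _ => 1) hc3 hv1
    have b1' : ∫⁻ t, ENNReal.ofReal (F v t) ∂mu T ≤ ENNReal.ofReal (C1 * lT * (Cp / lY * (R + ρ)) *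
        Real.exp (Sg 1 (fun _ => ((κ - 1 : ℝ) : ℂ)) y (v - 1)) * Real.exp (-1 * KT T y v)) := by
      refine b1.trans (ENNReal.ofReal_le_ofReal ?_)
      rw [pow_one, neg_one_mul]
      gcongr
    have b2' : ∫⁻ t, ENNReal.ofReal (G v t) ∂mu T ≤ ENNReal.ofReal (C2 * (R + ρ) *
        Real.exp (Sg 0 (fun _ => (κ : ℂ)) y (v - 1)) * Real.exp (-1 * KT T y v)) := by
      refine b2.trans (ENNReal.ofReal_le_ofReal ?_)
      rw [pow_zero, neg_one_mul, mul_one]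
      gcongr
    refine u2_hol h0 h1 (hFc v) (hGc v) b1' b2' (by positivity) (by positivity) ?_
    rw [hDe, hLQ]
    exact u2_arith h0 h1 hv1 hC1 hC2 hCp hlT hlY hRρ (Real.exp_pos _) (hS1 _) (hS2 _)
  have hI' : ∫⁻ t, ENNReal.ofReal (F' t) ^ κ * ENNReal.ofReal (G' t) ^ (1 - κ) ∂mu T ≤
      ENNReal.ofReal (D * LQ * (R + ρ) * δ ^ (-(κ - κ ^ 2))) := by
    have b1 := (L1' T hTTa J (hlift le_rfl hδa) (fun _ => ((κ - 1 : ℝ) : ℂ)) hc1).1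
    have b2 := (L2' T hTTb J (hlift le_rfl hδb) (fun _ => (κ : ℂ)) hc2).1
    have b1' : ∫⁻ t, ENNReal.ofReal (F' t) ∂mu T ≤ ENNReal.ofReal (C1 * lT * (Cp / lY * (R + ρ)) *
        Real.exp (Sg 1 (fun _ => ((κ - 1 : ℝ) : ℂ)) y J) * 1) := by
      refine b1.trans (ENNReal.ofReal_le_ofReal ?_)
      rw [pow_one, mul_one]
      gcongr
    have b2' : ∫⁻ t, ENNReal.ofReal (G' t) ∂mu T ≤ ENNReal.ofReal (C2 * (R + ρ) *
        Real.exp (Sg 0 (fun _ => (κ : ℂ)) y J) * 1) := by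
      refine b2.trans (ENNReal.ofReal_le_ofReal ?_)
      rw [pow_zero, mul_one, mul_one]
      gcongr
    refine u2_hol h0 h1 hF'c hG'c b1' b2' (by positivity) (by positivity) ?_
    refine (u2_arith (v := J + 1) h0 h1 (Nat.le_add_left 1 J) hC1 hC2 hCp hlT hlY hRρ one_pos
      (by simpa using hS1 J) (by simpa using hS2 J)).trans ?_
    rw [← hDe, ← hLQ, mul_one]
    apply mul_le_mul_of_nonneg_left _ (by positivity)
    apply Real.rpow_le_rpow_of_nonpos hδ _ (by linarith)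
    rw [le_div_iff₀ hlT]
    exact hJ3.le
  -- conclusion
  have hsum := AB T y J hy2' hT1 (by
    have := hlift (le_refl J) (hδa.trans hδ1')
    linarith)
  calc ∫⁻ t, ENNReal.ofReal (Z t ^ (2 * κ) * h (Xp t)) ∂mu T
      ≤ ∫⁻ t, ENNReal.ofReal (Real.exp 4) *
      ((∑ v ∈ Finset.Icc 1 J, ENNReal.ofReal (F v t) ^ κ * ENNReal.ofReal (G v t) ^ (1 - κ)) +
        ENNReal.ofReal (F' t) ^ κ * ENNReal.ofReal (G' t) ^ (1 - κ)) ∂mu T := lintegral_mono hpt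
    _ = ENNReal.ofReal (Real.exp 4) * ((∑ v ∈ Finset.Icc 1 J,
          ∫⁻ t, ENNReal.ofReal (F v t) ^ κ * ENNReal.ofReal (G v t) ^ (1 - κ) ∂mu T) +
        ∫⁻ t, ENNReal.ofReal (F' t) ^ κ * ENNReal.ofReal (G' t) ^ (1 - κ) ∂mu T) := by
        have hm : ∀ v ∈ Finset.Icc 1 J, Measurable (fun t => ENNReal.ofReal (F v t) ^ κ * ENNReal.ofReal (G v t) ^ (1 - κ)) :=
          fun v _ => ((hFc v).measurable.ennreal_ofReal.pow_const _).mul ((hGc v).measurable.ennreal_ofReal.pow_const _)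
        have hm' : Measurable (fun t => ENNReal.ofReal (F' t) ^ κ * ENNReal.ofReal (G' t) ^ (1 - κ)) :=
          (hF'c.measurable.ennreal_ofReal.pow_const _).mul (hG'c.measurable.ennreal_ofReal.pow_const _)
        rw [lintegral_const_mul' _ _ ENNReal.ofReal_ne_top, lintegral_add_right _ hm', lintegral_finsetSum _ hm]
    _ ≤ ENNReal.ofReal (Real.exp 4) * ((∑ v ∈ Finset.Icc 1 J, ENNReal.ofReal (D * LQ * (R + ρ) *
          ((2 ^ v * lY / lT) ^ (-(κ - κ ^ 2)) * Real.exp (-1 * KT T y v)))) +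
          ENNReal.ofReal (D * LQ * (R + ρ) * δ ^ (-(κ - κ ^ 2)))) :=
        mul_le_mul_right (add_le_add (Finset.sum_le_sum hIv) hI') _
    _ = ENNReal.ofReal (Real.exp 4 * ((∑ v ∈ Finset.Icc 1 J, D * LQ * (R + ρ) *
          ((2 ^ v * lY / lT) ^ (-(κ - κ ^ 2)) * Real.exp (-1 * KT T y v))) + D * LQ * (R + ρ) * δ ^ (-(κ - κ ^ 2)))) := by
        rw [ENNReal.ofReal_mul (Real.exp_pos 4).le, ENNReal.ofReal_add (Finset.sum_nonneg fun v _ => by positivity)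
          (by positivity), ENNReal.ofReal_sum_of_nonneg (fun v _ => by positivity)]
    _ ≤ ENNReal.ofReal (lT ^ (κ ^ 2) * (C * lY ^ (-κ ^ 2) * R + ε)) := by
        apply ENNReal.ofReal_le_ofReal
        rw [← Finset.mul_sum, ← hρe]
        calc Real.exp 4 * (D * LQ * (R + ρ) * (∑ v ∈ Finset.Icc 1 J,
              (2 ^ v * lY / lT) ^ (-(κ - κ ^ 2)) * Real.exp (-1 * KT T y v)) + D * LQ * (R + ρ) * δ ^ (-(κ - κ ^ 2)))
            ≤ Real.exp 4 * (D * LQ * (R + ρ) * C3 + D * LQ * (R + ρ) * δ ^ (-(κ - κ ^ 2))) := by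
              gcongr
          _ = lT ^ (κ ^ 2) * (C * lY ^ (-κ ^ 2) * R + C * lY ^ (-κ ^ 2) * ρ) := by
              rw [hCe, hLQ]; ring

end CZ
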