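import Pool.Agent.Lib.MP_9eae41_pr.U2
import Pool.Agent.Lib.MP_9eae41_pr.O2
import Pool.Agent.Lib.MP_9eae41_pr.F2

set_option autoImplicit false

open Complex MeasureTheory Set Filter Topology
open scoped ComplexConjugate ENNReal

namespace CZ

/-! Row V1 (250 lines): the first moment S from below. -/

private theorem v1_Eu_meas (s : Finset ℕ) : Measurable (fun θ : Om => Eu s (Xt θ)) := by
  unfold Eu
  refine Finset.measurable_prod _ fun p _ => Measurable.inv ?_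
  refine measurable_const.sub (Measurable.mul_const ?_ _)
  exact ((continuous_apply p).comp Xt_cont).measurable

private theorem v1_dp_meas {S : Finset ℕ} {H : ℕ} {L : ℝ} {F : (ℕ → ℂ) → ℂ} (hF : IsDP S H L F) :
    Measurable (fun θ : Om => F (Xt θ)) := ((dp_cont hF).comp Xt_cont).measurable

private theorem v1_insert (M : ℕ) : Finset.range (M + 1) = insert 0 (Finset.Icc 1 M) := by
  ext x
  simp only [Finset.mem_range, Finset.mem_insert, Finset.mem_Icc]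
  omega

private theorem v1_Eu_union {y : ℕ} (hy : 2 ≤ y) (M : ℕ) (X : ℕ → ℂ) :
    Eu ((Finset.range (M + 1)).biUnion (blk y)) X = ∏ n ∈ Finset.range (M + 1), Eu (blk y n) X := by
  unfold Eu
  rw [Finset.prod_biUnion]
  intro i _ j _ hij
  exact blk_disj hy hij

private theorem v1_len {y : ℕ} (hy : 2 ≤ y) (T : ℝ) (M : ℕ) {η : ℝ}
    (h : ∏ n ∈ Finset.Icc 1 M, ((y : ℝ) ^ (2 ^ n)) ^ (8 * KT T y n) ≤ η) :
    (∏ n ∈ Finset.Icc 1 M, ((1 + 1) * (y : ℝ) ^ (2 ^ n)) ^ (KT T y n)) ^ 2 *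
      (((∏ n ∈ Finset.Icc 1 M, (y ^ (2 ^ n)) ^ (KT T y n) : ℕ) : ℝ)) ^ 4 ≤ η := by
  refine le_trans ?_ h
  push_cast
  rw [← Finset.prod_pow, ← Finset.prod_pow, ← Finset.prod_mul_distrib]
  apply Finset.prod_le_prod
  · intro n _; positivity
  · intro n _
    have hy' : (2 : ℝ) ≤ (y : ℝ) := by exact_mod_cast hy
    have h2 : (2 : ℝ) ≤ (y : ℝ) ^ (2 ^ n) := by
      calc (2 : ℝ) ≤ y := hy'
        _ = (y : ℝ) ^ 1 := (pow_one _).symm
        _ ≤ (y : ℝ) ^ (2 ^ n) := pow_le_pow_right₀ (by linarith) Nat.one_le_two_pow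
    set w := (y : ℝ) ^ (2 ^ n) with hw
    set K := KT T y n with hK
    have hw0 : 0 ≤ w := by positivity
    have e0 : ∀ u v : ℝ, (u ^ K) ^ 2 * (v ^ K) ^ 4 = (u ^ 2 * v ^ 4) ^ K := by
      intro u v
      rw [mul_pow, ← pow_mul, ← pow_mul, ← pow_mul, ← pow_mul, mul_comm 2 K, mul_comm 4 K]
    have e1 : (((1 + 1) * w) ^ K) ^ 2 * (w ^ K) ^ 4 = (((1 + 1) * w) ^ 2 * w ^ 4) ^ K := e0 _ _
    have e2 : w ^ (8 * K) = (w ^ 8) ^ K := by rw [pow_mul]
    rw [e1, e2]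
    apply pow_le_pow_left₀ (by positivity)
    have : (1 + 1) * w ≤ w ^ 2 := by nlinarith
    calc ((1 + 1) * w) ^ 2 * w ^ 4 ≤ (w ^ 2) ^ 2 * w ^ 4 := by
          apply mul_le_mul_of_nonneg_right _ (by positivity)
          exact pow_le_pow_left₀ (by positivity) this 2
      _ = w ^ 8 := by ring

/-- main term of the first moment: F = a prod N_n(k-1), G = b prod N_n(k) -/
theorem first_lower (κ : ℝ) (h0 : 0 < κ) (h1 : κ < 1) : ∃ (c : ℝ) (y0 : ℕ) (δ : ℝ), 0 < c ∧ 100 ≤ y0 ∧ 0 < δ ∧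
    δ ≤ 1/2 ∧ ∀ (y : ℕ), y0 ≤ y → ∀ (A B : (ℕ → ℂ) → ℂ) (H₁ H₂ : ℕ) (L₁ L₂ : ℝ), IsDP (blk y 0) H₁ L₁ A → IsDP (blk y 0) H₂ L₂ B →
    ∀ ε : ℝ, 0 < ε → ∃ T0 : ℝ, 3 ≤ T0 ∧ ∀ T : ℝ, T0 ≤ T → ∀ (M : ℕ), 2 ^ M * Real.log y ≤ δ * Real.log T →
    ENNReal.ofReal (c * (‖∫ θ, Eu (blk y 0) (Xt θ) * (A (Xt θ) * conj (B (Xt θ))) ∂PT‖ - ε) *
      Real.exp (Sg 0 (fun _ => (κ : ℂ)) y M)) ≤
    ∫⁻ t, ENNReal.ofReal (Z t * ((‖A (Xp t)‖ * ∏ n ∈ Finset.Icc 1 M, ‖Nn T y n (fun _ => ((κ - 1 : ℝ) : ℂ)) (Xp t)‖) *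
      (‖B (Xp t)‖ * ∏ n ∈ Finset.Icc 1 M, ‖Nn T y n (fun _ => (κ : ℂ)) (Xp t)‖))) ∂mu T := by
  classical
  obtain ⟨C1, T1, hC1, hT1, hdp⟩ := first_dp
  obtain ⟨C2, K0, hC2, hfirst⟩ := blk_first κ h0 h1
  obtain ⟨y1, hy1, hok⟩ := blk_ok
  obtain ⟨C3, hC3, hEr⟩ := Er_sum
  obtain ⟨δ1, hδ1, hδ1', hlen⟩ := adm_len 8 (1/4) (by norm_num)
  obtain ⟨δ2, hδ2, hδ2', hK⟩ := adm_K K0
  obtain ⟨δ3, hδ3, hδ3', hsum⟩ := adm_sum 1 one_pos
  set c : ℝ := Real.exp (-(C2 * (C3 + 1))) with hc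
  have hcpos : 0 < c := Real.exp_pos _
  refine ⟨c, y1, min (min δ1 δ2) (min δ3 (1/2)), hcpos, hy1, ?_, ?_, ?_⟩
  · exact lt_min (lt_min hδ1 hδ2) (lt_min hδ3 (by norm_num))
  · exact (min_le_right _ _).trans (min_le_right _ _)
  intro y hy A B H₁ H₂ L₁ L₂ hA hB ε hε
  -- eventually the error is small
  set D : ℝ := C1 * (L₁ * L₂ * (H₂ : ℝ) ^ 4) with hD
  have hev : ∀ᶠ T : ℝ in atTop, D * T ^ (-(3/4) : ℝ) < c * ε := by
    have ht : Tendsto (fun T : ℝ => D * T ^ (-(3/4) : ℝ)) atTop (𝓝 (D * 0)) :=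
      (tendsto_rpow_neg_atTop (by norm_num)).const_mul D
    rw [mul_zero] at ht
    exact ht.eventually_lt_const (by positivity)
  obtain ⟨T2, hT2⟩ := Filter.eventually_atTop.mp hev
  refine ⟨max 3 (max T1 T2), le_max_left _ _, ?_⟩
  intro T hT M hM
  have hT3 : 3 ≤ T := (le_max_left _ _).trans hT
  have hTT1 : T1 ≤ T := ((le_max_left _ _).trans (le_max_right _ _)).trans hT
  have hTT2 : T2 ≤ T := ((le_max_right _ _).trans (le_max_right _ _)).trans hT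
  have hT1' : (1 : ℝ) < T := by linarith
  have hTpos : (0 : ℝ) < T := by linarith
  have hlogT : 0 < Real.log T := Real.log_pos hT1'
  have hy2 : 2 ≤ y := by omega
  have hM1 : 2 ^ M * Real.log y ≤ δ1 * Real.log T := hM.trans
    (mul_le_mul_of_nonneg_right ((min_le_left _ _).trans (min_le_left _ _)) hlogT.le)
  have hM2 : 2 ^ M * Real.log y ≤ δ2 * Real.log T := hM.trans
    (mul_le_mul_of_nonneg_right ((min_le_left _ _).trans (min_le_right _ _)) hlogT.le)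
  have hM3 : 2 ^ M * Real.log y ≤ δ3 * Real.log T := hM.trans
    (mul_le_mul_of_nonneg_right ((min_le_right _ _).trans (min_le_left _ _)) hlogT.le)
  have hM4 : 2 ^ M * Real.log y ≤ 1/2 * Real.log T := hM.trans
    (mul_le_mul_of_nonneg_right ((min_le_right _ _).trans (min_le_right _ _)) hlogT.le)
  have hM5 : 2 ^ M * Real.log y ≤ Real.log T := hM4.trans (by linarith)
  have hlen' := v1_len hy2 T M (hlen T y M hy2 hT1' hM1)
  -- coefficients
  set ca : ℕ → ℂ := fun _ => ((κ - 1 : ℝ) : ℂ) with hca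
  set cb : ℕ → ℂ := fun _ => (κ : ℂ) with hcb
  have hca1 : ∀ p, ‖ca p‖ ≤ 1 := by
    intro p
    simp only [hca, Complex.norm_real, Real.norm_eq_abs]
    rw [abs_le]; constructor <;> linarith
  have hcb1 : ∀ p, ‖cb p‖ ≤ 1 := by
    intro p
    simp only [hcb, Complex.norm_real, Real.norm_eq_abs]
    rw [abs_le]; constructor <;> linarith
  set S : Finset ℕ := (Finset.range (M + 1)).biUnion (blk y) with hS
  have hSp : ∀ p ∈ S, p.Prime := by
    intro p hp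
    rw [hS, Finset.mem_biUnion] at hp
    obtain ⟨n, _, hn⟩ := hp
    exact blk_prime hn
  set P : ℝ := ∏ n ∈ Finset.Icc 1 M, ((1 + 1) * (y : ℝ) ^ (2 ^ n)) ^ (KT T y n) with hP
  set Q : ℕ := ∏ n ∈ Finset.Icc 1 M, (y ^ (2 ^ n)) ^ (KT T y n) with hQ
  have hsub0 : blk y 0 ⊆ S := Finset.subset_biUnion_of_mem (blk y) (Finset.mem_range.mpr (by omega))
  have hsubI : (Finset.Icc 1 M).biUnion (blk y) ⊆ S := by
    rw [hS]
    apply Finset.biUnion_subset_biUnion_of_subset_left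
    rw [v1_insert]
    exact Finset.subset_insert _ _
  have hdpN : ∀ d : ℕ → ℂ, (∀ p, ‖d p‖ ≤ 1) → ∀ (E : (ℕ → ℂ) → ℂ) (H : ℕ) (L : ℝ), IsDP (blk y 0) H L E →
      IsDP S (H * Q) (L * P) (fun X => E X * ∏ n ∈ Finset.Icc 1 M, Nn T y n d X) := by
    intro d hd E H L hE
    have hp := dp_prod (Finset.Icc 1 M) (blk y) (fun n => (y ^ (2 ^ n)) ^ (KT T y n))
      (fun n => ((1 + 1) * (y : ℝ) ^ (2 ^ n)) ^ (KT T y n)) (fun n => Nn T y n d)
      (fun n _ => dp_Nn T hy2 zero_le_one d hd)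
    exact dp_mul (dp_mono hE hsub0 le_rfl le_rfl) (dp_mono hp hsubI le_rfl le_rfl)
  have hFdp := hdpN ca hca1 A H₁ L₁ hA
  have hGdp := hdpN cb hcb1 B H₂ L₂ hB
  have hmain := hdp T hTT1 S _ _ _ _ _ _ hSp hFdp hGdp
  set J : ℂ := ∫ t, riemannZeta (1/2 + t * I) * ((A (Xp t) * ∏ n ∈ Finset.Icc 1 M, Nn T y n ca (Xp t)) *
    conj (B (Xp t) * ∏ n ∈ Finset.Icc 1 M, Nn T y n cb (Xp t))) ∂mu T with hJ
  set J0 : ℂ := ∫ θ, Eu (blk y 0) (Xt θ) * (A (Xt θ) * conj (B (Xt θ))) ∂PT with hJ0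
  set f : ℕ → (ℕ → ℂ) → ℂ := fun n X => if n = 0 then Eu (blk y 0) X * (A X * conj (B X)) else
    Eu (blk y n) X * (Nn T y n ca X * conj (Nn T y n cb X)) with hf
  -- torus integral factorises
  have htor : ∫ θ, Eu S (Xt θ) * ((A (Xt θ) * ∏ n ∈ Finset.Icc 1 M, Nn T y n ca (Xt θ)) *
      conj (B (Xt θ) * ∏ n ∈ Finset.Icc 1 M, Nn T y n cb (Xt θ))) ∂PT =
      J0 * ∏ n ∈ Finset.Icc 1 M, ∫ θ, Eu (blk y n) (Xt θ) * (Nn T y n ca (Xt θ) * conj (Nn T y n cb (Xt θ))) ∂PT := by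
    have e1 : ∀ X : ℕ → ℂ, Eu S X * ((A X * ∏ n ∈ Finset.Icc 1 M, Nn T y n ca X) *
        conj (B X * ∏ n ∈ Finset.Icc 1 M, Nn T y n cb X)) = ∏ n ∈ Finset.range (M + 1), f n X := by
      intro X
      rw [hS, v1_Eu_union hy2, v1_insert, Finset.prod_insert (by simp), Finset.prod_insert (by simp)]
      have e2 : ∏ n ∈ Finset.Icc 1 M, f n X = (∏ n ∈ Finset.Icc 1 M, Eu (blk y n) X) *
          ((∏ n ∈ Finset.Icc 1 M, Nn T y n ca X) * ∏ n ∈ Finset.Icc 1 M, conj (Nn T y n cb X)) := by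
        rw [← Finset.prod_mul_distrib, ← Finset.prod_mul_distrib]
        refine Finset.prod_congr rfl fun n hn => ?_
        have hn0 : n ≠ 0 := by
          have := (Finset.mem_Icc.mp hn).1
          omega
        simp only [hf, if_neg hn0]
      rw [e2]
      have e3 : f 0 X = Eu (blk y 0) X * (A X * conj (B X)) := by simp only [hf, if_true]
      rw [e3, map_mul, map_prod]
      ring
    simp only [e1]
    rw [torus_blocks (Finset.range (M + 1)) (blk y)]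
    · rw [v1_insert, Finset.prod_insert (by simp)]
      congr 1
      refine Finset.prod_congr rfl fun n hn => ?_
      have hn0 : n ≠ 0 := by
        have := (Finset.mem_Icc.mp hn).1
        omega
      simp only [hf, if_neg hn0]
    · intro i _ j _ hij
      exact blk_disj hy2 hij
    · intro i _
      by_cases hi : i = 0
      · simp only [hf, if_pos hi]
        exact (v1_Eu_meas _).mul ((v1_dp_meas hA).mul (Complex.continuous_conj.measurable.comp (v1_dp_meas hB)))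
      · simp only [hf, if_neg hi]
        exact (v1_Eu_meas _).mul ((v1_dp_meas (dp_Nn T hy2 zero_le_one ca hca1)).mul
          (Complex.continuous_conj.measurable.comp (v1_dp_meas (dp_Nn T hy2 zero_le_one cb hcb1))))
    · intro i _ X Y hXY
      have hEu : Eu (blk y i) X = Eu (blk y i) Y := by
        unfold Eu
        exact Finset.prod_congr rfl fun p hp => by rw [hXY p hp]
      by_cases hi : i = 0
      · subst hi
        simp only [hf, if_true]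
        rw [hEu, dp_dep hA hXY, dp_dep hB hXY]
      · simp only [hf, if_neg hi]
        rw [hEu, dp_dep (dp_Nn T hy2 zero_le_one ca hca1) hXY, dp_dep (dp_Nn T hy2 zero_le_one cb hcb1) hXY]
  -- lower bound for the product over blocks
  have hprod : c * Real.exp (Sg 0 cb y M) ≤ ‖∏ n ∈ Finset.Icc 1 M,
      ∫ θ, Eu (blk y n) (Xt θ) * (Nn T y n ca (Xt θ) * conj (Nn T y n cb (Xt θ))) ∂PT‖ := by
    rw [norm_prod]
    have hB0 : ∀ n ∈ Finset.Icc 1 M, Bk 0 (blk y n) := by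
      intro n hn
      refine hok y hy T M 0 hT3 hM4 ?_ n hn
      rw [norm_zero]; positivity
    have hstep : ∀ n ∈ Finset.Icc 1 M, Real.exp (κ ^ 2 * (∑ p ∈ blk y n, (1:ℝ) / p) -
        C2 * (Er 0 (blk y n) + Real.exp (-(KT T y n : ℝ)))) ≤
        ‖∫ θ, Eu (blk y n) (Xt θ) * (Nn T y n ca (Xt θ) * conj (Nn T y n cb (Xt θ))) ∂PT‖ := by
      intro n hn
      have := hfirst (blk y n) (hB0 n hn) (KT T y n) (hK T y M hy2 hT1' hM2 n hn)
      exact this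
    refine le_trans ?_ (Finset.prod_le_prod (fun n _ => (Real.exp_pos _).le) hstep)
    rw [← Real.exp_sum, hc, ← Real.exp_add]
    apply Real.exp_le_exp.mpr
    have e0 : ∑ n ∈ Finset.Icc 1 M, C2 * (Er 0 (blk y n) + Real.exp (-(KT T y n : ℝ))) =
        C2 * (∑ n ∈ Finset.Icc 1 M, Er 0 (blk y n) + ∑ n ∈ Finset.Icc 1 M, Real.exp (-(KT T y n : ℝ))) := by
      rw [← Finset.mul_sum, Finset.sum_add_distrib]
    rw [Finset.sum_sub_distrib, e0]
    have e4 : Sg 0 cb y M = ∑ n ∈ Finset.Icc 1 M, κ ^ 2 * (∑ p ∈ blk y n, (1:ℝ) / p) := by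
      unfold Sg Sb
      refine Finset.sum_congr rfl fun n _ => ?_
      rw [Finset.mul_sum]
      refine Finset.sum_congr rfl fun p _ => ?_
      simp only [hcb, Nat.cast_zero, zero_add, Complex.norm_real, Real.norm_eq_abs, sq_abs, sub_zero]
      ring
    rw [e4]
    have e5 : ∑ n ∈ Finset.Icc 1 M, Er 0 (blk y n) ≤ C3 := by
      refine hEr y T M 0 hy2 hT3 hM5 ?_
      rw [norm_zero]; positivity
    have e6 : ∑ n ∈ Finset.Icc 1 M, Real.exp (-(KT T y n : ℝ)) ≤ 1 := by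
      refine le_trans (Finset.sum_le_sum fun n _ => ?_) (hsum T y M hy2 hT1' hM3)
      apply Real.exp_le_exp.mpr
      have : (0 : ℝ) ≤ KT T y n := Nat.cast_nonneg _
      linarith
    nlinarith [mul_le_mul_of_nonneg_left (add_le_add e5 e6) hC2.le]
  -- Sg nonneg
  have hSg : 0 ≤ Sg 0 cb y M := by
    unfold Sg Sb
    refine Finset.sum_nonneg fun n _ => Finset.sum_nonneg fun p _ => ?_
    simp only [Nat.cast_zero, sub_zero]
    positivity
  -- the integral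
  have hJle : ENNReal.ofReal ‖J‖ ≤
      ∫⁻ t, ENNReal.ofReal (Z t * ((‖A (Xp t)‖ * ∏ n ∈ Finset.Icc 1 M, ‖Nn T y n ca (Xp t)‖) *
      (‖B (Xp t)‖ * ∏ n ∈ Finset.Icc 1 M, ‖Nn T y n cb (Xp t)‖))) ∂mu T := by
    rw [ofReal_norm, hJ]
    refine (enorm_integral_le_lintegral_enorm _).trans (le_of_eq ?_)
    refine lintegral_congr fun t => ?_
    rw [← ofReal_norm]
    congr 1
    rw [norm_mul, norm_mul, RCLike.norm_conj, norm_mul, norm_mul, norm_prod, norm_prod]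
    rfl
  refine le_trans (ENNReal.ofReal_le_ofReal ?_) hJle
  -- final inequality
  rw [htor] at hmain
  have herr : C1 * (L₁ * P * (L₂ * P) * ((H₂ * Q : ℕ) : ℝ) ^ 4) / T ≤ c * ε := by
    have hL1 := dp_nonneg hA
    have hL2 := dp_nonneg hB
    have hDn : 0 ≤ D := by rw [hD]; positivity
    have e7 : C1 * (L₁ * P * (L₂ * P) * ((H₂ * Q : ℕ) : ℝ) ^ 4) / T = D * (P ^ 2 * (Q : ℝ) ^ 4) / T := by
      rw [hD]; push_cast; ring
    rw [e7]
    calc D * (P ^ 2 * (Q : ℝ) ^ 4) / T ≤ D * T ^ (1/4 : ℝ) / T := by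
          apply div_le_div_of_nonneg_right _ hTpos.le
          exact mul_le_mul_of_nonneg_left hlen' hDn
      _ = D * T ^ (-(3/4) : ℝ) := by
          rw [mul_div_assoc]
          congr 1
          rw [show (-(3/4) : ℝ) = 1/4 - 1 by norm_num, Real.rpow_sub_one hTpos.ne']
      _ ≤ c * ε := (hT2 T hTT2).le
  have hJlow : ‖J0‖ * (c * Real.exp (Sg 0 cb y M)) - c * ε ≤ ‖J‖ := by
    have h3 := norm_sub_norm_le (J0 * ∏ n ∈ Finset.Icc 1 M,
      ∫ θ, Eu (blk y n) (Xt θ) * (Nn T y n ca (Xt θ) * conj (Nn T y n cb (Xt θ))) ∂PT) J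
    rw [norm_sub_rev] at h3
    have h4 := hmain.trans herr
    rw [norm_mul] at h3
    have h5 := mul_le_mul_of_nonneg_left hprod (norm_nonneg J0)
    linarith
  have hexp1 : 1 ≤ Real.exp (Sg 0 cb y M) := Real.one_le_exp hSg
  have h6 : c * ε ≤ c * ε * Real.exp (Sg 0 cb y M) := le_mul_of_one_le_right (by positivity) hexp1
  calc c * (‖J0‖ - ε) * Real.exp (Sg 0 cb y M)
      = ‖J0‖ * (c * Real.exp (Sg 0 cb y M)) - c * ε * Real.exp (Sg 0 cb y M) := by ring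
    _ ≤ ‖J‖ := by linarith

end CZ
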