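import Pool.Agent.Lib.MP_9eae41_pr.V1

set_option autoImplicit false

open Complex MeasureTheory Set Filter Topology
open scoped ComplexConjugate ENNReal

namespace CZ

/-! Row V2 (350 lines): the lower bound with a twist (Heap-Soundararajan). WLOG h >= eta > 0 (use upper for the difference).
a near m E^(k-1) sqrt h, b near m E^k sqrt h (sw with the same N), Hoelder 1/2, (1-k)/2, k/2 with
G1 = Z^(2k) h, G2 = Z^2 |a|^2 prod |N(k-1)|^2, G3 = |a|^2 |b|^(2/k) h^(-1/k) prod |N(k-1)|^2 |N(k)|^(2/k),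
blk_third_pt, LL3, LL, first_lower. -/


/-! ### pointwise algebra -/

theorem v2_pow_split {x κ : ℝ} (hx : 0 ≤ x) (h0 : 0 < κ) (h1 : κ < 1) : x ^ κ * x ^ (1 - κ) = x := by
  rw [← Real.rpow_add_of_nonneg hx h0.le (by linarith)]
  have : κ + (1 - κ) = 1 := by ring
  rw [this, Real.rpow_one]

theorem v2_pt {κ : ℝ} (h0 : 0 < κ) (h1 : κ < 1) {z a b n1 n2 h w : ℝ} (hz : 0 ≤ z) (ha : 0 ≤ a)
    (hb : 0 ≤ b) (hn1 : 0 ≤ n1) (hn2 : 0 ≤ n2) (hh : 0 < h)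
    (hw : (a ^ 2 * b ^ (2 / κ) * h ^ (-1 / κ)) * (n1 ^ 2 * n2 ^ (2 / κ)) ≤ w) :
    z * ((a * n1) * (b * n2)) ≤
      (z ^ (2 * κ) * h) ^ (1 / 2 : ℝ) * (z ^ 2 * (a ^ 2 * n1 ^ 2)) ^ ((1 - κ) / 2) * w ^ (κ / 2) := by
  have hκ : κ ≠ 0 := h0.ne'
  have p1 : 0 ≤ b ^ (2 / κ) := Real.rpow_nonneg hb _
  have p2 : 0 ≤ n2 ^ (2 / κ) := Real.rpow_nonneg hn2 _
  have p3 : 0 ≤ h ^ (-1 / κ) := Real.rpow_nonneg hh.le _
  have e1 : (z ^ (2 * κ) * h) ^ (1 / 2 : ℝ) = z ^ κ * h ^ (1 / 2 : ℝ) := by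
    rw [Real.mul_rpow (Real.rpow_nonneg hz _) hh.le, ← Real.rpow_mul hz]
    congr 2
    ring
  have e2 : (z ^ 2 * (a ^ 2 * n1 ^ 2)) ^ ((1 - κ) / 2) = z ^ (1 - κ) * a ^ (1 - κ) * n1 ^ (1 - κ) := by
    have : z ^ 2 * (a ^ 2 * n1 ^ 2) = (z * a * n1) ^ (2 : ℝ) := by
      rw [Real.rpow_two]
      ring
    rw [this, ← Real.rpow_mul (by positivity), Real.mul_rpow (by positivity) hn1, Real.mul_rpow hz ha]
    have : 2 * ((1 - κ) / 2) = 1 - κ := by ring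
    rw [this]
  have e3 : ((a ^ 2 * b ^ (2 / κ) * h ^ (-1 / κ)) * (n1 ^ 2 * n2 ^ (2 / κ))) ^ (κ / 2) =
      a ^ κ * b * h ^ (-(1 / 2) : ℝ) * (n1 ^ κ * n2) := by
    rw [Real.mul_rpow (by positivity) (by positivity), Real.mul_rpow (by positivity) p3,
      Real.mul_rpow (by positivity) p1, Real.mul_rpow (by positivity) p2]
    have q1 : (a ^ 2) ^ (κ / 2) = a ^ κ := by
      rw [← Real.rpow_two, ← Real.rpow_mul ha]
      congr 1
      ring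
    have q2 : (n1 ^ 2) ^ (κ / 2) = n1 ^ κ := by
      rw [← Real.rpow_two, ← Real.rpow_mul hn1]
      congr 1
      ring
    have q3 : (b ^ (2 / κ)) ^ (κ / 2) = b := by
      rw [← Real.rpow_mul hb]
      have : 2 / κ * (κ / 2) = 1 := by field_simp
      rw [this, Real.rpow_one]
    have q4 : (n2 ^ (2 / κ)) ^ (κ / 2) = n2 := by
      rw [← Real.rpow_mul hn2]
      have : 2 / κ * (κ / 2) = 1 := by field_simp
      rw [this, Real.rpow_one]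
    have q5 : (h ^ (-1 / κ)) ^ (κ / 2) = h ^ (-(1 / 2) : ℝ) := by
      rw [← Real.rpow_mul hh.le]
      congr 1
      field_simp
    rw [q1, q2, q3, q4, q5]
  have e4 : a ^ κ * b * h ^ (-(1 / 2) : ℝ) * (n1 ^ κ * n2) ≤ w ^ (κ / 2) := by
    rw [← e3]
    exact Real.rpow_le_rpow (by positivity) hw (by positivity)
  rw [e1, e2]
  have hhh : h ^ (1 / 2 : ℝ) * h ^ (-(1 / 2) : ℝ) = 1 := by
    rw [← Real.rpow_add hh]
    simp
  calc z * ((a * n1) * (b * n2))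
      = (z ^ κ * z ^ (1 - κ)) * (((a ^ κ * a ^ (1 - κ)) * (n1 ^ κ * n1 ^ (1 - κ))) * (b * n2)) *
          (h ^ (1 / 2 : ℝ) * h ^ (-(1 / 2) : ℝ)) := by
        rw [v2_pow_split hz h0 h1, v2_pow_split ha h0 h1, v2_pow_split hn1 h0 h1, hhh, mul_one]
    _ = (z ^ κ * h ^ (1 / 2 : ℝ) * (z ^ (1 - κ) * a ^ (1 - κ) * n1 ^ (1 - κ))) *
          (a ^ κ * b * h ^ (-(1 / 2) : ℝ) * (n1 ^ κ * n2)) := by ring
    _ ≤ _ := by
        apply mul_le_mul_of_nonneg_left e4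
        have := Real.rpow_nonneg hz κ
        have := Real.rpow_nonneg hh.le (1 / 2)
        positivity

theorem v2_pt' {κ : ℝ} (h0 : 0 < κ) (h1 : κ < 1) {z a b n1 n2 h w : ℝ} (hz : 0 ≤ z) (ha : 0 ≤ a)
    (hb : 0 ≤ b) (hn1 : 0 ≤ n1) (hn2 : 0 ≤ n2) (hh : 0 < h)
    (hw : (a ^ 2 * b ^ (2 / κ) * h ^ (-1 / κ)) * (n1 ^ 2 * n2 ^ (2 / κ)) ≤ w) :
    ENNReal.ofReal (z * ((a * n1) * (b * n2))) ≤
      ENNReal.ofReal (z ^ (2 * κ) * h) ^ (1 / 2 : ℝ) *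
        ENNReal.ofReal (z ^ 2 * (a ^ 2 * n1 ^ 2)) ^ ((1 - κ) / 2) * ENNReal.ofReal w ^ (κ / 2) := by
  have hw0 : 0 ≤ w := by
    have := Real.rpow_nonneg hb (2 / κ)
    have := Real.rpow_nonneg hn2 (2 / κ)
    have := Real.rpow_nonneg hh.le (-1 / κ)
    refine le_trans ?_ hw
    positivity
  have hz2 := Real.rpow_nonneg hz (2 * κ)
  rw [ENNReal.ofReal_rpow_of_nonneg (by positivity) (by norm_num),
    ENNReal.ofReal_rpow_of_nonneg (by positivity) (by linarith),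
    ENNReal.ofReal_rpow_of_nonneg hw0 (by positivity), ← ENNReal.ofReal_mul (by positivity),
    ← ENNReal.ofReal_mul (by positivity)]
  exact ENNReal.ofReal_le_ofReal (v2_pt h0 h1 hz ha hb hn1 hn2 hh hw)

/-! ### the torus -/

theorem v2_compact : IsCompact {X : ℕ → ℂ | ∀ p, ‖X p‖ = 1} := by
  have h : {X : ℕ → ℂ | ∀ p, ‖X p‖ = 1} = Set.pi univ (fun _ => Metric.sphere (0 : ℂ) 1) := by
    ext X
    simp [Set.mem_pi]
  rw [h]
  exact isCompact_univ_pi (fun _ => isCompact_sphere 0 1)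

theorem v2_max {g : (ℕ → ℂ) → ℝ} (hg : ContinuousOn g {X : ℕ → ℂ | ∀ p, ‖X p‖ = 1}) :
    ∃ M : ℝ, 0 < M ∧ ∀ X : ℕ → ℂ, (∀ p, ‖X p‖ = 1) → |g X| ≤ M := by
  obtain ⟨M, hM⟩ := v2_compact.exists_bound_of_continuousOn hg
  refine ⟨max M 1, by positivity, fun X hX => (hM X hX).trans (le_max_left _ _)⟩

theorem v2_min {g : (ℕ → ℂ) → ℝ} (hg : ContinuousOn g {X : ℕ → ℂ | ∀ p, ‖X p‖ = 1})
    (h0 : ∀ X : ℕ → ℂ, (∀ p, ‖X p‖ = 1) → 0 < g X) :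
    ∃ m : ℝ, 0 < m ∧ ∀ X : ℕ → ℂ, (∀ p, ‖X p‖ = 1) → m ≤ g X := by
  have hne : {X : ℕ → ℂ | ∀ p, ‖X p‖ = 1}.Nonempty := ⟨fun _ => 1, by simp⟩
  obtain ⟨X0, hX0, hmin⟩ := v2_compact.exists_isMinOn hne hg
  exact ⟨g X0, h0 X0 hX0, fun X hX => hmin hX⟩

/-- the logarithm of the finite Euler product -/
noncomputable def v2_ell (s : Finset ℕ) (X : ℕ → ℂ) : ℂ :=
  -∑ p ∈ s, Complex.log (1 - X p * ((Real.sqrt p : ℝ) : ℂ)⁻¹)

theorem v2_small {p : ℕ} (hp : p.Prime) {x : ℂ} (hx : ‖x‖ = 1) :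
    ‖x * ((Real.sqrt p : ℝ) : ℂ)⁻¹‖ < 1 := by
  rw [norm_mul, hx, one_mul, norm_inv, Complex.norm_real, Real.norm_of_nonneg (Real.sqrt_nonneg _)]
  apply inv_lt_one_of_one_lt₀
  rw [Real.lt_sqrt (by norm_num)]
  have := hp.two_le
  have h2 : (2 : ℝ) ≤ p := by exact_mod_cast this
  norm_num
  linarith

theorem v2_slit {u : ℂ} (hu : ‖u‖ < 1) : 1 - u ∈ Complex.slitPlane := by
  left
  have := Complex.re_le_norm u
  simp only [Complex.sub_re, Complex.one_re]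
  linarith

theorem v2_exp_ell {s : Finset ℕ} (hs : ∀ p ∈ s, p.Prime) {X : ℕ → ℂ} (hX : ∀ p, ‖X p‖ = 1) :
    exp (v2_ell s X) = Eu s X := by
  unfold v2_ell Eu
  rw [← Finset.sum_neg_distrib, Complex.exp_sum]
  refine Finset.prod_congr rfl fun p hp => ?_
  rw [Complex.exp_neg, Complex.exp_log]
  exact Complex.slitPlane_ne_zero (v2_slit (v2_small (hs p hp) (hX p)))

theorem v2_ell_cont {s : Finset ℕ} (hs : ∀ p ∈ s, p.Prime) :
    ContinuousOn (v2_ell s) {X : ℕ → ℂ | ∀ p, ‖X p‖ = 1} := by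
  unfold v2_ell
  apply ContinuousOn.neg
  refine continuousOn_finsetSum _ fun p hp => ?_
  apply ContinuousOn.clog
  · apply Continuous.continuousOn
    fun_prop
  · intro X hX
    exact v2_slit (v2_small (hs p hp) (hX p))

theorem v2_ell_dep {s : Finset ℕ} {X Y : ℕ → ℂ} (h : ∀ p ∈ s, X p = Y p) : v2_ell s X = v2_ell s Y := by
  unfold v2_ell
  rw [Finset.sum_congr rfl fun p hp => by rw [h p hp]]

/-- the functions which are approximated -/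
noncomputable def v2_g (s : Finset ℕ) (h : (ℕ → ℂ) → ℝ) (c : ℝ) (X : ℕ → ℂ) : ℂ :=
  exp ((c : ℂ) * v2_ell s X) * ((Real.sqrt (h X) : ℝ) : ℂ)

theorem v2_g_cont {s : Finset ℕ} (hs : ∀ p ∈ s, p.Prime) {h : (ℕ → ℂ) → ℝ} (hc : Continuous h) (c : ℝ) :
    ContinuousOn (v2_g s h c) {X : ℕ → ℂ | ∀ p, ‖X p‖ = 1} := by
  unfold v2_g
  apply ContinuousOn.mul
  · exact (continuousOn_const.mul (v2_ell_cont hs)).cexp
  · apply Continuous.continuousOn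
    exact Complex.continuous_ofReal.comp (Real.continuous_sqrt.comp hc)

theorem v2_g_norm (s : Finset ℕ) {h : (ℕ → ℂ) → ℝ} (c : ℝ) (X : ℕ → ℂ) :
    ‖v2_g s h c X‖ = Real.exp (c * (v2_ell s X).re) * Real.sqrt (h X) := by
  unfold v2_g
  rw [norm_mul, Complex.norm_exp, Complex.norm_real, Real.norm_of_nonneg (Real.sqrt_nonneg _),
    Complex.re_ofReal_mul]

theorem v2_Eu_norm {s : Finset ℕ} (hs : ∀ p ∈ s, p.Prime) {X : ℕ → ℂ} (hX : ∀ p, ‖X p‖ = 1) :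
    ‖Eu s X‖ = Real.exp ((v2_ell s X).re) := by
  rw [← v2_exp_ell hs hX, Complex.norm_exp]

theorem v2_Eu_pow {s : Finset ℕ} (hs : ∀ p ∈ s, p.Prime) {X : ℕ → ℂ} (hX : ∀ p, ‖X p‖ = 1) (c : ℝ) :
    ‖Eu s X‖ ^ c = Real.exp (c * (v2_ell s X).re) := by
  rw [v2_Eu_norm hs hX, ← Real.exp_mul]
  congr 1
  ring

/-- the product `E g_(k-1) conj g_k` -/
theorem v2_prod {s : Finset ℕ} (hs : ∀ p ∈ s, p.Prime) {h : (ℕ → ℂ) → ℝ} (hh : ∀ X, 0 ≤ h X) (κ : ℝ)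
    {X : ℕ → ℂ} (hX : ∀ p, ‖X p‖ = 1) :
    Eu s X * (v2_g s h (κ - 1) X * conj (v2_g s h κ X)) = ((‖Eu s X‖ ^ (2 * κ) * h X : ℝ) : ℂ) := by
  have h1 : Eu s X * v2_g s h (κ - 1) X = v2_g s h κ X := by
    rw [← v2_exp_ell hs hX]
    unfold v2_g
    rw [← mul_assoc, ← Complex.exp_add]
    congr 2
    push_cast
    ring
  rw [← mul_assoc, h1, Complex.mul_conj, Complex.normSq_eq_norm_sq, v2_g_norm, v2_Eu_pow hs hX]
  congr 1
  rw [mul_pow, Real.sq_sqrt (hh X), ← Real.exp_nat_mul]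
  congr 2
  push_cast
  ring

theorem v2_id1 {s : Finset ℕ} (hs : ∀ p ∈ s, p.Prime) {h : (ℕ → ℂ) → ℝ} (hh : ∀ X, 0 ≤ h X) (κ : ℝ)
    {X : ℕ → ℂ} (hX : ∀ p, ‖X p‖ = 1) :
    ‖v2_g s h (κ - 1) X‖ ^ 2 * ‖Eu s X‖ ^ 2 = ‖Eu s X‖ ^ (2 * κ) * h X := by
  rw [v2_g_norm, v2_Eu_pow hs hX, v2_Eu_norm hs hX, mul_pow, Real.sq_sqrt (hh X), ← Real.exp_nat_mul,
    ← Real.exp_nat_mul]
  have : Real.exp ((2 : ℕ) * ((κ - 1) * (v2_ell s X).re)) * h X * Real.exp ((2 : ℕ) * (v2_ell s X).re) =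
      (Real.exp ((2 : ℕ) * ((κ - 1) * (v2_ell s X).re)) * Real.exp ((2 : ℕ) * (v2_ell s X).re)) * h X := by
    ring
  rw [this, ← Real.exp_add]
  congr 2
  push_cast
  ring

theorem v2_id2 {s : Finset ℕ} (hs : ∀ p ∈ s, p.Prime) {h : (ℕ → ℂ) → ℝ} (hh : ∀ X, 0 < h X) {κ : ℝ}
    (h0 : 0 < κ) {X : ℕ → ℂ} (hX : ∀ p, ‖X p‖ = 1) :
    ‖v2_g s h (κ - 1) X‖ ^ 2 * ‖v2_g s h κ X‖ ^ (2 / κ) * h X ^ (-1 / κ) = ‖Eu s X‖ ^ (2 * κ) * h X := by
  rw [← v2_id1 hs (fun X => (hh X).le) κ hX, mul_assoc]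
  congr 1
  have hhX := hh X
  rw [v2_g_norm, v2_Eu_norm hs hX, Real.mul_rpow (Real.exp_pos _).le (Real.sqrt_nonneg _),
    ← Real.exp_mul, Real.sqrt_eq_rpow, ← Real.rpow_mul hhX.le, mul_assoc, ← Real.rpow_add hhX,
    ← Real.exp_nat_mul]
  have e1 : (1 / 2 : ℝ) * (2 / κ) + -1 / κ = 0 := by
    field_simp
    ring
  rw [e1, Real.rpow_zero, mul_one]
  congr 1
  push_cast
  field_simp


theorem v2_Xt_mem (θ : Om) : Xt θ ∈ {X : ℕ → ℂ | ∀ p, ‖X p‖ = 1} := fun p => norm_Xt θ p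

theorem v2_comp_cont {E : Type} [TopologicalSpace E] {g : (ℕ → ℂ) → E}
    (hg : ContinuousOn g {X : ℕ → ℂ | ∀ p, ‖X p‖ = 1}) : Continuous (fun θ : Om => g (Xt θ)) :=
  hg.comp_continuous Xt_cont v2_Xt_mem

theorem v2_Eu_cont {s : Finset ℕ} (hs : ∀ p ∈ s, p.Prime) :
    ContinuousOn (Eu s) {X : ℕ → ℂ | ∀ p, ‖X p‖ = 1} := by
  refine ContinuousOn.congr (v2_ell_cont hs).cexp ?_
  intro X hX
  exact (v2_exp_ell hs hX).symm

theorem v2_approx {κ : ℝ} (h0 : 0 < κ) (y : ℕ) {h : (ℕ → ℂ) → ℝ} (hc : Continuous h)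
    (hpos : ∀ X, 0 < h X) (hd : ∀ X Y : ℕ → ℂ, (∀ p ∈ blk y 0, X p = Y p) → h X = h Y) {ε : ℝ}
    (hε : 0 < ε) :
    ∃ (H₁ H₂ H₃ : ℕ) (L₁ L₂ L₃ : ℝ) (a b F : (ℕ → ℂ) → ℂ), IsDP (blk y 0) H₁ L₁ a ∧
      IsDP (blk y 0) H₂ L₂ b ∧ IsDP (blk y 0) H₃ L₃ F ∧
      (∀ X : ℕ → ℂ, (∀ p, ‖X p‖ = 1) →
        ‖a X‖ ^ 2 * ‖Eu (blk y 0) X‖ ^ 2 ≤ 4 * (‖Eu (blk y 0) X‖ ^ (2 * κ) * h X)) ∧
      (∀ X : ℕ → ℂ, (∀ p, ‖X p‖ = 1) → ‖a X‖ ^ 2 * ‖b X‖ ^ (2 / κ) * h X ^ (-1 / κ) ≤ ‖F X‖ ^ 2 ∧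
         ‖F X‖ ^ 2 ≤ 4 * 2 ^ (2 / κ) * (‖Eu (blk y 0) X‖ ^ (2 * κ) * h X) + ε) ∧
      (∫ θ, ‖Eu (blk y 0) (Xt θ)‖ ^ (2 * κ) * h (Xt θ) ∂PT) - ε ≤
        ‖∫ θ, Eu (blk y 0) (Xt θ) * (a (Xt θ) * conj (b (Xt θ))) ∂PT‖ := by
  haveI := PT_prob
  set s := blk y 0 with hsdef
  have hs : ∀ p ∈ s, p.Prime := fun p hp => blk_prime (y := y) (n := 0) hp
  set ga := v2_g s h (κ - 1) with hga
  set gb := v2_g s h κ with hgb
  have hgac := v2_g_cont hs hc (κ - 1)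
  have hgbc := v2_g_cont hs hc κ
  have hgapos : ∀ X : ℕ → ℂ, (∀ p, ‖X p‖ = 1) → 0 < ‖ga X‖ := by
    intro X _
    rw [hga, v2_g_norm]
    exact mul_pos (Real.exp_pos _) (Real.sqrt_pos.mpr (hpos X))
  have hgbpos : ∀ X : ℕ → ℂ, (∀ p, ‖X p‖ = 1) → 0 < ‖gb X‖ := by
    intro X _
    rw [hgb, v2_g_norm]
    exact mul_pos (Real.exp_pos _) (Real.sqrt_pos.mpr (hpos X))
  obtain ⟨ma, hma, hma'⟩ := v2_min hgac.norm hgapos
  obtain ⟨mb, hmb, hmb'⟩ := v2_min hgbc.norm hgbpos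
  obtain ⟨Ma, hMa, hMa'⟩ := v2_max hgac.norm
  obtain ⟨Mb, hMb, hMb'⟩ := v2_max hgbc.norm
  obtain ⟨ME, hME, hME'⟩ := v2_max (v2_Eu_cont hs).norm
  simp only [abs_norm] at hMa' hMb' hME'
  set e : ℝ := min (min ma mb) (ε / (ME * (Mb + 2 * Ma))) with he
  have he0 : 0 < e := by
    apply lt_min (lt_min hma hmb)
    positivity
  have hea : e ≤ ma := (min_le_left _ _).trans (min_le_left _ _)
  have heb : e ≤ mb := (min_le_left _ _).trans (min_le_right _ _)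
  have hee : e * (ME * (Mb + 2 * Ma)) ≤ ε := by
    have : e ≤ ε / (ME * (Mb + 2 * Ma)) := min_le_right _ _
    rwa [le_div_iff₀ (by positivity)] at this
  have hgad : ∀ X Y : ℕ → ℂ, (∀ p ∈ s, X p = Y p) → ga X = ga Y := by
    intro X Y hXY
    rw [hga]
    unfold v2_g
    rw [v2_ell_dep hXY, hd X Y hXY]
  have hgbd : ∀ X Y : ℕ → ℂ, (∀ p ∈ s, X p = Y p) → gb X = gb Y := by
    intro X Y hXY
    rw [hgb]
    unfold v2_g
    rw [v2_ell_dep hXY, hd X Y hXY]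
  obtain ⟨Na, hNa⟩ := sw s hs ga hgac hgad e he0
  obtain ⟨Nb, hNb⟩ := sw s hs gb hgbc hgbd e he0
  obtain ⟨H₁, L₁, a, -, ha, ha'⟩ := hNa (max Na Nb) (le_max_left _ _)
  obtain ⟨H₂, L₂, b, -, hb, hb'⟩ := hNb (max Na Nb) (le_max_right _ _)
  set N := max Na Nb with hN
  have hm1 : ∀ X : ℕ → ℂ, (∀ p, ‖X p‖ = 1) → ‖(∏ p ∈ s, X p) ^ N‖ = 1 := by
    intro X hX
    rw [norm_pow, norm_prod, Finset.prod_congr rfl fun p _ => hX p, Finset.prod_const_one, one_pow]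
  have hna : ∀ X : ℕ → ℂ, (∀ p, ‖X p‖ = 1) → ‖a X‖ ≤ 2 * ‖ga X‖ := by
    intro X hX
    have h2 : ‖a X‖ ≤ ‖a X - (∏ p ∈ s, X p) ^ N * ga X‖ + ‖(∏ p ∈ s, X p) ^ N * ga X‖ := by
      have := norm_add_le (a X - (∏ p ∈ s, X p) ^ N * ga X) ((∏ p ∈ s, X p) ^ N * ga X)
      rwa [sub_add_cancel] at this
    rw [norm_mul, hm1 X hX, one_mul] at h2
    have h3 := ha' X hX
    have h4 := hma' X hX
    have h4' : ma ≤ ‖ga X‖ := h4
    linarith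
  have hnb : ∀ X : ℕ → ℂ, (∀ p, ‖X p‖ = 1) → ‖b X‖ ≤ 2 * ‖gb X‖ := by
    intro X hX
    have h2 : ‖b X‖ ≤ ‖b X - (∏ p ∈ s, X p) ^ N * gb X‖ + ‖(∏ p ∈ s, X p) ^ N * gb X‖ := by
      have := norm_add_le (b X - (∏ p ∈ s, X p) ^ N * gb X) ((∏ p ∈ s, X p) ^ N * gb X)
      rwa [sub_add_cancel] at this
    rw [norm_mul, hm1 X hX, one_mul] at h2
    have h3 := hb' X hX
    have h4' : mb ≤ ‖gb X‖ := hmb' X hX
    linarith
  have hac := dp_cont ha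
  have hbc := dp_cont hb
  have h2κ : 0 ≤ 2 / κ := by positivity
  have hg3c : ContinuousOn (fun X : ℕ → ℂ => ‖a X‖ ^ 2 * ‖b X‖ ^ (2 / κ) * h X ^ (-1 / κ))
      {X : ℕ → ℂ | ∀ p, ‖X p‖ = 1} := by
    apply Continuous.continuousOn
    refine ((hac.norm.pow 2).mul (hbc.norm.rpow_const fun _ => Or.inr h2κ)).mul
      (hc.rpow_const fun X => Or.inl (hpos X).ne')
  obtain ⟨H₃, L₃, F, -, hF, hF'⟩ := sw_upper s hs
    (fun X : ℕ → ℂ => ‖a X‖ ^ 2 * ‖b X‖ ^ (2 / κ) * h X ^ (-1 / κ)) hg3c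
    (by
      intro X Y hXY
      rw [dp_dep ha hXY, dp_dep hb hXY, hd X Y hXY])
    (by
      intro X _
      have := Real.rpow_nonneg (norm_nonneg (b X)) (2 / κ)
      have := Real.rpow_nonneg (hpos X).le (-1 / κ)
      positivity) ε hε
  refine ⟨H₁, H₂, H₃, L₁, L₂, L₃, a, b, F, ha, hb, hF, ?_, ?_, ?_⟩
  · intro X hX
    rw [← v2_id1 hs (fun X => (hpos X).le) κ hX]
    have h2 := hna X hX
    calc ‖a X‖ ^ 2 * ‖Eu s X‖ ^ 2 ≤ (2 * ‖ga X‖) ^ 2 * ‖Eu s X‖ ^ 2 := by gcongr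
      _ = 4 * (‖ga X‖ ^ 2 * ‖Eu s X‖ ^ 2) := by ring
  · intro X hX
    obtain ⟨f1, f2⟩ := hF' X hX
    refine ⟨f1, f2.trans ?_⟩
    have h3 := hna X hX
    have h4 := hnb X hX
    have p1 := Real.rpow_nonneg (hpos X).le (-1 / κ)
    have h5 : ‖b X‖ ^ (2 / κ) ≤ (2 * ‖gb X‖) ^ (2 / κ) :=
      Real.rpow_le_rpow (norm_nonneg _) h4 h2κ
    rw [← v2_id2 hs hpos h0 hX]
    have h6 : ‖a X‖ ^ 2 * ‖b X‖ ^ (2 / κ) * h X ^ (-1 / κ) ≤
        (2 * ‖ga X‖) ^ 2 * (2 * ‖gb X‖) ^ (2 / κ) * h X ^ (-1 / κ) := by gcongr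
    have h7 : (2 * ‖ga X‖) ^ 2 * (2 * ‖gb X‖) ^ (2 / κ) * h X ^ (-1 / κ) =
        4 * 2 ^ (2 / κ) * (‖ga X‖ ^ 2 * ‖gb X‖ ^ (2 / κ) * h X ^ (-1 / κ)) := by
      rw [Real.mul_rpow (by norm_num) (norm_nonneg _)]
      ring
    rw [h7] at h6
    linarith
  · set f0 : Om → ℂ := fun θ => Eu s (Xt θ) * (((∏ p ∈ s, Xt θ p) ^ N * ga (Xt θ)) *
      conj ((∏ p ∈ s, Xt θ p) ^ N * gb (Xt θ))) with hf0
    set f : Om → ℂ := fun θ => Eu s (Xt θ) * (a (Xt θ) * conj (b (Xt θ))) with hf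
    have hEc : Continuous (fun θ : Om => Eu s (Xt θ)) := v2_comp_cont (v2_Eu_cont hs)
    have hgac' : Continuous (fun θ : Om => ga (Xt θ)) := v2_comp_cont hgac
    have hgbc' : Continuous (fun θ : Om => gb (Xt θ)) := v2_comp_cont hgbc
    have hac' : Continuous (fun θ : Om => a (Xt θ)) := hac.comp Xt_cont
    have hbc' : Continuous (fun θ : Om => b (Xt θ)) := hbc.comp Xt_cont
    have hmc' : Continuous (fun θ : Om => (∏ p ∈ s, Xt θ p) ^ N) := by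
      refine Continuous.pow ?_ N
      exact continuous_finsetProd _ fun p _ => (continuous_apply p).comp Xt_cont
    have hf0e : ∀ θ, f0 θ = ((‖Eu s (Xt θ)‖ ^ (2 * κ) * h (Xt θ) : ℝ) : ℂ) := by
      intro θ
      rw [← v2_prod hs (fun X => (hpos X).le) κ (v2_Xt_mem θ), hf0]
      simp only [map_mul]
      have hm2 : (∏ p ∈ s, Xt θ p) ^ N * conj ((∏ p ∈ s, Xt θ p) ^ N) = 1 := by
        rw [Complex.mul_conj, Complex.normSq_eq_norm_sq, hm1 (Xt θ) (v2_Xt_mem θ)]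
        simp
      calc Eu s (Xt θ) * ((∏ p ∈ s, Xt θ p) ^ N * ga (Xt θ) *
            (conj ((∏ p ∈ s, Xt θ p) ^ N) * conj (gb (Xt θ))))
          = Eu s (Xt θ) * (ga (Xt θ) * conj (gb (Xt θ))) *
            ((∏ p ∈ s, Xt θ p) ^ N * conj ((∏ p ∈ s, Xt θ p) ^ N)) := by ring
        _ = _ := by rw [hm2, mul_one]
    have hR : ∫ θ, f0 θ ∂PT =
        ((∫ θ, ‖Eu s (Xt θ)‖ ^ (2 * κ) * h (Xt θ) ∂PT : ℝ) : ℂ) := by
      exact (integral_congr_ae (Filter.Eventually.of_forall hf0e)).trans integral_ofReal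
    have hR0 : 0 ≤ ∫ θ, ‖Eu s (Xt θ)‖ ^ (2 * κ) * h (Xt θ) ∂PT := by
      apply integral_nonneg
      intro θ
      have := hpos (Xt θ)
      have := Real.rpow_nonneg (norm_nonneg (Eu s (Xt θ))) (2 * κ)
      simp only [Pi.zero_apply]
      positivity
    have hf0c : Continuous f0 := by
      rw [hf0]
      exact hEc.mul ((hmc'.mul hgac').mul (Complex.continuous_conj.comp (hmc'.mul hgbc')))
    have hfc : Continuous f := by
      rw [hf]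
      exact hEc.mul (hac'.mul (Complex.continuous_conj.comp hbc'))
    have hdiff : ∀ θ, ‖f0 θ - f θ‖ ≤ ε := by
      intro θ
      have hX := v2_Xt_mem θ
      have e1 : f0 θ - f θ = Eu s (Xt θ) *
          (((∏ p ∈ s, Xt θ p) ^ N * ga (Xt θ) - a (Xt θ)) *
              conj ((∏ p ∈ s, Xt θ p) ^ N * gb (Xt θ)) +
            a (Xt θ) * conj ((∏ p ∈ s, Xt θ p) ^ N * gb (Xt θ) - b (Xt θ))) := by
        rw [hf0, hf]
        simp only [map_sub]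
        ring
      have e2 : ‖(∏ p ∈ s, Xt θ p) ^ N * ga (Xt θ) - a (Xt θ)‖ ≤ e := by
        rw [norm_sub_rev]
        exact ha' (Xt θ) hX
      have e3 : ‖(∏ p ∈ s, Xt θ p) ^ N * gb (Xt θ) - b (Xt θ)‖ ≤ e := by
        rw [norm_sub_rev]
        exact hb' (Xt θ) hX
      have e4 : ‖(∏ p ∈ s, Xt θ p) ^ N * gb (Xt θ)‖ ≤ Mb := by
        rw [norm_mul, hm1 (Xt θ) hX, one_mul]
        exact hMb' (Xt θ) hX
      have e5 : ‖a (Xt θ)‖ ≤ 2 * Ma := by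
        have := hna (Xt θ) hX
        have := hMa' (Xt θ) hX
        have h3 : ‖ga (Xt θ)‖ ≤ Ma := this
        linarith
      have e6 : ‖Eu s (Xt θ)‖ ≤ ME := hME' (Xt θ) hX
      rw [e1, norm_mul]
      have e7 : ‖((∏ p ∈ s, Xt θ p) ^ N * ga (Xt θ) - a (Xt θ)) *
              conj ((∏ p ∈ s, Xt θ p) ^ N * gb (Xt θ)) +
            a (Xt θ) * conj ((∏ p ∈ s, Xt θ p) ^ N * gb (Xt θ) - b (Xt θ))‖ ≤ e * Mb + 2 * Ma * e := by
        refine (norm_add_le _ _).trans ?_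
        rw [norm_mul, norm_mul, Complex.norm_conj, Complex.norm_conj]
        exact add_le_add (mul_le_mul e2 e4 (norm_nonneg _) he0.le)
          (mul_le_mul e5 e3 (norm_nonneg _) (by positivity))
      calc ‖Eu s (Xt θ)‖ * _ ≤ ME * (e * Mb + 2 * Ma * e) :=
            mul_le_mul e6 e7 (norm_nonneg _) hME.le
        _ = e * (ME * (Mb + 2 * Ma)) := by ring
        _ ≤ ε := hee
    have hf0b : ∀ θ, ‖f0 θ‖ ≤ ME * (Ma * Mb) := by
      intro θ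
      have hX := v2_Xt_mem θ
      rw [hf0]
      simp only [norm_mul, Complex.norm_conj, hm1 (Xt θ) hX, one_mul]
      exact mul_le_mul (hME' _ hX) (mul_le_mul (hMa' _ hX) (hMb' _ hX) (norm_nonneg _) hMa.le)
        (by positivity) hME.le
    have hf0i : Integrable f0 PT :=
      Integrable.of_bound hf0c.aestronglyMeasurable _ (Filter.Eventually.of_forall hf0b)
    have hdi : Integrable (fun θ => f0 θ - f θ) PT :=
      Integrable.of_bound (hf0c.sub hfc).aestronglyMeasurable _ (Filter.Eventually.of_forall hdiff)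
    have hfi : Integrable f PT := by
      have := hf0i.sub hdi
      refine this.congr (Filter.Eventually.of_forall fun θ => ?_)
      simp
    have h8 : ‖∫ θ, (f0 θ - f θ) ∂PT‖ ≤ ε := by
      have := norm_integral_le_of_norm_le_const (μ := PT) (f := fun θ => f0 θ - f θ)
        (Filter.Eventually.of_forall hdiff)
      simpa using this
    rw [integral_sub hf0i hfi, hR] at h8
    have h9 := norm_sub_norm_le ((∫ θ, ‖Eu s (Xt θ)‖ ^ (2 * κ) * h (Xt θ) ∂PT : ℝ) : ℂ)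
      (∫ θ, f θ ∂PT)
    rw [Complex.norm_real, Real.norm_of_nonneg hR0] at h9
    linarith


theorem v2_Z_cont : Continuous Z := by
  unfold Z
  have h : Continuous (fun t : ℝ => riemannZeta (1 / 2 + t * I)) := by
    rw [continuous_iff_continuousAt]
    intro t
    have h1 : (1 / 2 + (t : ℂ) * I) ≠ 1 := by
      intro h
      have := congrArg Complex.re h
      norm_num at this
    have h2 : ContinuousAt riemannZeta (1 / 2 + (t : ℂ) * I) :=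
      (differentiableAt_riemannZeta h1).continuousAt
    have h3 : ContinuousAt (fun t : ℝ => (1 / 2 + (t : ℂ) * I)) t := by fun_prop
    exact ContinuousAt.comp (f := fun t : ℝ => (1 / 2 + (t : ℂ) * I)) (g := riemannZeta) h2 h3
  exact h.norm

theorem v2_Ps_const (s : Finset ℕ) (c : ℂ) (X : ℕ → ℂ) :
    Ps s (fun _ => c) X = c * Ps s (fun _ => 1) X := by
  unfold Ps
  rw [Finset.mul_sum]
  refine Finset.sum_congr rfl fun p _ => ?_
  ring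

theorem v2_Nn_cont (T : ℝ) {y : ℕ} (n : ℕ) (c : ℕ → ℂ) : Continuous (Nn T y n c) := by
  unfold Nn Ek Ps
  fun_prop

/-- powers of two and exponentials -/
theorem v2_exp_pow (M : ℕ) (c : ℝ) : Real.exp (c * M * Real.log 2) = ((2 : ℝ) ^ M) ^ c := by
  rw [Real.rpow_def_of_pos (by positivity), Real.log_pow]
  congr 1
  ring

/-- Hölder for the three factors and one block decomposition -/
theorem v2_holder {κ : ℝ} (h0 : 0 < κ) (h1 : κ < 1) (r : ℕ) (hr : 1 + 1 / κ ≤ r) {T : ℝ} {y M : ℕ}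
    {h : (ℕ → ℂ) → ℝ} (hc : Continuous h) (hpos : ∀ X, 0 < h X) {a b F : (ℕ → ℂ) → ℂ}
    (ha : Continuous a) (hb : Continuous b) (hF : Continuous F)
    (hK : ∀ n ∈ Finset.Icc 1 M, 2 ≤ KT T y n)
    (hFab : ∀ X : ℕ → ℂ, (∀ p, ‖X p‖ = 1) → ‖a X‖ ^ 2 * ‖b X‖ ^ (2 / κ) * h X ^ (-1 / κ) ≤ ‖F X‖ ^ 2) :
    ∫⁻ t, ENNReal.ofReal (Z t * ((‖a (Xp t)‖ * ∏ n ∈ Finset.Icc 1 M, ‖Nn T y n (fun _ => ((κ - 1 : ℝ) : ℂ)) (Xp t)‖) *
      (‖b (Xp t)‖ * ∏ n ∈ Finset.Icc 1 M, ‖Nn T y n (fun _ => (κ : ℂ)) (Xp t)‖))) ∂mu T ≤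
    (∫⁻ t, ENNReal.ofReal (Z t ^ (2 * κ) * h (Xp t)) ∂mu T) ^ (1 / 2 : ℝ) *
    (∫⁻ t, ENNReal.ofReal (Z t ^ (2 * 1) * (‖a (Xp t)‖ ^ 2 * ∏ n ∈ Finset.Icc 1 M,
      ‖Nn T y n (fun _ => ((κ - 1 : ℝ) : ℂ)) (Xp t)‖ ^ 2)) ∂mu T) ^ ((1 - κ) / 2) *
    (∫⁻ t, ENNReal.ofReal (‖F (Xp t)‖ ^ 2 * ∏ n ∈ Finset.Icc 1 M,
      (Real.exp (12 / κ * Real.exp (-(KT T y n : ℝ) / 2)) * ‖Nn T y n (fun _ => (κ : ℂ)) (Xp t)‖ ^ 2 +
        ‖(((102 / KT T y n : ℝ) : ℂ) * Ps (blk y n) (fun _ => 1) (Xp t)) ^ (r * KT T y n)‖ ^ 2)) ∂mu T) ^ (κ / 2) := by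
  have hZ0 : ∀ t, 0 ≤ Z t := fun t => norm_nonneg _
  have m1 : AEMeasurable (fun t => ENNReal.ofReal (Z t ^ (2 * κ) * h (Xp t))) (mu T) := by
    apply Measurable.aemeasurable
    apply Measurable.ennreal_ofReal
    apply Continuous.measurable
    exact (v2_Z_cont.rpow_const fun _ => Or.inr (by positivity)).mul (hc.comp Xp_cont)
  have m2 : AEMeasurable (fun t => ENNReal.ofReal (Z t ^ (2 * 1) * (‖a (Xp t)‖ ^ 2 *
      ∏ n ∈ Finset.Icc 1 M, ‖Nn T y n (fun _ => ((κ - 1 : ℝ) : ℂ)) (Xp t)‖ ^ 2))) (mu T) := by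
    apply Measurable.aemeasurable
    apply Measurable.ennreal_ofReal
    apply Continuous.measurable
    refine (v2_Z_cont.pow _).mul (((ha.comp Xp_cont).norm.pow 2).mul ?_)
    exact continuous_finsetProd _ fun n _ => ((v2_Nn_cont T n _).comp Xp_cont).norm.pow 2
  have m3 : AEMeasurable (fun t => ENNReal.ofReal (‖F (Xp t)‖ ^ 2 * ∏ n ∈ Finset.Icc 1 M,
      (Real.exp (12 / κ * Real.exp (-(KT T y n : ℝ) / 2)) * ‖Nn T y n (fun _ => (κ : ℂ)) (Xp t)‖ ^ 2 +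
        ‖(((102 / KT T y n : ℝ) : ℂ) * Ps (blk y n) (fun _ => 1) (Xp t)) ^ (r * KT T y n)‖ ^ 2)))
        (mu T) := by
    apply Measurable.aemeasurable
    apply Measurable.ennreal_ofReal
    apply Continuous.measurable
    refine ((hF.comp Xp_cont).norm.pow 2).mul ?_
    refine continuous_finsetProd _ fun n _ => ?_
    refine (continuous_const.mul (((v2_Nn_cont T n _).comp Xp_cont).norm.pow 2)).add ?_
    have hP : Continuous (fun t : ℝ => Ps (blk y n) (fun _ => 1) (Xp t)) := by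
      have : Continuous (Ps (blk y n) (fun _ => 1)) := by
        unfold Ps
        fun_prop
      exact this.comp Xp_cont
    exact ((continuous_const.mul hP).pow _).norm.pow 2
  refine le_trans (lintegral_mono fun t => ?_)
    (holder3 m1 m2 m3 (by norm_num) (by linarith) (by positivity) (by ring))
  have hX : ∀ p, ‖Xp t p‖ = 1 := norm_Xp t
  have e1 : ∏ n ∈ Finset.Icc 1 M, ‖Nn T y n (fun _ => ((κ - 1 : ℝ) : ℂ)) (Xp t)‖ ^ 2 =
      (∏ n ∈ Finset.Icc 1 M, ‖Nn T y n (fun _ => ((κ - 1 : ℝ) : ℂ)) (Xp t)‖) ^ 2 := by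
    rw [Finset.prod_pow]
  have e2 : Z t ^ (2 * 1) = Z t ^ 2 := by norm_num
  simp only
  rw [e1, e2]
  refine v2_pt' h0 h1 (hZ0 t) (norm_nonneg _) (norm_nonneg _)
    (Finset.prod_nonneg fun _ _ => norm_nonneg _) (Finset.prod_nonneg fun _ _ => norm_nonneg _)
    (hpos _) ?_
  have e3 : (∏ n ∈ Finset.Icc 1 M, ‖Nn T y n (fun _ => ((κ - 1 : ℝ) : ℂ)) (Xp t)‖) ^ 2 *
      (∏ n ∈ Finset.Icc 1 M, ‖Nn T y n (fun _ => (κ : ℂ)) (Xp t)‖) ^ (2 / κ) =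
      ∏ n ∈ Finset.Icc 1 M, (‖Nn T y n (fun _ => ((κ - 1 : ℝ) : ℂ)) (Xp t)‖ ^ 2 *
        ‖Nn T y n (fun _ => (κ : ℂ)) (Xp t)‖ ^ (2 / κ)) := by
    rw [Finset.prod_mul_distrib, Finset.prod_pow, Real.finsetProd_rpow _ _ fun _ _ => norm_nonneg _]
  rw [e3]
  refine mul_le_mul (hFab _ hX) ?_ (Finset.prod_nonneg fun n _ => ?_) (by positivity)
  · refine Finset.prod_le_prod (fun n _ => ?_) fun n hn => ?_
    · have := Real.rpow_nonneg (norm_nonneg (Nn T y n (fun _ => (κ : ℂ)) (Xp t))) (2 / κ)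
      positivity
    · have h2 := blk_third_pt κ h0 h1 r hr (hK n hn) (Ps (blk y n) (fun _ => 1) (Xp t))
      unfold Nn
      rw [v2_Ps_const (blk y n) ((κ - 1 : ℝ) : ℂ), v2_Ps_const (blk y n) (κ : ℂ)]
      exact h2
  · have := Real.rpow_nonneg (norm_nonneg (Nn T y n (fun _ => (κ : ℂ)) (Xp t))) (2 / κ)
    positivity

/-- from the three bounds to the conclusion -/
theorem v2_square {κ s D : ℝ} (h0 : 0 < κ) (h1 : κ < 1) (hs : 0 ≤ s) (hD : 0 < D) {I0 I1 I2 I3 : ℝ≥0∞}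
    (hI0 : ENNReal.ofReal s ≤ I0)
    (hH : I0 ≤ I1 ^ (1 / 2 : ℝ) * I2 ^ ((1 - κ) / 2) * I3 ^ (κ / 2))
    (h2 : I2 ≤ ENNReal.ofReal D) (h3 : I3 ≤ ENNReal.ofReal D) :
    ENNReal.ofReal (s ^ 2 / D) ≤ I1 := by
  have e1 : ENNReal.ofReal s ≤ I1 ^ (1 / 2 : ℝ) * ENNReal.ofReal D ^ (1 / 2 : ℝ) := by
    refine (hI0.trans hH).trans ?_
    have p2 : I2 ^ ((1 - κ) / 2) ≤ ENNReal.ofReal D ^ ((1 - κ) / 2) :=
      ENNReal.rpow_le_rpow h2 (by linarith)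
    have p3 : I3 ^ (κ / 2) ≤ ENNReal.ofReal D ^ (κ / 2) := ENNReal.rpow_le_rpow h3 (by positivity)
    calc I1 ^ (1 / 2 : ℝ) * I2 ^ ((1 - κ) / 2) * I3 ^ (κ / 2)
        ≤ I1 ^ (1 / 2 : ℝ) * ENNReal.ofReal D ^ ((1 - κ) / 2) * ENNReal.ofReal D ^ (κ / 2) := by
          gcongr
      _ = I1 ^ (1 / 2 : ℝ) * (ENNReal.ofReal D ^ ((1 - κ) / 2) * ENNReal.ofReal D ^ (κ / 2)) := by
          rw [mul_assoc]
      _ = _ := by
          rw [← ENNReal.rpow_add_of_nonneg _ _ (by linarith) (by positivity)]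
          congr 2
          ring
  have e2 : ENNReal.ofReal (s ^ 2) ≤ I1 * ENNReal.ofReal D := by
    rw [ENNReal.ofReal_pow hs]
    refine (pow_le_pow_left' e1 2).trans (le_of_eq ?_)
    rw [mul_pow, ← ENNReal.rpow_natCast, ← ENNReal.rpow_natCast, ← ENNReal.rpow_mul,
      ← ENNReal.rpow_mul]
    norm_num
  rw [ENNReal.ofReal_div_of_pos hD]
  exact ENNReal.div_le_of_le_mul e2


theorem v2_main (κ : ℝ) (h0 : 0 < κ) (h1 : κ < 1) : ∃ (c : ℝ) (y0 : ℕ), 0 < c ∧ 100 ≤ y0 ∧ ∀ y : ℕ, y0 ≤ y →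
    ∀ h : (ℕ → ℂ) → ℝ, Continuous h → (∀ X, 0 < h X) → (∀ X Y : ℕ → ℂ, (∀ p ∈ blk y 0, X p = Y p) → h X = h Y) →
    ∀ ε : ℝ, 0 < ε → ∃ T0 : ℝ, 3 ≤ T0 ∧ ∀ T : ℝ, T0 ≤ T →
    ENNReal.ofReal (Real.log T ^ (κ ^ 2) *
      (c * Real.log y ^ (-κ ^ 2) * (∫ θ, ‖Eu (blk y 0) (Xt θ)‖ ^ (2 * κ) * h (Xt θ) ∂PT) - ε)) ≤
    ∫⁻ t, ENNReal.ofReal (Z t ^ (2 * κ) * h (Xp t)) ∂mu T := by
  haveI := PT_prob
  set r : ℕ := ⌈1 + 1 / κ⌉₊ with hrdef
  have hr : 1 + 1 / κ ≤ r := Nat.le_ceil _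
  have hr1 : 1 ≤ r := by
    have : (1 : ℝ) ≤ r := by
      have : 0 < 1 / κ := by positivity
      linarith
    exact_mod_cast this
  obtain ⟨C2, yA, δA, hC2, hyA, hδA, hδA1, LL1⟩ := LL 1 le_rfl 1 le_rfl
  obtain ⟨C3, yB, δB, hC3, hyB, hδB, hδB1, LL3'⟩ := LL3 κ h0 h1 r hr1
  obtain ⟨c1, yC, δC, hc1, hyC, hδC, hδC1, FL⟩ := first_lower κ h0 h1
  obtain ⟨yD, hyD, SGC⟩ := Sg_const
  obtain ⟨Cp, hCp, hprod⟩ := prod_small
  obtain ⟨δD, hδD, hδD1, hK⟩ := adm_K 2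
  set δ : ℝ := min (min δA δB) (min δC δD) with hδdef
  have hδ0 : 0 < δ := lt_min (lt_min hδA hδB) (lt_min hδC hδD)
  have hδa : δ ≤ δA := (min_le_left _ _).trans (min_le_left _ _)
  have hδb : δ ≤ δB := (min_le_left _ _).trans (min_le_right _ _)
  have hδc : δ ≤ δC := (min_le_right _ _).trans (min_le_left _ _)
  have hδd : δ ≤ δD := (min_le_right _ _).trans (min_le_right _ _)
  have hδ1 : δ ≤ 1 := hδd.trans hδD1
  set E2 : ℝ := C2 * Real.exp 1 * (δ / 2) ^ (κ ^ 2 - 1) * (4 * Cp + 1) with hE2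
  set E3 : ℝ := C3 * Real.exp 1 * (4 * 2 ^ (2 / κ) + 1) with hE3
  set Cc : ℝ := max E2 E3 with hCc
  have hE3pos : 0 < E3 := by positivity
  have hCcpos : 0 < Cc := lt_max_of_lt_right hE3pos
  set sc : ℝ := c1 * Real.exp (-1) * (δ / 2) ^ (κ ^ 2) with hsc
  have hscpos : 0 < sc := by positivity
  set c : ℝ := sc ^ 2 / Cc with hcdef
  have hcpos : 0 < c := by positivity
  refine ⟨c, max (max yA yB) (max yC yD), hcpos, hyA.trans ((le_max_left _ _).trans (le_max_left _ _)), ?_⟩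
  intro y hy h hc hpos hd ε hε
  have hyA' : yA ≤ y := ((le_max_left _ _).trans (le_max_left _ _)).trans hy
  have hyB' : yB ≤ y := ((le_max_right _ _).trans (le_max_left _ _)).trans hy
  have hyC' : yC ≤ y := ((le_max_left _ _).trans (le_max_right _ _)).trans hy
  have hyD' : yD ≤ y := ((le_max_right _ _).trans (le_max_right _ _)).trans hy
  have hy100 : 100 ≤ y := hyA.trans hyA'
  have hy2 : 2 ≤ y := by omega
  have hyr : (100 : ℝ) ≤ y := by exact_mod_cast hy100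
  set ly : ℝ := Real.log y with hly
  have hly0 : 0 < ly := Real.log_pos (by linarith)
  set R : ℝ := ∫ θ, ‖Eu (blk y 0) (Xt θ)‖ ^ (2 * κ) * h (Xt θ) ∂PT with hR
  have hs : ∀ p ∈ blk y 0, p.Prime := fun p hp => blk_prime (y := y) (n := 0) hp
  have hR0 : 0 ≤ R := by
    apply integral_nonneg
    intro θ
    have := hpos (Xt θ)
    have := Real.rpow_nonneg (norm_nonneg (Eu (blk y 0) (Xt θ))) (2 * κ)
    simp only [Pi.zero_apply]
    positivity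
  have hlyk : 0 < ly ^ (-κ ^ 2) := Real.rpow_pos_of_pos hly0 _
  set ε3 : ℝ := ε / (3 * (c * ly ^ (-κ ^ 2))) with hε3
  have hε30 : 0 < ε3 := by positivity
  have hε3' : c * ly ^ (-κ ^ 2) * (3 * ε3) = ε := by
    rw [hε3]
    field_simp
  obtain ⟨H₁, H₂, H₃, L₁, L₂, L₃, a, b, F, ha, hb, hF, ab1, ab2, ab3⟩ :=
    v2_approx h0 y hc hpos hd (ε := ε3 / 2) (by positivity)
  obtain ⟨T1, hT1, B1⟩ := LL1 y hyA' a H₁ L₁ ha (ε3 / ly) (by positivity)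
  obtain ⟨T2, hT2, B2⟩ := LL3' y hyB' F H₃ L₃ hF (ε3 / 2) (by positivity)
  obtain ⟨T3, hT3, B3⟩ := FL y hyC' a b H₁ H₂ L₁ L₂ ha hb (ε3 / 2) (by positivity)
  obtain ⟨T4, hT4, B4⟩ := exists_J δ hδ0 y hy2
  refine ⟨max (max T1 T2) (max T3 T4), hT1.trans ((le_max_left _ _).trans (le_max_left _ _)), ?_⟩
  intro T hT
  have hTT1 : T1 ≤ T := ((le_max_left _ _).trans (le_max_left _ _)).trans hT
  have hTT2 : T2 ≤ T := ((le_max_right _ _).trans (le_max_left _ _)).trans hT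
  have hTT3 : T3 ≤ T := ((le_max_left _ _).trans (le_max_right _ _)).trans hT
  have hTT4 : T4 ≤ T := ((le_max_right _ _).trans (le_max_right _ _)).trans hT
  have hT3' : 3 ≤ T := hT1.trans hTT1
  set lT : ℝ := Real.log T with hlT
  have hlT0 : 0 < lT := Real.log_pos (by linarith)
  obtain ⟨M, hM1, hMa, hMb⟩ := B4 T hTT4
  -- the scale
  set Rq : ℝ := lT / ly with hRq
  have hQ0 : 0 < Rq := by positivity
  set P : ℝ := (2 : ℝ) ^ M with hP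
  have hP0 : 0 < P := by positivity
  have hPle : P ≤ Rq := by
    rw [hRq, le_div_iff₀ hly0]
    calc P * ly ≤ δ * lT := hMa
      _ ≤ 1 * lT := by gcongr
      _ = lT := one_mul _
  have hPge : δ / 2 * Rq ≤ P := by
    have h2 : δ * lT < P * 2 * ly := by
      have := hMb
      rw [pow_succ] at this
      exact this
    rw [hRq]
    have : δ / 2 * (lT / ly) = (δ * lT) / (2 * ly) := by field_simp
    rw [this, div_le_iff₀ (by positivity)]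
    linarith
  set B : ℝ := Rq ^ (κ ^ 2) with hB
  have hB0 : 0 < B := Real.rpow_pos_of_pos hQ0 _
  have hBeq : B = lT ^ (κ ^ 2) * ly ^ (-κ ^ 2) := by
    rw [hB, hRq, Real.div_rpow hlT0.le hly0.le, Real.rpow_neg hly0.le]
    rfl
  by_cases hRε : R ≤ ε3
  · -- trivial case
    have : lT ^ (κ ^ 2) * (c * ly ^ (-κ ^ 2) * R - ε) ≤ 0 := by
      apply mul_nonpos_of_nonneg_of_nonpos (Real.rpow_nonneg hlT0.le _)
      have : c * ly ^ (-κ ^ 2) * R ≤ c * ly ^ (-κ ^ 2) * (3 * ε3) := by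
        apply mul_le_mul_of_nonneg_left _ (by positivity)
        linarith
      linarith
    rw [ENNReal.ofReal_of_nonpos this]
    exact bot_le
  have hRε' : ε3 < R := not_le.mp hRε
  set D : ℝ := Cc * (R + ε3) * B with hD
  have hD0 : 0 < D := by positivity
  have hκ2 : κ ^ 2 < 1 := pow_lt_one₀ h0.le h1 (by norm_num)
  -- exponent sums
  have hSg0 : |Sg 0 (fun _ => (κ : ℂ)) y M - κ ^ 2 * M * Real.log 2| ≤ κ ^ 2 := by
    have := SGC y hyD' 0 κ M (by norm_num)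
    simpa [abs_of_nonneg (sq_nonneg κ)] using this
  have hSg1 : |Sg 1 (fun _ => ((κ - 1 : ℝ) : ℂ)) y M - (κ ^ 2 - 1) * M * Real.log 2| ≤ 1 := by
    have h3 := SGC y hyD' 1 (κ - 1) M le_rfl
    have e1 : (((1 : ℕ) : ℝ) + (κ - 1)) ^ 2 - ((1 : ℕ) : ℝ) = κ ^ 2 - 1 := by
      push_cast
      ring
    rw [e1] at h3
    refine h3.trans ?_
    rw [abs_le]
    exact ⟨by linarith [sq_nonneg κ], by linarith⟩
  have hexp0u : Real.exp (Sg 0 (fun _ => (κ : ℂ)) y M) ≤ Real.exp 1 * B := by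
    have h3 := (abs_le.mp hSg0).2
    have h4 : Sg 0 (fun _ => (κ : ℂ)) y M ≤ 1 + κ ^ 2 * M * Real.log 2 := by linarith
    calc Real.exp (Sg 0 (fun _ => (κ : ℂ)) y M) ≤ Real.exp (1 + κ ^ 2 * M * Real.log 2) :=
          Real.exp_le_exp.mpr h4
      _ = Real.exp 1 * P ^ (κ ^ 2) := by rw [Real.exp_add, v2_exp_pow]
      _ ≤ Real.exp 1 * B := by
          apply mul_le_mul_of_nonneg_left _ (Real.exp_pos _).le
          exact Real.rpow_le_rpow hP0.le hPle (sq_nonneg _)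
  have hexp0l : Real.exp (-1) * ((δ / 2) ^ (κ ^ 2) * B) ≤ Real.exp (Sg 0 (fun _ => (κ : ℂ)) y M) := by
    have h3 := (abs_le.mp hSg0).1
    have h4 : -1 + κ ^ 2 * M * Real.log 2 ≤ Sg 0 (fun _ => (κ : ℂ)) y M := by linarith
    calc Real.exp (-1) * ((δ / 2) ^ (κ ^ 2) * B) = Real.exp (-1) * (δ / 2 * Rq) ^ (κ ^ 2) := by
          rw [Real.mul_rpow (by positivity) hQ0.le]
      _ ≤ Real.exp (-1) * P ^ (κ ^ 2) := by
          apply mul_le_mul_of_nonneg_left _ (Real.exp_pos _).le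
          exact Real.rpow_le_rpow (by positivity) hPge (sq_nonneg _)
      _ = Real.exp (-1 + κ ^ 2 * M * Real.log 2) := by rw [Real.exp_add, v2_exp_pow]
      _ ≤ _ := Real.exp_le_exp.mpr h4
  have hexp1u : Real.exp (Sg 1 (fun _ => ((κ - 1 : ℝ) : ℂ)) y M) ≤
      Real.exp 1 * ((δ / 2) ^ (κ ^ 2 - 1) * (B / Rq)) := by
    have h3 := (abs_le.mp hSg1).2
    have h4 : Sg 1 (fun _ => ((κ - 1 : ℝ) : ℂ)) y M ≤ 1 + (κ ^ 2 - 1) * M * Real.log 2 := by linarith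
    calc Real.exp (Sg 1 (fun _ => ((κ - 1 : ℝ) : ℂ)) y M)
        ≤ Real.exp (1 + (κ ^ 2 - 1) * M * Real.log 2) := Real.exp_le_exp.mpr h4
      _ = Real.exp 1 * P ^ (κ ^ 2 - 1) := by rw [Real.exp_add, v2_exp_pow]
      _ ≤ Real.exp 1 * (δ / 2 * Rq) ^ (κ ^ 2 - 1) := by
          apply mul_le_mul_of_nonneg_left _ (Real.exp_pos _).le
          exact Real.rpow_le_rpow_of_nonpos (by positivity) hPge (by linarith)
      _ = _ := by
          rw [Real.mul_rpow (by positivity) hQ0.le, Real.rpow_sub_one hQ0.ne']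
  -- integrability on the torus
  have hEuc : Continuous (fun θ : Om => Eu (blk y 0) (Xt θ)) := v2_comp_cont (v2_Eu_cont hs)
  have hRi : Integrable (fun θ : Om => ‖Eu (blk y 0) (Xt θ)‖ ^ (2 * κ) * h (Xt θ)) PT := by
    have hcont : ContinuousOn (fun X : ℕ → ℂ => ‖Eu (blk y 0) X‖ ^ (2 * κ) * h X)
        {X : ℕ → ℂ | ∀ p, ‖X p‖ = 1} := by
      refine ContinuousOn.mul ?_ hc.continuousOn
      exact (v2_Eu_cont hs).norm.rpow_const fun _ _ => Or.inr (by positivity)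
    obtain ⟨M', _, hM'⟩ := v2_max hcont
    refine Integrable.of_bound (v2_comp_cont hcont).aestronglyMeasurable M'
      (Filter.Eventually.of_forall fun θ => ?_)
    exact hM' _ (v2_Xt_mem θ)
  -- second factor
  have hI2 : ∫⁻ t, ENNReal.ofReal (Z t ^ (2 * 1) * (‖a (Xp t)‖ ^ 2 * ∏ n ∈ Finset.Icc 1 M,
      ‖Nn T y n (fun _ => ((κ - 1 : ℝ) : ℂ)) (Xp t)‖ ^ 2)) ∂mu T ≤ ENNReal.ofReal D := by
    have h3 := (B1 T hTT1 M (hMa.trans (by gcongr)) (fun _ => ((κ - 1 : ℝ) : ℂ)) (by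
      intro p
      rw [Complex.norm_real, Real.norm_eq_abs, abs_le]
      constructor <;> linarith)).1
    refine h3.trans (ENNReal.ofReal_le_ofReal ?_)
    have h4 : ∫ θ, ‖a (Xt θ)‖ ^ 2 * DD 1 0 (blk y 0) (Xt θ) ∂PT ≤ 4 * Cp / ly * R := by
      rw [hR, ← integral_const_mul]
      apply integral_mono_of_nonneg (Filter.Eventually.of_forall fun θ => ?_) (hRi.const_mul _)
        (Filter.Eventually.of_forall fun θ => ?_)
      · simp only [Pi.zero_apply]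
        exact mul_nonneg (by positivity) (DD_nonneg _ _ _ _)
      · simp only
        rw [DD_zero y (norm_Xt θ)]
        have h5 := ab1 (Xt θ) (norm_Xt θ)
        have h6 := hprod y hy2
        have h7 : 0 ≤ ∏ p ∈ blk y 0, (1 - 1 / (p : ℝ)) := by
          apply Finset.prod_nonneg
          intro p hp
          have : (1 : ℝ) ≤ p := by exact_mod_cast (hs p hp).one_le
          rw [sub_nonneg, div_le_one (by linarith)]
          exact this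
        calc ‖a (Xt θ)‖ ^ 2 * ((∏ p ∈ blk y 0, (1 - 1 / (p : ℝ))) * ‖Eu (blk y 0) (Xt θ)‖ ^ 2)
            = (∏ p ∈ blk y 0, (1 - 1 / (p : ℝ))) * (‖a (Xt θ)‖ ^ 2 * ‖Eu (blk y 0) (Xt θ)‖ ^ 2) := by
              ring
          _ ≤ (Cp / ly) * (4 * (‖Eu (blk y 0) (Xt θ)‖ ^ (2 * κ) * h (Xt θ))) :=
              mul_le_mul h6 h5 (by positivity) (by positivity)
          _ = _ := by ring
    have h8 : (∫ θ, ‖a (Xt θ)‖ ^ 2 * DD 1 0 (blk y 0) (Xt θ) ∂PT) + ε3 / ly ≤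
        (4 * Cp + 1) * (R + ε3) / ly := by
      have : (4 * Cp + 1) * (R + ε3) / ly = 4 * Cp / ly * R + ε3 / ly + (4 * Cp * ε3 + R) / ly := by
        ring
      rw [this]
      have : 0 ≤ (4 * Cp * ε3 + R) / ly := by positivity
      linarith
    have h9 : 0 ≤ (∫ θ, ‖a (Xt θ)‖ ^ 2 * DD 1 0 (blk y 0) (Xt θ) ∂PT) + ε3 / ly := by
      have : 0 ≤ ∫ θ, ‖a (Xt θ)‖ ^ 2 * DD 1 0 (blk y 0) (Xt θ) ∂PT :=
        integral_nonneg fun θ => mul_nonneg (by positivity) (DD_nonneg _ _ _ _)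
      positivity
    calc C2 * lT ^ 1 * ((∫ θ, ‖a (Xt θ)‖ ^ 2 * DD 1 0 (blk y 0) (Xt θ) ∂PT) + ε3 / ly) *
          Real.exp (Sg 1 (fun _ => ((κ - 1 : ℝ) : ℂ)) y M)
        ≤ C2 * lT ^ 1 * ((4 * Cp + 1) * (R + ε3) / ly) *
          (Real.exp 1 * ((δ / 2) ^ (κ ^ 2 - 1) * (B / Rq))) := by
          apply mul_le_mul _ hexp1u (Real.exp_pos _).le (by positivity)
          exact mul_le_mul_of_nonneg_left h8 (by positivity)
      _ = E2 * (R + ε3) * B := by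
          rw [hE2]
          have e5 : lT ^ 1 * (1 / ly) * (1 / Rq) = 1 := by
            rw [hRq]
            field_simp
          calc C2 * lT ^ 1 * ((4 * Cp + 1) * (R + ε3) / ly) *
                (Real.exp 1 * ((δ / 2) ^ (κ ^ 2 - 1) * (B / Rq)))
              = (C2 * Real.exp 1 * (δ / 2) ^ (κ ^ 2 - 1) * (4 * Cp + 1)) * (R + ε3) * B *
                (lT ^ 1 * (1 / ly) * (1 / Rq)) := by ring
            _ = _ := by rw [e5, mul_one]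
      _ ≤ D := by
          rw [hD]
          have : E2 ≤ Cc := le_max_left _ _
          gcongr
  -- third factor
  have hI3 : ∫⁻ t, ENNReal.ofReal (‖F (Xp t)‖ ^ 2 * ∏ n ∈ Finset.Icc 1 M,
      (Real.exp (12 / κ * Real.exp (-(KT T y n : ℝ) / 2)) * ‖Nn T y n (fun _ => (κ : ℂ)) (Xp t)‖ ^ 2 +
        ‖(((102 / KT T y n : ℝ) : ℂ) * Ps (blk y n) (fun _ => 1) (Xp t)) ^ (r * KT T y n)‖ ^ 2)) ∂mu T ≤
      ENNReal.ofReal D := by
    refine (B2 T hTT2 M (hMa.trans (by gcongr))).trans (ENNReal.ofReal_le_ofReal ?_)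
    have h4 : ∫ θ, ‖F (Xt θ)‖ ^ 2 ∂PT ≤ 4 * 2 ^ (2 / κ) * R + ε3 / 2 := by
      have h5 : ∫ θ, (4 * 2 ^ (2 / κ) * (‖Eu (blk y 0) (Xt θ)‖ ^ (2 * κ) * h (Xt θ)) + ε3 / 2) ∂PT =
          4 * 2 ^ (2 / κ) * R + ε3 / 2 := by
        have h6 : ∫ _θ : Om, ε3 / 2 ∂PT = ε3 / 2 := by simp
        rw [integral_add (hRi.const_mul _) (integrable_const _), integral_const_mul, h6, hR]
      rw [← h5]
      apply integral_mono_of_nonneg (Filter.Eventually.of_forall fun θ => ?_)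
        ((hRi.const_mul _).add (integrable_const _))
        (Filter.Eventually.of_forall fun θ => (ab2 (Xt θ) (norm_Xt θ)).2)
      simp only [Pi.zero_apply]
      positivity
    have h8 : (∫ θ, ‖F (Xt θ)‖ ^ 2 ∂PT) + ε3 / 2 ≤ (4 * 2 ^ (2 / κ) + 1) * (R + ε3) := by
      have h9 : (0 : ℝ) ≤ 4 * 2 ^ (2 / κ) * ε3 := by positivity
      have h10 : (4 * 2 ^ (2 / κ) + 1) * (R + ε3) =
          4 * 2 ^ (2 / κ) * R + R + 4 * 2 ^ (2 / κ) * ε3 + ε3 := by ring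
      rw [h10]
      linarith
    calc C3 * ((∫ θ, ‖F (Xt θ)‖ ^ 2 ∂PT) + ε3 / 2) * Real.exp (Sg 0 (fun _ => (κ : ℂ)) y M)
        ≤ C3 * ((4 * 2 ^ (2 / κ) + 1) * (R + ε3)) * (Real.exp 1 * B) := by
          apply mul_le_mul _ hexp0u (Real.exp_pos _).le (by positivity)
          exact mul_le_mul_of_nonneg_left h8 hC3.le
      _ = E3 * (R + ε3) * B := by
          rw [hE3]
          ring
      _ ≤ D := by
          rw [hD]
          have : E3 ≤ Cc := le_max_right _ _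
          gcongr
  -- first moment
  have hI0 := B3 T hTT3 M (hMa.trans (by gcongr))
  have hs0 : sc * (R - ε3) * B ≤
      c1 * (‖∫ θ, Eu (blk y 0) (Xt θ) * (a (Xt θ) * conj (b (Xt θ))) ∂PT‖ - ε3 / 2) *
        Real.exp (Sg 0 (fun _ => (κ : ℂ)) y M) := by
    have h3 : R - ε3 ≤ ‖∫ θ, Eu (blk y 0) (Xt θ) * (a (Xt θ) * conj (b (Xt θ))) ∂PT‖ - ε3 / 2 := by
      have := ab3
      linarith
    have h4 : 0 < R - ε3 := by linarith
    calc sc * (R - ε3) * B = c1 * (R - ε3) * (Real.exp (-1) * ((δ / 2) ^ (κ ^ 2) * B)) := by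
          rw [hsc]
          ring
      _ ≤ _ := by
          apply mul_le_mul (mul_le_mul_of_nonneg_left h3 hc1.le) hexp0l (by positivity)
          exact mul_nonneg hc1.le (h4.le.trans h3)
  have hsnn : 0 ≤ sc * (R - ε3) * B := by
    have : 0 < R - ε3 := by linarith
    positivity
  have key := v2_square h0 h1 hsnn hD0 ((ENNReal.ofReal_le_ofReal hs0).trans hI0)
    (v2_holder h0 h1 r hr hc hpos (dp_cont ha) (dp_cont hb) (dp_cont hF)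
      (fun n hn => hK T y M hy2 (by linarith) (hMa.trans (by gcongr)) n hn)
      (fun X hX => (ab2 X hX).1)) hI2 hI3
  refine le_trans (ENNReal.ofReal_le_ofReal ?_) key
  have e1 : (sc * (R - ε3) * B) ^ 2 / D = c * B * ((R - ε3) ^ 2 / (R + ε3)) := by
    rw [hD, hcdef]
    field_simp
  have e2 : R - 3 * ε3 ≤ (R - ε3) ^ 2 / (R + ε3) := by
    rw [le_div_iff₀ (by positivity)]
    have h11 : (R - ε3) ^ 2 - (R - 3 * ε3) * (R + ε3) = 4 * ε3 ^ 2 := by ring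
    have h12 : 0 ≤ 4 * ε3 ^ 2 := by positivity
    linarith
  have e3 : lT ^ (κ ^ 2) * (c * ly ^ (-κ ^ 2) * R - ε) = c * B * (R - 3 * ε3) := by
    rw [hBeq, ← hε3']
    ring
  rw [e1, e3]
  exact mul_le_mul_of_nonneg_left e2 (by positivity)


theorem lower (κ : ℝ) (h0 : 0 < κ) (h1 : κ < 1) : ∃ (c : ℝ) (y0 : ℕ), 0 < c ∧ 100 ≤ y0 ∧ ∀ y : ℕ, y0 ≤ y →
    ∀ h : (ℕ → ℂ) → ℝ, Continuous h → (∀ X, 0 ≤ h X) → (∀ X Y : ℕ → ℂ, (∀ p ∈ blk y 0, X p = Y p) → h X = h Y) →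
    ∀ ε : ℝ, 0 < ε → ∃ T0 : ℝ, 3 ≤ T0 ∧ ∀ T : ℝ, T0 ≤ T →
    ENNReal.ofReal (Real.log T ^ (κ ^ 2) *
      (c * Real.log y ^ (-κ ^ 2) * (∫ θ, ‖Eu (blk y 0) (Xt θ)‖ ^ (2 * κ) * h (Xt θ) ∂PT) - ε)) ≤
    ∫⁻ t, ENNReal.ofReal (Z t ^ (2 * κ) * h (Xp t)) ∂mu T := by
  haveI := PT_prob
  obtain ⟨c, yA, hc0, hyA, main⟩ := v2_main κ h0 h1
  obtain ⟨C, yB, hC0, hyB, up⟩ := upper κ h0 h1
  refine ⟨c, max yA yB, hc0, hyA.trans (le_max_left _ _), ?_⟩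
  intro y hy h hc hpos hd ε hε
  have hyA' : yA ≤ y := (le_max_left _ _).trans hy
  have hyB' : yB ≤ y := (le_max_right _ _).trans hy
  have hy100 : (100 : ℝ) ≤ y := by exact_mod_cast hyA.trans hyA'
  have hly0 : 0 < Real.log y := Real.log_pos (by linarith)
  have hs : ∀ p ∈ blk y 0, p.Prime := fun p hp => blk_prime (y := y) (n := 0) hp
  set R1 : ℝ := ∫ θ, ‖Eu (blk y 0) (Xt θ)‖ ^ (2 * κ) * (1 : ℝ) ∂PT with hR1
  have hR10 : 0 ≤ R1 := by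
    apply integral_nonneg
    intro θ
    have := Real.rpow_nonneg (norm_nonneg (Eu (blk y 0) (Xt θ))) (2 * κ)
    simp only [Pi.zero_apply]
    positivity
  have hlyk : 0 ≤ Real.log y ^ (-κ ^ 2) := Real.rpow_nonneg hly0.le _
  set K : ℝ := C * Real.log y ^ (-κ ^ 2) * R1 + 1 with hK
  have hK0 : 0 < K := by positivity
  set η : ℝ := ε / (2 * K) with hη
  have hη0 : 0 < η := by positivity
  obtain ⟨T1, hT1, B1⟩ := main y hyA' (fun X => h X + η) (hc.add continuous_const)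
    (fun X => by have := hpos X; positivity) (fun X Y hXY => by rw [hd X Y hXY]) (ε / 2) (by positivity)
  obtain ⟨T2, hT2, B2⟩ := up y hyB' (fun _ => 1) continuous_const (fun _ => zero_le_one)
    (fun _ _ _ => rfl) 1 one_pos
  refine ⟨max T1 T2, hT1.trans (le_max_left _ _), ?_⟩
  intro T hT
  have hT1' : T1 ≤ T := (le_max_left _ _).trans hT
  have hT2' : T2 ≤ T := (le_max_right _ _).trans hT
  have hlT0 : 0 < Real.log T := Real.log_pos (by linarith)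
  have hlTk : 0 ≤ Real.log T ^ (κ ^ 2) := Real.rpow_nonneg hlT0.le _
  have b1 := B1 T hT1'
  have b2 := B2 T hT2'
  have hZ0 : ∀ t, 0 ≤ Z t := fun t => norm_nonneg _
  have hm : Measurable (fun t => ENNReal.ofReal (Z t ^ (2 * κ) * h (Xp t))) := by
    apply Measurable.ennreal_ofReal
    apply Continuous.measurable
    exact (v2_Z_cont.rpow_const fun _ => Or.inr (by positivity)).mul (hc.comp Xp_cont)
  have hsplit : ∫⁻ t, ENNReal.ofReal (Z t ^ (2 * κ) * (h (Xp t) + η)) ∂mu T =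
      (∫⁻ t, ENNReal.ofReal (Z t ^ (2 * κ) * h (Xp t)) ∂mu T) +
        ENNReal.ofReal η * ∫⁻ t, ENNReal.ofReal (Z t ^ (2 * κ) * 1) ∂mu T := by
    have e1 : ∀ t, ENNReal.ofReal (Z t ^ (2 * κ) * (h (Xp t) + η)) =
        ENNReal.ofReal (Z t ^ (2 * κ) * h (Xp t)) +
          ENNReal.ofReal η * ENNReal.ofReal (Z t ^ (2 * κ) * 1) := by
      intro t
      have p1 := Real.rpow_nonneg (hZ0 t) (2 * κ)
      rw [← ENNReal.ofReal_mul hη0.le, ← ENNReal.ofReal_add (mul_nonneg p1 (hpos _)) (by positivity)]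
      congr 1
      ring
    rw [lintegral_congr e1, lintegral_add_left hm]
    congr 1
    rw [lintegral_const_mul]
    apply Measurable.ennreal_ofReal
    apply Continuous.measurable
    exact (v2_Z_cont.rpow_const fun _ => Or.inr (by positivity)).mul continuous_const
  have hRint : ∫ θ, ‖Eu (blk y 0) (Xt θ)‖ ^ (2 * κ) * h (Xt θ) ∂PT ≤
      ∫ θ, ‖Eu (blk y 0) (Xt θ)‖ ^ (2 * κ) * (h (Xt θ) + η) ∂PT := by
    have hcont : ContinuousOn (fun X : ℕ → ℂ => ‖Eu (blk y 0) X‖ ^ (2 * κ) * (h X + η))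
        {X : ℕ → ℂ | ∀ p, ‖X p‖ = 1} := by
      refine ContinuousOn.mul ?_ (hc.add continuous_const).continuousOn
      exact (v2_Eu_cont hs).norm.rpow_const fun _ _ => Or.inr (by positivity)
    obtain ⟨M', _, hM'⟩ := v2_max hcont
    apply integral_mono_of_nonneg (Filter.Eventually.of_forall fun θ => ?_)
      (Integrable.of_bound (v2_comp_cont hcont).aestronglyMeasurable M'
        (Filter.Eventually.of_forall fun θ => hM' _ (v2_Xt_mem θ)))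
      (Filter.Eventually.of_forall fun θ => ?_)
    · have p1 := Real.rpow_nonneg (norm_nonneg (Eu (blk y 0) (Xt θ))) (2 * κ)
      exact mul_nonneg p1 (hpos _)
    · have p1 := Real.rpow_nonneg (norm_nonneg (Eu (blk y 0) (Xt θ))) (2 * κ)
      exact mul_le_mul_of_nonneg_left (by linarith) p1
  have b3 : ENNReal.ofReal η * ∫⁻ t, ENNReal.ofReal (Z t ^ (2 * κ) * 1) ∂mu T ≤
      ENNReal.ofReal (Real.log T ^ (κ ^ 2) * (ε / 2)) := by
    calc ENNReal.ofReal η * ∫⁻ t, ENNReal.ofReal (Z t ^ (2 * κ) * 1) ∂mu T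
        ≤ ENNReal.ofReal η * ENNReal.ofReal (Real.log T ^ (κ ^ 2) * K) := by
          gcongr
      _ = ENNReal.ofReal (Real.log T ^ (κ ^ 2) * (ε / 2)) := by
          rw [← ENNReal.ofReal_mul hη0.le]
          congr 1
          rw [hη]
          field_simp
  have b4 : ENNReal.ofReal (Real.log T ^ (κ ^ 2) *
      (c * Real.log y ^ (-κ ^ 2) * (∫ θ, ‖Eu (blk y 0) (Xt θ)‖ ^ (2 * κ) * h (Xt θ) ∂PT) - ε / 2)) ≤
      (∫⁻ t, ENNReal.ofReal (Z t ^ (2 * κ) * h (Xp t)) ∂mu T) +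
        ENNReal.ofReal (Real.log T ^ (κ ^ 2) * (ε / 2)) := by
    refine le_trans ?_ ((b1.trans (le_of_eq hsplit)).trans (by gcongr))
    apply ENNReal.ofReal_le_ofReal
    apply mul_le_mul_of_nonneg_left _ hlTk
    have := mul_le_mul_of_nonneg_left hRint (mul_nonneg hc0.le hlyk)
    linarith
  have e2 : Real.log T ^ (κ ^ 2) *
      (c * Real.log y ^ (-κ ^ 2) * (∫ θ, ‖Eu (blk y 0) (Xt θ)‖ ^ (2 * κ) * h (Xt θ) ∂PT) - ε) =
      Real.log T ^ (κ ^ 2) *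
      (c * Real.log y ^ (-κ ^ 2) * (∫ θ, ‖Eu (blk y 0) (Xt θ)‖ ^ (2 * κ) * h (Xt θ) ∂PT) - ε / 2) -
      Real.log T ^ (κ ^ 2) * (ε / 2) := by ring
  rw [e2, ENNReal.ofReal_sub _ (by positivity)]
  exact tsub_le_iff_right.mpr b4

end CZ
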