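import Pool.Agent.Lib.MP_9eae41_pr.X1
import Pool.Agent.Lib.MP_9eae41_pr.Q5

set_option autoImplicit false

open Complex MeasureTheory Set Filter Topology
open scoped ComplexConjugate ENNReal

namespace CZ

/-! Row X2 (300 lines): integration over x. Put phi_T(x) = (log T)^(-k^2) T^(-1) int_0^T Z(t+x)^(2k) h(Xp t) dt (Tonelli). Then
max(phi_T - C RR, 0) and max(c RR - phi_T, 0) tend to 0 pointwise (up_x, low_x) and are dominated (dom_x and h bounded on
unimodular X; RR <= sup h): tendsto_integral_filter_of_dominated_convergence. -/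

theorem x2_bound (h : (ℕ → ℂ) → ℝ) (hc : Continuous h) :
    ∃ B : ℝ, 0 < B ∧ ∀ X : ℕ → ℂ, (∀ p, ‖X p‖ = 1) → h X ≤ B := by
  have hK : IsCompact (Set.univ.pi fun _ : ℕ => Metric.closedBall (0:ℂ) 1) :=
    isCompact_univ_pi fun _ => isCompact_closedBall 0 1
  obtain ⟨B, hB⟩ := hK.exists_bound_of_continuousOn hc.continuousOn
  refine ⟨max B 1, by positivity, fun X hX => ?_⟩
  refine (le_abs_self _).trans ((hB X ?_).trans (le_max_left _ _))
  intro p _
  simp [hX p]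

theorem x2_Eu_bound (y : ℕ) : ∃ B : ℝ, 0 < B ∧ ∀ X : ℕ → ℂ, (∀ p, ‖X p‖ = 1) → ‖Eu (blk y 0) X‖ ≤ B := by
  have hK : IsCompact (Set.univ.pi fun _ : ℕ => Metric.sphere (0:ℂ) 1) :=
    isCompact_univ_pi fun _ => isCompact_sphere 0 1
  have hc : ContinuousOn (fun X : ℕ → ℂ => Eu (blk y 0) X) (Set.univ.pi fun _ : ℕ => Metric.sphere (0:ℂ) 1) := by
    unfold Eu
    refine continuousOn_finsetProd _ fun p hp => ?_
    refine ContinuousOn.inv₀ ?_ ?_
    · exact (continuous_const.sub ((continuous_apply p).mul continuous_const)).continuousOn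
    · intro X hX h0
      have hp2 : 2 ≤ p := (blk_prime hp).two_le
      have hXp : ‖X p‖ = 1 := by
        have := hX p (Set.mem_univ _)
        simpa using this
      have h1 : X p * ((Real.sqrt p : ℝ) : ℂ)⁻¹ = 1 := by linear_combination -h0
      have h2 := congrArg norm h1
      rw [norm_mul, norm_inv, hXp, one_mul, norm_one, Complex.norm_real, Real.norm_eq_abs,
        abs_of_nonneg (Real.sqrt_nonneg _)] at h2
      have h3 : Real.sqrt p = 1 := by
        rw [← inv_inv (Real.sqrt p), h2, inv_one]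
      have h4 : (p : ℝ) = 1 := by
        rw [← Real.sq_sqrt (Nat.cast_nonneg p : (0:ℝ) ≤ p), h3, one_pow]
      have : p = 1 := by exact_mod_cast h4
      omega
  obtain ⟨B, hB⟩ := hK.exists_bound_of_continuousOn hc
  refine ⟨max B 1, by positivity, fun X hX => (hB X ?_).trans (le_max_left _ _)⟩
  intro p _
  simp [hX p]

/-- the integrand of the torus averages -/
noncomputable def x2_E (κ : ℝ) (y : ℕ) (x : ℝ) (θ : Om) : ℝ :=
  ‖Eu (blk y 0) (fun p => Xt θ p * Xp x p)‖ ^ (2 * κ)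

theorem x2_E_nonneg (κ : ℝ) (y : ℕ) (x : ℝ) (θ : Om) : 0 ≤ x2_E κ y x θ := by
  unfold x2_E; positivity

theorem x2_E_meas (κ : ℝ) (y : ℕ) : Measurable (fun z : ℝ × Om => x2_E κ y z.1 z.2) := by
  unfold x2_E Eu
  refine Measurable.pow_const ?_ _
  refine Measurable.norm ?_
  refine Finset.measurable_prod _ fun p _ => ?_
  refine Measurable.inv ?_
  refine measurable_const.sub ?_
  refine Measurable.mul ?_ measurable_const
  refine Measurable.mul ?_ ?_
  · exact ((continuous_apply p).comp (Xt_cont.comp continuous_snd)).measurable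
  · exact ((continuous_apply p).comp (Xp_cont.comp continuous_fst)).measurable

theorem x2_E_bound (κ : ℝ) (h0 : 0 < κ) (y : ℕ) : ∃ B : ℝ, ∀ x θ, x2_E κ y x θ ≤ B := by
  obtain ⟨B, hB, hB'⟩ := x2_Eu_bound y
  refine ⟨B ^ (2 * κ), fun x θ => ?_⟩
  unfold x2_E
  refine Real.rpow_le_rpow (norm_nonneg _) (hB' _ fun p => ?_) (by positivity)
  rw [norm_mul, norm_Xt, norm_Xp, one_mul]

theorem x2_h_meas (h : (ℕ → ℂ) → ℝ) (hc : Continuous h) : Measurable (fun z : ℝ × Om => h (Xt z.2)) :=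
  (hc.comp (Xt_cont.comp continuous_snd)).measurable

theorem x2_RR_meas (κ : ℝ) (y : ℕ) (h : (ℕ → ℂ) → ℝ) (hc : Continuous h) : Measurable (RR κ y h) := by
  have := PT_prob
  have e : RR κ y h = fun x => (∫ θ, x2_E κ y x θ * h (Xt θ) ∂PT) / ∫ θ, x2_E κ y x θ ∂PT := rfl
  rw [e]
  refine Measurable.div ?_ ?_
  · have : StronglyMeasurable (Function.uncurry fun (x : ℝ) (θ : Om) => x2_E κ y x θ * h (Xt θ)) :=
      ((x2_E_meas κ y).mul (x2_h_meas h hc)).stronglyMeasurable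
    exact this.integral_prod_right.measurable
  · have : StronglyMeasurable (Function.uncurry fun (x : ℝ) (θ : Om) => x2_E κ y x θ) :=
      (x2_E_meas κ y).stronglyMeasurable
    exact this.integral_prod_right.measurable

theorem x2_E_int (κ : ℝ) (h0 : 0 < κ) (y : ℕ) (x : ℝ) : Integrable (fun θ => x2_E κ y x θ) PT := by
  have := PT_prob
  obtain ⟨B, hB⟩ := x2_E_bound κ h0 y
  refine Integrable.of_bound (((x2_E_meas κ y).comp measurable_prodMk_left).aestronglyMeasurable) B ?_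
  refine Eventually.of_forall fun θ => ?_
  show ‖x2_E κ y x θ‖ ≤ B
  rw [Real.norm_eq_abs, abs_of_nonneg (x2_E_nonneg _ _ _ _)]
  exact hB x θ

theorem x2_RR_nonneg (κ : ℝ) (y : ℕ) (h : (ℕ → ℂ) → ℝ) (hpos : ∀ X, 0 ≤ h X) (x : ℝ) : 0 ≤ RR κ y h x := by
  unfold RR
  refine div_nonneg (integral_nonneg fun θ => ?_) (integral_nonneg fun θ => ?_)
  · exact mul_nonneg (by positivity) (hpos _)
  · show (0:ℝ) ≤ _
    positivity

theorem x2_RR_le (κ : ℝ) (h0 : 0 < κ) (y : ℕ) (h : (ℕ → ℂ) → ℝ) (hc : Continuous h) (hpos : ∀ X, 0 ≤ h X)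
    {B : ℝ} (hB0 : 0 < B) (hB : ∀ X : ℕ → ℂ, (∀ p, ‖X p‖ = 1) → h X ≤ B) (x : ℝ) : RR κ y h x ≤ B := by
  have := PT_prob
  have e : RR κ y h x = (∫ θ, x2_E κ y x θ * h (Xt θ) ∂PT) / ∫ θ, x2_E κ y x θ ∂PT := rfl
  rw [e]
  have hd : 0 ≤ ∫ θ, x2_E κ y x θ ∂PT := integral_nonneg fun θ => x2_E_nonneg _ _ _ _
  refine div_le_of_le_mul₀ hd hB0.le ?_
  rw [← integral_const_mul]
  refine integral_mono_of_nonneg ?_ ((x2_E_int κ h0 y x).const_mul B) ?_
  · exact Eventually.of_forall fun θ => mul_nonneg (x2_E_nonneg _ _ _ _) (hpos _)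
  · refine Eventually.of_forall fun θ => ?_
    show x2_E κ y x θ * h (Xt θ) ≤ B * x2_E κ y x θ
    rw [mul_comm B]
    exact mul_le_mul_of_nonneg_left (hB _ (norm_Xt θ)) (x2_E_nonneg _ _ _ _)

theorem x2_Zr_cont (κ : ℝ) (h0 : 0 < κ) : Continuous fun t => Z t ^ (2 * κ) :=
  Z_cont.rpow_const fun _ => Or.inr (by positivity)

theorem x2_g_cont (κ : ℝ) (h0 : 0 < κ) (h : (ℕ → ℂ) → ℝ) (hc : Continuous h) :
    Continuous (fun z : ℝ × ℝ => Z (z.2 + z.1) ^ (2 * κ) * h (Xp z.2)) := by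
  refine Continuous.mul ?_ ?_
  · exact (x2_Zr_cont κ h0).comp (continuous_snd.add continuous_fst)
  · exact hc.comp (Xp_cont.comp continuous_snd)

/-- the mean at x -/
noncomputable def x2_phi (κ : ℝ) (h : (ℕ → ℂ) → ℝ) (T x : ℝ) : ℝ :=
  Real.log T ^ (-κ ^ 2) * (T⁻¹ * ∫ t in Icc (0:ℝ) T, Z (t + x) ^ (2 * κ) * h (Xp t))

theorem x2_phi_meas (κ : ℝ) (h0 : 0 < κ) (h : (ℕ → ℂ) → ℝ) (hc : Continuous h) (T : ℝ) :
    Measurable (x2_phi κ h T) := by
  unfold x2_phi
  refine measurable_const.mul (measurable_const.mul ?_)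
  have : StronglyMeasurable (Function.uncurry fun (x : ℝ) (t : ℝ) => Z (t + x) ^ (2 * κ) * h (Xp t)) :=
    (x2_g_cont κ h0 h hc).stronglyMeasurable
  exact this.integral_prod_right.measurable

theorem x2_conv (κ : ℝ) (h0 : 0 < κ) (h : (ℕ → ℂ) → ℝ) (hc : Continuous h) (hpos : ∀ X, 0 ≤ h X) {T : ℝ}
    (hT : 3 ≤ T) (x : ℝ) :
    ENNReal.ofReal T⁻¹ * ∫⁻ t in Icc 0 T, ENNReal.ofReal (Z (t + x) ^ (2 * κ) * h (Xp t)) =
      ENNReal.ofReal (T⁻¹ * ∫ t in Icc (0:ℝ) T, Z (t + x) ^ (2 * κ) * h (Xp t)) := by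
  have hcx : Continuous fun t : ℝ => Z (t + x) ^ (2 * κ) * h (Xp t) :=
    ((x2_Zr_cont κ h0).comp (continuous_id.add continuous_const)).mul (hc.comp Xp_cont)
  have hi : Integrable (fun t : ℝ => Z (t + x) ^ (2 * κ) * h (Xp t)) (volume.restrict (Icc (0:ℝ) T)) :=
    hcx.integrableOn_Icc
  have hn : 0 ≤ᵐ[volume.restrict (Icc (0:ℝ) T)] fun t : ℝ => Z (t + x) ^ (2 * κ) * h (Xp t) :=
    Eventually.of_forall fun t => mul_nonneg (Real.rpow_nonneg (norm_nonneg _) _) (hpos _)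
  rw [ENNReal.ofReal_mul (inv_nonneg.2 (by linarith)), ofReal_integral_eq_lintegral_ofReal hi hn]

theorem x2_log {T : ℝ} (hT : 3 ≤ T) : 1 < Real.log T := by
  rw [Real.lt_log_iff_exp_lt (by linarith)]
  have := Real.exp_one_lt_d9
  linarith

theorem x2_phi_nonneg (κ : ℝ) (h : (ℕ → ℂ) → ℝ) (hpos : ∀ X, 0 ≤ h X) {T : ℝ}
    (hT : 3 ≤ T) (x : ℝ) : 0 ≤ x2_phi κ h T x := by
  unfold x2_phi
  have h1 : 0 < Real.log T := by linarith [x2_log hT]
  refine mul_nonneg (by positivity) (mul_nonneg (by positivity) (integral_nonneg fun t => ?_))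
  exact mul_nonneg (Real.rpow_nonneg (norm_nonneg _) _) (hpos _)

theorem x2_phi_le (κ : ℝ) (h0 : 0 < κ) (h : (ℕ → ℂ) → ℝ) (hc : Continuous h) (hpos : ∀ X, 0 ≤ h X) {T A x : ℝ}
    (hT : 3 ≤ T) (hA : 0 ≤ A)
    (H : ENNReal.ofReal T⁻¹ * ∫⁻ t in Icc 0 T, ENNReal.ofReal (Z (t + x) ^ (2 * κ) * h (Xp t)) ≤
      ENNReal.ofReal (Real.log T ^ (κ ^ 2) * A)) : x2_phi κ h T x ≤ A := by
  have h1 : 0 < Real.log T := by linarith [x2_log hT]
  rw [x2_conv κ h0 h hc hpos hT, ENNReal.ofReal_le_ofReal_iff (by positivity)] at H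
  unfold x2_phi
  calc _ ≤ Real.log T ^ (-κ ^ 2) * (Real.log T ^ (κ ^ 2) * A) :=
        mul_le_mul_of_nonneg_left H (by positivity)
    _ = A := by
      rw [← mul_assoc, ← Real.rpow_add h1]
      simp

theorem x2_le_phi (κ : ℝ) (h0 : 0 < κ) (h : (ℕ → ℂ) → ℝ) (hc : Continuous h) (hpos : ∀ X, 0 ≤ h X) {T A x : ℝ}
    (hT : 3 ≤ T)
    (H : ENNReal.ofReal (Real.log T ^ (κ ^ 2) * A) ≤
      ENNReal.ofReal T⁻¹ * ∫⁻ t in Icc 0 T, ENNReal.ofReal (Z (t + x) ^ (2 * κ) * h (Xp t))) :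
    A ≤ x2_phi κ h T x := by
  have h1 : 0 < Real.log T := by linarith [x2_log hT]
  have h2 : 0 ≤ T⁻¹ * ∫ t in Icc (0:ℝ) T, Z (t + x) ^ (2 * κ) * h (Xp t) :=
    mul_nonneg (by positivity) (integral_nonneg fun t => mul_nonneg (Real.rpow_nonneg (norm_nonneg _) _) (hpos _))
  rw [x2_conv κ h0 h hc hpos hT, ENNReal.ofReal_le_ofReal_iff h2] at H
  unfold x2_phi
  have e : A = Real.log T ^ (-κ ^ 2) * (Real.log T ^ (κ ^ 2) * A) := by
    rw [← mul_assoc, ← Real.rpow_add h1]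
    simp
  rw [e]
  exact mul_le_mul_of_nonneg_left H (by positivity)

/-- domination -/
theorem x2_phi_dom (κ : ℝ) (h0 : 0 < κ) (h : (ℕ → ℂ) → ℝ) (hc : Continuous h) (hpos : ∀ X, 0 ≤ h X)
    {B : ℝ} (hB0 : 0 < B) (hB : ∀ X : ℕ → ℂ, (∀ p, ‖X p‖ = 1) → h X ≤ B) {C T x : ℝ} (hC : 0 < C) (hT : 3 ≤ T)
    (H : ENNReal.ofReal T⁻¹ * ∫⁻ t in Icc 0 T, ENNReal.ofReal (Z (t + x) ^ (2 * κ)) ≤
      ENNReal.ofReal (C * Real.log T ^ (κ ^ 2))) : x2_phi κ h T x ≤ B * C := by
  have h1 : 0 < Real.log T := by linarith [x2_log hT]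
  refine x2_phi_le κ h0 h hc hpos hT (by positivity) ?_
  have e1 : ∫⁻ t in Icc 0 T, ENNReal.ofReal (Z (t + x) ^ (2 * κ) * h (Xp t)) ≤
      ENNReal.ofReal B * ∫⁻ t in Icc 0 T, ENNReal.ofReal (Z (t + x) ^ (2 * κ)) := by
    rw [← lintegral_const_mul' _ _ ENNReal.ofReal_ne_top]
    refine lintegral_mono fun t => ?_
    rw [← ENNReal.ofReal_mul hB0.le]
    refine ENNReal.ofReal_le_ofReal ?_
    rw [mul_comm B]
    exact mul_le_mul_of_nonneg_left (hB _ (norm_Xp t)) (Real.rpow_nonneg (norm_nonneg _) _)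
  calc _ ≤ ENNReal.ofReal T⁻¹ * (ENNReal.ofReal B * ∫⁻ t in Icc 0 T, ENNReal.ofReal (Z (t + x) ^ (2 * κ))) := by
        gcongr
    _ = ENNReal.ofReal B * (ENNReal.ofReal T⁻¹ * ∫⁻ t in Icc 0 T, ENNReal.ofReal (Z (t + x) ^ (2 * κ))) := by
        ring
    _ ≤ ENNReal.ofReal B * ENNReal.ofReal (C * Real.log T ^ (κ ^ 2)) := by gcongr
    _ = _ := by
        rw [← ENNReal.ofReal_mul hB0.le]
        congr 1
        ring

/-- Fubini -/
theorem x2_fubini (κ : ℝ) (h0 : 0 < κ) (h : (ℕ → ℂ) → ℝ) (hc : Continuous h) (f : ℝ → ℝ) (hf : Continuous f)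
    (T : ℝ) :
    T⁻¹ * ∫ t in Icc (0:ℝ) T, (Real.log T ^ (-κ ^ 2) * ∫ x in Icc (0:ℝ) 1, f x * Z (t + x) ^ (2 * κ)) * h (Xp t) =
      ∫ x in Icc (0:ℝ) 1, f x * x2_phi κ h T x := by
  set L := Real.log T ^ (-κ ^ 2) with hL
  have e1 : ∀ t : ℝ, (L * ∫ x in Icc (0:ℝ) 1, f x * Z (t + x) ^ (2 * κ)) * h (Xp t) =
      ∫ x in Icc (0:ℝ) 1, L * (f x * Z (t + x) ^ (2 * κ)) * h (Xp t) := by
    intro t
    rw [integral_mul_const, integral_const_mul]
  have e2 : ∀ x : ℝ, f x * x2_phi κ h T x =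
      T⁻¹ * ∫ t in Icc (0:ℝ) T, L * (f x * Z (t + x) ^ (2 * κ)) * h (Xp t) := by
    intro x
    unfold x2_phi
    have : ∀ t : ℝ, L * (f x * Z (t + x) ^ (2 * κ)) * h (Xp t) = (L * f x) * (Z (t + x) ^ (2 * κ) * h (Xp t)) := by
      intro t; ring
    simp_rw [this]
    rw [integral_const_mul, ← hL]
    ring
  simp_rw [e1, e2]
  rw [integral_const_mul]
  congr 1
  refine integral_integral_swap ?_
  have hcont : Continuous (Function.uncurry fun t x : ℝ => L * (f x * Z (t + x) ^ (2 * κ)) * h (Xp t)) := by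
    refine Continuous.mul ?_ ?_
    · refine continuous_const.mul ?_
      exact (hf.comp continuous_snd).mul ((x2_Zr_cont κ h0).comp (continuous_fst.add continuous_snd))
    · exact hc.comp (Xp_cont.comp continuous_fst)
  rw [Measure.prod_restrict]
  exact hcont.continuousOn.integrableOn_compact (isCompact_Icc.prod isCompact_Icc)

theorem x2_int (f u : ℝ → ℝ) (hf : Continuous f) (hu : Measurable u) {B : ℝ} (hB : ∀ x ∈ Icc (0:ℝ) 1, |u x| ≤ B) :
    IntegrableOn (fun x => f x * u x) (Icc (0:ℝ) 1) := by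
  refine Integrable.mul_bdd (c := B) ?_ ?_ ?_
  · exact hf.integrableOn_Icc
  · exact hu.aestronglyMeasurable
  · exact (ae_restrict_iff' measurableSet_Icc).2 (Eventually.of_forall fun x hx => hB x hx)

theorem fin_B (κ : ℝ) (h0 : 0 < κ) (h1 : κ < 1) : ∃ (k₁ k₂ : ℝ) (y0 : ℕ), 0 < k₁ ∧ k₁ ≤ k₂ ∧ 100 ≤ y0 ∧ ∀ y : ℕ, y0 ≤ y →
    ∀ h : (ℕ → ℂ) → ℝ, Continuous h → (∀ X, 0 ≤ h X) → (∀ X Y : ℕ → ℂ, (∀ p ∈ blk y 0, X p = Y p) → h X = h Y) →
    ∀ f : ℝ → ℝ, Continuous f → (∀ x, 0 ≤ f x) → ∀ ε : ℝ, 0 < ε → ∃ T0 : ℝ, 3 ≤ T0 ∧ ∀ T : ℝ, T0 ≤ T →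
    k₁ * (∫ x in Icc (0:ℝ) 1, f x * RR κ y h x) - ε ≤
      T⁻¹ * ∫ t in Icc (0:ℝ) T, (Real.log T ^ (-κ ^ 2) * ∫ x in Icc (0:ℝ) 1, f x * Z (t + x) ^ (2 * κ)) * h (Xp t) ∧
    T⁻¹ * ∫ t in Icc (0:ℝ) T, (Real.log T ^ (-κ ^ 2) * ∫ x in Icc (0:ℝ) 1, f x * Z (t + x) ^ (2 * κ)) * h (Xp t) ≤
      k₂ * (∫ x in Icc (0:ℝ) 1, f x * RR κ y h x) + ε := by
  obtain ⟨C, y1, hC, hy1, HU⟩ := up_x κ h0 h1
  obtain ⟨c, y2, hc, hy2, HL⟩ := low_x κ h0 h1
  obtain ⟨Cd, Td, hCd, hTd, HD⟩ := dom_x κ h0 h1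
  refine ⟨min c C, C, max y1 y2, lt_min hc hC, min_le_right _ _, hy1.trans (le_max_left _ _), ?_⟩
  intro y hy h hcont hpos hdep f hf hf0 ε hε
  have HU' := HU y ((le_max_left _ _).trans hy) h hcont hpos hdep
  have HL' := HL y ((le_max_right _ _).trans hy) h hcont hpos hdep
  obtain ⟨B, hB0, hB⟩ := x2_bound h hcont
  set R := RR κ y h with hR
  have hRm : Measurable R := x2_RR_meas κ y h hcont
  have hR0 : ∀ x, 0 ≤ R x := x2_RR_nonneg κ y h hpos
  have hRB : ∀ x, R x ≤ B := x2_RR_le κ h0 y h hcont hpos hB0 hB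
  have hφm : ∀ T, Measurable (x2_phi κ h T) := x2_phi_meas κ h0 h hcont
  have hdom : ∀ T, Td ≤ T → ∀ x ∈ Icc (0:ℝ) 1, x2_phi κ h T x ≤ B * Cd := fun T hT x hx =>
    x2_phi_dom κ h0 h hcont hpos hB0 hB hCd (hTd.trans hT) (HD T hT x hx)
  have hφ0 : ∀ T, Td ≤ T → ∀ x, 0 ≤ x2_phi κ h T x := fun T hT x =>
    x2_phi_nonneg κ h hpos (hTd.trans hT) x
  -- the upper error
  have lim1 : Tendsto (fun T => ∫ x in Icc (0:ℝ) 1, f x * max (x2_phi κ h T x - C * R x) 0) atTop (𝓝 0) := by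
    have e0 : (∫ x in Icc (0:ℝ) 1, (0:ℝ)) = 0 := by simp
    suffices hsuff : Tendsto (fun T => ∫ x in Icc (0:ℝ) 1, f x * max (x2_phi κ h T x - C * R x) 0) atTop
        (𝓝 (∫ x in Icc (0:ℝ) 1, (0:ℝ))) by rwa [e0] at hsuff
    refine tendsto_integral_filter_of_dominated_convergence (l := atTop)
      (F := fun (T : ℝ) (x : ℝ) => f x * max (x2_phi κ h T x - C * R x) 0) (f := fun _ => (0:ℝ))
      (μ := volume.restrict (Icc (0:ℝ) 1)) (fun x => f x * (B * Cd)) ?_ ?_ ?_ ?_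
    · refine Eventually.of_forall fun T => ?_
      exact (hf.measurable.mul (((hφm T).sub (measurable_const.mul hRm)).max measurable_const)).aestronglyMeasurable
    · filter_upwards [eventually_ge_atTop Td] with T hT
      refine (ae_restrict_iff' measurableSet_Icc).2 (Eventually.of_forall fun x hx => ?_)
      rw [Real.norm_eq_abs, abs_of_nonneg (mul_nonneg (hf0 x) (le_max_right _ _))]
      refine mul_le_mul_of_nonneg_left (max_le ?_ (by positivity)) (hf0 x)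
      have := hdom T hT x hx
      have := mul_nonneg hC.le (hR0 x)
      linarith
    · exact (hf.mul continuous_const).integrableOn_Icc
    · refine (ae_restrict_iff' measurableSet_Icc).2 (Eventually.of_forall fun x hx => ?_)
      have : Tendsto (fun T => max (x2_phi κ h T x - C * R x) 0) atTop (𝓝 0) := by
        rw [Metric.tendsto_atTop]
        intro e he
        obtain ⟨T0, hT0, hT0'⟩ := HU' x hx (e / 2) (by positivity)
        refine ⟨T0, fun T hT => ?_⟩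
        have h2 := x2_phi_le κ h0 h hcont hpos (hT0.trans hT)
          (A := C * R x + e / 2) (by have := mul_nonneg hC.le (hR0 x); positivity) (hT0' T hT)
        rw [Real.dist_eq, sub_zero, abs_of_nonneg (le_max_right _ _)]
        refine max_lt ?_ he
        linarith
      simpa using this.const_mul (f x)
  have lim2 : Tendsto (fun T => ∫ x in Icc (0:ℝ) 1, f x * max (c * R x - x2_phi κ h T x) 0) atTop (𝓝 0) := by
    have e0 : (∫ x in Icc (0:ℝ) 1, (0:ℝ)) = 0 := by simp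
    suffices hsuff : Tendsto (fun T => ∫ x in Icc (0:ℝ) 1, f x * max (c * R x - x2_phi κ h T x) 0) atTop
        (𝓝 (∫ x in Icc (0:ℝ) 1, (0:ℝ))) by rwa [e0] at hsuff
    refine tendsto_integral_filter_of_dominated_convergence (l := atTop)
      (F := fun (T : ℝ) (x : ℝ) => f x * max (c * R x - x2_phi κ h T x) 0) (f := fun _ => (0:ℝ))
      (μ := volume.restrict (Icc (0:ℝ) 1)) (fun x => f x * (c * B)) ?_ ?_ ?_ ?_
    · refine Eventually.of_forall fun T => ?_
      exact (hf.measurable.mul (((measurable_const.mul hRm).sub (hφm T)).max measurable_const)).aestronglyMeasurable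
    · filter_upwards [eventually_ge_atTop Td] with T hT
      refine (ae_restrict_iff' measurableSet_Icc).2 (Eventually.of_forall fun x hx => ?_)
      rw [Real.norm_eq_abs, abs_of_nonneg (mul_nonneg (hf0 x) (le_max_right _ _))]
      refine mul_le_mul_of_nonneg_left (max_le ?_ (by positivity)) (hf0 x)
      have := hφ0 T hT x
      have := mul_le_mul_of_nonneg_left (hRB x) hc.le
      linarith
    · exact (hf.mul continuous_const).integrableOn_Icc
    · refine (ae_restrict_iff' measurableSet_Icc).2 (Eventually.of_forall fun x hx => ?_)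
      have : Tendsto (fun T => max (c * R x - x2_phi κ h T x) 0) atTop (𝓝 0) := by
        rw [Metric.tendsto_atTop]
        intro e he
        obtain ⟨T0, hT0, hT0'⟩ := HL' x hx (e / 2) (by positivity)
        refine ⟨T0, fun T hT => ?_⟩
        have h2 := x2_le_phi κ h0 h hcont hpos (hT0.trans hT) (A := c * R x - e / 2) (hT0' T hT)
        rw [Real.dist_eq, sub_zero, abs_of_nonneg (le_max_right _ _)]
        refine max_lt ?_ he
        linarith
      simpa using this.const_mul (f x)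
  have ev1 := (tendsto_order.1 lim1).2 ε hε
  have ev2 := (tendsto_order.1 lim2).2 ε hε
  obtain ⟨T0, hT0⟩ := eventually_atTop.1 (ev1.and (ev2.and (eventually_ge_atTop Td)))
  refine ⟨max 3 T0, le_max_left _ _, fun T hT => ?_⟩
  obtain ⟨hA, hB', hTd'⟩ := hT0 T ((le_max_right _ _).trans hT)
  rw [x2_fubini κ h0 h hcont f hf T]
  have iR : IntegrableOn (fun x => f x * R x) (Icc (0:ℝ) 1) :=
    x2_int f R hf hRm (B := B) fun x _ => by rw [abs_of_nonneg (hR0 x)]; exact hRB x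
  have iφ : IntegrableOn (fun x => f x * x2_phi κ h T x) (Icc (0:ℝ) 1) :=
    x2_int f _ hf (hφm T) (B := B * Cd) fun x hx => by
      rw [abs_of_nonneg (hφ0 T hTd' x)]; exact hdom T hTd' x hx
  have i1 : IntegrableOn (fun x => f x * max (x2_phi κ h T x - C * R x) 0) (Icc (0:ℝ) 1) :=
    x2_int f _ hf (((hφm T).sub (measurable_const.mul hRm)).max measurable_const) (B := B * Cd) fun x hx => by
      rw [abs_of_nonneg (le_max_right _ _)]
      refine max_le ?_ (by positivity)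
      have := hdom T hTd' x hx
      have := mul_nonneg hC.le (hR0 x)
      linarith
  have i2 : IntegrableOn (fun x => f x * max (c * R x - x2_phi κ h T x) 0) (Icc (0:ℝ) 1) :=
    x2_int f _ hf (((measurable_const.mul hRm).sub (hφm T)).max measurable_const) (B := c * B) fun x hx => by
      rw [abs_of_nonneg (le_max_right _ _)]
      refine max_le ?_ (by positivity)
      have := hφ0 T hTd' x
      have := mul_le_mul_of_nonneg_left (hRB x) hc.le
      linarith
  have hIR0 : 0 ≤ ∫ x in Icc (0:ℝ) 1, f x * R x := integral_nonneg fun x => mul_nonneg (hf0 x) (hR0 x)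
  constructor
  · have h3 : ∫ x in Icc (0:ℝ) 1, c * (f x * R x) ≤
        ∫ x in Icc (0:ℝ) 1, (f x * x2_phi κ h T x + f x * max (c * R x - x2_phi κ h T x) 0) := by
      refine integral_mono (iR.const_mul c) (iφ.add i2) fun x => ?_
      show c * (f x * R x) ≤ f x * x2_phi κ h T x + f x * max (c * R x - x2_phi κ h T x) 0
      rw [← mul_add]
      have : c * R x ≤ x2_phi κ h T x + max (c * R x - x2_phi κ h T x) 0 := by
        have := le_max_left (c * R x - x2_phi κ h T x) 0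
        linarith
      calc c * (f x * R x) = f x * (c * R x) := by ring
        _ ≤ _ := mul_le_mul_of_nonneg_left this (hf0 x)
    rw [integral_const_mul, integral_add iφ i2] at h3
    have h4 : min c C * (∫ x in Icc (0:ℝ) 1, f x * R x) ≤ c * ∫ x in Icc (0:ℝ) 1, f x * R x :=
      mul_le_mul_of_nonneg_right (min_le_left _ _) hIR0
    linarith
  · have h3 : ∫ x in Icc (0:ℝ) 1, f x * x2_phi κ h T x ≤
        ∫ x in Icc (0:ℝ) 1, (C * (f x * R x) + f x * max (x2_phi κ h T x - C * R x) 0) := by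
      refine integral_mono iφ ((iR.const_mul C).add i1) fun x => ?_
      show f x * x2_phi κ h T x ≤ C * (f x * R x) + f x * max (x2_phi κ h T x - C * R x) 0
      have : x2_phi κ h T x ≤ C * R x + max (x2_phi κ h T x - C * R x) 0 := by
        have := le_max_left (x2_phi κ h T x - C * R x) 0
        linarith
      calc f x * x2_phi κ h T x ≤ f x * (C * R x + max (x2_phi κ h T x - C * R x) 0) :=
            mul_le_mul_of_nonneg_left this (hf0 x)
        _ = _ := by ring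
    rw [integral_add (iR.const_mul C) i1, integral_const_mul] at h3
    linarith

/-- the q-th moment for all T at least 2 (bounded T: continuity of Z) -/
theorem fin_A (κ q : ℝ) (h0 : 0 < κ) (h1 : κ < 1) (hq1 : 1 < q) (hq2 : q < 2) (hκq : κ * q < 1) :
    ∃ C : ℝ, 0 < C ∧ ∀ T : ℝ, 2 ≤ T →
    ENNReal.ofReal T⁻¹ * ∫⁻ t in Icc (0:ℝ) T, (∫⁻ x in Icc (0:ℝ) 1, ENNReal.ofReal (Z (t + x) ^ (2 * κ))) ^ q ≤
      ENNReal.ofReal (C * Real.log T ^ (κ ^ 2 * q)) := by
  obtain ⟨C1, T1, hC1, hT1, H1⟩ := qmom κ q h0 h1 hq1 hq2 hκq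
  -- sup of `Z` on a compact interval
  obtain ⟨B, hB⟩ := (isCompact_Icc (a := (0:ℝ)) (b := T1 + 1)).exists_bound_of_continuousOn
    (x2_Zr_cont κ h0).continuousOn
  set B' := max B 1 with hB'
  have hB'1 : 1 ≤ B' := le_max_right _ _
  have hmeas : Measurable fun t : ℝ => (∫⁻ x in Icc (0:ℝ) 1, ENNReal.ofReal (Z (t + x) ^ (2 * κ))) ^ q := by
    refine Measurable.pow_const ?_ _
    have : Measurable (Function.uncurry fun t x : ℝ => ENNReal.ofReal (Z (t + x) ^ (2 * κ))) := by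
      refine ENNReal.measurable_ofReal.comp ?_
      exact ((x2_Zr_cont κ h0).comp (continuous_fst.add continuous_snd)).measurable
    exact this.lintegral_prod_right'
  have hlog2 : 0 < Real.log 2 := Real.log_pos (by norm_num)
  have hpl : 0 < Real.log 2 ^ (κ ^ 2 * q) := Real.rpow_pos_of_pos hlog2 _
  refine ⟨3 * C1 + B' ^ q / Real.log 2 ^ (κ ^ 2 * q), by positivity, fun T hT => ?_⟩
  have hlogT : Real.log 2 ≤ Real.log T := Real.log_le_log (by norm_num) hT
  have hlogT0 : 0 < Real.log T := hlog2.trans_le hlogT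
  rcases le_or_gt T1 T with hTT | hTT
  · have e1 := mu_sharp (T := T) (by linarith) hmeas
    calc _ ≤ ENNReal.ofReal T⁻¹ * (ENNReal.ofReal (3 * T) * ∫⁻ t, (∫⁻ x in Icc (0:ℝ) 1,
            ENNReal.ofReal (Z (t + x) ^ (2 * κ))) ^ q ∂mu T) := by gcongr
      _ = ENNReal.ofReal 3 * ∫⁻ t, (∫⁻ x in Icc (0:ℝ) 1,
            ENNReal.ofReal (Z (t + x) ^ (2 * κ))) ^ q ∂mu T := by
          rw [← mul_assoc, ← ENNReal.ofReal_mul (by positivity)]
          congr 2
          field_simp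
      _ ≤ ENNReal.ofReal 3 * ENNReal.ofReal (C1 * Real.log T ^ (κ ^ 2 * q)) := by
          gcongr
          exact H1 T hTT
      _ = ENNReal.ofReal (3 * (C1 * Real.log T ^ (κ ^ 2 * q))) := by
          rw [← ENNReal.ofReal_mul (by norm_num)]
      _ ≤ _ := by
          refine ENNReal.ofReal_le_ofReal ?_
          have : 0 ≤ B' ^ q / Real.log 2 ^ (κ ^ 2 * q) * Real.log T ^ (κ ^ 2 * q) := by positivity
          linarith [this, (by ring : (3 * C1 + B' ^ q / Real.log 2 ^ (κ ^ 2 * q)) * Real.log T ^ (κ ^ 2 * q) =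
            3 * (C1 * Real.log T ^ (κ ^ 2 * q)) + B' ^ q / Real.log 2 ^ (κ ^ 2 * q) * Real.log T ^ (κ ^ 2 * q))]
  · have e1 : ∀ t ∈ Icc (0:ℝ) T, (∫⁻ x in Icc (0:ℝ) 1, ENNReal.ofReal (Z (t + x) ^ (2 * κ))) ^ q ≤
        ENNReal.ofReal (B' ^ q) := by
      intro t ht
      rw [← ENNReal.ofReal_rpow_of_nonneg (by positivity) (by positivity)]
      refine ENNReal.rpow_le_rpow ?_ (by positivity)
      calc ∫⁻ x in Icc (0:ℝ) 1, ENNReal.ofReal (Z (t + x) ^ (2 * κ)) ≤
            ∫⁻ x in Icc (0:ℝ) 1, ENNReal.ofReal B' := by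
            refine setLIntegral_mono' measurableSet_Icc fun x hx => ENNReal.ofReal_le_ofReal ?_
            have h2 := hB (t + x) ⟨by linarith [ht.1, hx.1], by linarith [ht.2, hx.2]⟩
            exact ((le_abs_self _).trans h2).trans (le_max_left _ _)
        _ = ENNReal.ofReal B' := by simp
    calc _ ≤ ENNReal.ofReal T⁻¹ * ∫⁻ t in Icc (0:ℝ) T, ENNReal.ofReal (B' ^ q) := by
          exact mul_le_mul_right (setLIntegral_mono' measurableSet_Icc e1) _
      _ = ENNReal.ofReal (B' ^ q) := by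
          rw [setLIntegral_const, Real.volume_Icc, sub_zero, mul_comm (ENNReal.ofReal (B' ^ q)), ← mul_assoc,
            ← ENNReal.ofReal_mul (by positivity), inv_mul_cancel₀ (by linarith), ENNReal.ofReal_one, one_mul]
      _ ≤ _ := by
          refine ENNReal.ofReal_le_ofReal ?_
          have h3 : Real.log 2 ^ (κ ^ 2 * q) ≤ Real.log T ^ (κ ^ 2 * q) :=
            Real.rpow_le_rpow hlog2.le hlogT (by positivity)
          have h4 : B' ^ q = B' ^ q / Real.log 2 ^ (κ ^ 2 * q) * Real.log 2 ^ (κ ^ 2 * q) := by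
            field_simp
          calc B' ^ q = B' ^ q / Real.log 2 ^ (κ ^ 2 * q) * Real.log 2 ^ (κ ^ 2 * q) := h4
            _ ≤ B' ^ q / Real.log 2 ^ (κ ^ 2 * q) * Real.log T ^ (κ ^ 2 * q) :=
              mul_le_mul_of_nonneg_left h3 (by positivity)
            _ ≤ _ := by
              refine mul_le_mul_of_nonneg_right ?_ (by positivity)
              linarith

end CZ
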