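import Mathlib

set_option autoImplicit false

open Complex MeasureTheory Set Filter Topology
open scoped ENNReal

namespace Chaos

/-- the j-th prime, starting with 2 for j = 0 -/
noncomputable def pr (j : ℕ) : ℕ := Nat.nth Nat.Prime j

/-- the random measure nu_(T,beta) of the problem at the sample point om in [0,1] -/
noncomputable def nu (β T om : ℝ) : Measure ℝ :=
  (volume.restrict (Icc (0:ℝ) 1)).withDensity (fun x => ENNReal.ofReal
    (Real.log T ^ (-(β ^ 2 / 4)) * ‖riemannZeta (1/2 + I * x + I * (om * T))‖ ^ β))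

/-- law of the sequence of independent uniform angles -/
noncomputable def P : Measure (ℕ → ℝ) := Measure.infinitePi (fun _ : ℕ => volume.restrict (Icc (0:ℝ) 1))

/-- the random Euler product over the first N primes -/
noncomputable def zr (N : ℕ) (θ : ℕ → ℝ) (x : ℝ) : ℂ :=
  ∏ j ∈ Finset.range N, (1 - (pr j : ℂ) ^ (-(1/2 : ℂ) - I * x) * exp (2 * Real.pi * I * θ j))⁻¹

/-- the normalised measure of the random model -/
noncomputable def lamN (β : ℝ) (N : ℕ) (θ : ℕ → ℝ) : Measure ℝ :=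
  (volume.restrict (Icc (0:ℝ) 1)).withDensity (fun x => ENNReal.ofReal (‖zr N θ x‖ ^ β / ∫ θ', ‖zr N θ' x‖ ^ β ∂P))

/-- the sequence of phases of a sequence of angles -/
noncomputable def ptI (θ : ℕ → ℝ) : ℕ → ℂ := fun j => exp (2 * Real.pi * I * θ j)

/-- lam (a function of the phases) is the multiplicative chaos of the problem: the almost sure weak limit of lamN -/
def IsChaos (β : ℝ) (lam : (ℕ → ℂ) → Measure ℝ) : Prop :=
  ∀ᵐ θ ∂P, IsFiniteMeasure (lam (ptI θ)) ∧ ∀ f : ℝ → ℝ, Continuous f →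
    Tendsto (fun N : ℕ => ∫ x, f x ∂(lamN β N θ)) atTop (𝓝 (∫ x, f x ∂(lam (ptI θ))))

/-- phases p^(-i om T) of the first m primes at height om T -/
noncomputable def ph (m : ℕ) (T om : ℝ) : Fin m → ℂ := fun j => (pr j : ℂ) ^ (-(I * (om * T)))

/-- phases of the first m angles -/
noncomputable def pt (m : ℕ) (θ : ℕ → ℝ) : Fin m → ℂ := fun j => exp (2 * Real.pi * I * θ j)

/-- (ν, W) is a limit point in distribution, along the sequence Tk, of the pairs (nu_(T,beta), phases of the primes):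
ν is a random finite measure carried by [0,1], W a random sequence of phases, both defined on the probability space
(Ω, Q), and for every continuous f, every m and every bounded continuous function F of the integral of f and of the first
m phases, the expectations of F converge -/
def IsLimitPoint (β : ℝ) (Tk : ℕ → ℝ) {Ω : Type} [MeasurableSpace Ω] (Q : Measure Ω) (ν : Ω → Measure ℝ)
    (W : Ω → (ℕ → ℂ)) : Prop :=
  Tendsto Tk atTop atTop ∧ AEMeasurable W Q ∧ (∀ᵐ w ∂Q, IsFiniteMeasure (ν w) ∧ ν w (Icc 0 1)ᶜ = 0) ∧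
  (∀ f : ℝ → ℝ, Continuous f → AEMeasurable (fun w => ∫ x, f x ∂(ν w)) Q) ∧
  ∀ f : ℝ → ℝ, Continuous f → ∀ (m : ℕ) (F : ℝ × (Fin m → ℂ) → ℝ), Continuous F → (∃ B, ∀ v, |F v| ≤ B) →
    Tendsto (fun k => ∫ om in Icc (0:ℝ) 1, F (∫ x, f x ∂(nu β (Tk k) om), ph m (Tk k) om)) atTop
      (𝓝 (∫ w, F (∫ x, f x ∂(ν w), fun j => W w j) ∂Q))

/-- the predicted value: integral over x of f(x) times the normalised expectation of |zr|^beta h over the first m primes -/
noncomputable def pred (β : ℝ) (m : ℕ) (f : ℝ → ℝ) (h : (Fin m → ℂ) → ℝ) : ℝ :=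
  ∫ x in Icc (0:ℝ) 1, f x * ((∫ θ, ‖zr m θ x‖ ^ β * h (pt m θ) ∂P) / ∫ θ, ‖zr m θ x‖ ^ β ∂P)

end Chaos
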