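import Pool.Agent.Lib.MP_9eae41_pr.Y0
import Pool.Agent.Lib.MP_9eae41_pr.X2
import Pool.Agent.Lib.MP_9eae41_pr.RM2

set_option autoImplicit false

open Complex MeasureTheory Set Filter Topology
open scoped ComplexConjugate ENNReal

namespace CZ


open Chaos

/-! Row Y1 (300 lines): translation from the internal objects (angles indexed by the primes, CZ.PT, pq, blk, Xt, Xp, Z)
to the final ones (angles indexed by j, Chaos.P, zr). Map s(theta)_j = theta_(pr j), which maps PT to P = PT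
(Measure.map_infinitePi_infinitePi_of_inj). -/

/-- the predicted value -/
noncomputable def JJ (κ : ℝ) (y : ℕ) {m : ℕ} (h : (Fin m → ℂ) → ℝ) (f : ℝ → ℝ) : ℝ :=
  ∫ x in Icc (0:ℝ) 1, f x * RR κ y (fun X => h (fun j => X (pr j))) x

/-! ### the primes -/

theorem y1_pr_prime (j : ℕ) : (pr j).Prime := Nat.prime_nth_prime j

theorem y1_pr_inj : Function.Injective pr := Nat.nth_injective Nat.infinite_setOfPred_prime

theorem y1_image (K : ℕ) :
    (Finset.range (Nat.count Nat.Prime K)).image pr = (Finset.range K).filter Nat.Prime := by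
  ext p
  simp only [Finset.mem_image, Finset.mem_range, Finset.mem_filter]
  constructor
  · rintro ⟨j, hj, rfl⟩
    exact ⟨Nat.nth_lt_of_lt_count hj, y1_pr_prime j⟩
  · rintro ⟨h1, h2⟩
    exact ⟨Nat.count Nat.Prime p, Nat.count_strict_mono h2 h1, Nat.nth_count h2⟩

/-- the projection of the angles -/
noncomputable def y1s (θ : Om) : ℕ → ℝ := fun j => θ (pr j)

theorem y1_P : Chaos.P = PT := rfl

theorem y1_meas_s : Measurable y1s := by
  unfold y1s
  fun_prop

theorem y1_s : MeasurePreserving y1s PT P := by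
  refine ⟨y1_meas_s, ?_⟩
  have h0 : IsProbabilityMeasure Ug := Ug_prob
  exact Measure.map_infinitePi_infinitePi_of_inj (P := fun _ : ℕ => Ug) y1_pr_inj

/-! ### the factors -/

theorem y1_cpow (p : ℕ) (hp : p.Prime) (x : ℝ) :
    (p : ℂ) ^ (-(1/2 : ℂ) - I * x) = Xp x p * ((Real.sqrt p : ℝ) : ℂ)⁻¹ := by
  have hp0 : (p : ℂ) ≠ 0 := by exact_mod_cast hp.ne_zero
  have hpr : (0 : ℝ) < p := by exact_mod_cast hp.pos
  have h1 : ((Real.sqrt p : ℝ) : ℂ)⁻¹ = (p : ℂ) ^ (-(1/2 : ℂ)) := by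
    rw [Real.sqrt_eq_rpow, Complex.ofReal_cpow hpr.le, Complex.cpow_neg]
    norm_num
  have h2 : Xp x p = (p : ℂ) ^ (-(I * x)) := by
    unfold Xp
    rw [Complex.cpow_def_of_ne_zero hp0, ← Complex.natCast_log]
    congr 1
    push_cast
    ring
  rw [h1, h2, ← Complex.cpow_add _ _ hp0]
  congr 1
  ring

theorem y1_Xp (p : ℕ) (hp : p.Prime) (x : ℝ) : (p : ℂ) ^ (-(I * x)) = Xp x p := by
  have hp0 : (p : ℂ) ≠ 0 := by exact_mod_cast hp.ne_zero
  unfold Xp
  rw [Complex.cpow_def_of_ne_zero hp0, ← Complex.natCast_log]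
  congr 1
  push_cast
  ring

theorem y1_ee (x : ℝ) : exp (2 * Real.pi * I * x) = ee x := by
  unfold ee
  congr 1
  ring

theorem y1_pt (m : ℕ) (θ : Om) : pt m (y1s θ) = fun j : Fin m => Xt θ (pr j) := by
  funext j
  unfold pt y1s Xt
  rw [y1_ee]

theorem y1_ph (m : ℕ) (T om : ℝ) : ph m T om = fun j : Fin m => Xp (om * T) (pr j) := by
  funext j
  unfold ph
  rw [← y1_Xp _ (y1_pr_prime _)]
  push_cast
  rfl

theorem y1_zr (N : ℕ) (θ : Om) (x : ℝ) :
    zr N (y1s θ) x = Eu ((Finset.range N).image pr) (fun p => Xt θ p * Xp x p) := by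
  unfold zr Eu
  rw [Finset.prod_image (fun a _ b _ h => y1_pr_inj h)]
  refine Finset.prod_congr rfl fun j _ => ?_
  rw [y1_cpow _ (y1_pr_prime j)]
  unfold y1s
  rw [y1_ee]
  unfold Xt
  ring_nf

/-! ### measurability -/

theorem y1_Eu_meas (S : Finset ℕ) : Measurable (fun X : ℕ → ℂ => Eu S X) := by
  unfold Eu
  fun_prop

theorem y1_Xt_meas : Measurable (fun θ : Om => Xt θ) := by
  unfold Xt ee
  fun_prop

theorem y1_zr_meas (N : ℕ) : Measurable (fun z : (ℕ → ℝ) × ℝ => zr N z.1 z.2) := by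
  unfold zr
  refine Finset.measurable_fun_prod _ fun j _ => ?_
  have h1 : Measurable (fun z : (ℕ → ℝ) × ℝ => (pr j : ℂ) ^ (-(1/2 : ℂ) - I * z.2)) := by
    have h2 : (fun z : (ℕ → ℝ) × ℝ => (pr j : ℂ) ^ (-(1/2 : ℂ) - I * z.2)) =
        fun z : (ℕ → ℝ) × ℝ => exp (Complex.log (pr j) * (-(1/2 : ℂ) - I * z.2)) := by
      funext z
      rw [Complex.cpow_def_of_ne_zero (by exact_mod_cast (y1_pr_prime j).ne_zero)]
    rw [h2]
    fun_prop
  have h3 : Measurable (fun z : (ℕ → ℝ) × ℝ => exp (2 * Real.pi * I * z.1 j)) := by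
    fun_prop
  exact (measurable_const.sub (h1.mul h3)).inv

/-! ### transfer to the torus of the primes -/

/-- set of the first `N` primes -/
noncomputable def y1S (N : ℕ) : Finset ℕ := (Finset.range N).image pr

theorem y1S_prime {N p : ℕ} (h : p ∈ y1S N) : p.Prime := by
  unfold y1S at h
  obtain ⟨j, -, rfl⟩ := Finset.mem_image.1 h
  exact y1_pr_prime j

/-- rotated Euler product -/
theorem y1_rot_meas (S : Finset ℕ) (x : ℝ) :
    Measurable (fun θ : Om => Eu S (fun p => Xt θ p * Xp x p)) := by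
  refine (y1_Eu_meas S).comp ?_
  refine measurable_pi_lambda _ fun p => ?_
  have h1 : Measurable (fun θ : Om => Xt θ p) := (measurable_pi_apply p).comp y1_Xt_meas
  exact h1.mul_const _

theorem y1_zr_meas' (N : ℕ) (x : ℝ) : Measurable (fun θ : ℕ → ℝ => zr N θ x) := by
  have h1 : Measurable (fun θ : ℕ → ℝ => (θ, x)) := by fun_prop
  have h2 := (y1_zr_meas N).comp h1
  simp only [Function.comp_def] at h2
  exact h2

theorem y1_pt_meas (m : ℕ) : Measurable (fun θ : ℕ → ℝ => pt m θ) := by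
  unfold pt
  fun_prop

theorem y1_transfer (F : (ℕ → ℝ) → ℝ) (hF : AEStronglyMeasurable F P) :
    ∫ θ, F θ ∂P = ∫ θ, F (y1s θ) ∂PT := by
  have h1 := y1_s.map_eq
  have h2 : AEStronglyMeasurable F (Measure.map y1s PT) := by
    rw [h1]
    exact hF
  have h3 := integral_map y1_meas_s.aemeasurable h2
  rw [h1] at h3
  exact h3

theorem y1_num (β : ℝ) (m N : ℕ) (h : (Fin m → ℂ) → ℝ) (hh : Continuous h) (x : ℝ) :
    ∫ θ, ‖zr N θ x‖ ^ β * h (pt m θ) ∂P =
      ∫ θ, ‖Eu (y1S N) (fun p => Xt θ p * Xp x p)‖ ^ β * h (fun j : Fin m => Xt θ (pr j)) ∂PT := by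
  have h1 : Measurable (fun θ : ℕ → ℝ => ‖zr N θ x‖ ^ β * h (pt m θ)) :=
    ((y1_zr_meas' N x).norm.pow_const β).mul (hh.measurable.comp (y1_pt_meas m))
  rw [y1_transfer _ h1.aestronglyMeasurable]
  refine integral_congr_ae (Eventually.of_forall fun θ => ?_)
  change ‖zr N (y1s θ) x‖ ^ β * h (pt m (y1s θ)) = _
  rw [y1_zr, y1_pt]
  rfl

theorem y1_den (β : ℝ) (N : ℕ) (x : ℝ) :
    ∫ θ, ‖zr N θ x‖ ^ β ∂P = ∫ θ, ‖Eu (y1S N) (fun p => Xt θ p * Xp x p)‖ ^ β ∂PT := by
  have h := y1_num β 0 N (fun _ => 1) continuous_const x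
  simpa only [mul_one] using h

theorem y1_rotate (β : ℝ) (S : Finset ℕ) (x : ℝ) :
    ∫ θ, ‖Eu S (fun p => Xt θ p * Xp x p)‖ ^ β ∂PT = ∫ θ, ‖Eu S (Xt θ)‖ ^ β ∂PT := by
  have h1 := torus_rot (fun p => -(x * Real.log p) / (2 * Real.pi)) (fun X => ‖Eu S X‖ ^ β)
    ((((y1_Eu_meas S).comp y1_Xt_meas).norm).pow_const β) ((y1_Eu_meas S).norm.pow_const β)
  have h2 : ∀ p : ℕ, ee (-(x * Real.log p) / (2 * Real.pi)) = Xp x p := by
    intro p
    unfold ee Xp
    congr 1
    have hp : (Real.pi : ℂ) ≠ 0 := by exact_mod_cast Real.pi_ne_zero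
    push_cast
    field_simp
  simp only [h2] at h1
  exact h1

/-! ### bounds for finite Euler products -/

theorem y1_Eu_bd (S : Finset ℕ) (hS : ∀ p ∈ S, p.Prime) : ∃ c C : ℝ, 0 < c ∧ 0 < C ∧
    ∀ X : ℕ → ℂ, (∀ p, ‖X p‖ = 1) → c ≤ ‖Eu S X‖ ∧ ‖Eu S X‖ ≤ C := by
  refine ⟨∏ p ∈ S, (1 + (Real.sqrt p)⁻¹)⁻¹, ∏ p ∈ S, (1 - (Real.sqrt p)⁻¹)⁻¹, ?_, ?_, ?_⟩
  · exact Finset.prod_pos fun p _ => by positivity
  · refine Finset.prod_pos fun p hp => ?_
    have h1 : 1 < Real.sqrt p := by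
      rw [Real.lt_sqrt (by norm_num)]
      have := (hS p hp).one_lt
      have h2 : (1 : ℝ) < p := by exact_mod_cast this
      linarith
    have h3 : (Real.sqrt p)⁻¹ < 1 := inv_lt_one_of_one_lt₀ h1
    exact inv_pos.2 (by linarith)
  · intro X hX
    unfold Eu
    rw [norm_prod]
    have hn : ∀ p : ℕ, ‖X p * ((Real.sqrt p : ℝ) : ℂ)⁻¹‖ = (Real.sqrt p)⁻¹ := by
      intro p
      rw [norm_mul, hX, one_mul, norm_inv, Complex.norm_real, Real.norm_eq_abs,
        abs_of_nonneg (Real.sqrt_nonneg _)]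
    constructor
    · refine Finset.prod_le_prod (fun p _ => by positivity) fun p hp => ?_
      rw [norm_inv]
      have h1 : 1 < Real.sqrt p := by
        rw [Real.lt_sqrt (by norm_num)]
        have h2 : (1 : ℝ) < p := by exact_mod_cast (hS p hp).one_lt
        linarith
      have h3 : (Real.sqrt p)⁻¹ < 1 := inv_lt_one_of_one_lt₀ h1
      have h4 : ‖(1 : ℂ) - X p * ((Real.sqrt p : ℝ) : ℂ)⁻¹‖ ≤ 1 + (Real.sqrt p)⁻¹ := by
        refine (norm_sub_le _ _).trans ?_
        rw [hn, norm_one]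
      have h5 : 1 - (Real.sqrt p)⁻¹ ≤ ‖(1 : ℂ) - X p * ((Real.sqrt p : ℝ) : ℂ)⁻¹‖ := by
        have := norm_sub_norm_le (1 : ℂ) (X p * ((Real.sqrt p : ℝ) : ℂ)⁻¹)
        rwa [hn, norm_one] at this
      exact inv_anti₀ (by linarith) h4
    · refine Finset.prod_le_prod (fun p _ => norm_nonneg _) fun p hp => ?_
      rw [norm_inv]
      have h1 : 1 < Real.sqrt p := by
        rw [Real.lt_sqrt (by norm_num)]
        have h2 : (1 : ℝ) < p := by exact_mod_cast (hS p hp).one_lt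
        linarith
      have h3 : (Real.sqrt p)⁻¹ < 1 := inv_lt_one_of_one_lt₀ h1
      have h5 : 1 - (Real.sqrt p)⁻¹ ≤ ‖(1 : ℂ) - X p * ((Real.sqrt p : ℝ) : ℂ)⁻¹‖ := by
        have := norm_sub_norm_le (1 : ℂ) (X p * ((Real.sqrt p : ℝ) : ℂ)⁻¹)
        rwa [hn, norm_one] at this
      exact inv_anti₀ (by linarith) h5

theorem y1_rot_norm (θ : Om) (x : ℝ) (p : ℕ) : ‖Xt θ p * Xp x p‖ = 1 := by
  rw [norm_mul, norm_Xt, norm_Xp, one_mul]

theorem y1_pos (β : ℝ) (hβ : 0 < β) (S : Finset ℕ) (hS : ∀ p ∈ S, p.Prime) (x : ℝ) :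
    0 < ∫ θ, ‖Eu S (fun p => Xt θ p * Xp x p)‖ ^ β ∂PT := by
  have h0 : IsProbabilityMeasure PT := PT_prob
  obtain ⟨c, C, hc, hC, hb⟩ := y1_Eu_bd S hS
  have hint : Integrable (fun θ : Om => ‖Eu S (fun p => Xt θ p * Xp x p)‖ ^ β) PT := by
    refine Integrable.of_bound ((y1_rot_meas S x).norm.pow_const β).aestronglyMeasurable (C ^ β)
      (Eventually.of_forall fun θ => ?_)
    rw [Real.norm_of_nonneg (by positivity)]
    exact Real.rpow_le_rpow (norm_nonneg _) (hb _ (y1_rot_norm θ x)).2 hβ.le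
  have h1 : ∫ _θ : Om, c ^ β ∂PT ≤ ∫ θ, ‖Eu S (fun p => Xt θ p * Xp x p)‖ ^ β ∂PT := by
    refine integral_mono (integrable_const _) hint fun θ => ?_
    exact Real.rpow_le_rpow hc.le (hb _ (y1_rot_norm θ x)).1 hβ.le
  rw [integral_const, probReal_univ, one_smul] at h1
  have h2 : 0 < c ^ β := Real.rpow_pos_of_pos hc β
  linarith

/-- the internal ratio is the final ratio -/
theorem y1_ratio (β : ℝ) (hβ : 0 < β) (m y : ℕ) (hm : ∀ j : ℕ, j < m → pr j ≤ y)
    (h : (Fin m → ℂ) → ℝ) (hh : Continuous h) (x : ℝ) :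
    RR (β / 2) y (fun X => h (fun j => X (pr j))) x =
      (∫ θ, ‖zr m θ x‖ ^ β * h (pt m θ) ∂P) / ∫ θ, ‖zr m θ x‖ ^ β ∂P := by
  classical
  have h0 : IsProbabilityMeasure PT := PT_prob
  have hblk : blk y 0 = (Finset.range (y + 1)).filter Nat.Prime := rfl
  have hsub : y1S m ⊆ blk y 0 := by
    intro p hp
    unfold y1S at hp
    obtain ⟨j, hj, rfl⟩ := Finset.mem_image.1 hp
    rw [hblk, Finset.mem_filter, Finset.mem_range]
    exact ⟨Nat.lt_succ_of_le (hm j (Finset.mem_range.1 hj)), y1_pr_prime j⟩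
  obtain ⟨S1, hS1⟩ : ∃ S1, S1 = blk y 0 \ y1S m := ⟨_, rfl⟩
  have hS1p : ∀ p ∈ S1, p.Prime := by
    intro p hp
    rw [hS1] at hp
    have := (Finset.mem_sdiff.1 hp).1
    rw [hblk] at this
    exact (Finset.mem_filter.1 this).2
  have hdis : Disjoint (y1S m) S1 := by
    rw [hS1]
    exact Finset.disjoint_sdiff
  have hsplit : ∀ X : ℕ → ℂ, Eu (blk y 0) X = Eu (y1S m) X * Eu S1 X := by
    intro X
    unfold Eu
    rw [hS1, mul_comm, Finset.prod_sdiff hsub]
  have key : ∀ g : (Fin m → ℂ) → ℝ, Continuous g →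
      ∫ θ, ‖Eu (blk y 0) (fun p => Xt θ p * Xp x p)‖ ^ (2 * (β / 2)) *
        g (fun j => Xt θ (pr j)) ∂PT =
      (∫ θ, ‖Eu (y1S m) (fun p => Xt θ p * Xp x p)‖ ^ β * g (fun j : Fin m => Xt θ (pr j)) ∂PT) *
        ∫ θ, ‖Eu S1 (fun p => Xt θ p * Xp x p)‖ ^ β ∂PT := by
    intro g hg
    have hb := torus_blocks_real (Finset.range 2) (fun i => if i = 0 then y1S m else S1)
      (by
        intro i hi j hj hij
        rw [Finset.mem_range] at hi hj
        by_cases hi0 : i = 0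
        · have hj1 : j ≠ 0 := by omega
          simp only [hi0, if_true, if_neg hj1]
          exact hdis
        · have hj0 : j = 0 := by omega
          simp only [hj0, if_true, if_neg hi0]
          exact hdis.symm)
      (fun i X => if i = 0 then ‖Eu (y1S m) (fun p => X p * Xp x p)‖ ^ β *
          g (fun j : Fin m => X (pr j))
        else ‖Eu S1 (fun p => X p * Xp x p)‖ ^ β)
      (by
        intro i _
        by_cases hi0 : i = 0
        · simp only [hi0, if_true]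
          refine ((y1_rot_meas _ x).norm.pow_const β).mul (hg.measurable.comp ?_)
          refine measurable_pi_lambda _ fun j => ?_
          exact (measurable_pi_apply (pr j)).comp y1_Xt_meas
        · simp only [if_neg hi0]
          exact (y1_rot_meas _ x).norm.pow_const β)
      (by
        intro i _ X Y hXY
        by_cases hi0 : i = 0
        · simp only [hi0, if_true] at hXY ⊢
          have e1 : Eu (y1S m) (fun p => X p * Xp x p) = Eu (y1S m) (fun p => Y p * Xp x p) := by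
            unfold Eu
            refine Finset.prod_congr rfl fun p hp => ?_
            simp only [hXY p hp]
          have e2 : (fun j : Fin m => X (pr j)) = fun j : Fin m => Y (pr j) := by
            funext j
            apply hXY
            unfold y1S
            exact Finset.mem_image_of_mem _ (Finset.mem_range.2 j.2)
          rw [e1, e2]
        · simp only [if_neg hi0] at hXY ⊢
          have e1 : Eu S1 (fun p => X p * Xp x p) = Eu S1 (fun p => Y p * Xp x p) := by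
            unfold Eu
            refine Finset.prod_congr rfl fun p hp => ?_
            simp only [hXY p hp]
          rw [e1])
    simp only [Finset.prod_range_succ, Finset.prod_range_zero, one_mul, if_true, one_ne_zero,
      if_false] at hb
    rw [← hb]
    refine integral_congr_ae (Eventually.of_forall fun θ => ?_)
    change ‖Eu (blk y 0) (fun p => Xt θ p * Xp x p)‖ ^ (2 * (β / 2)) * g (fun j => Xt θ (pr j)) =
      ‖Eu (y1S m) (fun p => Xt θ p * Xp x p)‖ ^ β * g (fun j : Fin m => Xt θ (pr j)) *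
        ‖Eu S1 (fun p => Xt θ p * Xp x p)‖ ^ β
    rw [hsplit, norm_mul, mul_div_cancel₀ β two_ne_zero,
      Real.mul_rpow (norm_nonneg _) (norm_nonneg _)]
    ring
  have hpos := y1_pos β hβ S1 hS1p x
  unfold RR
  have k1 := key h hh
  have k2 := key (fun _ => 1) continuous_const
  simp only [mul_one] at k2
  rw [y1_num β m m h hh x, y1_den β m x, k1, k2, mul_div_mul_right _ _ hpos.ne']

/-! ### the chaos -/

/-- normalising constant -/
noncomputable def y1c (β : ℝ) (N : ℕ) : ℝ := ∫ θ, ‖Eu (y1S N) (Xt θ)‖ ^ β ∂PT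

theorem y1_den' (β : ℝ) (N : ℕ) (x : ℝ) : ∫ θ, ‖zr N θ x‖ ^ β ∂P = y1c β N := by
  rw [y1_den, y1_rotate]
  rfl

theorem y1_c_nonneg (β : ℝ) (N : ℕ) : 0 ≤ y1c β N :=
  integral_nonneg fun θ => Real.rpow_nonneg (norm_nonneg _) _

theorem y1_zr_meas_x (N : ℕ) (θ : ℕ → ℝ) : Measurable (fun x : ℝ => zr N θ x) := by
  have h1 : Measurable (fun x : ℝ => (θ, x)) := by fun_prop
  have h2 := (y1_zr_meas N).comp h1
  simp only [Function.comp_def] at h2
  exact h2

theorem y1_lam_int (β : ℝ) (N : ℕ) (θ : ℕ → ℝ) (f : ℝ → ℝ) :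
    ∫ x, f x ∂(lamN β N θ) = ∫ x in Icc (0:ℝ) 1, f x * (‖zr N θ x‖ ^ β / y1c β N) := by
  unfold lamN
  simp only [y1_den']
  rw [integral_withDensity_eq_integral_toReal_smul]
  · refine integral_congr_ae (Eventually.of_forall fun x => ?_)
    have h1 : 0 ≤ ‖zr N θ x‖ ^ β / y1c β N :=
      div_nonneg (Real.rpow_nonneg (norm_nonneg _) _) (y1_c_nonneg β N)
    simp only [ENNReal.toReal_ofReal h1, smul_eq_mul]
    ring
  · exact (((y1_zr_meas_x N θ).norm.pow_const β).div_const _).ennreal_ofReal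
  · exact Eventually.of_forall fun x => ENNReal.ofReal_lt_top

theorem y1_pq (y n : ℕ) : pq y n = y1S (Nat.count Nat.Prime (y ^ (2 ^ n) + 1)) := by
  unfold y1S pq
  rw [y1_image]

theorem y1_dn (β : ℝ) (y n : ℕ) (θ : Om) (f : ℝ → ℝ) :
    ∫ x in Icc (0:ℝ) 1, f x * dn (β / 2) y n θ x =
      ∫ x, f x ∂(lamN β (Nat.count Nat.Prime (y ^ (2 ^ n) + 1)) (y1s θ)) := by
  rw [y1_lam_int]
  refine integral_congr_ae (Eventually.of_forall fun x => ?_)
  change f x * dn (β / 2) y n θ x = f x *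
    (‖zr (Nat.count Nat.Prime (y ^ (2 ^ n) + 1)) (y1s θ) x‖ ^ β /
      y1c β (Nat.count Nat.Prime (y ^ (2 ^ n) + 1)))
  unfold dn
  rw [y1_zr, y1_pq, mul_div_cancel₀ β two_ne_zero]
  rfl

theorem y1_tend (y : ℕ) (hy : 2 ≤ y) :
    Tendsto (fun n : ℕ => Nat.count Nat.Prime (y ^ (2 ^ n) + 1)) atTop atTop := by
  rw [tendsto_atTop]
  intro b
  filter_upwards [eventually_ge_atTop (pr b)] with n hn
  have h1 : pr b < y ^ (2 ^ n) + 1 := by
    have h2 : n < 2 ^ n := Nat.lt_two_pow_self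
    have h3 : 2 ^ n < y ^ (2 ^ n) := Nat.lt_pow_self (by omega)
    omega
  have h4 : Nat.count Nat.Prime (pr b) < Nat.count Nat.Prime (y ^ (2 ^ n) + 1) :=
    Nat.count_strict_mono (y1_pr_prime b) h1
  have h5 : Nat.count Nat.Prime (pr b) = b := Nat.count_nth_of_infinite Nat.infinite_setOfPred_prime b
  omega

theorem y1_int_meas (β : ℝ) (N : ℕ) (f : ℝ → ℝ) (hf : Continuous f) :
    StronglyMeasurable (fun θ : ℕ → ℝ => ∫ x, f x ∂(lamN β N θ)) := by
  simp only [y1_lam_int]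
  have h1 : StronglyMeasurable (fun z : (ℕ → ℝ) × ℝ => f z.2 * (‖zr N z.1 z.2‖ ^ β / y1c β N)) := by
    have h2 : Measurable (fun z : (ℕ → ℝ) × ℝ => f z.2 * (‖zr N z.1 z.2‖ ^ β / y1c β N)) :=
      (hf.measurable.comp measurable_snd).mul (((y1_zr_meas N).norm.pow_const β).div_const _)
    exact h2.stronglyMeasurable
  exact h1.integral_prod_right

/-- the expectation against the chaos is the predicted value, for every large y -/
theorem chaos_value (β : ℝ) (h0 : 0 < β) (h2 : β < 2) (lam : (ℕ → ℂ) → Measure ℝ) (hlam : IsChaos β lam) (m : ℕ) :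
    ∃ y0 : ℕ, 100 ≤ y0 ∧ ∀ y : ℕ, y0 ≤ y → ∀ h : (Fin m → ℂ) → ℝ, Continuous h → (∀ X, 0 ≤ h X) →
    ∀ f : ℝ → ℝ, Continuous f → (∀ x, 0 ≤ f x) →
    Integrable (fun θ => (∫ x, f x ∂(lam (ptI θ))) * h (pt m θ)) P ∧
      ∫ θ, (∫ x, f x ∂(lam (ptI θ))) * h (pt m θ) ∂P = JJ (β / 2) y h f := by
  obtain ⟨y0, hy0, hlim⟩ := rm_limit (β / 2) (by linarith) (by linarith)
  refine ⟨max y0 (pr m), hy0.trans (le_max_left _ _), fun y hy h hh hh0 f hf hf0 => ?_⟩
  have hyy : y0 ≤ y := (le_max_left _ _).trans hy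
  have hm : ∀ j : ℕ, j < m → pr j ≤ y := by
    intro j hj
    have h3 : pr j ≤ pr m := (Nat.nth_strictMono Nat.infinite_setOfPred_prime).monotone hj.le
    exact h3.trans ((le_max_right _ _).trans hy)
  have hconv : ∀ᵐ θ ∂P, Tendsto (fun N : ℕ => ∫ x, f x ∂(lamN β N θ)) atTop
      (𝓝 (∫ x, f x ∂(lam (ptI θ)))) := by
    filter_upwards [hlam] with θ hθ
    exact hθ.2 f hf
  have hmeas : AEStronglyMeasurable (fun θ => (∫ x, f x ∂(lam (ptI θ))) * h (pt m θ)) P := by
    have e1 : AEStronglyMeasurable (fun θ => ∫ x, f x ∂(lam (ptI θ))) P :=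
      aestronglyMeasurable_of_tendsto_ae atTop
        (fun N => (y1_int_meas β N f hf).aestronglyMeasurable) hconv
    exact e1.mul (hh.measurable.comp (y1_pt_meas m)).aestronglyMeasurable
  have hconv2 : ∀ᵐ θ ∂PT, Tendsto (fun n : ℕ => ∫ x in Icc (0:ℝ) 1, f x * dn (β / 2) y n θ x)
      atTop (𝓝 (∫ x, f x ∂(lam (ptI (y1s θ))))) := by
    have e2 := y1_s.quasiMeasurePreserving.ae hconv
    filter_upwards [e2] with θ hθ
    simp only [y1_dn]
    exact hθ.comp (y1_tend y (by omega))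
  obtain ⟨r1, r2⟩ := hlim y hyy (fun X => h (fun j => X (pr j)))
    (hh.comp (continuous_pi fun j => continuous_apply (pr j))).continuousOn (fun X _ => hh0 _)
    (by
      intro X Y hXY
      have e3 : (fun j : Fin m => X (pr j)) = fun j : Fin m => Y (pr j) := by
        funext j
        apply hXY
        change pr j ∈ (Finset.range (y + 1)).filter Nat.Prime
        rw [Finset.mem_filter, Finset.mem_range]
        exact ⟨Nat.lt_succ_of_le (hm j j.2), y1_pr_prime j⟩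
      rw [e3]) f hf hf0 (fun θ => ∫ x, f x ∂(lam (ptI (y1s θ)))) hconv2
  have hcomp : (fun θ : Om => (∫ x, f x ∂(lam (ptI (y1s θ)))) * h (fun j : Fin m => Xt θ (pr j))) =
      (fun θ => (∫ x, f x ∂(lam (ptI θ))) * h (pt m θ)) ∘ y1s := by
    funext θ
    simp only [Function.comp_apply, y1_pt]
  constructor
  · have hmeas' : AEStronglyMeasurable (fun θ => (∫ x, f x ∂(lam (ptI θ))) * h (pt m θ))
        (Measure.map y1s PT) := by
      rw [y1_s.map_eq]
      exact hmeas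
    have e4 := (integrable_map_measure hmeas' y1_meas_s.aemeasurable).2 (by
      rw [← hcomp]
      exact r1)
    rw [y1_s.map_eq] at e4
    exact e4
  · rw [y1_transfer _ hmeas]
    have e5 : ∀ θ : Om, (∫ x, f x ∂(lam (ptI (y1s θ)))) * h (pt m (y1s θ)) =
        (∫ x, f x ∂(lam (ptI (y1s θ)))) * h (fun j : Fin m => Xt θ (pr j)) := by
      intro θ
      rw [y1_pt]
    simp only [e5]
    rw [r2]
    rfl

/-- the internal predicted value is the predicted value (independence of the primes beyond the first m) -/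
theorem JJ_pred (β : ℝ) (h0 : 0 < β) (h2 : β < 2) (m : ℕ) :
    ∃ y0 : ℕ, 100 ≤ y0 ∧ ∀ y : ℕ, y0 ≤ y → ∀ h : (Fin m → ℂ) → ℝ, Continuous h → (∀ X, 0 ≤ h X) →
    ∀ f : ℝ → ℝ, Continuous f → (∀ x, 0 ≤ f x) → JJ (β / 2) y h f = pred β m f h := by
  refine ⟨max 100 (pr m), le_max_left _ _, fun y hy h hh _ f _ _ => ?_⟩
  have hm : ∀ j : ℕ, j < m → pr j ≤ y := by
    intro j hj
    have h3 : pr j ≤ pr m := (Nat.nth_strictMono Nat.infinite_setOfPred_prime).monotone hj.le
    exact h3.trans ((le_max_right _ _).trans hy)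
  unfold JJ pred
  refine setIntegral_congr_fun measurableSet_Icc fun x _ => ?_
  rw [y1_ratio β h0 m y hm h hh x]

/-! ### the measures of the zeta function -/

theorem y1_Zt (T om x : ℝ) : ‖riemannZeta (1/2 + I * x + I * (om * T))‖ = Z (om * T + x) := by
  unfold Z
  congr 2
  push_cast
  ring

theorem y1_dens (β T om : ℝ) : nu β T om =
    (volume.restrict (Icc (0:ℝ) 1)).withDensity (fun x => ENNReal.ofReal
      (Real.log T ^ (-(β / 2) ^ 2) * Z (om * T + x) ^ (2 * (β / 2)))) := by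
  unfold nu
  congr 1
  funext x
  rw [y1_Zt, mul_div_cancel₀ β two_ne_zero]
  congr 3
  ring

theorem y1_Z_nonneg (t : ℝ) : 0 ≤ Z t := norm_nonneg _

theorem y1_logT {T : ℝ} (hT : 2 ≤ T) : 0 ≤ Real.log T := Real.log_nonneg (by linarith)

theorem y1_Z_meas (a b : ℝ) : Measurable (fun x : ℝ => Z (a + x) ^ b) :=
  (Z_cont.measurable.comp (measurable_const_add a)).pow_const b

theorem y1_nu_int (β T om : ℝ) (hT : 2 ≤ T) (f : ℝ → ℝ) :
    ∫ x, f x ∂(nu β T om) = Real.log T ^ (-(β / 2) ^ 2) *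
      ∫ x in Icc (0:ℝ) 1, f x * Z (om * T + x) ^ (2 * (β / 2)) := by
  rw [y1_dens, integral_withDensity_eq_integral_toReal_smul]
  · rw [← integral_const_mul]
    refine integral_congr_ae (Eventually.of_forall fun x => ?_)
    have h1 : 0 ≤ Real.log T ^ (-(β / 2) ^ 2) * Z (om * T + x) ^ (2 * (β / 2)) :=
      mul_nonneg (Real.rpow_nonneg (y1_logT hT) _) (Real.rpow_nonneg (y1_Z_nonneg _) _)
    simp only [ENNReal.toReal_ofReal h1, smul_eq_mul]
    ring
  · exact ((y1_Z_meas _ _).const_mul _).ennreal_ofReal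
  · exact Eventually.of_forall fun x => ENNReal.ofReal_lt_top

/-- the expectation against nu in internal terms -/
theorem nu_value (β : ℝ) (h0 : 0 < β) (h2 : β < 2) {T : ℝ} (hT : 2 ≤ T) {m : ℕ} (h : (Fin m → ℂ) → ℝ) (hh : Continuous h)
    (f : ℝ → ℝ) (hf : Continuous f) (hf0 : ∀ x, 0 ≤ f x) :
    ∫ om in Icc (0:ℝ) 1, (∫ x, f x ∂(nu β T om)) * h (ph m T om) =
      T⁻¹ * ∫ t in Icc (0:ℝ) T, (Real.log T ^ (-(β / 2) ^ 2) * ∫ x in Icc (0:ℝ) 1, f x * Z (t + x) ^ (2 * (β / 2))) *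
        h (fun j => Xp t (pr j)) := by
  obtain ⟨F, hF⟩ : ∃ F : ℝ → ℝ, F = fun t => (Real.log T ^ (-(β / 2) ^ 2) *
    ∫ x in Icc (0:ℝ) 1, f x * Z (t + x) ^ (2 * (β / 2))) * h (fun j => Xp t (pr j)) := ⟨_, rfl⟩
  have h1 : ∀ om : ℝ, (∫ x, f x ∂(nu β T om)) * h (ph m T om) = F (om * T) := by
    intro om
    rw [hF, y1_nu_int β T om hT f, y1_ph]
  simp only [h1]
  have h3 : ∀ t : ℝ, (Real.log T ^ (-(β / 2) ^ 2) * ∫ x in Icc (0:ℝ) 1, f x * Z (t + x) ^ (2 * (β / 2))) *
        h (fun j => Xp t (pr j)) = F t := by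
    intro t
    rw [hF]
  simp only [h3]
  rw [integral_Icc_eq_integral_Ioc, integral_Icc_eq_integral_Ioc,
    ← intervalIntegral.integral_of_le zero_le_one,
    ← intervalIntegral.integral_of_le (by linarith : (0:ℝ) ≤ T),
    intervalIntegral.integral_comp_mul_right F (by linarith : T ≠ 0), zero_mul, one_mul,
    smul_eq_mul]

/-- the q-th moment of the mass of nu in internal terms -/
theorem nu_moment (β : ℝ) (h0 : 0 < β) (h2 : β < 2) {T : ℝ} (hT : 2 ≤ T) (q : ℝ) (hq : 1 < q) :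
    ∫⁻ om in Icc (0:ℝ) 1, (nu β T om univ) ^ q =
      ENNReal.ofReal (Real.log T ^ (-(β / 2) ^ 2 * q)) * (ENNReal.ofReal T⁻¹ *
        ∫⁻ t in Icc (0:ℝ) T, (∫⁻ x in Icc (0:ℝ) 1, ENNReal.ofReal (Z (t + x) ^ (2 * (β / 2)))) ^ q) := by
  obtain ⟨F, hF⟩ : ∃ F : ℝ → ℝ≥0∞, F = fun t =>
    (∫⁻ x in Icc (0:ℝ) 1, ENNReal.ofReal (Z (t + x) ^ (2 * (β / 2)))) ^ q := ⟨_, rfl⟩
  have hL : 0 ≤ Real.log T ^ (-(β / 2) ^ 2) := Real.rpow_nonneg (y1_logT hT) _
  have h1 : ∀ om : ℝ, (nu β T om univ) ^ q =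
      ENNReal.ofReal (Real.log T ^ (-(β / 2) ^ 2 * q)) * F (om * T) := by
    intro om
    rw [hF, y1_dens, withDensity_apply _ MeasurableSet.univ, Measure.restrict_univ]
    have e1 : ∀ x : ℝ, ENNReal.ofReal (Real.log T ^ (-(β / 2) ^ 2) * Z (om * T + x) ^ (2 * (β / 2))) =
        ENNReal.ofReal (Real.log T ^ (-(β / 2) ^ 2)) * ENNReal.ofReal (Z (om * T + x) ^ (2 * (β / 2))) :=
      fun x => ENNReal.ofReal_mul hL
    simp only [e1]
    rw [lintegral_const_mul' _ _ ENNReal.ofReal_ne_top, ENNReal.mul_rpow_of_nonneg _ _ (by linarith),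
      ENNReal.ofReal_rpow_of_nonneg hL (by linarith), ← Real.rpow_mul (y1_logT hT)]
  simp only [h1]
  have h3 : ∀ t : ℝ, (∫⁻ x in Icc (0:ℝ) 1, ENNReal.ofReal (Z (t + x) ^ (2 * (β / 2)))) ^ q = F t := by
    intro t
    rw [hF]
  simp only [h3]
  rw [lintegral_const_mul' _ _ ENNReal.ofReal_ne_top]
  congr 1
  -- change of variables
  have hT0 : (0:ℝ) < T := by linarith
  have h4 := Real.smul_map_volume_mul_right hT0.ne'
  have h5 : ∫⁻ t in Icc (0:ℝ) T, F t = ENNReal.ofReal T * ∫⁻ om in Icc (0:ℝ) 1, F (om * T) := by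
    have h6 : MeasurableEmbedding (fun x : ℝ => x * T) :=
      (Homeomorph.mulRight₀ T hT0.ne').measurableEmbedding
    calc ∫⁻ t in Icc (0:ℝ) T, F t
        = ∫⁻ t in Icc (0:ℝ) T, F t ∂(ENNReal.ofReal |T| • Measure.map (· * T) volume) := by rw [h4]
      _ = ENNReal.ofReal T * ∫⁻ t in Icc (0:ℝ) T, F t ∂(Measure.map (· * T) volume) := by
          rw [Measure.restrict_smul, lintegral_smul_measure, abs_of_pos hT0, smul_eq_mul]
      _ = ENNReal.ofReal T * ∫⁻ om in Icc (0:ℝ) 1, F (om * T) := by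
          rw [h6.restrict_map, h6.lintegral_map]
          congr 3
          ext x
          simp only [mem_preimage, mem_Icc]
          constructor
          · rintro ⟨a, b⟩
            exact ⟨by
              by_contra hneg
              push Not at hneg
              nlinarith, by
              by_contra hneg
              push Not at hneg
              nlinarith⟩
          · rintro ⟨a, b⟩
            exact ⟨by positivity, by nlinarith⟩
  rw [h5, ← mul_assoc, ← ENNReal.ofReal_mul (inv_nonneg.2 hT0.le), inv_mul_cancel₀ hT0.ne',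
    ENNReal.ofReal_one, one_mul]

end CZ
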