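import Pool.Agent.Lib.MP_9eae41_pr.Y9

set_option autoImplicit false

open Complex MeasureTheory Set Filter Topology
open scoped ENNReal

namespace Chaos

/-! Moments of all orders: the inequalities at height T. -/

theorem yA {a g c q : ℝ} (ha : 0 ≤ a) (hg : 0 ≤ g) (hc : 0 < c) (hq : 1 < q) :
    a * g ^ (q - 1) ≤ 1 / q * c ^ (-(q - 1)) * a ^ q + (q - 1) / q * c * g ^ q := by
  have hq0 : 0 < q := by linarith
  have hq1 : 0 < q - 1 := by linarith
  have h1 := Real.geom_mean_le_arith_mean2_weighted (w₁ := 1 / q) (w₂ := (q - 1) / q)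
    (p₁ := a ^ q * c ^ (-(q - 1))) (p₂ := c * g ^ q) (by positivity) (by positivity)
    (mul_nonneg (Real.rpow_nonneg ha _) (Real.rpow_nonneg hc.le _)) (mul_nonneg hc.le (Real.rpow_nonneg hg _))
    (by field_simp; ring)
  have e1 : (a ^ q * c ^ (-(q - 1))) ^ (1 / q) = a * c ^ (-((q - 1) / q)) := by
    rw [Real.mul_rpow (Real.rpow_nonneg ha _) (Real.rpow_nonneg hc.le _), ← Real.rpow_mul ha, ← Real.rpow_mul hc.le]
    have t1 : q * (1 / q) = 1 := by field_simp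
    have t2 : -(q - 1) * (1 / q) = -((q - 1) / q) := by ring
    rw [t1, t2, Real.rpow_one]
  have e2 : (c * g ^ q) ^ ((q - 1) / q) = c ^ ((q - 1) / q) * g ^ (q - 1) := by
    rw [Real.mul_rpow hc.le (Real.rpow_nonneg hg _), ← Real.rpow_mul hg]
    have t1 : q * ((q - 1) / q) = q - 1 := by field_simp
    rw [t1]
  rw [e1, e2] at h1
  have e3 : a * c ^ (-((q - 1) / q)) * (c ^ ((q - 1) / q) * g ^ (q - 1)) = a * g ^ (q - 1) := by
    have : c ^ (-((q - 1) / q)) * c ^ ((q - 1) / q) = 1 := by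
      rw [← Real.rpow_add hc, neg_add_cancel, Real.rpow_zero]
    calc _ = a * g ^ (q - 1) * (c ^ (-((q - 1) / q)) * c ^ ((q - 1) / q)) := by ring
      _ = _ := by rw [this, mul_one]
  rw [e3] at h1
  linarith

theorem yB {a b s q : ℝ} (ha : 0 ≤ a) (hb : 0 < b) (hs : 0 < s) (hq0 : 0 < q) (hq1 : q < 1) :
    a ^ q ≤ s ^ q * (q * (a * b ^ (q - 1)) / s + (1 - q) * b ^ q) := by
  have h1 := Real.geom_mean_le_arith_mean2_weighted (w₁ := q) (w₂ := 1 - q)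
    (p₁ := a * b ^ (q - 1) / s) (p₂ := b ^ q) hq0.le (by linarith)
    (div_nonneg (mul_nonneg ha (Real.rpow_nonneg hb.le _)) hs.le) (Real.rpow_nonneg hb.le _) (by ring)
  have e1 : (a * b ^ (q - 1) / s) ^ q * (b ^ q) ^ (1 - q) = a ^ q / s ^ q := by
    rw [Real.div_rpow (mul_nonneg ha (Real.rpow_nonneg hb.le _)) hs.le, Real.mul_rpow ha (Real.rpow_nonneg hb.le _),
      ← Real.rpow_mul hb.le, ← Real.rpow_mul hb.le]
    have : b ^ ((q - 1) * q) * b ^ (q * (1 - q)) = 1 := by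
      rw [← Real.rpow_add hb]
      have : (q - 1) * q + q * (1 - q) = 0 := by ring
      rw [this, Real.rpow_zero]
    calc _ = a ^ q / s ^ q * (b ^ ((q - 1) * q) * b ^ (q * (1 - q))) := by ring
      _ = _ := by rw [this, mul_one]
  rw [e1, div_le_iff₀ (Real.rpow_pos_of_pos hs _)] at h1
  calc a ^ q ≤ _ := h1
    _ = _ := by ring

theorem yC {a b K q q₁ : ℝ} (ha : 0 ≤ a) (hb : 0 < b) (hK : 0 < K) (hq0 : 0 < q) (hq1 : q < 1) (hq₁ : 1 < q₁) :
    a * b ^ (q - 1) ≤ (q₁ - 1) / (q₁ - q) * K * a ^ q +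
      (1 - q) / (q₁ - q) * K ^ (-((q₁ - 1) / (1 - q))) * (a ^ q₁ * b ^ (q - q₁)) := by
  have hd : 0 < q₁ - q := by linarith
  have h1q : 0 < 1 - q := by linarith
  have h1 := Real.geom_mean_le_arith_mean2_weighted (w₁ := (q₁ - 1) / (q₁ - q)) (w₂ := (1 - q) / (q₁ - q))
    (p₁ := K * a ^ q) (p₂ := K ^ (-((q₁ - 1) / (1 - q))) * (a ^ q₁ * b ^ (q - q₁)))
    (div_nonneg (by linarith) hd.le) (div_nonneg h1q.le hd.le)
    (mul_nonneg hK.le (Real.rpow_nonneg ha _))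
    (mul_nonneg (Real.rpow_nonneg hK.le _) (mul_nonneg (Real.rpow_nonneg ha _) (Real.rpow_nonneg hb.le _)))
    (by rw [← add_div, div_eq_one_iff_eq hd.ne']; ring)
  rcases ha.eq_or_lt with h0 | h0
  · rw [← h0, zero_mul, Real.zero_rpow hq0.ne', Real.zero_rpow (by linarith)]
    simp
  have e1 : (K * a ^ q) ^ ((q₁ - 1) / (q₁ - q)) * (K ^ (-((q₁ - 1) / (1 - q))) * (a ^ q₁ * b ^ (q - q₁))) ^ ((1 - q) / (q₁ - q)) =
      a * b ^ (q - 1) := by
    rw [Real.mul_rpow hK.le (Real.rpow_nonneg ha _), Real.mul_rpow (Real.rpow_nonneg hK.le _)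
      (mul_nonneg (Real.rpow_nonneg ha _) (Real.rpow_nonneg hb.le _)), Real.mul_rpow (Real.rpow_nonneg ha _) (Real.rpow_nonneg hb.le _),
      ← Real.rpow_mul ha, ← Real.rpow_mul hK.le, ← Real.rpow_mul ha, ← Real.rpow_mul hb.le]
    have t1 : K ^ ((q₁ - 1) / (q₁ - q)) * K ^ (-((q₁ - 1) / (1 - q)) * ((1 - q) / (q₁ - q))) = 1 := by
      rw [← Real.rpow_add hK]
      have : (q₁ - 1) / (q₁ - q) + -((q₁ - 1) / (1 - q)) * ((1 - q) / (q₁ - q)) = 0 := by
        field_simp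
        ring
      rw [this, Real.rpow_zero]
    have t2 : a ^ (q * ((q₁ - 1) / (q₁ - q))) * a ^ (q₁ * ((1 - q) / (q₁ - q))) = a := by
      rw [← Real.rpow_add h0]
      have : q * ((q₁ - 1) / (q₁ - q)) + q₁ * ((1 - q) / (q₁ - q)) = 1 := by
        field_simp
        ring
      rw [this, Real.rpow_one]
    have t3 : b ^ ((q - q₁) * ((1 - q) / (q₁ - q))) = b ^ (q - 1) := by
      congr 1
      field_simp
      ring
    calc _ = (K ^ ((q₁ - 1) / (q₁ - q)) * K ^ (-((q₁ - 1) / (1 - q)) * ((1 - q) / (q₁ - q)))) *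
          (a ^ (q * ((q₁ - 1) / (q₁ - q))) * a ^ (q₁ * ((1 - q) / (q₁ - q)))) * b ^ ((q - q₁) * ((1 - q) / (q₁ - q))) := by ring
      _ = _ := by rw [t1, t2, t3, one_mul]
  rw [e1] at h1
  calc a * b ^ (q - 1) ≤ _ := h1
    _ = _ := by ring

theorem y10_first (β : ℝ) (h0 : 0 < β) (h2 : β < 2) : ∃ c₁ c₂ : ℝ, 0 < c₁ ∧ c₁ ≤ c₂ ∧ ∀ f : ℝ → ℝ, Continuous f → (∀ x, 0 ≤ f x) →
    ∀ (n : ℕ) (w : (Fin n → ℂ) → ℝ), Continuous w → (∀ v, 0 ≤ w v) → ∀ ε : ℝ, 0 < ε → ∀ᶠ T : ℝ in atTop,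
    c₁ * (∫ θ, gN β n f (pt n θ) * w (pt n θ) ∂P) - ε ≤ ∫ om in Icc (0:ℝ) 1, (∫ x, f x ∂(nu β T om)) * w (ph n T om) ∧
    ∫ om in Icc (0:ℝ) 1, (∫ x, f x ∂(nu β T om)) * w (ph n T om) ≤ c₂ * (∫ θ, gN β n f (pt n θ) * w (pt n θ) ∂P) + ε := by
  obtain ⟨c₁, c₂, hc1, hc12, H⟩ := part_B β h0 h2
  refine ⟨c₁, c₂, hc1, hc12, fun f hf hf0 n w hw hw0 ε hε => ?_⟩
  have := H n w hw hw0 f hf hf0 ε hε
  rw [pred_eq h0 n hf hw] at this
  exact this

theorem y10_int {F : ℝ → ℝ} (hF : Continuous F) : IntegrableOn F (Icc (0:ℝ) 1) volume :=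
  hF.continuousOn.integrableOn_compact isCompact_Icc

/-- lower bound for q larger than 1 -/
theorem y10_low (β : ℝ) (h0 : 0 < β) (h2 : β < 2) : ∃ c : ℝ, 0 < c ∧ ∀ q : ℝ, 1 < q → ∀ f : ℝ → ℝ, Continuous f →
    (∀ x, 0 ≤ f x) → ∀ (n : ℕ) (w : (Fin n → ℂ) → ℝ), Continuous w → (∀ v, 0 ≤ w v) → ∀ ε : ℝ, 0 < ε → ∀ᶠ T : ℝ in atTop,
    c ^ q * (∫ θ, gN β n f (pt n θ) ^ q * w (pt n θ) ∂P) - ε ≤
      ∫ om in Icc (0:ℝ) 1, (∫ x, f x ∂(nu β T om)) ^ q * w (ph n T om) := by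
  obtain ⟨c, c₂, hc, hc12, H⟩ := y10_first β h0 h2
  refine ⟨c, hc, fun q hq f hf hf0 n w hw hw0 ε hε => ?_⟩
  have hq0 : 0 < q := by linarith
  have hq1 : 0 < q - 1 := by linarith
  have hgc := gN_cont h0 n hf
  have hg0 := fun v => gN_nonneg (β := β) n hf0 v
  obtain ⟨K, hK⟩ : ∃ K : ℝ, K = q * c ^ (q - 1) + (q - 1) * c ^ q + 1 := ⟨_, rfl⟩
  have hcq1 : 0 < c ^ (q - 1) := Real.rpow_pos_of_pos hc _
  have hcq : 0 < c ^ q := Real.rpow_pos_of_pos hc _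
  have hKpos : 0 < K := by
    rw [hK]
    positivity
  obtain ⟨δ, hδ⟩ : ∃ δ : ℝ, δ = ε / K := ⟨_, rfl⟩
  have hδ0 : 0 < δ := by
    rw [hδ]
    positivity
  have w1c : Continuous fun v => gN β n f v ^ (q - 1) * w v := (hgc.rpow_const fun _ => Or.inr hq1.le).mul hw
  have w2c : Continuous fun v => gN β n f v ^ q * w v := (hgc.rpow_const fun _ => Or.inr hq0.le).mul hw
  have H1 := H f hf hf0 n _ w1c (fun v => mul_nonneg (Real.rpow_nonneg (hg0 v) _) (hw0 v)) δ hδ0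
  have H2 := (equidist _ w2c).eventually_le_const (lt_add_of_pos_right (∫ θ, gN β n f (pt n θ) ^ q * w (pt n θ) ∂P) hδ0)
  filter_upwards [H1, H2, eventually_ge_atTop 2] with T a1 a2 hT
  have hA0 : ∀ om : ℝ, 0 ≤ ∫ x, f x ∂(nu β T om) := fun om => integral_nonneg hf0
  have hAc := nu_cont h0 hT hf
  have hpc := ph_cont n T
  obtain ⟨A, hA⟩ : ∃ A : ℝ, A = ∫ θ, gN β n f (pt n θ) ^ q * w (pt n θ) ∂P := ⟨_, rfl⟩
  have e1 : ∫ θ, gN β n f (pt n θ) * (gN β n f (pt n θ) ^ (q - 1) * w (pt n θ)) ∂P = A := by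
    rw [hA]
    refine integral_congr_ae (Eventually.of_forall fun θ => ?_)
    simp only
    rw [← mul_assoc]
    congr 1
    rcases (hg0 (pt n θ)).eq_or_lt with h | h
    · rw [← h, Real.zero_rpow hq0.ne', zero_mul]
    · rw [Real.rpow_sub h, Real.rpow_one]
      field_simp
  rw [e1] at a1
  rw [← hA] at a2 ⊢
  have key : ∫ om in Icc (0:ℝ) 1, (∫ x, f x ∂(nu β T om)) * (gN β n f (ph n T om) ^ (q - 1) * w (ph n T om)) ≤
      1 / q * c ^ (-(q - 1)) * (∫ om in Icc (0:ℝ) 1, (∫ x, f x ∂(nu β T om)) ^ q * w (ph n T om)) +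
        (q - 1) / q * c * ∫ om in Icc (0:ℝ) 1, gN β n f (ph n T om) ^ q * w (ph n T om) := by
    have c1 : Continuous fun om : ℝ => (∫ x, f x ∂(nu β T om)) ^ q * w (ph n T om) :=
      (hAc.rpow_const fun _ => Or.inr hq0.le).mul (hw.comp hpc)
    have c2 : Continuous fun om : ℝ => gN β n f (ph n T om) ^ q * w (ph n T om) := w2c.comp hpc
    have c3 : Continuous fun om : ℝ => (∫ x, f x ∂(nu β T om)) * (gN β n f (ph n T om) ^ (q - 1) * w (ph n T om)) :=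
      hAc.mul (w1c.comp hpc)
    rw [← integral_const_mul, ← integral_const_mul, ← integral_add ((y10_int c1).const_mul _) ((y10_int c2).const_mul _)]
    refine integral_mono (y10_int c3) (((y10_int c1).const_mul _).add ((y10_int c2).const_mul _)) fun om => ?_
    simp only
    have h3 := yA (hA0 om) (hg0 (ph n T om)) hc hq
    have h4 := mul_le_mul_of_nonneg_right h3 (hw0 (ph n T om))
    calc _ = (∫ x, f x ∂(nu β T om)) * gN β n f (ph n T om) ^ (q - 1) * w (ph n T om) := by ring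
      _ ≤ _ := h4
      _ = _ := by ring
  obtain ⟨E, hE⟩ : ∃ E : ℝ, E = ∫ om in Icc (0:ℝ) 1, (∫ x, f x ∂(nu β T om)) ^ q * w (ph n T om) := ⟨_, rfl⟩
  rw [← hE] at key ⊢
  have h5 : c * A - δ ≤ 1 / q * c ^ (-(q - 1)) * E + (q - 1) / q * c * (A + δ) := by
    refine a1.1.trans (key.trans ?_)
    gcongr
  have h6 : c ^ (-(q - 1)) = (c ^ (q - 1))⁻¹ := Real.rpow_neg hc.le _
  have h7 : c ^ q = c ^ (q - 1) * c := by
    rw [Real.rpow_sub hc, Real.rpow_one]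
    field_simp
  have h8 : q * c ^ (q - 1) * (c * A - δ) ≤ q * c ^ (q - 1) * (1 / q * c ^ (-(q - 1)) * E + (q - 1) / q * c * (A + δ)) := by
    gcongr
  have h9 : q * c ^ (q - 1) * (1 / q * c ^ (-(q - 1)) * E + (q - 1) / q * c * (A + δ)) = E + (q - 1) * c ^ q * (A + δ) := by
    rw [h6, h7]
    field_simp
  rw [h9] at h8
  have h10 : ε = δ * K := by
    rw [hδ]
    field_simp
  rw [h10, hK]
  rw [h7] at h8 ⊢
  nlinarith [hδ0.le]

/-- upper bound for q smaller than 1 -/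
theorem y10_up (β : ℝ) (h0 : 0 < β) (h2 : β < 2) : ∃ c : ℝ, 0 < c ∧ ∀ q : ℝ, 0 < q → q < 1 → ∀ f : ℝ → ℝ, Continuous f →
    (∀ x, 0 ≤ f x) → ∀ (n : ℕ) (w : (Fin n → ℂ) → ℝ), Continuous w → (∀ v, 0 ≤ w v) → ∀ d : ℝ, 0 < d → ∀ ε : ℝ, 0 < ε →
    ∀ᶠ T : ℝ in atTop, ∫ om in Icc (0:ℝ) 1, (∫ x, f x ∂(nu β T om)) ^ q * w (ph n T om) ≤
      c ^ q * (∫ θ, (gN β n f (pt n θ) + d) ^ q * w (pt n θ) ∂P) + ε := by
  have hPp : IsProbabilityMeasure P := P_prob
  obtain ⟨c₁, c, hc1, hc12, H⟩ := y10_first β h0 h2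
  have hc : 0 < c := hc1.trans_le hc12
  refine ⟨c, hc, fun q hq0 hq1 f hf hf0 n w hw hw0 d hd ε hε => ?_⟩
  have hgc := gN_cont h0 n hf
  have hg0 := fun v => gN_nonneg (β := β) n hf0 v
  have hgd : ∀ v, 0 < gN β n f v + d := fun v => by linarith [hg0 v]
  have hcq : 0 < c ^ q := Real.rpow_pos_of_pos hc _
  obtain ⟨K, hK⟩ : ∃ K : ℝ, K = c ^ q * (q / c + 1) := ⟨_, rfl⟩
  have hKpos : 0 < K := by
    rw [hK]
    positivity
  obtain ⟨δ, hδ⟩ : ∃ δ : ℝ, δ = ε / K := ⟨_, rfl⟩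
  have hδ0 : 0 < δ := by
    rw [hδ]
    positivity
  have hgdc : Continuous fun v => gN β n f v + d := hgc.add continuous_const
  have w1c : Continuous fun v => (gN β n f v + d) ^ (q - 1) * w v :=
    (hgdc.rpow_const fun v => Or.inl (hgd v).ne').mul hw
  have w2c : Continuous fun v => (gN β n f v + d) ^ q * w v := (hgdc.rpow_const fun _ => Or.inr hq0.le).mul hw
  have H1 := H f hf hf0 n _ w1c (fun v => mul_nonneg (Real.rpow_nonneg (hgd v).le _) (hw0 v)) δ hδ0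
  have H2 := (equidist _ w2c).eventually_le_const (lt_add_of_pos_right (∫ θ, (gN β n f (pt n θ) + d) ^ q * w (pt n θ) ∂P) hδ0)
  filter_upwards [H1, H2, eventually_ge_atTop 2] with T a1 a2 hT
  have hA0 : ∀ om : ℝ, 0 ≤ ∫ x, f x ∂(nu β T om) := fun om => integral_nonneg hf0
  have hAc := nu_cont h0 hT hf
  have hpc := ph_cont n T
  obtain ⟨A, hA⟩ : ∃ A : ℝ, A = ∫ θ, (gN β n f (pt n θ) + d) ^ q * w (pt n θ) ∂P := ⟨_, rfl⟩
  have bdd : ∀ F : (Fin n → ℂ) → ℝ, Continuous F → Integrable (fun θ => F (pt n θ)) P := by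
    intro F hF
    obtain ⟨B, hB0, hB⟩ := torus_bd hF
    refine Integrable.of_bound (hF.measurable.comp (pt_meas n)).aestronglyMeasurable B (Eventually.of_forall fun θ => ?_)
    exact hB _ (y9_pt_norm n θ)
  have e1 : ∫ θ, gN β n f (pt n θ) * ((gN β n f (pt n θ) + d) ^ (q - 1) * w (pt n θ)) ∂P ≤ A := by
    rw [hA]
    refine integral_mono (bdd (fun v => gN β n f v * ((gN β n f v + d) ^ (q - 1) * w v)) (hgc.mul w1c))
      (bdd (fun v => (gN β n f v + d) ^ q * w v) w2c) fun θ => ?_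
    simp only
    rw [← mul_assoc]
    refine mul_le_mul_of_nonneg_right ?_ (hw0 _)
    have h := hgd (pt n θ)
    calc gN β n f (pt n θ) * (gN β n f (pt n θ) + d) ^ (q - 1) ≤ (gN β n f (pt n θ) + d) * (gN β n f (pt n θ) + d) ^ (q - 1) := by
          have := Real.rpow_nonneg h.le (q - 1)
          gcongr
          linarith
      _ = (gN β n f (pt n θ) + d) ^ q := by
          rw [Real.rpow_sub h, Real.rpow_one]
          field_simp
  rw [← hA] at a2 ⊢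
  have c1 : Continuous fun om : ℝ => (∫ x, f x ∂(nu β T om)) ^ q * w (ph n T om) :=
    (hAc.rpow_const fun _ => Or.inr hq0.le).mul (hw.comp hpc)
  have c2 : Continuous fun om : ℝ => (gN β n f (ph n T om) + d) ^ q * w (ph n T om) := w2c.comp hpc
  have c3 : Continuous fun om : ℝ => (∫ x, f x ∂(nu β T om)) * ((gN β n f (ph n T om) + d) ^ (q - 1) * w (ph n T om)) :=
    hAc.mul (w1c.comp hpc)
  have key : ∫ om in Icc (0:ℝ) 1, (∫ x, f x ∂(nu β T om)) ^ q * w (ph n T om) ≤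
      c ^ q * (q / c * (∫ om in Icc (0:ℝ) 1, (∫ x, f x ∂(nu β T om)) * ((gN β n f (ph n T om) + d) ^ (q - 1) * w (ph n T om))) +
        (1 - q) * ∫ om in Icc (0:ℝ) 1, (gN β n f (ph n T om) + d) ^ q * w (ph n T om)) := by
    rw [← integral_const_mul, ← integral_const_mul, ← integral_add ((y10_int c3).const_mul _) ((y10_int c2).const_mul _),
      ← integral_const_mul]
    refine integral_mono (y10_int c1) ((((y10_int c3).const_mul _).add ((y10_int c2).const_mul _)).const_mul _) fun om => ?_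
    simp only
    have h3 := yB (hA0 om) (hgd (ph n T om)) hc hq0 hq1
    have h4 := mul_le_mul_of_nonneg_right h3 (hw0 (ph n T om))
    calc _ ≤ _ := h4
      _ = _ := by ring
  refine key.trans ?_
  have h5 : ∫ om in Icc (0:ℝ) 1, (∫ x, f x ∂(nu β T om)) * ((gN β n f (ph n T om) + d) ^ (q - 1) * w (ph n T om)) ≤ c * A + δ :=
    a1.2.trans (by gcongr)
  have h1q : 0 ≤ 1 - q := by linarith
  calc _ ≤ c ^ q * (q / c * (c * A + δ) + (1 - q) * (A + δ)) := by gcongr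
    _ = c ^ q * A + δ * (c ^ q * (q / c + (1 - q))) := by
        field_simp
        ring
    _ ≤ c ^ q * A + δ * K := by
        rw [hK]
        gcongr
        linarith
    _ = c ^ q * A + ε := by
        rw [hδ]
        field_simp

end Chaos
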