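import Pool.Agent.Lib.MP_9eae41_pr.Y10

set_option autoImplicit false

open Complex MeasureTheory Set Filter Topology
open scoped ENNReal

namespace Chaos

/-! Moments of all orders: the chaos. -/

theorem y11_bdd (n : ℕ) {F : (Fin n → ℂ) → ℝ} (hF : Continuous F) : Integrable (fun θ => F (pt n θ)) P := by
  have hPp : IsProbabilityMeasure P := P_prob
  obtain ⟨B, hB0, hB⟩ := torus_bd hF
  refine Integrable.of_bound (hF.measurable.comp (pt_meas n)).aestronglyMeasurable B (Eventually.of_forall fun θ => ?_)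
  exact hB _ (y9_pt_norm n θ)

theorem y11_conv (β : ℝ) (lam : (ℕ → ℂ) → Measure ℝ) (hlam : IsChaos β lam) {f : ℝ → ℝ} (hf : Continuous f) :
    ∀ᵐ θ ∂P, Tendsto (fun n : ℕ => gN β n f (pt n θ)) atTop (𝓝 (∫ x, f x ∂(lam (ptI θ)))) := by
  filter_upwards [CZ.y3_conv β lam hlam f hf] with θ hθ
  simp only [gN_pt]
  exact hθ

/-- the mass at height T in real form -/
theorem y11_mass {β T om : ℝ} : ∫ _, (1:ℝ) ∂(nu β T om) = (nu β T om univ).toReal := by
  simp [Measure.real]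

theorem chaos_pow (β q : ℝ) (h0 : 0 < β) (h2 : β < 2) (hq1 : 1 < q) (hq2 : q < 2) (hβq : q * β < 2) :
    ∃ C : ℝ, 0 < C ∧ ∀ lam : (ℕ → ℂ) → Measure ℝ, IsChaos β lam → ∫⁻ θ, lam (ptI θ) univ ^ q ∂P ≤ ENNReal.ofReal C := by
  have hPp : IsProbabilityMeasure P := P_prob
  obtain ⟨C, hC, hA⟩ := part_A β q h0 h2 hq1 hq2 hβq
  obtain ⟨c, hc, hL⟩ := y10_low β h0 h2
  have hq0 : 0 < q := by linarith
  have hcq : 0 < c ^ q := Real.rpow_pos_of_pos hc _
  have hn : ∀ n : ℕ, ∫ θ, gN β n (fun _ => 1) (pt n θ) ^ q ∂P ≤ (C + 1) / c ^ q := by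
    intro n
    have h1 := hL q hq1 (fun _ => 1) continuous_const (fun _ => zero_le_one) n (fun _ => 1) continuous_const
      (fun _ => zero_le_one) 1 one_pos
    obtain ⟨T, hT, hT2⟩ := (h1.and (eventually_ge_atTop 2)).exists
    simp only [mul_one] at hT
    have h3 : ∫ om in Icc (0:ℝ) 1, (∫ _, (1:ℝ) ∂(nu β T om)) ^ q ≤ C := by
      have hcont := nu_cont (f := fun _ => 1) h0 hT2 continuous_const
      rw [integral_eq_lintegral_of_nonneg_ae
        (Eventually.of_forall fun om => Real.rpow_nonneg (integral_nonneg fun _ => zero_le_one) _)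
        ((hcont.rpow_const fun _ => Or.inr hq0.le).aestronglyMeasurable)]
      refine ENNReal.toReal_le_of_le_ofReal hC.le (le_trans (le_of_eq ?_) (hA T hT2))
      refine lintegral_congr fun om => ?_
      have := nu_fin (T := T) h0 om
      rw [y11_mass, ← ENNReal.ofReal_rpow_of_nonneg ENNReal.toReal_nonneg hq0.le, ENNReal.ofReal_toReal (measure_ne_top _ _)]
    rw [le_div_iff₀ hcq]
    linarith
  refine ⟨(C + 1) / c ^ q, by positivity, fun lam hlam => ?_⟩
  have hlim : ∀ᵐ θ ∂P, lam (ptI θ) univ ^ q = liminf (fun n : ℕ => ENNReal.ofReal (gN β n (fun _ => 1) (pt n θ) ^ q)) atTop := by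
    filter_upwards [y11_conv β lam hlam (f := fun _ => 1) continuous_const, hlam] with θ hθ h3
    have := h3.1
    have h4 : ∫ _, (1:ℝ) ∂(lam (ptI θ)) = (lam (ptI θ) univ).toReal := by simp [Measure.real]
    rw [h4] at hθ
    have h5 : Tendsto (fun n : ℕ => ENNReal.ofReal (gN β n (fun _ => 1) (pt n θ) ^ q)) atTop
        (𝓝 (ENNReal.ofReal ((lam (ptI θ) univ).toReal ^ q))) :=
      ENNReal.tendsto_ofReal (hθ.rpow_const (Or.inr hq0.le))
    rw [h5.liminf_eq, ← ENNReal.ofReal_rpow_of_nonneg ENNReal.toReal_nonneg hq0.le, ENNReal.ofReal_toReal (measure_ne_top _ _)]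
  rw [lintegral_congr_ae hlim]
  have hc1 : ∀ n : ℕ, Continuous fun v : Fin n → ℂ => gN β n (fun _ => 1) v ^ q := fun n =>
    (gN_cont h0 n continuous_const).rpow_const fun _ => Or.inr hq0.le
  refine (lintegral_liminf_le fun n => ((hc1 n).measurable.comp (pt_meas n)).ennreal_ofReal).trans ?_
  refine liminf_le_of_le (by isBoundedDefault) fun b hb => ?_
  obtain ⟨n, hn2⟩ := hb.exists
  refine hn2.trans ?_
  simp only [Function.comp_apply]
  rw [← ofReal_integral_eq_lintegral_ofReal (y11_bdd n (hc1 n))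
    (Eventually.of_forall fun θ => Real.rpow_nonneg (gN_nonneg n (fun _ => zero_le_one) _) _)]
  exact ENNReal.ofReal_le_ofReal (hn n)

theorem y11_meas (β : ℝ) (lam : (ℕ → ℂ) → Measure ℝ) (hlam : IsChaos β lam) {f : ℝ → ℝ} (hf : Continuous f)
    (hf0 : ∀ x, 0 ≤ f x) : AEMeasurable (fun θ => ∫⁻ x, ENNReal.ofReal (f x) ∂(lam (ptI θ))) P := by
  refine (CZ.y3_lam_meas β lam hlam f hf).aemeasurable.ennreal_ofReal.congr ?_
  filter_upwards [CZ.y3_L β lam hlam] with θ hθ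
  exact (hθ f hf hf0).symm

/-- the integral of f is at most the bound of f times the mass -/
theorem y11_le_mass (β : ℝ) (lam : (ℕ → ℂ) → Measure ℝ) (hlam : IsChaos β lam) {f : ℝ → ℝ} {B : ℝ}
    (hB : ∀ x ∈ Icc (0:ℝ) 1, f x ≤ B) :
    ∀ᵐ θ ∂P, ∫⁻ x, ENNReal.ofReal (f x) ∂(lam (ptI θ)) ≤ ENNReal.ofReal B * lam (ptI θ) univ := by
  filter_upwards [CZ.y3_supp β lam hlam] with θ hθ
  rw [← lintegral_const]
  refine lintegral_mono_ae ?_
  have : ∀ᵐ x ∂(lam (ptI θ)), x ∈ Icc (0:ℝ) 1 := by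
    rw [ae_iff]
    exact hθ
  filter_upwards [this] with x hx using ENNReal.ofReal_le_ofReal (hB x hx)

/-- the upper bound for the twisted q-th moments, for non-negative test functions -/
theorem nu_q0 (β q : ℝ) (h0 : 0 < β) (h2 : β < 2) (hq1 : 1 < q) (hq2 : q < 2) (hβq : q * β < 2) :
    ∃ C : ℝ, 0 < C ∧ ∀ lam : (ℕ → ℂ) → Measure ℝ, IsChaos β lam → ∀ f : ℝ → ℝ, Continuous f → (∀ x, 0 ≤ f x) →
    ∀ (m : ℕ) (h : (Fin m → ℂ) → ℝ), Continuous h → (∀ X, 0 ≤ h X) → ∀ ε : ℝ, 0 < ε → ∀ᶠ T : ℝ in atTop,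
    ∫⁻ om in Icc (0:ℝ) 1, (∫⁻ x, ENNReal.ofReal (f x) ∂(nu β T om)) ^ q * ENNReal.ofReal (h (ph m T om)) ≤
      ENNReal.ofReal C * (∫⁻ θ, (∫⁻ x, ENNReal.ofReal (f x) ∂(lam (ptI θ))) ^ q * ENNReal.ofReal (h (pt m θ)) ∂P) +
        ENNReal.ofReal ε := by
  have hPp : IsProbabilityMeasure P := P_prob
  have hq0 : 0 < q := by linarith
  obtain ⟨C, hC, H⟩ := CZ.nu_q β q h0 h2 hq1 hq2 (by linarith)
  obtain ⟨C', hC', H'⟩ := chaos_pow β q h0 h2 hq1 hq2 hβq
  refine ⟨C, hC, fun lam hlam f hf hf0 m h hh hh0 ε hε => ?_⟩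
  obtain ⟨Bh, hBh0, hBh⟩ := torus_bd hh
  obtain ⟨B, hB⟩ := isCompact_Icc.exists_bound_of_continuousOn (hf.continuousOn (s := Icc (0:ℝ) 1))
  have hB0 : 0 ≤ B := (norm_nonneg _).trans (hB 0 (by simp))
  have hfin := H' lam hlam
  obtain ⟨J, hJ⟩ : ∃ J : ℝ≥0∞, J = ∫⁻ θ, (∫⁻ x, ENNReal.ofReal (f x) ∂(lam (ptI θ))) ^ q * ENNReal.ofReal (h (pt m θ)) ∂P := ⟨_, rfl⟩
  have hmh : AEMeasurable (fun θ => ENNReal.ofReal (h (pt m θ))) P := (hh.measurable.comp (pt_meas m)).ennreal_ofReal.aemeasurable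
  have hlim : Tendsto (fun k : ℕ => ∫⁻ θ, (∫⁻ x, ENNReal.ofReal (f x + 1 / ((k : ℝ) + 1)) ∂(lam (ptI θ))) ^ q *
      ENNReal.ofReal (h (pt m θ)) ∂P) atTop (𝓝 J) := by
    rw [hJ]
    refine tendsto_lintegral_of_dominated_convergence'
      (fun θ => (ENNReal.ofReal (B + 1) * lam (ptI θ) univ) ^ q * ENNReal.ofReal Bh) (fun k => ?_) (fun k => ?_) ?_ ?_
    · exact ((y11_meas β lam hlam (hf.add continuous_const) (fun x => add_nonneg (hf0 x) (by positivity))).pow_const q).mul hmh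
    · have hk : 1 / ((k : ℝ) + 1) ≤ 1 := by
        rw [div_le_one (by positivity)]
        have : (0 : ℝ) ≤ k := by positivity
        linarith
      filter_upwards [y11_le_mass β lam hlam (f := fun x => f x + 1 / ((k : ℝ) + 1)) (B := B + 1)
        (fun x hx => by
          have := (le_abs_self _).trans (hB x hx)
          linarith)] with θ hθ
      refine mul_le_mul' (ENNReal.rpow_le_rpow hθ hq0.le) (ENNReal.ofReal_le_ofReal ?_)
      exact (le_abs_self _).trans (hBh _ (y9_pt_norm m θ))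
    · have e1 : ∀ θ : ℕ → ℝ, (ENNReal.ofReal (B + 1) * lam (ptI θ) univ) ^ q * ENNReal.ofReal Bh =
          (ENNReal.ofReal (B + 1) ^ q * ENNReal.ofReal Bh) * lam (ptI θ) univ ^ q := by
        intro θ
        rw [ENNReal.mul_rpow_of_nonneg _ _ hq0.le]
        ring
      have hct : ENNReal.ofReal (B + 1) ^ q * ENNReal.ofReal Bh ≠ ⊤ :=
        ENNReal.mul_ne_top (ENNReal.rpow_ne_top_of_nonneg hq0.le ENNReal.ofReal_ne_top) ENNReal.ofReal_ne_top
      simp only [e1]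
      rw [lintegral_const_mul' _ _ hct]
      exact ENNReal.mul_ne_top hct (ne_top_of_le_ne_top ENNReal.ofReal_ne_top hfin)
    · filter_upwards [hlam] with θ hθ
      have := hθ.1
      have t3 : Tendsto (fun k : ℕ => ENNReal.ofReal (1 / ((k : ℝ) + 1))) atTop (𝓝 0) := by
        have := ENNReal.tendsto_ofReal (tendsto_one_div_add_atTop_nhds_zero_nat (𝕜 := ℝ))
        simpa using this
      have t4 := ENNReal.Tendsto.mul_const t3 (Or.inr (measure_ne_top (lam (ptI θ)) univ))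
      rw [zero_mul] at t4
      have t5 : Tendsto (fun k : ℕ => ∫⁻ x, ENNReal.ofReal (f x + 1 / ((k : ℝ) + 1)) ∂(lam (ptI θ))) atTop
          (𝓝 (∫⁻ x, ENNReal.ofReal (f x) ∂(lam (ptI θ)))) := by
        have t6 := t4.const_add (∫⁻ x, ENNReal.ofReal (f x) ∂(lam (ptI θ)))
        rw [add_zero] at t6
        refine t6.congr fun k => ?_
        rw [← lintegral_const, ← lintegral_add_right _ measurable_const]
        refine lintegral_congr fun x => ?_
        rw [← ENNReal.ofReal_add (hf0 x) (by positivity)]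
      exact ENNReal.Tendsto.mul_const ((ENNReal.continuous_rpow_const.tendsto _).comp t5) (Or.inr ENNReal.ofReal_ne_top)
  have hJt : J ≠ ⊤ := by
    have h1 : J ≤ ∫⁻ θ, (ENNReal.ofReal B ^ q * ENNReal.ofReal Bh) * lam (ptI θ) univ ^ q ∂P := by
      rw [hJ]
      refine lintegral_mono_ae ?_
      filter_upwards [y11_le_mass β lam hlam (f := f) (B := B) (fun x hx => (le_abs_self _).trans (hB x hx))] with θ hθ
      calc _ ≤ (ENNReal.ofReal B * lam (ptI θ) univ) ^ q * ENNReal.ofReal Bh := by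
            refine mul_le_mul' (ENNReal.rpow_le_rpow hθ hq0.le) (ENNReal.ofReal_le_ofReal ?_)
            exact (le_abs_self _).trans (hBh _ (y9_pt_norm m θ))
        _ = _ := by
            rw [ENNReal.mul_rpow_of_nonneg _ _ hq0.le]
            ring
    have hct : ENNReal.ofReal B ^ q * ENNReal.ofReal Bh ≠ ⊤ :=
      ENNReal.mul_ne_top (ENNReal.rpow_ne_top_of_nonneg hq0.le ENNReal.ofReal_ne_top) ENNReal.ofReal_ne_top
    rw [lintegral_const_mul' _ _ hct] at h1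
    exact ne_top_of_le_ne_top (ENNReal.mul_ne_top hct (ne_top_of_le_ne_top ENNReal.ofReal_ne_top hfin)) h1
  have hlimC : Tendsto (fun k : ℕ => ENNReal.ofReal C * (∫⁻ θ, (∫⁻ x, ENNReal.ofReal (f x + 1 / ((k : ℝ) + 1)) ∂(lam (ptI θ))) ^ q *
      ENNReal.ofReal (h (pt m θ)) ∂P) + ENNReal.ofReal (ε / 2)) atTop (𝓝 (ENNReal.ofReal C * J + ENNReal.ofReal (ε / 2))) :=
    (ENNReal.Tendsto.const_mul hlim (Or.inr ENNReal.ofReal_ne_top)).add_const _
  have hlt : ENNReal.ofReal C * J + ENNReal.ofReal (ε / 2) < ENNReal.ofReal C * J + ENNReal.ofReal ε := by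
    refine ENNReal.add_lt_add_left (ENNReal.mul_ne_top ENNReal.ofReal_ne_top hJt) ?_
    exact (ENNReal.ofReal_lt_ofReal_iff hε).2 (by linarith)
  obtain ⟨k, hk⟩ := (hlimC.eventually_lt_const hlt).exists
  rw [← hJ]
  filter_upwards [H lam hlam (fun x => f x + 1 / ((k : ℝ) + 1)) (hf.add continuous_const)
    (fun x => add_pos_of_nonneg_of_pos (hf0 x) (by positivity)) m h hh hh0 (ε / 2) (by linarith)] with T hT
  refine le_trans ?_ (hT.trans hk.le)
  refine lintegral_mono fun om => mul_le_mul' (ENNReal.rpow_le_rpow (lintegral_mono fun x => ENNReal.ofReal_le_ofReal ?_) hq0.le) le_rfl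
  have : 0 < 1 / ((k : ℝ) + 1) := by positivity
  linarith

theorem fatou_real {α : Type*} [MeasurableSpace α] {μ : Measure α} (F : ℕ → α → ℝ) (G : α → ℝ) (hF : ∀ n, Integrable (F n) μ)
    (hG : Integrable G μ) (h0 : ∀ n, 0 ≤ᵐ[μ] F n) (hlim : ∀ᵐ x ∂μ, Tendsto (fun n => F n x) atTop (𝓝 (G x)))
    {ε : ℝ} (hε : 0 < ε) : ∀ᶠ n in atTop, ∫ x, G x ∂μ - ε ≤ ∫ x, F n x ∂μ := by
  have hG0 : 0 ≤ᵐ[μ] G := by
    have h1 : ∀ᵐ x ∂μ, ∀ n, 0 ≤ F n x := by
      rw [ae_all_iff]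
      exact h0
    filter_upwards [h1, hlim] with x a b using ge_of_tendsto' b a
  have hFa : ∀ n, 0 ≤ ∫ x, F n x ∂μ := fun n => integral_nonneg_of_ae (h0 n)
  rcases lt_or_ge (∫ x, G x ∂μ - ε) 0 with h2 | h2
  · exact Eventually.of_forall fun n => h2.le.trans (hFa n)
  have h3 : ENNReal.ofReal (∫ x, G x ∂μ) ≤ liminf (fun n => ENNReal.ofReal (∫ x, F n x ∂μ)) atTop := by
    have e1 : ∀ n, ENNReal.ofReal (∫ x, F n x ∂μ) = ∫⁻ x, ENNReal.ofReal (F n x) ∂μ := fun n =>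
      ofReal_integral_eq_lintegral_ofReal (hF n) (h0 n)
    simp only [e1]
    rw [ofReal_integral_eq_lintegral_ofReal hG hG0]
    refine le_trans (le_of_eq ?_) (lintegral_liminf_le' fun n => (hF n).aemeasurable.ennreal_ofReal)
    refine lintegral_congr_ae ?_
    filter_upwards [hlim] with x hx
    exact (ENNReal.tendsto_ofReal hx).liminf_eq.symm
  have h4 : ENNReal.ofReal (∫ x, G x ∂μ - ε) < liminf (fun n => ENNReal.ofReal (∫ x, F n x ∂μ)) atTop :=
    lt_of_lt_of_le ((ENNReal.ofReal_lt_ofReal_iff (by linarith)).2 (by linarith)) h3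
  filter_upwards [eventually_lt_of_lt_liminf h4] with n hn
  by_contra hc
  rw [not_le] at hc
  exact absurd hn (not_lt.2 (ENNReal.ofReal_le_ofReal hc.le))

/-- the integral of the chaos is integrable, and its mean is the mean of the approximations -/
theorem y11_X (β : ℝ) (h0 : 0 < β) (h2 : β < 2) (lam : (ℕ → ℂ) → Measure ℝ) (hlam : IsChaos β lam) {f : ℝ → ℝ} (hf : Continuous f)
    (hf0 : ∀ x, 0 ≤ f x) (n : ℕ) {h : (Fin n → ℂ) → ℝ} (hh : Continuous h) (hh0 : ∀ X, 0 ≤ h X) :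
    Integrable (fun θ => (∫ x, f x ∂(lam (ptI θ))) * h (pt n θ)) P ∧
      ∫ θ, gN β n f (pt n θ) * h (pt n θ) ∂P = ∫ θ, (∫ x, f x ∂(lam (ptI θ))) * h (pt n θ) ∂P := by
  obtain ⟨y1, hy1, H1⟩ := CZ.chaos_value β h0 h2 lam hlam n
  obtain ⟨y2, hy2, H2⟩ := CZ.JJ_pred β h0 h2 n
  obtain ⟨a1, a2⟩ := H1 (max y1 y2) (le_max_left _ _) h hh hh0 f hf hf0
  have a3 := H2 (max y1 y2) (le_max_right _ _) h hh hh0 f hf hf0
  refine ⟨a1, ?_⟩
  rw [a2, a3, pred_eq h0 n hf hh]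

theorem y11_X1 (β : ℝ) (h0 : 0 < β) (h2 : β < 2) (lam : (ℕ → ℂ) → Measure ℝ) (hlam : IsChaos β lam) {f : ℝ → ℝ} (hf : Continuous f)
    (hf0 : ∀ x, 0 ≤ f x) : Integrable (fun θ => ∫ x, f x ∂(lam (ptI θ))) P ∧
      ∀ n, ∫ θ, gN β n f (pt n θ) ∂P = ∫ θ, (∫ x, f x ∂(lam (ptI θ))) ∂P := by
  refine ⟨?_, fun n => ?_⟩
  · have := (y11_X β h0 h2 lam hlam hf hf0 0 (h := fun _ => 1) continuous_const (fun _ => zero_le_one)).1
    simpa only [mul_one] using this
  · have := (y11_X β h0 h2 lam hlam hf hf0 n (h := fun _ => 1) continuous_const (fun _ => zero_le_one)).2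
    simpa only [mul_one] using this

theorem y11_pow_le {x q : ℝ} (hx : 0 ≤ x) (hq0 : 0 < q) (hq1 : q < 1) : x ^ q ≤ x + 1 := by
  rcases le_total x 1 with h | h
  · exact (Real.rpow_le_one hx h hq0.le).trans (by linarith)
  · calc x ^ q ≤ x ^ (1:ℝ) := Real.rpow_le_rpow_of_exponent_le h hq1.le
      _ ≤ x + 1 := by rw [Real.rpow_one]; linarith

section Small

variable {β : ℝ} (h0 : 0 < β) (h2 : β < 2) {lam : (ℕ → ℂ) → Measure ℝ} (hlam : IsChaos β lam) {f : ℝ → ℝ} (hf : Continuous f)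
    (hf0 : ∀ x, 0 ≤ f x) {m : ℕ} {h : (Fin m → ℂ) → ℝ} (hh : Continuous h) (hh0 : ∀ X, 0 ≤ h X) {q : ℝ} (hq0 : 0 < q) (hq1 : q < 1)

include h0 h2 hlam hf hf0 hh hh0 hq0 hq1

theorem y11_powint {d : ℝ} (hd : 0 ≤ d) : Integrable (fun θ => ((∫ x, f x ∂(lam (ptI θ))) + d) ^ q * h (pt m θ)) P := by
  have hPp : IsProbabilityMeasure P := P_prob
  obtain ⟨B, hB0, hB⟩ := torus_bd hh
  obtain ⟨a1, -⟩ := y11_X1 β h0 h2 lam hlam hf hf0
  refine ((a1.add (integrable_const (d + 1))).mul_const B).mono' ?_ (Eventually.of_forall fun θ => ?_)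
  · refine ((((a1.aestronglyMeasurable.aemeasurable.add_const d).pow_const q)).mul ?_).aestronglyMeasurable
    exact (hh.measurable.comp (pt_meas m)).aemeasurable
  · have b1 : 0 ≤ ∫ x, f x ∂(lam (ptI θ)) := integral_nonneg hf0
    have b2 : 0 ≤ ((∫ x, f x ∂(lam (ptI θ))) + d) ^ q := Real.rpow_nonneg (by linarith) _
    rw [Real.norm_of_nonneg (mul_nonneg b2 (hh0 _))]
    have b3 := y11_pow_le (x := (∫ x, f x ∂(lam (ptI θ))) + d) (by linarith) hq0 hq1
    simp only [Pi.add_apply]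
    refine mul_le_mul (b3.trans (by linarith)) ((le_abs_self _).trans (hB _ (y9_pt_norm m θ))) (hh0 _) (by linarith)

theorem y11_up_lim {d : ℝ} (hd : 0 < d) {ε : ℝ} (hε : 0 < ε) : ∀ᶠ n : ℕ in atTop,
    ∫ θ, (gN β n f (pt n θ) + d) ^ q * h (pt m θ) ∂P ≤ ∫ θ, ((∫ x, f x ∂(lam (ptI θ))) + d) ^ q * h (pt m θ) ∂P + ε := by
  have hPp : IsProbabilityMeasure P := P_prob
  obtain ⟨B, hB0, hB⟩ := torus_bd hh
  obtain ⟨a1, a2⟩ := y11_X1 β h0 h2 lam hlam hf hf0
  have hFint : ∀ n, Integrable (fun θ => (gN β n f (pt n θ) + d) ^ q * h (pt m θ)) P := by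
    intro n
    have c1 : Continuous fun v => (gN β n f v + d) ^ q := ((gN_cont h0 n hf).add continuous_const).rpow_const fun _ => Or.inr hq0.le
    refine (y11_bdd n c1).mul_bdd (c := B) (hh.measurable.comp (pt_meas m)).aestronglyMeasurable
      (Eventually.of_forall fun θ => hB _ (y9_pt_norm m θ))
  have hDint : ∀ n, Integrable (fun θ => B * (gN β n f (pt n θ) + (d + 1))) P := by
    intro n
    have c1 : Continuous fun v => B * (gN β n f v + (d + 1)) := continuous_const.mul ((gN_cont h0 n hf).add continuous_const)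
    exact y11_bdd n c1
  have hG := y11_powint h0 h2 hlam hf hf0 hh hh0 hq0 hq1 hd.le
  have hD : Integrable (fun θ => B * ((∫ x, f x ∂(lam (ptI θ))) + (d + 1))) P := (a1.add (integrable_const _)).const_mul B
  have key := fatou_real (μ := P) (fun n θ => B * (gN β n f (pt n θ) + (d + 1)) - (gN β n f (pt n θ) + d) ^ q * h (pt m θ))
    (fun θ => B * ((∫ x, f x ∂(lam (ptI θ))) + (d + 1)) - ((∫ x, f x ∂(lam (ptI θ))) + d) ^ q * h (pt m θ))
    (fun n => (hDint n).sub (hFint n)) (hD.sub hG)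
    (fun n => Eventually.of_forall fun θ => by
      have b1 := gN_nonneg (β := β) n hf0 (pt n θ)
      have b3 := y11_pow_le (x := gN β n f (pt n θ) + d) (by linarith) hq0 hq1
      have b4 : h (pt m θ) ≤ B := (le_abs_self _).trans (hB _ (y9_pt_norm m θ))
      have b5 : (gN β n f (pt n θ) + d) ^ q * h (pt m θ) ≤ (gN β n f (pt n θ) + d + 1) * B :=
        mul_le_mul b3 b4 (hh0 _) (by linarith)
      simp only [Pi.zero_apply]
      linarith)
    (by
      filter_upwards [y11_conv β lam hlam hf] with θ hθ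
      refine (Tendsto.const_mul B (hθ.add_const (d + 1))).sub (Tendsto.mul_const _ ?_)
      exact (hθ.add_const d).rpow_const (Or.inr hq0.le)) hε
  filter_upwards [key] with n hn
  rw [integral_sub hD hG, integral_sub (hDint n) (hFint n), integral_const_mul, integral_const_mul,
    integral_add a1 (integrable_const _), integral_add (y11_bdd n (gN_cont h0 n hf)) (integrable_const _), a2 n] at hn
  linarith

theorem y11_low_lim {d : ℝ} (hd : 0 < d) {ε : ℝ} (hε : 0 < ε) : ∀ᶠ n : ℕ in atTop,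
    ∫ θ, ((∫ x, f x ∂(lam (ptI θ))) * ((∫ x, f x ∂(lam (ptI θ))) + d) ^ (q - 1)) * h (pt m θ) ∂P - ε ≤
      ∫ θ, (gN β n f (pt n θ) * (gN β n f (pt n θ) + d) ^ (q - 1)) * h (pt m θ) ∂P := by
  have hPp : IsProbabilityMeasure P := P_prob
  obtain ⟨B, hB0, hB⟩ := torus_bd hh
  obtain ⟨a1, a2⟩ := y11_X1 β h0 h2 lam hlam hf hf0
  have hgd : ∀ (n : ℕ) (v : Fin n → ℂ), 0 < gN β n f v + d := fun n v => by linarith [gN_nonneg (β := β) n hf0 v]
  refine fatou_real (μ := P) (fun n θ => (gN β n f (pt n θ) * (gN β n f (pt n θ) + d) ^ (q - 1)) * h (pt m θ)) _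
    (fun n => ?_) ?_ (fun n => ?_) ?_ hε
  · have c1 : Continuous fun v => gN β n f v * (gN β n f v + d) ^ (q - 1) :=
      (gN_cont h0 n hf).mul (((gN_cont h0 n hf).add continuous_const).rpow_const fun v => Or.inl (hgd n v).ne')
    exact (y11_bdd n c1).mul_bdd (c := B) (hh.measurable.comp (pt_meas m)).aestronglyMeasurable
      (Eventually.of_forall fun θ => hB _ (y9_pt_norm m θ))
  · refine (y11_powint h0 h2 hlam hf hf0 hh hh0 hq0 hq1 hd.le).mono' ?_ (Eventually.of_forall fun θ => ?_)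
    · exact ((a1.aestronglyMeasurable.aemeasurable.mul ((a1.aestronglyMeasurable.aemeasurable.add_const d).pow_const (q - 1))).mul
        (hh.measurable.comp (pt_meas m)).aemeasurable).aestronglyMeasurable
    · have b1 : 0 ≤ ∫ x, f x ∂(lam (ptI θ)) := integral_nonneg hf0
      obtain ⟨X, hX⟩ : ∃ X : ℝ, X = ∫ x, f x ∂(lam (ptI θ)) := ⟨_, rfl⟩
      rw [← hX] at b1 ⊢
      have b2 : 0 < X + d := by linarith
      have b3 : 0 ≤ (X + d) ^ (q - 1) := Real.rpow_nonneg b2.le _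
      rw [Real.norm_of_nonneg (mul_nonneg (mul_nonneg b1 b3) (hh0 _))]
      refine mul_le_mul_of_nonneg_right ?_ (hh0 _)
      calc X * (X + d) ^ (q - 1) ≤ (X + d) * (X + d) ^ (q - 1) := by
            gcongr
            linarith
        _ = (X + d) ^ q := by
            rw [Real.rpow_sub b2, Real.rpow_one]
            field_simp
  · refine Eventually.of_forall fun θ => ?_
    simp only [Pi.zero_apply]
    exact mul_nonneg (mul_nonneg (gN_nonneg n hf0 _) (Real.rpow_nonneg (hgd n _).le _)) (hh0 _)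
  · filter_upwards [y11_conv β lam hlam hf] with θ hθ
    refine Tendsto.mul_const _ (hθ.mul ((hθ.add_const d).rpow_const (Or.inl ?_)))
    have b1 : 0 ≤ ∫ x, f x ∂(lam (ptI θ)) := integral_nonneg hf0
    linarith

theorem y11_d_lim {ε : ℝ} (hε : 0 < ε) : ∀ᶠ k : ℕ in atTop,
    ∫ θ, (∫ x, f x ∂(lam (ptI θ))) ^ q * h (pt m θ) ∂P - ε ≤
      ∫ θ, ((∫ x, f x ∂(lam (ptI θ))) * ((∫ x, f x ∂(lam (ptI θ))) + 1 / ((k : ℝ) + 1)) ^ (q - 1)) * h (pt m θ) ∂P := by
  have hPp : IsProbabilityMeasure P := P_prob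
  obtain ⟨B, hB0, hB⟩ := torus_bd hh
  obtain ⟨a1, a2⟩ := y11_X1 β h0 h2 lam hlam hf hf0
  have hk : ∀ k : ℕ, 0 < 1 / ((k : ℝ) + 1) := fun k => by positivity
  refine fatou_real (μ := P) (fun k θ => ((∫ x, f x ∂(lam (ptI θ))) * ((∫ x, f x ∂(lam (ptI θ))) + 1 / ((k : ℝ) + 1)) ^ (q - 1)) *
    h (pt m θ)) _ (fun k => ?_) ?_ (fun k => ?_) ?_ hε
  · refine (y11_powint h0 h2 hlam hf hf0 hh hh0 hq0 hq1 (hk k).le).mono' ?_ (Eventually.of_forall fun θ => ?_)
    · exact ((a1.aestronglyMeasurable.aemeasurable.mul ((a1.aestronglyMeasurable.aemeasurable.add_const _).pow_const (q - 1))).mul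
        (hh.measurable.comp (pt_meas m)).aemeasurable).aestronglyMeasurable
    · have b1 : 0 ≤ ∫ x, f x ∂(lam (ptI θ)) := integral_nonneg hf0
      obtain ⟨X, hX⟩ : ∃ X : ℝ, X = ∫ x, f x ∂(lam (ptI θ)) := ⟨_, rfl⟩
      obtain ⟨d, hd⟩ : ∃ d : ℝ, d = 1 / ((k : ℝ) + 1) := ⟨_, rfl⟩
      have hk' := hk k
      rw [← hX] at b1 ⊢
      rw [← hd] at hk' ⊢
      have b2 : 0 < X + d := by linarith
      have b3 : 0 ≤ (X + d) ^ (q - 1) := Real.rpow_nonneg b2.le _
      rw [Real.norm_of_nonneg (mul_nonneg (mul_nonneg b1 b3) (hh0 _))]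
      refine mul_le_mul_of_nonneg_right ?_ (hh0 _)
      calc X * (X + d) ^ (q - 1) ≤ (X + d) * (X + d) ^ (q - 1) := by
            gcongr
            linarith
        _ = (X + d) ^ q := by
            rw [Real.rpow_sub b2, Real.rpow_one]
            field_simp
  · have := y11_powint h0 h2 hlam hf hf0 hh hh0 hq0 hq1 (le_refl (0:ℝ))
    simpa only [add_zero] using this
  · refine Eventually.of_forall fun θ => ?_
    simp only [Pi.zero_apply]
    have b1 : 0 ≤ ∫ x, f x ∂(lam (ptI θ)) := integral_nonneg hf0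
    exact mul_nonneg (mul_nonneg b1 (Real.rpow_nonneg (by linarith [hk k]) _)) (hh0 _)
  · refine Eventually.of_forall fun θ => ?_
    have b1 : 0 ≤ ∫ x, f x ∂(lam (ptI θ)) := integral_nonneg hf0
    obtain ⟨X, hX⟩ : ∃ X : ℝ, X = ∫ x, f x ∂(lam (ptI θ)) := ⟨_, rfl⟩
    rw [← hX] at b1 ⊢
    refine Tendsto.mul_const _ ?_
    rcases b1.eq_or_lt with hX0 | hX0
    · rw [← hX0, Real.zero_rpow hq0.ne']
      simp
    · have h3 : Tendsto (fun k : ℕ => X + 1 / ((k : ℝ) + 1)) atTop (𝓝 (X + 0)) :=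
        tendsto_one_div_add_atTop_nhds_zero_nat.const_add X
      rw [add_zero] at h3
      have h4 := (h3.rpow_const (p := q - 1) (Or.inl hX0.ne')).const_mul X
      have h5 : X * X ^ (q - 1) = X ^ q := by
        rw [Real.rpow_sub hX0, Real.rpow_one]
        field_simp
      rwa [h5] at h4

end Small

end Chaos
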