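import Pool.Agent.Lib.MP_9eae41_pr.Y7

set_option autoImplicit false

open MeasureTheory Set Filter Topology
open scoped ENNReal

namespace Chaos

/-! The integral of the q-th power of the density is a measurable function: limit of dyadic sums. -/

noncomputable def y16e (m : ℕ) : ℝ≥0∞ := ((m : ℝ≥0∞) + 1)⁻¹

theorem y16e_pos (m : ℕ) : 0 < y16e m :=
  ENNReal.inv_pos.2 (ENNReal.add_ne_top.2 ⟨ENNReal.natCast_ne_top m, ENNReal.one_ne_top⟩)

theorem y16e_ne (m : ℕ) : y16e m ≠ ⊤ := ENNReal.inv_ne_top.2 (by positivity)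

theorem y16e_anti : Antitone y16e := by
  intro a b hab
  apply ENNReal.inv_le_inv.2
  have : (a : ℝ≥0∞) ≤ b := by exact_mod_cast hab
  exact add_le_add this le_rfl

/-- dyadic sum -/
noncomputable def y16S (q : ℝ) (f : ℝ → ℝ) (n : ℕ) (η : ℝ≥0∞) (ν lam : Measure ℝ) : ℝ≥0∞ :=
  ∑ k ∈ Finset.range (2 ^ n), ENNReal.ofReal (f ((k : ℝ) / 2 ^ n)) *
      (ν (Icc ((k : ℝ) / 2 ^ n) ((k + 1 : ℝ) / 2 ^ n)) ^ q *
        (lam (Icc ((k : ℝ) / 2 ^ n) ((k + 1 : ℝ) / 2 ^ n)) + η) ^ (-(q - 1)))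

noncomputable def y16T (q : ℝ) (f : ℝ → ℝ) (n : ℕ) (ν lam : Measure ℝ) : ℝ≥0∞ := ⨆ m, y16S q f n (y16e m) ν lam

theorem y16S_mono {q : ℝ} (hq : 1 < q) (f : ℝ → ℝ) (n : ℕ) (ν lam : Measure ℝ) {η η' : ℝ≥0∞} (h : η ≤ η') :
    y16S q f n η' ν lam ≤ y16S q f n η ν lam := by
  apply Finset.sum_le_sum
  intro k _
  refine mul_le_mul' le_rfl (mul_le_mul' le_rfl ?_)
  rw [ENNReal.rpow_neg, ENNReal.rpow_neg, ENNReal.inv_le_inv]
  exact ENNReal.rpow_le_rpow (add_le_add le_rfl h) (by linarith)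

theorem y16_core {Ω : Type} [MeasurableSpace Ω] (Q : Measure Ω) [IsProbabilityMeasure Q] (ν lam : Ω → Measure ℝ)
    (g : Ω → ℝ≥0∞) (hg : AEMeasurable g Q) (B : ℝ≥0∞) (hB : B ≠ ⊤) (hgB : ∀ᵐ w ∂Q, g w ≤ B)
    (hl : ∀ᵐ w ∂Q, IsFiniteMeasure (lam w) ∧ lam w (Icc 0 1)ᶜ = 0)
    (q : ℝ) (hq : 1 < q) (C : ℝ≥0∞) (hC : C ≠ ⊤) (hatom : ∀ x : ℝ, ∀ᵐ w ∂Q, lam w {x} = 0)
    (hmass : ∫⁻ w, lam w (Icc 0 1) ∂Q ≠ ⊤)
    (hmν : ∀ a b : ℝ, AEMeasurable (fun w => ν w (Icc a b)) Q) (hml : ∀ a b : ℝ, AEMeasurable (fun w => lam w (Icc a b)) Q)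
    (hmain : ∀ a b : ℝ, ∀ η : ℝ≥0∞, 0 < η → η ≠ ⊤ →
      ∫⁻ w, ν w (Icc a b) ^ q * ((lam w (Icc a b) + η) ^ (-(q - 1)) * g w) ∂Q ≤ C * ∫⁻ w, lam w (Icc a b) * g w ∂Q)
    (f : ℝ → ℝ) (hf : Continuous f)
    (hfm : AEMeasurable (fun w => ∫⁻ x, ENNReal.ofReal (f x) ∂(lam w)) Q) :
    (∀ n, AEMeasurable (fun w => y16T q f n (ν w) (lam w)) Q) ∧
    ∫⁻ w, liminf (fun n => y16T q f n (ν w) (lam w) * g w) atTop ∂Q ≤
      C * ∫⁻ w, (∫⁻ x, ENNReal.ofReal (f x) ∂(lam w)) * g w ∂Q := by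
  have hq0 : 0 < q := by linarith
  have hq1 : 0 < q - 1 := by linarith
  have hat : ∀ᵐ w ∂Q, ∀ k n : ℕ, lam w {(k : ℝ) / 2 ^ n} = 0 := by
    rw [ae_all_iff]; intro k
    rw [ae_all_iff]; intro n
    exact hatom _
  have hSm : ∀ n η, AEMeasurable (fun w => y16S q f n η (ν w) (lam w)) Q := by
    intro n η
    apply Finset.aemeasurable_fun_sum
    intro k _
    exact (((hmν _ _).pow_const q).mul (((hml _ _).add_const η).pow_const _)).const_mul _
  have hTm : ∀ n, AEMeasurable (fun w => y16T q f n (ν w) (lam w)) Q := fun n => AEMeasurable.iSup (fun m => hSm n (y16e m))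
  refine ⟨hTm, ?_⟩
  obtain ⟨A, hA⟩ : ∃ A : ℝ≥0∞, A = ∫⁻ w, (∫⁻ x, ENNReal.ofReal (f x) ∂(lam w)) * g w ∂Q := ⟨_, rfl⟩
  obtain ⟨M, hM⟩ : ∃ M : ℝ≥0∞, M = ∫⁻ w, lam w (Icc 0 1) * g w ∂Q := ⟨_, rfl⟩
  have hMt : M ≠ ⊤ := by
    have : M ≤ B * ∫⁻ w, lam w (Icc 0 1) ∂Q := by
      rw [hM, ← lintegral_const_mul' _ _ hB]
      refine lintegral_mono_ae ?_
      filter_upwards [hgB] with w hw
      rw [mul_comm]
      exact mul_le_mul' hw le_rfl
    exact ne_top_of_le_ne_top (ENNReal.mul_ne_top hB hmass) this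
  rw [← hA]
  -- the bound at a fine level
  have hbound : ∀ ε : ℝ, 0 < ε → ∫⁻ w, liminf (fun n => y16T q f n (ν w) (lam w) * g w) atTop ∂Q ≤
      C * (A + ENNReal.ofReal ε * M) := by
    intro ε hε
    obtain ⟨N, hN⟩ := y7_up hf hε
    have hSB : ∀ n ≥ N, ∀ m, ∫⁻ w, y16S q f n (y16e m) (ν w) (lam w) * g w ∂Q ≤ C * (A + ENNReal.ofReal ε * M) := by
      intro n hn m
      have h0 : ∫⁻ w, y16S q f n (y16e m) (ν w) (lam w) * g w ∂Q = ∑ k ∈ Finset.range (2 ^ n),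
          ENNReal.ofReal (f ((k : ℝ) / 2 ^ n)) * ∫⁻ w, ν w (Icc ((k : ℝ) / 2 ^ n) ((k + 1 : ℝ) / 2 ^ n)) ^ q *
            ((lam w (Icc ((k : ℝ) / 2 ^ n) ((k + 1 : ℝ) / 2 ^ n)) + y16e m) ^ (-(q - 1)) * g w) ∂Q := by
        have h00 : ∀ w, y16S q f n (y16e m) (ν w) (lam w) * g w = ∑ k ∈ Finset.range (2 ^ n), ENNReal.ofReal (f ((k : ℝ) / 2 ^ n)) *
            (ν w (Icc ((k : ℝ) / 2 ^ n) ((k + 1 : ℝ) / 2 ^ n)) ^ q *
            ((lam w (Icc ((k : ℝ) / 2 ^ n) ((k + 1 : ℝ) / 2 ^ n)) + y16e m) ^ (-(q - 1)) * g w)) := by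
          intro w
          unfold y16S
          rw [Finset.sum_mul]
          refine Finset.sum_congr rfl fun k _ => ?_
          rw [mul_assoc, mul_assoc]
        simp only [h00]
        rw [lintegral_finsetSum']
        · refine Finset.sum_congr rfl fun k _ => ?_
          rw [lintegral_const_mul' _ _ ENNReal.ofReal_ne_top]
        · intro k _
          exact (((hmν _ _).pow_const q).mul ((((hml _ _).add_const (y16e m)).pow_const _).mul hg)).const_mul _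
      rw [h0]
      calc _ ≤ ∑ k ∈ Finset.range (2 ^ n), ENNReal.ofReal (f ((k : ℝ) / 2 ^ n)) *
            (C * ∫⁻ w, lam w (Icc ((k : ℝ) / 2 ^ n) ((k + 1 : ℝ) / 2 ^ n)) * g w ∂Q) :=
            Finset.sum_le_sum fun k _ => mul_le_mul' le_rfl (hmain _ _ _ (y16e_pos m) (y16e_ne m))
        _ = C * ∫⁻ w, (∑ k ∈ Finset.range (2 ^ n), ENNReal.ofReal (f ((k : ℝ) / 2 ^ n)) *
              lam w (Icc ((k : ℝ) / 2 ^ n) ((k + 1 : ℝ) / 2 ^ n))) * g w ∂Q := by
            have h01 : ∀ w, (∑ k ∈ Finset.range (2 ^ n), ENNReal.ofReal (f ((k : ℝ) / 2 ^ n)) *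
              lam w (Icc ((k : ℝ) / 2 ^ n) ((k + 1 : ℝ) / 2 ^ n))) * g w = ∑ k ∈ Finset.range (2 ^ n),
                ENNReal.ofReal (f ((k : ℝ) / 2 ^ n)) * (lam w (Icc ((k : ℝ) / 2 ^ n) ((k + 1 : ℝ) / 2 ^ n)) * g w) := by
              intro w
              rw [Finset.sum_mul]
              refine Finset.sum_congr rfl fun k _ => ?_
              rw [mul_assoc]
            simp only [h01]
            rw [lintegral_finsetSum']
            · rw [Finset.mul_sum]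
              refine Finset.sum_congr rfl fun k _ => ?_
              rw [lintegral_const_mul' _ _ ENNReal.ofReal_ne_top]
              ring
            · intro k _
              exact ((hml _ _).mul hg).const_mul _
        _ ≤ C * ∫⁻ w, ((∫⁻ x, ENNReal.ofReal (f x) ∂(lam w)) + ENNReal.ofReal ε * lam w (Icc 0 1)) * g w ∂Q := by
            refine mul_le_mul' le_rfl (lintegral_mono_ae ?_)
            filter_upwards [hat, hl] with w h1 h2
            have := h2.1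
            refine mul_le_mul' ((hN n hn (lam w) h1).trans ?_) le_rfl
            gcongr
            exact Measure.restrict_le_self
        _ = C * (A + ENNReal.ofReal ε * M) := by
            simp only [add_mul]
            have hx : AEMeasurable (fun w => (∫⁻ x, ENNReal.ofReal (f x) ∂(lam w)) * g w) Q := hfm.mul hg
            rw [lintegral_add_left' hx, ← hA, hM]
            congr 2
            simp only [mul_assoc]
            rw [lintegral_const_mul' _ _ ENNReal.ofReal_ne_top]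
    have hTB : ∀ n ≥ N, ∫⁻ w, y16T q f n (ν w) (lam w) * g w ∂Q ≤ C * (A + ENNReal.ofReal ε * M) := by
      intro n hn
      simp only [y16T, ENNReal.iSup_mul]
      have hx : ∀ m, AEMeasurable (fun w => y16S q f n (y16e m) (ν w) (lam w) * g w) Q := fun m => (hSm n (y16e m)).mul hg
      rw [lintegral_iSup' hx
        (Eventually.of_forall (fun w => fun a b hab => mul_le_mul' (y16S_mono hq f n _ _ (y16e_anti hab)) le_rfl))]
      exact iSup_le (fun m => hSB n hn m)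
    have hx : ∀ n, AEMeasurable (fun w => y16T q f n (ν w) (lam w) * g w) Q := fun n => (hTm n).mul hg
    refine (lintegral_liminf_le' hx).trans ?_
    calc liminf (fun n => ∫⁻ w, y16T q f n (ν w) (lam w) * g w ∂Q) atTop ≤
          liminf (fun _ : ℕ => C * (A + ENNReal.ofReal ε * M)) atTop := by
          refine liminf_le_liminf ?_
          filter_upwards [eventually_ge_atTop N] with n hn using hTB n hn
      _ = C * (A + ENNReal.ofReal ε * M) := liminf_const _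
  have ht : Tendsto (fun j : ℕ => C * (A + ENNReal.ofReal (1 / ((j : ℝ) + 1)) * M)) atTop (𝓝 (C * (A + 0 * M))) := by
    refine ENNReal.Tendsto.const_mul (Tendsto.const_add _ (ENNReal.Tendsto.mul_const ?_ (Or.inr hMt))) (Or.inr hC)
    have := ENNReal.tendsto_ofReal (tendsto_one_div_add_atTop_nhds_zero_nat (𝕜 := ℝ))
    simpa using this
  rw [zero_mul, add_zero] at ht
  exact ge_of_tendsto' ht fun j => hbound _ (by positivity)

section Det

variable (ν lam : Measure ℝ) [IsFiniteMeasure ν] [IsFiniteMeasure lam]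
    (hatom : ∀ k n : ℕ, lam {(k : ℝ) / 2 ^ n} = 0)
    (q : ℝ) (hq : 1 < q) (f : ℝ → ℝ) (hf : Continuous f) (hf0 : ∀ x, 0 ≤ f x)
    (R : ℝ → ℝ≥0∞) (hR : Measurable R) (hν : ν = lam.withDensity R) (hs : lam (Icc 0 1)ᶜ = 0)

include hatom hq hf hf0 hR hν hs in
theorem y16_low : ∫⁻ x, ENNReal.ofReal (f x) * R x ^ q ∂lam ≤ liminf (fun n => y16T q f n ν lam) atTop := by
  by_contra hcon
  rw [not_le] at hcon
  obtain ⟨L', hL1, hL2⟩ := exists_between hcon
  have h8 : ∃ᶠ n in atTop, y16T q f n ν lam < L' := frequently_lt_of_liminf_lt (by isBoundedDefault) hL1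
  have hac : ν ≪ lam := by
    rw [hν]
    exact withDensity_absolutelyContinuous _ _
  have h9 := y7_det ν lam hac hatom q hq f hf hf0 L' (fun N => by
    obtain ⟨n, hn, hlt⟩ := (frequently_atTop.1 h8) N
    refine ⟨n, hn, fun η hη hη' => ?_⟩
    obtain ⟨m, hm⟩ : ∃ m : ℕ, y16e m ≤ η := by
      obtain ⟨m, hm⟩ := ENNReal.exists_inv_nat_lt hη.ne'
      refine ⟨m, le_trans ?_ hm.le⟩
      apply ENNReal.inv_le_inv.2
      exact le_self_add
    exact ((y16S_mono hq f n ν lam hm).trans (le_iSup (fun m => y16S q f n (y16e m) ν lam) m)).trans hlt.le) R hR hν hs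
  exact absurd hL2 (not_lt.2 h9)

include hq hR hν in
theorem y16_holder (I : Set ℝ) (hI : MeasurableSet I) (η : ℝ≥0∞) (hη : 0 < η) (hη' : η ≠ ⊤) :
    ν I ^ q * (lam I + η) ^ (-(q - 1)) ≤ ∫⁻ x in I, R x ^ q ∂lam := by
  have hq0 : 0 < q := by linarith
  have hq1 : 0 < q - 1 := by linarith
  have hconj : q.HolderConjugate (q / (q - 1)) := Real.HolderConjugate.conjExponent hq
  have h1 := ENNReal.lintegral_mul_le_Lp_mul_Lq (lam.restrict I) hconj (f := R) (g := fun _ => 1) hR.aemeasurable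
    aemeasurable_const
  simp only [Pi.mul_apply, mul_one, ENNReal.one_rpow, lintegral_const, one_mul, Measure.restrict_apply MeasurableSet.univ,
    univ_inter] at h1
  have h2 : ν I = ∫⁻ x in I, R x ∂lam := by
    rw [hν, withDensity_apply _ hI]
  rw [← h2] at h1
  have h3 : ν I ^ q ≤ (∫⁻ x in I, R x ^ q ∂lam) * lam I ^ (q - 1) := by
    calc ν I ^ q ≤ ((∫⁻ x in I, R x ^ q ∂lam) ^ (1 / q) * lam I ^ (1 / (q / (q - 1)))) ^ q := ENNReal.rpow_le_rpow h1 hq0.le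
      _ = _ := by
          rw [ENNReal.mul_rpow_of_nonneg _ _ hq0.le, ← ENNReal.rpow_mul, ← ENNReal.rpow_mul]
          have e1 : 1 / q * q = 1 := by field_simp
          have e2 : 1 / (q / (q - 1)) * q = q - 1 := by field_simp
          rw [e1, e2, ENNReal.rpow_one]
  have hs : lam I + η ≠ ⊤ := ENNReal.add_ne_top.mpr ⟨measure_ne_top _ _, hη'⟩
  have hs0 : lam I + η ≠ 0 := (lt_of_lt_of_le hη le_add_self).ne'
  calc ν I ^ q * (lam I + η) ^ (-(q - 1)) ≤ ((∫⁻ x in I, R x ^ q ∂lam) * lam I ^ (q - 1)) * (lam I + η) ^ (-(q - 1)) :=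
        mul_le_mul' h3 le_rfl
    _ ≤ ((∫⁻ x in I, R x ^ q ∂lam) * (lam I + η) ^ (q - 1)) * (lam I + η) ^ (-(q - 1)) := by
        refine mul_le_mul' (mul_le_mul' le_rfl (ENNReal.rpow_le_rpow le_self_add hq1.le)) le_rfl
    _ = _ := by
        rw [mul_assoc, ← ENNReal.rpow_add _ _ hs0 hs]
        simp

include hatom hq hR hν in
theorem y16_up {ε : ℝ} {N : ℕ} (hN : ∀ n ≥ N, ∀ k ∈ Finset.range (2 ^ n),
    ∀ x ∈ Icc ((k : ℝ) / 2 ^ n) ((k + 1 : ℝ) / 2 ^ n), |f x - f ((k : ℝ) / 2 ^ n)| ≤ ε) {n : ℕ} (hn : N ≤ n) :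
    y16T q f n ν lam ≤ ∫⁻ x, (ENNReal.ofReal (f x) + ENNReal.ofReal ε) * R x ^ q ∂lam := by
  refine iSup_le fun m => ?_
  have hd : ∀ k j : ℕ, (lam.withDensity fun x => (ENNReal.ofReal (f x) + ENNReal.ofReal ε) * R x ^ q) {(k : ℝ) / 2 ^ j} = 0 := by
    intro k j
    exact withDensity_absolutelyContinuous _ _ (hatom k j)
  calc y16S q f n (y16e m) ν lam
      ≤ ∑ k ∈ Finset.range (2 ^ n), (lam.withDensity fun x => (ENNReal.ofReal (f x) + ENNReal.ofReal ε) * R x ^ q)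
          (Icc ((k : ℝ) / 2 ^ n) ((k + 1 : ℝ) / 2 ^ n)) := by
        refine Finset.sum_le_sum fun k hk => ?_
        refine (mul_le_mul' le_rfl (y16_holder ν lam q hq R hR hν _ measurableSet_Icc (y16e m) (y16e_pos m) (y16e_ne m))).trans ?_
        rw [withDensity_apply _ measurableSet_Icc, ← lintegral_const_mul' _ _ ENNReal.ofReal_ne_top]
        refine lintegral_mono_ae ?_
        filter_upwards [ae_restrict_mem measurableSet_Icc] with x hx
        refine mul_le_mul' ?_ le_rfl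
        have := abs_le.1 (hN n hn k hk x hx)
        calc ENNReal.ofReal (f ((k : ℝ) / 2 ^ n)) ≤ ENNReal.ofReal (f x + ε) := ENNReal.ofReal_le_ofReal (by linarith)
          _ ≤ _ := ENNReal.ofReal_add_le
    _ ≤ (lam.withDensity fun x => (ENNReal.ofReal (f x) + ENNReal.ofReal ε) * R x ^ q) univ :=
        y7_sum_le _ hd n _ _ fun k _ => subset_univ _
    _ = _ := by
        rw [withDensity_apply _ MeasurableSet.univ, Measure.restrict_univ]

include hatom hq hf hf0 hR hν hs in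
theorem y16_tendsto (hY : ∫⁻ x, R x ^ q ∂lam ≠ ⊤) :
    Tendsto (fun n => y16T q f n ν lam) atTop (𝓝 (∫⁻ x, ENNReal.ofReal (f x) * R x ^ q ∂lam)) := by
  refine tendsto_of_le_liminf_of_limsup_le (y16_low ν lam hatom q hq f hf hf0 R hR hν hs) ?_
  have hj : ∀ j : ℕ, limsup (fun n => y16T q f n ν lam) atTop ≤
      ∫⁻ x, ENNReal.ofReal (f x) * R x ^ q ∂lam + ENNReal.ofReal (1 / ((j : ℝ) + 1)) * ∫⁻ x, R x ^ q ∂lam := by
    intro j
    have hε : 0 < 1 / ((j : ℝ) + 1) := by positivity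
    obtain ⟨N, hN⟩ := y7_unif hf hε
    refine limsup_le_of_le (by isBoundedDefault) ?_
    filter_upwards [eventually_ge_atTop N] with n hn
    refine (y16_up ν lam hatom q hq f R hR hν hN hn).trans (le_of_eq ?_)
    simp only [add_mul]
    rw [lintegral_add_right _ ((hR.pow_const q).const_mul _), lintegral_const_mul' _ _ ENNReal.ofReal_ne_top]
  have ht : Tendsto (fun j : ℕ => ∫⁻ x, ENNReal.ofReal (f x) * R x ^ q ∂lam +
      ENNReal.ofReal (1 / ((j : ℝ) + 1)) * ∫⁻ x, R x ^ q ∂lam) atTop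
      (𝓝 (∫⁻ x, ENNReal.ofReal (f x) * R x ^ q ∂lam + 0 * ∫⁻ x, R x ^ q ∂lam)) := by
    refine Tendsto.const_add _ (ENNReal.Tendsto.mul_const ?_ (Or.inr hY))
    have := ENNReal.tendsto_ofReal (tendsto_one_div_add_atTop_nhds_zero_nat (𝕜 := ℝ))
    simpa using this
  rw [zero_mul, add_zero] at ht
  exact ge_of_tendsto' ht hj

end Det

theorem y16_meas {Ω : Type} [MeasurableSpace Ω] (Q : Measure Ω) [IsProbabilityMeasure Q] (ν lam : Ω → Measure ℝ)
    (hν : ∀ᵐ w ∂Q, IsFiniteMeasure (ν w)) (hl : ∀ᵐ w ∂Q, IsFiniteMeasure (lam w) ∧ lam w (Icc 0 1)ᶜ = 0)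
    (q : ℝ) (hq : 1 < q) (C : ℝ≥0∞) (hC : C ≠ ⊤) (hatom : ∀ x : ℝ, ∀ᵐ w ∂Q, lam w {x} = 0)
    (hmass : ∫⁻ w, lam w (Icc 0 1) ∂Q ≠ ⊤)
    (hmν : ∀ a b : ℝ, AEMeasurable (fun w => ν w (Icc a b)) Q) (hml : ∀ a b : ℝ, AEMeasurable (fun w => lam w (Icc a b)) Q)
    (hmain : ∀ a b : ℝ, ∀ η : ℝ≥0∞, 0 < η → η ≠ ⊤ →
      ∫⁻ w, ν w (Icc a b) ^ q * (lam w (Icc a b) + η) ^ (-(q - 1)) ∂Q ≤ C * ∫⁻ w, lam w (Icc a b) ∂Q)
    (R : Ω → ℝ → ℝ≥0∞) (hR : ∀ w, Measurable (R w)) (hRν : ∀ᵐ w ∂Q, ν w = (lam w).withDensity (R w))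
    (hfm : ∀ f : ℝ → ℝ, Continuous f → (∀ x, 0 ≤ f x) → AEMeasurable (fun w => ∫⁻ x, ENNReal.ofReal (f x) ∂(lam w)) Q)
    (f : ℝ → ℝ) (hf : Continuous f) (hf0 : ∀ x, 0 ≤ f x) :
    AEMeasurable (fun w => ∫⁻ x, ENNReal.ofReal (f x) * R w x ^ q ∂(lam w)) Q := by
  have hat : ∀ᵐ w ∂Q, ∀ k n : ℕ, lam w {(k : ℝ) / 2 ^ n} = 0 := by
    rw [ae_all_iff]; intro k
    rw [ae_all_iff]; intro n
    exact hatom _
  have core := fun (u : ℝ → ℝ) (hu : Continuous u) (hu0 : ∀ x, 0 ≤ u x) =>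
    y16_core Q ν lam (fun _ => 1) aemeasurable_const 1 ENNReal.one_ne_top (Eventually.of_forall fun _ => le_rfl) hl q hq C hC
      hatom hmass hmν hml (fun a b η h1 h2 => by simpa only [mul_one] using hmain a b η h1 h2) u hu (hfm u hu hu0)
  have h1 := core (fun _ => 1) continuous_const (fun _ => zero_le_one)
  have hfin : ∀ᵐ w ∂Q, liminf (fun n => y16T q (fun _ => 1) n (ν w) (lam w)) atTop < ⊤ := by
    refine ae_lt_top' ?_ ?_
    · simp only [liminf_eq_iSup_iInf_of_nat]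
      exact AEMeasurable.iSup (fun n => AEMeasurable.biInf _ (to_countable _) (fun i _ => h1.1 i))
    · have h2 := h1.2
      simp only [mul_one] at h2
      refine ne_top_of_le_ne_top ?_ h2
      refine ENNReal.mul_ne_top hC (ne_top_of_le_ne_top hmass ?_)
      refine lintegral_mono_ae ?_
      filter_upwards [hl] with w hw
      have := hw.1
      simp only [ENNReal.ofReal_one, lintegral_const, one_mul]
      have h3 := measure_add_measure_compl (μ := lam w) (measurableSet_Icc (a := (0:ℝ)) (b := 1))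
      rw [hw.2, add_zero] at h3
      exact h3.symm.le
  refine aemeasurable_of_tendsto_metrizable_ae atTop (f := fun n w => y16T q f n (ν w) (lam w)) (fun n => (core f hf hf0).1 n) ?_
  filter_upwards [hν, hl, hat, hRν, hfin] with w a1 a2 a3 a4 a5
  have := a1
  have := a2.1
  refine y16_tendsto (ν w) (lam w) a3 q hq f hf hf0 (R w) (hR w) a4 a2.2 ?_
  have h4 := y16_low (ν w) (lam w) a3 q hq (fun _ => 1) continuous_const (fun _ => zero_le_one) (R w) (hR w) a4 a2.2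
  simp only [ENNReal.ofReal_one, one_mul] at h4
  exact (lt_of_le_of_lt h4 a5).ne

end Chaos
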