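import Pool.Agent.Lib.MP_9eae41_pr.Y8
import Pool.Agent.Lib.MP_9eae41_pr.Y11
import Pool.Agent.Lib.MP_9eae41_pr.Y16

set_option autoImplicit false

open Complex MeasureTheory Set Filter Topology
open scoped ENNReal

namespace Chaos

/-! The q-th power of the density: weights, and the limit points. -/

theorem y12_ext {Ω : Type} [MeasurableSpace Ω] (Q : Measure Ω) [IsProbabilityMeasure Q] (ν : Ω → Measure ℝ) (W : Ω → (ℕ → ℂ))
    (hW : AEMeasurable W Q) (lam : (ℕ → ℂ) → Measure ℝ) (hlaw : Q.map W = P.map ptI)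
    (hl : ∀ᵐ x ∂(P.map ptI), IsFiniteMeasure (lam x) ∧ lam x (Icc 0 1)ᶜ = 0)
    (hmν : ∀ f : ℝ → ℝ, Continuous f → (∀ x, 0 ≤ f x) → AEMeasurable (fun w => ∫⁻ x, ENNReal.ofReal (f x) ∂(ν w)) Q)
    (hml : ∀ f : ℝ → ℝ, Continuous f → (∀ x, 0 ≤ f x) → AEMeasurable (fun v => ∫⁻ x, ENNReal.ofReal (f x) ∂(lam v)) (P.map ptI))
    (q : ℝ) (hq : 1 < q) (C : ℝ≥0∞) (hC : C ≠ ⊤) (hfin : ∫⁻ v, lam v univ ^ q ∂(P.map ptI) ≠ ⊤)
    (hmain : ∀ f : ℝ → ℝ, Continuous f → (∀ x, 0 < f x) → ∀ (m : ℕ) (h : (Fin m → ℂ) → ℝ), Continuous h → (∀ v, 0 ≤ h v) →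
      ∫⁻ w, (∫⁻ x, ENNReal.ofReal (f x) ∂(ν w)) ^ q * ENNReal.ofReal (h (fun j => W w j)) ∂Q ≤
        C * ∫⁻ v, (∫⁻ x, ENNReal.ofReal (f x) ∂(lam v)) ^ q * ENNReal.ofReal (h (fun j => v j)) ∂(P.map ptI))
    (g₀ : (ℕ → ℂ) → ℝ≥0∞) (hg₀ : Measurable g₀) (B : ℝ≥0∞) (hB : B ≠ ⊤) (hgB : ∀ v, g₀ v ≤ B)
    (a b : ℝ) (η : ℝ≥0∞) (hη : 0 < η) (hη' : η ≠ ⊤) :
      ∫⁻ w, ν w (Icc a b) ^ q * ((lam (W w) (Icc a b) + η) ^ (-(q - 1)) * g₀ (W w)) ∂Q ≤
        C * ∫⁻ w, lam (W w) (Icc a b) * g₀ (W w) ∂Q := by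
  have hq0 : 0 ≤ q := by linarith
  have hmI : ∀ a b : ℝ, AEMeasurable (fun v => lam v (Icc a b)) (P.map ptI) := by
    intro a b
    refine aemeasurable_of_tendsto_metrizable_ae atTop
      (f := fun (k : ℕ) v => ∫⁻ x, ENNReal.ofReal (z2_th (Icc a b) k x) ∂(lam v))
      (fun k => hml _ (z2_th_cont _ k) (z2_th_nonneg _ k)) ?_
    filter_upwards [hl] with v hv
    have := hv.1
    exact z2_tendsto (lam v) isClosed_Icc
  have htr : ∀ u : (ℕ → ℂ) → ℝ≥0∞, AEMeasurable u (P.map ptI) →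
      ∫⁻ w, u (W w) ∂Q = ∫⁻ v, u v ∂(P.map ptI) := by
    intro u hu
    rw [← hlaw] at hu ⊢
    rw [lintegral_map' hu hW]
  obtain ⟨g, hg⟩ : ∃ g : (ℕ → ℂ) → ℝ≥0∞, g = fun v => (lam v (Icc a b) + η) ^ (-(q - 1)) * g₀ v := ⟨_, rfl⟩
  have hgm : AEMeasurable g (P.map ptI) := by
    rw [hg]
    exact (((hmI a b).add_const η).pow_const _).mul hg₀.aemeasurable
  have hηt : η ^ (-(q - 1)) ≠ ⊤ := by
    rw [ENNReal.rpow_neg]
    exact ENNReal.inv_ne_top.mpr (ENNReal.rpow_pos hη hη').ne'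
  obtain ⟨D, hD⟩ : ∃ D : ℝ≥0∞, D = η ^ (-(q - 1)) * B := ⟨_, rfl⟩
  have hDt : D ≠ ⊤ := by
    rw [hD]
    exact ENNReal.mul_ne_top hηt hB
  have hgb : ∀ v, g v ≤ D := fun v => by
    rw [hg, hD]
    refine mul_le_mul' ?_ (hgB v)
    rw [ENNReal.rpow_neg, ENNReal.rpow_neg]
    exact ENNReal.inv_le_inv.mpr (ENNReal.rpow_le_rpow le_add_self (by linarith))
  -- the test functions
  obtain ⟨fk, hfk⟩ : ∃ fk : ℕ → ℝ → ℝ, fk = fun k x => z2_th (Icc a b) k x + 1 / ((k : ℝ) + 1) := ⟨_, rfl⟩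
  have fk1 : ∀ k, Continuous (fk k) := fun k => by
    rw [hfk]
    exact (z2_th_cont _ k).add continuous_const
  have fk2 : ∀ k x, 0 < fk k x := fun k x => by
    have := z2_th_nonneg (Icc a b) k x
    have h2 : 0 < 1 / ((k : ℝ) + 1) := by positivity
    simp only [hfk]; linarith
  have hk1 : ∀ k : ℕ, 1 / ((k : ℝ) + 1) ≤ 1 := fun k => by
    rw [div_le_one (by positivity)]
    have : (0 : ℝ) ≤ k := by positivity
    linarith
  have fk3 : ∀ k x, fk k x ≤ 2 := fun k x => by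
    have := z2_th_le (Icc a b) k x
    have := hk1 k
    simp only [hfk]; linarith
  have key : ∀ k : ℕ, ∫⁻ w, ν w (Icc a b) ^ q * g (W w) ∂Q ≤
      C * ∫⁻ v, (∫⁻ x, ENNReal.ofReal (fk k x) ∂(lam v)) ^ q * g v ∂(P.map ptI) := by
    intro k
    refine le_trans (lintegral_mono fun w => ?_)
      (z2_weight Q ν W hW lam hlaw hmν hml q hq C hC hfin hmain (fk k) (fk1 k) (fk2 k) 2 (fk3 k) g hgm)
    simp only
    gcongr
    refine (z2_le (ν w) (isClosed_Icc (a := a) (b := b)) k).trans (lintegral_mono fun x => ?_)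
    refine ENNReal.ofReal_le_ofReal ?_
    have h2 : 0 < 1 / ((k : ℝ) + 1) := by positivity
    simp only [hfk]; linarith
  have hlim : Tendsto (fun k : ℕ => ∫⁻ v, (∫⁻ x, ENNReal.ofReal (fk k x) ∂(lam v)) ^ q * g v ∂(P.map ptI))
      atTop (𝓝 (∫⁻ v, (lam v (Icc a b)) ^ q * g v ∂(P.map ptI))) := by
    refine tendsto_lintegral_of_dominated_convergence'
      (fun v => (2 * lam v univ) ^ q * D) (fun k => ?_) (fun k => ?_) ?_ ?_
    · exact ((hml _ (fk1 k) fun x => (fk2 k x).le).pow_const q).mul hgm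
    · refine Eventually.of_forall fun v => ?_
      simp only
      refine mul_le_mul' (ENNReal.rpow_le_rpow ?_ hq0) (hgb v)
      calc ∫⁻ x, ENNReal.ofReal (fk k x) ∂(lam v) ≤ ∫⁻ x, 2 ∂(lam v) := by
            refine lintegral_mono fun x => ?_
            have := ENNReal.ofReal_le_ofReal (fk3 k x)
            simpa using this
        _ = 2 * lam v univ := lintegral_const _
    · have : ∫⁻ v, (2 * lam v univ) ^ q * D ∂(P.map ptI) =
          (2 : ℝ≥0∞) ^ q * D * ∫⁻ v, lam v univ ^ q ∂(P.map ptI) := by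
        rw [← lintegral_const_mul' _ _ (ENNReal.mul_ne_top
          (ENNReal.rpow_ne_top_of_nonneg hq0 (by simp)) hDt)]
        refine lintegral_congr fun v => ?_
        rw [ENNReal.mul_rpow_of_nonneg _ _ hq0]
        ring
      rw [this]
      exact ENNReal.mul_ne_top (ENNReal.mul_ne_top
          (ENNReal.rpow_ne_top_of_nonneg hq0 (by simp)) hDt) hfin
    · filter_upwards [hl] with v hv
      have := hv.1
      have t1 := z2_tendsto (lam v) (isClosed_Icc (a := a) (b := b))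
      have t2 : Tendsto (fun k : ℕ => ENNReal.ofReal (1 / ((k : ℝ) + 1)) * lam v univ) atTop (𝓝 0) := by
        have t3 : Tendsto (fun k : ℕ => ENNReal.ofReal (1 / ((k : ℝ) + 1))) atTop (𝓝 0) := by
          have := ENNReal.tendsto_ofReal (tendsto_one_div_add_atTop_nhds_zero_nat (𝕜 := ℝ))
          simpa using this
        have t4 := ENNReal.Tendsto.mul_const t3 (Or.inr (measure_ne_top (lam v) univ))
        simpa using t4
      have t5 : Tendsto (fun k : ℕ => ∫⁻ x, ENNReal.ofReal (fk k x) ∂(lam v)) atTop (𝓝 (lam v (Icc a b))) := by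
        have t6 := t1.add t2
        rw [add_zero] at t6
        refine t6.congr fun k => ?_
        rw [← lintegral_const, ← lintegral_add_right _ measurable_const]
        refine lintegral_congr fun x => ?_
        rw [← ENNReal.ofReal_add (z2_th_nonneg _ k x) (by positivity), hfk]
      have t7 := (ENNReal.continuous_rpow_const (y := q)).continuousAt.tendsto.comp t5
      exact ENNReal.Tendsto.mul_const t7 (Or.inr (ne_top_of_le_ne_top hDt (hgb v)))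
  have hfinal : ∫⁻ w, ν w (Icc a b) ^ q * g (W w) ∂Q ≤
      C * ∫⁻ v, (lam v (Icc a b)) ^ q * g v ∂(P.map ptI) :=
    ge_of_tendsto' (ENNReal.Tendsto.const_mul hlim (Or.inr hC)) key
  have e0 : ∫⁻ w, ν w (Icc a b) ^ q * ((lam (W w) (Icc a b) + η) ^ (-(q - 1)) * g₀ (W w)) ∂Q =
      ∫⁻ w, ν w (Icc a b) ^ q * g (W w) ∂Q := by
    rw [hg]
  rw [e0]
  refine hfinal.trans ?_
  rw [htr (fun v => lam v (Icc a b) * g₀ v) ((hmI a b).mul hg₀.aemeasurable)]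
  refine mul_le_mul' le_rfl (lintegral_mono_ae ?_)
  filter_upwards [hl] with v hv
  have := hv.1
  have hLt : lam v (Icc a b) ≠ ⊤ := measure_ne_top _ _
  obtain ⟨L, hL⟩ : ∃ L : ℝ≥0∞, L = lam v (Icc a b) := ⟨_, rfl⟩
  rw [← hL] at hLt
  have hs : L + η ≠ ⊤ := ENNReal.add_ne_top.mpr ⟨hLt, hη'⟩
  have hs0 : L + η ≠ 0 := (lt_of_lt_of_le hη le_add_self).ne'
  have e1 : L ^ q = L * L ^ (q - 1) := by
    rcases eq_or_ne L 0 with h0 | h0
    · rw [h0, ENNReal.zero_rpow_of_pos (by linarith)]; simp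
    · have h5 : q = 1 + (q - 1) := by ring
      conv_lhs => rw [h5]
      rw [ENNReal.rpow_add _ _ h0 hLt, ENNReal.rpow_one]
  simp only [hg]
  rw [← hL, e1, ← mul_assoc]
  refine mul_le_mul' ?_ le_rfl
  rw [mul_assoc]
  calc L * (L ^ (q - 1) * (L + η) ^ (-(q - 1)))
      ≤ L * ((L + η) ^ (q - 1) * (L + η) ^ (-(q - 1))) := by
        refine mul_le_mul' le_rfl (mul_le_mul' (ENNReal.rpow_le_rpow le_self_add (by linarith)) le_rfl)
    _ = L := by
        rw [← ENNReal.rpow_add _ _ hs0 hs]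
        simp

section Limit

variable {β : ℝ} {Tk : ℕ → ℝ} {Ω : Type} [MeasurableSpace Ω] {Q : Measure Ω} [IsProbabilityMeasure Q]
  {ν : Ω → Measure ℝ} {W : Ω → (ℕ → ℂ)}

/-- the twisted q-th moments of a limit point, with the constant chosen before the limit point -/
theorem y12_power (h0 : 0 < β) {q C : ℝ} (hq1 : 1 < q)
    (hN : ∀ lam : (ℕ → ℂ) → Measure ℝ, IsChaos β lam → ∀ f : ℝ → ℝ, Continuous f → (∀ x, 0 ≤ f x) →
    ∀ (m : ℕ) (h : (Fin m → ℂ) → ℝ), Continuous h → (∀ X, 0 ≤ h X) → ∀ ε : ℝ, 0 < ε → ∀ᶠ T : ℝ in atTop,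
    ∫⁻ om in Icc (0:ℝ) 1, (∫⁻ x, ENNReal.ofReal (f x) ∂(nu β T om)) ^ q * ENNReal.ofReal (h (ph m T om)) ≤
      ENNReal.ofReal C * (∫⁻ θ, (∫⁻ x, ENNReal.ofReal (f x) ∂(lam (ptI θ))) ^ q * ENNReal.ofReal (h (pt m θ)) ∂P) +
        ENNReal.ofReal ε)
    (hL : IsLimitPoint β Tk Q ν W) (lam : (ℕ → ℂ) → Measure ℝ) (hlam : IsChaos β lam)
    (f : ℝ → ℝ) (hf : Continuous f) (hf0' : ∀ x, 0 ≤ f x) (m : ℕ) (h : (Fin m → ℂ) → ℝ) (hh : Continuous h) (hh0 : ∀ v, 0 ≤ h v) :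
      ∫⁻ w, (∫⁻ x, ENNReal.ofReal (f x) ∂(ν w)) ^ q * ENNReal.ofReal (h (fun j => W w j)) ∂Q ≤
        ENNReal.ofReal C * ∫⁻ θ, (∫⁻ x, ENNReal.ofReal (f x) ∂(lam (ptI θ))) ^ q * ENNReal.ofReal (h (pt m θ)) ∂P := by
  obtain ⟨hT, hWm, hfin, hm, hconv⟩ := hL
  obtain ⟨K, hK⟩ := (hT.eventually_ge_atTop 2).exists_forall_of_atTop
  have hW' : AEMeasurable (fun w => (fun j : Fin m => W w j)) Q := by
    refine (measurable_pi_lambda (fun x : ℕ → ℂ => fun j : Fin m => x j) fun j => measurable_pi_apply _).comp_aemeasurable hWm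
  have key := limit_pow (m := m) Q (fun k om => ∫ x, f x ∂(nu β (Tk (k + K)) om)) (fun k om => ph m (Tk (k + K)) om)
    (fun k => (nu_cont h0 (hK _ (by omega)) hf).continuousOn) (fun k => (ph_cont m _).continuousOn)
    (fun k om => integral_nonneg hf0') (fun k om j => ph_norm m _ om j) q hq1
    (fun w => ∫ x, f x ∂(ν w)) (fun w => fun j : Fin m => W w j) (hm f hf) hW'
    (fun Φ hΦ hB => (hconv f hf m Φ hΦ hB).comp (tendsto_add_atTop_nat K))
    h hh hh0 (ENNReal.ofReal C * ∫⁻ θ, (∫⁻ x, ENNReal.ofReal (f x) ∂(lam (ptI θ))) ^ q * ENNReal.ofReal (h (pt m θ)) ∂P)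
    (fun ε hε => by
      have h3 := hN lam hlam f hf hf0' m h hh hh0 ε hε
      have h4 : Tendsto (fun k : ℕ => Tk (k + K)) atTop atTop := hT.comp (tendsto_add_atTop_nat K)
      filter_upwards [h4.eventually h3] with k hk
      refine le_trans (le_of_eq ?_) hk
      refine lintegral_congr fun om => ?_
      have hfi := nu_fin (T := Tk (k + K)) h0 om
      rw [supp_ofReal (nu_supp β _ om) hf hf0'])
  refine le_trans (le_of_eq ?_) key
  refine lintegral_congr_ae ?_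
  filter_upwards [hfin] with w hw
  have hfi := hw.1
  rw [supp_ofReal hw.2 hf hf0']

/-- the q-th power of the density of a limit point -/
theorem lim_dens (h0 : 0 < β) (h2 : β < 2) {q : ℝ} (hq1 : 1 < q) (hq2 : q < 2) (hβq : q * β < 2) :
    ∃ C : ℝ, 0 < C ∧ ∀ {Tk : ℕ → ℝ} {Ω : Type} [MeasurableSpace Ω] {Q : Measure Ω} [IsProbabilityMeasure Q]
      {ν : Ω → Measure ℝ} {W : Ω → (ℕ → ℂ)}, IsLimitPoint β Tk Q ν W → ∀ lam : (ℕ → ℂ) → Measure ℝ, IsChaos β lam →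
      ∀ R : Ω → ℝ → ℝ≥0∞, (∀ w, Measurable (R w)) → (∀ᵐ w ∂Q, ν w = (lam (W w)).withDensity (R w)) →
      ∀ (m : ℕ) (h : (Fin m → ℂ) → ℝ), Continuous h → (∀ v, 0 ≤ h v) → ∀ f : ℝ → ℝ, Continuous f → (∀ x, 0 ≤ f x) →
        AEMeasurable (fun w => ∫⁻ x, ENNReal.ofReal (f x) * R w x ^ q ∂(lam (W w))) Q ∧
        ∫⁻ w, (∫⁻ x, ENNReal.ofReal (f x) * R w x ^ q ∂(lam (W w))) * ENNReal.ofReal (h (fun j => W w j)) ∂Q ≤
          ENNReal.ofReal C * ∫⁻ w, (∫⁻ x, ENNReal.ofReal (f x) ∂(lam (W w))) * ENNReal.ofReal (h (fun j => W w j)) ∂Q := by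
  obtain ⟨C, hC, hN⟩ := nu_q0 β q h0 h2 hq1 hq2 hβq
  refine ⟨C, hC, ?_⟩
  intro Tk Ω _ Q _ ν W hL lam hlam R hR hRν m h hh hh0 f hf hf0
  have hPp : IsProbabilityMeasure P := P_prob
  obtain ⟨q₀, hq₀, hch⟩ := CZ.chaos_fin β h0 h2
  obtain ⟨hs, -, hint, hmeas⟩ := hch lam hlam
  obtain ⟨C', hC', hpow⟩ := chaos_pow β q h0 h2 hq1 hq2 hβq
  have hlaw : Q.map W = P.map ptI := law_of_limit Q hL
  have hWm : AEMeasurable W Q := hL.2.1
  have hl : ∀ᵐ x ∂(P.map ptI), IsFiniteMeasure (lam x) ∧ lam x (Icc 0 1)ᶜ = 0 := by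
    refine ae_ptI ?_
    filter_upwards [hlam, hs] with θ a b using ⟨a.1, b⟩
  have hlQ : ∀ᵐ w ∂Q, IsFiniteMeasure (lam (W w)) ∧ lam (W w) (Icc 0 1)ᶜ = 0 := by
    refine ae_of_ae_map hWm (p := fun x => IsFiniteMeasure (lam x) ∧ lam x (Icc 0 1)ᶜ = 0) ?_
    rw [hlaw]
    exact hl
  have hmν : ∀ f : ℝ → ℝ, Continuous f → (∀ x, 0 ≤ f x) → AEMeasurable (fun w => ∫⁻ x, ENNReal.ofReal (f x) ∂(ν w)) Q := by
    intro f hf hf0
    refine (hL.2.2.2.1 f hf).ennreal_ofReal.congr ?_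
    filter_upwards [hL.2.2.1] with w hw
    have := hw.1
    exact supp_ofReal hw.2 hf hf0
  have hfinq : ∫⁻ v, lam v univ ^ q ∂(P.map ptI) ≠ ⊤ := by
    have e1 : AEMeasurable (fun v => lam v univ ^ q) (P.map ptI) := by
      have := (hmeas (fun _ => 1) continuous_const (fun _ => zero_le_one)).pow_const q
      simpa using this
    rw [lintegral_map' e1 ptI_meas.aemeasurable]
    exact ne_top_of_le_ne_top ENNReal.ofReal_ne_top (hpow lam hlam)
  have hmain : ∀ f : ℝ → ℝ, Continuous f → (∀ x, 0 < f x) → ∀ (m : ℕ) (h : (Fin m → ℂ) → ℝ), Continuous h → (∀ v, 0 ≤ h v) →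
      ∫⁻ w, (∫⁻ x, ENNReal.ofReal (f x) ∂(ν w)) ^ q * ENNReal.ofReal (h (fun j => W w j)) ∂Q ≤
        ENNReal.ofReal C * ∫⁻ v, (∫⁻ x, ENNReal.ofReal (f x) ∂(lam v)) ^ q * ENNReal.ofReal (h (fun j => v j)) ∂(P.map ptI) := by
    intro f hf hf0 m h hh hh0
    have e2 : AEMeasurable (fun v : ℕ → ℂ => (∫⁻ x, ENNReal.ofReal (f x) ∂(lam v)) ^ q *
        ENNReal.ofReal (h (fun j => v j))) (P.map ptI) := by
      refine ((hmeas f hf (fun x => (hf0 x).le)).pow_const q).mul ?_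
      refine (ENNReal.measurable_ofReal.comp (hh.measurable.comp ?_)).aemeasurable
      exact measurable_pi_lambda _ fun j => measurable_pi_apply _
    rw [lintegral_map' e2 ptI_meas.aemeasurable]
    exact y12_power h0 hq1 hN hL lam hlam f hf (fun x => (hf0 x).le) m h hh hh0
  have hE := ext_main Q ν W hWm lam hlaw hL.2.2.1 hl hmν hmeas q hq1 (ENNReal.ofReal C) ENNReal.ofReal_ne_top hfinq
    (fun f hf hf0 => by
      rw [lintegral_map' (hmeas f hf hf0) ptI_meas.aemeasurable]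
      exact hint f hf hf0) hmain
  obtain ⟨a1, a2, a3, a4, -⟩ := hE
  obtain ⟨B, hB0, hB⟩ := torus_bd hh
  obtain ⟨g₀, hg₀⟩ : ∃ g₀ : (ℕ → ℂ) → ℝ≥0∞, g₀ = fun v => min (ENNReal.ofReal (h (fun j => v j))) (ENNReal.ofReal B) := ⟨_, rfl⟩
  have hg₀m : Measurable g₀ := by
    rw [hg₀]
    refine (ENNReal.measurable_ofReal.comp (hh.measurable.comp ?_)).min measurable_const
    exact measurable_pi_lambda _ fun j => measurable_pi_apply _
  have hg₀B : ∀ v, g₀ v ≤ ENNReal.ofReal B := fun v => by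
    rw [hg₀]
    exact min_le_right _ _
  have hgW : ∀ᵐ w ∂Q, g₀ (W w) = ENNReal.ofReal (h (fun j => W w j)) := by
    have h1 : ∀ᵐ x ∂(P.map ptI), ∀ j : Fin m, ‖x j‖ = 1 := by
      refine ae_ptI (Eventually.of_forall fun θ j => ?_)
      exact y9_pt_norm m θ j
    rw [← hlaw] at h1
    filter_upwards [ae_of_ae_map hWm h1] with w hw
    rw [hg₀]
    exact min_eq_left (ENNReal.ofReal_le_ofReal ((le_abs_self _).trans (hB _ hw)))
  have hfm : AEMeasurable (fun w => ∫⁻ x, ENNReal.ofReal (f x) ∂(lam (W w))) Q := by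
    have h1 := hmeas f hf hf0
    rw [← hlaw] at h1
    exact h1.comp_aemeasurable hWm
  have key := y8_abs Q ν (fun w => lam (W w)) (fun w => g₀ (W w)) (hg₀m.comp_aemeasurable hWm) (ENNReal.ofReal B)
    ENNReal.ofReal_ne_top (Eventually.of_forall fun w => hg₀B _) (hL.2.2.1.mono fun w hw => hw.1) hlQ q hq1 (ENNReal.ofReal C)
    ENNReal.ofReal_ne_top a1 a2 a3 a4
    (fun a b η hη hη' => y12_ext Q ν W hWm lam hlaw hl hmν hmeas q hq1 (ENNReal.ofReal C) ENNReal.ofReal_ne_top hfinq hmain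
      g₀ hg₀m (ENNReal.ofReal B) ENNReal.ofReal_ne_top hg₀B a b η hη hη') R hR hRν f hf hf0 hfm
  have e1 : ∫⁻ w, (∫⁻ x, ENNReal.ofReal (f x) * R w x ^ q ∂(lam (W w))) * ENNReal.ofReal (h (fun j => W w j)) ∂Q =
      ∫⁻ w, (∫⁻ x, ENNReal.ofReal (f x) * R w x ^ q ∂(lam (W w))) * g₀ (W w) ∂Q := by
    refine lintegral_congr_ae ?_
    filter_upwards [hgW] with w hw
    rw [hw]
  have e2 : ∫⁻ w, (∫⁻ x, ENNReal.ofReal (f x) ∂(lam (W w))) * ENNReal.ofReal (h (fun j => W w j)) ∂Q =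
      ∫⁻ w, (∫⁻ x, ENNReal.ofReal (f x) ∂(lam (W w))) * g₀ (W w) ∂Q := by
    refine lintegral_congr_ae ?_
    filter_upwards [hgW] with w hw
    rw [hw]
  rw [e1, e2]
  refine ⟨?_, key⟩
  refine y16_meas Q ν (fun w => lam (W w)) (hL.2.2.1.mono fun w hw => hw.1) hlQ q hq1 (ENNReal.ofReal C)
    ENNReal.ofReal_ne_top a1 a2 a3 a4 (fun a b η hη hη' => ?_) R hR hRν (fun f hf hf0 => ?_) f hf hf0
  · have := y12_ext Q ν W hWm lam hlaw hl hmν hmeas q hq1 (ENNReal.ofReal C) ENNReal.ofReal_ne_top hfinq hmain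
      (fun _ => 1) measurable_const 1 ENNReal.one_ne_top (fun _ => le_rfl) a b η hη hη'
    simpa only [mul_one] using this
  · have h1 := hmeas f hf hf0
    rw [← hlaw] at h1
    exact h1.comp_aemeasurable hWm

end Limit

end Chaos
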