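import Pool.Agent.Lib.MP_9eae41_pr.Y11

set_option autoImplicit false

open Complex MeasureTheory Set Filter Topology
open scoped ENNReal

namespace Chaos

/-! Moments of all orders: assembly. -/

/-- the first m of n phases -/
def y13r {m n : ℕ} (hmn : m ≤ n) (v : Fin n → ℂ) : Fin m → ℂ := fun j => v (Fin.castLE hmn j)

theorem y13r_cont {m n : ℕ} (hmn : m ≤ n) : Continuous (y13r hmn) := by
  unfold y13r
  fun_prop

theorem y13r_pt {m n : ℕ} (hmn : m ≤ n) (θ : ℕ → ℝ) : y13r hmn (pt n θ) = pt m θ := rfl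

theorem y13r_ph {m n : ℕ} (hmn : m ≤ n) (T om : ℝ) : y13r hmn (ph n T om) = ph m T om := rfl

theorem y13_T {β : ℝ} (h0 : 0 < β) {T : ℝ} (hT : 2 ≤ T) {f : ℝ → ℝ} (hf : Continuous f) (hf0 : ∀ x, 0 ≤ f x) {m : ℕ}
    {h : (Fin m → ℂ) → ℝ} (hh : Continuous h) (hh0 : ∀ X, 0 ≤ h X) {q : ℝ} (hq : 0 < q) :
    ∫⁻ om in Icc (0:ℝ) 1, (∫⁻ x, ENNReal.ofReal (f x) ∂(nu β T om)) ^ q * ENNReal.ofReal (h (ph m T om)) =
      ENNReal.ofReal (∫ om in Icc (0:ℝ) 1, (∫ x, f x ∂(nu β T om)) ^ q * h (ph m T om)) := by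
  have hA0 : ∀ om : ℝ, 0 ≤ ∫ x, f x ∂(nu β T om) := fun om => integral_nonneg hf0
  have c1 : Continuous fun om : ℝ => (∫ x, f x ∂(nu β T om)) ^ q * h (ph m T om) :=
    ((nu_cont h0 hT hf).rpow_const fun _ => Or.inr hq.le).mul (hh.comp (ph_cont m T))
  rw [ofReal_integral_eq_lintegral_ofReal (y10_int c1)
    (Eventually.of_forall fun om => mul_nonneg (Real.rpow_nonneg (hA0 om) _) (hh0 _))]
  refine lintegral_congr fun om => ?_
  have hfi := nu_fin (T := T) h0 om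
  rw [← supp_ofReal (nu_supp β T om) hf hf0, ENNReal.ofReal_rpow_of_nonneg (hA0 om) hq.le,
    ENNReal.ofReal_mul (Real.rpow_nonneg (hA0 om) _)]

/-- the chaos, large powers -/
theorem y13_P (β q : ℝ) (h0 : 0 < β) (h2 : β < 2) (hq1 : 1 < q) (hq2 : q < 2) (hβq : q * β < 2)
    (lam : (ℕ → ℂ) → Measure ℝ) (hlam : IsChaos β lam) {f : ℝ → ℝ} (hf : Continuous f) (hf0 : ∀ x, 0 ≤ f x) :
    Integrable (fun θ => (∫ x, f x ∂(lam (ptI θ))) ^ q) P := by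
  have hPp : IsProbabilityMeasure P := P_prob
  have hq0 : 0 < q := by linarith
  obtain ⟨C, hC, H⟩ := chaos_pow β q h0 h2 hq1 hq2 hβq
  obtain ⟨B, hB⟩ := isCompact_Icc.exists_bound_of_continuousOn (hf.continuousOn (s := Icc (0:ℝ) 1))
  have hm : AEStronglyMeasurable (fun θ => (∫ x, f x ∂(lam (ptI θ))) ^ q) P :=
    ((CZ.y3_lam_meas β lam hlam f hf).aemeasurable.pow_const q).aestronglyMeasurable
  refine ⟨hm, ?_⟩
  rw [hasFiniteIntegral_iff_ofReal (Eventually.of_forall fun θ => Real.rpow_nonneg (integral_nonneg hf0) _)]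
  have hct : ENNReal.ofReal B ^ q ≠ ⊤ := ENNReal.rpow_ne_top_of_nonneg hq0.le ENNReal.ofReal_ne_top
  have h1 : ∫⁻ θ, ENNReal.ofReal ((∫ x, f x ∂(lam (ptI θ))) ^ q) ∂P ≤ ∫⁻ θ, ENNReal.ofReal B ^ q * lam (ptI θ) univ ^ q ∂P := by
    refine lintegral_mono_ae ?_
    filter_upwards [y11_le_mass β lam hlam (f := f) (B := B) (fun x hx => (le_abs_self _).trans (hB x hx)),
      CZ.y3_L β lam hlam] with θ a b
    rw [← ENNReal.ofReal_rpow_of_nonneg (integral_nonneg hf0) hq0.le, ← b f hf hf0, ← ENNReal.mul_rpow_of_nonneg _ _ hq0.le]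
    exact ENNReal.rpow_le_rpow a hq0.le
  rw [lintegral_const_mul' _ _ hct] at h1
  exact lt_of_le_of_lt h1 (ENNReal.mul_lt_top hct.lt_top (lt_of_le_of_lt (H lam hlam) ENNReal.ofReal_lt_top))

theorem y13_Pw {q : ℝ} {lam : (ℕ → ℂ) → Measure ℝ} {f : ℝ → ℝ}
    (hI : Integrable (fun θ => (∫ x, f x ∂(lam (ptI θ))) ^ q) P) {m : ℕ} {h : (Fin m → ℂ) → ℝ} (hh : Continuous h) :
    Integrable (fun θ => (∫ x, f x ∂(lam (ptI θ))) ^ q * h (pt m θ)) P := by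
  obtain ⟨B, hB0, hB⟩ := torus_bd hh
  exact hI.mul_bdd (c := B) (hh.measurable.comp (pt_meas m)).aestronglyMeasurable
    (Eventually.of_forall fun θ => hB _ (y9_pt_norm m θ))

theorem y13_Pe {β q : ℝ} (hq0 : 0 < q) {lam : (ℕ → ℂ) → Measure ℝ} (hlam : IsChaos β lam) {f : ℝ → ℝ} (hf : Continuous f)
    (hf0 : ∀ x, 0 ≤ f x) {m : ℕ} {h : (Fin m → ℂ) → ℝ} (hh0 : ∀ X, 0 ≤ h X)
    (hI : Integrable (fun θ => (∫ x, f x ∂(lam (ptI θ))) ^ q * h (pt m θ)) P) :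
    ∫⁻ θ, (∫⁻ x, ENNReal.ofReal (f x) ∂(lam (ptI θ))) ^ q * ENNReal.ofReal (h (pt m θ)) ∂P =
      ENNReal.ofReal (∫ θ, (∫ x, f x ∂(lam (ptI θ))) ^ q * h (pt m θ) ∂P) := by
  rw [ofReal_integral_eq_lintegral_ofReal hI
    (Eventually.of_forall fun θ => mul_nonneg (Real.rpow_nonneg (integral_nonneg hf0) _) (hh0 _))]
  refine lintegral_congr_ae ?_
  filter_upwards [CZ.y3_L β lam hlam] with θ b
  rw [b f hf hf0, ENNReal.ofReal_rpow_of_nonneg (integral_nonneg hf0) hq0.le,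
    ENNReal.ofReal_mul (Real.rpow_nonneg (integral_nonneg hf0) _)]

/-- two-sided bounds for the twisted q-th moments, q larger than 1 -/
theorem mom_large (β q : ℝ) (h0 : 0 < β) (h2 : β < 2) (hq1 : 1 < q) (hq2 : q < 2) (hβq : q * β < 2) :
    ∃ c C : ℝ, 0 < c ∧ 0 < C ∧ ∀ lam : (ℕ → ℂ) → Measure ℝ, IsChaos β lam → ∀ f : ℝ → ℝ, Continuous f → (∀ x, 0 ≤ f x) →
    ∀ (m : ℕ) (h : (Fin m → ℂ) → ℝ), Continuous h → (∀ X, 0 ≤ h X) →
    Integrable (fun θ => (∫ x, f x ∂(lam (ptI θ))) ^ q * h (pt m θ)) P ∧ ∀ ε : ℝ, 0 < ε → ∀ᶠ T : ℝ in atTop,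
      c * (∫ θ, (∫ x, f x ∂(lam (ptI θ))) ^ q * h (pt m θ) ∂P) - ε ≤
        ∫ om in Icc (0:ℝ) 1, (∫ x, f x ∂(nu β T om)) ^ q * h (ph m T om) ∧
      ∫ om in Icc (0:ℝ) 1, (∫ x, f x ∂(nu β T om)) ^ q * h (ph m T om) ≤
        C * (∫ θ, (∫ x, f x ∂(lam (ptI θ))) ^ q * h (pt m θ) ∂P) + ε := by
  have hq0 : 0 < q := by linarith
  obtain ⟨C, hC, HU⟩ := nu_q0 β q h0 h2 hq1 hq2 hβq
  obtain ⟨c, hc, HL⟩ := y10_low β h0 h2
  have hcq : 0 < c ^ q := Real.rpow_pos_of_pos hc _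
  refine ⟨c ^ q, C, hcq, hC, fun lam hlam f hf hf0 m h hh hh0 => ?_⟩
  have hI := y13_Pw (y13_P β q h0 h2 hq1 hq2 hβq lam hlam hf hf0) hh
  refine ⟨hI, fun ε hε => ?_⟩
  have hA0 : 0 ≤ ∫ θ, (∫ x, f x ∂(lam (ptI θ))) ^ q * h (pt m θ) ∂P :=
    integral_nonneg fun θ => mul_nonneg (Real.rpow_nonneg (integral_nonneg hf0) _) (hh0 _)
  -- lower bound
  obtain ⟨B, hB0, hB⟩ := torus_bd hh
  have hfat := fatou_real (μ := P) (fun n θ => gN β n f (pt n θ) ^ q * h (pt m θ)) _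
    (fun n => by
      have c1 : Continuous fun v => gN β n f v ^ q := (gN_cont h0 n hf).rpow_const fun _ => Or.inr hq0.le
      exact (y11_bdd n c1).mul_bdd (c := B) (hh.measurable.comp (pt_meas m)).aestronglyMeasurable
        (Eventually.of_forall fun θ => hB _ (y9_pt_norm m θ))) hI
    (fun n => Eventually.of_forall fun θ => by
      simp only [Pi.zero_apply]
      exact mul_nonneg (Real.rpow_nonneg (gN_nonneg n hf0 _) _) (hh0 _))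
    (by
      filter_upwards [y11_conv β lam hlam hf] with θ hθ
      exact Tendsto.mul_const _ (hθ.rpow_const (Or.inr hq0.le))) (ε := ε / (2 * c ^ q)) (by positivity)
  obtain ⟨n, hn1, hn2⟩ := (hfat.and (eventually_ge_atTop m)).exists
  have h5 := HL q hq1 f hf hf0 n (fun v => h (y13r hn2 v)) (hh.comp (y13r_cont hn2)) (fun v => hh0 _) (ε / 2) (by linarith)
  simp only [y13r_pt, y13r_ph] at h5
  filter_upwards [h5, HU lam hlam f hf hf0 m h hh hh0 ε hε, eventually_ge_atTop 2] with T a1 a2 hT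
  rw [y13_T h0 hT hf hf0 hh hh0 hq0, y13_Pe hq0 hlam hf hf0 hh0 hI, ← ENNReal.ofReal_mul hC.le,
    ← ENNReal.ofReal_add (mul_nonneg hC.le hA0) hε.le, ENNReal.ofReal_le_ofReal_iff (by positivity)] at a2
  refine ⟨?_, a2⟩
  have h6 : c ^ q * (∫ θ, (∫ x, f x ∂(lam (ptI θ))) ^ q * h (pt m θ) ∂P - ε / (2 * c ^ q)) ≤
      c ^ q * ∫ θ, gN β n f (pt n θ) ^ q * h (pt m θ) ∂P := by
    gcongr
  have h7 : c ^ q * (ε / (2 * c ^ q)) = ε / 2 := by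
    field_simp
  linarith

/-- the case q = 1 -/
theorem mom_one (β : ℝ) (h0 : 0 < β) (h2 : β < 2) :
    ∃ c C : ℝ, 0 < c ∧ 0 < C ∧ ∀ lam : (ℕ → ℂ) → Measure ℝ, IsChaos β lam → ∀ f : ℝ → ℝ, Continuous f → (∀ x, 0 ≤ f x) →
    ∀ (m : ℕ) (h : (Fin m → ℂ) → ℝ), Continuous h → (∀ X, 0 ≤ h X) →
    Integrable (fun θ => (∫ x, f x ∂(lam (ptI θ))) * h (pt m θ)) P ∧ ∀ ε : ℝ, 0 < ε → ∀ᶠ T : ℝ in atTop,
      c * (∫ θ, (∫ x, f x ∂(lam (ptI θ))) * h (pt m θ) ∂P) - ε ≤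
        ∫ om in Icc (0:ℝ) 1, (∫ x, f x ∂(nu β T om)) * h (ph m T om) ∧
      ∫ om in Icc (0:ℝ) 1, (∫ x, f x ∂(nu β T om)) * h (ph m T om) ≤
        C * (∫ θ, (∫ x, f x ∂(lam (ptI θ))) * h (pt m θ) ∂P) + ε := by
  obtain ⟨c₁, c₂, hc1, hc12, H⟩ := y10_first β h0 h2
  refine ⟨c₁, c₂, hc1, hc1.trans_le hc12, fun lam hlam f hf hf0 m h hh hh0 => ?_⟩
  obtain ⟨a1, a2⟩ := y11_X β h0 h2 lam hlam hf hf0 m hh hh0
  refine ⟨a1, fun ε hε => ?_⟩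
  rw [← a2]
  exact H f hf hf0 m h hh hh0 ε hε

end Chaos
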