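import Pool.Agent.Lib.MP_9eae41_pr.Y13

set_option autoImplicit false

open Complex MeasureTheory Set Filter Topology
open scoped ENNReal

namespace Chaos

/-! Moments of order q smaller than 1. -/

/-- dominated convergence for the auxiliary moment of order larger than 1 -/
theorem y14_aux {β : ℝ} (h0 : 0 < β) {q q₁ : ℝ} (hq0 : 0 < q) (hq1 : q < 1) (hq₁ : 1 < q₁)
    {lam : (ℕ → ℂ) → Measure ℝ} (hlam : IsChaos β lam) {f : ℝ → ℝ} (hf : Continuous f) (hf0 : ∀ x, 0 ≤ f x)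
    {m : ℕ} {h : (Fin m → ℂ) → ℝ} (hh : Continuous h) (hh0 : ∀ X, 0 ≤ h X)
    (hI₁ : Integrable (fun θ => (∫ x, f x ∂(lam (ptI θ))) ^ q₁) P)
    (hI : Integrable (fun θ => (∫ x, f x ∂(lam (ptI θ))) ^ q * h (pt m θ)) P) {d : ℝ} (hd : 0 < d) {ε : ℝ} (hε : 0 < ε) :
    ∀ᶠ n : ℕ in atTop, ∫ θ, (∫ x, f x ∂(lam (ptI θ))) ^ q₁ * ((gN β n f (pt n θ) + d) ^ (q - q₁) * h (pt m θ)) ∂P ≤
      ∫ θ, (∫ x, f x ∂(lam (ptI θ))) ^ q * h (pt m θ) ∂P + ε := by
  have hPp : IsProbabilityMeasure P := P_prob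
  obtain ⟨B, hB0, hB⟩ := torus_bd hh
  have hgd : ∀ (n : ℕ) (v : Fin n → ℂ), 0 < gN β n f v + d := fun n v => by linarith [gN_nonneg (β := β) n hf0 v]
  have hX0 : ∀ θ : ℕ → ℝ, 0 ≤ ∫ x, f x ∂(lam (ptI θ)) := fun θ => integral_nonneg hf0
  have hXm : AEMeasurable (fun θ => ∫ x, f x ∂(lam (ptI θ))) P := (CZ.y3_lam_meas β lam hlam f hf).aemeasurable
  have hneg : q - q₁ ≤ 0 := by linarith
  have hbd : ∀ (Y : ℝ), 0 ≤ Y → (Y + d) ^ (q - q₁) ≤ d ^ (q - q₁) := fun Y hY =>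
    Real.rpow_le_rpow_of_nonpos hd (by linarith) hneg
  have hlim : Tendsto (fun n : ℕ => ∫ θ, (∫ x, f x ∂(lam (ptI θ))) ^ q₁ * ((gN β n f (pt n θ) + d) ^ (q - q₁) * h (pt m θ)) ∂P)
      atTop (𝓝 (∫ θ, (∫ x, f x ∂(lam (ptI θ))) ^ q₁ * (((∫ x, f x ∂(lam (ptI θ))) + d) ^ (q - q₁) * h (pt m θ)) ∂P)) := by
    refine tendsto_integral_of_dominated_convergence
      (fun θ => (∫ x, f x ∂(lam (ptI θ))) ^ q₁ * (d ^ (q - q₁) * B)) (fun n => ?_) (hI₁.mul_const _) (fun n => ?_) ?_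
    · have c1 : Measurable fun θ : ℕ → ℝ => (gN β n f (pt n θ) + d) ^ (q - q₁) * h (pt m θ) :=
        ((((gN_cont h0 n hf).measurable.comp (pt_meas n)).add_const d).pow_const (q - q₁)).mul
          (hh.measurable.comp (pt_meas m))
      exact ((hXm.pow_const q₁).mul c1.aemeasurable).aestronglyMeasurable
    · refine Eventually.of_forall fun θ => ?_
      have b1 : 0 ≤ (∫ x, f x ∂(lam (ptI θ))) ^ q₁ := Real.rpow_nonneg (hX0 θ) _
      have b2 : 0 ≤ (gN β n f (pt n θ) + d) ^ (q - q₁) := Real.rpow_nonneg (hgd n _).le _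
      rw [Real.norm_of_nonneg (mul_nonneg b1 (mul_nonneg b2 (hh0 _)))]
      refine mul_le_mul_of_nonneg_left ?_ b1
      exact mul_le_mul (hbd _ (gN_nonneg n hf0 _)) ((le_abs_self _).trans (hB _ (y9_pt_norm m θ))) (hh0 _)
        (Real.rpow_nonneg hd.le _)
    · filter_upwards [y11_conv β lam hlam hf] with θ hθ
      refine Tendsto.const_mul _ (Tendsto.mul_const _ ((hθ.add_const d).rpow_const (Or.inl ?_)))
      have := hX0 θ
      linarith
  have hle : ∫ θ, (∫ x, f x ∂(lam (ptI θ))) ^ q₁ * (((∫ x, f x ∂(lam (ptI θ))) + d) ^ (q - q₁) * h (pt m θ)) ∂P ≤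
      ∫ θ, (∫ x, f x ∂(lam (ptI θ))) ^ q * h (pt m θ) ∂P := by
    refine integral_mono_of_nonneg (Eventually.of_forall fun θ => ?_) hI (Eventually.of_forall fun θ => ?_)
    · exact mul_nonneg (Real.rpow_nonneg (hX0 θ) _) (mul_nonneg (Real.rpow_nonneg (by linarith [hX0 θ]) _) (hh0 _))
    · simp only
      rw [← mul_assoc]
      refine mul_le_mul_of_nonneg_right ?_ (hh0 _)
      obtain ⟨X, hX⟩ : ∃ X : ℝ, X = ∫ x, f x ∂(lam (ptI θ)) := ⟨_, rfl⟩
      have b1 := hX0 θ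
      rw [← hX] at b1 ⊢
      rcases b1.eq_or_lt with h | h
      · rw [← h, Real.zero_rpow (by linarith), zero_mul]
        exact Real.rpow_nonneg le_rfl _
      · calc X ^ q₁ * (X + d) ^ (q - q₁) ≤ X ^ q₁ * X ^ (q - q₁) := by
              have := Real.rpow_nonneg h.le q₁
              refine mul_le_mul_of_nonneg_left ?_ this
              exact Real.rpow_le_rpow_of_nonpos h (by linarith) hneg
          _ = X ^ q := by
              rw [← Real.rpow_add h]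
              congr 1
              ring
  filter_upwards [hlim.eventually_le_const (lt_of_le_of_lt hle (lt_add_of_pos_right _ hε))] with n hn using hn

/-- two-sided bounds for the twisted q-th moments, q smaller than 1 -/
theorem mom_small (β q : ℝ) (h0 : 0 < β) (h2 : β < 2) (hq0 : 0 < q) (hq1 : q < 1) :
    ∃ c C : ℝ, 0 < c ∧ 0 < C ∧ ∀ lam : (ℕ → ℂ) → Measure ℝ, IsChaos β lam → ∀ f : ℝ → ℝ, Continuous f → (∀ x, 0 ≤ f x) →
    ∀ (m : ℕ) (h : (Fin m → ℂ) → ℝ), Continuous h → (∀ X, 0 ≤ h X) →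
    Integrable (fun θ => (∫ x, f x ∂(lam (ptI θ))) ^ q * h (pt m θ)) P ∧ ∀ ε : ℝ, 0 < ε → ∀ᶠ T : ℝ in atTop,
      c * (∫ θ, (∫ x, f x ∂(lam (ptI θ))) ^ q * h (pt m θ) ∂P) - ε ≤
        ∫ om in Icc (0:ℝ) 1, (∫ x, f x ∂(nu β T om)) ^ q * h (ph m T om) ∧
      ∫ om in Icc (0:ℝ) 1, (∫ x, f x ∂(nu β T om)) ^ q * h (ph m T om) ≤
        C * (∫ θ, (∫ x, f x ∂(lam (ptI θ))) ^ q * h (pt m θ) ∂P) + ε := by
  have hPp : IsProbabilityMeasure P := P_prob
  -- the auxiliary exponent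
  obtain ⟨q₁, hq₁e⟩ : ∃ q₁ : ℝ, q₁ = 1 + (2 - β) / 4 := ⟨_, rfl⟩
  have hq₁1 : 1 < q₁ := by
    rw [hq₁e]
    linarith
  have hq₁2 : q₁ < 2 := by
    rw [hq₁e]
    linarith
  have hq₁β : q₁ * β < 2 := by
    rw [hq₁e]
    nlinarith
  have hdq : 0 < q₁ - q := by linarith
  have h1q : 0 < 1 - q := by linarith
  obtain ⟨C₁, hC₁, HU⟩ := nu_q0 β q₁ h0 h2 hq₁1 hq₁2 hq₁β
  obtain ⟨c₁, c₂', hc1, hc12, HF⟩ := y10_first β h0 h2
  obtain ⟨c₂, hc2, HUp⟩ := y10_up β h0 h2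
  -- the constant K
  obtain ⟨a, ha⟩ : ∃ a : ℝ, a = (1 - q) / (q₁ - q) := ⟨_, rfl⟩
  have ha0 : 0 < a := by
    rw [ha]
    positivity
  obtain ⟨b, hb⟩ : ∃ b : ℝ, b = (q₁ - 1) / (q₁ - q) := ⟨_, rfl⟩
  have hb0 : 0 < b := by
    rw [hb]
    exact div_pos (by linarith) hdq
  obtain ⟨r, hr⟩ : ∃ r : ℝ, r = (q₁ - 1) / (1 - q) := ⟨_, rfl⟩
  have hr0 : 0 < r := by
    rw [hr]
    exact div_pos (by linarith) h1q
  obtain ⟨K, hK⟩ : ∃ K : ℝ, K = (2 * a * C₁ / c₁) ^ (1 / r) := ⟨_, rfl⟩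
  have hKb : 0 < 2 * a * C₁ / c₁ := by positivity
  have hK0 : 0 < K := by
    rw [hK]
    exact Real.rpow_pos_of_pos hKb _
  have hKr : a * K ^ (-r) * C₁ = c₁ / 2 := by
    have : K ^ (-r) = (2 * a * C₁ / c₁)⁻¹ := by
      rw [hK, ← Real.rpow_mul hKb.le]
      have : 1 / r * -r = -1 := by field_simp
      rw [this, Real.rpow_neg_one]
    rw [this]
    field_simp
  refine ⟨c₁ / (2 * (b * K)), c₂ ^ q, by positivity, Real.rpow_pos_of_pos hc2 _, fun lam hlam f hf hf0 m h hh hh0 => ?_⟩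
  have hI : Integrable (fun θ => (∫ x, f x ∂(lam (ptI θ))) ^ q * h (pt m θ)) P := by
    have := y11_powint h0 h2 hlam hf hf0 hh hh0 hq0 hq1 (le_refl (0:ℝ))
    simpa only [add_zero] using this
  refine ⟨hI, fun ε hε => ?_⟩
  have hX0 : ∀ θ : ℕ → ℝ, 0 ≤ ∫ x, f x ∂(lam (ptI θ)) := fun θ => integral_nonneg hf0
  obtain ⟨A, hA⟩ : ∃ A : ℝ, A = ∫ θ, (∫ x, f x ∂(lam (ptI θ))) ^ q * h (pt m θ) ∂P := ⟨_, rfl⟩
  have hA0 : 0 ≤ A := by
    rw [hA]
    exact integral_nonneg fun θ => mul_nonneg (Real.rpow_nonneg (hX0 θ) _) (hh0 _)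
  obtain ⟨B, hB0, hB⟩ := torus_bd hh
  rw [← hA]
  have hI₁ := y13_P β q₁ h0 h2 hq₁1 hq₁2 hq₁β lam hlam hf hf0
  -- the upper bound
  have up : ∀ᶠ T : ℝ in atTop, ∫ om in Icc (0:ℝ) 1, (∫ x, f x ∂(nu β T om)) ^ q * h (ph m T om) ≤ c₂ ^ q * A + ε := by
    have hcq : 0 < c₂ ^ q := Real.rpow_pos_of_pos hc2 _
    obtain ⟨δ, hδ⟩ : ∃ δ : ℝ, δ = ε / (3 * c₂ ^ q) := ⟨_, rfl⟩
    have hδ0 : 0 < δ := by
      rw [hδ]
      positivity
    -- choice of d
    obtain ⟨d, hd⟩ : ∃ d : ℝ, d = (δ / (B + 1)) ^ (1 / q) := ⟨_, rfl⟩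
    have hdb : 0 < δ / (B + 1) := by positivity
    have hd0 : 0 < d := by
      rw [hd]
      exact Real.rpow_pos_of_pos hdb _
    have hdq' : d ^ q * B ≤ δ := by
      rw [hd, ← Real.rpow_mul hdb.le]
      have : 1 / q * q = 1 := by field_simp
      rw [this, Real.rpow_one, div_mul_eq_mul_div, div_le_iff₀ (by linarith)]
      nlinarith
    have hAd : ∫ θ, ((∫ x, f x ∂(lam (ptI θ))) + d) ^ q * h (pt m θ) ∂P ≤ A + δ := by
      have h1 : ∫ θ, ((∫ x, f x ∂(lam (ptI θ))) + d) ^ q * h (pt m θ) ∂P ≤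
          ∫ θ, ((∫ x, f x ∂(lam (ptI θ))) ^ q * h (pt m θ) + d ^ q * B) ∂P := by
        refine integral_mono (y11_powint h0 h2 hlam hf hf0 hh hh0 hq0 hq1 hd0.le) (hI.add (integrable_const _)) fun θ => ?_
        simp only
        have b1 := Real.rpow_add_le_add_rpow (hX0 θ) hd0.le hq0.le hq1.le
        have b2 : h (pt m θ) ≤ B := (le_abs_self _).trans (hB _ (y9_pt_norm m θ))
        have b3 : 0 ≤ d ^ q := Real.rpow_nonneg hd0.le _
        calc _ ≤ ((∫ x, f x ∂(lam (ptI θ))) ^ q + d ^ q) * h (pt m θ) := mul_le_mul_of_nonneg_right b1 (hh0 _)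
          _ = (∫ x, f x ∂(lam (ptI θ))) ^ q * h (pt m θ) + d ^ q * h (pt m θ) := by ring
          _ ≤ _ := by gcongr
      rw [integral_add hI (integrable_const _), ← hA] at h1
      simp only [integral_const, probReal_univ, smul_eq_mul, one_mul] at h1
      linarith
    have hn := y11_up_lim h0 h2 hlam hf hf0 hh hh0 hq0 hq1 hd0 hδ0
    obtain ⟨n, hn1, hn2⟩ := (hn.and (eventually_ge_atTop m)).exists
    have h5 := HUp q hq0 hq1 f hf hf0 n (fun v => h (y13r hn2 v)) (hh.comp (y13r_cont hn2)) (fun v => hh0 _) d hd0 (ε / 3)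
      (by linarith)
    simp only [y13r_pt, y13r_ph] at h5
    filter_upwards [h5] with T hT
    have h6 : c₂ ^ q * (∫ θ, (gN β n f (pt n θ) + d) ^ q * h (pt m θ) ∂P) ≤ c₂ ^ q * (A + δ + δ) := by
      gcongr
      linarith
    have h7 : c₂ ^ q * δ = ε / 3 := by
      rw [hδ]
      field_simp
    nlinarith
  -- the lower bound
  have low : ∀ᶠ T : ℝ in atTop, c₁ / (2 * (b * K)) * A - ε ≤
      ∫ om in Icc (0:ℝ) 1, (∫ x, f x ∂(nu β T om)) ^ q * h (ph m T om) := by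
    obtain ⟨D, hD⟩ : ∃ D : ℝ, D = 2 * c₁ + 1 + c₁ / 2 + a * K ^ (-r) := ⟨_, rfl⟩
    have hKr0 : 0 < K ^ (-r) := Real.rpow_pos_of_pos hK0 _
    have hD0 : 0 < D := by
      rw [hD]
      positivity
    obtain ⟨δ, hδ⟩ : ∃ δ : ℝ, δ = ε * (b * K) / D := ⟨_, rfl⟩
    have hδ0 : 0 < δ := by
      rw [hδ]
      positivity
    obtain ⟨k, hk⟩ := (y11_d_lim h0 h2 hlam hf hf0 hh hh0 hq0 hq1 hδ0).exists
    obtain ⟨d, hd⟩ : ∃ d : ℝ, d = 1 / ((k : ℝ) + 1) := ⟨_, rfl⟩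
    have hd0 : 0 < d := by
      rw [hd]
      positivity
    rw [← hd, ← hA] at hk
    have e1 := y11_low_lim h0 h2 hlam hf hf0 hh hh0 hq0 hq1 hd0 hδ0
    have e2 := y14_aux h0 hq0 hq1 hq₁1 hlam hf hf0 hh hh0 hI₁ hI hd0 hδ0
    obtain ⟨n, ⟨hn1, hn2⟩, hn3⟩ := ((e1.and e2).and (eventually_ge_atTop m)).exists
    rw [← hA] at hn2
    have hgc := gN_cont h0 n hf
    have hg0 := fun v => gN_nonneg (β := β) n hf0 v
    have hgd : ∀ v, 0 < gN β n f v + d := fun v => by linarith [hg0 v]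
    have hgdc : Continuous fun v => gN β n f v + d := hgc.add continuous_const
    have hrc : Continuous fun v : Fin n → ℂ => h (y13r hn3 v) := hh.comp (y13r_cont hn3)
    have w1c : Continuous fun v => (gN β n f v + d) ^ (q - 1) * h (y13r hn3 v) :=
      (hgdc.rpow_const fun v => Or.inl (hgd v).ne').mul hrc
    have w2c : Continuous fun v => (gN β n f v + d) ^ (q - q₁) * h (y13r hn3 v) :=
      (hgdc.rpow_const fun v => Or.inl (hgd v).ne').mul hrc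
    have w10 : ∀ v, 0 ≤ (gN β n f v + d) ^ (q - 1) * h (y13r hn3 v) := fun v =>
      mul_nonneg (Real.rpow_nonneg (hgd v).le _) (hh0 _)
    have w20 : ∀ v, 0 ≤ (gN β n f v + d) ^ (q - q₁) * h (y13r hn3 v) := fun v =>
      mul_nonneg (Real.rpow_nonneg (hgd v).le _) (hh0 _)
    have H1 := HF f hf hf0 n _ w1c w10 δ hδ0
    have H2 := HU lam hlam f hf hf0 n _ w2c w20 δ hδ0
    have hI2 := y13_Pw hI₁ w2c
    filter_upwards [H1, H2, eventually_ge_atTop 2] with T a1 a2 hT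
    have hq₁0 : 0 < q₁ := by linarith
    have hJ0 : 0 ≤ ∫ θ, (∫ x, f x ∂(lam (ptI θ))) ^ q₁ * ((gN β n f (pt n θ) + d) ^ (q - q₁) * h (y13r hn3 (pt n θ))) ∂P :=
      integral_nonneg fun θ => mul_nonneg (Real.rpow_nonneg (hX0 θ) _) (w20 _)
    rw [y13_T h0 hT hf hf0 w2c w20 hq₁0, y13_Pe hq₁0 hlam hf hf0 w20 hI2, ← ENNReal.ofReal_mul hC₁.le,
      ← ENNReal.ofReal_add (mul_nonneg hC₁.le hJ0) hδ0.le, ENNReal.ofReal_le_ofReal_iff (by positivity)] at a2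
    simp only [y13r_pt, y13r_ph] at a1 a2
    have hA0' : ∀ om : ℝ, 0 ≤ ∫ x, f x ∂(nu β T om) := fun om => integral_nonneg hf0
    have hAc := nu_cont h0 hT hf
    have hpc := ph_cont n T
    have c1 : Continuous fun om : ℝ => (∫ x, f x ∂(nu β T om)) ^ q * h (ph m T om) :=
      (hAc.rpow_const fun _ => Or.inr hq0.le).mul (hh.comp (ph_cont m T))
    have c2 : Continuous fun om : ℝ => (∫ x, f x ∂(nu β T om)) ^ q₁ * ((gN β n f (ph n T om) + d) ^ (q - q₁) * h (ph m T om)) :=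
      (hAc.rpow_const fun _ => Or.inr hq₁0.le).mul (w2c.comp hpc)
    have c3 : Continuous fun om : ℝ => (∫ x, f x ∂(nu β T om)) * ((gN β n f (ph n T om) + d) ^ (q - 1) * h (ph m T om)) :=
      hAc.mul (w1c.comp hpc)
    have key : ∫ om in Icc (0:ℝ) 1, (∫ x, f x ∂(nu β T om)) * ((gN β n f (ph n T om) + d) ^ (q - 1) * h (ph m T om)) ≤
        b * K * (∫ om in Icc (0:ℝ) 1, (∫ x, f x ∂(nu β T om)) ^ q * h (ph m T om)) +
          a * K ^ (-r) * ∫ om in Icc (0:ℝ) 1, (∫ x, f x ∂(nu β T om)) ^ q₁ * ((gN β n f (ph n T om) + d) ^ (q - q₁) * h (ph m T om)) := by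
      rw [← integral_const_mul, ← integral_const_mul, ← integral_add ((y10_int c1).const_mul _) ((y10_int c2).const_mul _)]
      refine integral_mono (y10_int c3) (((y10_int c1).const_mul _).add ((y10_int c2).const_mul _)) fun om => ?_
      simp only
      have h3 := yC (hA0' om) (hgd (ph n T om)) hK0 hq0 hq1 hq₁1
      rw [← ha, ← hb, ← hr] at h3
      have h4 := mul_le_mul_of_nonneg_right h3 (hh0 (ph m T om))
      calc _ = (∫ x, f x ∂(nu β T om)) * (gN β n f (ph n T om) + d) ^ (q - 1) * h (ph m T om) := by ring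
        _ ≤ _ := h4
        _ = _ := by ring
    obtain ⟨E, hE⟩ : ∃ E : ℝ, E = ∫ om in Icc (0:ℝ) 1, (∫ x, f x ∂(nu β T om)) ^ q * h (ph m T om) := ⟨_, rfl⟩
    rw [← hE] at key ⊢
    have s0 : ∫ θ, gN β n f (pt n θ) * ((gN β n f (pt n θ) + d) ^ (q - 1) * h (pt m θ)) ∂P =
        ∫ θ, (gN β n f (pt n θ) * (gN β n f (pt n θ) + d) ^ (q - 1)) * h (pt m θ) ∂P := by
      refine integral_congr_ae (Eventually.of_forall fun θ => ?_)
      simp only
      ring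
    rw [s0] at a1
    have s1 : A - δ - δ ≤ ∫ θ, (gN β n f (pt n θ) * (gN β n f (pt n θ) + d) ^ (q - 1)) * h (pt m θ) ∂P := by linarith
    have s2 : c₁ * (A - δ - δ) - δ ≤ b * K * E + a * K ^ (-r) * (C₁ * (A + δ) + δ) := by
      calc c₁ * (A - δ - δ) - δ ≤ _ := by
            refine le_trans ?_ a1.1
            gcongr
        _ ≤ _ := key
        _ ≤ _ := by
            gcongr
            exact a2.trans (by gcongr)
    have s3 : a * K ^ (-r) * (C₁ * (A + δ) + δ) = c₁ / 2 * (A + δ) + a * K ^ (-r) * δ := by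
      have : a * K ^ (-r) * (C₁ * (A + δ) + δ) = (a * K ^ (-r) * C₁) * (A + δ) + a * K ^ (-r) * δ := by ring
      rw [this, hKr]
    rw [s3] at s2
    have s4 : c₁ / 2 * A - δ * D ≤ b * K * E := by
      have t : c₁ / 2 * A - δ * (2 * c₁ + 1 + c₁ / 2 + a * K ^ (-r)) =
          (c₁ * (A - δ - δ) - δ) - (c₁ / 2 * (A + δ) + a * K ^ (-r) * δ) := by ring
      rw [hD, t]
      linarith
    have s5 : δ * D = ε * (b * K) := by
      rw [hδ]
      field_simp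
    rw [s5] at s4
    have hbK : 0 < b * K := by positivity
    have s6 : (c₁ / (2 * (b * K)) * A - ε) * (b * K) ≤ E * (b * K) := by
      have : (c₁ / (2 * (b * K)) * A - ε) * (b * K) = c₁ / 2 * A - ε * (b * K) := by
        field_simp
      rw [this]
      linarith
    exact le_of_mul_le_mul_right s6 hbK
  filter_upwards [low, up] with T x y using ⟨x, y⟩

end Chaos
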