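import Pool.Agent.Lib.MP_9eae41_pr.Y14

set_option autoImplicit false

open Complex MeasureTheory Set Filter Topology
open scoped ENNReal

namespace Chaos

/-! Positivity of the moments of the chaos, and the multiplicative form of the comparison. -/

theorem pt_cont' (n : ℕ) : Continuous (pt n) := by
  unfold pt
  fun_prop

/-- a neighbourhood of a point of the torus has positive probability -/
theorem y15_pos (m : ℕ) {h : (Fin m → ℂ) → ℝ} (hh : Continuous h) (θ₀ : ℕ → ℝ) (hpos : 0 < h (pt m θ₀)) :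
    0 < P {θ | 0 < h (pt m θ)} := by
  have hU : IsProbabilityMeasure ((volume : Measure ℝ).restrict (Icc (0:ℝ) 1)) := CZ.Ug_prob
  obtain ⟨θ₁, hθ₁⟩ : ∃ θ₁ : ℕ → ℝ, θ₁ = fun j => if j < m then Int.fract (θ₀ j) else 0 := ⟨_, rfl⟩
  have e1 : pt m θ₁ = pt m θ₀ := by
    funext j
    unfold pt
    rw [hθ₁]
    simp only [j.2, if_true]
    have : (2 * (Real.pi : ℂ) * I * ((Int.fract (θ₀ j) : ℝ) : ℂ)) = 2 * Real.pi * I * θ₀ j - (⌊θ₀ j⌋ : ℂ) * (2 * Real.pi * I) := by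
      rw [← Int.self_sub_floor]
      push_cast
      ring
    rw [this, Complex.exp_sub, Complex.exp_int_mul_two_pi_mul_I, div_one]
  rw [← e1] at hpos
  have hopen : IsOpen {θ : ℕ → ℝ | 0 < h (pt m θ)} := isOpen_lt continuous_const (hh.comp (pt_cont' m))
  have hmem : θ₁ ∈ {θ : ℕ → ℝ | 0 < h (pt m θ)} := hpos
  -- a basic neighbourhood
  obtain ⟨F, u, hu, hsub⟩ := isOpen_pi_iff.1 hopen θ₁ hmem
  refine lt_of_lt_of_le ?_ (measure_mono hsub)
  have hmu : ∀ i ∈ F, MeasurableSet (u i) := fun i hi => (hu i hi).1.measurableSet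
  have key : P ((F : Set ℕ).pi u) = ∏ i ∈ F, (volume.restrict (Icc (0:ℝ) 1)) (u i) := by
    unfold P
    exact Measure.infinitePi_pi (fun _ : ℕ => (volume : Measure ℝ).restrict (Icc (0:ℝ) 1)) hmu
  rw [key]
  refine pos_iff_ne_zero.2 (Finset.prod_ne_zero_iff.2 fun i hi => pos_iff_ne_zero.1 ?_)
  rw [Measure.restrict_apply (hmu i hi)]
  have h1 : θ₁ i ∈ Ico (0:ℝ) 1 := by
    rw [hθ₁]
    by_cases hi' : i < m
    · simp only [hi', if_true]
      exact ⟨Int.fract_nonneg _, Int.fract_lt_one _⟩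
    · simp only [hi', if_false]
      exact ⟨le_rfl, one_pos⟩
  obtain ⟨r, hr, hball⟩ := Metric.isOpen_iff.1 (hu i hi).1 (θ₁ i) (hu i hi).2
  have h2 : Ioo (θ₁ i) (min 1 (θ₁ i + r)) ⊆ u i ∩ Icc 0 1 := by
    intro x hx
    have a1 := hx.1
    have a2 := hx.2
    rw [lt_min_iff] at a2
    refine ⟨hball ?_, h1.1.trans a1.le, a2.1.le⟩
    rw [Metric.mem_ball, Real.dist_eq, abs_lt]
    constructor <;> linarith
  refine lt_of_lt_of_le ?_ (measure_mono h2)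
  rw [Real.volume_Ioo]
  have : θ₁ i < min 1 (θ₁ i + r) := lt_min h1.2 (by linarith)
  simpa using this

theorem y15_c_pos {β : ℝ} (h0 : 0 < β) (n : ℕ) : 0 < CZ.y1c β n := by
  have h := CZ.y1_pos β h0 (CZ.y1S n) (fun _ hp => CZ.y1S_prime hp) 0
  rw [CZ.y1_rotate] at h
  exact h

theorem y15_aux {f u : ℝ → ℝ} (hf : Continuous f) (hu : Continuous u) (hf0 : ∀ x, 0 ≤ f x) (hu0 : ∀ x, 0 < u x)
    (hfp : ∃ x ∈ Icc (0:ℝ) 1, 0 < f x) : 0 < ∫ x in Icc (0:ℝ) 1, f x * u x := by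
  obtain ⟨x₀, hx₀, hfx⟩ := hfp
  rw [integral_Icc_eq_integral_Ioc, ← intervalIntegral.integral_of_le zero_le_one]
  exact intervalIntegral.integral_pos zero_lt_one (hf.mul hu).continuousOn (fun x _ => mul_nonneg (hf0 x) (hu0 x).le)
    ⟨x₀, hx₀, mul_pos hfx (hu0 x₀)⟩

theorem y15_F_pos (n : ℕ) (v : Fin n → ℂ) (x : ℝ) : 0 < ‖y9F n v x‖ := by
  rw [norm_pos_iff]
  unfold y9F
  rw [Finset.prod_ne_zero_iff]
  intro j _
  exact inv_ne_zero (y9_ne j x (v j))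

theorem y15_F_cont (n : ℕ) (v : Fin n → ℂ) : Continuous fun x : ℝ => y9F n v x := by
  unfold y9F
  refine continuous_finsetProd _ fun j _ => Continuous.inv₀ ?_ fun x => y9_ne j x (v j)
  have h0 : (pr j : ℂ) ≠ 0 := by exact_mod_cast (pr_prime j).ne_zero
  have h1 : Continuous fun x : ℝ => (pr j : ℂ) ^ (-(1/2 : ℂ) - I * x) :=
    Continuous.const_cpow (by fun_prop) (Or.inl h0)
  exact continuous_const.sub (h1.mul continuous_const)

theorem y15_Fp_cont {β : ℝ} (h0 : 0 < β) (n : ℕ) (v : Fin n → ℂ) : Continuous fun x : ℝ => ‖y9F n v x‖ ^ β := by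
  exact (y15_F_cont n v).norm.rpow_const fun _ => Or.inr h0.le

theorem y15_gN_pos {β : ℝ} (h0 : 0 < β) (n : ℕ) {f : ℝ → ℝ} (hf : Continuous f) (hf0 : ∀ x, 0 ≤ f x)
    (hfp : ∃ x ∈ Icc (0:ℝ) 1, 0 < f x) (v : Fin n → ℂ) : 0 < gN β n f v := by
  have hc := y15_c_pos h0 n
  unfold gN
  exact y15_aux (u := fun x => ‖y9F n v x‖ ^ β / CZ.y1c β n) hf ((y15_Fp_cont h0 n v).div_const (CZ.y1c β n)) hf0
    (fun x => div_pos (Real.rpow_pos_of_pos (y15_F_pos n v x) β) hc) hfp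

/-- the moments of the chaos are positive -/
theorem y15_A_pos {β q : ℝ} (h0 : 0 < β) (h2 : β < 2) {lam : (ℕ → ℂ) → Measure ℝ} (hlam : IsChaos β lam)
    {f : ℝ → ℝ} (hf : Continuous f) (hf0 : ∀ x, 0 ≤ f x) (hfp : ∃ x ∈ Icc (0:ℝ) 1, 0 < f x)
    {m : ℕ} {h : (Fin m → ℂ) → ℝ} (hh : Continuous h) (hh0 : ∀ X, 0 ≤ h X) (hhp : ∃ θ : ℕ → ℝ, 0 < h (pt m θ))
    (hI : Integrable (fun θ => (∫ x, f x ∂(lam (ptI θ))) ^ q * h (pt m θ)) P) :
    0 < ∫ θ, (∫ x, f x ∂(lam (ptI θ))) ^ q * h (pt m θ) ∂P := by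
  have hPp : IsProbabilityMeasure P := P_prob
  obtain ⟨θ₀, hθ₀⟩ := hhp
  obtain ⟨a1, a2⟩ := y11_X β h0 h2 lam hlam hf hf0 m hh hh0
  have hX0 : ∀ θ : ℕ → ℝ, 0 ≤ ∫ x, f x ∂(lam (ptI θ)) := fun θ => integral_nonneg hf0
  have hg : 0 < ∫ θ, gN β m f (pt m θ) * h (pt m θ) ∂P := by
    rw [integral_pos_iff_support_of_nonneg (fun θ => mul_nonneg (gN_nonneg m hf0 _) (hh0 _))
      (y11_bdd m ((gN_cont h0 m hf).mul hh))]
    refine lt_of_lt_of_le (y15_pos m hh θ₀ hθ₀) (measure_mono fun θ hθ => ?_)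
    exact (mul_pos (y15_gN_pos h0 m hf hf0 hfp _) hθ).ne'
  rw [a2, integral_pos_iff_support_of_nonneg (fun θ => mul_nonneg (hX0 θ) (hh0 _)) a1] at hg
  rw [integral_pos_iff_support_of_nonneg (fun θ => mul_nonneg (Real.rpow_nonneg (hX0 θ) _) (hh0 _)) hI]
  refine lt_of_lt_of_le hg (measure_mono fun θ hθ => ?_)
  rw [Function.mem_support] at hθ ⊢
  have b1 : 0 < ∫ x, f x ∂(lam (ptI θ)) := lt_of_le_of_ne (hX0 θ) (fun hc => hθ (by rw [← hc, zero_mul]))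
  have b2 : h (pt m θ) ≠ 0 := fun hc => hθ (by rw [hc, mul_zero])
  exact mul_ne_zero (Real.rpow_pos_of_pos b1 _).ne' b2

/-- the phases at height T are the phases of a sequence of angles -/
theorem y15_ph (m : ℕ) (T om : ℝ) : ∃ θ : ℕ → ℝ, pt m θ = ph m T om := by
  refine ⟨fun j => -(om * T * Real.log (pr j)) / (2 * Real.pi), ?_⟩
  funext j
  unfold pt ph
  have hp : ((pr j : ℕ) : ℂ) ≠ 0 := by exact_mod_cast (pr_prime j).ne_zero
  rw [Complex.cpow_def_of_ne_zero hp, ← Complex.natCast_log]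
  congr 1
  have hpi : (Real.pi : ℂ) ≠ 0 := by exact_mod_cast Real.pi_ne_zero
  push_cast
  field_simp

/-- from the additive to the multiplicative form -/
theorem y15_mult {β q : ℝ} (h0 : 0 < β) (h2 : β < 2) (hq0 : 0 < q) {c C : ℝ} (hc : 0 < c) {lam : (ℕ → ℂ) → Measure ℝ}
    (hlam : IsChaos β lam) {f : ℝ → ℝ} (hf : Continuous f) (hf0 : ∀ x, 0 ≤ f x)
    {m : ℕ} {h : (Fin m → ℂ) → ℝ} (hh : Continuous h) (hh0 : ∀ X, 0 ≤ h X)
    (hI : Integrable (fun θ => (∫ x, f x ∂(lam (ptI θ))) ^ q * h (pt m θ)) P)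
    (hadd : ∀ ε : ℝ, 0 < ε → ∀ᶠ T : ℝ in atTop,
      c * (∫ θ, (∫ x, f x ∂(lam (ptI θ))) ^ q * h (pt m θ) ∂P) - ε ≤
        ∫ om in Icc (0:ℝ) 1, (∫ x, f x ∂(nu β T om)) ^ q * h (ph m T om) ∧
      ∫ om in Icc (0:ℝ) 1, (∫ x, f x ∂(nu β T om)) ^ q * h (ph m T om) ≤
        C * (∫ θ, (∫ x, f x ∂(lam (ptI θ))) ^ q * h (pt m θ) ∂P) + ε) :
    ∀ᶠ T : ℝ in atTop, c / 2 * (∫ θ, (∫ x, f x ∂(lam (ptI θ))) ^ q * h (pt m θ) ∂P) ≤
        ∫ om in Icc (0:ℝ) 1, (∫ x, f x ∂(nu β T om)) ^ q * h (ph m T om) ∧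
      ∫ om in Icc (0:ℝ) 1, (∫ x, f x ∂(nu β T om)) ^ q * h (ph m T om) ≤
        (C + c) * (∫ θ, (∫ x, f x ∂(lam (ptI θ))) ^ q * h (pt m θ) ∂P) := by
  have hsuppl := CZ.y3_supp β lam hlam
  by_cases hfp : ∃ x ∈ Icc (0:ℝ) 1, 0 < f x
  · by_cases hhp : ∃ θ : ℕ → ℝ, 0 < h (pt m θ)
    · have hA := y15_A_pos (q := q) h0 h2 hlam hf hf0 hfp hh hh0 hhp hI
      filter_upwards [hadd (c / 2 * ∫ θ, (∫ x, f x ∂(lam (ptI θ))) ^ q * h (pt m θ) ∂P) (by positivity)] with T hT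
      refine ⟨?_, ?_⟩
      · refine le_trans (le_of_eq ?_) hT.1
        ring
      · refine hT.2.trans ?_
        nlinarith
    · push Not at hhp
      have hz : ∀ θ, h (pt m θ) = 0 := fun θ => le_antisymm (hhp θ) (hh0 _)
      have hz2 : ∀ T om, h (ph m T om) = 0 := by
        intro T om
        obtain ⟨θ, hθ⟩ := y15_ph m T om
        rw [← hθ]
        exact hz θ
      refine Eventually.of_forall fun T => ?_
      simp only [hz, hz2, mul_zero, integral_zero, le_refl, and_self]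
  · push Not at hfp
    have hz : ∀ x ∈ Icc (0:ℝ) 1, f x = 0 := fun x hx => le_antisymm (hfp x hx) (hf0 x)
    have hz1 : ∀ (μ : Measure ℝ), μ (Icc 0 1)ᶜ = 0 → ∫ x, f x ∂μ = 0 := by
      intro μ hμ
      have : f =ᵐ[μ] 0 := by
        have : ∀ᵐ x ∂μ, x ∈ Icc (0:ℝ) 1 := by
          rw [ae_iff]
          exact hμ
        filter_upwards [this] with x hx using hz x hx
      rw [integral_congr_ae this]
      simp
    have hz2 : ∀ T om, ∫ x, f x ∂(nu β T om) = 0 := fun T om => hz1 _ (nu_supp β T om)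
    have hz3 : ∫ θ, (∫ x, f x ∂(lam (ptI θ))) ^ q * h (pt m θ) ∂P = 0 := by
      have : (fun θ => (∫ x, f x ∂(lam (ptI θ))) ^ q * h (pt m θ)) =ᵐ[P] 0 := by
        filter_upwards [hsuppl] with θ hθ
        rw [hz1 _ hθ, Real.zero_rpow hq0.ne', zero_mul]
        rfl
      rw [integral_congr_ae this]
      simp
    refine Eventually.of_forall fun T => ?_
    rw [hz3]
    simp only [hz2, Real.zero_rpow hq0.ne', mul_zero, zero_mul, integral_zero, le_refl, and_self]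

end Chaos
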