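import Pool.Agent.Lib.MP_9eae41_pr.Y0

set_option autoImplicit false

open Complex MeasureTheory Set Filter Topology
open scoped ENNReal

namespace Chaos

/-! Row Y2 (200 lines): abstract passage to limit points. A_k are nonnegative random variables on [0,1] with bounded q-th
moments, H_k bounded by B. Test functions (y, X) -> min(max y 0) A * h X; monotone convergence in A. -/

theorem limit_pair {Ω : Type} [MeasurableSpace Ω] (Q : Measure Ω) [IsProbabilityMeasure Q] {m : ℕ}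
    (A : ℕ → ℝ → ℝ) (V : ℕ → ℝ → (Fin m → ℂ)) (hA : ∀ k, ContinuousOn (A k) (Icc 0 1)) (hV : ∀ k, ContinuousOn (V k) (Icc 0 1))
    (hA0 : ∀ k x, 0 ≤ A k x) (hV1 : ∀ k x j, ‖V k x j‖ = 1)
    (q C : ℝ) (hq : 1 < q) (hC : ∀ k, ∫ x in Icc (0:ℝ) 1, A k x ^ q ≤ C)
    (Y : Ω → ℝ) (W : Ω → (Fin m → ℂ)) (hY : AEMeasurable Y Q) (hW : AEMeasurable W Q)
    (hconv : ∀ Φ : ℝ × (Fin m → ℂ) → ℝ, Continuous Φ → (∃ B, ∀ v, |Φ v| ≤ B) →
      Tendsto (fun k => ∫ x in Icc (0:ℝ) 1, Φ (A k x, V k x)) atTop (𝓝 (∫ w, Φ (Y w, W w) ∂Q)))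
    (h : (Fin m → ℂ) → ℝ) (hh : Continuous h) (hh0 : ∀ v, 0 ≤ h v) :
    (∀ᵐ w ∂Q, 0 ≤ Y w) ∧ Integrable (fun w => Y w * h (W w)) Q ∧
      Tendsto (fun k => ∫ x in Icc (0:ℝ) 1, A k x * h (V k x)) atTop (𝓝 (∫ w, Y w * h (W w) ∂Q)) := by
  -- composition with a bounded continuous function is integrable
  have hmeas : AEMeasurable (fun w => (Y w, W w)) Q := hY.prodMk hW
  have hint : ∀ Φ : ℝ × (Fin m → ℂ) → ℝ, Continuous Φ → (∃ B, ∀ v, |Φ v| ≤ B) →
      Integrable (fun w => Φ (Y w, W w)) Q := by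
    intro Φ hΦ ⟨B, hB⟩
    refine Integrable.of_bound (hΦ.measurable.comp_aemeasurable hmeas).aestronglyMeasurable B ?_
    exact Eventually.of_forall fun w => by rw [Real.norm_eq_abs]; exact hB _
  -- a nonnegative test function vanishing on the data vanishes at the limit
  have hzero : ∀ Φ : ℝ × (Fin m → ℂ) → ℝ, Continuous Φ → (∃ B, ∀ v, |Φ v| ≤ B) → (∀ v, 0 ≤ Φ v) →
      (∀ k x, Φ (A k x, V k x) = 0) → ∀ᵐ w ∂Q, Φ (Y w, W w) = 0 := by
    intro Φ hΦ hB h0 hz
    have h1 := hconv Φ hΦ hB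
    simp only [hz, integral_zero] at h1
    have h2 : ∫ w, Φ (Y w, W w) ∂Q = 0 := tendsto_nhds_unique h1 tendsto_const_nhds |>.symm ▸ rfl
    exact (integral_eq_zero_iff_of_nonneg (fun w => h0 _) (hint Φ hΦ hB)).1 h2
  have hY0 : ∀ᵐ w ∂Q, 0 ≤ Y w := by
    have h1 := hzero (fun v => min (max (-v.1) 0) 1) (by fun_prop) ⟨1, fun v => by
      rw [abs_of_nonneg (le_min (le_max_right _ _) zero_le_one)]; exact min_le_right _ _⟩
      (fun v => le_min (le_max_right _ _) zero_le_one) (fun k x => by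
        simp [hA0 k x])
    filter_upwards [h1] with w hw
    by_contra hneg
    push Not at hneg
    have : 0 < min (max (-Y w) 0) 1 := lt_min (lt_max_of_lt_left (by linarith)) one_pos
    exact this.ne' hw
  have hW1 : ∀ᵐ w ∂Q, ∀ j, ‖W w j‖ = 1 := by
    rw [ae_all_iff]
    intro j
    have h1 := hzero (fun v => min |‖v.2 j‖ - 1| 1) (by fun_prop) ⟨1, fun v => by
      rw [abs_of_nonneg (le_min (abs_nonneg _) zero_le_one)]; exact min_le_right _ _⟩
      (fun v => le_min (abs_nonneg _) zero_le_one) (fun k x => by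
        simp [hV1 k x j])
    filter_upwards [h1] with w hw
    by_contra hne
    have : 0 < min |‖W w j‖ - 1| 1 := lt_min (abs_pos.2 (sub_ne_zero.2 hne)) one_pos
    exact this.ne' hw
  -- a bound for `h` on the torus
  obtain ⟨B, hB⟩ : ∃ B, ∀ v ∈ Metric.closedBall (0 : Fin m → ℂ) 1, h v ≤ B := by
    obtain ⟨B, hB⟩ := (isCompact_closedBall (0 : Fin m → ℂ) 1).bddAbove_image hh.continuousOn
    exact ⟨B, fun v hv => hB ⟨v, hv, rfl⟩⟩
  have hBV : ∀ v : Fin m → ℂ, (∀ j, ‖v j‖ = 1) → h v ≤ B := fun v hv =>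
    hB v (mem_closedBall_zero_iff.2 ((pi_norm_le_iff_of_nonneg zero_le_one).2 fun j => (hv j).le))
  have hB0 : 0 ≤ B := le_trans (hh0 0) (hB 0 (by simp))
  let h' : (Fin m → ℂ) → ℝ := fun v => min (h v) B
  have hh'c : Continuous h' := hh.min continuous_const
  have hh'0 : ∀ v, 0 ≤ h' v := fun v => le_min (hh0 v) hB0
  have hh'B : ∀ v, h' v ≤ B := fun v => min_le_right _ _
  have hh'V : ∀ v : Fin m → ℂ, (∀ j, ‖v j‖ = 1) → h' v = h v := fun v hv => min_eq_left (hBV v hv)
  have hq0 : 0 < q := by linarith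
  -- integrals over `[0,1]`
  have iA : ∀ k, IntegrableOn (A k) (Icc 0 1) := fun k => (hA k).integrableOn_compact isCompact_Icc
  have iAq : ∀ k, IntegrableOn (fun x => A k x ^ q) (Icc 0 1) := fun k =>
    ((hA k).rpow_const fun x _ => Or.inr hq0.le).integrableOn_compact isCompact_Icc
  have cH : ∀ k, ContinuousOn (fun x => h (V k x)) (Icc 0 1) := fun k => hh.comp_continuousOn (hV k)
  have iAh : ∀ k, IntegrableOn (fun x => A k x * h (V k x)) (Icc 0 1) := fun k =>
    ((hA k).mul (cH k)).integrableOn_compact isCompact_Icc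
  have iMh : ∀ k (M : ℝ), IntegrableOn (fun x => min (A k x) M * h (V k x)) (Icc 0 1) := fun k M =>
    (((hA k).inf continuousOn_const).mul (cH k)).integrableOn_compact isCompact_Icc
  have i1 : IntegrableOn (fun _ : ℝ => (1:ℝ)) (Icc 0 1) := continuousOn_const.integrableOn_compact isCompact_Icc
  have hC1 : ∀ k, ∫ x in Icc (0:ℝ) 1, A k x ≤ 1 + C := by
    intro k
    have h1 : ∫ x in Icc (0:ℝ) 1, A k x ≤ ∫ x in Icc (0:ℝ) 1, (1 + A k x ^ q) := by
      refine setIntegral_mono_on (iA k) (i1.add (iAq k)) measurableSet_Icc fun x _ => ?_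
      rcases le_total (A k x) 1 with h1 | h1
      · have := Real.rpow_nonneg (hA0 k x) q
        linarith
      · have := Real.self_le_rpow_of_one_le h1 hq.le
        linarith
    have h2 : ∫ x in Icc (0:ℝ) 1, (1 + A k x ^ q) = 1 + ∫ x in Icc (0:ℝ) 1, A k x ^ q := by
      rw [integral_add i1 (iAq k)]
      simp
    linarith [hC k]
  -- the truncated statement
  let L : ℕ → ℝ := fun M => ∫ w, min (max (Y w) 0) M * h' (W w) ∂Q
  have hΦb : ∀ M : ℕ, ∃ b, ∀ v : ℝ × (Fin m → ℂ), |min (max v.1 0) (M:ℝ) * h' v.2| ≤ b := by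
    intro M
    refine ⟨M * B, fun v => ?_⟩
    have h1 : 0 ≤ min (max v.1 0) (M:ℝ) := le_min (le_max_right _ _) (Nat.cast_nonneg M)
    rw [abs_of_nonneg (mul_nonneg h1 (hh'0 _))]
    exact mul_le_mul (min_le_right _ _) (hh'B _) (hh'0 _) (Nat.cast_nonneg M)
  have hΦc : ∀ M : ℕ, Continuous fun v : ℝ × (Fin m → ℂ) => min (max v.1 0) (M:ℝ) * h' v.2 := by
    intro M
    exact ((continuous_fst.max continuous_const).min continuous_const).mul (hh'c.comp continuous_snd)
  have hL : ∀ M : ℕ, Tendsto (fun k => ∫ x in Icc (0:ℝ) 1, min (A k x) M * h (V k x)) atTop (𝓝 (L M)) := by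
    intro M
    have h1 := hconv _ (hΦc M) (hΦb M)
    refine h1.congr fun k => ?_
    refine integral_congr_ae (Eventually.of_forall fun x => ?_)
    simp only
    rw [max_eq_left (hA0 k x), hh'V _ (hV1 k x)]
  have hLB : ∀ M : ℕ, L M ≤ (1 + C) * B := by
    intro M
    refine le_of_tendsto' (hL M) fun k => ?_
    calc ∫ x in Icc (0:ℝ) 1, min (A k x) M * h (V k x) ≤ ∫ x in Icc (0:ℝ) 1, A k x * B := by
          refine setIntegral_mono_on (iMh k M) ((iA k).mul_const B) measurableSet_Icc fun x _ => ?_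
          exact mul_le_mul (min_le_left _ _) (hBV _ (hV1 k x)) (hh0 _) (hA0 k x)
      _ = (∫ x in Icc (0:ℝ) 1, A k x) * B := integral_mul_const _ _
      _ ≤ (1 + C) * B := mul_le_mul_of_nonneg_right (hC1 k) hB0
  -- the limit variable
  let g : Ω → ℝ := fun w => max (Y w) 0 * h' (W w)
  let gM : ℕ → Ω → ℝ := fun M w => min (max (Y w) 0) M * h' (W w)
  have hg0 : ∀ w, 0 ≤ g w := fun w => mul_nonneg (le_max_right _ _) (hh'0 _)
  have hgM0 : ∀ M w, 0 ≤ gM M w := fun M w =>
    mul_nonneg (le_min (le_max_right _ _) (Nat.cast_nonneg M)) (hh'0 _)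
  have hgMi : ∀ M, Integrable (gM M) Q := fun M => hint _ (hΦc M) (hΦb M)
  have hmono : ∀ w, Monotone fun M => gM M w := by
    intro w M N hMN
    exact mul_le_mul_of_nonneg_right (min_le_min le_rfl (Nat.cast_le.2 hMN)) (hh'0 _)
  have hlim : ∀ w, Tendsto (fun M => gM M w) atTop (𝓝 (g w)) := by
    intro w
    obtain ⟨N, hN⟩ := exists_nat_ge (max (Y w) 0)
    refine tendsto_const_nhds.congr' ?_
    filter_upwards [eventually_ge_atTop N] with M hM
    simp only [g, gM]
    rw [min_eq_left (hN.trans (Nat.cast_le.2 hM))]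
  have hgm : AEMeasurable g Q :=
    ((hY.max aemeasurable_const)).mul (hh'c.measurable.comp_aemeasurable hW)
  have hgi : Integrable g Q := by
    refine ⟨hgm.aestronglyMeasurable, ?_⟩
    rw [hasFiniteIntegral_iff_ofReal (Eventually.of_forall hg0)]
    have h1 : Tendsto (fun M => ∫⁻ w, ENNReal.ofReal (gM M w) ∂Q) atTop (𝓝 (∫⁻ w, ENNReal.ofReal (g w) ∂Q)) := by
      refine lintegral_tendsto_of_tendsto_of_monotone (fun M => (hgMi M).aemeasurable.ennreal_ofReal)
        (Eventually.of_forall fun w M N hMN => ENNReal.ofReal_le_ofReal (hmono w hMN))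
        (Eventually.of_forall fun w => (ENNReal.continuous_ofReal.tendsto _).comp (hlim w))
    have h2 : ∫⁻ w, ENNReal.ofReal (g w) ∂Q ≤ ENNReal.ofReal ((1 + C) * B) := by
      refine le_of_tendsto' h1 fun M => ?_
      rw [← ofReal_integral_eq_lintegral_ofReal (hgMi M) (Eventually.of_forall (hgM0 M))]
      exact ENNReal.ofReal_le_ofReal (hLB M)
    exact lt_of_le_of_lt h2 ENNReal.ofReal_lt_top
  have hL2 : Tendsto L atTop (𝓝 (∫ w, g w ∂Q)) :=
    integral_tendsto_of_tendsto_of_monotone hgMi hgi (Eventually.of_forall hmono) (Eventually.of_forall hlim)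
  have hgY : g =ᵐ[Q] fun w => Y w * h (W w) := by
    filter_upwards [hY0, hW1] with w h1 h2
    simp only [g]
    rw [max_eq_left h1, hh'V _ h2]
  refine ⟨hY0, hgi.congr hgY, ?_⟩
  rw [← integral_congr_ae hgY]
  -- the tail
  have hC0 : 0 ≤ C := le_trans (setIntegral_nonneg measurableSet_Icc fun x _ => Real.rpow_nonneg (hA0 0 x) q) (hC 0)
  have htail : ∀ (M : ℕ), 1 ≤ M → ∀ k,
      |(∫ x in Icc (0:ℝ) 1, A k x * h (V k x)) - ∫ x in Icc (0:ℝ) 1, min (A k x) M * h (V k x)| ≤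
        (M:ℝ) ^ (1 - q) * (C * B) := by
    intro M hM k
    have hMp : (0:ℝ) < M := by exact_mod_cast hM
    rw [← integral_sub (iAh k) (iMh k M), abs_of_nonneg]
    · calc ∫ x in Icc (0:ℝ) 1, (A k x * h (V k x) - min (A k x) M * h (V k x))
          ≤ ∫ x in Icc (0:ℝ) 1, (M:ℝ) ^ (1 - q) * B * A k x ^ q := by
            refine setIntegral_mono_on ((iAh k).sub (iMh k M)) ((iAq k).const_mul _) measurableSet_Icc
              fun x _ => ?_
            have hB' := hBV _ (hV1 k x)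
            have h1 := hh0 (V k x)
            have hAq := Real.rpow_nonneg (hA0 k x) q
            have hMq : 0 ≤ (M:ℝ) ^ (1 - q) := Real.rpow_nonneg hMp.le _
            rcases le_total (A k x) M with h2 | h2
            · rw [min_eq_left h2, sub_self]
              positivity
            · rw [min_eq_right h2, ← sub_mul]
              have h3 : A k x ≤ (M:ℝ) ^ (1 - q) * A k x ^ q := by
                have hAp : 0 < A k x := lt_of_lt_of_le hMp h2
                have h4 : A k x ^ (1 - q) ≤ (M:ℝ) ^ (1 - q) :=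
                  Real.rpow_le_rpow_of_nonpos hMp h2 (by linarith)
                have h5 : A k x ^ (1 - q) * A k x ^ q = A k x := by
                  rw [← Real.rpow_add hAp, sub_add_cancel, Real.rpow_one]
                calc A k x = A k x ^ (1 - q) * A k x ^ q := h5.symm
                  _ ≤ _ := mul_le_mul_of_nonneg_right h4 hAq
              calc (A k x - M) * h (V k x) ≤ A k x * B :=
                    mul_le_mul (by linarith) hB' h1 (hA0 k x)
                _ ≤ (M:ℝ) ^ (1 - q) * A k x ^ q * B := mul_le_mul_of_nonneg_right h3 hB0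
                _ = _ := by ring
        _ = (M:ℝ) ^ (1 - q) * B * ∫ x in Icc (0:ℝ) 1, A k x ^ q := integral_const_mul _ _
        _ ≤ (M:ℝ) ^ (1 - q) * B * C := mul_le_mul_of_nonneg_left (hC k)
            (mul_nonneg (Real.rpow_nonneg hMp.le _) hB0)
        _ = _ := by ring
    · refine setIntegral_nonneg measurableSet_Icc fun x _ => ?_
      rw [← sub_mul]
      exact mul_nonneg (sub_nonneg.2 (min_le_left _ _)) (hh0 _)
  have hpow : Tendsto (fun M : ℕ => (M:ℝ) ^ (1 - q) * (C * B)) atTop (𝓝 0) := by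
    have h1 : Tendsto (fun M : ℕ => (M:ℝ) ^ (-(q - 1))) atTop (𝓝 0) :=
      (tendsto_rpow_neg_atTop (by linarith)).comp tendsto_natCast_atTop_atTop
    have h2 := h1.mul_const (C * B)
    rw [zero_mul, neg_sub] at h2
    exact h2
  rw [Metric.tendsto_atTop]
  intro ε hε
  have e1 := (Metric.tendsto_atTop.1 hpow) (ε / 3) (by linarith)
  have e2 := (Metric.tendsto_atTop.1 hL2) (ε / 3) (by linarith)
  obtain ⟨N1, e1⟩ := e1
  obtain ⟨N2, e2⟩ := e2
  let M : ℕ := max 1 (max N1 N2)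
  have f1 := e1 M ((le_max_left _ _).trans (le_max_right _ _))
  have f2 := e2 M ((le_max_right _ _).trans (le_max_right _ _))
  obtain ⟨K, hK⟩ := (Metric.tendsto_atTop.1 (hL M)) (ε / 3) (by linarith)
  refine ⟨K, fun k hk => ?_⟩
  have f3 := hK k hk
  have f4 := htail M (le_max_left _ _) k
  rw [Real.dist_eq] at f1 f2 f3 ⊢
  rw [sub_zero] at f1
  have f5 := le_abs_self ((M:ℝ) ^ (1 - q) * (C * B))
  have f6 : |(∫ x in Icc (0:ℝ) 1, A k x * h (V k x)) - ∫ w, g w ∂Q| ≤
      |(∫ x in Icc (0:ℝ) 1, A k x * h (V k x)) - ∫ x in Icc (0:ℝ) 1, min (A k x) M * h (V k x)| +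
      |(∫ x in Icc (0:ℝ) 1, min (A k x) M * h (V k x)) - L M| + |L M - ∫ w, g w ∂Q| := by
    have t1 := abs_sub_le (∫ x in Icc (0:ℝ) 1, A k x * h (V k x))
      (∫ x in Icc (0:ℝ) 1, min (A k x) M * h (V k x)) (∫ w, g w ∂Q)
    have t2 := abs_sub_le (∫ x in Icc (0:ℝ) 1, min (A k x) M * h (V k x)) (L M) (∫ w, g w ∂Q)
    linarith
  linarith

end Chaos
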