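import Pool.Agent.Lib.MP_9eae41_pr.Y1
import Pool.Agent.Lib.MP_9eae41_pr.TW4

set_option autoImplicit false

open Complex MeasureTheory Set Filter Topology
open scoped ComplexConjugate ENNReal

namespace CZ


open Chaos

/-! Row Y3 (350 lines): the twisted q-th moment against the chaos. -/

theorem y3_bochner {μ : Measure ℝ} (f : ℝ → ℝ) (hf0 : ∀ x, 0 ≤ f x) :
    ENNReal.ofReal (∫ x, f x ∂μ) ≤ ∫⁻ x, ENNReal.ofReal (f x) ∂μ := by
  by_cases h : Integrable f μ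
  · exact (ofReal_integral_eq_lintegral_ofReal h (Eventually.of_forall hf0)).le
  · rw [integral_undef h]
    simp

theorem y3_young {a b q : ℝ} (ha : 0 ≤ a) (hb : 0 ≤ b) (hq : 1 < q) :
    q * (a * b ^ (q - 1)) ≤ a ^ q + (q - 1) * b ^ q := by
  have hc : q.HolderConjugate (q / (q - 1)) := Real.HolderConjugate.conjExponent hq
  have h1 := Real.young_inequality_of_nonneg ha (Real.rpow_nonneg hb (q - 1)) hc
  have h2 : (b ^ (q - 1)) ^ (q / (q - 1)) = b ^ q := by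
    rw [← Real.rpow_mul hb]
    congr 1
    field_simp [(by linarith : q - 1 ≠ 0)]
  rw [h2] at h1
  have hq0 : 0 < q := by linarith
  have hq1 : 0 < q - 1 := by linarith
  have h3 : q * (a ^ q / q + b ^ q / (q / (q - 1))) = a ^ q + (q - 1) * b ^ q := by
    field_simp
  rw [← h3]
  exact mul_le_mul_of_nonneg_left h1 hq0.le

/-- bound of a function continuous on the unimodular sequences -/
theorem y3_bd (h : (ℕ → ℂ) → ℝ) (hh : ContinuousOn h {X | ∀ p, ‖X p‖ = 1}) :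
    ∃ B : ℝ, 0 ≤ B ∧ ∀ X : ℕ → ℂ, (∀ p, ‖X p‖ = 1) → |h X| ≤ B := by
  have hK : IsCompact {X : ℕ → ℂ | ∀ p, ‖X p‖ = 1} := by
    have h1 : {X : ℕ → ℂ | ∀ p, ‖X p‖ = 1} = Set.pi univ (fun _ => Metric.sphere (0 : ℂ) 1) := by
      ext X
      simp [Set.mem_pi]
    rw [h1]
    exact isCompact_univ_pi fun _ => isCompact_sphere 0 1
  obtain ⟨B, hB⟩ := hK.exists_bound_of_continuousOn hh
  refine ⟨max B 0, le_max_right _ _, fun X hX => ?_⟩
  exact (hB X hX).trans (le_max_left _ _)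

theorem y3_cont_Xt (h : (ℕ → ℂ) → ℝ) (hh : ContinuousOn h {X | ∀ p, ‖X p‖ = 1}) :
    Continuous (fun θ : Om => h (Xt θ)) :=
  hh.comp_continuous Xt_cont fun θ p => norm_Xt θ p

theorem y3_Eu_meas (S : Finset ℕ) : Measurable (fun z : ℝ × Om => Eu S (fun p => Xt z.2 p * Xp z.1 p)) := by
  unfold Eu Xt Xp ee
  fun_prop

/-- mass of f against the small density, as a function of the phases -/
noncomputable def y3U (κ : ℝ) (y : ℕ) (f : ℝ → ℝ) (X : ℕ → ℂ) : ℝ :=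
  ∫ x in Icc (0:ℝ) 1, f x * (‖Eu (pq y 0) (fun p => X p * Xp x p)‖ ^ (2 * κ) /
    ∫ θ', ‖Eu (pq y 0) (Xt θ')‖ ^ (2 * κ) ∂PT)

theorem y3_pq0 (y : ℕ) : pq y 0 = blk y 0 := by
  unfold pq
  simp [blk]

theorem y3_pos (κ : ℝ) (h0 : 0 < κ) (y : ℕ) : 0 < ∫ θ', ‖Eu (pq y 0) (Xt θ')‖ ^ (2 * κ) ∂PT := by
  rw [← y1_rotate (2 * κ) (pq y 0) 0]
  exact y1_pos (2 * κ) (by linarith) (pq y 0) (fun p hp => (Finset.mem_filter.1 hp).2) 0

theorem y3_U_nonneg (κ : ℝ) (y : ℕ) (f : ℝ → ℝ) (hf0 : ∀ x, 0 ≤ f x) (X : ℕ → ℂ) : 0 ≤ y3U κ y f X := by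
  unfold y3U
  refine integral_nonneg fun x => mul_nonneg (hf0 x) (div_nonneg (Real.rpow_nonneg (norm_nonneg _) _) ?_)
  exact integral_nonneg fun θ => Real.rpow_nonneg (norm_nonneg _) _

theorem y3_U_cont (κ : ℝ) (h0 : 0 < κ) (y : ℕ) (f : ℝ → ℝ) (hf : Continuous f) :
    ContinuousOn (y3U κ y f) {X | ∀ p, ‖X p‖ = 1} := by
  obtain ⟨c, C, hc, hC, hb⟩ := y1_Eu_bd (pq y 0) (fun p hp => (Finset.mem_filter.1 hp).2)
  have hpos := y3_pos κ h0 y
  unfold y3U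
  set D := ∫ θ', ‖Eu (pq y 0) (Xt θ')‖ ^ (2 * κ) ∂PT with hD
  have hnorm : ∀ (X : ℕ → ℂ) (x : ℝ), (∀ p, ‖X p‖ = 1) → ∀ p, ‖X p * Xp x p‖ = 1 := by
    intro X x hX p
    rw [norm_mul, hX, norm_Xp, one_mul]
  refine continuousOn_of_dominated (bound := fun x => |f x| * (C ^ (2 * κ) / D)) ?_ ?_ ?_ ?_
  · intro X _
    have h1 : Measurable (fun x : ℝ => Eu (pq y 0) (fun p => X p * Xp x p)) := by
      unfold Eu Xp
      fun_prop
    exact (hf.measurable.mul ((h1.norm.pow_const _).div_const _)).aestronglyMeasurable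
  · intro X hX
    refine Eventually.of_forall fun x => ?_
    have h2 := (hb _ (hnorm X x hX)).2
    rw [norm_mul, Real.norm_eq_abs]
    refine mul_le_mul_of_nonneg_left ?_ (abs_nonneg _)
    rw [Real.norm_of_nonneg (div_nonneg (Real.rpow_nonneg (norm_nonneg _) _) hpos.le)]
    exact div_le_div_of_nonneg_right (Real.rpow_le_rpow (norm_nonneg _) h2 (by linarith)) hpos.le
  · exact ((hf.abs.mul continuous_const).continuousOn.integrableOn_compact isCompact_Icc)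
  · refine Eventually.of_forall fun x X hX => ?_
    have h3 : ContinuousWithinAt (fun X : ℕ → ℂ => Eu (pq y 0) (fun p => X p * Xp x p))
        {X | ∀ p, ‖X p‖ = 1} X := by
      refine ContinuousAt.continuousWithinAt ?_
      unfold Eu
      refine tendsto_finsetProd _ fun p hp => ?_
      have h4 : ContinuousAt (fun X : ℕ → ℂ => 1 - X p * Xp x p * ((Real.sqrt p : ℝ) : ℂ)⁻¹) X := by
        exact continuousAt_const.sub
          (((continuous_apply p).continuousAt.mul continuousAt_const).mul continuousAt_const)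
      refine ContinuousAt.inv₀ h4 ?_
      intro h5
      have h6 : ‖X p * Xp x p * ((Real.sqrt p : ℝ) : ℂ)⁻¹‖ = 1 := by
        have : X p * Xp x p * ((Real.sqrt p : ℝ) : ℂ)⁻¹ = 1 := by linear_combination -h5
        rw [this, norm_one]
      rw [norm_mul, hnorm X x hX, one_mul, norm_inv, Complex.norm_real, Real.norm_eq_abs,
        abs_of_nonneg (Real.sqrt_nonneg _)] at h6
      have h7 : 1 < Real.sqrt p := by
        rw [Real.lt_sqrt (by norm_num)]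
        have := ((Finset.mem_filter.1 hp).2 : p.Prime).one_lt
        have h8 : (1 : ℝ) < p := by exact_mod_cast this
        linarith
      have h9 : (Real.sqrt p)⁻¹ < 1 := inv_lt_one_of_one_lt₀ h7
      linarith
    have h4 : ContinuousWithinAt (fun X : ℕ → ℂ => ‖Eu (pq y 0) (fun p => X p * Xp x p)‖ ^ (2 * κ))
        {X | ∀ p, ‖X p‖ = 1} X := h3.norm.rpow_const (Or.inr (by linarith))
    exact continuousWithinAt_const.mul (h4.div_const _)

theorem y3_U_dep (κ : ℝ) (y : ℕ) (f : ℝ → ℝ) (X Y : ℕ → ℂ) (h : ∀ p ∈ blk y 0, X p = Y p) :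
    y3U κ y f X = y3U κ y f Y := by
  unfold y3U
  have h1 : ∀ x : ℝ, Eu (pq y 0) (fun p => X p * Xp x p) = Eu (pq y 0) (fun p => Y p * Xp x p) := by
    intro x
    unfold Eu
    refine Finset.prod_congr rfl fun p hp => ?_
    rw [y3_pq0] at hp
    simp only [h p hp]
  simp only [h1]

/-- the integral over x of the predicted ratio is the mean of the product with the mass -/
theorem y3_RR (κ : ℝ) (h0 : 0 < κ) (y : ℕ) (f : ℝ → ℝ) (hf : Continuous f) (h : (ℕ → ℂ) → ℝ)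
    (hh : ContinuousOn h {X | ∀ p, ‖X p‖ = 1}) :
    ∫ x in Icc (0:ℝ) 1, f x * RR κ y h x = ∫ θ, y3U κ y f (Xt θ) * h (Xt θ) ∂PT := by
  have hPT : IsProbabilityMeasure PT := PT_prob
  obtain ⟨c, C, hc, hC, hb⟩ := y1_Eu_bd (pq y 0) (fun p hp => (Finset.mem_filter.1 hp).2)
  obtain ⟨B, hB0, hB⟩ := y3_bd h hh
  have hpos := y3_pos κ h0 y
  have hD : ∀ x : ℝ, ∫ θ, ‖Eu (blk y 0) (fun p => Xt θ p * Xp x p)‖ ^ (2 * κ) ∂PT =
      ∫ θ', ‖Eu (pq y 0) (Xt θ')‖ ^ (2 * κ) ∂PT := by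
    intro x
    rw [y1_rotate (2 * κ) (blk y 0) x, y3_pq0]
  unfold y3U
  obtain ⟨D, hDD⟩ : ∃ D, D = ∫ θ', ‖Eu (pq y 0) (Xt θ')‖ ^ (2 * κ) ∂PT := ⟨_, rfl⟩
  rw [← hDD] at hpos
  simp only [← hDD] at hD ⊢
  have e1 : ∀ x : ℝ, f x * RR κ y h x =
      ∫ θ, f x * (‖Eu (pq y 0) (fun p => Xt θ p * Xp x p)‖ ^ (2 * κ) / D) * h (Xt θ) ∂PT := by
    intro x
    unfold RR
    rw [hD, ← integral_div, ← integral_const_mul, y3_pq0]
    refine integral_congr_ae (Eventually.of_forall fun θ => ?_)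
    change f x * (‖Eu (blk y 0) (fun p => Xt θ p * Xp x p)‖ ^ (2 * κ) * h (Xt θ) / D) =
      f x * (‖Eu (blk y 0) (fun p => Xt θ p * Xp x p)‖ ^ (2 * κ) / D) * h (Xt θ)
    ring
  simp only [e1]
  have e2 : ∀ θ : Om, (∫ x in Icc (0:ℝ) 1, f x * (‖Eu (pq y 0) (fun p => Xt θ p * Xp x p)‖ ^ (2 * κ) / D)) * h (Xt θ) =
      ∫ x in Icc (0:ℝ) 1, f x * (‖Eu (pq y 0) (fun p => Xt θ p * Xp x p)‖ ^ (2 * κ) / D) * h (Xt θ) := by
    intro θ
    rw [integral_mul_const]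
  simp only [e2]
  refine integral_integral_swap ?_
  have hm : Measurable (fun z : ℝ × Om => f z.1 * (‖Eu (pq y 0) (fun p => Xt z.2 p * Xp z.1 p)‖ ^ (2 * κ) / D) *
      h (Xt z.2)) :=
    ((hf.measurable.comp measurable_fst).mul (((y3_Eu_meas (pq y 0)).norm.pow_const _).div_const _)).mul
      ((y3_cont_Xt h hh).measurable.comp measurable_snd)
  have hg : Integrable (fun z : ℝ × Om => (|f z.1| * (C ^ (2 * κ) / D)) * B)
      ((volume.restrict (Icc (0:ℝ) 1)).prod PT) := by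
    have hg1 : Integrable (fun x : ℝ => (|f x| * (C ^ (2 * κ) / D)) * B) (volume.restrict (Icc (0:ℝ) 1)) :=
      (((hf.abs.mul continuous_const).mul continuous_const).continuousOn.integrableOn_compact isCompact_Icc)
    exact hg1.comp_fst PT
  refine hg.mono' hm.aestronglyMeasurable (Eventually.of_forall fun z => ?_)
  have h2 := (hb _ (y1_rot_norm z.2 z.1)).2
  change ‖f z.1 * (‖Eu (pq y 0) (fun p => Xt z.2 p * Xp z.1 p)‖ ^ (2 * κ) / D) * h (Xt z.2)‖ ≤ _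
  rw [norm_mul, norm_mul, Real.norm_eq_abs (f z.1),
    Real.norm_of_nonneg (div_nonneg (Real.rpow_nonneg (norm_nonneg _) _) hpos.le)]
  refine mul_le_mul ?_ (hB _ (norm_Xt z.2)) (norm_nonneg _) ?_
  · refine mul_le_mul_of_nonneg_left ?_ (abs_nonneg _)
    exact div_le_div_of_nonneg_right (Real.rpow_le_rpow (norm_nonneg _) h2 (by linarith)) hpos.le
  · have : 0 ≤ C ^ (2 * κ) / D := div_nonneg (Real.rpow_nonneg hC.le _) hpos.le
    positivity

/-- Jensen: tangent line of u^q, with rm_limit for the weight u^(q-1) h, u = int f dn (a continuous function of the small phases) -/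
theorem jensen_q (κ q : ℝ) (h0 : 0 < κ) (h1 : κ < 1) (hq1 : 1 < q) : ∃ y0 : ℕ, 100 ≤ y0 ∧ ∀ y : ℕ, y0 ≤ y →
    ∀ h : (ℕ → ℂ) → ℝ, ContinuousOn h {X | ∀ p, ‖X p‖ = 1} → (∀ X, (∀ p, ‖X p‖ = 1) → 0 ≤ h X) →
    (∀ X Y : ℕ → ℂ, (∀ p ∈ blk y 0, X p = Y p) → h X = h Y) →
    ∀ f : ℝ → ℝ, Continuous f → (∀ x, 0 ≤ f x) → ∀ Lam : Om → ℝ,
    (∀ᵐ θ ∂PT, Tendsto (fun n : ℕ => ∫ x in Icc (0:ℝ) 1, f x * dn κ y n θ x) atTop (𝓝 (Lam θ))) →
    ENNReal.ofReal (∫ θ, (∫ x in Icc (0:ℝ) 1, f x * dn κ y 0 θ x) ^ q * h (Xt θ) ∂PT) ≤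
      ∫⁻ θ, ENNReal.ofReal (Lam θ) ^ q * ENNReal.ofReal (h (Xt θ)) ∂PT := by
  obtain ⟨y0, hy0, hlim⟩ := rm_limit κ h0 h1
  refine ⟨y0, hy0, fun y hy h hh hh0 hd f hf hf0 Lam hconv => ?_⟩
  have hPT : IsProbabilityMeasure PT := PT_prob
  have hq0 : 0 < q := by linarith
  have hUc := y3_U_cont κ h0 y f hf
  have hU0 := y3_U_nonneg κ y f hf0
  -- the weight
  obtain ⟨h', hh'⟩ : ∃ h' : (ℕ → ℂ) → ℝ, h' = fun X => y3U κ y f X ^ (q - 1) * h X := ⟨_, rfl⟩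
  have hc' : ContinuousOn h' {X | ∀ p, ‖X p‖ = 1} := by
    rw [hh']
    exact (hUc.rpow_const fun X _ => Or.inr (by linarith)).mul hh
  have h0' : ∀ X, (∀ p, ‖X p‖ = 1) → 0 ≤ h' X := by
    intro X hX
    rw [hh']
    exact mul_nonneg (Real.rpow_nonneg (hU0 X) _) (hh0 X hX)
  have hd' : ∀ X Y : ℕ → ℂ, (∀ p ∈ blk y 0, X p = Y p) → h' X = h' Y := by
    intro X Y hXY
    rw [hh']
    simp only
    rw [y3_U_dep κ y f X Y hXY, hd X Y hXY]
  obtain ⟨hI, hE⟩ := hlim y hy h' hc' h0' hd' f hf hf0 Lam hconv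
  rw [y3_RR κ h0 y f hf h' hc'] at hE
  -- mass
  have hmass : ∀ θ : Om, ∫ x in Icc (0:ℝ) 1, f x * dn κ y 0 θ x = y3U κ y f (Xt θ) := fun θ => rfl
  simp only [hmass]
  have hJ : ∀ θ : Om, y3U κ y f (Xt θ) * h' (Xt θ) = y3U κ y f (Xt θ) ^ q * h (Xt θ) := by
    intro θ
    rw [hh']
    have e1 : y3U κ y f (Xt θ) ^ q = y3U κ y f (Xt θ) ^ (q - 1) * y3U κ y f (Xt θ) := by
      rw [← Real.rpow_add_one' (hU0 _) (by linarith)]
      congr 1
      ring
    rw [e1]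
    ring
  simp only [hJ] at hE
  obtain ⟨J, hJJ⟩ : ∃ J, J = ∫ θ, y3U κ y f (Xt θ) ^ q * h (Xt θ) ∂PT := ⟨_, rfl⟩
  rw [← hJJ] at hE ⊢
  have hcU : Continuous (fun θ : Om => y3U κ y f (Xt θ)) := y3_cont_Xt _ hUc
  have hcUq : Continuous (fun θ : Om => y3U κ y f (Xt θ) ^ q * h (Xt θ)) :=
    (hcU.rpow_const fun θ => Or.inr hq0.le).mul (y3_cont_Xt h hh)
  have hUq0 : ∀ θ : Om, 0 ≤ y3U κ y f (Xt θ) ^ q * h (Xt θ) := fun θ =>
    mul_nonneg (Real.rpow_nonneg (hU0 _) _) (hh0 _ (norm_Xt θ))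
  have hJ0 : 0 ≤ J := by
    rw [hJJ]
    exact integral_nonneg hUq0
  have hint : Integrable (fun θ : Om => y3U κ y f (Xt θ) ^ q * h (Xt θ)) PT := by
    have hc2 : ContinuousOn (fun X : ℕ → ℂ => y3U κ y f X ^ q * h X) {X | ∀ p, ‖X p‖ = 1} :=
      (hUc.rpow_const fun X _ => Or.inr hq0.le).mul hh
    obtain ⟨B, hB0, hB⟩ := y3_bd _ hc2
    exact Integrable.of_bound hcUq.aestronglyMeasurable B
      (Eventually.of_forall fun θ => hB (Xt θ) (norm_Xt θ))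
  have hLam0 : ∀ᵐ θ ∂PT, 0 ≤ Lam θ := by
    filter_upwards [hconv] with θ hθ
    refine ge_of_tendsto' hθ fun n => ?_
    refine integral_nonneg fun x => mul_nonneg (hf0 x) ?_
    unfold dn
    exact div_nonneg (Real.rpow_nonneg (norm_nonneg _) _)
      (integral_nonneg fun θ => Real.rpow_nonneg (norm_nonneg _) _)
  -- pointwise
  have hpt : ∀ᵐ θ ∂PT, ENNReal.ofReal (q * (Lam θ * h' (Xt θ))) ≤
      ENNReal.ofReal (Lam θ) ^ q * ENNReal.ofReal (h (Xt θ)) +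
        ENNReal.ofReal ((q - 1) * (y3U κ y f (Xt θ) ^ q * h (Xt θ))) := by
    filter_upwards [hLam0] with θ hθ
    rw [ENNReal.ofReal_rpow_of_nonneg hθ hq0.le, ← ENNReal.ofReal_mul (Real.rpow_nonneg hθ _),
      ← ENNReal.ofReal_add (mul_nonneg (Real.rpow_nonneg hθ _) (hh0 _ (norm_Xt θ)))
        (mul_nonneg (by linarith) (hUq0 θ))]
    refine ENNReal.ofReal_le_ofReal ?_
    have hy := y3_young hθ (hU0 (Xt θ)) hq1
    rw [hh']
    have := mul_le_mul_of_nonneg_right hy (hh0 _ (norm_Xt θ))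
    calc q * (Lam θ * (y3U κ y f (Xt θ) ^ (q - 1) * h (Xt θ)))
        = q * (Lam θ * y3U κ y f (Xt θ) ^ (q - 1)) * h (Xt θ) := by ring
      _ ≤ (Lam θ ^ q + (q - 1) * y3U κ y f (Xt θ) ^ q) * h (Xt θ) := this
      _ = _ := by ring
  have hA := lintegral_mono_ae hpt
  have hm2 : AEMeasurable (fun θ : Om => ENNReal.ofReal ((q - 1) * (y3U κ y f (Xt θ) ^ q * h (Xt θ)))) PT :=
    (continuous_const.mul hcUq).measurable.ennreal_ofReal.aemeasurable
  rw [lintegral_add_right' _ hm2,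
    ← ofReal_integral_eq_lintegral_ofReal (hI.const_mul q) (by
      filter_upwards [hLam0] with θ hθ
      exact mul_nonneg hq0.le (mul_nonneg hθ (h0' _ (norm_Xt θ)))),
    ← ofReal_integral_eq_lintegral_ofReal (hint.const_mul (q - 1))
      (Eventually.of_forall fun θ => mul_nonneg (by linarith) (hUq0 θ)),
    integral_const_mul, integral_const_mul, hE, ← hJJ] at hA
  have hB : ENNReal.ofReal (q * J) = ENNReal.ofReal J + ENNReal.ofReal ((q - 1) * J) := by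
    rw [← ENNReal.ofReal_add hJ0 (mul_nonneg (by linarith) hJ0)]
    congr 1
    ring
  rw [hB] at hA
  exact (ENNReal.add_le_add_iff_right ENNReal.ofReal_ne_top).1 hA

/-! ### the measures of the zeta function, with a test function and a twist -/

/-- change of variables t = om T -/
theorem y3_cov (F : ℝ → ℝ≥0∞) {T : ℝ} (hT0 : 0 < T) :
    ENNReal.ofReal T⁻¹ * ∫⁻ t in Icc (0:ℝ) T, F t = ∫⁻ om in Icc (0:ℝ) 1, F (om * T) := by
  have h4 := Real.smul_map_volume_mul_right hT0.ne'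
  have h5 : ∫⁻ t in Icc (0:ℝ) T, F t = ENNReal.ofReal T * ∫⁻ om in Icc (0:ℝ) 1, F (om * T) := by
    have h6 : MeasurableEmbedding (fun x : ℝ => x * T) :=
      (Homeomorph.mulRight₀ T hT0.ne').measurableEmbedding
    calc ∫⁻ t in Icc (0:ℝ) T, F t
        = ∫⁻ t in Icc (0:ℝ) T, F t ∂(ENNReal.ofReal |T| • Measure.map (· * T) volume) := by rw [h4]
      _ = ENNReal.ofReal T * ∫⁻ t in Icc (0:ℝ) T, F t ∂(Measure.map (· * T) volume) := by
          rw [Measure.restrict_smul, lintegral_smul_measure, abs_of_pos hT0, smul_eq_mul]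
      _ = ENNReal.ofReal T * ∫⁻ om in Icc (0:ℝ) 1, F (om * T) := by
          rw [h6.restrict_map, h6.lintegral_map]
          congr 3
          ext x
          simp only [mem_preimage, mem_Icc]
          constructor
          · rintro ⟨a, b⟩
            exact ⟨by
              by_contra hneg
              push Not at hneg
              nlinarith, by
              by_contra hneg
              push Not at hneg
              nlinarith⟩
          · rintro ⟨a, b⟩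
            exact ⟨by positivity, by nlinarith⟩
  rw [h5, ← mul_assoc, ← ENNReal.ofReal_mul (inv_nonneg.2 hT0.le), inv_mul_cancel₀ hT0.ne',
    ENNReal.ofReal_one, one_mul]

theorem y3_nu (β : ℝ) {T : ℝ} (hT : 2 ≤ T) {m : ℕ} (h : (Fin m → ℂ) → ℝ) (f : ℝ → ℝ) (hf : Continuous f)
    (q : ℝ) (hq : 0 < q) :
    ∫⁻ om in Icc (0:ℝ) 1, (∫⁻ x, ENNReal.ofReal (f x) ∂(nu β T om)) ^ q * ENNReal.ofReal (h (ph m T om)) =
      ENNReal.ofReal (Real.log T ^ (-(β / 2) ^ 2 * q)) * (ENNReal.ofReal T⁻¹ *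
        ∫⁻ t in Icc (0:ℝ) T, (∫⁻ x in Icc (0:ℝ) 1, ENNReal.ofReal (f x * Z (t + x) ^ (2 * (β / 2)))) ^ q *
          ENNReal.ofReal (h (fun j => Xp t (pr j)))) := by
  have hL : 0 ≤ Real.log T ^ (-(β / 2) ^ 2) := Real.rpow_nonneg (y1_logT hT) _
  have h1 : ∀ om : ℝ, (∫⁻ x, ENNReal.ofReal (f x) ∂(nu β T om)) ^ q * ENNReal.ofReal (h (ph m T om)) =
      ENNReal.ofReal (Real.log T ^ (-(β / 2) ^ 2 * q)) *
        ((∫⁻ x in Icc (0:ℝ) 1, ENNReal.ofReal (f x * Z (om * T + x) ^ (2 * (β / 2)))) ^ q *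
          ENNReal.ofReal (h (fun j => Xp (om * T) (pr j)))) := by
    intro om
    rw [y1_dens, lintegral_withDensity_eq_lintegral_mul _
      (((y1_Z_meas _ _).const_mul _).ennreal_ofReal) hf.measurable.ennreal_ofReal, y1_ph]
    have e1 : ∀ x : ℝ, ((fun x => ENNReal.ofReal (Real.log T ^ (-(β / 2) ^ 2) * Z (om * T + x) ^ (2 * (β / 2)))) *
        fun x => ENNReal.ofReal (f x)) x =
        ENNReal.ofReal (Real.log T ^ (-(β / 2) ^ 2)) * ENNReal.ofReal (f x * Z (om * T + x) ^ (2 * (β / 2))) := by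
      intro x
      rw [Pi.mul_apply, ENNReal.ofReal_mul hL, mul_assoc, ← ENNReal.ofReal_mul
        (Real.rpow_nonneg (y1_Z_nonneg _) _), mul_comm (f x)]
    simp only [e1]
    rw [lintegral_const_mul' _ _ ENNReal.ofReal_ne_top, ENNReal.mul_rpow_of_nonneg _ _ hq.le,
      ENNReal.ofReal_rpow_of_nonneg hL hq.le, ← Real.rpow_mul (y1_logT hT), mul_assoc]
  simp only [h1]
  rw [lintegral_const_mul' _ _ ENNReal.ofReal_ne_top]
  congr 1
  exact (y3_cov (fun t => (∫⁻ x in Icc (0:ℝ) 1, ENNReal.ofReal (f x * Z (t + x) ^ (2 * (β / 2)))) ^ q *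
          ENNReal.ofReal (h (fun j => Xp t (pr j)))) (by linarith : (0:ℝ) < T)).symm

/-- limsup of the twisted q-th moments of nu is at most C times the twisted q-th moment of the chaos; y to infinity for fixed f, h -/
theorem nu_q (β q : ℝ) (h0 : 0 < β) (h2 : β < 2) (hq1 : 1 < q) (hq2 : q < 2) (hβq : β / 2 * q < 1) :
    ∃ C : ℝ, 0 < C ∧ ∀ lam : (ℕ → ℂ) → Measure ℝ, IsChaos β lam → ∀ f : ℝ → ℝ, Continuous f → (∀ x, 0 < f x) →
    ∀ (m : ℕ) (h : (Fin m → ℂ) → ℝ), Continuous h → (∀ X, 0 ≤ h X) → ∀ ε : ℝ, 0 < ε → ∀ᶠ T : ℝ in atTop,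
    ∫⁻ om in Icc (0:ℝ) 1, (∫⁻ x, ENNReal.ofReal (f x) ∂(nu β T om)) ^ q * ENNReal.ofReal (h (ph m T om)) ≤
      ENNReal.ofReal C * (∫⁻ θ, (∫⁻ x, ENNReal.ofReal (f x) ∂(lam (ptI θ))) ^ q * ENNReal.ofReal (h (pt m θ)) ∂P) +
        ENNReal.ofReal ε := by
  have hκ0 : 0 < β / 2 := by linarith
  have hκ1 : β / 2 < 1 := by linarith
  obtain ⟨C, y1, hC, hy1, hfin⟩ := fin_q (β / 2) q hκ0 hκ1 hq1 hq2 hβq
  obtain ⟨y2, hy2, hjen⟩ := jensen_q (β / 2) q hκ0 hκ1 hq1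
  have hq0 : 0 < q := by linarith
  refine ⟨C, hC, fun lam hlam f hf hf0 m h hh hh0 ε hε => ?_⟩
  have hf0' : ∀ x, 0 ≤ f x := fun x => (hf0 x).le
  -- bounds
  obtain ⟨Bf, hBf⟩ : ∃ Bf : ℝ, ∀ x ∈ Icc (0:ℝ) 1, f x ≤ Bf := by
    obtain ⟨B, hB⟩ := isCompact_Icc.exists_bound_of_continuousOn (s := Icc (0:ℝ) 1) hf.continuousOn
    exact ⟨B, fun x hx => (le_abs_self _).trans (hB x hx)⟩
  have hBf0 : 0 ≤ Bf := (hf0 0).le.trans (hBf 0 (by simp))
  obtain ⟨hC2, hhC2⟩ : ∃ hC2 : (ℕ → ℂ) → ℝ, hC2 = fun X => h (fun j => X (pr j)) := ⟨_, rfl⟩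
  have hcont : Continuous hC2 := by
    rw [hhC2]
    exact hh.comp (continuous_pi fun j => continuous_apply (pr j))
  obtain ⟨Bh, hBh0, hBh⟩ := y3_bd hC2 hcont.continuousOn
  -- choice of y
  have hexp : 0 < -((q - 1) * ((β / 2) ^ 2 * q - 1)) := by
    have e1 : (β / 2) ^ 2 * q < 1 := by nlinarith
    nlinarith
  have hlim : Tendsto (fun y : ℕ => C * (Bf ^ q * Bh * Real.log y ^ ((q - 1) * ((β / 2) ^ 2 * q - 1)))) atTop (𝓝 0) := by
    have e1 : Tendsto (fun y : ℕ => Real.log (y : ℝ)) atTop atTop :=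
      Real.tendsto_log_atTop.comp tendsto_natCast_atTop_atTop
    have e2 := (tendsto_rpow_neg_atTop hexp).comp e1
    have e3 : Tendsto (fun y : ℕ => C * (Bf ^ q * Bh * Real.log (y : ℝ) ^ (-(-((q - 1) * ((β / 2) ^ 2 * q - 1)))))) atTop
        (𝓝 (C * (Bf ^ q * Bh * 0))) := (e2.const_mul _).const_mul _
    simpa only [neg_neg, mul_zero] using e3
  obtain ⟨y, hyl, hy⟩ := ((hlim.eventually (gt_mem_nhds (by positivity : (0:ℝ) < ε / 2))).and
    (eventually_ge_atTop (max (max y1 y2) (pr m)))).exists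
  have hyy1 : y1 ≤ y := ((le_max_left _ _).trans (le_max_left _ _)).trans hy
  have hyy2 : y2 ≤ y := ((le_max_right _ _).trans (le_max_left _ _)).trans hy
  have hym : pr m ≤ y := (le_max_right _ _).trans hy
  have hm : ∀ j : ℕ, j < m → pr j ≤ y := by
    intro j hj
    have h3 : pr j ≤ pr m := (Nat.nth_strictMono Nat.infinite_setOfPred_prime).monotone hj.le
    exact h3.trans hym
  have hdep : ∀ X Y : ℕ → ℂ, (∀ p ∈ blk y 0, X p = Y p) → hC2 X = hC2 Y := by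
    intro X Y hXY
    rw [hhC2]
    have e3 : (fun j : Fin m => X (pr j)) = fun j : Fin m => Y (pr j) := by
      funext j
      apply hXY
      change pr j ∈ (Finset.range (y + 1)).filter Nat.Prime
      rw [Finset.mem_filter, Finset.mem_range]
      exact ⟨Nat.lt_succ_of_le (hm j j.2), y1_pr_prime j⟩
    simp only [e3]
  have hC20 : ∀ X : ℕ → ℂ, (∀ p, ‖X p‖ = 1) → 0 ≤ hC2 X := by
    intro X _
    rw [hhC2]
    exact hh0 _
  obtain ⟨T0, hT03, hT0⟩ := hfin y hyy1 hC2 hcont.continuousOn hC20 hdep f hf hf0 Bf Bh hBf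
    (fun X hX => (le_abs_self _).trans (hBh X hX)) (ε / 2) (by positivity)
  -- the chaos
  have hconv : ∀ᵐ θ ∂P, Tendsto (fun N : ℕ => ∫ x, f x ∂(lamN β N θ)) atTop
      (𝓝 (∫ x, f x ∂(lam (ptI θ)))) := by
    filter_upwards [hlam] with θ hθ
    exact hθ.2 f hf
  have hmeas : AEStronglyMeasurable (fun θ => ∫ x, f x ∂(lam (ptI θ))) P :=
    aestronglyMeasurable_of_tendsto_ae atTop
      (fun N => (y1_int_meas β N f hf).aestronglyMeasurable) hconv
  have hconv2 : ∀ᵐ θ ∂PT, Tendsto (fun n : ℕ => ∫ x in Icc (0:ℝ) 1, f x * dn (β / 2) y n θ x)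
      atTop (𝓝 (∫ x, f x ∂(lam (ptI (y1s θ))))) := by
    have e2 := y1_s.quasiMeasurePreserving.ae hconv
    filter_upwards [e2] with θ hθ
    simp only [y1_dn]
    exact hθ.comp (y1_tend y (by omega))
  have hJ := hjen y hyy2 hC2 hcont.continuousOn hC20 hdep f hf hf0'
    (fun θ => ∫ x, f x ∂(lam (ptI (y1s θ)))) hconv2
  obtain ⟨J, hJJ⟩ : ∃ J, J = ∫ θ, (∫ x in Icc (0:ℝ) 1, f x * dn (β / 2) y 0 θ x) ^ q * hC2 (Xt θ) ∂PT := ⟨_, rfl⟩
  rw [← hJJ] at hJ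
  have hJle : ENNReal.ofReal J ≤
      ∫⁻ θ, (∫⁻ x, ENNReal.ofReal (f x) ∂(lam (ptI θ))) ^ q * ENNReal.ofReal (h (pt m θ)) ∂P := by
    refine hJ.trans ?_
    have e1 : AEMeasurable (fun θ => ENNReal.ofReal (∫ x, f x ∂(lam (ptI θ))) ^ q * ENNReal.ofReal (h (pt m θ)))
        (Measure.map y1s PT) := by
      rw [y1_s.map_eq]
      exact (hmeas.aemeasurable.ennreal_ofReal.pow_const q).mul
        (hh.measurable.comp (y1_pt_meas m)).ennreal_ofReal.aemeasurable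
    have e2 := lintegral_map' e1 y1_meas_s.aemeasurable
    rw [y1_s.map_eq] at e2
    have e3 : ∫⁻ θ, ENNReal.ofReal (∫ x, f x ∂(lam (ptI (y1s θ)))) ^ q * ENNReal.ofReal (hC2 (Xt θ)) ∂PT =
        ∫⁻ θ, ENNReal.ofReal (∫ x, f x ∂(lam (ptI θ))) ^ q * ENNReal.ofReal (h (pt m θ)) ∂P := by
      rw [e2]
      refine lintegral_congr fun θ => ?_
      rw [hhC2, y1_pt]
    rw [e3]
    refine lintegral_mono fun θ => ?_
    refine mul_le_mul_left ?_ _
    exact ENNReal.rpow_le_rpow (y3_bochner f hf0') hq0.le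
  have hJ0 : 0 ≤ J := by
    rw [hJJ]
    refine integral_nonneg fun θ => mul_nonneg (Real.rpow_nonneg ?_ _) (hC20 _ (norm_Xt θ))
    refine integral_nonneg fun x => mul_nonneg (hf0' x) ?_
    unfold dn
    exact div_nonneg (Real.rpow_nonneg (norm_nonneg _) _)
      (integral_nonneg fun θ => Real.rpow_nonneg (norm_nonneg _) _)
  filter_upwards [eventually_ge_atTop T0] with T hT
  have hT2 : 2 ≤ T := by linarith
  rw [y3_nu β hT2 h f hf q hq0]
  have e4 := hT0 T hT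
  rw [hhC2] at e4
  refine (mul_le_mul_right e4 _).trans ?_
  have hlog : 0 < Real.log T := Real.log_pos (by linarith)
  rw [← ENNReal.ofReal_mul (Real.rpow_nonneg hlog.le _), ← mul_assoc, ← Real.rpow_add hlog]
  have e5 : -(β / 2) ^ 2 * q + (β / 2) ^ 2 * q = 0 := by ring
  rw [e5, Real.rpow_zero, one_mul, ← hhC2, ← hJJ]
  calc ENNReal.ofReal (C * (J + Bf ^ q * Bh * Real.log y ^ ((q - 1) * ((β / 2) ^ 2 * q - 1))) + ε / 2)
      ≤ ENNReal.ofReal (C * J + ε) := by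
        refine ENNReal.ofReal_le_ofReal ?_
        have : C * (Bf ^ q * Bh * Real.log y ^ ((q - 1) * ((β / 2) ^ 2 * q - 1))) < ε / 2 := hyl
        linarith [mul_add C J (Bf ^ q * Bh * Real.log y ^ ((q - 1) * ((β / 2) ^ 2 * q - 1)))]
    _ = ENNReal.ofReal C * ENNReal.ofReal J + ENNReal.ofReal ε := by
        rw [ENNReal.ofReal_add (mul_nonneg hC.le hJ0) hε.le, ENNReal.ofReal_mul hC.le]
    _ ≤ _ := by
        refine add_le_add_left ?_ _
        exact mul_le_mul_right hJle _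

/-! ### the chaos -/

theorem y3_supp (β : ℝ) (lam : (ℕ → ℂ) → Measure ℝ) (hlam : IsChaos β lam) :
    ∀ᵐ θ ∂P, lam (ptI θ) (Icc 0 1)ᶜ = 0 := by
  obtain ⟨g, hg⟩ : ∃ g : ℝ → ℝ, g = fun x => min 1 (Metric.infDist x (Icc (0:ℝ) 1)) := ⟨_, rfl⟩
  have hgc : Continuous g := by
    rw [hg]
    exact continuous_const.min (Metric.continuous_infDist_pt _)
  have hg0 : ∀ x, 0 ≤ g x := by
    intro x
    rw [hg]
    exact le_min zero_le_one Metric.infDist_nonneg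
  have hg1 : ∀ x, g x ≤ 1 := by
    intro x
    rw [hg]
    exact min_le_left _ _
  have hgz : ∀ x, g x = 0 ↔ x ∈ Icc (0:ℝ) 1 := by
    intro x
    rw [isClosed_Icc.mem_iff_infDist_zero ⟨0, by simp⟩, hg]
    simp only
    constructor
    · intro h
      rcases min_choice 1 (Metric.infDist x (Icc (0:ℝ) 1)) with h1 | h1
      · rw [h1] at h
        norm_num at h
      · rwa [h1] at h
    · intro h
      rw [h]
      simp
  filter_upwards [hlam] with θ hθ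
  obtain ⟨hfin, hlim⟩ := hθ
  have h1 := hlim g hgc
  have h2 : ∀ N : ℕ, ∫ x, g x ∂(lamN β N θ) = 0 := by
    intro N
    rw [y1_lam_int]
    refine (setIntegral_congr_fun measurableSet_Icc (g := fun _ => (0:ℝ)) fun x hx => ?_).trans (by simp)
    simp only [(hgz x).2 hx, zero_mul]
  simp only [h2] at h1
  have h3 : ∫ x, g x ∂(lam (ptI θ)) = 0 := (tendsto_nhds_unique h1 tendsto_const_nhds)
  have h4 : Integrable g (lam (ptI θ)) := by
    refine Integrable.of_bound hgc.aestronglyMeasurable 1 (Eventually.of_forall fun x => ?_)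
    rw [Real.norm_of_nonneg (hg0 x)]
    exact hg1 x
  have h5 := (integral_eq_zero_iff_of_nonneg hg0 h4).1 h3
  have h6 : ∀ᵐ x ∂(lam (ptI θ)), x ∈ Icc (0:ℝ) 1 := by
    filter_upwards [h5] with x hx
    exact (hgz x).1 hx
  exact h6

theorem y3_int {μ : Measure ℝ} [IsFiniteMeasure μ] (h : μ (Icc 0 1)ᶜ = 0) (f : ℝ → ℝ) (hf : Continuous f) :
    Integrable f μ := by
  have h1 : μ.restrict (Icc 0 1) = μ := Measure.restrict_eq_self_of_ae_mem h
  have h2 : IntegrableOn f (Icc 0 1) μ := hf.continuousOn.integrableOn_compact isCompact_Icc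
  unfold IntegrableOn at h2
  rwa [h1] at h2

theorem y3_L (β : ℝ) (lam : (ℕ → ℂ) → Measure ℝ) (hlam : IsChaos β lam) :
    ∀ᵐ θ ∂P, ∀ f : ℝ → ℝ, Continuous f → (∀ x, 0 ≤ f x) →
      ∫⁻ x, ENNReal.ofReal (f x) ∂(lam (ptI θ)) = ENNReal.ofReal (∫ x, f x ∂(lam (ptI θ))) := by
  filter_upwards [hlam, y3_supp β lam hlam] with θ h1 h2 f hf hf0
  have h3 := h1.1
  exact (ofReal_integral_eq_lintegral_ofReal (y3_int h2 f hf) (Eventually.of_forall hf0)).symm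

theorem y3_conv (β : ℝ) (lam : (ℕ → ℂ) → Measure ℝ) (hlam : IsChaos β lam) (f : ℝ → ℝ) (hf : Continuous f) :
    ∀ᵐ θ ∂P, Tendsto (fun N : ℕ => ∫ x, f x ∂(lamN β N θ)) atTop (𝓝 (∫ x, f x ∂(lam (ptI θ)))) := by
  filter_upwards [hlam] with θ hθ
  exact hθ.2 f hf

theorem y3_lam_meas (β : ℝ) (lam : (ℕ → ℂ) → Measure ℝ) (hlam : IsChaos β lam) (f : ℝ → ℝ) (hf : Continuous f) :
    AEStronglyMeasurable (fun θ => ∫ x, f x ∂(lam (ptI θ))) P :=
  aestronglyMeasurable_of_tendsto_ae atTop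
    (fun N => (y1_int_meas β N f hf).aestronglyMeasurable) (y3_conv β lam hlam f hf)

theorem y3_conv2 (β : ℝ) (lam : (ℕ → ℂ) → Measure ℝ) (hlam : IsChaos β lam) (f : ℝ → ℝ) (hf : Continuous f)
    (y : ℕ) (hy : 2 ≤ y) :
    ∀ᵐ θ ∂PT, Tendsto (fun n : ℕ => ∫ x in Icc (0:ℝ) 1, f x * dn (β / 2) y n θ x)
      atTop (𝓝 (∫ x, f x ∂(lam (ptI (y1s θ))))) := by
  have e2 := y1_s.quasiMeasurePreserving.ae (y3_conv β lam hlam f hf)
  filter_upwards [e2] with θ hθ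
  simp only [y1_dn]
  exact hθ.comp (y1_tend y hy)

/-- moment of the total mass -/
theorem y3_mom (β : ℝ) (lam : (ℕ → ℂ) → Measure ℝ) (hlam : IsChaos β lam) (q C : ℝ) (hq : 0 < q) (y : ℕ) (hy : 2 ≤ y)
    (hM : ∀ n : ℕ, ∫⁻ θ, (∫⁻ x in Icc (0:ℝ) 1, ENNReal.ofReal (dn (β / 2) y n θ x)) ^ q ∂PT ≤ ENNReal.ofReal C) :
    ∫⁻ θ, lam (ptI θ) univ ^ q ∂P ≤ ENNReal.ofReal C := by
  have h1 : ∫⁻ θ, lam (ptI θ) univ ^ q ∂P = ∫⁻ θ, ENNReal.ofReal (∫ x, (1:ℝ) ∂(lam (ptI θ))) ^ q ∂P := by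
    refine lintegral_congr_ae ?_
    filter_upwards [y3_L β lam hlam] with θ hθ
    have h2 := hθ (fun _ => 1) continuous_const (fun _ => zero_le_one)
    rw [← h2]
    simp
  have hme := (y3_lam_meas β lam hlam (fun _ => 1) continuous_const).aemeasurable.ennreal_ofReal.pow_const q
  have h3 : ∫⁻ θ, ENNReal.ofReal (∫ x, (1:ℝ) ∂(lam (ptI θ))) ^ q ∂P =
      ∫⁻ θ, ENNReal.ofReal (∫ x, (1:ℝ) ∂(lam (ptI (y1s θ)))) ^ q ∂PT := by
    have h4 : AEMeasurable (fun θ => ENNReal.ofReal (∫ x, (1:ℝ) ∂(lam (ptI θ))) ^ q) (Measure.map y1s PT) := by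
      rw [y1_s.map_eq]
      exact hme
    have h5 := lintegral_map' h4 y1_meas_s.aemeasurable
    rw [y1_s.map_eq] at h5
    exact h5
  rw [h1, h3]
  have h6 : ∀ᵐ θ ∂PT, ENNReal.ofReal (∫ x, (1:ℝ) ∂(lam (ptI (y1s θ)))) ^ q =
      liminf (fun n : ℕ => ENNReal.ofReal (∫ x in Icc (0:ℝ) 1, (1:ℝ) * dn (β / 2) y n θ x) ^ q) atTop := by
    filter_upwards [y3_conv2 β lam hlam (fun _ => 1) continuous_const y hy] with θ hθ
    refine (Tendsto.liminf_eq ?_).symm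
    exact ((ENNReal.continuous_rpow_const.comp ENNReal.continuous_ofReal).tendsto _).comp hθ
  rw [lintegral_congr_ae h6]
  refine (lintegral_liminf_le fun n => ?_).trans ?_
  · have h7 : Measurable (fun θ : Om => ∫ x in Icc (0:ℝ) 1, (1:ℝ) * dn (β / 2) y n θ x) := by
      have h8 := ((y1_int_meas β (Nat.count Nat.Prime (y ^ (2 ^ n) + 1)) (fun _ => 1) continuous_const).measurable.comp y1_meas_s)
      simp only [y1_dn β y n _ (fun _ => (1:ℝ))]
      exact h8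
    exact (h7.ennreal_ofReal).pow_const q
  · refine liminf_le_of_le ?_ ?_
    · isBoundedDefault
    intro b hb
    obtain ⟨n, hn⟩ := hb.exists
    refine hn.trans (le_trans ?_ (hM n))
    refine lintegral_mono fun θ => ?_
    refine ENNReal.rpow_le_rpow ?_ hq.le
    simp only [one_mul]
    refine y3_bochner _ fun x => ?_
    unfold dn
    exact div_nonneg (Real.rpow_nonneg (norm_nonneg _) _)
      (integral_nonneg fun θ => Real.rpow_nonneg (norm_nonneg _) _)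

theorem y3_P_prob : IsProbabilityMeasure P := PT_prob

/-- the mean -/
theorem y3_mean (β : ℝ) (h0 : 0 < β) (h2 : β < 2) (lam : (ℕ → ℂ) → Measure ℝ) (hlam : IsChaos β lam) (f : ℝ → ℝ)
    (hf : Continuous f) (hf0 : ∀ x, 0 ≤ f x) :
    ∫⁻ θ, (∫⁻ x, ENNReal.ofReal (f x) ∂(lam (ptI θ))) ∂P = ∫⁻ x in Icc (0:ℝ) 1, ENNReal.ofReal (f x) := by
  have hP := y3_P_prob
  obtain ⟨y1, -, H1⟩ := chaos_value β h0 h2 lam hlam 0
  obtain ⟨y2, -, H2⟩ := JJ_pred β h0 h2 0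
  obtain ⟨hI, hE⟩ := H1 (max y1 y2) (le_max_left _ _) (fun _ => 1) continuous_const (fun _ => zero_le_one) f hf hf0
  rw [H2 (max y1 y2) (le_max_right _ _) (fun _ => 1) continuous_const (fun _ => zero_le_one) f hf hf0] at hE
  simp only [mul_one] at hI hE
  have h3 : pred β 0 f (fun _ => 1) = ∫ x in Icc (0:ℝ) 1, f x := by
    unfold pred
    refine integral_congr_ae (Eventually.of_forall fun x => ?_)
    simp [zr]
  rw [h3] at hE
  have h4 : ∫⁻ θ, (∫⁻ x, ENNReal.ofReal (f x) ∂(lam (ptI θ))) ∂P =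
      ∫⁻ θ, ENNReal.ofReal (∫ x, f x ∂(lam (ptI θ))) ∂P := by
    refine lintegral_congr_ae ?_
    filter_upwards [y3_L β lam hlam] with θ hθ
    exact hθ f hf hf0
  rw [h4, ← ofReal_integral_eq_lintegral_ofReal hI (Eventually.of_forall fun θ => integral_nonneg hf0), hE]
  exact ofReal_integral_eq_lintegral_ofReal (hf.continuousOn.integrableOn_compact isCompact_Icc)
    (Eventually.of_forall hf0)

/-- measurable inverse of ptI -/
noncomputable def y3inv (v : ℕ → ℂ) : ℕ → ℝ := fun j => Int.fract (Complex.arg (v j) / (2 * Real.pi))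

theorem y3_inv_meas : Measurable y3inv := by
  unfold y3inv
  refine measurable_pi_lambda _ fun j => ?_
  exact ((Complex.measurable_arg.comp (measurable_pi_apply j)).div_const _).fract

theorem y3_ptI_meas : Measurable ptI := by
  unfold ptI
  fun_prop

theorem y3_ptI_norm (θ : ℕ → ℝ) (j : ℕ) : ‖ptI θ j‖ = 1 := by
  unfold ptI
  have : (2 * (Real.pi : ℂ) * I * (θ j : ℂ)) = ((2 * Real.pi * θ j : ℝ) : ℂ) * I := by
    push_cast
    ring
  rw [this, Complex.norm_exp_ofReal_mul_I]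

theorem y3_pt_inv (v : ℕ → ℂ) (hv : ∀ j, ‖v j‖ = 1) : ptI (y3inv v) = v := by
  funext j
  unfold ptI y3inv
  have h1 := Complex.norm_mul_exp_arg_mul_I (v j)
  rw [hv j] at h1
  have hpi : (Real.pi : ℂ) ≠ 0 := by exact_mod_cast Real.pi_ne_zero
  have h2 : (2 * (Real.pi : ℂ) * I * ((Int.fract (Complex.arg (v j) / (2 * Real.pi)) : ℝ) : ℂ)) =
      (Complex.arg (v j) : ℂ) * I - (⌊Complex.arg (v j) / (2 * Real.pi)⌋ : ℂ) * (2 * Real.pi * I) := by
    rw [← Int.self_sub_floor]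
    push_cast
    field_simp
  rw [h2, Complex.exp_sub, Complex.exp_int_mul_two_pi_mul_I, div_one]
  simpa using h1

theorem y3_inv_pt (θ : ℕ → ℝ) (hθ : ∀ j, θ j ∈ Ico (0:ℝ) 1) : y3inv (ptI θ) = θ := by
  funext j
  unfold ptI y3inv
  have h1 : (2 * (Real.pi : ℂ) * I * (θ j : ℂ)) = ((2 * Real.pi * θ j : ℝ) : ℂ) * I := by
    push_cast
    ring
  simp only
  rw [h1, Complex.arg_exp_mul_I, ← self_sub_toIocDiv_zsmul]
  have h2 : (2 * Real.pi * θ j - toIocDiv Real.two_pi_pos (-Real.pi) (2 * Real.pi * θ j) • (2 * Real.pi)) / (2 * Real.pi) =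
      θ j - (toIocDiv Real.two_pi_pos (-Real.pi) (2 * Real.pi * θ j) : ℝ) := by
    rw [zsmul_eq_mul]
    field_simp [Real.pi_ne_zero]
  rw [h2, Int.fract_sub_intCast, Int.fract_eq_self]
  exact hθ j

theorem y3_Ico : ∀ᵐ θ ∂P, ∀ j, θ j ∈ Ico (0:ℝ) 1 := by
  rw [ae_all_iff]
  intro j
  have hU : IsProbabilityMeasure Ug := Ug_prob
  have h1 : MeasurePreserving (Function.eval j) PT Ug := measurePreserving_eval_infinitePi (fun _ : ℕ => Ug) j
  have h2 : ∀ᵐ x ∂Ug, x ∈ Ico (0:ℝ) 1 := by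
    unfold Ug
    rw [ae_restrict_iff' measurableSet_Icc]
    have h3 : ∀ᵐ x : ℝ ∂volume, x ≠ 1 := by
      rw [ae_iff]
      simp
    filter_upwards [h3] with x hx hx2
    exact ⟨hx2.1, lt_of_le_of_ne hx2.2 hx⟩
  exact h1.quasiMeasurePreserving.ae h2

theorem y3_aemeas (β : ℝ) (lam : (ℕ → ℂ) → Measure ℝ) (hlam : IsChaos β lam) (f : ℝ → ℝ)
    (hf : Continuous f) (hf0 : ∀ x, 0 ≤ f x) :
    AEMeasurable (fun v => ∫⁻ x, ENNReal.ofReal (f x) ∂(lam v)) (P.map ptI) := by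
  have h1 : AEMeasurable (fun θ => ∫⁻ x, ENNReal.ofReal (f x) ∂(lam (ptI θ))) P := by
    refine (y3_lam_meas β lam hlam f hf).aemeasurable.ennreal_ofReal.congr ?_
    filter_upwards [y3_L β lam hlam] with θ hθ
    exact (hθ f hf hf0).symm
  obtain ⟨G, hG, hGe⟩ := h1
  refine ⟨fun v => G (y3inv v), hG.comp y3_inv_meas, ?_⟩
  have h2 : ∀ᵐ θ ∂P, (∫⁻ x, ENNReal.ofReal (f x) ∂(lam (ptI θ))) = G θ ∧ y3inv (ptI θ) = θ := by
    filter_upwards [hGe, y3_Ico] with θ a b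
    exact ⟨a, y3_inv_pt θ b⟩
  have h3 : ∀ᵐ θ ∂P, ∫⁻ x, ENNReal.ofReal (f x) ∂(lam (ptI θ)) = G θ := hGe
  have h4 : Measure.map y3inv (P.map ptI) = P := by
    rw [Measure.map_map y3_inv_meas y3_ptI_meas]
    have h5 : y3inv ∘ ptI =ᵐ[P] id := by
      filter_upwards [y3_Ico] with θ hθ
      exact y3_inv_pt θ hθ
    rw [Measure.map_congr h5, Measure.map_id]
  have h6 : ∀ᵐ v ∂(P.map ptI), ∫⁻ x, ENNReal.ofReal (f x) ∂(lam (ptI (y3inv v))) = G (y3inv v) := by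
    rw [← h4] at h3
    exact ae_of_ae_map y3_inv_meas.aemeasurable h3
  have h7 : ∀ᵐ v ∂(P.map ptI), ∀ j, ‖v j‖ = 1 := by
    rw [ae_map_iff y3_ptI_meas.aemeasurable]
    · exact Eventually.of_forall fun θ j => y3_ptI_norm θ j
    · have : {v : ℕ → ℂ | ∀ j, ‖v j‖ = 1} = ⋂ j, {v : ℕ → ℂ | ‖v j‖ = 1} := by
        ext v
        simp
      rw [this]
      exact MeasurableSet.iInter fun j => measurableSet_eq_fun (measurable_pi_apply j).norm measurable_const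
  filter_upwards [h6, h7] with v a b
  rw [y3_pt_inv v b] at a
  exact a

/-- integrability of the chaos: some power larger than 1, and the mean -/
theorem chaos_fin (β : ℝ) (h0 : 0 < β) (h2 : β < 2) : ∃ q₀ : ℝ, 1 < q₀ ∧ ∀ lam : (ℕ → ℂ) → Measure ℝ, IsChaos β lam →
    (∀ᵐ θ ∂P, lam (ptI θ) (Icc 0 1)ᶜ = 0) ∧ (∀ q : ℝ, 1 < q → q ≤ q₀ → ∫⁻ θ, lam (ptI θ) univ ^ q ∂P ≠ ⊤) ∧
    (∀ f : ℝ → ℝ, Continuous f → (∀ x, 0 ≤ f x) →
      ∫⁻ θ, (∫⁻ x, ENNReal.ofReal (f x) ∂(lam (ptI θ))) ∂P = ∫⁻ x in Icc (0:ℝ) 1, ENNReal.ofReal (f x)) ∧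
    (∀ f : ℝ → ℝ, Continuous f → (∀ x, 0 ≤ f x) →
      AEMeasurable (fun v => ∫⁻ x, ENNReal.ofReal (f x) ∂(lam v)) (P.map ptI)) := by
  have hP := y3_P_prob
  obtain ⟨q₀, hq, y0, hy0, hM⟩ := rm_moment (β / 2) (by linarith) (by linarith)
  obtain ⟨C, hC, hMn⟩ := hM y0 le_rfl
  refine ⟨q₀, hq, fun lam hlam => ⟨y3_supp β lam hlam, fun q hq1 hqq => ?_,
    fun f hf hf0 => y3_mean β h0 h2 lam hlam f hf hf0, fun f hf hf0 => y3_aemeas β lam hlam f hf hf0⟩⟩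
  have h3 := y3_mom β lam hlam q₀ C (by linarith) y0 (by omega) hMn
  have h4 : ∫⁻ θ, lam (ptI θ) univ ^ q ∂P ≤ ∫⁻ θ, (1 + lam (ptI θ) univ ^ q₀) ∂P := by
    refine lintegral_mono fun θ => ?_
    rcases le_total (lam (ptI θ) univ) 1 with h | h
    · exact (ENNReal.rpow_le_one h (by linarith)).trans (le_add_of_nonneg_right (by simp))
    · exact (ENNReal.rpow_le_rpow_of_exponent_le h hqq).trans (le_add_of_nonneg_left (by simp))
  refine ne_top_of_le_ne_top ?_ h4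
  rw [lintegral_add_left measurable_const]
  simp only [lintegral_const, measure_univ, mul_one]
  exact ENNReal.add_ne_top.2 ⟨ENNReal.one_ne_top, ne_top_of_le_ne_top ENNReal.ofReal_ne_top h3⟩

end CZ
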