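import Pool.Agent.Lib.MP_9eae41_pr.Y0
import Pool.Agent.Lib.MP_9eae41_pr.D1
import Pool.Agent.Lib.MP_9eae41_pr.R1

set_option autoImplicit false

open Complex MeasureTheory Set Filter Topology
open scoped ENNReal

namespace Chaos

/-! Row Y5 (250 lines): equidistribution of the phases (Kronecker-Weyl) and the law of the phases of a limit point.
Direct: for a monomial the sharp mean of (h/k)^(-i om T) over om in [0,1] is at most 2/(T |log(h/k)|); Stone-Weierstrass
(R1.sw, or directly on the product of circles). Law: all finite dimensional laws agree (bounded continuous functions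
separate probability measures), so the laws on the sequence space agree (cylinder sets). -/

/-- The angles at height om T, modulo one. -/
noncomputable def y5_x (m : ℕ) (T om : ℝ) : UnitAddTorus (Fin m) := fun j =>
  ((-(om * T * Real.log (pr j) / (2 * Real.pi)) : ℝ) : UnitAddCircle)

/-- The first m angles modulo one. -/
noncomputable def y5_t (m : ℕ) (θ : ℕ → ℝ) : UnitAddTorus (Fin m) := fun j => ((θ j : ℝ) : UnitAddCircle)

/-- From angles to phases. -/
noncomputable def y5_E (m : ℕ) : C(UnitAddTorus (Fin m), Fin m → ℂ) :=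
  ⟨fun x j => fourier 1 (x j), by fun_prop⟩

theorem y5_pr (j : ℕ) : (pr j).Prime := Nat.prime_nth_prime j

theorem y5_ph (m : ℕ) (T om : ℝ) : ph m T om = y5_E m (y5_x m T om) := by
  funext j
  have hp : ((pr j : ℕ) : ℂ) ≠ 0 := by exact_mod_cast (y5_pr j).ne_zero
  simp only [ph, y5_E, y5_x, ContinuousMap.coe_mk]
  rw [fourier_coe_apply, Complex.cpow_def_of_ne_zero hp, ← Complex.natCast_log]
  congr 1
  have hpi : (Real.pi : ℂ) ≠ 0 := by exact_mod_cast Real.pi_ne_zero
  push_cast
  field_simp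

theorem y5_pt (m : ℕ) (θ : ℕ → ℝ) : pt m θ = y5_E m (y5_t m θ) := by
  funext j
  simp only [pt, y5_E, y5_t, ContinuousMap.coe_mk]
  rw [fourier_coe_apply]
  congr 1
  push_cast
  ring

theorem y5_cont_x (m : ℕ) (T : ℝ) : Continuous (y5_x m T) := by
  unfold y5_x
  refine continuous_pi fun j => ?_
  exact (AddCircle.continuous_mk' (1 : ℝ)).comp (by fun_prop)

theorem y5_cont_t (m : ℕ) : Continuous (y5_t m) := by
  unfold y5_t
  refine continuous_pi fun j => ?_
  exact (AddCircle.continuous_mk' (1 : ℝ)).comp (by fun_prop)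

theorem y5_prob1 : IsProbabilityMeasure (volume.restrict (Icc (0:ℝ) 1)) := ⟨by simp⟩

theorem y5_probP : IsProbabilityMeasure P := by
  have := y5_prob1
  unfold P
  infer_instance

/-- The logarithms of the primes are linearly independent over the integers. -/
theorem y5_indep (m : ℕ) (n : Fin m → ℤ) (h : ∑ j, (n j : ℝ) * Real.log (pr j) = 0) : n = 0 := by
  have h1 : ∏ j : Fin m, ((pr j : ℕ) : ℝ) ^ (n j).toNat =
      ∏ j : Fin m, ((pr j : ℕ) : ℝ) ^ (-(n j)).toNat := by
    have hpos : ∀ j : Fin m, (0 : ℝ) < (pr j : ℕ) := fun j => by exact_mod_cast (y5_pr j).pos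
    have e1 : Real.log (∏ j : Fin m, ((pr j : ℕ) : ℝ) ^ (n j).toNat) =
        Real.log (∏ j : Fin m, ((pr j : ℕ) : ℝ) ^ (-(n j)).toNat) := by
      rw [Real.log_prod (fun j _ => (pow_pos (hpos j) _).ne'),
        Real.log_prod (fun j _ => (pow_pos (hpos j) _).ne'), ← sub_eq_zero,
        ← Finset.sum_sub_distrib, ← h]
      refine Finset.sum_congr rfl fun j _ => ?_
      rw [Real.log_pow, Real.log_pow, ← sub_mul]
      congr 1
      have : ((n j).toNat : ℤ) - ((-(n j)).toNat : ℤ) = n j := by omega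
      exact_mod_cast this
    exact Real.log_injOn_pos (Finset.prod_pos fun j _ => pow_pos (hpos j) _)
      (Finset.prod_pos fun j _ => pow_pos (hpos j) _) e1
  have h2 : ∏ j : Fin m, (pr j) ^ (n j).toNat = ∏ j : Fin m, (pr j) ^ (-(n j)).toNat := by
    exact_mod_cast h1
  funext i
  have hinj : ∀ j : Fin m, pr j = pr i → j = i := by
    intro j hj
    have := Nat.nth_injective Nat.infinite_setOfPred_prime hj
    exact Fin.ext this
  have key : ∀ e : Fin m → ℕ, (∏ j : Fin m, (pr j) ^ e j).factorization (pr i) = e i := by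
    intro e
    have hne : ∀ j ∈ (Finset.univ : Finset (Fin m)), (pr j) ^ e j ≠ 0 :=
      fun j _ => (pow_pos (y5_pr j).pos _).ne'
    rw [Nat.factorization_prod_apply (S := Finset.univ) (g := fun j : Fin m => (pr j) ^ e j) hne]
    rw [Finset.sum_eq_single i]
    · rw [(y5_pr i).factorization_pow, Finsupp.single_eq_same]
    · intro j _ hj
      rw [(y5_pr j).factorization_pow, Finsupp.single_eq_of_ne]
      intro h3
      exact hj (hinj j h3.symm)
    · intro h3
      exact absurd (Finset.mem_univ i) h3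
  have h3 := congrArg (fun z => z.factorization (pr i)) h2
  simp only [key] at h3
  simp only [Pi.zero_apply]
  omega

theorem y5_mono_x (m : ℕ) (n : Fin m → ℤ) (T om : ℝ) :
    UnitAddTorus.mFourier n (y5_x m T om) =
      exp ((-(I * T * (∑ j, (n j : ℝ) * Real.log (pr j) : ℝ))) * om) := by
  simp only [UnitAddTorus.mFourier, ContinuousMap.coe_mk, y5_x]
  have hpi : (Real.pi : ℂ) ≠ 0 := by exact_mod_cast Real.pi_ne_zero
  rw [Finset.prod_congr rfl (fun j _ => fourier_coe_apply), ← Complex.exp_sum]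
  congr 1
  push_cast
  rw [Finset.mul_sum, ← Finset.sum_neg_distrib, Finset.sum_mul]
  refine Finset.sum_congr rfl fun j _ => ?_
  field_simp

/-- The limit on monomials, left side. -/
theorem y5_mono_lim (m : ℕ) (n : Fin m → ℤ) (hn : n ≠ 0) :
    Tendsto (fun T : ℝ => ∫ om in Icc (0:ℝ) 1, UnitAddTorus.mFourier n (y5_x m T om)) atTop
      (𝓝 0) := by
  set lam : ℝ := ∑ j, (n j : ℝ) * Real.log (pr j) with hlam
  have hlam0 : lam ≠ 0 := fun h => hn (y5_indep m n h)
  have hbound : ∀ T : ℝ, 0 < T →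
      ‖∫ om in Icc (0:ℝ) 1, UnitAddTorus.mFourier n (y5_x m T om)‖ ≤ 2 / |lam| * T⁻¹ := by
    intro T hT
    have e1 : ∫ om in Icc (0:ℝ) 1, UnitAddTorus.mFourier n (y5_x m T om) =
        ∫ om in (0:ℝ)..1, exp ((-(I * T * (lam : ℝ))) * om) := by
      rw [intervalIntegral.integral_of_le (by norm_num), ← integral_Icc_eq_integral_Ioc]
      refine setIntegral_congr_fun measurableSet_Icc fun om _ => ?_
      exact y5_mono_x m n T om
    have hc : (-(I * T * (lam : ℝ)) : ℂ) ≠ 0 := by
      have h1 : (T : ℂ) ≠ 0 := by exact_mod_cast hT.ne'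
      have h2 : ((lam : ℝ) : ℂ) ≠ 0 := by exact_mod_cast hlam0
      exact neg_ne_zero.mpr (mul_ne_zero (mul_ne_zero I_ne_zero h1) h2)
    rw [e1, integral_exp_mul_complex hc, norm_div]
    have h3 : ‖exp (-(I * T * (lam : ℝ)) * ((1 : ℝ) : ℂ)) - exp (-(I * T * (lam : ℝ)) *
        ((0 : ℝ) : ℂ))‖ ≤ 2 := by
      have a1 : ‖exp (-(I * T * (lam : ℝ)) * ((1 : ℝ) : ℂ))‖ = 1 := by
        rw [Complex.norm_exp]
        simp
      have a2 : ‖exp (-(I * T * (lam : ℝ)) * ((0 : ℝ) : ℂ))‖ = 1 := by
        rw [Complex.norm_exp]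
        simp
      calc _ ≤ ‖exp (-(I * T * (lam : ℝ)) * ((1 : ℝ) : ℂ))‖ +
            ‖exp (-(I * T * (lam : ℝ)) * ((0 : ℝ) : ℂ))‖ := norm_sub_le _ _
        _ = 2 := by rw [a1, a2]; norm_num
    have h4 : ‖(-(I * T * (lam : ℝ)) : ℂ)‖ = T * |lam| := by
      rw [norm_neg, norm_mul, norm_mul, Complex.norm_I, one_mul, Complex.norm_real,
        Complex.norm_real, Real.norm_eq_abs, Real.norm_eq_abs, abs_of_pos hT]
    rw [h4]
    have h5 : 0 < |lam| := abs_pos.mpr hlam0
    calc _ ≤ 2 / (T * |lam|) := div_le_div_of_nonneg_right h3 (by positivity)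
      _ = 2 / |lam| * T⁻¹ := by field_simp
  refine squeeze_zero_norm' ((eventually_gt_atTop (0 : ℝ)).mono hbound) ?_
  have := tendsto_inv_atTop_zero (𝕜 := ℝ)
  simpa using this.const_mul (2 / |lam|)

theorem y5_fourier_int (k : ℤ) (hk : k ≠ 0) :
    ∫ x in Icc (0:ℝ) 1, (fourier k (x : UnitAddCircle) : ℂ) = 0 := by
  have e1 : ∫ x in Icc (0:ℝ) 1, (fourier k (x : UnitAddCircle) : ℂ) =
      ∫ x in (0:ℝ)..1, exp ((2 * Real.pi * I * k) * x) := by
    rw [intervalIntegral.integral_of_le (by norm_num), ← integral_Icc_eq_integral_Ioc]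
    refine setIntegral_congr_fun measurableSet_Icc fun x _ => ?_
    rw [fourier_coe_apply]
    congr 1
    push_cast
    ring
  have hpi : (Real.pi : ℂ) ≠ 0 := by exact_mod_cast Real.pi_ne_zero
  have hc : (2 * Real.pi * I * k : ℂ) ≠ 0 := by
    refine mul_ne_zero (mul_ne_zero (mul_ne_zero two_ne_zero hpi) I_ne_zero) ?_
    exact_mod_cast hk
  rw [e1, integral_exp_mul_complex hc]
  have h1 : exp (2 * Real.pi * I * k * ((1 : ℝ) : ℂ)) = 1 := by
    rw [Complex.ofReal_one, mul_one]
    have := Complex.exp_int_mul_two_pi_mul_I k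
    rw [← this]
    congr 1
    ring
  rw [h1]
  simp

/-- The mean of a monomial over the random angles. -/
theorem y5_mono_P (m : ℕ) (n : Fin m → ℤ) (hn : n ≠ 0) :
    ∫ θ, UnitAddTorus.mFourier n (y5_t m θ) ∂P = 0 := by
  have := y5_prob1
  set N : ℕ → ℤ := fun i => if h : i < m then n ⟨i, h⟩ else 0 with hN
  have e1 : ∀ θ : ℕ → ℝ, UnitAddTorus.mFourier n (y5_t m θ) =
      (fun y : (i : Finset.range m) → ℝ =>
        ∏ i : Finset.range m, (fourier (N i) ((y i : ℝ) : UnitAddCircle) : ℂ))
        ((Finset.range m).restrict θ) := by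
    intro θ
    simp only [UnitAddTorus.mFourier, ContinuousMap.coe_mk, y5_t, Finset.restrict_def]
    rw [Finset.prod_coe_sort (Finset.range m)
      (fun i => (fourier (N i) ((θ i : ℝ) : UnitAddCircle) : ℂ)),
      ← Fin.prod_univ_eq_prod_range (fun i => (fourier (N i) ((θ i : ℝ) : UnitAddCircle) : ℂ)) m]
    refine Finset.prod_congr rfl fun j _ => ?_
    have : N j = n j := by simp [hN]
    rw [this]
  have e2 : ∫ θ, UnitAddTorus.mFourier n (y5_t m θ) ∂P =
      ∫ θ, (fun y : (i : Finset.range m) → ℝ =>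
        ∏ i : Finset.range m, (fourier (N i) ((y i : ℝ) : UnitAddCircle) : ℂ))
        ((Finset.range m).restrict θ) ∂P := integral_congr_ae (Eventually.of_forall e1)
  rw [e2]
  unfold P
  refine (integral_restrict_infinitePi (μ := fun _ : ℕ => volume.restrict (Icc (0:ℝ) 1))
    (s := Finset.range m) (f := fun y : (i : Finset.range m) → ℝ =>
        ∏ i : Finset.range m, (fourier (N i) ((y i : ℝ) : UnitAddCircle) : ℂ)) ?_).trans ?_
  rotate_left
  · rw [integral_fintype_prod_eq_prod
      (f := fun (i : Finset.range m) (x : ℝ) => (fourier (N i) (x : UnitAddCircle) : ℂ))]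
    obtain ⟨j, hj⟩ := Function.ne_iff.mp hn
    refine Finset.prod_eq_zero (i := ⟨j, Finset.mem_range.mpr j.2⟩) (Finset.mem_univ _) ?_
    have : N j = n j := by simp [hN]
    simp only
    rw [this]
    exact y5_fourier_int (n j) hj
  · apply Continuous.aestronglyMeasurable
    refine continuous_finsetProd _ fun i _ => ?_
    exact (fourier (N i)).continuous.comp
      ((AddCircle.continuous_mk' (1 : ℝ)).comp (continuous_apply i))

/-- The limit for all complex continuous functions on the torus. -/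
theorem y5_main (m : ℕ) (f : C(UnitAddTorus (Fin m), ℂ)) :
    Tendsto (fun T : ℝ => ∫ om in Icc (0:ℝ) 1, f (y5_x m T om)) atTop
      (𝓝 (∫ θ, f (y5_t m θ) ∂P)) := by
  have := y5_prob1
  have := y5_probP
  have intL : ∀ (g : C(UnitAddTorus (Fin m), ℂ)) (T : ℝ),
      Integrable (fun om => g (y5_x m T om)) (volume.restrict (Icc (0:ℝ) 1)) := by
    intro g T
    exact (integrable_const ‖g‖).mono' (g.continuous.comp (y5_cont_x m T)).aestronglyMeasurable
      (Eventually.of_forall fun om => g.norm_coe_le_norm _)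
  have intR : ∀ g : C(UnitAddTorus (Fin m), ℂ), Integrable (fun θ => g (y5_t m θ)) P := by
    intro g
    exact (integrable_const ‖g‖).mono' (g.continuous.comp (y5_cont_t m)).aestronglyMeasurable
      (Eventually.of_forall fun om => g.norm_coe_le_norm _)
  let S : Submodule ℂ C(UnitAddTorus (Fin m), ℂ) :=
    { carrier := {g | Tendsto (fun T : ℝ => ∫ om in Icc (0:ℝ) 1, g (y5_x m T om)) atTop
        (𝓝 (∫ θ, g (y5_t m θ) ∂P))}
      add_mem' := by
        intro a b ha hb
        simp only [mem_ofPred_eq, ContinuousMap.add_apply] at ha hb ⊢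
        have e1 : ∀ T : ℝ, ∫ om in Icc (0:ℝ) 1, (a (y5_x m T om) + b (y5_x m T om)) =
            (∫ om in Icc (0:ℝ) 1, a (y5_x m T om)) + ∫ om in Icc (0:ℝ) 1, b (y5_x m T om) :=
          fun T => integral_add (intL a T) (intL b T)
        simp only [e1]
        rw [integral_add (intR a) (intR b)]
        exact ha.add hb
      zero_mem' := by simp
      smul_mem' := by
        intro c a ha
        simp only [mem_ofPred_eq, ContinuousMap.smul_apply] at ha ⊢
        simp only [integral_smul]
        exact ha.const_smul c }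
  have hmem : ∀ g, g ∈ S ↔ Tendsto (fun T : ℝ => ∫ om in Icc (0:ℝ) 1, g (y5_x m T om)) atTop
        (𝓝 (∫ θ, g (y5_t m θ) ∂P)) := fun g => Iff.rfl
  have hspan : Submodule.span ℂ (range (UnitAddTorus.mFourier (d := Fin m))) ≤ S := by
    rw [Submodule.span_le]
    rintro _ ⟨n, rfl⟩
    rw [SetLike.mem_coe, hmem]
    by_cases hn : n = 0
    · subst hn
      rw [UnitAddTorus.mFourier_zero]
      simp
    · rw [y5_mono_P m n hn]
      exact y5_mono_lim m n hn
  have hclosed : IsClosed (S : Set C(UnitAddTorus (Fin m), ℂ)) := by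
    rw [← closure_subset_iff_isClosed]
    intro g hg
    rw [Metric.mem_closure_iff] at hg
    rw [SetLike.mem_coe, hmem, Metric.tendsto_atTop]
    intro ε hε
    obtain ⟨g', hg', hd⟩ := hg (ε / 3) (by positivity)
    rw [SetLike.mem_coe, hmem, Metric.tendsto_atTop] at hg'
    obtain ⟨T0, hT0⟩ := hg' (ε / 3) (by positivity)
    refine ⟨T0, fun T hT => ?_⟩
    have h1 := hT0 T hT
    have hdist : ∀ x, ‖g x - g' x‖ ≤ dist g g' := by
      intro x
      rw [← dist_eq_norm]
      exact ContinuousMap.dist_apply_le_dist x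
    have h2 : dist (∫ om in Icc (0:ℝ) 1, g (y5_x m T om))
        (∫ om in Icc (0:ℝ) 1, g' (y5_x m T om)) ≤ dist g g' := by
      rw [dist_eq_norm, ← integral_sub (intL g T) (intL g' T)]
      refine (norm_integral_le_of_norm_le_const (C := dist g g')
        (Eventually.of_forall fun om => hdist _)).trans ?_
      simp
    have h3 : dist (∫ θ, g (y5_t m θ) ∂P) (∫ θ, g' (y5_t m θ) ∂P) ≤ dist g g' := by
      rw [dist_eq_norm, ← integral_sub (intR g) (intR g')]
      refine (norm_integral_le_of_norm_le_const (C := dist g g')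
        (Eventually.of_forall fun om => hdist _)).trans ?_
      simp
    rw [dist_comm (∫ θ, g (y5_t m θ) ∂P)] at h3
    calc dist (∫ om in Icc (0:ℝ) 1, g (y5_x m T om)) (∫ θ, g (y5_t m θ) ∂P)
        ≤ dist (∫ om in Icc (0:ℝ) 1, g (y5_x m T om)) (∫ om in Icc (0:ℝ) 1, g' (y5_x m T om)) +
          dist (∫ om in Icc (0:ℝ) 1, g' (y5_x m T om)) (∫ θ, g' (y5_t m θ) ∂P) +
          dist (∫ θ, g' (y5_t m θ) ∂P) (∫ θ, g (y5_t m θ) ∂P) := dist_triangle4 _ _ _ _
      _ < ε := by linarith
  have htop : S = ⊤ := by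
    rw [eq_top_iff, ← UnitAddTorus.span_mFourier_closure_eq_top]
    exact Submodule.topologicalClosure_minimal _ hspan hclosed
  have : f ∈ S := by rw [htop]; exact Submodule.mem_top
  exact this

theorem equidist {m : ℕ} (Φ : (Fin m → ℂ) → ℝ) (hΦ : Continuous Φ) :
    Tendsto (fun T : ℝ => ∫ om in Icc (0:ℝ) 1, Φ (ph m T om)) atTop (𝓝 (∫ θ, Φ (pt m θ) ∂P)) := by
  have h := y5_main m ⟨fun x => ((Φ (y5_E m x) : ℝ) : ℂ), by
    exact Complex.continuous_ofReal.comp (hΦ.comp (y5_E m).continuous)⟩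
  simp only [ContinuousMap.coe_mk, ← y5_ph, ← y5_pt] at h
  have e1 : ∀ T : ℝ, ∫ om in Icc (0:ℝ) 1, ((Φ (ph m T om) : ℝ) : ℂ) =
      ((∫ om in Icc (0:ℝ) 1, Φ (ph m T om) : ℝ) : ℂ) := fun T => integral_ofReal
  have e2 : ∫ θ, ((Φ (pt m θ) : ℝ) : ℂ) ∂P = ((∫ θ, Φ (pt m θ) ∂P : ℝ) : ℂ) := integral_ofReal
  simp only [e1, e2] at h
  exact (tendsto_ofReal_iff).mp h

theorem y5_cont_pt (m : ℕ) : Continuous (pt m) := by
  unfold pt
  fun_prop

theorem y5_cont_ptI : Continuous ptI := by
  unfold ptI
  fun_prop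

theorem law_of_limit {β : ℝ} {Tk : ℕ → ℝ} {Ω : Type} [MeasurableSpace Ω] (Q : Measure Ω) [IsProbabilityMeasure Q]
    {ν : Ω → Measure ℝ} {W : Ω → (ℕ → ℂ)} (h : IsLimitPoint β Tk Q ν W) : Q.map W = P.map ptI := by
  have := y5_probP
  obtain ⟨hT, hW, -, -, hlim⟩ := h
  have hpt : Measurable ptI := y5_cont_ptI.measurable
  -- finite dimensional laws
  have hfin : ∀ m : ℕ, Q.map (fun w => (fun j : Fin m => W w j)) = P.map (pt m) := by
    intro m
    have hWm : AEMeasurable (fun w => (fun j : Fin m => W w j)) Q := by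
      have h1 : Measurable (fun (x : ℕ → ℂ) => (fun j : Fin m => x j)) :=
        measurable_pi_lambda _ fun j => measurable_pi_apply _
      exact h1.comp_aemeasurable hW
    have hPm : Measurable (pt m) := (y5_cont_pt m).measurable
    have : IsFiniteMeasure (Q.map (fun w => (fun j : Fin m => W w j))) :=
      Measure.isFiniteMeasure_map _ _
    have : IsFiniteMeasure (P.map (pt m)) := Measure.isFiniteMeasure_map _ _
    refine ext_of_forall_integral_eq_of_IsFiniteMeasure fun F => ?_
    rw [integral_map hWm F.continuous.aestronglyMeasurable,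
      integral_map hPm.aemeasurable F.continuous.aestronglyMeasurable]
    have h1 := hlim (fun _ => 0) continuous_const m (fun v => F v.2)
      (F.continuous.comp continuous_snd) ⟨‖F‖, fun v => by
        rw [← Real.norm_eq_abs]
        exact F.norm_coe_le_norm _⟩
    have h2 := (equidist (m := m) F F.continuous).comp hT
    exact tendsto_nhds_unique h1 h2
  -- cylinders
  have : IsFiniteMeasure (P.map ptI) := Measure.isFiniteMeasure_map _ _
  have hproj : ∀ J : Finset ℕ, (Q.map W).map J.restrict = (P.map ptI).map J.restrict := by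
    intro J
    obtain ⟨m, hm⟩ : ∃ m : ℕ, ∀ j ∈ J, j < m := by
      refine ⟨J.sup id + 1, fun j hj => ?_⟩
      have : j ≤ J.sup id := Finset.le_sup (f := id) hj
      omega
    set r : (Fin m → ℂ) → ((i : J) → ℂ) := fun x i => x ⟨i, hm i i.2⟩ with hr
    have hrm : Measurable r := measurable_pi_lambda _ fun i => measurable_pi_apply _
    have hJ : Measurable (J.restrict : (ℕ → ℂ) → ((i : J) → ℂ)) := Finset.measurable_restrict J
    have h1 : Measurable (fun (x : ℕ → ℂ) => (fun j : Fin m => x j)) :=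
      measurable_pi_lambda _ fun j => measurable_pi_apply _
    have e1 : (Q.map W).map J.restrict = (Q.map (fun w => (fun j : Fin m => W w j))).map r := by
      rw [AEMeasurable.map_map_of_aemeasurable hJ.aemeasurable hW,
        AEMeasurable.map_map_of_aemeasurable (g := r) (f := fun w => (fun j : Fin m => W w j))
          hrm.aemeasurable (h1.comp_aemeasurable hW)]
      rfl
    have e2 : (P.map ptI).map J.restrict = (P.map (pt m)).map r := by
      rw [Measure.map_map hJ hpt, Measure.map_map hrm (y5_cont_pt m).measurable]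
      rfl
    rw [e1, e2, hfin m]
  refine IsProjectiveLimit.unique (P := fun J : Finset ℕ => (P.map ptI).map J.restrict)
    (fun J => hproj J) (fun J => rfl)

end Chaos
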