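import Pool.Agent.Lib.MP_9eae41_pr.Y2

set_option autoImplicit false

open Complex MeasureTheory Set Filter Topology
open scoped ENNReal

namespace Chaos

/-! Row Y6 (150 lines): lower semicontinuity of the twisted q-th moment. Test functions
(y, X) -> (min (max y 0) M)^q * min (h X) M; monotone convergence as M goes to infinity. -/

theorem limit_pow {Ω : Type} [MeasurableSpace Ω] (Q : Measure Ω) [IsProbabilityMeasure Q] {m : ℕ}
    (A : ℕ → ℝ → ℝ) (V : ℕ → ℝ → (Fin m → ℂ)) (hA : ∀ k, ContinuousOn (A k) (Icc 0 1)) (hV : ∀ k, ContinuousOn (V k) (Icc 0 1))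
    (hA0 : ∀ k x, 0 ≤ A k x) (hV1 : ∀ k x j, ‖V k x j‖ = 1) (q : ℝ) (hq : 1 < q)
    (Y : Ω → ℝ) (W : Ω → (Fin m → ℂ)) (hY : AEMeasurable Y Q) (hW : AEMeasurable W Q)
    (hconv : ∀ Φ : ℝ × (Fin m → ℂ) → ℝ, Continuous Φ → (∃ B, ∀ v, |Φ v| ≤ B) →
      Tendsto (fun k => ∫ x in Icc (0:ℝ) 1, Φ (A k x, V k x)) atTop (𝓝 (∫ w, Φ (Y w, W w) ∂Q)))
    (h : (Fin m → ℂ) → ℝ) (hh : Continuous h) (hh0 : ∀ v, 0 ≤ h v) (D : ℝ≥0∞)
    (hD : ∀ ε : ℝ, 0 < ε → ∀ᶠ k in atTop,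
      ∫⁻ x in Icc (0:ℝ) 1, ENNReal.ofReal (A k x) ^ q * ENNReal.ofReal (h (V k x)) ≤ D + ENNReal.ofReal ε) :
    ∫⁻ w, ENNReal.ofReal (Y w) ^ q * ENNReal.ofReal (h (W w)) ∂Q ≤ D := by
  have hq0 : 0 ≤ q := by linarith
  have hmeas : AEMeasurable (fun w => (Y w, W w)) Q := hY.prodMk hW
  let Φ : ℕ → ℝ × (Fin m → ℂ) → ℝ := fun M v => (min (max v.1 0) (M:ℝ)) ^ q * min (h v.2) (M:ℝ)
  have hmin0 : ∀ (M : ℕ) (y : ℝ), 0 ≤ min (max y 0) (M:ℝ) := fun M y =>
    le_min (le_max_right _ _) (Nat.cast_nonneg M)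
  have hhm0 : ∀ (M : ℕ) v, 0 ≤ min (h v) (M:ℝ) := fun M v => le_min (hh0 v) (Nat.cast_nonneg M)
  have hΦ0 : ∀ M v, 0 ≤ Φ M v := fun M v => mul_nonneg (Real.rpow_nonneg (hmin0 M _) q) (hhm0 M _)
  have hΦc : ∀ M, Continuous (Φ M) := by
    intro M
    exact (((continuous_fst.max continuous_const).min continuous_const).rpow_const
      fun x => Or.inr hq0).mul ((hh.comp continuous_snd).min continuous_const)
  have hΦb : ∀ M v, Φ M v ≤ (M:ℝ) ^ q * M := fun M v =>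
    mul_le_mul (Real.rpow_le_rpow (hmin0 M _) (min_le_right _ _) hq0) (min_le_right _ _) (hhm0 M _)
      (Real.rpow_nonneg (Nat.cast_nonneg M) q)
  have hΦB : ∀ M, ∃ B, ∀ v, |Φ M v| ≤ B := fun M =>
    ⟨(M:ℝ) ^ q * M, fun v => by rw [abs_of_nonneg (hΦ0 M v)]; exact hΦb M v⟩
  have hint : ∀ M, Integrable (fun w => Φ M (Y w, W w)) Q := by
    intro M
    refine Integrable.of_bound ((hΦc M).measurable.comp_aemeasurable hmeas).aestronglyMeasurable
      ((M:ℝ) ^ q * M) ?_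
    exact Eventually.of_forall fun w => by
      rw [Real.norm_eq_abs, abs_of_nonneg (hΦ0 M _)]; exact hΦb M _
  have hcont : ∀ M k, ContinuousOn (fun x => Φ M (A k x, V k x)) (Icc 0 1) := fun M k =>
    (hΦc M).comp_continuousOn ((hA k).prodMk (hV k))
  have hintk : ∀ M k, IntegrableOn (fun x => Φ M (A k x, V k x)) (Icc 0 1) := fun M k =>
    (hcont M k).integrableOn_compact isCompact_Icc
  -- the bound along the sequence
  have hle : ∀ M k, ENNReal.ofReal (∫ x in Icc (0:ℝ) 1, Φ M (A k x, V k x)) ≤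
      ∫⁻ x in Icc (0:ℝ) 1, ENNReal.ofReal (A k x) ^ q * ENNReal.ofReal (h (V k x)) := by
    intro M k
    rw [ofReal_integral_eq_lintegral_ofReal (hintk M k)
      (Eventually.of_forall fun x => hΦ0 M _)]
    refine lintegral_mono fun x => ?_
    rw [ENNReal.ofReal_rpow_of_nonneg (hA0 k x) hq0, ← ENNReal.ofReal_mul
      (Real.rpow_nonneg (hA0 k x) q)]
    apply ENNReal.ofReal_le_ofReal
    simp only [Φ]
    rw [max_eq_left (hA0 k x)]
    refine mul_le_mul (Real.rpow_le_rpow (le_min (hA0 k x) (Nat.cast_nonneg M)) (min_le_left _ _)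
      hq0) (min_le_left _ _) (hhm0 M _) (Real.rpow_nonneg (hA0 k x) q)
  have hlim : ∀ M, ∫⁻ w, ENNReal.ofReal (Φ M (Y w, W w)) ∂Q ≤ D := by
    intro M
    rw [← ofReal_integral_eq_lintegral_ofReal (hint M) (Eventually.of_forall fun w => hΦ0 M _)]
    refine ENNReal.le_of_forall_pos_le_add fun ε hε _ => ?_
    have h1 : Tendsto (fun k => ENNReal.ofReal (∫ x in Icc (0:ℝ) 1, Φ M (A k x, V k x))) atTop
        (𝓝 (ENNReal.ofReal (∫ w, Φ M (Y w, W w) ∂Q))) :=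
      (ENNReal.continuous_ofReal.tendsto _).comp (hconv (Φ M) (hΦc M) (hΦB M))
    refine le_of_tendsto h1 ?_
    filter_upwards [hD ε (by exact_mod_cast hε)] with k hk
    refine (hle M k).trans (hk.trans ?_)
    rw [ENNReal.ofReal_coe_nnreal]
  -- monotone convergence
  have hmono : ∀ w, Monotone fun M : ℕ => ENNReal.ofReal (Φ M (Y w, W w)) := by
    intro w M N hMN
    have hMN' : (M:ℝ) ≤ N := Nat.cast_le.2 hMN
    apply ENNReal.ofReal_le_ofReal
    exact mul_le_mul (Real.rpow_le_rpow (hmin0 M _) (min_le_min le_rfl hMN') hq0)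
      (min_le_min le_rfl hMN') (hhm0 M _) (Real.rpow_nonneg (hmin0 N _) q)
  have hpt : ∀ w, Tendsto (fun M : ℕ => ENNReal.ofReal (Φ M (Y w, W w))) atTop
      (𝓝 (ENNReal.ofReal (Y w) ^ q * ENNReal.ofReal (h (W w)))) := by
    intro w
    obtain ⟨N, hN⟩ := exists_nat_ge (max (max (Y w) 0) (h (W w)))
    refine tendsto_const_nhds.congr' ?_
    filter_upwards [eventually_ge_atTop N] with M hM
    have hMN' : (N:ℝ) ≤ M := Nat.cast_le.2 hM
    simp only [Φ]
    rw [min_eq_left ((le_max_left _ _).trans (hN.trans hMN')),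
      min_eq_left ((le_max_right _ _).trans (hN.trans hMN')),
      ENNReal.ofReal_mul (Real.rpow_nonneg (le_max_right _ _) q),
      ← ENNReal.ofReal_rpow_of_nonneg (le_max_right _ _) hq0]
    congr 2
    rcases le_total (Y w) 0 with h1 | h1
    · rw [max_eq_right h1, ENNReal.ofReal_of_nonpos h1, ENNReal.ofReal_zero]
    · rw [max_eq_left h1]
  have h2 : Tendsto (fun M : ℕ => ∫⁻ w, ENNReal.ofReal (Φ M (Y w, W w)) ∂Q) atTop
      (𝓝 (∫⁻ w, ENNReal.ofReal (Y w) ^ q * ENNReal.ofReal (h (W w)) ∂Q)) :=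
    lintegral_tendsto_of_tendsto_of_monotone (fun M => (hint M).aemeasurable.ennreal_ofReal)
      (Eventually.of_forall hmono) (Eventually.of_forall hpt)
  exact le_of_tendsto' h2 hlim

end Chaos
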