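import Mathlib

set_option autoImplicit false

open MeasureTheory Set Filter Topology
open scoped ENNReal

namespace Chaos

/-! Row Z1 (300 lines, Mathlib only): absolute continuity from q-th moments of intervals.
For n let I run over the closed dyadic intervals of level n in [0,1]; S_n = sum ν(I)^q (lam(I)+η)^(1-q); the expectation of S_n is at most
C (sum of E lam(I)), and sum E lam(I) = E lam([0,1]) as lam has no atoms at dyadic points. Let η go to 0 (monotone), then Fatou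
in n: almost surely liminf S_n =: S < oo. For a finite union U of dyadic intervals: ν(U) <= S^(1/q) lam(U)^(1-1/q) (Hoelder for
sums); then open sets (monotone union), then Borel sets by outer regularity. -/

private theorem z1_sum_le (lam : Measure ℝ) (hatom : ∀ k n : ℕ, lam {(k : ℝ) / 2 ^ n} = 0) (n : ℕ)
    (F : Finset ℕ) (U : Set ℝ)
    (hU : ∀ k ∈ F, Icc ((k : ℝ) / 2 ^ n) ((k + 1 : ℝ) / 2 ^ n) ⊆ U) :
    ∑ k ∈ F, lam (Icc ((k : ℝ) / 2 ^ n) ((k + 1 : ℝ) / 2 ^ n)) ≤ lam U := by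
  have h1 : ∀ k : ℕ, lam (Icc ((k : ℝ) / 2 ^ n) ((k + 1 : ℝ) / 2 ^ n)) ≤
      lam (Ico ((k : ℝ) / 2 ^ n) ((k + 1 : ℝ) / 2 ^ n)) := by
    intro k
    have h2 : Icc ((k : ℝ) / 2 ^ n) ((k + 1 : ℝ) / 2 ^ n) ⊆
        Ico ((k : ℝ) / 2 ^ n) ((k + 1 : ℝ) / 2 ^ n) ∪ {((k + 1 : ℕ) : ℝ) / 2 ^ n} := by
      intro x hx
      rcases lt_or_eq_of_le hx.2 with h | h
      · exact Or.inl ⟨hx.1, h⟩
      · right
        rw [mem_singleton_iff, h]
        push_cast
        rfl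
    calc lam (Icc ((k : ℝ) / 2 ^ n) ((k + 1 : ℝ) / 2 ^ n))
        ≤ lam (Ico ((k : ℝ) / 2 ^ n) ((k + 1 : ℝ) / 2 ^ n) ∪ {((k + 1 : ℕ) : ℝ) / 2 ^ n}) :=
          measure_mono h2
      _ ≤ lam (Ico ((k : ℝ) / 2 ^ n) ((k + 1 : ℝ) / 2 ^ n)) + lam {((k + 1 : ℕ) : ℝ) / 2 ^ n} :=
          measure_union_le _ _
      _ = _ := by rw [hatom (k + 1) n, add_zero]
  refine (Finset.sum_le_sum (fun k _ => h1 k)).trans ?_
  rw [← measure_biUnion_finset _ (fun k _ => measurableSet_Ico)]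
  · apply measure_mono
    intro x hx
    simp only [mem_iUnion] at hx
    obtain ⟨k, hk, hx⟩ := hx
    exact hU k hk ⟨hx.1, hx.2.le⟩
  · have hm : Monotone (fun k : ℕ => (k : ℝ) / 2 ^ n) := by
      intro a b hab
      have : (a : ℝ) ≤ b := by exact_mod_cast hab
      simp only
      gcongr
    have hd := hm.pairwise_disjoint_on_Ico_succ
    intro a _ b _ hab
    have := hd hab
    simp only [Function.onFun, Order.succ_eq_add_one, Nat.cast_add, Nat.cast_one] at this ⊢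
    exact this

private theorem z1_holder (ν lam : Measure ℝ) [IsFiniteMeasure lam] (q : ℝ) (hq : 1 < q)
    (hatom : ∀ k n : ℕ, lam {(k : ℝ) / 2 ^ n} = 0) (S : ℝ≥0∞) (n : ℕ) (η : ℝ≥0∞) (hη : 0 < η)
    (hη' : η ≠ ⊤)
    (hS : ∑ k ∈ Finset.range (2 ^ n), ν (Icc ((k : ℝ) / 2 ^ n) ((k + 1 : ℝ) / 2 ^ n)) ^ q *
        (lam (Icc ((k : ℝ) / 2 ^ n) ((k + 1 : ℝ) / 2 ^ n)) + η) ^ (-(q - 1)) ≤ S)
    (F : Finset ℕ) (hF : F ⊆ Finset.range (2 ^ n)) (U : Set ℝ)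
    (hU : ∀ k ∈ F, Icc ((k : ℝ) / 2 ^ n) ((k + 1 : ℝ) / 2 ^ n) ⊆ U) :
    ∑ k ∈ F, ν (Icc ((k : ℝ) / 2 ^ n) ((k + 1 : ℝ) / 2 ^ n)) ≤
      S ^ (1 / q) * (lam U + 2 ^ n * η) ^ (1 / (q / (q - 1))) := by
  have hq0 : 0 < q := by linarith
  have hq1 : 0 < q - 1 := by linarith
  have hconj : q.HolderConjugate (q / (q - 1)) := Real.HolderConjugate.conjExponent hq
  set I : ℕ → Set ℝ := fun k => Icc ((k : ℝ) / 2 ^ n) ((k + 1 : ℝ) / 2 ^ n) with hI
  have hpos : ∀ k, lam (I k) + η ≠ 0 := fun k => (lt_of_lt_of_le hη le_add_self).ne'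
  have hfin : ∀ k, lam (I k) + η ≠ ⊤ := fun k => ENNReal.add_ne_top.2 ⟨measure_ne_top _ _, hη'⟩
  have h1 := ENNReal.inner_le_Lp_mul_Lq F
    (fun k => ν (I k) * (lam (I k) + η) ^ (-((q - 1) / q))) (fun k => (lam (I k) + η) ^ ((q - 1) / q))
    hconj
  have h2 : ∀ k, ν (I k) * (lam (I k) + η) ^ (-((q - 1) / q)) * (lam (I k) + η) ^ ((q - 1) / q) =
      ν (I k) := by
    intro k
    rw [mul_assoc, ← ENNReal.rpow_add _ _ (hpos k) (hfin k), neg_add_cancel, ENNReal.rpow_zero,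
      mul_one]
  have h3 : ∀ k, (ν (I k) * (lam (I k) + η) ^ (-((q - 1) / q))) ^ q =
      ν (I k) ^ q * (lam (I k) + η) ^ (-(q - 1)) := by
    intro k
    rw [ENNReal.mul_rpow_of_nonneg _ _ hq0.le, ← ENNReal.rpow_mul]
    congr 2
    field_simp
  have h4 : ∀ k, ((lam (I k) + η) ^ ((q - 1) / q)) ^ (q / (q - 1)) = lam (I k) + η := by
    intro k
    rw [← ENNReal.rpow_mul]
    have : (q - 1) / q * (q / (q - 1)) = 1 := by field_simp
    rw [this, ENNReal.rpow_one]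
  simp only [h2, h3, h4] at h1
  refine h1.trans ?_
  apply mul_le_mul' 
  · apply ENNReal.rpow_le_rpow _ (by positivity)
    exact (Finset.sum_le_sum_of_subset hF).trans hS
  · apply ENNReal.rpow_le_rpow _ (by positivity)
    rw [Finset.sum_add_distrib]
    apply add_le_add
    · exact z1_sum_le lam hatom n F U hU
    · rw [Finset.sum_const, nsmul_eq_mul]
      apply mul_le_mul_left
      have : F.card ≤ 2 ^ n := by
        have := Finset.card_le_card hF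
        rwa [Finset.card_range] at this
      exact_mod_cast this

/-- the deterministic part: liminf of the dyadic q-sums finite implies absolute continuity -/
theorem ac_det (ν lam : Measure ℝ) [IsFiniteMeasure ν] [IsFiniteMeasure lam] (hν : ν (Icc 0 1)ᶜ = 0) (q : ℝ) (hq : 1 < q)
    (hatom : ∀ k n : ℕ, lam {(k : ℝ) / 2 ^ n} = 0)
    (S : ℝ≥0∞) (hS : S ≠ ⊤)
    (hlim : ∀ N : ℕ, ∃ n ≥ N, ∀ η : ℝ≥0∞, 0 < η → η ≠ ⊤ →
      ∑ k ∈ Finset.range (2 ^ n), ν (Icc ((k : ℝ) / 2 ^ n) ((k + 1 : ℝ) / 2 ^ n)) ^ q *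
        (lam (Icc ((k : ℝ) / 2 ^ n) ((k + 1 : ℝ) / 2 ^ n)) + η) ^ (-(q - 1)) ≤ S) :
    ν ≪ lam := by
  classical
  have hq0 : 0 < q := by linarith
  have hq1 : 0 < q - 1 := by linarith
  have hr : 0 < 1 / (q / (q - 1)) := by positivity
  -- the main bound for compact sets
  have key : ∀ K : Set ℝ, IsCompact K → ∀ ε : ℝ≥0∞, 0 < ε → ε ≠ ⊤ → lam K < ε →
      ν K ≤ S ^ (1 / q) * (ε + ε) ^ (1 / (q / (q - 1))) := by
    intro K hK ε hε hε' hlK
    obtain ⟨U, hKU, hUo, hUε⟩ := K.exists_isOpen_lt_of_lt ε hlK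
    obtain ⟨δ, hδ, hthick⟩ := hK.exists_thickening_subset_open hUo hKU
    obtain ⟨N, hN⟩ : ∃ N : ℕ, (1 / 2 : ℝ) ^ N < δ :=
      exists_pow_lt_of_lt_one hδ (by norm_num)
    obtain ⟨n, hn, hsum⟩ := hlim N
    have h2n : (0 : ℝ) < 2 ^ n := by positivity
    have hlen : 1 / (2 : ℝ) ^ n < δ := by
      refine lt_of_le_of_lt ?_ hN
      rw [one_div, ← inv_pow, one_div]
      exact pow_le_pow_of_le_one (by norm_num) (by norm_num) hn
    set I : ℕ → Set ℝ := fun k => Icc ((k : ℝ) / 2 ^ n) ((k + 1 : ℝ) / 2 ^ n) with hI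
    let F : Finset ℕ := (Finset.range (2 ^ n)).filter (fun k => (I k ∩ K).Nonempty)
    have hFU : ∀ k ∈ F, I k ⊆ U := by
      intro k hk x hx
      obtain ⟨z, hzI, hzK⟩ := (Finset.mem_filter.1 hk).2
      apply hthick
      rw [Metric.mem_thickening_iff]
      refine ⟨z, hzK, ?_⟩
      rw [Real.dist_eq, abs_lt]
      have e1 : ((k + 1 : ℝ) / 2 ^ n) - (k : ℝ) / 2 ^ n = 1 / 2 ^ n := by ring
      have hx1 := hx.1
      have hx2 := hx.2
      have hz1 := hzI.1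
      have hz2 := hzI.2
      constructor <;> linarith
    have hcov : K ∩ Icc 0 1 ⊆ ⋃ k ∈ F, I k := by
      intro x hx
      obtain ⟨hxK, hx0, hx1⟩ := hx
      have hmem : ∃ k < 2 ^ n, x ∈ I k := by
        by_cases hx1' : x = 1
        · refine ⟨2 ^ n - 1, Nat.sub_lt (by positivity) one_pos, ?_, ?_⟩
          · rw [hx1', div_le_one h2n]
            push_cast [Nat.one_le_two_pow]
            linarith
          · rw [hx1', le_div_iff₀ h2n]
            push_cast [Nat.one_le_two_pow]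
            linarith
        · have hxl : x < 1 := lt_of_le_of_ne hx1 hx1'
          refine ⟨⌊x * 2 ^ n⌋₊, ?_, ?_, ?_⟩
          · rw [Nat.floor_lt (by positivity)]
            push_cast
            nlinarith
          · rw [div_le_iff₀ h2n]
            exact Nat.floor_le (by positivity)
          · rw [le_div_iff₀ h2n]
            exact (Nat.lt_floor_add_one _).le
      obtain ⟨k, hk, hxk⟩ := hmem
      simp only [mem_iUnion]
      exact ⟨k, Finset.mem_filter.2 ⟨Finset.mem_range.2 hk, ⟨x, hxk, hxK⟩⟩, hxk⟩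
    have hνK : ν K ≤ ∑ k ∈ F, ν (I k) := by
      calc ν K ≤ ν ((K ∩ Icc 0 1) ∪ (Icc 0 1)ᶜ) := by
            apply measure_mono
            intro x hx
            by_cases h : x ∈ Icc (0:ℝ) 1
            · exact Or.inl ⟨hx, h⟩
            · exact Or.inr h
        _ ≤ ν (K ∩ Icc 0 1) + ν (Icc 0 1)ᶜ := measure_union_le _ _
        _ = ν (K ∩ Icc 0 1) := by rw [hν, add_zero]
        _ ≤ ν (⋃ k ∈ F, I k) := measure_mono hcov
        _ ≤ ∑ k ∈ F, ν (I k) := measure_biUnion_finset_le _ _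
    have h2e : (2 : ℝ≥0∞) ^ n ≠ 0 := by positivity
    have h2t : (2 : ℝ≥0∞) ^ n ≠ ⊤ := ENNReal.pow_ne_top (by norm_num)
    have hη : 0 < ε / 2 ^ n := ENNReal.div_pos hε.ne' h2t
    have hη' : ε / 2 ^ n ≠ ⊤ := ENNReal.div_ne_top hε' h2e
    have h5 := z1_holder ν lam q hq hatom S n (ε / 2 ^ n) hη hη' (hsum _ hη hη') F
      (Finset.filter_subset _ _) U hFU
    rw [ENNReal.mul_div_cancel h2e h2t] at h5
    refine hνK.trans (h5.trans ?_)
    gcongr
  -- compact null sets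
  have key2 : ∀ K : Set ℝ, IsCompact K → lam K = 0 → ν K = 0 := by
    intro K hK hlK
    have hSq : S ^ (1 / q) ≠ ⊤ := ENNReal.rpow_ne_top_of_nonneg (by positivity) hS
    by_contra hne
    have ht : Tendsto (fun ε : ℝ≥0∞ => S ^ (1 / q) * (ε + ε) ^ (1 / (q / (q - 1)))) (𝓝 0)
        (𝓝 (S ^ (1 / q) * (0 + 0) ^ (1 / (q / (q - 1))))) := by
      apply ENNReal.Tendsto.const_mul _ (Or.inr hSq)
      apply (ENNReal.continuous_rpow_const.tendsto _).comp
      exact (tendsto_id.add tendsto_id)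
    rw [add_zero, ENNReal.zero_rpow_of_pos hr, mul_zero] at ht
    have h6 : ∀ᶠ ε : ℝ≥0∞ in 𝓝[>] 0, S ^ (1 / q) * (ε + ε) ^ (1 / (q / (q - 1))) < ν K :=
      (ht.mono_left nhdsWithin_le_nhds).eventually_lt_const (pos_iff_ne_zero.2 hne)
    have h7 : ∀ᶠ ε : ℝ≥0∞ in 𝓝[>] 0, ε ≠ ⊤ := by
      apply Filter.Eventually.filter_mono nhdsWithin_le_nhds
      exact (isOpen_ne).mem_nhds (by simp)
    obtain ⟨ε, hε1, hε2, hε3⟩ := (h6.and (h7.and self_mem_nhdsWithin)).exists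
    have := key K hK ε hε3 hε2 (by rw [hlK]; exact hε3)
    exact absurd this (not_le.2 hε1)
  -- general null sets
  apply Measure.AbsolutelyContinuous.mk
  intro A hA hlA
  rw [hA.measure_eq_iSup_isCompact_of_ne_top (measure_ne_top _ _)]
  simp only [ENNReal.iSup_eq_zero]
  intro K hKA hK
  exact key2 K hK (measure_mono_null hKA hlA)

theorem ac_abstract {Ω : Type} [MeasurableSpace Ω] (Q : Measure Ω) [IsProbabilityMeasure Q] (ν lam : Ω → Measure ℝ)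
    (hν : ∀ᵐ w ∂Q, IsFiniteMeasure (ν w) ∧ ν w (Icc 0 1)ᶜ = 0) (hl : ∀ᵐ w ∂Q, IsFiniteMeasure (lam w)) (q : ℝ) (hq : 1 < q)
    (C : ℝ≥0∞) (hC : C ≠ ⊤) (hatom : ∀ x : ℝ, ∀ᵐ w ∂Q, lam w {x} = 0) (hmass : ∫⁻ w, lam w (Icc 0 1) ∂Q ≠ ⊤)
    (hmν : ∀ a b : ℝ, AEMeasurable (fun w => ν w (Icc a b)) Q) (hml : ∀ a b : ℝ, AEMeasurable (fun w => lam w (Icc a b)) Q)
    (hmain : ∀ a b : ℝ, 0 ≤ a → a < b → b ≤ 1 → ∀ η : ℝ≥0∞, 0 < η → η ≠ ⊤ →
      ∫⁻ w, ν w (Icc a b) ^ q * (lam w (Icc a b) + η) ^ (-(q - 1)) ∂Q ≤ C * ∫⁻ w, lam w (Icc a b) ∂Q) :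
    ∀ᵐ w ∂Q, ν w ≪ lam w := by
  have hq0 : 0 < q := by linarith
  have hq1 : 0 < q - 1 := by linarith
  -- no atoms at dyadic points
  have hat : ∀ᵐ w ∂Q, ∀ k n : ℕ, lam w {(k : ℝ) / 2 ^ n} = 0 := by
    rw [ae_all_iff]; intro k
    rw [ae_all_iff]; intro n
    exact hatom _
  let Sη : ℕ → ℝ≥0∞ → Ω → ℝ≥0∞ := fun n η w =>
    ∑ k ∈ Finset.range (2 ^ n), ν w (Icc ((k : ℝ) / 2 ^ n) ((k + 1 : ℝ) / 2 ^ n)) ^ q *
        (lam w (Icc ((k : ℝ) / 2 ^ n) ((k + 1 : ℝ) / 2 ^ n)) + η) ^ (-(q - 1))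
  let e : ℕ → ℝ≥0∞ := fun m => ((m : ℝ≥0∞) + 1)⁻¹
  have he0 : ∀ m, 0 < e m := fun m => ENNReal.inv_pos.2 (ENNReal.add_ne_top.2 ⟨ENNReal.natCast_ne_top m, ENNReal.one_ne_top⟩)
  have het : ∀ m, e m ≠ ⊤ := fun m => ENNReal.inv_ne_top.2 (by positivity)
  have hanti : Antitone e := by
    intro a b hab
    apply ENNReal.inv_le_inv.2
    have : (a : ℝ≥0∞) ≤ b := by exact_mod_cast hab
    exact add_le_add this le_rfl
  have hSmono : ∀ n w, ∀ η η' : ℝ≥0∞, η ≤ η' → Sη n η' w ≤ Sη n η w := by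
    intro n w η η' h
    apply Finset.sum_le_sum
    intro k _
    apply mul_le_mul_right
    rw [ENNReal.rpow_neg, ENNReal.rpow_neg, ENNReal.inv_le_inv]
    exact ENNReal.rpow_le_rpow (add_le_add le_rfl h) hq1.le
  have hSm : ∀ n η, AEMeasurable (Sη n η) Q := by
    intro n η
    apply Finset.aemeasurable_fun_sum
    intro k _
    exact ((hmν _ _).pow_const q).mul (((hml _ _).add_const η).pow_const _)
  let T : ℕ → Ω → ℝ≥0∞ := fun n w => ⨆ m, Sη n (e m) w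
  have hTm : ∀ n, AEMeasurable (T n) Q := fun n => AEMeasurable.iSup (fun m => hSm n (e m))
  set B : ℝ≥0∞ := C * ∫⁻ w, lam w (Icc 0 1) ∂Q with hB
  have hBt : B ≠ ⊤ := ENNReal.mul_ne_top hC hmass
  have hSB : ∀ n m, ∫⁻ w, Sη n (e m) w ∂Q ≤ B := by
    intro n m
    have h2n : (0 : ℝ) < 2 ^ n := by positivity
    have h0 : ∫⁻ w, Sη n (e m) w ∂Q = ∑ k ∈ Finset.range (2 ^ n),
        ∫⁻ w, ν w (Icc ((k : ℝ) / 2 ^ n) ((k + 1 : ℝ) / 2 ^ n)) ^ q *
          (lam w (Icc ((k : ℝ) / 2 ^ n) ((k + 1 : ℝ) / 2 ^ n)) + e m) ^ (-(q - 1)) ∂Q :=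
      lintegral_finsetSum' _ (fun k _ => ((hmν _ _).pow_const q).mul (((hml _ _).add_const (e m)).pow_const _))
    rw [h0]
    have h1 : ∀ k ∈ Finset.range (2 ^ n),
        ∫⁻ w, ν w (Icc ((k : ℝ) / 2 ^ n) ((k + 1 : ℝ) / 2 ^ n)) ^ q *
          (lam w (Icc ((k : ℝ) / 2 ^ n) ((k + 1 : ℝ) / 2 ^ n)) + e m) ^ (-(q - 1)) ∂Q ≤
        C * ∫⁻ w, lam w (Icc ((k : ℝ) / 2 ^ n) ((k + 1 : ℝ) / 2 ^ n)) ∂Q := by
      intro k hk
      have hk' : (k : ℝ) + 1 ≤ 2 ^ n := by exact_mod_cast Finset.mem_range.1 hk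
      apply hmain _ _ (by positivity) _ _ _ (he0 m) (het m)
      · gcongr; linarith
      · rw [div_le_one h2n]; exact hk'
    refine (Finset.sum_le_sum h1).trans ?_
    rw [← Finset.mul_sum, ← lintegral_finsetSum' _ (fun k _ => hml _ _)]
    rw [hB]
    apply mul_le_mul_right
    apply lintegral_mono_ae
    filter_upwards [hat] with w hw
    apply z1_sum_le (lam w) hw n
    intro k hk x hx
    have hk' : (k : ℝ) + 1 ≤ 2 ^ n := by exact_mod_cast Finset.mem_range.1 hk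
    refine ⟨le_trans (by positivity) hx.1, hx.2.trans ?_⟩
    rw [div_le_one h2n]; exact hk'
  have hTB : ∀ n, ∫⁻ w, T n w ∂Q ≤ B := by
    intro n
    simp only [T]
    rw [lintegral_iSup' (fun m => hSm n (e m))
      (Eventually.of_forall (fun w => fun a b hab => hSmono n w _ _ (hanti hab)))]
    exact iSup_le (fun m => hSB n m)
  have hliminf : ∫⁻ w, liminf (fun n => T n w) atTop ∂Q ≤ B := by
    refine (lintegral_liminf_le' hTm).trans ?_
    calc liminf (fun n => ∫⁻ w, T n w ∂Q) atTop ≤ liminf (fun _ : ℕ => B) atTop :=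
          liminf_le_liminf (Eventually.of_forall hTB)
      _ = B := liminf_const _
  have hfin : ∀ᵐ w ∂Q, liminf (fun n => T n w) atTop < ⊤ :=
    ae_lt_top' (by
      simp only [liminf_eq_iSup_iInf_of_nat]
      exact AEMeasurable.iSup (fun n => AEMeasurable.biInf _ (to_countable _) (fun i _ => hTm i)))
      (ne_top_of_le_ne_top hBt hliminf)
  filter_upwards [hν, hl, hat, hfin] with w h1 h2 h3 h4
  have : IsFiniteMeasure (ν w) := h1.1
  have : IsFiniteMeasure (lam w) := h2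
  set L := liminf (fun n => T n w) atTop with hL
  apply ac_det (ν w) (lam w) h1.2 q hq h3 (L + 1) (ENNReal.add_ne_top.2 ⟨h4.ne, ENNReal.one_ne_top⟩)
  intro N
  by_contra hcon
  push Not at hcon
  have h5 : ∀ n ≥ N, L + 1 ≤ T n w := by
    intro n hn
    obtain ⟨η, hη, hη', hlt⟩ := hcon n hn
    obtain ⟨m, hm⟩ : ∃ m : ℕ, e m ≤ η := by
      obtain ⟨m, hm⟩ := ENNReal.exists_inv_nat_lt hη.ne'
      refine ⟨m, le_trans ?_ hm.le⟩
      apply ENNReal.inv_le_inv.2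
      exact le_self_add
    exact (hlt.le.trans (hSmono n w _ _ hm)).trans (le_iSup (fun m => Sη n (e m) w) m)
  have h6 : L + 1 ≤ L := by
    rw [hL]
    conv_lhs => rw [← hL]
    apply le_liminf_of_le
    · isBoundedDefault
    · filter_upwards [eventually_ge_atTop N] with n hn
      exact h5 n hn
  exact absurd h6 (not_le.2 (ENNReal.lt_add_right h4.ne one_ne_zero))

end Chaos
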