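import Pool.Agent.Lib.MP_9eae41_pr.Y0

set_option autoImplicit false

open Complex MeasureTheory Set Filter Topology
open scoped ENNReal

namespace Chaos

/-! Row Z2: from continuous test functions to intervals and measurable weights. -/

/-- continuous approximation of the indicator of a closed set -/
noncomputable def z2_th {X : Type*} [PseudoEMetricSpace X] (F : Set X) (k : ℕ) (x : X) : ℝ :=
  ((thickenedIndicator (δ := 1 / ((k : ℝ) + 1)) (by positivity) F x : NNReal) : ℝ)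

theorem z2_th_cont {X : Type*} [PseudoEMetricSpace X] (F : Set X) (k : ℕ) : Continuous (z2_th F k) :=
  NNReal.continuous_coe.comp (thickenedIndicator (δ := 1 / ((k : ℝ) + 1)) (by positivity) F).continuous

theorem z2_th_nonneg {X : Type*} [PseudoEMetricSpace X] (F : Set X) (k : ℕ) (x : X) : 0 ≤ z2_th F k x :=
  NNReal.coe_nonneg _

theorem z2_th_le {X : Type*} [PseudoEMetricSpace X] (F : Set X) (k : ℕ) (x : X) : z2_th F k x ≤ 1 := by
  unfold z2_th
  exact_mod_cast thickenedIndicator_le_one (δ := 1 / ((k : ℝ) + 1)) (by positivity) F x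

theorem z2_th_one {X : Type*} [PseudoEMetricSpace X] {F : Set X} (k : ℕ) {x : X} (hx : x ∈ F) :
    z2_th F k x = 1 := by
  unfold z2_th
  rw [thickenedIndicator_one (δ := 1 / ((k : ℝ) + 1)) (by positivity) F hx]
  rfl

theorem z2_tendsto {X : Type*} [MeasurableSpace X] [PseudoEMetricSpace X] [OpensMeasurableSpace X]
    (m : Measure X) [IsFiniteMeasure m] {F : Set X} (hF : IsClosed F) :
    Tendsto (fun k : ℕ => ∫⁻ x, ENNReal.ofReal (z2_th F k x) ∂m) atTop (𝓝 (m F)) := by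
  have h := tendsto_lintegral_thickenedIndicator_of_isClosed m hF
    (δs := fun k : ℕ => 1 / ((k : ℝ) + 1)) (fun k => by positivity)
    tendsto_one_div_add_atTop_nhds_zero_nat
  refine h.congr fun k => ?_
  refine lintegral_congr fun x => ?_
  unfold z2_th
  rw [ENNReal.ofReal_coe_nnreal]

theorem z2_le {X : Type*} [MeasurableSpace X] [PseudoEMetricSpace X] [OpensMeasurableSpace X]
    (m : Measure X) {F : Set X} (hF : IsClosed F) (k : ℕ) :
    m F ≤ ∫⁻ x, ENNReal.ofReal (z2_th F k x) ∂m := by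
  calc m F = ∫⁻ x, F.indicator (fun _ => (1 : ℝ≥0∞)) x ∂m := by
        rw [lintegral_indicator hF.measurableSet]; simp
    _ ≤ _ := by
        refine lintegral_mono fun x => ?_
        by_cases hx : x ∈ F
        · rw [indicator_of_mem hx, z2_th_one k hx]; simp
        · rw [indicator_of_notMem hx]; exact bot_le

/-- the first m coordinates -/
def z2_pi (m : ℕ) (v : ℕ → ℂ) : Fin m → ℂ := fun j => v j

theorem z2_pi_meas (m : ℕ) : Measurable (z2_pi m) :=
  measurable_pi_lambda _ fun j => measurable_pi_apply _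

theorem z2_pi_cont (m : ℕ) : Continuous (z2_pi m) :=
  continuous_pi fun j => continuous_apply _

theorem z2_closed (F : Set (ℕ → ℂ)) (hF : IsClosed F) :
    ⋂ m : ℕ, z2_pi m ⁻¹' closure (z2_pi m '' F) = F := by
  apply Subset.antisymm
  · intro x hx
    have h1 : ∀ m : ℕ, ∃ y ∈ F, dist (z2_pi m x) (z2_pi m y) < 1 / ((m : ℝ) + 1) := by
      intro m
      have h2 := mem_iInter.mp hx m
      rw [mem_preimage, Metric.mem_closure_iff] at h2
      obtain ⟨b, ⟨y, hy, rfl⟩, hb⟩ := h2 (1 / ((m : ℝ) + 1)) (by positivity)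
      exact ⟨y, hy, hb⟩
    choose y hy hd using h1
    have ht : Tendsto y atTop (𝓝 x) := by
      rw [tendsto_pi_nhds]
      intro i
      rw [tendsto_iff_dist_tendsto_zero]
      refine squeeze_zero' (Eventually.of_forall fun _ => dist_nonneg) ?_
        tendsto_one_div_add_atTop_nhds_zero_nat
      filter_upwards [eventually_gt_atTop i] with m hm
      have h3 := dist_le_pi_dist (z2_pi m x) (z2_pi m (y m)) ⟨i, hm⟩
      rw [dist_comm]
      exact h3.trans (hd m).le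
    have := mem_closure_of_tendsto ht (Eventually.of_forall hy)
    rwa [hF.closure_eq] at this
  · intro x hx
    exact mem_iInter.mpr fun m => subset_closure ⟨x, hx, rfl⟩

theorem z2_anti (F : Set (ℕ → ℂ)) : Antitone fun m : ℕ => z2_pi m ⁻¹' closure (z2_pi m '' F) := by
  intro m n hmn x hx
  simp only [mem_preimage] at hx ⊢
  let ρ : (Fin n → ℂ) → (Fin m → ℂ) := fun v j => v ⟨j, lt_of_lt_of_le j.2 hmn⟩
  have hρ : Continuous ρ := continuous_pi fun j => continuous_apply _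
  have h1 : z2_pi m '' F = ρ '' (z2_pi n '' F) := by
    rw [image_image]; rfl
  have h2 : z2_pi m x = ρ (z2_pi n x) := rfl
  rw [h1, h2]
  exact image_closure_subset_closure_image hρ ⟨_, hx, rfl⟩

theorem z2_le_meas (m1 m2 : Measure (ℕ → ℂ)) [IsFiniteMeasure m1] [IsFiniteMeasure m2]
    (H : ∀ (m : ℕ) (h : (Fin m → ℂ) → ℝ), Continuous h → (∀ v, 0 ≤ h v) →
      ∫⁻ v, ENNReal.ofReal (h (fun j => v j)) ∂m1 ≤ ∫⁻ v, ENNReal.ofReal (h (fun j => v j)) ∂m2) :
    m1 ≤ m2 := by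
  have s1 : ∀ (m : ℕ) (K : Set (Fin m → ℂ)), IsClosed K → m1 (z2_pi m ⁻¹' K) ≤ m2 (z2_pi m ⁻¹' K) := by
    intro m K hK
    rw [← Measure.map_apply (z2_pi_meas m) hK.measurableSet,
      ← Measure.map_apply (z2_pi_meas m) hK.measurableSet]
    have hlim := z2_tendsto (m2.map (z2_pi m)) hK
    refine ge_of_tendsto' hlim fun k => ?_
    have hme : Measurable fun x : Fin m → ℂ => ENNReal.ofReal (z2_th K k x) :=
      (ENNReal.measurable_ofReal).comp (z2_th_cont K k).measurable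
    refine (z2_le _ hK k).trans ?_
    rw [lintegral_map hme (z2_pi_meas m), lintegral_map hme (z2_pi_meas m)]
    exact H m (z2_th K k) (z2_th_cont K k) (z2_th_nonneg K k)
  have s2 : ∀ F : Set (ℕ → ℂ), IsClosed F → m1 F ≤ m2 F := by
    intro F hF
    have hlim := tendsto_measure_iInter_atTop (μ := m2)
      (s := fun m : ℕ => z2_pi m ⁻¹' closure (z2_pi m '' F))
      (fun m => ((z2_pi_meas m) isClosed_closure.measurableSet).nullMeasurableSet) (z2_anti F)
      ⟨0, measure_ne_top _ _⟩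
    rw [z2_closed F hF] at hlim
    refine ge_of_tendsto' hlim fun m => ?_
    refine le_trans (measure_mono fun x hx => ?_) (s1 m _ isClosed_closure)
    exact subset_closure ⟨x, hx, rfl⟩
  rw [Measure.le_iff]
  intro A hA
  rw [hA.measure_eq_iSup_isClosed_of_ne_top (measure_ne_top m1 A)]
  refine iSup_le fun K => iSup_le fun hKA => iSup_le fun hK => ?_
  exact (s2 K hK).trans (measure_mono hKA)

section

variable {Ω : Type} [MeasurableSpace Ω] (Q : Measure Ω) [IsProbabilityMeasure Q] (ν : Ω → Measure ℝ)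
  (W : Ω → (ℕ → ℂ)) (hW : AEMeasurable W Q) (lam : (ℕ → ℂ) → Measure ℝ) (hlaw : Q.map W = P.map ptI)

include hW hlaw in
theorem z2_weight
    (hmν : ∀ f : ℝ → ℝ, Continuous f → (∀ x, 0 ≤ f x) → AEMeasurable (fun w => ∫⁻ x, ENNReal.ofReal (f x) ∂(ν w)) Q)
    (hml : ∀ f : ℝ → ℝ, Continuous f → (∀ x, 0 ≤ f x) → AEMeasurable (fun v => ∫⁻ x, ENNReal.ofReal (f x) ∂(lam v)) (P.map ptI))
    (q : ℝ) (hq : 1 < q) (C : ℝ≥0∞) (hC : C ≠ ⊤) (hfin : ∫⁻ v, lam v univ ^ q ∂(P.map ptI) ≠ ⊤)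
    (hmain : ∀ f : ℝ → ℝ, Continuous f → (∀ x, 0 < f x) → ∀ (m : ℕ) (h : (Fin m → ℂ) → ℝ), Continuous h → (∀ v, 0 ≤ h v) →
      ∫⁻ w, (∫⁻ x, ENNReal.ofReal (f x) ∂(ν w)) ^ q * ENNReal.ofReal (h (fun j => W w j)) ∂Q ≤
        C * ∫⁻ v, (∫⁻ x, ENNReal.ofReal (f x) ∂(lam v)) ^ q * ENNReal.ofReal (h (fun j => v j)) ∂(P.map ptI))
    (f : ℝ → ℝ) (hf : Continuous f) (hf0 : ∀ x, 0 < f x) (M : ℝ) (hM : ∀ x, f x ≤ M)
    (g : (ℕ → ℂ) → ℝ≥0∞) (hg : AEMeasurable g (P.map ptI)) :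
    ∫⁻ w, (∫⁻ x, ENNReal.ofReal (f x) ∂(ν w)) ^ q * g (W w) ∂Q ≤
      C * ∫⁻ v, (∫⁻ x, ENNReal.ofReal (f x) ∂(lam v)) ^ q * g v ∂(P.map ptI) := by
  have hq0 : 0 ≤ q := by linarith
  have hFm : AEMeasurable (fun w => (∫⁻ x, ENNReal.ofReal (f x) ∂(ν w)) ^ q) Q :=
    (hmν f hf fun x => (hf0 x).le).pow_const q
  have hGm : AEMeasurable (fun v => (∫⁻ x, ENNReal.ofReal (f x) ∂(lam v)) ^ q) (P.map ptI) :=
    (hml f hf fun x => (hf0 x).le).pow_const q
  set m1 : Measure (ℕ → ℂ) :=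
    (Q.withDensity fun w => (∫⁻ x, ENNReal.ofReal (f x) ∂(ν w)) ^ q).map W with hm1
  set m2 : Measure (ℕ → ℂ) :=
    C • (P.map ptI).withDensity (fun v => (∫⁻ x, ENNReal.ofReal (f x) ∂(lam v)) ^ q) with hm2
  have hW' : AEMeasurable W (Q.withDensity fun w => (∫⁻ x, ENNReal.ofReal (f x) ∂(ν w)) ^ q) :=
    hW.mono_ac (withDensity_absolutelyContinuous _ _)
  have lm1 : ∀ u : (ℕ → ℂ) → ℝ≥0∞, Measurable u →
      ∫⁻ v, u v ∂m1 = ∫⁻ w, (∫⁻ x, ENNReal.ofReal (f x) ∂(ν w)) ^ q * u (W w) ∂Q := by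
    intro u hu
    rw [hm1, lintegral_map' hu.aemeasurable hW',
      lintegral_withDensity_eq_lintegral_mul₀ hFm
        (show AEMeasurable (fun w => u (W w)) Q from hu.comp_aemeasurable hW)]
    rfl
  have lm2 : ∀ u : (ℕ → ℂ) → ℝ≥0∞, Measurable u →
      ∫⁻ v, u v ∂m2 = C * ∫⁻ v, (∫⁻ x, ENNReal.ofReal (f x) ∂(lam v)) ^ q * u v ∂(P.map ptI) := by
    intro u hu
    rw [hm2, lintegral_smul_measure, lintegral_withDensity_eq_lintegral_mul₀ hGm hu.aemeasurable]
    rfl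
  have hGfin : ∫⁻ v, (∫⁻ x, ENNReal.ofReal (f x) ∂(lam v)) ^ q ∂(P.map ptI) ≠ ⊤ := by
    have h1 : ∫⁻ v, (∫⁻ x, ENNReal.ofReal (f x) ∂(lam v)) ^ q ∂(P.map ptI) ≤
        ENNReal.ofReal M ^ q * ∫⁻ v, lam v univ ^ q ∂(P.map ptI) := by
      rw [← lintegral_const_mul' _ _ (ENNReal.rpow_ne_top_of_nonneg hq0 ENNReal.ofReal_ne_top)]
      refine lintegral_mono fun v => ?_
      rw [← ENNReal.mul_rpow_of_nonneg _ _ hq0]
      refine ENNReal.rpow_le_rpow ?_ hq0
      calc ∫⁻ x, ENNReal.ofReal (f x) ∂(lam v) ≤ ∫⁻ x, ENNReal.ofReal M ∂(lam v) :=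
            lintegral_mono fun x => ENNReal.ofReal_le_ofReal (hM x)
        _ = ENNReal.ofReal M * lam v univ := lintegral_const _
    exact ne_top_of_le_ne_top
      (ENNReal.mul_ne_top (ENNReal.rpow_ne_top_of_nonneg hq0 ENNReal.ofReal_ne_top) hfin) h1
  have u2 : m2 univ = C * ∫⁻ v, (∫⁻ x, ENNReal.ofReal (f x) ∂(lam v)) ^ q ∂(P.map ptI) := by
    have := lm2 (fun _ => 1) measurable_const
    simpa using this
  have f2 : IsFiniteMeasure m2 := ⟨by rw [u2]; exact (ENNReal.mul_ne_top hC hGfin).lt_top⟩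
  have u1 : m1 univ = ∫⁻ w, (∫⁻ x, ENNReal.ofReal (f x) ∂(ν w)) ^ q ∂Q := by
    have := lm1 (fun _ => 1) measurable_const
    simpa using this
  have f1 : IsFiniteMeasure m1 := by
    refine ⟨?_⟩
    have h1 := hmain f hf hf0 0 (fun _ => 1) continuous_const (fun _ => zero_le_one)
    simp only [ENNReal.ofReal_one, mul_one] at h1
    rw [u1]
    exact (ne_top_of_le_ne_top (ENNReal.mul_ne_top hC hGfin) h1).lt_top
  have hle : m1 ≤ m2 := by
    refine z2_le_meas m1 m2 fun m h hh hh0 => ?_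
    have hme : Measurable fun v : ℕ → ℂ => ENNReal.ofReal (h (fun j => v j)) :=
      ENNReal.measurable_ofReal.comp (hh.measurable.comp (z2_pi_meas m))
    rw [lm1 _ hme, lm2 _ hme]
    exact hmain f hf hf0 m h hh hh0
  obtain ⟨g', hg'm, hg'⟩ := hg
  have e1 : ∫⁻ w, (∫⁻ x, ENNReal.ofReal (f x) ∂(ν w)) ^ q * g (W w) ∂Q =
      ∫⁻ w, (∫⁻ x, ENNReal.ofReal (f x) ∂(ν w)) ^ q * g' (W w) ∂Q := by
    refine lintegral_congr_ae ?_
    rw [← hlaw] at hg'
    filter_upwards [ae_of_ae_map hW hg'] with w hw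
    rw [hw]
  have e2 : ∫⁻ v, (∫⁻ x, ENNReal.ofReal (f x) ∂(lam v)) ^ q * g v ∂(P.map ptI) =
      ∫⁻ v, (∫⁻ x, ENNReal.ofReal (f x) ∂(lam v)) ^ q * g' v ∂(P.map ptI) := by
    refine lintegral_congr_ae ?_
    filter_upwards [hg'] with w hw
    rw [hw]
  rw [e1, e2, ← lm1 g' hg'm, ← lm2 g' hg'm]
  exact lintegral_mono' hle le_rfl

end

theorem ext_main {Ω : Type} [MeasurableSpace Ω] (Q : Measure Ω) [IsProbabilityMeasure Q] (ν : Ω → Measure ℝ) (W : Ω → (ℕ → ℂ))
    (hW : AEMeasurable W Q) (lam : (ℕ → ℂ) → Measure ℝ) (hlaw : Q.map W = P.map ptI)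
    (hν : ∀ᵐ w ∂Q, IsFiniteMeasure (ν w) ∧ ν w (Icc 0 1)ᶜ = 0)
    (hl : ∀ᵐ x ∂(P.map ptI), IsFiniteMeasure (lam x) ∧ lam x (Icc 0 1)ᶜ = 0)
    (hmν : ∀ f : ℝ → ℝ, Continuous f → (∀ x, 0 ≤ f x) → AEMeasurable (fun w => ∫⁻ x, ENNReal.ofReal (f x) ∂(ν w)) Q)
    (hml : ∀ f : ℝ → ℝ, Continuous f → (∀ x, 0 ≤ f x) → AEMeasurable (fun v => ∫⁻ x, ENNReal.ofReal (f x) ∂(lam v)) (P.map ptI))
    (q : ℝ) (hq : 1 < q) (C : ℝ≥0∞) (hC : C ≠ ⊤) (hfin : ∫⁻ v, lam v univ ^ q ∂(P.map ptI) ≠ ⊤)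
    (hint : ∀ f : ℝ → ℝ, Continuous f → (∀ x, 0 ≤ f x) →
      ∫⁻ v, (∫⁻ x, ENNReal.ofReal (f x) ∂(lam v)) ∂(P.map ptI) = ∫⁻ x in Icc (0:ℝ) 1, ENNReal.ofReal (f x))
    (hmain : ∀ f : ℝ → ℝ, Continuous f → (∀ x, 0 < f x) → ∀ (m : ℕ) (h : (Fin m → ℂ) → ℝ), Continuous h → (∀ v, 0 ≤ h v) →
      ∫⁻ w, (∫⁻ x, ENNReal.ofReal (f x) ∂(ν w)) ^ q * ENNReal.ofReal (h (fun j => W w j)) ∂Q ≤
        C * ∫⁻ v, (∫⁻ x, ENNReal.ofReal (f x) ∂(lam v)) ^ q * ENNReal.ofReal (h (fun j => v j)) ∂(P.map ptI)) :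
    (∀ x : ℝ, ∀ᵐ w ∂Q, lam (W w) {x} = 0) ∧ (∫⁻ w, lam (W w) (Icc 0 1) ∂Q ≠ ⊤) ∧
    (∀ a b : ℝ, AEMeasurable (fun w => ν w (Icc a b)) Q) ∧ (∀ a b : ℝ, AEMeasurable (fun w => lam (W w) (Icc a b)) Q) ∧
    (∀ a b : ℝ, 0 ≤ a → a < b → b ≤ 1 → ∀ η : ℝ≥0∞, 0 < η → η ≠ ⊤ →
      ∫⁻ w, ν w (Icc a b) ^ q * (lam (W w) (Icc a b) + η) ^ (-(q - 1)) ∂Q ≤ C * ∫⁻ w, lam (W w) (Icc a b) ∂Q) := by
  have hq0 : 0 ≤ q := by linarith
  -- transfer of almost sure statements
  have hlW : ∀ᵐ w ∂Q, IsFiniteMeasure (lam (W w)) := by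
    rw [← hlaw] at hl
    filter_upwards [ae_of_ae_map hW hl] with w hw
    exact hw.1
  -- measurability on the sequence space
  have hmI : ∀ a b : ℝ, AEMeasurable (fun v => lam v (Icc a b)) (P.map ptI) := by
    intro a b
    refine aemeasurable_of_tendsto_metrizable_ae atTop
      (f := fun (k : ℕ) v => ∫⁻ x, ENNReal.ofReal (z2_th (Icc a b) k x) ∂(lam v))
      (fun k => hml _ (z2_th_cont _ k) (z2_th_nonneg _ k)) ?_
    filter_upwards [hl] with v hv
    haveI := hv.1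
    exact z2_tendsto (lam v) isClosed_Icc
  have hmIW : ∀ a b : ℝ, AEMeasurable (fun w => lam (W w) (Icc a b)) Q := by
    intro a b
    have h1 := hmI a b
    rw [← hlaw] at h1
    exact h1.comp_aemeasurable hW
  have htr : ∀ u : (ℕ → ℂ) → ℝ≥0∞, AEMeasurable u (P.map ptI) →
      ∫⁻ w, u (W w) ∂Q = ∫⁻ v, u v ∂(P.map ptI) := by
    intro u hu
    rw [← hlaw] at hu ⊢
    rw [lintegral_map' hu hW]
  refine ⟨?_, ?_, ?_, hmIW, ?_⟩
  · intro x
    have hz : ∫⁻ w, lam (W w) {x} ∂Q = 0 := by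
      have hlim : Tendsto (fun k : ℕ => ∫⁻ y in Icc (0 : ℝ) 1, ENNReal.ofReal (z2_th (Icc x x) k y)) atTop
          (𝓝 ((volume.restrict (Icc (0 : ℝ) 1)) (Icc x x))) := z2_tendsto _ isClosed_Icc
      have h0 : (volume.restrict (Icc (0 : ℝ) 1)) (Icc x x) = 0 := by
        rw [Icc_self]
        exact le_antisymm ((Measure.restrict_apply_le _ _).trans (by simp)) bot_le
      rw [h0] at hlim
      refine le_antisymm (ge_of_tendsto' hlim fun k => ?_) bot_le
      rw [← hint _ (z2_th_cont _ k) (z2_th_nonneg _ k),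
        ← htr _ (hml _ (z2_th_cont _ k) (z2_th_nonneg _ k))]
      refine lintegral_mono fun w => ?_
      have := z2_le (lam (W w)) (isClosed_Icc (a := x) (b := x)) k
      rwa [Icc_self] at this ⊢
    have hm := hmIW x x
    simp only [Icc_self] at hm
    exact (lintegral_eq_zero_iff' hm).mp hz
  · have h1 : ∫⁻ w, lam (W w) (Icc 0 1) ∂Q ≤ 1 := by
      calc ∫⁻ w, lam (W w) (Icc 0 1) ∂Q ≤ ∫⁻ w, (∫⁻ x, ENNReal.ofReal ((fun _ : ℝ => (1 : ℝ)) x) ∂(lam (W w))) ∂Q := by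
            refine lintegral_mono fun w => ?_
            simp only [ENNReal.ofReal_one, lintegral_const, one_mul]
            exact measure_mono (subset_univ _)
        _ = 1 := by
            rw [htr _ (hml (fun _ => 1) continuous_const fun _ => zero_le_one),
              hint (fun _ => 1) continuous_const fun _ => zero_le_one]
            simp
    exact ne_top_of_le_ne_top ENNReal.one_ne_top h1
  · intro a b
    refine aemeasurable_of_tendsto_metrizable_ae atTop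
      (f := fun (k : ℕ) w => ∫⁻ x, ENNReal.ofReal (z2_th (Icc a b) k x) ∂(ν w))
      (fun k => hmν _ (z2_th_cont _ k) (z2_th_nonneg _ k)) ?_
    filter_upwards [hν] with w hw
    haveI := hw.1
    exact z2_tendsto (ν w) isClosed_Icc
  · intro a b _ _ _ η hη hη'
    set g : (ℕ → ℂ) → ℝ≥0∞ := fun v => (lam v (Icc a b) + η) ^ (-(q - 1)) with hg
    have hgm : AEMeasurable g (P.map ptI) := ((hmI a b).add_const η).pow_const _
    have hgb : ∀ v, g v ≤ η ^ (-(q - 1)) := fun v => by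
      simp only [hg]
      rw [ENNReal.rpow_neg, ENNReal.rpow_neg]
      exact ENNReal.inv_le_inv.mpr (ENNReal.rpow_le_rpow le_add_self (by linarith))
    have hηt : η ^ (-(q - 1)) ≠ ⊤ := by
      rw [ENNReal.rpow_neg]
      exact ENNReal.inv_ne_top.mpr (ENNReal.rpow_pos hη hη').ne'
    -- the test functions
    set fk : ℕ → ℝ → ℝ := fun k x => z2_th (Icc a b) k x + 1 / ((k : ℝ) + 1) with hfk
    have fk1 : ∀ k, Continuous (fk k) := fun k => (z2_th_cont _ k).add continuous_const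
    have fk2 : ∀ k x, 0 < fk k x := fun k x => by
      have := z2_th_nonneg (Icc a b) k x
      have h2 : 0 < 1 / ((k : ℝ) + 1) := by positivity
      simp only [hfk]; linarith
    have hk1 : ∀ k : ℕ, 1 / ((k : ℝ) + 1) ≤ 1 := fun k => by
      rw [div_le_one (by positivity)]
      have : (0 : ℝ) ≤ k := by positivity
      linarith
    have fk3 : ∀ k x, fk k x ≤ 2 := fun k x => by
      have := z2_th_le (Icc a b) k x
      have := hk1 k
      simp only [hfk]; linarith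
    have key : ∀ k : ℕ, ∫⁻ w, ν w (Icc a b) ^ q * g (W w) ∂Q ≤
        C * ∫⁻ v, (∫⁻ x, ENNReal.ofReal (fk k x) ∂(lam v)) ^ q * g v ∂(P.map ptI) := by
      intro k
      refine le_trans (lintegral_mono fun w => ?_)
        (z2_weight Q ν W hW lam hlaw hmν hml q hq C hC hfin hmain (fk k) (fk1 k) (fk2 k) 2 (fk3 k) g hgm)
      simp only
      gcongr
      refine (z2_le (ν w) (isClosed_Icc (a := a) (b := b)) k).trans (lintegral_mono fun x => ?_)
      refine ENNReal.ofReal_le_ofReal ?_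
      have h2 : 0 < 1 / ((k : ℝ) + 1) := by positivity
      simp only [hfk]; linarith
    have hlim : Tendsto (fun k : ℕ => ∫⁻ v, (∫⁻ x, ENNReal.ofReal (fk k x) ∂(lam v)) ^ q * g v ∂(P.map ptI))
        atTop (𝓝 (∫⁻ v, (lam v (Icc a b)) ^ q * g v ∂(P.map ptI))) := by
      refine tendsto_lintegral_of_dominated_convergence'
        (fun v => (2 * lam v univ) ^ q * η ^ (-(q - 1))) (fun k => ?_) (fun k => ?_) ?_ ?_
      · exact ((hml _ (fk1 k) fun x => (fk2 k x).le).pow_const q).mul hgm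
      · refine Eventually.of_forall fun v => ?_
        simp only
        refine mul_le_mul' (ENNReal.rpow_le_rpow ?_ hq0) (hgb v)
        calc ∫⁻ x, ENNReal.ofReal (fk k x) ∂(lam v) ≤ ∫⁻ x, 2 ∂(lam v) := by
              refine lintegral_mono fun x => ?_
              have := ENNReal.ofReal_le_ofReal (fk3 k x)
              simpa using this
          _ = 2 * lam v univ := lintegral_const _
      · have : ∫⁻ v, (2 * lam v univ) ^ q * η ^ (-(q - 1)) ∂(P.map ptI) =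
            (2 : ℝ≥0∞) ^ q * η ^ (-(q - 1)) * ∫⁻ v, lam v univ ^ q ∂(P.map ptI) := by
          rw [← lintegral_const_mul' _ _ (ENNReal.mul_ne_top
            (ENNReal.rpow_ne_top_of_nonneg hq0 (by simp)) hηt)]
          refine lintegral_congr fun v => ?_
          rw [ENNReal.mul_rpow_of_nonneg _ _ hq0]
          ring
        rw [this]
        exact ENNReal.mul_ne_top (ENNReal.mul_ne_top
            (ENNReal.rpow_ne_top_of_nonneg hq0 (by simp)) hηt) hfin
      · filter_upwards [hl] with v hv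
        haveI := hv.1
        have t1 := z2_tendsto (lam v) (isClosed_Icc (a := a) (b := b))
        have t2 : Tendsto (fun k : ℕ => ENNReal.ofReal (1 / ((k : ℝ) + 1)) * lam v univ) atTop (𝓝 0) := by
          have t3 : Tendsto (fun k : ℕ => ENNReal.ofReal (1 / ((k : ℝ) + 1))) atTop (𝓝 0) := by
            have := ENNReal.tendsto_ofReal (tendsto_one_div_add_atTop_nhds_zero_nat (𝕜 := ℝ))
            simpa using this
          have t4 := ENNReal.Tendsto.mul_const t3 (Or.inr (measure_ne_top (lam v) univ))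
          simpa using t4
        have t5 : Tendsto (fun k : ℕ => ∫⁻ x, ENNReal.ofReal (fk k x) ∂(lam v)) atTop (𝓝 (lam v (Icc a b))) := by
          have t6 := t1.add t2
          rw [add_zero] at t6
          refine t6.congr fun k => ?_
          rw [← lintegral_const, ← lintegral_add_right _ measurable_const]
          refine lintegral_congr fun x => ?_
          rw [← ENNReal.ofReal_add (z2_th_nonneg _ k x) (by positivity)]
        have t7 := (ENNReal.continuous_rpow_const (y := q)).continuousAt.tendsto.comp t5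
        exact ENNReal.Tendsto.mul_const t7 (Or.inr (ne_top_of_le_ne_top hηt (hgb v)))
    have hfinal : ∫⁻ w, ν w (Icc a b) ^ q * g (W w) ∂Q ≤
        C * ∫⁻ v, (lam v (Icc a b)) ^ q * g v ∂(P.map ptI) :=
      ge_of_tendsto' (ENNReal.Tendsto.const_mul hlim (Or.inr hC)) key
    refine hfinal.trans ?_
    rw [htr _ (hmI a b)]
    refine mul_le_mul' le_rfl (lintegral_mono_ae ?_)
    filter_upwards [hl] with v hv
    haveI := hv.1
    have hLt : lam v (Icc a b) ≠ ⊤ := measure_ne_top _ _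
    set L : ℝ≥0∞ := lam v (Icc a b) with hL
    have hs : L + η ≠ ⊤ := ENNReal.add_ne_top.mpr ⟨hLt, hη'⟩
    have hs0 : L + η ≠ 0 := (lt_of_lt_of_le hη le_add_self).ne'
    have e1 : L ^ q = L * L ^ (q - 1) := by
      rcases eq_or_ne L 0 with h0 | h0
      · rw [h0, ENNReal.zero_rpow_of_pos (by linarith)]; simp
      · have h5 : q = 1 + (q - 1) := by ring
        conv_lhs => rw [h5]
        rw [ENNReal.rpow_add _ _ h0 hLt, ENNReal.rpow_one]
    simp only [hg]
    rw [← hL, e1, mul_assoc]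
    calc L * (L ^ (q - 1) * (L + η) ^ (-(q - 1)))
        ≤ L * ((L + η) ^ (q - 1) * (L + η) ^ (-(q - 1))) := by
          refine mul_le_mul' le_rfl (mul_le_mul' (ENNReal.rpow_le_rpow le_self_add (by linarith)) le_rfl)
      _ = L := by
          rw [← ENNReal.rpow_add _ _ hs0 hs]
          simp

end Chaos
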