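import Pool.Agent.Lib.MP_9eae41_pr.Y0

set_option autoImplicit false

open Complex MeasureTheory Set Filter Topology
open scoped ENNReal

namespace Chaos

/-! Row Z3 (350 lines): existence of the chaos. For f continuous nonnegative the integrals of f against lamN N θ form a
nonnegative martingale for the filtration of the first N angles (martingale_of_setIntegral_eq_succ and independence under P),
so they converge almost surely (Submartingale.ae_tendsto_limitProcess; the mean is the integral of f over [0,1]). Take a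
countable dense family in C[0,1] containing 1; on the almost sure event the limit exists for all f and is a positive linear
functional, hence a measure (RealRMK.rieszMeasure on Icc 0 1, mapped to the reals). It depends on θ only through the phases
ptI θ: zr N θ x is a function of ptI θ, so define lam v by the limit for v when it exists and 0 otherwise. -/

open CompactlySupported CompactlySupportedContinuousMap in
/-- deterministic part: positive functionals converging on a dense sequence -/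
private theorem z3_det (a : ℕ → C(Icc (0:ℝ) 1, ℝ) →ₗ[ℝ] ℝ) (hpos : ∀ N g, 0 ≤ g → 0 ≤ a N g)
    (d : ℕ → C(Icc (0:ℝ) 1, ℝ)) (hd : DenseRange d)
    (hconv : ∀ k, ∃ l, Tendsto (fun N => a N (d k)) atTop (𝓝 l))
    (hone : ∃ l, Tendsto (fun N => a N 1) atTop (𝓝 l)) :
    ∃ m : Measure (Icc (0:ℝ) 1), IsFiniteMeasure m ∧
      ∀ g : C(Icc (0:ℝ) 1, ℝ), Tendsto (fun N => a N g) atTop (𝓝 (∫ x, g x ∂m)) := by
  have hbd : ∀ N g, |a N g| ≤ ‖g‖ * a N 1 := by
    intro N g
    have h1 : 0 ≤ a N (‖g‖ • (1 : C(Icc (0:ℝ) 1, ℝ)) - g) := by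
      apply hpos
      intro x
      have := le_of_abs_le (g.norm_coe_le_norm x)
      simpa using this
    have h2 : 0 ≤ a N (‖g‖ • (1 : C(Icc (0:ℝ) 1, ℝ)) + g) := by
      apply hpos
      intro x
      have := neg_le_of_abs_le (g.norm_coe_le_norm x)
      have h3 : 0 ≤ ‖g‖ + g x := by linarith
      simpa using h3
    rw [map_sub, map_smul, smul_eq_mul] at h1
    rw [map_add, map_smul, smul_eq_mul] at h2
    exact abs_le.mpr ⟨by linarith, by linarith⟩
  obtain ⟨l1, hl1⟩ := hone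
  obtain ⟨B, hB⟩ : ∃ B, ∀ N, a N 1 ≤ B := by
    obtain ⟨B, hB⟩ := hl1.bddAbove_range
    exact ⟨B, fun N => hB ⟨N, rfl⟩⟩
  have hB0 : 0 ≤ B := (hpos 0 1 (by intro x; simp)).trans (hB 0)
  have hlim : ∀ g, ∃ l, Tendsto (fun N => a N g) atTop (𝓝 l) := by
    intro g
    apply cauchySeq_tendsto_of_complete
    rw [Metric.cauchySeq_iff]
    intro ε hε
    obtain ⟨k, hk⟩ : ∃ k, ‖g - d k‖ < ε / (3 * (B + 1)) := by
      obtain ⟨k, hk⟩ := hd.exists_dist_lt g (show 0 < ε / (3 * (B + 1)) by positivity)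
      exact ⟨k, by rwa [dist_eq_norm] at hk⟩
    obtain ⟨l, hl⟩ := hconv k
    obtain ⟨N0, hN0⟩ := Metric.cauchySeq_iff.mp hl.cauchySeq (ε / 3) (by positivity)
    have hsmall : ∀ N, |a N g - a N (d k)| ≤ ε / 3 := by
      intro N
      rw [← map_sub]
      refine (hbd N _).trans ?_
      have h1 : ‖g - d k‖ * a N 1 ≤ ε / (3 * (B + 1)) * (B + 1) := by
        apply mul_le_mul hk.le (by linarith [hB N]) (hpos N 1 (by intro x; simp)) (by positivity)
      have h2 : ε / (3 * (B + 1)) * (B + 1) = ε / 3 := by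
        field_simp
      linarith
    refine ⟨N0, fun m hm n hn => ?_⟩
    have h1 := hN0 m hm n hn
    rw [Real.dist_eq] at h1 ⊢
    have h2 := hsmall m
    have h3 := hsmall n
    rw [abs_le] at h2 h3
    rw [abs_lt] at h1 ⊢
    constructor <;> linarith
  choose L hL using hlim
  have hadd : ∀ f g, L (f + g) = L f + L g := fun f g =>
    tendsto_nhds_unique (hL (f + g)) (by simpa only [map_add] using (hL f).add (hL g))
  have hsmul : ∀ (c : ℝ) f, L (c • f) = c * L f := fun c f =>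
    tendsto_nhds_unique (hL (c • f)) (by simpa only [map_smul, smul_eq_mul] using (hL f).const_mul c)
  have hLpos : ∀ f, 0 ≤ f → 0 ≤ L f := fun f hf =>
    ge_of_tendsto' (hL f) (fun N => hpos N f hf)
  let Λ0 : C_c(Icc (0:ℝ) 1, ℝ) →ₗ[ℝ] ℝ :=
    { toFun := fun f => L f.toContinuousMap
      map_add' := fun f g => hadd _ _
      map_smul' := fun c f => hsmul _ _ }
  let Λ : C_c(Icc (0:ℝ) 1, ℝ) →ₚ[ℝ] ℝ := PositiveLinearMap.mk₀ Λ0 (fun f hf => hLpos _ hf)
  refine ⟨RealRMK.rieszMeasure Λ, by infer_instance, fun g => ?_⟩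
  let g' : C_c(Icc (0:ℝ) 1, ℝ) :=
    { toFun := g
      hasCompactSupport' := HasCompactSupport.of_compactSpace _ }
  have h1 : ∫ x, g x ∂(RealRMK.rieszMeasure Λ) = L g := RealRMK.integral_rieszMeasure Λ g'
  rw [h1]
  exact hL g

/-! probabilistic part -/

private theorem z3_prob : IsProbabilityMeasure (volume.restrict (Icc (0:ℝ) 1)) :=
  ⟨by rw [Measure.restrict_apply_univ, Real.volume_Icc]; norm_num⟩

private theorem z3_probP : IsProbabilityMeasure P := by
  haveI := z3_prob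
  unfold P
  infer_instance

/-- one Euler factor (absolute value, power beta) -/
private noncomputable def z3Y (β : ℝ) (j : ℕ) (t x : ℝ) : ℝ :=
  ‖(1 - (pr j : ℂ) ^ (-(1/2 : ℂ) - I * x) * exp (2 * Real.pi * I * t))⁻¹‖ ^ β

private theorem z3_pr (j : ℕ) : 2 ≤ pr j := (Nat.prime_nth_prime j).two_le

private theorem z3_small (j : ℕ) (t x : ℝ) :
    ‖(pr j : ℂ) ^ (-(1/2 : ℂ) - I * x) * exp (2 * Real.pi * I * t)‖ ≤ 3 / 4 := by
  have h1 : ‖exp (2 * Real.pi * I * t)‖ = 1 := by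
    rw [show (2 * (Real.pi : ℂ) * I * t) = ((2 * Real.pi * t : ℝ) : ℂ) * I by push_cast; ring]
    exact Complex.norm_exp_ofReal_mul_I _
  have hp : 0 < pr j := by have := z3_pr j; omega
  have h2 : ‖(pr j : ℂ) ^ (-(1/2 : ℂ) - I * x)‖ = (pr j : ℝ) ^ (-(1/2) : ℝ) := by
    rw [Complex.norm_natCast_cpow_of_pos hp]
    congr 1
    simp
  rw [norm_mul, h1, h2, mul_one]
  have h3 : (pr j : ℝ) ^ (-(1/2) : ℝ) ≤ (2 : ℝ) ^ (-(1/2) : ℝ) := by
    apply Real.rpow_le_rpow_of_nonpos (by norm_num) (by exact_mod_cast z3_pr j) (by norm_num)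
  refine h3.trans ?_
  rw [Real.rpow_neg (by norm_num), ← Real.sqrt_eq_rpow, inv_le_comm₀ (by positivity) (by norm_num)]
  apply Real.le_sqrt_of_sq_le
  norm_num

private theorem z3_ne (j : ℕ) (t x : ℝ) :
    (1 - (pr j : ℂ) ^ (-(1/2 : ℂ) - I * x) * exp (2 * Real.pi * I * t)) ≠ 0 := by
  intro h
  have h1 := z3_small j t x
  have h2 : (pr j : ℂ) ^ (-(1/2 : ℂ) - I * x) * exp (2 * Real.pi * I * t) = 1 := by
    linear_combination -h
  rw [h2, norm_one] at h1
  norm_num at h1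

private theorem z3_fac_cont (j : ℕ) : Continuous (fun q : ℝ × ℝ =>
    (1 - (pr j : ℂ) ^ (-(1/2 : ℂ) - I * q.2) * exp (2 * Real.pi * I * q.1))⁻¹) := by
  have hp : (pr j : ℂ) ≠ 0 := by
    have := z3_pr j
    exact_mod_cast (by omega : pr j ≠ 0)
  have c1 : Continuous (fun q : ℝ × ℝ => -(1/2 : ℂ) - I * (q.2 : ℂ)) := by fun_prop
  have c2 : Continuous (fun q : ℝ × ℝ => (pr j : ℂ) ^ (-(1/2 : ℂ) - I * (q.2 : ℂ))) :=
    c1.const_cpow (Or.inl hp)
  have c3 : Continuous (fun q : ℝ × ℝ => exp (2 * Real.pi * I * (q.1 : ℂ))) := by fun_prop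
  have c4 : Continuous (fun q : ℝ × ℝ => 1 - (pr j : ℂ) ^ (-(1/2 : ℂ) - I * (q.2 : ℂ)) *
      exp (2 * Real.pi * I * (q.1 : ℂ))) := continuous_const.sub (c2.mul c3)
  exact c4.inv₀ (fun q => z3_ne j q.1 q.2)

private theorem z3_fac_bd (j : ℕ) (t x : ℝ) :
    1 / 2 ≤ ‖(1 - (pr j : ℂ) ^ (-(1/2 : ℂ) - I * x) * exp (2 * Real.pi * I * t))⁻¹‖ ∧
    ‖(1 - (pr j : ℂ) ^ (-(1/2 : ℂ) - I * x) * exp (2 * Real.pi * I * t))⁻¹‖ ≤ 4 := by
  set u := (pr j : ℂ) ^ (-(1/2 : ℂ) - I * x) * exp (2 * Real.pi * I * t) with hu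
  have h1 : ‖u‖ ≤ 3 / 4 := z3_small j t x
  have h2 : ‖1 - u‖ ≤ 2 := (norm_sub_le _ _).trans (by rw [norm_one]; linarith)
  have h3 : 1 / 4 ≤ ‖1 - u‖ := by
    have := norm_sub_norm_le (1 : ℂ) u
    rw [norm_one] at this
    linarith
  rw [norm_inv]
  constructor
  · rw [one_div]
    exact inv_anti₀ (by linarith) h2
  · rw [inv_le_comm₀ (by linarith) (by norm_num)]
    linarith

private theorem z3Y_cont (β : ℝ) (j : ℕ) : Continuous (fun q : ℝ × ℝ => z3Y β j q.1 q.2) := by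
  have h : Continuous (fun q : ℝ × ℝ =>
    ‖(1 - (pr j : ℂ) ^ (-(1/2 : ℂ) - I * q.2) * exp (2 * Real.pi * I * q.1))⁻¹‖) := (z3_fac_cont j).norm
  exact h.rpow_const (fun q => Or.inl (norm_ne_zero_iff.mpr (inv_ne_zero (z3_ne j q.1 q.2))))

private theorem z3Y_bd {β : ℝ} (h0 : 0 < β) (j : ℕ) (t x : ℝ) :
    (1/2 : ℝ) ^ β ≤ z3Y β j t x ∧ z3Y β j t x ≤ (4 : ℝ) ^ β :=
  ⟨Real.rpow_le_rpow (by norm_num) (z3_fac_bd j t x).1 h0.le,
    Real.rpow_le_rpow (norm_nonneg _) (z3_fac_bd j t x).2 h0.le⟩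

attribute [local irreducible] z3Y

/-- the un-normalised density -/
private noncomputable def z3F (β : ℝ) (N : ℕ) (θ : ℕ → ℝ) (x : ℝ) : ℝ := ‖zr N θ x‖ ^ β

unseal z3Y in
private theorem z3F_prod (β : ℝ) (N : ℕ) (θ : ℕ → ℝ) (x : ℝ) :
    z3F β N θ x = ∏ j ∈ Finset.range N, z3Y β j (θ j) x := by
  unfold z3F zr z3Y
  rw [norm_prod, Real.finsetProd_rpow]
  intro i _
  exact norm_nonneg _

attribute [local irreducible] z3F

private theorem z3F_cont (β : ℝ) (N : ℕ) : Continuous (fun q : (ℕ → ℝ) × ℝ => z3F β N q.1 q.2) := by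
  have h : (fun q : (ℕ → ℝ) × ℝ => z3F β N q.1 q.2) =
      fun q : (ℕ → ℝ) × ℝ => ∏ j ∈ Finset.range N, z3Y β j (q.1 j) q.2 := funext fun q => z3F_prod β N q.1 q.2
  rw [h]
  apply continuous_finsetProd
  intro j _
  have c1 : Continuous (fun q : (ℕ → ℝ) × ℝ => ((q.1 j, q.2) : ℝ × ℝ)) :=
    Continuous.prodMk ((continuous_apply j).comp continuous_fst) continuous_snd
  exact (z3Y_cont β j).comp c1

private theorem z3F_cont_left (β : ℝ) (N : ℕ) (x : ℝ) : Continuous (fun θ : ℕ → ℝ => z3F β N θ x) := by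
  have c1 : Continuous (fun θ : ℕ → ℝ => ((θ, x) : (ℕ → ℝ) × ℝ)) :=
    Continuous.prodMk continuous_id continuous_const
  exact (z3F_cont β N).comp c1

private theorem z3F_cont_right (β : ℝ) (N : ℕ) (θ : ℕ → ℝ) : Continuous (fun x : ℝ => z3F β N θ x) := by
  have c1 : Continuous (fun x : ℝ => ((θ, x) : (ℕ → ℝ) × ℝ)) :=
    Continuous.prodMk continuous_const continuous_id
  exact (z3F_cont β N).comp c1

private theorem z3F_bd {β : ℝ} (h0 : 0 < β) (N : ℕ) : ∃ c C : ℝ, 0 < c ∧ ∀ θ x, c ≤ z3F β N θ x ∧ z3F β N θ x ≤ C := by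
  refine ⟨((1/2 : ℝ) ^ β) ^ N, ((4 : ℝ) ^ β) ^ N, by positivity, fun θ x => ?_⟩
  rw [z3F_prod]
  constructor
  · rw [← Finset.card_range N, ← Finset.prod_const]
    rw [Finset.card_range]
    apply Finset.prod_le_prod
    · intro i _
      positivity
    · intro i _
      exact (z3Y_bd h0 i (θ i) x).1
  · rw [← Finset.card_range N, ← Finset.prod_const]
    rw [Finset.card_range]
    apply Finset.prod_le_prod
    · intro i _
      exact le_trans (by positivity) (z3Y_bd h0 i (θ i) x).1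
    · intro i _
      exact (z3Y_bd h0 i (θ i) x).2

/-- the normalisation -/
private noncomputable def z3G (β : ℝ) (N : ℕ) (x : ℝ) : ℝ := ∫ θ, z3F β N θ x ∂P

private theorem z3G_bd {β : ℝ} (h0 : 0 < β) (N : ℕ) : ∃ c : ℝ, 0 < c ∧ ∀ x, c ≤ z3G β N x := by
  haveI := z3_probP
  obtain ⟨c, C, hc, h⟩ := z3F_bd h0 N
  refine ⟨c, hc, fun x => ?_⟩
  have hcont : Continuous (fun θ : ℕ → ℝ => z3F β N θ x) := z3F_cont_left β N x
  have hint : Integrable (fun θ => z3F β N θ x) P := by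
    apply Integrable.of_bound hcont.aestronglyMeasurable C
    filter_upwards with θ
    rw [Real.norm_of_nonneg (hc.le.trans (h θ x).1)]
    exact (h θ x).2
  have := integral_mono (μ := P) (integrable_const c) hint (fun θ => (h θ x).1)
  simpa [z3G] using this

private theorem z3G_meas (β : ℝ) (N : ℕ) : Measurable (z3G β N) := by
  haveI := z3_probP
  have h : StronglyMeasurable (fun q : ℝ × (ℕ → ℝ) => z3F β N q.2 q.1) :=
    ((z3F_cont β N).comp continuous_swap).stronglyMeasurable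
  exact (StronglyMeasurable.integral_prod_right' (ν := P) h).measurable

/-- the coordinate process -/
private noncomputable def z3u (j : ℕ) (θ : ℕ → ℝ) : ℝ := θ j

private theorem z3u_sm (j : ℕ) : StronglyMeasurable (z3u j) := (measurable_pi_apply j).stronglyMeasurable

/-- the filtration -/
private noncomputable def z3Fil : Filtration ℕ (inferInstance : MeasurableSpace (ℕ → ℝ)) :=
  Filtration.natural z3u z3u_sm

/-- truncation of the angles -/
private noncomputable def z3r (N : ℕ) (θ : ℕ → ℝ) : ℕ → ℝ := fun j => if j ≤ N then θ j else 0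

private theorem z3r_meas (N : ℕ) : Measurable[z3Fil N, inferInstance] (z3r N) := by
  apply @measurable_pi_lambda _ _ _ (z3Fil N)
  intro j
  unfold z3r
  by_cases h : j ≤ N
  · simp only [if_pos h]
    have h1 : MeasurableSpace.comap (z3u j) inferInstance ≤ z3Fil N :=
      le_iSup₂_of_le (f := fun j (_ : j ≤ N) => MeasurableSpace.comap (z3u j) inferInstance) j h le_rfl
    exact measurable_iff_comap_le.mpr h1
  · simp only [if_neg h]
    exact @measurable_const _ _ _ (z3Fil N) _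

private theorem z3F_r (β : ℝ) (N : ℕ) (θ : ℕ → ℝ) (x : ℝ) : z3F β (N + 1) (z3r N θ) x = z3F β (N + 1) θ x := by
  rw [z3F_prod, z3F_prod]
  apply Finset.prod_congr rfl
  intro j hj
  have : j ≤ N := by
    have := Finset.mem_range.mp hj
    omega
  simp [z3r, this]

private theorem z3_indep (N : ℕ) : ProbabilityTheory.Indep (z3Fil N)
    (MeasurableSpace.comap (z3u (N + 1)) inferInstance) P := by
  haveI := z3_prob
  have h : ProbabilityTheory.iIndepFun z3u P := by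
    have := ProbabilityTheory.iIndepFun_infinitePi (ι := ℕ) (Ω := fun _ => ℝ) (𝓧 := fun _ => ℝ)
      (P := fun _ => volume.restrict (Icc (0:ℝ) 1)) (X := fun _ x => x) (fun _ => measurable_id)
    exact this
  exact (h.indep_comap_natural_of_lt z3u_sm (Nat.lt_succ_self N)).symm

private theorem z3_key {β : ℝ} (h0 : 0 < β) (N : ℕ) (s : Set (ℕ → ℝ)) (hs : MeasurableSet[z3Fil N] s) (x : ℝ) :
    ∫ θ in s, z3F β (N + 2) θ x ∂P = (∫ θ in s, z3F β (N + 1) θ x ∂P) * ∫ θ, z3Y β (N + 1) (θ (N + 1)) x ∂P := by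
  haveI := z3_probP
  have hs' : MeasurableSet s := z3Fil.le N s hs
  rw [← integral_indicator hs', ← integral_indicator hs']
  have e1 : ∀ θ : ℕ → ℝ, s.indicator (fun θ => z3F β (N + 2) θ x) θ =
      s.indicator (fun θ => z3F β (N + 1) θ x) θ * z3Y β (N + 1) (θ (N + 1)) x := by
    intro θ
    by_cases h : θ ∈ s
    · rw [indicator_of_mem h, indicator_of_mem h, z3F_prod, z3F_prod, Finset.prod_range_succ _ (N + 1)]
    · rw [indicator_of_notMem h, indicator_of_notMem h, zero_mul]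
  simp only [e1]
  have hY : Measurable (fun t : ℝ => z3Y β (N + 1) t x) := by
    have c1 : Continuous (fun t : ℝ => ((t, x) : ℝ × ℝ)) := Continuous.prodMk continuous_id continuous_const
    exact ((z3Y_cont β (N + 1)).comp c1).measurable
  have hX : Measurable[z3Fil N] (s.indicator (fun θ => z3F β (N + 1) θ x)) := by
    apply Measurable.indicator _ hs
    have h1 : (fun θ => z3F β (N + 1) θ x) = (fun θ => z3F β (N + 1) θ x) ∘ z3r N := by
      funext θ
      exact (z3F_r β N θ x).symm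
    rw [h1]
    exact (z3F_cont_left β (N + 1) x).measurable.comp (z3r_meas N)
  have hind : ProbabilityTheory.IndepFun (s.indicator (fun θ => z3F β (N + 1) θ x))
      (fun θ : ℕ → ℝ => z3Y β (N + 1) (θ (N + 1)) x) P := by
    rw [ProbabilityTheory.IndepFun_iff_Indep]
    apply ProbabilityTheory.indep_of_indep_of_le_left (m₁ := z3Fil N)
    · apply ProbabilityTheory.indep_of_indep_of_le_right (z3_indep N)
      have h1 : (fun θ : ℕ → ℝ => z3Y β (N + 1) (θ (N + 1)) x) = (fun t => z3Y β (N + 1) t x) ∘ z3u (N + 1) := rfl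
      rw [h1, ← MeasurableSpace.comap_comp]
      exact MeasurableSpace.comap_mono hY.comap_le
    · exact hX.comap_le
  exact hind.integral_fun_mul_eq_mul_integral (hX.mono (z3Fil.le N) le_rfl).aestronglyMeasurable
    (hY.comp (measurable_pi_apply (N + 1))).aestronglyMeasurable

/-- the integral over a set of the past is preserved -/
private theorem z3_ratio {β : ℝ} (h0 : 0 < β) (N : ℕ) (s : Set (ℕ → ℝ)) (hs : MeasurableSet[z3Fil N] s) (x : ℝ) :
    (∫ θ in s, z3F β (N + 2) θ x ∂P) / z3G β (N + 2) x = (∫ θ in s, z3F β (N + 1) θ x ∂P) / z3G β (N + 1) x := by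
  have h1 := z3_key h0 N s hs x
  have h2 := z3_key h0 N univ (@MeasurableSet.univ _ (z3Fil N)) x
  simp only [Measure.restrict_univ] at h2
  obtain ⟨c, hc, hG⟩ := z3G_bd h0 (N + 2)
  have h3 : z3G β (N + 2) x = z3G β (N + 1) x * ∫ θ, z3Y β (N + 1) (θ (N + 1)) x ∂P := h2
  have h4 : z3G β (N + 2) x ≠ 0 := (hc.trans_le (hG x)).ne'
  have h5 : (∫ θ, z3Y β (N + 1) (θ (N + 1)) x ∂P) ≠ 0 := by
    intro h
    rw [h, mul_zero] at h3
    exact h4 h3
  rw [h1, h3, mul_div_mul_right _ _ h5]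

/-- extension of a continuous function on the unit interval -/
private noncomputable def z3e (g : C(Icc (0:ℝ) 1, ℝ)) (x : ℝ) : ℝ := IccExtend zero_le_one g x

private theorem z3e_cont (g : C(Icc (0:ℝ) 1, ℝ)) : Continuous (z3e g) := g.continuous.Icc_extend'

private theorem z3e_le (g : C(Icc (0:ℝ) 1, ℝ)) (x : ℝ) : |z3e g x| ≤ ‖g‖ := g.norm_coe_le_norm _

private theorem z3e_of_mem (g : C(Icc (0:ℝ) 1, ℝ)) {x : ℝ} (hx : x ∈ Icc (0:ℝ) 1) : z3e g x = g ⟨x, hx⟩ :=
  IccExtend_of_mem zero_le_one g hx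

/-- the integrand -/
private noncomputable def z3I (β : ℝ) (g : C(Icc (0:ℝ) 1, ℝ)) (N : ℕ) (θ : ℕ → ℝ) (x : ℝ) : ℝ :=
  z3e g x * (z3F β N θ x / z3G β N x)

/-- the process -/
private noncomputable def z3M (β : ℝ) (g : C(Icc (0:ℝ) 1, ℝ)) (N : ℕ) (θ : ℕ → ℝ) : ℝ :=
  ∫ x in Icc (0:ℝ) 1, z3I β g N θ x

private theorem z3I_meas (β : ℝ) (g : C(Icc (0:ℝ) 1, ℝ)) (N : ℕ) :
    Measurable (fun q : (ℕ → ℝ) × ℝ => z3I β g N q.1 q.2) := by
  have h1 : Measurable (fun q : (ℕ → ℝ) × ℝ => z3e g q.2) := (z3e_cont g).measurable.comp measurable_snd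
  have h2 : Measurable (fun q : (ℕ → ℝ) × ℝ => z3G β N q.2) := (z3G_meas β N).comp measurable_snd
  exact h1.mul ((z3F_cont β N).measurable.div h2)

private theorem z3I_bd {β : ℝ} (h0 : 0 < β) (g : C(Icc (0:ℝ) 1, ℝ)) (N : ℕ) :
    ∃ C : ℝ, ∀ θ x, |z3I β g N θ x| ≤ C := by
  obtain ⟨c, C, hc, h⟩ := z3F_bd h0 N
  obtain ⟨c', hc', hG⟩ := z3G_bd h0 N
  refine ⟨‖g‖ * (C / c'), fun θ x => ?_⟩
  unfold z3I
  rw [abs_mul]
  apply mul_le_mul (z3e_le g x) _ (abs_nonneg _) (norm_nonneg _)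
  have h1 : 0 ≤ z3F β N θ x := hc.le.trans (h θ x).1
  have h2 : 0 < z3G β N x := hc'.trans_le (hG x)
  rw [abs_of_nonneg (div_nonneg h1 h2.le)]
  exact div_le_div₀ (h1.trans (h θ x).2) (h θ x).2 hc' (hG x)

private theorem z3M_meas (β : ℝ) (g : C(Icc (0:ℝ) 1, ℝ)) (N : ℕ) : Measurable (z3M β g N) :=
  (StronglyMeasurable.integral_prod_right' (ν := volume.restrict (Icc (0:ℝ) 1))
    (z3I_meas β g N).stronglyMeasurable).measurable

private theorem z3M_bd {β : ℝ} (h0 : 0 < β) (g : C(Icc (0:ℝ) 1, ℝ)) (N : ℕ) :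
    ∃ C : ℝ, ∀ θ, |z3M β g N θ| ≤ C := by
  haveI := z3_prob
  obtain ⟨C, hC⟩ := z3I_bd h0 g N
  refine ⟨C, fun θ => ?_⟩
  have := norm_integral_le_of_norm_le_const (μ := volume.restrict (Icc (0:ℝ) 1)) (f := fun x => z3I β g N θ x)
    (C := C) (Filter.Eventually.of_forall fun x => hC θ x)
  simpa [z3M] using this

private theorem z3M_adapted {β : ℝ} (g : C(Icc (0:ℝ) 1, ℝ)) (N : ℕ) :
    StronglyMeasurable[z3Fil N] (z3M β g (N + 1)) := by
  have h1 : z3M β g (N + 1) = z3M β g (N + 1) ∘ z3r N := by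
    funext θ
    simp only [Function.comp_apply, z3M, z3I, z3F_r]
  rw [h1]
  have h2 : Measurable[z3Fil N] (z3M β g (N + 1) ∘ z3r N) := (z3M_meas β g (N + 1)).comp (z3r_meas N)
  exact h2.stronglyMeasurable

private theorem z3I_int {β : ℝ} (h0 : 0 < β) (g : C(Icc (0:ℝ) 1, ℝ)) (N : ℕ) (ν : Measure (ℕ → ℝ))
    [IsFiniteMeasure ν] :
    Integrable (Function.uncurry (z3I β g N)) (ν.prod (volume.restrict (Icc (0:ℝ) 1))) := by
  obtain ⟨C, hC⟩ := z3I_bd h0 g N
  apply Integrable.of_bound (z3I_meas β g N).aestronglyMeasurable C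
  exact Filter.Eventually.of_forall fun q => hC q.1 q.2

private theorem z3M_set {β : ℝ} (h0 : 0 < β) (g : C(Icc (0:ℝ) 1, ℝ)) (N : ℕ) (s : Set (ℕ → ℝ)) :
    ∫ θ in s, z3M β g N θ ∂P =
      ∫ x in Icc (0:ℝ) 1, z3e g x * ((∫ θ in s, z3F β N θ x ∂P) / z3G β N x) := by
  haveI := z3_probP
  unfold z3M
  rw [integral_integral_swap (z3I_int h0 g N (P.restrict s))]
  apply integral_congr_ae
  filter_upwards with x
  unfold z3I
  rw [integral_const_mul, integral_div]

private theorem z3_mart {β : ℝ} (h0 : 0 < β) (g : C(Icc (0:ℝ) 1, ℝ)) :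
    Martingale (fun N => z3M β g (N + 1)) z3Fil P := by
  haveI := z3_probP
  apply martingale_of_setIntegral_eq_succ
  · intro N
    exact z3M_adapted g N
  · intro N
    obtain ⟨C, hC⟩ := z3M_bd h0 g (N + 1)
    exact Integrable.of_bound (z3M_meas β g (N + 1)).aestronglyMeasurable C
      (Filter.Eventually.of_forall fun θ => hC θ)
  · intro N s hs
    rw [z3M_set h0, z3M_set h0]
    apply integral_congr_ae
    filter_upwards with x
    rw [z3_ratio h0 N s hs x]

private theorem z3_mean {β : ℝ} (h0 : 0 < β) (N : ℕ) : ∫ θ, z3M β 1 N θ ∂P = 1 := by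
  haveI := z3_prob
  have h := z3M_set h0 1 N univ
  rw [Measure.restrict_univ] at h
  rw [h]
  have h1 : ∀ x : ℝ, z3e 1 x * ((∫ θ, z3F β N θ x ∂P) / z3G β N x) = 1 := by
    intro x
    obtain ⟨c, hc, hG⟩ := z3G_bd h0 N
    have h2 : z3e 1 x = 1 := by simp [z3e, IccExtend]
    have h3 : z3G β N x ≠ 0 := (hc.trans_le (hG x)).ne'
    rw [h2, one_mul]
    exact div_self h3
  simp only [h1]
  simp

private theorem z3_L1 {β : ℝ} (h0 : 0 < β) (g : C(Icc (0:ℝ) 1, ℝ)) (N : ℕ) :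
    eLpNorm (z3M β g N) 1 P ≤ (‖g‖₊ : ℝ≥0∞) := by
  haveI := z3_probP
  have hpt : ∀ θ, ‖z3M β g N θ‖ ≤ ‖g‖ * z3M β 1 N θ := by
    intro θ
    have h1 : ∀ x, ‖z3I β g N θ x‖ ≤ ‖g‖ * z3I β 1 N θ x := by
      intro x
      obtain ⟨c, C, hc, h⟩ := z3F_bd h0 N
      obtain ⟨c', hc', hG⟩ := z3G_bd h0 N
      have h2 : z3e 1 x = 1 := by simp [z3e, IccExtend]
      have h3 : 0 ≤ z3F β N θ x / z3G β N x :=
        div_nonneg (hc.le.trans (h θ x).1) (hc'.trans_le (hG x)).le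
      unfold z3I
      rw [h2, one_mul, norm_mul, Real.norm_eq_abs, Real.norm_of_nonneg h3]
      exact mul_le_mul_of_nonneg_right (z3e_le g x) h3
    unfold z3M
    rw [← integral_const_mul]
    apply norm_integral_le_of_norm_le _ (Filter.Eventually.of_forall h1)
    apply Integrable.const_mul
    obtain ⟨C, hC⟩ := z3I_bd h0 1 N
    haveI := z3_prob
    apply Integrable.of_bound _ C (Filter.Eventually.of_forall fun x => hC θ x)
    have : Measurable (fun x : ℝ => ((θ, x) : (ℕ → ℝ) × ℝ)) := measurable_prodMk_left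
    exact ((z3I_meas β 1 N).comp this).aestronglyMeasurable
  have hint : ∀ g : C(Icc (0:ℝ) 1, ℝ), Integrable (z3M β g N) P := by
    intro g
    obtain ⟨C, hC⟩ := z3M_bd h0 g N
    exact Integrable.of_bound (z3M_meas β g N).aestronglyMeasurable C
      (Filter.Eventually.of_forall fun θ => hC θ)
  rw [eLpNorm_one_eq_lintegral_enorm, ← ofReal_integral_norm_eq_lintegral_enorm (hint g)]
  have h2 : ∫ θ, ‖z3M β g N θ‖ ∂P ≤ ‖g‖ := by
    calc ∫ θ, ‖z3M β g N θ‖ ∂P ≤ ∫ θ, ‖g‖ * z3M β 1 N θ ∂P :=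
          integral_mono (hint g).norm ((hint 1).const_mul _) hpt
      _ = ‖g‖ := by rw [integral_const_mul, z3_mean h0, mul_one]
  refine (ENNReal.ofReal_le_ofReal h2).trans (le_of_eq ?_)
  rw [← coe_nnnorm, ENNReal.ofReal_coe_nnreal]

private theorem z3_ae {β : ℝ} (h0 : 0 < β) (g : C(Icc (0:ℝ) 1, ℝ)) :
    ∀ᵐ θ ∂P, ∃ l, Tendsto (fun N => z3M β g N θ) atTop (𝓝 l) := by
  haveI := z3_probP
  have h := (z3_mart h0 g).submartingale.ae_tendsto_limitProcess (R := ‖g‖₊) (fun n => z3_L1 h0 g (n + 1))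
  filter_upwards [h] with θ hθ
  exact ⟨_, (tendsto_add_atTop_iff_nat 1).mp hθ⟩

/-- the functional at a fixed point -/
private theorem z3_int_lam {β : ℝ} (h0 : 0 < β) (N : ℕ) (θ : ℕ → ℝ) (f : ℝ → ℝ) :
    ∫ x, f x ∂(lamN β N θ) = ∫ x in Icc (0:ℝ) 1, f x * (z3F β N θ x / z3G β N x) := by
  unfold lamN
  have hnn : ∀ x, 0 ≤ z3F β N θ x / z3G β N x := by
    intro x
    obtain ⟨c, C, hc, h⟩ := z3F_bd h0 N
    obtain ⟨c', hc', hG⟩ := z3G_bd h0 N
    exact div_nonneg (hc.le.trans (h θ x).1) (hc'.trans_le (hG x)).le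
  have hm : Measurable (fun x => z3F β N θ x / z3G β N x) :=
    (z3F_cont_right β N θ).measurable.div (z3G_meas β N)
  have e : (fun x => ENNReal.ofReal (‖zr N θ x‖ ^ β / ∫ θ', ‖zr N θ' x‖ ^ β ∂P)) =
      fun x => ENNReal.ofReal (z3F β N θ x / z3G β N x) := by
    funext x
    congr 1
    unfold z3G
    simp only [z3F]
  rw [e, integral_withDensity_eq_integral_toReal_smul hm.ennreal_ofReal (by simp)]
  apply integral_congr_ae
  filter_upwards with x
  rw [ENNReal.toReal_ofReal (hnn x), smul_eq_mul, mul_comm]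

private theorem z3_point {β : ℝ} (h0 : 0 < β) (d : ℕ → C(Icc (0:ℝ) 1, ℝ)) (hd : DenseRange d) (θ : ℕ → ℝ)
    (hconv : ∀ k, ∃ l, Tendsto (fun N => z3M β (d k) N θ) atTop (𝓝 l))
    (hone : ∃ l, Tendsto (fun N => z3M β 1 N θ) atTop (𝓝 l)) :
    ∃ m : Measure ℝ, IsFiniteMeasure m ∧ ∀ f : ℝ → ℝ, Continuous f →
      Tendsto (fun N : ℕ => ∫ x, f x ∂(lamN β N θ)) atTop (𝓝 (∫ x, f x ∂m)) := by
  have hI : ∀ (N : ℕ) (g : C(Icc (0:ℝ) 1, ℝ)), Integrable (fun x => z3I β g N θ x) (volume.restrict (Icc (0:ℝ) 1)) := by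
    intro N g
    obtain ⟨C, hC⟩ := z3I_bd h0 g N
    haveI := z3_prob
    apply Integrable.of_bound _ C (Filter.Eventually.of_forall fun x => hC θ x)
    have : Measurable (fun x : ℝ => ((θ, x) : (ℕ → ℝ) × ℝ)) := measurable_prodMk_left
    exact ((z3I_meas β g N).comp this).aestronglyMeasurable
  let a : ℕ → C(Icc (0:ℝ) 1, ℝ) →ₗ[ℝ] ℝ := fun N =>
    { toFun := fun g => z3M β g N θ
      map_add' := by
        intro f g
        have h1 : ∀ x, z3I β (f + g) N θ x = z3I β f N θ x + z3I β g N θ x := by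
          intro x
          simp only [z3I, z3e, IccExtend, Function.comp_apply, ContinuousMap.add_apply]
          ring
        simp only [z3M, h1]
        exact integral_add (hI N f) (hI N g)
      map_smul' := by
        intro c g
        have h1 : ∀ x, z3I β (c • g) N θ x = c * z3I β g N θ x := by
          intro x
          simp only [z3I, z3e, IccExtend, Function.comp_apply, ContinuousMap.smul_apply, smul_eq_mul]
          ring
        simp only [z3M, h1, RingHom.id_apply, smul_eq_mul]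
        exact integral_const_mul _ _ }
  have hpos : ∀ N g, 0 ≤ g → 0 ≤ a N g := by
    intro N g hg
    apply integral_nonneg
    intro x
    obtain ⟨c, C, hc, h⟩ := z3F_bd h0 N
    obtain ⟨c', hc', hG⟩ := z3G_bd h0 N
    apply mul_nonneg (hg _)
    exact div_nonneg (hc.le.trans (h θ x).1) (hc'.trans_le (hG x)).le
  obtain ⟨m', hm', hlim⟩ := z3_det a hpos d hd hconv hone
  refine ⟨m'.map Subtype.val, ?_, ?_⟩
  · exact Measure.isFiniteMeasure_map m' _
  · intro f hf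
    have h1 : ∫ x, f x ∂(m'.map Subtype.val) = ∫ x : Icc (0:ℝ) 1, f x ∂m' :=
      integral_map measurable_subtype_coe.aemeasurable hf.aestronglyMeasurable
    rw [h1]
    have h2 := hlim ⟨fun x => f x, hf.comp continuous_subtype_val⟩
    refine h2.congr fun N => ?_
    rw [z3_int_lam h0]
    apply setIntegral_congr_fun measurableSet_Icc
    intro x hx
    simp only [z3I]
    rw [z3e_of_mem _ hx]
    rfl

/-- the approximating measure as a function of the phases -/
private noncomputable def z3L (β : ℝ) (N : ℕ) (v : ℕ → ℂ) : Measure ℝ :=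
  (volume.restrict (Icc (0:ℝ) 1)).withDensity (fun x => ENNReal.ofReal
    (‖∏ j ∈ Finset.range N, (1 - (pr j : ℂ) ^ (-(1/2 : ℂ) - I * x) * v j)⁻¹‖ ^ β / ∫ θ', ‖zr N θ' x‖ ^ β ∂P))

theorem chaos_exists (β : ℝ) (h0 : 0 < β) : ∃ lam : (ℕ → ℂ) → Measure ℝ, IsChaos β lam := by
  classical
  refine ⟨fun v => if h : ∃ m : Measure ℝ, IsFiniteMeasure m ∧ ∀ f : ℝ → ℝ, Continuous f →
    Tendsto (fun N : ℕ => ∫ x, f x ∂(z3L β N v)) atTop (𝓝 (∫ x, f x ∂m)) then h.choose else 0, ?_⟩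
  unfold IsChaos
  obtain ⟨d, hd⟩ := TopologicalSpace.exists_dense_seq C(Icc (0:ℝ) 1, ℝ)
  have h1 : ∀ᵐ θ ∂P, ∀ k, ∃ l, Tendsto (fun N => z3M β (d k) N θ) atTop (𝓝 l) :=
    ae_all_iff.mpr fun k => z3_ae h0 (d k)
  filter_upwards [h1, z3_ae h0 1] with θ hθ hθ1
  have h2 : ∃ m : Measure ℝ, IsFiniteMeasure m ∧ ∀ f : ℝ → ℝ, Continuous f →
      Tendsto (fun N : ℕ => ∫ x, f x ∂(z3L β N (ptI θ))) atTop (𝓝 (∫ x, f x ∂m)) :=
    z3_point h0 d hd θ hθ hθ1
  rw [dif_pos h2]
  exact h2.choose_spec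

end Chaos
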