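import Pool.Agent.Lib.MP_9eae41_pr.Y3
import Pool.Agent.Lib.MP_9eae41_pr.Y5
import Pool.Agent.Lib.MP_9eae41_pr.Y6
import Pool.Agent.Lib.MP_9eae41_pr.Z1
import Pool.Agent.Lib.MP_9eae41_pr.Z2
import Pool.Agent.Lib.MP_9eae41_pr.Z3

set_option autoImplicit false

open Complex MeasureTheory Set Filter Topology
open scoped ENNReal

namespace Chaos

/-! Final assembly. -/

theorem part_A (β q : ℝ) (h0 : 0 < β) (h2 : β < 2) (hq1 : 1 < q) (hq2 : q < 2) (hβ : q * β < 2) :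
    ∃ C : ℝ, 0 < C ∧ ∀ T : ℝ, 2 ≤ T → ∫⁻ om in Icc (0:ℝ) 1, (nu β T om univ) ^ q ≤ ENNReal.ofReal C := by
  obtain ⟨C, hC, h⟩ := CZ.fin_A (β / 2) q (by linarith) (by linarith) hq1 hq2 (by linarith)
  refine ⟨C, hC, fun T hT => ?_⟩
  have hl : 0 < Real.log T := Real.log_pos (by linarith)
  rw [CZ.nu_moment β h0 h2 hT q hq1]
  calc _ ≤ ENNReal.ofReal (Real.log T ^ (-(β / 2) ^ 2 * q)) * ENNReal.ofReal (C * Real.log T ^ ((β / 2) ^ 2 * q)) := by
        gcongr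
        exact h T hT
    _ = ENNReal.ofReal C := by
        rw [← ENNReal.ofReal_mul (by positivity)]
        congr 1
        have e : Real.log T ^ (-(β / 2) ^ 2 * q) * Real.log T ^ ((β / 2) ^ 2 * q) = 1 := by
          rw [← Real.rpow_add hl]
          have : -(β / 2) ^ 2 * q + (β / 2) ^ 2 * q = 0 := by ring
          rw [this, Real.rpow_zero]
        calc _ = C * (Real.log T ^ (-(β / 2) ^ 2 * q) * Real.log T ^ ((β / 2) ^ 2 * q)) := by ring
          _ = C := by rw [e, mul_one]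

theorem pr_prime (j : ℕ) : (pr j).Prime := Nat.prime_nth_prime j

theorem part_B (β : ℝ) (h0 : 0 < β) (h2 : β < 2) : ∃ c₁ c₂ : ℝ, 0 < c₁ ∧ c₁ ≤ c₂ ∧ ∀ (m : ℕ) (h : (Fin m → ℂ) → ℝ),
    Continuous h → (∀ v, 0 ≤ h v) → ∀ f : ℝ → ℝ, Continuous f → (∀ x, 0 ≤ f x) → ∀ ε : ℝ, 0 < ε → ∀ᶠ T : ℝ in atTop,
    c₁ * pred β m f h - ε ≤ ∫ om in Icc (0:ℝ) 1, (∫ x, f x ∂(nu β T om)) * h (ph m T om) ∧
    ∫ om in Icc (0:ℝ) 1, (∫ x, f x ∂(nu β T om)) * h (ph m T om) ≤ c₂ * pred β m f h + ε := by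
  obtain ⟨k₁, k₂, y0, hk1, hk12, hy0, H⟩ := CZ.fin_B (β / 2) (by linarith) (by linarith)
  refine ⟨k₁, k₂, hk1, hk12, fun m h hh hh0 f hf hf0 ε hε => ?_⟩
  obtain ⟨y1, hy1, H1⟩ := CZ.JJ_pred β h0 h2 m
  set y : ℕ := max (max y0 y1) (∑ j ∈ Finset.range m, pr j) with hy
  have hyy0 : y0 ≤ y := (le_max_left _ _).trans (le_max_left _ _)
  have hyy1 : y1 ≤ y := (le_max_right _ _).trans (le_max_left _ _)
  have hpr : ∀ j : Fin m, pr j ∈ CZ.blk y 0 := by
    intro j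
    have h1 : pr j ≤ y := by
      refine le_trans ?_ (le_max_right _ _)
      exact Finset.single_le_sum (f := fun j => pr j) (fun _ _ => Nat.zero_le _) (Finset.mem_range.2 j.2)
    simp only [CZ.blk, Finset.mem_filter, Finset.mem_range]
    exact ⟨by omega, pr_prime j⟩
  obtain ⟨T0, hT0, H2⟩ := H y hyy0 (fun X => h (fun j => X (pr j))) (by fun_prop) (fun X => hh0 _)
    (fun X Y hXY => by
      have : (fun j : Fin m => X (pr j)) = (fun j : Fin m => Y (pr j)) := by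
        funext j
        exact hXY _ (hpr j)
      simp only [this]) f hf hf0 ε hε
  filter_upwards [eventually_ge_atTop T0] with T hT
  have h3 := H2 T hT
  have h4 := H1 y hyy1 h hh hh0 f hf hf0
  rw [CZ.nu_value β h0 h2 (by linarith) h hh f hf hf0, ← h4]
  exact h3

theorem ptI_meas : Measurable ptI := by
  unfold ptI
  fun_prop

/-- the phases determine the angles in [0,1) -/
theorem ptI_inj : InjOn ptI {θ : ℕ → ℝ | ∀ j, θ j ∈ Ico (0:ℝ) 1} := by
  intro θ hθ θ' hθ' h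
  funext j
  have h1 : exp (2 * Real.pi * I * θ j) = exp (2 * Real.pi * I * θ' j) := congrFun h j
  rw [exp_eq_exp_iff_exists_int] at h1
  obtain ⟨n, hn⟩ := h1
  have hpi : (2 * Real.pi * I : ℂ) ≠ 0 := by
    simp [Real.pi_ne_zero]
  have h2 : (θ j : ℂ) = θ' j + n := by
    have : (2 * Real.pi * I : ℂ) * θ j = (2 * Real.pi * I : ℂ) * (θ' j + n) := by
      rw [hn]; ring
    exact mul_left_cancel₀ hpi this
  have h3 : θ j = θ' j + n := by exact_mod_cast h2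
  have h4 := hθ j
  have h5 := hθ' j
  have h6 : (n : ℝ) < 1 := by linarith [h4.2, h5.1]
  have h7 : (-1 : ℝ) < n := by linarith [h4.1, h5.2]
  have h8 : n = 0 := by
    have a1 : n < 1 := by exact_mod_cast h6
    have a2 : -1 < n := by exact_mod_cast h7
    omega
  rw [h3, h8]
  simp

theorem P_prob : IsProbabilityMeasure P := CZ.PT_prob

theorem P_Ico : ∀ᵐ θ ∂P, ∀ j, θ j ∈ Ico (0:ℝ) 1 := by
  have : IsProbabilityMeasure ((volume : Measure ℝ).restrict (Icc (0:ℝ) 1)) := CZ.Ug_prob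
  rw [ae_all_iff]
  intro j
  have hm : P.map (fun θ : ℕ → ℝ => θ j) = volume.restrict (Icc (0:ℝ) 1) :=
    Measure.infinitePi_map_eval (fun _ : ℕ => (volume : Measure ℝ).restrict (Icc (0:ℝ) 1)) j
  have h1 : ∀ᵐ x ∂(P.map (fun θ : ℕ → ℝ => θ j)), x ∈ Ico (0:ℝ) 1 := by
    rw [hm, ae_restrict_iff' measurableSet_Icc]
    have : ∀ᵐ x : ℝ ∂volume, x ≠ 1 := by
      rw [ae_iff]
      simp
    filter_upwards [this] with x hx hx2
    exact ⟨hx2.1, lt_of_le_of_ne hx2.2 hx⟩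
  exact ae_of_ae_map (measurable_pi_apply j).aemeasurable h1

/-- almost sure statements about the phases, transferred to the law of the phases -/
theorem ae_ptI {p : (ℕ → ℂ) → Prop} (h : ∀ᵐ θ ∂P, p (ptI θ)) : ∀ᵐ x ∂(P.map ptI), p x := by
  have h1 : ∀ᵐ θ ∂P, p (ptI θ) ∧ ∀ j, θ j ∈ Ico (0:ℝ) 1 := by
    filter_upwards [h, P_Ico] with θ a b using ⟨a, b⟩
  obtain ⟨N, hN, hNm, hN0⟩ := exists_measurable_superset_of_null (ae_iff.1 h1)
  have hE : MeasurableSet {θ : ℕ → ℝ | ∀ j, θ j ∈ Ico (0:ℝ) 1} := by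
    have : {θ : ℕ → ℝ | ∀ j, θ j ∈ Ico (0:ℝ) 1} = ⋂ j, (fun θ : ℕ → ℝ => θ j) ⁻¹' (Ico (0:ℝ) 1) := by
      ext θ; simp
    rw [this]
    exact MeasurableSet.iInter fun j => (measurable_pi_apply j) measurableSet_Ico
  have hNc : Nᶜ ⊆ {θ : ℕ → ℝ | ∀ j, θ j ∈ Ico (0:ℝ) 1} := by
    intro θ hθ
    by_contra hc
    exact hθ (hN (fun h => hc h.2))
  have him : MeasurableSet (ptI '' Nᶜ) :=
    hNm.compl.image_of_measurable_injOn ptI_meas (ptI_inj.mono hNc)
  rw [ae_iff]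
  have hsub : {x | ¬ p x} ⊆ (ptI '' Nᶜ)ᶜ := by
    intro x hx hx2
    obtain ⟨θ, hθ, rfl⟩ := hx2
    by_contra _
    exact hθ (hN (fun h => hx h.1))
  refine measure_mono_null hsub ?_
  rw [Measure.map_apply ptI_meas him.compl]
  refine measure_mono_null (t := N) ?_ hN0
  intro θ hθ
  by_contra hc
  exact hθ ⟨θ, hc, rfl⟩

theorem nu_cont {β T : ℝ} (h0 : 0 < β) (hT : 2 ≤ T) {f : ℝ → ℝ} (hf : Continuous f) :
    Continuous (fun om : ℝ => ∫ x, f x ∂(nu β T om)) := by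
  have e : (fun om : ℝ => ∫ x, f x ∂(nu β T om)) = fun om : ℝ => Real.log T ^ (-(β / 2) ^ 2) *
      ∫ x in Icc (0:ℝ) 1, f x * CZ.Z (om * T + x) ^ (2 * (β / 2)) := by
    funext om
    exact CZ.y1_nu_int β T om hT f
  rw [e]
  refine continuous_const.mul ?_
  refine continuous_parametric_integral_of_continuous ?_ isCompact_Icc
  have h1 : Continuous fun v : ℝ × ℝ => CZ.Z (v.1 * T + v.2) := CZ.Z_cont.comp (by fun_prop)
  refine (hf.comp continuous_snd).mul ?_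
  exact h1.rpow_const (fun v => Or.inr (by linarith))

theorem ph_cont (m : ℕ) (T : ℝ) : Continuous (fun om : ℝ => ph m T om) := by
  unfold ph
  refine continuous_pi fun j => ?_
  have h0 : (pr j : ℂ) ≠ 0 := by exact_mod_cast (pr_prime j).ne_zero
  exact Continuous.const_cpow (by fun_prop) (Or.inl h0)

theorem ph_norm (m : ℕ) (T om : ℝ) (j : Fin m) : ‖ph m T om j‖ = 1 := by
  unfold ph
  rw [norm_natCast_cpow_of_pos (pr_prime j).pos]
  simp

/-! finite measures carried by [0,1] -/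

theorem supp_int {m : Measure ℝ} [IsFiniteMeasure m] (hm : m (Icc 0 1)ᶜ = 0) {f : ℝ → ℝ} (hf : Continuous f) :
    Integrable f m := by
  obtain ⟨B, hB⟩ := isCompact_Icc.exists_bound_of_continuousOn (hf.continuousOn (s := Icc (0:ℝ) 1))
  refine Integrable.of_bound hf.aestronglyMeasurable B ?_
  have : ∀ᵐ x ∂m, x ∈ Icc (0:ℝ) 1 := by
    rw [ae_iff]
    exact hm
  filter_upwards [this] with x hx using hB x hx

theorem supp_ofReal {m : Measure ℝ} [IsFiniteMeasure m] (hm : m (Icc 0 1)ᶜ = 0) {f : ℝ → ℝ} (hf : Continuous f)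
    (hf0 : ∀ x, 0 ≤ f x) : ENNReal.ofReal (∫ x, f x ∂m) = ∫⁻ x, ENNReal.ofReal (f x) ∂m :=
  ofReal_integral_eq_lintegral_ofReal (supp_int hm hf) (Eventually.of_forall hf0)

theorem nu_supp (β T om : ℝ) : nu β T om (Icc 0 1)ᶜ = 0 := by
  unfold nu
  refine withDensity_absolutelyContinuous _ _ ?_
  rw [Measure.restrict_apply measurableSet_Icc.compl]
  simp

theorem nu_fin {β T : ℝ} (h0 : 0 < β) (om : ℝ) : IsFiniteMeasure (nu β T om) := by
  rw [CZ.y1_dens]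
  refine isFiniteMeasure_withDensity_ofReal ?_
  have h1 : Continuous fun x : ℝ => Real.log T ^ (-(β / 2) ^ 2) * CZ.Z (om * T + x) ^ (2 * (β / 2)) := by
    refine continuous_const.mul ?_
    have h2 : Continuous fun x : ℝ => CZ.Z (om * T + x) := CZ.Z_cont.comp (by fun_prop)
    exact h2.rpow_const (fun v => Or.inr (by linarith))
  exact (h1.continuousOn.integrableOn_compact isCompact_Icc).2

/-- moments of the integrals of a test function -/
theorem lim_moment {β : ℝ} (h0 : 0 < β) (h2 : β < 2) {f : ℝ → ℝ} (hf : Continuous f) (hf0 : ∀ x, 0 ≤ f x) :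
    ∃ q C : ℝ, 1 < q ∧ ∀ T : ℝ, 2 ≤ T → ∫ om in Icc (0:ℝ) 1, (∫ x, f x ∂(nu β T om)) ^ q ≤ C := by
  have hq1 : 1 < 1 + (2 - β) / 4 := by linarith
  obtain ⟨C, hC, h⟩ := part_A β (1 + (2 - β) / 4) h0 h2 hq1 (by linarith) (by nlinarith)
  set q : ℝ := 1 + (2 - β) / 4 with hq
  obtain ⟨B, hB⟩ := isCompact_Icc.exists_bound_of_continuousOn (hf.continuousOn (s := Icc (0:ℝ) 1))
  have hB0 : 0 ≤ B := (norm_nonneg _).trans (hB 0 (by simp))
  refine ⟨q, B ^ q * C, hq1, fun T hT => ?_⟩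
  have hA0 : ∀ om : ℝ, 0 ≤ ∫ x, f x ∂(nu β T om) := fun om => integral_nonneg hf0
  have hcont := nu_cont h0 hT hf
  have hpt : ∀ om : ℝ, ENNReal.ofReal ((∫ x, f x ∂(nu β T om)) ^ q) ≤ ENNReal.ofReal (B ^ q) * (nu β T om univ) ^ q := by
    intro om
    have hfin := nu_fin (T := T) h0 om
    rw [← ENNReal.ofReal_rpow_of_nonneg (hA0 om) (by linarith), supp_ofReal (nu_supp β T om) hf hf0,
      ← ENNReal.ofReal_rpow_of_nonneg hB0 (by linarith), ← ENNReal.mul_rpow_of_nonneg _ _ (by linarith)]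
    refine ENNReal.rpow_le_rpow ?_ (by linarith)
    have h3 : ∀ᵐ x ∂(nu β T om), ENNReal.ofReal (f x) ≤ ENNReal.ofReal B := by
      have : ∀ᵐ x ∂(nu β T om), x ∈ Icc (0:ℝ) 1 := by
        rw [ae_iff]
        exact nu_supp β T om
      filter_upwards [this] with x hx
      exact ENNReal.ofReal_le_ofReal ((le_abs_self _).trans (hB x hx))
    calc _ ≤ ∫⁻ _, ENNReal.ofReal B ∂(nu β T om) := lintegral_mono_ae h3
      _ = _ := by rw [lintegral_const]
  rw [integral_eq_lintegral_of_nonneg_ae (Eventually.of_forall fun om => Real.rpow_nonneg (hA0 om) _)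
    ((hcont.rpow_const fun _ => Or.inr (by linarith)).aestronglyMeasurable)]
  refine ENNReal.toReal_le_of_le_ofReal (by positivity) ?_
  calc _ ≤ ∫⁻ om in Icc (0:ℝ) 1, ENNReal.ofReal (B ^ q) * (nu β T om univ) ^ q := lintegral_mono fun om => hpt om
    _ = ENNReal.ofReal (B ^ q) * ∫⁻ om in Icc (0:ℝ) 1, (nu β T om univ) ^ q := by
        rw [lintegral_const_mul' _ _ ENNReal.ofReal_ne_top]
    _ ≤ ENNReal.ofReal (B ^ q) * ENNReal.ofReal C := by
        gcongr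
        exact h T hT
    _ = ENNReal.ofReal (B ^ q * C) := by rw [ENNReal.ofReal_mul (by positivity)]

section Limit

variable {β : ℝ} {Tk : ℕ → ℝ} {Ω : Type} [MeasurableSpace Ω] {Q : Measure Ω} [IsProbabilityMeasure Q]
  {ν : Ω → Measure ℝ} {W : Ω → (ℕ → ℂ)}

theorem lim_first (h0 : 0 < β) (h2 : β < 2) (hL : IsLimitPoint β Tk Q ν W) (m : ℕ) {h : (Fin m → ℂ) → ℝ}
    (hh : Continuous h) (hh0 : ∀ v, 0 ≤ h v) {f : ℝ → ℝ} (hf : Continuous f) (hf0 : ∀ x, 0 ≤ f x) :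
    Integrable (fun w => (∫ x, f x ∂(ν w)) * h (fun j => W w j)) Q ∧
    Tendsto (fun k => ∫ om in Icc (0:ℝ) 1, (∫ x, f x ∂(nu β (Tk k) om)) * h (ph m (Tk k) om)) atTop
      (𝓝 (∫ w, (∫ x, f x ∂(ν w)) * h (fun j => W w j) ∂Q)) := by
  obtain ⟨hT, hWm, hfin, hm, hconv⟩ := hL
  obtain ⟨K, hK⟩ := (hT.eventually_ge_atTop 2).exists_forall_of_atTop
  obtain ⟨q, C, hq, hC⟩ := lim_moment h0 h2 hf hf0
  have hW' : AEMeasurable (fun w => (fun j : Fin m => W w j)) Q := by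
    refine (measurable_pi_lambda (fun x : ℕ → ℂ => fun j : Fin m => x j) fun j => measurable_pi_apply _).comp_aemeasurable hWm
  have key := limit_pair (m := m) Q (fun k om => ∫ x, f x ∂(nu β (Tk (k + K)) om)) (fun k om => ph m (Tk (k + K)) om)
    (fun k => (nu_cont h0 (hK _ (by omega)) hf).continuousOn) (fun k => (ph_cont m _).continuousOn)
    (fun k om => integral_nonneg hf0) (fun k om j => ph_norm m _ om j) q C hq (fun k => hC _ (hK _ (by omega)))
    (fun w => ∫ x, f x ∂(ν w)) (fun w => fun j : Fin m => W w j) (hm f hf) hW'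
    (fun Φ hΦ hB => by
      have := hconv f hf m Φ hΦ hB
      exact this.comp (tendsto_add_atTop_nat K))
    h hh hh0
  refine ⟨key.2.1, ?_⟩
  exact (tendsto_add_atTop_iff_nat K).1 key.2.2

theorem lim_power (h0 : 0 < β) (h2 : β < 2) (hL : IsLimitPoint β Tk Q ν W) {q : ℝ} (hq1 : 1 < q) (hq2 : q < 2)
    (hβq : β / 2 * q < 1) : ∃ C : ℝ, 0 < C ∧ ∀ lam : (ℕ → ℂ) → Measure ℝ, IsChaos β lam →
    ∀ f : ℝ → ℝ, Continuous f → (∀ x, 0 < f x) → ∀ (m : ℕ) (h : (Fin m → ℂ) → ℝ), Continuous h → (∀ v, 0 ≤ h v) →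
      ∫⁻ w, (∫⁻ x, ENNReal.ofReal (f x) ∂(ν w)) ^ q * ENNReal.ofReal (h (fun j => W w j)) ∂Q ≤
        ENNReal.ofReal C * ∫⁻ θ, (∫⁻ x, ENNReal.ofReal (f x) ∂(lam (ptI θ))) ^ q * ENNReal.ofReal (h (pt m θ)) ∂P := by
  obtain ⟨C, hC, hN⟩ := CZ.nu_q β q h0 h2 hq1 hq2 hβq
  refine ⟨C, hC, fun lam hlam f hf hf0 m h hh hh0 => ?_⟩
  obtain ⟨hT, hWm, hfin, hm, hconv⟩ := hL
  obtain ⟨K, hK⟩ := (hT.eventually_ge_atTop 2).exists_forall_of_atTop
  have hf0' : ∀ x, 0 ≤ f x := fun x => (hf0 x).le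
  have hW' : AEMeasurable (fun w => (fun j : Fin m => W w j)) Q := by
    refine (measurable_pi_lambda (fun x : ℕ → ℂ => fun j : Fin m => x j) fun j => measurable_pi_apply _).comp_aemeasurable hWm
  have key := limit_pow (m := m) Q (fun k om => ∫ x, f x ∂(nu β (Tk (k + K)) om)) (fun k om => ph m (Tk (k + K)) om)
    (fun k => (nu_cont h0 (hK _ (by omega)) hf).continuousOn) (fun k => (ph_cont m _).continuousOn)
    (fun k om => integral_nonneg hf0') (fun k om j => ph_norm m _ om j) q hq1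
    (fun w => ∫ x, f x ∂(ν w)) (fun w => fun j : Fin m => W w j) (hm f hf) hW'
    (fun Φ hΦ hB => (hconv f hf m Φ hΦ hB).comp (tendsto_add_atTop_nat K))
    h hh hh0 (ENNReal.ofReal C * ∫⁻ θ, (∫⁻ x, ENNReal.ofReal (f x) ∂(lam (ptI θ))) ^ q * ENNReal.ofReal (h (pt m θ)) ∂P)
    (fun ε hε => by
      have h3 := hN lam hlam f hf hf0 m h hh hh0 ε hε
      have h4 : Tendsto (fun k : ℕ => Tk (k + K)) atTop atTop := hT.comp (tendsto_add_atTop_nat K)
      filter_upwards [h4.eventually h3] with k hk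
      refine le_trans (le_of_eq ?_) hk
      refine lintegral_congr fun om => ?_
      have hfi := nu_fin (T := Tk (k + K)) h0 om
      rw [supp_ofReal (nu_supp β _ om) hf hf0'])
  refine le_trans (le_of_eq ?_) key
  refine lintegral_congr_ae ?_
  filter_upwards [hfin] with w hw
  have hfi := hw.1
  rw [supp_ofReal hw.2 hf hf0']

theorem lim_ac (h0 : 0 < β) (h2 : β < 2) (hL : IsLimitPoint β Tk Q ν W) (lam : (ℕ → ℂ) → Measure ℝ)
    (hlam : IsChaos β lam) : ∀ᵐ w ∂Q, ν w ≪ lam (W w) := by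
  have hPp : IsProbabilityMeasure P := P_prob
  obtain ⟨q₀, hq₀, hch⟩ := CZ.chaos_fin β h0 h2
  obtain ⟨hs, hpow, hint, hmeas⟩ := hch lam hlam
  set q : ℝ := min q₀ (1 + (2 - β) / 4) with hq
  have hq1 : 1 < q := lt_min hq₀ (by linarith)
  have hqb : q ≤ 1 + (2 - β) / 4 := min_le_right _ _
  have hq2 : q < 2 := by linarith
  have hβq : β / 2 * q < 1 := by nlinarith
  obtain ⟨C, hC, hmain⟩ := lim_power h0 h2 hL hq1 hq2 hβq
  have hlaw : Q.map W = P.map ptI := law_of_limit Q hL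
  have hWm : AEMeasurable W Q := hL.2.1
  have hl : ∀ᵐ x ∂(P.map ptI), IsFiniteMeasure (lam x) ∧ lam x (Icc 0 1)ᶜ = 0 := by
    refine ae_ptI ?_
    filter_upwards [hlam, hs] with θ a b using ⟨a.1, b⟩
  have hlQ : ∀ᵐ w ∂Q, IsFiniteMeasure (lam (W w)) ∧ lam (W w) (Icc 0 1)ᶜ = 0 := by
    refine ae_of_ae_map hWm (p := fun x => IsFiniteMeasure (lam x) ∧ lam x (Icc 0 1)ᶜ = 0) ?_
    rw [hlaw]
    exact hl
  have hmν : ∀ f : ℝ → ℝ, Continuous f → (∀ x, 0 ≤ f x) → AEMeasurable (fun w => ∫⁻ x, ENNReal.ofReal (f x) ∂(ν w)) Q := by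
    intro f hf hf0
    refine (hL.2.2.2.1 f hf).ennreal_ofReal.congr ?_
    filter_upwards [hL.2.2.1] with w hw
    have := hw.1
    exact supp_ofReal hw.2 hf hf0
  have hE := ext_main Q ν W hWm lam hlaw hL.2.2.1 hl hmν hmeas q hq1 (ENNReal.ofReal C) ENNReal.ofReal_ne_top
    (by
      have e1 : AEMeasurable (fun v => lam v univ ^ q) (P.map ptI) := by
        have := (hmeas (fun _ => 1) continuous_const (fun _ => zero_le_one)).pow_const q
        simpa using this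
      rw [lintegral_map' e1 ptI_meas.aemeasurable]
      exact hpow q hq1 (min_le_left _ _))
    (fun f hf hf0 => by
      rw [lintegral_map' (hmeas f hf hf0) ptI_meas.aemeasurable]
      exact hint f hf hf0)
    (fun f hf hf0 m h hh hh0 => by
      have e2 : AEMeasurable (fun v : ℕ → ℂ => (∫⁻ x, ENNReal.ofReal (f x) ∂(lam v)) ^ q *
          ENNReal.ofReal (h (fun j => v j))) (P.map ptI) := by
        refine ((hmeas f hf (fun x => (hf0 x).le)).pow_const q).mul ?_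
        refine (ENNReal.measurable_ofReal.comp (hh.measurable.comp ?_)).aemeasurable
        exact measurable_pi_lambda _ fun j => measurable_pi_apply _
      rw [lintegral_map' e2 ptI_meas.aemeasurable]
      exact hmain lam hlam f hf hf0 m h hh hh0)
  obtain ⟨a1, a2, a3, a4, a5⟩ := hE
  exact ac_abstract Q ν (fun w => lam (W w)) hL.2.2.1 (hlQ.mono fun w hw => hw.1) q hq1 (ENNReal.ofReal C)
    ENNReal.ofReal_ne_top a1 a2 a3 a4 a5

end Limit

end Chaos
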