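import Mathlib

set_option autoImplicit false

open MeasureTheory Set Filter Topology
open scoped ENNReal

namespace Chaos

/-! The q-th power of the density: the deterministic part. -/

theorem y7_sum_le (lam : Measure ℝ) (hatom : ∀ k n : ℕ, lam {(k : ℝ) / 2 ^ n} = 0) (n : ℕ)
    (F : Finset ℕ) (U : Set ℝ)
    (hU : ∀ k ∈ F, Icc ((k : ℝ) / 2 ^ n) ((k + 1 : ℝ) / 2 ^ n) ⊆ U) :
    ∑ k ∈ F, lam (Icc ((k : ℝ) / 2 ^ n) ((k + 1 : ℝ) / 2 ^ n)) ≤ lam U := by
  have h1 : ∀ k : ℕ, lam (Icc ((k : ℝ) / 2 ^ n) ((k + 1 : ℝ) / 2 ^ n)) ≤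
      lam (Ico ((k : ℝ) / 2 ^ n) ((k + 1 : ℝ) / 2 ^ n)) := by
    intro k
    have h2 : Icc ((k : ℝ) / 2 ^ n) ((k + 1 : ℝ) / 2 ^ n) ⊆
        Ico ((k : ℝ) / 2 ^ n) ((k + 1 : ℝ) / 2 ^ n) ∪ {((k + 1 : ℕ) : ℝ) / 2 ^ n} := by
      intro x hx
      rcases lt_or_eq_of_le hx.2 with h | h
      · exact Or.inl ⟨hx.1, h⟩
      · right
        rw [mem_singleton_iff, h]
        push_cast
        rfl
    calc lam (Icc ((k : ℝ) / 2 ^ n) ((k + 1 : ℝ) / 2 ^ n))
        ≤ lam (Ico ((k : ℝ) / 2 ^ n) ((k + 1 : ℝ) / 2 ^ n) ∪ {((k + 1 : ℕ) : ℝ) / 2 ^ n}) :=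
          measure_mono h2
      _ ≤ lam (Ico ((k : ℝ) / 2 ^ n) ((k + 1 : ℝ) / 2 ^ n)) + lam {((k + 1 : ℕ) : ℝ) / 2 ^ n} :=
          measure_union_le _ _
      _ = _ := by rw [hatom (k + 1) n, add_zero]
  refine (Finset.sum_le_sum (fun k _ => h1 k)).trans ?_
  rw [← measure_biUnion_finset _ (fun k _ => measurableSet_Ico)]
  · apply measure_mono
    intro x hx
    simp only [mem_iUnion] at hx
    obtain ⟨k, hk, hx⟩ := hx
    exact hU k hk ⟨hx.1, hx.2.le⟩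
  · have hm : Monotone (fun k : ℕ => (k : ℝ) / 2 ^ n) := by
      intro a b hab
      have : (a : ℝ) ≤ b := by exact_mod_cast hab
      simp only
      gcongr
    have hd := hm.pairwise_disjoint_on_Ico_succ
    intro a _ b _ hab
    have := hd hab
    simp only [Function.onFun, Order.succ_eq_add_one, Nat.cast_add, Nat.cast_one] at this ⊢
    exact this

theorem y7_sub (n k : ℕ) (hk : k ∈ Finset.range (2 ^ n)) :
    Icc ((k : ℝ) / 2 ^ n) ((k + 1 : ℝ) / 2 ^ n) ⊆ Icc (0:ℝ) 1 := by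
  intro x hx
  have hk' : (k : ℝ) + 1 ≤ 2 ^ n := by exact_mod_cast Finset.mem_range.1 hk
  refine ⟨le_trans (by positivity) hx.1, hx.2.trans ?_⟩
  rw [div_le_one (by positivity)]
  exact hk'

theorem y7_cov (n : ℕ) : Icc (0:ℝ) 1 ⊆ ⋃ k ∈ Finset.range (2 ^ n), Icc ((k : ℝ) / 2 ^ n) ((k + 1 : ℝ) / 2 ^ n) := by
  have h2n : (0 : ℝ) < 2 ^ n := by positivity
  intro x hx
  obtain ⟨hx0, hx1⟩ := hx
  have hmem : ∃ k : ℕ, k < 2 ^ n ∧ x ∈ Icc ((k : ℝ) / 2 ^ n) ((k + 1 : ℝ) / 2 ^ n) := by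
    by_cases hx1' : x = 1
    · refine ⟨2 ^ n - 1, Nat.sub_lt (by positivity) one_pos, ?_, ?_⟩
      · rw [hx1', div_le_one h2n]
        push_cast [Nat.one_le_two_pow]
        linarith
      · rw [hx1', le_div_iff₀ h2n]
        push_cast [Nat.one_le_two_pow]
        linarith
    · have hxl : x < 1 := lt_of_le_of_ne hx1 hx1'
      refine ⟨⌊x * 2 ^ n⌋₊, ?_, ?_, ?_⟩
      · rw [Nat.floor_lt (by positivity)]
        push_cast
        nlinarith
      · rw [div_le_iff₀ h2n]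
        exact Nat.floor_le (by positivity)
      · rw [le_div_iff₀ h2n]
        exact (Nat.lt_floor_add_one _).le
  obtain ⟨k, hk, hxk⟩ := hmem
  simp only [mem_iUnion]
  exact ⟨k, Finset.mem_range.2 hk, hxk⟩

/-- uniform continuity: at every fine level the value at the left end is close to the values on the interval -/
theorem y7_unif {f : ℝ → ℝ} (hf : Continuous f) {ε : ℝ} (hε : 0 < ε) : ∃ N : ℕ, ∀ n ≥ N, ∀ k ∈ Finset.range (2 ^ n),
    ∀ x ∈ Icc ((k : ℝ) / 2 ^ n) ((k + 1 : ℝ) / 2 ^ n), |f x - f ((k : ℝ) / 2 ^ n)| ≤ ε := by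
  have hu : UniformContinuousOn f (Icc (0:ℝ) 1) := isCompact_Icc.uniformContinuousOn_of_continuous hf.continuousOn
  rw [Metric.uniformContinuousOn_iff] at hu
  obtain ⟨δ, hδ, H⟩ := hu ε hε
  obtain ⟨N, hN⟩ : ∃ N : ℕ, (1 / 2 : ℝ) ^ N < δ := exists_pow_lt_of_lt_one hδ (by norm_num)
  refine ⟨N, fun n hn k hk x hx => ?_⟩
  have h1 := y7_sub n k hk
  have hkk : (k : ℝ) / 2 ^ n ∈ Icc ((k : ℝ) / 2 ^ n) ((k + 1 : ℝ) / 2 ^ n) := ⟨le_rfl, by gcongr; linarith⟩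
  have hlen : 1 / (2 : ℝ) ^ n < δ := by
    refine lt_of_le_of_lt ?_ hN
    rw [one_div, ← inv_pow, one_div]
    exact pow_le_pow_of_le_one (by norm_num) (by norm_num) hn
  have h2 := H x (h1 hx) _ (h1 hkk) (by
    rw [Real.dist_eq, abs_lt]
    have e1 : ((k + 1 : ℝ) / 2 ^ n) - (k : ℝ) / 2 ^ n = 1 / 2 ^ n := by ring
    have hx1 := hx.1
    have hx2 := hx.2
    constructor <;> linarith)
  rw [Real.dist_eq] at h2
  exact h2.le

/-- Riemann sums from below -/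
theorem y7_low (m : Measure ℝ) [IsFiniteMeasure m] (hatom : ∀ k n : ℕ, m {(k : ℝ) / 2 ^ n} = 0)
    {f : ℝ → ℝ} (hf : Continuous f) {ε : ℝ} (hε : 0 < ε) : ∃ N : ℕ, ∀ n ≥ N,
    ∫⁻ x in Icc (0:ℝ) 1, ENNReal.ofReal (f x) ∂m ≤
      ∑ k ∈ Finset.range (2 ^ n), ENNReal.ofReal (f ((k : ℝ) / 2 ^ n)) * m (Icc ((k : ℝ) / 2 ^ n) ((k + 1 : ℝ) / 2 ^ n)) +
        ENNReal.ofReal ε * m (Icc 0 1) := by
  obtain ⟨N, hN⟩ := y7_unif hf hε
  refine ⟨N, fun n hn => ?_⟩
  calc ∫⁻ x in Icc (0:ℝ) 1, ENNReal.ofReal (f x) ∂m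
      ≤ ∫⁻ x in ⋃ k ∈ Finset.range (2 ^ n), Icc ((k : ℝ) / 2 ^ n) ((k + 1 : ℝ) / 2 ^ n), ENNReal.ofReal (f x) ∂m :=
        lintegral_mono_set (y7_cov n)
    _ ≤ ∑ k ∈ Finset.range (2 ^ n), ∫⁻ x in Icc ((k : ℝ) / 2 ^ n) ((k + 1 : ℝ) / 2 ^ n), ENNReal.ofReal (f x) ∂m := by
        have h1 := measure_biUnion_finset_le (μ := m.withDensity fun x => ENNReal.ofReal (f x)) (Finset.range (2 ^ n))
          (fun k : ℕ => Icc ((k : ℝ) / 2 ^ n) ((k + 1 : ℝ) / 2 ^ n))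
        rw [withDensity_apply _ ((Finset.range (2 ^ n)).measurableSet_biUnion fun k _ => measurableSet_Icc)] at h1
        refine h1.trans (le_of_eq (Finset.sum_congr rfl fun k _ => ?_))
        rw [withDensity_apply _ measurableSet_Icc]
    _ ≤ ∑ k ∈ Finset.range (2 ^ n), (ENNReal.ofReal (f ((k : ℝ) / 2 ^ n)) * m (Icc ((k : ℝ) / 2 ^ n) ((k + 1 : ℝ) / 2 ^ n)) +
          ENNReal.ofReal ε * m (Icc ((k : ℝ) / 2 ^ n) ((k + 1 : ℝ) / 2 ^ n))) := by
        refine Finset.sum_le_sum fun k hk => ?_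
        rw [← add_mul]
        refine (setLIntegral_mono measurable_const (g := fun _ => ENNReal.ofReal (f ((k : ℝ) / 2 ^ n)) + ENNReal.ofReal ε)
          fun x hx => ?_).trans ?_
        · have := abs_le.1 (hN n hn k hk x hx)
          calc ENNReal.ofReal (f x) ≤ ENNReal.ofReal (f ((k : ℝ) / 2 ^ n) + ε) := ENNReal.ofReal_le_ofReal (by linarith)
            _ ≤ _ := ENNReal.ofReal_add_le
        · rw [setLIntegral_const]
    _ ≤ _ := by
        rw [Finset.sum_add_distrib, ← Finset.mul_sum]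
        gcongr
        exact y7_sum_le m hatom n _ _ fun k hk => y7_sub n k hk

/-- Riemann sums from above -/
theorem y7_up {f : ℝ → ℝ} (hf : Continuous f) {ε : ℝ} (hε : 0 < ε) : ∃ N : ℕ, ∀ n ≥ N,
      ∀ (m : Measure ℝ) [IsFiniteMeasure m], (∀ k n : ℕ, m {(k : ℝ) / 2 ^ n} = 0) →
      ∑ k ∈ Finset.range (2 ^ n), ENNReal.ofReal (f ((k : ℝ) / 2 ^ n)) * m (Icc ((k : ℝ) / 2 ^ n) ((k + 1 : ℝ) / 2 ^ n)) ≤
    ∫⁻ x in Icc (0:ℝ) 1, ENNReal.ofReal (f x) ∂m + ENNReal.ofReal ε * m (Icc 0 1) := by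
  obtain ⟨N, hN⟩ := y7_unif hf hε
  refine ⟨N, fun n hn m _ hatom => ?_⟩
  have hd : ∀ k j : ℕ, (m.withDensity fun x => ENNReal.ofReal (f x) + ENNReal.ofReal ε) {(k : ℝ) / 2 ^ j} = 0 := by
    intro k j
    exact withDensity_absolutelyContinuous _ _ (hatom k j)
  calc ∑ k ∈ Finset.range (2 ^ n), ENNReal.ofReal (f ((k : ℝ) / 2 ^ n)) * m (Icc ((k : ℝ) / 2 ^ n) ((k + 1 : ℝ) / 2 ^ n))
      ≤ ∑ k ∈ Finset.range (2 ^ n), (m.withDensity fun x => ENNReal.ofReal (f x) + ENNReal.ofReal ε)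
          (Icc ((k : ℝ) / 2 ^ n) ((k + 1 : ℝ) / 2 ^ n)) := by
        refine Finset.sum_le_sum fun k hk => ?_
        rw [withDensity_apply _ measurableSet_Icc, ← setLIntegral_const]
        refine setLIntegral_mono (by fun_prop) fun x hx => ?_
        have := abs_le.1 (hN n hn k hk x hx)
        calc ENNReal.ofReal (f ((k : ℝ) / 2 ^ n)) ≤ ENNReal.ofReal (f x + ε) := ENNReal.ofReal_le_ofReal (by linarith)
          _ ≤ _ := ENNReal.ofReal_add_le
    _ ≤ (m.withDensity fun x => ENNReal.ofReal (f x) + ENNReal.ofReal ε) (Icc 0 1) :=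
        y7_sum_le _ hd n _ _ fun k hk => y7_sub n k hk
    _ = _ := by
        rw [withDensity_apply _ measurableSet_Icc, lintegral_add_right _ measurable_const, setLIntegral_const]

/-- Young's inequality -/
theorem y7_young (a b η : ℝ≥0∞) (ha : a ≠ ⊤) (hb : b ≠ ⊤) (hη : 0 < η) (hη' : η ≠ ⊤) (g q : ℝ) (hg : 0 ≤ g) (hq : 1 < q) :
    ENNReal.ofReal (q * g ^ (q - 1)) * a ≤ a ^ q * (b + η) ^ (-(q - 1)) + ENNReal.ofReal ((q - 1) * g ^ q) * (b + η) := by
  have hq0 : 0 < q := by linarith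
  have hs : b + η ≠ ⊤ := ENNReal.add_ne_top.2 ⟨hb, hη'⟩
  have hs0 : b + η ≠ 0 := (lt_of_lt_of_le hη le_add_self).ne'
  obtain ⟨c, hc⟩ : ∃ c : ℝ≥0∞, c = b + η := ⟨_, rfl⟩
  rw [← hc] at hs hs0 ⊢
  lift a to NNReal using ha
  lift c to NNReal using hs
  have hc0 : 0 < (c : ℝ) := by
    have : c ≠ 0 := by simpa using hs0
    positivity
  have key : q * g ^ (q - 1) * (a : ℝ) ≤ (a : ℝ) ^ q * (c : ℝ) ^ (-(q - 1)) + (q - 1) * g ^ q * c := by
    have hconj : q.HolderConjugate (q / (q - 1)) := Real.HolderConjugate.conjExponent hq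
    have h1 := Real.young_inequality_of_nonneg (a := (a : ℝ) / c) (b := g ^ (q - 1)) (by positivity) (by positivity) hconj
    have h2 : (g ^ (q - 1)) ^ (q / (q - 1)) = g ^ q := by
      rw [← Real.rpow_mul hg]
      congr 1
      have : q - 1 ≠ 0 := by linarith
      field_simp
    rw [h2] at h1
    have h3 : g ^ q / (q / (q - 1)) = (q - 1) / q * g ^ q := by
      have : q - 1 ≠ 0 := by linarith
      field_simp
    rw [h3] at h1
    have h4 : ((a : ℝ) / c) ^ q * c = (a : ℝ) ^ q * (c : ℝ) ^ (-(q - 1)) := by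
      rw [Real.div_rpow (by positivity) hc0.le, Real.rpow_neg hc0.le, Real.rpow_sub hc0, Real.rpow_one]
      field_simp
    rw [← h4]
    have h5 : q * g ^ (q - 1) * (a : ℝ) = q * c * ((a : ℝ) / c * g ^ (q - 1)) := by
      field_simp
    rw [h5]
    calc q * c * ((a : ℝ) / c * g ^ (q - 1)) ≤ q * c * (((a : ℝ) / c) ^ q / q + (q - 1) / q * g ^ q) := by
          gcongr
      _ = _ := by
          field_simp
  have e1 : (c : ℝ≥0∞) ^ (-(q - 1)) = ENNReal.ofReal ((c : ℝ) ^ (-(q - 1))) := by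
    rw [← ENNReal.ofReal_rpow_of_pos hc0, ENNReal.ofReal_coe_nnreal]
  have e2 : (a : ℝ≥0∞) ^ q = ENNReal.ofReal ((a : ℝ) ^ q) := by
    rw [← ENNReal.ofReal_rpow_of_nonneg (by positivity) hq0.le, ENNReal.ofReal_coe_nnreal]
  rw [e1, e2, ← ENNReal.ofReal_mul (by positivity)]
  have e3 : (c : ℝ≥0∞) = ENNReal.ofReal (c : ℝ) := (ENNReal.ofReal_coe_nnreal).symm
  have e4 : (a : ℝ≥0∞) = ENNReal.ofReal (a : ℝ) := (ENNReal.ofReal_coe_nnreal).symm
  rw [e3, e4, ← ENNReal.ofReal_mul (by positivity), ← ENNReal.ofReal_mul (by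
    have := Real.rpow_nonneg hg q
    have : 0 ≤ q - 1 := by linarith
    positivity), ← ENNReal.ofReal_add (by positivity) (by
    have := Real.rpow_nonneg hg q
    have : 0 ≤ q - 1 := by linarith
    positivity)]
  exact ENNReal.ofReal_le_ofReal key

section Det

variable (ν lam : Measure ℝ) [IsFiniteMeasure ν] [IsFiniteMeasure lam] (hac : ν ≪ lam)
    (hatom : ∀ k n : ℕ, lam {(k : ℝ) / 2 ^ n} = 0)
    (q : ℝ) (hq : 1 < q) (f : ℝ → ℝ) (hf : Continuous f) (hf0 : ∀ x, 0 ≤ f x) (L : ℝ≥0∞)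
    (hlim : ∀ N : ℕ, ∃ n ≥ N, ∀ η : ℝ≥0∞, 0 < η → η ≠ ⊤ →
      ∑ k ∈ Finset.range (2 ^ n), ENNReal.ofReal (f ((k : ℝ) / 2 ^ n)) *
        (ν (Icc ((k : ℝ) / 2 ^ n) ((k + 1 : ℝ) / 2 ^ n)) ^ q *
        (lam (Icc ((k : ℝ) / 2 ^ n) ((k + 1 : ℝ) / 2 ^ n)) + η) ^ (-(q - 1))) ≤ L)

include hac hatom hq hf hf0 hlim in
theorem y7_cont (G : ℝ → ℝ) (hG : Continuous G) (hG0 : ∀ x, 0 ≤ G x) :
    ∫⁻ x in Icc (0:ℝ) 1, ENNReal.ofReal (f x * (q * G x ^ (q - 1))) ∂ν ≤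
      L + ∫⁻ x in Icc (0:ℝ) 1, ENNReal.ofReal (f x * ((q - 1) * G x ^ q)) ∂lam := by
  have hq1 : 0 < q - 1 := by linarith
  obtain ⟨M, hM⟩ : ∃ M : ℝ≥0∞, M = ν (Icc 0 1) + lam (Icc 0 1) + 1 := ⟨_, rfl⟩
  have hMt : M ≠ ⊤ := by
    rw [hM]
    exact ENNReal.add_ne_top.2 ⟨ENNReal.add_ne_top.2 ⟨measure_ne_top _ _, measure_ne_top _ _⟩, ENNReal.one_ne_top⟩
  have key : ∀ j : ℕ, ∫⁻ x in Icc (0:ℝ) 1, ENNReal.ofReal (f x * (q * G x ^ (q - 1))) ∂ν ≤
      (L + ∫⁻ x in Icc (0:ℝ) 1, ENNReal.ofReal (f x * ((q - 1) * G x ^ q)) ∂lam) +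
        ENNReal.ofReal (1 / ((j : ℝ) + 1)) * M := by
    intro j
    have hε : 0 < 1 / ((j : ℝ) + 1) := by positivity
    obtain ⟨ε, hεe⟩ : ∃ ε : ℝ, ε = 1 / ((j : ℝ) + 1) := ⟨_, rfl⟩
    rw [← hεe] at hε ⊢
    have c1 : Continuous fun x => f x * (q * G x ^ (q - 1)) :=
      hf.mul (continuous_const.mul (hG.rpow_const fun _ => Or.inr hq1.le))
    have c2 : Continuous fun x => f x * ((q - 1) * G x ^ q) :=
      hf.mul (continuous_const.mul (hG.rpow_const fun _ => Or.inr (by linarith)))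
    obtain ⟨N1, hN1⟩ := y7_low ν (fun k n => hac (hatom k n)) c1 hε
    obtain ⟨N2, hN2⟩ := y7_up c2 hε
    obtain ⟨n, hn, hsum⟩ := hlim (max N1 N2)
    have a1 := hN1 n ((le_max_left _ _).trans hn)
    have a2 := hN2 n ((le_max_right _ _).trans hn) lam hatom
    obtain ⟨S, hS⟩ : ∃ S : ℝ≥0∞, S = ∑ k ∈ Finset.range (2 ^ n),
      ENNReal.ofReal (f ((k : ℝ) / 2 ^ n) * ((q - 1) * G ((k : ℝ) / 2 ^ n) ^ q)) := ⟨_, rfl⟩
    have hSt : S ≠ ⊤ := by
      rw [hS]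
      exact ENNReal.sum_ne_top.2 fun k _ => ENNReal.ofReal_ne_top
    have hS1 : S + 1 ≠ ⊤ := ENNReal.add_ne_top.2 ⟨hSt, ENNReal.one_ne_top⟩
    have hS0 : S + 1 ≠ 0 := by positivity
    obtain ⟨η, hη⟩ : ∃ η : ℝ≥0∞, η = ENNReal.ofReal ε / (S + 1) := ⟨_, rfl⟩
    have hη0 : 0 < η := by
      rw [hη]
      exact ENNReal.div_pos (by simpa using hε) hS1
    have hηt : η ≠ ⊤ := by
      rw [hη]
      exact ENNReal.div_ne_top ENNReal.ofReal_ne_top hS0
    have hηS : η * S ≤ ENNReal.ofReal ε := by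
      calc η * S ≤ η * (S + 1) := by gcongr; exact le_self_add
        _ = ENNReal.ofReal ε := by rw [hη, ENNReal.div_mul_cancel hS0 hS1]
    have b1 : ∑ k ∈ Finset.range (2 ^ n), ENNReal.ofReal (f ((k : ℝ) / 2 ^ n) * (q * G ((k : ℝ) / 2 ^ n) ^ (q - 1))) *
          ν (Icc ((k : ℝ) / 2 ^ n) ((k + 1 : ℝ) / 2 ^ n)) ≤ L +
        (∑ k ∈ Finset.range (2 ^ n), ENNReal.ofReal (f ((k : ℝ) / 2 ^ n) * ((q - 1) * G ((k : ℝ) / 2 ^ n) ^ q)) *
          lam (Icc ((k : ℝ) / 2 ^ n) ((k + 1 : ℝ) / 2 ^ n)) + η * S) := by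
      rw [hS, Finset.mul_sum, ← Finset.sum_add_distrib]
      refine le_trans ?_ (add_le_add_left (hsum η hη0 hηt) _)
      rw [← Finset.sum_add_distrib]
      refine Finset.sum_le_sum fun k _ => ?_
      have hy := y7_young (ν (Icc ((k : ℝ) / 2 ^ n) ((k + 1 : ℝ) / 2 ^ n))) (lam (Icc ((k : ℝ) / 2 ^ n) ((k + 1 : ℝ) / 2 ^ n))) η
        (measure_ne_top _ _) (measure_ne_top _ _) hη0 hηt (G ((k : ℝ) / 2 ^ n)) q (hG0 _) hq
      rw [ENNReal.ofReal_mul (hf0 _), ENNReal.ofReal_mul (hf0 _)]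
      calc _ = ENNReal.ofReal (f ((k : ℝ) / 2 ^ n)) * (ENNReal.ofReal (q * G ((k : ℝ) / 2 ^ n) ^ (q - 1)) *
            ν (Icc ((k : ℝ) / 2 ^ n) ((k + 1 : ℝ) / 2 ^ n))) := by ring
        _ ≤ _ := mul_le_mul' le_rfl hy
        _ = _ := by ring
    calc _ ≤ _ := a1
      _ ≤ (L + (∑ k ∈ Finset.range (2 ^ n), ENNReal.ofReal (f ((k : ℝ) / 2 ^ n) * ((q - 1) * G ((k : ℝ) / 2 ^ n) ^ q)) *
          lam (Icc ((k : ℝ) / 2 ^ n) ((k + 1 : ℝ) / 2 ^ n)) + η * S)) + ENNReal.ofReal ε * ν (Icc 0 1) := by gcongr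
      _ ≤ (L + ((∫⁻ x in Icc (0:ℝ) 1, ENNReal.ofReal (f x * ((q - 1) * G x ^ q)) ∂lam + ENNReal.ofReal ε * lam (Icc 0 1)) +
          ENNReal.ofReal ε)) + ENNReal.ofReal ε * ν (Icc 0 1) := by gcongr
      _ = _ := by
          rw [hM]
          ring
  have ht : Tendsto (fun j : ℕ => (L + ∫⁻ x in Icc (0:ℝ) 1, ENNReal.ofReal (f x * ((q - 1) * G x ^ q)) ∂lam) +
        ENNReal.ofReal (1 / ((j : ℝ) + 1)) * M) atTop
      (𝓝 ((L + ∫⁻ x in Icc (0:ℝ) 1, ENNReal.ofReal (f x * ((q - 1) * G x ^ q)) ∂lam) + 0 * M)) := by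
    refine Tendsto.const_add _ (ENNReal.Tendsto.mul_const ?_ (Or.inr hMt))
    have := ENNReal.tendsto_ofReal (tendsto_one_div_add_atTop_nhds_zero_nat (𝕜 := ℝ))
    simpa using this
  rw [zero_mul, add_zero] at ht
  exact ge_of_tendsto' ht key

include hac hatom hq hf hf0 hlim in
theorem y7_meas (G : ℝ → ℝ) (hG : Measurable G) (hG0 : ∀ x, 0 ≤ G x) (M : ℝ) (hGM : ∀ x, G x ≤ M) :
    ∫⁻ x in Icc (0:ℝ) 1, ENNReal.ofReal (f x * (q * G x ^ (q - 1))) ∂ν ≤
      L + ∫⁻ x in Icc (0:ℝ) 1, ENNReal.ofReal (f x * ((q - 1) * G x ^ q)) ∂lam := by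
  have hq1 : 0 < q - 1 := by linarith
  have hM0 : 0 ≤ M := (hG0 0).trans (hGM 0)
  have hGL : MemLp G 1 lam := by
    refine MemLp.of_bound hG.aestronglyMeasurable M (Eventually.of_forall fun x => ?_)
    rw [Real.norm_of_nonneg (hG0 x)]
    exact hGM x
  have h1 : ∀ j : ℕ, ∃ g : BoundedContinuousFunction ℝ ℝ, eLpNorm (G - ⇑g) 1 lam ≤ ENNReal.ofReal (1 / ((j : ℝ) + 1)) := by
    intro j
    have hpos : ENNReal.ofReal (1 / ((j : ℝ) + 1)) ≠ 0 := by
      have : 0 < 1 / ((j : ℝ) + 1) := by positivity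
      simpa using this
    obtain ⟨g, hg, -⟩ := hGL.exists_boundedContinuous_eLpNorm_sub_le ENNReal.one_ne_top hpos
    exact ⟨g, hg⟩
  choose g hg using h1
  have h2 : Tendsto (fun j : ℕ => eLpNorm (⇑(g j) - G) 1 lam) atTop (𝓝 0) := by
    have h3 : Tendsto (fun j : ℕ => ENNReal.ofReal (1 / ((j : ℝ) + 1))) atTop (𝓝 0) := by
      have := ENNReal.tendsto_ofReal (tendsto_one_div_add_atTop_nhds_zero_nat (𝕜 := ℝ))
      simpa using this
    refine tendsto_of_tendsto_of_tendsto_of_le_of_le tendsto_const_nhds h3 (fun _ => bot_le) fun j => ?_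
    have := hg j
    rwa [eLpNorm_sub_comm] at this
  have h4 : TendstoInMeasure lam (fun j => ⇑(g j)) atTop G :=
    tendstoInMeasure_of_tendsto_eLpNorm one_ne_zero (fun j => (g j).continuous.aestronglyMeasurable)
      hG.aestronglyMeasurable h2
  obtain ⟨ns, hns, hae⟩ := h4.exists_seq_tendsto_ae
  obtain ⟨u, hu⟩ : ∃ u : ℕ → ℝ → ℝ, u = fun i x => max 0 (min M (g (ns i) x)) := ⟨_, rfl⟩
  have uc : ∀ i, Continuous (u i) := by
    intro i
    rw [hu]
    exact continuous_const.max (continuous_const.min (g (ns i)).continuous)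
  have u0 : ∀ i x, 0 ≤ u i x := by
    intro i x
    rw [hu]
    exact le_max_left _ _
  have uM : ∀ i x, u i x ≤ M := by
    intro i x
    rw [hu]
    exact max_le hM0 (min_le_left _ _)
  have ulim : ∀ᵐ x ∂lam, Tendsto (fun i => u i x) atTop (𝓝 (G x)) := by
    filter_upwards [hae] with x hx
    have h5 : Tendsto (fun i => max 0 (min M (g (ns i) x))) atTop (𝓝 (max 0 (min M (G x)))) :=
      tendsto_const_nhds.max (tendsto_const_nhds.min hx)
    rw [min_eq_right (hGM x), max_eq_right (hG0 x)] at h5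
    rw [hu]
    exact h5
  obtain ⟨B, hB⟩ := isCompact_Icc.exists_bound_of_continuousOn (hf.continuousOn (s := Icc (0:ℝ) 1))
  have lim1 : ∀ (m : Measure ℝ) [IsFiniteMeasure m] (c p : ℝ), 0 ≤ c → 0 < p → m ≪ lam → Tendsto (fun i =>
      ∫⁻ x in Icc (0:ℝ) 1, ENNReal.ofReal (f x * (c * u i x ^ p)) ∂m) atTop
      (𝓝 (∫⁻ x in Icc (0:ℝ) 1, ENNReal.ofReal (f x * (c * G x ^ p)) ∂m)) := by
    intro m _ c p hc hp hm
    refine tendsto_lintegral_of_dominated_convergence (fun _ => ENNReal.ofReal (B * (c * M ^ p))) (fun i => ?_)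
      (fun i => ?_) ?_ ?_
    · exact (hf.measurable.mul (((uc i).measurable.pow_const p).const_mul c)).ennreal_ofReal
    · rw [EventuallyLE, ae_restrict_iff' measurableSet_Icc]
      refine Eventually.of_forall fun x hx => ENNReal.ofReal_le_ofReal ?_
      have b1 : f x ≤ B := (le_abs_self _).trans (hB x hx)
      have b2 : u i x ^ p ≤ M ^ p := Real.rpow_le_rpow (u0 i x) (uM i x) hp.le
      have b3 : 0 ≤ u i x ^ p := Real.rpow_nonneg (u0 i x) _
      have b4 : 0 ≤ B := (hf0 x).trans b1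
      exact mul_le_mul b1 (by gcongr) (by positivity) b4
    · rw [lintegral_const]
      exact ENNReal.mul_ne_top ENNReal.ofReal_ne_top (measure_ne_top _ _)
    · refine ae_restrict_of_ae ?_
      filter_upwards [hm.ae_le ulim] with x hx
      refine ENNReal.tendsto_ofReal (Tendsto.const_mul _ (Tendsto.const_mul _ ?_))
      exact hx.rpow_const (Or.inr hp.le)
  have l1 := lim1 ν q (q - 1) (by linarith) hq1 hac
  have l2 := lim1 lam (q - 1) q hq1.le (by linarith) Measure.AbsolutelyContinuous.rfl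
  exact le_of_tendsto_of_tendsto' l1 (l2.const_add L) fun i =>
    y7_cont ν lam hac hatom q hq f hf hf0 L hlim (u i) (uc i) (u0 i)

include hac hatom hq hf hf0 hlim in
/-- the deterministic bound for the q-th power of the density -/
theorem y7_det (R : ℝ → ℝ≥0∞) (hR : Measurable R) (hν : ν = lam.withDensity R) (hs : lam (Icc 0 1)ᶜ = 0) :
    ∫⁻ x, ENNReal.ofReal (f x) * R x ^ q ∂lam ≤ L := by
  have hq1 : 0 < q - 1 := by linarith
  have hres : lam.restrict (Icc 0 1) = lam := Measure.restrict_eq_self_of_ae_mem (by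
    rw [ae_iff]
    exact hs)
  have hB := isCompact_Icc.exists_bound_of_continuousOn (hf.continuousOn (s := Icc (0:ℝ) 1))
  obtain ⟨B, hB⟩ := hB
  have hM : ∀ M : ℕ, ∫⁻ x, ENNReal.ofReal (f x) * (min (R x) M) ^ q ∂lam ≤ L := by
    intro M
    obtain ⟨G, hG⟩ : ∃ G : ℝ → ℝ, G = fun x => (min (R x) (M : ℝ≥0∞)).toReal := ⟨_, rfl⟩
    have hGt : ∀ x, min (R x) (M : ℝ≥0∞) ≠ ⊤ := fun x => ne_top_of_le_ne_top (ENNReal.natCast_ne_top M) (min_le_right _ _)
    have hGm : Measurable G := by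
      rw [hG]
      exact (hR.min measurable_const).ennreal_toReal
    have hG0 : ∀ x, 0 ≤ G x := by
      intro x
      rw [hG]
      exact ENNReal.toReal_nonneg
    have hGM : ∀ x, G x ≤ M := by
      intro x
      rw [hG]
      have := (ENNReal.toReal_le_toReal (hGt x) (ENNReal.natCast_ne_top M)).2 (min_le_right _ _)
      simpa using this
    have hGe : ∀ x, ENNReal.ofReal (G x) = min (R x) (M : ℝ≥0∞) := by
      intro x
      rw [hG]
      exact ENNReal.ofReal_toReal (hGt x)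
    have h1 := y7_meas ν lam hac hatom q hq f hf hf0 L hlim G hGm hG0 M hGM
    obtain ⟨X, hX⟩ : ∃ X : ℝ≥0∞, X = ∫⁻ x, ENNReal.ofReal (f x * G x ^ q) ∂lam := ⟨_, rfl⟩
    have hX' : X = ∫⁻ x, ENNReal.ofReal (f x) * (min (R x) M) ^ q ∂lam := by
      rw [hX]
      refine lintegral_congr fun x => ?_
      rw [ENNReal.ofReal_mul (hf0 x), ← ENNReal.ofReal_rpow_of_nonneg (hG0 x) (by linarith), hGe]
    rw [← hX']
    have hXt : X ≠ ⊤ := by
      rw [hX, ← hres]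
      have : ∫⁻ x in Icc (0:ℝ) 1, ENNReal.ofReal (f x * G x ^ q) ∂lam ≤
          ∫⁻ x in Icc (0:ℝ) 1, ENNReal.ofReal (B * (M : ℝ) ^ q) ∂lam := by
        refine setLIntegral_mono measurable_const fun x hx => ENNReal.ofReal_le_ofReal ?_
        have b1 : f x ≤ B := (le_abs_self _).trans (hB x hx)
        have b4 : 0 ≤ B := (hf0 x).trans b1
        have b2 : G x ^ q ≤ (M : ℝ) ^ q := Real.rpow_le_rpow (hG0 x) (hGM x) (by linarith)
        exact mul_le_mul b1 b2 (Real.rpow_nonneg (hG0 x) _) b4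
      refine ne_top_of_le_ne_top ?_ this
      rw [setLIntegral_const]
      exact ENNReal.mul_ne_top ENNReal.ofReal_ne_top (measure_ne_top _ _)
    have r2 : ∫⁻ x in Icc (0:ℝ) 1, ENNReal.ofReal (f x * ((q - 1) * G x ^ q)) ∂lam = ENNReal.ofReal (q - 1) * X := by
      rw [hres, hX, ← lintegral_const_mul' _ _ ENNReal.ofReal_ne_top]
      refine lintegral_congr fun x => ?_
      rw [← ENNReal.ofReal_mul hq1.le]
      congr 1
      ring
    have r1 : ENNReal.ofReal q * X ≤ ∫⁻ x in Icc (0:ℝ) 1, ENNReal.ofReal (f x * (q * G x ^ (q - 1))) ∂ν := by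
      have hresν : ν.restrict (Icc 0 1) = ν := Measure.restrict_eq_self_of_ae_mem (by
        rw [ae_iff]
        exact hac hs)
      have hFm : Measurable fun x => ENNReal.ofReal (f x * (q * G x ^ (q - 1))) :=
        (hf.measurable.mul ((hGm.pow_const (q - 1)).const_mul q)).ennreal_ofReal
      rw [hresν, hν, lintegral_withDensity_eq_lintegral_mul _ hR hFm, hX, ← lintegral_const_mul' _ _ ENNReal.ofReal_ne_top]
      refine lintegral_mono fun x => ?_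
      simp only [Pi.mul_apply]
      rw [← ENNReal.ofReal_mul (by linarith)]
      have e1 : G x ^ q = G x * G x ^ (q - 1) := by
        rcases (hG0 x).eq_or_lt with h0 | h0
        · rw [← h0, Real.zero_rpow (by linarith), zero_mul]
        · rw [Real.rpow_sub h0, Real.rpow_one]
          field_simp
      have e2 : q * (f x * G x ^ q) = G x * (f x * (q * G x ^ (q - 1))) := by
        rw [e1]
        ring
      rw [e2, ENNReal.ofReal_mul (hG0 x), hGe]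
      gcongr
      exact min_le_left _ _
    rw [r2] at h1
    have h2 : X + ENNReal.ofReal (q - 1) * X ≤ L + ENNReal.ofReal (q - 1) * X := by
      refine le_trans (le_of_eq ?_) (r1.trans h1)
      have : ENNReal.ofReal q = 1 + ENNReal.ofReal (q - 1) := by
        rw [← ENNReal.ofReal_one, ← ENNReal.ofReal_add zero_le_one hq1.le]
        congr 1
        ring
      rw [this]
      ring
    exact (ENNReal.add_le_add_iff_right (ENNReal.mul_ne_top ENNReal.ofReal_ne_top hXt)).1 h2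
  have hmono : ∀ x, ENNReal.ofReal (f x) * R x ^ q = ⨆ M : ℕ, ENNReal.ofReal (f x) * (min (R x) M) ^ q := by
    intro x
    rw [← ENNReal.mul_iSup]
    congr 1
    have h1 : Tendsto (fun M : ℕ => min (R x) (M : ℝ≥0∞)) atTop (𝓝 (min (R x) ⊤)) :=
      tendsto_const_nhds.min ENNReal.tendsto_nat_nhds_top
    rw [min_eq_left le_top] at h1
    have h2 := ((ENNReal.continuous_rpow_const (y := q)).tendsto _).comp h1
    refine tendsto_nhds_unique h2 (tendsto_atTop_iSup fun a b hab => ?_)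
    have : (a : ℝ≥0∞) ≤ b := by exact_mod_cast hab
    exact ENNReal.rpow_le_rpow (min_le_min le_rfl this) (by linarith)
  simp only [hmono]
  rw [lintegral_iSup]
  · exact iSup_le hM
  · intro M
    exact hf.measurable.ennreal_ofReal.mul ((hR.min measurable_const).pow_const q)
  · intro a b hab x
    have : (a : ℝ≥0∞) ≤ b := by exact_mod_cast hab
    simp only
    gcongr

end Det

end Chaos
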