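import Pool.Agent.Lib.MP_9eae41_pr.Y7
import Pool.Agent.Lib.MP_9eae41_pr.Z2

set_option autoImplicit false

open Complex MeasureTheory Set Filter Topology
open scoped ENNReal

namespace Chaos

/-! The q-th power of the density: the random part. -/

theorem y8_abs {Ω : Type} [MeasurableSpace Ω] (Q : Measure Ω) [IsProbabilityMeasure Q] (ν lam : Ω → Measure ℝ)
    (g : Ω → ℝ≥0∞) (hg : AEMeasurable g Q) (B : ℝ≥0∞) (hB : B ≠ ⊤) (hgB : ∀ᵐ w ∂Q, g w ≤ B)
    (hν : ∀ᵐ w ∂Q, IsFiniteMeasure (ν w)) (hl : ∀ᵐ w ∂Q, IsFiniteMeasure (lam w) ∧ lam w (Icc 0 1)ᶜ = 0)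
    (q : ℝ) (hq : 1 < q) (C : ℝ≥0∞) (hC : C ≠ ⊤) (hatom : ∀ x : ℝ, ∀ᵐ w ∂Q, lam w {x} = 0)
    (hmass : ∫⁻ w, lam w (Icc 0 1) ∂Q ≠ ⊤)
    (hmν : ∀ a b : ℝ, AEMeasurable (fun w => ν w (Icc a b)) Q) (hml : ∀ a b : ℝ, AEMeasurable (fun w => lam w (Icc a b)) Q)
    (hmain : ∀ a b : ℝ, ∀ η : ℝ≥0∞, 0 < η → η ≠ ⊤ →
      ∫⁻ w, ν w (Icc a b) ^ q * ((lam w (Icc a b) + η) ^ (-(q - 1)) * g w) ∂Q ≤ C * ∫⁻ w, lam w (Icc a b) * g w ∂Q)
    (R : Ω → ℝ → ℝ≥0∞) (hR : ∀ w, Measurable (R w)) (hRν : ∀ᵐ w ∂Q, ν w = (lam w).withDensity (R w))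
    (f : ℝ → ℝ) (hf : Continuous f) (hf0 : ∀ x, 0 ≤ f x)
    (hfm : AEMeasurable (fun w => ∫⁻ x, ENNReal.ofReal (f x) ∂(lam w)) Q) :
    ∫⁻ w, (∫⁻ x, ENNReal.ofReal (f x) * R w x ^ q ∂(lam w)) * g w ∂Q ≤
      C * ∫⁻ w, (∫⁻ x, ENNReal.ofReal (f x) ∂(lam w)) * g w ∂Q := by
  have hq0 : 0 < q := by linarith
  have hq1 : 0 < q - 1 := by linarith
  have hat : ∀ᵐ w ∂Q, ∀ k n : ℕ, lam w {(k : ℝ) / 2 ^ n} = 0 := by
    rw [ae_all_iff]; intro k
    rw [ae_all_iff]; intro n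
    exact hatom _
  let Sη : ℕ → ℝ≥0∞ → Ω → ℝ≥0∞ := fun n η w =>
    ∑ k ∈ Finset.range (2 ^ n), ENNReal.ofReal (f ((k : ℝ) / 2 ^ n)) *
      (ν w (Icc ((k : ℝ) / 2 ^ n) ((k + 1 : ℝ) / 2 ^ n)) ^ q *
        (lam w (Icc ((k : ℝ) / 2 ^ n) ((k + 1 : ℝ) / 2 ^ n)) + η) ^ (-(q - 1)))
  let e : ℕ → ℝ≥0∞ := fun m => ((m : ℝ≥0∞) + 1)⁻¹
  have he0 : ∀ m, 0 < e m := fun m => ENNReal.inv_pos.2 (ENNReal.add_ne_top.2 ⟨ENNReal.natCast_ne_top m, ENNReal.one_ne_top⟩)
  have het : ∀ m, e m ≠ ⊤ := fun m => ENNReal.inv_ne_top.2 (by positivity)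
  have hanti : Antitone e := by
    intro a b hab
    apply ENNReal.inv_le_inv.2
    have : (a : ℝ≥0∞) ≤ b := by exact_mod_cast hab
    exact add_le_add this le_rfl
  have hSmono : ∀ n w, ∀ η η' : ℝ≥0∞, η ≤ η' → Sη n η' w ≤ Sη n η w := by
    intro n w η η' h
    apply Finset.sum_le_sum
    intro k _
    refine mul_le_mul' le_rfl (mul_le_mul' le_rfl ?_)
    rw [ENNReal.rpow_neg, ENNReal.rpow_neg, ENNReal.inv_le_inv]
    exact ENNReal.rpow_le_rpow (add_le_add le_rfl h) hq1.le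
  have hSm : ∀ n η, AEMeasurable (Sη n η) Q := by
    intro n η
    apply Finset.aemeasurable_fun_sum
    intro k _
    exact (((hmν _ _).pow_const q).mul (((hml _ _).add_const η).pow_const _)).const_mul _
  let T : ℕ → Ω → ℝ≥0∞ := fun n w => ⨆ m, Sη n (e m) w
  have hTm : ∀ n, AEMeasurable (T n) Q := fun n => AEMeasurable.iSup (fun m => hSm n (e m))
  obtain ⟨A, hA⟩ : ∃ A : ℝ≥0∞, A = ∫⁻ w, (∫⁻ x, ENNReal.ofReal (f x) ∂(lam w)) * g w ∂Q := ⟨_, rfl⟩
  obtain ⟨M, hM⟩ : ∃ M : ℝ≥0∞, M = ∫⁻ w, lam w (Icc 0 1) * g w ∂Q := ⟨_, rfl⟩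
  have hMt : M ≠ ⊤ := by
    have : M ≤ B * ∫⁻ w, lam w (Icc 0 1) ∂Q := by
      rw [hM, ← lintegral_const_mul' _ _ hB]
      refine lintegral_mono_ae ?_
      filter_upwards [hgB] with w hw
      rw [mul_comm]
      exact mul_le_mul' hw le_rfl
    exact ne_top_of_le_ne_top (ENNReal.mul_ne_top hB hmass) this
  rw [← hA]
  -- the bound at a fine level
  have hbound : ∀ ε : ℝ, 0 < ε → ∫⁻ w, liminf (fun n => T n w * g w) atTop ∂Q ≤ C * (A + ENNReal.ofReal ε * M) := by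
    intro ε hε
    obtain ⟨N, hN⟩ := y7_up hf hε
    have hSB : ∀ n ≥ N, ∀ m, ∫⁻ w, Sη n (e m) w * g w ∂Q ≤ C * (A + ENNReal.ofReal ε * M) := by
      intro n hn m
      have h0 : ∫⁻ w, Sη n (e m) w * g w ∂Q = ∑ k ∈ Finset.range (2 ^ n),
          ENNReal.ofReal (f ((k : ℝ) / 2 ^ n)) * ∫⁻ w, ν w (Icc ((k : ℝ) / 2 ^ n) ((k + 1 : ℝ) / 2 ^ n)) ^ q *
            ((lam w (Icc ((k : ℝ) / 2 ^ n) ((k + 1 : ℝ) / 2 ^ n)) + e m) ^ (-(q - 1)) * g w) ∂Q := by
        have h00 : ∀ w, Sη n (e m) w * g w = ∑ k ∈ Finset.range (2 ^ n), ENNReal.ofReal (f ((k : ℝ) / 2 ^ n)) *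
            (ν w (Icc ((k : ℝ) / 2 ^ n) ((k + 1 : ℝ) / 2 ^ n)) ^ q *
            ((lam w (Icc ((k : ℝ) / 2 ^ n) ((k + 1 : ℝ) / 2 ^ n)) + e m) ^ (-(q - 1)) * g w)) := by
          intro w
          simp only [Sη]
          rw [Finset.sum_mul]
          refine Finset.sum_congr rfl fun k _ => ?_
          rw [mul_assoc, mul_assoc]
        simp only [h00]
        rw [lintegral_finsetSum']
        · refine Finset.sum_congr rfl fun k _ => ?_
          rw [lintegral_const_mul' _ _ ENNReal.ofReal_ne_top]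
        · intro k _
          exact (((hmν _ _).pow_const q).mul ((((hml _ _).add_const (e m)).pow_const _).mul hg)).const_mul _
      rw [h0]
      calc _ ≤ ∑ k ∈ Finset.range (2 ^ n), ENNReal.ofReal (f ((k : ℝ) / 2 ^ n)) *
            (C * ∫⁻ w, lam w (Icc ((k : ℝ) / 2 ^ n) ((k + 1 : ℝ) / 2 ^ n)) * g w ∂Q) :=
            Finset.sum_le_sum fun k _ => mul_le_mul' le_rfl (hmain _ _ _ (he0 m) (het m))
        _ = C * ∫⁻ w, (∑ k ∈ Finset.range (2 ^ n), ENNReal.ofReal (f ((k : ℝ) / 2 ^ n)) *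
              lam w (Icc ((k : ℝ) / 2 ^ n) ((k + 1 : ℝ) / 2 ^ n))) * g w ∂Q := by
            have h01 : ∀ w, (∑ k ∈ Finset.range (2 ^ n), ENNReal.ofReal (f ((k : ℝ) / 2 ^ n)) *
              lam w (Icc ((k : ℝ) / 2 ^ n) ((k + 1 : ℝ) / 2 ^ n))) * g w = ∑ k ∈ Finset.range (2 ^ n),
                ENNReal.ofReal (f ((k : ℝ) / 2 ^ n)) * (lam w (Icc ((k : ℝ) / 2 ^ n) ((k + 1 : ℝ) / 2 ^ n)) * g w) := by
              intro w
              rw [Finset.sum_mul]
              refine Finset.sum_congr rfl fun k _ => ?_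
              rw [mul_assoc]
            simp only [h01]
            rw [lintegral_finsetSum']
            · rw [Finset.mul_sum]
              refine Finset.sum_congr rfl fun k _ => ?_
              rw [lintegral_const_mul' _ _ ENNReal.ofReal_ne_top]
              ring
            · intro k _
              exact ((hml _ _).mul hg).const_mul _
        _ ≤ C * ∫⁻ w, ((∫⁻ x, ENNReal.ofReal (f x) ∂(lam w)) + ENNReal.ofReal ε * lam w (Icc 0 1)) * g w ∂Q := by
            refine mul_le_mul' le_rfl (lintegral_mono_ae ?_)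
            filter_upwards [hat, hl] with w h1 h2
            have := h2.1
            refine mul_le_mul' ((hN n hn (lam w) h1).trans ?_) le_rfl
            gcongr
            exact Measure.restrict_le_self
        _ = C * (A + ENNReal.ofReal ε * M) := by
            simp only [add_mul]
            have hx : AEMeasurable (fun w => (∫⁻ x, ENNReal.ofReal (f x) ∂(lam w)) * g w) Q := hfm.mul hg
            rw [lintegral_add_left' hx, ← hA, hM]
            congr 2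
            simp only [mul_assoc]
            rw [lintegral_const_mul' _ _ ENNReal.ofReal_ne_top]
    have hTB : ∀ n ≥ N, ∫⁻ w, T n w * g w ∂Q ≤ C * (A + ENNReal.ofReal ε * M) := by
      intro n hn
      simp only [T, ENNReal.iSup_mul]
      have hx : ∀ m, AEMeasurable (fun w => Sη n (e m) w * g w) Q := fun m => (hSm n (e m)).mul hg
      rw [lintegral_iSup' hx
        (Eventually.of_forall (fun w => fun a b hab => mul_le_mul' (hSmono n w _ _ (hanti hab)) le_rfl))]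
      exact iSup_le (fun m => hSB n hn m)
    have hx : ∀ n, AEMeasurable (fun w => T n w * g w) Q := fun n => (hTm n).mul hg
    refine (lintegral_liminf_le' hx).trans ?_
    calc liminf (fun n => ∫⁻ w, T n w * g w ∂Q) atTop ≤ liminf (fun _ : ℕ => C * (A + ENNReal.ofReal ε * M)) atTop := by
          refine liminf_le_liminf ?_
          filter_upwards [eventually_ge_atTop N] with n hn using hTB n hn
      _ = C * (A + ENNReal.ofReal ε * M) := liminf_const _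
  have hlimit : ∫⁻ w, liminf (fun n => T n w * g w) atTop ∂Q ≤ C * A := by
    have ht : Tendsto (fun j : ℕ => C * (A + ENNReal.ofReal (1 / ((j : ℝ) + 1)) * M)) atTop (𝓝 (C * (A + 0 * M))) := by
      refine ENNReal.Tendsto.const_mul (Tendsto.const_add _ (ENNReal.Tendsto.mul_const ?_ (Or.inr hMt))) (Or.inr hC)
      have := ENNReal.tendsto_ofReal (tendsto_one_div_add_atTop_nhds_zero_nat (𝕜 := ℝ))
      simpa using this
    rw [zero_mul, add_zero] at ht
    exact ge_of_tendsto' ht fun j => hbound _ (by positivity)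
  refine le_trans (lintegral_mono_ae ?_) hlimit
  filter_upwards [hν, hl, hat, hRν, hgB] with w h1 h2 h3 h4 h5
  have := h1
  have := h2.1
  rcases eq_or_ne (g w) 0 with h0 | h0
  · rw [h0, mul_zero]
    exact bot_le
  have hgt : g w ≠ ⊤ := ne_top_of_le_ne_top hB h5
  by_contra hcon
  rw [not_le] at hcon
  obtain ⟨X, hX⟩ : ∃ X : ℝ≥0∞, X = ∫⁻ x, ENNReal.ofReal (f x) * R w x ^ q ∂(lam w) := ⟨_, rfl⟩
  rw [← hX] at hcon
  have h6 : liminf (fun n => T n w * g w) atTop / g w < X := ENNReal.div_lt_of_lt_mul hcon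
  obtain ⟨L', hL1, hL2⟩ := exists_between h6
  have h7 : liminf (fun n => T n w * g w) atTop < L' * g w := by
    rw [ENNReal.div_lt_iff (Or.inl h0) (Or.inl hgt)] at hL1
    exact hL1
  have h8 : ∃ᶠ n in atTop, T n w * g w < L' * g w := frequently_lt_of_liminf_lt (by isBoundedDefault) h7
  have hac : ν w ≪ lam w := by
    rw [h4]
    exact withDensity_absolutelyContinuous _ _
  have h9 := y7_det (ν w) (lam w) hac h3 q hq f hf hf0 L' (fun N => by
    obtain ⟨n, hn, hlt⟩ := (frequently_atTop.1 h8) N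
    refine ⟨n, hn, fun η hη hη' => ?_⟩
    have h10 : T n w < L' := by
      by_contra hc
      rw [not_lt] at hc
      exact absurd hlt (not_lt.2 (mul_le_mul' hc le_rfl))
    obtain ⟨m, hm⟩ : ∃ m : ℕ, e m ≤ η := by
      obtain ⟨m, hm⟩ := ENNReal.exists_inv_nat_lt hη.ne'
      refine ⟨m, le_trans ?_ hm.le⟩
      apply ENNReal.inv_le_inv.2
      exact le_self_add
    exact ((hSmono n w _ _ hm).trans (le_iSup (fun m => Sη n (e m) w) m)).trans h10.le) (R w) (hR w) h4 h2.2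
  rw [← hX] at h9
  exact absurd hL2 (not_lt.2 h9)

end Chaos
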