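import Pool.Agent.Lib.MP_9eae41_pr.Y4

set_option autoImplicit false

open Complex MeasureTheory Set Filter Topology
open scoped ENNReal

namespace Chaos

/-! Moments of all orders: the approximating measures as continuous functions of the phases. -/

/-- retraction of the plane onto the closed unit disc -/
noncomputable def y9r (z : ℂ) : ℂ := z / ((max 1 ‖z‖ : ℝ) : ℂ)

theorem y9r_cont : Continuous y9r := by
  unfold y9r
  refine continuous_id.div (by fun_prop) fun z => ?_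
  have : (0:ℝ) < max 1 ‖z‖ := lt_of_lt_of_le one_pos (le_max_left _ _)
  exact_mod_cast this.ne'

theorem y9r_norm (z : ℂ) : ‖y9r z‖ ≤ 1 := by
  unfold y9r
  have : (0:ℝ) < max 1 ‖z‖ := lt_of_lt_of_le one_pos (le_max_left _ _)
  rw [norm_div, Complex.norm_real, Real.norm_of_nonneg this.le, div_le_one this]
  exact le_max_right _ _

theorem y9r_eq {z : ℂ} (h : ‖z‖ = 1) : y9r z = z := by
  unfold y9r
  rw [h, max_self]
  simp

/-- the Euler product over the first n primes as a function of the phases -/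
noncomputable def y9F (n : ℕ) (v : Fin n → ℂ) (x : ℝ) : ℂ :=
  ∏ j : Fin n, (1 - (pr j : ℂ) ^ (-(1/2 : ℂ) - I * x) * y9r (v j))⁻¹

theorem y9_pt_norm (n : ℕ) (θ : ℕ → ℝ) (j : Fin n) : ‖pt n θ j‖ = 1 := by
  unfold pt
  have : (2 * (Real.pi : ℂ) * I * (θ j : ℂ)) = ((2 * Real.pi * θ j : ℝ) : ℂ) * I := by
    push_cast
    ring
  rw [this, Complex.norm_exp_ofReal_mul_I]

theorem y9F_pt (n : ℕ) (θ : ℕ → ℝ) (x : ℝ) : y9F n (pt n θ) x = zr n θ x := by
  unfold y9F zr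
  rw [Finset.prod_range]
  refine Finset.prod_congr rfl fun j _ => ?_
  rw [y9r_eq (y9_pt_norm n θ j)]
  rfl

theorem y9_a_norm (j : ℕ) (x : ℝ) : ‖(pr j : ℂ) ^ (-(1/2 : ℂ) - I * x)‖ < 1 := by
  have hp := pr_prime j
  rw [norm_natCast_cpow_of_pos hp.pos]
  have : (-(1/2 : ℂ) - I * x).re = -(1/2) := by simp
  rw [this]
  exact Real.rpow_lt_one_of_one_lt_of_neg (by exact_mod_cast hp.one_lt) (by norm_num)

theorem y9_ne (j : ℕ) (x : ℝ) (z : ℂ) : 1 - (pr j : ℂ) ^ (-(1/2 : ℂ) - I * x) * y9r z ≠ 0 := by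
  intro h
  have h1 : (pr j : ℂ) ^ (-(1/2 : ℂ) - I * x) * y9r z = 1 := by
    rw [sub_eq_zero] at h
    exact h.symm
  have h2 : ‖(pr j : ℂ) ^ (-(1/2 : ℂ) - I * x) * y9r z‖ = 1 := by
    rw [h1, norm_one]
  rw [norm_mul] at h2
  have h3 := y9_a_norm j x
  have h4 := y9r_norm z
  have h5 : ‖(pr j : ℂ) ^ (-(1/2 : ℂ) - I * x)‖ * ‖y9r z‖ ≤ ‖(pr j : ℂ) ^ (-(1/2 : ℂ) - I * x)‖ * 1 := by
    gcongr
  linarith

theorem y9F_cont (n : ℕ) : Continuous (fun q : (Fin n → ℂ) × ℝ => y9F n q.1 q.2) := by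
  unfold y9F
  refine continuous_finsetProd _ fun j _ => Continuous.inv₀ ?_ fun q => y9_ne j q.2 (q.1 j)
  have h0 : (pr j : ℂ) ≠ 0 := by exact_mod_cast (pr_prime j).ne_zero
  have h1 : Continuous fun q : (Fin n → ℂ) × ℝ => (pr j : ℂ) ^ (-(1/2 : ℂ) - I * q.2) :=
    Continuous.const_cpow (by fun_prop) (Or.inl h0)
  have h2 : Continuous fun q : (Fin n → ℂ) × ℝ => y9r (q.1 j) := y9r_cont.comp (by fun_prop)
  exact continuous_const.sub (h1.mul h2)

/-- the integral of f against the approximating measure, as a function of the phases -/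
noncomputable def gN (β : ℝ) (n : ℕ) (f : ℝ → ℝ) (v : Fin n → ℂ) : ℝ :=
  ∫ x in Icc (0:ℝ) 1, f x * (‖y9F n v x‖ ^ β / CZ.y1c β n)

theorem gN_cont {β : ℝ} (h0 : 0 < β) (n : ℕ) {f : ℝ → ℝ} (hf : Continuous f) : Continuous (gN β n f) := by
  unfold gN
  refine continuous_parametric_integral_of_continuous ?_ isCompact_Icc
  refine (hf.comp continuous_snd).mul (Continuous.div_const ?_ _)
  exact (y9F_cont n).norm.rpow_const fun _ => Or.inr h0.le

theorem gN_nonneg {β : ℝ} (n : ℕ) {f : ℝ → ℝ} (hf0 : ∀ x, 0 ≤ f x) (v : Fin n → ℂ) : 0 ≤ gN β n f v :=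
  integral_nonneg fun x => mul_nonneg (hf0 x) (div_nonneg (Real.rpow_nonneg (norm_nonneg _) _) (CZ.y1_c_nonneg β n))

theorem gN_pt (β : ℝ) (n : ℕ) (f : ℝ → ℝ) (θ : ℕ → ℝ) : gN β n f (pt n θ) = ∫ x, f x ∂(lamN β n θ) := by
  rw [CZ.y1_lam_int]
  unfold gN
  refine setIntegral_congr_fun measurableSet_Icc fun x _ => ?_
  simp only [y9F_pt]

/-- a continuous function is bounded on the torus -/
theorem torus_bd {n : ℕ} {h : (Fin n → ℂ) → ℝ} (hh : Continuous h) : ∃ B : ℝ, 0 ≤ B ∧ ∀ v : Fin n → ℂ, (∀ j, ‖v j‖ = 1) → |h v| ≤ B := by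
  obtain ⟨B, hB⟩ := (isCompact_closedBall (0 : Fin n → ℂ) 1).exists_bound_of_continuousOn hh.continuousOn
  have h1 : ∀ v : Fin n → ℂ, (∀ j, ‖v j‖ = 1) → |h v| ≤ B := by
    intro v hv
    refine hB v ?_
    rw [mem_closedBall_zero_iff, pi_norm_le_iff_of_nonneg zero_le_one]
    exact fun j => (hv j).le
  exact ⟨B, (abs_nonneg _).trans (h1 (fun _ => 1) (by simp)), h1⟩

theorem pt_meas (n : ℕ) : Measurable (pt n) := CZ.y1_pt_meas n

/-- the predicted value as an expectation -/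
theorem pred_eq {β : ℝ} (h0 : 0 < β) (n : ℕ) {f : ℝ → ℝ} (hf : Continuous f) {w : (Fin n → ℂ) → ℝ} (hw : Continuous w) :
    pred β n f w = ∫ θ, gN β n f (pt n θ) * w (pt n θ) ∂P := by
  have hPp : IsProbabilityMeasure P := P_prob
  obtain ⟨B, hB0, hB⟩ := torus_bd hw
  have hmz := CZ.y1_zr_meas n
  have hF : Continuous fun q : (Fin n → ℂ) × ℝ => (f q.2 * (‖y9F n q.1 q.2‖ ^ β / CZ.y1c β n)) * w q.1 := by
    refine ((hf.comp continuous_snd).mul (Continuous.div_const ?_ _)).mul (hw.comp continuous_fst)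
    exact (y9F_cont n).norm.rpow_const fun _ => Or.inr h0.le
  have hcomp : IsCompact ((Metric.closedBall (0 : Fin n → ℂ) 1) ×ˢ Icc (0:ℝ) 1) :=
    (isCompact_closedBall _ _).prod isCompact_Icc
  obtain ⟨K, hK⟩ := hcomp.exists_bound_of_continuousOn hF.continuousOn
  have hint : Integrable (fun q : (ℕ → ℝ) × ℝ => (f q.2 * (‖y9F n (pt n q.1) q.2‖ ^ β / CZ.y1c β n)) * w (pt n q.1))
      (P.prod (volume.restrict (Icc (0:ℝ) 1))) := by
    refine Integrable.of_bound (C := K) ?_ ?_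
    · exact (hF.measurable.comp ((((pt_meas n).comp measurable_fst)).prodMk measurable_snd)).aestronglyMeasurable
    · have h1 : ∀ᵐ q ∂(P.prod (volume.restrict (Icc (0:ℝ) 1))), q.2 ∈ Icc (0:ℝ) 1 := by
        have h2 : ∀ᵐ x ∂(volume.restrict (Icc (0:ℝ) 1)), x ∈ Icc (0:ℝ) 1 := ae_restrict_mem measurableSet_Icc
        exact Measure.quasiMeasurePreserving_snd.ae h2
      filter_upwards [h1] with q hq
      refine hK (pt n q.1, q.2) ⟨?_, hq⟩
      rw [mem_closedBall_zero_iff, pi_norm_le_iff_of_nonneg zero_le_one]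
      exact fun j => (y9_pt_norm n q.1 j).le
  have hswap := integral_integral_swap (μ := P) (ν := volume.restrict (Icc (0:ℝ) 1))
    (f := fun θ x => (f x * (‖y9F n (pt n θ) x‖ ^ β / CZ.y1c β n)) * w (pt n θ)) hint
  have e1 : ∀ θ : ℕ → ℝ, ∫ x in Icc (0:ℝ) 1, (f x * (‖y9F n (pt n θ) x‖ ^ β / CZ.y1c β n)) * w (pt n θ) =
      gN β n f (pt n θ) * w (pt n θ) := by
    intro θ
    rw [integral_mul_const]
    rfl
  simp only [e1] at hswap
  rw [hswap]
  unfold pred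
  refine setIntegral_congr_fun measurableSet_Icc fun x _ => ?_
  simp only [y9F_pt, CZ.y1_den']
  rw [← integral_div, ← integral_const_mul]
  refine integral_congr_ae (Eventually.of_forall fun θ => ?_)
  simp only
  ring

end Chaos
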