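import Pool.Agent.Lib.MP_9eae41_pr.Y0
import Mathlib.MeasureTheory.Measure.Prokhorov

set_option autoImplicit false

open Complex MeasureTheory Set Filter Topology
open scoped ENNReal

namespace Chaos

/-! Row Z4: existence of limit points (Prokhorov). State space: pairs (finite measure carried by [0,1], sequence of
phases), metrised by the moments of the measure. -/

/-- the finite measures carried by [0,1] -/
private abbrev z4_S0 : Type := {μ : FiniteMeasure ℝ // (μ : Measure ℝ) (Icc 0 1)ᶜ = 0}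

/-- the state space -/
private def z4_St : Type := z4_S0 × (ℕ → ℂ)

private noncomputable instance : TopologicalSpace z4_St := inferInstanceAs (TopologicalSpace (z4_S0 × (ℕ → ℂ)))

private noncomputable instance : MeasurableSpace z4_St := borel z4_St

private instance : BorelSpace z4_St := ⟨rfl⟩

private instance : T2Space z4_St := inferInstanceAs (T2Space (z4_S0 × (ℕ → ℂ)))

/-- the projection of the line to [0,1] -/
private noncomputable def z4_cl (x : ℝ) : ℝ := max 0 (min x 1)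

private lemma z4_cl_cont : Continuous z4_cl := by
  unfold z4_cl
  fun_prop

private lemma z4_cl_mem (x : ℝ) : z4_cl x ∈ Icc (0:ℝ) 1 := by
  unfold z4_cl
  exact ⟨le_max_left _ _, max_le zero_le_one (min_le_right _ _)⟩

private lemma z4_cl_eq {x : ℝ} (hx : x ∈ Icc (0:ℝ) 1) : z4_cl x = x := by
  unfold z4_cl
  rw [min_eq_left hx.2, max_eq_right hx.1]

/-- a continuous function made bounded outside of [0,1] -/
private lemma z4_exists_bcf (f : ℝ → ℝ) (hf : Continuous f) :
    ∃ g : BoundedContinuousFunction ℝ ℝ, ∀ x, g x = f (z4_cl x) := by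
  obtain ⟨B, hB⟩ := isCompact_Icc.exists_bound_of_continuousOn (s := Icc (0:ℝ) 1) hf.continuousOn
  exact ⟨BoundedContinuousFunction.ofNormedAddCommGroup (fun x => f (z4_cl x)) (hf.comp z4_cl_cont) B
    (fun x => hB _ (z4_cl_mem x)), fun _ => rfl⟩

private lemma z4_int_eq (f : ℝ → ℝ) (μ : Measure ℝ) (hμ : μ (Icc 0 1)ᶜ = 0) :
    ∫ x, f x ∂μ = ∫ x, f (z4_cl x) ∂μ := by
  refine integral_congr_ae ?_
  have h : ∀ᵐ x ∂μ, x ∈ Icc (0:ℝ) 1 := by
    rw [ae_iff]
    exact hμ
  filter_upwards [h] with x hx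
  rw [z4_cl_eq hx]

private lemma z4_integrable (f : ℝ → ℝ) (hf : Continuous f) (μ : Measure ℝ) [IsFiniteMeasure μ]
    (hμ : μ (Icc 0 1)ᶜ = 0) : Integrable f μ := by
  obtain ⟨g, hg⟩ := z4_exists_bcf f hf
  have h : ∀ᵐ x ∂μ, x ∈ Icc (0:ℝ) 1 := by
    rw [ae_iff]
    exact hμ
  refine (g.integrable μ).congr ?_
  filter_upwards [h] with x hx
  rw [hg, z4_cl_eq hx]

private lemma z4_cont_int (f : ℝ → ℝ) (hf : Continuous f) :
    Continuous fun μ : z4_S0 => ∫ x, f x ∂((μ : FiniteMeasure ℝ) : Measure ℝ) := by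
  obtain ⟨g, hg⟩ := z4_exists_bcf f hf
  have h : (fun μ : z4_S0 => ∫ x, f x ∂((μ : FiniteMeasure ℝ) : Measure ℝ)) =
      fun μ : z4_S0 => ∫ x, g x ∂((μ : FiniteMeasure ℝ) : Measure ℝ) := by
    funext μ
    rw [z4_int_eq f _ μ.2]
    exact integral_congr_ae (ae_of_all _ fun x => (hg x).symm)
  rw [h, continuous_iff_continuousAt]
  intro μ
  exact (FiniteMeasure.tendsto_iff_forall_integral_tendsto.1 (continuous_subtype_val.tendsto μ)) g

/-- the moments -/
private noncomputable def z4_m (μ : z4_S0) (i : ℕ) : ℝ := ∫ x, x ^ i ∂((μ : FiniteMeasure ℝ) : Measure ℝ)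

private lemma z4_m_cont : Continuous z4_m := by
  refine continuous_pi fun i => ?_
  exact z4_cont_int (fun x => x ^ i) (continuous_pow i)

private lemma z4_m0 (μ : z4_S0) : z4_m μ 0 = (((μ : FiniteMeasure ℝ) : Measure ℝ) univ).toReal := by
  unfold z4_m
  simp [Measure.real]

private lemma z4_poly (p : Polynomial ℝ) (μ : z4_S0) :
    ∫ x, p.eval x ∂((μ : FiniteMeasure ℝ) : Measure ℝ) =
      ∑ i ∈ Finset.range (p.natDegree + 1), p.coeff i * z4_m μ i := by
  unfold z4_m
  have h : ∀ x : ℝ, p.eval x = ∑ i ∈ Finset.range (p.natDegree + 1), p.coeff i * x ^ i :=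
    fun x => Polynomial.eval_eq_sum_range x
  simp_rw [h]
  rw [integral_finsetSum]
  · refine Finset.sum_congr rfl fun i _ => ?_
    rw [integral_const_mul]
  · intro i _
    exact (z4_integrable _ (continuous_pow i) _ μ.2).const_mul _

private lemma z4_near (f : ℝ → ℝ) (hf : Continuous f) (p : Polynomial ℝ) (δ : ℝ)
    (hp : ∀ x ∈ Icc (0:ℝ) 1, |p.eval x - f x| < δ) (μ : z4_S0) :
    |∫ x, f x ∂((μ : FiniteMeasure ℝ) : Measure ℝ) - ∫ x, p.eval x ∂((μ : FiniteMeasure ℝ) : Measure ℝ)| ≤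
      δ * z4_m μ 0 := by
  rw [← integral_sub (z4_integrable f hf _ μ.2) (z4_integrable _ p.continuous _ μ.2), z4_m0]
  have h : ∀ᵐ x ∂((μ : FiniteMeasure ℝ) : Measure ℝ), ‖f x - p.eval x‖ ≤ δ := by
    have h : ∀ᵐ x ∂((μ : FiniteMeasure ℝ) : Measure ℝ), x ∈ Icc (0:ℝ) 1 := by
      rw [ae_iff]
      exact μ.2
    filter_upwards [h] with x hx
    rw [Real.norm_eq_abs, abs_sub_comm]
    exact (hp x hx).le
  have := norm_integral_le_of_norm_le_const h
  rwa [Real.norm_eq_abs] at this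

private lemma z4_tendsto {ι : Type*} {l : Filter ι} (μs : ι → z4_S0) (μ : z4_S0)
    (h : Tendsto (fun k => z4_m (μs k)) l (𝓝 (z4_m μ))) (f : ℝ → ℝ) (hf : Continuous f) :
    Tendsto (fun k => ∫ x, f x ∂((μs k : FiniteMeasure ℝ) : Measure ℝ)) l
      (𝓝 (∫ x, f x ∂((μ : FiniteMeasure ℝ) : Measure ℝ))) := by
  rw [tendsto_pi_nhds] at h
  rw [Metric.tendsto_nhds]
  intro ε hε
  set M : ℝ := z4_m μ 0 with hM
  have hM0 : 0 ≤ M := by
    rw [hM, z4_m0]
    exact ENNReal.toReal_nonneg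
  set δ : ℝ := ε / (4 * (M + 1)) with hδ
  have hδ0 : 0 < δ := by positivity
  obtain ⟨p, hp⟩ := exists_polynomial_near_of_continuousOn 0 1 f hf.continuousOn δ hδ0
  have h1 : ∀ᶠ k in l, z4_m (μs k) 0 < M + 1 := (h 0).eventually (gt_mem_nhds (by linarith))
  have h2 : Tendsto (fun k => ∫ x, p.eval x ∂((μs k : FiniteMeasure ℝ) : Measure ℝ)) l
      (𝓝 (∫ x, p.eval x ∂((μ : FiniteMeasure ℝ) : Measure ℝ))) := by
    simp_rw [z4_poly]
    exact tendsto_finsetSum _ fun i _ => (h i).const_mul _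
  have h3 := (Metric.tendsto_nhds.1 h2) (ε / 2) (by positivity)
  filter_upwards [h1, h3] with k hk1 hk3
  have e1 := z4_near f hf p δ hp (μs k)
  have e2 := z4_near f hf p δ hp μ
  rw [← hM] at e2
  have e3 : δ * z4_m (μs k) 0 < ε / 4 := by
    have : δ * z4_m (μs k) 0 < δ * (M + 1) := mul_lt_mul_of_pos_left hk1 hδ0
    have e : δ * (M + 1) = ε / 4 := by
      rw [hδ]
      field_simp
    linarith
  have e4 : δ * M < ε / 4 := by
    have : δ * M < δ * (M + 1) := mul_lt_mul_of_pos_left (by linarith) hδ0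
    have e : δ * (M + 1) = ε / 4 := by
      rw [hδ]
      field_simp
    linarith
  rw [Real.dist_eq] at hk3 ⊢
  rw [abs_lt] at hk3 ⊢
  rw [abs_le] at e1 e2
  constructor <;> linarith [hk3.1, hk3.2, e1.1, e1.2, e2.1, e2.2]

private lemma z4_inducing : IsInducing z4_m := by
  rw [isInducing_iff_nhds]
  intro μ
  refine le_antisymm (z4_m_cont.tendsto μ).le_comap ?_
  rw [nhds_subtype_eq_comap]
  rw [← Filter.map_le_iff_le_comap]
  change Tendsto (fun ρ : z4_S0 => (ρ : FiniteMeasure ℝ)) (comap z4_m (𝓝 (z4_m μ))) (𝓝 (μ : FiniteMeasure ℝ))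
  rw [FiniteMeasure.tendsto_iff_forall_integral_tendsto]
  intro g
  exact z4_tendsto (fun ρ => ρ) μ tendsto_comap g g.continuous

private lemma z4_inducing2 : IsInducing (fun e : z4_St => ((z4_m e.1, e.2) : (ℕ → ℝ) × (ℕ → ℂ))) :=
  z4_inducing.prodMap IsInducing.id

private instance : TopologicalSpace.PseudoMetrizableSpace z4_St := z4_inducing2.pseudoMetrizableSpace

private instance : SecondCountableTopology z4_St := z4_inducing2.secondCountableTopology

private lemma z4_compact (A : NNReal) : IsCompact {e : z4_St | (e.1 : FiniteMeasure ℝ).mass ≤ A ∧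
    ∀ j, e.2 j ∈ Metric.closedBall (0:ℂ) 1} := by
  have h1 : IsCompact {μ : z4_S0 | (μ : FiniteMeasure ℝ).mass ≤ A} := by
    rw [Subtype.isCompact_iff]
    have h := isCompact_setOfPred_finiteMeasure_le_of_isCompact (E := ℝ) A (K := Icc (0:ℝ) 1) isCompact_Icc
    convert! h using 1
    ext μ
    simp only [mem_image, mem_ofPred_eq, Subtype.exists, exists_and_left, exists_prop, exists_eq_right_right,
      FiniteMeasure.null_iff_toMeasure_null]
  have h2 : IsCompact (univ.pi fun _ : ℕ => Metric.closedBall (0:ℂ) 1) :=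
    isCompact_univ_pi fun _ => isCompact_closedBall _ _
  have h3 := h1.prod h2
  have h4 : {e : z4_St | (e.1 : FiniteMeasure ℝ).mass ≤ A ∧ ∀ j, e.2 j ∈ Metric.closedBall (0:ℂ) 1} =
      ({μ : z4_S0 | (μ : FiniteMeasure ℝ).mass ≤ A} ×ˢ (univ.pi fun _ : ℕ => Metric.closedBall (0:ℂ) 1) :
        Set (z4_S0 × (ℕ → ℂ))) := by
    ext e
    constructor
    · rintro ⟨ha, hb⟩
      exact ⟨ha, fun j _ => hb j⟩
    · rintro ⟨ha, hb⟩
      exact ⟨ha, fun j => hb j (mem_univ j)⟩
  rw [h4]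
  exact h3

private lemma z4_pr_pos (j : ℕ) : 0 < pr j := by
  unfold pr
  exact (Nat.prime_nth_prime j).pos

private lemma z4_ph_cont (T : ℝ) : Continuous fun om : ℝ => fun j : ℕ => (pr j : ℂ) ^ (-(I * (om * T))) := by
  refine continuous_pi fun j => ?_
  have h : (pr j : ℂ) ≠ 0 := by
    exact_mod_cast (z4_pr_pos j).ne'
  refine Continuous.const_cpow ?_ (Or.inl h)
  fun_prop

private lemma z4_ph_norm (T om : ℝ) (j : ℕ) : ‖(pr j : ℂ) ^ (-(I * (om * T)))‖ = 1 := by
  rw [Complex.norm_natCast_cpow_of_pos (z4_pr_pos j)]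
  simp

private noncomputable def z4_fm (μ : Measure ℝ) (h : IsFiniteMeasure μ) : FiniteMeasure ℝ := ⟨μ, h⟩

private lemma z4_fm_coe (μ : Measure ℝ) (h : IsFiniteMeasure μ) : ((z4_fm μ h : FiniteMeasure ℝ) : Measure ℝ) = μ := rfl

theorem limit_exists (β : ℝ) (h0 : 0 < β) (Tk : ℕ → ℝ) (hT : Tendsto Tk atTop atTop)
    (hcont : ∀ T : ℝ, 2 ≤ T → ∀ f : ℝ → ℝ, Continuous f → Continuous (fun om : ℝ => ∫ x, f x ∂(nu β T om)))
    (hfin : ∀ T om : ℝ, IsFiniteMeasure (nu β T om)) (hsupp : ∀ T om : ℝ, nu β T om (Icc 0 1)ᶜ = 0)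
    (htight : ∀ η : ℝ, 0 < η → ∃ A : ℝ, ∀ T : ℝ, 2 ≤ T →
      volume {om ∈ Icc (0:ℝ) 1 | ENNReal.ofReal A ≤ nu β T om univ} ≤ ENNReal.ofReal η) :
    ∃ φ : ℕ → ℕ, StrictMono φ ∧ ∃ (Ω : Type) (_ : MeasurableSpace Ω) (Q : Measure Ω) (_ : IsProbabilityMeasure Q)
      (ν : Ω → Measure ℝ) (W : Ω → (ℕ → ℂ)), IsLimitPoint β (fun k => Tk (φ k)) Q ν W := by
  obtain ⟨K0, hK0⟩ := (hT.eventually_ge_atTop 2).exists_forall_of_atTop
  set S : ℕ → ℝ := fun k => Tk (k + K0) with hS
  have hS2 : ∀ k, 2 ≤ S k := fun k => hK0 _ (Nat.le_add_left _ _)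
  -- the random elements
  let N : ℕ → ℝ → z4_S0 := fun k om => ⟨z4_fm (nu β (S k) om) (hfin _ _), hsupp _ _⟩
  let X : ℕ → ℝ → z4_St := fun k om => (N k om, fun j : ℕ => (pr j : ℂ) ^ (-(I * (om * S k))))
  have hNc : ∀ k, Continuous (N k) := by
    intro k
    refine Continuous.subtype_mk ?_ _
    refine continuous_iff_continuousAt.2 fun om => ?_
    refine FiniteMeasure.tendsto_iff_forall_integral_tendsto.2 fun g => ?_
    exact (hcont (S k) (hS2 k) g g.continuous).tendsto om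
  have hXc : ∀ k, Continuous (X k) := fun k => (hNc k).prodMk (z4_ph_cont (S k))
  set P0 : Measure ℝ := volume.restrict (Icc (0:ℝ) 1) with hP0
  have hP0p : IsProbabilityMeasure P0 := ⟨by simp [hP0]⟩
  let law : ℕ → ProbabilityMeasure z4_St := fun k =>
    ⟨P0.map (X k), Measure.isProbabilityMeasure_map (hXc k).measurable.aemeasurable⟩
  have htt : IsTightMeasureSet {((ρ : ProbabilityMeasure z4_St) : Measure z4_St) | ρ ∈ range law} := by
    rw [isTightMeasureSet_iff_exists_isCompact_measure_compl_le]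
    intro ε hε
    obtain ⟨η, hη0, hηε⟩ : ∃ η : ℝ, 0 < η ∧ ENNReal.ofReal η ≤ ε := by
      by_cases htop : ε = ∞
      · exact ⟨1, one_pos, by rw [htop]; exact le_top⟩
      · exact ⟨ε.toReal, ENNReal.toReal_pos hε.ne' htop, (ENNReal.ofReal_toReal htop).le⟩
    obtain ⟨A, hA⟩ := htight η hη0
    refine ⟨_, z4_compact A.toNNReal, ?_⟩
    rintro _ ⟨ρ, ⟨k, rfl⟩, rfl⟩
    change (P0.map (X k)) _ ≤ ε
    rw [Measure.map_apply (hXc k).measurable (z4_compact A.toNNReal).measurableSet.compl, hP0,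
      Measure.restrict_apply ((hXc k).measurable (z4_compact A.toNNReal).measurableSet.compl)]
    refine (measure_mono ?_).trans ((hA (S k) (hS2 k)).trans hηε)
    rintro om ⟨h1, h2⟩
    refine ⟨h2, ?_⟩
    by_contra h3
    refine h1 ⟨?_, fun j => ?_⟩
    · have h4 : nu β (S k) om univ < ENNReal.ofReal A := not_le.1 h3
      have h5 : (((z4_fm (nu β (S k) om) (hfin _ _)).mass : NNReal) : ℝ≥0∞) ≤ ((A.toNNReal : NNReal) : ℝ≥0∞) := by
        rw [FiniteMeasure.ennreal_mass, z4_fm_coe]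
        exact h4.le
      exact_mod_cast h5
    · rw [mem_closedBall_zero_iff]
      exact (z4_ph_norm (S k) om j).le
  have hcomp := isCompact_closure_of_isTightMeasureSet htt
  obtain ⟨Q, -, ψ, hψ, hlim⟩ := hcomp.tendsto_subseq (x := law) fun k => subset_closure ⟨k, rfl⟩
  refine ⟨fun k => ψ k + K0, fun a b hab => Nat.add_lt_add_right (hψ hab) K0, z4_St, inferInstance, (Q : Measure z4_St),
    inferInstance, fun e => ((e.1 : FiniteMeasure ℝ) : Measure ℝ), fun e => e.2, ?_, ?_, ?_, ?_, ?_⟩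
  · exact hT.comp ((tendsto_add_atTop_nat K0).comp hψ.tendsto_atTop)
  · have hc : Continuous fun e : z4_St => e.2 := continuous_snd
    exact hc.measurable.aemeasurable
  · exact ae_of_all _ fun e => ⟨inferInstance, e.1.2⟩
  · intro f hf
    have hc : Continuous fun e : z4_St => ∫ x, f x ∂((e.1 : FiniteMeasure ℝ) : Measure ℝ) :=
      (z4_cont_int f hf).comp continuous_fst
    exact hc.measurable.aemeasurable
  · intro f hf m F hF ⟨B, hB⟩
    have hc : Continuous fun e : z4_St => F (∫ x, f x ∂((e.1 : FiniteMeasure ℝ) : Measure ℝ), fun j : Fin m => e.2 j) := by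
      refine hF.comp (((z4_cont_int f hf).comp continuous_fst).prodMk ?_)
      refine continuous_pi fun j => ?_
      exact (continuous_apply (j : ℕ)).comp continuous_snd
    let H : BoundedContinuousFunction z4_St ℝ := BoundedContinuousFunction.ofNormedAddCommGroup _ hc B
      fun e => by rw [Real.norm_eq_abs]; exact hB _
    have h1 := (ProbabilityMeasure.tendsto_iff_forall_integral_tendsto.1 hlim) H
    refine h1.congr fun k => ?_
    change ∫ e, H e ∂(P0.map (X (ψ k))) = _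
    rw [integral_map (hXc _).measurable.aemeasurable H.continuous.aestronglyMeasurable, hP0]
    rfl

end Chaos
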